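import Pool.Agent.STZ.StmtsG

/-!
# Module EXP: one-parameter groups in `SU(n)`
-/

set_option autoImplicit false

namespace STZ

open MeasureTheory Matrix

open scoped ComplexConjugate Matrix Real

noncomputable section

namespace EXP

variable {n : ℕ}

theorem exp_mul_exp (X : Matrix (Fin n) (Fin n) ℂ) (s t : ℂ) :
    NormedSpace.exp ((s + t) • X) = NormedSpace.exp (s • X) * NormedSpace.exp (t • X) := by
  rw [add_smul]
  exact Matrix.exp_add_of_commute _ _ (((Commute.refl X).smul_left s).smul_right t)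

theorem exp_zero_smul (X : Matrix (Fin n) (Fin n) ℂ) :
    NormedSpace.exp ((0 : ℂ) • X) = 1 := by
  rw [zero_smul]
  exact NormedSpace.exp_zero

theorem star_exp_smul (X : Matrix (Fin n) (Fin n) ℂ) (hX : Xᴴ = -X) (t : ℝ) :
    star (NormedSpace.exp ((t : ℂ) • X)) = NormedSpace.exp ((-(t : ℂ)) • X) := by
  rw [Matrix.star_eq_conjTranspose, ← Matrix.exp_conjTranspose]
  congr 1
  rw [Matrix.conjTranspose_smul, hX]
  simp

theorem det_exp_smul (X : Matrix (Fin n) (Fin n) ℂ) (hX : Xᴴ = -X) (hT : X.trace = 0) (t : ℝ) :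
    (NormedSpace.exp ((t : ℂ) • X)).det = 1 := by
  have hH : (Complex.I • X).IsHermitian := by
    rw [Matrix.IsHermitian, Matrix.conjTranspose_smul, hX]
    simp
  have hs := hH.spectral_theorem
  rw [Unitary.conjStarAlgAut_apply] at hs
  set U : Matrix (Fin n) (Fin n) ℂ := (hH.eigenvectorUnitary : Matrix (Fin n) (Fin n) ℂ) with hU
  have hUU : star U * U = 1 := Unitary.coe_star_mul_self hH.eigenvectorUnitary
  have hUU' : U * star U = 1 := Unitary.coe_mul_star_self hH.eigenvectorUnitary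
  have hinv : U⁻¹ = star U := Matrix.inv_eq_left_inv hUU
  have hunit : IsUnit U := by
    rw [isUnit_iff_exists]
    exact ⟨star U, hUU', hUU⟩
  have h1 : (t : ℂ) • X = U * diagonal (fun i => (-(Complex.I * t) * (hH.eigenvalues i : ℂ))) * U⁻¹ := by
    have h2 : (t : ℂ) • X = (-(Complex.I * t)) • (Complex.I • X) := by
      rw [smul_smul]
      congr 1
      linear_combination (t : ℂ) * Complex.I_mul_I
    have h3 : diagonal (fun i => (-(Complex.I * t) * (hH.eigenvalues i : ℂ))) =
        (-(Complex.I * t)) • (diagonal (RCLike.ofReal ∘ hH.eigenvalues) : Matrix (Fin n) (Fin n) ℂ) := by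
      rw [← Matrix.diagonal_smul]
      rfl
    refine h2.trans ((congrArg (fun M : Matrix (Fin n) (Fin n) ℂ => (-(Complex.I * t)) • M) hs).trans ?_)
    rw [hinv, h3]
    simp only [Matrix.mul_smul, Matrix.smul_mul]
  rw [h1, Matrix.exp_conj _ _ hunit, Matrix.exp_diagonal, Matrix.det_mul, Matrix.det_mul,
    Matrix.det_diagonal]
  have h4 : (U.det * ∏ i, NormedSpace.exp (fun i => (-(Complex.I * t) * (hH.eigenvalues i : ℂ))) i) *
      U⁻¹.det = ∏ i, NormedSpace.exp (fun i => (-(Complex.I * t) * (hH.eigenvalues i : ℂ))) i := by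
    have h5 : U.det * U⁻¹.det = 1 := by
      rw [← Matrix.det_mul, hinv, hUU', Matrix.det_one]
    linear_combination (∏ i, NormedSpace.exp
      (fun i => (-(Complex.I * t) * (hH.eigenvalues i : ℂ))) i) * h5
  rw [h4]
  have h6 : ∀ i, NormedSpace.exp (fun i => (-(Complex.I * t) * (hH.eigenvalues i : ℂ))) i =
      Complex.exp (-(Complex.I * t) * (hH.eigenvalues i : ℂ)) := by
    intro i
    rw [Pi.coe_exp, Complex.exp_eq_exp_ℂ]
  simp only [h6]
  rw [← Complex.exp_sum, ← Finset.mul_sum]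
  have h7 : (Complex.I • X).trace = ∑ i, (hH.eigenvalues i : ℂ) := hH.trace_eq_sum_eigenvalues
  rw [← h7, Matrix.trace_smul, hT]
  simp

theorem mem_SU (X : Matrix (Fin n) (Fin n) ℂ) (hX : X ∈ su n) (t : ℝ) :
    NormedSpace.exp ((t : ℂ) • X) ∈ Matrix.specialUnitaryGroup (Fin n) ℂ := by
  rw [Matrix.mem_specialUnitaryGroup_iff]
  refine ⟨?_, det_exp_smul X hX.1 hX.2 t⟩
  rw [Matrix.mem_unitaryGroup_iff, star_exp_smul X hX.1, ← exp_mul_exp, add_neg_cancel,
    exp_zero_smul]

set_option backward.isDefEq.respectTransparency false in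
open scoped Matrix.Norms.Operator in
theorem continuous_exp_smul (X : Matrix (Fin n) (Fin n) ℂ) :
    Continuous fun t : ℝ => NormedSpace.exp ((t : ℂ) • X) := by
  have h1 : Continuous fun t : ℝ => (t : ℂ) • X := Complex.continuous_ofReal.smul continuous_const
  exact NormedSpace.exp_continuous.comp h1

set_option backward.isDefEq.respectTransparency false in
open scoped Matrix.Norms.Operator in
theorem hasDerivAt_entry (X : Matrix (Fin n) (Fin n) ℂ) (i j : Fin n) :
    HasDerivAt (fun t : ℝ => NormedSpace.exp ((t : ℂ) • X) i j) (X i j) 0 := by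
  have h1 : HasDerivAt (fun u : ℂ => NormedSpace.exp (u • X)) (NormedSpace.exp ((0 : ℂ) • X) * X) 0 :=
    hasDerivAt_exp_smul_const X (0 : ℂ)
  rw [exp_zero_smul, one_mul] at h1
  let L : Matrix (Fin n) (Fin n) ℂ →L[ℂ] ℂ := (Matrix.entryLinearMap ℂ ℂ i j).toContinuousLinearMap
  have h2 : HasDerivAt (fun u : ℂ => L (NormedSpace.exp (u • X))) (L X) 0 :=
    L.hasFDerivAt.comp_hasDerivAt _ h1
  have h3 : HasDerivAt (fun u : ℂ => NormedSpace.exp (u • X) i j) (X i j) ((0 : ℝ) : ℂ) := by
    rw [Complex.ofReal_zero]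
    exact h2
  exact h3.comp_ofReal

end EXP

open EXP

theorem t_EXP : S_EXP := by
  intro n X hX
  have hcoe : ∀ t : ℝ, (ex X t).1 = NormedSpace.exp ((t : ℂ) • X) := by
    intro t
    rw [ex, dif_pos (mem_SU X hX t)]
  refine ⟨hcoe, ?_, ?_, ?_, ?_⟩
  · intro s t
    apply Subtype.ext
    rw [coe_mul, hcoe, hcoe, hcoe, Complex.ofReal_add, exp_mul_exp]
  · apply Subtype.ext
    rw [hcoe, Complex.ofReal_zero, exp_zero_smul]
    rfl
  · rw [continuous_induced_rng]
    have h1 : (Subtype.val ∘ ex X) = fun t : ℝ => NormedSpace.exp ((t : ℂ) • X) := by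
      funext t
      exact hcoe t
    rw [h1]
    exact continuous_exp_smul X
  · intro i j
    have h1 : (fun t : ℝ => (ex X t).1 i j) = fun t : ℝ => NormedSpace.exp ((t : ℂ) • X) i j := by
      funext t
      rw [hcoe]
    rw [h1]
    exact hasDerivAt_entry X i j

end

end STZ
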