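import Pool.Agent.STZ.Defs

/-!
# Topology of `SU(n)`
-/

namespace STZ

open MeasureTheory Matrix

open scoped ComplexConjugate Matrix

instance (n : ℕ) : ContinuousInv (SU n) := by
  constructor
  rw [continuous_induced_rng]
  exact (continuous_subtype_val : Continuous (fun g : SU n => g.1)).matrix_conjTranspose

instance (n : ℕ) : IsTopologicalGroup (SU n) where

/-- the entries of a unitary matrix have absolute value at most `1` -/
theorem norm_entry_le {n : ℕ} (g : SU n) (i j : Fin n) : ‖g.1 i j‖ ≤ 1 := by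
  have h : g.1 * star g.1 = 1 := g.2.1.2
  have h1 := congrFun (congrFun h i) i
  rw [Matrix.mul_apply, Matrix.one_apply_eq] at h1
  have h2 : ∑ k, ‖g.1 i k‖ ^ 2 = 1 := by
    have h3 : ((∑ k, ‖g.1 i k‖ ^ 2 : ℝ) : ℂ) = 1 := by
      rw [← h1]
      push_cast
      refine Finset.sum_congr rfl fun k _ => ?_
      rw [Matrix.star_apply]
      exact (Complex.mul_conj' _).symm
    exact_mod_cast h3
  have h4 : ‖g.1 i j‖ ^ 2 ≤ 1 := by
    rw [← h2]
    exact Finset.single_le_sum (f := fun k => ‖g.1 i k‖ ^ 2) (fun k _ => by positivity)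
      (Finset.mem_univ j)
  nlinarith [norm_nonneg (g.1 i j)]

theorem isClosed_SU (n : ℕ) : IsClosed ((Matrix.specialUnitaryGroup (Fin n) ℂ :
    Submonoid (Matrix (Fin n) (Fin n) ℂ)) : Set (Matrix (Fin n) (Fin n) ℂ)) := by
  have : ((Matrix.specialUnitaryGroup (Fin n) ℂ : Submonoid (Matrix (Fin n) (Fin n) ℂ)) :
      Set (Matrix (Fin n) (Fin n) ℂ)) =
      {A | star A * A = 1} ∩ {A | A * star A = 1} ∩ {A | A.det = 1} := by
    ext A
    exact Iff.rfl
  rw [this]
  have hs : Continuous fun A : Matrix (Fin n) (Fin n) ℂ => star A :=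
    continuous_id.matrix_conjTranspose
  refine ((isClosed_eq (hs.matrix_mul continuous_id) continuous_const).inter
    (isClosed_eq (continuous_id.matrix_mul hs) continuous_const)).inter
    (isClosed_eq continuous_id.matrix_det continuous_const)

instance (n : ℕ) : CompactSpace (SU n) := by
  refine isCompact_iff_compactSpace (s := ((Matrix.specialUnitaryGroup (Fin n) ℂ :
    Submonoid (Matrix (Fin n) (Fin n) ℂ)) : Set (Matrix (Fin n) (Fin n) ℂ))).1 ?_
  have hK : IsCompact (Set.pi Set.univ fun _ : Fin n => Set.pi Set.univ fun _ : Fin n =>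
      Metric.closedBall (0 : ℂ) 1) :=
    isCompact_univ_pi fun _ => isCompact_univ_pi fun _ => isCompact_closedBall 0 1
  refine IsCompact.of_isClosed_subset (X := Matrix (Fin n) (Fin n) ℂ) hK (isClosed_SU n) ?_
  intro A hA i _ j _
  rw [mem_closedBall_zero_iff]
  exact norm_entry_le ⟨A, hA⟩ i j

instance (n : ℕ) : T2Space (SU n) := inferInstance

instance (n : ℕ) : SecondCountableTopology (SU n) := by
  have : SecondCountableTopology (Matrix (Fin n) (Fin n) ℂ) :=
    inferInstanceAs (SecondCountableTopology (Fin n → Fin n → ℂ))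
  exact TopologicalSpace.Subtype.secondCountableTopology _

theorem continuous_entry {n : ℕ} (i j : Fin n) : Continuous fun g : SU n => g.1 i j :=
  continuous_subtype_val.matrix_elem i j

theorem continuous_trace {n : ℕ} : Continuous fun g : SU n => g.1.trace :=
  continuous_subtype_val.matrix_trace

theorem coe_mul {n : ℕ} (g h : SU n) : (g * h).1 = g.1 * h.1 := rfl

theorem coe_one {n : ℕ} : (1 : SU n).1 = 1 := rfl

theorem coe_inv {n : ℕ} (g : SU n) : (g⁻¹).1 = g.1ᴴ := rfl

end STZ
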