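import Pool.Agent.STZ.StmtsY

/-!
# DENS: the singular set of the torus is small
-/

namespace STZ

open MeasureTheory Matrix

noncomputable section

namespace DENS

lemma fst_ne_zero {r : ℕ} {D : RD r} {P : RT r} {B : Matrix (Fin r) (Fin r) ℤ} {h : ℕ}
    (hR : RTD D P B h) {p : (Fin r → ℤ) × (Fin r → ℤ)} (hp : p ∈ P) : p.1 ≠ 0 := by
  intro h0
  obtain ⟨w, _, hdet, hw⟩ := hR.refl p hp
  have h2 : ∀ l, w *ᵥ l = l := by
    intro l
    rw [hw l, h0]
    simp
  have h1 : w = 1 := by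
    ext i j
    have h3 := congrFun (h2 (Pi.single j 1)) i
    rw [Matrix.mulVec_single_one] at h3
    rw [Matrix.one_apply, ← Pi.single_apply, ← h3]
    rfl
  rw [h1, Matrix.det_one] at hdet
  norm_num at hdet

/-- the polynomial whose value at `T` is the pairing with `(1, T, T², …)` -/
def pol {r : ℕ} (κ : Fin r → ℤ) : Polynomial ℝ :=
  ∑ i : Fin r, Polynomial.C (κ i : ℝ) * Polynomial.X ^ (i : ℕ)

lemma pol_ne_zero {r : ℕ} {κ : Fin r → ℤ} (hκ : κ ≠ 0) : pol κ ≠ 0 := by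
  obtain ⟨i, hi⟩ := Function.ne_iff.1 hκ
  intro h0
  have h1 : (pol κ).coeff (i : ℕ) = (κ i : ℝ) := by
    unfold pol
    rw [Polynomial.finsetSum_coeff, Finset.sum_eq_single i]
    · rw [Polynomial.coeff_C_mul, Polynomial.coeff_X_pow, if_pos rfl, mul_one]
    · intro j _ hj
      rw [Polynomial.coeff_C_mul, Polynomial.coeff_X_pow, if_neg, mul_zero]
      intro h2
      exact hj (Fin.ext h2.symm)
    · intro h2
      exact absurd (Finset.mem_univ i) h2
  rw [h0, Polynomial.coeff_zero] at h1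
  apply hi
  have h2 : (κ i : ℝ) = 0 := h1.symm
  exact_mod_cast h2

lemma pol_eval {r : ℕ} (κ : Fin r → ℤ) (T : ℝ) :
    (pol κ).eval T = dz κ (fun i => T ^ (i : ℕ)) := by
  unfold pol dz
  rw [Polynomial.eval_finsetSum]
  refine Finset.sum_congr rfl fun i _ => ?_
  rw [Polynomial.eval_mul, Polynomial.eval_C, Polynomial.eval_pow, Polynomial.eval_X]

lemma exists_u {r : ℕ} (P : RT r) (hP : ∀ p ∈ P, p.1 ≠ 0) :
    ∃ u : Fin r → ℝ, ∀ p ∈ P, dz p.1 u ≠ 0 := by
  have h1 : ∏ p ∈ P, pol p.1 ≠ 0 := Finset.prod_ne_zero_iff.2 fun p hp => pol_ne_zero (hP p hp)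
  obtain ⟨T, hT⟩ := Polynomial.exists_eval_ne_zero_of_natDegree_lt_card (∏ p ∈ P, pol p.1) h1 (by
    rw [Cardinal.mk_real]
    exact (Cardinal.natCast_lt_aleph0).trans Cardinal.aleph0_lt_continuum)
  refine ⟨fun i => T ^ (i : ℕ), fun p hp h0 => hT ?_⟩
  rw [Polynomial.eval_prod]
  refine Finset.prod_eq_zero hp ?_
  rw [pol_eval, h0]

lemma dz_line {r : ℕ} (κ : Fin r → ℤ) (θ u : Fin r → ℝ) (s : ℝ) :
    dz κ (θ + s • u) = dz κ θ + s * dz κ u := by
  unfold dz
  rw [Finset.mul_sum, ← Finset.sum_add_distrib]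
  refine Finset.sum_congr rfl fun i _ => ?_
  simp only [Pi.add_apply, Pi.smul_apply, smul_eq_mul]
  ring

end DENS

open DENS in
theorem t_DENS : S_DENS := by
  intro r D P B h hR
  have hP : ∀ p ∈ P, p.1 ≠ 0 := fun p hp => fst_ne_zero hR hp
  obtain ⟨u, hu⟩ := exists_u P hP
  refine ⟨⟨u, hu⟩, ?_⟩
  intro F hF hz θ
  have hA : (⋃ p ∈ P, Set.range fun k : ℤ => ((k : ℝ) - dz p.1 θ) / dz p.1 u).Countable :=
    Set.Countable.biUnion (Finset.countable_toSet P) fun p _ => Set.countable_range _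
  have hd := hA.dense_compl ℝ
  have hc : Continuous fun s : ℝ => F (θ + s • u) :=
    hF.comp (continuous_const.add (continuous_id.smul continuous_const))
  have h1 : (fun s : ℝ => F (θ + s • u)) = fun _ => 0 := by
    refine Continuous.ext_on hd hc continuous_const ?_
    intro s hs
    refine hz _ fun p hp h0 => hs ?_
    simp only [Set.mem_iUnion, Set.mem_range]
    refine ⟨p, hp, round (dz p.1 (θ + s • u)), ?_⟩
    have h2 : dz p.1 (θ + s • u) - round (dz p.1 (θ + s • u)) = 0 := abs_eq_zero.1 h0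
    have h3 : ((round (dz p.1 (θ + s • u)) : ℤ) : ℝ) = dz p.1 θ + s * dz p.1 u := by
      rw [← dz_line]
      linarith
    rw [h3, add_sub_cancel_left, mul_div_assoc, div_self (hu p hp), mul_one]
  have h2 := congrFun h1 0
  simpa using h2

end

end STZ
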