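import Pool.Agent.STZ.StmtsT

/-!
# Geometric sums
-/

namespace STZ

open scoped Real

namespace GEO

theorem eu_add (x y : ℝ) : eu (x + y) = eu x * eu y := by
  unfold eu
  rw [← Complex.exp_add]
  congr 1
  push_cast
  ring

theorem eu_int (n : ℤ) : eu n = 1 := by
  unfold eu
  rw [Complex.exp_eq_one_iff]
  exact ⟨n, by push_cast; ring⟩

theorem norm_eu (x : ℝ) : ‖eu x‖ = 1 := by
  unfold eu
  have : (2 * π * x * Complex.I : ℂ) = ((2 * π * x : ℝ) : ℂ) * Complex.I := by push_cast; ring
  rw [this, Complex.norm_exp_ofReal_mul_I]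

theorem lower (θ : ℝ) : 4 * nd θ ≤ ‖1 - eu θ‖ := by
  have h1 : eu θ = eu (θ - round θ) := by
    have h2 : eu θ = eu ((θ - round θ) + round θ) := by rw [sub_add_cancel]
    rw [h2, eu_add, eu_int, mul_one]
  have h3 : |θ - round θ| ≤ 1 / 2 := abs_sub_round θ
  rw [h1]
  unfold nd
  generalize θ - round θ = δ at h3
  have h4 : ‖1 - eu δ‖ = ‖2 * Real.sin (π * δ)‖ := by
    have h5 := Complex.norm_exp_I_mul_ofReal_sub_one (2 * π * δ)
    rw [norm_sub_rev]
    have h6 : eu δ = Complex.exp (Complex.I * ((2 * π * δ : ℝ) : ℂ)) := by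
      unfold eu
      congr 1
      push_cast
      ring
    rw [h6, h5]
    congr 3
    ring
  rw [h4, Real.norm_eq_abs, abs_mul, abs_of_pos (two_pos : (0 : ℝ) < 2)]
  have h7 : |Real.sin (π * δ)| = Real.sin (π * |δ|) := by
    rcases le_total 0 δ with h | h
    · rw [abs_of_nonneg h, abs_of_nonneg]
      apply Real.sin_nonneg_of_nonneg_of_le_pi (by positivity)
      rw [abs_of_nonneg h] at h3
      nlinarith [Real.pi_pos]
    · rw [abs_of_nonpos h, mul_neg, Real.sin_neg, abs_of_nonpos]
      rw [abs_of_nonpos h] at h3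
      have : 0 ≤ Real.sin (π * (-δ)) := by
        apply Real.sin_nonneg_of_nonneg_of_le_pi
        · exact mul_nonneg Real.pi_pos.le (by linarith)
        · nlinarith [Real.pi_pos]
      rw [mul_neg, Real.sin_neg] at this
      linarith
  rw [h7]
  have h8 := Real.mul_le_sin (x := π * |δ|) (by positivity) (by nlinarith [Real.pi_pos])
  have h9 : 2 / π * (π * |δ|) = 2 * |δ| := by
    field_simp
  rw [h9] at h8
  linarith

theorem eu_mul_int (θ : ℝ) (k : ℤ) : eu (k * θ) = eu θ ^ k := by
  unfold eu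
  rw [← Complex.exp_int_mul]
  congr 1
  push_cast
  ring

theorem telescope (θ : ℝ) (a : ℤ) (n : ℕ) :
    (1 - eu θ) * ∑ k ∈ Finset.Ico a (a + n), eu (k * θ) = eu (a * θ) - eu ((a + n : ℤ) * θ) := by
  induction n with
  | zero => simp
  | succ n ih =>
    have h1 : Finset.Ico a (a + ((n + 1 : ℕ) : ℤ)) = insert (a + n : ℤ) (Finset.Ico a (a + n)) := by
      ext x
      simp only [Finset.mem_Ico, Finset.mem_insert]
      push_cast
      omega
    rw [h1, Finset.sum_insert (by simp), mul_add, ih]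
    have h2 : eu (((a + ((n + 1 : ℕ) : ℤ)) : ℤ) * θ) = eu θ * eu (((a + n : ℤ) : ℝ) * θ) := by
      rw [← eu_add]
      congr 1
      push_cast
      ring
    rw [h2]
    ring

end GEO

open GEO in
theorem t_GEO : S_GEO := by
  intro R a b θ hb
  have hnd : 0 ≤ nd θ := abs_nonneg _
  have htriv : ‖∑ k ∈ Finset.Ico a b, eu (k * θ)‖ ≤ R := by
    refine (norm_sum_le _ _).trans ?_
    rw [Finset.sum_congr rfl (fun k _ => norm_eu _), Finset.sum_const, Int.card_Ico, nsmul_eq_mul,
      mul_one]
    have : (b - a).toNat ≤ R := by omega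
    exact_mod_cast this
  unfold mn
  rcases le_or_gt (2 * R * nd θ) 1 with h | h
  · rw [max_eq_left h, div_one]
    exact htriv
  · rw [max_eq_right h.le]
    have hR : (0 : ℝ) < R := by
      by_contra hR
      have : (R : ℝ) = 0 := le_antisymm (not_lt.1 hR) (Nat.cast_nonneg R)
      rw [this] at h
      norm_num at h
    have hpos : 0 < nd θ := by
      by_contra hp
      have : nd θ = 0 := le_antisymm (not_lt.1 hp) hnd
      rw [this] at h
      norm_num at h
    have h1 : (R : ℝ) / (2 * R * nd θ) = 1 / (2 * nd θ) := by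
      field_simp
    rw [h1]
    rcases le_or_gt b a with hba | hba
    · rw [Finset.Ico_eq_empty (not_lt.2 hba), Finset.sum_empty, norm_zero]
      positivity
    · obtain ⟨n, hn⟩ : ∃ n : ℕ, b = a + n := ⟨(b - a).toNat, by omega⟩
      subst hn
      have h2 := congrArg norm (telescope θ a n)
      rw [norm_mul] at h2
      have h3 : ‖eu (a * θ) - eu ((a + n : ℤ) * θ)‖ ≤ 2 := by
        refine (norm_sub_le _ _).trans ?_
        rw [norm_eu, norm_eu]
        norm_num
      rw [← h2] at h3
      have h4 := lower θ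
      rw [le_div_iff₀ (by positivity)]
      have h5 : 0 ≤ ‖∑ k ∈ Finset.Ico a (a + (n : ℤ)), eu (k * θ)‖ := norm_nonneg _
      nlinarith

end STZ
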