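import Pool.Agent.STZ.StmtsT

/-!
# Module TIME
-/

namespace STZ

open MeasureTheory Matrix

open scoped ComplexConjugate Matrix Real

noncomputable section

namespace TIME

theorem nd_continuous : Continuous nd := by
  have h : nd = fun θ : ℝ => ‖(θ : UnitAddCircle)‖ := by
    funext θ
    rw [UnitAddCircle.norm_eq]
    rfl
  rw [h]
  exact continuous_norm.comp (AddCircle.continuous_mk' 1)

theorem mn_nonneg (R : ℕ) (θ : ℝ) : 0 ≤ mn R θ :=
  div_nonneg (Nat.cast_nonneg R) (zero_le_one.trans (le_max_left _ _))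

theorem mn_continuous (R : ℕ) : Continuous (mn R) := by
  unfold mn
  refine continuous_const.div (continuous_const.max (continuous_const.mul nd_continuous)) ?_
  intro θ
  exact (zero_lt_one.trans_le (le_max_left _ _)).ne'

theorem WW_nonneg (R c : ℕ) (t : ℝ) : 0 ≤ WW R c t :=
  Finset.sum_nonneg fun _ _ => mn_nonneg R _

theorem WW_continuous (R c : ℕ) : Continuous (WW R c) := by
  unfold WW
  refine continuous_finsetSum _ fun x _ => ?_
  exact (mn_continuous R).comp (continuous_id.mul continuous_const)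

theorem eu_continuous (a : ℝ) : Continuous fun t : ℝ => eu (t * a) := by
  unfold eu
  fun_prop

theorem eu_add (a b : ℝ) : eu (a + b) = eu a * eu b := by
  rw [eu, eu, eu, ← Complex.exp_add]
  congr 1
  push_cast
  ring

end TIME

open TIME in
theorem t_TIME : M_TIME := by
  intro hWINT hTT hWEYL r Q A q hQ hr hq
  obtain ⟨c, hc, hW⟩ := hWEYL r Q A hQ
  have hr2 : (2 : ℝ) ≤ r := by exact_mod_cast hr
  have hσ : (2 : ℝ) < r * q / 2 := by nlinarith
  obtain ⟨C, hC, hI⟩ := hWINT c (r * q / 2) hc hσ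
  refine ⟨C, hC, ?_⟩
  intro R z z' H _ _ G hR
  have h1 := hTT H ((Fin r → ℤ) × (Fin r → ℤ)) (bx z R ×ˢ bx z' R)
    (fun p => Q p.1 + Q p.2) (fun p => G p.1 p.2) q hq.le
  simp only [Finset.sum_product] at h1
  refine h1.trans ?_
  have hS : (0 : ℝ) ≤ ∑ x ∈ bx z R, ∑ y ∈ bx z' R, ‖G x y‖ ^ 2 :=
    Finset.sum_nonneg fun _ _ => Finset.sum_nonneg fun _ _ => sq_nonneg _
  refine mul_le_mul_of_nonneg_right ?_ (Real.rpow_nonneg hS _)
  have h2 := hI R hR
  have e1 : 2 * (r * q / 2) - 2 = r * q - 2 := by ring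
  rw [e1] at h2
  refine le_trans ?_ h2
  have hpt : ∀ t : ℝ, ‖∑ x ∈ bx z R, ∑ y ∈ bx z' R, eu (t * ((Q x + Q y : ℤ) : ℝ))‖ ^ (q / 2) ≤
      WW R c t ^ (r * q / 2) := by
    intro t
    have hW0 := WW_nonneg R c t
    have e2 : ∑ x ∈ bx z R, ∑ y ∈ bx z' R, eu (t * ((Q x + Q y : ℤ) : ℝ)) =
        (∑ x ∈ bx z R, eu (t * Q x)) * ∑ y ∈ bx z' R, eu (t * Q y) := by
      rw [Finset.sum_mul_sum]
      refine Finset.sum_congr rfl fun x _ => Finset.sum_congr rfl fun y _ => ?_
      rw [← eu_add]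
      congr 1
      push_cast
      ring
    have h3 : ‖∑ x ∈ bx z R, ∑ y ∈ bx z' R, eu (t * ((Q x + Q y : ℤ) : ℝ))‖ ≤ WW R c t ^ r := by
      have h4 : ‖∑ x ∈ bx z R, ∑ y ∈ bx z' R, eu (t * ((Q x + Q y : ℤ) : ℝ))‖ ^ 2 ≤
          (WW R c t ^ r) ^ 2 := by
        rw [e2, norm_mul, mul_pow, sq (WW R c t ^ r)]
        exact mul_le_mul (hW R z t hR) (hW R z' t hR) (sq_nonneg _) (pow_nonneg hW0 _)
      exact (pow_le_pow_iff_left₀ (norm_nonneg _) (pow_nonneg hW0 _) two_ne_zero).1 h4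
    have h5 : WW R c t ^ ((r : ℝ) * q / 2) = (WW R c t ^ r) ^ (q / 2) := by
      rw [← Real.rpow_natCast, ← Real.rpow_mul hW0]
      congr 1
      ring
    rw [h5]
    exact Real.rpow_le_rpow (norm_nonneg _) h3 (by linarith)
  refine intervalIntegral.integral_mono_on zero_le_one ?_ ?_ fun t _ => hpt t
  · apply Continuous.intervalIntegrable
    refine Continuous.rpow_const (continuous_norm.comp ?_) fun _ => Or.inr (by linarith)
    refine continuous_finsetSum _ fun x _ => continuous_finsetSum _ fun y _ => ?_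
    exact eu_continuous _
  · apply Continuous.intervalIntegrable
    exact (WW_continuous R c).rpow_const fun _ => Or.inr (by linarith)

end

end STZ
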