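import Pool.Agent.STZ.StmtsY
import Pool.Agent.STZ.GEO
import Pool.Agent.STZ.TIME

/-!
# KSUP: the bound for the kernel on the torus
-/

namespace STZ

open MeasureTheory Matrix

open scoped ComplexConjugate Matrix Real

noncomputable section

namespace KSUP

lemma dz_line {r : ℕ} (κ : Fin r → ℤ) (θ u : Fin r → ℝ) (s : ℝ) :
    dz κ (θ + s • u) = dz κ θ + s * dz κ u := by
  unfold dz
  rw [Finset.mul_sum, ← Finset.sum_add_distrib]
  refine Finset.sum_congr rfl fun i _ => ?_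
  simp only [Pi.add_apply, Pi.smul_apply, smul_eq_mul]
  ring

/-- the sum of FSUM -/
def fs {r : ℕ} (D : RD r) (N : ℕ) (t : ℝ) (ζ : Fin r → ℂ) : ℂ :=
  ∑ l ∈ bx (1 : Fin r → ℤ) N, (D.dim l : ℂ) * eu (t * D.Q l) *
      Complex.exp (2 * π * Complex.I * ∑ i, (l i : ℂ) * ζ i)

/-- the entire function -/
def FE {r : ℕ} (D : RD r) (N : ℕ) (t : ℝ) (ζ : Fin r → ℂ) : ℂ :=
  ∑ l ∈ bx (1 : Fin r → ℤ) N, (D.dim l : ℂ) * eu (t * D.Q l) * ATC D (fun j => (l j : ℂ)) ζ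

lemma FE_eq {r : ℕ} (D : RD r) (N : ℕ) (t : ℝ) (ζ : Fin r → ℂ) :
    FE D N t ζ = ∑ w ∈ D.W, (w.det : ℂ) * fs D N t (fun j => ∑ i, (w i j : ℂ) * ζ i) := by
  unfold FE fs ATC
  simp_rw [Finset.mul_sum]
  rw [Finset.sum_comm]
  refine Finset.sum_congr rfl fun w _ => Finset.sum_congr rfl fun l _ => ?_
  have h1 : ∑ i, (∑ j, (w i j : ℂ) * (l j : ℂ)) * ζ i = ∑ j, (l j : ℂ) * ∑ i, (w i j : ℂ) * ζ i := by
    simp_rw [Finset.sum_mul, Finset.mul_sum]
    rw [Finset.sum_comm]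
    refine Finset.sum_congr rfl fun j _ => Finset.sum_congr rfl fun i _ => ?_
    ring
  rw [← Finset.mul_sum] at *
  rw [h1]
  simp_rw [Finset.mul_sum]
  ring

/-- the complex line -/
def ln {r : ℕ} (θ u : Fin r → ℝ) (z : ℂ) : Fin r → ℂ := fun i => (θ i : ℂ) + z * (u i : ℂ)

lemma FE_diff {r : ℕ} (D : RD r) (N : ℕ) (t : ℝ) (θ u : Fin r → ℝ) :
    Differentiable ℂ fun z => FE D N t (ln θ u z) := by
  unfold FE ATC ln
  fun_prop

lemma FE_real {r : ℕ} {D : RD r} {P : RT r} {B : Matrix (Fin r) (Fin r) ℤ} (hA : ATF D P B)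
    (hW : ∀ l θ, D.ψ (XT D θ) l * AT D 1 θ = AT D l θ) (N : ℕ) (t : ℝ) (θ u : Fin r → ℝ) (s : ℝ) :
    FE D N t (ln θ u (s : ℂ)) = KT D N t (θ + s • u) * AT D 1 (θ + s • u) := by
  have h1 : ln θ u (s : ℂ) = fun i => (((θ + s • u) i : ℝ) : ℂ) := by
    funext i
    unfold ln
    simp only [Pi.add_apply, Pi.smul_apply, smul_eq_mul]
    push_cast
    ring
  rw [h1]
  unfold FE KT
  rw [Finset.sum_mul]
  refine Finset.sum_congr rfl fun l _ => ?_
  rw [hA.real, ← hW]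
  ring

lemma FE_bound {r : ℕ} {D : RD r} {N : ℕ} {t : ℝ} {Bd : ℝ} (θ u : Fin r → ℝ)
    (hB : ∀ ζ : Fin r → ℂ, (∀ i, |(ζ i).im| ≤ 1 / N) → ‖fs D N t ζ‖ ≤ Bd)
    {z : ℂ} (hN : 1 ≤ N)
    (hz : ‖z‖ ≤ 1 / (N * (1 + ∑ w ∈ D.W, ∑ i, ∑ j, |(w i j : ℝ)| * |u i|))) :
    ‖FE D N t (ln θ u z)‖ ≤ (∑ w ∈ D.W, ‖(w.det : ℂ)‖) * Bd := by
  rw [FE_eq, Finset.sum_mul]
  refine (norm_sum_le _ _).trans (Finset.sum_le_sum fun w hw => ?_)
  rw [norm_mul]
  refine mul_le_mul_of_nonneg_left (hB _ fun j => ?_) (norm_nonneg _)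
  have hN' : (0 : ℝ) < N := by exact_mod_cast hN
  have h1 : (∑ i, (w i j : ℂ) * ln θ u z i).im = z.im * ∑ i, (w i j : ℝ) * u i := by
    rw [Complex.im_sum, Finset.mul_sum]
    refine Finset.sum_congr rfl fun i _ => ?_
    unfold ln
    simp [Complex.mul_im, Complex.add_im]
    ring
  have h2 : |∑ i, (w i j : ℝ) * u i| ≤ ∑ w ∈ D.W, ∑ i, ∑ j, |(w i j : ℝ)| * |u i| := by
    calc |∑ i, (w i j : ℝ) * u i| ≤ ∑ i, |(w i j : ℝ) * u i| := Finset.abs_sum_le_sum_abs _ _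
      _ ≤ ∑ i, ∑ j, |(w i j : ℝ)| * |u i| := by
          refine Finset.sum_le_sum fun i _ => ?_
          rw [abs_mul]
          exact Finset.single_le_sum (f := fun j => |(w i j : ℝ)| * |u i|)
            (fun j _ => mul_nonneg (abs_nonneg _) (abs_nonneg _)) (Finset.mem_univ j)
      _ ≤ _ := Finset.single_le_sum (f := fun w : Matrix (Fin r) (Fin r) ℤ =>
            ∑ i, ∑ j, |(w i j : ℝ)| * |u i|)
            (fun w _ => Finset.sum_nonneg fun i _ => Finset.sum_nonneg fun j _ =>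
              mul_nonneg (abs_nonneg _) (abs_nonneg _)) hw
  rw [h1, abs_mul]
  have h3 : |z.im| ≤ ‖z‖ := Complex.abs_im_le_norm z
  set A := ∑ w ∈ D.W, ∑ i, ∑ j, |(w i j : ℝ)| * |u i| with hA
  have hA0 : 0 ≤ A := (abs_nonneg _).trans h2
  calc |z.im| * |∑ i, (w i j : ℝ) * u i| ≤ 1 / (N * (1 + A)) * (1 + A) := by
        refine mul_le_mul (h3.trans hz) (h2.trans (by linarith)) (abs_nonneg _) (by positivity)
    _ = 1 / N := by
        field_simp

lemma factor1 {x N κ : ℝ} (hx : 0 ≤ x) (hN : 0 < N) (hκ : 0 < κ) (h : N * x ≤ κ) :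
    N * x / κ ≤ 4 * x * ((1 + 1 / κ) * (N / max 1 (N * x))) := by
  have h0 : 0 < max 1 (N * x) := zero_lt_one.trans_le (le_max_left _ _)
  have h1 : max 1 (N * x) ≤ 1 + κ := max_le (by linarith) (by linarith)
  have h2 : 4 * x * ((1 + 1 / κ) * (N / max 1 (N * x))) = (N * x / κ) * (4 * (1 + κ) / max 1 (N * x)) := by
    field_simp
    ring
  rw [h2]
  have h3 : 0 ≤ N * x / κ := by positivity
  have h4 : 1 ≤ 4 * (1 + κ) / max 1 (N * x) := by
    rw [le_div_iff₀ h0]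
    linarith
  exact le_mul_of_one_le_right h3 h4

lemma factor2 {x N κ : ℝ} (hN : 0 < N) (hκ : 0 < κ) (h : κ ≤ N * x) :
    1 ≤ 4 * x * ((1 + 1 / κ) * (N / max 1 (N * x))) := by
  have h0 : 0 < max 1 (N * x) := zero_lt_one.trans_le (le_max_left _ _)
  have h2 : 4 * x * ((1 + 1 / κ) * (N / max 1 (N * x))) =
      (4 * (N * x) + 4 * (N * x / κ)) / max 1 (N * x) := by
    field_simp
  have h3 : 1 ≤ N * x / κ := by
    rw [le_div_iff₀ hκ]
    linarith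
  rw [h2, le_div_iff₀ h0, one_mul]
  refine max_le ?_ ?_
  · nlinarith
  · nlinarith

lemma nd_neg (x : ℝ) : nd (-x) = nd x := by
  have h : ∀ y : ℝ, nd y = ‖(y : UnitAddCircle)‖ := by
    intro y
    rw [UnitAddCircle.norm_eq]
    rfl
  rw [h, h]
  simp

lemma AT_lower {r : ℕ} {D : RD r} {P : RT r} {B : Matrix (Fin r) (Fin r) ℤ} {h : ℕ}
    (hR : RTD D P B h) (θ : Fin r → ℝ) : ∏ p ∈ P, 4 * nd (dz p.1 θ) ≤ ‖AT D 1 θ‖ := by
  rw [hR.den θ, norm_mul, GEO.norm_eu, one_mul, norm_prod]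
  refine Finset.prod_le_prod (fun p _ => mul_nonneg (by norm_num) (abs_nonneg _)) fun p _ => ?_
  rw [← nd_neg]
  exact GEO.lower _

/-- the estimate for the good points -/
lemma core {r : ℕ} {D : RD r} {P : RT r} {B : Matrix (Fin r) (Fin r) ℤ} {h : ℕ}
    (hR : RTD D P B h) (hA : ATF D P B)
    (hW : ∀ l θ, D.ψ (XT D θ) l * AT D 1 θ = AT D l θ) (hS : S_SCHW)
    {N : ℕ} (hN : 1 ≤ N) {t : ℝ} {Bd : ℝ} {u : Fin r → ℝ} (hu : ∀ p ∈ P, dz p.1 u ≠ 0)
    {c0 A : ℝ} (hc0 : 0 < c0) (hc0u : ∀ p ∈ P, c0 ≤ |dz p.1 u|) (hA0 : 0 < A) {θ : Fin r → ℝ}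
    (hB : ∀ z : ℂ, ‖z‖ ≤ 1 / (N * A) → ‖FE D N t (ln θ u z)‖ ≤ Bd)
    (hnd : ∀ p ∈ P, nd (dz p.1 θ) ≠ 0)
    (hz : ∀ p ∈ P, ∀ q ∈ P, p ≠ q → (dz p.1 θ - round (dz p.1 θ)) / dz p.1 u ≠
      (dz q.1 θ - round (dz q.1 θ)) / dz q.1 u) :
    ‖KT D N t θ‖ ≤ Bd * (1 + 1 / (c0 / (2 * A))) ^ P.card *
      ∏ p ∈ P, ((N : ℝ) / max 1 (N * nd (dz p.1 θ))) := by
  have hN' : (0 : ℝ) < N := by exact_mod_cast hN
  set κ : ℝ := c0 / (2 * A) with hκ
  have hκ0 : 0 < κ := by positivity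
  have hBd : 0 ≤ Bd := (norm_nonneg _).trans (hB 0 (by rw [norm_zero]; positivity))
  set S : RT r := P.filter fun p => N * nd (dz p.1 θ) ≤ κ with hSdef
  let zp : (Fin r → ℤ) × (Fin r → ℤ) → ℝ := fun p => -((dz p.1 θ - round (dz p.1 θ)) / dz p.1 u)
  let z : Fin S.card → ℂ := fun i => ((zp (S.equivFin.symm i).1 : ℝ) : ℂ)
  have hSP : ∀ p ∈ S, p ∈ P := fun p hp => (Finset.mem_filter.1 hp).1
  have hzn : ∀ p ∈ S, |zp p| ≤ nd (dz p.1 θ) / c0 := by
    intro p hp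
    simp only [zp]
    rw [abs_neg, abs_div]
    exact div_le_div_of_nonneg_left (abs_nonneg _) hc0 (hc0u p (hSP p hp))
  have hinj : Function.Injective z := by
    intro i j hij
    by_contra hne
    have h1 : (S.equivFin.symm i).1 ≠ (S.equivFin.symm j).1 := by
      intro h2
      exact hne (S.equivFin.symm.injective (Subtype.ext h2))
    have h3 := hz _ (hSP _ (S.equivFin.symm i).2) _ (hSP _ (S.equivFin.symm j).2) h1
    apply h3
    have h4 : zp (S.equivFin.symm i).1 = zp (S.equivFin.symm j).1 := by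
      exact Complex.ofReal_injective hij
    simp only [zp] at h4
    linarith
  have hle : ∀ i, ‖z i‖ ≤ 1 / (N * A) / 2 := by
    intro i
    have h1 := hzn _ (S.equivFin.symm i).2
    have h2 : N * nd (dz (S.equivFin.symm i).1.1 θ) ≤ κ := (Finset.mem_filter.1 (S.equivFin.symm i).2).2
    simp only [z]
    rw [Complex.norm_real, Real.norm_eq_abs]
    refine h1.trans ?_
    rw [div_le_iff₀ hc0]
    have h3 : 1 / (N * A) / 2 * c0 = κ / N := by
      rw [hκ]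
      field_simp
    rw [h3, le_div_iff₀ hN']
    linarith
  have hreal := FE_real hA hW N t θ u
  have hzero : ∀ i, (fun z => FE D N t (ln θ u z)) (z i) = 0 := by
    intro i
    show FE D N t (ln θ u (z i)) = 0
    simp only [z]
    rw [hreal]
    have hp := hSP _ (S.equivFin.symm i).2
    rw [hA.van _ hp 1 _ (round (dz (S.equivFin.symm i).1.1 θ)), mul_zero]
    rw [dz_line]
    simp only [zp]
    rw [neg_mul, div_mul_cancel₀ _ (hu _ hp)]
    ring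
  have hschw := hS S.card z (fun z => FE D N t (ln θ u z)) (1 / (N * A)) Bd (by positivity)
    (FE_diff D N t θ u) hinj hle hzero hB
  have h0 : FE D N t (ln θ u 0) = KT D N t θ * AT D 1 θ := by
    have h1 := hreal 0
    rw [Complex.ofReal_zero, zero_smul, add_zero] at h1
    exact h1
  have hprod : ∏ i, (2 * ‖z i‖ / (1 / (N * A))) ≤ ∏ p ∈ S, (N * nd (dz p.1 θ) / κ) := by
    have h1 : ∏ p ∈ S, (N * nd (dz p.1 θ) / κ) =
        ∏ i : Fin S.card, (N * nd (dz (S.equivFin.symm i).1.1 θ) / κ) := by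
      rw [← Finset.prod_coe_sort S (fun p => N * nd (dz p.1 θ) / κ)]
      exact (Equiv.prod_comp S.equivFin.symm (fun p : S => N * nd (dz p.1.1 θ) / κ)).symm
    rw [h1]
    refine Finset.prod_le_prod (fun i _ => by positivity) fun i _ => ?_
    have h2 := hzn _ (S.equivFin.symm i).2
    simp only [z]
    rw [Complex.norm_real, Real.norm_eq_abs]
    calc 2 * |zp (S.equivFin.symm i).1| / (1 / (N * A))
        ≤ 2 * (nd (dz (S.equivFin.symm i).1.1 θ) / c0) / (1 / (N * A)) := by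
          gcongr
      _ = N * nd (dz (S.equivFin.symm i).1.1 θ) / κ := by
          rw [hκ]
          field_simp
  have hlow := AT_lower hR θ
  have hpos : 0 < ∏ p ∈ P, 4 * nd (dz p.1 θ) := by
    refine Finset.prod_pos fun p hp => ?_
    have h1 : 0 ≤ nd (dz p.1 θ) := abs_nonneg _
    have h2 := hnd p hp
    have h3 : 0 < nd (dz p.1 θ) := lt_of_le_of_ne h1 (Ne.symm h2)
    linarith
  have hSprod : ∏ p ∈ S, (N * nd (dz p.1 θ) / κ) ≤
      ∏ p ∈ P, (4 * nd (dz p.1 θ) * ((1 + 1 / κ) * (N / max 1 (N * nd (dz p.1 θ))))) := by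
    rw [hSdef, Finset.prod_filter]
    refine Finset.prod_le_prod (fun p _ => ?_) fun p _ => ?_
    · have h1 : 0 ≤ nd (dz p.1 θ) := abs_nonneg _
      split_ifs
      · positivity
      · exact zero_le_one
    · have h1 : 0 ≤ nd (dz p.1 θ) := abs_nonneg _
      split_ifs with h2
      · exact factor1 h1 hN' hκ0 h2
      · exact factor2 hN' hκ0 (le_of_not_ge h2)
  have hsplit : ∏ p ∈ P, (4 * nd (dz p.1 θ) * ((1 + 1 / κ) * (N / max 1 (N * nd (dz p.1 θ))))) =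
      (∏ p ∈ P, 4 * nd (dz p.1 θ)) *
          ((1 + 1 / κ) ^ P.card * ∏ p ∈ P, ((N : ℝ) / max 1 (N * nd (dz p.1 θ)))) := by
    rw [Finset.prod_mul_distrib (f := fun p : (Fin r → ℤ) × (Fin r → ℤ) => 4 * nd (dz p.1 θ)),
      Finset.prod_mul_distrib (f := fun _ => 1 + 1 / κ), Finset.prod_const]
  rw [hsplit] at hSprod
  have hfin : ‖KT D N t θ‖ * ∏ p ∈ P, 4 * nd (dz p.1 θ) ≤
      (Bd * (1 + 1 / κ) ^ P.card * ∏ p ∈ P, ((N : ℝ) / max 1 (N * nd (dz p.1 θ)))) *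
        ∏ p ∈ P, 4 * nd (dz p.1 θ) := by
    calc ‖KT D N t θ‖ * ∏ p ∈ P, 4 * nd (dz p.1 θ) ≤ ‖KT D N t θ‖ * ‖AT D 1 θ‖ := by gcongr
      _ = ‖FE D N t (ln θ u 0)‖ := by rw [h0, norm_mul]
      _ ≤ Bd * ∏ i, (2 * ‖z i‖ / (1 / (N * A))) := hschw
      _ ≤ Bd * ∏ p ∈ S, (N * nd (dz p.1 θ) / κ) := by gcongr
      _ ≤ Bd * ((∏ p ∈ P, 4 * nd (dz p.1 θ)) *
          ((1 + 1 / κ) ^ P.card * ∏ p ∈ P, ((N : ℝ) / max 1 (N * nd (dz p.1 θ))))) := by gcongr
      _ = _ := by ring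
  exact le_of_mul_le_mul_right hfin hpos

lemma exists_v {r : ℕ} {D : RD r} {P : RT r} {B : Matrix (Fin r) (Fin r) ℤ} {h : ℕ}
    (hR : RTD D P B h) {u : Fin r → ℝ} (hu : ∀ p ∈ P, dz p.1 u ≠ 0) :
    ∃ v : Fin r → ℝ, (∀ p ∈ P, dz p.1 v ≠ 0) ∧
      ∀ p ∈ P, ∀ q ∈ P, p ≠ q → dz p.1 v / dz p.1 u ≠ dz q.1 v / dz q.1 u := by
  let dl : (Fin r → ℤ) → Module.Dual ℝ (Fin r → ℝ) := fun κ => ∑ i, (κ i : ℝ) • LinearMap.proj i
  have hdl : ∀ κ v, dl κ v = dz κ v := by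
    intro κ v
    simp [dl, dz, LinearMap.sum_apply]
  let f : (P ⊕ {x : P × P // x.1 ≠ x.2}) → Module.Dual ℝ (Fin r → ℝ) := fun
    | Sum.inl p => dl p.1.1
    | Sum.inr x => (dz x.1.2.1.1 u) • dl x.1.1.1.1 - (dz x.1.1.1.1 u) • dl x.1.2.1.1
  obtain ⟨v, hv⟩ := Module.Dual.exists_forall_ne_zero_of_forall_exists f (by
    rintro (p | ⟨⟨p, q⟩, hpq⟩)
    · exact ⟨u, by simp only [f, hdl]; exact hu _ p.2⟩
    · by_contra hcon
      push Not at hcon
      have h1 : ∀ i, dz q.1.1 u * (p.1.1 i : ℝ) = dz p.1.1 u * (q.1.1 i : ℝ) := by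
        intro i
        have h2 := hcon (Pi.single i 1)
        simp only [f, LinearMap.sub_apply, LinearMap.smul_apply, hdl, smul_eq_mul] at h2
        have h3 : ∀ κ : Fin r → ℤ, dz κ (Pi.single i 1) = κ i := by
          intro κ
          simp [dz, Pi.single_apply]
        rw [h3, h3] at h2
        linarith
      have hpne : p.1.1 ≠ 0 := by
        intro h0
        apply hu _ p.2
        rw [h0]
        simp [dz]
      obtain ⟨i, hi⟩ := Function.ne_iff.1 hpne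
      have h4 := hR.np1 p.1 p.2 q.1 q.2 (fun h => hpq (Subtype.ext h)) (q.1.1 i) (p.1.1 i) (by
        funext j
        simp only [Pi.smul_apply, smul_eq_mul]
        have h5 := h1 i
        have h6 := h1 j
        have h7 : dz q.1.1 u ≠ 0 := hu _ q.2
        have h8 : dz q.1.1 u * ((q.1.1 i : ℝ) * p.1.1 j) = dz q.1.1 u * ((p.1.1 i : ℝ) * q.1.1 j) := by
          linear_combination (q.1.1 i : ℝ) * h6 - (q.1.1 j : ℝ) * h5
        have h9 := mul_left_cancel₀ h7 h8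
        exact_mod_cast h9)
      exact hi h4.2)
  refine ⟨v, fun p hp => ?_, fun p hp q hq hpq heq => ?_⟩
  · have h1 := hv (Sum.inl ⟨p, hp⟩)
    simp only [f, hdl] at h1
    exact h1
  · have h1 := hv (Sum.inr ⟨(⟨p, hp⟩, ⟨q, hq⟩), fun h => hpq (congrArg Subtype.val h)⟩)
    simp only [f, LinearMap.sub_apply, LinearMap.smul_apply, hdl, smul_eq_mul] at h1
    apply h1
    rw [div_eq_div_iff (hu p hp) (hu q hq)] at heq
    linarith

end KSUP

open KSUP in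
theorem t_KSUP : M_KSUP := by
  intro hDENS hATF hWCF hFSUM hSCHW r D P B h hX hR
  obtain ⟨⟨u, hu⟩, -⟩ := hDENS r D P B h hR
  have hA := hATF r D P B h hX hR
  obtain ⟨hK, hW⟩ := hWCF r D P B h hX hR
  obtain ⟨C1, c, hC1, hc, hF⟩ := hFSUM r D P B h hX hR
  obtain ⟨v, hv, hvv⟩ := exists_v hR hu
  obtain ⟨c0, hc0, hc0u⟩ : ∃ c0 : ℝ, 0 < c0 ∧ ∀ p ∈ P, c0 ≤ |dz p.1 u| := by
    rcases P.eq_empty_or_nonempty with hP | hP
    · exact ⟨1, one_pos, by simp [hP]⟩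
    · obtain ⟨p, hp, hmin⟩ := P.exists_min_image (fun p => |dz p.1 u|) hP
      exact ⟨|dz p.1 u|, abs_pos.2 (hu p hp), hmin⟩
  set A : ℝ := 1 + ∑ w ∈ D.W, ∑ i, ∑ j, |(w i j : ℝ)| * |u i| with hAdef
  have hA0 : 0 < A := by
    have : 0 ≤ ∑ w ∈ D.W, ∑ i, ∑ j, |(w i j : ℝ)| * |u i| := by positivity
    linarith
  have hCW : 0 ≤ ∑ w ∈ D.W, ‖(w.det : ℂ)‖ := by positivity
  refine ⟨(∑ w ∈ D.W, ‖(w.det : ℂ)‖) * C1 * (1 + 1 / (c0 / (2 * A))) ^ P.card, c, by positivity, hc, ?_⟩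
  intro N t θ hN
  have hN' : (0 : ℝ) < N := by exact_mod_cast hN
  set Y : ℝ := (N : ℝ) ^ P.card * WW N c t ^ ((r : ℝ) / 2) with hY
  -- the estimate for good parameters
  have hgood : ∀ s : ℝ, (∀ p ∈ P, nd (dz p.1 (θ + s • v)) ≠ 0) →
      (∀ p ∈ P, ∀ q ∈ P, p ≠ q →
        (dz p.1 (θ + s • v) - round (dz p.1 (θ + s • v))) / dz p.1 u ≠
        (dz q.1 (θ + s • v) - round (dz q.1 (θ + s • v))) / dz q.1 u) →
      ‖KT D N t (θ + s • v)‖ ≤
        (∑ w ∈ D.W, ‖(w.det : ℂ)‖) * C1 * (1 + 1 / (c0 / (2 * A))) ^ P.card * Y *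
        ∏ p ∈ P, ((N : ℝ) / max 1 (N * nd (dz p.1 (θ + s • v)))) := by
    intro s h1 h2
    have h3 := core (N := N) (t := t) (Bd := (∑ w ∈ D.W, ‖(w.det : ℂ)‖) * (C1 * Y)) hR hA hW hSCHW hN
      hu hc0 hc0u hA0 (θ := θ + s • v) (fun z hz => FE_bound _ u (fun ζ hζ => hF N t ζ hN hζ) hN hz)
      h1 h2
    refine h3.trans (le_of_eq ?_)
    ring
  have hcount : ((⋃ p ∈ P, Set.range fun k : ℤ => ((k : ℝ) - dz p.1 θ) / dz p.1 v) ∪
      ⋃ p ∈ P, ⋃ q ∈ P, Set.range fun k : ℤ × ℤ =>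
        (((k.1 : ℝ) - dz p.1 θ) / dz p.1 u - ((k.2 : ℝ) - dz q.1 θ) / dz q.1 u) /
          (dz p.1 v / dz p.1 u - dz q.1 v / dz q.1 u)).Countable := by
    refine Set.Countable.union ?_ ?_
    · exact Set.Countable.biUnion (Finset.countable_toSet P) fun p _ => Set.countable_range _
    · exact Set.Countable.biUnion (Finset.countable_toSet P) fun p _ =>
        Set.Countable.biUnion (Finset.countable_toSet P) fun q _ => Set.countable_range _
  have hd := hcount.dense_compl ℝ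
  have hline : Continuous fun s : ℝ => θ + s • v := continuous_const.add (continuous_id.smul continuous_const)
  have hdzc : ∀ κ : Fin r → ℤ, Continuous fun s : ℝ => dz κ (θ + s • v) := by
    intro κ
    simp only [dz_line]
    exact continuous_const.add (continuous_id.mul continuous_const)
  have hleft : Continuous fun s : ℝ => ‖KT D N t (θ + s • v)‖ := by
    refine continuous_norm.comp ?_
    unfold KT
    exact continuous_finsetSum _ fun l _ => continuous_const.mul ((hK l).comp hline)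
  have hright : Continuous fun s : ℝ =>
      (∑ w ∈ D.W, ‖(w.det : ℂ)‖) * C1 * (1 + 1 / (c0 / (2 * A))) ^ P.card * Y *
        ∏ p ∈ P, ((N : ℝ) / max 1 (N * nd (dz p.1 (θ + s • v)))) := by
    refine continuous_const.mul (continuous_finsetProd _ fun p _ => ?_)
    refine continuous_const.div (continuous_const.max
      (continuous_const.mul (TIME.nd_continuous.comp (hdzc p.1)))) fun s => ?_
    exact (zero_lt_one.trans_le (le_max_left _ _)).ne'
  have hclosed := isClosed_le hleft hright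
  have hsub : (⋃ p ∈ P, Set.range fun k : ℤ => ((k : ℝ) - dz p.1 θ) / dz p.1 v)ᶜ ∩
      (⋃ p ∈ P, ⋃ q ∈ P, Set.range fun k : ℤ × ℤ =>
        (((k.1 : ℝ) - dz p.1 θ) / dz p.1 u - ((k.2 : ℝ) - dz q.1 θ) / dz q.1 u) /
          (dz p.1 v / dz p.1 u - dz q.1 v / dz q.1 u))ᶜ ⊆
      {s : ℝ | ‖KT D N t (θ + s • v)‖ ≤
        (∑ w ∈ D.W, ‖(w.det : ℂ)‖) * C1 * (1 + 1 / (c0 / (2 * A))) ^ P.card * Y *
        ∏ p ∈ P, ((N : ℝ) / max 1 (N * nd (dz p.1 (θ + s • v))))} := by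
    rintro s ⟨hs1, hs2⟩
    refine hgood s (fun p hp h0 => hs1 ?_) (fun p hp q hq hpq h0 => hs2 ?_)
    · simp only [Set.mem_iUnion, Set.mem_range]
      refine ⟨p, hp, round (dz p.1 (θ + s • v)), ?_⟩
      have h2 : dz p.1 (θ + s • v) - round (dz p.1 (θ + s • v)) = 0 := abs_eq_zero.1 h0
      have h3 : ((round (dz p.1 (θ + s • v)) : ℤ) : ℝ) = dz p.1 θ + s * dz p.1 v := by
        rw [← dz_line]
        linarith
      rw [h3, add_sub_cancel_left, mul_div_assoc, div_self (hv p hp), mul_one]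
    · simp only [Set.mem_iUnion, Set.mem_range]
      refine ⟨p, hp, q, hq, (round (dz p.1 (θ + s • v)), round (dz q.1 (θ + s • v))), ?_⟩
      have h3 : dz p.1 v / dz p.1 u - dz q.1 v / dz q.1 u ≠ 0 := sub_ne_zero.2 (hvv p hp q hq hpq)
      rw [div_eq_iff h3]
      have h4 := dz_line p.1 θ v s
      have h5 := dz_line q.1 θ v s
      generalize round (dz p.1 (θ + s • v)) = k1 at *
      generalize round (dz q.1 (θ + s • v)) = k2 at *
      rw [h4, h5] at h0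
      simp only [sub_div, add_div, mul_div_assoc] at h0 ⊢
      linarith
  rw [Set.compl_union] at hd
  have huniv := (hd.mono hsub).closure_eq
  rw [hclosed.closure_eq] at huniv
  have h0 : (0 : ℝ) ∈ {s : ℝ | ‖KT D N t (θ + s • v)‖ ≤
        (∑ w ∈ D.W, ‖(w.det : ℂ)‖) * C1 * (1 + 1 / (c0 / (2 * A))) ^ P.card * Y *
        ∏ p ∈ P, ((N : ℝ) / max 1 (N * nd (dz p.1 (θ + s • v))))} := by
    rw [huniv]
    trivial
  simpa using h0

end

end STZ
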