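import Pool.Agent.STZ.StmtsV
import Pool.Agent.STZ.KSUP

/-!
# GDVA: the bound near a point for an exponential sum that vanishes on the walls
-/

namespace STZ

open MeasureTheory Matrix

open scoped ComplexConjugate Matrix Real

noncomputable section

namespace GDVA

open KSUP

lemma ES_diff {r : ℕ} (T : Finset (Fin r → ℤ)) (b : (Fin r → ℤ) → ℂ) (θ u : Fin r → ℝ) :
    Differentiable ℂ fun z => ES T b (ln θ u z) := by
  unfold ES ln
  fun_prop

lemma ES_real {r : ℕ} (T : Finset (Fin r → ℤ)) (b : (Fin r → ℤ) → ℂ) (θ u : Fin r → ℝ) (s : ℝ) :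
    ES T b (ln θ u (s : ℂ)) = ES T b (fun i => (((θ + s • u) i : ℝ) : ℂ)) := by
  congr 1
  funext i
  unfold ln
  simp only [Pi.add_apply, Pi.smul_apply, smul_eq_mul]
  push_cast
  ring

lemma ES_cont {r : ℕ} (T : Finset (Fin r → ℤ)) (b : (Fin r → ℤ) → ℂ) (θ v : Fin r → ℝ) :
    Continuous fun s : ℝ => ES T b (fun i => (((θ + s • v) i : ℝ) : ℂ)) := by
  unfold ES
  simp only [Pi.add_apply, Pi.smul_apply, smul_eq_mul]
  push_cast
  fun_prop

lemma factor1 {x κ : ℝ} (hx : 0 ≤ x) (hκ : 0 < κ) (h : x ≤ κ) :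
    x / κ ≤ (1 + 1 / κ) * min 1 x := by
  rcases le_total x 1 with h1 | h1
  · rw [min_eq_right h1]
    have h2 : (1 + 1 / κ) * x = x + x / κ := by ring
    rw [h2]
    linarith
  · rw [min_eq_left h1, mul_one]
    have h2 : x / κ ≤ 1 := by
      rw [div_le_one₀ hκ]
      exact h
    have h3 : 0 ≤ 1 / κ := by positivity
    linarith

lemma factor2 {x κ : ℝ} (hκ : 0 < κ) (h : κ ≤ x) : 1 ≤ (1 + 1 / κ) * min 1 x := by
  rcases le_total x 1 with h1 | h1
  · rw [min_eq_right h1]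
    have h2 : 1 ≤ x / κ := by
      rw [le_div_iff₀ hκ]
      linarith
    have h3 : (1 + 1 / κ) * x = x + x / κ := by ring
    rw [h3]
    linarith
  · rw [min_eq_left h1, mul_one]
    have h3 : 0 ≤ 1 / κ := by positivity
    linarith

/-- the estimate for the good points -/
lemma core {r : ℕ} {P : RT r} (hS : S_SCHW) (T : Finset (Fin r → ℤ)) (b : (Fin r → ℤ) → ℂ)
    {N E : ℝ} (hN : 1 ≤ N) {u : Fin r → ℝ} (hu : ∀ p ∈ P, dz p.1 u ≠ 0)
    {c0 A : ℝ} (hc0 : 0 < c0) (hc0u : ∀ p ∈ P, c0 ≤ |dz p.1 u|) (hA0 : 0 < A) {θ : Fin r → ℝ}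
    (hvan : ∀ (θ' : Fin r → ℝ) (k : ℤ), ∀ p ∈ P, dz p.1 θ' = k → ES T b (fun i => θ' i) = 0)
    (hB : ∀ z : ℂ, ‖z‖ ≤ 1 / (2 * N * A) → ‖ES T b (ln θ u z)‖ ≤ E)
    (hz : ∀ p ∈ P, ∀ q ∈ P, p ≠ q → (dz p.1 θ - round (dz p.1 θ)) / dz p.1 u ≠
      (dz q.1 θ - round (dz q.1 θ)) / dz q.1 u) :
    ‖ES T b (fun i => θ i)‖ ≤ (1 + 1 / (c0 / (4 * A))) ^ P.card *
      (E * ∏ p ∈ P, min 1 (N * nd (dz p.1 θ))) := by
  have hN' : (0 : ℝ) < N := by linarith
  set κ : ℝ := c0 / (4 * A) with hκ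
  have hκ0 : 0 < κ := by positivity
  have hE : 0 ≤ E := (norm_nonneg _).trans (hB 0 (by rw [norm_zero]; positivity))
  set S : RT r := P.filter fun p => N * nd (dz p.1 θ) ≤ κ with hSdef
  let zp : (Fin r → ℤ) × (Fin r → ℤ) → ℝ := fun p => -((dz p.1 θ - round (dz p.1 θ)) / dz p.1 u)
  let z : Fin S.card → ℂ := fun i => ((zp (S.equivFin.symm i).1 : ℝ) : ℂ)
  have hSP : ∀ p ∈ S, p ∈ P := fun p hp => (Finset.mem_filter.1 hp).1
  have hzn : ∀ p ∈ S, |zp p| ≤ nd (dz p.1 θ) / c0 := by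
    intro p hp
    simp only [zp]
    rw [abs_neg, abs_div]
    exact div_le_div_of_nonneg_left (abs_nonneg _) hc0 (hc0u p (hSP p hp))
  have hinj : Function.Injective z := by
    intro i j hij
    by_contra hne
    have h1 : (S.equivFin.symm i).1 ≠ (S.equivFin.symm j).1 := by
      intro h2
      exact hne (S.equivFin.symm.injective (Subtype.ext h2))
    have h3 := hz _ (hSP _ (S.equivFin.symm i).2) _ (hSP _ (S.equivFin.symm j).2) h1
    apply h3
    have h4 : zp (S.equivFin.symm i).1 = zp (S.equivFin.symm j).1 := by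
      exact Complex.ofReal_injective hij
    simp only [zp] at h4
    linarith
  have hle : ∀ i, ‖z i‖ ≤ 1 / (2 * N * A) / 2 := by
    intro i
    have h1 := hzn _ (S.equivFin.symm i).2
    have h2 : N * nd (dz (S.equivFin.symm i).1.1 θ) ≤ κ := (Finset.mem_filter.1 (S.equivFin.symm i).2).2
    simp only [z]
    rw [Complex.norm_real, Real.norm_eq_abs]
    refine h1.trans ?_
    rw [div_le_iff₀ hc0]
    have h3 : 1 / (2 * N * A) / 2 * c0 = κ / N := by
      rw [hκ]
      field_simp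
      ring
    rw [h3, le_div_iff₀ hN']
    linarith
  have hzero : ∀ i, (fun z => ES T b (ln θ u z)) (z i) = 0 := by
    intro i
    show ES T b (ln θ u (z i)) = 0
    simp only [z]
    rw [ES_real]
    have hp := hSP _ (S.equivFin.symm i).2
    refine hvan _ (round (dz (S.equivFin.symm i).1.1 θ)) _ hp ?_
    rw [dz_line]
    simp only [zp]
    rw [neg_mul, div_mul_cancel₀ _ (hu _ hp)]
    ring
  have hschw := hS S.card z (fun z => ES T b (ln θ u z)) (1 / (2 * N * A)) E (by positivity)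
    (ES_diff T b θ u) hinj hle hzero hB
  have h0 : ES T b (ln θ u 0) = ES T b (fun i => θ i) := by
    have h1 := ES_real T b θ u 0
    rw [Complex.ofReal_zero, zero_smul, add_zero] at h1
    exact h1
  have hprod : ∏ i, (2 * ‖z i‖ / (1 / (2 * N * A))) ≤ ∏ p ∈ S, (N * nd (dz p.1 θ) / κ) := by
    have h1 : ∏ p ∈ S, (N * nd (dz p.1 θ) / κ) =
        ∏ i : Fin S.card, (N * nd (dz (S.equivFin.symm i).1.1 θ) / κ) := by
      rw [← Finset.prod_coe_sort S (fun p => N * nd (dz p.1 θ) / κ)]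
      exact (Equiv.prod_comp S.equivFin.symm (fun p : S => N * nd (dz p.1.1 θ) / κ)).symm
    rw [h1]
    refine Finset.prod_le_prod (fun i _ => by positivity) fun i _ => ?_
    have h2 := hzn _ (S.equivFin.symm i).2
    simp only [z]
    rw [Complex.norm_real, Real.norm_eq_abs]
    calc 2 * |zp (S.equivFin.symm i).1| / (1 / (2 * N * A))
        ≤ 2 * (nd (dz (S.equivFin.symm i).1.1 θ) / c0) / (1 / (2 * N * A)) := by
          gcongr
      _ = N * nd (dz (S.equivFin.symm i).1.1 θ) / κ := by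
          rw [hκ]
          field_simp
          ring
  have hSprod : ∏ p ∈ S, (N * nd (dz p.1 θ) / κ) ≤
      ∏ p ∈ P, ((1 + 1 / κ) * min 1 (N * nd (dz p.1 θ))) := by
    rw [hSdef, Finset.prod_filter]
    refine Finset.prod_le_prod (fun p _ => ?_) fun p _ => ?_
    · have h1 : 0 ≤ nd (dz p.1 θ) := abs_nonneg _
      split_ifs
      · positivity
      · exact zero_le_one
    · have h1 : 0 ≤ nd (dz p.1 θ) := abs_nonneg _
      split_ifs with h2
      · exact factor1 (by positivity) hκ0 h2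
      · exact factor2 hκ0 (le_of_not_ge h2)
  have hsplit : ∏ p ∈ P, ((1 + 1 / κ) * min 1 (N * nd (dz p.1 θ))) =
      (1 + 1 / κ) ^ P.card * ∏ p ∈ P, min 1 (N * nd (dz p.1 θ)) := by
    rw [Finset.prod_mul_distrib, Finset.prod_const]
  rw [hsplit] at hSprod
  calc ‖ES T b (fun i => θ i)‖ = ‖ES T b (ln θ u 0)‖ := by rw [h0]
    _ ≤ E * ∏ i, (2 * ‖z i‖ / (1 / (2 * N * A))) := hschw
    _ ≤ E * ∏ p ∈ S, (N * nd (dz p.1 θ) / κ) := by gcongr
    _ ≤ E * ((1 + 1 / κ) ^ P.card * ∏ p ∈ P, min 1 (N * nd (dz p.1 θ))) := by gcongr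
    _ = _ := by ring

end GDVA

open KSUP in
theorem t_GDVA : M_GDVA := by
  intro hDENS hSCHW r D P B h hX hR
  obtain ⟨⟨u, hu⟩, -⟩ := hDENS r D P B h hR
  obtain ⟨v, hv, hvv⟩ := exists_v hR hu
  obtain ⟨c0, hc0, hc0u⟩ : ∃ c0 : ℝ, 0 < c0 ∧ ∀ p ∈ P, c0 ≤ |dz p.1 u| := by
    rcases P.eq_empty_or_nonempty with hP | hP
    · exact ⟨1, one_pos, by simp [hP]⟩
    · obtain ⟨p, hp, hmin⟩ := P.exists_min_image (fun p => |dz p.1 u|) hP
      exact ⟨|dz p.1 u|, abs_pos.2 (hu p hp), hmin⟩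
  set A : ℝ := 1 + ∑ i, |u i| with hAdef
  have hA0 : 0 < A := by
    have : 0 ≤ ∑ i, |u i| := by positivity
    linarith
  refine ⟨(1 + 1 / (c0 / (4 * A))) ^ P.card, by positivity, ?_⟩
  intro T b N θ E hN hE hvan hball
  have hN' : (0 : ℝ) < N := by linarith
  set V : ℝ := 1 + ∑ i, |v i| with hVdef
  have hV0 : 0 < V := by
    have : 0 ≤ ∑ i, |v i| := by positivity
    linarith
  -- the estimate for good parameters
  have hgood : ∀ s : ℝ, |s| ≤ 1 / (2 * N * V) →
      (∀ p ∈ P, ∀ q ∈ P, p ≠ q →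
        (dz p.1 (θ + s • v) - round (dz p.1 (θ + s • v))) / dz p.1 u ≠
        (dz q.1 (θ + s • v) - round (dz q.1 (θ + s • v))) / dz q.1 u) →
      ‖ES T b (fun i => (((θ + s • v) i : ℝ) : ℂ))‖ ≤ (1 + 1 / (c0 / (4 * A))) ^ P.card *
        (E * ∏ p ∈ P, min 1 (N * nd (dz p.1 (θ + s • v)))) := by
    intro s hs h2
    refine GDVA.core hSCHW T b hN hu hc0 hc0u hA0 hvan (fun z hz => hball _ fun i => ?_) h2
    have h3 : ln (θ + s • v) u z i - (θ i : ℂ) = ((s * v i : ℝ) : ℂ) + z * (u i : ℂ) := by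
      unfold ln
      simp only [Pi.add_apply, Pi.smul_apply, smul_eq_mul]
      push_cast
      ring
    rw [h3]
    refine (norm_add_le _ _).trans ?_
    rw [Complex.norm_real, norm_mul, norm_mul, Complex.norm_real, Real.norm_eq_abs, Real.norm_eq_abs,
      Real.norm_eq_abs]
    have h4 : |v i| ≤ V := by
      have := Finset.single_le_sum (f := fun i => |v i|) (fun j _ => abs_nonneg _) (Finset.mem_univ i)
      linarith
    have h5 : |u i| ≤ A := by
      have := Finset.single_le_sum (f := fun i => |u i|) (fun j _ => abs_nonneg _) (Finset.mem_univ i)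
      linarith
    calc |s| * |v i| + ‖z‖ * |u i| ≤ 1 / (2 * N * V) * V + 1 / (2 * N * A) * A := by
          gcongr
      _ = 1 / N := by
          field_simp
          norm_num
  have hcount : (⋃ p ∈ P, ⋃ q ∈ P, Set.range fun k : ℤ × ℤ =>
        (((k.1 : ℝ) - dz p.1 θ) / dz p.1 u - ((k.2 : ℝ) - dz q.1 θ) / dz q.1 u) /
          (dz p.1 v / dz p.1 u - dz q.1 v / dz q.1 u)).Countable := by
    exact Set.Countable.biUnion (Finset.countable_toSet P) fun p _ =>
      Set.Countable.biUnion (Finset.countable_toSet P) fun q _ => Set.countable_range _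
  have hd := hcount.dense_compl ℝ
  have hdzc : ∀ κ : Fin r → ℤ, Continuous fun s : ℝ => dz κ (θ + s • v) := by
    intro κ
    simp only [dz_line]
    exact continuous_const.add (continuous_id.mul continuous_const)
  have hleft : Continuous fun s : ℝ => ‖ES T b (fun i => (((θ + s • v) i : ℝ) : ℂ))‖ :=
    continuous_norm.comp (GDVA.ES_cont T b θ v)
  have hright : Continuous fun s : ℝ => (1 + 1 / (c0 / (4 * A))) ^ P.card *
        (E * ∏ p ∈ P, min 1 (N * nd (dz p.1 (θ + s • v)))) := by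
    refine continuous_const.mul (continuous_const.mul (continuous_finsetProd _ fun p _ => ?_))
    exact continuous_const.min (continuous_const.mul (TIME.nd_continuous.comp (hdzc p.1)))
  have hclosed := isClosed_le hleft hright
  have hsub : Metric.ball (0 : ℝ) (1 / (2 * N * V)) ∩
      (⋃ p ∈ P, ⋃ q ∈ P, Set.range fun k : ℤ × ℤ =>
        (((k.1 : ℝ) - dz p.1 θ) / dz p.1 u - ((k.2 : ℝ) - dz q.1 θ) / dz q.1 u) /
          (dz p.1 v / dz p.1 u - dz q.1 v / dz q.1 u))ᶜ ⊆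
      {s : ℝ | ‖ES T b (fun i => (((θ + s • v) i : ℝ) : ℂ))‖ ≤ (1 + 1 / (c0 / (4 * A))) ^ P.card *
        (E * ∏ p ∈ P, min 1 (N * nd (dz p.1 (θ + s • v))))} := by
    rintro s ⟨hs1, hs2⟩
    refine hgood s ?_ (fun p hp q hq hpq h0 => hs2 ?_)
    · rw [Metric.mem_ball, Real.dist_eq, sub_zero] at hs1
      exact hs1.le
    · simp only [Set.mem_iUnion, Set.mem_range]
      refine ⟨p, hp, q, hq, (round (dz p.1 (θ + s • v)), round (dz q.1 (θ + s • v))), ?_⟩
      have h3 : dz p.1 v / dz p.1 u - dz q.1 v / dz q.1 u ≠ 0 := sub_ne_zero.2 (hvv p hp q hq hpq)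
      rw [div_eq_iff h3]
      have h4 := dz_line p.1 θ v s
      have h5 := dz_line q.1 θ v s
      generalize round (dz p.1 (θ + s • v)) = k1 at *
      generalize round (dz q.1 (θ + s • v)) = k2 at *
      rw [h4, h5] at h0
      simp only [sub_div, add_div, mul_div_assoc] at h0 ⊢
      linarith
  have h1 : (0 : ℝ) ∈ closure (Metric.ball (0 : ℝ) (1 / (2 * N * V)) ∩
      (⋃ p ∈ P, ⋃ q ∈ P, Set.range fun k : ℤ × ℤ =>
        (((k.1 : ℝ) - dz p.1 θ) / dz p.1 u - ((k.2 : ℝ) - dz q.1 θ) / dz q.1 u) /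
          (dz p.1 v / dz p.1 u - dz q.1 v / dz q.1 u))ᶜ) :=
    hd.open_subset_closure_inter Metric.isOpen_ball (Metric.mem_ball_self (by positivity))
  have h2 := closure_minimal hsub hclosed h1
  simpa using h2

end

end STZ
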