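import Pool.Agent.STZ.StmtsV

/-!
# HBDY: the bound for the pieces of the theta function times the polynomial
-/

namespace STZ

open MeasureTheory Matrix

open scoped ComplexConjugate Matrix Real

noncomputable section

namespace HBDY

theorem nd_le_int (x : ℝ) (n : ℤ) : nd x ≤ |x - n| := round_le x n

theorem nd_add_le (x y : ℝ) : nd x ≤ nd y + |x - y| := by
  have h1 := nd_le_int x (round y)
  have h2 : |x - round y| ≤ |x - y| + |y - round y| := abs_sub_le _ _ _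
  unfold nd at *
  linarith

theorem mx_nn (J x : ℕ) (y : ℝ) (hy : 0 ≤ y) : 0 ≤ mx J x y := by
  unfold mx
  positivity

theorem nd_nn (x : ℝ) : 0 ≤ nd x := abs_nonneg _

/-- the bound for one factor -/
theorem factor {κ' C₄ : ℝ} (hκ' : 0 ≤ κ') (hC₄ : 0 ≤ C₄)
    (hF : ∀ (J x : ℕ) (z : ℂ), |z.im| ≤ κ' / 2 ^ x →
      ‖PJ J x z‖ ≤ C₄ ∧ (x < J → ‖PJ J x z‖ ≤ C₄ * (2 ^ x * (nd z.re + |z.im|))))
    (J x : ℕ) (hx : x ≤ J) (z : ℂ) (y : ℝ) (h1 : |z.im| ≤ κ' / 2 ^ J) (h2 : |z.re - y| ≤ κ' / 2 ^ J) :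
    ‖PJ J x z‖ ≤ C₄ * (1 + 2 * κ') * mx J x (nd y) := by
  have hp : (2 : ℝ) ^ x ≤ 2 ^ J := pow_le_pow_right₀ (by norm_num) hx
  have h3 : κ' / (2 : ℝ) ^ J ≤ κ' / 2 ^ x := div_le_div_of_nonneg_left hκ' (by positivity) hp
  obtain ⟨h4, h5⟩ := hF J x z (h1.trans h3)
  have h6 : ‖PJ J x z‖ ≤ C₄ * (1 + 2 * κ') * 1 := by
    have : C₄ * 1 ≤ C₄ * (1 + 2 * κ') := mul_le_mul_of_nonneg_left (by linarith) hC₄
    linarith
  rcases Nat.lt_or_ge x J with h | h
  · have h7 := h5 h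
    have h8 := nd_add_le z.re y
    have hJ : (0 : ℝ) < 1 / 2 ^ J := by positivity
    have e1 : κ' / (2 : ℝ) ^ J = κ' * (1 / 2 ^ J) := by ring
    rw [e1] at h1 h2
    have h9 : nd z.re + |z.im| ≤ (1 + 2 * κ') * (nd y + 1 / 2 ^ J) := by
      have := nd_nn y
      nlinarith [mul_nonneg hκ' (nd_nn y)]
    have h10 : ‖PJ J x z‖ ≤ C₄ * (1 + 2 * κ') * (2 ^ x * (nd y + 1 / 2 ^ J)) := by
      refine h7.trans ?_
      have h11 : (2 : ℝ) ^ x * (nd z.re + |z.im|) ≤ 2 ^ x * ((1 + 2 * κ') * (nd y + 1 / 2 ^ J)) :=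
        mul_le_mul_of_nonneg_left h9 (by positivity)
      calc C₄ * (2 ^ x * (nd z.re + |z.im|)) ≤ C₄ * (2 ^ x * ((1 + 2 * κ') * (nd y + 1 / 2 ^ J))) :=
            mul_le_mul_of_nonneg_left h11 hC₄
        _ = _ := by ring
    unfold mx
    rcases min_choice (1 : ℝ) (2 ^ x * (nd y + 1 / 2 ^ J)) with h12 | h12 <;> rw [h12] <;> assumption
  · have hxJ : x = J := le_antisymm hx h
    subst hxJ
    have h7 : mx x x (nd y) = 1 := by
      unfold mx
      rw [min_eq_left]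
      have : (2 : ℝ) ^ x * (nd y + 1 / 2 ^ x) = 2 ^ x * nd y + 1 := by
        field_simp
      rw [this]
      have := mul_nonneg (by positivity : (0 : ℝ) ≤ 2 ^ x) (nd_nn y)
      linarith
    rw [h7]
    exact h6

theorem im_sum {r : ℕ} (a : Fin r → ℤ) (ζ : Fin r → ℂ) :
    (∑ i, (a i : ℂ) * ζ i).im = ∑ i, (a i : ℝ) * (ζ i).im := by
  rw [Complex.im_sum]
  refine Finset.sum_congr rfl fun i _ => ?_
  simp

theorem re_sum {r : ℕ} (a : Fin r → ℤ) (ζ : Fin r → ℂ) :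
    (∑ i, (a i : ℂ) * ζ i).re = ∑ i, (a i : ℝ) * (ζ i).re := by
  rw [Complex.re_sum]
  refine Finset.sum_congr rfl fun i _ => ?_
  simp

end HBDY

open HBDY in
theorem t_HBDY : M_HBDY := by
  intro hcauc hthby hhpry hfejb r D P B h hD hP hE κ hκ
  obtain ⟨C₁, hC₁, h1⟩ := hcauc r P
  obtain ⟨C₂, c, hC₂, hc, h2⟩ := hthby r D P B h hD hP (κ + 1) (by linarith)
  obtain ⟨C₃, h3⟩ := hhpry r D P B h hD hP hE
  set S : ℝ := ∑ p ∈ P, ∑ i, |(p.1 i : ℝ)| with hS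
  have hS0 : 0 ≤ S := Finset.sum_nonneg fun p _ => Finset.sum_nonneg fun i _ => abs_nonneg _
  have hSp : ∀ p : {p // p ∈ P}, ∑ i, |(p.1.1 i : ℝ)| ≤ S := fun p =>
    Finset.single_le_sum (f := fun p : (Fin r → ℤ) × (Fin r → ℤ) => ∑ i, |(p.1 i : ℝ)|)
      (fun p _ => Finset.sum_nonneg fun i _ => abs_nonneg _) p.2
  set κ' : ℝ := S * (κ + 1) with hκ'
  have hκ'0 : 0 ≤ κ' := mul_nonneg hS0 (by linarith)
  obtain ⟨C₄, hC₄, h4⟩ := hfejb κ' hκ'0
  set C₅ : ℝ := C₄ * (1 + 2 * κ') with hC₅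
  have hC₅0 : 0 ≤ C₅ := mul_nonneg hC₄ (by linarith)
  refine ⟨C₁ ^ P.card * (C₂ * C₅ ^ P.card), c, C₃, by positivity, hc, ?_⟩
  intro J K x t θ ζ₀ hK hζ₀
  have hWW : 0 ≤ WW (2 ^ J) c t := by
    unfold WW mn
    exact Finset.sum_nonneg fun _ _ => by positivity
  have hW : 0 ≤ WW (2 ^ J) c t ^ ((r : ℝ) / 2) := Real.rpow_nonneg hWW _
  have hM : ∀ p : {p // p ∈ P}, 0 ≤ mx J (x p).val (nd (dz p.1.1 θ)) := fun p => mx_nn _ _ _ (nd_nn _)
  have hprod : 0 ≤ ∏ p : {p // p ∈ P}, mx J (x p).val (nd (dz p.1.1 θ)) :=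
    Finset.prod_nonneg fun p _ => hM p
  have key := h1 (cb r K) (nk D P J x t) ζ₀ (1 / 2 ^ J)
    (C₂ * WW (2 ^ J) c t ^ ((r : ℝ) / 2) * (C₅ ^ P.card * ∏ p, mx J (x p).val (nd (dz p.1.1 θ))))
    (by positivity) (by positivity) (by
      intro ζ hζ
      have hζθ : ∀ i, ‖ζ i - θ i‖ ≤ (κ + 1) / 2 ^ J := by
        intro i
        have e1 : ζ i - θ i = (ζ i - ζ₀ i) + (ζ₀ i - θ i) := by ring
        rw [e1]
        have e2 : (κ + 1) / (2 : ℝ) ^ J = 1 / 2 ^ J + κ / 2 ^ J := by ring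
        rw [e2]
        exact (norm_add_le _ _).trans (add_le_add (hζ i) (hζ₀ i))
      have him : ∀ i, |(ζ i).im| ≤ (κ + 1) / 2 ^ J := by
        intro i
        have e1 : (ζ i - θ i).im = (ζ i).im := by simp
        have e2 := Complex.abs_im_le_norm (ζ i - θ i)
        rw [e1] at e2
        exact e2.trans (hζθ i)
      have hre : ∀ i, |(ζ i).re - θ i| ≤ (κ + 1) / 2 ^ J := by
        intro i
        have e1 : (ζ i - θ i).re = (ζ i).re - θ i := by simp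
        have e2 := Complex.abs_re_le_norm (ζ i - θ i)
        rw [e1] at e2
        exact e2.trans (hζθ i)
      have hsum : ∀ (p : {p // p ∈ P}) (y : Fin r → ℝ), (∀ i, |y i| ≤ (κ + 1) / 2 ^ J) →
          |∑ i, (p.1.1 i : ℝ) * y i| ≤ κ' / 2 ^ J := by
        intro p y hy
        refine (Finset.abs_sum_le_sum_abs _ _).trans ?_
        have e1 : ∑ i, |(p.1.1 i : ℝ) * y i| ≤ ∑ i, |(p.1.1 i : ℝ)| * ((κ + 1) / 2 ^ J) := by
          refine Finset.sum_le_sum fun i _ => ?_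
          rw [abs_mul]
          exact mul_le_mul_of_nonneg_left (hy i) (abs_nonneg _)
        rw [← Finset.sum_mul] at e1
        refine e1.trans ((mul_le_mul_of_nonneg_right (hSp p) (by positivity)).trans (le_of_eq ?_))
        rw [hκ']
        ring
      rw [h3 J K x t ζ hK, norm_mul, norm_prod]
      refine mul_le_mul (h2 J t ζ him) ?_ (Finset.prod_nonneg fun p _ => norm_nonneg _) (by positivity)
      have hfac : ∀ p ∈ (Finset.univ : Finset {p // p ∈ P}),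
          ‖PJ J (x p).val (∑ i, (p.1.1 i : ℂ) * ζ i)‖ ≤ C₅ * mx J (x p).val (nd (dz p.1.1 θ)) := by
        intro p _
        refine factor hκ'0 hC₄ h4 J (x p).val (Nat.lt_succ_iff.1 (x p).2) _ _ ?_ ?_
        · rw [im_sum]
          exact hsum p _ him
        · rw [re_sum]
          have e1 : ∑ i, (p.1.1 i : ℝ) * (ζ i).re - dz p.1.1 θ = ∑ i, (p.1.1 i : ℝ) * ((ζ i).re - θ i) := by
            unfold dz
            rw [← Finset.sum_sub_distrib]
            exact Finset.sum_congr rfl fun i _ => by ring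
          rw [e1]
          exact hsum p _ hre
      refine (Finset.prod_le_prod (fun p _ => norm_nonneg _) hfac).trans (le_of_eq ?_)
      rw [Finset.prod_mul_distrib, Finset.prod_const, Finset.card_univ, Fintype.card_coe])
  refine key.trans (le_of_eq ?_)
  have e1 : C₁ / (1 / (2 : ℝ) ^ J) = C₁ * 2 ^ J := by
    field_simp
  rw [e1, mul_pow]
  ring

end

end STZ
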