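import Pool.Agent.STZ.StmtsR

/-!
# Module KERI: the reproducing kernels given by irreducible characters
-/

set_option autoImplicit false

namespace STZ

open MeasureTheory Matrix

open scoped ComplexConjugate Matrix Real

noncomputable section

namespace KERI

variable {G : Type} [Group G] [TopologicalSpace G]

theorem one_ch {d : ℕ} (σ : Rep G (Fin d)) : σ.ch 1 = d := by
  rw [Rep.ch, map_one, Matrix.trace_one, Fintype.card_fin]

theorem inv_ch {d : ℕ} (σ : Rep G (Fin d)) (g : G) : σ.ch g⁻¹ = conj (σ.ch g) := by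
  rw [Rep.ch, Rep.ch, σ.unit, Matrix.trace_conjTranspose]
  rfl

theorem cont_ch {d : ℕ} (σ : Rep G (Fin d)) : Continuous σ.ch :=
  Continuous.matrix_trace σ.cont

theorem cont_entry {d : ℕ} (σ : Rep G (Fin d)) (i j : Fin d) : Continuous fun g => σ.ρ g i j :=
  (σ.cont).matrix_elem i j

theorem ch_mul_inv {d : ℕ} (σ : Rep G (Fin d)) (x y : G) :
    σ.ch (x * y⁻¹) = ∑ i, ∑ j, σ.ρ x i j * conj (σ.ρ y i j) := by
  rw [Rep.ch, map_mul, σ.unit, Matrix.trace]
  refine Finset.sum_congr rfl fun i _ => ?_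
  rw [Matrix.diag_apply, Matrix.mul_apply]
  rfl

theorem KK_eq {ι : Type} {χ : ι → G → ℂ} {a : ι} {d : ℕ} {σ : Rep G (Fin d)}
    (hσ : ∀ g, σ.ch g = χ a g) (x y : G) :
    KK χ a x y = d * ∑ i, ∑ j, σ.ρ x i j * conj (σ.ρ y i j) := by
  rw [KK, ← hσ, ← hσ, one_ch, ch_mul_inv]

variable [IsTopologicalGroup G] [CompactSpace G] [T2Space G] [SecondCountableTopology G]
  [MeasurableSpace G] [BorelSpace G] (μ : Measure G) [IsProbabilityMeasure μ]

omit [Group G] [IsTopologicalGroup G] [T2Space G] in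
theorem integ {u : G → ℂ} (hu : Continuous u) : Integrable u μ :=
  hu.integrable_of_hasCompactSupport (HasCompactSupport.of_compactSpace u)

omit [IsTopologicalGroup G] [T2Space G] in
theorem int_KK {ι : Type} {χ : ι → G → ℂ} {a : ι} {d : ℕ} {σ : Rep G (Fin d)}
    (hσ : ∀ g, σ.ch g = χ a g) (x : G) {u : G → ℂ} (hu : Continuous u) :
    ∫ y, KK χ a x y * u y ∂μ =
      d * ∑ i, ∑ j, σ.ρ x i j * ∫ y, u y * conj (σ.ρ y i j) ∂μ := by
  have hc : ∀ i j, Continuous fun y => u y * conj (σ.ρ y i j) := fun i j =>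
    hu.mul (Complex.continuous_conj.comp (cont_entry σ i j))
  have e : ∀ y, KK χ a x y * u y =
      d * ∑ i, ∑ j, σ.ρ x i j * (u y * conj (σ.ρ y i j)) := by
    intro y
    rw [KK_eq hσ, mul_assoc, Finset.sum_mul]
    congr 1
    refine Finset.sum_congr rfl fun i _ => ?_
    rw [Finset.sum_mul]
    refine Finset.sum_congr rfl fun j _ => ?_
    ring
  simp_rw [e]
  rw [integral_const_mul, integral_finsetSum]
  · congr 1
    refine Finset.sum_congr rfl fun i _ => ?_
    rw [integral_finsetSum]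
    · refine Finset.sum_congr rfl fun j _ => ?_
      rw [integral_const_mul]
    · intro j _
      exact (integ μ (hc i j)).const_mul _
  · intro i _
    refine integrable_finsetSum _ fun j _ => ?_
    exact (integ μ (hc i j)).const_mul _

end KERI

open KERI in
theorem t_KERI : M_KERI := by
  intro hS G _ _ _ _ _ _ _ _ μ _ _ ι χ hχ
  -- entries of the representation
  have hmem : ∀ (a : ι) (d : ℕ) (σ : Rep G (Fin d)), σ.Irr → (∀ g, σ.ch g = χ a g) →
      ∀ i j, Mem μ (KK χ a) (fun g => σ.ρ g i j) := by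
    intro a d σ hI hσ k l
    have hd : (d : ℂ) ≠ 0 := by
      obtain ⟨⟨i⟩, -⟩ := hI
      have := i.pos
      exact_mod_cast this.ne'
    refine ⟨cont_entry σ k l, fun x => ?_⟩
    rw [int_KK μ hσ x (cont_entry σ k l)]
    have h1 := (hS G μ (Fin d) σ hI).1
    simp_rw [h1]
    rw [Fintype.card_fin]
    have h2 : ∀ i j, σ.ρ x i j * (if k = i ∧ l = j then 1 / (d : ℂ) else 0) =
        if k = i then (if l = j then σ.ρ x i j * (1 / (d : ℂ)) else 0) else 0 := by
      intro i j
      by_cases hi : k = i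
      · by_cases hj : l = j
        · simp [hi, hj]
        · simp [hi, hj]
      · simp [hi]
    simp_rw [h2]
    have h3 : ∀ i, ∑ j, (if k = i then (if l = j then σ.ρ x i j * (1 / (d : ℂ)) else 0) else 0) =
        if k = i then σ.ρ x i l * (1 / (d : ℂ)) else 0 := by
      intro i
      by_cases hi : k = i
      · simp [hi]
      · simp [hi]
    simp_rw [h3]
    rw [Finset.sum_ite_eq Finset.univ k]
    simp only [Finset.mem_univ, if_true]
    field_simp
  have horth : ∀ (a b : ι) (d d' : ℕ) (σ : Rep G (Fin d)) (σ' : Rep G (Fin d')), a ≠ b →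
      σ.Irr → σ'.Irr → (∀ g, σ.ch g = χ a g) → (∀ g, σ'.ch g = χ b g) → ∀ k l x,
      ∫ y, KK χ a x y * σ'.ρ y k l ∂μ = 0 := by
    intro a b d d' σ σ' hab hI hI' hσ hσ' k l x
    rw [int_KK μ hσ x (cont_entry σ' k l)]
    rcases (hS G μ (Fin d') σ' hI').2 (Fin d) σ hI with h | h
    · exfalso
      obtain ⟨g, hg⟩ := hχ.ne a b hab
      exact hg (by rw [← hσ, ← hσ', h])
    · simp_rw [h]
      simp
  -- the integral against a kernel
  have hker : ∀ (a b : ι) (d' : ℕ) (σ' : Rep G (Fin d')), (∀ g, σ'.ch g = χ b g) →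
      Continuous (χ a) → ∀ x z,
      ∫ y, KK χ a x y * KK χ b y z ∂μ =
        d' * ∑ i, ∑ j, conj (σ'.ρ z i j) * ∫ y, KK χ a x y * σ'.ρ y i j ∂μ := by
    intro a b d' σ' hσ' hca x z
    have hcK : Continuous fun y => KK χ a x y :=
      continuous_const.mul (hca.comp (continuous_const.mul continuous_inv))
    have hc : ∀ i j, Continuous fun y => KK χ a x y * σ'.ρ y i j := fun i j =>
      hcK.mul (cont_entry σ' i j)
    have e : ∀ y, KK χ a x y * KK χ b y z =
        d' * ∑ i, ∑ j, conj (σ'.ρ z i j) * (KK χ a x y * σ'.ρ y i j) := by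
      intro y
      rw [KK_eq hσ' y z, mul_left_comm, Finset.mul_sum]
      congr 1
      refine Finset.sum_congr rfl fun i _ => ?_
      rw [Finset.mul_sum]
      refine Finset.sum_congr rfl fun j _ => ?_
      ring
    simp_rw [e]
    rw [integral_const_mul, integral_finsetSum]
    · congr 1
      refine Finset.sum_congr rfl fun i _ => ?_
      rw [integral_finsetSum]
      · refine Finset.sum_congr rfl fun j _ => ?_
        rw [integral_const_mul]
      · intro j _
        exact (integ μ (hc i j)).const_mul _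
    · intro i _
      refine integrable_finsetSum _ fun j _ => ?_
      exact (integ μ (hc i j)).const_mul _
  have hcont : ∀ a, Continuous (χ a) := by
    intro a
    obtain ⟨d, σ, hI, hσ⟩ := hχ.irr a
    have : χ a = σ.ch := (funext hσ).symm
    rw [this]
    exact cont_ch σ
  refine ⟨⟨?_, ?_, ?_, ?_⟩, ?_⟩
  · intro a
    exact continuous_const.mul ((hcont a).comp (continuous_fst.mul continuous_snd.inv))
  · intro a x y
    obtain ⟨d, σ, hI, hσ⟩ := hχ.irr a
    rw [KK, KK, ← hσ, ← hσ, ← hσ, map_mul, one_ch]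
    have e : x * y⁻¹ = (y * x⁻¹)⁻¹ := by group
    rw [e, inv_ch]
    simp
  · intro a x z
    obtain ⟨d, σ, hI, hσ⟩ := hχ.irr a
    rw [hker a a d σ hσ (hcont a) x z, KK_eq hσ x z]
    congr 1
    refine Finset.sum_congr rfl fun i _ => ?_
    refine Finset.sum_congr rfl fun j _ => ?_
    rw [(hmem a d σ hI hσ i j).2 x, mul_comm]
  · intro a b x z hab
    obtain ⟨d, σ, hI, hσ⟩ := hχ.irr a
    obtain ⟨d', σ', hI', hσ'⟩ := hχ.irr b
    rw [hker a b d' σ' hσ' (hcont a) x z]
    have h0 : ∀ i j, ∫ y, KK χ a x y * σ'.ρ y i j ∂μ = 0 := fun i j =>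
      horth a b d d' σ σ' hab hI hI' hσ hσ' i j x
    simp_rw [h0]
    simp
  · intro a d σ hI hσ
    exact ⟨by rw [← hσ, one_ch], hmem a d σ hI hσ⟩

end

end STZ
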