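import Pool.Agent.STZ.StmtsV

/-!
# HPRY: the exponential sum of the coefficients of the theta function times the cutoff functions
-/

namespace STZ

open MeasureTheory Matrix

open scoped ComplexConjugate Matrix Real

noncomputable section

namespace HPRY

/-- the exponential -/
def exq {r : ℕ} (ζ : Fin r → ℂ) (ν : Fin r → ℤ) : ℂ :=
  Complex.exp (2 * π * Complex.I * ∑ i, (ν i : ℂ) * ζ i)

theorem exq_add {r : ℕ} (ζ : Fin r → ℂ) (a b : Fin r → ℤ) : exq ζ (a + b) = exq ζ a * exq ζ b := by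
  unfold exq
  rw [← Complex.exp_add, ← mul_add, ← Finset.sum_add_distrib]
  congr 2
  refine Finset.sum_congr rfl fun i _ => ?_
  rw [Pi.add_apply]
  push_cast
  ring

theorem PJ_eq (hF : S_FEJA) (J x : ℕ) (hx : x ≤ J) (z : ℂ) :
    PJ J x z = ∑ k ∈ Finset.Icc (-(2 ^ (J + 1) : ℤ)) (2 ^ (J + 1)),
      (pj J x k : ℂ) * Complex.exp (2 * π * Complex.I * (k * z)) := by
  unfold PJ
  refine Finset.sum_subset ?_ ?_
  · intro k hk
    rw [Finset.mem_Icc] at hk ⊢
    have h : (2 : ℤ) ^ (x + 1) ≤ 2 ^ (J + 1) := pow_le_pow_right₀ (by norm_num) (by omega)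
    exact ⟨by linarith [hk.1], by linarith [hk.2]⟩
  · intro k _ hk
    rw [Finset.mem_Icc, not_and_or, not_le, not_le] at hk
    have h : (2 : ℤ) ^ (x + 1) ≤ |k| := by
      rcases hk with h | h
      · have := neg_le_abs k
        linarith
      · exact h.le.trans (le_abs_self k)
    rw [(hF.2 J x).2.2.1 k h]
    simp

theorem rs_apply {r : ℕ} (P : RT r) (k : {p // p ∈ P} → ℤ) (i : Fin r) :
    rs P k i = ∑ p, k p * p.1.1 i := by
  unfold rs
  rw [Finset.sum_apply]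
  rfl

theorem prod_eq (hF : S_FEJA) {r : ℕ} (P : RT r) (J : ℕ) (x : {p // p ∈ P} → Fin (J + 1))
    (ζ : Fin r → ℂ) :
    ∏ p, PJ J (x p).val (∑ i, (p.1.1 i : ℂ) * ζ i) =
      ∑ k ∈ kb P J, (∏ p, (pj J (x p).val (k p) : ℂ)) * exq ζ (rs P k) := by
  have h1 : ∀ p : {p // p ∈ P}, PJ J (x p).val (∑ i, (p.1.1 i : ℂ) * ζ i) =
      ∑ k ∈ Finset.Icc (-(2 ^ (J + 1) : ℤ)) (2 ^ (J + 1)), (pj J (x p).val k : ℂ) *
        Complex.exp (2 * π * Complex.I * (k * ∑ i, (p.1.1 i : ℂ) * ζ i)) := fun p =>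
    PJ_eq hF J _ (by have := (x p).isLt; omega) _
  rw [Finset.prod_congr rfl fun p _ => h1 p, Finset.prod_univ_sum]
  unfold kb
  refine Finset.sum_congr rfl fun k _ => ?_
  rw [Finset.prod_mul_distrib, ← Complex.exp_sum]
  congr 1
  unfold exq
  congr 1
  rw [← Finset.mul_sum]
  congr 1
  have h2 : ∀ p : {p // p ∈ P}, (k p : ℂ) * ∑ i, (p.1.1 i : ℂ) * ζ i =
      ∑ i, (k p : ℂ) * ((p.1.1 i : ℂ) * ζ i) := fun p => Finset.mul_sum _ _ _
  rw [Finset.sum_congr rfl fun p _ => h2 p, Finset.sum_comm]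
  refine Finset.sum_congr rfl fun i _ => ?_
  rw [rs_apply]
  push_cast
  rw [Finset.sum_mul]
  refine Finset.sum_congr rfl fun p _ => ?_
  ring

theorem mem_cb {r K : ℕ} {ν : Fin r → ℤ} : ν ∈ cb r K ↔ ∀ i, |ν i| ≤ K := by
  unfold cb
  simp only [Fintype.mem_piFinset, Finset.mem_Icc, abs_le]

/-- a function with the support in a box, shifted -/
theorem sum_shift {r M K : ℕ} (f : (Fin r → ℤ) → ℂ) (s : Fin r → ℤ)
    (hf : ∀ l, l ∉ cb r M → f l = 0) (hs : ∀ l ∈ cb r M, l + s ∈ cb r K) :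
    ∑ ν ∈ cb r K, f (ν - s) = ∑ l ∈ cb r M, f l := by
  have h1 : ∑ ν ∈ (cb r M).map (addRightEmbedding s), f (ν - s) = ∑ ν ∈ cb r K, f (ν - s) := by
    refine Finset.sum_subset ?_ ?_
    · intro ν hν
      rw [Finset.mem_map] at hν
      obtain ⟨l, hl, rfl⟩ := hν
      exact hs l hl
    · intro ν _ hν
      refine hf _ fun h => hν ?_
      rw [Finset.mem_map]
      exact ⟨ν - s, h, by simp⟩
  rw [← h1, Finset.sum_map]
  refine Finset.sum_congr rfl fun l _ => ?_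
  simp

/-- the bound for the roots -/
def cst {r : ℕ} (P : RT r) : ℕ := (r + 1) + 2 * ∑ p : {p // p ∈ P}, ∑ i, (p.1.1 i).natAbs

theorem rs_le {r : ℕ} (P : RT r) (J : ℕ) (k : {p // p ∈ P} → ℤ) (hk : k ∈ kb P J) (i : Fin r) :
    |rs P k i| ≤ 2 * (∑ p : {p // p ∈ P}, ∑ i, ((p.1.1 i).natAbs : ℤ)) * 2 ^ J := by
  rw [rs_apply]
  refine (Finset.abs_sum_le_sum_abs _ _).trans ?_
  rw [mul_comm (2 : ℤ), mul_assoc, Finset.sum_mul]
  refine Finset.sum_le_sum fun p _ => ?_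
  unfold kb at hk
  rw [Fintype.mem_piFinset] at hk
  have h1 := hk p
  rw [Finset.mem_Icc] at h1
  have h2 : |k p| ≤ 2 * 2 ^ J := by
    rw [← pow_succ']
    exact abs_le.2 h1
  have h3 : |p.1.1 i| ≤ ∑ i, ((p.1.1 i).natAbs : ℤ) := by
    rw [Int.abs_eq_natAbs]
    exact Finset.single_le_sum (f := fun i => ((p.1.1 i).natAbs : ℤ)) (fun j _ => by positivity)
      (Finset.mem_univ i)
  rw [abs_mul, mul_comm]
  exact mul_le_mul h3 h2 (abs_nonneg _) (Finset.sum_nonneg fun j _ => by positivity)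

end HPRY

open HPRY in
theorem t_HPRY : M_HPRY := by
  intro hF hE r D P B h hX hT hR
  refine ⟨cst P, fun J K x t ζ hK => ?_⟩
  have etf : ETF D P (2 ^ J) := hE r D P B h hX hT hR (2 ^ J) Nat.one_le_two_pow
  have hsup : ∀ l, l ∉ cb r ((r + 1) * 2 ^ J) → tk D P J t l = 0 := by
    intro l hl
    rw [mem_cb] at hl
    push Not at hl
    obtain ⟨i, hi⟩ := hl
    unfold tk
    rw [etf.supp l i (by push_cast at hi ⊢; exact hi)]
    simp
  rw [prod_eq hF, Finset.mul_sum]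
  have h1 : ES (cb r K) (nk D P J x t) ζ = ∑ k ∈ kb P J, (∏ p, (pj J (x p).val (k p) : ℂ)) *
      ∑ ν ∈ cb r K, tk D P J t (ν - rs P k) * exq ζ ν := by
    have h0 : ES (cb r K) (nk D P J x t) ζ = ∑ ν ∈ cb r K, nk D P J x t ν * exq ζ ν := rfl
    rw [h0]
    unfold nk
    simp only [Finset.sum_mul, Finset.mul_sum]
    rw [Finset.sum_comm]
    refine Finset.sum_congr rfl fun k _ => Finset.sum_congr rfl fun ν _ => ?_
    unfold tk
    ring
  rw [h1]
  refine Finset.sum_congr rfl fun k hk => ?_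
  have h2 : ∑ ν ∈ cb r K, tk D P J t (ν - rs P k) * exq ζ ν =
      (∑ ν ∈ cb r K, (fun l => tk D P J t l * exq ζ l) (ν - rs P k)) * exq ζ (rs P k) := by
    rw [Finset.sum_mul]
    refine Finset.sum_congr rfl fun ν _ => ?_
    have h3 : exq ζ ν = exq ζ (ν - rs P k) * exq ζ (rs P k) := by
      rw [← exq_add, sub_add_cancel]
    rw [h3]
    ring
  have h4 : ∑ ν ∈ cb r K, (fun l => tk D P J t l * exq ζ l) (ν - rs P k) =
      ∑ l ∈ cb r ((r + 1) * 2 ^ J), (fun l => tk D P J t l * exq ζ l) l := by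
    refine sum_shift (fun l => tk D P J t l * exq ζ l) (rs P k) (fun l hl => ?_)
      (fun l hl => ?_)
    · rw [hsup l hl, zero_mul]
    · rw [mem_cb] at hl ⊢
      intro i
      have h5 := hl i
      have h6 := rs_le P J k hk i
      have h7 : ((cst P * 2 ^ J : ℕ) : ℤ) ≤ K := by exact_mod_cast hK
      rw [Pi.add_apply]
      refine (abs_add_le _ _).trans ((add_le_add h5 h6).trans (le_trans (le_of_eq ?_) h7))
      unfold cst
      push_cast
      ring
  rw [h2, h4]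
  have h8 : ES (cb r ((r + 1) * 2 ^ J)) (tk D P J t) ζ =
      ∑ l ∈ cb r ((r + 1) * 2 ^ J), (fun l => tk D P J t l * exq ζ l) l := rfl
  rw [h8]
  ring

end

end STZ
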