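import Pool.Agent.STZ.StmtsT

/-!
# The integral of the powers of `WW`
-/

namespace STZ

open MeasureTheory Matrix

open scoped ComplexConjugate Matrix Real

noncomputable section

namespace WINT

/-- the profile integral -/
def KK (s : ℝ) : ℝ := ∫ u : ℝ, (1 + ‖u‖) ^ (-s)

lemma KK_nonneg (s : ℝ) : 0 ≤ KK s := by
  apply integral_nonneg
  intro u
  apply Real.rpow_nonneg
  positivity

lemma int_prof (M x s : ℝ) (hM : 0 < M) (hs : 1 < s) :
    ∫ t in (0 : ℝ)..1, (1 + M * |t - x|) ^ (-s) ≤ M⁻¹ * KK s := by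
  have hI : Integrable (fun u : ℝ => (1 + ‖u‖) ^ (-s)) := by
    apply integrable_one_add_norm
    simp only [Module.finrank_self, Nat.cast_one]
    exact hs
  have e1 : (∫ t in (0 : ℝ)..1, (1 + M * |t - x|) ^ (-s)) =
      ∫ t in (0 : ℝ)..1, (fun u : ℝ => (1 + ‖u‖) ^ (-s)) (M * t - M * x) := by
    apply intervalIntegral.integral_congr
    intro t _
    show (1 + M * |t - x|) ^ (-s) = (1 + ‖M * t - M * x‖) ^ (-s)
    rw [← mul_sub, norm_mul, Real.norm_of_nonneg hM.le, Real.norm_eq_abs]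
  rw [e1, intervalIntegral.integral_comp_mul_sub (fun u : ℝ => (1 + ‖u‖) ^ (-s)) hM.ne', smul_eq_mul]
  apply mul_le_mul_of_nonneg_left _ (inv_nonneg.mpr hM.le)
  rw [intervalIntegral.integral_of_le (by nlinarith)]
  apply setIntegral_le_integral hI
  filter_upwards with u
  apply Real.rpow_nonneg
  positivity

lemma cont_prof (M x s : ℝ) (hM : 0 ≤ M) :
    Continuous fun t : ℝ => (1 + M * |t - x|) ^ (-s) := by
  apply Continuous.rpow_const
  · fun_prop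
  · intro t
    left
    have : 0 ≤ M * |t - x| := mul_nonneg hM (abs_nonneg _)
    positivity

lemma WW_nonneg (R c : ℕ) (t : ℝ) : 0 ≤ WW R c t := by
  unfold WW
  apply Finset.sum_nonneg
  intro x _
  unfold mn
  positivity

lemma pow_add_le (x y σ : ℝ) (hx : 0 ≤ x) (hy : 0 ≤ y) (hσ : 0 ≤ σ) :
    (x + y) ^ σ ≤ 2 ^ σ * (x ^ σ + y ^ σ) := by
  have hx2 := Real.rpow_nonneg hx σ
  have hy2 := Real.rpow_nonneg hy σ
  have h2 : (0 : ℝ) ≤ 2 ^ σ := Real.rpow_nonneg (by norm_num) σ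
  rcases le_total x y with h | h
  · calc (x + y) ^ σ ≤ (2 * y) ^ σ := Real.rpow_le_rpow (by positivity) (by linarith) hσ
      _ = 2 ^ σ * y ^ σ := Real.mul_rpow (by norm_num) hy
      _ ≤ _ := mul_le_mul_of_nonneg_left (by linarith) h2
  · calc (x + y) ^ σ ≤ (2 * x) ^ σ := Real.rpow_le_rpow (by positivity) (by linarith) hσ
      _ = 2 ^ σ * x ^ σ := Real.mul_rpow (by norm_num) hx
      _ ≤ _ := mul_le_mul_of_nonneg_left (by linarith) h2

/-- the terms -/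
def tm (R : ℕ) (σ : ℝ) (q a : ℕ) (t : ℝ) : ℝ :=
  ((R : ℝ) ^ 2 / q) ^ σ * (1 + (R : ℝ) ^ 2 * |t - (a : ℝ) / q|) ^ (-(3 / 4 * σ))

lemma tm_nonneg (R : ℕ) (σ : ℝ) (q a : ℕ) (t : ℝ) : 0 ≤ tm R σ q a t := by
  unfold tm
  apply mul_nonneg
  · apply Real.rpow_nonneg
    positivity
  · apply Real.rpow_nonneg
    positivity

lemma tm_cont (R : ℕ) (σ : ℝ) (q a : ℕ) : Continuous (tm R σ q a) := by
  unfold tm
  exact (continuous_const).mul (cont_prof _ _ _ (by positivity))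

lemma tm_int (R : ℕ) (σ : ℝ) (q a : ℕ) (hR : 1 ≤ R) (hσ : 2 < σ) :
    ∫ t in (0 : ℝ)..1, tm R σ q a t ≤
      ((R : ℝ) ^ 2 / q) ^ σ * (((R : ℝ) ^ 2)⁻¹ * KK (3 / 4 * σ)) := by
  unfold tm
  rw [intervalIntegral.integral_const_mul]
  have hR' : (1 : ℝ) ≤ R := by exact_mod_cast hR
  apply mul_le_mul_of_nonneg_left
  · exact int_prof _ _ _ (by positivity) (by linarith)
  · apply Real.rpow_nonneg
    positivity

/-- the majorant -/
def gg (R c : ℕ) (C σ : ℝ) (t : ℝ) : ℝ :=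
  C ^ σ * (2 ^ σ * ((R * (1 + Real.log R)) ^ σ +
    ∑ q ∈ Finset.Icc 1 (2 * c * R), ∑ a ∈ Finset.range (q + 1), tm R σ q a t))

lemma gg_cont (R c : ℕ) (C σ : ℝ) : Continuous (gg R c C σ) := by
  unfold gg
  apply continuous_const.mul
  apply continuous_const.mul
  apply continuous_const.add
  apply continuous_finsetSum
  intro q _
  apply continuous_finsetSum
  intro a _
  exact tm_cont R σ q a

lemma point (c R : ℕ) (C σ : ℝ)
    (hc1 : 1 ≤ c) (hR : 1 ≤ R) (hσ : 2 < σ) (hC : 0 ≤ C)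
    (hW : ∀ (t : ℝ) (ρ : ℚ), ρ.den ≤ 2 * c * R → |t - ρ| ≤ 1 / (ρ.den * (2 * c * R)) →
      WW R c t ≤ C * (R * (1 + Real.log R) +
      (R : ℝ) ^ 2 / ρ.den * (1 + (R : ℝ) ^ 2 * |t - ρ|) ^ (-(3 / 4) : ℝ)))
    (t : ℝ) (ht : t ∈ Set.Ioc (0 : ℝ) 1) :
    WW R c t ^ σ ≤ gg R c C σ t := by
  have hN : 0 < 2 * c * R := by positivity
  obtain ⟨ρ, h1, h2⟩ := Real.exists_rat_abs_sub_le_and_den_le t hN
  have hq : 1 ≤ ρ.den := ρ.pos
  have hqR : (1 : ℝ) ≤ ρ.den := by exact_mod_cast hq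
  have hNR : (1 : ℝ) ≤ ((2 * c * R : ℕ) : ℝ) := by exact_mod_cast hN
  have hNc : ((2 * c * R : ℕ) : ℝ) = 2 * c * R := by push_cast; ring
  have hRR : (1 : ℝ) ≤ R := by exact_mod_cast hR
  have hlog : 0 ≤ Real.log R := Real.log_nonneg hRR
  have h3 : |t - ρ| ≤ 1 / (ρ.den * (2 * c * R)) := by
    refine h1.trans ?_
    rw [← hNc]
    apply one_div_le_one_div_of_le (by positivity)
    nlinarith
  have h4 := hW t ρ h2 h3
  -- the numerator
  have hρ : (ρ : ℝ) = (ρ.num : ℝ) / ρ.den := Rat.cast_def ρ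
  have h5 : |t - ρ| * ρ.den < 1 := by
    have h6 : |t - ρ| * ρ.den ≤ 1 / ((((2 * c * R : ℕ) : ℝ) + 1) * ρ.den) * ρ.den :=
      mul_le_mul_of_nonneg_right h1 (by positivity)
    have h7 : 1 / ((((2 * c * R : ℕ) : ℝ) + 1) * ρ.den) * ρ.den =
        1 / (((2 * c * R : ℕ) : ℝ) + 1) := by
      field_simp
    rw [h7] at h6
    have h8 : 1 / (((2 * c * R : ℕ) : ℝ) + 1) < 1 := by
      rw [div_lt_one (by positivity)]
      linarith
    linarith
  have h6 : |t * ρ.den - ρ.num| < 1 := by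
    have e : t * ρ.den - ρ.num = (t - ρ) * ρ.den := by
      rw [hρ]
      field_simp
    rw [e, abs_mul, abs_of_nonneg (by positivity : (0 : ℝ) ≤ ρ.den)]
    exact h5
  rw [abs_lt] at h6
  have h7 : (-1 : ℝ) < ρ.num := by
    have : 0 ≤ t * ρ.den := mul_nonneg ht.1.le (by positivity)
    linarith [h6.2]
  have h8 : (ρ.num : ℝ) < ρ.den + 1 := by
    have : t * ρ.den ≤ 1 * ρ.den := mul_le_mul_of_nonneg_right ht.2 (by positivity)
    linarith [h6.1]
  have h7' : 0 ≤ ρ.num := by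
    have : (-1 : ℤ) < ρ.num := by exact_mod_cast h7
    omega
  have h8' : ρ.num < ρ.den + 1 := by exact_mod_cast h8
  obtain ⟨a, ha⟩ := Int.eq_ofNat_of_zero_le h7'
  have ha2 : a < ρ.den + 1 := by
    rw [ha] at h8'
    exact_mod_cast h8'
  have haR : (ρ.num : ℝ) = (a : ℝ) := by
    rw [ha]
    simp
  rw [haR] at hρ
  -- the terms
  have hB : 0 ≤ (R : ℝ) ^ 2 / ρ.den * (1 + (R : ℝ) ^ 2 * |t - ρ|) ^ (-(3 / 4) : ℝ) := by
    apply mul_nonneg
    · positivity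
    · apply Real.rpow_nonneg
      positivity
  have hA : 0 ≤ (R : ℝ) * (1 + Real.log R) := by positivity
  have h9 : WW R c t ^ σ ≤ C ^ σ * (2 ^ σ * ((R * (1 + Real.log R)) ^ σ +
      ((R : ℝ) ^ 2 / ρ.den * (1 + (R : ℝ) ^ 2 * |t - ρ|) ^ (-(3 / 4) : ℝ)) ^ σ)) := by
    calc WW R c t ^ σ ≤ (C * (R * (1 + Real.log R) +
        (R : ℝ) ^ 2 / ρ.den * (1 + (R : ℝ) ^ 2 * |t - ρ|) ^ (-(3 / 4) : ℝ))) ^ σ :=
          Real.rpow_le_rpow (WW_nonneg R c t) h4 (by linarith)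
      _ = C ^ σ * (R * (1 + Real.log R) +
        (R : ℝ) ^ 2 / ρ.den * (1 + (R : ℝ) ^ 2 * |t - ρ|) ^ (-(3 / 4) : ℝ)) ^ σ :=
          Real.mul_rpow hC (by positivity)
      _ ≤ _ := mul_le_mul_of_nonneg_left (pow_add_le _ _ _ hA hB (by linarith))
          (Real.rpow_nonneg hC σ)
  refine h9.trans ?_
  unfold gg
  apply mul_le_mul_of_nonneg_left _ (Real.rpow_nonneg hC σ)
  apply mul_le_mul_of_nonneg_left _ (Real.rpow_nonneg (by norm_num) σ)
  apply add_le_add le_rfl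
  have h10 : ((R : ℝ) ^ 2 / ρ.den * (1 + (R : ℝ) ^ 2 * |t - ρ|) ^ (-(3 / 4) : ℝ)) ^ σ =
      tm R σ ρ.den a t := by
    unfold tm
    rw [Real.mul_rpow (by positivity) (by apply Real.rpow_nonneg; positivity), hρ,
      ← Real.rpow_mul (by positivity)]
    congr 2
    ring
  rw [h10]
  calc tm R σ ρ.den a t ≤ ∑ a ∈ Finset.range (ρ.den + 1), tm R σ ρ.den a t :=
        Finset.single_le_sum (f := fun a => tm R σ ρ.den a t)
          (fun i _ => tm_nonneg R σ ρ.den i t) (Finset.mem_range.mpr ha2)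
    _ ≤ _ := Finset.single_le_sum
          (f := fun q => ∑ a ∈ Finset.range (q + 1), tm R σ q a t)
          (fun q _ => Finset.sum_nonneg fun i _ => tm_nonneg R σ q i t)
          (Finset.mem_Icc.mpr ⟨hq, h2⟩)

lemma gg_int (R c : ℕ) (C σ : ℝ) (hR : 1 ≤ R) (hσ : 2 < σ) (hC : 0 ≤ C) :
    ∫ t in (0 : ℝ)..1, gg R c C σ t ≤ C ^ σ * (2 ^ σ * ((R * (1 + Real.log R)) ^ σ +
      ∑ q ∈ Finset.Icc 1 (2 * c * R), ∑ _a ∈ Finset.range (q + 1),
        ((R : ℝ) ^ 2 / q) ^ σ * (((R : ℝ) ^ 2)⁻¹ * KK (3 / 4 * σ)))) := by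
  unfold gg
  rw [intervalIntegral.integral_const_mul, intervalIntegral.integral_const_mul]
  apply mul_le_mul_of_nonneg_left _ (Real.rpow_nonneg hC σ)
  apply mul_le_mul_of_nonneg_left _ (Real.rpow_nonneg (by norm_num) σ)
  rw [intervalIntegral.integral_add (continuous_const.intervalIntegrable _ _)]
  · rw [intervalIntegral.integral_const]
    apply add_le_add
    · simp
    · rw [intervalIntegral.integral_finsetSum]
      · apply Finset.sum_le_sum
        intro q _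
        rw [intervalIntegral.integral_finsetSum]
        · apply Finset.sum_le_sum
          intro a _
          exact tm_int R σ q a hR hσ
        · intro a _
          exact (tm_cont R σ q a).intervalIntegrable _ _
      · intro q _
        exact (continuous_finsetSum _ fun a _ => tm_cont R σ q a).intervalIntegrable _ _
  · exact (continuous_finsetSum _ fun q _ =>
      continuous_finsetSum _ fun a _ => tm_cont R σ q a).intervalIntegrable _ _

lemma sum_bound (R N : ℕ) (σ K : ℝ) (hR : 1 ≤ R) (hσ : 2 < σ) (hK : 0 ≤ K) :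
    ∑ q ∈ Finset.Icc 1 N, ∑ _a ∈ Finset.range (q + 1),
        ((R : ℝ) ^ 2 / q) ^ σ * (((R : ℝ) ^ 2)⁻¹ * K) ≤
      (R : ℝ) ^ (2 * σ - 2) * (K * (2 * ∑' n : ℕ, (n : ℝ) ^ (1 - σ))) := by
  have hRR : (1 : ℝ) ≤ R := by exact_mod_cast hR
  have hR0 : (0 : ℝ) < R := by linarith
  have hs : Summable fun n : ℕ => (n : ℝ) ^ (1 - σ) := Real.summable_nat_rpow.mpr (by linarith)
  have e0 : ((R : ℝ) ^ 2) ^ σ * ((R : ℝ) ^ 2)⁻¹ = (R : ℝ) ^ (2 * σ - 2) := by
    rw [← Real.rpow_natCast (R : ℝ) 2, ← Real.rpow_mul hR0.le, ← Real.rpow_neg hR0.le,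
      ← Real.rpow_add hR0]
    congr 1
  have h1 : ∀ q ∈ Finset.Icc 1 N, ∑ _a ∈ Finset.range (q + 1),
        ((R : ℝ) ^ 2 / q) ^ σ * (((R : ℝ) ^ 2)⁻¹ * K) ≤
      (R : ℝ) ^ (2 * σ - 2) * (K * (2 * (q : ℝ) ^ (1 - σ))) := by
    intro q hq
    have hq1 : 1 ≤ q := (Finset.mem_Icc.mp hq).1
    have hqR : (1 : ℝ) ≤ q := by exact_mod_cast hq1
    have hq0 : (0 : ℝ) < q := by linarith
    rw [Finset.sum_const, Finset.card_range, nsmul_eq_mul, Real.div_rpow (by positivity) hq0.le]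
    have e1 : (q : ℝ) ^ (1 - σ) = q / (q : ℝ) ^ σ := by
      rw [Real.rpow_sub hq0, Real.rpow_one]
    rw [e1, ← e0]
    have hqs : 0 < (q : ℝ) ^ σ := Real.rpow_pos_of_pos hq0 σ
    have hRs : 0 < ((R : ℝ) ^ 2) ^ σ := Real.rpow_pos_of_pos (by positivity) σ
    have e2 : ((q + 1 : ℕ) : ℝ) * (((R : ℝ) ^ 2) ^ σ / (q : ℝ) ^ σ * (((R : ℝ) ^ 2)⁻¹ * K)) =
        (((R : ℝ) ^ 2) ^ σ * ((R : ℝ) ^ 2)⁻¹ * K / (q : ℝ) ^ σ) * ((q + 1 : ℕ) : ℝ) := by
      ring
    have e3 : ((R : ℝ) ^ 2) ^ σ * ((R : ℝ) ^ 2)⁻¹ * (K * (2 * (q / (q : ℝ) ^ σ))) =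
        (((R : ℝ) ^ 2) ^ σ * ((R : ℝ) ^ 2)⁻¹ * K / (q : ℝ) ^ σ) * (2 * q) := by
      ring
    rw [e2, e3]
    apply mul_le_mul_of_nonneg_left
    · push_cast
      linarith
    · positivity
  refine (Finset.sum_le_sum h1).trans ?_
  rw [← Finset.mul_sum, ← Finset.mul_sum, ← Finset.mul_sum]
  apply mul_le_mul_of_nonneg_left _ (Real.rpow_nonneg hR0.le _)
  apply mul_le_mul_of_nonneg_left _ hK
  apply mul_le_mul_of_nonneg_left _ (by norm_num)
  exact hs.sum_le_tsum _ fun n _ => Real.rpow_nonneg (Nat.cast_nonneg n) _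

lemma log_bound (R : ℕ) (σ : ℝ) (hR : 1 ≤ R) (hσ : 2 < σ) :
    ((R : ℝ) * (1 + Real.log R)) ^ σ ≤
      (1 + 1 / ((σ - 2) / σ)) ^ σ * (R : ℝ) ^ (2 * σ - 2) := by
  have hRR : (1 : ℝ) ≤ R := by exact_mod_cast hR
  have hR0 : (0 : ℝ) < R := by linarith
  have hσ0 : (0 : ℝ) < σ := by linarith
  have hε : 0 < (σ - 2) / σ := div_pos (by linarith) hσ0
  have h1 : Real.log R ≤ (R : ℝ) ^ ((σ - 2) / σ) / ((σ - 2) / σ) :=
    Real.log_le_rpow_div hR0.le hε
  have h2 : (1 : ℝ) ≤ (R : ℝ) ^ ((σ - 2) / σ) := Real.one_le_rpow hRR hε.le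
  have h3 : (1 + Real.log R) ≤ (1 + 1 / ((σ - 2) / σ)) * (R : ℝ) ^ ((σ - 2) / σ) := by
    have e : (1 + 1 / ((σ - 2) / σ)) * (R : ℝ) ^ ((σ - 2) / σ) =
        (R : ℝ) ^ ((σ - 2) / σ) + (R : ℝ) ^ ((σ - 2) / σ) / ((σ - 2) / σ) := by
      ring
    rw [e]
    linarith
  have hlog : 0 ≤ Real.log R := Real.log_nonneg hRR
  calc ((R : ℝ) * (1 + Real.log R)) ^ σ
      ≤ ((R : ℝ) * ((1 + 1 / ((σ - 2) / σ)) * (R : ℝ) ^ ((σ - 2) / σ))) ^ σ := by
        apply Real.rpow_le_rpow (by positivity) _ hσ0.le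
        exact mul_le_mul_of_nonneg_left h3 hR0.le
    _ = (1 + 1 / ((σ - 2) / σ)) ^ σ * (R : ℝ) ^ (2 * σ - 2) := by
        rw [Real.mul_rpow hR0.le (by positivity), Real.mul_rpow (by positivity) (by positivity),
          ← Real.rpow_mul hR0.le]
        have e : (σ - 2) / σ * σ = σ - 2 := by
          field_simp
        rw [e]
        have e2 : (R : ℝ) ^ (2 * σ - 2) = (R : ℝ) ^ σ * (R : ℝ) ^ (σ - 2) := by
          rw [← Real.rpow_add hR0]
          congr 1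
          ring
        rw [e2]
        ring

end WINT

open WINT in
theorem t_WINT : M_WINT := by
  intro hW c σ hc hσ
  obtain ⟨C, hC, hC2⟩ := hW c hc
  have hK := KK_nonneg (3 / 4 * σ)
  have hS : 0 ≤ ∑' n : ℕ, (n : ℝ) ^ (1 - σ) :=
    tsum_nonneg fun n => Real.rpow_nonneg (Nat.cast_nonneg n) _
  have hσ0 : (0 : ℝ) < σ := by linarith
  have hε : 0 < (σ - 2) / σ := div_pos (by linarith) hσ0
  refine ⟨C ^ σ * (2 ^ σ * ((1 + 1 / ((σ - 2) / σ)) ^ σ +
    KK (3 / 4 * σ) * (2 * ∑' n : ℕ, (n : ℝ) ^ (1 - σ)))), ?_, ?_⟩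
  · have h1 : 0 ≤ C ^ σ := Real.rpow_nonneg hC σ
    positivity
  · intro R hR
    have hRR : (1 : ℝ) ≤ R := by exact_mod_cast hR
    have h1 : ∫ t in (0 : ℝ)..1, WW R c t ^ σ ≤ ∫ t in (0 : ℝ)..1, gg R c C σ t := by
      rw [intervalIntegral.integral_of_le zero_le_one, intervalIntegral.integral_of_le zero_le_one]
      apply integral_mono_of_nonneg
      · filter_upwards with t
        exact Real.rpow_nonneg (WW_nonneg R c t) σ
      · have := (gg_cont R c C σ).intervalIntegrable (μ := volume) 0 1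
        rw [intervalIntegrable_iff_integrableOn_Ioc_of_le zero_le_one] at this
        exact this
      · rw [Filter.EventuallyLE, ae_restrict_iff' measurableSet_Ioc]
        filter_upwards with t ht
        exact point c R C σ hc hR hσ hC
          (fun t ρ h h' => hC2 R t ρ hR h h') t ht
    refine h1.trans ((gg_int R c C σ hR hσ hC).trans ?_)
    have e0 : ∀ x y z w : ℝ, x * (y * z) * w = x * (y * (z * w)) := fun x y z w => by ring
    rw [e0]
    apply mul_le_mul_of_nonneg_left _ (Real.rpow_nonneg hC σ)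
    apply mul_le_mul_of_nonneg_left _ (Real.rpow_nonneg (by norm_num) σ)
    have h2 := sum_bound R (2 * c * R) σ (KK (3 / 4 * σ)) hR hσ hK
    have h3 := log_bound R σ hR hσ
    rw [add_mul]
    apply add_le_add h3
    refine h2.trans (le_of_eq ?_)
    ring

end

end STZ
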