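import Pool.Agent.STZ.StmtsX
import Pool.Agent.STZ.WINT

/-!
# The integral of `WW N ^ a * WW M ^ b`
-/

namespace STZ

open MeasureTheory Matrix

open scoped ComplexConjugate Matrix Real

noncomputable section

namespace INTI

/-- powers of the logarithm are small -/
lemma log_pow (s ε : ℝ) (hs : 0 ≤ s) (hε : 0 < ε) :
    ∃ K : ℝ, 0 ≤ K ∧ ∀ R : ℕ, 1 ≤ R → (1 + Real.log R) ^ s ≤ K * (R : ℝ) ^ ε := by
  rcases hs.eq_or_lt with h0 | hs
  · refine ⟨1, zero_le_one, fun R hR => ?_⟩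
    have hRR : (1 : ℝ) ≤ R := by exact_mod_cast hR
    rw [← h0, Real.rpow_zero, one_mul]
    exact Real.one_le_rpow hRR hε.le
  · have hη : 0 < ε / s := div_pos hε hs
    refine ⟨(1 + 1 / (ε / s)) ^ s, Real.rpow_nonneg (by positivity) _, fun R hR => ?_⟩
    have hRR : (1 : ℝ) ≤ R := by exact_mod_cast hR
    have hR0 : (0 : ℝ) < R := by linarith
    have h1 : Real.log R ≤ (R : ℝ) ^ (ε / s) / (ε / s) := Real.log_le_rpow_div hR0.le hη
    have h2 : (1 : ℝ) ≤ (R : ℝ) ^ (ε / s) := Real.one_le_rpow hRR hη.le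
    have h3 : (1 + Real.log R) ≤ (1 + 1 / (ε / s)) * (R : ℝ) ^ (ε / s) := by
      have e : (1 + 1 / (ε / s)) * (R : ℝ) ^ (ε / s) =
          (R : ℝ) ^ (ε / s) + (R : ℝ) ^ (ε / s) / (ε / s) := by
        ring
      rw [e]
      linarith
    have hlog : 0 ≤ Real.log R := Real.log_nonneg hRR
    calc (1 + Real.log R) ^ s ≤ ((1 + 1 / (ε / s)) * (R : ℝ) ^ (ε / s)) ^ s :=
          Real.rpow_le_rpow (by positivity) h3 hs.le
      _ = (1 + 1 / (ε / s)) ^ s * (R : ℝ) ^ ε := by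
          rw [Real.mul_rpow (by positivity) (by positivity), ← Real.rpow_mul hR0.le]
          congr 2
          field_simp

/-- the right side -/
def RH (a b : ℝ) (N M : ℕ) : ℝ := (N : ℝ) ^ (2 * a - 2) * (M : ℝ) ^ (2 * b) * ((N : ℝ) / M) ^ (1 + a / 2)

lemma RH_eq (a b : ℝ) (N M : ℕ) (hN : 1 ≤ N) (hM : 1 ≤ M) :
    RH a b N M = (N : ℝ) ^ (5 * a / 2 - 1) * (M : ℝ) ^ (2 * b - 1 - a / 2) := by
  have hNR : (0 : ℝ) < N := by exact_mod_cast hN
  have hMR : (0 : ℝ) < M := by exact_mod_cast hM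
  unfold RH
  rw [Real.div_rpow hNR.le hMR.le, div_eq_mul_inv, ← Real.rpow_neg hMR.le]
  have e : (N : ℝ) ^ (2 * a - 2) * (M : ℝ) ^ (2 * b) * ((N : ℝ) ^ (1 + a / 2) * (M : ℝ) ^ (-(1 + a / 2))) =
      ((N : ℝ) ^ (2 * a - 2) * (N : ℝ) ^ (1 + a / 2)) * ((M : ℝ) ^ (2 * b) * (M : ℝ) ^ (-(1 + a / 2))) := by
    ring
  rw [e, ← Real.rpow_add hNR, ← Real.rpow_add hMR]
  congr 2 <;> ring

lemma RH_nonneg (a b : ℝ) (N M : ℕ) : 0 ≤ RH a b N M := by
  unfold RH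
  positivity

/-- `∑ q ^ (-1/2)` -/
lemma sum_half (Q : ℕ) :
    ∑ q ∈ Finset.Icc 1 Q, (q : ℝ) ^ (-(1 / 2) : ℝ) ≤ 2 * Real.sqrt Q := by
  induction Q with
  | zero => simp
  | succ Q ih =>
    rw [Finset.sum_Icc_succ_top (by omega)]
    have h1 : ((Q + 1 : ℕ) : ℝ) ^ (-(1 / 2) : ℝ) = 1 / Real.sqrt ((Q + 1 : ℕ) : ℝ) := by
      rw [Real.rpow_neg (by positivity), ← Real.sqrt_eq_rpow, one_div]
    rw [h1]
    have hq0 : (0 : ℝ) ≤ Q := Nat.cast_nonneg Q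
    have hs : 0 < Real.sqrt ((Q + 1 : ℕ) : ℝ) := Real.sqrt_pos.mpr (by positivity)
    have hs0 : 0 ≤ Real.sqrt (Q : ℝ) := Real.sqrt_nonneg _
    have e1 : Real.sqrt ((Q + 1 : ℕ) : ℝ) ^ 2 = Q + 1 := by
      rw [Real.sq_sqrt (by positivity)]
      push_cast
      ring
    have e2 : Real.sqrt (Q : ℝ) ^ 2 = Q := Real.sq_sqrt hq0
    have h2 : 1 / Real.sqrt ((Q + 1 : ℕ) : ℝ) ≤
        2 * (Real.sqrt ((Q + 1 : ℕ) : ℝ) - Real.sqrt (Q : ℝ)) := by
      rw [div_le_iff₀ hs]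
      nlinarith [sq_nonneg (Real.sqrt ((Q + 1 : ℕ) : ℝ) - Real.sqrt (Q : ℝ))]
    linarith

lemma sum_b (Q : ℕ) (b : ℝ) (hb : 3 / 2 ≤ b) :
    ∑ q ∈ Finset.Icc 1 Q, ((q : ℝ) + 1) * (q : ℝ) ^ (-b) ≤ 4 * Real.sqrt Q := by
  have h1 : ∀ q ∈ Finset.Icc 1 Q, ((q : ℝ) + 1) * (q : ℝ) ^ (-b) ≤ 2 * (q : ℝ) ^ (-(1 / 2) : ℝ) := by
    intro q hq
    have hq1 : (1 : ℝ) ≤ q := by exact_mod_cast (Finset.mem_Icc.mp hq).1
    have hq0 : (0 : ℝ) < q := by linarith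
    have e : (q : ℝ) ^ (1 - b) = q * (q : ℝ) ^ (-b) := by
      rw [sub_eq_add_neg, Real.rpow_add hq0, Real.rpow_one]
    have h2 : (q : ℝ) ^ (1 - b) ≤ (q : ℝ) ^ (-(1 / 2) : ℝ) :=
      Real.rpow_le_rpow_of_exponent_le hq1 (by linarith)
    have h3 : 0 ≤ (q : ℝ) ^ (-b) := Real.rpow_nonneg hq0.le _
    nlinarith
  refine (Finset.sum_le_sum h1).trans ?_
  rw [← Finset.mul_sum]
  linarith [sum_half Q]

lemma sum_ab (Q : ℕ) (σ : ℝ) (hσ : 2 < σ) :
    ∑ q ∈ Finset.Icc 1 Q, ((q : ℝ) + 1) * (q : ℝ) ^ (-σ) ≤ 2 * ∑' n : ℕ, (n : ℝ) ^ (1 - σ) := by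
  have hs : Summable fun n : ℕ => (n : ℝ) ^ (1 - σ) := Real.summable_nat_rpow.mpr (by linarith)
  have h1 : ∀ q ∈ Finset.Icc 1 Q, ((q : ℝ) + 1) * (q : ℝ) ^ (-σ) ≤ 2 * (q : ℝ) ^ (1 - σ) := by
    intro q hq
    have hq1 : (1 : ℝ) ≤ q := by exact_mod_cast (Finset.mem_Icc.mp hq).1
    have hq0 : (0 : ℝ) < q := by linarith
    have e : (q : ℝ) ^ (1 - σ) = q * (q : ℝ) ^ (-σ) := by
      rw [sub_eq_add_neg, Real.rpow_add hq0, Real.rpow_one]
    have h3 : 0 ≤ (q : ℝ) ^ (-σ) := Real.rpow_nonneg hq0.le _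
    rw [e]
    nlinarith
  refine (Finset.sum_le_sum h1).trans ?_
  rw [← Finset.mul_sum]
  apply mul_le_mul_of_nonneg_left _ (by norm_num)
  exact hs.sum_le_tsum _ fun n _ => Real.rpow_nonneg (Nat.cast_nonneg n) _

/-- Dirichlet approximation -/
lemma pt (c M : ℕ) (C : ℝ) (hc1 : 1 ≤ c) (hM : 1 ≤ M)
    (hW : ∀ (t : ℝ) (ρ : ℚ), ρ.den ≤ 2 * c * M → |t - ρ| ≤ 1 / (ρ.den * (2 * c * M)) →
      WW M c t ≤ C * (M * (1 + Real.log M) +
      (M : ℝ) ^ 2 / ρ.den * (1 + (M : ℝ) ^ 2 * |t - ρ|) ^ (-(3 / 4) : ℝ)))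
    (t : ℝ) (ht : t ∈ Set.Ioc (0 : ℝ) 1) :
    ∃ q n : ℕ, q ∈ Finset.Icc 1 (2 * c * M) ∧ n ∈ Finset.range (q + 1) ∧ Nat.Coprime n q ∧
      |t - (n : ℝ) / q| ≤ 1 / (q * (2 * c * M)) ∧
      WW M c t ≤ C * (M * (1 + Real.log M) +
        (M : ℝ) ^ 2 / q * (1 + (M : ℝ) ^ 2 * |t - (n : ℝ) / q|) ^ (-(3 / 4) : ℝ)) := by
  have hN : 0 < 2 * c * M := by positivity
  obtain ⟨ρ, h1, h2⟩ := Real.exists_rat_abs_sub_le_and_den_le t hN
  have hq : 1 ≤ ρ.den := ρ.pos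
  have hqR : (1 : ℝ) ≤ ρ.den := by exact_mod_cast hq
  have hNR : (1 : ℝ) ≤ ((2 * c * M : ℕ) : ℝ) := by exact_mod_cast hN
  have hNc : ((2 * c * M : ℕ) : ℝ) = 2 * c * M := by push_cast; ring
  have h3 : |t - ρ| ≤ 1 / (ρ.den * (2 * c * M)) := by
    refine h1.trans ?_
    rw [← hNc]
    apply one_div_le_one_div_of_le (by positivity)
    nlinarith
  have h4 := hW t ρ h2 h3
  -- the numerator
  have hρ : (ρ : ℝ) = (ρ.num : ℝ) / ρ.den := Rat.cast_def ρ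
  have h5 : |t - ρ| * ρ.den < 1 := by
    have h6 : |t - ρ| * ρ.den ≤ 1 / ((((2 * c * M : ℕ) : ℝ) + 1) * ρ.den) * ρ.den :=
      mul_le_mul_of_nonneg_right h1 (by positivity)
    have h7 : 1 / ((((2 * c * M : ℕ) : ℝ) + 1) * ρ.den) * ρ.den =
        1 / (((2 * c * M : ℕ) : ℝ) + 1) := by
      field_simp
    rw [h7] at h6
    have h8 : 1 / (((2 * c * M : ℕ) : ℝ) + 1) < 1 := by
      rw [div_lt_one (by positivity)]
      linarith
    linarith
  have h6 : |t * ρ.den - ρ.num| < 1 := by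
    have e : t * ρ.den - ρ.num = (t - ρ) * ρ.den := by
      rw [hρ]
      field_simp
    rw [e, abs_mul, abs_of_nonneg (by positivity : (0 : ℝ) ≤ ρ.den)]
    exact h5
  rw [abs_lt] at h6
  have h7 : (-1 : ℝ) < ρ.num := by
    have : 0 ≤ t * ρ.den := mul_nonneg ht.1.le (by positivity)
    linarith [h6.2]
  have h8 : (ρ.num : ℝ) < ρ.den + 1 := by
    have : t * ρ.den ≤ 1 * ρ.den := mul_le_mul_of_nonneg_right ht.2 (by positivity)
    linarith [h6.1]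
  have h7' : 0 ≤ ρ.num := by
    have : (-1 : ℤ) < ρ.num := by exact_mod_cast h7
    omega
  have h8' : ρ.num < ρ.den + 1 := by exact_mod_cast h8
  obtain ⟨a, ha⟩ := Int.eq_ofNat_of_zero_le h7'
  have ha2 : a < ρ.den + 1 := by
    rw [ha] at h8'
    exact_mod_cast h8'
  have haR : (ρ.num : ℝ) = (a : ℝ) := by
    rw [ha]
    simp
  rw [haR] at hρ
  have hcop : Nat.Coprime a ρ.den := by
    have := ρ.reduced
    rw [ha] at this
    simpa using this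
  rw [hρ] at h3 h4
  exact ⟨ρ.den, a, Finset.mem_Icc.mpr ⟨hq, h2⟩, Finset.mem_range.mpr ha2, hcop, h3, h4⟩

/-- the term -/
def h0 (c N M : ℕ) (a b : ℝ) (q n : ℕ) (t : ℝ) : ℝ :=
  WW N c t ^ a * (1 + (M : ℝ) ^ 2 * |t - (n : ℝ) / q|) ^ (-(3 * b / 4))

/-- the interval -/
def II (c M q n : ℕ) : Set ℝ :=
  Set.Icc ((n : ℝ) / q - 1 / (q * (2 * c * M))) ((n : ℝ) / q + 1 / (q * (2 * c * M)))

/-- the term, cut off -/
def TT (c N M : ℕ) (a b : ℝ) (q n : ℕ) (t : ℝ) : ℝ :=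
  if Nat.Coprime n q then (II c M q n).indicator (h0 c N M a b q n) t else 0

lemma h0_nonneg (c N M : ℕ) (a b : ℝ) (q n : ℕ) (t : ℝ) : 0 ≤ h0 c N M a b q n t := by
  unfold h0
  apply mul_nonneg
  · exact Real.rpow_nonneg (WINT.WW_nonneg _ _ _) _
  · apply Real.rpow_nonneg
    positivity

lemma TT_nonneg (c N M : ℕ) (a b : ℝ) (q n : ℕ) (t : ℝ) : 0 ≤ TT c N M a b q n t := by
  unfold TT
  split_ifs
  · exact Set.indicator_nonneg (fun t _ => h0_nonneg c N M a b q n t) t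
  · exact le_rfl

lemma h0_cont (hF : WWF) (c N M : ℕ) (a b : ℝ) (ha : 0 ≤ a) (q n : ℕ) :
    Continuous (h0 c N M a b q n) := by
  unfold h0
  apply Continuous.mul
  · exact (hF.cont N c).rpow_const fun t => Or.inr ha
  · exact WINT.cont_prof _ _ _ (by positivity)

lemma TT_integrable (hF : WWF) (c N M : ℕ) (a b : ℝ) (ha : 0 ≤ a) (q n : ℕ) :
    Integrable (TT c N M a b q n) := by
  unfold TT
  split_ifs
  · have : IntegrableOn (h0 c N M a b q n) (II c M q n) := by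
      unfold II
      exact (h0_cont hF c N M a b ha q n).integrableOn_Icc
    exact (integrable_indicator_iff measurableSet_Icc).mpr this
  · exact integrable_zero _ _ _

lemma TT_int (hF : WWF) (c N M : ℕ) (a b K : ℝ) (ha : 0 ≤ a) (q n : ℕ) (hK : 0 ≤ K)
    (hJ : Nat.Coprime n q →
      ∫ t in ((n : ℝ) / q - 1 / (q * (2 * c * M)))..((n : ℝ) / q + 1 / (q * (2 * c * M))),
        h0 c N M a b q n t ≤ K) :
    ∫ t in Set.Ioc (0 : ℝ) 1, TT c N M a b q n t ≤ K := by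
  have h1 : ∫ t in Set.Ioc (0 : ℝ) 1, TT c N M a b q n t ≤ ∫ t, TT c N M a b q n t := by
    apply setIntegral_le_integral (TT_integrable hF c N M a b ha q n)
    filter_upwards with t
    exact TT_nonneg c N M a b q n t
  refine h1.trans ?_
  unfold TT
  split_ifs with hcop
  · unfold II
    rw [integral_indicator measurableSet_Icc, integral_Icc_eq_integral_Ioc,
      ← intervalIntegral.integral_of_le]
    · exact hJ hcop
    · have : (0 : ℝ) ≤ 1 / (q * (2 * c * M)) := by positivity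
      linarith
  · simpa using hK

/-- the pointwise bound -/
lemma point (c N M : ℕ) (C a b : ℝ) (hc1 : 1 ≤ c) (hM : 1 ≤ M) (hb : 0 ≤ b) (hC : 0 ≤ C)
    (hW : ∀ (t : ℝ) (ρ : ℚ), ρ.den ≤ 2 * c * M → |t - ρ| ≤ 1 / (ρ.den * (2 * c * M)) →
      WW M c t ≤ C * (M * (1 + Real.log M) +
      (M : ℝ) ^ 2 / ρ.den * (1 + (M : ℝ) ^ 2 * |t - ρ|) ^ (-(3 / 4) : ℝ)))
    (t : ℝ) (ht : t ∈ Set.Ioc (0 : ℝ) 1) :
    WW N c t ^ a * WW M c t ^ b ≤ C ^ b * (2 ^ b * ((M * (1 + Real.log M)) ^ b * WW N c t ^ a +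
      ∑ q ∈ Finset.Icc 1 (2 * c * M), ∑ n ∈ Finset.range (q + 1),
        ((M : ℝ) ^ 2 / q) ^ b * TT c N M a b q n t)) := by
  obtain ⟨q, n, hq, hn, hcop, h3, h4⟩ := pt c M C hc1 hM hW t ht
  have hMR : (1 : ℝ) ≤ M := by exact_mod_cast hM
  have hlog : 0 ≤ Real.log M := Real.log_nonneg hMR
  have hqR : (1 : ℝ) ≤ q := by exact_mod_cast (Finset.mem_Icc.mp hq).1
  have hB : 0 ≤ (M : ℝ) ^ 2 / q * (1 + (M : ℝ) ^ 2 * |t - (n : ℝ) / q|) ^ (-(3 / 4) : ℝ) := by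
    apply mul_nonneg
    · positivity
    · apply Real.rpow_nonneg
      positivity
  have hA : 0 ≤ (M : ℝ) * (1 + Real.log M) := by positivity
  have hN0 : 0 ≤ WW N c t ^ a := Real.rpow_nonneg (WINT.WW_nonneg _ _ _) _
  have h9 : WW M c t ^ b ≤ C ^ b * (2 ^ b * ((M * (1 + Real.log M)) ^ b +
      ((M : ℝ) ^ 2 / q * (1 + (M : ℝ) ^ 2 * |t - (n : ℝ) / q|) ^ (-(3 / 4) : ℝ)) ^ b)) := by
    calc WW M c t ^ b ≤ (C * (M * (1 + Real.log M) +
        (M : ℝ) ^ 2 / q * (1 + (M : ℝ) ^ 2 * |t - (n : ℝ) / q|) ^ (-(3 / 4) : ℝ))) ^ b :=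
          Real.rpow_le_rpow (WINT.WW_nonneg M c t) h4 hb
      _ = C ^ b * (M * (1 + Real.log M) +
        (M : ℝ) ^ 2 / q * (1 + (M : ℝ) ^ 2 * |t - (n : ℝ) / q|) ^ (-(3 / 4) : ℝ)) ^ b :=
          Real.mul_rpow hC (by positivity)
      _ ≤ _ := mul_le_mul_of_nonneg_left (WINT.pow_add_le _ _ _ hA hB hb)
          (Real.rpow_nonneg hC b)
  have h10 : ((M : ℝ) ^ 2 / q * (1 + (M : ℝ) ^ 2 * |t - (n : ℝ) / q|) ^ (-(3 / 4) : ℝ)) ^ b =
      ((M : ℝ) ^ 2 / q) ^ b * (1 + (M : ℝ) ^ 2 * |t - (n : ℝ) / q|) ^ (-(3 * b / 4)) := by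
    rw [Real.mul_rpow (by positivity) (by apply Real.rpow_nonneg; positivity),
      ← Real.rpow_mul (by positivity)]
    congr 2
    ring
  have hmem : t ∈ II c M q n := by
    rw [abs_le] at h3
    unfold II
    exact ⟨by linarith [h3.1], by linarith [h3.2]⟩
  have h11 : TT c N M a b q n t = h0 c N M a b q n t := by
    unfold TT
    rw [if_pos hcop, Set.indicator_of_mem hmem]
  have h12 : ((M : ℝ) ^ 2 / q) ^ b * TT c N M a b q n t ≤
      ∑ q ∈ Finset.Icc 1 (2 * c * M), ∑ n ∈ Finset.range (q + 1),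
        ((M : ℝ) ^ 2 / q) ^ b * TT c N M a b q n t := by
    have hnn : ∀ q n : ℕ, 0 ≤ ((M : ℝ) ^ 2 / q) ^ b * TT c N M a b q n t := fun q n =>
      mul_nonneg (Real.rpow_nonneg (by positivity) _) (TT_nonneg c N M a b q n t)
    calc ((M : ℝ) ^ 2 / q) ^ b * TT c N M a b q n t
        ≤ ∑ n ∈ Finset.range (q + 1), ((M : ℝ) ^ 2 / q) ^ b * TT c N M a b q n t :=
          Finset.single_le_sum (f := fun n => ((M : ℝ) ^ 2 / q) ^ b * TT c N M a b q n t)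
            (fun i _ => hnn q i) hn
      _ ≤ _ := Finset.single_le_sum
          (f := fun q : ℕ => ∑ n ∈ Finset.range (q + 1), ((M : ℝ) ^ 2 / q) ^ b * TT c N M a b q n t)
          (fun q _ => Finset.sum_nonneg fun i _ => hnn q i) hq
  have h13 : ((M : ℝ) ^ 2 / q) ^ b * TT c N M a b q n t =
      WW N c t ^ a * (((M : ℝ) ^ 2 / q) ^ b *
        (1 + (M : ℝ) ^ 2 * |t - (n : ℝ) / q|) ^ (-(3 * b / 4))) := by
    rw [h11]
    unfold h0
    ring
  have hCb : 0 ≤ C ^ b := Real.rpow_nonneg hC b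
  have h2b : (0 : ℝ) ≤ 2 ^ b := Real.rpow_nonneg (by norm_num) b
  calc WW N c t ^ a * WW M c t ^ b
      ≤ WW N c t ^ a * (C ^ b * (2 ^ b * ((M * (1 + Real.log M)) ^ b +
        ((M : ℝ) ^ 2 / q) ^ b * (1 + (M : ℝ) ^ 2 * |t - (n : ℝ) / q|) ^ (-(3 * b / 4))))) := by
        rw [← h10]
        exact mul_le_mul_of_nonneg_left h9 hN0
    _ = C ^ b * (2 ^ b * ((M * (1 + Real.log M)) ^ b * WW N c t ^ a +
        ((M : ℝ) ^ 2 / q) ^ b * TT c N M a b q n t)) := by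
        rw [h13]
        ring
    _ ≤ _ := by
        apply mul_le_mul_of_nonneg_left _ hCb
        apply mul_le_mul_of_nonneg_left _ h2b
        linarith

/-- `∫ WW N ^ a` -/
lemma int_a (hF : WWF) (c N : ℕ) (a C : ℝ) (ha : 0 < a) (ha1 : a < 1) (hN : 1 ≤ N)
    (hC : ∫ t in (0 : ℝ)..1, WW N c t ≤ C * (N * (1 + Real.log N))) :
    ∫ t in (0 : ℝ)..1, WW N c t ^ a ≤ (1 + C) * (N * (1 + Real.log N)) ^ a := by
  have hNR : (1 : ℝ) ≤ N := by exact_mod_cast hN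
  have hlog : 0 ≤ Real.log N := Real.log_nonneg hNR
  set l : ℝ := N * (1 + Real.log N) with hl
  have hl0 : 0 < l := by positivity
  have hla : 0 < l ^ a := Real.rpow_pos_of_pos hl0 a
  have h1 : ∀ t : ℝ, WW N c t ^ a ≤ l ^ a * (1 + WW N c t / l) := by
    intro t
    have hw := WINT.WW_nonneg N c t
    have hy : 0 ≤ WW N c t / l := by positivity
    have e : WW N c t ^ a = l ^ a * (WW N c t / l) ^ a := by
      rw [← Real.mul_rpow hl0.le hy]
      congr 1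
      field_simp
    rw [e]
    apply mul_le_mul_of_nonneg_left _ hla.le
    rcases le_total (WW N c t / l) 1 with h | h
    · have : (WW N c t / l) ^ a ≤ 1 := Real.rpow_le_one hy h ha.le
      linarith
    · have : (WW N c t / l) ^ a ≤ (WW N c t / l) ^ (1 : ℝ) :=
        Real.rpow_le_rpow_of_exponent_le h ha1.le
      rw [Real.rpow_one] at this
      linarith
  have hcW := hF.cont N c
  calc ∫ t in (0 : ℝ)..1, WW N c t ^ a ≤ ∫ t in (0 : ℝ)..1, l ^ a * (1 + WW N c t / l) := by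
        apply intervalIntegral.integral_mono_on zero_le_one
        · exact (hcW.rpow_const fun t => Or.inr ha.le).intervalIntegrable _ _
        · exact (continuous_const.mul (continuous_const.add (hcW.div_const l))).intervalIntegrable _ _
        · intro t _
          exact h1 t
    _ = l ^ a * (1 + (∫ t in (0 : ℝ)..1, WW N c t) / l) := by
        rw [intervalIntegral.integral_const_mul, intervalIntegral.integral_add
          (continuous_const.intervalIntegrable _ _) ((hcW.div_const l).intervalIntegrable _ _),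
          intervalIntegral.integral_const, intervalIntegral.integral_div]
        simp
    _ ≤ l ^ a * (1 + C) := by
        apply mul_le_mul_of_nonneg_left _ hla.le
        have : (∫ t in (0 : ℝ)..1, WW N c t) / l ≤ C := by
          rw [div_le_iff₀ hl0]
          exact hC
        linarith
    _ = _ := by ring

/-- the integral near one rational -/
lemma Jb (c N M : ℕ) (a b CL : ℝ)
    (hL : ∀ ρ : ℚ, ρ.den ≤ 2 * c * M →
      ∫ t in ((ρ : ℝ) - 1 / (ρ.den * (2 * c * M)))..((ρ : ℝ) + 1 / (ρ.den * (2 * c * M))),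
        WW N c t ^ a * (1 + (M : ℝ) ^ 2 * |t - ρ|) ^ (-(3 * b / 4)) ≤
      CL * ((N * (1 + Real.log N)) ^ a * (M : ℝ) ^ (-2 : ℝ) +
        (ρ.den : ℝ) ^ (-a) * (N : ℝ) ^ (2 * a - 2) * ((N : ℝ) / M) ^ (2 - 3 * a / 2)))
    (q n : ℕ) (hq : q ∈ Finset.Icc 1 (2 * c * M)) (hcop : Nat.Coprime n q) :
    ∫ t in ((n : ℝ) / q - 1 / (q * (2 * c * M)))..((n : ℝ) / q + 1 / (q * (2 * c * M))),
        h0 c N M a b q n t ≤
      CL * ((N * (1 + Real.log N)) ^ a * (M : ℝ) ^ (-2 : ℝ) +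
        (q : ℝ) ^ (-a) * (N : ℝ) ^ (2 * a - 2) * ((N : ℝ) / M) ^ (2 - 3 * a / 2)) := by
  obtain ⟨hq1, hq2⟩ := Finset.mem_Icc.mp hq
  have hden : (((n : ℤ) : ℚ) / ((q : ℤ) : ℚ)).den = q := by
    have := Rat.den_div_eq_of_coprime (a := (n : ℤ)) (b := (q : ℤ)) (by exact_mod_cast hq1)
      (by simpa using hcop)
    exact_mod_cast this
  have h := hL (((n : ℤ) : ℚ) / ((q : ℤ) : ℚ)) (by rw [hden]; exact hq2)
  rw [hden] at h
  have e : (((((n : ℤ) : ℚ) / ((q : ℤ) : ℚ) : ℚ)) : ℝ) = (n : ℝ) / q := by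
    push_cast
    rfl
  rw [e] at h
  exact h

/-- the case `2 M ≤ N` -/
lemma main2 (hF : WWF) (c N M : ℕ) (a b C C2 CL K1 K2 : ℝ) (hc1 : 1 ≤ c) (hM : 1 ≤ M) (hN : 1 ≤ N)
    (hMN : M ≤ N) (ha : 2 / 3 < a) (ha1 : a < 1) (hb : 3 / 2 ≤ b) (hC : 0 ≤ C) (hC2 : 0 ≤ C2)
    (hCL : 0 ≤ CL) (hK1 : 0 ≤ K1) (hK2 : 0 ≤ K2)
    (hW : ∀ (t : ℝ) (ρ : ℚ), ρ.den ≤ 2 * c * M → |t - ρ| ≤ 1 / (ρ.den * (2 * c * M)) →
      WW M c t ≤ C * (M * (1 + Real.log M) +
      (M : ℝ) ^ 2 / ρ.den * (1 + (M : ℝ) ^ 2 * |t - ρ|) ^ (-(3 / 4) : ℝ)))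
    (hI : ∫ t in (0 : ℝ)..1, WW N c t ≤ C2 * (N * (1 + Real.log N)))
    (hL : ∀ ρ : ℚ, ρ.den ≤ 2 * c * M →
      ∫ t in ((ρ : ℝ) - 1 / (ρ.den * (2 * c * M)))..((ρ : ℝ) + 1 / (ρ.den * (2 * c * M))),
        WW N c t ^ a * (1 + (M : ℝ) ^ 2 * |t - ρ|) ^ (-(3 * b / 4)) ≤
      CL * ((N * (1 + Real.log N)) ^ a * (M : ℝ) ^ (-2 : ℝ) +
        (ρ.den : ℝ) ^ (-a) * (N : ℝ) ^ (2 * a - 2) * ((N : ℝ) / M) ^ (2 - 3 * a / 2)))
    (h1 : (1 + Real.log M) ^ b ≤ K1 * (M : ℝ) ^ (b - 1 - a / 2))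
    (h2 : (1 + Real.log N) ^ a ≤ K2 * (N : ℝ) ^ (3 * a / 2 - 1)) :
    ∫ t in (0 : ℝ)..1, WW N c t ^ a * WW M c t ^ b ≤
      C ^ b * (2 ^ b * ((1 + C2) * K1 * K2 + CL * (K2 * (4 * Real.sqrt (2 * c)) +
        2 * ∑' n : ℕ, (n : ℝ) ^ (1 - (a + b))))) * RH a b N M := by
  have hNR : (1 : ℝ) ≤ N := by exact_mod_cast hN
  have hMR : (1 : ℝ) ≤ M := by exact_mod_cast hM
  have hN0 : (0 : ℝ) < N := by linarith
  have hM0 : (0 : ℝ) < M := by linarith
  have hlN : 0 ≤ Real.log N := Real.log_nonneg hNR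
  have hlM : 0 ≤ Real.log M := Real.log_nonneg hMR
  have hCb : 0 ≤ C ^ b := Real.rpow_nonneg hC b
  have h2b : (0 : ℝ) ≤ 2 ^ b := Real.rpow_nonneg (by norm_num) b
  have ha0 : 0 < a := by linarith
  have hb0 : 0 ≤ b := by linarith
  have hcN : Continuous fun t => WW N c t ^ a := (hF.cont N c).rpow_const fun t => Or.inr ha0.le
  have hcM : Continuous fun t => WW M c t ^ b := (hF.cont M c).rpow_const fun t => Or.inr hb0
  set l : ℝ := N * (1 + Real.log N) with hl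
  -- the bound of the terms
  set J : ℕ → ℝ := fun q => CL * (l ^ a * (M : ℝ) ^ (-2 : ℝ) +
        (q : ℝ) ^ (-a) * (N : ℝ) ^ (2 * a - 2) * ((N : ℝ) / M) ^ (2 - 3 * a / 2)) with hJ
  have hl0 : 0 ≤ l := by positivity
  have hJ0 : ∀ q, 0 ≤ J q := by
    intro q
    rw [hJ]
    have : 0 ≤ (q : ℝ) ^ (-a) := Real.rpow_nonneg (Nat.cast_nonneg q) _
    positivity
  -- the integral
  have hint : ∀ q n : ℕ, IntegrableOn (fun t => ((M : ℝ) ^ 2 / q) ^ b * TT c N M a b q n t)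
      (Set.Ioc (0 : ℝ) 1) := fun q n =>
    ((TT_integrable hF c N M a b ha0.le q n).const_mul _).integrableOn
  have hintN : IntegrableOn (fun t => (M * (1 + Real.log M)) ^ b * WW N c t ^ a)
      (Set.Ioc (0 : ℝ) 1) := by
    have := (continuous_const.mul hcN :
      Continuous fun t => (M * (1 + Real.log M)) ^ b * WW N c t ^ a).intervalIntegrable
        (μ := volume) 0 1
    rwa [intervalIntegrable_iff_integrableOn_Ioc_of_le zero_le_one] at this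
  have hintS : IntegrableOn (fun t => ∑ q ∈ Finset.Icc 1 (2 * c * M), ∑ n ∈ Finset.range (q + 1),
        ((M : ℝ) ^ 2 / q) ^ b * TT c N M a b q n t) (Set.Ioc (0 : ℝ) 1) := by
    apply integrable_finsetSum
    intro q _
    apply integrable_finsetSum
    intro n _
    exact hint q n
  have hmain : ∫ t in (0 : ℝ)..1, WW N c t ^ a * WW M c t ^ b ≤
      C ^ b * (2 ^ b * ((M * (1 + Real.log M)) ^ b * (∫ t in (0 : ℝ)..1, WW N c t ^ a) +
        ∑ q ∈ Finset.Icc 1 (2 * c * M), ∑ _n ∈ Finset.range (q + 1),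
          ((M : ℝ) ^ 2 / q) ^ b * J q)) := by
    rw [intervalIntegral.integral_of_le zero_le_one]
    have hle : ∫ t in Set.Ioc (0 : ℝ) 1, WW N c t ^ a * WW M c t ^ b ≤
        ∫ t in Set.Ioc (0 : ℝ) 1, C ^ b * (2 ^ b * ((M * (1 + Real.log M)) ^ b * WW N c t ^ a +
      ∑ q ∈ Finset.Icc 1 (2 * c * M), ∑ n ∈ Finset.range (q + 1),
        ((M : ℝ) ^ 2 / q) ^ b * TT c N M a b q n t)) := by
      apply integral_mono_of_nonneg
      · filter_upwards with t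
        exact mul_nonneg (Real.rpow_nonneg (WINT.WW_nonneg _ _ _) _)
          (Real.rpow_nonneg (WINT.WW_nonneg _ _ _) _)
      · exact ((hintN.add hintS).const_mul _).const_mul _
      · rw [Filter.EventuallyLE, ae_restrict_iff' measurableSet_Ioc]
        filter_upwards with t ht
        exact point c N M C a b hc1 hM hb0 hC hW t ht
    refine hle.trans ?_
    rw [integral_const_mul, integral_const_mul]
    apply mul_le_mul_of_nonneg_left _ hCb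
    apply mul_le_mul_of_nonneg_left _ h2b
    rw [integral_add hintN hintS]
    apply add_le_add
    · rw [integral_const_mul, intervalIntegral.integral_of_le zero_le_one]
    · rw [integral_finsetSum]
      · apply Finset.sum_le_sum
        intro q hq
        rw [integral_finsetSum]
        · apply Finset.sum_le_sum
          intro n _
          rw [integral_const_mul]
          apply mul_le_mul_of_nonneg_left _ (Real.rpow_nonneg (by positivity) _)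
          exact TT_int hF c N M a b (J q) ha0.le q n (hJ0 q)
            (fun hcop => Jb c N M a b CL hL q n hq hcop)
        · intro n _
          exact hint q n
      · intro q _
        apply integrable_finsetSum
        intro n _
        exact hint q n
  refine hmain.trans ?_
  have eass : ∀ x y z w : ℝ, x * (y * z) * w = x * (y * (z * w)) := fun x y z w => by ring
  rw [eass]
  apply mul_le_mul_of_nonneg_left _ hCb
  apply mul_le_mul_of_nonneg_left _ h2b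
  rw [add_mul]
  have hlN' : 0 ≤ 1 + Real.log N := by linarith
  have hlM' : 0 ≤ 1 + Real.log M := by linarith
  have hla : l ^ a ≤ K2 * (N : ℝ) ^ (5 * a / 2 - 1) := by
    rw [hl, Real.mul_rpow hN0.le hlN']
    calc (N : ℝ) ^ a * (1 + Real.log N) ^ a ≤ (N : ℝ) ^ a * (K2 * (N : ℝ) ^ (3 * a / 2 - 1)) :=
          mul_le_mul_of_nonneg_left h2 (Real.rpow_nonneg hN0.le _)
      _ = K2 * ((N : ℝ) ^ a * (N : ℝ) ^ (3 * a / 2 - 1)) := by ring
      _ = K2 * (N : ℝ) ^ (5 * a / 2 - 1) := by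
          rw [← Real.rpow_add hN0]
          congr 2
          ring
  have hla0 : 0 ≤ l ^ a := Real.rpow_nonneg hl0 a
  have hRH := RH_eq a b N M hN hM
  have hRH0 := RH_nonneg a b N M
  apply add_le_add
  · -- P1
    have hMb : (M * (1 + Real.log M)) ^ b ≤ K1 * (M : ℝ) ^ (2 * b - 1 - a / 2) := by
      rw [Real.mul_rpow hM0.le hlM']
      calc (M : ℝ) ^ b * (1 + Real.log M) ^ b ≤ (M : ℝ) ^ b * (K1 * (M : ℝ) ^ (b - 1 - a / 2)) :=
            mul_le_mul_of_nonneg_left h1 (Real.rpow_nonneg hM0.le _)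
        _ = K1 * ((M : ℝ) ^ b * (M : ℝ) ^ (b - 1 - a / 2)) := by ring
        _ = _ := by
            rw [← Real.rpow_add hM0]
            congr 2
            ring
    have hIa := int_a hF c N a C2 ha0 ha1 hN hI
    rw [← hl] at hIa
    have hMb0 : 0 ≤ (M * (1 + Real.log M)) ^ b := Real.rpow_nonneg (by positivity) _
    have hC21 : 0 ≤ 1 + C2 := by linarith
    calc (M * (1 + Real.log M)) ^ b * (∫ t in (0 : ℝ)..1, WW N c t ^ a)
        ≤ (M * (1 + Real.log M)) ^ b * ((1 + C2) * l ^ a) := mul_le_mul_of_nonneg_left hIa hMb0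
      _ ≤ (K1 * (M : ℝ) ^ (2 * b - 1 - a / 2)) * ((1 + C2) * (K2 * (N : ℝ) ^ (5 * a / 2 - 1))) := by
          apply mul_le_mul hMb _ (mul_nonneg hC21 hla0)
          · exact mul_nonneg hK1 (Real.rpow_nonneg hM0.le _)
          · exact mul_le_mul_of_nonneg_left hla hC21
      _ = (1 + C2) * K1 * K2 * RH a b N M := by
          rw [hRH]
          ring
  · -- P2, P3
    have hterm : ∀ q ∈ Finset.Icc 1 (2 * c * M), ∑ _n ∈ Finset.range (q + 1),
          ((M : ℝ) ^ 2 / q) ^ b * J q =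
        CL * (l ^ a * (M : ℝ) ^ (2 * b - 2)) * (((q : ℝ) + 1) * (q : ℝ) ^ (-b)) +
        CL * ((M : ℝ) ^ (2 * b) * (N : ℝ) ^ (2 * a - 2) * ((N : ℝ) / M) ^ (2 - 3 * a / 2)) *
          (((q : ℝ) + 1) * (q : ℝ) ^ (-(a + b))) := by
      intro q hq
      have hq1 : (1 : ℝ) ≤ q := by exact_mod_cast (Finset.mem_Icc.mp hq).1
      have hq0 : (0 : ℝ) < q := by linarith
      rw [Finset.sum_const, Finset.card_range, nsmul_eq_mul]
      have e1 : ((M : ℝ) ^ 2 / q) ^ b = (M : ℝ) ^ (2 * b) * (q : ℝ) ^ (-b) := by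
        rw [Real.div_rpow (by positivity) hq0.le, ← Real.rpow_natCast (M : ℝ) 2,
          ← Real.rpow_mul hM0.le, Real.rpow_neg hq0.le]
        push_cast
        ring
      have e2 : (M : ℝ) ^ (2 * b - 2) = (M : ℝ) ^ (2 * b) * (M : ℝ) ^ (-2 : ℝ) := by
        rw [← Real.rpow_add hM0]
        congr 1
      have e3 : (q : ℝ) ^ (-(a + b)) = (q : ℝ) ^ (-b) * (q : ℝ) ^ (-a) := by
        rw [← Real.rpow_add hq0]
        congr 1
        ring
      rw [e1, e2, e3, hJ]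
      push_cast
      ring
    rw [Finset.sum_congr rfl hterm, Finset.sum_add_distrib, ← Finset.mul_sum, ← Finset.mul_sum]
    have s1 := sum_b (2 * c * M) b hb
    have s2 := sum_ab (2 * c * M) (a + b) (by linarith)
    set S := ∑' n : ℕ, (n : ℝ) ^ (1 - (a + b)) with hS
    have hS0 : 0 ≤ S := tsum_nonneg fun n => Real.rpow_nonneg (Nat.cast_nonneg n) _
    have p2 : CL * (l ^ a * (M : ℝ) ^ (2 * b - 2)) *
        ∑ q ∈ Finset.Icc 1 (2 * c * M), ((q : ℝ) + 1) * (q : ℝ) ^ (-b) ≤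
        CL * (K2 * (4 * Real.sqrt (2 * c))) * RH a b N M := by
      have hsq : Real.sqrt ((2 * c * M : ℕ) : ℝ) = Real.sqrt (2 * c) * (M : ℝ) ^ (1 / 2 : ℝ) := by
        rw [← Real.sqrt_eq_rpow, ← Real.sqrt_mul (by positivity)]
        push_cast
        rfl
      rw [hsq] at s1
      have hM12 : (M : ℝ) ^ (2 * b - 2) * (M : ℝ) ^ (1 / 2 : ℝ) ≤ (M : ℝ) ^ (2 * b - 1 - a / 2) := by
        rw [← Real.rpow_add hM0]
        exact Real.rpow_le_rpow_of_exponent_le hMR (by linarith)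
      have hx : 0 ≤ CL * (l ^ a * (M : ℝ) ^ (2 * b - 2)) := by positivity
      calc CL * (l ^ a * (M : ℝ) ^ (2 * b - 2)) *
            ∑ q ∈ Finset.Icc 1 (2 * c * M), ((q : ℝ) + 1) * (q : ℝ) ^ (-b)
          ≤ CL * (l ^ a * (M : ℝ) ^ (2 * b - 2)) * (4 * (Real.sqrt (2 * c) * (M : ℝ) ^ (1 / 2 : ℝ))) :=
            mul_le_mul_of_nonneg_left s1 hx
        _ = CL * (4 * Real.sqrt (2 * c)) * (l ^ a * ((M : ℝ) ^ (2 * b - 2) * (M : ℝ) ^ (1 / 2 : ℝ))) := by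
            ring
        _ ≤ CL * (4 * Real.sqrt (2 * c)) *
            ((K2 * (N : ℝ) ^ (5 * a / 2 - 1)) * (M : ℝ) ^ (2 * b - 1 - a / 2)) := by
            apply mul_le_mul_of_nonneg_left _ (by positivity)
            exact mul_le_mul hla hM12 (by positivity) (by positivity)
        _ = _ := by
            rw [hRH]
            ring
    have p3 : CL * ((M : ℝ) ^ (2 * b) * (N : ℝ) ^ (2 * a - 2) * ((N : ℝ) / M) ^ (2 - 3 * a / 2)) *
        ∑ q ∈ Finset.Icc 1 (2 * c * M), ((q : ℝ) + 1) * (q : ℝ) ^ (-(a + b)) ≤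
        CL * (2 * S) * RH a b N M := by
      have hNM : (1 : ℝ) ≤ (N : ℝ) / M := by
        rw [le_div_iff₀ hM0, one_mul]
        exact_mod_cast hMN
      have hpow : ((N : ℝ) / M) ^ (2 - 3 * a / 2) ≤ ((N : ℝ) / M) ^ (1 + a / 2) :=
        Real.rpow_le_rpow_of_exponent_le hNM (by linarith)
      have hx : 0 ≤ CL * ((M : ℝ) ^ (2 * b) * (N : ℝ) ^ (2 * a - 2) * ((N : ℝ) / M) ^ (2 - 3 * a / 2)) := by
        positivity
      have hy : 0 ≤ CL * ((M : ℝ) ^ (2 * b) * (N : ℝ) ^ (2 * a - 2)) * (2 * S) := by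
        positivity
      calc _ ≤ CL * ((M : ℝ) ^ (2 * b) * (N : ℝ) ^ (2 * a - 2) * ((N : ℝ) / M) ^ (2 - 3 * a / 2)) *
            (2 * S) := mul_le_mul_of_nonneg_left s2 hx
        _ = CL * ((M : ℝ) ^ (2 * b) * (N : ℝ) ^ (2 * a - 2)) * (2 * S) *
            ((N : ℝ) / M) ^ (2 - 3 * a / 2) := by ring
        _ ≤ CL * ((M : ℝ) ^ (2 * b) * (N : ℝ) ^ (2 * a - 2)) * (2 * S) *
            ((N : ℝ) / M) ^ (1 + a / 2) := mul_le_mul_of_nonneg_left hpow hy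
        _ = _ := by
            unfold RH
            ring
    calc _ ≤ CL * (K2 * (4 * Real.sqrt (2 * c))) * RH a b N M + CL * (2 * S) * RH a b N M :=
          add_le_add p2 p3
      _ = _ := by ring

/-- the case `N < 2 M` -/
lemma main1 (hF : WWF) (c N M : ℕ) (a b C : ℝ) (hM : 1 ≤ M) (hMN : M ≤ N) (hNM : N ≤ 2 * M)
    (ha : 2 / 3 < a) (ha1 : a < 1) (hb : 3 / 2 ≤ b) (hC : 0 ≤ C)
    (hI : ∫ t in (0 : ℝ)..1, WW N c t ^ (a + b) ≤ C * (N : ℝ) ^ (2 * (a + b) - 2)) :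
    ∫ t in (0 : ℝ)..1, WW N c t ^ a * WW M c t ^ b ≤ C * 2 ^ (2 * b) * RH a b N M := by
  have hN : 1 ≤ N := hM.trans hMN
  have hNR : (1 : ℝ) ≤ N := by exact_mod_cast hN
  have hMR : (1 : ℝ) ≤ M := by exact_mod_cast hM
  have hN0 : (0 : ℝ) < N := by linarith
  have hM0 : (0 : ℝ) < M := by linarith
  have ha0 : 0 < a := by linarith
  have hb0 : 0 ≤ b := by linarith
  have hcN : Continuous fun t => WW N c t ^ a := (hF.cont N c).rpow_const fun t => Or.inr ha0.le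
  have hcM : Continuous fun t => WW M c t ^ b := (hF.cont M c).rpow_const fun t => Or.inr hb0
  have hcS : Continuous fun t => WW N c t ^ (a + b) :=
    (hF.cont N c).rpow_const fun t => Or.inr (by linarith)
  have h1 : ∫ t in (0 : ℝ)..1, WW N c t ^ a * WW M c t ^ b ≤
      ∫ t in (0 : ℝ)..1, WW N c t ^ (a + b) := by
    apply intervalIntegral.integral_mono_on zero_le_one
    · exact (hcN.mul hcM).intervalIntegrable _ _
    · exact hcS.intervalIntegrable _ _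
    · intro t _
      have hge := hF.ge N c t
      have hpos : 0 < WW N c t := lt_of_lt_of_le hN0 hge
      rw [Real.rpow_add hpos]
      apply mul_le_mul_of_nonneg_left _ (Real.rpow_nonneg hpos.le _)
      exact Real.rpow_le_rpow (WINT.WW_nonneg _ _ _) (hF.mono M N c c t hMN le_rfl) hb0
  refine h1.trans (hI.trans ?_)
  rw [mul_assoc]
  apply mul_le_mul_of_nonneg_left _ hC
  have hNM1 : (1 : ℝ) ≤ (N : ℝ) / M := by
    rw [le_div_iff₀ hM0, one_mul]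
    exact_mod_cast hMN
  have h3 : (1 : ℝ) ≤ ((N : ℝ) / M) ^ (1 + a / 2) := Real.one_le_rpow hNM1 (by linarith)
  have h4 : (N : ℝ) ^ (2 * b) ≤ 2 ^ (2 * b) * (M : ℝ) ^ (2 * b) := by
    rw [← Real.mul_rpow (by norm_num) hM0.le]
    exact Real.rpow_le_rpow hN0.le (by exact_mod_cast hNM) (by linarith)
  have e : (N : ℝ) ^ (2 * (a + b) - 2) = (N : ℝ) ^ (2 * a - 2) * (N : ℝ) ^ (2 * b) := by
    rw [← Real.rpow_add hN0]
    congr 1
    ring
  rw [e]
  unfold RH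
  have hNa : 0 ≤ (N : ℝ) ^ (2 * a - 2) := Real.rpow_nonneg hN0.le _
  calc (N : ℝ) ^ (2 * a - 2) * (N : ℝ) ^ (2 * b)
      ≤ (N : ℝ) ^ (2 * a - 2) * (2 ^ (2 * b) * (M : ℝ) ^ (2 * b)) :=
        mul_le_mul_of_nonneg_left h4 hNa
    _ = 2 ^ (2 * b) * ((N : ℝ) ^ (2 * a - 2) * (M : ℝ) ^ (2 * b)) * 1 := by ring
    _ ≤ 2 ^ (2 * b) * ((N : ℝ) ^ (2 * a - 2) * (M : ℝ) ^ (2 * b)) * ((N : ℝ) / M) ^ (1 + a / 2) :=
        mul_le_mul_of_nonneg_left h3 (by positivity)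
    _ = _ := by ring

end INTI

open INTI in
theorem t_INTI : M_INTI := by
  intro hWPT hWINT hF hLOCI c a b hc ha ha1 hb
  obtain ⟨C, hC, hC'⟩ := hWPT c hc
  obtain ⟨C1, hC1, hC1'⟩ := hWINT c (a + b) hc (by linarith)
  obtain ⟨CL, hCL, hCL'⟩ := hLOCI c a b hc (by linarith) ha1 hb
  obtain ⟨C2, hC2'⟩ := hF.int1 c
  obtain ⟨K1, hK1, hK1'⟩ := log_pow b (b - 1 - a / 2) (by linarith) (by linarith)
  obtain ⟨K2, hK2, hK2'⟩ := log_pow a (3 * a / 2 - 1) (by linarith) (by linarith)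
  have hS : 0 ≤ ∑' n : ℕ, (n : ℝ) ^ (1 - (a + b)) :=
    tsum_nonneg fun n => Real.rpow_nonneg (Nat.cast_nonneg n) _
  have hCb : 0 ≤ C ^ b := Real.rpow_nonneg hC b
  set A : ℝ := C ^ b * (2 ^ b * ((1 + |C2|) * K1 * K2 + CL * (K2 * (4 * Real.sqrt (2 * c)) +
        2 * ∑' n : ℕ, (n : ℝ) ^ (1 - (a + b))))) with hA
  have hA0 : 0 ≤ A := by
    rw [hA]
    positivity
  have hB0 : (0 : ℝ) ≤ C1 * 2 ^ (2 * b) := by positivity
  refine ⟨A + C1 * 2 ^ (2 * b), add_nonneg hA0 hB0, ?_⟩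
  intro N M hM hMN
  have hN : 1 ≤ N := hM.trans hMN
  have hRH0 := RH_nonneg a b N M
  show _ ≤ (A + C1 * 2 ^ (2 * b)) * RH a b N M
  rw [add_mul]
  rcases le_total (2 * M) N with h | h
  · have hNR : (1 : ℝ) ≤ N := by exact_mod_cast hN
    have hlN : 0 ≤ Real.log N := Real.log_nonneg hNR
    have hI : ∫ t in (0 : ℝ)..1, WW N c t ≤ |C2| * (N * (1 + Real.log N)) :=
      (hC2' N hN).trans (mul_le_mul_of_nonneg_right (le_abs_self C2) (by positivity))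
    have := main2 hF c N M a b C |C2| CL K1 K2 hc hM hN hMN ha ha1 hb hC (abs_nonneg _) hCL hK1 hK2
      (fun t ρ h1 h2 => hC' M t ρ hM h1 h2) hI (fun ρ hρ => hCL' N M ρ hM h hρ) (hK1' M hM)
      (hK2' N hN)
    have h0 : 0 ≤ C1 * 2 ^ (2 * b) * RH a b N M := mul_nonneg hB0 hRH0
    linarith
  · have := main1 hF c N M a b C1 hM hMN h ha ha1 hb hC1 (hC1' N hN)
    have h0 : 0 ≤ A * RH a b N M := mul_nonneg hA0 hRH0
    linarith

end

end STZ
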