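import Pool.Agent.STZ.StmtsX

/-!
# The integral near one rational
-/

namespace STZ

open MeasureTheory Matrix

open scoped ComplexConjugate Matrix Real

noncomputable section

namespace LOCI

/-- the profile integral -/
def KK (s : ℝ) : ℝ := ∫ u : ℝ, (1 + ‖u‖) ^ (-s)

lemma KK_nonneg (s : ℝ) : 0 ≤ KK s := by
  apply integral_nonneg
  intro u
  apply Real.rpow_nonneg
  positivity

/-- the weight -/
def wt (M x s t : ℝ) : ℝ := (1 + M * |t - x|) ^ (-s)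

lemma wt_nonneg (M x s t : ℝ) (hM : 0 ≤ M) : 0 ≤ wt M x s t := by
  unfold wt
  apply Real.rpow_nonneg
  positivity

lemma base_ge (M x t : ℝ) (hM : 0 ≤ M) : 1 ≤ 1 + M * |t - x| := by
  have : 0 ≤ M * |t - x| := mul_nonneg hM (abs_nonneg _)
  linarith

lemma wt_le_one (M x s t : ℝ) (hM : 0 ≤ M) (hs : 0 ≤ s) : wt M x s t ≤ 1 := by
  unfold wt
  exact Real.rpow_le_one_of_one_le_of_nonpos (base_ge M x t hM) (by linarith)

lemma wt_cont (M x s : ℝ) (hM : 0 ≤ M) : Continuous (wt M x s) := by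
  unfold wt
  apply Continuous.rpow_const
  · fun_prop
  · intro t
    left
    have := base_ge M x t hM
    positivity

lemma int_wt (M x s u v : ℝ) (hM : 0 < M) (hs : 1 < s) (huv : u ≤ v) :
    ∫ t in u..v, wt M x s t ≤ M⁻¹ * KK s := by
  have hI : Integrable (fun u : ℝ => (1 + ‖u‖) ^ (-s)) := by
    apply integrable_one_add_norm
    simp only [Module.finrank_self, Nat.cast_one]
    exact hs
  have e1 : (∫ t in u..v, wt M x s t) =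
      ∫ t in u..v, (fun u : ℝ => (1 + ‖u‖) ^ (-s)) (M * t - M * x) := by
    apply intervalIntegral.integral_congr
    intro t _
    show (1 + M * |t - x|) ^ (-s) = (1 + ‖M * t - M * x‖) ^ (-s)
    rw [← mul_sub, norm_mul, Real.norm_of_nonneg hM.le, Real.norm_eq_abs]
  rw [e1, intervalIntegral.integral_comp_mul_sub (fun u : ℝ => (1 + ‖u‖) ^ (-s)) hM.ne', smul_eq_mul]
  apply mul_le_mul_of_nonneg_left _ (inv_nonneg.mpr hM.le)
  rw [intervalIntegral.integral_of_le (by nlinarith)]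
  apply setIntegral_le_integral hI
  filter_upwards with u
  apply Real.rpow_nonneg
  positivity

lemma int_half (L p δ : ℝ) (hL : 0 < L) (hp1 : p < 1) (hδ : 0 ≤ δ) :
    ∫ t in (0 : ℝ)..δ, (1 + L * t) ^ (-p) ≤ (1 + L * δ) ^ (1 - p) / (L * (1 - p)) := by
  have hp' : (0 : ℝ) < 1 - p := by linarith
  have h1 : ∀ t ∈ Set.uIcc (0 : ℝ) δ, HasDerivAt (fun t => (1 + L * t) ^ (1 - p) / (L * (1 - p)))
      ((1 + L * t) ^ (-p)) t := by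
    intro t ht
    rw [Set.uIcc_of_le hδ] at ht
    have hb : 0 < 1 + L * t := by
      have := mul_nonneg hL.le ht.1
      linarith
    have h2 : HasDerivAt (fun t : ℝ => 1 + L * t) L t := by
      simpa using ((hasDerivAt_id t).const_mul L).const_add 1
    have h3 := (h2.rpow_const (p := 1 - p) (Or.inl hb.ne')).div_const (L * (1 - p))
    have e : L * (1 - p) * (1 + L * t) ^ (1 - p - 1) / (L * (1 - p)) = (1 + L * t) ^ (-p) := by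
      rw [show (1 - p - 1 : ℝ) = -p by ring]
      field_simp
    rw [e] at h3
    exact h3
  have h4 : ContinuousOn (fun t : ℝ => (1 + L * t) ^ (-p)) (Set.uIcc (0 : ℝ) δ) := by
    apply ContinuousOn.rpow_const (by fun_prop)
    intro t ht
    left
    rw [Set.uIcc_of_le hδ] at ht
    have := mul_nonneg hL.le ht.1
    positivity
  rw [intervalIntegral.integral_eq_sub_of_hasDerivAt h1 h4.intervalIntegrable]
  simp only [mul_zero, add_zero, Real.one_rpow]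
  have : 0 ≤ 1 / (L * (1 - p)) := by positivity
  linarith

lemma int_small (L x p δ : ℝ) (hL : 0 < L) (hp1 : p < 1) (hδ : 0 ≤ δ) :
    ∫ t in (x - δ)..(x + δ), wt L x p t ≤ 2 * (1 + L * δ) ^ (1 - p) / (L * (1 - p)) := by
  have hc := wt_cont L x p hL.le
  have h0 := int_half L p δ hL hp1 hδ
  have hr : ∫ t in x..(x + δ), wt L x p t = ∫ t in (0 : ℝ)..δ, (1 + L * t) ^ (-p) := by
    have h := intervalIntegral.integral_comp_add_left (a := 0) (b := δ) (fun t => wt L x p t) x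
    rw [add_zero] at h
    rw [← h]
    apply intervalIntegral.integral_congr
    intro t ht
    rw [Set.uIcc_of_le hδ] at ht
    show (1 + L * |x + t - x|) ^ (-p) = _
    rw [show x + t - x = t by ring, abs_of_nonneg ht.1]
  have hl : ∫ t in (x - δ)..x, wt L x p t = ∫ t in (0 : ℝ)..δ, (1 + L * t) ^ (-p) := by
    have h := intervalIntegral.integral_comp_sub_left (a := 0) (b := δ) (fun t => wt L x p t) x
    rw [sub_zero] at h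
    rw [← h]
    apply intervalIntegral.integral_congr
    intro t ht
    rw [Set.uIcc_of_le hδ] at ht
    show (1 + L * |x - t - x|) ^ (-p) = _
    rw [show x - t - x = -t by ring, abs_neg, abs_of_nonneg ht.1]
  rw [← intervalIntegral.integral_add_adjacent_intervals (hc.intervalIntegrable _ x)
    (hc.intervalIntegrable x _), hr, hl]
  have e : 2 * (1 + L * δ) ^ (1 - p) / (L * (1 - p)) =
      (1 + L * δ) ^ (1 - p) / (L * (1 - p)) + (1 + L * δ) ^ (1 - p) / (L * (1 - p)) := by ring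
  rw [e]
  exact add_le_add h0 h0

/-- the indicator of an interval around `x` -/
def ind (x δ : ℝ) (f : ℝ → ℝ) : ℝ → ℝ := Set.indicator (Set.Icc (x - δ) (x + δ)) f

lemma ind_integrable (x δ u v : ℝ) (f : ℝ → ℝ) (hf : Continuous f) :
    IntervalIntegrable (ind x δ f) volume u v := by
  unfold ind
  rw [intervalIntegrable_iff]
  have h := (hf.intervalIntegrable (μ := volume) u v)
  rw [intervalIntegrable_iff] at h
  exact h.indicator measurableSet_Icc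

lemma ind_int (x δ u v : ℝ) (f : ℝ → ℝ) (hf : Continuous f) (h0 : ∀ t, 0 ≤ f t) (hδ : 0 ≤ δ)
    (huv : u ≤ v) : ∫ t in u..v, ind x δ f t ≤ ∫ t in (x - δ)..(x + δ), f t := by
  unfold ind
  rw [intervalIntegral.integral_of_le huv, setIntegral_indicator measurableSet_Icc,
    intervalIntegral.integral_of_le (by linarith), ← integral_Icc_eq_integral_Ioc]
  apply setIntegral_mono_set
  · exact hf.integrableOn_Icc
  · filter_upwards with t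
    exact h0 t
  · apply HasSubset.Subset.eventuallyLE
    intro t ht
    exact ht.2

lemma geo_le (r : ℝ) (h0 : 0 ≤ r) (h1 : r < 1) (n : ℕ) :
    ∑ k ∈ Finset.range n, r ^ k ≤ (1 - r)⁻¹ := by
  rw [← tsum_geometric_of_lt_one h0 h1]
  exact (summable_geometric_of_lt_one h0 h1).sum_le_tsum _ fun k _ => pow_nonneg h0 k

/-- the constant of the sum of the weights -/
def BB (s : ℝ) : ℝ := (2 : ℝ) ^ s * ((1 - (2 : ℝ) ^ (-s))⁻¹ + 8 * (1 - (2 : ℝ) ^ (1 - s))⁻¹)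

lemma two_lt (s : ℝ) (hs : 0 < s) : (2 : ℝ) ^ (-s) < 1 :=
  Real.rpow_lt_one_of_one_lt_of_neg (by norm_num) (by linarith)

lemma BB_nonneg (s : ℝ) (hs : 1 < s) : 0 ≤ BB s := by
  unfold BB
  have h1 := two_lt s (by linarith)
  have h2 := two_lt (s - 1) (by linarith)
  rw [show -(s - 1) = 1 - s by ring] at h2
  have h3 : 0 < 1 - (2 : ℝ) ^ (-s) := by linarith
  have h4 : 0 < 1 - (2 : ℝ) ^ (1 - s) := by linarith
  have h5 : 0 < (2 : ℝ) ^ s := Real.rpow_pos_of_pos (by norm_num) s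
  positivity

lemma shell (M x s t : ℝ) (K : ℕ) (hM : 0 ≤ M) (hs : 0 ≤ s) (hK : 1 + M * |t - x| ≤ 2 ^ K) :
    wt M x s t ≤ ∑ k ∈ Finset.range (K + 1),
      (if M * |t - x| ≤ 2 ^ k then (2 : ℝ) ^ s * ((2 : ℝ) ^ (-s)) ^ k else 0) := by
  classical
  have hex : ∃ k : ℕ, 1 + M * |t - x| ≤ 2 ^ k := ⟨K, hK⟩
  obtain ⟨k, hk1, hk2⟩ : ∃ k : ℕ, 1 + M * |t - x| ≤ 2 ^ k ∧ ∀ j < k, ¬ (1 + M * |t - x| ≤ 2 ^ j) :=
    ⟨Nat.find hex, Nat.find_spec hex, fun j hj => Nat.find_min hex hj⟩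
  have hkK : k ≤ K := by
    by_contra h
    exact hk2 K (by omega) hK
  have h2s : 0 < (2 : ℝ) ^ s := Real.rpow_pos_of_pos (by norm_num) s
  have h2n : 0 < (2 : ℝ) ^ (-s) := Real.rpow_pos_of_pos (by norm_num) _
  have hmain : wt M x s t ≤ (2 : ℝ) ^ s * ((2 : ℝ) ^ (-s)) ^ k := by
    rcases Nat.eq_zero_or_pos k with h | h
    · rw [h, pow_zero, mul_one]
      exact (wt_le_one M x s t hM hs).trans (Real.one_le_rpow (by norm_num) hs)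
    · have h3 := hk2 (k - 1) (by omega)
      push Not at h3
      unfold wt
      have h4 : (1 + M * |t - x|) ^ (-s) ≤ ((2 : ℝ) ^ (k - 1)) ^ (-s) :=
        Real.rpow_le_rpow_of_nonpos (by positivity) h3.le (by linarith)
      refine h4.trans (le_of_eq ?_)
      rw [← Real.rpow_natCast 2 (k - 1), ← Real.rpow_mul (by norm_num),
        ← Real.rpow_natCast ((2 : ℝ) ^ (-s)) k, ← Real.rpow_mul (by norm_num), ← Real.rpow_add (by norm_num)]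
      congr 1
      have : ((k - 1 : ℕ) : ℝ) = (k : ℝ) - 1 := by
        rw [Nat.cast_sub h, Nat.cast_one]
      rw [this]
      ring
  refine hmain.trans ?_
  have h5 : M * |t - x| ≤ 2 ^ k := by linarith
  have h6 := Finset.single_le_sum
    (f := fun k => (if M * |t - x| ≤ 2 ^ k then (2 : ℝ) ^ s * ((2 : ℝ) ^ (-s)) ^ k else 0))
    (s := Finset.range (K + 1)) (fun i _ => by
      show 0 ≤ (if M * |t - x| ≤ 2 ^ i then (2 : ℝ) ^ s * ((2 : ℝ) ^ (-s)) ^ i else 0)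
      split_ifs <;> positivity) (Finset.mem_range.mpr (by omega : k < K + 1))
  simp only [h5, if_true] at h6
  exact h6

lemma sum_wt (hF : S_FRCN) (Q : ℕ) (M x s : ℝ) (hQ : 1 ≤ Q) (hM : 0 < M) (hs : 1 < s)
    (S : Finset ℚ) (hS : ∀ ρ ∈ S, Q ≤ ρ.den ∧ ρ.den < 2 * Q) :
    ∑ ρ ∈ S, wt M x s ρ ≤ BB s * (1 + (Q : ℝ) ^ 2 / M) := by
  classical
  obtain ⟨K, hK⟩ : ∃ K : ℕ, ∀ ρ ∈ S, 1 + M * |(ρ : ℝ) - x| ≤ 2 ^ K := by
    obtain ⟨B, hB⟩ : ∃ B : ℝ, ∀ ρ ∈ S, 1 + M * |(ρ : ℝ) - x| ≤ B :=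
      ⟨∑ ρ ∈ S, (1 + M * |(ρ : ℝ) - x|), fun ρ hρ =>
        Finset.single_le_sum (f := fun ρ : ℚ => 1 + M * |(ρ : ℝ) - x|)
          (fun i _ => by positivity) hρ⟩
    obtain ⟨K, hK⟩ := pow_unbounded_of_one_lt B (by norm_num : (1 : ℝ) < 2)
    exact ⟨K, fun ρ hρ => (hB ρ hρ).trans hK.le⟩
  have h2s : 0 < (2 : ℝ) ^ s := Real.rpow_pos_of_pos (by norm_num) s
  have h2n : 0 < (2 : ℝ) ^ (-s) := Real.rpow_pos_of_pos (by norm_num) _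
  have h1 : ∑ ρ ∈ S, wt M x s ρ ≤ ∑ ρ ∈ S, ∑ k ∈ Finset.range (K + 1),
      (if M * |(ρ : ℝ) - x| ≤ 2 ^ k then (2 : ℝ) ^ s * ((2 : ℝ) ^ (-s)) ^ k else 0) :=
    Finset.sum_le_sum fun ρ hρ => shell M x s ρ K hM.le (by linarith) (hK ρ hρ)
  refine h1.trans ?_
  rw [Finset.sum_comm]
  have h2 : ∀ k ∈ Finset.range (K + 1), ∑ ρ ∈ S,
      (if M * |(ρ : ℝ) - x| ≤ 2 ^ k then (2 : ℝ) ^ s * ((2 : ℝ) ^ (-s)) ^ k else 0) ≤
      (2 : ℝ) ^ s * (((2 : ℝ) ^ (-s)) ^ k + 8 * ((Q : ℝ) ^ 2 / M) * ((2 : ℝ) ^ (1 - s)) ^ k) := by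
    intro k _
    rw [← Finset.sum_filter, Finset.sum_const, nsmul_eq_mul]
    have h3 := hF Q x (2 ^ k / M) hQ (by positivity)
      (S.filter fun ρ : ℚ => M * |(ρ : ℝ) - x| ≤ 2 ^ k) (by
        intro ρ hρ
        rw [Finset.mem_filter] at hρ
        refine ⟨(hS ρ hρ.1).1, (hS ρ hρ.1).2, ?_⟩
        rw [le_div_iff₀ hM, mul_comm]
        exact hρ.2)
    have h4 : 0 < (2 : ℝ) ^ s * ((2 : ℝ) ^ (-s)) ^ k := by positivity
    refine (mul_le_mul_of_nonneg_right h3 h4.le).trans (le_of_eq ?_)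
    have e : ((2 : ℝ) ^ (1 - s)) ^ k = 2 ^ k * ((2 : ℝ) ^ (-s)) ^ k := by
      rw [← mul_pow]
      congr 1
      rw [show (1 - s : ℝ) = 1 + -s by ring, Real.rpow_add (by norm_num), Real.rpow_one]
    rw [e]
    ring
  refine (Finset.sum_le_sum h2).trans ?_
  rw [← Finset.mul_sum, Finset.sum_add_distrib, ← Finset.mul_sum]
  have hg1 := geo_le ((2 : ℝ) ^ (-s)) h2n.le (two_lt s (by linarith)) (K + 1)
  have hlt : (2 : ℝ) ^ (1 - s) < 1 := by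
    have := two_lt (s - 1) (by linarith)
    rwa [show -(s - 1) = 1 - s by ring] at this
  have h2m : 0 < (2 : ℝ) ^ (1 - s) := Real.rpow_pos_of_pos (by norm_num) _
  have hg2 := geo_le ((2 : ℝ) ^ (1 - s)) h2m.le hlt (K + 1)
  have hQM : 0 ≤ (Q : ℝ) ^ 2 / M := by positivity
  have hi1 : 0 ≤ (1 - (2 : ℝ) ^ (-s))⁻¹ := by
    have := two_lt s (by linarith)
    exact inv_nonneg.mpr (by linarith)
  have hi2 : 0 ≤ (1 - (2 : ℝ) ^ (1 - s))⁻¹ := inv_nonneg.mpr (by linarith)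
  unfold BB
  rw [mul_assoc ((2 : ℝ) ^ s)]
  apply mul_le_mul_of_nonneg_left _ h2s.le
  have h8 : 8 * ((Q : ℝ) ^ 2 / M) * ∑ k ∈ Finset.range (K + 1), ((2 : ℝ) ^ (1 - s)) ^ k ≤
      8 * ((Q : ℝ) ^ 2 / M) * (1 - (2 : ℝ) ^ (1 - s))⁻¹ :=
    mul_le_mul_of_nonneg_left hg2 (by positivity)
  nlinarith [mul_nonneg hi1 hQM]

lemma geo2 (κ : ℝ) (hκ1 : κ < 1) (n J : ℕ) (hJ : 2 ^ J ≤ n) :
    ∑ j ∈ Finset.range (J + 1), ((2 : ℝ) ^ j) ^ (1 - κ) ≤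
      (2 : ℝ) ^ (1 - κ) / ((2 : ℝ) ^ (1 - κ) - 1) * (n : ℝ) ^ (1 - κ) := by
  have hr : 1 < (2 : ℝ) ^ (1 - κ) := Real.one_lt_rpow (by norm_num) (by linarith)
  have e : ∀ j : ℕ, ((2 : ℝ) ^ j) ^ (1 - κ) = ((2 : ℝ) ^ (1 - κ)) ^ j := by
    intro j
    rw [← Real.rpow_natCast 2 j, ← Real.rpow_mul (by norm_num),
      ← Real.rpow_natCast ((2 : ℝ) ^ (1 - κ)) j, ← Real.rpow_mul (by norm_num), mul_comm]
  simp only [e]
  rw [geom_sum_eq hr.ne']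
  have h1 : ((2 : ℝ) ^ (1 - κ)) ^ J ≤ (n : ℝ) ^ (1 - κ) := by
    rw [← e]
    apply Real.rpow_le_rpow (by positivity) _ (by linarith)
    exact_mod_cast hJ
  rw [div_mul_eq_mul_div]
  apply div_le_div_of_nonneg_right _ (by linarith)
  rw [pow_succ]
  nlinarith

lemma sum_den (hF : S_FRCN) (M x s κ : ℝ) (n : ℕ) (hM : 1 ≤ M) (hs : 1 < s)
    (hκ0 : 0 < κ) (hκ1 : κ < 1) (S : Finset ℚ) (hS : ∀ ρ ∈ S, M ≤ ρ.den ∧ ρ.den ≤ n) (hn : 1 ≤ n) :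
    ∑ ρ ∈ S, wt (M ^ 2) x s ρ * ((ρ.den : ℝ) ^ (-(1 + κ))) ≤
      5 * BB s * ((2 : ℝ) ^ (1 - κ) / ((2 : ℝ) ^ (1 - κ) - 1)) * (n : ℝ) ^ (1 - κ) * (M ^ 2)⁻¹ := by
  classical
  have hM0 : 0 < M := by linarith
  have hBB := BB_nonneg s hs
  have hmaps : ∀ ρ ∈ S, Nat.log 2 ρ.den ∈ Finset.range (Nat.log 2 n + 1) := by
    intro ρ hρ
    rw [Finset.mem_range]
    exact Nat.lt_succ_of_le (Nat.log_mono_right (hS ρ hρ).2)
  rw [← Finset.sum_fiberwise_of_maps_to hmaps]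
  have h1 : ∀ j ∈ Finset.range (Nat.log 2 n + 1),
      ∑ ρ ∈ S.filter (fun ρ : ℚ => Nat.log 2 ρ.den = j), wt (M ^ 2) x s ρ * ((ρ.den : ℝ) ^ (-(1 + κ))) ≤
      5 * BB s * (M ^ 2)⁻¹ * ((2 : ℝ) ^ j) ^ (1 - κ) := by
    intro j _
    have hden : ∀ ρ ∈ S.filter (fun ρ : ℚ => Nat.log 2 ρ.den = j), 2 ^ j ≤ ρ.den ∧ ρ.den < 2 * 2 ^ j := by
      intro ρ hρ
      rw [Finset.mem_filter] at hρ
      constructor
      · rw [← hρ.2]
        exact Nat.pow_log_le_self 2 ρ.pos.ne'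
      · have := Nat.lt_pow_succ_log_self (by norm_num : 1 < 2) ρ.den
        rw [hρ.2, pow_succ, mul_comm] at this
        exact this
    rcases (S.filter (fun ρ : ℚ => Nat.log 2 ρ.den = j)).eq_empty_or_nonempty with he | ⟨ρ₀, hρ₀⟩
    · rw [he, Finset.sum_empty]
      positivity
    · have h2 : ∑ ρ ∈ S.filter (fun ρ : ℚ => Nat.log 2 ρ.den = j),
          wt (M ^ 2) x s ρ * ((ρ.den : ℝ) ^ (-(1 + κ))) ≤
          ∑ ρ ∈ S.filter (fun ρ : ℚ => Nat.log 2 ρ.den = j), wt (M ^ 2) x s ρ * (((2 : ℝ) ^ j) ^ (-(1 + κ))) := by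
        apply Finset.sum_le_sum
        intro ρ hρ
        apply mul_le_mul_of_nonneg_left _ (wt_nonneg _ _ _ _ (by positivity))
        apply Real.rpow_le_rpow_of_nonpos (by positivity) _ (by linarith)
        exact_mod_cast (hden ρ hρ).1
      refine h2.trans ?_
      rw [← Finset.sum_mul]
      have h3 := sum_wt hF (2 ^ j) (M ^ 2) x s (Nat.one_le_two_pow) (by positivity) hs
        (S.filter (fun ρ : ℚ => Nat.log 2 ρ.den = j)) hden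
      have hc : (((2 ^ j : ℕ) : ℝ)) = 2 ^ j := by push_cast; ring
      rw [hc] at h3
      have hle : M ≤ 2 * 2 ^ j := by
        have h4 := (hden ρ₀ hρ₀).2
        have h5 : (ρ₀.den : ℝ) < 2 * 2 ^ j := by exact_mod_cast h4
        have h6 := (hS ρ₀ (Finset.mem_filter.mp hρ₀).1).1
        linarith
      have h7 : 1 ≤ 4 * (((2 : ℝ) ^ j) ^ 2 / M ^ 2) := by
        rw [mul_div_assoc', le_div_iff₀ (by positivity)]
        nlinarith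
      have h8 : BB s * (1 + ((2 : ℝ) ^ j) ^ 2 / M ^ 2) ≤ BB s * (5 * (((2 : ℝ) ^ j) ^ 2 / M ^ 2)) :=
        mul_le_mul_of_nonneg_left (by linarith) hBB
      have hp : 0 < ((2 : ℝ) ^ j) ^ (-(1 + κ)) := Real.rpow_pos_of_pos (by positivity) _
      refine (mul_le_mul_of_nonneg_right (h3.trans h8) hp.le).trans (le_of_eq ?_)
      have e : ((2 : ℝ) ^ j) ^ (1 - κ) = ((2 : ℝ) ^ j) ^ 2 * ((2 : ℝ) ^ j) ^ (-(1 + κ)) := by
        rw [← Real.rpow_natCast ((2 : ℝ) ^ j) 2, ← Real.rpow_add (by positivity)]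
        congr 1
        push_cast
        ring
      rw [e]
      field_simp
  refine (Finset.sum_le_sum h1).trans ?_
  rw [← Finset.mul_sum]
  have h9 := geo2 κ hκ1 n (Nat.log 2 n) (Nat.pow_log_le_self 2 (by omega))
  calc 5 * BB s * (M ^ 2)⁻¹ * ∑ j ∈ Finset.range (Nat.log 2 n + 1), ((2 : ℝ) ^ j) ^ (1 - κ)
      ≤ 5 * BB s * (M ^ 2)⁻¹ * ((2 : ℝ) ^ (1 - κ) / ((2 : ℝ) ^ (1 - κ) - 1) * (n : ℝ) ^ (1 - κ)) :=
        mul_le_mul_of_nonneg_left h9 (by positivity)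
    _ = _ := by ring

/-- the exceptional rationals -/
def SS (c N M : ℕ) (ρ₀ : ℚ) : Finset ℚ :=
  (((Finset.Icc (-⌈(|(ρ₀ : ℝ)| + 1) * (2 * c * N)⌉) ⌈(|(ρ₀ : ℝ)| + 1) * (2 * c * N)⌉ ×ˢ
    Finset.Icc 1 (2 * c * N)).image fun z : ℤ × ℕ => (z.1 : ℚ) / (z.2 : ℚ)).filter
      fun ρ => M ≤ ρ.den ∧ ρ.den ≤ 2 * c * N)

lemma mem_SS (c N M : ℕ) (ρ₀ ρ : ℚ) (h1 : |(ρ : ℝ) - ρ₀| ≤ 1) (h2 : M ≤ ρ.den)
    (h3 : ρ.den ≤ 2 * c * N) : ρ ∈ SS c N M ρ₀ := by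
  unfold SS
  rw [Finset.mem_filter]
  refine ⟨?_, h2, h3⟩
  rw [Finset.mem_image]
  refine ⟨(ρ.num, ρ.den), ?_, Rat.num_div_den ρ⟩
  rw [Finset.mem_product, Finset.mem_Icc, Finset.mem_Icc]
  have hd : (ρ : ℝ) = (ρ.num : ℝ) / ρ.den := Rat.cast_def ρ
  have hd0 : (0 : ℝ) < ρ.den := by exact_mod_cast ρ.pos
  have hn : (ρ.num : ℝ) = ρ * ρ.den := by
    rw [hd]
    field_simp
  have h4 : |(ρ : ℝ)| ≤ |(ρ₀ : ℝ)| + 1 := by
    have := abs_sub_abs_le_abs_sub (ρ : ℝ) ρ₀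
    linarith
  have h5 : |(ρ.num : ℝ)| ≤ (|(ρ₀ : ℝ)| + 1) * (2 * c * N) := by
    rw [hn, abs_mul, abs_of_pos hd0]
    apply mul_le_mul h4 _ hd0.le (by positivity)
    exact_mod_cast h3
  have h6 : |(ρ.num : ℝ)| ≤ (⌈(|(ρ₀ : ℝ)| + 1) * (2 * c * N)⌉ : ℤ) := h5.trans (Int.le_ceil _)
  rw [abs_le] at h6
  refine ⟨⟨?_, ?_⟩, ρ.pos, h3⟩
  · have h7 := h6.1
    exact_mod_cast h7
  · have h7 := h6.2
    exact_mod_cast h7

lemma SS_den (c N M : ℕ) (ρ₀ ρ : ℚ) (h : ρ ∈ SS c N M ρ₀) : (M : ℝ) ≤ ρ.den ∧ ρ.den ≤ 2 * c * N := by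
  unfold SS at h
  rw [Finset.mem_filter] at h
  exact ⟨by exact_mod_cast h.2.1, h.2.2⟩

lemma WW_nonneg (R c : ℕ) (t : ℝ) : 0 ≤ WW R c t := by
  unfold WW
  apply Finset.sum_nonneg
  intro x _
  unfold mn
  positivity

/-- two different rationals -/
lemma rat_sep (ρ ρ' : ℚ) (h : ρ ≠ ρ') : 1 / ((ρ.den : ℝ) * ρ'.den) ≤ |(ρ : ℝ) - ρ'| := by
  have hd : (ρ : ℝ) = (ρ.num : ℝ) / ρ.den := Rat.cast_def ρ
  have hd' : (ρ' : ℝ) = (ρ'.num : ℝ) / ρ'.den := Rat.cast_def ρ'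
  have h0 : (0 : ℝ) < ρ.den := by exact_mod_cast ρ.pos
  have h0' : (0 : ℝ) < ρ'.den := by exact_mod_cast ρ'.pos
  have e : (ρ : ℝ) - ρ' = ((ρ.num * ρ'.den - ρ'.num * ρ.den : ℤ) : ℝ) / ((ρ.den : ℝ) * ρ'.den) := by
    rw [hd, hd']
    push_cast
    field_simp
  have hne : (ρ.num * ρ'.den - ρ'.num * ρ.den : ℤ) ≠ 0 := by
    intro h1
    rw [h1] at e
    simp only [Int.cast_zero, zero_div] at e
    apply h
    have : (ρ : ℝ) = ρ' := by linarith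
    exact_mod_cast this
  rw [e, abs_div, abs_of_pos (by positivity : (0 : ℝ) < (ρ.den : ℝ) * ρ'.den)]
  apply div_le_div_of_nonneg_right _ (by positivity)
  have := Int.one_le_abs hne
  rw [← Int.cast_abs]
  exact_mod_cast this

/-- the denominator of the other rational -/
lemma den_ge (c N M : ℕ) (ρ₀ ρ : ℚ) (t : ℝ) (hc : 1 ≤ c) (hM : 1 ≤ M) (hN : 2 * M ≤ N)
    (h0 : ρ₀.den ≤ 2 * c * M) (hne : ρ ≠ ρ₀)
    (ht0 : |t - ρ₀| ≤ 1 / (ρ₀.den * (2 * c * M))) (ht : |t - ρ| ≤ 1 / (ρ.den * (2 * c * N))) :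
    (c : ℝ) * M ≤ ρ.den := by
  have h1 := rat_sep ρ ρ₀ hne
  have h2 : |(ρ : ℝ) - ρ₀| ≤ 1 / (ρ.den * (2 * c * N)) + 1 / (ρ₀.den * (2 * c * M)) := by
    calc |(ρ : ℝ) - ρ₀| = |(t - ρ₀) - (t - ρ)| := by ring_nf
      _ ≤ |t - ρ₀| + |t - ρ| := abs_sub _ _
      _ ≤ _ := by linarith
  have hcR : (1 : ℝ) ≤ c := by exact_mod_cast hc
  have hMR : (1 : ℝ) ≤ M := by exact_mod_cast hM
  have hNR : 2 * (M : ℝ) ≤ N := by exact_mod_cast hN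
  have hN0 : (0 : ℝ) < N := by linarith
  have hq : (0 : ℝ) < ρ.den := by exact_mod_cast ρ.pos
  have hq0 : (0 : ℝ) < ρ₀.den := by exact_mod_cast ρ₀.pos
  have h0R : (ρ₀.den : ℝ) ≤ 2 * c * M := by exact_mod_cast h0
  have h3 := h1.trans h2
  have h4 : 1 ≤ (ρ₀.den : ℝ) / (2 * c * N) + (ρ.den : ℝ) / (2 * c * M) := by
    have h5 := mul_le_mul_of_nonneg_left h3 (by positivity : (0 : ℝ) ≤ (ρ.den : ℝ) * ρ₀.den)
    have e1 : (ρ.den : ℝ) * ρ₀.den * (1 / ((ρ.den : ℝ) * ρ₀.den)) = 1 := by field_simp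
    have e2 : (ρ.den : ℝ) * ρ₀.den * (1 / (ρ.den * (2 * c * N)) + 1 / (ρ₀.den * (2 * c * M))) =
        (ρ₀.den : ℝ) / (2 * c * N) + (ρ.den : ℝ) / (2 * c * M) := by
      field_simp
    rw [e1, e2] at h5
    exact h5
  have h6 : (ρ₀.den : ℝ) / (2 * c * N) ≤ 1 / 2 := by
    rw [div_le_iff₀ (by positivity)]
    nlinarith
  have h7 : 1 / 2 ≤ (ρ.den : ℝ) / (2 * c * M) := by linarith
  rw [le_div_iff₀ (by positivity)] at h7
  linarith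

/-- the weights at neighbouring points -/
lemma wt_near (M x s t u : ℝ) (hM : 0 ≤ M) (hs : 0 ≤ s) (h : M * |t - u| ≤ 1) :
    wt M x s t ≤ 2 ^ s * wt M x s u := by
  have h1 : 1 + M * |u - x| ≤ 2 * (1 + M * |t - x|) := by
    have h2 : |u - x| ≤ |t - u| + |t - x| := by
      calc |u - x| = |(t - x) - (t - u)| := by ring_nf
        _ ≤ |t - x| + |t - u| := abs_sub _ _
        _ = _ := by ring
    have h3 := mul_le_mul_of_nonneg_left h2 hM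
    have h4 := mul_nonneg hM (abs_nonneg (t - x))
    nlinarith
  have hb := base_ge M x t hM
  have hb' := base_ge M x u hM
  unfold wt
  have h5 : (2 * (1 + M * |t - x|)) ^ (-s) ≤ (1 + M * |u - x|) ^ (-s) :=
    Real.rpow_le_rpow_of_nonpos (by linarith) h1 (by linarith)
  rw [Real.mul_rpow (by norm_num) (by linarith)] at h5
  have h6 : (2 : ℝ) ^ s * (2 : ℝ) ^ (-s) = 1 := by
    rw [← Real.rpow_add (by norm_num)]
    simp
  have h2s : 0 < (2 : ℝ) ^ s := Real.rpow_pos_of_pos (by norm_num) s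
  calc (1 + M * |t - x|) ^ (-s) = (2 : ℝ) ^ s * ((2 : ℝ) ^ (-s) * (1 + M * |t - x|) ^ (-s)) := by
        rw [← mul_assoc, h6, one_mul]
    _ ≤ _ := mul_le_mul_of_nonneg_left h5 h2s.le

/-- the product of two weights with the same center -/
lemma wt_prod (L M x s p t : ℝ) (hM : 0 < M) (hML : M ≤ L) (hs : 0 ≤ s) (hp : 0 ≤ p) :
    wt L x p t * wt M x s t ≤ ind x M⁻¹ (wt L x p) t + (L / M) ^ (-p) * wt M x s t := by
  have hL : 0 < L := by linarith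
  have h1 := wt_nonneg L x p t hL.le
  have h2 := wt_nonneg M x s t hM.le
  have h3 : 0 ≤ (L / M) ^ (-p) := Real.rpow_nonneg (by positivity) _
  unfold ind
  by_cases h : t ∈ Set.Icc (x - M⁻¹) (x + M⁻¹)
  · rw [Set.indicator_of_mem h]
    have h4 := wt_le_one M x s t hM.le hs
    have h5 : wt L x p t * wt M x s t ≤ wt L x p t * 1 := mul_le_mul_of_nonneg_left h4 h1
    have h6 := mul_nonneg h3 h2
    linarith
  · rw [Set.indicator_of_notMem h, zero_add]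
    apply mul_le_mul_of_nonneg_right _ h2
    unfold wt
    apply Real.rpow_le_rpow_of_nonpos (by positivity) _ (by linarith)
    have h4 : M⁻¹ ≤ |t - x| := by
      by_contra h5
      push Not at h5
      apply h
      rw [abs_lt] at h5
      constructor <;> linarith [h5.1, h5.2]
    have h5 : L * M⁻¹ ≤ L * |t - x| := mul_le_mul_of_nonneg_left h4 hL.le
    rw [div_eq_mul_inv]
    linarith

lemma pow_add_le (x y σ : ℝ) (hx : 0 ≤ x) (hy : 0 ≤ y) (hσ : 0 ≤ σ) :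
    (x + y) ^ σ ≤ 2 ^ σ * (x ^ σ + y ^ σ) := by
  have hx2 := Real.rpow_nonneg hx σ
  have hy2 := Real.rpow_nonneg hy σ
  have h2 : (0 : ℝ) ≤ 2 ^ σ := Real.rpow_nonneg (by norm_num) σ
  rcases le_total x y with h | h
  · calc (x + y) ^ σ ≤ (2 * y) ^ σ := Real.rpow_le_rpow (by positivity) (by linarith) hσ
      _ = 2 ^ σ * y ^ σ := Real.mul_rpow (by norm_num) hy
      _ ≤ _ := mul_le_mul_of_nonneg_left (by linarith) h2
  · calc (x + y) ^ σ ≤ (2 * x) ^ σ := Real.rpow_le_rpow (by positivity) (by linarith) hσ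
      _ = 2 ^ σ * x ^ σ := Real.mul_rpow (by norm_num) hx
      _ ≤ _ := mul_le_mul_of_nonneg_left (by linarith) h2

/-- the radius of the arc of `ρ` -/
def dl (c N : ℕ) (ρ : ℚ) : ℝ := 1 / (ρ.den * (2 * c * N))

/-- the majorant -/
def GG (c N M : ℕ) (ρ₀ : ℚ) (A a s : ℝ) (t : ℝ) : ℝ :=
  A ^ a * wt ((M : ℝ) ^ 2) ρ₀ s t +
    ((N : ℝ) ^ 2 / ρ₀.den) ^ a * (ind ρ₀ ((M : ℝ) ^ 2)⁻¹ (wt ((N : ℝ) ^ 2) ρ₀ (3 / 4 * a)) t +
      ((N : ℝ) ^ 2 / (M : ℝ) ^ 2) ^ (-(3 / 4 * a)) * wt ((M : ℝ) ^ 2) ρ₀ s t) +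
    ∑ ρ ∈ SS c N M ρ₀, (2 ^ s * wt ((M : ℝ) ^ 2) ρ₀ s ρ * ((N : ℝ) ^ 2 / ρ.den) ^ a) *
      ind ρ (dl c N ρ) (wt ((N : ℝ) ^ 2) ρ (3 / 4 * a)) t

lemma ind_nonneg (x δ : ℝ) (f : ℝ → ℝ) (t : ℝ) (h : ∀ t, 0 ≤ f t) : 0 ≤ ind x δ f t := by
  unfold ind
  exact Set.indicator_nonneg (fun t _ => h t) t

lemma point (c N M : ℕ) (ρ₀ : ℚ) (C a s : ℝ) (hc : 1 ≤ c) (hM : 1 ≤ M) (hN : 2 * M ≤ N)
    (h0 : ρ₀.den ≤ 2 * c * M) (ha : 0 < a) (hs : 0 ≤ s) (hC : 0 ≤ C)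
    (hW : ∀ (t : ℝ) (ρ : ℚ), ρ.den ≤ 2 * c * N → |t - ρ| ≤ 1 / (ρ.den * (2 * c * N)) →
      WW N c t ≤ C * (N * (1 + Real.log N) +
      (N : ℝ) ^ 2 / ρ.den * (1 + (N : ℝ) ^ 2 * |t - ρ|) ^ (-(3 / 4) : ℝ)))
    (t : ℝ) (ht0 : |t - ρ₀| ≤ 1 / (ρ₀.den * (2 * c * M))) :
    WW N c t ^ a * wt ((M : ℝ) ^ 2) ρ₀ s t ≤
      (C ^ a * 2 ^ a) * GG c N M ρ₀ (N * (1 + Real.log N)) a s t := by
  have hN1 : 1 ≤ N := by omega
  have hNc : 0 < 2 * c * N := by positivity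
  obtain ⟨ρ, h1, h2⟩ := Real.exists_rat_abs_sub_le_and_den_le t hNc
  have hq : (1 : ℝ) ≤ ρ.den := by exact_mod_cast ρ.pos
  have hq0 : (1 : ℝ) ≤ ρ₀.den := by exact_mod_cast ρ₀.pos
  have hNR : (1 : ℝ) ≤ N := by exact_mod_cast hN1
  have hMR : (1 : ℝ) ≤ M := by exact_mod_cast hM
  have hcR : (1 : ℝ) ≤ c := by exact_mod_cast hc
  have hMN : 2 * (M : ℝ) ≤ N := by exact_mod_cast hN
  have hlog : 0 ≤ Real.log N := Real.log_nonneg hNR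
  have h3 : |t - ρ| ≤ 1 / (ρ.den * (2 * c * N)) := by
    refine h1.trans ?_
    have e : ((2 * c * N : ℕ) : ℝ) = 2 * c * N := by push_cast; ring
    rw [e]
    apply one_div_le_one_div_of_le (by positivity)
    nlinarith
  have h4 := hW t ρ h2 h3
  have hA : 0 ≤ (N : ℝ) * (1 + Real.log N) := by positivity
  have hB0 : 0 ≤ wt ((N : ℝ) ^ 2) ρ (3 / 4) t := wt_nonneg _ _ _ _ (by positivity)
  have hB : 0 ≤ (N : ℝ) ^ 2 / ρ.den * wt ((N : ℝ) ^ 2) ρ (3 / 4) t := by positivity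
  have hw := wt_nonneg ((M : ℝ) ^ 2) ρ₀ s t (by positivity)
  have hCa : 0 ≤ C ^ a := Real.rpow_nonneg hC a
  have h2a : 0 ≤ (2 : ℝ) ^ a := Real.rpow_nonneg (by norm_num) a
  have hpw : (wt ((N : ℝ) ^ 2) ρ (3 / 4) t) ^ a = wt ((N : ℝ) ^ 2) ρ (3 / 4 * a) t := by
    unfold wt
    rw [← Real.rpow_mul (by positivity)]
    congr 1
    ring
  have h5 : WW N c t ^ a ≤ C ^ a * 2 ^ a * ((N * (1 + Real.log N)) ^ a +
      ((N : ℝ) ^ 2 / ρ.den) ^ a * wt ((N : ℝ) ^ 2) ρ (3 / 4 * a) t) := by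
    calc WW N c t ^ a ≤ (C * (N * (1 + Real.log N) +
          (N : ℝ) ^ 2 / ρ.den * wt ((N : ℝ) ^ 2) ρ (3 / 4) t)) ^ a :=
          Real.rpow_le_rpow (WW_nonneg N c t) h4 ha.le
      _ = C ^ a * (N * (1 + Real.log N) +
          (N : ℝ) ^ 2 / ρ.den * wt ((N : ℝ) ^ 2) ρ (3 / 4) t) ^ a := Real.mul_rpow hC (by positivity)
      _ ≤ C ^ a * (2 ^ a * ((N * (1 + Real.log N)) ^ a +
          ((N : ℝ) ^ 2 / ρ.den * wt ((N : ℝ) ^ 2) ρ (3 / 4) t) ^ a)) :=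
          mul_le_mul_of_nonneg_left (pow_add_le _ _ _ hA hB ha.le) hCa
      _ = _ := by
        rw [Real.mul_rpow (by positivity) hB0, hpw]
        ring
  refine (mul_le_mul_of_nonneg_right h5 hw).trans ?_
  rw [mul_assoc]
  apply mul_le_mul_of_nonneg_left _ (by positivity)
  unfold GG
  have hn1 : ∀ u : ℝ, 0 ≤ wt ((N : ℝ) ^ 2) ρ₀ (3 / 4 * a) u := fun u => wt_nonneg _ _ _ _ (by positivity)
  have hsum0 : ∀ ρ' ∈ SS c N M ρ₀, 0 ≤ (2 ^ s * wt ((M : ℝ) ^ 2) ρ₀ s ρ' * ((N : ℝ) ^ 2 / ρ'.den) ^ a) *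
      ind ρ' (dl c N ρ') (wt ((N : ℝ) ^ 2) ρ' (3 / 4 * a)) t := by
    intro ρ' _
    have i1 := ind_nonneg ρ' (dl c N ρ') (wt ((N : ℝ) ^ 2) ρ' (3 / 4 * a)) t
      fun u => wt_nonneg _ _ _ _ (by positivity)
    have i2 := wt_nonneg ((M : ℝ) ^ 2) ρ₀ s ρ' (by positivity)
    have i3 : 0 ≤ (2 : ℝ) ^ s := Real.rpow_nonneg (by norm_num) s
    have i4 : 0 ≤ ((N : ℝ) ^ 2 / ρ'.den) ^ a := Real.rpow_nonneg (by positivity) a
    positivity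
  by_cases hne : ρ = ρ₀
  · subst hne
    have h6 := wt_prod ((N : ℝ) ^ 2) ((M : ℝ) ^ 2) ρ s (3 / 4 * a) t (by positivity)
      (by nlinarith) hs (by positivity)
    have h7 : 0 ≤ ((N : ℝ) ^ 2 / ρ.den) ^ a := Real.rpow_nonneg (by positivity) a
    have h8 := mul_le_mul_of_nonneg_left h6 h7
    have h9 := Finset.sum_nonneg hsum0
    nlinarith
  · have hcM := den_ge c N M ρ₀ ρ t hc hM hN h0 hne ht0 h3
    have hM' : (M : ℝ) ≤ ρ.den := by nlinarith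
    have hMd : M ≤ ρ.den := by exact_mod_cast hM'
    have h1' : |(ρ : ℝ) - ρ₀| ≤ 1 := by
      have i1 : |(ρ : ℝ) - ρ₀| ≤ |t - ρ₀| + |t - ρ| := by
        calc |(ρ : ℝ) - ρ₀| = |(t - ρ₀) - (t - ρ)| := by ring_nf
          _ ≤ |t - ρ₀| + |t - ρ| := abs_sub _ _
      have i2 : 1 / (ρ₀.den * (2 * c * M) : ℝ) ≤ 1 / 2 := by
        apply one_div_le_one_div_of_le (by norm_num)
        have : (1 : ℝ) ≤ (c : ℝ) * M := by nlinarith
        nlinarith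
      have i3 : 1 / (ρ.den * (2 * c * N) : ℝ) ≤ 1 / 2 := by
        apply one_div_le_one_div_of_le (by norm_num)
        have : (1 : ℝ) ≤ (c : ℝ) * N := by nlinarith
        nlinarith
      linarith
    have hmem := mem_SS c N M ρ₀ ρ h1' hMd h2
    have h6 := Finset.single_le_sum hsum0 hmem
    have hin : t ∈ Set.Icc ((ρ : ℝ) - dl c N ρ) (ρ + dl c N ρ) := by
      rw [abs_le] at h3
      unfold dl
      constructor <;> linarith [h3.1, h3.2]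
    have h7 : ind ρ (dl c N ρ) (wt ((N : ℝ) ^ 2) ρ (3 / 4 * a)) t = wt ((N : ℝ) ^ 2) ρ (3 / 4 * a) t := by
      unfold ind
      exact Set.indicator_of_mem hin _
    rw [h7] at h6
    have h8 : (M : ℝ) ^ 2 * |t - ρ| ≤ 1 := by
      have i1 : (M : ℝ) ^ 2 * |t - ρ| ≤ (M : ℝ) ^ 2 * (1 / (ρ.den * (2 * c * N))) :=
        mul_le_mul_of_nonneg_left h3 (by positivity)
      refine i1.trans ?_
      rw [mul_one_div, div_le_one (by positivity)]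
      have i2 : (M : ℝ) ≤ 2 * c * N := by nlinarith
      nlinarith
    have h9 := wt_near ((M : ℝ) ^ 2) ρ₀ s t ρ (by positivity) hs h8
    have hwN := wt_nonneg ((N : ℝ) ^ 2) ρ (3 / 4 * a) t (by positivity)
    have h10 : 0 ≤ ((N : ℝ) ^ 2 / ρ.den) ^ a := Real.rpow_nonneg (by positivity) a
    have h11 : ((N : ℝ) ^ 2 / ρ.den) ^ a * wt ((N : ℝ) ^ 2) ρ (3 / 4 * a) t * wt ((M : ℝ) ^ 2) ρ₀ s t ≤
        ((N : ℝ) ^ 2 / ρ.den) ^ a * wt ((N : ℝ) ^ 2) ρ (3 / 4 * a) t * (2 ^ s * wt ((M : ℝ) ^ 2) ρ₀ s ρ) :=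
      mul_le_mul_of_nonneg_left h9 (by positivity)
    have h12 : 0 ≤ ((N : ℝ) ^ 2 / ρ₀.den) ^ a * (ind ρ₀ ((M : ℝ) ^ 2)⁻¹ (wt ((N : ℝ) ^ 2) ρ₀ (3 / 4 * a)) t +
        ((N : ℝ) ^ 2 / (M : ℝ) ^ 2) ^ (-(3 / 4 * a)) * wt ((M : ℝ) ^ 2) ρ₀ s t) := by
      have i1 := ind_nonneg ρ₀ ((M : ℝ) ^ 2)⁻¹ (wt ((N : ℝ) ^ 2) ρ₀ (3 / 4 * a)) t hn1
      have i2 : 0 ≤ ((N : ℝ) ^ 2 / (M : ℝ) ^ 2) ^ (-(3 / 4 * a)) := Real.rpow_nonneg (by positivity) _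
      have i3 : 0 ≤ ((N : ℝ) ^ 2 / ρ₀.den) ^ a := Real.rpow_nonneg (by positivity) a
      positivity
    nlinarith

lemma GG_integrable (c N M : ℕ) (ρ₀ : ℚ) (A a s u v : ℝ) :
    IntervalIntegrable (GG c N M ρ₀ A a s) volume u v := by
  unfold GG
  have c1 := wt_cont ((M : ℝ) ^ 2) ρ₀ s (by positivity)
  have c2 := wt_cont ((N : ℝ) ^ 2) ρ₀ (3 / 4 * a) (by positivity)
  apply IntervalIntegrable.add
  · apply IntervalIntegrable.add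
    · exact (continuous_const.mul c1).intervalIntegrable _ _
    · apply IntervalIntegrable.const_mul
      apply IntervalIntegrable.add
      · exact ind_integrable _ _ _ _ _ c2
      · exact (continuous_const.mul c1).intervalIntegrable _ _
  · have h : (fun t => ∑ ρ ∈ SS c N M ρ₀, (2 ^ s * wt ((M : ℝ) ^ 2) ρ₀ s ρ * ((N : ℝ) ^ 2 / ρ.den) ^ a) *
        ind ρ (dl c N ρ) (wt ((N : ℝ) ^ 2) ρ (3 / 4 * a)) t) =
        ∑ ρ ∈ SS c N M ρ₀, fun t => (2 ^ s * wt ((M : ℝ) ^ 2) ρ₀ s ρ * ((N : ℝ) ^ 2 / ρ.den) ^ a) *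
        ind ρ (dl c N ρ) (wt ((N : ℝ) ^ 2) ρ (3 / 4 * a)) t := by
      ext t
      simp
    rw [h]
    apply IntervalIntegrable.sum
    intro ρ _
    apply IntervalIntegrable.const_mul
    exact ind_integrable _ _ _ _ _ (wt_cont _ _ _ (by positivity))

lemma dl_nonneg (c N : ℕ) (ρ : ℚ) : 0 ≤ dl c N ρ := by
  unfold dl
  positivity

lemma GG_int (c N M : ℕ) (ρ₀ : ℚ) (A a s u v : ℝ) (huv : u ≤ v) (hA : 0 ≤ A) (hN : 1 ≤ N)
    (hM : 1 ≤ M) (ha : 0 < a) (ha1 : a < 1) (hs : 1 < s) :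
    ∫ t in u..v, GG c N M ρ₀ A a s t ≤
      A ^ a * (((M : ℝ) ^ 2)⁻¹ * KK s) +
      ((N : ℝ) ^ 2 / ρ₀.den) ^ a *
        (2 * (1 + (N : ℝ) ^ 2 * ((M : ℝ) ^ 2)⁻¹) ^ (1 - 3 / 4 * a) / ((N : ℝ) ^ 2 * (1 - 3 / 4 * a)) +
        ((N : ℝ) ^ 2 / (M : ℝ) ^ 2) ^ (-(3 / 4 * a)) * (((M : ℝ) ^ 2)⁻¹ * KK s)) +
      ∑ ρ ∈ SS c N M ρ₀, (2 ^ s * wt ((M : ℝ) ^ 2) ρ₀ s ρ * ((N : ℝ) ^ 2 / ρ.den) ^ a) *
        (2 * (1 + (N : ℝ) ^ 2 * dl c N ρ) ^ (1 - 3 / 4 * a) / ((N : ℝ) ^ 2 * (1 - 3 / 4 * a))) := by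
  have hNR : (1 : ℝ) ≤ N := by exact_mod_cast hN
  have hMR : (1 : ℝ) ≤ M := by exact_mod_cast hM
  have c1 := wt_cont ((M : ℝ) ^ 2) ρ₀ s (by positivity)
  have c2 := wt_cont ((N : ℝ) ^ 2) ρ₀ (3 / 4 * a) (by positivity)
  have i1 : IntervalIntegrable (fun t => A ^ a * wt ((M : ℝ) ^ 2) ρ₀ s t) volume u v :=
    (continuous_const.mul c1).intervalIntegrable _ _
  have i2 : IntervalIntegrable (ind ρ₀ ((M : ℝ) ^ 2)⁻¹ (wt ((N : ℝ) ^ 2) ρ₀ (3 / 4 * a))) volume u v :=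
    ind_integrable _ _ _ _ _ c2
  have i3 : IntervalIntegrable (fun t => ((N : ℝ) ^ 2 / (M : ℝ) ^ 2) ^ (-(3 / 4 * a)) *
      wt ((M : ℝ) ^ 2) ρ₀ s t) volume u v := (continuous_const.mul c1).intervalIntegrable _ _
  have i5 : ∀ ρ : ℚ, IntervalIntegrable (fun t => (2 ^ s * wt ((M : ℝ) ^ 2) ρ₀ s ρ *
      ((N : ℝ) ^ 2 / ρ.den) ^ a) * ind ρ (dl c N ρ) (wt ((N : ℝ) ^ 2) ρ (3 / 4 * a)) t) volume u v := by
    intro ρ
    apply IntervalIntegrable.const_mul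
    exact ind_integrable _ _ _ _ _ (wt_cont _ _ _ (by positivity))
  have i4 : IntervalIntegrable (fun t => ((N : ℝ) ^ 2 / ρ₀.den) ^ a *
      (ind ρ₀ ((M : ℝ) ^ 2)⁻¹ (wt ((N : ℝ) ^ 2) ρ₀ (3 / 4 * a)) t +
      ((N : ℝ) ^ 2 / (M : ℝ) ^ 2) ^ (-(3 / 4 * a)) * wt ((M : ℝ) ^ 2) ρ₀ s t)) volume u v :=
    (i2.add i3).const_mul _
  have i6 : IntervalIntegrable (fun t => ∑ ρ ∈ SS c N M ρ₀, (2 ^ s * wt ((M : ℝ) ^ 2) ρ₀ s ρ *
      ((N : ℝ) ^ 2 / ρ.den) ^ a) * ind ρ (dl c N ρ) (wt ((N : ℝ) ^ 2) ρ (3 / 4 * a)) t) volume u v := by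
    have h : (fun t => ∑ ρ ∈ SS c N M ρ₀, (2 ^ s * wt ((M : ℝ) ^ 2) ρ₀ s ρ * ((N : ℝ) ^ 2 / ρ.den) ^ a) *
        ind ρ (dl c N ρ) (wt ((N : ℝ) ^ 2) ρ (3 / 4 * a)) t) =
        ∑ ρ ∈ SS c N M ρ₀, fun t => (2 ^ s * wt ((M : ℝ) ^ 2) ρ₀ s ρ * ((N : ℝ) ^ 2 / ρ.den) ^ a) *
        ind ρ (dl c N ρ) (wt ((N : ℝ) ^ 2) ρ (3 / 4 * a)) t := by
      ext t
      simp
    rw [h]
    exact IntervalIntegrable.sum _ fun ρ _ => i5 ρ
  unfold GG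
  rw [intervalIntegral.integral_add (i1.add i4) i6, intervalIntegral.integral_add i1 i4,
    intervalIntegral.integral_const_mul, intervalIntegral.integral_const_mul,
    intervalIntegral.integral_add i2 i3, intervalIntegral.integral_const_mul,
    intervalIntegral.integral_finsetSum fun ρ _ => i5 ρ]
  have hp1 : 3 / 4 * a < 1 := by linarith
  have j1 := int_wt ((M : ℝ) ^ 2) ρ₀ s u v (by positivity) hs huv
  have j2 : ∫ t in u..v, ind ρ₀ ((M : ℝ) ^ 2)⁻¹ (wt ((N : ℝ) ^ 2) ρ₀ (3 / 4 * a)) t ≤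
      2 * (1 + (N : ℝ) ^ 2 * ((M : ℝ) ^ 2)⁻¹) ^ (1 - 3 / 4 * a) / ((N : ℝ) ^ 2 * (1 - 3 / 4 * a)) :=
    (ind_int _ _ u v _ c2 (fun t => wt_nonneg _ _ _ _ (by positivity)) (by positivity) huv).trans
      (int_small _ _ _ _ (by positivity) hp1 (by positivity))
  have hAa : 0 ≤ A ^ a := Real.rpow_nonneg hA a
  have hH : 0 ≤ ((N : ℝ) ^ 2 / ρ₀.den) ^ a := Real.rpow_nonneg (by positivity) a
  have hk : 0 ≤ ((N : ℝ) ^ 2 / (M : ℝ) ^ 2) ^ (-(3 / 4 * a)) := Real.rpow_nonneg (by positivity) _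
  apply add_le_add
  · apply add_le_add
    · exact mul_le_mul_of_nonneg_left j1 hAa
    · apply mul_le_mul_of_nonneg_left _ hH
      apply add_le_add j2
      exact mul_le_mul_of_nonneg_left j1 hk
  · apply Finset.sum_le_sum
    intro ρ _
    rw [intervalIntegral.integral_const_mul]
    apply mul_le_mul_of_nonneg_left
    · exact (ind_int _ _ u v _ (wt_cont _ _ _ (by positivity))
        (fun t => wt_nonneg _ _ _ _ (by positivity)) (dl_nonneg c N ρ) huv).trans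
        (int_small _ _ _ _ (by positivity) hp1 (dl_nonneg c N ρ))
    · have k1 := wt_nonneg ((M : ℝ) ^ 2) ρ₀ s ρ (by positivity)
      have k2 : 0 ≤ (2 : ℝ) ^ s := Real.rpow_nonneg (by norm_num) s
      have k3 : 0 ≤ ((N : ℝ) ^ 2 / ρ.den) ^ a := Real.rpow_nonneg (by positivity) a
      positivity

lemma term2 (N M : ℕ) (q a K : ℝ) (hN : 1 ≤ N) (hM : 1 ≤ M) (hMN : M ≤ N) (hq : 0 < q)
    (ha : 0 < a) (ha1 : a < 1) :
    ((N : ℝ) ^ 2 / q) ^ a *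
        (2 * (1 + (N : ℝ) ^ 2 * ((M : ℝ) ^ 2)⁻¹) ^ (1 - 3 / 4 * a) / ((N : ℝ) ^ 2 * (1 - 3 / 4 * a)) +
        ((N : ℝ) ^ 2 / (M : ℝ) ^ 2) ^ (-(3 / 4 * a)) * (((M : ℝ) ^ 2)⁻¹ * K)) ≤
      (4 / (1 - 3 / 4 * a) + K) * (q ^ (-a) * (N : ℝ) ^ (2 * a - 2) * ((N : ℝ) / M) ^ (2 - 3 * a / 2)) := by
  have hNR : (1 : ℝ) ≤ N := by exact_mod_cast hN
  have hMR : (1 : ℝ) ≤ M := by exact_mod_cast hM
  have hMNR : (M : ℝ) ≤ N := by exact_mod_cast hMN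
  have hN0 : (0 : ℝ) < N := by linarith
  have hM0 : (0 : ℝ) < M := by linarith
  have hp : 0 < 1 - 3 / 4 * a := by linarith
  have hl : 0 < (N : ℝ) / M := by positivity
  have hl1 : 1 ≤ (N : ℝ) / M := by
    rw [le_div_iff₀ hM0]
    linarith
  have e0 : (N : ℝ) ^ 2 * ((M : ℝ) ^ 2)⁻¹ = ((N : ℝ) / M) ^ (2 : ℝ) := by
    rw [Real.rpow_two]
    field_simp
  have e0' : (N : ℝ) ^ 2 / (M : ℝ) ^ 2 = ((N : ℝ) / M) ^ (2 : ℝ) := by
    rw [Real.rpow_two]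
    field_simp
  have h1 : (1 + (N : ℝ) ^ 2 * ((M : ℝ) ^ 2)⁻¹) ^ (1 - 3 / 4 * a) ≤ 2 * ((N : ℝ) / M) ^ (2 - 3 * a / 2) := by
    rw [e0]
    have h2 : 1 ≤ ((N : ℝ) / M) ^ (2 : ℝ) := Real.one_le_rpow hl1 (by norm_num)
    calc (1 + ((N : ℝ) / M) ^ (2 : ℝ)) ^ (1 - 3 / 4 * a)
        ≤ (2 * ((N : ℝ) / M) ^ (2 : ℝ)) ^ (1 - 3 / 4 * a) :=
          Real.rpow_le_rpow (by positivity) (by linarith) hp.le
      _ = 2 ^ (1 - 3 / 4 * a) * ((N : ℝ) / M) ^ (2 - 3 * a / 2) := by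
          rw [Real.mul_rpow (by norm_num) (by positivity), ← Real.rpow_mul hl.le]
          congr 2
          ring
      _ ≤ 2 * ((N : ℝ) / M) ^ (2 - 3 * a / 2) := by
          apply mul_le_mul_of_nonneg_right _ (Real.rpow_nonneg hl.le _)
          calc (2 : ℝ) ^ (1 - 3 / 4 * a) ≤ 2 ^ (1 : ℝ) :=
                Real.rpow_le_rpow_of_exponent_le (by norm_num) (by linarith)
            _ = 2 := Real.rpow_one 2
  have e1 : ((N : ℝ) ^ 2 / (M : ℝ) ^ 2) ^ (-(3 / 4 * a)) * (((M : ℝ) ^ 2)⁻¹ * K) =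
      K * (((N : ℝ) ^ 2)⁻¹ * ((N : ℝ) / M) ^ (2 - 3 * a / 2)) := by
    have e2 : ((M : ℝ) ^ 2)⁻¹ = ((N : ℝ) ^ 2)⁻¹ * ((N : ℝ) / M) ^ (2 : ℝ) := by
      rw [Real.rpow_two]
      field_simp
    rw [e2, e0', ← Real.rpow_mul hl.le]
    have e3 : ((N : ℝ) / M) ^ (2 - 3 * a / 2) = ((N : ℝ) / M) ^ (2 * -(3 / 4 * a)) * ((N : ℝ) / M) ^ (2 : ℝ) := by
      rw [← Real.rpow_add hl]
      congr 1
      ring
    rw [e3]
    ring
  rw [e1]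
  have hX : 0 ≤ ((N : ℝ) / M) ^ (2 - 3 * a / 2) := Real.rpow_nonneg hl.le _
  have e4 : ((N : ℝ) ^ 2 / q) ^ a * ((N : ℝ) ^ 2)⁻¹ = q ^ (-a) * (N : ℝ) ^ (2 * a - 2) := by
    rw [Real.div_rpow (by positivity) hq.le, Real.rpow_neg hq.le, ← Real.rpow_two, ← Real.rpow_mul hN0.le,
      ← Real.rpow_neg hN0.le, Real.rpow_sub hN0, Real.rpow_neg hN0.le]
    ring
  have hH : 0 ≤ ((N : ℝ) ^ 2 / q) ^ a := Real.rpow_nonneg (by positivity) a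
  have h2 : 2 * (1 + (N : ℝ) ^ 2 * ((M : ℝ) ^ 2)⁻¹) ^ (1 - 3 / 4 * a) / ((N : ℝ) ^ 2 * (1 - 3 / 4 * a)) ≤
      (4 / (1 - 3 / 4 * a)) * (((N : ℝ) ^ 2)⁻¹ * ((N : ℝ) / M) ^ (2 - 3 * a / 2)) := by
    have e5 : (4 / (1 - 3 / 4 * a)) * (((N : ℝ) ^ 2)⁻¹ * ((N : ℝ) / M) ^ (2 - 3 * a / 2)) =
        2 * (2 * ((N : ℝ) / M) ^ (2 - 3 * a / 2)) / ((N : ℝ) ^ 2 * (1 - 3 / 4 * a)) := by
      field_simp
      ring
    rw [e5]
    apply div_le_div_of_nonneg_right _ (by positivity)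
    linarith
  calc ((N : ℝ) ^ 2 / q) ^ a *
        (2 * (1 + (N : ℝ) ^ 2 * ((M : ℝ) ^ 2)⁻¹) ^ (1 - 3 / 4 * a) / ((N : ℝ) ^ 2 * (1 - 3 / 4 * a)) +
        K * (((N : ℝ) ^ 2)⁻¹ * ((N : ℝ) / M) ^ (2 - 3 * a / 2)))
      ≤ ((N : ℝ) ^ 2 / q) ^ a *
        ((4 / (1 - 3 / 4 * a)) * (((N : ℝ) ^ 2)⁻¹ * ((N : ℝ) / M) ^ (2 - 3 * a / 2)) +
        K * (((N : ℝ) ^ 2)⁻¹ * ((N : ℝ) / M) ^ (2 - 3 * a / 2))) := by
          apply mul_le_mul_of_nonneg_left _ hH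
          linarith
    _ = (4 / (1 - 3 / 4 * a) + K) * ((((N : ℝ) ^ 2 / q) ^ a * ((N : ℝ) ^ 2)⁻¹) *
        ((N : ℝ) / M) ^ (2 - 3 * a / 2)) := by ring
    _ = _ := by rw [e4]

lemma term3 (c N : ℕ) (q a : ℝ) (hN : 1 ≤ N) (hc : 1 ≤ c) (hq : 0 < q) (hqN : q ≤ 2 * c * N)
    (ha : 0 < a) (ha1 : a < 1) :
    ((N : ℝ) ^ 2 / q) ^ a *
        (2 * (1 + (N : ℝ) ^ 2 * (1 / (q * (2 * c * N)))) ^ (1 - 3 / 4 * a) / ((N : ℝ) ^ 2 * (1 - 3 / 4 * a))) ≤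
      (6 * c / (1 - 3 / 4 * a)) * ((N : ℝ) ^ (5 * a / 4 - 1) * q ^ (-(1 + a / 4))) := by
  have hNR : (1 : ℝ) ≤ N := by exact_mod_cast hN
  have hcR : (1 : ℝ) ≤ c := by exact_mod_cast hc
  have hN0 : (0 : ℝ) < N := by linarith
  have hp : 0 < 1 - 3 / 4 * a := by linarith
  have h1 : 1 + (N : ℝ) ^ 2 * (1 / (q * (2 * c * N))) ≤ 3 * c * ((N : ℝ) / q) := by
    have h2 : 1 ≤ 2 * c * ((N : ℝ) / q) := by
      rw [mul_div_assoc', le_div_iff₀ hq]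
      linarith
    have h3 : (N : ℝ) ^ 2 * (1 / (q * (2 * c * N))) = (N : ℝ) / q / (2 * c) := by
      field_simp
    have h4 : (N : ℝ) / q / (2 * c) ≤ c * ((N : ℝ) / q) := by
      rw [div_le_iff₀ (by positivity)]
      have : 0 < (N : ℝ) / q := by positivity
      have h5 : 1 ≤ (c : ℝ) * (2 * c) := by nlinarith
      nlinarith
    rw [h3]
    linarith
  have hNq : 0 < (N : ℝ) / q := by positivity
  have h6 : (1 + (N : ℝ) ^ 2 * (1 / (q * (2 * c * N)))) ^ (1 - 3 / 4 * a) ≤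
      3 * c * ((N : ℝ) / q) ^ (1 - 3 / 4 * a) := by
    calc (1 + (N : ℝ) ^ 2 * (1 / (q * (2 * c * N)))) ^ (1 - 3 / 4 * a)
        ≤ (3 * c * ((N : ℝ) / q)) ^ (1 - 3 / 4 * a) := Real.rpow_le_rpow (by positivity) h1 hp.le
      _ = (3 * c : ℝ) ^ (1 - 3 / 4 * a) * ((N : ℝ) / q) ^ (1 - 3 / 4 * a) :=
          Real.mul_rpow (by positivity) hNq.le
      _ ≤ _ := by
          apply mul_le_mul_of_nonneg_right _ (Real.rpow_nonneg hNq.le _)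
          calc (3 * c : ℝ) ^ (1 - 3 / 4 * a) ≤ (3 * c : ℝ) ^ (1 : ℝ) :=
                Real.rpow_le_rpow_of_exponent_le (by linarith) (by linarith)
            _ = 3 * c := Real.rpow_one _
  have hH : 0 ≤ ((N : ℝ) ^ 2 / q) ^ a := Real.rpow_nonneg (by positivity) a
  have e1 : ((N : ℝ) ^ 2 / q) ^ a * (((N : ℝ) / q) ^ (1 - 3 / 4 * a) * ((N : ℝ) ^ 2)⁻¹) =
      (N : ℝ) ^ (5 * a / 4 - 1) * q ^ (-(1 + a / 4)) := by
    rw [Real.div_rpow (by positivity) hq.le, Real.div_rpow hN0.le hq.le, ← Real.rpow_two,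
      ← Real.rpow_mul hN0.le, ← Real.rpow_neg hN0.le]
    have e2 : (N : ℝ) ^ (5 * a / 4 - 1) = (N : ℝ) ^ (2 * a) * (N : ℝ) ^ (1 - 3 / 4 * a) * (N : ℝ) ^ (-2 : ℝ) := by
      rw [← Real.rpow_add hN0, ← Real.rpow_add hN0]
      congr 1
      ring
    have e3 : q ^ (-(1 + a / 4)) = (q ^ a)⁻¹ * (q ^ (1 - 3 / 4 * a))⁻¹ := by
      rw [← Real.rpow_neg hq.le, ← Real.rpow_neg hq.le, ← Real.rpow_add hq]
      congr 1
      ring
    rw [e2, e3]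
    have hqa : q ^ a ≠ 0 := (Real.rpow_pos_of_pos hq a).ne'
    have hqb : q ^ (1 - 3 / 4 * a) ≠ 0 := (Real.rpow_pos_of_pos hq _).ne'
    field_simp
  rw [← e1]
  have h7 : 2 * (1 + (N : ℝ) ^ 2 * (1 / (q * (2 * c * N)))) ^ (1 - 3 / 4 * a) / ((N : ℝ) ^ 2 * (1 - 3 / 4 * a)) ≤
      (6 * c / (1 - 3 / 4 * a)) * (((N : ℝ) / q) ^ (1 - 3 / 4 * a) * ((N : ℝ) ^ 2)⁻¹) := by
    have e5 : (6 * c / (1 - 3 / 4 * a)) * (((N : ℝ) / q) ^ (1 - 3 / 4 * a) * ((N : ℝ) ^ 2)⁻¹) =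
        2 * (3 * c * ((N : ℝ) / q) ^ (1 - 3 / 4 * a)) / ((N : ℝ) ^ 2 * (1 - 3 / 4 * a)) := by
      field_simp
      ring
    rw [e5]
    apply div_le_div_of_nonneg_right _ (by positivity)
    linarith
  calc _ ≤ ((N : ℝ) ^ 2 / q) ^ a * ((6 * c / (1 - 3 / 4 * a)) * (((N : ℝ) / q) ^ (1 - 3 / 4 * a) * ((N : ℝ) ^ 2)⁻¹)) :=
        mul_le_mul_of_nonneg_left h7 hH
    _ = _ := by ring

/-- the constant of the geometric sum -/
def GC (a : ℝ) : ℝ := (2 : ℝ) ^ (1 - a / 4) / ((2 : ℝ) ^ (1 - a / 4) - 1)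

lemma GC_nonneg (a : ℝ) (ha1 : a < 1) : 0 ≤ GC a := by
  unfold GC
  have hr : 1 < (2 : ℝ) ^ (1 - a / 4) := Real.one_lt_rpow (by norm_num) (by linarith)
  apply div_nonneg (by linarith) (by linarith)

end LOCI

open LOCI in
theorem t_LOCI : M_LOCI := by
  intro hW _ hF c a b hc ha ha1 hb
  obtain ⟨C, hC, hC2⟩ := hW c hc
  set s : ℝ := 3 * b / 4 with hs_def
  have hs : 1 < s := by
    rw [hs_def]
    linarith
  have hs0 : 0 ≤ s := by linarith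
  have hp : 0 < 1 - 3 / 4 * a := by linarith
  have hKK := KK_nonneg s
  have hBB := BB_nonneg s hs
  have hGC := GC_nonneg a ha1
  have hcR : (1 : ℝ) ≤ c := by exact_mod_cast hc
  have h2s : 0 ≤ (2 : ℝ) ^ s := Real.rpow_nonneg (by norm_num) s
  have hCa : 0 ≤ C ^ a := Real.rpow_nonneg hC a
  have h2a : 0 ≤ (2 : ℝ) ^ a := Real.rpow_nonneg (by norm_num) a
  set C3 : ℝ := 2 ^ s * (6 * c / (1 - 3 / 4 * a)) * (5 * BB s * GC a * (2 * c)) with hC3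
  have hC3n : 0 ≤ C3 := by
    rw [hC3]
    positivity
  set C4 : ℝ := 4 / (1 - 3 / 4 * a) + KK s with hC4
  have hC4n : 0 ≤ C4 := by
    rw [hC4]
    positivity
  refine ⟨(C ^ a * 2 ^ a) * (KK s + C3 + C4), by positivity, ?_⟩
  intro N M ρ₀ hM hN h0
  have hN1 : 1 ≤ N := by omega
  have hMN : M ≤ N := by omega
  have hNR : (1 : ℝ) ≤ N := by exact_mod_cast hN1
  have hMR : (1 : ℝ) ≤ M := by exact_mod_cast hM
  have hN0 : (0 : ℝ) < N := by linarith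
  have hlog : 0 ≤ Real.log N := Real.log_nonneg hNR
  have hq0 : (0 : ℝ) < ρ₀.den := by exact_mod_cast ρ₀.pos
  have hδ : 0 ≤ 1 / ((ρ₀.den : ℝ) * (2 * c * M)) := by positivity
  have huv : (ρ₀ : ℝ) - 1 / (ρ₀.den * (2 * c * M)) ≤ (ρ₀ : ℝ) + 1 / (ρ₀.den * (2 * c * M)) := by
    linarith
  have hA : 0 ≤ (N : ℝ) * (1 + Real.log N) := by positivity
  have h1 : ∫ t in ((ρ₀ : ℝ) - 1 / (ρ₀.den * (2 * c * M)))..((ρ₀ : ℝ) + 1 / (ρ₀.den * (2 * c * M))),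
      WW N c t ^ a * (1 + (M : ℝ) ^ 2 * |t - ρ₀|) ^ (-s) ≤
      ∫ t in ((ρ₀ : ℝ) - 1 / (ρ₀.den * (2 * c * M)))..((ρ₀ : ℝ) + 1 / (ρ₀.den * (2 * c * M))),
        (C ^ a * 2 ^ a) * GG c N M ρ₀ (N * (1 + Real.log N)) a s t := by
    rw [intervalIntegral.integral_of_le huv, intervalIntegral.integral_of_le huv]
    apply integral_mono_of_nonneg
    · filter_upwards with t
      have k1 := Real.rpow_nonneg (LOCI.WW_nonneg N c t) a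
      have k2 := wt_nonneg ((M : ℝ) ^ 2) ρ₀ s t (by positivity)
      exact mul_nonneg k1 k2
    · have := (GG_integrable c N M ρ₀ (N * (1 + Real.log N)) a s
        ((ρ₀ : ℝ) - 1 / (ρ₀.den * (2 * c * M))) ((ρ₀ : ℝ) + 1 / (ρ₀.den * (2 * c * M)))).const_mul (C ^ a * 2 ^ a)
      rw [intervalIntegrable_iff_integrableOn_Ioc_of_le huv] at this
      exact this
    · rw [Filter.EventuallyLE, ae_restrict_iff' measurableSet_Ioc]
      filter_upwards with t ht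
      apply point c N M ρ₀ C a s hc hM hN h0 ha hs0 hC (fun t ρ h h' => hC2 N t ρ hN1 h h') t
      rw [abs_le]
      constructor <;> linarith [ht.1, ht.2]
  refine h1.trans ?_
  rw [intervalIntegral.integral_const_mul, mul_assoc (C ^ a * 2 ^ a)]
  apply mul_le_mul_of_nonneg_left _ (by positivity)
  refine (GG_int c N M ρ₀ (N * (1 + Real.log N)) a s _ _ huv hA hN1 hM ha ha1 hs).trans ?_
  have t2 := term2 N M ρ₀.den a (KK s) hN1 hM hMN hq0 ha ha1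
  have t3 : ∑ ρ ∈ SS c N M ρ₀, (2 ^ s * wt ((M : ℝ) ^ 2) ρ₀ s ρ * ((N : ℝ) ^ 2 / ρ.den) ^ a) *
      (2 * (1 + (N : ℝ) ^ 2 * dl c N ρ) ^ (1 - 3 / 4 * a) / ((N : ℝ) ^ 2 * (1 - 3 / 4 * a))) ≤
      C3 * ((N * (1 + Real.log N)) ^ a * ((M : ℝ) ^ 2)⁻¹) := by
    have u1 : ∀ ρ ∈ SS c N M ρ₀, (2 ^ s * wt ((M : ℝ) ^ 2) ρ₀ s ρ * ((N : ℝ) ^ 2 / ρ.den) ^ a) *
        (2 * (1 + (N : ℝ) ^ 2 * dl c N ρ) ^ (1 - 3 / 4 * a) / ((N : ℝ) ^ 2 * (1 - 3 / 4 * a))) ≤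
        (2 ^ s * (6 * c / (1 - 3 / 4 * a)) * (N : ℝ) ^ (5 * a / 4 - 1)) *
          (wt ((M : ℝ) ^ 2) ρ₀ s ρ * ((ρ.den : ℝ) ^ (-(1 + a / 4)))) := by
      intro ρ hρ
      have hd := SS_den c N M ρ₀ ρ hρ
      have hq : (0 : ℝ) < ρ.den := by exact_mod_cast ρ.pos
      have hqN : (ρ.den : ℝ) ≤ 2 * c * N := by exact_mod_cast hd.2
      have v1 := term3 c N ρ.den a hN1 hc hq hqN ha ha1
      have v2 := wt_nonneg ((M : ℝ) ^ 2) ρ₀ s ρ (by positivity)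
      have v3 := mul_le_mul_of_nonneg_left v1 (by positivity : 0 ≤ 2 ^ s * wt ((M : ℝ) ^ 2) ρ₀ s ρ)
      unfold dl
      rw [mul_assoc]
      refine v3.trans (le_of_eq ?_)
      ring
    refine (Finset.sum_le_sum u1).trans ?_
    rw [← Finset.mul_sum]
    have u2 := sum_den hF (M : ℝ) ρ₀ s (a / 4) (2 * c * N) hMR hs (by linarith) (by linarith)
      (SS c N M ρ₀) (fun ρ hρ => SS_den c N M ρ₀ ρ hρ) (by nlinarith)
    have hNa : 0 ≤ (N : ℝ) ^ (5 * a / 4 - 1) := Real.rpow_nonneg hN0.le _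
    refine (mul_le_mul_of_nonneg_left u2 (by positivity)).trans ?_
    have u3 : ((2 * c * N : ℕ) : ℝ) ^ (1 - a / 4) ≤ (2 * c) * (N : ℝ) ^ (1 - a / 4) := by
      have e : ((2 * c * N : ℕ) : ℝ) = (2 * c) * N := by push_cast; ring
      rw [e, Real.mul_rpow (by positivity) hN0.le]
      apply mul_le_mul_of_nonneg_right _ (Real.rpow_nonneg hN0.le _)
      calc (2 * c : ℝ) ^ (1 - a / 4) ≤ (2 * c : ℝ) ^ (1 : ℝ) :=
            Real.rpow_le_rpow_of_exponent_le (by linarith) (by linarith)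
        _ = 2 * c := Real.rpow_one _
    have e4 : (N : ℝ) ^ (5 * a / 4 - 1) * (N : ℝ) ^ (1 - a / 4) = (N : ℝ) ^ a := by
      rw [← Real.rpow_add hN0]
      congr 1
      ring
    have u5 : (N : ℝ) ^ a ≤ (N * (1 + Real.log N)) ^ a := by
      apply Real.rpow_le_rpow hN0.le _ ha.le
      nlinarith
    have hG : (2 : ℝ) ^ (1 - a / 4) / ((2 : ℝ) ^ (1 - a / 4) - 1) = GC a := rfl
    rw [hG]
    have hMi : 0 ≤ ((M : ℝ) ^ 2)⁻¹ := by positivity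
    calc 2 ^ s * (6 * c / (1 - 3 / 4 * a)) * (N : ℝ) ^ (5 * a / 4 - 1) *
          (5 * BB s * GC a * ((2 * c * N : ℕ) : ℝ) ^ (1 - a / 4) * ((M : ℝ) ^ 2)⁻¹)
        ≤ 2 ^ s * (6 * c / (1 - 3 / 4 * a)) * (N : ℝ) ^ (5 * a / 4 - 1) *
          (5 * BB s * GC a * ((2 * c) * (N : ℝ) ^ (1 - a / 4)) * ((M : ℝ) ^ 2)⁻¹) := by
          apply mul_le_mul_of_nonneg_left _ (by positivity)
          apply mul_le_mul_of_nonneg_right _ hMi
          apply mul_le_mul_of_nonneg_left u3 (by positivity)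
      _ = C3 * (((N : ℝ) ^ (5 * a / 4 - 1) * (N : ℝ) ^ (1 - a / 4)) * ((M : ℝ) ^ 2)⁻¹) := by
          rw [hC3]
          ring
      _ ≤ _ := by
          rw [e4]
          apply mul_le_mul_of_nonneg_left _ hC3n
          exact mul_le_mul_of_nonneg_right u5 hMi
  have eM : (M : ℝ) ^ (-2 : ℝ) = ((M : ℝ) ^ 2)⁻¹ := by
    rw [Real.rpow_neg (by positivity), Real.rpow_two]
  rw [eM]
  have hX : 0 ≤ (N * (1 + Real.log N)) ^ a * ((M : ℝ) ^ 2)⁻¹ :=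
    mul_nonneg (Real.rpow_nonneg hA a) (by positivity)
  have hY : 0 ≤ (ρ₀.den : ℝ) ^ (-a) * (N : ℝ) ^ (2 * a - 2) * ((N : ℝ) / M) ^ (2 - 3 * a / 2) := by
    have y1 : 0 ≤ (ρ₀.den : ℝ) ^ (-a) := Real.rpow_nonneg hq0.le _
    have y2 : 0 ≤ (N : ℝ) ^ (2 * a - 2) := Real.rpow_nonneg hN0.le _
    have y3 : 0 ≤ ((N : ℝ) / M) ^ (2 - 3 * a / 2) := Real.rpow_nonneg (by positivity) _
    positivity
  have e1 : (N * (1 + Real.log N)) ^ a * (((M : ℝ) ^ 2)⁻¹ * KK s) =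
      KK s * ((N * (1 + Real.log N)) ^ a * ((M : ℝ) ^ 2)⁻¹) := by ring
  rw [e1]
  rw [← hC4] at t2
  have z1 : 0 ≤ C4 * ((N * (1 + Real.log N)) ^ a * ((M : ℝ) ^ 2)⁻¹) := mul_nonneg hC4n hX
  have z2 : 0 ≤ (KK s + C3) * ((ρ₀.den : ℝ) ^ (-a) * (N : ℝ) ^ (2 * a - 2) *
      ((N : ℝ) / M) ^ (2 - 3 * a / 2)) := mul_nonneg (by linarith) hY
  nlinarith

end

end STZ
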