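import Pool.Agent.STZ.StmtsV

/-!
# The pieces of the kernel of the group, all roots at separate scales
-/

namespace STZ

open MeasureTheory Matrix

open scoped ComplexConjugate Matrix Real

noncomputable section

namespace KYFG

variable {N : ℕ} {H : Subgroup (SU N)} {c : ℝ} {d r : ℕ} {D : RD r} {P : RT r}
  {B : Matrix (Fin r) (Fin r) ℤ} {h : ℕ} {x : Fin r → H → ℂ} {k : ℝ}

lemma sum_ib (n : ℕ) (F : (Fin r → ℤ) → ℂ) :
    ∑ a ∈ ib r n, F (wG a) = ∑ l ∈ bx (1 : Fin r → ℤ) n, F l := by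
  refine Finset.sum_bij (fun a _ => wG a) ?_ ?_ ?_ ?_
  · intro a ha
    unfold ib at ha
    rw [Fintype.mem_piFinset] at ha
    unfold bx
    rw [Fintype.mem_piFinset]
    intro i
    have h1 := Finset.mem_range.mp (ha i)
    rw [Finset.mem_Ico]
    unfold wG
    simp only [Pi.one_apply]
    omega
  · intro a _ b _ hab
    funext i
    have h1 := congrFun hab i
    unfold wG at h1
    omega
  · intro l hl
    unfold bx at hl
    rw [Fintype.mem_piFinset] at hl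
    refine ⟨fun i => (l i - 1).toNat, ?_, ?_⟩
    · unfold ib
      rw [Fintype.mem_piFinset]
      intro i
      have h1 := Finset.mem_Ico.mp (hl i)
      simp only [Pi.one_apply] at h1
      rw [Finset.mem_range]
      omega
    · funext i
      have h1 := Finset.mem_Ico.mp (hl i)
      simp only [Pi.one_apply] at h1
      unfold wG
      simp only
      omega
  · intro a _
    rfl

lemma cG_one (hG : GD H c d D P B h x k) (a : Fin r → ℕ) : cG D x a 1 = D.dim (wG a) := by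
  unfold cG
  have h1 : (fun i => x i 1) = D.ξ := by
    funext i
    exact hG.gf.xone i
  rw [h1]
  exact hG.rdx.d.dim_eq _

lemma ky_eq (hG : GD H c d D P B h x k) (J K : ℕ) (y : {p // p ∈ P} → Fin (J + 1)) (t : ℝ)
    (g g' : H) {θ : Fin r → ℝ} (hθ : ∀ i, x i (g * g'⁻¹) = XT D θ i) :
    ky D P x J K y t g g' =
      ∑ ν ∈ bx (1 : Fin r → ℤ) K, (D.dim ν : ℂ) * nm D P J y (-t) ν * D.ψ (XT D θ) ν := by
  unfold ky
  have h1 : (fun i => x i (g * g'⁻¹)) = XT D θ := by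
    funext i
    exact hθ i
  rw [← sum_ib K fun ν => (D.dim ν : ℂ) * nm D P J y (-t) ν * D.ψ (XT D θ) ν]
  refine Finset.sum_congr rfl fun a _ => ?_
  unfold KK
  rw [cG_one hG]
  unfold cG
  rw [h1]
  ring

lemma cont_psi (hI : S_INTX) (hG : GD H c d D P B h x k) (l : Fin r → ℤ) :
    Continuous fun g : H => D.ψ (fun i => x i g) l := by
  obtain ⟨F, hF⟩ := (hI r D hG.rdx.o).1 l
  have h1 : (fun g : H => D.ψ (fun i => x i g) l) =
      fun g : H => MvPolynomial.eval (fun i => x i g) (MvPolynomial.map (algebraMap ℤ ℂ) F) := by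
    funext g
    rw [hF, MvPolynomial.aeval_def, MvPolynomial.eval_map]
  rw [h1]
  refine (MvPolynomial.continuous_eval (MvPolynomial.map (algebraMap ℤ ℂ) F)).comp ?_
  exact continuous_pi fun i => hG.gf.cont i

lemma cont_nm (D : RD r) (P : RT r) (J : ℕ) (y : {p // p ∈ P} → Fin (J + 1)) (ν : Fin r → ℤ) :
    Continuous fun t : ℝ => nm D P J y t ν := by
  unfold nm
  refine continuous_const.mul ?_
  refine continuous_finsetSum _ fun w _ => ?_
  unfold nk
  refine continuous_finsetSum _ fun κ _ => ?_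
  refine continuous_const.mul ?_
  unfold eu
  refine Complex.continuous_exp.comp ?_
  refine Continuous.mul ?_ continuous_const
  refine Continuous.mul continuous_const ?_
  exact Complex.continuous_ofReal.comp (continuous_id.mul continuous_const)

lemma cont_ky (hI : S_INTX) (hG : GD H c d D P B h x k) (J K : ℕ)
    (y : {p // p ∈ P} → Fin (J + 1)) :
    Continuous fun z : ℝ × H × H => ky D P x J K y z.1 z.2.1 z.2.2 := by
  have hq : Continuous fun z : ℝ × H × H => z.2.1 * z.2.2⁻¹ :=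
    (continuous_fst.comp continuous_snd).mul (continuous_snd.comp continuous_snd).inv
  unfold ky
  refine continuous_finsetSum _ fun a _ => ?_
  refine Continuous.mul ?_ ?_
  · exact (cont_nm D P J y (wG a)).comp continuous_fst.neg
  · unfold KK
    refine continuous_const.mul ?_
    exact (cont_psi hI hG (wG a)).comp hq

lemma sum_ky (hN : NKF D P) (J K : ℕ) (t : ℝ) (g g' : H) :
    ∑ a ∈ ib r K, ((et P (2 ^ J) (wG a) : ℝ) : ℂ) *
      (eu (t * ((-D.Q (wG a) : ℤ) : ℝ)) * KK (cG D x) a g g') = ∑ y, ky D P x J K y t g g' := by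
  unfold ky
  rw [Finset.sum_comm]
  refine Finset.sum_congr rfl fun a _ => ?_
  rw [← Finset.sum_mul, hN.sum J (-t) (wG a)]
  have h2 : t * ((-D.Q (wG a) : ℤ) : ℝ) = -t * D.Q (wG a) := by
    push_cast
    ring
  rw [h2]
  ring

/-- a bound for the heights of the coroots -/
def KP (P : RT r) : ℕ := 1 + ∑ p ∈ P, (∑ i, p.2 i).natAbs

lemma le_KP {p : (Fin r → ℤ) × (Fin r → ℤ)} (hp : p ∈ P) : ∑ i, p.2 i ≤ (KP P : ℤ) := by
  have h1 : (∑ i, p.2 i).natAbs ≤ ∑ p ∈ P, (∑ i, p.2 i).natAbs :=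
    Finset.single_le_sum (f := fun p : (Fin r → ℤ) × (Fin r → ℤ) => (∑ i, p.2 i).natAbs)
      (fun _ _ => Nat.zero_le _) hp
  have h2 : ∑ i, p.2 i ≤ ((∑ i, p.2 i).natAbs : ℤ) := Int.le_natAbs
  unfold KP
  push_cast
  have h3 : (((∑ i, p.2 i).natAbs : ℕ) : ℤ) ≤ ((∑ p ∈ P, (∑ i, p.2 i).natAbs : ℕ) : ℤ) := by
    exact_mod_cast h1
  push_cast at h3
  have h4 : ∑ i, p.2 i ≤ |∑ i, p.2 i| := le_abs_self _
  linarith

lemma et_ge {J K₀ : ℕ} (hE : ETF D P (2 ^ J)) (hR : RTD D P B h) (hK : KP P ≤ K₀)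
    (a : Fin r → ℕ) (ha : ∀ i, K₀ * (a i + 1) ≤ 2 ^ J) : 1 ≤ et P (2 ^ J) (wG a) := by
  refine hE.ge _ fun p hp => ?_
  obtain ⟨hp1, -⟩ := hR.pos p hp
  have h0 : 0 ≤ p.2 ⬝ᵥ wG a := by
    unfold dotProduct
    refine Finset.sum_nonneg fun i _ => mul_nonneg (hp1 i) ?_
    unfold wG
    omega
  rw [abs_of_nonneg h0]
  have hK1 : 1 ≤ K₀ := by
    unfold KP at hK
    omega
  have hK0 : (0 : ℤ) < (K₀ : ℤ) := by exact_mod_cast hK1
  have h1 : (K₀ : ℤ) * (p.2 ⬝ᵥ wG a) ≤ (K₀ : ℤ) * (2 ^ J : ℤ) := by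
    have h2 : (K₀ : ℤ) * (p.2 ⬝ᵥ wG a) = ∑ i, p.2 i * ((K₀ : ℤ) * ((a i : ℤ) + 1)) := by
      unfold dotProduct wG
      rw [Finset.mul_sum]
      refine Finset.sum_congr rfl fun i _ => ?_
      ring
    have h3 : ∑ i, p.2 i * ((K₀ : ℤ) * ((a i : ℤ) + 1)) ≤ ∑ i, p.2 i * (2 ^ J : ℤ) := by
      refine Finset.sum_le_sum fun i _ => mul_le_mul_of_nonneg_left ?_ (hp1 i)
      exact_mod_cast ha i
    rw [h2]
    refine h3.trans ?_
    rw [← Finset.sum_mul]
    refine mul_le_mul_of_nonneg_right ?_ (by positivity)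
    refine (le_KP hp).trans ?_
    exact_mod_cast hK
  have h4 := le_of_mul_le_mul_left h1 hK0
  exact_mod_cast h4

lemma mem_ib {J K₀ : ℕ} (hK : 1 ≤ K₀) (a : Fin r → ℕ) (ha : ∀ i, K₀ * (a i + 1) ≤ 2 ^ J) :
    a ∈ ib r (K₀ * 2 ^ J) := by
  unfold ib
  rw [Fintype.mem_piFinset]
  intro i
  rw [Finset.mem_range]
  have h1 := ha i
  have h2 : a i + 1 ≤ K₀ * (a i + 1) := Nat.le_mul_of_pos_left _ hK
  have h3 : 2 ^ J ≤ K₀ * 2 ^ J := Nat.le_mul_of_pos_left _ hK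
  omega

lemma WW_nn (hW : S_WWF) (R c : ℕ) (t : ℝ) : 0 ≤ WW R c t :=
  le_trans (Nat.cast_nonneg R) (hW.ge R c t)

end KYFG

theorem t_KYFG : M_KYFG := by
  intro hW hKE hI hIR hET hNS hNB hSU hKO N H c d r D P B h x k hG hR μ _ _
  have hNK : NKF D P := hNS r D P B h hG.rdx hG.rtd hR
  obtain ⟨C₁, c₁, hC₁, hc₁, hB⟩ := hNB r D P B h hG.rdx hG.rtd hR
  obtain ⟨C₂, c₂, K₂, hC₂, hc₂, hS⟩ := hSU r D P B h hG.rdx hG.rtd hR
  have hcs : CompactSpace H := isCompact_iff_compactSpace.1 (hG.gf.closed.isCompact)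
  have hsc : SecondCountableTopology H :=
    TopologicalSpace.Subtype.secondCountableTopology (H : Set (SU N))
  have hirr : IrrFam (cG D x) := hIR N H c d r D x k hG.rdx.o hG.gf μ
  obtain ⟨hker, -⟩ := hKE H μ (Fin r → ℕ) (cG D x) hirr
  have hKP : 1 ≤ KYFG.KP P := by
    unfold KYFG.KP
    omega
  refine ⟨max C₁ C₂, max c₁ c₂, max (KYFG.KP P) K₂, le_max_of_le_left hC₁,
    le_max_of_le_left hc₁, fun J => ?_⟩
  have hE : ETF D P (2 ^ J) := hET r D P B h hG.rdx hG.rtd hR (2 ^ J) Nat.one_le_two_pow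
  refine ⟨fun y => KYFG.cont_ky hI hG J _ y, fun t g g' => KYFG.sum_ky hNK J _ t g g',
    fun a => hE.nn _, fun a ha => ⟨KYFG.mem_ib (le_max_of_le_left hKP) a ha,
      KYFG.et_ge hE hG.rtd (le_max_left _ _) a ha⟩, fun y t g g' => ?_, fun y t b hb u v hu hv => ?_⟩
  · obtain ⟨θ, hθ⟩ := hG.tor (g * g'⁻¹)
    rw [KYFG.ky_eq hG J _ y t g g' hθ]
    refine (hS J _ y (-t) θ (Nat.mul_le_mul_right _ (le_max_right _ _))).trans ?_
    rw [hW.even]
    have h0 := KYFG.WW_nn hW (2 ^ J) c₂ t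
    have h1 : WW (2 ^ J) c₂ t ≤ WW (2 ^ J) (max c₁ c₂) t :=
      hW.mono _ _ _ _ t le_rfl (le_max_right _ _)
    have h2 : (((2 ^ J : ℕ) : ℝ)) = (2 : ℝ) ^ J := by push_cast; rfl
    rw [h2]
    gcongr
    exact le_max_right _ _
  · have hprod : ∀ (C : ℝ) (c : ℕ), 0 ≤ C → 0 ≤ C * ∏ i, (WW (2 ^ (y (b i)).val) c t ^ ((1 : ℝ) / 2) /
        2 ^ (y (b i)).val) := by
      intro C c hC
      refine mul_nonneg hC (Finset.prod_nonneg fun i _ => ?_)
      have h1 := KYFG.WW_nn hW (2 ^ (y (b i)).val) c t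
      positivity
    have hm : ∀ a ∈ ib r (max (KYFG.KP P) K₂ * 2 ^ J), ‖nm D P J y (-t) (wG a)‖ ≤
        max C₁ C₂ * ∏ i, (WW (2 ^ (y (b i)).val) (max c₁ c₂) t ^ ((1 : ℝ) / 2) /
          2 ^ (y (b i)).val) := by
      intro a _
      refine (hB J y (-t) (wG a) b hb).trans ?_
      have h3 : ∏ i, (WW (2 ^ (y (b i)).val) c₁ (-t) ^ ((1 : ℝ) / 2) / 2 ^ (y (b i)).val) ≤
          ∏ i, (WW (2 ^ (y (b i)).val) (max c₁ c₂) t ^ ((1 : ℝ) / 2) / 2 ^ (y (b i)).val) := by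
        refine Finset.prod_le_prod (fun i _ => ?_) fun i _ => ?_
        · have h1 := KYFG.WW_nn hW (2 ^ (y (b i)).val) c₁ (-t)
          positivity
        · rw [hW.even]
          have h0 := KYFG.WW_nn hW (2 ^ (y (b i)).val) c₁ t
          have h1 : WW (2 ^ (y (b i)).val) c₁ t ≤ WW (2 ^ (y (b i)).val) (max c₁ c₂) t :=
            hW.mono _ _ _ _ t le_rfl (le_max_left _ _)
          gcongr
      have h4 : 0 ≤ ∏ i, (WW (2 ^ (y (b i)).val) (max c₁ c₂) t ^ ((1 : ℝ) / 2) /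
          2 ^ (y (b i)).val) := by
        have := hprod 1 (max c₁ c₂) zero_le_one
        rwa [one_mul] at this
      exact (mul_le_mul_of_nonneg_left h3 hC₁).trans
        (mul_le_mul_of_nonneg_right (le_max_left _ _) h4)
    have h5 := hKO H μ (Fin r → ℕ) (KK (cG D x)) hker (ib r (max (KYFG.KP P) K₂ * 2 ^ J))
      (fun a => nm D P J y (-t) (wG a)) _ (hprod _ _ (le_max_of_le_left hC₁)) hm u v hu hv
    unfold ky
    exact h5

end

end STZ
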