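import Pool.Agent.STZ.StmtsV

/-!
# The estimate for bounded frequencies, all roots at separate scales
-/

namespace STZ

open MeasureTheory Matrix

open scoped ComplexConjugate Matrix Real

noncomputable section

namespace LOCY

theorem norm_eu (θ : ℝ) : ‖eu θ‖ = 1 := by
  unfold eu
  have h : (2 * π * θ * Complex.I : ℂ) = ((2 * π * θ : ℝ) : ℂ) * Complex.I := by
    push_cast
    ring
  rw [h, Complex.norm_exp_ofReal_mul_I]

theorem eu_cont : Continuous eu := by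
  unfold eu
  fun_prop

theorem nsq_eu {M : Type} [MeasurableSpace M] (μ : Measure M) (θ : ℝ) (u : M → ℂ) :
    nsq μ (fun x => eu θ * u x) = nsq μ u := by
  unfold nsq
  simp only [norm_mul, norm_eu, one_mul]

theorem mem_mul {M : Type} [TopologicalSpace M] [MeasurableSpace M] (μ : Measure M)
    {k : M → M → ℂ} {u : M → ℂ} (h : Mem μ k u) (c : ℂ) : Mem μ k (fun x => c * u x) := by
  refine ⟨continuous_const.mul h.1, fun x => ?_⟩
  have h1 : ∀ y, k x y * (c * u y) = c * (k x y * u y) := fun y => by ring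
  simp only [h1]
  rw [integral_const_mul, h.2 x]

theorem mem_zero {M : Type} [TopologicalSpace M] [MeasurableSpace M] (μ : Measure M)
    (k : M → M → ℂ) : Mem μ k (fun _ => 0) := by
  refine ⟨continuous_const, fun x => ?_⟩
  simp

section gen

variable {M : Type} [TopologicalSpace M] [CompactSpace M] [T2Space M]
  [SecondCountableTopology M] [MeasurableSpace M] [BorelSpace M]

theorem integ (μ : Measure M) [IsProbabilityMeasure μ] {f : M → ℂ} (hf : Continuous f) :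
    Integrable f μ := by
  refine hf.integrable_of_hasCompactSupport ?_
  exact HasCompactSupport.of_compactSpace f

theorem pr_fix (μ : Measure M) [IsProbabilityMeasure μ] {ι : Type} {K : ι → M → M → ℂ}
    (hker : Ker μ K) (hK : KBF μ K) (S : Finset ι) (v : ι → M → ℂ)
    (hv : ∀ a ∈ S, Mem μ (K a) (v a)) :
    Pr μ K S (fun x => ∑ a ∈ S, v a x) = fun x => ∑ a ∈ S, v a x := by
  funext x
  have hc : ∀ b : ι, Continuous fun y => K b x y := fun b =>
    (hker.cont b).comp (continuous_const.prodMk continuous_id)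
  have h1 : ∀ b ∈ S, ∫ y, K b x y * ∑ a ∈ S, v a y ∂μ = ∑ a ∈ S, ∫ y, K b x y * v a y ∂μ := by
    intro b _
    simp only [Finset.mul_sum]
    rw [integral_finsetSum]
    intro a ha
    exact integ μ ((hc b).mul (hv a ha).1)
  unfold Pr
  rw [Finset.sum_congr rfl h1, Finset.sum_comm]
  refine Finset.sum_congr rfl fun a ha => ?_
  have h2 := congrFun (hK.fix S a (v a) ha (hv a ha)) x
  exact h2

theorem sup_bound (hB : S_BERN) (μ : Measure M) [IsProbabilityMeasure μ] {ι : Type}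
    {K : ι → M → M → ℂ} (hker : Ker μ K) (hK : KBF μ K) (S : Finset ι) (v : ι → M → ℂ)
    (hv : ∀ a ∈ S, Mem μ (K a) (v a)) (L : ℝ) (hL : ∀ x, ∑ c ∈ S, ‖K c x x‖ ≤ L) (x : M) :
    ‖∑ a ∈ S, v a x‖ ^ 2 ≤ L * ∑ a ∈ S, nsq μ (v a) := by
  have hc : Continuous fun x => ∑ a ∈ S, v a x :=
    continuous_finsetSum _ fun a ha => (hv a ha).1
  have h1 := hB M μ ι K hker S (fun x => ∑ a ∈ S, v a x) x hc
  rw [pr_fix μ hker hK S v hv, hK.orth S v hv] at h1
  refine h1.trans ?_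
  refine mul_le_mul_of_nonneg_right (hL x) ?_
  exact Finset.sum_nonneg fun a _ => integral_nonneg fun _ => by positivity

end gen

/-! ### the exponents -/

/-- the powers of the last step -/
theorem powers (n d κ p p' C1 C2 S : ℝ) (hn : 0 < n) (hp : 0 < p) (hκ : κ = p / 2 - 1)
    (hC1 : 0 ≤ C1) (hC2 : 0 ≤ C2) (hS : 0 ≤ S) (hpp : 0 < p' - p) :
    √(C1 * n ^ d * S) ^ (p' - p) * (C2 * n ^ ((d * κ - 2) * (2 / p)) * S) ^ (p / 2) =
      (C1 ^ ((p' - p) / 2) * C2 ^ (p / 2)) * (n ^ (d * p' / 2 - d - 2) * S ^ (p' / 2)) := by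
  have hn' := hn.le
  have hnd : 0 ≤ n ^ d := Real.rpow_nonneg hn' _
  have e1 : √(C1 * n ^ d * S) ^ (p' - p) =
      C1 ^ ((p' - p) / 2) * n ^ (d * ((p' - p) / 2)) * S ^ ((p' - p) / 2) := by
    rw [Real.sqrt_eq_rpow, ← Real.rpow_mul (by positivity),
      show 1 / 2 * (p' - p) = (p' - p) / 2 by ring, Real.mul_rpow (by positivity) hS,
      Real.mul_rpow hC1 hnd, ← Real.rpow_mul hn']
  have e2 : (C2 * n ^ ((d * κ - 2) * (2 / p)) * S) ^ (p / 2) =
      C2 ^ (p / 2) * n ^ (d * κ - 2) * S ^ (p / 2) := by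
    have h0 : 0 ≤ n ^ ((d * κ - 2) * (2 / p)) := Real.rpow_nonneg hn' _
    rw [Real.mul_rpow (by positivity) hS, Real.mul_rpow hC2 h0, ← Real.rpow_mul hn']
    congr 3
    field_simp
  rw [e1, e2]
  have e3 : n ^ (d * ((p' - p) / 2)) * n ^ (d * κ - 2) = n ^ (d * p' / 2 - d - 2) := by
    rw [← Real.rpow_add hn]
    congr 1
    rw [hκ]
    ring
  have e4 : S ^ ((p' - p) / 2) * S ^ (p / 2) = S ^ (p' / 2) := by
    rw [← Real.rpow_add_of_nonneg hS (by positivity) (by positivity)]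
    congr 1
    ring
  rw [← e3, ← e4]
  ring

/-! ### the nice bounds -/

theorem ww_nn (hW : WWF) (R c : ℕ) (t : ℝ) : 0 ≤ WW R c t :=
  (Nat.cast_nonneg R).trans (hW.ge R c t)

theorem nice_A (hW : WWF) (R c q r : ℕ) (C y : ℝ) (hC : 0 ≤ C) (hy : 0 ≤ y) :
    Nice fun t => C * ((R : ℝ) ^ q * WW R c t ^ ((r : ℝ) / 2) * y) where
  cont := by
    refine continuous_const.mul ((continuous_const.mul ?_).mul continuous_const)
    exact (hW.cont R c).rpow_const fun t => Or.inr (by positivity)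
  nn t := by
    have := ww_nn hW R c t
    positivity
  per t := by
    show C * ((R : ℝ) ^ q * WW R c (t + 1) ^ ((r : ℝ) / 2) * y) = _
    rw [hW.per]
  even t := by
    show C * ((R : ℝ) ^ q * WW R c (-t) ^ ((r : ℝ) / 2) * y) = _
    rw [hW.even]

theorem nice_E (hW : WWF) {r : ℕ} (m : Fin r → ℕ) (c : ℕ) (C : ℝ) (hC : 0 ≤ C) :
    Nice fun t => C * ∏ i, (WW (2 ^ m i) c t ^ ((1 : ℝ) / 2) / 2 ^ m i) where
  cont := by
    refine continuous_const.mul (continuous_finsetProd _ fun i _ => Continuous.div_const ?_ _)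
    exact (hW.cont _ c).rpow_const fun t => Or.inr (by positivity)
  nn t := by
    refine mul_nonneg hC (Finset.prod_nonneg fun i _ => ?_)
    have := ww_nn hW (2 ^ m i) c t
    positivity
  per t := by
    show C * ∏ i, (WW (2 ^ m i) c (t + 1) ^ ((1 : ℝ) / 2) / 2 ^ m i) = _
    simp only [hW.per]
  even t := by
    show C * ∏ i, (WW (2 ^ m i) c (-t) ^ ((1 : ℝ) / 2) / 2 ^ m i) = _
    simp only [hW.even]

/-! ### the combinatorial data -/

theorem wG_ne {r : ℕ} (a : Fin r → ℕ) : Reg (wG a) := by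
  intro i
  unfold wG
  omega

theorem one_le_sz {r : ℕ} (x : Fin r → ℤ) : 1 ≤ sz x := by
  unfold sz
  have : 0 ≤ ∑ i, |(x i : ℝ)| := Finset.sum_nonneg fun i _ => abs_nonneg _
  linarith

theorem le_sz {r : ℕ} (a : Fin r → ℕ) (i : Fin r) : (a i : ℝ) + 2 ≤ sz (wG a) := by
  have h5 : |((wG a i : ℤ) : ℝ)| ≤ ∑ j, |((wG a j : ℤ) : ℝ)| :=
    Finset.single_le_sum (f := fun j => |((wG a j : ℤ) : ℝ)|) (fun j _ => abs_nonneg _)
      (Finset.mem_univ i)
  have h6 : |((wG a i : ℤ) : ℝ)| = (a i : ℝ) + 1 := by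
    have h7 : ((wG a i : ℤ) : ℝ) = (a i : ℝ) + 1 := by
      unfold wG
      push_cast
      ring
    rw [h7, abs_of_nonneg (by positivity)]
  unfold sz
  linarith

theorem sz_le {r n : ℕ} (hn : 1 ≤ n) (a : Fin r → ℕ) (ha : a ∈ ib r n) :
    sz (wG a) ≤ (1 + r) * n := by
  have hn' : (1 : ℝ) ≤ n := by exact_mod_cast hn
  have h1 : ∀ i, |((wG a i : ℤ) : ℝ)| ≤ n := by
    intro i
    have h2 : a i < n := Finset.mem_range.1 (Fintype.mem_piFinset.1 ha i)
    have h7 : ((wG a i : ℤ) : ℝ) = (a i : ℝ) + 1 := by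
      unfold wG
      push_cast
      ring
    rw [h7, abs_of_nonneg (by positivity)]
    exact_mod_cast h2
  unfold sz
  have h3 : ∑ i, |((wG a i : ℤ) : ℝ)| ≤ ∑ _i : Fin r, (n : ℝ) := Finset.sum_le_sum fun i _ => h1 i
  rw [Finset.sum_const, Finset.card_univ, Fintype.card_fin, nsmul_eq_mul] at h3
  nlinarith

theorem card_ge {r : ℕ} {D : RD r} {P : RT r} (hE : RTE D P) : r ≤ P.card := by
  choose f hf hf2 using hE.sim
  have hinj : Function.Injective f := by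
    intro i j hij
    have h1 := hf2 i
    rw [hij, hf2 j] at h1
    by_contra hne
    have h2 := congrFun h1 i
    rw [Pi.single_eq_same, Pi.single_eq_of_ne hne] at h2
    exact zero_ne_one h2
  have h1 := Finset.card_le_card_of_injOn (s := Finset.univ) (t := P) f (fun i _ => hf i)
    (hinj.injOn)
  rwa [Finset.card_univ, Fintype.card_fin] at h1

theorem diag {N : ℕ} {H : Subgroup (SU N)} {c : ℝ} {d r : ℕ} {D : RD r} {x : Fin r → H → ℂ}
    {k : ℝ} (hD : RDO D) (hG : GF H c d D x k) : ∃ C : ℝ, 0 ≤ C ∧ ∀ a g,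
      ‖KK (cG D x) a g g‖ ≤ C * sz (wG a) ^ (D.e : ℝ) := by
  obtain ⟨C, hC⟩ := hD.dim_le
  refine ⟨C ^ 2, by positivity, fun a g => ?_⟩
  have h0 : (fun i => x i 1) = D.ξ := funext hG.xone
  have h1 : KK (cG D x) a g g = ((D.dim (wG a) * D.dim (wG a) : ℝ) : ℂ) := by
    unfold KK cG
    rw [mul_inv_cancel, h0, hD.dim_eq]
    push_cast
    rfl
  have hd : (0 : ℝ) ≤ D.dim (wG a) := by exact_mod_cast (hD.dim_pos _ (wG_ne a)).le
  have hm := one_le_sz (wG a)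
  have h2 := hC _ (wG_ne a)
  rw [h1, Complex.norm_real, Real.norm_of_nonneg (mul_nonneg hd hd)]
  have h3 : (D.dim (wG a) : ℝ) * D.dim (wG a) ≤ (C * sz (wG a) ^ ((D.e : ℝ) / 2)) *
      (C * sz (wG a) ^ ((D.e : ℝ) / 2)) := mul_le_mul h2 h2 hd (hd.trans h2)
  refine h3.trans (le_of_eq ?_)
  have h4 : sz (wG a) ^ ((D.e : ℝ) / 2) * sz (wG a) ^ ((D.e : ℝ) / 2) =
      sz (wG a) ^ (D.e : ℝ) := by
    rw [← Real.rpow_add (by linarith)]
    congr 1
    ring
  rw [← h4]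
  ring

/-- the estimate for a set of frequencies in the box -/
theorem box (hKB : S_KB) (hBERN : S_BERN) (hKERI : S_KERI) (hW : S_WWF) (hIRRX : S_IRRX)
    (hKYFG : S_KYFG) (hGSUY : S_GSUY) (hTTY : S_TTY) (hLEV : S_LEV) (N : ℕ)
    (H : Subgroup (SU N)) (c : ℝ) (d r : ℕ) (D : RD r) (P : RT r)
    (B : Matrix (Fin r) (Fin r) ℤ) (h : ℕ) (x : Fin r → H → ℂ) (k : ℝ) (hr : 3 ≤ r)
    (hG : GD H c d D P B h x k) (hE : RTE D P) (μ : Measure H) [IsProbabilityMeasure μ]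
    [μ.IsMulLeftInvariant] (p' : ℝ) (hp' : 2 + 8 / ((D.e : ℝ) + r) < p') (hp'' : 8 / (r : ℝ) < p') :
    ∃ (C : ℝ) (K₀ : ℕ), 0 ≤ C ∧ 1 ≤ K₀ ∧ ∀ (J : ℕ) (F : Finset (Fin r → ℕ))
      (u : (Fin r → ℕ) → H → ℂ),
      (∀ a ∈ F, ∀ i, K₀ * (a i + 1) ≤ 2 ^ J) → (∀ a ∈ F, Mem μ (KK (cG D x) a) (u a)) →
      ∫ t in (0 : ℝ)..1, ∫ g, ‖∑ a ∈ F,
        eu (t * ((-D.Q (wG a) : ℤ) : ℝ)) * u a g‖ ^ p' ∂μ ≤
      C * (((2 ^ J : ℕ) : ℝ) ^ (((r : ℝ) + D.e) * p' / 2 - ((r : ℝ) + D.e) - 2) *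
        (∑ a ∈ F, nsq μ (u a)) ^ (p' / 2)) := by
  have hcomp : CompactSpace H := isCompact_iff_compactSpace.1 hG.gf.closed.isCompact
  have hsc : SecondCountableTopology H :=
    TopologicalSpace.Subtype.secondCountableTopology (H : Set (SU N))
  have hr0 : (0 : ℝ) < r := by
    have : 0 < r := by omega
    exact_mod_cast this
  have hr3 : (3 : ℝ) ≤ r := by exact_mod_cast hr
  have hcard := card_ge hE
  have hcard' : (r : ℝ) ≤ P.card := by exact_mod_cast hcard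
  have he : (D.e : ℝ) = 2 * P.card := by
    rw [hG.rtd.card]
    push_cast
    rfl
  have h3 : 3 * (r : ℝ) ≤ D.e + r := by rw [he]; linarith
  have hlt : 8 / ((D.e : ℝ) + r) < 4 / r := by
    rw [div_lt_div_iff₀ (by linarith) hr0]
    nlinarith
  have hlt2 : 8 / (r : ℝ) < 2 + 4 / r := by
    have h4 : 4 / (r : ℝ) < 2 := by
      rw [div_lt_iff₀ hr0]
      linarith
    have h5 : 8 / (r : ℝ) = 4 / r + 4 / r := by ring
    rw [h5]
    linarith
  obtain ⟨p, hp1, hp2⟩ := exists_between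
    (lt_min (max_lt hp' hp'') (max_lt (show 2 + 8 / ((D.e : ℝ) + r) < 2 + 4 / r by linarith) hlt2))
  have hp1a : 2 + 8 / ((D.e : ℝ) + r) < p := lt_of_le_of_lt (le_max_left _ _) hp1
  have hp1b : 8 / (r : ℝ) < p := lt_of_le_of_lt (le_max_right _ _) hp1
  have hpp' : p < p' := lt_of_lt_of_le hp2 (min_le_left _ _)
  have hp3 : p < 2 + 4 / r := lt_of_lt_of_le hp2 (min_le_right _ _)
  have h8 : 0 < 8 / ((D.e : ℝ) + r) := div_pos (by norm_num) (by linarith)
  have hp20 : 2 < p := by linarith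
  have hker := (hKERI H μ (Fin r → ℕ) (cG D x)
    (hIRRX N H c d r D x k hG.rdx.o hG.gf μ)).1
  have hK := hKB H μ (Fin r → ℕ) (KK (cG D x)) hker
  obtain ⟨C0, hC0, hdiag⟩ := diag hG.rdx.o hG.gf
  obtain ⟨C1, c1, K₀, hC1, hc1, hky⟩ := hKYFG N H c d r D P B h x k hG hE μ
  have hK1 : 1 ≤ K₀ := by
    by_contra hc
    have h0 : K₀ = 0 := by omega
    subst h0
    have h4 := ((hky 0).ge (fun _ => 0) (fun i => by simp)).1
    have h5 := Fintype.mem_piFinset.1 h4 ⟨0, by omega⟩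
    simp at h5
  have hcι : Fintype.card {q // q ∈ P} = P.card := Fintype.card_coe P
  obtain ⟨C2, hC2, hsum⟩ := hGSUY {q // q ∈ P} r c1 p C1 hr hc1 hC1 (by rw [hcι]; omega)
    (by rw [hcι, ← he]; exact hp1a) hp1b hp3
  obtain ⟨C3, hC3, hlev⟩ := hLEV H μ p p' hp20 hpp'
  set L : ℝ := C0 * (1 + r) ^ (D.e : ℝ) with hL
  have hL0 : 0 ≤ L := by positivity
  refine ⟨C3 * (L ^ ((p' - p) / 2) * C2 ^ (p / 2)), K₀, by positivity, hK1, fun J F u hFJ hu => ?_⟩
  have hn1 : 1 ≤ 2 ^ J := Nat.one_le_two_pow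
  set n : ℕ := 2 ^ J with hn
  have hnR : (1 : ℝ) ≤ n := by exact_mod_cast hn1
  have hn0 : (0 : ℝ) < n := by linarith
  have hFn : F ⊆ ib r n := by
    intro a ha
    refine Fintype.mem_piFinset.2 fun i => Finset.mem_range.2 ?_
    have h4 := hFJ a ha i
    have h5 : a i + 1 ≤ K₀ * (a i + 1) := Nat.le_mul_of_pos_left _ (by omega)
    omega
  have hkJ := hky J
  choose b hb1 hb2 using fun y : {q // q ∈ P} → Fin (J + 1) => hE.avg fun q => J - (y q).val
  obtain ⟨Γ, hΓ1, hΓ2, hΓ3⟩ := hsum J b (fun y => by rw [hcι]; exact hb2 y)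
  set S : ℝ := ∑ a ∈ F, nsq μ (u a) with hS
  have hS0 : 0 ≤ S := Finset.sum_nonneg fun a _ => integral_nonneg fun _ => by positivity
  have hJC : JC fun (t : ℝ) (g : H) => ∑ a ∈ F, eu (t * ((-D.Q (wG a) : ℤ) : ℝ)) * u a g := by
    refine continuous_finsetSum _ fun a ha => ?_
    refine Continuous.mul ?_ ((hu a ha).1.comp continuous_snd)
    exact eu_cont.comp (continuous_fst.mul continuous_const)
  -- the bound for the maximum
  have hsup : ∀ (t : ℝ) (g : H), ‖∑ a ∈ F, eu (t * ((-D.Q (wG a) : ℤ) : ℝ)) * u a g‖ ≤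
      √(L * (n : ℝ) ^ ((r : ℝ) + D.e) * S) := by
    intro t g
    refine Real.le_sqrt_of_sq_le ?_
    have h1 := sup_bound hBERN μ hker hK F
      (fun a g => eu (t * ((-D.Q (wG a) : ℤ) : ℝ)) * u a g)
      (fun a ha => mem_mul μ (hu a ha) _) (L * (n : ℝ) ^ ((r : ℝ) + D.e)) ?_ g
    · simp only [nsq_eu] at h1
      exact h1
    · intro g
      have h2 : ∀ a ∈ ib r n, ‖KK (cG D x) a g g‖ ≤ C0 * ((1 + r) * n : ℝ) ^ (D.e : ℝ) := by
        intro a ha
        refine (hdiag a g).trans (mul_le_mul_of_nonneg_left ?_ hC0)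
        exact Real.rpow_le_rpow (by linarith [one_le_sz (wG a)]) (sz_le hn1 a ha)
          (Nat.cast_nonneg _)
      refine (Finset.sum_le_sum_of_subset_of_nonneg hFn fun _ _ _ => norm_nonneg _).trans ?_
      refine (Finset.sum_le_sum h2).trans (le_of_eq ?_)
      have h3 : (ib r n).card = n ^ r := by
        unfold ib
        rw [Fintype.card_piFinset]
        simp
      rw [Finset.sum_const, h3, nsmul_eq_mul, Real.mul_rpow (by positivity) hn0.le,
        Real.rpow_add hn0, Real.rpow_natCast (n : ℝ) r, hL]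
      push_cast
      ring
  -- the restricted weak type estimate
  have hTT := hTTY H μ (Fin r → ℕ) (KK (cG D x)) hker (fun a => -D.Q (wG a)) p hp20 F
    (ib r (K₀ * 2 ^ J)) (fun a => et P (2 ^ J) (wG a)) ({q // q ∈ P} → Fin (J + 1))
    (fun y t g g' => ky D P x J (K₀ * 2 ^ J) y t g g')
    (fun y t => C1 * (((2 ^ J : ℕ) : ℝ) ^ Fintype.card {q // q ∈ P} *
      WW (2 ^ J) c1 t ^ ((r : ℝ) / 2) * ∏ q, (2 : ℝ) ^ (y q).val))
    (fun y t => C1 * ∏ i, (WW (2 ^ (y (b y i)).val) c1 t ^ ((1 : ℝ) / 2) / 2 ^ (y (b y i)).val)) Γ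
    (fun a ha => (hkJ.ge a (hFJ a ha)).1) (fun a _ => hkJ.nn a)
    (fun a ha => (hkJ.ge a (hFJ a ha)).2) hkJ.sum hkJ.cont
    (fun y => nice_A hW _ _ _ _ _ _ hC1 (Finset.prod_nonneg fun _ _ => by positivity))
    (fun y => nice_E hW _ _ _ hC1) (fun y t g g' => by rw [hcι]; exact hkJ.sup y t g g')
    (fun y t u v hu hv => hkJ.opb y t (b y) (hb1 y) u v hu hv) hΓ1 u hu
  have hG1 := hlev (fun t g => ∑ a ∈ F, eu (t * ((-D.Q (wG a) : ℤ) : ℝ)) * u a g)
    (C2 * (n : ℝ) ^ ((((r : ℝ) + D.e) * (p / 2 - 1) - 2) * (2 / p)) * S)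
    (√(L * (n : ℝ) ^ ((r : ℝ) + D.e) * S)) hJC (by positivity) (Real.sqrt_nonneg _) hsup ?_
  · refine hG1.trans (le_of_eq ?_)
    rw [powers (n : ℝ) ((r : ℝ) + D.e) (p / 2 - 1) p p' L C2 S hn0 (by linarith) rfl hL0 hC2 hS0
      (by linarith)]
    ring
  · intro G hGc hGb
    refine (hTT G hGc hGb).trans ?_
    have hm : 0 ≤ (∫ t in (0 : ℝ)..1, ∫ x, ‖G t x‖ ∂μ) ^ (2 - 2 / p) := by
      refine Real.rpow_nonneg ?_ _
      exact intervalIntegral.integral_nonneg zero_le_one fun t _ =>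
        integral_nonneg fun _ => norm_nonneg _
    refine mul_le_mul_of_nonneg_right ?_ hm
    refine mul_le_mul_of_nonneg_right ?_ hS0
    refine hΓ3.trans (le_of_eq ?_)
    rw [hcι, ← he, add_comm (D.e : ℝ) r]

/-- all the frequencies up to the power of `2` -/
theorem main (hKB : S_KB) (hBERN : S_BERN) (hKERI : S_KERI) (hW : S_WWF) (hIRRX : S_IRRX)
    (hKYFG : S_KYFG) (hGSUY : S_GSUY) (hTTY : S_TTY) (hLEV : S_LEV) : S_LOCY := by
  intro N H c d r D P B h x k hr hG hE μ _ _ p hp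
  have hpa : 2 + 8 / ((D.e : ℝ) + r) < p := lt_of_le_of_lt (le_max_left _ _) hp
  have hpb : 8 / (r : ℝ) < p := lt_of_le_of_lt (le_max_right _ _) hp
  obtain ⟨C, K₀, hC, hK1, hbox⟩ := box hKB hBERN hKERI hW hIRRX hKYFG hGSUY hTTY hLEV N H c d r D
    P B h x k hr hG hE μ p hpa hpb
  have hr0 : (0 : ℝ) < r := by
    have : 0 < r := by omega
    exact_mod_cast this
  have hK1' : (1 : ℝ) ≤ K₀ := by exact_mod_cast hK1
  have hde : 0 ≤ (D.e : ℝ) := Nat.cast_nonneg _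
  have h8 : 0 < 8 / ((D.e : ℝ) + r) := div_pos (by norm_num) (by linarith)
  have hp0 : 0 < p := by linarith
  set s : ℝ := ((r : ℝ) + D.e) / 2 - ((r : ℝ) + D.e + 2) / p with hs
  have hs0 : 0 ≤ s := by
    have h2 : 8 < (r + D.e) * (p - 2) := by
      have h3 : 8 / ((D.e : ℝ) + r) < p - 2 := by linarith
      rw [div_lt_iff₀ (by linarith)] at h3
      linarith
    have h5 : ((r : ℝ) + D.e + 2) / p ≤ ((r : ℝ) + D.e) / 2 := by
      rw [div_le_div_iff₀ hp0 (by norm_num)]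
      linarith
    rw [hs]
    linarith
  refine ⟨C ^ (1 / p) * (2 * K₀) ^ s, by positivity, fun F u hu N₀ hN => ?_⟩
  rcases F.eq_empty_or_nonempty with rfl | hne
  · have h1 : nq μ p (uw wG (fun l => -D.Q l) ∅ u) = 0 := by
      unfold nq uw
      simp [Real.zero_rpow hp0.ne']
      rw [Real.zero_rpow (inv_ne_zero hp0.ne')]
    rw [h1]
    simp
  obtain ⟨a0, ha0⟩ := hne
  have hN1 : 1 ≤ N₀ := (one_le_sz _).trans (hN a0 ha0)
  have hKN : 1 ≤ (K₀ : ℝ) * N₀ := by nlinarith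
  obtain ⟨j, hj1, hj2⟩ := exists_nat_pow_near hKN (one_lt_two : (1 : ℝ) < 2)
  have hsub : ∀ a ∈ F, ∀ i, K₀ * (a i + 1) ≤ 2 ^ (j + 1) := by
    intro a ha i
    have h1 := (le_sz a i).trans (hN a ha)
    have h2 : ((K₀ * (a i + 1) : ℕ) : ℝ) ≤ ((2 ^ (j + 1) : ℕ) : ℝ) := by
      push_cast
      have h3 : (K₀ : ℝ) * ((a i : ℝ) + 1) ≤ K₀ * N₀ :=
        mul_le_mul_of_nonneg_left (by linarith) (by linarith)
      linarith
    exact_mod_cast h2
  have hB := hbox (j + 1) F u hsub hu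
  have e1 : ∀ (t : ℝ) (g : H), ∑ a ∈ F,
      eu (t * ((-D.Q (wG a) : ℤ) : ℝ)) * u a g = uw wG (fun l => -D.Q l) F u t g := fun t g => rfl
  simp only [e1] at hB
  set S : ℝ := ∑ a ∈ F, nsq μ (u a) with hS
  have hS0 : 0 ≤ S := Finset.sum_nonneg fun a _ => integral_nonneg fun _ => by positivity
  set n : ℝ := ((2 ^ (j + 1) : ℕ) : ℝ) with hn
  have hn0 : 0 < n := by
    rw [hn]
    positivity
  have hn2 : n ≤ 2 * K₀ * N₀ := by
    rw [hn]
    push_cast
    rw [pow_succ]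
    linarith
  have hI0 : 0 ≤ ∫ t in (0 : ℝ)..1, ∫ g, ‖uw wG (fun l => -D.Q l) F u t g‖ ^ p ∂μ :=
    intervalIntegral.integral_nonneg zero_le_one fun t _ =>
      integral_nonneg fun _ => by positivity
  unfold nq
  have h1 := Real.rpow_le_rpow hI0 hB (show 0 ≤ 1 / p by positivity)
  refine h1.trans ?_
  have hnp : 0 ≤ n ^ (((r : ℝ) + D.e) * p / 2 - ((r : ℝ) + D.e) - 2) := by positivity
  rw [Real.mul_rpow hC (by positivity), Real.mul_rpow hnp (by positivity), ← Real.rpow_mul hn0.le,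
    ← Real.rpow_mul hS0]
  have e3 : (((r : ℝ) + D.e) * p / 2 - ((r : ℝ) + D.e) - 2) * (1 / p) = s := by
    rw [hs]
    field_simp
    ring
  have e4 : p / 2 * (1 / p) = 1 / 2 := by
    field_simp
  rw [e3, e4, ← Real.sqrt_eq_rpow]
  have h2 : n ^ s ≤ (2 * K₀) ^ s * N₀ ^ s := by
    rw [← Real.mul_rpow (by positivity) (by linarith)]
    exact Real.rpow_le_rpow hn0.le hn2 hs0
  calc C ^ (1 / p) * (n ^ s * √S) ≤ C ^ (1 / p) * ((2 * K₀) ^ s * N₀ ^ s * √S) := by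
        refine mul_le_mul_of_nonneg_left ?_ (by positivity)
        exact mul_le_mul_of_nonneg_right h2 (Real.sqrt_nonneg _)
    _ = _ := by ring

end LOCY

theorem t_LOCY : M_LOCY := fun h1 h2 h3 h4 h5 h6 h7 h8 h9 =>
  LOCY.main h1 h2 h3 h4 h5 h6 h7 h8 h9

end

end STZ
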