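import Pool.Agent.STZ.StmtsV

/-!
# Module NBDY: bounds for the multipliers
-/

namespace STZ

open MeasureTheory Matrix

open scoped ComplexConjugate Matrix Real

noncomputable section

namespace NBDY

/-- products of weights -/
theorem prod_wcly (hw : WCY) {r : ℕ} (z : Fin r → ℤ) (n : Fin r → ℕ) (R : Fin r → ℝ)
    (hR : ∀ i, 0 < R i) {ι : Type*} (P : Finset ι) (L : ι → ℝ) (g : ι → (Fin r → ℤ) → ℂ)
    (hL : ∀ p ∈ P, 0 ≤ L p) (hg : ∀ p ∈ P, WClY z n R (L p) (g p)) :
    WClY z n R (∏ p ∈ P, (2 ^ r * L p)) (fun x => ∏ p ∈ P, g p x) := by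
  classical
  induction P using Finset.induction_on with
  | empty =>
    have := hw.const r z n R 1 hR
    simpa using this
  | insert a s ha ih =>
    have h1 := ih (fun p hp => hL p (Finset.mem_insert_of_mem hp))
      (fun p hp => hg p (Finset.mem_insert_of_mem hp))
    have h0 : 0 ≤ ∏ p ∈ s, (2 ^ r * L p) :=
      Finset.prod_nonneg fun p hp =>
        mul_nonneg (by positivity) (hL p (Finset.mem_insert_of_mem hp))
    have h2 := hw.mul r z n R (L a) (∏ p ∈ s, (2 ^ r * L p)) (g a) (fun x => ∏ p ∈ s, g p x) hR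
      (hL a (Finset.mem_insert_self _ _)) h0 (hg a (Finset.mem_insert_self _ _)) h1
    simp only [Finset.prod_insert ha]
    have e : 2 ^ r * L a * ∏ p ∈ s, (2 ^ r * L p) = 2 ^ r * (L a * ∏ p ∈ s, (2 ^ r * L p)) := by
      ring
    rw [e]
    exact h2

/-- splitting of a sum or product over all indices -/
theorem prod_split {ι A : Type} [Fintype ι] [DecidableEq ι] [CommMonoid A] {r : ℕ} (b : Fin r → ι)
    (hb : Function.Injective b) [DecidablePred fun p => p ∈ Set.range b] (g : ι → A) :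
    ∏ p, g p = (∏ p, if p ∈ Set.range b then 1 else g p) * ∏ i, g (b i) := by
  have h1 : ∏ p, (if p ∈ Set.range b then g p else 1) = ∏ i, g (b i) := by
    rw [← Finset.prod_filter]
    have h2 : (Finset.univ.filter fun p => p ∈ Set.range b) = Finset.univ.image b := by
      ext p
      simp
    rw [h2, Finset.prod_image (fun _ _ _ _ h => hb h)]
  rw [← h1, ← Finset.prod_mul_distrib]
  refine Finset.prod_congr rfl fun p _ => ?_
  split_ifs <;> simp

theorem sum_split {ι A : Type} [Fintype ι] [DecidableEq ι] [AddCommMonoid A] {r : ℕ} (b : Fin r → ι)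
    (hb : Function.Injective b) [DecidablePred fun p => p ∈ Set.range b] (g : ι → A) :
    ∑ p, g p = (∑ p, if p ∈ Set.range b then 0 else g p) + ∑ i, g (b i) := by
  have h1 : ∑ p, (if p ∈ Set.range b then g p else 0) = ∑ i, g (b i) := by
    rw [← Finset.sum_filter]
    have h2 : (Finset.univ.filter fun p => p ∈ Set.range b) = Finset.univ.image b := by
      ext p
      simp
    rw [h2, Finset.sum_image (fun _ _ _ _ h => hb h)]
  rw [← h1, ← Finset.sum_add_distrib]
  refine Finset.sum_congr rfl fun p _ => ?_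
  split_ifs <;> simp

/-- fixing the variables outside of the range of `b` -/
theorem split {ι : Type} [Fintype ι] [DecidableEq ι] {r : ℕ} (b : Fin r → ι)
    (hb : Function.Injective b) (I : ι → Finset ℤ) (a : ι → ℤ → ℝ) (F : (ι → ℤ) → ℂ) (M : ℝ)
    (hM0 : 0 ≤ M)
    (hM : ∀ k : ι → ℤ, ‖∑ y ∈ Fintype.piFinset (fun i => I (b i)), (∏ i, (a (b i) (y i) : ℂ)) *
      F (Function.extend b y k)‖ ≤ M)
    (hI : ∀ p, ∑ z ∈ I p, |a p z| ≤ 2) :
    ‖∑ k ∈ Fintype.piFinset I, (∏ p, (a p (k p) : ℂ)) * F k‖ ≤ 2 ^ Fintype.card ι * M := by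
  classical
  set I' : ι → Finset ℤ := fun p => if p ∈ Set.range b then {0} else I p with hI'
  have h1 : ∑ k ∈ Fintype.piFinset I, (∏ p, (a p (k p) : ℂ)) * F k =
      ∑ q ∈ Fintype.piFinset I' ×ˢ Fintype.piFinset (fun i => I (b i)),
        (∏ p, (a p (Function.extend b q.2 q.1 p) : ℂ)) * F (Function.extend b q.2 q.1) := by
    symm
    refine Finset.sum_nbij' (fun q => Function.extend b q.2 q.1)
      (fun k => (fun p => if p ∈ Set.range b then 0 else k p, fun i => k (b i))) ?_ ?_ ?_ ?_ ?_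
    · intro q hq
      rw [Finset.mem_product, Fintype.mem_piFinset, Fintype.mem_piFinset] at hq
      rw [Fintype.mem_piFinset]
      intro p
      by_cases hp : p ∈ Set.range b
      · obtain ⟨i, rfl⟩ := hp
        rw [hb.extend_apply]
        exact hq.2 i
      · rw [Function.extend_apply' _ _ _ (fun h => hp h)]
        have := hq.1 p
        simp only [hI', if_neg hp] at this
        exact this
    · intro k hk
      rw [Fintype.mem_piFinset] at hk
      rw [Finset.mem_product, Fintype.mem_piFinset, Fintype.mem_piFinset]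
      refine ⟨fun p => ?_, fun i => hk (b i)⟩
      by_cases hp : p ∈ Set.range b
      · simp only [hI', if_pos hp, Finset.mem_singleton]
      · simp only [hI', if_neg hp]
        exact hk p
    · intro q hq
      rw [Finset.mem_product, Fintype.mem_piFinset, Fintype.mem_piFinset] at hq
      refine Prod.ext ?_ ?_
      · funext p
        by_cases hp : p ∈ Set.range b
        · have := hq.1 p
          rw [hI'] at this
          simp only [if_pos hp, Finset.mem_singleton] at this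
          simp only [if_pos hp, this]
        · simp only [if_neg hp]
          rw [Function.extend_apply' _ _ _ (fun h => hp h)]
      · funext i
        exact hb.extend_apply _ _ i
    · intro k _
      funext p
      by_cases hp : p ∈ Set.range b
      · obtain ⟨i, rfl⟩ := hp
        rw [hb.extend_apply]
      · rw [Function.extend_apply' _ _ _ (fun h => hp h)]
        simp only [if_neg hp]
    · intro q _
      rfl
  rw [h1, Finset.sum_product]
  have h2 : ∀ k : ι → ℤ, ∑ y ∈ Fintype.piFinset (fun i => I (b i)),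
      (∏ p, (a p (Function.extend b y k p) : ℂ)) * F (Function.extend b y k) =
      (∏ p, (if p ∈ Set.range b then 1 else (a p (k p) : ℂ))) *
        ∑ y ∈ Fintype.piFinset (fun i => I (b i)), (∏ i, (a (b i) (y i) : ℂ)) *
          F (Function.extend b y k) := by
    intro k
    rw [Finset.mul_sum]
    refine Finset.sum_congr rfl fun y _ => ?_
    rw [prod_split b hb, mul_assoc]
    congr 1
    · refine Finset.prod_congr rfl fun p _ => ?_
      by_cases hp : p ∈ Set.range b
      · rw [if_pos hp, if_pos hp]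
      · rw [if_neg hp, if_neg hp, Function.extend_apply' _ _ _ (fun h => hp h)]
    · congr 1
      refine Finset.prod_congr rfl fun i _ => ?_
      rw [hb.extend_apply]
  simp only [h2]
  calc ‖∑ k ∈ Fintype.piFinset I', (∏ p, (if p ∈ Set.range b then 1 else (a p (k p) : ℂ))) *
        ∑ y ∈ Fintype.piFinset (fun i => I (b i)), (∏ i, (a (b i) (y i) : ℂ)) *
          F (Function.extend b y k)‖
      ≤ ∑ k ∈ Fintype.piFinset I', (∏ p, (if p ∈ Set.range b then 1 else |a p (k p)|)) * M := by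
        refine (norm_sum_le _ _).trans (Finset.sum_le_sum fun k _ => ?_)
        rw [norm_mul, norm_prod]
        refine mul_le_mul (le_of_eq ?_) (hM k) (norm_nonneg _)
          (Finset.prod_nonneg fun p _ => ?_)
        · refine Finset.prod_congr rfl fun p _ => ?_
          split_ifs
          · exact norm_one
          · rw [Complex.norm_real, Real.norm_eq_abs]
        · split_ifs
          · exact zero_le_one
          · exact abs_nonneg _
    _ = (∏ p, ∑ z ∈ I' p, (if p ∈ Set.range b then 1 else |a p z|)) * M := by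
        rw [← Finset.sum_mul, Finset.prod_univ_sum]
    _ ≤ 2 ^ Fintype.card ι * M := by
        refine mul_le_mul_of_nonneg_right ?_ hM0
        have h3 : (2 : ℝ) ^ Fintype.card ι = ∏ _p : ι, (2 : ℝ) := by
          rw [Finset.prod_const, Finset.card_univ]
        rw [h3]
        refine Finset.prod_le_prod (fun p _ => ?_) (fun p _ => ?_)
        · refine Finset.sum_nonneg fun z _ => ?_
          split_ifs
          · exact zero_le_one
          · exact abs_nonneg _
        · by_cases hp : p ∈ Set.range b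
          · simp only [hI', if_pos hp, Finset.sum_singleton]
            norm_num
          · simp only [hI', if_neg hp]
            exact hI p

/-- the matrix of the quadratic form is symmetric -/
theorem symm_A {r : ℕ} {Q : (Fin r → ℤ) → ℤ} {A : Matrix (Fin r) (Fin r) ℤ} (h : QF Q A) :
    Aᵀ = A := by
  ext i j
  have h1 := h.polar (Pi.single i 1) (Pi.single j 1)
  have h2 := h.polar (Pi.single j 1) (Pi.single i 1)
  rw [add_comm (Pi.single j 1 : Fin r → ℤ)] at h2
  have h3 : (Pi.single i 1 : Fin r → ℤ) ⬝ᵥ (A *ᵥ Pi.single j 1) =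
      (Pi.single j 1 : Fin r → ℤ) ⬝ᵥ (A *ᵥ Pi.single i 1) := by linarith
  simp only [Matrix.mulVec_single_one, single_one_dotProduct, Matrix.col_apply] at h3
  rw [Matrix.transpose_apply]
  exact h3.symm

theorem pos_A {r : ℕ} {D : RD r} (hX : RDX D) (u : Fin r → ℤ) (hu : u ≠ 0) :
    0 < u ⬝ᵥ (D.A *ᵥ u) := by
  obtain ⟨c, hc, hpd⟩ := hX.w.pd
  have h1 := hX.w.qf.polar u (-u)
  rw [add_neg_cancel, Matrix.mulVec_neg, dotProduct_neg] at h1
  have hpos : ∀ v : Fin r → ℤ, v ≠ 0 → 0 < D.Q v := by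
    intro v hv
    have h2 := (hpd v).1
    have h3 : 0 < sz v - 1 := by
      rw [sz, add_sub_cancel_left]
      obtain ⟨i, hi⟩ := Function.ne_iff.1 hv
      refine Finset.sum_pos' (fun i _ => abs_nonneg _) ⟨i, Finset.mem_univ i, ?_⟩
      rw [abs_pos]
      exact_mod_cast hi
    have h4 : (0 : ℝ) < D.Q v := lt_of_lt_of_le (by positivity) h2
    exact_mod_cast h4
  have h0 : D.Q 0 ≤ 0 := by
    have h2 := (hpd 0).2
    have h3 : sz (0 : Fin r → ℤ) - 1 = 0 := by simp [sz]
    rw [h3] at h2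
    have h4 : (D.Q 0 : ℝ) ≤ 0 := by
      by_contra h5
      push Not at h5
      have := mul_pos hc h5
      linarith
    exact_mod_cast h4
  have h5 := hpos u hu
  have h6 := hpos (-u) (neg_ne_zero.2 hu)
  linarith

theorem form_eq {r : ℕ} (A B : Matrix (Fin r) (Fin r) ℤ) (y h : Fin r → ℤ) :
    y ⬝ᵥ ((B * A * Bᵀ) *ᵥ h) = (y ᵥ* B) ⬝ᵥ (A *ᵥ (h ᵥ* B)) := by
  rw [← Matrix.mulVec_mulVec, ← Matrix.mulVec_mulVec, Matrix.mulVec_transpose,
    Matrix.dotProduct_mulVec]

theorem pd_G {r : ℕ} {D : RD r} (hX : RDX D) (B : Matrix (Fin r) (Fin r) ℤ) (hB : B.det ≠ 0) :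
    PD (B * D.A * Bᵀ) := by
  refine ⟨?_, fun x hx => ?_⟩
  · rw [Matrix.transpose_mul, Matrix.transpose_mul, Matrix.transpose_transpose,
      symm_A hX.w.qf, Matrix.mul_assoc]
  · rw [form_eq]
    refine pos_A hX _ fun h0 => hx ?_
    exact Matrix.eq_zero_of_vecMul_eq_zero hB h0

/-- the inner sum -/
theorem inner (hWWF : WWF) (hWEYY : S_WEYY) (hABEY : S_ABEY) (hWCLY : WCY) (hPSIM : S_PSIM)
    (hFEJA : S_FEJA) {r : ℕ} {D : RD r} (hX : RDX D) (P : RT r) (B : Matrix (Fin r) (Fin r) ℤ)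
    (hB : B.det ≠ 0) :
    ∃ (C : ℝ) (c : ℕ), 0 ≤ C ∧ 1 ≤ c ∧ ∀ (J : ℕ) (x : Fin r → ℕ) (t : ℝ) (ν : Fin r → ℤ),
      (∀ i, x i ≤ J) →
      ‖∑ y ∈ Fintype.piFinset (fun _ : Fin r => Finset.Icc (-(2 ^ (J + 1) : ℤ)) (2 ^ (J + 1))),
        (∏ i, (pj J (x i) (y i) : ℂ)) *
          ((et P (2 ^ J) (ν - y ᵥ* B) : ℂ) * eu (t * D.Q (ν - y ᵥ* B)))‖ ≤
      C * ∏ i, (WW (2 ^ x i) c t ^ ((1 : ℝ) / 2) / 2 ^ x i) := by
  obtain ⟨cG, hcG1, hcG⟩ := hWEYY r (B * D.A * Bᵀ) (pd_G hX B hB)
  obtain ⟨Cψ, hCψ, hψ⟩ := hPSIM r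
  set cl : ℕ := ∑ p ∈ P, ∑ i, (B i ⬝ᵥ p.2).natAbs with hcl
  set K : ℝ := ∏ p ∈ P, (2 ^ r * ((1 + (cl : ℝ)) ^ r * Cψ)) with hK
  have hK0 : 0 ≤ K := Finset.prod_nonneg fun p _ => by positivity
  refine ⟨√cG * 2 ^ r * (2 ^ r * (2 ^ r * K)) * 5 ^ r, 4 * cG, by positivity, by omega, ?_⟩
  intro J x t ν hx
  set z : Fin r → ℤ := fun i => -(2 ^ (x i + 1)) with hz
  set n : Fin r → ℕ := fun i => 4 * 2 ^ x i with hn
  set R : Fin r → ℝ := fun i => 2 ^ x i with hRdef
  have hR : ∀ i, 0 < R i := fun i => by positivity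
  have hW0 : ∀ (i : Fin r) (c : ℕ), 0 ≤ WW (2 ^ x i) c t := fun i c =>
    le_trans (by positivity) (hWWF.ge (2 ^ x i) c t)
  have hW0' : ∀ (i : Fin r) (c : ℕ), 0 ≤ WW (4 * 2 ^ x i) c t := fun i c =>
    le_trans (by positivity) (hWWF.ge (4 * 2 ^ x i) c t)
  -- the weights
  have w1 := hWCLY.coord r z n R (fun i => 2 / 2 ^ x i) (fun i y => (pj J (x i) y : ℂ)) hR
    (fun i => by positivity)
    (fun i y => by
      rw [Complex.norm_real, Real.norm_eq_abs]
      refine ((hFEJA.2 J (x i)).1 y).trans ?_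
      gcongr
      norm_num)
    (fun i y => by
      rw [← Complex.ofReal_sub, Complex.norm_real, Real.norm_eq_abs]
      refine ((hFEJA.2 J (x i)).2.1 y).trans (le_of_eq ?_)
      rw [hRdef]
      field_simp)
  have w2 := prod_wcly hWCLY z n R hR P (fun _ => (1 + (cl : ℝ)) ^ r * Cψ)
    (fun p y => ((psm (2 ^ J) r (p.2 ⬝ᵥ ν + ∑ i, (-(B i ⬝ᵥ p.2)) * y i) : ℝ) : ℂ))
    (fun p _ => by positivity)
    (fun p hp => by
      refine hWCLY.lin r cl z n R ((2 ^ J : ℕ) : ℝ) Cψ (fun y => ((psm (2 ^ J) r y : ℝ) : ℂ))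
        (fun i => -(B i ⬝ᵥ p.2)) (p.2 ⬝ᵥ ν) hR ?_ hCψ ?_ ?_
      · intro i
        rw [hRdef]
        push_cast
        exact pow_le_pow_right₀ (by norm_num) (hx i)
      · intro i
        rw [abs_neg, hcl]
        have h1 : (B i ⬝ᵥ p.2).natAbs ≤ ∑ p ∈ P, ∑ i, (B i ⬝ᵥ p.2).natAbs :=
          (Finset.single_le_sum (f := fun i => (B i ⬝ᵥ p.2).natAbs) (fun _ _ => Nat.zero_le _)
            (Finset.mem_univ i)).trans
            (Finset.single_le_sum (f := fun p : (Fin r → ℤ) × (Fin r → ℤ) =>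
              ∑ i, (B i ⬝ᵥ p.2).natAbs) (fun _ _ => Nat.zero_le _) hp)
        rw [Int.abs_eq_natAbs]
        exact_mod_cast h1
      · exact (hψ (2 ^ J) Nat.one_le_two_pow).2.2.2.2)
  have hL1 : 0 ≤ ∏ i : Fin r, (2 : ℝ) / 2 ^ x i := Finset.prod_nonneg fun i _ => by positivity
  have w := hWCLY.mul r z n R _ _ _ _ hR hL1 hK0 w1 w2
  -- the exponential sums
  set f : (Fin r → ℤ) → ℂ := fun y => eu (t * D.Q (ν - y ᵥ* B)) with hf
  set B' : ℝ := √cG * ∏ i, (2 * WW (2 ^ x i) (4 * cG) t ^ ((1 : ℝ) / 2)) with hB'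
  have hB'0 : 0 ≤ B' := mul_nonneg (Real.sqrt_nonneg _)
    (Finset.prod_nonneg fun i _ => mul_nonneg (by norm_num) (Real.rpow_nonneg (hW0 i _) _))
  have hsum : ∀ m : Fin r → ℕ, (∀ i, m i ≤ n i) → ‖∑ y ∈ bxn z m, f y‖ ≤ B' := by
    intro m hm
    have h1 := hcG (fun i => 4 * 2 ^ x i) z m t (fun y => t * D.Q (ν - y ᵥ* B))
      (fun h => t * ((D.Q (-(h ᵥ* B)) - ν ⬝ᵥ (D.A *ᵥ (h ᵥ* B)) : ℤ) : ℝ))
      (fun i => Nat.one_le_iff_ne_zero.2 (by positivity)) hm ?_
    · refine (sq_le_sq₀ (norm_nonneg _) hB'0).1 (h1.trans ?_)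
      rw [hB', mul_pow, Real.sq_sqrt (by positivity), ← Finset.prod_pow]
      refine mul_le_mul_of_nonneg_left ?_ (by positivity)
      refine Finset.prod_le_prod (fun i _ => hW0' i _) fun i _ => ?_
      rw [mul_pow, ← Real.sqrt_eq_rpow, Real.sq_sqrt (hW0 i _)]
      have h2 := hWWF.scale 4 (2 ^ x i) cG t (by norm_num)
      push_cast at h2 ⊢
      linarith
    · intro y h
      have e : D.Q (ν - (y + h) ᵥ* B) = D.Q (ν - y ᵥ* B) +
          (D.Q (-(h ᵥ* B)) - ν ⬝ᵥ (D.A *ᵥ (h ᵥ* B))) + y ⬝ᵥ ((B * D.A * Bᵀ) *ᵥ h) := by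
        have h2 := hX.w.qf.polar (ν - y ᵥ* B) (-(h ᵥ* B))
        have h3 : ν - y ᵥ* B + -(h ᵥ* B) = ν - (y + h) ᵥ* B := by
          rw [Matrix.add_vecMul]
          abel
        rw [h3, Matrix.mulVec_neg, dotProduct_neg, sub_dotProduct] at h2
        rw [h2, form_eq]
        ring
      rw [e]
      push_cast
      ring
  have key := hABEY r z n R _ B' f _ hR (by positivity) hB'0 hsum w
  have hcongr : ∑ y ∈ Fintype.piFinset
      (fun _ : Fin r => Finset.Icc (-(2 ^ (J + 1) : ℤ)) (2 ^ (J + 1))),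
        (∏ i, (pj J (x i) (y i) : ℂ)) *
          ((et P (2 ^ J) (ν - y ᵥ* B) : ℂ) * eu (t * D.Q (ν - y ᵥ* B))) =
      ∑ y ∈ bxn z n, f y * ((∏ i, (pj J (x i) (y i) : ℂ)) *
        ∏ p ∈ P, ((psm (2 ^ J) r (p.2 ⬝ᵥ ν + ∑ i, (-(B i ⬝ᵥ p.2)) * y i) : ℝ) : ℂ)) := by
    symm
    have hsub : bxn z n ⊆ Fintype.piFinset
        (fun _ : Fin r => Finset.Icc (-(2 ^ (J + 1) : ℤ)) (2 ^ (J + 1))) := by
      intro y hy
      rw [bxn, Fintype.mem_piFinset] at hy
      rw [Fintype.mem_piFinset]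
      intro i
      have h1 := Finset.mem_Ico.1 (hy i)
      simp only [hz, hn] at h1
      have h2 : (2 : ℤ) ^ (x i + 1) ≤ 2 ^ (J + 1) :=
        pow_le_pow_right₀ (by norm_num) (by have := hx i; omega)
      have h3 : (((4 * 2 ^ x i : ℕ) : ℤ)) = 2 * 2 ^ (x i + 1) := by
        push_cast
        ring
      rw [h3] at h1
      rw [Finset.mem_Icc]
      constructor <;> linarith [h1.1, h1.2]
    rw [← Finset.sum_subset hsub]
    · refine Finset.sum_congr rfl fun y _ => ?_
      have h1 : ∀ p ∈ P, p.2 ⬝ᵥ ν + ∑ i, (-(B i ⬝ᵥ p.2)) * y i = p.2 ⬝ᵥ (ν - y ᵥ* B) := by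
        intro p _
        rw [dotProduct_sub, dotProduct_comm p.2 (y ᵥ* B), ← Matrix.dotProduct_mulVec,
          sub_eq_add_neg]
        congr 1
        simp only [dotProduct, Matrix.mulVec, ← Finset.sum_neg_distrib]
        refine Finset.sum_congr rfl fun i _ => ?_
        simp only [Finset.sum_neg_distrib]
        ring
      have h2 : (et P (2 ^ J) (ν - y ᵥ* B) : ℂ) =
          ∏ p ∈ P, ((psm (2 ^ J) r (p.2 ⬝ᵥ ν + ∑ i, (-(B i ⬝ᵥ p.2)) * y i) : ℝ) : ℂ) := by
        rw [et, Complex.ofReal_prod]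
        refine Finset.prod_congr rfl fun p hp => ?_
        rw [h1 p hp]
      rw [h2, hf]
      ring
    · intro y _ hy
      rw [bxn, Fintype.mem_piFinset] at hy
      push Not at hy
      obtain ⟨i, hi⟩ := hy
      have h3 : (((4 * 2 ^ x i : ℕ) : ℤ)) = 2 * 2 ^ (x i + 1) := by
        push_cast
        ring
      rw [Finset.mem_Ico, not_and_or] at hi
      simp only [hz, hn, h3] at hi
      have h4 : (2 : ℤ) ^ (x i + 1) ≤ |y i| := by
        rcases hi with hi | hi
        · have := neg_abs_le (y i)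
          linarith
        · have := le_abs_self (y i)
          linarith
      have h5 : pj J (x i) (y i) = 0 := (hFEJA.2 J (x i)).2.2.1 (y i) h4
      rw [Finset.prod_eq_zero (Finset.mem_univ i) (by rw [h5, Complex.ofReal_zero]), zero_mul]
  rw [hcongr]
  refine key.trans (le_of_eq ?_)
  have h5 : ∏ i : Fin r, (1 + (n i : ℝ) / R i) = 5 ^ r := by
    have : ∀ i : Fin r, (1 + (n i : ℝ) / R i) = 5 := by
      intro i
      simp only [hn, hRdef]
      push_cast
      field_simp
      norm_num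
    simp only [this]
    rw [Finset.prod_const, Finset.card_univ, Fintype.card_fin]
  rw [h5, hB', Finset.prod_mul_distrib, Finset.prod_div_distrib, Finset.prod_div_distrib,
    Finset.prod_const, Finset.card_univ, Fintype.card_fin]
  ring

end NBDY

open NBDY in
theorem t_NBDY : M_NBDY := by
  intro hWWF hWEYY hABEY hWCLY hPSIM hFEJA r D P B h hX hT hE
  classical
  have hin : ∀ b : Fin r → {p // p ∈ P}, ∃ (C : ℝ) (c : ℕ), 0 ≤ C ∧ 1 ≤ c ∧
      ((Matrix.of fun i => (b i).1.1).det ≠ 0 →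
      ∀ (J : ℕ) (x : Fin r → ℕ) (t : ℝ) (ν : Fin r → ℤ), (∀ i, x i ≤ J) →
      ‖∑ y ∈ Fintype.piFinset (fun _ : Fin r => Finset.Icc (-(2 ^ (J + 1) : ℤ)) (2 ^ (J + 1))),
        (∏ i, (pj J (x i) (y i) : ℂ)) *
          ((et P (2 ^ J) (ν - y ᵥ* (Matrix.of fun i => (b i).1.1)) : ℂ) *
            eu (t * D.Q (ν - y ᵥ* (Matrix.of fun i => (b i).1.1))))‖ ≤
      C * ∏ i, (WW (2 ^ x i) c t ^ ((1 : ℝ) / 2) / 2 ^ x i)) := by
    intro b
    by_cases hb : (Matrix.of fun i => (b i).1.1).det ≠ 0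
    · obtain ⟨C, c, hC, hc, h1⟩ := inner hWWF hWEYY hABEY hWCLY hPSIM hFEJA hX P _ hb
      exact ⟨C, c, hC, hc, fun _ => h1⟩
    · exact ⟨0, 1, le_rfl, le_rfl, fun h1 => absurd h1 hb⟩
  choose Cb cb hCb hcb hinb using hin
  set C : ℝ := ∑ b, Cb b with hC
  set c : ℕ := 1 + ∑ b, cb b with hc
  have hC0 : 0 ≤ C := Finset.sum_nonneg fun b _ => hCb b
  refine ⟨2 ^ Fintype.card {p // p ∈ P} * C, c, by positivity, by omega, ?_⟩
  intro J x t ν b hdet
  have hbinj : Function.Injective b := by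
    intro i j hij
    by_contra hne
    refine hdet (Matrix.det_zero_of_row_eq hne ?_)
    funext k
    simp only [Matrix.of_apply, hij]
  have hbd : ∀ i : Fin r, 0 ≤ WW (2 ^ (x (b i)).val) c t := fun i =>
    le_trans (by positivity) (hWWF.ge _ c t)
  set M : ℝ := C * ∏ i, (WW (2 ^ (x (b i)).val) c t ^ ((1 : ℝ) / 2) / 2 ^ (x (b i)).val) with hM
  have hM0 : 0 ≤ M := mul_nonneg hC0 (Finset.prod_nonneg fun i _ =>
    div_nonneg (Real.rpow_nonneg (hbd i) _) (by positivity))
  have hnk : ∀ μ : Fin r → ℤ, ‖nk D P J x t μ‖ ≤ 2 ^ Fintype.card {p // p ∈ P} * M := by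
    intro μ
    have h1 := split b hbinj (fun _ => Finset.Icc (-(2 ^ (J + 1) : ℤ)) (2 ^ (J + 1)))
      (fun p z => pj J (x p).val z)
      (fun k => (et P (2 ^ J) (μ - rs P k) : ℂ) * eu (t * D.Q (μ - rs P k))) M hM0 ?_ ?_
    · refine le_trans (le_of_eq ?_) h1
      rw [nk, kb]
      congr 1
      refine Finset.sum_congr rfl fun k _ => ?_
      ring
    · intro k
      set s : Fin r → ℤ := ∑ p, if p ∈ Set.range b then 0 else k p • p.1.1 with hs
      have h2 : ∀ y : Fin r → ℤ, μ - rs P (Function.extend b y k) =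
          (μ - s) - y ᵥ* (Matrix.of fun i => (b i).1.1) := by
        intro y
        have h3 : rs P (Function.extend b y k) =
            s + y ᵥ* (Matrix.of fun i => (b i).1.1) := by
          rw [rs, sum_split b hbinj, hs]
          congr 1
          · refine Finset.sum_congr rfl fun p _ => ?_
            by_cases hp : p ∈ Set.range b
            · rw [if_pos hp, if_pos hp]
            · rw [if_neg hp, if_neg hp, Function.extend_apply' _ _ _ (fun h => hp h)]
          · funext j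
            rw [Finset.sum_apply, Matrix.vecMul, dotProduct]
            refine Finset.sum_congr rfl fun i _ => ?_
            rw [hbinj.extend_apply]
            simp
        rw [h3]
        abel
      simp only [h2]
      refine (hinb b hdet J (fun i => (x (b i)).val) t (μ - s)
        (fun i => Nat.lt_succ_iff.1 (x (b i)).isLt)).trans ?_
      rw [hM]
      refine mul_le_mul ?_ ?_ (Finset.prod_nonneg fun i _ =>
        div_nonneg (Real.rpow_nonneg (le_trans (by positivity) (hWWF.ge _ _ t)) _)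
          (by positivity)) hC0
      · exact Finset.single_le_sum (f := fun b => Cb b) (fun b _ => hCb b) (Finset.mem_univ b)
      · refine Finset.prod_le_prod (fun i _ =>
          div_nonneg (Real.rpow_nonneg (le_trans (by positivity) (hWWF.ge _ _ t)) _)
            (by positivity)) fun i _ => ?_
        refine div_le_div_of_nonneg_right ?_ (by positivity)
        refine Real.rpow_le_rpow (le_trans (by positivity) (hWWF.ge _ _ t)) ?_ (by norm_num)
        refine hWWF.mono _ _ _ _ t le_rfl ?_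
        have := Finset.single_le_sum (f := fun b => cb b) (fun b _ => Nat.zero_le _)
          (Finset.mem_univ b)
        omega
    · intro p
      have h2 := (hFEJA.2 J (x p).val).2.2.2 (2 ^ (J + 1))
      push_cast at h2
      exact h2
  rw [nm, norm_mul]
  have hcard : ‖(1 / (D.W.card : ℂ))‖ = 1 / (D.W.card : ℝ) := by
    rw [norm_div, norm_one, Complex.norm_natCast]
  have hcpos : (0 : ℝ) < D.W.card := by
    have : 0 < D.W.card := Finset.card_pos.2 ⟨1, hX.w.W_one⟩
    exact_mod_cast this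
  rw [hcard]
  calc 1 / (D.W.card : ℝ) * ‖∑ w ∈ D.W, nk D P J x t (w *ᵥ ν)‖
      ≤ 1 / (D.W.card : ℝ) * ∑ w ∈ D.W, 2 ^ Fintype.card {p // p ∈ P} * M := by
        refine mul_le_mul_of_nonneg_left ?_ (by positivity)
        exact (norm_sum_le _ _).trans (Finset.sum_le_sum fun w _ => hnk _)
    _ = 2 ^ Fintype.card {p // p ∈ P} * M := by
        rw [Finset.sum_const, nsmul_eq_mul]
        field_simp
    _ = _ := by
        rw [hM]
        ring

end

end STZ
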