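import Pool.Agent.STZ.StmtsV

/-!
# Module NSUM: the multipliers
-/

namespace STZ

open Matrix

namespace NSUM

variable {r : ℕ} {D : RD r} {P : RT r}

theorem zero_mem_kb (J : ℕ) : (0 : {p // p ∈ P} → ℤ) ∈ kb P J := by
  rw [kb, Fintype.mem_piFinset]
  intro p
  rw [Finset.mem_Icc]
  have : (0 : ℤ) ≤ 2 ^ (J + 1) := by positivity
  constructor
  · simp
  · simp

theorem rs_zero : rs P (0 : {p // p ∈ P} → ℤ) = 0 := by
  simp [rs]

theorem sum_nk (hF : S_FEJA) (J : ℕ) (t : ℝ) (ν : Fin r → ℤ) :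
    ∑ x, nk D P J x t ν = (et P (2 ^ J) ν : ℂ) * eu (t * D.Q ν) := by
  have h1 : ∀ k : {p // p ∈ P} → ℤ, ∑ x : {p // p ∈ P} → Fin (J + 1),
      (∏ p, (pj J (x p).val (k p) : ℂ)) = if k = 0 then 1 else 0 := by
    intro k
    have h2 := Finset.prod_univ_sum (fun _ : {p // p ∈ P} => (Finset.univ : Finset (Fin (J + 1))))
      (fun p i => (pj J i.val (k p) : ℂ))
    rw [Fintype.piFinset_univ] at h2
    rw [← h2]
    have h3 : ∀ p : {p // p ∈ P}, ∑ i : Fin (J + 1), (pj J i.val (k p) : ℂ) =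
        if k p = 0 then 1 else 0 := by
      intro p
      rw [Fin.sum_univ_eq_sum_range (fun i => (pj J i (k p) : ℂ)) (J + 1)]
      have h4 := hF.1 J (k p)
      have h5 := congrArg (fun y : ℝ => (y : ℂ)) h4
      push_cast at h5
      rw [h5]
      split_ifs <;> simp
    rw [Finset.prod_congr rfl fun p _ => h3 p]
    split_ifs with h
    · subst h
      simp
    · have h6 : ∃ p, k p ≠ 0 := by
        by_contra hcon
        push Not at hcon
        exact h (funext hcon)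
      obtain ⟨p, hp⟩ := h6
      exact Finset.prod_eq_zero (Finset.mem_univ p) (if_neg hp)
  simp only [nk]
  rw [Finset.sum_comm]
  have h7 : ∀ k ∈ kb P J, ∑ x : {p // p ∈ P} → Fin (J + 1),
      (∏ p, (pj J (x p).val (k p) : ℂ)) * (et P (2 ^ J) (ν - rs P k) : ℂ) *
        eu (t * D.Q (ν - rs P k)) =
      if k = 0 then (et P (2 ^ J) ν : ℂ) * eu (t * D.Q ν) else 0 := by
    intro k _
    rw [← Finset.sum_mul, ← Finset.sum_mul, h1 k]
    split_ifs with h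
    · subst h
      rw [rs_zero, sub_zero, one_mul]
    · rw [zero_mul, zero_mul]
  rw [Finset.sum_congr rfl h7, Finset.sum_ite_eq', if_pos (zero_mem_kb J)]

theorem card_ne (h : RDX D) : (D.W.card : ℂ) ≠ 0 := by
  have h1 : 0 < D.W.card := Finset.card_pos.2 ⟨1, h.w.W_one⟩
  exact_mod_cast h1.ne'

theorem sum_nm (h : RDX D) (hE : ∀ X : ℕ, 1 ≤ X → ETF D P X) (hF : S_FEJA) (J : ℕ) (t : ℝ)
    (ν : Fin r → ℤ) : ∑ x, nm D P J x t ν = (et P (2 ^ J) ν : ℂ) * eu (t * D.Q ν) := by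
  simp only [nm]
  rw [← Finset.mul_sum, Finset.sum_comm]
  have h1 : ∀ w ∈ D.W, ∑ x, nk D P J x t (w *ᵥ ν) =
      (et P (2 ^ J) ν : ℂ) * eu (t * D.Q ν) := by
    intro w hw
    rw [sum_nk hF, (hE (2 ^ J) Nat.one_le_two_pow).inv w hw, h.w.Q_W w hw]
  rw [Finset.sum_congr rfl h1, Finset.sum_const, nsmul_eq_mul, ← mul_assoc,
    one_div_mul_cancel (card_ne h), one_mul]

theorem inv_nm (h : RDX D) {w : Matrix (Fin r) (Fin r) ℤ} (hw : w ∈ D.W) (J : ℕ)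
    (x : {p // p ∈ P} → Fin (J + 1)) (t : ℝ) (ν : Fin r → ℤ) :
    nm D P J x t (w *ᵥ ν) = nm D P J x t ν := by
  simp only [nm]
  congr 1
  obtain ⟨w', hw', hww⟩ := h.w.W_inv w hw
  have hww' : w * w' = 1 := mul_eq_one_comm.1 hww
  refine Finset.sum_nbij' (fun u => u * w) (fun u => u * w') (fun u hu => h.w.W_mul u hu w hw)
    (fun u hu => h.w.W_mul u hu w' hw') (fun u _ => ?_) (fun u _ => ?_) (fun u _ => ?_)
  · rw [Matrix.mul_assoc, hww', Matrix.mul_one]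
  · rw [Matrix.mul_assoc, hww, Matrix.mul_one]
  · rw [Matrix.mulVec_mulVec]

/-- the size of the roots -/
def A (P : RT r) : ℕ := ∑ p : {p // p ∈ P}, ∑ i, (p.1.1 i).natAbs

theorem rs_le {J : ℕ} {k : {p // p ∈ P} → ℤ} (hk : k ∈ kb P J) (i : Fin r) :
    |rs P k i| ≤ (A P : ℤ) * 2 ^ (J + 1) := by
  have h1 : rs P k i = ∑ p : {p // p ∈ P}, k p * p.1.1 i := by
    simp [rs, Finset.sum_apply]
  rw [h1, A]
  push_cast
  rw [Finset.sum_mul]
  refine (Finset.abs_sum_le_sum_abs _ _).trans (Finset.sum_le_sum fun p _ => ?_)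
  rw [abs_mul, mul_comm]
  have h2 : |k p| ≤ 2 ^ (J + 1) := by
    have := Fintype.mem_piFinset.1 hk p
    rw [Finset.mem_Icc] at this
    exact abs_le.2 this
  refine mul_le_mul ?_ h2 (abs_nonneg _) (Finset.sum_nonneg fun _ _ => abs_nonneg _)
  exact Finset.single_le_sum (f := fun j => |p.1.1 j|) (fun _ _ => abs_nonneg _)
    (Finset.mem_univ i)

theorem supp_nk (hE : ∀ X : ℕ, 1 ≤ X → ETF D P X) {J : ℕ}
    {x : {p // p ∈ P} → Fin (J + 1)} {t : ℝ} {ν : Fin r → ℤ} (hn : nk D P J x t ν ≠ 0)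
    (i : Fin r) : |ν i| ≤ ((r + 1 + 2 * A P : ℕ) : ℤ) * 2 ^ J := by
  obtain ⟨k, hk, hk'⟩ := Finset.exists_ne_zero_of_sum_ne_zero hn
  have h1 : et P (2 ^ J) (ν - rs P k) ≠ 0 := by
    intro h0
    rw [h0] at hk'
    simp at hk'
  have h2 : |(ν - rs P k) i| ≤ ((r : ℤ) + 1) * (2 ^ J : ℕ) := by
    by_contra hcon
    push Not at hcon
    exact h1 ((hE (2 ^ J) Nat.one_le_two_pow).supp _ i hcon)
  have h3 := rs_le hk i
  have h4 : |ν i| ≤ |(ν - rs P k) i| + |rs P k i| := by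
    have h5 : ν i = (ν - rs P k) i + rs P k i := by
      rw [Pi.sub_apply]
      ring
    calc |ν i| = |(ν - rs P k) i + rs P k i| := by rw [← h5]
      _ ≤ _ := abs_add_le _ _
  push_cast at h2 ⊢
  rw [pow_succ] at h3
  linarith

/-- the size of the elements of the group -/
def A' (D : RD r) : ℕ := ∑ w ∈ D.W, ∑ i, ∑ j, (w i j).natAbs

theorem supp_nm (h : RDX D) (hE : ∀ X : ℕ, 1 ≤ X → ETF D P X) {J : ℕ}
    {x : {p // p ∈ P} → Fin (J + 1)} {t : ℝ} {ν : Fin r → ℤ} (hn : nm D P J x t ν ≠ 0)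
    (i : Fin r) : |ν i| ≤ (A' D : ℤ) * (((r + 1 + 2 * A P : ℕ) : ℤ) * 2 ^ J) := by
  have h0 : ∑ w ∈ D.W, nk D P J x t (w *ᵥ ν) ≠ 0 := by
    intro h0
    apply hn
    rw [nm, h0, mul_zero]
  obtain ⟨w, hw, hw0⟩ := Finset.exists_ne_zero_of_sum_ne_zero h0
  obtain ⟨w', hw', hww⟩ := h.w.W_inv w hw
  have h1 : ν = w' *ᵥ (w *ᵥ ν) := by
    rw [Matrix.mulVec_mulVec, hww, Matrix.one_mulVec]
  set K : ℤ := ((r + 1 + 2 * A P : ℕ) : ℤ) * 2 ^ J with hK
  have hK0 : 0 ≤ K := by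
    rw [hK]
    positivity
  have h2 : ∀ j, |(w *ᵥ ν) j| ≤ K := fun j => supp_nk hE hw0 j
  have h3 : |ν i| ≤ ∑ j, |w' i j| * K := by
    calc |ν i| = |∑ j, w' i j * (w *ᵥ ν) j| := by
          conv_lhs => rw [h1]
          rfl
      _ ≤ ∑ j, |w' i j * (w *ᵥ ν) j| := Finset.abs_sum_le_sum_abs _ _
      _ ≤ ∑ j, |w' i j| * K := by
          refine Finset.sum_le_sum fun j _ => ?_
          rw [abs_mul]
          exact mul_le_mul_of_nonneg_left (h2 j) (abs_nonneg _)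
  refine h3.trans ?_
  rw [← Finset.sum_mul]
  refine mul_le_mul_of_nonneg_right ?_ hK0
  rw [A']
  push_cast
  have h4 : ∑ j, |w' i j| ≤ ∑ i, ∑ j, |w' i j| :=
    Finset.single_le_sum (f := fun i => ∑ j, |w' i j|)
      (fun _ _ => Finset.sum_nonneg fun _ _ => abs_nonneg _) (Finset.mem_univ i)
  exact h4.trans (Finset.single_le_sum (f := fun w : Matrix (Fin r) (Fin r) ℤ =>
    ∑ i, ∑ j, |w i j|) (fun _ _ => Finset.sum_nonneg fun _ _ =>
      Finset.sum_nonneg fun _ _ => abs_nonneg _) hw')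

end NSUM

open NSUM in
/-- NSUM -/
theorem t_NSUM : M_NSUM := by
  intro hF hE' r D P B h hx hr he
  have hE : ∀ X : ℕ, 1 ≤ X → ETF D P X := hE' r D P B h hx hr he
  refine ⟨fun J t ν => sum_nm hx hE hF J t ν, fun w hw J x t ν => inv_nm hx hw J x t ν,
    ⟨(1 + A' D) * (r + 1 + 2 * A P), fun J x t ν i hi => ⟨?_, ?_⟩⟩⟩
  · by_contra hn
    have h1 := supp_nk hE hn i
    have h2 : (0 : ℤ) ≤ (A' D : ℤ) * (((r + 1 + 2 * A P : ℕ) : ℤ) * 2 ^ J) := by positivity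
    have h3 : (((1 + A' D) * (r + 1 + 2 * A P) : ℕ) : ℤ) * 2 ^ J =
        ((r + 1 + 2 * A P : ℕ) : ℤ) * 2 ^ J +
          (A' D : ℤ) * (((r + 1 + 2 * A P : ℕ) : ℤ) * 2 ^ J) := by
      push_cast
      ring
    rw [h3] at hi
    linarith
  · by_contra hn
    have h1 := supp_nm hx hE hn i
    have h2 : (0 : ℤ) ≤ ((r + 1 + 2 * A P : ℕ) : ℤ) * 2 ^ J := by positivity
    have h3 : (((1 + A' D) * (r + 1 + 2 * A P) : ℕ) : ℤ) * 2 ^ J =
        ((r + 1 + 2 * A P : ℕ) : ℤ) * 2 ^ J +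
          (A' D : ℤ) * (((r + 1 + 2 * A P : ℕ) : ℤ) * 2 ^ J) := by
      push_cast
      ring
    rw [h3] at hi
    linarith

end STZ
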