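import Pool.Agent.STZ.StmtsS

/-!
# Assembly of the upper bound
-/

namespace STZ

open MeasureTheory Matrix

open scoped ComplexConjugate Matrix Real

noncomputable section

namespace FIN

/-- the phase -/
def Q3 (x : Fin 2 → ℤ) : ℤ := -(x 0 ^ 2 + x 0 * x 1 + x 1 ^ 2)

theorem qf : QF Q3 !![-2, -1; -1, -2] where
  polar x y := by
    simp only [Q3, Pi.add_apply, Matrix.mulVec, dotProduct, Fin.sum_univ_two, Matrix.of_apply,
      Matrix.cons_val', Matrix.cons_val_zero, Matrix.cons_val_one, Matrix.cons_val_fin_one]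
    ring
  det := by
    rw [Matrix.det_fin_two_of]
    norm_num

theorem eu_add (a b : ℝ) : eu (a + b) = eu a * eu b := by
  unfold eu
  rw [← Complex.exp_add]
  congr 1
  push_cast
  ring

theorem eu_int (m : ℤ) : eu m = 1 := by
  unfold eu
  rw [Complex.exp_eq_one_iff]
  exact ⟨m, by push_cast; ring⟩

theorem eu_cont : Continuous eu := by
  unfold eu
  fun_prop

/-- the eigenvalue -/
def ka (a : ℕ × ℕ) : ℝ := (((a.1 : ℝ) + 1) ^ 2 + (a.1 + 1) * (a.2 + 1) + (a.2 + 1) ^ 2 - 3) / 9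

theorem phase (a : ℕ × ℕ) (t : ℝ) :
    Complex.exp (-(Complex.I * ka a * t)) =
      Complex.exp (Complex.I * t / 3) * eu (t / (18 * π) * Q3 (w3 a)) := by
  unfold eu
  rw [← Complex.exp_add]
  congr 1
  have hpi : (π : ℂ) ≠ 0 := by exact_mod_cast Real.pi_ne_zero
  simp only [Q3, w3, ka, Matrix.cons_val_zero, Matrix.cons_val_one]
  push_cast
  field_simp
  ring

theorem sz_w3 (a : ℕ × ℕ) : sz (w3 a) = 1 + ((a.1 : ℝ) + 1) + (a.2 + 1) := by
  simp only [sz, w3, Fin.sum_univ_two, Matrix.cons_val_zero, Matrix.cons_val_one]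
  push_cast
  rw [abs_of_nonneg (by positivity), abs_of_nonneg (by positivity)]
  ring

theorem sz_le (a : ℕ × ℕ) : sz (w3 a) ^ 2 ≤ 24 * (1 + ka a) := by
  rw [sz_w3]
  unfold ka
  have h1 : (0 : ℝ) ≤ a.1 := by positivity
  have h2 : (0 : ℝ) ≤ a.2 := by positivity
  nlinarith [mul_nonneg h1 h2, sq_nonneg ((a.1 : ℝ) - a.2)]

theorem jc_uw {M : Type} [TopologicalSpace M] {ι : Type} {r : ℕ} (w : ι → Fin r → ℤ)
    (Q : (Fin r → ℤ) → ℤ) (F : Finset ι) (u : ι → M → ℂ) (hu : ∀ a ∈ F, Continuous (u a)) :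
    JC (uw w Q F u) := by
  unfold JC uw
  refine continuous_finsetSum _ fun a ha => ?_
  exact (eu_cont.comp (continuous_fst.mul continuous_const)).mul ((hu a ha).comp continuous_snd)

theorem per_uw {M : Type} {ι : Type} {r : ℕ} (w : ι → Fin r → ℤ)
    (Q : (Fin r → ℤ) → ℤ) (F : Finset ι) (u : ι → M → ℂ) (t : ℝ) :
    uw w Q F u (t + 1) = uw w Q F u t := by
  funext x
  unfold uw
  refine Finset.sum_congr rfl fun a _ => ?_
  rw [add_mul, one_mul, eu_add, eu_int, mul_one]

/-- the integral over any interval is bounded by that over a period -/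
theorem time_le (Φ : ℝ → ℝ) (hc : Continuous Φ) (h0 : ∀ t, 0 ≤ Φ t) (hp : ∀ t, Φ (t + 1) = Φ t)
    (a b : ℝ) (hab : a ≤ b) (c : ℝ) (hc0 : 0 < c) :
    ∫ t in a..b, Φ (t / c) ≤ c * (⌈(b - a) / c⌉₊ * ∫ t in (0 : ℝ)..1, Φ t) := by
  have hI : ∀ x y, IntervalIntegrable Φ volume x y := fun x y => hc.intervalIntegrable x y
  have hper : Function.Periodic Φ 1 := hp
  rw [intervalIntegral.integral_comp_div (fun t => Φ t) hc0.ne', smul_eq_mul]
  refine mul_le_mul_of_nonneg_left ?_ hc0.le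
  set n := ⌈(b - a) / c⌉₊
  have h1 : b / c ≤ a / c + n := by
    have : (b - a) / c ≤ n := Nat.le_ceil _
    rw [sub_div] at this
    linarith
  have h2 : a / c ≤ b / c := by gcongr
  have h3 : ∫ t in (a / c)..(b / c), Φ t ≤ ∫ t in (a / c)..(a / c + n), Φ t := by
    rw [← intervalIntegral.integral_add_adjacent_intervals (hI (a / c) (b / c))
      (hI (b / c) (a / c + n))]
    have : 0 ≤ ∫ t in (b / c)..(a / c + n), Φ t :=
      intervalIntegral.integral_nonneg h1 fun t _ => h0 t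
    linarith
  have h4 : ∫ t in (a / c)..(a / c + n), Φ t = n * ∫ t in (0 : ℝ)..1, Φ t := by
    have := hper.intervalIntegral_add_zsmul_eq n (a / c) hI
    simp only [zsmul_eq_mul, mul_one, Int.cast_natCast] at this
    rw [this]
    rw [hper.intervalIntegral_add_eq (a / c) 0, zero_add]
  linarith

theorem pr_sum {M : Type} [TopologicalSpace M] [CompactSpace M] [T2Space M]
    [SecondCountableTopology M] [MeasurableSpace M] [BorelSpace M] (μ : Measure M)
    [IsProbabilityMeasure μ] {ι : Type} {K : ι → M → M → ℂ} (hK : Ker μ K) (c : ι) {m : ℕ}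
    (f : Fin m → M → ℂ) (hf : ∀ k, Continuous (f k)) (x : M) :
    Pr μ K {c} (fun g => ∑ k, f k g) x = ∑ k, Pr μ K {c} (f k) x := by
  simp only [Pr, Finset.sum_singleton]
  rw [← integral_finsetSum]
  · simp only [Finset.mul_sum]
  · intro l _
    refine Continuous.integrable_of_hasCompactSupport ?_ (HasCompactSupport.of_compactSpace _)
    refine Continuous.mul ?_ (hf l)
    exact (hK.cont c).comp (Continuous.prodMk continuous_const continuous_id)

end FIN

open FIN in
theorem t_FIN (hALL : S_ALL) (hNQ : S_NQ) (hKB : S_KB) (hHAAR : S_HAAR) (hSD3 : S_SD3)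
    (hEIG3 : S_EIG3) : MainUpper := by
  intro p hp μ hμ hl a b hab
  have := hμ
  have := hl
  obtain ⟨-, -, hopen⟩ := hHAAR (SU 3) μ
  have := hopen
  obtain ⟨C, hSD⟩ := hSD3 μ
  obtain ⟨D, hD0, hD⟩ := hALL (SU 3) μ (ℕ × ℕ) (KK c3) 2 6 w3 (Equiv.swap 0 1) C hSD Q3 _ qf le_rfl
    p hp
  have hN := hNQ (SU 3) μ
  have hK := hKB (SU 3) μ (ℕ × ℕ) (KK c3) hSD.ker
  have hp0 : 0 < p := by linarith
  set s : ℝ := 4 - 10 / p with hs
  have hs0 : 0 ≤ s := by
    have : 10 / p ≤ 10 / 4 := by gcongr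
    rw [hs]
    linarith
  have hsdef : dm 3 / 2 - (dm 3 + 2) / p = s := by
    unfold dm
    rw [hs]
    norm_num
  set n : ℕ := ⌈(b - a) / (18 * π)⌉₊
  refine ⟨18 * π * (n * (D ^ p * (24 ^ s) ^ (p / 2))), ?_⟩
  intro X hX m κ f hκ hf
  rw [hsdef]
  choose S hS1 hS2 using fun k => hEIG3 μ X hX (κ k) (f k) (hf k)
  have hfc : ∀ k, Continuous (f k) := fun k => (hf k).1.1.cont
  have hκa : ∀ k, ∀ c ∈ S k, κ k = ka c := fun k c hc => hS1 k c hc
  have hdisj : ∀ k l c, c ∈ S k → c ∈ S l → k = l := fun k l c h1 h2 =>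
    hκ ((hκa k c h1).trans (hκa l c h2).symm)
  classical
  set F : Finset (ℕ × ℕ) := Finset.univ.biUnion S with hF
  let ft : SU 3 → ℂ := fun g => ∑ k, f k g
  have hftc : Continuous ft := continuous_finsetSum _ fun k _ => hfc k
  let u : ℕ × ℕ → SU 3 → ℂ := fun c => Pr μ (KK c3) {c} ft
  have hu : ∀ k, ∀ c ∈ S k, u c = Pr μ (KK c3) {c} (f k) := by
    intro k c hc
    have h1 : ∀ l, l ≠ k → Pr μ (KK c3) {c} (f l) = 0 := by
      intro l hl
      rw [← hS2 l]
      refine hK.piece0 (S l) c (f l) (fun h => hl (hdisj l k c h hc)) (hfc l)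
    funext x
    have h2 : Pr μ (KK c3) {c} ft x = ∑ l, Pr μ (KK c3) {c} (f l) x :=
      pr_sum μ hSD.ker c f hfc x
    show Pr μ (KK c3) {c} ft x = _
    rw [h2, Finset.sum_eq_single k]
    · intro l _ hl
      rw [h1 l hl]
      rfl
    · intro h
      exact absurd (Finset.mem_univ k) h
  have hfs : ∀ k g, f k g = ∑ c ∈ S k, u c g := by
    intro k g
    conv_lhs => rw [← hS2 k]
    unfold Pr
    refine Finset.sum_congr rfl fun c hc => ?_
    rw [hu k c hc]
    simp only [Pr, Finset.sum_singleton]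
  have hmem : ∀ c ∈ F, Mem μ (KK c3 c) (u c) := fun c _ => hK.mem c ft hftc
  have hnsq : ∀ k, ∫ g, ‖f k g‖ ^ 2 ∂μ = ∑ c ∈ S k, nsq μ (u c) := by
    intro k
    have h1 := hK.pyth (S k) (f k) (hfc k)
    rw [hS2 k] at h1
    show nsq μ (f k) = _
    rw [h1]
    exact Finset.sum_congr rfl fun c hc => by rw [hu k c hc]
  have hpd : (↑(Finset.univ : Finset (Fin m)) : Set (Fin m)).PairwiseDisjoint S := by
    intro k _ l _ hkl
    show Disjoint (S k) (S l)
    rw [Finset.disjoint_left]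
    exact fun c h1 h2 => hkl (hdisj k l c h1 h2)
  have hnn : ∀ c, 0 ≤ nsq μ (u c) := fun c => integral_nonneg fun _ => by positivity
  -- the function in terms of `uw`
  have hnorm : ∀ (t : ℝ) (g : SU 3), ‖∑ k, Complex.exp (-(Complex.I * κ k * t)) * f k g‖ =
      ‖uw w3 Q3 F u (t / (18 * π)) g‖ := by
    intro t g
    have h1 : ∑ k, Complex.exp (-(Complex.I * κ k * t)) * f k g =
        Complex.exp (Complex.I * t / 3) * uw w3 Q3 F u (t / (18 * π)) g := by
      unfold uw
      rw [hF, Finset.sum_biUnion hpd, Finset.mul_sum]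
      refine Finset.sum_congr rfl fun k _ => ?_
      rw [hfs k g, Finset.mul_sum, Finset.mul_sum]
      refine Finset.sum_congr rfl fun c hc => ?_
      rw [hκa k c hc, phase, mul_assoc]
    have h2 : ‖Complex.exp (Complex.I * t / 3)‖ = 1 := by
      have : Complex.I * t / 3 = ((t / 3 : ℝ) : ℂ) * Complex.I := by
        push_cast
        ring
      rw [this, Complex.norm_exp_ofReal_mul_I]
    rw [h1, norm_mul, h2, one_mul]
  have hjc := jc_uw w3 Q3 F u fun c hc => (hmem c hc).1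
  have hPc := hN.cont p (uw w3 Q3 F u) hp0 hjc
  have hP0 : ∀ t, 0 ≤ ∫ x, ‖uw w3 Q3 F u t x‖ ^ p ∂μ := fun t =>
    integral_nonneg fun _ => by positivity
  simp only [hnorm]
  have hT := time_le (fun t => ∫ x, ‖uw w3 Q3 F u t x‖ ^ p ∂μ) hPc hP0
    (fun t => by simp only [per_uw]) a b hab (18 * π) (by positivity)
  refine hT.trans ?_
  rw [mul_assoc (18 * π), mul_assoc (n : ℝ)]
  refine mul_le_mul_of_nonneg_left ?_ (by positivity)
  refine mul_le_mul_of_nonneg_left ?_ (by positivity)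
  have hA : ∫ t in (0 : ℝ)..1, ∫ x, ‖uw w3 Q3 F u t x‖ ^ p ∂μ = nq μ p (uw w3 Q3 F u) ^ p := by
    unfold nq
    rw [← Real.rpow_mul, one_div, inv_mul_cancel₀ hp0.ne', Real.rpow_one]
    exact intervalIntegral.integral_nonneg zero_le_one fun t _ => hP0 t
  have hnq0 : 0 ≤ nq μ p (uw w3 Q3 F u) := by
    unfold nq
    refine Real.rpow_nonneg ?_ _
    exact intervalIntegral.integral_nonneg zero_le_one fun t _ => hP0 t
  rw [hA]
  have hsum : ∑ c ∈ F, sz (w3 c) ^ (((2 : ℕ) + (6 : ℝ)) - 2 * ((2 : ℕ) + 6 + 2) / p) * nsq μ (u c) ≤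
      24 ^ s * ∑ k, (1 + κ k) ^ s * ∫ g, ‖f k g‖ ^ 2 ∂μ := by
    rw [hF, Finset.sum_biUnion hpd, Finset.mul_sum]
    refine Finset.sum_le_sum fun k _ => ?_
    rw [hnsq k, Finset.mul_sum, Finset.mul_sum]
    refine Finset.sum_le_sum fun c hc => ?_
    rw [← mul_assoc]
    refine mul_le_mul_of_nonneg_right ?_ (hnn c)
    rw [hκa k c hc]
    have h1 : (((2 : ℕ) + (6 : ℝ)) - 2 * ((2 : ℕ) + 6 + 2) / p) = 2 * s := by
      rw [hs]
      push_cast
      ring
    have hszp : 0 ≤ sz (w3 c) := by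
      rw [sz_w3]
      positivity
    have hka : 0 ≤ 1 + ka c := by
      unfold ka
      have h1 : (0 : ℝ) ≤ c.1 := by positivity
      have h2 : (0 : ℝ) ≤ c.2 := by positivity
      have := mul_nonneg h1 h2
      nlinarith
    rw [h1, Real.rpow_mul hszp, ← Real.mul_rpow (by norm_num) hka]
    refine Real.rpow_le_rpow (by positivity) ?_ hs0
    have := sz_le c
    simpa using this
  have hfin := hD F u hmem
  have hB0 : 0 ≤ ∑ c ∈ F, sz (w3 c) ^ (((2 : ℕ) + (6 : ℝ)) - 2 * ((2 : ℕ) + 6 + 2) / p) *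
      nsq μ (u c) := by
    refine Finset.sum_nonneg fun c _ => mul_nonneg ?_ (hnn c)
    refine Real.rpow_nonneg ?_ _
    rw [sz_w3]
    positivity
  set B := ∑ c ∈ F, sz (w3 c) ^ (((2 : ℕ) + (6 : ℝ)) - 2 * ((2 : ℕ) + 6 + 2) / p) * nsq μ (u c)
    with hB
  calc nq μ p (uw w3 Q3 F u) ^ p ≤ (D * √B) ^ p := Real.rpow_le_rpow hnq0 hfin hp0.le
    _ = D ^ p * B ^ (p / 2) := by
        rw [Real.mul_rpow hD0 (Real.sqrt_nonneg _), Real.sqrt_eq_rpow, ← Real.rpow_mul hB0]
        congr 2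
        ring
    _ ≤ D ^ p * (24 ^ s * ∑ k, (1 + κ k) ^ s * ∫ g, ‖f k g‖ ^ 2 ∂μ) ^ (p / 2) := by
        refine mul_le_mul_of_nonneg_left ?_ (by positivity)
        exact Real.rpow_le_rpow hB0 hsum (by positivity)
    _ = _ := by
        rw [Real.mul_rpow (by positivity)]
        · ring
        · refine Finset.sum_nonneg fun k _ => ?_
          by_cases hk : (S k).Nonempty
          · refine mul_nonneg ?_ (integral_nonneg fun _ => by positivity)
            obtain ⟨c, hc⟩ := hk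
            rw [hκa k c hc]
            refine Real.rpow_nonneg ?_ _
            unfold ka
            have h1 : (0 : ℝ) ≤ c.1 := by positivity
            have h2 : (0 : ℝ) ≤ c.2 := by positivity
            have := mul_nonneg h1 h2
            nlinarith
          · rw [Finset.not_nonempty_iff_eq_empty] at hk
            have h0 := hnsq k
            rw [hk, Finset.sum_empty] at h0
            rw [h0, mul_zero]

end

end STZ
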