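import Pool.Agent.STZ.DefsH
import Pool.Agent.STZ.Base

/-!
# The Strichartz inequality for all data from the inequality for finite sums
-/

namespace STZ

open MeasureTheory Matrix Filter

open scoped ComplexConjugate Matrix Topology

noncomputable section

namespace INF

/-- Fatou's lemma for convergence in `L²` -/
theorem fatou {M : Type} [MeasurableSpace M] (μ : Measure M) (F : ℕ → M → ℂ) (u : M → ℂ) (p : ℝ)
    (hF : ∀ N, AEStronglyMeasurable (F N) μ) (hu : AEStronglyMeasurable u μ)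
    (h : Tendsto (fun N : ℕ => eLpNorm (fun g => u g - F N g) 2 μ) atTop (𝓝 0)) :
    ∫⁻ g, ‖u g‖ₑ ^ p ∂μ ≤ liminf (fun N : ℕ => ∫⁻ g, ‖F N g‖ₑ ^ p ∂μ) atTop := by
  by_contra hcon
  rw [not_le] at hcon
  obtain ⟨c, hc1, hc2⟩ := exists_between hcon
  have hfr := frequently_lt_of_liminf_lt (by isBoundedDefault) hc1
  obtain ⟨φ, hφ, hlt⟩ := extraction_of_frequently_atTop hfr
  have h2 : Tendsto (fun n : ℕ => eLpNorm (F (φ n) - u) 2 μ) atTop (𝓝 0) := by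
    refine (h.comp hφ.tendsto_atTop).congr fun n => ?_
    rw [eLpNorm_sub_comm]
    rfl
  have h3 : TendstoInMeasure μ (fun n => F (φ n)) atTop u :=
    tendstoInMeasure_of_tendsto_eLpNorm two_ne_zero (fun n => hF _) hu h2
  obtain ⟨ns, _, hae⟩ := h3.exists_seq_tendsto_ae
  have h4 : ∫⁻ g, ‖u g‖ₑ ^ p ∂μ =
      ∫⁻ g, liminf (fun i : ℕ => ‖F (φ (ns i)) g‖ₑ ^ p) atTop ∂μ := by
    refine lintegral_congr_ae ?_
    filter_upwards [hae] with g hg
    have h5 : Tendsto (fun i : ℕ => ‖F (φ (ns i)) g‖ₑ ^ p) atTop (𝓝 (‖u g‖ₑ ^ p)) :=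
      (ENNReal.continuous_rpow_const.tendsto _).comp ((continuous_enorm.tendsto _).comp hg)
    exact h5.liminf_eq.symm
  have h6 : ∫⁻ g, liminf (fun i : ℕ => ‖F (φ (ns i)) g‖ₑ ^ p) atTop ∂μ ≤
      liminf (fun i : ℕ => ∫⁻ g, ‖F (φ (ns i)) g‖ₑ ^ p ∂μ) atTop :=
    lintegral_liminf_le' fun i => ((hF _).enorm.pow_const p)
  have h7 : liminf (fun i : ℕ => ∫⁻ g, ‖F (φ (ns i)) g‖ₑ ^ p ∂μ) atTop ≤ c :=
    liminf_le_of_frequently_le' (Frequently.of_forall fun i => (hlt _).le)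
  exact absurd hc2 (not_lt.2 ((h4.le.trans h6).trans h7))

/-- `∫⁻` of the power of the norm of a continuous function -/
theorem lint_eq {M : Type} [TopologicalSpace M] [CompactSpace M] [MeasurableSpace M]
    [BorelSpace M] (μ : Measure M) [IsFiniteMeasure μ] (F : M → ℂ) (hF : Continuous F) (p : ℝ)
    (hp : 0 ≤ p) : ∫⁻ g, ‖F g‖ₑ ^ p ∂μ = ENNReal.ofReal (∫ g, ‖F g‖ ^ p ∂μ) := by
  have hc : Continuous fun g => ‖F g‖ ^ p := hF.norm.rpow_const fun _ => Or.inr hp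
  have hi : Integrable (fun g => ‖F g‖ ^ p) μ := by
    obtain ⟨C, hC⟩ := isCompact_univ.exists_bound_of_continuousOn hc.continuousOn
    exact Integrable.of_bound hc.aestronglyMeasurable_of_compactSpace C
      (Eventually.of_forall fun g => hC g (Set.mem_univ g))
  rw [ofReal_integral_eq_lintegral_ofReal hi (Eventually.of_forall fun g => by positivity)]
  refine lintegral_congr fun g => ?_
  rw [← ofReal_norm_eq_enorm, ENNReal.ofReal_rpow_of_nonneg (norm_nonneg _) hp]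

/-- the finite sums of the evolution -/
def ev (κ : ℕ → ℝ) (f : ℕ → SU 3 → ℂ) (N : ℕ) (t : ℝ) (g : SU 3) : ℂ :=
  ∑ k ∈ Finset.range N, Complex.exp (-(Complex.I * κ k * t)) * f k g

theorem cont_ev (κ : ℕ → ℝ) (f : ℕ → SU 3 → ℂ) (hf : ∀ k, Continuous (f k)) (N : ℕ) :
    Continuous (Function.uncurry (ev κ f N)) := by
  unfold ev Function.uncurry
  refine continuous_finsetSum _ fun k _ => ?_
  refine Continuous.mul ?_ ((hf k).comp continuous_snd)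
  fun_prop

theorem cont_int (μ : Measure (SU 3)) [IsFiniteMeasure μ] (F : ℝ → SU 3 → ℂ)
    (hF : Continuous (Function.uncurry F)) (p : ℝ) (hp : 0 ≤ p) :
    Continuous fun t => ∫ g, ‖F t g‖ ^ p ∂μ := by
  have hc : Continuous (Function.uncurry fun (t : ℝ) (g : SU 3) => ‖F t g‖ ^ p) := by
    have : (Function.uncurry fun (t : ℝ) (g : SU 3) => ‖F t g‖ ^ p) =
        fun x => ‖Function.uncurry F x‖ ^ p := rfl
    rw [this]
    exact hF.norm.rpow_const fun _ => Or.inr hp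
  have h := continuous_parametric_integral_of_continuous (μ := μ) hc
    (isCompact_univ (X := SU 3))
  simpa only [Measure.restrict_univ] using h

/-- the space-time integral as a lower integral -/
theorem lint_time (μ : Measure (SU 3)) [IsFiniteMeasure μ] (F : ℝ → SU 3 → ℂ)
    (hF : Continuous (Function.uncurry F)) (p : ℝ) (hp : 0 ≤ p) (a b : ℝ) (hab : a ≤ b) :
    ∫⁻ t in Set.Icc a b, ∫⁻ g, ‖F t g‖ₑ ^ p ∂μ =
      ENNReal.ofReal (∫ t in a..b, ∫ g, ‖F t g‖ ^ p ∂μ) := by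
  have h1 : ∀ t, Continuous (F t) := fun t =>
    hF.comp (Continuous.prodMk continuous_const continuous_id)
  have hc := cont_int μ F hF p hp
  have h2 : ∫⁻ t in Set.Icc a b, ∫⁻ g, ‖F t g‖ₑ ^ p ∂μ =
      ∫⁻ t in Set.Icc a b, ENNReal.ofReal (∫ g, ‖F t g‖ ^ p ∂μ) :=
    lintegral_congr fun t => lint_eq μ (F t) (h1 t) p hp
  rw [h2, ← ofReal_integral_eq_lintegral_ofReal]
  · rw [intervalIntegral.integral_of_le hab, integral_Icc_eq_integral_Ioc]
  · exact hc.continuousOn.integrableOn_compact isCompact_Icc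
  · exact Eventually.of_forall fun t => integral_nonneg fun g => by positivity

end INF

open INF in
theorem t_INF : M_INF := by
  intro hpos hU p hp μ hprob hinv a b hab
  obtain ⟨C0, hC0⟩ := hU p hp μ hprob hinv a b hab
  obtain ⟨C, hC⟩ : ∃ C, C = max C0 0 := ⟨_, rfl⟩
  have hCn : 0 ≤ C := hC ▸ le_max_right _ _
  have hCl : C0 ≤ C := hC ▸ le_max_left _ _
  refine ⟨C, ?_⟩
  intro X hX κ f hκ hf hs u hu hlim
  have hp0 : 0 ≤ p := by linarith
  have hfc : ∀ k, Continuous (f k) := fun k => (hf k).1.1.cont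
  -- the terms are nonnegative
  have hw : ∀ k, 0 ≤ (1 + κ k) ^ (dm 3 / 2 - (dm 3 + 2) / p) * ∫ g, ‖f k g‖ ^ 2 ∂μ := by
    intro k
    rcases hpos μ hprob hinv X hX (κ k) (f k) (hf k) with h | h
    · have h1 : 0 ≤ (1 + κ k) ^ (dm 3 / 2 - (dm 3 + 2) / p) :=
        Real.rpow_nonneg (by linarith) _
      exact mul_nonneg h1 (integral_nonneg fun g => by positivity)
    · rw [h]
      simp
  -- the finite inequality
  have hfin : ∀ N, ∫⁻ t in Set.Icc a b, ∫⁻ g, ‖ev κ f N t g‖ₑ ^ p ∂μ ≤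
      ENNReal.ofReal
        (C * (∑' k, (1 + κ k) ^ (dm 3 / 2 - (dm 3 + 2) / p) * ∫ g, ‖f k g‖ ^ 2 ∂μ) ^ (p / 2)) := by
    intro N
    rw [lint_time μ (ev κ f N) (cont_ev κ f hfc N) p hp0 a b hab]
    apply ENNReal.ofReal_le_ofReal
    have h1 := hC0 X hX N (fun k => κ k) (fun k => f k)
      (fun i j hij => Fin.ext (hκ hij)) (fun k => hf k)
    have h2 : (∫ t in a..b, ∫ g, ‖ev κ f N t g‖ ^ p ∂μ) =
        ∫ t in a..b, ∫ g, ‖∑ k : Fin N, Complex.exp (-(Complex.I * κ k * t)) * f k g‖ ^ p ∂μ := by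
      congr 1
      ext t
      congr 1
      ext g
      rw [ev, ← Fin.sum_univ_eq_sum_range
        (fun k => Complex.exp (-(Complex.I * κ k * t)) * f k g) N]
    rw [h2]
    refine h1.trans ?_
    have h3 : (∑ k : Fin N, (1 + κ k) ^ (dm 3 / 2 - (dm 3 + 2) / p) * ∫ g, ‖f k g‖ ^ 2 ∂μ) =
        ∑ k ∈ Finset.range N, (1 + κ k) ^ (dm 3 / 2 - (dm 3 + 2) / p) *
          ∫ g, ‖f k g‖ ^ 2 ∂μ :=
      Fin.sum_univ_eq_sum_range
        (fun k => (1 + κ k) ^ (dm 3 / 2 - (dm 3 + 2) / p) * ∫ g, ‖f k g‖ ^ 2 ∂μ) N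
    have h4 : 0 ≤ ∑ k : Fin N, (1 + κ k) ^ (dm 3 / 2 - (dm 3 + 2) / p) *
        ∫ g, ‖f k g‖ ^ 2 ∂μ := Finset.sum_nonneg fun k _ => hw k
    have h5 : ∑ k : Fin N, (1 + κ k) ^ (dm 3 / 2 - (dm 3 + 2) / p) *
        ∫ g, ‖f k g‖ ^ 2 ∂μ ≤
        ∑' k, (1 + κ k) ^ (dm 3 / 2 - (dm 3 + 2) / p) * ∫ g, ‖f k g‖ ^ 2 ∂μ := by
      rw [h3]
      exact hs.sum_le_tsum _ fun k _ => hw k
    calc C0 * (∑ k : Fin N, (1 + κ k) ^ (dm 3 / 2 - (dm 3 + 2) / p) *
          ∫ g, ‖f k g‖ ^ 2 ∂μ) ^ (p / 2)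
        ≤ C * (∑ k : Fin N, (1 + κ k) ^ (dm 3 / 2 - (dm 3 + 2) / p) *
          ∫ g, ‖f k g‖ ^ 2 ∂μ) ^ (p / 2) :=
          mul_le_mul_of_nonneg_right hCl (Real.rpow_nonneg h4 _)
      _ ≤ _ := mul_le_mul_of_nonneg_left (Real.rpow_le_rpow h4 h5 (by linarith)) hCn
  -- Fatou twice
  have hF1 : ∀ t, ∫⁻ g, ‖u t g‖ₑ ^ p ∂μ ≤
      liminf (fun N : ℕ => ∫⁻ g, ‖ev κ f N t g‖ₑ ^ p ∂μ) atTop := by
    intro t
    refine fatou μ (fun N => ev κ f N t) (u t) p (fun N => ?_) (hu t) (hlim t)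
    exact ((cont_ev κ f hfc N).comp (Continuous.prodMk continuous_const
      continuous_id)).aestronglyMeasurable
  have hmeas : ∀ N, Measurable fun t => ∫⁻ g, ‖ev κ f N t g‖ₑ ^ p ∂μ := by
    intro N
    have h1 : (fun t => ∫⁻ g, ‖ev κ f N t g‖ₑ ^ p ∂μ) =
        fun t => ENNReal.ofReal (∫ g, ‖ev κ f N t g‖ ^ p ∂μ) := by
      ext t
      exact lint_eq μ _ ((cont_ev κ f hfc N).comp (Continuous.prodMk continuous_const
        continuous_id)) p hp0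
    rw [h1]
    exact (ENNReal.continuous_ofReal.comp (cont_int μ _ (cont_ev κ f hfc N) p hp0)).measurable
  calc ∫⁻ t in Set.Icc a b, ∫⁻ g, ‖u t g‖ₑ ^ p ∂μ
      ≤ ∫⁻ t in Set.Icc a b, liminf (fun N : ℕ => ∫⁻ g, ‖ev κ f N t g‖ₑ ^ p ∂μ) atTop :=
        lintegral_mono fun t => hF1 t
    _ ≤ liminf (fun N : ℕ => ∫⁻ t in Set.Icc a b, ∫⁻ g, ‖ev κ f N t g‖ₑ ^ p ∂μ) atTop :=
        lintegral_liminf_le hmeas
    _ ≤ _ := liminf_le_of_frequently_le' (Frequently.of_forall hfin)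

end

end STZ
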