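import Pool.Agent.STZ.StmtsM
import Pool.Agent.STZ.FIN
import Pool.Agent.STZ.INF

/-!
# Assembly of the upper bound for groups with combinatorial data
-/

namespace STZ

open MeasureTheory Matrix Filter

open scoped ComplexConjugate Matrix Real Topology

noncomputable section

namespace FING

/-- the finite inequality in terms of the spectral data -/
theorem core (hALL : S_ALL) (hNQ : S_NQ) (hKB : S_KB) (M : Type) [TopologicalSpace M]
    [CompactSpace M] [T2Space M] [SecondCountableTopology M] [MeasurableSpace M] [BorelSpace M]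
    (μ : Measure M) [IsProbabilityMeasure μ] [μ.IsOpenPosMeasure] (ι : Type)
    (K : ι → M → M → ℂ) (r : ℕ) (e : ℝ) (w : ι → Fin r → ℤ) (τ : Equiv.Perm (Fin r)) (C : ℝ)
    (hSD : SData μ K r e w τ C) (Q : (Fin r → ℤ) → ℤ) (A : Matrix (Fin r) (Fin r) ℤ)
    (hQ : QF Q A) (hr : 2 ≤ r) (k0 : ℝ) (hk0 : 0 < k0) (Q0 C1 : ℝ)
    (hk1 : ∀ a, 0 ≤ k0 * (Q (w a) - Q0))
    (hC1 : ∀ a, sz (w a) ^ 2 ≤ C1 * (1 + k0 * (Q (w a) - Q0))) (hC10 : 0 ≤ C1)
    (p : ℝ) (hp : 4 < p) (a b : ℝ) (hab : a ≤ b) :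
    ∃ C' : ℝ, ∀ (m : ℕ) (κ : Fin m → ℝ) (f : Fin m → M → ℂ) (S : Fin m → Finset ι),
      Function.Injective κ → (∀ k, Continuous (f k)) →
      (∀ k, ∀ c ∈ S k, κ k = k0 * (Q (w c) - Q0)) → (∀ k, Pr μ K (S k) (f k) = f k) →
      ∫ t in a..b, ∫ g, ‖∑ k, Complex.exp (-(Complex.I * κ k * t)) * f k g‖ ^ p ∂μ ≤
        C' * (∑ k, (1 + κ k) ^ ((r + e) / 2 - (r + e + 2) / p) * ∫ g, ‖f k g‖ ^ 2 ∂μ) ^ (p / 2) := by
  have hQ' : QF (fun x => -Q x) (-A) := by
    refine ⟨fun x y => ?_, ?_⟩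
    · rw [hQ.polar, Matrix.neg_mulVec, dotProduct_neg]
      ring
    · rw [Matrix.det_neg]
      exact mul_ne_zero (pow_ne_zero _ (by norm_num)) hQ.det
  obtain ⟨D, hD0, hD⟩ := hALL M μ ι K r e w τ C hSD (fun x => -Q x) _ hQ' hr p hp
  have hN := hNQ M μ
  have hK := hKB M μ ι K hSD.ker
  have hp0 : 0 < p := by linarith
  have hr2 : (2 : ℝ) ≤ r := by exact_mod_cast hr
  have he := hSD.enn
  set s : ℝ := (r + e) / 2 - (r + e + 2) / p with hs
  have hs0 : 0 ≤ s := by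
    have h1 : (r + e + 2) / p ≤ (r + e + 2) / 4 := by gcongr
    rw [hs]
    linarith
  set n : ℕ := ⌈(b - a) / (2 * π / k0)⌉₊
  refine ⟨2 * π / k0 * (n * (D ^ p * (C1 ^ s) ^ (p / 2))), ?_⟩
  intro m κ f S hκ hfc hκa hS2
  have hdisj : ∀ k l c, c ∈ S k → c ∈ S l → k = l := fun k l c h1 h2 =>
    hκ ((hκa k c h1).trans (hκa l c h2).symm)
  classical
  set F : Finset ι := Finset.univ.biUnion S with hF
  let ft : M → ℂ := fun g => ∑ k, f k g
  have hftc : Continuous ft := continuous_finsetSum _ fun k _ => hfc k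
  let u : ι → M → ℂ := fun c => Pr μ K {c} ft
  have hu : ∀ k, ∀ c ∈ S k, u c = Pr μ K {c} (f k) := by
    intro k c hc
    have h1 : ∀ l, l ≠ k → Pr μ K {c} (f l) = 0 := by
      intro l hl
      rw [← hS2 l]
      refine hK.piece0 (S l) c (f l) (fun h => hl (hdisj l k c h hc)) (hfc l)
    funext x
    have h2 : Pr μ K {c} ft x = ∑ l, Pr μ K {c} (f l) x :=
      FIN.pr_sum μ hSD.ker c f hfc x
    show Pr μ K {c} ft x = _
    rw [h2, Finset.sum_eq_single k]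
    · intro l _ hl
      rw [h1 l hl]
      rfl
    · intro h
      exact absurd (Finset.mem_univ k) h
  have hfs : ∀ k g, f k g = ∑ c ∈ S k, u c g := by
    intro k g
    conv_lhs => rw [← hS2 k]
    unfold Pr
    refine Finset.sum_congr rfl fun c hc => ?_
    rw [hu k c hc]
    simp only [Pr, Finset.sum_singleton]
  have hmem : ∀ c ∈ F, Mem μ (K c) (u c) := fun c _ => hK.mem c ft hftc
  have hnsq : ∀ k, ∫ g, ‖f k g‖ ^ 2 ∂μ = ∑ c ∈ S k, nsq μ (u c) := by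
    intro k
    have h1 := hK.pyth (S k) (f k) (hfc k)
    rw [hS2 k] at h1
    show nsq μ (f k) = _
    rw [h1]
    exact Finset.sum_congr rfl fun c hc => by rw [hu k c hc]
  have hpd : (↑(Finset.univ : Finset (Fin m)) : Set (Fin m)).PairwiseDisjoint S := by
    intro k _ l _ hkl
    show Disjoint (S k) (S l)
    rw [Finset.disjoint_left]
    exact fun c h1 h2 => hkl (hdisj k l c h1 h2)
  have hnn : ∀ c, 0 ≤ nsq μ (u c) := fun c => integral_nonneg fun _ => by positivity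
  have hpi : (π : ℂ) ≠ 0 := by exact_mod_cast Real.pi_ne_zero
  have hk0c : (k0 : ℂ) ≠ 0 := by exact_mod_cast hk0.ne'
  have phase : ∀ (c : ι) (t : ℝ), Complex.exp (-(Complex.I * (k0 * (Q (w c) - Q0) : ℝ) * t)) =
      Complex.exp ((k0 * Q0 * t : ℝ) * Complex.I) *
        eu (t / (2 * π / k0) * ((-Q (w c) : ℤ) : ℝ)) := by
    intro c t
    unfold eu
    rw [← Complex.exp_add]
    congr 1
    push_cast
    field_simp
    ring
  -- the function in terms of `uw`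
  have hnorm : ∀ (t : ℝ) (g : M), ‖∑ k, Complex.exp (-(Complex.I * κ k * t)) * f k g‖ =
      ‖uw w (fun x => -Q x) F u (t / (2 * π / k0)) g‖ := by
    intro t g
    have h1 : ∑ k, Complex.exp (-(Complex.I * κ k * t)) * f k g =
        Complex.exp ((k0 * Q0 * t : ℝ) * Complex.I) *
          uw w (fun x => -Q x) F u (t / (2 * π / k0)) g := by
      unfold uw
      rw [hF, Finset.sum_biUnion hpd, Finset.mul_sum]
      refine Finset.sum_congr rfl fun k _ => ?_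
      rw [hfs k g, Finset.mul_sum, Finset.mul_sum]
      refine Finset.sum_congr rfl fun c hc => ?_
      rw [hκa k c hc, phase, mul_assoc]
    rw [h1, norm_mul, Complex.norm_exp_ofReal_mul_I, one_mul]
  have hjc := FIN.jc_uw w (fun x => -Q x) F u fun c hc => (hmem c hc).1
  have hPc := hN.cont p (uw w (fun x => -Q x) F u) hp0 hjc
  have hP0 : ∀ t, 0 ≤ ∫ x, ‖uw w (fun x => -Q x) F u t x‖ ^ p ∂μ := fun t =>
    integral_nonneg fun _ => by positivity
  simp only [hnorm]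
  have hT := FIN.time_le (fun t => ∫ x, ‖uw w (fun x => -Q x) F u t x‖ ^ p ∂μ) hPc hP0
    (fun t => by simp only [FIN.per_uw]) a b hab (2 * π / k0) (by positivity)
  refine hT.trans ?_
  rw [mul_assoc (2 * π / k0), mul_assoc (n : ℝ)]
  refine mul_le_mul_of_nonneg_left ?_ (by positivity)
  refine mul_le_mul_of_nonneg_left ?_ (by positivity)
  have hA : ∫ t in (0 : ℝ)..1, ∫ x, ‖uw w (fun x => -Q x) F u t x‖ ^ p ∂μ =
      nq μ p (uw w (fun x => -Q x) F u) ^ p := by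
    unfold nq
    rw [← Real.rpow_mul, one_div, inv_mul_cancel₀ hp0.ne', Real.rpow_one]
    exact intervalIntegral.integral_nonneg zero_le_one fun t _ => hP0 t
  have hnq0 : 0 ≤ nq μ p (uw w (fun x => -Q x) F u) := by
    unfold nq
    refine Real.rpow_nonneg ?_ _
    exact intervalIntegral.integral_nonneg zero_le_one fun t _ => hP0 t
  rw [hA]
  have hszp : ∀ c, 0 ≤ sz (w c) := fun c => by
    unfold sz
    positivity
  have hsum : ∑ c ∈ F, sz (w c) ^ ((r + e) - 2 * (r + e + 2) / p) * nsq μ (u c) ≤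
      C1 ^ s * ∑ k, (1 + κ k) ^ s * ∫ g, ‖f k g‖ ^ 2 ∂μ := by
    rw [hF, Finset.sum_biUnion hpd, Finset.mul_sum]
    refine Finset.sum_le_sum fun k _ => ?_
    rw [hnsq k, Finset.mul_sum, Finset.mul_sum]
    refine Finset.sum_le_sum fun c hc => ?_
    rw [← mul_assoc]
    refine mul_le_mul_of_nonneg_right ?_ (hnn c)
    rw [hκa k c hc]
    have h1 : ((r : ℝ) + e) - 2 * (r + e + 2) / p = 2 * s := by
      rw [hs]
      ring
    have hka : 0 ≤ 1 + k0 * (Q (w c) - Q0) := by linarith [hk1 c]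
    rw [h1, Real.rpow_mul (hszp c), ← Real.mul_rpow hC10 hka]
    refine Real.rpow_le_rpow (Real.rpow_nonneg (hszp c) _) ?_ hs0
    have := hC1 c
    simpa using this
  have hfin := hD F u hmem
  have hB0 : 0 ≤ ∑ c ∈ F, sz (w c) ^ ((r + e) - 2 * (r + e + 2) / p) * nsq μ (u c) :=
    Finset.sum_nonneg fun c _ => mul_nonneg (Real.rpow_nonneg (hszp c) _) (hnn c)
  set B := ∑ c ∈ F, sz (w c) ^ ((r + e) - 2 * (r + e + 2) / p) * nsq μ (u c) with hB
  calc nq μ p (uw w (fun x => -Q x) F u) ^ p ≤ (D * √B) ^ p :=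
        Real.rpow_le_rpow hnq0 hfin hp0.le
    _ = D ^ p * B ^ (p / 2) := by
        rw [Real.mul_rpow hD0 (Real.sqrt_nonneg _), Real.sqrt_eq_rpow, ← Real.rpow_mul hB0]
        congr 2
        ring
    _ ≤ D ^ p * (C1 ^ s * ∑ k, (1 + κ k) ^ s * ∫ g, ‖f k g‖ ^ 2 ∂μ) ^ (p / 2) := by
        refine mul_le_mul_of_nonneg_left ?_ (by positivity)
        exact Real.rpow_le_rpow hB0 hsum (by positivity)
    _ = _ := by
        rw [Real.mul_rpow (by positivity)]
        · ring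
        · refine Finset.sum_nonneg fun k _ => ?_
          by_cases hk : (S k).Nonempty
          · refine mul_nonneg ?_ (integral_nonneg fun _ => by positivity)
            obtain ⟨c, hc⟩ := hk
            rw [hκa k c hc]
            exact Real.rpow_nonneg (by linarith [hk1 c]) _
          · rw [Finset.not_nonempty_iff_eq_empty] at hk
            have h0 := hnsq k
            rw [hk, Finset.sum_empty] at h0
            rw [h0, mul_zero]

/-- the finite sums of the evolution -/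
def ev {M : Type} (κ : ℕ → ℝ) (f : ℕ → M → ℂ) (N : ℕ) (t : ℝ) (g : M) : ℂ :=
  ∑ k ∈ Finset.range N, Complex.exp (-(Complex.I * κ k * t)) * f k g

theorem cont_ev {M : Type} [TopologicalSpace M] (κ : ℕ → ℝ) (f : ℕ → M → ℂ)
    (hf : ∀ k, Continuous (f k)) (N : ℕ) : Continuous (Function.uncurry (ev κ f N)) := by
  unfold ev Function.uncurry
  refine continuous_finsetSum _ fun k _ => ?_
  refine Continuous.mul ?_ ((hf k).comp continuous_snd)
  fun_prop

theorem cont_int {M : Type} [TopologicalSpace M] [CompactSpace M] [T2Space M]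
    [SecondCountableTopology M] [MeasurableSpace M] [BorelSpace M] (μ : Measure M)
    [IsFiniteMeasure μ] (F : ℝ → M → ℂ)
    (hF : Continuous (Function.uncurry F)) (p : ℝ) (hp : 0 ≤ p) :
    Continuous fun t => ∫ g, ‖F t g‖ ^ p ∂μ := by
  have hc : Continuous (Function.uncurry fun (t : ℝ) (g : M) => ‖F t g‖ ^ p) := by
    have : (Function.uncurry fun (t : ℝ) (g : M) => ‖F t g‖ ^ p) =
        fun x => ‖Function.uncurry F x‖ ^ p := rfl
    rw [this]
    exact hF.norm.rpow_const fun _ => Or.inr hp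
  have h := continuous_parametric_integral_of_continuous (μ := μ) hc
    (isCompact_univ (X := M))
  simpa only [Measure.restrict_univ] using h

/-- the space-time integral as a lower integral -/
theorem lint_time {M : Type} [TopologicalSpace M] [CompactSpace M] [T2Space M]
    [SecondCountableTopology M] [MeasurableSpace M] [BorelSpace M] (μ : Measure M)
    [IsFiniteMeasure μ] (F : ℝ → M → ℂ)
    (hF : Continuous (Function.uncurry F)) (p : ℝ) (hp : 0 ≤ p) (a b : ℝ) (hab : a ≤ b) :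
    ∫⁻ t in Set.Icc a b, ∫⁻ g, ‖F t g‖ₑ ^ p ∂μ =
      ENNReal.ofReal (∫ t in a..b, ∫ g, ‖F t g‖ ^ p ∂μ) := by
  have h1 : ∀ t, Continuous (F t) := fun t =>
    hF.comp (Continuous.prodMk continuous_const continuous_id)
  have hc := cont_int μ F hF p hp
  have h2 : ∫⁻ t in Set.Icc a b, ∫⁻ g, ‖F t g‖ₑ ^ p ∂μ =
      ∫⁻ t in Set.Icc a b, ENNReal.ofReal (∫ g, ‖F t g‖ ^ p ∂μ) :=
    lintegral_congr fun t => INF.lint_eq μ (F t) (h1 t) p hp
  rw [h2, ← ofReal_integral_eq_lintegral_ofReal]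
  · rw [intervalIntegral.integral_of_le hab, integral_Icc_eq_integral_Ioc]
  · exact hc.continuousOn.integrableOn_compact isCompact_Icc
  · exact Eventually.of_forall fun t => integral_nonneg fun g => by positivity

/-- from finite sums to all data -/
theorem all_data {M : Type} [TopologicalSpace M] [CompactSpace M] [T2Space M]
    [SecondCountableTopology M] [MeasurableSpace M] [BorelSpace M] (μ : Measure M)
    [IsProbabilityMeasure μ] (s p : ℝ) (hp : 0 < p) (a b : ℝ) (hab : a ≤ b) (C : ℝ) (hCn : 0 ≤ C)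
    (κ : ℕ → ℝ) (f : ℕ → M → ℂ) (hfc : ∀ k, Continuous (f k))
    (hw : ∀ k, 0 ≤ (1 + κ k) ^ s * ∫ g, ‖f k g‖ ^ 2 ∂μ)
    (hs : Summable fun k => (1 + κ k) ^ s * ∫ g, ‖f k g‖ ^ 2 ∂μ)
    (hfin0 : ∀ N : ℕ, ∫ t in a..b, ∫ g, ‖∑ k : Fin N, Complex.exp (-(Complex.I * κ k * t)) *
      f k g‖ ^ p ∂μ ≤ C * (∑ k : Fin N, (1 + κ k) ^ s * ∫ g, ‖f k g‖ ^ 2 ∂μ) ^ (p / 2))
    (u : ℝ → M → ℂ) (hu : ∀ t, AEStronglyMeasurable (u t) μ)
    (hlim : ∀ t, Tendsto (fun N : ℕ => eLpNorm (fun g => u t g - ∑ k ∈ Finset.range N,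
      Complex.exp (-(Complex.I * κ k * t)) * f k g) 2 μ) atTop (𝓝 0)) :
    ∫⁻ t in Set.Icc a b, ∫⁻ g, ‖u t g‖ₑ ^ p ∂μ ≤
      ENNReal.ofReal (C * (∑' k, (1 + κ k) ^ s * ∫ g, ‖f k g‖ ^ 2 ∂μ) ^ (p / 2)) := by
  have hp0 : 0 ≤ p := hp.le
  have hfin : ∀ N, ∫⁻ t in Set.Icc a b, ∫⁻ g, ‖ev κ f N t g‖ₑ ^ p ∂μ ≤
      ENNReal.ofReal (C * (∑' k, (1 + κ k) ^ s * ∫ g, ‖f k g‖ ^ 2 ∂μ) ^ (p / 2)) := by
    intro N
    rw [lint_time μ (ev κ f N) (cont_ev κ f hfc N) p hp0 a b hab]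
    apply ENNReal.ofReal_le_ofReal
    have h2 : (∫ t in a..b, ∫ g, ‖ev κ f N t g‖ ^ p ∂μ) =
        ∫ t in a..b, ∫ g, ‖∑ k : Fin N, Complex.exp (-(Complex.I * κ k * t)) * f k g‖ ^ p ∂μ := by
      congr 1
      ext t
      congr 1
      ext g
      rw [ev, ← Fin.sum_univ_eq_sum_range
        (fun k => Complex.exp (-(Complex.I * κ k * t)) * f k g) N]
    rw [h2]
    refine (hfin0 N).trans ?_
    have h3 : (∑ k : Fin N, (1 + κ k) ^ s * ∫ g, ‖f k g‖ ^ 2 ∂μ) =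
        ∑ k ∈ Finset.range N, (1 + κ k) ^ s * ∫ g, ‖f k g‖ ^ 2 ∂μ :=
      Fin.sum_univ_eq_sum_range (fun k => (1 + κ k) ^ s * ∫ g, ‖f k g‖ ^ 2 ∂μ) N
    have h4 : 0 ≤ ∑ k : Fin N, (1 + κ k) ^ s * ∫ g, ‖f k g‖ ^ 2 ∂μ :=
      Finset.sum_nonneg fun k _ => hw k
    have h5 : ∑ k : Fin N, (1 + κ k) ^ s * ∫ g, ‖f k g‖ ^ 2 ∂μ ≤
        ∑' k, (1 + κ k) ^ s * ∫ g, ‖f k g‖ ^ 2 ∂μ := by
      rw [h3]
      exact hs.sum_le_tsum _ fun k _ => hw k
    exact mul_le_mul_of_nonneg_left (Real.rpow_le_rpow h4 h5 (by linarith)) hCn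
  have hF1 : ∀ t, ∫⁻ g, ‖u t g‖ₑ ^ p ∂μ ≤
      liminf (fun N : ℕ => ∫⁻ g, ‖ev κ f N t g‖ₑ ^ p ∂μ) atTop := by
    intro t
    refine INF.fatou μ (fun N => ev κ f N t) (u t) p (fun N => ?_) (hu t) (hlim t)
    exact ((cont_ev κ f hfc N).comp (Continuous.prodMk continuous_const
      continuous_id)).aestronglyMeasurable
  have hmeas : ∀ N, Measurable fun t => ∫⁻ g, ‖ev κ f N t g‖ₑ ^ p ∂μ := by
    intro N
    have h1 : (fun t => ∫⁻ g, ‖ev κ f N t g‖ₑ ^ p ∂μ) =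
        fun t => ENNReal.ofReal (∫ g, ‖ev κ f N t g‖ ^ p ∂μ) := by
      ext t
      exact INF.lint_eq μ _ ((cont_ev κ f hfc N).comp (Continuous.prodMk continuous_const
        continuous_id)) p hp0
    rw [h1]
    exact (ENNReal.continuous_ofReal.comp (cont_int μ _ (cont_ev κ f hfc N) p hp0)).measurable
  calc ∫⁻ t in Set.Icc a b, ∫⁻ g, ‖u t g‖ₑ ^ p ∂μ
      ≤ ∫⁻ t in Set.Icc a b, liminf (fun N : ℕ => ∫⁻ g, ‖ev κ f N t g‖ₑ ^ p ∂μ) atTop :=
        lintegral_mono fun t => hF1 t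
    _ ≤ liminf (fun N : ℕ => ∫⁻ t in Set.Icc a b, ∫⁻ g, ‖ev κ f N t g‖ₑ ^ p ∂μ) atTop :=
        lintegral_liminf_le hmeas
    _ ≤ _ := liminf_le_of_frequently_le' (Frequently.of_forall hfin)

end FING

open FING in
/-- the machine -/
theorem t_FING (hALL : S_ALL) (hNQ : S_NQ) (hKB : S_KB) (hHAAR : S_HAAR) (hSDG : S_SDG)
    (hEIGG : S_EIGG) (N : ℕ) (H : Subgroup (SU N)) (c : ℝ) (d r : ℕ) (D : RD r)
    (x : Fin r → H → ℂ) (k : ℝ) (hD : RDF D) (hG : GF H c d D x k) (p : ℝ) (hp : 4 < p) :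
    StrG H c d p := by
  intro μ hμ hl a b hab
  have := hμ
  have := hl
  have hcpt : CompactSpace H := isCompact_iff_compactSpace.1 hG.closed.isCompact
  have h2c : SecondCountableTopology H := TopologicalSpace.Subtype.secondCountableTopology _
  obtain ⟨-, -, hopen⟩ := hHAAR H μ
  have := hopen
  obtain ⟨C, hSD⟩ := hSDG N H c d r D x k hD hG μ
  have hp0 : 0 < p := by linarith
  obtain ⟨c1, hc1, hpd⟩ := hD.pd
  have hwreg : ∀ a : Fin r → ℕ, Reg (wG a) := fun a i => by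
    unfold wG
    have : (0 : ℤ) ≤ (a i : ℤ) := by positivity
    linarith
  have hQ1 : ∀ a : Fin r → ℕ, (D.Q 1 : ℝ) ≤ D.Q (wG a) := by
    intro a
    by_cases h : wG a = 1
    · rw [h]
    · exact_mod_cast (hD.rho (wG a) (hwreg a) h).le
  have hkpos := hG.kpos
  have hk1 : ∀ a : Fin r → ℕ, 0 ≤ k * (((D.Q (wG a) : ℤ) : ℝ) - D.Q 1) := fun a =>
    mul_nonneg hkpos.le (by linarith [hQ1 a])
  have hQ10 : (0 : ℝ) ≤ D.Q 1 := by
    have := (hpd 1).1
    exact le_trans (by positivity) this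
  -- comparison of `sz` and the eigenvalue
  have hsz2 : ∀ a : Fin r → ℕ, sz (wG a) ≤ 2 * (sz (wG a) - 1) := by
    intro a
    have h2 : (1 : ℝ) ≤ ∑ i, |((wG a i : ℤ) : ℝ)| := by
      have hr : 0 < r := lt_of_lt_of_le (by norm_num) hD.r2
      have h3 : |((wG a ⟨0, hr⟩ : ℤ) : ℝ)| ≤ ∑ i, |((wG a i : ℤ) : ℝ)| :=
        Finset.single_le_sum (f := fun i => |((wG a i : ℤ) : ℝ)|) (fun i _ => abs_nonneg _)
          (Finset.mem_univ _)
      have h4 : (1 : ℝ) ≤ |((wG a ⟨0, hr⟩ : ℤ) : ℝ)| := by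
        rw [le_abs]
        left
        exact_mod_cast hwreg a ⟨0, hr⟩
      linarith
    unfold sz
    linarith
  set C1 : ℝ := 4 / c1 * (1 / k + D.Q 1) with hC1def
  have hC10 : 0 ≤ C1 := by positivity
  have hC1 : ∀ a : Fin r → ℕ, sz (wG a) ^ 2 ≤ C1 * (1 + k * (((D.Q (wG a) : ℤ) : ℝ) - D.Q 1)) := by
    intro a
    have h1 := (hpd (wG a)).1
    have h2 := hsz2 a
    have h0 : 0 ≤ sz (wG a) := by
      unfold sz
      positivity
    have h3 : sz (wG a) ^ 2 ≤ 4 * (sz (wG a) - 1) ^ 2 := by nlinarith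
    have h4 : (sz (wG a) - 1) ^ 2 ≤ D.Q (wG a) / c1 := by
      rw [le_div_iff₀ hc1]
      linarith
    have h5 := hk1 a
    have h6 : (D.Q (wG a) : ℝ) ≤ (1 / k + D.Q 1) * (1 + k * (((D.Q (wG a) : ℤ) : ℝ) - D.Q 1)) := by
      have h7 : (D.Q (wG a) : ℝ) = 1 / k * (k * (((D.Q (wG a) : ℤ) : ℝ) - D.Q 1)) + D.Q 1 := by
        field_simp
        ring
      have h8 : 0 ≤ 1 / k := by positivity
      nlinarith [mul_nonneg hQ10 h5, mul_nonneg h8 h5]
    calc sz (wG a) ^ 2 ≤ 4 * (D.Q (wG a) / c1) := by linarith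
      _ = 4 / c1 * D.Q (wG a) := by ring
      _ ≤ 4 / c1 * ((1 / k + D.Q 1) * (1 + k * (((D.Q (wG a) : ℤ) : ℝ) - D.Q 1))) :=
          mul_le_mul_of_nonneg_left h6 (by positivity)
      _ = _ := by rw [hC1def]; ring
  obtain ⟨C0, hC0⟩ := core hALL hNQ hKB H μ (Fin r → ℕ) (KK (cG D x)) r (D.e : ℝ) wG D.st C hSD
    D.Q D.A hD.qf hD.r2 k hkpos (D.Q 1 : ℝ) C1 hk1 hC1 hC10 p hp a b hab
  refine ⟨max C0 0, ?_⟩
  intro X hX κ f hκ hf hs u hu hlim
  choose S hS1 hS2 using fun j => hEIGG N H c d r D x k hD hG μ X hX (κ j) (f j) (hf j)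
  have hfc : ∀ j, Continuous (f j) := fun j => (hf j).1.1.cont
  have hexp : ((r : ℝ) + (D.e : ℝ)) / 2 - (r + D.e + 2) / p = (d : ℝ) / 2 - ((d : ℝ) + 2) / p := by
    rw [hG.dimd]
    push_cast
    ring
  have hw : ∀ j, 0 ≤ (1 + κ j) ^ ((d : ℝ) / 2 - ((d : ℝ) + 2) / p) * ∫ g, ‖f j g‖ ^ 2 ∂μ := by
    intro j
    by_cases h : (S j).Nonempty
    · obtain ⟨a, ha⟩ := h
      refine mul_nonneg (Real.rpow_nonneg ?_ _) (integral_nonneg fun _ => by positivity)
      rw [hS1 j a ha]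
      linarith [hk1 a]
    · rw [Finset.not_nonempty_iff_eq_empty] at h
      have : f j = 0 := by
        rw [← hS2 j, h]
        funext y
        simp [Pr]
      rw [this]
      simp
  refine all_data μ _ p hp0 a b hab (max C0 0) (le_max_right _ _) κ f hfc hw hs ?_ u hu hlim
  intro M
  have h1 := hC0 M (fun j => κ j) (fun j => f j) (fun j => S j)
    (fun i j hij => Fin.ext (hκ hij)) (fun j => hfc j) (fun j => hS1 j) (fun j => hS2 j)
  rw [hexp] at h1
  refine h1.trans ?_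
  refine mul_le_mul_of_nonneg_right (le_max_left _ _) (Real.rpow_nonneg ?_ _)
  exact Finset.sum_nonneg fun j _ => hw j

end

end STZ
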