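import Pool.Agent.STZ.StmtsU

/-!
# Abel summation in several variables, a scale for every direction
-/

namespace STZ

open MeasureTheory Matrix

open scoped ComplexConjugate Matrix Real

noncomputable section

namespace ABEY

/-- the sum over a box, the first variable separated -/
theorem sum_box {r : ℕ} (z : Fin (r + 1) → ℤ) (n : Fin (r + 1) → ℕ) (F : (Fin (r + 1) → ℤ) → ℂ) :
    ∑ x ∈ bxn z n, F x = ∑ j ∈ Finset.range (n 0),
      ∑ y ∈ bxn (fun i => z i.succ) (fun i => n i.succ), F (Fin.cons (z 0 + j) y) := by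
  rw [← Finset.sum_product']
  refine Finset.sum_bij' (fun x _ => ((x 0 - z 0).toNat, fun i => x i.succ))
    (fun p _ => Fin.cons (z 0 + (p.1 : ℤ)) p.2) ?_ ?_ ?_ ?_ ?_
  · intro x hx
    simp only [bxn, Fintype.mem_piFinset, Finset.mem_Ico, Finset.mem_product, Finset.mem_range] at hx ⊢
    refine ⟨?_, fun i => hx i.succ⟩
    have := hx 0
    omega
  · intro p hp
    simp only [bxn, Fintype.mem_piFinset, Finset.mem_Ico, Finset.mem_product, Finset.mem_range] at hp ⊢
    intro i
    refine Fin.cases ?_ (fun i => ?_) i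
    · simp only [Fin.cons_zero]
      omega
    · simp only [Fin.cons_succ]
      exact hp.2 i
  · intro x hx
    simp only [bxn, Fintype.mem_piFinset, Finset.mem_Ico] at hx
    funext i
    refine Fin.cases ?_ (fun i => ?_) i
    · have := hx 0
      simp only [Fin.cons_zero]
      omega
    · simp only [Fin.cons_succ]
  · intro p _
    simp only [Fin.cons_zero, Fin.cons_succ]
    ext
    · simp
    · rfl
  · intro x hx
    simp only [bxn, Fintype.mem_piFinset, Finset.mem_Ico] at hx
    congr 1
    funext i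
    refine Fin.cases ?_ (fun i => ?_) i
    · have := hx 0
      simp only [Fin.cons_zero]
      omega
    · simp only [Fin.cons_succ]

theorem cons_add_ind {r : ℕ} (T : Finset (Fin r)) (a : ℤ) (y : Fin r → ℤ) :
    (Fin.cons a y : Fin (r + 1) → ℤ) + ind (T.map (Fin.succEmb r)) = Fin.cons a (y + ind T) := by
  funext i
  refine Fin.cases ?_ (fun i => ?_) i
  · simp [ind, Fin.succ_ne_zero]
  · simp [ind]

theorem cons_add_ind' {r : ℕ} (T : Finset (Fin r)) (a : ℤ) (y : Fin r → ℤ) :
    (Fin.cons a y : Fin (r + 1) → ℤ) + ind (insert 0 (T.map (Fin.succEmb r))) =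
      Fin.cons (a + 1) (y + ind T) := by
  funext i
  refine Fin.cases ?_ (fun i => ?_) i
  · simp [ind]
  · simp [ind, Fin.succ_ne_zero]

theorem powerset_map_sum {r : ℕ} (S : Finset (Fin r)) (F : Finset (Fin (r + 1)) → ℂ) :
    ∑ T ∈ (S.map (Fin.succEmb r)).powerset, F T = ∑ T ∈ S.powerset, F (T.map (Fin.succEmb r)) := by
  symm
  refine Finset.sum_bij (fun T _ => T.map (Fin.succEmb r)) ?_ ?_ ?_ ?_
  · intro T hT
    rw [Finset.mem_powerset] at hT ⊢
    exact Finset.map_subset_map.2 hT
  · intro T _ T' _ h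
    exact Finset.map_injective _ h
  · intro T hT
    rw [Finset.mem_powerset] at hT
    obtain ⟨U, hU, rfl⟩ := Finset.subset_map_iff.1 hT
    exact ⟨U, Finset.mem_powerset.2 hU, rfl⟩
  · intro T _
    rfl

theorem DS_map {r : ℕ} (S : Finset (Fin r)) (g : (Fin (r + 1) → ℤ) → ℂ) (a : ℤ) (y : Fin r → ℤ) :
    DS (S.map (Fin.succEmb r)) g (Fin.cons a y) = DS S (fun y => g (Fin.cons a y)) y := by
  unfold DS
  rw [powerset_map_sum]
  refine Finset.sum_congr rfl fun T _ => ?_
  rw [cons_add_ind, Finset.card_map]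

theorem zero_notMem {r : ℕ} (S : Finset (Fin r)) : (0 : Fin (r + 1)) ∉ S.map (Fin.succEmb r) := by
  simp [Fin.succ_ne_zero]

theorem DS_insert {r : ℕ} (S : Finset (Fin r)) (g : (Fin (r + 1) → ℤ) → ℂ) (a : ℤ)
    (y : Fin r → ℤ) :
    DS (insert 0 (S.map (Fin.succEmb r))) g (Fin.cons a y) =
      DS S (fun y => g (Fin.cons a y) - g (Fin.cons (a + 1) y)) y := by
  unfold DS
  rw [Finset.sum_powerset_insert (zero_notMem S), powerset_map_sum, powerset_map_sum,
    ← Finset.sum_add_distrib]
  refine Finset.sum_congr rfl fun T _ => ?_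
  rw [cons_add_ind, cons_add_ind', Finset.card_insert_of_notMem (zero_notMem T), Finset.card_map,
    pow_succ]
  ring

theorem cons_mem {r : ℕ} (z : Fin (r + 1) → ℤ) (n : Fin (r + 1) → ℕ) (a : ℤ) (y : Fin r → ℤ)
    (ha : z 0 ≤ a ∧ a < z 0 + n 0) (hy : y ∈ bxn (fun i => z i.succ) (fun i => n i.succ)) :
    (Fin.cons a y : Fin (r + 1) → ℤ) ∈ bxn z n := by
  simp only [bxn, Fintype.mem_piFinset, Finset.mem_Ico] at hy ⊢
  intro i
  refine Fin.cases ?_ (fun i => ?_) i
  · simpa using ha
  · simpa using hy i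

/-- Abel summation in one variable -/
theorem abel1 (f g : ℕ → ℂ) (N : ℕ) :
    ∑ j ∈ Finset.range (N + 1), f j * g j =
      (∑ j ∈ Finset.range (N + 1), f j) * g N +
        ∑ j ∈ Finset.range N, (∑ i ∈ Finset.range (j + 1), f i) * (g j - g (j + 1)) := by
  induction N with
  | zero => simp
  | succ N ih =>
    rw [Finset.sum_range_succ, ih, Finset.sum_range_succ (fun j => f j) (N + 1),
      Finset.sum_range_succ (fun j => (∑ i ∈ Finset.range (j + 1), f i) * (g j - g (j + 1))) N]
    ring

theorem prod_map {r : ℕ} (S : Finset (Fin r)) (R : Fin (r + 1) → ℝ) :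
    ∏ i ∈ S.map (Fin.succEmb r), R i = ∏ i ∈ S, R i.succ := by
  rw [Finset.prod_map]
  rfl

end ABEY

open ABEY in
theorem t_ABEY : S_ABEY := by
  intro r
  induction r with
  | zero =>
    intro z n R L B f g hR hL hB hf hg
    have h1 : bxn z n = {z} := by
      ext x
      rw [Finset.mem_singleton]
      exact ⟨fun _ => Subsingleton.elim _ _, fun _ => Fintype.mem_piFinset.2 fun i => i.elim0⟩
    have hf1 := hf n (fun i => i.elim0)
    have hg1 := hg ∅ z (by rw [h1]; simp) (by
      rw [h1, Finset.mem_singleton]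
      exact Subsingleton.elim _ _)
    rw [h1] at hf1 ⊢
    simp only [Finset.sum_singleton] at hf1 ⊢
    have h2 : DS ∅ g z = g z := by
      simp only [DS, Finset.powerset_empty, Finset.sum_singleton, Finset.card_empty, pow_zero, one_mul]
      congr 1
      exact Subsingleton.elim _ _
    rw [h2] at hg1
    simp only [Finset.prod_empty, div_one] at hg1
    rw [norm_mul]
    simpa using mul_le_mul hf1 hg1 (norm_nonneg _) hB
  | succ r ih =>
    intro z n R L B f g hR hL hB hf hg
    rw [sum_box]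
    have hprod : 0 ≤ ∏ i, (1 + (n i : ℝ) / R i) := Finset.prod_nonneg fun i _ => by
      have := (hR i).le
      positivity
    rcases Nat.eq_zero_or_pos (n 0) with h0 | h0
    · rw [h0]
      simp only [Finset.range_zero, Finset.sum_empty, norm_zero]
      exact mul_nonneg (mul_nonneg hB hL) hprod
    · obtain ⟨N, hN⟩ : ∃ N, n 0 = N + 1 := ⟨n 0 - 1, by omega⟩
      set z' : Fin r → ℤ := fun i => z i.succ with hz'
      set n' : Fin r → ℕ := fun i => n i.succ with hn'
      set R' : Fin r → ℝ := fun i => R i.succ with hR'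
      have hR0 : 0 < R 0 := hR 0
      set P : ℝ := ∏ i, (1 + (n' i : ℝ) / R' i) with hP
      have hP0 : 0 ≤ P := Finset.prod_nonneg fun i _ => by
        have := (hR i.succ).le
        positivity
      -- the sums of the first terms in the first variable
      have hFb : ∀ j, j ≤ n 0 → ∀ m : Fin r → ℕ, (∀ i, m i ≤ n' i) →
          ‖∑ y ∈ bxn z' m, ∑ i ∈ Finset.range j, f (Fin.cons (z 0 + (i : ℤ)) y)‖ ≤ B := by
        intro j hj m hm
        have h := hf (Fin.cons j m) (by
          intro i
          refine Fin.cases ?_ (fun i => ?_) i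
          · simpa using hj
          · simpa using hm i)
        rw [sum_box] at h
        rw [Finset.sum_comm]
        simpa using h
      have hg0 : WClY z' n' R' L (fun y => g (Fin.cons (z 0 + (N : ℤ)) y)) := by
        intro S x hx hx'
        have ha : z 0 ≤ z 0 + (N : ℤ) ∧ z 0 + (N : ℤ) < z 0 + n 0 := by
          rw [hN]; push_cast; omega
        have h := hg (S.map (Fin.succEmb r)) (Fin.cons (z 0 + (N : ℤ)) x) (cons_mem z n _ x ha hx)
          (by rw [cons_add_ind]; exact cons_mem z n _ _ ha hx')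
        rwa [DS_map, prod_map] at h
      have hg1 : ∀ j, j < N → WClY z' n' R' (L / R 0)
          (fun y => g (Fin.cons (z 0 + (j : ℤ)) y) - g (Fin.cons (z 0 + ((j + 1 : ℕ) : ℤ)) y)) := by
        intro j hj S x hx hx'
        have ha : z 0 ≤ z 0 + (j : ℤ) ∧ z 0 + (j : ℤ) < z 0 + n 0 := by
          rw [hN]; push_cast; omega
        have ha' : z 0 ≤ z 0 + (j : ℤ) + 1 ∧ z 0 + (j : ℤ) + 1 < z 0 + n 0 := by
          rw [hN]; push_cast; omega
        have h := hg (insert 0 (S.map (Fin.succEmb r))) (Fin.cons (z 0 + (j : ℤ)) x)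
          (cons_mem z n _ x ha hx) (by rw [cons_add_ind']; exact cons_mem z n _ _ ha' hx')
        rw [DS_insert, Finset.prod_insert (zero_notMem S), prod_map] at h
        have e : z 0 + ((j + 1 : ℕ) : ℤ) = z 0 + (j : ℤ) + 1 := by push_cast; ring
        rw [e]
        refine h.trans (le_of_eq ?_)
        rw [div_div]
      rw [Finset.sum_comm, hN]
      have key : ∀ y, ∑ j ∈ Finset.range (N + 1), f (Fin.cons (z 0 + (j : ℤ)) y) *
            g (Fin.cons (z 0 + (j : ℤ)) y) =
          (∑ j ∈ Finset.range (N + 1), f (Fin.cons (z 0 + (j : ℤ)) y)) *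
              g (Fin.cons (z 0 + (N : ℤ)) y) +
            ∑ j ∈ Finset.range N, (∑ i ∈ Finset.range (j + 1), f (Fin.cons (z 0 + (i : ℤ)) y)) *
              (g (Fin.cons (z 0 + (j : ℤ)) y) - g (Fin.cons (z 0 + ((j + 1 : ℕ) : ℤ)) y)) :=
        fun y => abel1 (fun j => f (Fin.cons (z 0 + (j : ℤ)) y))
          (fun j => g (Fin.cons (z 0 + (j : ℤ)) y)) N
      rw [Finset.sum_congr rfl fun y _ => key y, Finset.sum_add_distrib]
      have hRR : ∀ i, 0 < R' i := fun i => hR i.succ
      have hb0 := ih z' n' R' L B _ _ hRR hL hB (fun m hm => hFb (N + 1) (by omega) m hm) hg0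
      have hb1 : ∀ j ∈ Finset.range N, ‖∑ y ∈ bxn z' n',
          (∑ i ∈ Finset.range (j + 1), f (Fin.cons (z 0 + (i : ℤ)) y)) *
            (g (Fin.cons (z 0 + (j : ℤ)) y) - g (Fin.cons (z 0 + ((j + 1 : ℕ) : ℤ)) y))‖ ≤
          B * (L / R 0) * P := by
        intro j hj
        rw [Finset.mem_range] at hj
        exact ih z' n' R' (L / R 0) B _ _ hRR (div_nonneg hL hR0.le) hB
          (fun m hm => hFb (j + 1) (by omega) m hm) (hg1 j hj)
      rw [Finset.sum_comm (s := bxn z' n') (t := Finset.range N)]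
      have hb2 := (norm_sum_le _ _).trans (Finset.sum_le_sum hb1)
      rw [Finset.sum_const, Finset.card_range, nsmul_eq_mul] at hb2
      refine (norm_add_le _ _).trans ((add_le_add hb0 hb2).trans ?_)
      rw [Fin.prod_univ_succ, hN]
      change B * L * P + N * (B * (L / R 0) * P) ≤ B * L * ((1 + ((N + 1 : ℕ) : ℝ) / R 0) * P)
      have : B * L * ((1 + ((N + 1 : ℕ) : ℝ) / R 0) * P) - (B * L * P + N * (B * (L / R 0) * P)) =
          B * L * P / R 0 := by
        push_cast
        field_simp
        ring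
      have h3 : 0 ≤ B * L * P / R 0 := by positivity
      linarith

end

end STZ
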