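import Pool.Agent.STZ.StmtsR

/-!
# Module ALLI: the entries of a representation are fixed by the projection
-/

namespace STZ

open MeasureTheory Matrix

open scoped ComplexConjugate Matrix Real

noncomputable section

namespace ALLI

theorem integ {M : Type} [TopologicalSpace M] [CompactSpace M] [MeasurableSpace M]
    [OpensMeasurableSpace M] (μ : Measure M) [IsFiniteMeasure μ] {f : M → ℂ} (hf : Continuous f) :
    Integrable f μ :=
  hf.integrable_of_hasCompactSupport (HasCompactSupport.of_compactSpace f)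

theorem ch_cont {G : Type} [Group G] [TopologicalSpace G] {ι : Type} [Fintype ι] [DecidableEq ι]
    (R : Rep G ι) : Continuous R.ch := R.cont.matrix_trace

theorem ent_cont {G : Type} [Group G] [TopologicalSpace G] {ι : Type} [Fintype ι] [DecidableEq ι]
    (R : Rep G ι) (i j : ι) : Continuous fun g => R.ρ g i j := R.cont.matrix_elem i j

section

variable {M : Type} [TopologicalSpace M] [CompactSpace M] [MeasurableSpace M]
  [OpensMeasurableSpace M] (μ : Measure M) [IsFiniteMeasure μ] {ι : Type} (K : ι → M → M → ℂ)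
  (S : Finset ι)

/-- the functions fixed by the projection -/
def Fx (u : M → ℂ) : Prop := Continuous u ∧ ∀ x, Pr μ K S u x = u x

theorem fx_smul (c : ℂ) (u : M → ℂ) (h : Fx μ K S u) : Fx μ K S fun x => c * u x := by
  refine ⟨continuous_const.mul h.1, fun x => ?_⟩
  have h2 := h.2 x
  unfold Pr at h2 ⊢
  beta_reduce
  rw [← h2, Finset.mul_sum]
  refine Finset.sum_congr rfl fun a _ => ?_
  rw [← integral_const_mul]
  refine integral_congr_ae (Filter.Eventually.of_forall fun y => ?_)
  simp only
  ring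

theorem fx_sum {τ : Type} (T : Finset τ) (u : τ → M → ℂ)
    (hK : ∀ a, Continuous fun z : M × M => K a z.1 z.2) (h : ∀ t ∈ T, Fx μ K S (u t)) :
    Fx μ K S fun x => ∑ t ∈ T, u t x := by
  refine ⟨continuous_finsetSum _ fun t ht => (h t ht).1, fun x => ?_⟩
  have h1 : ∑ t ∈ T, u t x = ∑ t ∈ T, Pr μ K S (u t) x :=
    Finset.sum_congr rfl fun t ht => ((h t ht).2 x).symm
  beta_reduce
  rw [h1]
  unfold Pr
  rw [Finset.sum_comm]
  refine Finset.sum_congr rfl fun a _ => ?_
  have h2 : ∀ t ∈ T, Integrable (fun y => K a x y * u t y) μ := fun t ht =>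
    integ μ (((hK a).comp (continuous_const.prodMk continuous_id)).mul (h t ht).1)
  rw [← integral_finsetSum T h2]
  refine integral_congr_ae (Filter.Eventually.of_forall fun y => ?_)
  simp only
  rw [Finset.mul_sum]

end

end ALLI

open ALLI in
theorem t_ALLI : M_ALLI := by
  intro hKB hCH hDE hKE G _ _ _ _ _ _ _ _ μ _ _ ι χ hχ κ _ _ R S n hR
  obtain ⟨m, N, σ, hirr, hch, hent⟩ := hDE G κ R
  obtain ⟨hker, hmem⟩ := hKE G μ ι χ hχ
  have hkbf := hKB G μ ι (KK χ) hker
  have claim : ∀ k, ∃ a ∈ S, ∀ g, (σ k).ch g = χ a g := by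
    intro k
    by_contra hcon
    push Not at hcon
    have hz : ∀ a ∈ S, ∫ g, χ a g * conj ((σ k).ch g) ∂μ = 0 := by
      intro a ha
      obtain ⟨d, τ, hτ, hτc⟩ := hχ.irr a
      rcases (hCH G μ (Fin d) τ hτ).2 (Fin (N k)) (σ k) (hirr k) with h | h
      · exfalso
        obtain ⟨g, hg⟩ := hcon a ha
        exact hg (by rw [← h g, hτc g])
      · rw [← h]
        refine integral_congr_ae (Filter.Eventually.of_forall fun y => ?_)
        simp only
        rw [hτc]
    have hχc : ∀ a, Continuous (χ a) := by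
      intro a
      obtain ⟨d, τ, hτ, hτc⟩ := hχ.irr a
      have : χ a = τ.ch := funext fun g => (hτc g).symm
      rw [this]
      exact ch_cont τ
    have hcc : Continuous fun g => conj ((σ k).ch g) :=
      Complex.continuous_conj.comp (ch_cont (σ k))
    have h0 : ∫ g, R.ch g * conj ((σ k).ch g) ∂μ = 0 := by
      have e : (fun g => R.ch g * conj ((σ k).ch g)) =
          fun g => ∑ a ∈ S, n a * (χ a g * conj ((σ k).ch g)) := by
        funext g
        rw [hR, Finset.sum_mul]
        exact Finset.sum_congr rfl fun a _ => by ring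
      rw [e, integral_finsetSum]
      · refine Finset.sum_eq_zero fun a ha => ?_
        rw [integral_const_mul, hz a ha, mul_zero]
      · intro a _
        exact integ μ (continuous_const.mul ((hχc a).mul hcc))
    have h1 : ∫ g, R.ch g * conj ((σ k).ch g) ∂μ =
        ∑ l, ∫ g, (σ l).ch g * conj ((σ k).ch g) ∂μ := by
      have e : (fun g => R.ch g * conj ((σ k).ch g)) =
          fun g => ∑ l, (σ l).ch g * conj ((σ k).ch g) := by
        funext g
        rw [hch, Finset.sum_mul]
      rw [e, integral_finsetSum]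
      intro l _
      exact integ μ ((ch_cont (σ l)).mul hcc)
    have hkk := (hCH G μ (Fin (N k)) (σ k) (hirr k)).1
    have h2 : ∀ l, 0 ≤ (∫ g, (σ l).ch g * conj ((σ k).ch g) ∂μ).re := by
      intro l
      rcases (hCH G μ (Fin (N l)) (σ l) (hirr l)).2 (Fin (N k)) (σ k) (hirr k) with h | h
      · have e : (fun g => (σ l).ch g * conj ((σ k).ch g)) =
            fun g => (σ k).ch g * conj ((σ k).ch g) := by
          funext g
          rw [h]
        rw [e, hkk]
        simp
      · rw [h]
        simp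
    have h3 : (1 : ℝ) ≤ (∑ l, ∫ g, (σ l).ch g * conj ((σ k).ch g) ∂μ).re := by
      rw [Complex.re_sum]
      calc (1 : ℝ) = (∫ g, (σ k).ch g * conj ((σ k).ch g) ∂μ).re := by rw [hkk]; simp
        _ ≤ ∑ l, (∫ g, (σ l).ch g * conj ((σ k).ch g) ∂μ).re :=
          Finset.single_le_sum (f := fun l => (∫ g, (σ l).ch g * conj ((σ k).ch g) ∂μ).re)
            (fun l _ => h2 l) (Finset.mem_univ k)
    rw [← h1, h0] at h3
    simp at h3
    linarith
  intro i j
  obtain ⟨c, hc⟩ := hent i j
  have e : (fun g => R.ρ g i j) = fun g => ∑ k, ∑ p, ∑ q, c k p q * (σ k).ρ g p q := funext hc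
  rw [e]
  have hfx : Fx μ (KK χ) S fun g => ∑ k, ∑ p, ∑ q, c k p q * (σ k).ρ g p q := by
    refine fx_sum μ (KK χ) S _ _ hker.cont fun k _ => ?_
    refine fx_sum μ (KK χ) S _ _ hker.cont fun p _ => ?_
    refine fx_sum μ (KK χ) S _ _ hker.cont fun q _ => ?_
    apply fx_smul
    obtain ⟨a, ha, hak⟩ := claim k
    have hm := (hmem a (N k) (σ k) (hirr k) hak).2 p q
    refine ⟨hm.1, fun x => ?_⟩
    rw [hkbf.fix S a _ ha hm]
  funext x
  exact hfx.2 x

end

end STZ
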