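import Pool.Agent.STZ.StmtsU

/-!
# ANIW: products of one dimensional weights at the image of a box

Induction on the dimension, with the coordinate `k` of the largest side as pivot.
-/

namespace STZ

open MeasureTheory Matrix

open scoped ComplexConjugate Matrix Real

noncomputable section

namespace ANIW

theorem mn_nonneg (R : ℕ) (x : ℝ) : 0 ≤ mn R x := by
  unfold mn
  positivity

theorem WW_nonneg (R c : ℕ) (t : ℝ) : 0 ≤ WW R c t :=
  Finset.sum_nonneg fun _ _ => mn_nonneg _ _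

theorem mulVec_eq {r : ℕ} (G : Matrix (Fin r) (Fin r) ℤ) (h : Fin r → ℤ) (i : Fin r) :
    (G *ᵥ h) i = ∑ j, G i j * h j := rfl

theorem mulVec_split {r : ℕ} (G : Matrix (Fin (r + 1)) (Fin (r + 1)) ℤ) (k : Fin (r + 1))
    (h : Fin (r + 1) → ℤ) (i : Fin (r + 1)) :
    (G *ᵥ h) i = G i k * h k + ∑ j, G i (k.succAbove j) * h (k.succAbove j) := by
  rw [mulVec_eq, Fin.sum_univ_succAbove _ k]

/-- the Schur complement, multiplied by the pivot -/
def sch {r : ℕ} (G : Matrix (Fin (r + 1)) (Fin (r + 1)) ℤ) (k : Fin (r + 1)) :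
    Matrix (Fin r) (Fin r) ℤ :=
  fun i j => G k k * G (k.succAbove i) (k.succAbove j) - G (k.succAbove i) k * G k (k.succAbove j)

theorem pivot_pos {r : ℕ} {G : Matrix (Fin (r + 1)) (Fin (r + 1)) ℤ} (hG : PD G)
    (k : Fin (r + 1)) : 0 < G k k := by
  have h1 := hG.2 (Pi.single k 1) (by
    intro h
    have := congrFun h k
    simp at this)
  simpa using h1

theorem sch_pd {r : ℕ} {G : Matrix (Fin (r + 1)) (Fin (r + 1)) ℤ} (hG : PD G)
    (k : Fin (r + 1)) : PD (sch G k) := by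
  have hsym : ∀ i j, G i j = G j i := fun i j => by
    have := congrFun (congrFun hG.1 j) i
    rwa [Matrix.transpose_apply] at this
  refine ⟨?_, fun x hx => ?_⟩
  · ext i j
    simp only [Matrix.transpose_apply, sch]
    rw [hsym (k.succAbove j) (k.succAbove i), hsym (k.succAbove j) k, hsym k (k.succAbove i)]
    ring
  · have hg := pivot_pos hG k
    set h : Fin (r + 1) → ℤ :=
      k.insertNth (-∑ j, G k (k.succAbove j) * x j) (fun j => G k k * x j) with hh
    have hk : h k = -∑ j, G k (k.succAbove j) * x j := by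
      rw [hh, Fin.insertNth_apply_same]
    have hj : ∀ j, h (k.succAbove j) = G k k * x j := fun j => by
      rw [hh, Fin.insertNth_apply_succAbove]
    have hne : h ≠ 0 := by
      intro h0
      apply hx
      funext j
      have h1 := congrFun h0 (k.succAbove j)
      rw [hj, Pi.zero_apply] at h1
      rcases mul_eq_zero.1 h1 with h2 | h2
      · exact absurd h2 hg.ne'
      · rw [h2, Pi.zero_apply]
    have h1 := hG.2 h hne
    have h2 : (G *ᵥ h) k = 0 := by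
      rw [mulVec_split G k, hk]
      simp only [hj]
      have : ∑ j, G k (k.succAbove j) * (G k k * x j) = G k k * ∑ j, G k (k.succAbove j) * x j := by
        rw [Finset.mul_sum]
        exact Finset.sum_congr rfl fun j _ => by ring
      rw [this]
      ring
    have h3 : ∀ i, (G *ᵥ h) (k.succAbove i) = (sch G k *ᵥ x) i := by
      intro i
      rw [mulVec_split G k, hk, mulVec_eq]
      simp only [hj, sch]
      rw [mul_neg, Finset.mul_sum, ← Finset.sum_neg_distrib, ← Finset.sum_add_distrib]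
      exact Finset.sum_congr rfl fun j _ => by ring
    have h4 : h ⬝ᵥ (G *ᵥ h) = G k k * (x ⬝ᵥ (sch G k *ᵥ x)) := by
      rw [dotProduct, Fin.sum_univ_succAbove _ k, h2, mul_zero, zero_add, dotProduct,
        Finset.mul_sum]
      exact Finset.sum_congr rfl fun i _ => by rw [h3, hj]; ring
    rw [h4] at h1
    exact (mul_pos_iff_of_pos_left hg).1 h1

/-- the statement for a given dimension -/
def St (r : ℕ) : Prop := ∀ (G : Matrix (Fin r) (Fin r) ℤ), PD G → ∃ c : ℕ, 1 ≤ c ∧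
  ∀ (R : Fin r → ℕ) (t : ℝ) (γ : Fin r → ℝ), (∀ i, 1 ≤ R i) →
    ∑ h ∈ Fintype.piFinset (fun i => Finset.Icc (-(R i : ℤ)) (R i)),
      ∏ i, mn (R i) (γ i + t * (((G *ᵥ h) i : ℤ) : ℝ)) ≤ c * ∏ i, WW (R i) c t

/-- the shift in the coordinates different from the pivot -/
def sft {r : ℕ} (G : Matrix (Fin (r + 1)) (Fin (r + 1)) ℤ) (k : Fin (r + 1)) (y : ℤ)
    (b : Fin r → ℤ) (i : Fin r) : ℝ :=
  (G (k.succAbove i) k : ℝ) / (G k k : ℝ) * ((y : ℝ) - ∑ j, (G k (k.succAbove j) : ℝ) * (b j : ℝ)) +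
    ∑ j, (G (k.succAbove i) (k.succAbove j) : ℝ) * (b j : ℝ)

theorem coord {r : ℕ} {G : Matrix (Fin (r + 1)) (Fin (r + 1)) ℤ} (k : Fin (r + 1))
    (hg : G k k ≠ 0) (h : Fin (r + 1) → ℤ) (b x : Fin r → ℤ)
    (hb : ∀ j, h (k.succAbove j) = G k k * x j + b j) (i : Fin r) :
    (((G *ᵥ h) (k.succAbove i) : ℤ) : ℝ) =
      sft G k ((G *ᵥ h) k) b i + (((sch G k *ᵥ x) i : ℤ) : ℝ) := by
  have hg' : (G k k : ℝ) ≠ 0 := by exact_mod_cast hg
  have e1 : (((G *ᵥ h) k : ℤ) : ℝ) = (G k k : ℝ) * (h k : ℝ) +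
      ∑ j, (G k (k.succAbove j) : ℝ) * ((G k k : ℝ) * (x j : ℝ) + (b j : ℝ)) := by
    rw [mulVec_split G k]
    push_cast
    congr 1
    exact Finset.sum_congr rfl fun j _ => by rw [hb]; push_cast; ring
  have e2 : (((G *ᵥ h) (k.succAbove i) : ℤ) : ℝ) = (G (k.succAbove i) k : ℝ) * (h k : ℝ) +
      ∑ j, (G (k.succAbove i) (k.succAbove j) : ℝ) * ((G k k : ℝ) * (x j : ℝ) + (b j : ℝ)) := by
    rw [mulVec_split G k]
    push_cast
    congr 1
    exact Finset.sum_congr rfl fun j _ => by rw [hb]; push_cast; ring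
  have e3 : (((sch G k *ᵥ x) i : ℤ) : ℝ) =
      ∑ j, ((G k k : ℝ) * (G (k.succAbove i) (k.succAbove j) : ℝ) -
        (G (k.succAbove i) k : ℝ) * (G k (k.succAbove j) : ℝ)) * (x j : ℝ) := by
    rw [mulVec_eq]
    push_cast
    exact Finset.sum_congr rfl fun j _ => by simp only [sch]; push_cast; ring
  have e4 : ∑ j, (G k (k.succAbove j) : ℝ) * ((G k k : ℝ) * (x j : ℝ) + (b j : ℝ)) =
      (G k k : ℝ) * ∑ j, (G k (k.succAbove j) : ℝ) * (x j : ℝ) +
        ∑ j, (G k (k.succAbove j) : ℝ) * (b j : ℝ) := by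
    rw [Finset.mul_sum, ← Finset.sum_add_distrib]
    exact Finset.sum_congr rfl fun j _ => by ring
  have e5 : ∑ j, (G (k.succAbove i) (k.succAbove j) : ℝ) * ((G k k : ℝ) * (x j : ℝ) + (b j : ℝ)) =
      ∑ j, (G (k.succAbove i) (k.succAbove j) : ℝ) * (G k k : ℝ) * (x j : ℝ) +
        ∑ j, (G (k.succAbove i) (k.succAbove j) : ℝ) * (b j : ℝ) := by
    rw [← Finset.sum_add_distrib]
    exact Finset.sum_congr rfl fun j _ => by ring
  have e6 : ∑ j, ((G k k : ℝ) * (G (k.succAbove i) (k.succAbove j) : ℝ) -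
        (G (k.succAbove i) k : ℝ) * (G k (k.succAbove j) : ℝ)) * (x j : ℝ) =
      ∑ j, (G (k.succAbove i) (k.succAbove j) : ℝ) * (G k k : ℝ) * (x j : ℝ) -
        (G (k.succAbove i) k : ℝ) * ∑ j, (G k (k.succAbove j) : ℝ) * (x j : ℝ) := by
    rw [Finset.mul_sum, ← Finset.sum_sub_distrib]
    exact Finset.sum_congr rfl fun j _ => by ring
  rw [e2, e3, sft, e1, e4, e5, e6]
  field_simp
  ring_nf

theorem abs_le {r : ℕ} (G : Matrix (Fin r) (Fin r) ℤ) (k : Fin r) (R : Fin r → ℕ)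
    (hR : ∀ i, R i ≤ R k) (h : Fin r → ℤ) (hh : ∀ i, |h i| ≤ R i) :
    |(G *ᵥ h) k| ≤ ((∑ j, (G k j).natAbs) * R k : ℕ) := by
  rw [mulVec_eq]
  refine (Finset.abs_sum_le_sum_abs _ _).trans ?_
  push_cast
  rw [Finset.sum_mul]
  refine Finset.sum_le_sum fun j _ => ?_
  rw [abs_mul]
  have h1 : |h j| ≤ (R k : ℤ) := (hh j).trans (by exact_mod_cast hR j)
  exact mul_le_mul_of_nonneg_left h1 (abs_nonneg _)

theorem step (hS : S_SHFT) (hW : S_WWF) {r : ℕ} (ih : St r)
    {G : Matrix (Fin (r + 1)) (Fin (r + 1)) ℤ} (hG : PD G) (k : Fin (r + 1)) :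
    ∃ c : ℕ, 1 ≤ c ∧ ∀ (R : Fin (r + 1) → ℕ) (t : ℝ) (γ : Fin (r + 1) → ℝ), (∀ i, 1 ≤ R i) →
      (∀ i, R i ≤ R k) →
      ∑ h ∈ Fintype.piFinset (fun i => Finset.Icc (-(R i : ℤ)) (R i)),
        ∏ i, mn (R i) (γ i + t * (((G *ᵥ h) i : ℤ) : ℝ)) ≤ c * ∏ i, WW (R i) c t := by
  obtain ⟨c', hc', hI⟩ := ih (sch G k) (sch_pd hG k)
  have hg := pivot_pos hG k
  set g : ℕ := (G k k).natAbs with hgdef
  have hgz : (g : ℤ) = G k k := by rw [hgdef, Int.natCast_natAbs, abs_of_pos hg]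
  have hg1 : 1 ≤ g := by
    have : (0 : ℤ) < g := by rw [hgz]; exact hg
    exact_mod_cast this
  set C : ℕ := ∑ j, (G k j).natAbs with hC
  refine ⟨2 * g ^ r * c' + 2 * C, ?_, fun R t γ hR1 hRk => ?_⟩
  · have : 1 ≤ g ^ r * c' := Nat.mul_pos (Nat.pow_pos hg1) hc'
    nlinarith
  set T1 : Finset ℤ := Finset.Icc (-((C * R k : ℕ) : ℤ)) ((C * R k : ℕ) : ℤ) with hT1
  set T2 : Finset (Fin r → ℤ) := Fintype.piFinset (fun _ => Finset.Ico (0 : ℤ) g) with hT2
  set T3 : Finset (Fin r → ℤ) :=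
    Fintype.piFinset (fun i => Finset.Icc (-(R (k.succAbove i) : ℤ)) (R (k.succAbove i))) with hT3
  let F : ℤ × (Fin r → ℤ) × (Fin r → ℤ) → ℝ := fun p =>
    mn (R k) (γ k + t * (p.1 : ℝ)) * ∏ i, mn (R (k.succAbove i))
      ((γ (k.succAbove i) + t * sft G k p.1 p.2.1 i) + t * (((sch G k *ᵥ p.2.2) i : ℤ) : ℝ))
  let φ : (Fin (r + 1) → ℤ) → ℤ × (Fin r → ℤ) × (Fin r → ℤ) := fun h =>
    ((G *ᵥ h) k, fun j => h (k.succAbove j) % g, fun j => h (k.succAbove j) / g)
  have hF0 : ∀ p, 0 ≤ F p := fun p =>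
    mul_nonneg (mn_nonneg _ _) (Finset.prod_nonneg fun _ _ => mn_nonneg _ _)
  have hdec : ∀ (h : Fin (r + 1) → ℤ) (j : Fin r), h (k.succAbove j) =
      G k k * (h (k.succAbove j) / g) + h (k.succAbove j) % g := by
    intro h j
    rw [← hgz]
    exact (Int.mul_ediv_add_emod _ _).symm
  have h1 : ∀ h : Fin (r + 1) → ℤ, ∏ i, mn (R i) (γ i + t * (((G *ᵥ h) i : ℤ) : ℝ)) = F (φ h) := by
    intro h
    rw [Fin.prod_univ_succAbove _ k]
    change _ = mn (R k) (γ k + t * (((G *ᵥ h) k : ℤ) : ℝ)) * _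
    congr 1
    refine Finset.prod_congr rfl fun i _ => ?_
    rw [coord k hg.ne' h (fun j => h (k.succAbove j) % g) (fun j => h (k.succAbove j) / g)
      (hdec h) i, mul_add, ← add_assoc]
  have hinj : Function.Injective φ := by
    intro h h' he
    have e1 : (G *ᵥ h) k = (G *ᵥ h') k := congrArg Prod.fst he
    have e2 : (fun j => h (k.succAbove j) % (g : ℤ)) = fun j => h' (k.succAbove j) % (g : ℤ) :=
      congrArg (fun p => p.2.1) he
    have e3 : (fun j => h (k.succAbove j) / (g : ℤ)) = fun j => h' (k.succAbove j) / (g : ℤ) :=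
      congrArg (fun p => p.2.2) he
    have e4 : ∀ j, h (k.succAbove j) = h' (k.succAbove j) := by
      intro j
      have a2 : h (k.succAbove j) % (g : ℤ) = h' (k.succAbove j) % (g : ℤ) := congrFun e2 j
      have a3 : h (k.succAbove j) / (g : ℤ) = h' (k.succAbove j) / (g : ℤ) := congrFun e3 j
      rw [hdec h j, hdec h' j, a2, a3]
    have e5 : h k = h' k := by
      rw [mulVec_split G k, mulVec_split G k] at e1
      simp only [e4] at e1
      have e6 : G k k * h k = G k k * h' k := by linarith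
      exact mul_left_cancel₀ hg.ne' e6
    funext i
    rcases Fin.eq_self_or_eq_succAbove k i with rfl | ⟨j, rfl⟩
    · exact e5
    · exact e4 j
  have hmem : ∀ h ∈ Fintype.piFinset (fun i => Finset.Icc (-(R i : ℤ)) (R i)),
      φ h ∈ T1 ×ˢ (T2 ×ˢ T3) := by
    intro h hh
    rw [Fintype.mem_piFinset] at hh
    have hh' : ∀ i, -(R i : ℤ) ≤ h i ∧ h i ≤ R i := fun i => Finset.mem_Icc.1 (hh i)
    have hgp : (0 : ℤ) < g := by exact_mod_cast hg1
    rw [Finset.mem_product, Finset.mem_product]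
    refine ⟨?_, ?_, ?_⟩
    · rw [hT1, Finset.mem_Icc]
      exact _root_.abs_le.1 (abs_le G k R hRk h fun i => _root_.abs_le.2 (hh' i))
    · rw [hT2, Fintype.mem_piFinset]
      intro j
      rw [Finset.mem_Ico]
      exact ⟨Int.emod_nonneg _ hgp.ne', Int.emod_lt_of_pos _ hgp⟩
    · rw [hT3, Fintype.mem_piFinset]
      intro j
      rw [Finset.mem_Icc]
      obtain ⟨a1, a2⟩ := hh' (k.succAbove j)
      have hR0 : (0 : ℤ) ≤ R (k.succAbove j) := Int.natCast_nonneg _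
      constructor
      · change -(R (k.succAbove j) : ℤ) ≤ h (k.succAbove j) / (g : ℤ)
        rw [Int.le_ediv_iff_mul_le hgp]
        nlinarith
      · change h (k.succAbove j) / (g : ℤ) ≤ R (k.succAbove j)
        refine Int.ediv_le_of_le_mul hgp ?_
        nlinarith
  have h2 : ∑ h ∈ Fintype.piFinset (fun i => Finset.Icc (-(R i : ℤ)) (R i)),
      ∏ i, mn (R i) (γ i + t * (((G *ᵥ h) i : ℤ) : ℝ)) ≤ ∑ p ∈ T1 ×ˢ (T2 ×ˢ T3), F p := by
    rw [Finset.sum_congr rfl (fun h _ => h1 h), ← Finset.sum_image (f := F) (hinj.injOn)]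
    refine Finset.sum_le_sum_of_subset_of_nonneg ?_ fun p _ _ => hF0 p
    intro p hp
    obtain ⟨h, hh, rfl⟩ := Finset.mem_image.1 hp
    exact hmem h hh
  set P : ℝ := ∏ i, WW (R (k.succAbove i)) c' t with hP
  have hP0 : 0 ≤ P := Finset.prod_nonneg fun _ _ => WW_nonneg _ _ _
  have h3 : ∀ y ∈ T1, ∑ q ∈ T2 ×ˢ T3, F (y, q) ≤
      mn (R k) (γ k + t * (y : ℝ)) * ((g : ℝ) ^ r * (c' * P)) := by
    intro y _
    rw [Finset.sum_product]
    have h4 : ∀ b ∈ T2, ∑ x ∈ T3, F (y, (b, x)) ≤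
        mn (R k) (γ k + t * (y : ℝ)) * (c' * P) := by
      intro b _
      have h5 := hI (fun i => R (k.succAbove i)) t
        (fun i => γ (k.succAbove i) + t * sft G k y b i) (fun i => hR1 _)
      change ∑ x ∈ T3, mn (R k) (γ k + t * (y : ℝ)) * _ ≤ _
      rw [← Finset.mul_sum]
      exact mul_le_mul_of_nonneg_left h5 (mn_nonneg _ _)
    refine (Finset.sum_le_sum h4).trans ?_
    rw [Finset.sum_const, nsmul_eq_mul]
    have h6 : (T2.card : ℝ) = (g : ℝ) ^ r := by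
      rw [hT2, Fintype.card_piFinset]
      simp
    rw [h6]
    exact le_of_eq (by ring)
  have h7 : ∑ p ∈ T1 ×ˢ (T2 ×ˢ T3), F p ≤
      (∑ y ∈ T1, mn (R k) (γ k + t * (y : ℝ))) * ((g : ℝ) ^ r * (c' * P)) := by
    rw [Finset.sum_product, Finset.sum_mul]
    exact Finset.sum_le_sum h3
  have h8 : ∑ y ∈ T1, mn (R k) (γ k + t * (y : ℝ)) ≤ 2 * WW (R k) (2 * C) t := by
    have h9 := hS (R k) (2 * C * R k) (γ k) t T1 (by
      intro x hx y hy
      rw [hT1, Finset.mem_Icc] at hx hy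
      push_cast at hx hy ⊢
      rw [_root_.abs_le]
      constructor <;> nlinarith [hx.1, hx.2, hy.1, hy.2])
    exact h9
  set c : ℕ := 2 * g ^ r * c' + 2 * C with hc
  have hcc' : c' ≤ c := by
    have : 1 ≤ g ^ r := Nat.pow_pos hg1
    rw [hc]
    nlinarith
  have hcC : 2 * C ≤ c := by
    rw [hc]
    exact Nat.le_add_left _ _
  have h10 : P ≤ ∏ i, WW (R (k.succAbove i)) c t :=
    Finset.prod_le_prod (fun _ _ => WW_nonneg _ _ _) fun i _ => hW.mono _ _ _ _ _ le_rfl hcc'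
  have h11 : WW (R k) (2 * C) t ≤ WW (R k) c t := hW.mono _ _ _ _ _ le_rfl hcC
  have h12 : 0 ≤ (g : ℝ) ^ r * (c' * P) := by positivity
  rw [Fin.prod_univ_succAbove _ k]
  calc _ ≤ (∑ y ∈ T1, mn (R k) (γ k + t * (y : ℝ))) * ((g : ℝ) ^ r * (c' * P)) := h2.trans h7
    _ ≤ (2 * WW (R k) (2 * C) t) * ((g : ℝ) ^ r * (c' * P)) := mul_le_mul_of_nonneg_right h8 h12
    _ = (2 * (g : ℝ) ^ r * c') * (WW (R k) (2 * C) t * P) := by ring
    _ ≤ (2 * (g : ℝ) ^ r * c') *
        (WW (R k) c t * ∏ i, WW (R (k.succAbove i)) c t) := by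
      refine mul_le_mul_of_nonneg_left ?_ (by positivity)
      exact mul_le_mul h11 h10 hP0 (WW_nonneg _ _ _)
    _ ≤ (c : ℝ) * (WW (R k) c t * ∏ i, WW (R (k.succAbove i)) c t) := by
      refine mul_le_mul_of_nonneg_right ?_ (mul_nonneg (WW_nonneg _ _ _)
        (Finset.prod_nonneg fun _ _ => WW_nonneg _ _ _))
      rw [hc]
      push_cast
      have : (0 : ℝ) ≤ 2 * (C : ℝ) := by positivity
      linarith

theorem main (hW : S_WWF) (hS : S_SHFT) (r : ℕ) : St r := by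
  induction r with
  | zero =>
    intro G _
    refine ⟨1, le_rfl, fun R t γ _ => ?_⟩
    simp
  | succ r ih =>
    intro G hG
    choose c hc1 hc using fun k => step hS hW ih hG k
    refine ⟨∑ k, c k, ?_, fun R t γ hR1 => ?_⟩
    · exact (hc1 0).trans (Finset.single_le_sum (fun _ _ => Nat.zero_le _) (Finset.mem_univ 0))
    · obtain ⟨k, -, hk⟩ := Finset.exists_max_image Finset.univ R ⟨0, Finset.mem_univ _⟩
      have hle : c k ≤ ∑ k, c k :=
        Finset.single_le_sum (fun _ _ => Nat.zero_le _) (Finset.mem_univ k)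
      refine (hc k R t γ hR1 fun i => hk i (Finset.mem_univ i)).trans ?_
      refine mul_le_mul (by exact_mod_cast hle) ?_
        (Finset.prod_nonneg fun _ _ => WW_nonneg _ _ _) (Nat.cast_nonneg _)
      exact Finset.prod_le_prod (fun _ _ => WW_nonneg _ _ _) fun i _ =>
        hW.mono _ _ _ _ _ le_rfl hle

end ANIW

theorem t_ANIW : M_ANIW := by
  intro hW hS r G hG
  exact ANIW.main hW hS r G hG

end

end STZ
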