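import Pool.Agent.STZ.StmtsA

/-!
# BERN: the pointwise bound for projections
-/

namespace STZ

open MeasureTheory Matrix

open scoped ComplexConjugate Matrix Real

noncomputable section

namespace BERN

section

variable {M : Type} [TopologicalSpace M] [CompactSpace M] [T2Space M]
  [SecondCountableTopology M] [MeasurableSpace M] [BorelSpace M] (μ : Measure M)
  [IsProbabilityMeasure μ]

theorem integrable {E : Type} [NormedAddCommGroup E] {f : M → E} (hf : Continuous f) :
    Integrable f μ :=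
  hf.integrable_of_hasCompactSupport (HasCompactSupport.of_compactSpace f)

theorem memLp {f : M → ℝ} (hf : Continuous f) (p : ENNReal) : MemLp f p μ :=
  hf.memLp_of_hasCompactSupport (HasCompactSupport.of_compactSpace f)

/-- Cauchy-Schwarz -/
theorem cs {f g : M → ℂ} (hf : Continuous f) (hg : Continuous g) :
    ‖∫ y, f y * g y ∂μ‖ ^ 2 ≤ (∫ y, ‖f y‖ ^ 2 ∂μ) * ∫ y, ‖g y‖ ^ 2 ∂μ := by
  have h1 : ‖∫ y, f y * g y ∂μ‖ ≤ ∫ y, ‖f y‖ * ‖g y‖ ∂μ := by
    refine (norm_integral_le_integral_norm _).trans (le_of_eq ?_)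
    exact integral_congr_ae (Filter.Eventually.of_forall fun y => norm_mul _ _)
  have h2 := integral_mul_le_Lp_mul_Lq_of_nonneg (μ := μ) Real.HolderConjugate.two_two
    (f := fun y => ‖f y‖) (g := fun y => ‖g y‖)
    (Filter.Eventually.of_forall fun y => norm_nonneg _)
    (Filter.Eventually.of_forall fun y => norm_nonneg _) (memLp μ hf.norm _) (memLp μ hg.norm _)
  have ef : ∫ y, ‖f y‖ ^ (2 : ℝ) ∂μ = ∫ y, ‖f y‖ ^ 2 ∂μ :=
    integral_congr_ae (Filter.Eventually.of_forall fun y => Real.rpow_two _)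
  have eg : ∫ y, ‖g y‖ ^ (2 : ℝ) ∂μ = ∫ y, ‖g y‖ ^ 2 ∂μ :=
    integral_congr_ae (Filter.Eventually.of_forall fun y => Real.rpow_two _)
  rw [ef, eg] at h2
  have hf0 : 0 ≤ ∫ y, ‖f y‖ ^ 2 ∂μ := integral_nonneg fun y => by positivity
  have hg0 : 0 ≤ ∫ y, ‖g y‖ ^ 2 ∂μ := integral_nonneg fun y => by positivity
  have h3 := pow_le_pow_left₀ (norm_nonneg _) (h1.trans h2) 2
  refine h3.trans (le_of_eq ?_)
  rw [mul_pow, ← Real.sqrt_eq_rpow, ← Real.sqrt_eq_rpow, Real.sq_sqrt hf0, Real.sq_sqrt hg0]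

variable {ι : Type} {K : ι → M → M → ℂ}

theorem cont1 (h : Ker μ K) (a : ι) (x : M) : Continuous fun y => K a x y :=
  (h.cont a).comp (f := fun y : M => (x, y)) (by fun_prop)

theorem cont2 (h : Ker μ K) (a : ι) (x : M) : Continuous fun y => K a y x :=
  (h.cont a).comp (f := fun y : M => (y, x)) (by fun_prop)

/-- the square of the kernel -/
theorem ksq (h : Ker μ K) (S : Finset ι) (x : M) :
    ((∫ y, ‖∑ a ∈ S, K a x y‖ ^ 2 ∂μ : ℝ) : ℂ) = ∑ a ∈ S, K a x x := by
  classical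
  have e1 : ((∫ y, ‖∑ a ∈ S, K a x y‖ ^ 2 ∂μ : ℝ) : ℂ) =
      ∫ y, ∑ a ∈ S, ∑ b ∈ S, K a x y * K b y x ∂μ := by
    rw [← integral_complex_ofReal]
    refine integral_congr_ae (Filter.Eventually.of_forall fun y => ?_)
    show ((‖∑ a ∈ S, K a x y‖ ^ 2 : ℝ) : ℂ) = _
    rw [Complex.ofReal_pow, ← Complex.mul_conj', map_sum, Finset.sum_mul_sum]
    refine Finset.sum_congr rfl fun a _ => Finset.sum_congr rfl fun b _ => ?_
    rw [← h.herm b y x]
  rw [e1, integral_finsetSum]
  · refine Finset.sum_congr rfl fun a ha => ?_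
    rw [integral_finsetSum]
    · rw [Finset.sum_eq_single a]
      · exact h.rep a x x
      · intro b _ hb
        exact h.orth a b x x (Ne.symm hb)
      · intro hn
        exact absurd ha hn
    · intro b _
      exact integrable μ ((cont1 μ h a x).mul (cont2 μ h b x))
  · intro a _
    exact integrable μ (continuous_finsetSum _ fun b _ =>
      (cont1 μ h a x).mul (cont2 μ h b x))

end

end BERN

theorem t_BERN : M_BERN := by
  intro hKB M _ _ _ _ _ _ μ _ ι K hK S u x hu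
  have hF := hKB M μ ι K hK
  set v := Pr μ K S u with hv
  have hvc : Continuous v := hF.cont S u hu
  have hvv : v x = ∫ y, (∑ a ∈ S, K a x y) * v y ∂μ := by
    have e1 : Pr μ K S v x = v x := congrFun (hF.idem S u hu) x
    rw [← e1, Pr, ← integral_finsetSum]
    · refine integral_congr_ae (Filter.Eventually.of_forall fun y => ?_)
      exact (Finset.sum_mul S (fun a => K a x y) (v y)).symm
    · intro a _
      exact BERN.integrable μ ((BERN.cont1 μ hK a x).mul hvc)
  have hk : Continuous fun y => ∑ a ∈ S, K a x y :=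
    continuous_finsetSum _ fun a _ => BERN.cont1 μ hK a x
  have h1 := BERN.cs μ hk hvc
  rw [← hvv] at h1
  refine h1.trans (mul_le_mul_of_nonneg_right ?_ (integral_nonneg fun y => by positivity))
  have h2 := BERN.ksq μ hK S x
  have h3 : 0 ≤ ∫ y, ‖∑ a ∈ S, K a x y‖ ^ 2 ∂μ := integral_nonneg fun y => by positivity
  have h4 : ‖((∫ y, ‖∑ a ∈ S, K a x y‖ ^ 2 ∂μ : ℝ) : ℂ)‖ = ∫ y, ‖∑ a ∈ S, K a x y‖ ^ 2 ∂μ := by
    rw [Complex.norm_real, Real.norm_of_nonneg h3]
  rw [← h4, h2]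
  exact norm_sum_le _ _

end

end STZ
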