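import Pool.Agent.STZ.StmtsU

/-!
# STZ, module CAUC: Cauchy's estimate for exponential sums
-/

namespace STZ

open MeasureTheory Matrix

open scoped ComplexConjugate Matrix Real

noncomputable section

namespace CAUC

/-- the exponential sum on a complex line -/
theorem hasDeriv {r : ℕ} (T : Finset (Fin r → ℤ)) (b : (Fin r → ℤ) → ℂ) (ζ : Fin r → ℂ)
    (q : Fin r → ℤ) (z : ℂ) :
    HasDerivAt (fun z : ℂ => ES T b (fun i => ζ i + z * (q i : ℂ)))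
      (∑ ν ∈ T, b ν * (Complex.exp (2 * π * Complex.I * ∑ i, (ν i : ℂ) * (ζ i + z * (q i : ℂ))) *
        (2 * π * Complex.I * ∑ i, (ν i : ℂ) * (q i : ℂ)))) z := by
  unfold ES
  apply HasDerivAt.fun_sum
  intro ν _
  apply HasDerivAt.const_mul
  apply HasDerivAt.cexp
  apply HasDerivAt.const_mul
  apply HasDerivAt.fun_sum
  intro i _
  apply HasDerivAt.const_mul
  have h : HasDerivAt (fun z : ℂ => ζ i + z * (q i : ℂ)) (1 * (q i : ℂ)) z :=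
    ((hasDerivAt_id z).mul_const (q i : ℂ)).const_add (ζ i)
  rwa [one_mul] at h

theorem step {r : ℕ} (T : Finset (Fin r → ℤ)) (b : (Fin r → ℤ) → ℂ) (ζ : Fin r → ℂ)
    (q : Fin r → ℤ) (δ B : ℝ) (hδ : 0 < δ)
    (h : ∀ ζ' : Fin r → ℂ, (∀ i, ‖ζ' i - ζ i‖ ≤ δ) → ‖ES T b ζ'‖ ≤ B) :
    ‖ES T (fun ν => ((q ⬝ᵥ ν : ℤ) : ℂ) * b ν) ζ‖ ≤ (1 + ∑ i, |(q i : ℝ)|) / δ * B := by
  set A : ℝ := 1 + ∑ i, |(q i : ℝ)| with hA
  have hA1 : 1 ≤ A := by
    have : 0 ≤ ∑ i, |(q i : ℝ)| := Finset.sum_nonneg fun i _ => abs_nonneg _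
    linarith
  have hA0 : 0 < A := by linarith
  have hB : 0 ≤ B := le_trans (norm_nonneg _) (h ζ fun i => by simpa using hδ.le)
  have hR : 0 < δ / A := div_pos hδ hA0
  let g : ℂ → ℂ := fun z => ES T b (fun i => ζ i + z * (q i : ℂ))
  have hg : Differentiable ℂ g := fun z => (hasDeriv T b ζ q z).differentiableAt
  have hC : ∀ z ∈ Metric.sphere (0 : ℂ) (δ / A), ‖g z‖ ≤ B := by
    intro z hz
    apply h
    intro i
    have hz' : ‖z‖ = δ / A := by simpa using hz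
    rw [add_sub_cancel_left, norm_mul, hz']
    have h1 : ‖((q i : ℤ) : ℂ)‖ ≤ A := by
      rw [Complex.norm_intCast]
      have : |(q i : ℝ)| ≤ ∑ j, |(q j : ℝ)| :=
        Finset.single_le_sum (f := fun j => |(q j : ℝ)|) (fun j _ => abs_nonneg _)
          (Finset.mem_univ i)
      linarith
    calc δ / A * ‖((q i : ℤ) : ℂ)‖ ≤ δ / A * A := mul_le_mul_of_nonneg_left h1 hR.le
      _ = δ := div_mul_cancel₀ _ hA0.ne'
  have h2 := Complex.norm_deriv_le_of_forall_mem_sphere_norm_le hR (hg.diffContOnCl) hC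
  have h3 : deriv g 0 = (2 * π * Complex.I) * ES T (fun ν => ((q ⬝ᵥ ν : ℤ) : ℂ) * b ν) ζ := by
    rw [(hasDeriv T b ζ q 0).deriv]
    unfold ES
    rw [Finset.mul_sum]
    refine Finset.sum_congr rfl fun ν _ => ?_
    have e1 : ∑ i, (ν i : ℂ) * (ζ i + 0 * (q i : ℂ)) = ∑ i, (ν i : ℂ) * ζ i := by
      refine Finset.sum_congr rfl fun i _ => ?_
      ring
    have e2 : ((q ⬝ᵥ ν : ℤ) : ℂ) = ∑ i, (ν i : ℂ) * (q i : ℂ) := by
      rw [dotProduct]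
      push_cast
      refine Finset.sum_congr rfl fun i _ => ?_
      ring
    simp only [e1, e2]
    ring
  rw [h3, norm_mul] at h2
  have h4 : 1 ≤ ‖(2 * π * Complex.I : ℂ)‖ := by
    rw [norm_mul, Complex.norm_I, mul_one]
    have : ‖(2 * π : ℂ)‖ = 2 * π := by
      rw [norm_mul, Complex.norm_real, Real.norm_of_nonneg Real.pi_pos.le]
      simp
    rw [this]
    linarith [Real.pi_gt_three]
  calc ‖ES T (fun ν => ((q ⬝ᵥ ν : ℤ) : ℂ) * b ν) ζ‖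
      ≤ ‖(2 * π * Complex.I : ℂ)‖ * ‖ES T (fun ν => ((q ⬝ᵥ ν : ℤ) : ℂ) * b ν) ζ‖ :=
        le_mul_of_one_le_left (norm_nonneg _) h4
    _ ≤ B / (δ / A) := h2
    _ = A / δ * B := by
      field_simp

end CAUC

open CAUC in
theorem t_CAUC : S_CAUC := by
  intro r P
  classical
  induction P using Finset.induction_on with
  | empty =>
    refine ⟨0, le_rfl, ?_⟩
    intro T b ζ₀ ρ B hρ hB h
    have h1 := h ζ₀ fun i => by simpa using hρ.le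
    simpa using h1
  | insert q P hq ih =>
    obtain ⟨C, hC, ih⟩ := ih
    refine ⟨2 * C + 2 * (1 + ∑ i, |(q.2 i : ℝ)|), ?_, ?_⟩
    · have : 0 ≤ ∑ i, |(q.2 i : ℝ)| := Finset.sum_nonneg fun i _ => abs_nonneg _
      positivity
    intro T b ζ₀ ρ B hρ hB h
    have hs : 0 ≤ ∑ i, |(q.2 i : ℝ)| := Finset.sum_nonneg fun i _ => abs_nonneg _
    have hρ2 : 0 < ρ / 2 := by positivity
    have h1 : ∀ ζ : Fin r → ℂ, (∀ i, ‖ζ i - ζ₀ i‖ ≤ ρ / 2) →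
        ‖ES T (fun ν => (∏ p ∈ P, ((p.2 ⬝ᵥ ν : ℤ) : ℂ)) * b ν) ζ‖ ≤
          (C / (ρ / 2)) ^ P.card * B := by
      intro ζ hζ
      apply ih T b ζ (ρ / 2) B hρ2 hB
      intro ζ' hζ'
      apply h
      intro i
      calc ‖ζ' i - ζ₀ i‖ = ‖(ζ' i - ζ i) + (ζ i - ζ₀ i)‖ := by ring_nf
        _ ≤ ‖ζ' i - ζ i‖ + ‖ζ i - ζ₀ i‖ := norm_add_le _ _
        _ ≤ ρ / 2 + ρ / 2 := add_le_add (hζ' i) (hζ i)
        _ = ρ := by ring
    have h2 := step T (fun ν => (∏ p ∈ P, ((p.2 ⬝ᵥ ν : ℤ) : ℂ)) * b ν) ζ₀ q.2 (ρ / 2)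
      ((C / (ρ / 2)) ^ P.card * B) hρ2 h1
    have e : (fun ν => ((q.2 ⬝ᵥ ν : ℤ) : ℂ) * ((∏ p ∈ P, ((p.2 ⬝ᵥ ν : ℤ) : ℂ)) * b ν)) =
        fun ν => (∏ p ∈ insert q P, ((p.2 ⬝ᵥ ν : ℤ) : ℂ)) * b ν := by
      funext ν
      rw [Finset.prod_insert hq, mul_assoc]
    rw [e] at h2
    refine le_trans h2 ?_
    rw [Finset.card_insert_of_notMem hq, pow_succ']
    have h3 : (1 + ∑ i, |(q.2 i : ℝ)|) / (ρ / 2) ≤
        (2 * C + 2 * (1 + ∑ i, |(q.2 i : ℝ)|)) / ρ := by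
      rw [div_div_eq_mul_div]
      apply div_le_div_of_nonneg_right _ hρ.le
      nlinarith
    have h4 : (C / (ρ / 2)) ^ P.card ≤
        ((2 * C + 2 * (1 + ∑ i, |(q.2 i : ℝ)|)) / ρ) ^ P.card := by
      apply pow_le_pow_left₀ (by positivity)
      rw [div_div_eq_mul_div]
      apply div_le_div_of_nonneg_right _ hρ.le
      nlinarith
    have h5 : 0 ≤ (2 * C + 2 * (1 + ∑ i, |(q.2 i : ℝ)|)) / ρ := by positivity
    calc (1 + ∑ i, |(q.2 i : ℝ)|) / (ρ / 2) * ((C / (ρ / 2)) ^ P.card * B)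
        ≤ (2 * C + 2 * (1 + ∑ i, |(q.2 i : ℝ)|)) / ρ *
          (((2 * C + 2 * (1 + ∑ i, |(q.2 i : ℝ)|)) / ρ) ^ P.card * B) := by
          apply mul_le_mul h3 _ (by positivity) h5
          exact mul_le_mul_of_nonneg_right h4 hB
      _ = _ := by ring

end

end STZ
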