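import Pool.Agent.STZ.StmtsR

/-!
# Module CHAR: orthogonality of characters
-/

set_option autoImplicit false

namespace STZ

open MeasureTheory Matrix

open scoped ComplexConjugate Matrix Real

noncomputable section

namespace CHAR

variable {G : Type} [Group G] [TopologicalSpace G] [CompactSpace G] [MeasurableSpace G]
  [BorelSpace G] (μ : Measure G) [IsProbabilityMeasure μ]

theorem cont_entry {ι : Type} [Fintype ι] [DecidableEq ι] (R : Rep G ι) (i j : ι) :
    Continuous fun g => R.ρ g i j :=
  R.cont.matrix_elem i j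

theorem integrable_prod {ι κ : Type} [Fintype ι] [DecidableEq ι] [Fintype κ] [DecidableEq κ]
    (R : Rep G ι) (R' : Rep G κ) (i j : ι) (k l : κ) :
    Integrable (fun g => R.ρ g i j * conj (R'.ρ g k l)) μ := by
  have h : Continuous fun g => R.ρ g i j * conj (R'.ρ g k l) :=
    (cont_entry R i j).mul (Complex.continuous_conj.comp (cont_entry R' k l))
  exact h.integrable_of_hasCompactSupport (HasCompactSupport.of_compactSpace _)

theorem integral_ch {ι κ : Type} [Fintype ι] [DecidableEq ι] [Fintype κ] [DecidableEq κ]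
    (R : Rep G ι) (R' : Rep G κ) :
    ∫ g, R.ch g * conj (R'.ch g) ∂μ = ∑ i, ∑ k, ∫ g, R.ρ g i i * conj (R'.ρ g k k) ∂μ := by
  have h1 : ∀ g, R.ch g * conj (R'.ch g) = ∑ i, ∑ k, R.ρ g i i * conj (R'.ρ g k k) := by
    intro g
    rw [Rep.ch, Rep.ch, Matrix.trace, Matrix.trace, map_sum, Finset.sum_mul_sum]
    rfl
  simp only [h1]
  rw [integral_finsetSum _ fun i _ => integrable_finsetSum _ fun k _ => integrable_prod μ R R' i i k k]
  refine Finset.sum_congr rfl fun i _ => ?_
  rw [integral_finsetSum _ fun k _ => integrable_prod μ R R' i i k k]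

end CHAR

open CHAR

theorem t_CHAR : M_CHAR := by
  intro hS G _ _ _ _ _ _ _ _ μ _ _ ι _ _ R hR
  obtain ⟨h1, h2⟩ := hS G μ ι R hR
  refine ⟨?_, ?_⟩
  · rw [integral_ch]
    have hne := hR.1
    have hcard : (Fintype.card ι : ℂ) ≠ 0 := Nat.cast_ne_zero.2 Fintype.card_ne_zero
    have h3 : ∀ i : ι, ∑ k, ∫ g, R.ρ g i i * conj (R.ρ g k k) ∂μ = 1 / (Fintype.card ι : ℂ) := by
      intro i
      rw [Finset.sum_eq_single i]
      · rw [h1, if_pos ⟨rfl, rfl⟩]
      · intro k _ hk
        rw [h1, if_neg fun h => hk h.1.symm]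
      · intro h
        exact absurd (Finset.mem_univ i) h
    simp only [h3]
    rw [Finset.sum_const, Finset.card_univ, nsmul_eq_mul]
    field_simp
  · intro κ _ _ R' hR'
    rcases h2 κ R' hR' with h | h
    · exact Or.inl h
    · right
      rw [integral_ch]
      refine Finset.sum_eq_zero fun i _ => Finset.sum_eq_zero fun k _ => h i i k k

end

end STZ
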