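import Pool.Agent.STZ.StmtsR

/-!
# Decomposition of a unitary matrix representation into irreducible ones
-/

namespace STZ

open MeasureTheory Matrix

open scoped ComplexConjugate Matrix Real

noncomputable section

namespace DECO

variable {G : Type} [Group G] [TopologicalSpace G]

/-- linear combinations of matrix entries -/
def Lin {K : Type} [Fintype K] (τ : K → Σ n : ℕ, Rep G (Fin n)) (f : G → ℂ) : Prop :=
  ∃ c : ∀ k, Matrix (Fin (τ k).1) (Fin (τ k).1) ℂ,
    ∀ g, f g = ∑ k, ∑ p, ∑ q, c k p q * (τ k).2.ρ g p q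

lemma Lin.add {K : Type} [Fintype K] {τ : K → Σ n : ℕ, Rep G (Fin n)} {f f' : G → ℂ}
    (h : Lin τ f) (h' : Lin τ f') : Lin τ (fun g => f g + f' g) := by
  obtain ⟨c, hc⟩ := h
  obtain ⟨c', hc'⟩ := h'
  refine ⟨fun k => c k + c' k, fun g => ?_⟩
  simp only [hc g, hc' g, Matrix.add_apply, add_mul, Finset.sum_add_distrib]

lemma Lin.zero {K : Type} [Fintype K] {τ : K → Σ n : ℕ, Rep G (Fin n)} :
    Lin τ (fun _ => 0) := by
  refine ⟨fun k => 0, fun g => ?_⟩
  simp

lemma Lin.smul {K : Type} [Fintype K] {τ : K → Σ n : ℕ, Rep G (Fin n)} {f : G → ℂ}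
    (h : Lin τ f) (a : ℂ) : Lin τ (fun g => a * f g) := by
  obtain ⟨c, hc⟩ := h
  refine ⟨fun k => a • c k, fun g => ?_⟩
  simp only [hc g, Matrix.smul_apply, smul_eq_mul, Finset.mul_sum, mul_assoc]

lemma Lin.sum {K : Type} [Fintype K] {τ : K → Σ n : ℕ, Rep G (Fin n)} {α : Type}
    (s : Finset α) (f : α → G → ℂ) (h : ∀ a ∈ s, Lin τ (f a)) :
    Lin τ (fun g => ∑ a ∈ s, f a g) := by
  classical
  induction s using Finset.induction_on with
  | empty => simpa using Lin.zero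
  | insert a s ha ih =>
    simp only [Finset.sum_insert ha]
    exact (h a (Finset.mem_insert_self _ _)).add
      (ih (fun b hb => h b (Finset.mem_insert_of_mem hb)))

lemma Lin.inl {K L : Type} [Fintype K] [Fintype L] {τ : K → Σ n : ℕ, Rep G (Fin n)}
    (τ' : L → Σ n : ℕ, Rep G (Fin n)) {f : G → ℂ}
    (h : Lin τ f) : Lin (Sum.elim τ τ') f := by
  obtain ⟨c, hc⟩ := h
  refine ⟨fun k => match k with
    | Sum.inl a => c a
    | Sum.inr b => 0, fun g => ?_⟩
  rw [hc g, Fintype.sum_sum_type]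
  simp
  rfl

lemma Lin.inr {K L : Type} [Fintype K] [Fintype L] {τ : K → Σ n : ℕ, Rep G (Fin n)}
    (τ' : L → Σ n : ℕ, Rep G (Fin n)) {f : G → ℂ}
    (h : Lin τ f) : Lin (Sum.elim τ' τ) f := by
  obtain ⟨c, hc⟩ := h
  refine ⟨fun k => match k with
    | Sum.inr a => c a
    | Sum.inl b => 0, fun g => ?_⟩
  rw [hc g, Fintype.sum_sum_type]
  simp
  rfl

/-- decomposable, with a general index type -/
def Good {ι : Type} [Fintype ι] [DecidableEq ι] (R : Rep G ι) : Prop :=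
  ∃ (K : Type) (_ : Fintype K) (τ : K → Σ n : ℕ, Rep G (Fin n)), (∀ k, (τ k).2.Irr) ∧
    (∀ g, R.ch g = ∑ k, (τ k).2.ch g) ∧ ∀ i j, Lin τ (fun g => R.ρ g i j)

lemma lin_conj {K : Type} [Fintype K] {τ : K → Σ n : ℕ, Rep G (Fin n)} {ι κ : Type} [Fintype ι]
    [DecidableEq ι] [Fintype κ] [DecidableEq κ] (R : Rep G κ) (A : Matrix ι κ ℂ)
    (B : Matrix κ ι ℂ) (h : ∀ p q, Lin τ (fun g => R.ρ g p q)) (i j : ι) :
    Lin τ (fun g => (A * R.ρ g * B) i j) := by
  have e : (fun g => (A * R.ρ g * B) i j) =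
      fun g => ∑ q, ∑ p, (A i p * B q j) * R.ρ g p q := by
    funext g
    rw [Matrix.mul_apply]
    refine Finset.sum_congr rfl fun q _ => ?_
    rw [Matrix.mul_apply, Finset.sum_mul]
    refine Finset.sum_congr rfl fun p _ => ?_
    ring
  rw [e]
  exact Lin.sum _ _ fun q _ => Lin.sum _ _ fun p _ => (h p q).smul _

lemma good_add {ι κ₁ κ₂ : Type} [Fintype ι] [DecidableEq ι] [Fintype κ₁] [DecidableEq κ₁]
    [Fintype κ₂] [DecidableEq κ₂] (R : Rep G ι) (R₁ : Rep G κ₁) (R₂ : Rep G κ₂)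
    (A₁ : Matrix ι κ₁ ℂ) (B₁ : Matrix κ₁ ι ℂ) (A₂ : Matrix ι κ₂ ℂ) (B₂ : Matrix κ₂ ι ℂ)
    (h : ∀ g, R.ρ g = A₁ * R₁.ρ g * B₁ + A₂ * R₂.ρ g * B₂) (h₁ : B₁ * A₁ = 1)
    (h₂ : B₂ * A₂ = 1) (g₁ : Good R₁) (g₂ : Good R₂) : Good R := by
  obtain ⟨K₁, i₁, τ₁, a₁, b₁, c₁⟩ := g₁
  obtain ⟨K₂, i₂, τ₂, a₂, b₂, c₂⟩ := g₂
  refine ⟨K₁ ⊕ K₂, inferInstance, Sum.elim τ₁ τ₂, ?_, ?_, ?_⟩
  · rintro (k | k)
    · exact a₁ k
    · exact a₂ k
  · intro g
    rw [Fintype.sum_sum_type]
    have e₁ : (A₁ * R₁.ρ g * B₁).trace = R₁.ch g := by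
      rw [Matrix.trace_mul_comm, ← Matrix.mul_assoc, h₁, Matrix.one_mul]
      rfl
    have e₂ : (A₂ * R₂.ρ g * B₂).trace = R₂.ch g := by
      rw [Matrix.trace_mul_comm, ← Matrix.mul_assoc, h₂, Matrix.one_mul]
      rfl
    have e : R.ch g = R₁.ch g + R₂.ch g := by
      rw [← e₁, ← e₂, ← Matrix.trace_add, ← h g]
      rfl
    rw [e, b₁ g, b₂ g]
    rfl
  · intro i j
    have e : (fun g => R.ρ g i j) =
        fun g => (A₁ * R₁.ρ g * B₁) i j + (A₂ * R₂.ρ g * B₂) i j := by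
      funext g
      rw [h g, Matrix.add_apply]
    rw [e]
    exact ((lin_conj R₁ A₁ B₁ c₁ i j).inl τ₂).add ((lin_conj R₂ A₂ B₂ c₂ i j).inr τ₁)

/-- the compression of a representation to an invariant subspace -/
def comp {ι κ : Type} [Fintype ι] [DecidableEq ι] [Fintype κ] [DecidableEq κ] (R : Rep G ι)
    (V : Matrix κ ι ℂ) (h₁ : V * Vᴴ = 1)
    (h₂ : ∀ g, Vᴴ * V * R.ρ g = R.ρ g * (Vᴴ * V)) : Rep G κ where
  ρ :=
    { toFun := fun g => V * R.ρ g * Vᴴ
      map_one' := by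
        rw [map_one, Matrix.mul_one, h₁]
      map_mul' := by
        intro g h
        rw [map_mul]
        have e : V * R.ρ g * Vᴴ * (V * R.ρ h * Vᴴ) =
            V * R.ρ g * (Vᴴ * V * R.ρ h) * Vᴴ := by
          simp only [Matrix.mul_assoc]
        rw [e, h₂ h]
        have e' : V * R.ρ g * (R.ρ h * (Vᴴ * V)) * Vᴴ =
            V * (R.ρ g * R.ρ h) * Vᴴ * (V * Vᴴ) := by
          simp only [Matrix.mul_assoc]
        rw [e', h₁, Matrix.mul_one] }
  cont := by
    have := R.cont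
    change Continuous fun g => V * R.ρ g * Vᴴ
    exact (continuous_const.matrix_mul this).matrix_mul continuous_const
  unit := by
    intro g
    change V * R.ρ g⁻¹ * Vᴴ = (V * R.ρ g * Vᴴ)ᴴ
    rw [R.unit g, Matrix.conjTranspose_mul, Matrix.conjTranspose_mul,
      Matrix.conjTranspose_conjTranspose, Matrix.mul_assoc]

lemma comp_ρ {ι κ : Type} [Fintype ι] [DecidableEq ι] [Fintype κ] [DecidableEq κ] (R : Rep G ι)
    (V : Matrix κ ι ℂ) (h₁ : V * Vᴴ = 1)
    (h₂ : ∀ g, Vᴴ * V * R.ρ g = R.ρ g * (Vᴴ * V)) (g : G) :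
    (comp R V h₁ h₂).ρ g = V * R.ρ g * Vᴴ := rfl

lemma good_empty {ι : Type} [Fintype ι] [DecidableEq ι] (R : Rep G ι) (h : IsEmpty ι) :
    Good R := by
  refine ⟨Empty, inferInstance, fun k => k.elim, fun k => k.elim, fun g => ?_, fun i => ?_⟩
  · simp [Rep.ch, Matrix.trace]
  · exact h.elim i

lemma good_irr {ι : Type} [Fintype ι] [DecidableEq ι] (R : Rep G ι) (h : R.Irr) :
    Good R := by
  obtain ⟨h0, hX⟩ := h
  set e : ι ≃ Fin (Fintype.card ι) := Fintype.equivFin ι with he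
  set V : Matrix (Fin (Fintype.card ι)) ι ℂ := (1 : Matrix ι ι ℂ).submatrix e.symm id with hV
  have hVH : Vᴴ = (1 : Matrix ι ι ℂ).submatrix id e.symm := by
    rw [hV, Matrix.conjTranspose_submatrix, Matrix.conjTranspose_one]
  have h₁ : V * Vᴴ = 1 := by
    rw [hVH, hV, ← Matrix.submatrix_mul _ _ _ _ _ Function.bijective_id, Matrix.mul_one,
      Matrix.submatrix_one _ e.symm.injective]
  have h₂ : Vᴴ * V = 1 := by
    rw [hVH, hV, ← Matrix.submatrix_mul _ _ _ _ _ e.symm.bijective, Matrix.mul_one,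
      Matrix.submatrix_one _ Function.injective_id]
  have h₃ : ∀ g, Vᴴ * V * R.ρ g = R.ρ g * (Vᴴ * V) := by
    intro g
    rw [h₂, Matrix.one_mul, Matrix.mul_one]
  have key : ∀ g, R.ρ g = Vᴴ * (comp R V h₁ h₃).ρ g * V := by
    intro g
    rw [comp_ρ]
    have e1 : Vᴴ * (V * R.ρ g * Vᴴ) * V = (Vᴴ * V) * R.ρ g * (Vᴴ * V) := by
      simp only [Matrix.mul_assoc]
    rw [e1, h₂, Matrix.one_mul, Matrix.mul_one]
  refine ⟨Unit, inferInstance, fun _ => ⟨Fintype.card ι, comp R V h₁ h₃⟩, fun _ => ?_,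
    fun g => ?_, fun i j => ?_⟩
  · refine ⟨⟨e h0.some⟩, fun X hXc => ?_⟩
    obtain ⟨c, hc⟩ := hX (Vᴴ * X * V) (fun g => by
      have e1 := hXc g
      simp only [comp_ρ] at e1
      have e2 : Vᴴ * X * V * R.ρ g = Vᴴ * (X * (V * R.ρ g * Vᴴ)) * V := by
        have : Vᴴ * (X * (V * R.ρ g * Vᴴ)) * V = Vᴴ * X * V * R.ρ g * (Vᴴ * V) := by
          simp only [Matrix.mul_assoc]
        rw [this, h₂, Matrix.mul_one]
      have e3 : R.ρ g * (Vᴴ * X * V) = Vᴴ * ((V * R.ρ g * Vᴴ) * X) * V := by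
        have : Vᴴ * ((V * R.ρ g * Vᴴ) * X) * V = (Vᴴ * V) * (R.ρ g * (Vᴴ * X * V)) := by
          simp only [Matrix.mul_assoc]
        rw [this, h₂, Matrix.one_mul]
      rw [e2, e3, e1])
    refine ⟨c, ?_⟩
    have e4 : X = V * (Vᴴ * X * V) * Vᴴ := by
      have : V * (Vᴴ * X * V) * Vᴴ = (V * Vᴴ) * X * (V * Vᴴ) := by
        simp only [Matrix.mul_assoc]
      rw [this, h₁, Matrix.one_mul, Matrix.mul_one]
    rw [e4, hc, Matrix.mul_smul, Matrix.smul_mul, Matrix.mul_one, h₁]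
  · simp only [Finset.univ_unique, Finset.sum_singleton]
    change (R.ρ g).trace = ((comp R V h₁ h₃).ρ g).trace
    rw [key g, Matrix.trace_mul_comm, ← Matrix.mul_assoc, h₁, Matrix.one_mul, comp_ρ]
  · have e5 : (fun g => R.ρ g i j) = fun g => (Vᴴ * (comp R V h₁ h₃).ρ g * V) i j := by
      funext g
      rw [← key g]
    rw [e5]
    refine lin_conj (comp R V h₁ h₃) Vᴴ V (fun p q => ?_) i j
    refine ⟨fun _ => Matrix.single p q 1, fun g => ?_⟩
    simp only [Finset.univ_unique, Finset.sum_singleton]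
    rw [Finset.sum_eq_single p, Finset.sum_eq_single q]
    · simp
    · intro b _ hb
      simp [Matrix.single, hb.symm]
    · simp
    · intro b _ hb
      refine Finset.sum_eq_zero fun q' _ => ?_
      simp [Matrix.single, hb.symm]
    · simp

/-- a nonscalar matrix commuting with the representation gives a nonscalar Hermitian one -/
lemma exists_herm {ι : Type} [Fintype ι] [DecidableEq ι] (R : Rep G ι)
    (X : Matrix ι ι ℂ) (hX : ∀ g, X * R.ρ g = R.ρ g * X) (hn : ¬ ∃ c : ℂ, X = c • 1) :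
    ∃ H : Matrix ι ι ℂ, H.IsHermitian ∧ (∀ g, H * R.ρ g = R.ρ g * H) ∧ ¬ ∃ c : ℂ, H = c • 1 := by
  have hXH : ∀ g, Xᴴ * R.ρ g = R.ρ g * Xᴴ := by
    intro g
    have e := congrArg Matrix.conjTranspose (hX g⁻¹)
    rw [Matrix.conjTranspose_mul, Matrix.conjTranspose_mul, R.unit g,
      Matrix.conjTranspose_conjTranspose] at e
    exact e.symm
  by_cases h : ∃ c : ℂ, X + Xᴴ = c • 1
  · refine ⟨Complex.I • (X - Xᴴ), ?_, ?_, ?_⟩
    · change (Complex.I • (X - Xᴴ))ᴴ = Complex.I • (X - Xᴴ)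
      rw [Matrix.conjTranspose_smul, Matrix.conjTranspose_sub,
        Matrix.conjTranspose_conjTranspose]
      simp only [Complex.star_def, Complex.conj_I]
      rw [neg_smul, ← smul_neg, neg_sub]
    · intro g
      rw [Matrix.smul_mul, Matrix.mul_smul, Matrix.sub_mul, Matrix.mul_sub, hX g, hXH g]
    · rintro ⟨c', hc'⟩
      obtain ⟨c, hc⟩ := h
      apply hn
      refine ⟨(c - Complex.I * c') / 2, ?_⟩
      have e1 : X - Xᴴ = (-Complex.I * c') • (1 : Matrix ι ι ℂ) := by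
        have : (-Complex.I) • (Complex.I • (X - Xᴴ)) = (-Complex.I) • (c' • (1 : Matrix ι ι ℂ)) := by
          rw [hc']
        rw [smul_smul, smul_smul] at this
        simpa using this
      have e2 : (2 : ℂ) • X = (c - Complex.I * c') • (1 : Matrix ι ι ℂ) := by
        have : (2 : ℂ) • X = (X + Xᴴ) + (X - Xᴴ) := by
          rw [two_smul]
          abel
        rw [this, hc, e1, ← add_smul]
        congr 1
        ring
      have e3 : X = (1 / 2 : ℂ) • ((2 : ℂ) • X) := by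
        rw [smul_smul]
        simp
      rw [e3, e2, smul_smul]
      congr 1
      ring
  · refine ⟨X + Xᴴ, ?_, ?_, h⟩
    · change (X + Xᴴ)ᴴ = X + Xᴴ
      rw [Matrix.conjTranspose_add, Matrix.conjTranspose_conjTranspose, add_comm]
    · intro g
      rw [Matrix.add_mul, Matrix.mul_add, hX g, hXH g]

/-- splitting -/
lemma good_split {ι κ₁ κ₂ : Type} [Fintype ι] [DecidableEq ι] [Fintype κ₁] [DecidableEq κ₁]
    [Fintype κ₂] [DecidableEq κ₂] (R : Rep G ι) (V₁ : Matrix κ₁ ι ℂ) (V₂ : Matrix κ₂ ι ℂ)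
    (h₁ : V₁ * V₁ᴴ = 1) (h₂ : V₂ * V₂ᴴ = 1) (h₃ : V₁ᴴ * V₁ + V₂ᴴ * V₂ = 1)
    (h₄ : ∀ g, V₁ * R.ρ g * V₂ᴴ = 0) (h₅ : ∀ g, V₂ * R.ρ g * V₁ᴴ = 0)
    (g₁ : ∀ S : Rep G κ₁, Good S) (g₂ : ∀ S : Rep G κ₂, Good S) : Good R := by
  have a₁ : ∀ g, V₁ᴴ * V₁ * R.ρ g = V₁ᴴ * V₁ * R.ρ g * (V₁ᴴ * V₁) := by
    intro g
    have e : V₁ᴴ * V₁ * R.ρ g * (V₁ᴴ * V₁ + V₂ᴴ * V₂) =
        V₁ᴴ * V₁ * R.ρ g * (V₁ᴴ * V₁) + V₁ᴴ * (V₁ * R.ρ g * V₂ᴴ) * V₂ := by
      rw [Matrix.mul_add]
      simp only [Matrix.mul_assoc]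
    rw [h₃, h₄ g, Matrix.mul_one, Matrix.mul_zero, Matrix.zero_mul, add_zero] at e
    exact e
  have b₁ : ∀ g, R.ρ g * (V₁ᴴ * V₁) = V₁ᴴ * V₁ * R.ρ g * (V₁ᴴ * V₁) := by
    intro g
    have e : (V₁ᴴ * V₁ + V₂ᴴ * V₂) * (R.ρ g * (V₁ᴴ * V₁)) =
        V₁ᴴ * V₁ * R.ρ g * (V₁ᴴ * V₁) + V₂ᴴ * (V₂ * R.ρ g * V₁ᴴ) * V₁ := by
      rw [Matrix.add_mul]
      simp only [Matrix.mul_assoc]
    rw [h₃, h₅ g, Matrix.one_mul, Matrix.mul_zero, Matrix.zero_mul, add_zero] at e
    exact e
  have a₂ : ∀ g, V₂ᴴ * V₂ * R.ρ g = V₂ᴴ * V₂ * R.ρ g * (V₂ᴴ * V₂) := by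
    intro g
    have e : V₂ᴴ * V₂ * R.ρ g * (V₁ᴴ * V₁ + V₂ᴴ * V₂) =
        V₂ᴴ * (V₂ * R.ρ g * V₁ᴴ) * V₁ + V₂ᴴ * V₂ * R.ρ g * (V₂ᴴ * V₂) := by
      rw [Matrix.mul_add]
      simp only [Matrix.mul_assoc]
    rw [h₃, h₅ g, Matrix.mul_one, Matrix.mul_zero, Matrix.zero_mul, zero_add] at e
    exact e
  have b₂ : ∀ g, R.ρ g * (V₂ᴴ * V₂) = V₂ᴴ * V₂ * R.ρ g * (V₂ᴴ * V₂) := by
    intro g
    have e : (V₁ᴴ * V₁ + V₂ᴴ * V₂) * (R.ρ g * (V₂ᴴ * V₂)) =
        V₁ᴴ * (V₁ * R.ρ g * V₂ᴴ) * V₂ + V₂ᴴ * V₂ * R.ρ g * (V₂ᴴ * V₂) := by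
      rw [Matrix.add_mul]
      simp only [Matrix.mul_assoc]
    rw [h₃, h₄ g, Matrix.one_mul, Matrix.mul_zero, Matrix.zero_mul, zero_add] at e
    exact e
  refine good_add R (comp R V₁ h₁ fun g => (a₁ g).trans (b₁ g).symm)
    (comp R V₂ h₂ fun g => (a₂ g).trans (b₂ g).symm) V₁ᴴ V₁ V₂ᴴ V₂ (fun g => ?_) h₁ h₂ (g₁ _) (g₂ _)
  rw [comp_ρ, comp_ρ]
  have e₁ : V₁ᴴ * (V₁ * R.ρ g * V₁ᴴ) * V₁ = V₁ᴴ * V₁ * R.ρ g * (V₁ᴴ * V₁) := by
    simp only [Matrix.mul_assoc]
  have e₂ : V₂ᴴ * (V₂ * R.ρ g * V₂ᴴ) * V₂ = V₂ᴴ * V₂ * R.ρ g * (V₂ᴴ * V₂) := by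
    simp only [Matrix.mul_assoc]
  rw [e₁, e₂, ← b₁ g, ← b₂ g, ← Matrix.mul_add, h₃, Matrix.mul_one]

theorem good_all : ∀ (n : ℕ) (ι : Type) [Fintype ι] [DecidableEq ι] (R : Rep G ι),
    Fintype.card ι = n → Good R := by
  intro n
  induction n using Nat.strong_induction_on with
  | _ n ih =>
    intro ι _ _ R hn
    by_cases h0 : Nonempty ι
    · by_cases hI : R.Irr
      · exact good_irr R hI
      · have hI' : ∃ X : Matrix ι ι ℂ, (∀ g, X * R.ρ g = R.ρ g * X) ∧ ¬ ∃ c : ℂ, X = c • 1 := by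
          by_contra hcon
          push Not at hcon
          refine hI ⟨h0, fun X hX => ?_⟩
          by_contra hc
          push Not at hc
          obtain ⟨c, hc'⟩ := hcon X hX
          exact hc c hc'
        obtain ⟨X, hX, hXn⟩ := hI'
        obtain ⟨H, hH, hHc, hHn⟩ := exists_herm R X hX hXn
        set U : Matrix ι ι ℂ := (hH.eigenvectorUnitary : Matrix ι ι ℂ) with hU
        have hUU : Uᴴ * U = 1 := by
          have := hH.eigenvectorUnitary.2
          rw [Matrix.mem_unitaryGroup_iff'] at this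
          exact this
        have hUU' : U * Uᴴ = 1 := by
          have := hH.eigenvectorUnitary.2
          rw [Matrix.mem_unitaryGroup_iff] at this
          exact this
        set lam : ι → ℝ := hH.eigenvalues with hlam
        have hsp : H = U * diagonal (fun i => (lam i : ℂ)) * Uᴴ := by
          have := hH.spectral_theorem
          rw [Unitary.conjStarAlgAut_apply] at this
          exact this
        -- not constant
        obtain ⟨i₀, i₁, hne⟩ : ∃ i₀ i₁, lam i₁ ≠ lam i₀ := by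
          by_contra hcon
          push Not at hcon
          apply hHn
          refine ⟨(lam h0.some : ℂ), ?_⟩
          have : (diagonal fun i => (lam i : ℂ)) = (lam h0.some : ℂ) • (1 : Matrix ι ι ℂ) := by
            ext i j
            by_cases hij : i = j
            · subst hij
              simp [hcon h0.some i]
            · simp [hij]
          rw [hsp, this, Matrix.mul_smul, Matrix.smul_mul, Matrix.mul_one, hUU']
        -- block structure
        have hblock : ∀ g i j, lam i ≠ lam j → (Uᴴ * R.ρ g * U) i j = 0 := by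
          intro g i j hij
          have e1 : diagonal (fun i => (lam i : ℂ)) * (Uᴴ * R.ρ g * U) =
              (Uᴴ * R.ρ g * U) * diagonal (fun i => (lam i : ℂ)) := by
            have hd : diagonal (fun i => (lam i : ℂ)) = Uᴴ * H * U := by
              rw [hsp]
              have : Uᴴ * (U * diagonal (fun i => (lam i : ℂ)) * Uᴴ) * U =
                  (Uᴴ * U) * diagonal (fun i => (lam i : ℂ)) * (Uᴴ * U) := by
                simp only [Matrix.mul_assoc]
              rw [this, hUU, Matrix.one_mul, Matrix.mul_one]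
            rw [hd]
            have l1 : Uᴴ * H * U * (Uᴴ * R.ρ g * U) = Uᴴ * (H * (U * Uᴴ) * R.ρ g) * U := by
              simp only [Matrix.mul_assoc]
            have l2 : Uᴴ * R.ρ g * U * (Uᴴ * H * U) = Uᴴ * (R.ρ g * (U * Uᴴ) * H) * U := by
              simp only [Matrix.mul_assoc]
            rw [l1, l2, hUU', Matrix.mul_one, Matrix.mul_one, hHc g]
          have e2 := congrFun (congrFun e1 i) j
          rw [Matrix.diagonal_mul, Matrix.mul_diagonal] at e2
          have e3 : ((lam i : ℂ) - lam j) * (Uᴴ * R.ρ g * U) i j = 0 := by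
            rw [sub_mul, e2]
            ring
          rcases mul_eq_zero.1 e3 with h | h
          · exfalso
            apply hij
            have := sub_eq_zero.1 h
            exact_mod_cast this
          · exact h
        set P : ι → Prop := fun i => lam i = lam i₀ with hP
        classical
        set V₁ : Matrix {i // P i} ι ℂ := Uᴴ.submatrix Subtype.val id with hV₁
        set V₂ : Matrix {i // ¬ P i} ι ℂ := Uᴴ.submatrix Subtype.val id with hV₂
        have hV₁H : V₁ᴴ = U.submatrix id Subtype.val := by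
          rw [hV₁, Matrix.conjTranspose_submatrix, Matrix.conjTranspose_conjTranspose]
        have hV₂H : V₂ᴴ = U.submatrix id Subtype.val := by
          rw [hV₂, Matrix.conjTranspose_submatrix, Matrix.conjTranspose_conjTranspose]
        refine good_split R V₁ V₂ ?_ ?_ ?_ ?_ ?_ ?_ ?_
        · rw [hV₁H, hV₁, ← Matrix.submatrix_mul _ _ _ _ _ Function.bijective_id, hUU,
            Matrix.submatrix_one _ Subtype.val_injective]
        · rw [hV₂H, hV₂, ← Matrix.submatrix_mul _ _ _ _ _ Function.bijective_id, hUU,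
            Matrix.submatrix_one _ Subtype.val_injective]
        · rw [hV₁H, hV₂H, hV₁, hV₂, ← hUU']
          ext i j
          simp only [Matrix.add_apply, Matrix.mul_apply, Matrix.submatrix_apply, id_eq]
          exact Fintype.sum_subtype_add_sum_subtype P (fun k => U i k * Uᴴ k j)
        · intro g
          rw [hV₂H, hV₁]
          ext p q
          have : (Uᴴ.submatrix (Subtype.val : {i // P i} → ι) id * R.ρ g *
              U.submatrix id (Subtype.val : {i // ¬ P i} → ι)) =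
              (Uᴴ * R.ρ g * U).submatrix Subtype.val Subtype.val := by
            rw [Matrix.submatrix_mul _ _ _ _ _ Function.bijective_id,
              Matrix.submatrix_mul _ _ _ _ _ Function.bijective_id, Matrix.submatrix_id_id]
          rw [this, Matrix.submatrix_apply, Matrix.zero_apply]
          apply hblock
          intro h
          exact q.2 (h.symm.trans p.2)
        · intro g
          rw [hV₁H, hV₂]
          ext p q
          have : (Uᴴ.submatrix (Subtype.val : {i // ¬ P i} → ι) id * R.ρ g *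
              U.submatrix id (Subtype.val : {i // P i} → ι)) =
              (Uᴴ * R.ρ g * U).submatrix Subtype.val Subtype.val := by
            rw [Matrix.submatrix_mul _ _ _ _ _ Function.bijective_id,
              Matrix.submatrix_mul _ _ _ _ _ Function.bijective_id, Matrix.submatrix_id_id]
          rw [this, Matrix.submatrix_apply, Matrix.zero_apply]
          apply hblock
          intro h
          exact p.2 (h.trans q.2)
        · intro S
          refine ih (Fintype.card {i // P i}) ?_ {i // P i} S rfl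
          rw [← hn]
          exact Fintype.card_subtype_lt (x := i₁) hne
        · intro S
          refine ih (Fintype.card {i // ¬ P i}) ?_ {i // ¬ P i} S rfl
          rw [← hn]
          exact Fintype.card_subtype_lt (x := i₀) (fun h => h rfl)
    · exact good_empty R (not_nonempty_iff.1 h0)

end DECO

theorem t_DECO : S_DECO := by
  intro G _ _ ι _ _ R
  obtain ⟨K, _, τ, a, b, c⟩ := DECO.good_all _ ι R rfl
  let e := Fintype.equivFin K
  refine ⟨Fintype.card K, fun k => (τ (e.symm k)).1, fun k => (τ (e.symm k)).2,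
    fun k => a _, fun g => ?_, fun i j => ?_⟩
  · rw [b g]
    exact (Equiv.sum_comp e.symm (fun k => (τ k).2.ch g)).symm
  · obtain ⟨d, hd⟩ := c i j
    refine ⟨fun k => d (e.symm k), fun g => ?_⟩
    refine (hd g).trans ?_
    exact (Equiv.sum_comp e.symm (fun k => ∑ p, ∑ q, d k p q * (τ k).2.ρ g p q)).symm

end

end STZ
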