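import Pool.Agent.STZ.StmtsU

/-!
# Module FEJA: the coefficients of the dyadic pieces of Fejér's kernel
-/

namespace STZ

namespace FEJA

theorem fj_eq (M : ℕ) (k : ℤ) : fj M k = ((M - k.natAbs : ℕ) : ℝ) / (M : ℝ) ^ 2 := by
  have h1 : |(k : ℝ)| = ((k.natAbs : ℕ) : ℝ) := by
    rw [Nat.cast_natAbs, Int.cast_abs]
  unfold fj
  rw [h1]
  congr 1
  rcases le_total k.natAbs M with h | h
  · rw [Nat.cast_sub h, max_eq_right]
    have : ((k.natAbs : ℕ) : ℝ) ≤ (M : ℝ) := by exact_mod_cast h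
    linarith
  · rw [Nat.sub_eq_zero_of_le h, Nat.cast_zero, max_eq_left]
    have : (M : ℝ) ≤ ((k.natAbs : ℕ) : ℝ) := by exact_mod_cast h
    linarith

theorem natsum (K M : ℕ) : ∑ k ∈ Finset.Icc (-(K : ℤ)) K, (M - k.natAbs) ≤ M ^ 2 := by
  induction M with
  | zero => simp
  | succ M ih =>
    have h1 : ∑ k ∈ Finset.Icc (-(K : ℤ)) K, (M + 1 - k.natAbs) ≤
        ∑ k ∈ Finset.Icc (-(K : ℤ)) K, ((M - k.natAbs) + if k.natAbs ≤ M then 1 else 0) := by
      refine Finset.sum_le_sum fun k _ => ?_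
      split_ifs with h
      · omega
      · omega
    rw [Finset.sum_add_distrib, ← Finset.card_filter] at h1
    have h2 : ((Finset.Icc (-(K : ℤ)) K).filter fun k => k.natAbs ≤ M).card ≤ 2 * M + 1 := by
      have h3 : ((Finset.Icc (-(K : ℤ)) K).filter fun k => k.natAbs ≤ M) ⊆
          Finset.Icc (-(M : ℤ)) M := by
        intro k hk
        rw [Finset.mem_filter] at hk
        rw [Finset.mem_Icc]
        omega
      refine (Finset.card_le_card h3).trans ?_
      rw [Int.card_Icc]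
      omega
    have h4 : (M + 1) ^ 2 = M ^ 2 + (2 * M + 1) := by ring
    omega

theorem fj_nn (M : ℕ) (k : ℤ) : 0 ≤ fj M k := by
  rw [fj_eq]
  positivity

theorem fj_le (M : ℕ) (k : ℤ) (hM : 1 ≤ M) : fj M k ≤ 1 / (M : ℝ) := by
  have h0 : (0 : ℝ) < M := by exact_mod_cast hM
  rw [fj_eq, div_le_div_iff₀ (by positivity) h0]
  have h1 : ((M - k.natAbs : ℕ) : ℝ) ≤ (M : ℝ) := by exact_mod_cast Nat.sub_le _ _
  nlinarith

theorem fj_lip (M : ℕ) (k : ℤ) : |fj M (k + 1) - fj M k| ≤ 1 / (M : ℝ) ^ 2 := by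
  rcases Nat.eq_zero_or_pos M with rfl | hM
  · simp [fj]
  have h0 : (0 : ℝ) < (M : ℝ) ^ 2 := by
    have : (0 : ℝ) < M := by exact_mod_cast hM
    positivity
  unfold fj
  rw [← sub_div, abs_div, abs_of_pos h0]
  refine div_le_div_of_nonneg_right ?_ h0.le
  have h1 := abs_max_sub_max_le_abs ((M : ℝ) - |((k + 1 : ℤ) : ℝ)|) ((M : ℝ) - |(k : ℝ)|) 0
  rw [max_comm _ (0 : ℝ), max_comm _ (0 : ℝ)] at h1
  refine h1.trans ?_
  have h2 : (M : ℝ) - |((k + 1 : ℤ) : ℝ)| - ((M : ℝ) - |(k : ℝ)|) =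
      -(|((k + 1 : ℤ) : ℝ)| - |(k : ℝ)|) := by ring
  rw [h2, abs_neg]
  refine (abs_abs_sub_abs_le_abs_sub _ _).trans ?_
  push_cast
  rw [add_sub_cancel_left, abs_one]

theorem fj_zero (M : ℕ) (k : ℤ) (h : (M : ℤ) ≤ |k|) : fj M k = 0 := by
  have h1 : M ≤ k.natAbs := by
    rw [Int.abs_eq_natAbs] at h
    exact_mod_cast h
  rw [fj_eq, Nat.sub_eq_zero_of_le h1, Nat.cast_zero, zero_div]

theorem fj_sum (K M : ℕ) : ∑ k ∈ Finset.Icc (-(K : ℤ)) K, fj M k ≤ 1 := by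
  simp only [fj_eq]
  rw [← Finset.sum_div]
  refine div_le_one_of_le₀ ?_ (by positivity)
  exact_mod_cast natsum K M

theorem tele (J : ℕ) (k : ℤ) : ∑ x ∈ Finset.range (J + 1), pj J x k = fj 1 k := by
  have h1 : ∀ n : ℕ, ∑ x ∈ Finset.range n, (fj (2 ^ x) k - fj (2 ^ (x + 1)) k) =
      fj 1 k - fj (2 ^ n) k := by
    intro n
    induction n with
    | zero => simp
    | succ n ih =>
      rw [Finset.sum_range_succ, ih]
      ring
  rw [Finset.sum_range_succ]
  have h2 : ∑ x ∈ Finset.range J, pj J x k =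
      ∑ x ∈ Finset.range J, (fj (2 ^ x) k - fj (2 ^ (x + 1)) k) := by
    refine Finset.sum_congr rfl fun x hx => ?_
    rw [pj, if_pos (Finset.mem_range.1 hx)]
  rw [h2, h1, pj, if_neg (lt_irrefl _)]
  ring

end FEJA

open FEJA in
/-- FEJA -/
theorem t_FEJA : S_FEJA := by
  refine ⟨fun J k => ?_, fun J x => ⟨fun k => ?_, fun k => ?_, fun k hk => ?_, fun K => ?_⟩⟩
  · rw [tele, fj_eq]
    split_ifs with h
    · subst h
      simp
    · have h1 : 1 - k.natAbs = 0 := by omega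
      rw [h1]
      simp
  · have hx : (0 : ℝ) < 2 ^ x := by positivity
    have h1 := fj_nn (2 ^ x) k
    have h2 := fj_nn (2 ^ (x + 1)) k
    have h3 := fj_le (2 ^ x) k Nat.one_le_two_pow
    have h4 := fj_le (2 ^ (x + 1)) k Nat.one_le_two_pow
    push_cast at h3 h4
    have h5 : 1 / (2 : ℝ) ^ (x + 1) ≤ 1 / 2 ^ x := by
      refine one_div_le_one_div_of_le hx ?_
      rw [pow_succ]
      linarith
    unfold pj
    split_ifs with h
    · rw [abs_le]
      constructor <;> linarith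
    · rw [abs_of_nonneg h1]
      exact h3
  · have hx : (0 : ℝ) < 2 ^ x := by positivity
    have h3 := fj_lip (2 ^ x) k
    have h4 := fj_lip (2 ^ (x + 1)) k
    push_cast at h3 h4
    have h5 : 1 / ((2 : ℝ) ^ (x + 1)) ^ 2 ≤ 1 / (2 ^ x) ^ 2 := by
      refine one_div_le_one_div_of_le (by positivity) ?_
      have h8 : (2 : ℝ) ^ (x + 1) = 2 ^ x * 2 := pow_succ 2 x
      rw [h8]
      nlinarith
    have h6 : 2 / ((2 : ℝ) ^ x) ^ 2 = 1 / (2 ^ x) ^ 2 + 1 / (2 ^ x) ^ 2 := by ring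
    have h7 : 0 ≤ 1 / ((2 : ℝ) ^ x) ^ 2 := by positivity
    rw [h6]
    rw [abs_le] at h3 h4
    unfold pj
    split_ifs with h
    · rw [abs_le]
      constructor <;> linarith
    · rw [abs_le]
      constructor <;> linarith
  · have h1 : ((2 ^ x : ℕ) : ℤ) ≤ |k| := by
      refine le_trans ?_ hk
      push_cast
      exact pow_le_pow_right₀ (by norm_num) (Nat.le_succ x)
    have h2 : ((2 ^ (x + 1) : ℕ) : ℤ) ≤ |k| := by
      push_cast
      exact hk
    unfold pj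
    rw [fj_zero _ _ h1, fj_zero _ _ h2]
    simp
  · have h1 := fj_sum K (2 ^ x)
    have h2 := fj_sum K (2 ^ (x + 1))
    have h3 : ∑ k ∈ Finset.Icc (-(K : ℤ)) K, |pj J x k| ≤
        ∑ k ∈ Finset.Icc (-(K : ℤ)) K, (fj (2 ^ x) k + fj (2 ^ (x + 1)) k) := by
      refine Finset.sum_le_sum fun k _ => ?_
      have h4 := fj_nn (2 ^ x) k
      have h5 := fj_nn (2 ^ (x + 1)) k
      unfold pj
      split_ifs with h
      · rw [abs_le]
        constructor <;> linarith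
      · rw [abs_of_nonneg h4]
        linarith
    rw [Finset.sum_add_distrib] at h3
    linarith

end STZ
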