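import Pool.Agent.STZ.StmtsU

/-!
# Module FEJB: bounds for the dyadic pieces of Fejér's kernel
-/

namespace STZ

namespace FEJB

theorem fj_eq (M : ℕ) (k : ℤ) : fj M k = ((M - k.natAbs : ℕ) : ℝ) / (M : ℝ) ^ 2 := by
  have h1 : |(k : ℝ)| = ((k.natAbs : ℕ) : ℝ) := by
    rw [Nat.cast_natAbs, Int.cast_abs]
  unfold fj
  rw [h1]
  congr 1
  rcases le_total k.natAbs M with h | h
  · rw [Nat.cast_sub h, max_eq_right]
    have : ((k.natAbs : ℕ) : ℝ) ≤ (M : ℝ) := by exact_mod_cast h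
    linarith
  · rw [Nat.sub_eq_zero_of_le h, Nat.cast_zero, max_eq_left]
    have : (M : ℝ) ≤ ((k.natAbs : ℕ) : ℝ) := by exact_mod_cast h
    linarith

theorem natsum (K M : ℕ) (hKM : M ≤ K) :
    ∑ k ∈ Finset.Icc (-(K : ℤ)) K, (M - k.natAbs) = M ^ 2 := by
  induction M with
  | zero => simp
  | succ M ih =>
    have h1 : ∑ k ∈ Finset.Icc (-(K : ℤ)) K, (M + 1 - k.natAbs) =
        ∑ k ∈ Finset.Icc (-(K : ℤ)) K, ((M - k.natAbs) + if k.natAbs ≤ M then 1 else 0) := by
      refine Finset.sum_congr rfl fun k _ => ?_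
      split_ifs with h
      · omega
      · omega
    rw [h1, Finset.sum_add_distrib, ← Finset.card_filter, ih (by omega)]
    have h2 : ((Finset.Icc (-(K : ℤ)) K).filter fun k => k.natAbs ≤ M).card = 2 * M + 1 := by
      have h3 : ((Finset.Icc (-(K : ℤ)) K).filter fun k => k.natAbs ≤ M) =
          Finset.Icc (-(M : ℤ)) M := by
        ext k
        rw [Finset.mem_filter, Finset.mem_Icc, Finset.mem_Icc]
        omega
      rw [h3, Int.card_Icc]
      omega
    rw [h2]
    ring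

theorem sumfj (K M : ℕ) (hM : 1 ≤ M) (hKM : M ≤ K) :
    ∑ k ∈ Finset.Icc (-(K : ℤ)) K, fj M k = 1 := by
  simp only [fj_eq]
  rw [← Finset.sum_div, ← Nat.cast_sum, natsum K M hKM]
  push_cast
  have : (M : ℝ) ≠ 0 := by
    have : (0 : ℝ) < M := by exact_mod_cast hM
    exact this.ne'
  exact div_self (pow_ne_zero _ this)

theorem sumpj (J x : ℕ) (hx : x < J) :
    ∑ k ∈ Finset.Icc (-(2 ^ (x + 1) : ℤ)) (2 ^ (x + 1)), pj J x k = 0 := by
  have e : (2 ^ (x + 1) : ℤ) = ((2 ^ (x + 1) : ℕ) : ℤ) := by push_cast; rfl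
  simp only [pj, if_pos hx]
  rw [Finset.sum_sub_distrib, e, sumfj _ _ Nat.one_le_two_pow (Nat.pow_le_pow_right (by norm_num)
    (Nat.le_succ x)), sumfj _ _ Nat.one_le_two_pow le_rfl, sub_self]

theorem exp_sub (w : ℂ) : ‖Complex.exp w - 1‖ ≤ (|w.re| + |w.im|) * Real.exp |w.re| := by
  have h1 : Complex.exp w - 1 = (Complex.exp (w.re : ℂ) - 1) * Complex.exp (Complex.I * w.im) +
      (Complex.exp (Complex.I * w.im) - 1) := by
    have h2 : Complex.exp w = Complex.exp (w.re : ℂ) * Complex.exp (Complex.I * w.im) := by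
      rw [← Complex.exp_add]
      congr 1
      rw [mul_comm]
      exact (Complex.re_add_im w).symm
    rw [h2]
    ring
  have h3 : ‖Complex.exp (Complex.I * w.im)‖ = 1 := by
    rw [mul_comm]
    exact Complex.norm_exp_ofReal_mul_I _
  have h4 : ‖Complex.exp (Complex.I * w.im) - 1‖ ≤ |w.im| := by
    have := Real.norm_exp_I_mul_ofReal_sub_one_le (x := w.im)
    rwa [Real.norm_eq_abs] at this
  have h5 : ‖Complex.exp (w.re : ℂ) - 1‖ ≤ |w.re| * Real.exp |w.re| := by
    have e1 : Complex.exp (w.re : ℂ) - 1 = ((Real.exp w.re - 1 : ℝ) : ℂ) := by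
      push_cast
      rfl
    rw [e1, Complex.norm_real, Real.norm_eq_abs]
    generalize w.re = a
    rcases le_total 0 a with h | h
    · rw [abs_of_nonneg h, abs_of_nonneg (by linarith [Real.add_one_le_exp a])]
      have e2 := Real.add_one_le_exp (-a)
      have e3 : Real.exp a * Real.exp (-a) = 1 := by rw [← Real.exp_add]; simp
      nlinarith [Real.exp_pos a]
    · have e4 : Real.exp a ≤ 1 := Real.exp_le_one_iff.2 h
      rw [abs_of_nonpos h, abs_of_nonpos (by linarith)]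
      have e5 := Real.add_one_le_exp a
      have e6 : 1 ≤ Real.exp (-a) := Real.one_le_exp (by linarith)
      nlinarith
  have h6 : 1 ≤ Real.exp |w.re| := Real.one_le_exp (abs_nonneg _)
  rw [h1]
  refine (norm_add_le _ _).trans ?_
  rw [norm_mul, h3, mul_one]
  nlinarith [abs_nonneg w.im]

end FEJB

open FEJB in
/-- FEJB -/
theorem t_FEJB : M_FEJB := by
  intro hA κ hκ
  have hpi : (3 : ℝ) < Real.pi := Real.pi_gt_three
  set E : ℝ := Real.exp (4 * Real.pi * κ) with hE
  have hE0 : 0 < E := Real.exp_pos _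
  refine ⟨8 * Real.pi * E, by positivity, ?_⟩
  intro J x z hz
  have hx0 : (0 : ℝ) < 2 ^ x := by positivity
  have hsum : ∑ k ∈ Finset.Icc (-(2 ^ (x + 1) : ℤ)) (2 ^ (x + 1)), |pj J x k| ≤ 2 := by
    have := (hA.2 J x).2.2.2 (2 ^ (x + 1))
    push_cast at this
    exact this
  have hk : ∀ k ∈ Finset.Icc (-(2 ^ (x + 1) : ℤ)) (2 ^ (x + 1)), |(k : ℝ)| ≤ 2 * 2 ^ x := by
    intro k hk
    rw [Finset.mem_Icc, ← abs_le] at hk
    have h1 : ((|k| : ℤ) : ℝ) ≤ ((2 ^ (x + 1) : ℤ) : ℝ) := by exact_mod_cast hk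
    rw [Int.cast_abs] at h1
    push_cast at h1
    rw [pow_succ] at h1
    linarith
  have hexp : ∀ k ∈ Finset.Icc (-(2 ^ (x + 1) : ℤ)) (2 ^ (x + 1)),
      Real.exp (2 * Real.pi * (|(k : ℝ)| * |z.im|)) ≤ E := by
    intro k hk'
    rw [hE]
    refine Real.exp_le_exp.2 ?_
    have h1 := hk k hk'
    have h2 : |(k : ℝ)| * |z.im| ≤ (2 * 2 ^ x) * (κ / 2 ^ x) :=
      mul_le_mul h1 hz (abs_nonneg _) (by positivity)
    have h3 : (2 * 2 ^ x : ℝ) * (κ / 2 ^ x) = 2 * κ := by field_simp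
    rw [h3] at h2
    nlinarith
  have hre : ∀ (k : ℤ) (u : ℂ), (2 * Real.pi * Complex.I * (k * u) : ℂ).re =
      -(2 * Real.pi * (k * u.im)) := by
    intro k u
    simp
  have him : ∀ (k : ℤ) (u : ℂ), (2 * Real.pi * Complex.I * (k * u) : ℂ).im =
      2 * Real.pi * (k * u.re) := by
    intro k u
    simp
  constructor
  · have h1 : ‖PJ J x z‖ ≤ ∑ k ∈ Finset.Icc (-(2 ^ (x + 1) : ℤ)) (2 ^ (x + 1)),
        |pj J x k| * E := by
      unfold PJ
      refine (norm_sum_le _ _).trans (Finset.sum_le_sum fun k hk' => ?_)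
      rw [norm_mul, Complex.norm_real, Real.norm_eq_abs, Complex.norm_exp, hre]
      refine mul_le_mul_of_nonneg_left ?_ (abs_nonneg _)
      refine le_trans (Real.exp_le_exp.2 ?_) (hexp k hk')
      rw [← abs_mul]
      have := neg_abs_le ((k : ℝ) * z.im)
      nlinarith
    rw [← Finset.sum_mul] at h1
    nlinarith
  · intro hxJ
    obtain ⟨n, hn⟩ : ∃ n : ℤ, n = round z.re := ⟨_, rfl⟩
    have hper : ∀ k : ℤ, Complex.exp (2 * Real.pi * Complex.I * (k * z)) =
        Complex.exp (2 * Real.pi * Complex.I * (k * (z - n))) := by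
      intro k
      have e1 : (2 * Real.pi * Complex.I * (k * z) : ℂ) =
          2 * Real.pi * Complex.I * (k * (z - n)) + ((k * n : ℤ) : ℂ) *
            (2 * Real.pi * Complex.I) := by
        push_cast
        ring
      rw [e1, Complex.exp_add, Complex.exp_int_mul_two_pi_mul_I, mul_one]
    have h1 : PJ J x z = ∑ k ∈ Finset.Icc (-(2 ^ (x + 1) : ℤ)) (2 ^ (x + 1)),
        (pj J x k : ℂ) * (Complex.exp (2 * Real.pi * Complex.I * (k * (z - n))) - 1) := by
      have e2 : (∑ k ∈ Finset.Icc (-(2 ^ (x + 1) : ℤ)) (2 ^ (x + 1)), (pj J x k : ℂ)) = 0 := by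
        rw [← Complex.ofReal_sum, sumpj J x hxJ, Complex.ofReal_zero]
      unfold PJ
      simp only [mul_sub, mul_one, Finset.sum_sub_distrib, e2, sub_zero]
      refine Finset.sum_congr rfl fun k _ => ?_
      rw [hper k]
      simp only [mul_sub]
    have hz1 : (z - n : ℂ).im = z.im := by simp
    have hz2 : |(z - n : ℂ).re| = nd z.re := by
      rw [nd, hn]
      simp
    have h2 : ‖PJ J x z‖ ≤ ∑ k ∈ Finset.Icc (-(2 ^ (x + 1) : ℤ)) (2 ^ (x + 1)),
        |pj J x k| * (4 * Real.pi * 2 ^ x * (nd z.re + |z.im|) * E) := by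
      rw [h1]
      refine (norm_sum_le _ _).trans (Finset.sum_le_sum fun k hk' => ?_)
      rw [norm_mul, Complex.norm_real, Real.norm_eq_abs]
      refine mul_le_mul_of_nonneg_left ?_ (abs_nonneg _)
      refine (exp_sub _).trans ?_
      rw [hre, him, hz1]
      have h2pi : |2 * Real.pi| = 2 * Real.pi :=
        abs_of_pos (by positivity : (0 : ℝ) < 2 * Real.pi)
      have e3 : |-(2 * Real.pi * (k * z.im))| = 2 * Real.pi * (|(k : ℝ)| * |z.im|) := by
        rw [abs_neg, abs_mul (2 * Real.pi), h2pi, abs_mul (k : ℝ)]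
      have e4 : |2 * Real.pi * (k * (z - n : ℂ).re)| =
          2 * Real.pi * (|(k : ℝ)| * nd z.re) := by
        rw [abs_mul (2 * Real.pi), h2pi, abs_mul (k : ℝ), hz2]
      rw [e3, e4]
      have e5 := hk k hk'
      have e6 : 0 ≤ nd z.re := abs_nonneg _
      refine mul_le_mul ?_ (hexp k hk') (Real.exp_pos _).le (by positivity)
      have e7 : |(k : ℝ)| * (nd z.re + |z.im|) ≤ 2 * 2 ^ x * (nd z.re + |z.im|) :=
        mul_le_mul_of_nonneg_right e5 (by positivity)
      nlinarith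
    rw [← Finset.sum_mul] at h2
    have e8 : 0 ≤ nd z.re := abs_nonneg _
    have e9 : 0 ≤ 4 * Real.pi * 2 ^ x * (nd z.re + |z.im|) * E := by positivity
    nlinarith

end STZ
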