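import Pool.Agent.STZ.StmtsM

/-!
# STZ, GRH: the integral of a derivative is zero, and the symmetry of the Laplacian, for closed
subgroups of `SU(N)`
-/

namespace STZ

open MeasureTheory Matrix

open scoped ComplexConjugate Matrix Real

noncomputable section

namespace GRH

variable {N : ℕ} {H : Subgroup (SU N)}

theorem exists_bound [CompactSpace H] {f : H → ℂ} (hf : Continuous f) : ∃ C : ℝ, ∀ g, ‖f g‖ ≤ C := by
  obtain ⟨C, hC⟩ := (isCompact_univ (X := H)).exists_bound_of_continuousOn hf.continuousOn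
  exact ⟨C, fun g => hC g (Set.mem_univ _)⟩

theorem integrable [CompactSpace H] (μ : Measure H) [IsProbabilityMeasure μ] {f : H → ℂ}
    (hf : Continuous f) : Integrable f μ := by
  obtain ⟨C, hC⟩ := exists_bound hf
  exact Integrable.of_bound hf.aestronglyMeasurable C (Filter.Eventually.of_forall hC)

/-- the derivative at an arbitrary time -/
theorem hasDerivAt (hE : CALFH H) {X : Matrix (Fin N) (Fin N) ℂ} (hX : X ∈ lie H) {f : H → ℂ}
    (hf : C1H f) (g : H) (t : ℝ) :
    HasDerivAt (fun s : ℝ => f (g * exH H X s)) (dH X f (g * exH H X t)) t := by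
  have h1 : HasDerivAt (fun s : ℝ => f ((g * exH H X t) * exH H X s))
      (dH X f (g * exH H X t)) (t - t) := by
    rw [sub_self]
    exact (hf.diff X hX (g * exH H X t)).hasDerivAt
  have h2 := h1.comp_sub_const t t
  refine h2.congr_of_eventuallyEq (Filter.Eventually.of_forall fun s => ?_)
  show f (g * exH H X s) = f (g * exH H X t * exH H X (s - t))
  rw [mul_assoc, ← hE.exadd X hX, add_sub_cancel]

theorem ftc (hE : CALFH H) {X : Matrix (Fin N) (Fin N) ℂ} (hX : X ∈ lie H) {f : H → ℂ}
    (hf : C1H f) (g : H) :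
    ∫ t in (0 : ℝ)..1, dH X f (g * exH H X t) = f (g * exH H X 1) - f g := by
  have hc : Continuous fun t : ℝ => dH X f (g * exH H X t) :=
    (hf.dcont X hX).comp (continuous_const.mul (hE.excont X hX))
  rw [intervalIntegral.integral_eq_sub_of_hasDerivAt (fun t _ => hasDerivAt hE hX hf g t)
    (hc.intervalIntegrable 0 1), hE.exzero X hX, mul_one]

theorem int_dH [CompactSpace H] (hH : S_HAAR) (hE : CALFH H) (μ : Measure H)
    [IsProbabilityMeasure μ] [μ.IsMulLeftInvariant] {X : Matrix (Fin N) (Fin N) ℂ}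
    (hX : X ∈ lie H) {f : H → ℂ} (hf : C1H f) : ∫ g, dH X f g ∂μ = 0 := by
  have hsc : SecondCountableTopology H :=
    TopologicalSpace.Subtype.secondCountableTopology (H : Set (SU N))
  have hr : μ.IsMulRightInvariant := (hH H μ).1
  obtain ⟨C, hC⟩ := exists_bound (hf.dcont X hX)
  have hc : Continuous (fun p : H × ℝ => dH X f (p.1 * exH H X p.2)) :=
    (hf.dcont X hX).comp (continuous_fst.mul ((hE.excont X hX).comp continuous_snd))
  have hint : Integrable (Function.uncurry fun (g : H) (t : ℝ) => dH X f (g * exH H X t))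
      (μ.prod (volume.restrict (Set.Ioc (0 : ℝ) 1))) :=
    Integrable.of_bound hc.aestronglyMeasurable C (Filter.Eventually.of_forall fun p => hC _)
  have hswap := MeasureTheory.integral_integral_swap hint
  have hL : ∫ g, (∫ t in Set.Ioc (0 : ℝ) 1, dH X f (g * exH H X t)) ∂μ = 0 := by
    have e : ∀ g : H, ∫ t in Set.Ioc (0 : ℝ) 1, dH X f (g * exH H X t) =
        f (g * exH H X 1) - f g := by
      intro g
      rw [← intervalIntegral.integral_of_le zero_le_one]
      exact ftc hE hX hf g
    simp_rw [e]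
    have i1 : Integrable (fun g => f (g * exH H X 1)) μ :=
      integrable μ (hf.cont.comp (continuous_id.mul continuous_const))
    rw [integral_sub i1 (integrable μ hf.cont), integral_mul_right_eq_self, sub_self]
  have hR : ∫ t in Set.Ioc (0 : ℝ) 1, ∫ g, dH X f (g * exH H X t) ∂μ = ∫ g, dH X f g ∂μ := by
    have e : ∀ t : ℝ, ∫ g, dH X f (g * exH H X t) ∂μ = ∫ g, dH X f g ∂μ := fun t =>
      integral_mul_right_eq_self (μ := μ) (fun g => dH X f g) (exH H X t)
    simp_rw [e]
    rw [setIntegral_const]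
    simp
  rw [← hR, ← hswap, hL]

end GRH

theorem t_GRH : M_GRH := by
  intro hH hCALH N H hcl μ _ _
  have hcs : CompactSpace H := isCompact_iff_compactSpace.1 (hcl.isCompact)
  have C := hCALH N H
  have key : ∀ X ∈ lie H, ∀ f : H → ℂ, C1H f → ∫ g, dH X f g ∂μ = 0 :=
    fun X hX f hf => GRH.int_dH hH C μ hX hf
  refine ⟨key, ?_⟩
  intro c d X hXf f h hf hh
  have h1 : ∀ a, ∫ g, dH (X a) (dH (X a) f) g * h g ∂μ = -∫ g, dH (X a) f g * dH (X a) h g ∂μ := by
    intro a
    have ha := hXf.mem a
    have hD : C1H (dH (X a) f) := hf.2 _ ha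
    have h2 := key _ ha (fun g => dH (X a) f g * h g) (C.mul1 _ _ hD hh.1)
    have e : (fun g => dH (X a) (fun g => dH (X a) f g * h g) g) =
        fun g => dH (X a) (dH (X a) f) g * h g + dH (X a) f g * dH (X a) h g := by
      funext g
      exact C.dmul _ ha _ _ hD hh.1 g
    have i1 : Integrable (fun g => dH (X a) (dH (X a) f) g * h g) μ :=
      GRH.integrable μ ((hD.dcont _ ha).mul hh.1.cont)
    have i2 : Integrable (fun g => dH (X a) f g * dH (X a) h g) μ :=
      GRH.integrable μ (hD.cont.mul (hh.1.dcont _ ha))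
    rw [e, integral_add i1 i2] at h2
    exact eq_neg_of_add_eq_zero_left h2
  have h3 : ∀ a, ∫ g, f g * dH (X a) (dH (X a) h) g ∂μ = -∫ g, dH (X a) f g * dH (X a) h g ∂μ := by
    intro a
    have ha := hXf.mem a
    have hD : C1H (dH (X a) h) := hh.2 _ ha
    have h2 := key _ ha (fun g => f g * dH (X a) h g) (C.mul1 _ _ hf.1 hD)
    have e : (fun g => dH (X a) (fun g => f g * dH (X a) h g) g) =
        fun g => dH (X a) f g * dH (X a) h g + f g * dH (X a) (dH (X a) h) g := by
      funext g
      exact C.dmul _ ha _ _ hf.1 hD g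
    have i1 : Integrable (fun g => dH (X a) f g * dH (X a) h g) μ :=
      GRH.integrable μ ((hf.1.dcont _ ha).mul hD.cont)
    have i2 : Integrable (fun g => f g * dH (X a) (dH (X a) h) g) μ :=
      GRH.integrable μ (hf.1.cont.mul (hD.dcont _ ha))
    rw [e, integral_add i1 i2] at h2
    exact eq_neg_of_add_eq_zero_right h2
  have e1 : ∀ g, lapH X f g * h g = ∑ a, dH (X a) (dH (X a) f) g * h g := fun g => by
    rw [lapH, Finset.sum_mul]
  have e2 : ∀ g, f g * lapH X h g = ∑ a, f g * dH (X a) (dH (X a) h) g := fun g => by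
    rw [lapH, Finset.mul_sum]
  simp_rw [e1, e2]
  rw [integral_finsetSum, integral_finsetSum]
  · exact Finset.sum_congr rfl fun a _ => by rw [h1, h3]
  · intro a _
    have ha := hXf.mem a
    exact GRH.integrable μ (hf.1.cont.mul ((hh.2 _ ha).dcont _ ha))
  · intro a _
    have ha := hXf.mem a
    exact GRH.integrable μ (((hf.2 _ ha).dcont _ ha).mul hh.1.cont)

end

end STZ
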