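import Pool.Agent.STZ.StmtsR

/-!
# STZ, HAAR: invariance properties of a left invariant probability measure on a compact group
-/

namespace STZ

open MeasureTheory

namespace HAAR

variable {G : Type} [Group G] [TopologicalSpace G] [IsTopologicalGroup G]
  [CompactSpace G] [T2Space G] [SecondCountableTopology G] [MeasurableSpace G] [BorelSpace G]

theorem haar (μ : Measure G) [IsProbabilityMeasure μ] [μ.IsMulLeftInvariant] :
    μ.IsHaarMeasure := by
  have h : μ.IsOpenPosMeasure :=
    MeasureTheory.isOpenPosMeasure_of_mulLeftInvariant_of_compact Set.univ isCompact_univ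
      (by rw [measure_univ]; exact one_ne_zero)
  exact { }

theorem uniq (μ ν : Measure G) [IsProbabilityMeasure μ] [μ.IsMulLeftInvariant]
    [IsProbabilityMeasure ν] [ν.IsMulLeftInvariant] : ν = μ := by
  have h1 := haar μ
  have h2 := haar ν
  exact Measure.isHaarMeasure_eq_of_isProbabilityMeasure ν μ

end HAAR

theorem t_HAAR : S_HAAR := by
  intro G _ _ _ _ _ _ _ _ μ _ _
  have hr : μ.IsMulRightInvariant := by
    refine ⟨fun g => ?_⟩
    have h1 : IsProbabilityMeasure (μ.map (· * g)) :=
      Measure.isProbabilityMeasure_map (measurable_mul_const g).aemeasurable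
    exact HAAR.uniq μ (μ.map (· * g))
  have hi : μ.IsInvInvariant := by
    refine ⟨?_⟩
    have h1 : IsProbabilityMeasure μ.inv :=
      Measure.isProbabilityMeasure_map measurable_inv.aemeasurable
    exact HAAR.uniq μ μ.inv
  have h := HAAR.haar μ
  exact ⟨hr, hi, inferInstance⟩

end STZ
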