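import Pool.Agent.STZ.StmtsU
import Pool.Agent.STZ.INTI

/-!
# The integral of `WW N ^ a * WW M ^ b` for all `a < 1` with `2 < a + b`
-/

namespace STZ

open MeasureTheory Matrix

open scoped ComplexConjugate Matrix Real

noncomputable section

namespace INTJ

open INTI

/-- the right side -/
def RJ (a b e : ℝ) (N M : ℕ) : ℝ := (N : ℝ) ^ (2 * a - 2) * (M : ℝ) ^ (2 * b) * ((N : ℝ) / M) ^ (2 - a + e)

lemma RJ_nonneg (a b e : ℝ) (N M : ℕ) : 0 ≤ RJ a b e N M := by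
  unfold RJ
  positivity

lemma RJ_eq (a b e : ℝ) (N M : ℕ) (hN : 1 ≤ N) (hM : 1 ≤ M) :
    RJ a b e N M = (N : ℝ) ^ a * ((N : ℝ) / M) ^ e * (M : ℝ) ^ (2 * b - 2 + a) := by
  have hNR : (0 : ℝ) < N := by exact_mod_cast hN
  have hMR : (0 : ℝ) < M := by exact_mod_cast hM
  have hNM : (0 : ℝ) < (N : ℝ) / M := by positivity
  unfold RJ
  rw [Real.rpow_add hNM, Real.div_rpow hNR.le hMR.le (2 - a), div_eq_mul_inv, ← Real.rpow_neg hMR.le]
  have e1 : (N : ℝ) ^ (2 * a - 2) * (M : ℝ) ^ (2 * b) *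
      ((N : ℝ) ^ (2 - a) * (M : ℝ) ^ (-(2 - a)) * ((N : ℝ) / M) ^ e) =
      ((N : ℝ) ^ (2 * a - 2) * (N : ℝ) ^ (2 - a)) * ((N : ℝ) / M) ^ e *
        ((M : ℝ) ^ (2 * b) * (M : ℝ) ^ (-(2 - a))) := by
    ring
  rw [e1, ← Real.rpow_add hNR, ← Real.rpow_add hMR]
  congr 2
  · congr 2
    ring
  · ring

lemma sum_b (Q : ℕ) (b β η : ℝ) (h1 : β ≤ b) (h2 : β ≤ 2) (hη : 0 < η) :
    ∑ q ∈ Finset.Icc 1 Q, ((q : ℝ) + 1) * (q : ℝ) ^ (-b) ≤
      2 * (Q : ℝ) ^ (2 - β + η) * ∑' n : ℕ, (n : ℝ) ^ (-(1 + η)) := by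
  have hs : Summable fun n : ℕ => (n : ℝ) ^ (-(1 + η)) := Real.summable_nat_rpow.mpr (by linarith)
  have hle : ∀ q ∈ Finset.Icc 1 Q, ((q : ℝ) + 1) * (q : ℝ) ^ (-b) ≤
      2 * (Q : ℝ) ^ (2 - β + η) * (q : ℝ) ^ (-(1 + η)) := by
    intro q hq
    have hq1 : (1 : ℝ) ≤ q := by exact_mod_cast (Finset.mem_Icc.mp hq).1
    have hqQ : (q : ℝ) ≤ Q := by exact_mod_cast (Finset.mem_Icc.mp hq).2
    have hq0 : (0 : ℝ) < q := by linarith
    have e : (q : ℝ) ^ (1 - β) = q * (q : ℝ) ^ (-β) := by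
      rw [sub_eq_add_neg, Real.rpow_add hq0, Real.rpow_one]
    have h3 : (q : ℝ) ^ (-b) ≤ (q : ℝ) ^ (-β) :=
      Real.rpow_le_rpow_of_exponent_le hq1 (by linarith)
    have h4 : 0 ≤ (q : ℝ) ^ (-β) := Real.rpow_nonneg hq0.le _
    have h5 : 0 ≤ (q : ℝ) ^ (-b) := Real.rpow_nonneg hq0.le _
    have h6 : (q : ℝ) ^ (1 - β) = (q : ℝ) ^ (2 - β + η) * (q : ℝ) ^ (-(1 + η)) := by
      rw [← Real.rpow_add hq0]
      congr 1
      ring
    have h7 : (q : ℝ) ^ (2 - β + η) ≤ (Q : ℝ) ^ (2 - β + η) :=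
      Real.rpow_le_rpow hq0.le hqQ (by linarith)
    have h8 : 0 ≤ (q : ℝ) ^ (-(1 + η)) := Real.rpow_nonneg hq0.le _
    calc ((q : ℝ) + 1) * (q : ℝ) ^ (-b) ≤ ((q : ℝ) + 1) * (q : ℝ) ^ (-β) :=
          mul_le_mul_of_nonneg_left h3 (by linarith)
      _ ≤ 2 * (q : ℝ) ^ (1 - β) := by
          rw [e]
          nlinarith
      _ = 2 * (q : ℝ) ^ (2 - β + η) * (q : ℝ) ^ (-(1 + η)) := by
          rw [h6]
          ring
      _ ≤ 2 * (Q : ℝ) ^ (2 - β + η) * (q : ℝ) ^ (-(1 + η)) := by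
          apply mul_le_mul_of_nonneg_right _ h8
          linarith
  refine (Finset.sum_le_sum hle).trans ?_
  rw [← Finset.mul_sum]
  apply mul_le_mul_of_nonneg_left _ (by positivity)
  exact hs.sum_le_tsum _ fun n _ => Real.rpow_nonneg (Nat.cast_nonneg n) _

/-- the case `2 M ≤ N` -/
lemma main2 (hF : WWF) (c N M : ℕ) (a b e β d C C2 CL K1 K2 : ℝ) (hc1 : 1 ≤ c) (hM : 1 ≤ M) (hN : 1 ≤ N)
    (hMN : M ≤ N) (ha0 : 0 < a) (ha1 : a < 1) (hab : 2 < a + b) (he : 0 < e)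
    (hβb : β ≤ b) (hβ2 : β ≤ 2) (hd : d = a + β - 2) (hd0 : 0 < d) (hC : 0 ≤ C) (hC2 : 0 ≤ C2)
    (hCL : 0 ≤ CL) (hK1 : 0 ≤ K1) (hK2 : 0 ≤ K2)
    (hW : ∀ (t : ℝ) (ρ : ℚ), ρ.den ≤ 2 * c * M → |t - ρ| ≤ 1 / (ρ.den * (2 * c * M)) →
      WW M c t ≤ C * (M * (1 + Real.log M) +
      (M : ℝ) ^ 2 / ρ.den * (1 + (M : ℝ) ^ 2 * |t - ρ|) ^ (-(3 / 4) : ℝ)))
    (hI : ∫ t in (0 : ℝ)..1, WW N c t ≤ C2 * (N * (1 + Real.log N)))
    (hL : ∀ ρ : ℚ, ρ.den ≤ 2 * c * M →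
      ∫ t in ((ρ : ℝ) - 1 / (ρ.den * (2 * c * M)))..((ρ : ℝ) + 1 / (ρ.den * (2 * c * M))),
        WW N c t ^ a * (1 + (M : ℝ) ^ 2 * |t - ρ|) ^ (-(3 * b / 4)) ≤
      CL * ((N * (1 + Real.log N)) ^ a * (M : ℝ) ^ (-2 : ℝ) +
        (ρ.den : ℝ) ^ (-a) * (N : ℝ) ^ (2 * a - 2) * ((N : ℝ) / M) ^ (2 - 3 * a / 2)))
    (h1 : (1 + Real.log M) ^ b ≤ K1 * (M : ℝ) ^ (d / 3))
    (h2 : (1 + Real.log N) ^ a ≤ K2 * (((N : ℝ) / M) ^ e * (M : ℝ) ^ (d / 3))) :
    ∫ t in (0 : ℝ)..1, WW N c t ^ a * WW M c t ^ b ≤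
      C ^ b * (2 ^ b * ((1 + C2) * K1 * K2 + CL * (K2 * (2 * ((2 * c : ℝ) ^ (2 - β + d / 3)) *
        ∑' n : ℕ, (n : ℝ) ^ (-(1 + d / 3))) +
        2 * ∑' n : ℕ, (n : ℝ) ^ (1 - (a + b))))) * RJ a b e N M := by
  have hNR : (1 : ℝ) ≤ N := by exact_mod_cast hN
  have hMR : (1 : ℝ) ≤ M := by exact_mod_cast hM
  have hcR : (1 : ℝ) ≤ c := by exact_mod_cast hc1
  have hN0 : (0 : ℝ) < N := by linarith
  have hM0 : (0 : ℝ) < M := by linarith
  have hNM : (1 : ℝ) ≤ (N : ℝ) / M := by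
    rw [le_div_iff₀ hM0, one_mul]
    exact_mod_cast hMN
  have hNM0 : (0 : ℝ) < (N : ℝ) / M := by linarith
  have hlN : 0 ≤ Real.log N := Real.log_nonneg hNR
  have hlM : 0 ≤ Real.log M := Real.log_nonneg hMR
  have hCb : 0 ≤ C ^ b := Real.rpow_nonneg hC b
  have h2b : (0 : ℝ) ≤ 2 ^ b := Real.rpow_nonneg (by norm_num) b
  have hb0 : 0 ≤ b := by linarith
  have hcN : Continuous fun t => WW N c t ^ a := (hF.cont N c).rpow_const fun t => Or.inr ha0.le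
  have hcM : Continuous fun t => WW M c t ^ b := (hF.cont M c).rpow_const fun t => Or.inr hb0
  set l : ℝ := N * (1 + Real.log N) with hl
  -- the bound of the terms
  set J : ℕ → ℝ := fun q => CL * (l ^ a * (M : ℝ) ^ (-2 : ℝ) +
        (q : ℝ) ^ (-a) * (N : ℝ) ^ (2 * a - 2) * ((N : ℝ) / M) ^ (2 - 3 * a / 2)) with hJ
  have hl0 : 0 ≤ l := by positivity
  have hJ0 : ∀ q, 0 ≤ J q := by
    intro q
    rw [hJ]
    have : 0 ≤ (q : ℝ) ^ (-a) := Real.rpow_nonneg (Nat.cast_nonneg q) _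
    positivity
  -- the integral
  have hint : ∀ q n : ℕ, IntegrableOn (fun t => ((M : ℝ) ^ 2 / q) ^ b * TT c N M a b q n t)
      (Set.Ioc (0 : ℝ) 1) := fun q n =>
    ((TT_integrable hF c N M a b ha0.le q n).const_mul _).integrableOn
  have hintN : IntegrableOn (fun t => (M * (1 + Real.log M)) ^ b * WW N c t ^ a)
      (Set.Ioc (0 : ℝ) 1) := by
    have := (continuous_const.mul hcN :
      Continuous fun t => (M * (1 + Real.log M)) ^ b * WW N c t ^ a).intervalIntegrable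
        (μ := volume) 0 1
    rwa [intervalIntegrable_iff_integrableOn_Ioc_of_le zero_le_one] at this
  have hintS : IntegrableOn (fun t => ∑ q ∈ Finset.Icc 1 (2 * c * M), ∑ n ∈ Finset.range (q + 1),
        ((M : ℝ) ^ 2 / q) ^ b * TT c N M a b q n t) (Set.Ioc (0 : ℝ) 1) := by
    apply integrable_finsetSum
    intro q _
    apply integrable_finsetSum
    intro n _
    exact hint q n
  have hmain : ∫ t in (0 : ℝ)..1, WW N c t ^ a * WW M c t ^ b ≤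
      C ^ b * (2 ^ b * ((M * (1 + Real.log M)) ^ b * (∫ t in (0 : ℝ)..1, WW N c t ^ a) +
        ∑ q ∈ Finset.Icc 1 (2 * c * M), ∑ _n ∈ Finset.range (q + 1),
          ((M : ℝ) ^ 2 / q) ^ b * J q)) := by
    rw [intervalIntegral.integral_of_le zero_le_one]
    have hle : ∫ t in Set.Ioc (0 : ℝ) 1, WW N c t ^ a * WW M c t ^ b ≤
        ∫ t in Set.Ioc (0 : ℝ) 1, C ^ b * (2 ^ b * ((M * (1 + Real.log M)) ^ b * WW N c t ^ a +
      ∑ q ∈ Finset.Icc 1 (2 * c * M), ∑ n ∈ Finset.range (q + 1),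
        ((M : ℝ) ^ 2 / q) ^ b * TT c N M a b q n t)) := by
      apply integral_mono_of_nonneg
      · filter_upwards with t
        exact mul_nonneg (Real.rpow_nonneg (WINT.WW_nonneg _ _ _) _)
          (Real.rpow_nonneg (WINT.WW_nonneg _ _ _) _)
      · exact ((hintN.add hintS).const_mul _).const_mul _
      · rw [Filter.EventuallyLE, ae_restrict_iff' measurableSet_Ioc]
        filter_upwards with t ht
        exact point c N M C a b hc1 hM hb0 hC hW t ht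
    refine hle.trans ?_
    rw [integral_const_mul, integral_const_mul]
    apply mul_le_mul_of_nonneg_left _ hCb
    apply mul_le_mul_of_nonneg_left _ h2b
    rw [integral_add hintN hintS]
    apply add_le_add
    · rw [integral_const_mul, intervalIntegral.integral_of_le zero_le_one]
    · rw [integral_finsetSum]
      · apply Finset.sum_le_sum
        intro q hq
        rw [integral_finsetSum]
        · apply Finset.sum_le_sum
          intro n _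
          rw [integral_const_mul]
          apply mul_le_mul_of_nonneg_left _ (Real.rpow_nonneg (by positivity) _)
          exact TT_int hF c N M a b (J q) ha0.le q n (hJ0 q)
            (fun hcop => Jb c N M a b CL hL q n hq hcop)
        · intro n _
          exact hint q n
      · intro q _
        apply integrable_finsetSum
        intro n _
        exact hint q n
  refine hmain.trans ?_
  have eass : ∀ x y z w : ℝ, x * (y * z) * w = x * (y * (z * w)) := fun x y z w => by ring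
  rw [eass]
  apply mul_le_mul_of_nonneg_left _ hCb
  apply mul_le_mul_of_nonneg_left _ h2b
  rw [add_mul]
  have hlN' : 0 ≤ 1 + Real.log N := by linarith
  have hlM' : 0 ≤ 1 + Real.log M := by linarith
  have hP : 0 ≤ (N : ℝ) ^ a * ((N : ℝ) / M) ^ e := by positivity
  have hla : l ^ a ≤ K2 * ((N : ℝ) ^ a * ((N : ℝ) / M) ^ e * (M : ℝ) ^ (d / 3)) := by
    rw [hl, Real.mul_rpow hN0.le hlN']
    calc (N : ℝ) ^ a * (1 + Real.log N) ^ a ≤
          (N : ℝ) ^ a * (K2 * (((N : ℝ) / M) ^ e * (M : ℝ) ^ (d / 3))) :=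
          mul_le_mul_of_nonneg_left h2 (Real.rpow_nonneg hN0.le _)
      _ = _ := by ring
  have hla0 : 0 ≤ l ^ a := Real.rpow_nonneg hl0 a
  have hRJ := RJ_eq a b e N M hN hM
  have hRJ0 := RJ_nonneg a b e N M
  apply add_le_add
  · -- P1
    have hMb : (M * (1 + Real.log M)) ^ b ≤ K1 * ((M : ℝ) ^ b * (M : ℝ) ^ (d / 3)) := by
      rw [Real.mul_rpow hM0.le hlM']
      calc (M : ℝ) ^ b * (1 + Real.log M) ^ b ≤ (M : ℝ) ^ b * (K1 * (M : ℝ) ^ (d / 3)) :=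
            mul_le_mul_of_nonneg_left h1 (Real.rpow_nonneg hM0.le _)
        _ = _ := by ring
    have hIa := int_a hF c N a C2 ha0 ha1 hN hI
    rw [← hl] at hIa
    have hMb0 : 0 ≤ (M * (1 + Real.log M)) ^ b := Real.rpow_nonneg (by positivity) _
    have hC21 : 0 ≤ 1 + C2 := by linarith
    have hexp : (M : ℝ) ^ b * (M : ℝ) ^ (d / 3) * (M : ℝ) ^ (d / 3) ≤ (M : ℝ) ^ (2 * b - 2 + a) := by
      rw [← Real.rpow_add hM0, ← Real.rpow_add hM0]
      exact Real.rpow_le_rpow_of_exponent_le hMR (by linarith)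
    calc (M * (1 + Real.log M)) ^ b * (∫ t in (0 : ℝ)..1, WW N c t ^ a)
        ≤ (M * (1 + Real.log M)) ^ b * ((1 + C2) * l ^ a) := mul_le_mul_of_nonneg_left hIa hMb0
      _ ≤ (K1 * ((M : ℝ) ^ b * (M : ℝ) ^ (d / 3))) *
            ((1 + C2) * (K2 * ((N : ℝ) ^ a * ((N : ℝ) / M) ^ e * (M : ℝ) ^ (d / 3)))) := by
          apply mul_le_mul hMb _ (mul_nonneg hC21 hla0)
          · positivity
          · exact mul_le_mul_of_nonneg_left hla hC21
      _ = ((1 + C2) * K1 * K2 * ((N : ℝ) ^ a * ((N : ℝ) / M) ^ e)) *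
            ((M : ℝ) ^ b * (M : ℝ) ^ (d / 3) * (M : ℝ) ^ (d / 3)) := by ring
      _ ≤ ((1 + C2) * K1 * K2 * ((N : ℝ) ^ a * ((N : ℝ) / M) ^ e)) * (M : ℝ) ^ (2 * b - 2 + a) := by
          apply mul_le_mul_of_nonneg_left hexp
          positivity
      _ = (1 + C2) * K1 * K2 * RJ a b e N M := by
          rw [hRJ]
          ring
  · -- P2, P3
    have hterm : ∀ q ∈ Finset.Icc 1 (2 * c * M), ∑ _n ∈ Finset.range (q + 1),
          ((M : ℝ) ^ 2 / q) ^ b * J q =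
        CL * (l ^ a * (M : ℝ) ^ (2 * b - 2)) * (((q : ℝ) + 1) * (q : ℝ) ^ (-b)) +
        CL * ((M : ℝ) ^ (2 * b) * (N : ℝ) ^ (2 * a - 2) * ((N : ℝ) / M) ^ (2 - 3 * a / 2)) *
          (((q : ℝ) + 1) * (q : ℝ) ^ (-(a + b))) := by
      intro q hq
      have hq1 : (1 : ℝ) ≤ q := by exact_mod_cast (Finset.mem_Icc.mp hq).1
      have hq0 : (0 : ℝ) < q := by linarith
      rw [Finset.sum_const, Finset.card_range, nsmul_eq_mul]
      have e1 : ((M : ℝ) ^ 2 / q) ^ b = (M : ℝ) ^ (2 * b) * (q : ℝ) ^ (-b) := by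
        rw [Real.div_rpow (by positivity) hq0.le, ← Real.rpow_natCast (M : ℝ) 2,
          ← Real.rpow_mul hM0.le, Real.rpow_neg hq0.le]
        push_cast
        ring
      have e2 : (M : ℝ) ^ (2 * b - 2) = (M : ℝ) ^ (2 * b) * (M : ℝ) ^ (-2 : ℝ) := by
        rw [← Real.rpow_add hM0]
        congr 1
      have e3 : (q : ℝ) ^ (-(a + b)) = (q : ℝ) ^ (-b) * (q : ℝ) ^ (-a) := by
        rw [← Real.rpow_add hq0]
        congr 1
        ring
      rw [e1, e2, e3, hJ]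
      push_cast
      ring
    rw [Finset.sum_congr rfl hterm, Finset.sum_add_distrib, ← Finset.mul_sum, ← Finset.mul_sum]
    have s1 := sum_b (2 * c * M) b β (d / 3) hβb hβ2 (by linarith)
    have s2 := sum_ab (2 * c * M) (a + b) hab
    set S := ∑' n : ℕ, (n : ℝ) ^ (1 - (a + b)) with hS
    have hS0 : 0 ≤ S := tsum_nonneg fun n => Real.rpow_nonneg (Nat.cast_nonneg n) _
    set Z := ∑' n : ℕ, (n : ℝ) ^ (-(1 + d / 3)) with hZ
    have hZ0 : 0 ≤ Z := tsum_nonneg fun n => Real.rpow_nonneg (Nat.cast_nonneg n) _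
    set k := (2 * c : ℝ) ^ (2 - β + d / 3) with hk
    have hk0 : 0 ≤ k := Real.rpow_nonneg (by positivity) _
    have p2 : CL * (l ^ a * (M : ℝ) ^ (2 * b - 2)) *
        ∑ q ∈ Finset.Icc 1 (2 * c * M), ((q : ℝ) + 1) * (q : ℝ) ^ (-b) ≤
        CL * (K2 * (2 * k * Z)) * RJ a b e N M := by
      have hsq : (((2 * c * M : ℕ)) : ℝ) ^ (2 - β + d / 3) = k * (M : ℝ) ^ (2 - β + d / 3) := by
        rw [hk, ← Real.mul_rpow (by positivity) hM0.le]
        push_cast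
        rfl
      rw [hsq] at s1
      have hexp : (M : ℝ) ^ (d / 3) * (M : ℝ) ^ (2 * b - 2) * (M : ℝ) ^ (2 - β + d / 3) ≤
          (M : ℝ) ^ (2 * b - 2 + a) := by
        rw [← Real.rpow_add hM0, ← Real.rpow_add hM0]
        exact Real.rpow_le_rpow_of_exponent_le hMR (by linarith)
      have hx : 0 ≤ CL * (l ^ a * (M : ℝ) ^ (2 * b - 2)) := by positivity
      calc CL * (l ^ a * (M : ℝ) ^ (2 * b - 2)) *
            ∑ q ∈ Finset.Icc 1 (2 * c * M), ((q : ℝ) + 1) * (q : ℝ) ^ (-b)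
          ≤ CL * (l ^ a * (M : ℝ) ^ (2 * b - 2)) * (2 * (k * (M : ℝ) ^ (2 - β + d / 3)) * Z) :=
            mul_le_mul_of_nonneg_left s1 hx
        _ = CL * (2 * k * Z) * (l ^ a * ((M : ℝ) ^ (2 * b - 2) * (M : ℝ) ^ (2 - β + d / 3))) := by
            ring
        _ ≤ CL * (2 * k * Z) *
            ((K2 * ((N : ℝ) ^ a * ((N : ℝ) / M) ^ e * (M : ℝ) ^ (d / 3))) *
              ((M : ℝ) ^ (2 * b - 2) * (M : ℝ) ^ (2 - β + d / 3))) := by
            apply mul_le_mul_of_nonneg_left _ (by positivity)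
            exact mul_le_mul_of_nonneg_right hla (by positivity)
        _ = CL * (K2 * (2 * k * Z)) * ((N : ℝ) ^ a * ((N : ℝ) / M) ^ e) *
              ((M : ℝ) ^ (d / 3) * (M : ℝ) ^ (2 * b - 2) * (M : ℝ) ^ (2 - β + d / 3)) := by ring
        _ ≤ CL * (K2 * (2 * k * Z)) * ((N : ℝ) ^ a * ((N : ℝ) / M) ^ e) *
              (M : ℝ) ^ (2 * b - 2 + a) := by
            apply mul_le_mul_of_nonneg_left hexp
            positivity
        _ = _ := by
            rw [hRJ]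
            ring
    have p3 : CL * ((M : ℝ) ^ (2 * b) * (N : ℝ) ^ (2 * a - 2) * ((N : ℝ) / M) ^ (2 - 3 * a / 2)) *
        ∑ q ∈ Finset.Icc 1 (2 * c * M), ((q : ℝ) + 1) * (q : ℝ) ^ (-(a + b)) ≤
        CL * (2 * S) * RJ a b e N M := by
      have hpow : ((N : ℝ) / M) ^ (2 - 3 * a / 2) ≤ ((N : ℝ) / M) ^ (2 - a + e) :=
        Real.rpow_le_rpow_of_exponent_le hNM (by linarith)
      have hx : 0 ≤ CL * ((M : ℝ) ^ (2 * b) * (N : ℝ) ^ (2 * a - 2) * ((N : ℝ) / M) ^ (2 - 3 * a / 2)) := by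
        positivity
      have hy : 0 ≤ CL * ((M : ℝ) ^ (2 * b) * (N : ℝ) ^ (2 * a - 2)) * (2 * S) := by
        positivity
      calc _ ≤ CL * ((M : ℝ) ^ (2 * b) * (N : ℝ) ^ (2 * a - 2) * ((N : ℝ) / M) ^ (2 - 3 * a / 2)) *
            (2 * S) := mul_le_mul_of_nonneg_left s2 hx
        _ = CL * ((M : ℝ) ^ (2 * b) * (N : ℝ) ^ (2 * a - 2)) * (2 * S) *
            ((N : ℝ) / M) ^ (2 - 3 * a / 2) := by ring
        _ ≤ CL * ((M : ℝ) ^ (2 * b) * (N : ℝ) ^ (2 * a - 2)) * (2 * S) *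
            ((N : ℝ) / M) ^ (2 - a + e) := mul_le_mul_of_nonneg_left hpow hy
        _ = _ := by
            unfold RJ
            ring
    calc _ ≤ CL * (K2 * (2 * k * Z)) * RJ a b e N M + CL * (2 * S) * RJ a b e N M :=
          add_le_add p2 p3
      _ = _ := by ring

/-- the case `N < 2 M` -/
lemma main1 (hF : WWF) (c N M : ℕ) (a b e C : ℝ) (hM : 1 ≤ M) (hMN : M ≤ N) (hNM : N ≤ 2 * M)
    (ha0 : 0 < a) (ha1 : a < 1) (hb : 3 / 2 ≤ b) (he : 0 < e) (hC : 0 ≤ C)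
    (hI : ∫ t in (0 : ℝ)..1, WW N c t ^ (a + b) ≤ C * (N : ℝ) ^ (2 * (a + b) - 2)) :
    ∫ t in (0 : ℝ)..1, WW N c t ^ a * WW M c t ^ b ≤ C * 2 ^ (2 * b) * RJ a b e N M := by
  have hN : 1 ≤ N := hM.trans hMN
  have hNR : (1 : ℝ) ≤ N := by exact_mod_cast hN
  have hMR : (1 : ℝ) ≤ M := by exact_mod_cast hM
  have hN0 : (0 : ℝ) < N := by linarith
  have hM0 : (0 : ℝ) < M := by linarith
  have hb0 : 0 ≤ b := by linarith
  have hcN : Continuous fun t => WW N c t ^ a := (hF.cont N c).rpow_const fun t => Or.inr ha0.le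
  have hcM : Continuous fun t => WW M c t ^ b := (hF.cont M c).rpow_const fun t => Or.inr hb0
  have hcS : Continuous fun t => WW N c t ^ (a + b) :=
    (hF.cont N c).rpow_const fun t => Or.inr (by linarith)
  have h1 : ∫ t in (0 : ℝ)..1, WW N c t ^ a * WW M c t ^ b ≤
      ∫ t in (0 : ℝ)..1, WW N c t ^ (a + b) := by
    apply intervalIntegral.integral_mono_on zero_le_one
    · exact (hcN.mul hcM).intervalIntegrable _ _
    · exact hcS.intervalIntegrable _ _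
    · intro t _
      have hge := hF.ge N c t
      have hpos : 0 < WW N c t := lt_of_lt_of_le hN0 hge
      rw [Real.rpow_add hpos]
      apply mul_le_mul_of_nonneg_left _ (Real.rpow_nonneg hpos.le _)
      exact Real.rpow_le_rpow (WINT.WW_nonneg _ _ _) (hF.mono M N c c t hMN le_rfl) hb0
  refine h1.trans (hI.trans ?_)
  rw [mul_assoc]
  apply mul_le_mul_of_nonneg_left _ hC
  have hNM1 : (1 : ℝ) ≤ (N : ℝ) / M := by
    rw [le_div_iff₀ hM0, one_mul]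
    exact_mod_cast hMN
  have h3 : (1 : ℝ) ≤ ((N : ℝ) / M) ^ (2 - a + e) := Real.one_le_rpow hNM1 (by linarith)
  have h4 : (N : ℝ) ^ (2 * b) ≤ 2 ^ (2 * b) * (M : ℝ) ^ (2 * b) := by
    rw [← Real.mul_rpow (by norm_num) hM0.le]
    exact Real.rpow_le_rpow hN0.le (by exact_mod_cast hNM) (by linarith)
  have e9 : (N : ℝ) ^ (2 * (a + b) - 2) = (N : ℝ) ^ (2 * a - 2) * (N : ℝ) ^ (2 * b) := by
    rw [← Real.rpow_add hN0]
    congr 1
    ring
  rw [e9]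
  unfold RJ
  have hNa : 0 ≤ (N : ℝ) ^ (2 * a - 2) := Real.rpow_nonneg hN0.le _
  calc (N : ℝ) ^ (2 * a - 2) * (N : ℝ) ^ (2 * b)
      ≤ (N : ℝ) ^ (2 * a - 2) * (2 ^ (2 * b) * (M : ℝ) ^ (2 * b)) :=
        mul_le_mul_of_nonneg_left h4 hNa
    _ = 2 ^ (2 * b) * ((N : ℝ) ^ (2 * a - 2) * (M : ℝ) ^ (2 * b)) * 1 := by ring
    _ ≤ 2 ^ (2 * b) * ((N : ℝ) ^ (2 * a - 2) * (M : ℝ) ^ (2 * b)) * ((N : ℝ) / M) ^ (2 - a + e) :=
        mul_le_mul_of_nonneg_left h3 (by positivity)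
    _ = _ := by ring

end INTJ

open INTJ in
theorem t_INTJ : M_INTJ := by
  intro hWPT hWINT hF hLOCI c a b e hc ha ha1 hb hab he
  obtain ⟨C, hC, hC'⟩ := hWPT c hc
  obtain ⟨C1, hC1, hC1'⟩ := hWINT c (a + b) hc hab
  obtain ⟨CL, hCL, hCL'⟩ := hLOCI c a b hc ha ha1 hb
  obtain ⟨C2, hC2'⟩ := hF.int1 c
  set β : ℝ := min b 2 with hβ
  have hβb : β ≤ b := min_le_left _ _
  have hβ2 : β ≤ 2 := min_le_right _ _
  set d : ℝ := a + β - 2 with hd
  have hd0 : 0 < d := by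
    rcases le_total b 2 with h | h
    · have : β = b := min_eq_left h
      rw [hd, this]
      linarith
    · have : β = 2 := min_eq_right h
      rw [hd, this]
      linarith
  set η : ℝ := min e (d / 3) with hη
  have hη0 : 0 < η := lt_min he (by linarith)
  obtain ⟨K1, hK1, hK1'⟩ := INTI.log_pow b (d / 3) (by linarith) (by linarith)
  obtain ⟨K2, hK2, hK2'⟩ := INTI.log_pow a η ha.le hη0
  have hS : 0 ≤ ∑' n : ℕ, (n : ℝ) ^ (1 - (a + b)) :=
    tsum_nonneg fun n => Real.rpow_nonneg (Nat.cast_nonneg n) _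
  have hZ : 0 ≤ ∑' n : ℕ, (n : ℝ) ^ (-(1 + d / 3)) :=
    tsum_nonneg fun n => Real.rpow_nonneg (Nat.cast_nonneg n) _
  have hCb : 0 ≤ C ^ b := Real.rpow_nonneg hC b
  set A : ℝ := C ^ b * (2 ^ b * ((1 + |C2|) * K1 * K2 + CL * (K2 * (2 * ((2 * c : ℝ) ^ (2 - β + d / 3)) *
        ∑' n : ℕ, (n : ℝ) ^ (-(1 + d / 3))) +
        2 * ∑' n : ℕ, (n : ℝ) ^ (1 - (a + b))))) with hA
  have hA0 : 0 ≤ A := by
    rw [hA]
    positivity
  have hB0 : (0 : ℝ) ≤ C1 * 2 ^ (2 * b) := by positivity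
  refine ⟨A + C1 * 2 ^ (2 * b), add_nonneg hA0 hB0, ?_⟩
  intro N M hM hMN
  have hN : 1 ≤ N := hM.trans hMN
  have hRJ0 := RJ_nonneg a b e N M
  show _ ≤ (A + C1 * 2 ^ (2 * b)) * RJ a b e N M
  rw [add_mul]
  rcases le_total (2 * M) N with h | h
  · have hNR : (1 : ℝ) ≤ N := by exact_mod_cast hN
    have hMR : (1 : ℝ) ≤ M := by exact_mod_cast hM
    have hM0 : (0 : ℝ) < M := by linarith
    have hNM1 : (1 : ℝ) ≤ (N : ℝ) / M := by
      rw [le_div_iff₀ hM0, one_mul]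
      exact_mod_cast hMN
    have hlN : 0 ≤ Real.log N := Real.log_nonneg hNR
    have hI : ∫ t in (0 : ℝ)..1, WW N c t ≤ |C2| * (N * (1 + Real.log N)) :=
      (hC2' N hN).trans (mul_le_mul_of_nonneg_right (le_abs_self C2) (by positivity))
    have hlog : (1 + Real.log N) ^ a ≤ K2 * (((N : ℝ) / M) ^ e * (M : ℝ) ^ (d / 3)) := by
      refine (hK2' N hN).trans (mul_le_mul_of_nonneg_left ?_ hK2)
      have e1 : (N : ℝ) ^ η = ((N : ℝ) / M) ^ η * (M : ℝ) ^ η := by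
        rw [← Real.mul_rpow (by positivity) hM0.le]
        congr 1
        field_simp
      rw [e1]
      refine mul_le_mul (Real.rpow_le_rpow_of_exponent_le hNM1 (min_le_left _ _))
        (Real.rpow_le_rpow_of_exponent_le hMR (min_le_right _ _)) (by positivity) (by positivity)
    have := main2 hF c N M a b e β d C |C2| CL K1 K2 hc hM hN hMN ha ha1 hab he hβb hβ2 hd hd0 hC
      (abs_nonneg _) hCL hK1 hK2
      (fun t ρ h1 h2 => hC' M t ρ hM h1 h2) hI (fun ρ hρ => hCL' N M ρ hM h hρ) (hK1' M hM) hlog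
    have h0 : 0 ≤ C1 * 2 ^ (2 * b) * RJ a b e N M := mul_nonneg hB0 hRJ0
    linarith
  · have := main1 hF c N M a b e C1 hM hMN h ha ha1 hb he hC1 (hC1' N hN)
    have h0 : 0 ≤ A * RJ a b e N M := mul_nonneg hA0 hRJ0
    linarith

end

end STZ
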