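import Pool.Agent.STZ.StmtsX

/-!
# Module KOP: combinations of reproducing kernels
-/

set_option autoImplicit false

set_option linter.unusedSectionVars false

namespace STZ

open MeasureTheory Matrix

open scoped ComplexConjugate Matrix Real

noncomputable section

namespace KOP

/-- continuous functions on a compact space are integrable -/
theorem integ {X E : Type} [TopologicalSpace X] [CompactSpace X] [MeasurableSpace X]
    [OpensMeasurableSpace X] [NormedAddCommGroup E] [SecondCountableTopologyEither X E]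
    (ν : Measure X) [IsFiniteMeasure ν] {f : X → E}
    (hf : Continuous f) : Integrable f ν :=
  hf.integrable_of_hasCompactSupport (HasCompactSupport.of_compactSpace f)

/-- the Cauchy-Schwarz inequality -/
theorem cs {X : Type} [TopologicalSpace X] [CompactSpace X] [MeasurableSpace X]
    [OpensMeasurableSpace X] (ν : Measure X) [IsFiniteMeasure ν] {f g : X → ℂ}
    (hf : Continuous f) (hg : Continuous g) :
    ‖∫ x, f x * g x ∂ν‖ ^ 2 ≤ (∫ x, ‖f x‖ ^ 2 ∂ν) * ∫ x, ‖g x‖ ^ 2 ∂ν := by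
  have h1 : ‖∫ x, f x * g x ∂ν‖ ≤ ∫ x, ‖f x‖ * ‖g x‖ ∂ν := by
    refine (norm_integral_le_integral_norm _).trans (le_of_eq ?_)
    simp only [norm_mul]
  have hB : 0 ≤ ∫ x, ‖f x‖ * ‖g x‖ ∂ν :=
    integral_nonneg fun x => mul_nonneg (norm_nonneg _) (norm_nonneg _)
  have hq : ∀ t : ℝ, 0 ≤ (∫ x, ‖f x‖ ^ 2 ∂ν) * (t * t) + (2 * ∫ x, ‖f x‖ * ‖g x‖ ∂ν) * t +
      ∫ x, ‖g x‖ ^ 2 ∂ν := by
    intro t
    have h2 : 0 ≤ ∫ x, (‖f x‖ * t + ‖g x‖) ^ 2 ∂ν := integral_nonneg fun x => sq_nonneg _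
    have e : ∫ x, (‖f x‖ * t + ‖g x‖) ^ 2 ∂ν = (∫ x, ‖f x‖ ^ 2 ∂ν) * (t * t) +
        (2 * ∫ x, ‖f x‖ * ‖g x‖ ∂ν) * t + ∫ x, ‖g x‖ ^ 2 ∂ν := by
      have e1 : (fun x => (‖f x‖ * t + ‖g x‖) ^ 2) = fun x =>
          (‖f x‖ ^ 2 * (t * t) + (‖f x‖ * ‖g x‖) * (2 * t)) + ‖g x‖ ^ 2 := by
        funext x; ring
      rw [e1, integral_add, integral_add, integral_mul_const, integral_mul_const]
      · ring
      · exact integ ν (by fun_prop)
      · exact integ ν (by fun_prop)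
      · exact integ ν (by fun_prop)
      · exact integ ν (by fun_prop)
    rwa [e] at h2
  have h3 := discrim_le_zero hq
  rw [discrim] at h3
  have h4 : ‖∫ x, f x * g x ∂ν‖ ^ 2 ≤ (∫ x, ‖f x‖ * ‖g x‖ ∂ν) ^ 2 :=
    pow_le_pow_left₀ (norm_nonneg _) h1 2
  nlinarith

variable {M : Type} [TopologicalSpace M] [CompactSpace M] [T2Space M]
  [SecondCountableTopology M] [MeasurableSpace M] [BorelSpace M] (μ : Measure M)
  [IsProbabilityMeasure μ]

/-- Cauchy-Schwarz in the form with square roots -/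
theorem cs2 {f g : M → ℂ} (hf : Continuous f) (hg : Continuous g) :
    ‖∫ x, conj (f x) * g x ∂μ‖ ≤ √(nsq μ f) * √(nsq μ g) := by
  have h1 := cs μ (f := fun x => conj (f x)) (g := g) (Complex.continuous_conj.comp hf) hg
  have e : ∫ x, ‖conj (f x)‖ ^ 2 ∂μ = nsq μ f := by
    unfold nsq
    simp only [RCLike.norm_conj]
  rw [e] at h1
  have h0 : 0 ≤ nsq μ f := integral_nonneg fun x => by positivity
  rw [← Real.sqrt_mul h0]
  exact Real.le_sqrt_of_sq_le h1

theorem row {ι : Type} {K : ι → M → M → ℂ} (hK : Ker μ K) (a : ι) (x : M) :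
    Continuous fun y => K a x y :=
  (hK.cont a).comp (Continuous.prodMk_right x)

/-- the inner integral -/
theorem inner_eq {ι : Type} {K : ι → M → M → ℂ} (hK : Ker μ K) (T : Finset ι) (m : ι → ℂ)
    {u : M → ℂ} (hu : Continuous u) (x : M) :
    ∫ y, (∑ b ∈ T, m b * K b x y) * u y ∂μ = ∑ b ∈ T, m b * Pr μ K {b} u x := by
  have e1 : (fun y => (∑ b ∈ T, m b * K b x y) * u y) =
      fun y => ∑ b ∈ T, m b * (K b x y * u y) := by
    funext y
    rw [Finset.sum_mul]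
    exact Finset.sum_congr rfl fun b _ => by ring
  rw [e1, integral_finsetSum]
  · refine Finset.sum_congr rfl fun b _ => ?_
    rw [integral_const_mul]
    unfold Pr
    rw [Finset.sum_singleton]
  · intro b _
    exact (integ μ ((row μ hK b x).mul hu)).const_mul (m b)

end KOP

open KOP in
theorem t_KOP : M_KOP := by
  intro hKB M _ _ _ _ _ _ μ _ ι K hK T m E hE hm u v hu hv
  have kb : KBF μ K := hKB M μ ι K hK
  have hPc : ∀ b, Continuous (Pr μ K {b} u) := fun b => kb.cont {b} u hu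
  have e0 : ∫ x, conj (v x) * ∫ y, (∑ b ∈ T, m b * K b x y) * u y ∂μ ∂μ =
      ∑ b ∈ T, m b * ∫ x, conj (Pr μ K {b} v x) * Pr μ K {b} u x ∂μ := by
    have e1 : (fun x => conj (v x) * ∫ y, (∑ b ∈ T, m b * K b x y) * u y ∂μ) =
        fun x => ∑ b ∈ T, m b * (conj (v x) * Pr μ K {b} u x) := by
      funext x
      rw [inner_eq μ hK T m hu x, Finset.mul_sum]
      exact Finset.sum_congr rfl fun b _ => by ring
    rw [e1, integral_finsetSum]
    · refine Finset.sum_congr rfl fun b _ => ?_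
      rw [integral_const_mul, kb.adj {b} (Pr μ K {b} u) v (hPc b) hv, kb.idem {b} u hu]
    · intro b _
      exact (integ μ ((Complex.continuous_conj.comp hv).mul (hPc b))).const_mul (m b)
  rw [e0]
  have hn : ∀ w : M → ℂ, 0 ≤ nsq μ w := fun w => integral_nonneg fun x => by positivity
  calc ‖∑ b ∈ T, m b * ∫ x, conj (Pr μ K {b} v x) * Pr μ K {b} u x ∂μ‖
      ≤ ∑ b ∈ T, ‖m b * ∫ x, conj (Pr μ K {b} v x) * Pr μ K {b} u x ∂μ‖ := norm_sum_le _ _
    _ ≤ ∑ b ∈ T, E * (√(nsq μ (Pr μ K {b} v)) * √(nsq μ (Pr μ K {b} u))) := by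
        refine Finset.sum_le_sum fun b hb => ?_
        rw [norm_mul]
        exact mul_le_mul (hm b hb) (cs2 μ (kb.cont {b} v hv) (hPc b)) (norm_nonneg _) hE
    _ = E * ∑ b ∈ T, √(nsq μ (Pr μ K {b} v)) * √(nsq μ (Pr μ K {b} u)) := by
        rw [Finset.mul_sum]
    _ ≤ E * (√(∑ b ∈ T, nsq μ (Pr μ K {b} v)) * √(∑ b ∈ T, nsq μ (Pr μ K {b} u))) :=
        mul_le_mul_of_nonneg_left
          (Real.sum_sqrt_mul_sqrt_le T (fun b => hn _) (fun b => hn _)) hE
    _ ≤ E * (√(nsq μ u) * √(nsq μ v)) := by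
        refine mul_le_mul_of_nonneg_left ?_ hE
        rw [← kb.pyth T v hv, ← kb.pyth T u hu, mul_comm (√(nsq μ u))]
        exact mul_le_mul (Real.sqrt_le_sqrt (kb.bess T v hv)) (Real.sqrt_le_sqrt (kb.bess T u hu))
          (Real.sqrt_nonneg _) (Real.sqrt_nonneg _)

end

end STZ
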