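import Pool.Agent.STZ.StmtsX

/-!
# Module LEV: from restricted weak type to strong type
-/

namespace STZ

open MeasureTheory Matrix

open scoped ComplexConjugate Matrix Real

noncomputable section

namespace LEV

section general

variable {M : Type} [TopologicalSpace M] [CompactSpace M] [T2Space M] [SecondCountableTopology M]
  [MeasurableSpace M] [BorelSpace M] (μ : Measure M) [IsProbabilityMeasure μ]

/-- the double integral -/
def II (f : ℝ → M → ℝ) : ℝ := ∫ t in (0 : ℝ)..1, ∫ x, f t x ∂μ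

/-- joint continuity -/
def JR (f : ℝ → M → ℝ) : Prop := Continuous fun z : ℝ × M => f z.1 z.2

omit [CompactSpace M] [T2Space M] [SecondCountableTopology M] [MeasurableSpace M] [BorelSpace M] in
lemma jconst (c : ℝ) : JR (fun (_ : ℝ) (_ : M) => c) := continuous_const

variable {μ}

omit [T2Space M] [IsProbabilityMeasure μ] in
lemma slice {E : Type*} [NormedAddCommGroup E] {f : ℝ → M → E}
    (hf : Continuous fun z : ℝ × M => f z.1 z.2) (t : ℝ) : Continuous (f t) :=
  hf.comp (Continuous.prodMk_right t)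

omit [T2Space M] in
lemma intg {f : ℝ → M → ℝ} (hf : JR f) (t : ℝ) : Integrable (f t) μ :=
  (slice hf t).integrable_of_hasCompactSupport (HasCompactSupport.of_compactSpace _)

omit [T2Space M] in
lemma contI {f : ℝ → M → ℝ} (hf : JR f) : Continuous fun t => ∫ x, f t x ∂μ := by
  have h := continuous_parametric_integral_of_continuous (μ := μ) (f := f)
    (hf : Continuous fun z : ℝ × M => f z.1 z.2) (isCompact_univ : IsCompact (Set.univ : Set M))
  simpa using h

omit [T2Space M] in
lemma II_mono {f g : ℝ → M → ℝ} (hf : JR f) (hg : JR g) (h : ∀ t x, f t x ≤ g t x) :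
    II μ f ≤ II μ g := by
  unfold II
  refine intervalIntegral.integral_mono_on (by norm_num) ((contI hf).intervalIntegrable _ _)
    ((contI hg).intervalIntegrable _ _) fun t _ => ?_
  exact integral_mono (intg hf t) (intg hg t) (h t)

omit [T2Space M] in
lemma II_add {f g : ℝ → M → ℝ} (hf : JR f) (hg : JR g) :
    II μ (fun t x => f t x + g t x) = II μ f + II μ g := by
  unfold II
  rw [← intervalIntegral.integral_add ((contI hf).intervalIntegrable _ _)
    ((contI hg).intervalIntegrable _ _)]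
  congr 1
  funext t
  exact integral_add (intg hf t) (intg hg t)

omit [T2Space M] [CompactSpace M] [SecondCountableTopology M] [BorelSpace M]
  [TopologicalSpace M] [IsProbabilityMeasure μ] in
lemma II_mul (c : ℝ) (f : ℝ → M → ℝ) : II μ (fun t x => c * f t x) = c * II μ f := by
  unfold II
  rw [← intervalIntegral.integral_const_mul]
  congr 1
  funext t
  exact integral_const_mul _ _

omit [T2Space M] [CompactSpace M] [SecondCountableTopology M] [BorelSpace M]
  [TopologicalSpace M] in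
lemma II_const (c : ℝ) : II μ (fun _ _ => c) = c := by
  simp [II]

omit [T2Space M] in
lemma II_sum (n : ℕ) (f : ℕ → ℝ → M → ℝ) (hf : ∀ k, JR (f k)) :
    JR (fun t x => ∑ k ∈ Finset.range n, f k t x) ∧
    II μ (fun t x => ∑ k ∈ Finset.range n, f k t x) = ∑ k ∈ Finset.range n, II μ (f k) := by
  induction n with
  | zero =>
    constructor
    · simp only [JR, Finset.range_zero, Finset.sum_empty]; exact continuous_const
    · simp [II]
  | succ n ih =>
    have h1 : (fun (t : ℝ) (x : M) => ∑ k ∈ Finset.range (n + 1), f k t x) =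
        fun t x => (∑ k ∈ Finset.range n, f k t x) + f n t x := by
      funext t x
      rw [Finset.sum_range_succ]
    constructor
    · rw [h1]
      exact ih.1.add (hf n)
    · rw [h1, II_add ih.1 (hf n), ih.2, Finset.sum_range_succ]

end general

/-- the cut-off function -/
def ph (s : ℝ) : ℝ := min 1 (max 0 (s - 1))

lemma ph_cont : Continuous ph := by unfold ph; fun_prop

lemma ph_nn (s : ℝ) : 0 ≤ ph s := by
  unfold ph; exact le_min zero_le_one (le_max_left _ _)

lemma ph_le (s : ℝ) : ph s ≤ 1 := min_le_left _ _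

lemma ph_zero {s : ℝ} (h : s ≤ 1) : ph s = 0 := by
  unfold ph
  rw [max_eq_left (by linarith)]
  exact min_eq_right zero_le_one

lemma ph_one {s : ℝ} (h : 2 ≤ s) : ph s = 1 := by
  unfold ph
  exact min_eq_left (le_trans (by linarith) (le_max_right _ _))

lemma point (p' Λ s : ℝ) (hp : 0 < p') (hΛ : 0 < Λ) (hs : 0 ≤ s) (hsΛ : s ≤ Λ) (K : ℕ) :
    s ^ p' ≤ ∑ k ∈ Finset.range K, (Λ / 2 ^ k) ^ p' * ph (s / (Λ / 2 ^ (k + 2))) +
      (Λ / 2 ^ K) ^ p' := by
  induction K with
  | zero =>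
    simp only [Finset.range_zero, Finset.sum_empty, pow_zero, div_one, zero_add]
    exact Real.rpow_le_rpow hs hsΛ hp.le
  | succ K ih =>
    rcases le_or_gt s (Λ / 2 ^ (K + 1)) with h | h
    · have h1 : s ^ p' ≤ (Λ / 2 ^ (K + 1)) ^ p' := Real.rpow_le_rpow hs h hp.le
      have h2 : 0 ≤ ∑ k ∈ Finset.range (K + 1), (Λ / 2 ^ k) ^ p' * ph (s / (Λ / 2 ^ (k + 2))) :=
        Finset.sum_nonneg fun k _ => mul_nonneg (Real.rpow_nonneg (by positivity) _) (ph_nn _)
      linarith
    · have h1 : ph (s / (Λ / 2 ^ (K + 2))) = 1 := by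
        apply ph_one
        rw [le_div_iff₀ (by positivity)]
        have : 2 * (Λ / 2 ^ (K + 2)) = Λ / 2 ^ (K + 1) := by
          rw [pow_succ (2 : ℝ) (K + 1)]; field_simp
        linarith
      rw [Finset.sum_range_succ, h1, mul_one]
      have h2 : 0 ≤ (Λ / 2 ^ (K + 1)) ^ p' := Real.rpow_nonneg (by positivity) _
      linarith

end LEV

open LEV in
theorem t_LEV : S_LEV := by
  intro M _ _ _ _ _ _ μ _ p p' hp hpp
  have hp0 : 0 < p := by linarith
  have hp'0 : 0 < p' := by linarith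
  set r : ℝ := (2 : ℝ) ^ (-(p' - p)) with hr
  have hr0 : 0 < r := Real.rpow_pos_of_pos (by norm_num) _
  have hr1 : r < 1 := Real.rpow_lt_one_of_one_lt_of_neg (by norm_num) (by linarith)
  refine ⟨4 ^ p * (1 - r)⁻¹, by
    have : 0 < 1 - r := by linarith
    positivity, ?_⟩
  intro U Γ Λ hU hΓ hΛ hb hG
  have hUn : JR (fun t x => ‖U t x‖) := Continuous.norm hU
  have hUp : JR (fun t x => ‖U t x‖ ^ p') :=
    Continuous.rpow_const hUn fun _ => Or.inr hp'0.le
  rcases eq_or_lt_of_le hΛ with h0 | hΛ'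
  · have h1 : ∀ t x, ‖U t x‖ ^ p' = 0 := by
      intro t x
      have h2 : ‖U t x‖ = 0 := le_antisymm (by rw [h0]; exact hb t x) (norm_nonneg _)
      rw [h2, Real.zero_rpow hp'0.ne']
    simp only [h1]
    have h3 : 0 < 1 - r := by linarith
    simp only [integral_zero, intervalIntegral.integral_zero]
    positivity
  -- the weak type bound
  have weak : ∀ l : ℝ, 0 < l → JR (fun t x => ph (‖U t x‖ / l)) ∧
      II μ (fun t x => ph (‖U t x‖ / l)) ≤ Γ ^ (p / 2) * l ^ (-p) := by
    intro l hl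
    have hc : JR (fun t x => ph (‖U t x‖ / l)) := ph_cont.comp (Continuous.div_const hUn l)
    refine ⟨hc, ?_⟩
    set m : ℝ := II μ (fun t x => ph (‖U t x‖ / l)) with hm
    have hm0 : 0 ≤ m := by
      have := II_mono (μ := μ) (f := fun _ _ => 0) (continuous_const) hc fun t x => ph_nn _
      rwa [II_const] at this
    set G : ℝ → M → ℂ := fun t x => ((ph (‖U t x‖ / l) / max ‖U t x‖ l : ℝ) : ℂ) * U t x with hGd
    have hGc : JC G := by
      have h1 : Continuous fun z : ℝ × M => ph (‖U z.1 z.2‖ / l) / max ‖U z.1 z.2‖ l := by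
        refine Continuous.div hc (Continuous.max hUn continuous_const) fun z => ?_
        exact (lt_of_lt_of_le hl (le_max_right _ _)).ne'
      exact (Complex.continuous_ofReal.comp h1).mul hU
    have hGn : ∀ t x, ‖G t x‖ = ph (‖U t x‖ / l) := by
      intro t x
      have hmx : 0 < max ‖U t x‖ l := lt_of_lt_of_le hl (le_max_right _ _)
      simp only [hGd, norm_mul, Complex.norm_real, Real.norm_eq_abs]
      rw [abs_of_nonneg (div_nonneg (ph_nn _) hmx.le)]
      rcases le_or_gt ‖U t x‖ l with h | h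
      · rw [ph_zero ((div_le_one hl).2 h)]; simp
      · rw [max_eq_left h.le]
        exact div_mul_cancel₀ _ (hl.trans h).ne'
    have hGU : ∀ t x, conj (G t x) * U t x = ((ph (‖U t x‖ / l) * ‖U t x‖ : ℝ) : ℂ) := by
      intro t x
      have h1 : conj (U t x) * U t x = ((‖U t x‖ ^ 2 : ℝ) : ℂ) := by
        rw [mul_comm, Complex.mul_conj, Complex.normSq_eq_norm_sq]
      have h2 : conj (G t x) * U t x =
          ((ph (‖U t x‖ / l) / max ‖U t x‖ l * ‖U t x‖ ^ 2 : ℝ) : ℂ) := by
        simp only [hGd, map_mul, Complex.conj_ofReal]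
        rw [mul_assoc, h1]
        push_cast
        ring
      rw [h2]
      congr 1
      rcases le_or_gt ‖U t x‖ l with h | h
      · rw [ph_zero ((div_le_one hl).2 h)]; simp
      · rw [max_eq_left h.le]
        have : ‖U t x‖ ≠ 0 := (hl.trans h).ne'
        field_simp
    have h1 := hG G hGc fun t x => by rw [hGn]; exact ph_le _
    have h2 : ∫ t in (0 : ℝ)..1, ∫ x, conj (G t x) * U t x ∂μ =
        ((II μ (fun t x => ph (‖U t x‖ / l) * ‖U t x‖) : ℝ) : ℂ) := by
      simp only [hGU, II]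
      rw [← intervalIntegral.integral_ofReal]
      congr 1
      funext t
      exact integral_ofReal
    have h3 : ∫ t in (0 : ℝ)..1, ∫ x, ‖G t x‖ ∂μ = m := by
      simp only [hGn, hm, II]
    rw [h2, h3, Complex.norm_real, Real.norm_eq_abs, sq_abs] at h1
    have h4 : l * m ≤ II μ (fun t x => ph (‖U t x‖ / l) * ‖U t x‖) := by
      rw [hm, ← II_mul]
      refine II_mono (Continuous.mul continuous_const hc) (Continuous.mul hc hUn) fun t x => ?_
      rcases le_or_gt ‖U t x‖ l with h | h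
      · rw [ph_zero ((div_le_one hl).2 h)]; simp
      · rw [mul_comm]
        exact mul_le_mul_of_nonneg_left h.le (ph_nn _)
    have h5 : (l * m) ^ 2 ≤ Γ * m ^ (2 - 2 / p) :=
      le_trans (pow_le_pow_left₀ (by positivity) h4 2) h1
    rcases eq_or_lt_of_le hm0 with h6 | h6
    · rw [← h6]
      exact mul_nonneg (Real.rpow_nonneg hΓ _) (Real.rpow_nonneg hl.le _)
    · have h7 : m ^ (2 : ℕ) = m ^ (2 - 2 / p) * m ^ (2 / p) := by
        rw [← Real.rpow_add h6, ← Real.rpow_natCast]
        congr 1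
        push_cast
        ring
      have h8 : 0 < m ^ (2 - 2 / p) := Real.rpow_pos_of_pos h6 _
      have h9 : l ^ 2 * m ^ (2 / p) ≤ Γ := by
        rw [mul_pow, h7] at h5
        have h10 : (l ^ 2 * m ^ (2 / p)) * m ^ (2 - 2 / p) ≤ Γ * m ^ (2 - 2 / p) := by
          calc _ = l ^ 2 * (m ^ (2 - 2 / p) * m ^ (2 / p)) := by ring
            _ ≤ _ := h5
        exact le_of_mul_le_mul_right h10 h8
      have h11 : (l ^ 2 * m ^ (2 / p)) ^ (p / 2) = l ^ p * m := by
        rw [Real.mul_rpow (by positivity) (by positivity), ← Real.rpow_mul h6.le,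
          ← Real.rpow_natCast, ← Real.rpow_mul hl.le]
        have e1 : ((2 : ℕ) : ℝ) * (p / 2) = p := by push_cast; ring
        have e2 : 2 / p * (p / 2) = 1 := by field_simp
        rw [e1, e2, Real.rpow_one]
      have h12 : l ^ p * m ≤ Γ ^ (p / 2) := by
        rw [← h11]
        exact Real.rpow_le_rpow (by positivity) h9 (by positivity)
      have h13 : 0 < l ^ p := Real.rpow_pos_of_pos hl _
      rw [Real.rpow_neg hl.le, ← div_eq_mul_inv, le_div_iff₀ h13]
      linarith
  -- summation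
  have main : ∀ K : ℕ, II μ (fun t x => ‖U t x‖ ^ p') ≤
      4 ^ p * (1 - r)⁻¹ * (Λ ^ (p' - p) * Γ ^ (p / 2)) + (Λ / 2 ^ K) ^ p' := by
    intro K
    have hk : ∀ k : ℕ, 0 < Λ / 2 ^ (k + 2) := fun k => by positivity
    have hJ : ∀ k : ℕ, JR (fun (t : ℝ) (x : M) =>
        (Λ / 2 ^ k) ^ p' * ph (‖U t x‖ / (Λ / 2 ^ (k + 2)))) := fun k =>
      Continuous.mul continuous_const (weak _ (hk k)).1
    have hs := II_sum (μ := μ) K (fun k (t : ℝ) (x : M) =>
        (Λ / 2 ^ k) ^ p' * ph (‖U t x‖ / (Λ / 2 ^ (k + 2)))) hJ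
    have h1 : II μ (fun t x => ‖U t x‖ ^ p') ≤ II μ (fun t x =>
        (∑ k ∈ Finset.range K, (Λ / 2 ^ k) ^ p' * ph (‖U t x‖ / (Λ / 2 ^ (k + 2)))) +
          (Λ / 2 ^ K) ^ p') :=
      II_mono hUp (Continuous.add hs.1 continuous_const) fun t x =>
        point p' Λ _ hp'0 hΛ' (norm_nonneg _) (hb t x) K
    rw [II_add hs.1 (jconst _), II_const, hs.2] at h1
    refine h1.trans (add_le_add_left ?_ _)
    have h2 : ∀ k ∈ Finset.range K, II μ (fun (t : ℝ) (x : M) =>
        (Λ / 2 ^ k) ^ p' * ph (‖U t x‖ / (Λ / 2 ^ (k + 2)))) ≤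
        4 ^ p * (Λ ^ (p' - p) * Γ ^ (p / 2)) * r ^ k := by
      intro k _
      rw [II_mul]
      have h3 := (weak _ (hk k)).2
      have h4 : 0 ≤ (Λ / 2 ^ k) ^ p' := Real.rpow_nonneg (by positivity) _
      refine (mul_le_mul_of_nonneg_left h3 h4).trans (le_of_eq ?_)
      have hk0 : 0 < Λ / 2 ^ k := by positivity
      have h5 : Λ / 2 ^ (k + 2) = (Λ / 2 ^ k) / 4 := by
        rw [pow_add]; field_simp; norm_num
      have h6 : r ^ k = (2 ^ k : ℝ) ^ (-(p' - p)) := by
        rw [hr, ← Real.rpow_natCast, ← Real.rpow_mul (by norm_num), ← Real.rpow_natCast,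
          ← Real.rpow_mul (by norm_num), mul_comm]
      have h7 : (Λ / 2 ^ k) ^ (p' - p) = Λ ^ (p' - p) * r ^ k := by
        rw [h6, Real.div_rpow hΛ (by positivity), Real.rpow_neg (by positivity), div_eq_mul_inv]
      rw [h5, Real.div_rpow hk0.le (by norm_num), Real.rpow_neg (by norm_num : (0:ℝ) ≤ 4),
        div_inv_eq_mul]
      have h8 : (Λ / 2 ^ k) ^ p' * (Λ / 2 ^ k) ^ (-p) = (Λ / 2 ^ k) ^ (p' - p) := by
        rw [← Real.rpow_add hk0]; congr 1
      calc (Λ / 2 ^ k) ^ p' * (Γ ^ (p / 2) * ((Λ / 2 ^ k) ^ (-p) * 4 ^ p))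
          = ((Λ / 2 ^ k) ^ p' * (Λ / 2 ^ k) ^ (-p)) * (Γ ^ (p / 2) * 4 ^ p) := by ring
        _ = _ := by rw [h8, h7]; ring
    refine (Finset.sum_le_sum h2).trans ?_
    rw [← Finset.mul_sum]
    have h9 : ∑ k ∈ Finset.range K, r ^ k ≤ (1 - r)⁻¹ := by
      rw [← tsum_geometric_of_lt_one hr0.le hr1]
      exact (summable_geometric_of_lt_one hr0.le hr1).sum_le_tsum _ fun k _ => by positivity
    have h10 : 0 ≤ 4 ^ p * (Λ ^ (p' - p) * Γ ^ (p / 2)) := by positivity
    calc _ ≤ 4 ^ p * (Λ ^ (p' - p) * Γ ^ (p / 2)) * (1 - r)⁻¹ :=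
          mul_le_mul_of_nonneg_left h9 h10
      _ = _ := by ring
  have hlim : Filter.Tendsto (fun K : ℕ => 4 ^ p * (1 - r)⁻¹ * (Λ ^ (p' - p) * Γ ^ (p / 2)) +
      (Λ / 2 ^ K) ^ p') Filter.atTop
      (nhds (4 ^ p * (1 - r)⁻¹ * (Λ ^ (p' - p) * Γ ^ (p / 2)) + 0)) := by
    refine tendsto_const_nhds.add ?_
    have h1 : Filter.Tendsto (fun K : ℕ => Λ / 2 ^ K) Filter.atTop (nhds 0) := by
      have := (tendsto_pow_atTop_nhds_zero_of_lt_one (r := (1 / 2 : ℝ)) (by norm_num)
        (by norm_num)).const_mul Λ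
      simp only [mul_zero, one_div, inv_pow] at this
      simpa [div_eq_mul_inv] using this
    have h2 := (Real.continuousAt_rpow_const 0 p' (Or.inr hp'0.le)).tendsto.comp h1
    simpa [Function.comp_def, Real.zero_rpow hp'0.ne'] using h2
  rw [add_zero] at hlim
  exact ge_of_tendsto' hlim main

end

end STZ
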