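import Pool.Agent.STZ.StmtsA

/-!
# Module NQ: facts about the norm in `L^q([0, 1] × M)`
-/

set_option autoImplicit false

namespace STZ

open MeasureTheory Matrix Set

open scoped ComplexConjugate Matrix Real

noncomputable section

namespace NQ

variable {M : Type} [TopologicalSpace M] [CompactSpace M] [T2Space M]
  [SecondCountableTopology M] [MeasurableSpace M] [BorelSpace M] (μ : Measure M)
  [IsProbabilityMeasure μ]

/-- the measure on `ℝ × M` -/
def nu : Measure (ℝ × M) := ((volume : Measure ℝ).restrict (Ioc 0 1)).prod μ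

instance : IsFiniteMeasure (nu μ) := by
  unfold nu
  infer_instance

/-- the function on the product -/
def un (F : ℝ → M → ℂ) : ℝ × M → ℂ := fun z => F z.1 z.2

theorem aesm {F : ℝ → M → ℂ} (hF : JC F) : AEStronglyMeasurable (un F) (nu μ) :=
  Continuous.aestronglyMeasurable (f := un F) hF

theorem memLp {F : ℝ → M → ℂ} (hF : JC F) (p : ENNReal) : MemLp (un F) p (nu μ) := by
  have hc : IsCompact ((Icc (0 : ℝ) 1) ×ˢ (univ : Set M)) := isCompact_Icc.prod isCompact_univ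
  obtain ⟨C, hC⟩ := hc.exists_bound_of_continuousOn (f := un F) (Continuous.continuousOn hF)
  refine MemLp.of_bound (aesm μ hF) C ?_
  have e : nu μ = ((volume : Measure ℝ).prod μ).restrict ((Ioc (0 : ℝ) 1) ×ˢ (univ : Set M)) := by
    rw [← Measure.prod_restrict, Measure.restrict_univ]
    rfl
  rw [e]
  refine ae_restrict_of_forall_mem (measurableSet_Ioc.prod MeasurableSet.univ) ?_
  intro z hz
  exact hC z ⟨Ioc_subset_Icc_self hz.1, mem_univ _⟩

theorem nq_eq {F : ℝ → M → ℂ} (hF : JC F) {q : ℝ} (hq : 0 < q) :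
    nq μ q F = (eLpNorm (un F) (ENNReal.ofReal q) (nu μ)).toReal := by
  have hq0 : ENNReal.ofReal q ≠ 0 := by
    rw [Ne, ENNReal.ofReal_eq_zero, not_le]
    exact hq
  have hqr : (ENNReal.ofReal q).toReal = q := ENNReal.toReal_ofReal hq.le
  have hm := memLp μ hF (ENNReal.ofReal q)
  have hi := hm.integrable_norm_rpow hq0 ENNReal.ofReal_ne_top
  rw [hm.eLpNorm_eq_integral_rpow_norm hq0 ENNReal.ofReal_ne_top, hqr]
  rw [hqr] at hi
  have h1 : ∫ z, ‖un F z‖ ^ q ∂(nu μ) = ∫ t in (0 : ℝ)..1, ∫ x, ‖F t x‖ ^ q ∂μ := by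
    rw [intervalIntegral.integral_of_le zero_le_one]
    exact integral_prod _ hi
  rw [h1, ENNReal.toReal_ofReal, nq, one_div]
  rw [← h1]
  exact Real.rpow_nonneg (integral_nonneg fun z => Real.rpow_nonneg (norm_nonneg _) _) _

theorem ne_top {F : ℝ → M → ℂ} (hF : JC F) (p : ENNReal) : eLpNorm (un F) p (nu μ) ≠ ⊤ :=
  (memLp μ hF p).2.ne

theorem cont (q : ℝ) (F : ℝ → M → ℂ) (hq : 0 < q) (hF : JC F) :
    Continuous fun t => ∫ x, ‖F t x‖ ^ q ∂μ := by
  have h1 : Continuous (Function.uncurry fun (t : ℝ) (x : M) => ‖F t x‖ ^ q) := by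
    have h2 : Continuous fun z : ℝ × M => ‖F z.1 z.2‖ ^ q :=
      (continuous_norm.comp hF).rpow_const fun _ => Or.inr hq.le
    exact h2
  have h3 := continuous_parametric_integral_of_continuous (μ := μ) h1 (s := univ) isCompact_univ
  simpa only [Measure.restrict_univ] using h3

theorem tri (q : ℝ) (ι : Type) (s : Finset ι) (F : ι → ℝ → M → ℂ) (hq : 1 ≤ q)
    (hF : ∀ i ∈ s, JC (F i)) :
    nq μ q (fun t x => ∑ i ∈ s, F i t x) ≤ ∑ i ∈ s, nq μ q (F i) := by
  have hq0 : 0 < q := lt_of_lt_of_le one_pos hq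
  have hs : JC (fun t x => ∑ i ∈ s, F i t x) := continuous_finsetSum s fun i hi => hF i hi
  rw [nq_eq μ hs hq0]
  have e : un (fun t x => ∑ i ∈ s, F i t x) = ∑ i ∈ s, un (F i) := by
    funext z
    rw [Finset.sum_apply]
    rfl
  have h1 : eLpNorm (∑ i ∈ s, un (F i)) (ENNReal.ofReal q) (nu μ) ≤
      ∑ i ∈ s, eLpNorm (un (F i)) (ENNReal.ofReal q) (nu μ) :=
    eLpNorm_sum_le (fun i hi => aesm μ (hF i hi)) (by
      rw [← ENNReal.ofReal_one]
      exact ENNReal.ofReal_le_ofReal hq)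
  have hfin : ∀ i ∈ s, eLpNorm (un (F i)) (ENNReal.ofReal q) (nu μ) ≠ ⊤ :=
    fun i hi => ne_top μ (hF i hi) _
  calc (eLpNorm (un (fun t x => ∑ i ∈ s, F i t x)) (ENNReal.ofReal q) (nu μ)).toReal
      ≤ (∑ i ∈ s, eLpNorm (un (F i)) (ENNReal.ofReal q) (nu μ)).toReal := by
        rw [e]
        exact ENNReal.toReal_mono (ENNReal.sum_ne_top.2 hfin) h1
    _ = ∑ i ∈ s, (eLpNorm (un (F i)) (ENNReal.ofReal q) (nu μ)).toReal :=
        ENNReal.toReal_sum hfin
    _ = ∑ i ∈ s, nq μ q (F i) :=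
        Finset.sum_congr rfl fun i hi => (nq_eq μ (hF i hi) hq0).symm

theorem hol (q a b : ℝ) (F G : ℝ → M → ℂ) (hq : 1 ≤ q) (ha : 0 < a) (hb : 0 < b)
    (h : 1 / q = 1 / a + 1 / b) (hF : JC F) (hG : JC G) :
    nq μ q (fun t x => F t x * G t x) ≤ nq μ a F * nq μ b G := by
  have hq0 : 0 < q := lt_of_lt_of_le one_pos hq
  have hFG : JC (fun t x => F t x * G t x) := Continuous.mul hF hG
  rw [nq_eq μ hFG hq0, nq_eq μ hF ha, nq_eq μ hG hb, ← ENNReal.toReal_mul]
  refine ENNReal.toReal_mono (ENNReal.mul_ne_top (ne_top μ hF _) (ne_top μ hG _)) ?_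
  have hH : ENNReal.HolderTriple (ENNReal.ofReal a) (ENNReal.ofReal b) (ENNReal.ofReal q) := by
    constructor
    rw [← ENNReal.ofReal_inv_of_pos ha, ← ENNReal.ofReal_inv_of_pos hb,
      ← ENNReal.ofReal_inv_of_pos hq0, ← ENNReal.ofReal_add (inv_nonneg.2 ha.le)
        (inv_nonneg.2 hb.le)]
    rw [one_div, one_div, one_div] at h
    rw [h]
  have h2 : un (fun t x => F t x * G t x) = un F • un G := by
    funext z
    rfl
  rw [h2]
  exact eLpNorm_smul_le_mul_eLpNorm (p := ENNReal.ofReal a) (q := ENNReal.ofReal b)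
    (r := ENNReal.ofReal q) (aesm μ hG) (aesm μ hF) (hpqr := hH)

theorem sq (q : ℝ) (F : ℝ → M → ℂ) (hq : 0 < q) :
    nq μ (2 * q) F ^ 2 = nq μ q (fun t x => F t x ^ 2) := by
  have h1 : ∀ z : ℂ, ‖z‖ ^ (2 * q) = ‖z ^ 2‖ ^ q := by
    intro z
    rw [norm_pow, Real.rpow_mul (norm_nonneg z), Real.rpow_two]
  unfold nq
  simp only [h1]
  rw [← Real.rpow_natCast, ← Real.rpow_mul]
  · congr 1
    push_cast
    field_simp
  · refine intervalIntegral.integral_nonneg zero_le_one fun t _ => ?_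
    exact integral_nonneg fun x => Real.rpow_nonneg (norm_nonneg _) _

end NQ

theorem t_NQ : S_NQ := by
  intro M _ _ _ _ _ _ μ _
  exact ⟨NQ.cont μ, NQ.tri μ, NQ.hol μ, NQ.sq μ⟩

end

end STZ
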