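import Pool.Agent.STZ.StmtsA

/-!
# Module SCH: Schur test
-/

set_option autoImplicit false

namespace STZ

noncomputable section

namespace SCH

theorem geo_le {ρ : ℝ} (h0 : 0 ≤ ρ) (h1 : ρ < 1) (s : Finset ℕ) :
    ∑ i ∈ s, ρ ^ i ≤ (1 - ρ)⁻¹ := by
  rw [← tsum_geometric_of_lt_one h0 h1]
  exact (summable_geometric_of_lt_one h0 h1).sum_le_tsum s fun i _ => pow_nonneg h0 i

theorem wgt_eq (δ : ℝ) (j k : ℕ) (h : k ≤ j) :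
    (2 : ℝ) ^ (-δ * |(j : ℝ) - k|) = ((2 : ℝ) ^ (-δ)) ^ (j - k) := by
  have h1 : |(j : ℝ) - k| = ((j - k : ℕ) : ℝ) := by
    rw [Nat.cast_sub h, abs_of_nonneg]
    exact sub_nonneg.2 (Nat.cast_le.2 h)
  rw [h1, Real.rpow_mul (by norm_num), Real.rpow_natCast]

theorem wgt_comm (δ : ℝ) (j k : ℕ) :
    (2 : ℝ) ^ (-δ * |(j : ℝ) - k|) = (2 : ℝ) ^ (-δ * |(k : ℝ) - j|) := by
  rw [abs_sub_comm]

theorem row {δ : ℝ} (hδ : 0 < δ) (s : Finset ℕ) (j : ℕ) :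
    ∑ k ∈ s, (2 : ℝ) ^ (-δ * |(j : ℝ) - k|) ≤ 2 * (1 - (2 : ℝ) ^ (-δ))⁻¹ := by
  have h0 : (0 : ℝ) ≤ (2 : ℝ) ^ (-δ) := by positivity
  have h1 : (2 : ℝ) ^ (-δ) < 1 := Real.rpow_lt_one_of_one_lt_of_neg (by norm_num) (by linarith)
  rw [← Finset.sum_filter_add_sum_filter_not s (fun k => k ≤ j), two_mul]
  refine add_le_add ?_ ?_
  · have h2 : ∑ k ∈ s.filter (fun k => k ≤ j), (2 : ℝ) ^ (-δ * |(j : ℝ) - k|) =
        ∑ i ∈ (s.filter (fun k => k ≤ j)).image (fun k => j - k), ((2 : ℝ) ^ (-δ)) ^ i := by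
      rw [Finset.sum_image]
      · refine Finset.sum_congr rfl fun k hk => ?_
        exact wgt_eq δ j k (Finset.mem_filter.1 hk).2
      · intro k hk l hl hkl
        have h3 := (Finset.mem_filter.1 (Finset.mem_coe.1 hk)).2
        have h4 := (Finset.mem_filter.1 (Finset.mem_coe.1 hl)).2
        simp only at hkl
        omega
    rw [h2]
    exact geo_le h0 h1 _
  · have h2 : ∑ k ∈ s.filter (fun k => ¬ k ≤ j), (2 : ℝ) ^ (-δ * |(j : ℝ) - k|) =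
        ∑ i ∈ (s.filter (fun k => ¬ k ≤ j)).image (fun k => k - j), ((2 : ℝ) ^ (-δ)) ^ i := by
      rw [Finset.sum_image]
      · refine Finset.sum_congr rfl fun k hk => ?_
        rw [wgt_comm]
        exact wgt_eq δ k j (not_le.1 (Finset.mem_filter.1 hk).2).le
      · intro k hk l hl hkl
        have h3 := (Finset.mem_filter.1 (Finset.mem_coe.1 hk)).2
        have h4 := (Finset.mem_filter.1 (Finset.mem_coe.1 hl)).2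
        simp only at hkl
        omega
    rw [h2]
    exact geo_le h0 h1 _

end SCH

open SCH

theorem t_SCH : S_SCH := by
  intro δ hδ
  have h1 : (2 : ℝ) ^ (-δ) < 1 := Real.rpow_lt_one_of_one_lt_of_neg (by norm_num) (by linarith)
  have hC : (0 : ℝ) ≤ 2 * (1 - (2 : ℝ) ^ (-δ))⁻¹ := by
    have : 0 < 1 - (2 : ℝ) ^ (-δ) := sub_pos.2 h1
    positivity
  refine ⟨2 * (1 - (2 : ℝ) ^ (-δ))⁻¹, hC, fun s a => ?_⟩
  have h2 : ∀ j k : ℕ, |a j * a k| * (2 : ℝ) ^ (-δ * |(j : ℝ) - k|) ≤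
      a j ^ 2 / 2 * (2 : ℝ) ^ (-δ * |(j : ℝ) - k|) +
        a k ^ 2 / 2 * (2 : ℝ) ^ (-δ * |(j : ℝ) - k|) := by
    intro j k
    rw [← add_mul]
    refine mul_le_mul_of_nonneg_right ?_ (by positivity)
    rw [abs_mul]
    nlinarith [sq_nonneg (|a j| - |a k|), sq_abs (a j), sq_abs (a k)]
  have h3 : ∑ j ∈ s, ∑ k ∈ s, a j ^ 2 / 2 * (2 : ℝ) ^ (-δ * |(j : ℝ) - k|) ≤
      ∑ j ∈ s, a j ^ 2 / 2 * (2 * (1 - (2 : ℝ) ^ (-δ))⁻¹) := by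
    refine Finset.sum_le_sum fun j _ => ?_
    rw [← Finset.mul_sum]
    exact mul_le_mul_of_nonneg_left (row hδ s j) (by positivity)
  have h4 : ∑ j ∈ s, ∑ k ∈ s, a k ^ 2 / 2 * (2 : ℝ) ^ (-δ * |(j : ℝ) - k|) =
      ∑ j ∈ s, ∑ k ∈ s, a j ^ 2 / 2 * (2 : ℝ) ^ (-δ * |(j : ℝ) - k|) := by
    rw [Finset.sum_comm]
    refine Finset.sum_congr rfl fun j _ => Finset.sum_congr rfl fun k _ => ?_
    rw [wgt_comm]
  calc ∑ j ∈ s, ∑ k ∈ s, |a j * a k| * (2 : ℝ) ^ (-δ * |(j : ℝ) - k|)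
      ≤ ∑ j ∈ s, ∑ k ∈ s, (a j ^ 2 / 2 * (2 : ℝ) ^ (-δ * |(j : ℝ) - k|) +
          a k ^ 2 / 2 * (2 : ℝ) ^ (-δ * |(j : ℝ) - k|)) :=
        Finset.sum_le_sum fun j _ => Finset.sum_le_sum fun k _ => h2 j k
    _ = ∑ j ∈ s, ∑ k ∈ s, a j ^ 2 / 2 * (2 : ℝ) ^ (-δ * |(j : ℝ) - k|) +
          ∑ j ∈ s, ∑ k ∈ s, a k ^ 2 / 2 * (2 : ℝ) ^ (-δ * |(j : ℝ) - k|) := by
        simp only [Finset.sum_add_distrib]
    _ ≤ ∑ j ∈ s, a j ^ 2 / 2 * (2 * (1 - (2 : ℝ) ^ (-δ))⁻¹) +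
          ∑ j ∈ s, a j ^ 2 / 2 * (2 * (1 - (2 : ℝ) ^ (-δ))⁻¹) := by
        rw [h4]
        exact add_le_add h3 h3
    _ = 2 * (1 - (2 : ℝ) ^ (-δ))⁻¹ * ∑ j ∈ s, a j ^ 2 := by
        rw [← Finset.sum_add_distrib, Finset.mul_sum]
        refine Finset.sum_congr rfl fun j _ => ?_
        ring

end

end STZ
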