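import Pool.Agent.STZ.StmtsR

/-!
# STZ, module SCHUR: Schur orthogonality
-/

namespace STZ

open MeasureTheory Matrix

open scoped ComplexConjugate Matrix ComplexOrder

namespace SCHUR

section

variable {G : Type} [Group G] [TopologicalSpace G] [IsTopologicalGroup G]
  [CompactSpace G] [T2Space G] [SecondCountableTopology G] [MeasurableSpace G] [BorelSpace G]
  (μ : Measure G)
  {ι κ ν : Type} [Fintype ι] [Fintype κ] [Fintype ν] [DecidableEq ι] [DecidableEq κ]
  [DecidableEq ν]

/-- the integral of a matrix valued function -/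
noncomputable def IM (f : G → Matrix ι κ ℂ) : Matrix ι κ ℂ := fun i k => ∫ g, f g i k ∂μ

variable [IsProbabilityMeasure μ]

theorem intg {f : G → Matrix ι κ ℂ} (hf : Continuous f) (i : ι) (k : κ) :
    Integrable (fun g => f g i k) μ := by
  have h : Continuous fun g => f g i k := hf.matrix_elem i k
  exact h.integrable_of_hasCompactSupport (HasCompactSupport.of_compactSpace _)

theorem IM_left {f : G → Matrix ι κ ℂ} (hf : Continuous f) (A : Matrix ν ι ℂ) :
    IM μ (fun g => A * f g) = A * IM μ f := by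
  ext i k
  simp only [IM, Matrix.mul_apply]
  rw [integral_finsetSum _ fun j _ => (intg μ hf j k).const_mul (A i j)]
  refine Finset.sum_congr rfl fun j _ => ?_
  exact integral_const_mul _ _

theorem IM_right {f : G → Matrix ι κ ℂ} (hf : Continuous f) (B : Matrix κ ν ℂ) :
    IM μ (fun g => f g * B) = IM μ f * B := by
  ext i k
  simp only [IM, Matrix.mul_apply]
  rw [integral_finsetSum _ fun j _ => (intg μ hf i j).mul_const (B j k)]
  refine Finset.sum_congr rfl fun j _ => ?_
  exact integral_mul_const _ _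

theorem IM_trace {f : G → Matrix ι ι ℂ} (hf : Continuous f) :
    (IM μ f).trace = ∫ g, (f g).trace ∂μ := by
  simp only [IM, Matrix.trace, Matrix.diag_apply]
  rw [integral_finsetSum _ fun j _ => intg μ hf j j]

theorem IM_shift [μ.IsMulLeftInvariant] (f : G → Matrix ι κ ℂ) (h : G) :
    IM μ (fun g => f (h * g)) = IM μ f := by
  ext i k
  exact integral_mul_left_eq_self (μ := μ) (fun g => f g i k) h

theorem unit_mul (R : Rep G ι) (g : G) : (R.ρ g)ᴴ * R.ρ g = 1 := by
  rw [← R.unit, ← map_mul, inv_mul_cancel, map_one]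

/-- the intertwining operator -/
noncomputable def XX (R : Rep G ι) (R' : Rep G κ) (Y : Matrix ι κ ℂ) : Matrix ι κ ℂ :=
  IM μ fun g => R.ρ g * Y * (R'.ρ g)ᴴ

theorem cont_XX (R : Rep G ι) (R' : Rep G κ) (Y : Matrix ι κ ℂ) :
    Continuous fun g => R.ρ g * Y * (R'.ρ g)ᴴ :=
  (R.cont.matrix_mul continuous_const).matrix_mul R'.cont.matrix_conjTranspose

theorem XX_comm [μ.IsMulLeftInvariant] (R : Rep G ι) (R' : Rep G κ) (Y : Matrix ι κ ℂ) (h : G) :
    R.ρ h * XX μ R R' Y = XX μ R R' Y * R'.ρ h := by
  unfold XX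
  rw [← IM_left μ (cont_XX R R' Y), ← IM_right μ (cont_XX R R' Y),
    ← IM_shift μ (fun g => R.ρ g * Y * (R'.ρ g)ᴴ * R'.ρ h) h]
  congr 1
  funext g
  rw [map_mul, map_mul, Matrix.conjTranspose_mul]
  simp only [Matrix.mul_assoc]
  rw [unit_mul R' h, Matrix.mul_one]

theorem XX_single (R : Rep G ι) (R' : Rep G κ) (i j : ι) (k l : κ) :
    XX μ R R' (Matrix.single j l 1) i k = ∫ g, R.ρ g i j * conj (R'.ρ g k l) ∂μ := by
  unfold XX IM
  refine integral_congr_ae (Filter.Eventually.of_forall fun g => ?_)
  change (R.ρ g * Matrix.single j l (1 : ℂ) * (R'.ρ g)ᴴ) i k = _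
  rw [Matrix.mul_assoc, Matrix.mul_apply, Finset.sum_eq_single j]
  · rw [Matrix.single_mul_apply_same, one_mul, Matrix.conjTranspose_apply]
    rfl
  · intro b _ hb
    rw [Matrix.single_mul_apply_of_ne _ _ _ _ _ hb, mul_zero]
  · intro h
    exact absurd (Finset.mem_univ _) h

end

end SCHUR

open SCHUR in
theorem t_SCHUR : S_SCHUR := by
  intro G _ _ _ _ _ _ _ _ μ _ _ ι _ _ R hR
  constructor
  · intro i j k l
    obtain ⟨c, hc⟩ := hR.2 (XX μ R R (Matrix.single j l 1)) fun g => (XX_comm μ R R _ g).symm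
    have hn : (Fintype.card ι : ℂ) ≠ 0 := by
      have := hR.1
      exact_mod_cast Fintype.card_ne_zero
    have htr : (XX μ R R (Matrix.single j l 1)).trace = if j = l then 1 else 0 := by
      unfold XX
      rw [IM_trace μ (cont_XX R R _)]
      have h1 : ∀ g, (R.ρ g * Matrix.single j l (1 : ℂ) * (R.ρ g)ᴴ).trace =
          if j = l then 1 else 0 := by
        intro g
        rw [Matrix.mul_assoc, Matrix.trace_mul_comm, Matrix.mul_assoc, unit_mul, Matrix.mul_one]
        by_cases h : j = l
        · subst h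
          rw [if_pos rfl, Matrix.trace_single_eq_same]
        · rw [if_neg h, Matrix.trace_single_eq_of_ne _ _ _ h]
      simp only [h1, integral_const, probReal_univ, one_smul]
    rw [hc, Matrix.trace_smul, Matrix.trace_one, smul_eq_mul] at htr
    rw [← XX_single μ R R i j k l, hc, Matrix.smul_apply, Matrix.one_apply, smul_eq_mul]
    by_cases hik : i = k
    · by_cases hjl : j = l
      · rw [if_pos hjl] at htr
        rw [if_pos hik, if_pos ⟨hik, hjl⟩, mul_one, eq_div_iff hn]
        exact htr
      · rw [if_neg hjl] at htr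
        have h5 : ¬ (i = k ∧ j = l) := fun h => hjl h.2
        rw [if_neg h5]
        rcases mul_eq_zero.1 htr with h | h
        · rw [h, zero_mul]
        · exact absurd h hn
    · have h5 : ¬ (i = k ∧ j = l) := fun h => hik h.1
      rw [if_neg hik, if_neg h5, mul_zero]
  · intro κ _ _ R' hR'
    by_cases hall : ∀ Y, XX μ R R' Y = 0
    · right
      intro i j k l
      rw [← XX_single μ R R' i j k l, hall]
      rfl
    · left
      push Not at hall
      obtain ⟨Y, hY⟩ := hall
      set X := XX μ R R' Y with hX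
      have h1 : ∀ h, R.ρ h * X = X * R'.ρ h := XX_comm μ R R' Y
      have h2 : ∀ h, Xᴴ * R.ρ h = R'.ρ h * Xᴴ := by
        intro h
        have h3 := congrArg Matrix.conjTranspose (h1 h⁻¹)
        rw [Matrix.conjTranspose_mul, Matrix.conjTranspose_mul, ← R.unit, ← R'.unit,
          inv_inv] at h3
        exact h3
      obtain ⟨c, hc⟩ := hR.2 (X * Xᴴ) fun g => by
        rw [Matrix.mul_assoc, h2, ← Matrix.mul_assoc, ← h1, Matrix.mul_assoc]
      obtain ⟨c', hc'⟩ := hR'.2 (Xᴴ * X) fun g => by
        rw [Matrix.mul_assoc, ← h1, ← Matrix.mul_assoc, h2, Matrix.mul_assoc]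
      have hcc : c • X = c' • X := by
        calc c • X = (c • (1 : Matrix ι ι ℂ)) * X := by rw [Matrix.smul_mul, Matrix.one_mul]
          _ = X * Xᴴ * X := by rw [hc]
          _ = X * (c' • (1 : Matrix κ κ ℂ)) := by rw [Matrix.mul_assoc, hc']
          _ = c' • X := by rw [Matrix.mul_smul, Matrix.mul_one]
      have hce : c = c' := smul_left_injective ℂ hY hcc
      have hc0 : c ≠ 0 := by
        intro h0
        rw [h0, zero_smul] at hc
        exact hY (Matrix.self_mul_conjTranspose_eq_zero.1 hc)
      intro g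
      have h4 : c * R.ch g = c' * R'.ch g := by
        calc c * R.ch g = ((c • (1 : Matrix ι ι ℂ)) * R.ρ g).trace := by
              rw [Matrix.smul_mul, Matrix.one_mul, Matrix.trace_smul]
              rfl
          _ = (X * (Xᴴ * R.ρ g)).trace := by rw [← hc, Matrix.mul_assoc]
          _ = ((Xᴴ * R.ρ g) * X).trace := Matrix.trace_mul_comm _ _
          _ = ((Xᴴ * X) * R'.ρ g).trace := by rw [Matrix.mul_assoc, h1, ← Matrix.mul_assoc]
          _ = ((c' • (1 : Matrix κ κ ℂ)) * R'.ρ g).trace := by rw [hc']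
          _ = c' * R'.ch g := by
              rw [Matrix.smul_mul, Matrix.one_mul, Matrix.trace_smul]
              rfl
      rw [← hce] at h4
      exact mul_left_cancel₀ hc0 h4

end STZ
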