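import Pool.Agent.STZ.StmtsX

/-! Module SCHW: the Schwarz lemma for several zeros. -/

namespace STZ

open MeasureTheory Matrix

open scoped ComplexConjugate Matrix Real

noncomputable section

namespace SCHW

lemma diff_dslope {h : ℂ → ℂ} (hh : Differentiable ℂ h) (c : ℂ) : Differentiable ℂ (dslope h c) := by
  have h1 : DifferentiableOn ℂ (dslope h c) Set.univ :=
    (Complex.differentiableOn_dslope Filter.univ_mem).2 hh.differentiableOn
  exact differentiableOn_univ.1 h1

lemma bound {h : ℂ → ℂ} (hh : Differentiable ℂ h) (c : ℂ) (hc : h c = 0) {R B : ℝ} (hR : 0 < R)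
    (hcR : ‖c‖ ≤ R / 2) (hB : ∀ w, ‖w‖ ≤ R → ‖h w‖ ≤ B) (w : ℂ) (hw : ‖w‖ ≤ R) :
    ‖dslope h c w‖ ≤ 2 * B / R := by
  have hd := diff_dslope hh c
  have hfr : ∀ u ∈ frontier (Metric.ball (0 : ℂ) R), ‖dslope h c u‖ ≤ 2 * B / R := by
    intro u hu
    rw [frontier_ball (0 : ℂ) hR.ne', mem_sphere_zero_iff_norm] at hu
    have h1 : R / 2 ≤ ‖u - c‖ := by
      have := norm_sub_norm_le u c
      linarith
    have h2 : (u - c) * dslope h c u = h u := by
      have := sub_smul_dslope h c u
      rw [smul_eq_mul, hc, sub_zero] at this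
      exact this
    have h3 : ‖u - c‖ * ‖dslope h c u‖ ≤ B := by
      rw [← norm_mul, h2]
      exact hB u hu.le
    rw [le_div_iff₀ hR]
    have h4 : R / 2 * ‖dslope h c u‖ ≤ ‖u - c‖ * ‖dslope h c u‖ :=
      mul_le_mul_of_nonneg_right h1 (norm_nonneg _)
    linarith
  have hcl : w ∈ closure (Metric.ball (0 : ℂ) R) := by
    rw [closure_ball (0 : ℂ) hR.ne', mem_closedBall_zero_iff]
    exact hw
  exact Complex.norm_le_of_forall_mem_frontier_norm_le Metric.isBounded_ball
    hd.diffContOnCl hfr hcl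

end SCHW

theorem t_SCHW : S_SCHW := by
  intro m
  induction m with
  | zero =>
    intro z h R B hR _ _ _ _ hB
    have := hB 0 (by rw [norm_zero]; exact hR.le)
    simpa using this
  | succ m ih =>
    intro z h R B hR hh hz hzR hz0 hB
    have h1 := ih (fun i => z i.succ) (dslope h (z 0)) R (2 * B / R) hR (SCHW.diff_dslope hh _)
      (fun a b hab => Fin.succ_injective _ (hz hab)) (fun i => hzR _) (fun i => by
        have hne : z i.succ ≠ z 0 := fun he => Fin.succ_ne_zero i (hz he)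
        rw [dslope_of_ne _ hne, slope_def_field, hz0, hz0, sub_zero, zero_div])
      (SCHW.bound hh _ (hz0 0) hR (hzR 0) hB)
    have h2 : (0 - z 0) * dslope h (z 0) 0 = h 0 := by
      have := sub_smul_dslope h (z 0) 0
      rw [smul_eq_mul, hz0, sub_zero] at this
      exact this
    rw [← h2, norm_mul, zero_sub, norm_neg, Fin.prod_univ_succ]
    calc ‖z 0‖ * ‖dslope h (z 0) 0‖ ≤ ‖z 0‖ * (2 * B / R * ∏ i : Fin m, (2 * ‖z i.succ‖ / R)) :=
          mul_le_mul_of_nonneg_left h1 (norm_nonneg _)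
      _ = B * (2 * ‖z 0‖ / R * ∏ i : Fin m, (2 * ‖z i.succ‖ / R)) := by ring

end

end STZ
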