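import Pool.Agent.STZ.StmtsU

/-!
# SHFT: shifts in one dimensional exponential sums
-/

namespace STZ

noncomputable section

namespace SHFT

theorem nd_eq (θ : ℝ) : nd θ = ‖(θ : UnitAddCircle)‖ := by
  rw [UnitAddCircle.norm_eq]
  rfl

theorem nd_neg (θ : ℝ) : nd (-θ) = nd θ := by
  rw [nd_eq, nd_eq, AddCircle.coe_neg, norm_neg]

theorem nd_add (x y : ℝ) : nd (x + y) ≤ nd x + nd y := by
  rw [nd_eq, nd_eq, nd_eq, AddCircle.coe_add]
  exact norm_add_le _ _

theorem nd_nonneg (x : ℝ) : 0 ≤ nd x := abs_nonneg _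

theorem mn_nonneg (R : ℕ) (x : ℝ) : 0 ≤ mn R x := by
  unfold mn
  positivity

/-- comparison of two weights -/
theorem mn_le (R : ℕ) (a b : ℝ) (h : nd b ≤ 2 * nd a) : mn R a ≤ 2 * mn R b := by
  unfold mn
  have hR : (0 : ℝ) ≤ R := Nat.cast_nonneg R
  have ha : (0 : ℝ) < max 1 (2 * R * nd a) := lt_of_lt_of_le one_pos (le_max_left _ _)
  have hb : (0 : ℝ) < max 1 (2 * R * nd b) := lt_of_lt_of_le one_pos (le_max_left _ _)
  have hab : max 1 (2 * (R : ℝ) * nd b) ≤ 2 * max 1 (2 * R * nd a) := by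
    apply max_le
    · have := le_max_left (1 : ℝ) (2 * R * nd a)
      linarith
    · have h1 := le_max_right (1 : ℝ) (2 * R * nd a)
      have h2 : 2 * (R : ℝ) * nd b ≤ 2 * R * (2 * nd a) :=
        mul_le_mul_of_nonneg_left h (by positivity)
      linarith
  rw [← mul_div_assoc, div_le_div_iff₀ ha hb]
  calc (R : ℝ) * max 1 (2 * R * nd b) ≤ R * (2 * max 1 (2 * R * nd a)) :=
        mul_le_mul_of_nonneg_left hab hR
    _ = 2 * R * max 1 (2 * R * nd a) := by ring

end SHFT

open SHFT in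
theorem t_SHFT : S_SHFT := by
  intro R K β t s hs
  rcases s.eq_empty_or_nonempty with rfl | hne
  · simp only [Finset.sum_empty]
    exact mul_nonneg (by norm_num) (Finset.sum_nonneg fun y _ => mn_nonneg _ _)
  obtain ⟨x₀, hx₀, hmin⟩ := Finset.exists_min_image s (fun x : ℤ => nd (β + t * x)) hne
  have h1 : ∀ x ∈ s, mn R (β + t * x) ≤ 2 * mn R (t * ((x - x₀ : ℤ) : ℝ)) := by
    intro x hx
    apply mn_le
    have e : t * ((x - x₀ : ℤ) : ℝ) = (β + t * x) + -(β + t * x₀) := by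
      push_cast
      ring
    have h2 := nd_add (β + t * x) (-(β + t * x₀))
    rw [nd_neg] at h2
    have h3 := hmin x hx
    rw [e]
    linarith
  calc ∑ x ∈ s, mn R (β + t * x) ≤ ∑ x ∈ s, 2 * mn R (t * ((x - x₀ : ℤ) : ℝ)) :=
        Finset.sum_le_sum h1
    _ = 2 * ∑ x ∈ s, mn R (t * ((x - x₀ : ℤ) : ℝ)) := by rw [Finset.mul_sum]
    _ = 2 * ∑ y ∈ s.image (fun x => x - x₀), mn R (t * (y : ℝ)) := by
        rw [Finset.sum_image]
        intro x _ y _ hxy
        exact sub_left_injective hxy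
    _ ≤ 2 * ∑ y ∈ Finset.Icc (-(K : ℤ)) K, mn R (t * y) := by
        apply mul_le_mul_of_nonneg_left _ (by norm_num)
        apply Finset.sum_le_sum_of_subset_of_nonneg
        · intro y hy
          obtain ⟨x, hx, rfl⟩ := Finset.mem_image.mp hy
          have h4 := hs x hx x₀ hx₀
          rw [abs_le] at h4
          rw [Finset.mem_Icc]
          exact ⟨h4.1, h4.2⟩
        · intro y _ _
          exact mn_nonneg _ _

end

end STZ
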