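import Pool.Agent.STZ.StmtsM

/-!
# STZ, TENH: the tensor powers of the standard representation, restricted to a subgroup
-/

namespace STZ

open Matrix

open scoped ComplexConjugate

noncomputable section

namespace TENH

/-- Restriction of a representation to a subgroup. -/
def res {G : Type} [Group G] [TopologicalSpace G] {ι : Type} [Fintype ι] [DecidableEq ι]
    (R : Rep G ι) (H : Subgroup G) : Rep H ι where
  ρ := R.ρ.comp H.subtype
  cont := R.cont.comp continuous_subtype_val
  unit := fun g => R.unit g.1

end TENH

theorem t_TENH : M_TENH := by
  intro h N H i j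
  obtain ⟨R, h1, h2⟩ := h N i j
  exact ⟨TENH.res R H, fun g p q => h1 g.1 p q, fun g => h2 g.1⟩

end

end STZ
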