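import Pool.Agent.STZ.StmtsG

/-!
# STZ, TENS: tensor powers of the standard representation and its dual
-/

namespace STZ

open Matrix

open scoped ComplexConjugate

noncomputable section

namespace TENS

/-- the matrix of the tensor power -/
def tm {n : ℕ} (i j : ℕ) (M : Matrix (Fin n) (Fin n) ℂ) :
    Matrix ((Fin i → Fin n) × (Fin j → Fin n)) ((Fin i → Fin n) × (Fin j → Fin n)) ℂ :=
  Matrix.of fun p q => (∏ s, M (p.1 s) (q.1 s)) * ∏ s, conj (M (p.2 s) (q.2 s))

theorem prod_mul_entry {n i : ℕ} (a b : Fin n → Fin n → ℂ) (p q : Fin i → Fin n) :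
    ∑ r : Fin i → Fin n, (∏ s, a (p s) (r s)) * ∏ s, b (r s) (q s) =
      ∏ s, ∑ k, a (p s) k * b k (q s) := by
  rw [Finset.prod_univ_sum, Fintype.piFinset_univ]
  refine Finset.sum_congr rfl fun r _ => ?_
  rw [Finset.prod_mul_distrib]

theorem tm_mul {n i j : ℕ} (M N : Matrix (Fin n) (Fin n) ℂ) :
    tm i j (M * N) = tm i j M * tm i j N := by
  ext p q
  rw [Matrix.mul_apply, Fintype.sum_prod_type]
  simp only [tm, Matrix.of_apply]
  have h1 : ∀ (x : Fin i → Fin n) (y : Fin j → Fin n),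
      ((∏ s, M (p.1 s) (x s)) * ∏ s, conj (M (p.2 s) (y s))) *
        ((∏ s, N (x s) (q.1 s)) * ∏ s, conj (N (y s) (q.2 s))) =
      ((∏ s, M (p.1 s) (x s)) * ∏ s, N (x s) (q.1 s)) *
        ((∏ s, conj (M (p.2 s) (y s))) * ∏ s, conj (N (y s) (q.2 s))) := by
    intro x y; ring
  simp only [h1]
  rw [← Finset.sum_mul_sum]
  rw [prod_mul_entry (fun a b => M a b) (fun a b => N a b),
    prod_mul_entry (fun a b => conj (M a b)) (fun a b => conj (N a b))]
  simp only [Matrix.mul_apply, map_sum, map_mul]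

theorem prod_one_entry {n i : ℕ} (p q : Fin i → Fin n) :
    ∏ s, (1 : Matrix (Fin n) (Fin n) ℂ) (p s) (q s) = if p = q then 1 else 0 := by
  by_cases h : p = q
  · subst h
    simp
  · rw [if_neg h]
    obtain ⟨s, hs⟩ := Function.ne_iff.1 h
    exact Finset.prod_eq_zero (Finset.mem_univ s) (Matrix.one_apply_ne hs)

theorem tm_one {n i j : ℕ} : tm i j (1 : Matrix (Fin n) (Fin n) ℂ) = 1 := by
  ext p q
  simp only [tm, Matrix.of_apply]
  have h1 : ∀ s, conj ((1 : Matrix (Fin n) (Fin n) ℂ) (p.2 s) (q.2 s)) =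
      (1 : Matrix (Fin n) (Fin n) ℂ) (p.2 s) (q.2 s) := by
    intro s
    by_cases h : p.2 s = q.2 s
    · rw [h, Matrix.one_apply_eq, map_one]
    · rw [Matrix.one_apply_ne h, map_zero]
  simp only [h1]
  rw [prod_one_entry, prod_one_entry]
  by_cases h : p = q
  · subst h; simp
  · rw [Matrix.one_apply_ne h]
    by_cases h2 : p.1 = q.1
    · have h3 : p.2 ≠ q.2 := fun h3 => h (Prod.ext h2 h3)
      rw [if_neg h3, mul_zero]
    · rw [if_neg h2, zero_mul]

theorem tm_conjTranspose {n i j : ℕ} (M : Matrix (Fin n) (Fin n) ℂ) :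
    tm i j (Mᴴ) = (tm i j M)ᴴ := by
  ext p q
  rw [Matrix.conjTranspose_apply]
  simp only [tm, Matrix.of_apply, Matrix.conjTranspose_apply, star_mul', star_prod]
  rfl

theorem tm_trace {n i j : ℕ} (M : Matrix (Fin n) (Fin n) ℂ) :
    (tm i j M).trace = M.trace ^ i * conj M.trace ^ j := by
  have h : ∀ (l : ℕ) (f : Fin n → ℂ), ∑ x : Fin l → Fin n, ∏ s, f (x s) = (∑ k, f k) ^ l := by
    intro l f
    have h1 : (∑ k, f k) ^ l = ∏ _s : Fin l, ∑ k, f k := by simp
    rw [h1, Finset.prod_univ_sum, Fintype.piFinset_univ]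
  have h0 : (tm i j M).trace = ∑ x : Fin i → Fin n, ∑ y : Fin j → Fin n,
      (∏ s, M (x s) (x s)) * ∏ s, conj (M (y s) (y s)) := by
    rw [Matrix.trace, Fintype.sum_prod_type]
    rfl
  have h2 : conj M.trace = ∑ k, conj (M k k) := by
    rw [Matrix.trace, map_sum]
    rfl
  rw [h0, ← Finset.sum_mul_sum, h i (fun k => M k k), h j (fun k => conj (M k k)), h2]
  rfl

end TENS

theorem t_TENS : S_TENS := by
  intro n i j
  refine ⟨⟨⟨⟨fun g => TENS.tm i j g.1, ?_⟩, ?_⟩, ?_, ?_⟩, ?_, ?_⟩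
  · exact TENS.tm_one
  · intro g h
    exact TENS.tm_mul g.1 h.1
  · refine continuous_matrix fun p q => ?_
    change Continuous fun g : SU n => (∏ s, g.1 (p.1 s) (q.1 s)) * ∏ s, conj (g.1 (p.2 s) (q.2 s))
    refine (continuous_finsetProd _ fun s _ => ?_).mul
      (continuous_finsetProd _ fun s _ => Complex.continuous_conj.comp ?_)
    · exact (continuous_apply_apply (p.1 s) (q.1 s)).comp continuous_subtype_val
    · exact (continuous_apply_apply (p.2 s) (q.2 s)).comp continuous_subtype_val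
  · intro g
    exact TENS.tm_conjTranspose g.1
  · intro g p q
    rfl
  · intro g
    exact TENS.tm_trace g.1

end

end STZ
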