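import Pool.Agent.STZ.StmtsX

/-!
# Module TTX: the `T T*` argument for sums of kernels
-/

set_option autoImplicit false
set_option linter.unusedSectionVars false

namespace STZ

open MeasureTheory Matrix Set

open scoped ComplexConjugate Matrix Real

noncomputable section

namespace TTX

theorem eu_add (a b : ℝ) : eu (a + b) = eu a * eu b := by
  rw [eu, eu, eu, ← Complex.exp_add]
  congr 1
  push_cast
  ring

theorem conj_eu (a : ℝ) : conj (eu a) = eu (-a) := by
  rw [eu, eu, ← Complex.exp_conj]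
  congr 1
  simp only [map_mul, Complex.conj_ofReal, Complex.conj_I, map_ofNat]
  push_cast
  ring

theorem eu_cont : Continuous eu := by
  unfold eu
  fun_prop

section

variable {M : Type} [TopologicalSpace M] [CompactSpace M] [T2Space M]
  [SecondCountableTopology M] [MeasurableSpace M] [BorelSpace M] (μ : Measure M)
  [IsProbabilityMeasure μ]

omit [T2Space M] [SecondCountableTopology M] in
theorem integ {E : Type} [NormedAddCommGroup E] {f : M → E} (hf : Continuous f) : Integrable f μ :=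
  hf.integrable_of_hasCompactSupport (HasCompactSupport.of_compactSpace f)

/-- continuity of a parametric integral over `M` -/
theorem par {X : Type} [TopologicalSpace X] [FirstCountableTopology X] [LocallyCompactSpace X]
    {E : Type} [NormedAddCommGroup E] [NormedSpace ℝ E] {f : X → M → E}
    (hf : Continuous fun z : X × M => f z.1 z.2) : Continuous fun t => ∫ x, f t x ∂μ := by
  have h1 : Continuous (Function.uncurry f) := hf
  have h3 := continuous_parametric_integral_of_continuous (μ := μ) h1 (s := univ) isCompact_univ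
  simpa only [Measure.restrict_univ] using h3

/-- Fubini for `[0, 1] × M` -/
theorem swapT {f : ℝ → M → ℂ} (hf : JC f) :
    ∫ t in (0 : ℝ)..1, ∫ x, f t x ∂μ = ∫ x, (∫ t in (0 : ℝ)..1, f t x) ∂μ := by
  refine intervalIntegral_integral_swap ?_
  rw [uIoc_of_le zero_le_one]
  have hc : IsCompact ((Icc (0 : ℝ) 1) ×ˢ (univ : Set M)) := isCompact_Icc.prod isCompact_univ
  have h1 : IntegrableOn (Function.uncurry f) ((Icc (0 : ℝ) 1) ×ˢ (univ : Set M))
      ((volume : Measure ℝ).prod μ) := by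
    have h2 : Continuous (Function.uncurry f) := hf
    exact h2.continuousOn.integrableOn_compact hc
  have h2 := h1.mono_set (prod_mono Ioc_subset_Icc_self (subset_univ univ))
  have e : ((volume : Measure ℝ).restrict (Ioc 0 1)).prod μ =
      ((volume : Measure ℝ).prod μ).restrict ((Ioc (0 : ℝ) 1) ×ˢ (univ : Set M)) := by
    rw [← Measure.prod_restrict, Measure.restrict_univ]
  rw [e]
  exact h2

/-- Cauchy-Schwarz -/
theorem cs {u v : M → ℂ} (hu : Continuous u) (hv : Continuous v) :
    ‖∫ x, conj (v x) * u x ∂μ‖ ≤ √(nsq μ u) * √(nsq μ v) := by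
  have hc : Continuous fun x => conj (v x) * u x := (Complex.continuous_conj.comp hv).mul hu
  refine (norm_integral_le_integral_norm _).trans ?_
  have h1 : ∫ x, ‖conj (v x) * u x‖ ∂μ = ∫ x, ‖u x‖ * ‖v x‖ ∂μ := by
    refine integral_congr_ae (Filter.Eventually.of_forall fun x => ?_)
    simp only [norm_mul, RCLike.norm_conj]
    ring
  rw [h1]
  have hA : 0 ≤ nsq μ u := integral_nonneg fun x => by positivity
  have hB : 0 ≤ nsq μ v := integral_nonneg fun x => by positivity
  have hI : 0 ≤ ∫ x, ‖u x‖ * ‖v x‖ ∂μ := integral_nonneg fun x => by positivity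
  rw [← Real.sqrt_mul hA]
  apply Real.le_sqrt_of_sq_le
  have key : ∀ s : ℝ, 0 ≤ nsq μ u * (s * s) + (-2 * ∫ x, ‖u x‖ * ‖v x‖ ∂μ) * s + nsq μ v := by
    intro s
    have h2 : nsq μ u * (s * s) + (-2 * ∫ x, ‖u x‖ * ‖v x‖ ∂μ) * s + nsq μ v =
        ∫ x, (s * ‖u x‖ - ‖v x‖) ^ 2 ∂μ := by
      have e1 : ∀ x, (s * ‖u x‖ - ‖v x‖) ^ 2 =
          (s * s) * ‖u x‖ ^ 2 + (-2 * s) * (‖u x‖ * ‖v x‖) + ‖v x‖ ^ 2 := by
        intro x
        ring
      have i1 : Integrable (fun x => (s * s) * ‖u x‖ ^ 2) μ := integ μ (by fun_prop)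
      have i2 : Integrable (fun x => (-2 * s) * (‖u x‖ * ‖v x‖)) μ := integ μ (by fun_prop)
      have i3 : Integrable (fun x => ‖v x‖ ^ 2) μ := integ μ (by fun_prop)
      have i12 : Integrable (fun x => (s * s) * ‖u x‖ ^ 2 + (-2 * s) * (‖u x‖ * ‖v x‖)) μ :=
        integ μ (by fun_prop)
      simp only [e1]
      rw [integral_add i12 i3, integral_add i1 i2, integral_const_mul, integral_const_mul]
      unfold nsq
      ring
    rw [h2]
    exact integral_nonneg fun x => by positivity
  have hd := discrim_le_zero key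
  unfold discrim at hd
  nlinarith [hd]

/-- the form of the kernel `k` -/
def bf (k : M → M → ℂ) (u v : M → ℂ) : ℂ := ∫ x, conj (v x) * ∫ y, k x y * u y ∂μ ∂μ

/-- the form with parameters is continuous -/
theorem bf_cont {X : Type} [TopologicalSpace X] [FirstCountableTopology X] [LocallyCompactSpace X]
    {k : X → M → M → ℂ} {u v : X → M → ℂ}
    (hk : Continuous fun z : X × M × M => k z.1 z.2.1 z.2.2)
    (hu : Continuous fun z : X × M => u z.1 z.2) (hv : Continuous fun z : X × M => v z.1 z.2) :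
    Continuous fun r => bf μ (k r) (u r) (v r) := by
  have h1 : Continuous fun w : X × M => ∫ y, k w.1 w.2 y * u w.1 y ∂μ := by
    refine par μ (f := fun (w : X × M) (y : M) => k w.1 w.2 y * u w.1 y) ?_
    refine Continuous.mul ?_ ?_
    · exact hk.comp (f := fun z : (X × M) × M => (z.1.1, z.1.2, z.2)) (by fun_prop)
    · exact hu.comp (f := fun z : (X × M) × M => (z.1.1, z.2)) (by fun_prop)
  refine par μ (f := fun (r : X) (x : M) => conj (v r x) * ∫ y, k r x y * u r y ∂μ) ?_
  exact (Complex.continuous_conj.comp hv).mul h1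

theorem bf_smul (k : M → M → ℂ) (u v : M → ℂ) (c d : ℂ) :
    bf μ k (fun y => c * u y) (fun x => d * v x) = conj d * c * bf μ k u v := by
  unfold bf
  rw [← integral_const_mul]
  refine integral_congr_ae (Filter.Eventually.of_forall fun x => ?_)
  have h1 : ∀ y, k x y * (c * u y) = c * (k x y * u y) := fun y => by ring
  simp only [h1, integral_const_mul, map_mul]
  ring

theorem bf_sum {ι : Type} (F : Finset ι) (c : ι → ℂ) (k : ι → M → M → ℂ)
    (hk : ∀ a ∈ F, Continuous fun z : M × M => k a z.1 z.2) {u v : M → ℂ} (hu : Continuous u)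
    (hv : Continuous v) :
    bf μ (fun x y => ∑ a ∈ F, c a * k a x y) u v = ∑ a ∈ F, c a * bf μ (k a) u v := by
  unfold bf
  have hrow : ∀ a ∈ F, ∀ x, Continuous fun y => k a x y * u y := fun a ha x =>
    ((hk a ha).comp (continuous_const.prodMk continuous_id)).mul hu
  have hin : ∀ a ∈ F, Continuous fun x => conj (v x) * ∫ y, k a x y * u y ∂μ := by
    intro a ha
    refine (Complex.continuous_conj.comp hv).mul ?_
    exact par μ (f := fun x y => k a x y * u y) ((hk a ha).mul (hu.comp continuous_snd))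
  have h1 : ∀ x, conj (v x) * ∫ y, (∑ a ∈ F, c a * k a x y) * u y ∂μ =
      ∑ a ∈ F, c a * (conj (v x) * ∫ y, k a x y * u y ∂μ) := by
    intro x
    have h2 : ∀ y, (∑ a ∈ F, c a * k a x y) * u y = ∑ a ∈ F, c a * (k a x y * u y) := by
      intro y
      rw [Finset.sum_mul]
      exact Finset.sum_congr rfl fun a _ => by ring
    simp only [h2]
    rw [integral_finsetSum _ fun a ha => (integ μ (hrow a ha x)).const_mul (c a), Finset.mul_sum]
    refine Finset.sum_congr rfl fun a _ => ?_
    rw [integral_const_mul]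
    ring
  simp only [h1]
  rw [integral_finsetSum _ fun a ha => (integ μ (hin a ha)).const_mul (c a)]
  exact Finset.sum_congr rfl fun a _ => integral_const_mul _ _

theorem bf_sum' (J : ℕ) (k : Fin J → M → M → ℂ)
    (hk : ∀ j, Continuous fun z : M × M => k j z.1 z.2) {u v : M → ℂ} (hu : Continuous u)
    (hv : Continuous v) :
    bf μ (fun x y => ∑ j, k j x y) u v = ∑ j, bf μ (k j) u v := by
  have h := bf_sum μ Finset.univ (fun _ : Fin J => (1 : ℂ)) k (fun j _ => hk j) hu hv
  simpa only [one_mul] using h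

/-- the time integral -/
def vt (φ : ℤ) (G : ℝ → M → ℂ) (x : M) : ℂ := ∫ t in (0 : ℝ)..1, eu (-(t * φ)) * G t x

theorem jc_eu {G : ℝ → M → ℂ} (hG : JC G) (c : ℝ) : JC fun t x => eu (c * t) * G t x := by
  unfold JC
  refine Continuous.mul ?_ hG
  exact eu_cont.comp (by fun_prop)

theorem jc_eu' {G : ℝ → M → ℂ} (hG : JC G) (φ : ℤ) : JC fun t x => eu (-(t * φ)) * G t x := by
  unfold JC
  refine Continuous.mul ?_ hG
  exact eu_cont.comp (by fun_prop)

theorem sec {G : ℝ → M → ℂ} (hG : JC G) (x : M) : Continuous fun t => G t x :=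
  Continuous.comp (g := fun z : ℝ × M => G z.1 z.2) hG (f := fun t : ℝ => (t, x)) (by fun_prop)

theorem sec' {G : ℝ → M → ℂ} (hG : JC G) (t : ℝ) : Continuous (G t) :=
  Continuous.comp (g := fun z : ℝ × M => G z.1 z.2) hG (f := fun x : M => (t, x)) (by fun_prop)

theorem vt_cont {G : ℝ → M → ℂ} (hG : JC G) (φ : ℤ) : Continuous (vt φ G) := by
  unfold vt
  refine intervalIntegral.continuous_parametric_intervalIntegral_of_continuous'
    (f := fun (x : M) (t : ℝ) => eu (-(t * φ)) * G t x) ?_ 0 1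
  exact Continuous.comp (g := fun z : ℝ × M => eu (-(z.1 * φ)) * G z.1 z.2) (jc_eu' hG φ)
    (f := fun z : M × ℝ => (z.2, z.1)) (by fun_prop)

theorem conj_vt (φ : ℤ) (G : ℝ → M → ℂ) (x : M) :
    conj (vt φ G x) = ∫ t in (0 : ℝ)..1, eu (t * φ) * conj (G t x) := by
  unfold vt
  rw [intervalIntegral.integral_of_le zero_le_one, intervalIntegral.integral_of_le zero_le_one,
    ← integral_conj]
  refine integral_congr_ae (Filter.Eventually.of_forall fun t => ?_)
  simp only [map_mul, conj_eu, neg_neg]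

/-- the pairing of a time integral with a function -/
theorem pair {G : ℝ → M → ℂ} (hG : JC G) (φ : ℤ) {u : M → ℂ} (hu : Continuous u) :
    ∫ t in (0 : ℝ)..1, ∫ x, conj (G t x) * (eu (t * φ) * u x) ∂μ =
      ∫ x, conj (vt φ G x) * u x ∂μ := by
  have hf : JC fun t x => conj (G t x) * (eu (t * φ) * u x) := by
    unfold JC
    refine (Complex.continuous_conj.comp hG).mul (Continuous.mul ?_ (hu.comp continuous_snd))
    exact eu_cont.comp (by fun_prop)
  rw [swapT μ hf]
  refine integral_congr_ae (Filter.Eventually.of_forall fun x => ?_)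
  simp only
  rw [conj_vt, ← intervalIntegral.integral_mul_const]
  refine intervalIntegral.integral_congr fun t _ => ?_
  ring

/-- the form on time integrals -/
theorem bf_vt {k : M → M → ℂ} (hk : Continuous fun z : M × M => k z.1 z.2) {G : ℝ → M → ℂ}
    (hG : JC G) (φ : ℤ) :
    bf μ k (vt φ G) (vt φ G) =
      ∫ t in (0 : ℝ)..1, ∫ s in (0 : ℝ)..1, eu ((t - s) * φ) * bf μ k (G s) (G t) := by
  set W : ℝ → M → ℂ := fun s x => eu (-(s * φ)) * ∫ y, k x y * G s y ∂μ with hW
  have hWc : JC W := by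
    unfold JC
    rw [hW]
    refine Continuous.mul (eu_cont.comp (by fun_prop)) ?_
    refine par μ (f := fun (w : ℝ × M) (y : M) => k w.2 y * G w.1 y) ?_
    refine Continuous.mul ?_ ?_
    · exact hk.comp (f := fun z : (ℝ × M) × M => (z.1.2, z.2)) (by fun_prop)
    · exact Continuous.comp (g := fun z : ℝ × M => G z.1 z.2) hG
        (f := fun z : (ℝ × M) × M => (z.1.1, z.2)) (by fun_prop)
  have h1 : ∀ x, ∫ y, k x y * vt φ G y ∂μ = ∫ s in (0 : ℝ)..1, W s x := by
    intro x
    have hf : JC fun s y => k x y * (eu (-(s * φ)) * G s y) := by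
      unfold JC
      refine Continuous.mul ?_ (jc_eu' hG φ)
      exact hk.comp (f := fun z : ℝ × M => (x, z.2)) (by fun_prop)
    have h2 := swapT μ hf
    have h3 : ∀ y, ∫ s in (0 : ℝ)..1, k x y * (eu (-(s * φ)) * G s y) = k x y * vt φ G y := by
      intro y
      unfold vt
      rw [← intervalIntegral.integral_const_mul]
    simp only [h3] at h2
    rw [← h2]
    refine intervalIntegral.integral_congr fun s _ => ?_
    simp only [hW]
    rw [← integral_const_mul]
    refine integral_congr_ae (Filter.Eventually.of_forall fun y => ?_)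
    simp only
    ring
  have hUc : Continuous fun x => ∫ s in (0 : ℝ)..1, W s x := by
    refine intervalIntegral.continuous_parametric_intervalIntegral_of_continuous'
      (f := fun (x : M) (s : ℝ) => W s x) ?_ 0 1
    exact Continuous.comp (g := fun z : ℝ × M => W z.1 z.2) hWc
      (f := fun z : M × ℝ => (z.2, z.1)) (by fun_prop)
  have h4 : bf μ k (vt φ G) (vt φ G) =
      ∫ x, conj (vt φ G x) * (∫ s in (0 : ℝ)..1, W s x) ∂μ := by
    unfold bf
    simp only [h1]
  rw [h4, ← pair μ hG φ hUc]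
  refine intervalIntegral.integral_congr fun t _ => ?_
  have hf : JC fun s x => conj (G t x) * (eu (t * φ) * W s x) := by
    unfold JC
    refine Continuous.mul ?_ (continuous_const.mul hWc)
    exact (Complex.continuous_conj.comp (sec' hG t)).comp continuous_snd
  have h5 := swapT μ hf
  have h6 : ∀ x, ∫ s in (0 : ℝ)..1, conj (G t x) * (eu (t * φ) * W s x) =
      conj (G t x) * (eu (t * φ) * ∫ s in (0 : ℝ)..1, W s x) := by
    intro x
    rw [intervalIntegral.integral_const_mul, intervalIntegral.integral_const_mul]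
  simp only [h6] at h5
  rw [← h5]
  refine intervalIntegral.integral_congr fun s _ => ?_
  unfold bf
  rw [← integral_const_mul]
  refine integral_congr_ae (Filter.Eventually.of_forall fun x => ?_)
  have h7 : eu ((t - s) * φ) = eu (t * φ) * eu (-(s * φ)) := by
    rw [← eu_add]
    congr 1
    ring
  simp only [hW, h7]
  ring

/-- the form is bounded by the supremum of the kernel -/
theorem bf_sup {k : M → M → ℂ} {A : ℝ} (hk : Continuous fun z : M × M => k z.1 z.2)
    (hA : ∀ x y, ‖k x y‖ ≤ A) {u v : M → ℂ} (hu : Continuous u) (hv : Continuous v) :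
    ‖bf μ k u v‖ ≤ A * ((∫ x, ‖u x‖ ∂μ) * ∫ x, ‖v x‖ ∂μ) := by
  have h1 : ∀ x, ‖∫ y, k x y * u y ∂μ‖ ≤ A * ∫ y, ‖u y‖ ∂μ := by
    intro x
    have hc : Continuous fun y => k x y * u y :=
      (hk.comp (continuous_const.prodMk continuous_id)).mul hu
    refine (norm_integral_le_integral_norm _).trans ?_
    rw [← integral_const_mul]
    refine integral_mono (integ μ hc.norm) (integ μ (continuous_const.mul hu.norm)) fun y => ?_
    simp only [norm_mul]
    exact mul_le_mul_of_nonneg_right (hA x y) (norm_nonneg _)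
  have hc2 : Continuous fun x => ∫ y, k x y * u y ∂μ :=
    par μ (f := fun x y => k x y * u y) (hk.mul (hu.comp continuous_snd))
  unfold bf
  refine (norm_integral_le_integral_norm _).trans ?_
  have h2 : A * ((∫ x, ‖u x‖ ∂μ) * ∫ x, ‖v x‖ ∂μ) =
      ∫ x, A * (∫ y, ‖u y‖ ∂μ) * ‖v x‖ ∂μ := by
    rw [integral_const_mul]
    ring
  rw [h2]
  refine integral_mono (integ μ ((Complex.continuous_conj.comp hv).mul hc2).norm)
    (integ μ (continuous_const.mul hv.norm)) fun x => ?_
  simp only [norm_mul, RCLike.norm_conj]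
  rw [mul_comm]
  exact mul_le_mul_of_nonneg_right (h1 x) (norm_nonneg _)

theorem nsq_le {u : M → ℂ} (hu : Continuous u) (h1 : ∀ x, ‖u x‖ ≤ 1) :
    nsq μ u ≤ ∫ x, ‖u x‖ ∂μ := by
  unfold nsq
  refine integral_mono (integ μ (by fun_prop)) (integ μ hu.norm) fun x => ?_
  have h2 := norm_nonneg (u x)
  have h3 := h1 x
  simp only
  nlinarith

end

/-- the geometric mean of two bounds -/
theorem gm {p X A E e e' : ℝ} (hp : 2 < p) (hX : 0 ≤ X) (hA : 0 ≤ A) (hE : 0 ≤ E) (he : 0 ≤ e)
    (he' : 0 ≤ e') (h1 : X ≤ A * (e * e')) (h2 : X ≤ E * (√e * √e')) :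
    X ≤ A ^ (1 - 2 / p) * E ^ (2 / p) * e ^ (1 - 1 / p) * e' ^ (1 - 1 / p) := by
  have hp0 : 0 < p := by linarith
  have ha : 0 < 1 - 2 / p := by
    rw [sub_pos, div_lt_one hp0]
    exact hp
  have hb : 0 < 2 / p := by positivity
  rcases hX.eq_or_lt with rfl | hX0
  · positivity
  have h3 : X = X ^ (1 - 2 / p) * X ^ (2 / p) := by
    rw [← Real.rpow_add hX0]
    norm_num
  have h4 : X ^ (1 - 2 / p) ≤ A ^ (1 - 2 / p) * (e ^ (1 - 2 / p) * e' ^ (1 - 2 / p)) := by
    have h5 := Real.rpow_le_rpow hX h1 ha.le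
    rwa [Real.mul_rpow hA (by positivity), Real.mul_rpow he he'] at h5
  have h6 : X ^ (2 / p) ≤ E ^ (2 / p) * (e ^ (1 / p) * e' ^ (1 / p)) := by
    have h5 := Real.rpow_le_rpow hX h2 hb.le
    rw [Real.mul_rpow hE (by positivity), Real.mul_rpow (Real.sqrt_nonneg _) (Real.sqrt_nonneg _)]
      at h5
    have h7 : ∀ y : ℝ, 0 ≤ y → √y ^ (2 / p) = y ^ (1 / p) := by
      intro y hy
      rw [Real.sqrt_eq_rpow, ← Real.rpow_mul hy]
      congr 1
      field_simp
    rwa [h7 e he, h7 e' he'] at h5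
  have h8 : ∀ y : ℝ, 0 ≤ y → y ^ (1 - 2 / p) * y ^ (1 / p) = y ^ (1 - 1 / p) := by
    intro y hy
    rw [← Real.rpow_add_of_nonneg hy ha.le (by positivity)]
    congr 1
    ring
  calc X = X ^ (1 - 2 / p) * X ^ (2 / p) := h3
    _ ≤ (A ^ (1 - 2 / p) * (e ^ (1 - 2 / p) * e' ^ (1 - 2 / p))) *
        (E ^ (2 / p) * (e ^ (1 / p) * e' ^ (1 / p))) :=
        mul_le_mul h4 h6 (by positivity) (by positivity)
    _ = A ^ (1 - 2 / p) * E ^ (2 / p) * (e ^ (1 - 2 / p) * e ^ (1 / p)) *
        (e' ^ (1 - 2 / p) * e' ^ (1 / p)) := by ring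
    _ = _ := by rw [h8 e he, h8 e' he']

end TTX

open TTX in
theorem t_TTX : M_TTX := by
  intro hKB hY M _ _ _ _ _ _ μ _ ι K hK φ p hp F J k A E Γ hsum hkc hA hE hsup hform hint u hu G hG
    hG1
  have B := hKB M μ ι K hK
  have hp0 : 0 < p := by linarith
  have hGt : ∀ t, Continuous (G t) := sec' hG
  set e : ℝ → ℝ := fun t => ∫ x, ‖G t x‖ ∂μ with he
  have hec : Continuous e := par μ (f := fun (t : ℝ) (x : M) => ‖G t x‖) (continuous_norm.comp hG)
  have he0 : ∀ t, 0 ≤ e t := fun t => integral_nonneg fun x => norm_nonneg _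
  have hvc : ∀ a, Continuous (vt (φ a) G) := fun a => vt_cont hG (φ a)
  -- first step: the pairing
  have h1 : ∫ t in (0 : ℝ)..1, ∫ x, conj (G t x) * ∑ a ∈ F, eu (t * φ a) * u a x ∂μ =
      ∑ a ∈ F, ∫ x, conj (vt (φ a) G x) * u a x ∂μ := by
    have hc : ∀ a ∈ F, Continuous fun z : ℝ × M =>
        conj (G z.1 z.2) * (eu (z.1 * φ a) * u a z.2) := by
      intro a ha
      refine (Complex.continuous_conj.comp hG).mul
        (Continuous.mul (eu_cont.comp (by fun_prop)) ((hu a ha).1.comp continuous_snd))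
    have h2 : ∀ t, ∫ x, conj (G t x) * ∑ a ∈ F, eu (t * φ a) * u a x ∂μ =
        ∑ a ∈ F, ∫ x, conj (G t x) * (eu (t * φ a) * u a x) ∂μ := by
      intro t
      rw [← integral_finsetSum]
      · refine integral_congr_ae (Filter.Eventually.of_forall fun x => ?_)
        simp only
        rw [Finset.mul_sum]
      · intro a ha
        exact integ μ ((hc a ha).comp (f := fun x : M => (t, x)) (by fun_prop))
    simp only [h2]
    rw [intervalIntegral.integral_finsetSum]
    · refine Finset.sum_congr rfl fun a ha => ?_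
      exact pair μ hG (φ a) (hu a ha).1
    · intro a ha
      refine Continuous.intervalIntegrable ?_ _ _
      exact par μ (f := fun (t : ℝ) (x : M) => conj (G t x) * (eu (t * φ a) * u a x)) (hc a ha)
  rw [h1]
  -- second step: Cauchy-Schwarz
  have h2 : ∀ a ∈ F, ‖∫ x, conj (vt (φ a) G x) * u a x ∂μ‖ ≤
      √(nsq μ (u a)) * √(nsq μ (Pr μ K {a} (vt (φ a) G))) := by
    intro a ha
    have h3 := B.adj {a} (u a) (vt (φ a) G) (hu a ha).1 (hvc a)
    rw [B.fix {a} a (u a) (Finset.mem_singleton_self a) (hu a ha)] at h3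
    rw [← h3]
    exact cs μ (hu a ha).1 (B.cont {a} _ (hvc a))
  have hn0 : ∀ w : M → ℂ, 0 ≤ nsq μ w := fun w => integral_nonneg fun x => by positivity
  have h3 : ‖∑ a ∈ F, ∫ x, conj (vt (φ a) G x) * u a x ∂μ‖ ^ 2 ≤
      (∑ a ∈ F, nsq μ (u a)) * ∑ a ∈ F, nsq μ (Pr μ K {a} (vt (φ a) G)) := by
    have h4 : ‖∑ a ∈ F, ∫ x, conj (vt (φ a) G x) * u a x ∂μ‖ ≤
        √(∑ a ∈ F, nsq μ (u a)) * √(∑ a ∈ F, nsq μ (Pr μ K {a} (vt (φ a) G))) :=
      ((norm_sum_le _ _).trans (Finset.sum_le_sum h2)).trans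
        (Real.sum_sqrt_mul_sqrt_le F (fun a => hn0 _) (fun a => hn0 _))
    have h5 := pow_le_pow_left₀ (norm_nonneg _) h4 2
    rw [mul_pow, Real.sq_sqrt (Finset.sum_nonneg fun a _ => hn0 _),
      Real.sq_sqrt (Finset.sum_nonneg fun a _ => hn0 _)] at h5
    exact h5
  -- third step: the kernel
  set β : Fin J → ℝ → ℝ → ℂ := fun j t s => bf μ (k j (t - s)) (G s) (G t) with hβ
  have hβc : ∀ j, Continuous fun z : ℝ × ℝ => β j z.1 z.2 := by
    intro j
    refine bf_cont μ (X := ℝ × ℝ) (k := fun z => k j (z.1 - z.2)) (u := fun z => G z.2)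
      (v := fun z => G z.1) ?_ ?_ ?_
    · exact (hkc j).comp (f := fun z : (ℝ × ℝ) × M × M => (z.1.1 - z.1.2, z.2.1, z.2.2))
        (by fun_prop)
    · exact Continuous.comp (g := fun z : ℝ × M => G z.1 z.2) hG
        (f := fun z : (ℝ × ℝ) × M => (z.1.2, z.2)) (by fun_prop)
    · exact Continuous.comp (g := fun z : ℝ × M => G z.1 z.2) hG
        (f := fun z : (ℝ × ℝ) × M => (z.1.1, z.2)) (by fun_prop)
  have hinn : ∀ {f : ℝ → ℝ → ℂ}, Continuous (fun z : ℝ × ℝ => f z.1 z.2) →
      Continuous fun t => ∫ s in (0 : ℝ)..1, f t s := by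
    intro f hf
    exact intervalIntegral.continuous_parametric_intervalIntegral_of_continuous'
      (f := fun (t s : ℝ) => f t s) hf 0 1
  have hinr : ∀ {f : ℝ → ℝ → ℝ}, Continuous (fun z : ℝ × ℝ => f z.1 z.2) →
      Continuous fun t => ∫ s in (0 : ℝ)..1, f t s := by
    intro f hf
    exact intervalIntegral.continuous_parametric_intervalIntegral_of_continuous'
      (f := fun (t s : ℝ) => f t s) hf 0 1
  have h4 : ((∑ a ∈ F, nsq μ (Pr μ K {a} (vt (φ a) G)) : ℝ) : ℂ) =
      ∑ j, ∫ t in (0 : ℝ)..1, ∫ s in (0 : ℝ)..1, β j t s := by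
    have h5 : ∀ a ∈ F, (nsq μ (Pr μ K {a} (vt (φ a) G)) : ℂ) =
        ∫ t in (0 : ℝ)..1, ∫ s in (0 : ℝ)..1, eu ((t - s) * φ a) * bf μ (K a) (G s) (G t) := by
      intro a _
      rw [← bf_vt μ (hK.cont a) hG (φ a), ← B.inn {a} (vt (φ a) G) (hvc a)]
      unfold bf Pr
      simp only [Finset.sum_singleton]
    have hKc : ∀ a, Continuous fun z : ℝ × ℝ =>
        eu ((z.1 - z.2) * φ a) * bf μ (K a) (G z.2) (G z.1) := by
      intro a
      refine Continuous.mul (eu_cont.comp (by fun_prop)) ?_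
      refine bf_cont μ (X := ℝ × ℝ) (k := fun _ => K a) (u := fun z => G z.2)
        (v := fun z => G z.1) ?_ ?_ ?_
      · exact (hK.cont a).comp (f := fun z : (ℝ × ℝ) × M × M => (z.2.1, z.2.2)) (by fun_prop)
      · exact Continuous.comp (g := fun z : ℝ × M => G z.1 z.2) hG
          (f := fun z : (ℝ × ℝ) × M => (z.1.2, z.2)) (by fun_prop)
      · exact Continuous.comp (g := fun z : ℝ × M => G z.1 z.2) hG
          (f := fun z : (ℝ × ℝ) × M => (z.1.1, z.2)) (by fun_prop)
    rw [Complex.ofReal_sum, Finset.sum_congr rfl h5, ← intervalIntegral.integral_finsetSum,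
      ← intervalIntegral.integral_finsetSum]
    · refine intervalIntegral.integral_congr fun t _ => ?_
      rw [← intervalIntegral.integral_finsetSum, ← intervalIntegral.integral_finsetSum]
      · refine intervalIntegral.integral_congr fun s _ => ?_
        rw [← bf_sum μ F (fun a => eu ((t - s) * φ a)) K (fun a _ => hK.cont a) (hGt s) (hGt t)]
        have h6 : (fun x y => ∑ a ∈ F, eu ((t - s) * φ a) * K a x y) =
            fun x y => ∑ j, k j (t - s) x y := by
          funext x y
          exact hsum (t - s) x y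
        rw [h6, bf_sum' μ J (fun j => k j (t - s)) (fun j => ?_) (hGt s) (hGt t)]
        exact (hkc j).comp (f := fun z : M × M => (t - s, z.1, z.2)) (by fun_prop)
      · intro j _
        exact ((hβc j).comp (f := fun s : ℝ => (t, s)) (by fun_prop)).intervalIntegrable _ _
      · intro a _
        exact ((hKc a).comp (f := fun s : ℝ => (t, s)) (by fun_prop)).intervalIntegrable _ _
    · intro j _
      exact (hinn (hβc j)).intervalIntegrable _ _
    · intro a _
      exact (hinn (hKc a)).intervalIntegrable _ _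
  -- the bound for one kernel
  have h5 : ∀ j, ‖∫ t in (0 : ℝ)..1, ∫ s in (0 : ℝ)..1, β j t s‖ ≤
      Γ j ^ (2 / p) * (∫ t in (0 : ℝ)..1, e t) ^ (2 - 2 / p) := by
    intro j
    set f : ℝ → ℝ := fun t => e t ^ (1 - 1 / p) with hf
    set κ : ℝ → ℝ := fun t => A j t ^ (1 - 2 / p) * E j t ^ (2 / p) with hκ
    have hx1 : 0 ≤ 1 - 1 / p := by
      rw [sub_nonneg, div_le_one hp0]
      linarith
    have hx2 : 0 ≤ 1 - 2 / p := by
      rw [sub_nonneg, div_le_one hp0]
      linarith
    have hx3 : 0 ≤ 2 / p := by positivity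
    have hfc : Continuous f := hec.rpow_const fun _ => Or.inr hx1
    have hκc : Continuous κ := ((hA j).cont.rpow_const fun _ => Or.inr hx2).mul
      ((hE j).cont.rpow_const fun _ => Or.inr hx3)
    have hf0 : ∀ x, 0 ≤ f x := fun x => Real.rpow_nonneg (he0 x) _
    have hκ0 : ∀ x, 0 ≤ κ x := fun x =>
      mul_nonneg (Real.rpow_nonneg ((hA j).nn x) _) (Real.rpow_nonneg ((hE j).nn x) _)
    have hY1 := hY p f κ hp.le hfc hκc hf0 hκ0
      (fun x => by simp only [hκ, (hA j).per, (hE j).per])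
      (fun x => by simp only [hκ, (hA j).even, (hE j).even])
    have hb : ∀ t s, ‖β j t s‖ ≤ κ (t - s) * f t * f s := by
      intro t s
      have hk : Continuous fun z : M × M => k j (t - s) z.1 z.2 :=
        (hkc j).comp (f := fun z : M × M => (t - s, z.1, z.2)) (by fun_prop)
      have e1 : ‖β j t s‖ ≤ A j (t - s) * (e s * e t) :=
        bf_sup μ hk (hsup j (t - s)) (hGt s) (hGt t)
      have e2 : ‖β j t s‖ ≤ E j (t - s) * (√(e s) * √(e t)) := by
        refine (hform j (t - s) (G s) (G t) (hGt s) (hGt t)).trans ?_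
        refine mul_le_mul_of_nonneg_left ?_ ((hE j).nn _)
        exact mul_le_mul (Real.sqrt_le_sqrt (nsq_le μ (hGt s) (hG1 s)))
          (Real.sqrt_le_sqrt (nsq_le μ (hGt t) (hG1 t))) (Real.sqrt_nonneg _) (Real.sqrt_nonneg _)
      refine (gm hp (norm_nonneg _) ((hA j).nn _) ((hE j).nn _) (he0 s) (he0 t) e1 e2).trans
        (le_of_eq ?_)
      simp only [hκ, hf]
      ring
    have e3 : ‖∫ t in (0 : ℝ)..1, ∫ s in (0 : ℝ)..1, β j t s‖ ≤
        ∫ t in (0 : ℝ)..1, ∫ s in (0 : ℝ)..1, κ (t - s) * f t * f s := by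
      have hcc : Continuous fun z : ℝ × ℝ => κ (z.1 - z.2) * f z.1 * f z.2 := by fun_prop
      refine (intervalIntegral.norm_integral_le_integral_norm zero_le_one).trans ?_
      refine intervalIntegral.integral_mono_on zero_le_one
        ((hinn (hβc j)).norm.intervalIntegrable _ _)
        ((hinr (f := fun t s => κ (t - s) * f t * f s) hcc).intervalIntegrable _ _) fun t _ => ?_
      refine (intervalIntegral.norm_integral_le_integral_norm zero_le_one).trans ?_
      refine intervalIntegral.integral_mono_on zero_le_one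
        (((hβc j).comp (f := fun s : ℝ => (t, s)) (by fun_prop)).norm.intervalIntegrable _ _)
        ((hcc.comp (f := fun s : ℝ => (t, s)) (by fun_prop)).intervalIntegrable _ _) fun s _ => ?_
      exact hb t s
    have e4 : ∀ t, κ t ^ (p / 2) = A j t ^ (p / 2 - 1) * E j t := by
      intro t
      simp only [hκ]
      rw [Real.mul_rpow (Real.rpow_nonneg ((hA j).nn t) _) (Real.rpow_nonneg ((hE j).nn t) _),
        ← Real.rpow_mul ((hA j).nn t), ← Real.rpow_mul ((hE j).nn t)]
      have y1 : (1 - 2 / p) * (p / 2) = p / 2 - 1 := by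
        field_simp
      have y2 : 2 / p * (p / 2) = 1 := by
        field_simp
      rw [y1, y2, Real.rpow_one]
    have e5 : ∀ t, f t ^ (p / (p - 1)) = e t := by
      intro t
      simp only [hf]
      rw [← Real.rpow_mul (he0 t)]
      have y1 : (1 - 1 / p) * (p / (p - 1)) = 1 := by
        have : p - 1 ≠ 0 := by linarith
        field_simp
      rw [y1, Real.rpow_one]
    have e6 : 2 * (p - 1) / p = 2 - 2 / p := by
      field_simp
    simp only [e4, e5, e6] at hY1
    refine e3.trans (hY1.trans ?_)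
    refine mul_le_mul_of_nonneg_right ?_ (Real.rpow_nonneg
      (intervalIntegral.integral_nonneg zero_le_one fun t _ => he0 t) _)
    refine Real.rpow_le_rpow (intervalIntegral.integral_nonneg zero_le_one fun t _ => ?_) (hint j) hx3
    exact mul_nonneg (Real.rpow_nonneg ((hA j).nn t) _) ((hE j).nn t)
  have h6 : ∑ a ∈ F, nsq μ (Pr μ K {a} (vt (φ a) G)) ≤
      (∑ j, Γ j ^ (2 / p)) * (∫ t in (0 : ℝ)..1, e t) ^ (2 - 2 / p) := by
    have h7 : ∑ a ∈ F, nsq μ (Pr μ K {a} (vt (φ a) G)) =
        ‖((∑ a ∈ F, nsq μ (Pr μ K {a} (vt (φ a) G)) : ℝ) : ℂ)‖ := by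
      rw [Complex.norm_real, Real.norm_of_nonneg (Finset.sum_nonneg fun a _ => hn0 _)]
    rw [h7, h4, Finset.sum_mul]
    exact (norm_sum_le _ _).trans (Finset.sum_le_sum fun j _ => h5 j)
  calc ‖∑ a ∈ F, ∫ x, conj (vt (φ a) G x) * u a x ∂μ‖ ^ 2 ≤
        (∑ a ∈ F, nsq μ (u a)) * ∑ a ∈ F, nsq μ (Pr μ K {a} (vt (φ a) G)) := h3
    _ ≤ (∑ a ∈ F, nsq μ (u a)) *
        ((∑ j, Γ j ^ (2 / p)) * (∫ t in (0 : ℝ)..1, e t) ^ (2 - 2 / p)) :=
        mul_le_mul_of_nonneg_left h6 (Finset.sum_nonneg fun a _ => hn0 _)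
    _ = _ := by ring

end

end STZ
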