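import Pool.Agent.STZ.StmtsX

/-!
# Module WCLF: rules for weights
-/

namespace STZ

namespace WCLF

variable {r : ℕ}

theorem ind_insert {i : Fin r} {T : Finset (Fin r)} (h : i ∉ T) :
    ind (insert i T) = ind {i} + ind T := by
  funext j
  simp only [ind, Pi.add_apply, Finset.mem_insert, Finset.mem_singleton]
  by_cases hj : j = i
  · subst hj
    simp [h]
  · simp [hj]

theorem ind_empty : ind (∅ : Finset (Fin r)) = 0 := by
  funext j
  simp [ind]

theorem DS_empty (f : (Fin r → ℤ) → ℂ) (x : Fin r → ℤ) : DS ∅ f x = f x := by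
  simp [DS, ind_empty]

theorem DS_insert {i : Fin r} {S : Finset (Fin r)} (h : i ∉ S) (f : (Fin r → ℤ) → ℂ)
    (x : Fin r → ℤ) : DS (insert i S) f x = DS S f x - DS S f (x + ind {i}) := by
  unfold DS
  rw [Finset.sum_powerset_insert h, sub_eq_add_neg, ← Finset.sum_neg_distrib]
  congr 1
  refine Finset.sum_congr rfl fun T hT => ?_
  have hiT : i ∉ T := fun hi => h (Finset.mem_powerset.1 hT hi)
  rw [Finset.card_insert_of_notMem hiT, ind_insert hiT, pow_succ, add_assoc]
  ring

theorem DS_insert' {i : Fin r} {S : Finset (Fin r)} (h : i ∉ S) (f : (Fin r → ℤ) → ℂ)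
    (x : Fin r → ℤ) : DS (insert i S) f x = DS S (fun y => f y - f (y + ind {i})) x := by
  rw [DS_insert h]
  unfold DS
  rw [← Finset.sum_sub_distrib]
  refine Finset.sum_congr rfl fun T _ => ?_
  rw [mul_sub, add_right_comm]

theorem DS_const {S : Finset (Fin r)} (hS : S.Nonempty) (c : ℂ) (x : Fin r → ℤ) :
    DS S (fun _ => c) x = 0 := by
  obtain ⟨i, hi⟩ := hS
  rw [← Finset.insert_erase hi, DS_insert (Finset.notMem_erase i S)]
  simp [DS]

theorem DS_smul (S : Finset (Fin r)) (c : ℂ) (f : (Fin r → ℤ) → ℂ) (x : Fin r → ℤ) :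
    DS S (fun y => c * f y) x = c * DS S f x := by
  unfold DS
  rw [Finset.mul_sum]
  refine Finset.sum_congr rfl fun T _ => ?_
  ring

theorem leibniz (S : Finset (Fin r)) (g h : (Fin r → ℤ) → ℂ) : ∀ x : Fin r → ℤ,
    DS S (fun y => g y * h y) x =
      ∑ T ∈ S.powerset, DS T g x * DS (S \ T) h (x + ind T) := by
  induction S using Finset.induction_on with
  | empty =>
    intro x
    simp [DS_empty, ind_empty]
  | insert i S hi ih =>
    intro x
    rw [DS_insert hi, ih, ih, Finset.sum_powerset_insert hi, ← Finset.sum_sub_distrib,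
      ← Finset.sum_add_distrib]
    refine Finset.sum_congr rfl fun T hT => ?_
    have hTS : T ⊆ S := Finset.mem_powerset.1 hT
    have hiT : i ∉ T := fun h => hi (hTS h)
    have e1 : insert i S \ T = insert i (S \ T) := by
      ext j
      simp only [Finset.mem_sdiff, Finset.mem_insert]
      constructor
      · rintro ⟨h1 | h1, h2⟩
        · exact Or.inl h1
        · exact Or.inr ⟨h1, h2⟩
      · rintro (h1 | ⟨h1, h2⟩)
        · exact ⟨Or.inl h1, h1 ▸ hiT⟩
        · exact ⟨Or.inr h1, h2⟩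
    have e2 : insert i S \ insert i T = S \ T := by
      ext j
      simp only [Finset.mem_sdiff, Finset.mem_insert, not_or]
      constructor
      · rintro ⟨h1 | h1, h2, h3⟩
        · exact absurd h1 h2
        · exact ⟨h1, h3⟩
      · rintro ⟨h1, h2⟩
        exact ⟨Or.inr h1, fun h => hi (h ▸ h1), h2⟩
    have hi' : i ∉ S \ T := fun h => hi (Finset.mem_sdiff.1 h).1
    rw [e1, e2, DS_insert hi', DS_insert hiT, ind_insert hiT]
    have e3 : x + ind {i} + ind T = x + (ind {i} + ind T) := add_assoc _ _ _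
    have e4 : x + ind T + ind {i} = x + (ind {i} + ind T) := by
      rw [add_comm (ind {i}) (ind T), add_assoc]
    rw [e3, e4]
    ring

theorem mem_bxn {z : Fin r → ℤ} {n : Fin r → ℕ} {x : Fin r → ℤ} :
    x ∈ bxn z n ↔ ∀ i, z i ≤ x i ∧ x i < z i + n i := by
  simp [bxn, Fintype.mem_piFinset]

theorem mem_mid {z : Fin r → ℤ} {n : Fin r → ℕ} {x : Fin r → ℤ} {S T : Finset (Fin r)}
    (hTS : T ⊆ S) (h1 : x ∈ bxn z n) (h2 : x + ind S ∈ bxn z n) : x + ind T ∈ bxn z n := by
  rw [mem_bxn] at h1 h2 ⊢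
  intro i
  have a := h1 i
  have b := h2 i
  simp only [Pi.add_apply, ind] at b ⊢
  by_cases hT : i ∈ T
  · have hS : i ∈ S := hTS hT
    simp only [hS, if_true] at b
    simp only [hT, if_true]
    exact b
  · simp only [hT, if_false, add_zero]
    exact a

theorem ind_sdiff {S T : Finset (Fin r)} (hTS : T ⊆ S) : ind T + ind (S \ T) = ind S := by
  funext i
  simp only [Pi.add_apply, ind, Finset.mem_sdiff]
  by_cases hT : i ∈ T
  · have hS : i ∈ S := hTS hT
    simp [hT, hS]
  · simp [hT]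

theorem mulW (r : ℕ) (z : Fin r → ℤ) (n : Fin r → ℕ) (R L L' : ℝ) (g h : (Fin r → ℤ) → ℂ)
    (hR : 0 < R) (hL : 0 ≤ L) (hL' : 0 ≤ L') (hg : WCl z n R L g) (hh : WCl z n R L' h) :
    WCl z n R (2 ^ r * (L * L')) (fun x => g x * h x) := by
  intro S x hx hxS
  rw [leibniz]
  have hb : ∀ T ∈ S.powerset, ‖DS T g x * DS (S \ T) h (x + ind T)‖ ≤ L * L' / R ^ S.card := by
    intro T hT
    have hTS : T ⊆ S := Finset.mem_powerset.1 hT
    have hm := mem_mid hTS hx hxS
    have h1 := hg T x hx hm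
    have h2 := hh (S \ T) (x + ind T) hm (by rw [add_assoc, ind_sdiff hTS]; exact hxS)
    rw [norm_mul]
    have hc : T.card + (S \ T).card = S.card := by
      rw [Finset.card_sdiff_of_subset hTS]
      have := Finset.card_le_card hTS
      omega
    calc ‖DS T g x‖ * ‖DS (S \ T) h (x + ind T)‖
        ≤ (L / R ^ T.card) * (L' / R ^ (S \ T).card) := by
          apply mul_le_mul h1 h2 (norm_nonneg _)
          positivity
      _ = L * L' / R ^ S.card := by
          rw [← hc, pow_add]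
          field_simp
  have hS : (S.card : ℕ) ≤ r := by
    have := Finset.card_le_univ S
    simpa using this
  calc ‖∑ T ∈ S.powerset, DS T g x * DS (S \ T) h (x + ind T)‖
      ≤ ∑ T ∈ S.powerset, ‖DS T g x * DS (S \ T) h (x + ind T)‖ := norm_sum_le _ _
    _ ≤ ∑ _T ∈ S.powerset, L * L' / R ^ S.card := Finset.sum_le_sum hb
    _ = 2 ^ S.card * (L * L' / R ^ S.card) := by
        rw [Finset.sum_const, Finset.card_powerset]
        simp
    _ ≤ 2 ^ r * (L * L' / R ^ S.card) := by
        apply mul_le_mul_of_nonneg_right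
        · exact pow_le_pow_right₀ (by norm_num) hS
        · positivity
    _ = 2 ^ r * (L * L') / R ^ S.card := by ring

theorem constW (r : ℕ) (z : Fin r → ℤ) (n : Fin r → ℕ) (R : ℝ) (c : ℂ) (hR : 0 < R) :
    WCl z n R ‖c‖ (fun _ => c) := by
  intro S x _ _
  rcases S.eq_empty_or_nonempty with rfl | hS
  · rw [DS_empty]
    simp
  · rw [DS_const hS]
    rw [norm_zero]
    positivity

theorem linW (r : ℕ) (z : Fin r → ℤ) (n : Fin r → ℕ) (R L : ℝ) (a : Fin r → ℂ) (b : ℂ)
    (hR : 0 < R) (hL : 0 ≤ L) (ha : ∀ i, ‖a i‖ ≤ L / R)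
    (hf : ∀ x ∈ bxn z n, ‖b + ∑ i, a i * x i‖ ≤ L) :
    WCl z n R L (fun x => b + ∑ i, a i * x i) := by
  intro S x hx _
  rcases S.eq_empty_or_nonempty with rfl | ⟨i, hi⟩
  · rw [DS_empty]
    simpa using hf x hx
  · rw [← Finset.insert_erase hi, DS_insert' (Finset.notMem_erase i S)]
    have e : (fun y : Fin r → ℤ => (b + ∑ j, a j * y j) -
        (b + ∑ j, a j * ((y + ind {i} : Fin r → ℤ) j : ℂ))) = fun _ => -a i := by
      funext y
      have : ∑ j, a j * ((y + ind {i} : Fin r → ℤ) j : ℂ) = ∑ j, a j * y j + a i := by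
        have h2 : ∑ j, a j * ((ind {i} : Fin r → ℤ) j : ℂ) = a i := by
          rw [Finset.sum_eq_single i]
          · simp [ind]
          · intro j _ hj
            simp [ind, hj]
          · intro h
            exact absurd (Finset.mem_univ i) h
        rw [← h2, ← Finset.sum_add_distrib]
        refine Finset.sum_congr rfl fun j _ => ?_
        rw [Pi.add_apply]
        push_cast
        ring
      rw [this]
      ring
    rw [e]
    rcases (S.erase i).eq_empty_or_nonempty with h0 | h0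
    · rw [h0, DS_empty, norm_neg]
      simpa using ha i
    · rw [DS_const h0, norm_zero]
      positivity

theorem DS_exp (S : Finset (Fin r)) (z : Fin r → ℤ) (ζ : Fin r → ℂ) (x : Fin r → ℤ) :
    DS S (fun x : Fin r → ℤ => Complex.exp (∑ i, ζ i * (x i - z i))) x =
      (∏ i ∈ S, (1 - Complex.exp (ζ i))) * Complex.exp (∑ i, ζ i * (x i - z i)) := by
  induction S using Finset.induction_on with
  | empty => rw [DS_empty]; simp
  | insert i S hi ih =>
    rw [DS_insert' hi]
    have e : (fun y : Fin r → ℤ => Complex.exp (∑ j, ζ j * (y j - z j)) -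
        Complex.exp (∑ j, ζ j * (((y + ind {i} : Fin r → ℤ) j : ℂ) - z j))) =
        fun y => (1 - Complex.exp (ζ i)) * Complex.exp (∑ j, ζ j * (y j - z j)) := by
      funext y
      have : ∑ j, ζ j * (((y + ind {i} : Fin r → ℤ) j : ℂ) - z j) =
          ζ i + ∑ j, ζ j * (y j - z j) := by
        have h2 : ∑ j, ζ j * ((ind {i} : Fin r → ℤ) j : ℂ) = ζ i := by
          rw [Finset.sum_eq_single i]
          · simp [ind]
          · intro j _ hj
            simp [ind, hj]
          · intro h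
            exact absurd (Finset.mem_univ i) h
        rw [← h2, ← Finset.sum_add_distrib]
        refine Finset.sum_congr rfl fun j _ => ?_
        rw [Pi.add_apply]
        push_cast
        ring
      rw [this, Complex.exp_add]
      ring
    rw [e, DS_smul, ih, Finset.prod_insert hi]
    ring

theorem norm_one_sub_exp (w : ℂ) : ‖1 - Complex.exp w‖ ≤ ‖w‖ * Real.exp ‖w‖ := by
  have := Complex.norm_exp_sub_sum_le_norm_mul_exp w 1
  rw [norm_sub_rev]
  simpa using this

theorem expW (r : ℕ) (κ κ' : ℝ) (hκ : 0 ≤ κ) (hκ' : 0 ≤ κ') :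
    ∃ C : ℝ, 0 ≤ C ∧ ∀ (z : Fin r → ℤ) (n : Fin r → ℕ) (R : ℝ)
    (ζ : Fin r → ℂ), 1 ≤ R → (∀ i, ‖ζ i‖ ≤ κ / R) → (∀ i, (n i : ℝ) ≤ κ' * R) →
    WCl z n R C (fun x => Complex.exp (∑ i, ζ i * (x i - z i))) := by
  refine ⟨(1 + κ * Real.exp κ) ^ r * Real.exp (r * (κ * κ')), by positivity, ?_⟩
  intro z n R ζ hR hζ hn S x hx _
  have hR0 : 0 < R := by linarith
  rw [DS_exp, norm_mul]
  rw [mem_bxn] at hx
  have h1 : ‖Complex.exp (∑ i, ζ i * ((x i : ℂ) - z i))‖ ≤ Real.exp (r * (κ * κ')) := by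
    rw [Complex.norm_exp]
    apply Real.exp_le_exp.2
    calc (∑ i, ζ i * ((x i : ℂ) - z i)).re ≤ ‖∑ i, ζ i * ((x i : ℂ) - z i)‖ :=
          Complex.re_le_norm _
      _ ≤ ∑ i, ‖ζ i * ((x i : ℂ) - z i)‖ := norm_sum_le _ _
      _ ≤ ∑ _i : Fin r, κ * κ' := by
          refine Finset.sum_le_sum fun i _ => ?_
          rw [norm_mul]
          have hxi := hx i
          have e1 : ((x i : ℂ) - z i) = (((x i - z i : ℤ) : ℝ) : ℂ) := by push_cast; ring
          rw [e1, Complex.norm_real, Real.norm_eq_abs]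
          have h0 : (0 : ℝ) ≤ ((x i - z i : ℤ) : ℝ) := by
            have : (0 : ℤ) ≤ x i - z i := by linarith [hxi.1]
            exact_mod_cast this
          rw [abs_of_nonneg h0]
          have h3 : ((x i - z i : ℤ) : ℝ) ≤ κ' * R := by
            have : (x i - z i : ℤ) ≤ (n i : ℤ) := by linarith [hxi.2]
            have h4 : ((x i - z i : ℤ) : ℝ) ≤ (n i : ℝ) := by exact_mod_cast this
            exact h4.trans (hn i)
          calc ‖ζ i‖ * ((x i - z i : ℤ) : ℝ) ≤ (κ / R) * (κ' * R) :=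
                mul_le_mul (hζ i) h3 h0 (by positivity)
            _ = κ * κ' := by field_simp
      _ = r * (κ * κ') := by simp
  have h2 : ‖∏ i ∈ S, (1 - Complex.exp (ζ i))‖ ≤ (κ * Real.exp κ / R) ^ S.card := by
    rw [norm_prod, ← Finset.prod_const]
    refine Finset.prod_le_prod (fun i _ => norm_nonneg _) fun i _ => ?_
    refine (norm_one_sub_exp _).trans ?_
    have hk : ‖ζ i‖ ≤ κ := (hζ i).trans (div_le_self hκ hR)
    calc ‖ζ i‖ * Real.exp ‖ζ i‖ ≤ (κ / R) * Real.exp κ :=
          mul_le_mul (hζ i) (Real.exp_le_exp.2 hk) (Real.exp_pos _).le (by positivity)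
      _ = κ * Real.exp κ / R := by ring
  have hS : (S.card : ℕ) ≤ r := by
    have := Finset.card_le_univ S
    simpa using this
  have h3 : (κ * Real.exp κ) ^ S.card ≤ (1 + κ * Real.exp κ) ^ r := by
    have hp : 0 ≤ κ * Real.exp κ := by positivity
    calc (κ * Real.exp κ) ^ S.card ≤ (1 + κ * Real.exp κ) ^ S.card :=
          pow_le_pow_left₀ hp (by linarith) _
      _ ≤ (1 + κ * Real.exp κ) ^ r := pow_le_pow_right₀ (by linarith) hS
  calc ‖∏ i ∈ S, (1 - Complex.exp (ζ i))‖ * ‖Complex.exp (∑ i, ζ i * ((x i : ℂ) - z i))‖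
      ≤ (κ * Real.exp κ / R) ^ S.card * Real.exp (r * (κ * κ')) :=
        mul_le_mul h2 h1 (norm_nonneg _) (by positivity)
    _ = (κ * Real.exp κ) ^ S.card * Real.exp (r * (κ * κ')) / R ^ S.card := by
        rw [div_pow]; ring
    _ ≤ (1 + κ * Real.exp κ) ^ r * Real.exp (r * (κ * κ')) / R ^ S.card := by
        apply div_le_div_of_nonneg_right _ (by positivity)
        exact mul_le_mul_of_nonneg_right h3 (Real.exp_pos _).le

end WCLF

theorem t_WCLF : S_WCLF where
  mul := WCLF.mulW
  const := WCLF.constW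
  lin := WCLF.linW
  exp := WCLF.expW

end STZ
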