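import Pool.Agent.STZ.StmtsU

/-!
# Module WCLY: rules for weights on boxes with different sides
-/

namespace STZ

namespace WCLY

variable {r : ℕ}

theorem ind_insert {i : Fin r} {T : Finset (Fin r)} (h : i ∉ T) :
    ind (insert i T) = ind {i} + ind T := by
  funext j
  simp only [ind, Pi.add_apply, Finset.mem_insert, Finset.mem_singleton]
  by_cases hj : j = i
  · subst hj
    simp [h]
  · simp [hj]

theorem ind_empty : ind (∅ : Finset (Fin r)) = 0 := by
  funext j
  simp [ind]

theorem DS_empty (f : (Fin r → ℤ) → ℂ) (x : Fin r → ℤ) : DS ∅ f x = f x := by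
  simp [DS, ind_empty]

theorem DS_insert {i : Fin r} {S : Finset (Fin r)} (h : i ∉ S) (f : (Fin r → ℤ) → ℂ)
    (x : Fin r → ℤ) : DS (insert i S) f x = DS S f x - DS S f (x + ind {i}) := by
  unfold DS
  rw [Finset.sum_powerset_insert h, sub_eq_add_neg, ← Finset.sum_neg_distrib]
  congr 1
  refine Finset.sum_congr rfl fun T hT => ?_
  have hiT : i ∉ T := fun hi => h (Finset.mem_powerset.1 hT hi)
  rw [Finset.card_insert_of_notMem hiT, ind_insert hiT, pow_succ, add_assoc]
  ring

theorem DS_insert' {i : Fin r} {S : Finset (Fin r)} (h : i ∉ S) (f : (Fin r → ℤ) → ℂ)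
    (x : Fin r → ℤ) : DS (insert i S) f x = DS S (fun y => f y - f (y + ind {i})) x := by
  rw [DS_insert h]
  unfold DS
  rw [← Finset.sum_sub_distrib]
  refine Finset.sum_congr rfl fun T _ => ?_
  rw [mul_sub, add_right_comm]

theorem DS_const {S : Finset (Fin r)} (hS : S.Nonempty) (c : ℂ) (x : Fin r → ℤ) :
    DS S (fun _ => c) x = 0 := by
  obtain ⟨i, hi⟩ := hS
  rw [← Finset.insert_erase hi, DS_insert (Finset.notMem_erase i S)]
  simp [DS]

theorem leibniz (S : Finset (Fin r)) (g h : (Fin r → ℤ) → ℂ) : ∀ x : Fin r → ℤ,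
    DS S (fun y => g y * h y) x =
      ∑ T ∈ S.powerset, DS T g x * DS (S \ T) h (x + ind T) := by
  induction S using Finset.induction_on with
  | empty =>
    intro x
    simp [DS_empty, ind_empty]
  | insert i S hi ih =>
    intro x
    rw [DS_insert hi, ih, ih, Finset.sum_powerset_insert hi, ← Finset.sum_sub_distrib,
      ← Finset.sum_add_distrib]
    refine Finset.sum_congr rfl fun T hT => ?_
    have hTS : T ⊆ S := Finset.mem_powerset.1 hT
    have hiT : i ∉ T := fun h => hi (hTS h)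
    have e1 : insert i S \ T = insert i (S \ T) := by
      ext j
      simp only [Finset.mem_sdiff, Finset.mem_insert]
      constructor
      · rintro ⟨h1 | h1, h2⟩
        · exact Or.inl h1
        · exact Or.inr ⟨h1, h2⟩
      · rintro (h1 | ⟨h1, h2⟩)
        · exact ⟨Or.inl h1, h1 ▸ hiT⟩
        · exact ⟨Or.inr h1, h2⟩
    have e2 : insert i S \ insert i T = S \ T := by
      ext j
      simp only [Finset.mem_sdiff, Finset.mem_insert, not_or]
      constructor
      · rintro ⟨h1 | h1, h2, h3⟩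
        · exact absurd h1 h2
        · exact ⟨h1, h3⟩
      · rintro ⟨h1, h2⟩
        exact ⟨Or.inr h1, fun h => hi (h ▸ h1), h2⟩
    have hi' : i ∉ S \ T := fun h => hi (Finset.mem_sdiff.1 h).1
    rw [e1, e2, DS_insert hi', DS_insert hiT, ind_insert hiT]
    have e3 : x + ind {i} + ind T = x + (ind {i} + ind T) := add_assoc _ _ _
    have e4 : x + ind T + ind {i} = x + (ind {i} + ind T) := by
      rw [add_comm (ind {i}) (ind T), add_assoc]
    rw [e3, e4]
    ring

theorem mem_bxn {z : Fin r → ℤ} {n : Fin r → ℕ} {x : Fin r → ℤ} :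
    x ∈ bxn z n ↔ ∀ i, z i ≤ x i ∧ x i < z i + n i := by
  simp [bxn, Fintype.mem_piFinset]

theorem mem_mid {z : Fin r → ℤ} {n : Fin r → ℕ} {x : Fin r → ℤ} {S T : Finset (Fin r)}
    (hTS : T ⊆ S) (h1 : x ∈ bxn z n) (h2 : x + ind S ∈ bxn z n) : x + ind T ∈ bxn z n := by
  rw [mem_bxn] at h1 h2 ⊢
  intro i
  have a := h1 i
  have b := h2 i
  simp only [Pi.add_apply, ind] at b ⊢
  by_cases hT : i ∈ T
  · have hS : i ∈ S := hTS hT
    simp only [hS, if_true] at b
    simp only [hT, if_true]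
    exact b
  · simp only [hT, if_false, add_zero]
    exact a

theorem ind_sdiff {S T : Finset (Fin r)} (hTS : T ⊆ S) : ind T + ind (S \ T) = ind S := by
  funext i
  simp only [Pi.add_apply, ind, Finset.mem_sdiff]
  by_cases hT : i ∈ T
  · have hS : i ∈ S := hTS hT
    simp [hT, hS]
  · simp [hT]

theorem mulW (r : ℕ) (z : Fin r → ℤ) (n : Fin r → ℕ) (R : Fin r → ℝ) (L L' : ℝ)
    (g h : (Fin r → ℤ) → ℂ) (hR : ∀ i, 0 < R i) (hL : 0 ≤ L) (hL' : 0 ≤ L')
    (hg : WClY z n R L g) (hh : WClY z n R L' h) :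
    WClY z n R (2 ^ r * (L * L')) (fun x => g x * h x) := by
  intro S x hx hxS
  rw [leibniz]
  have hP : ∀ T : Finset (Fin r), 0 < ∏ i ∈ T, R i := fun T => Finset.prod_pos fun i _ => hR i
  have hb : ∀ T ∈ S.powerset, ‖DS T g x * DS (S \ T) h (x + ind T)‖ ≤
      L * L' / ∏ i ∈ S, R i := by
    intro T hT
    have hTS : T ⊆ S := Finset.mem_powerset.1 hT
    have hm := mem_mid hTS hx hxS
    have h1 := hg T x hx hm
    have h2 := hh (S \ T) (x + ind T) hm (by rw [add_assoc, ind_sdiff hTS]; exact hxS)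
    rw [norm_mul]
    have hc : (∏ i ∈ S \ T, R i) * ∏ i ∈ T, R i = ∏ i ∈ S, R i := Finset.prod_sdiff hTS
    have p1 := hP T
    have p2 := hP (S \ T)
    calc ‖DS T g x‖ * ‖DS (S \ T) h (x + ind T)‖
        ≤ (L / ∏ i ∈ T, R i) * (L' / ∏ i ∈ S \ T, R i) := by
          apply mul_le_mul h1 h2 (norm_nonneg _)
          positivity
      _ = L * L' / ∏ i ∈ S, R i := by
          rw [← hc, div_mul_div_comm, mul_comm (∏ i ∈ T, R i)]
  have hS : (S.card : ℕ) ≤ r := by
    have := Finset.card_le_univ S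
    simpa using this
  have p := hP S
  calc ‖∑ T ∈ S.powerset, DS T g x * DS (S \ T) h (x + ind T)‖
      ≤ ∑ T ∈ S.powerset, ‖DS T g x * DS (S \ T) h (x + ind T)‖ := norm_sum_le _ _
    _ ≤ ∑ _T ∈ S.powerset, L * L' / ∏ i ∈ S, R i := Finset.sum_le_sum hb
    _ = 2 ^ S.card * (L * L' / ∏ i ∈ S, R i) := by
        rw [Finset.sum_const, Finset.card_powerset]
        simp
    _ ≤ 2 ^ r * (L * L' / ∏ i ∈ S, R i) := by
        apply mul_le_mul_of_nonneg_right
        · exact pow_le_pow_right₀ (by norm_num) hS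
        · positivity
    _ = 2 ^ r * (L * L') / ∏ i ∈ S, R i := by ring

theorem constW (r : ℕ) (z : Fin r → ℤ) (n : Fin r → ℕ) (R : Fin r → ℝ) (c : ℂ)
    (hR : ∀ i, 0 < R i) : WClY z n R ‖c‖ (fun _ => c) := by
  intro S x _ _
  rcases S.eq_empty_or_nonempty with rfl | hS
  · rw [DS_empty]
    simp
  · rw [DS_const hS]
    have p : 0 < ∏ i ∈ S, R i := Finset.prod_pos fun i _ => hR i
    rw [norm_zero]
    positivity

theorem isoW (r : ℕ) (z : Fin r → ℤ) (n : Fin r → ℕ) (R L : ℝ) (g : (Fin r → ℤ) → ℂ)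
    (h : WCl z n R L g) : WClY z n (fun _ => R) L g := by
  intro S x hx hxS
  rw [Finset.prod_const]
  exact h S x hx hxS

theorem DS_prod (S : Finset (Fin r)) : ∀ (f : Fin r → ℤ → ℂ) (x : Fin r → ℤ),
    DS S (fun x : Fin r → ℤ => ∏ i, f i (x i)) x =
      ∏ i, (if i ∈ S then f i (x i) - f i (x i + 1) else f i (x i)) := by
  induction S using Finset.induction_on with
  | empty =>
    intro f x
    rw [DS_empty]
    simp
  | insert i S hi ih =>
    intro f x
    rw [DS_insert' hi]
    have e : (fun y : Fin r → ℤ => (∏ j, f j (y j)) - ∏ j, f j ((y + ind {i} : Fin r → ℤ) j)) =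
        fun y => ∏ j, (fun j => if j = i then (fun t => f i t - f i (t + 1)) else f j) j (y j) := by
      funext y
      rw [← Finset.mul_prod_erase Finset.univ _ (Finset.mem_univ i),
        ← Finset.mul_prod_erase Finset.univ (fun j => f j ((y + ind {i} : Fin r → ℤ) j))
          (Finset.mem_univ i),
        ← Finset.mul_prod_erase Finset.univ
          (fun j => (fun j => if j = i then (fun t => f i t - f i (t + 1)) else f j) j (y j))
          (Finset.mem_univ i)]
      have e1 : ∏ j ∈ Finset.univ.erase i, f j ((y + ind {i} : Fin r → ℤ) j) =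
          ∏ j ∈ Finset.univ.erase i, f j (y j) := by
        refine Finset.prod_congr rfl fun j hj => ?_
        have hji : j ≠ i := Finset.ne_of_mem_erase hj
        simp [ind, hji]
      have e2 : ∏ j ∈ Finset.univ.erase i,
          (fun j => if j = i then (fun t => f i t - f i (t + 1)) else f j) j (y j) =
          ∏ j ∈ Finset.univ.erase i, f j (y j) := by
        refine Finset.prod_congr rfl fun j hj => ?_
        have hji : j ≠ i := Finset.ne_of_mem_erase hj
        simp [hji]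
      rw [e1, e2]
      simp only [Pi.add_apply, ind, Finset.mem_singleton, if_true]
      ring
    rw [e, ih]
    refine Finset.prod_congr rfl fun j _ => ?_
    by_cases hji : j = i
    · subst hji
      simp [hi]
    · simp [hji]

theorem coordW (r : ℕ) (z : Fin r → ℤ) (n : Fin r → ℕ) (R a : Fin r → ℝ) (f : Fin r → ℤ → ℂ)
    (_hR : ∀ i, 0 < R i) (_ha : ∀ i, 0 ≤ a i) (h0 : ∀ i y, ‖f i y‖ ≤ a i)
    (h1 : ∀ i y, ‖f i (y + 1) - f i y‖ ≤ a i / R i) :
    WClY z n R (∏ i, a i) (fun x => ∏ i, f i (x i)) := by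
  intro S x _ _
  rw [DS_prod, norm_prod]
  have e : (∏ i, a i) / ∏ i ∈ S, R i = ∏ i, (if i ∈ S then a i / R i else a i) := by
    have e1 : ∏ i ∈ S, R i = ∏ i, (if i ∈ S then R i else 1) := by
      rw [Finset.prod_ite_mem, Finset.univ_inter]
    rw [e1, ← Finset.prod_div_distrib]
    refine Finset.prod_congr rfl fun i _ => ?_
    by_cases hi : i ∈ S
    · simp [hi]
    · simp [hi]
  rw [e]
  refine Finset.prod_le_prod (fun i _ => norm_nonneg _) fun i _ => ?_
  by_cases hi : i ∈ S
  · simp only [hi, if_true]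
    rw [norm_sub_rev]
    exact h1 i (x i)
  · simp only [hi, if_false]
    exact h0 i (x i)

theorem DD_iter_shift (a : ℤ) (k : ℕ) : ∀ f : ℤ → ℂ,
    DD^[k] (fun y => f y - f (y + a)) = fun y => (DD^[k] f) y - (DD^[k] f) (y + a) := by
  induction k with
  | zero => intro f; rfl
  | succ k ih =>
    intro f
    rw [Function.iterate_succ_apply, Function.iterate_succ_apply, ← ih]
    congr 1
    funext y
    simp only [DD]
    rw [show y + 1 + a = y + a + 1 by ring]
    ring

theorem norm_nat {h : ℤ → ℂ} {B : ℝ} (hB : ∀ y, ‖DD h y‖ ≤ B) (m : ℕ) :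
    ∀ y, ‖h (y + m) - h y‖ ≤ m * B := by
  induction m with
  | zero => intro y; simp
  | succ m ih =>
    intro y
    have e : h (y + (m + 1 : ℕ)) - h y = DD h (y + m) + (h (y + m) - h y) := by
      simp only [DD]
      rw [show y + ((m + 1 : ℕ) : ℤ) = y + m + 1 by push_cast; ring]
      ring
    rw [e]
    calc ‖DD h (y + m) + (h (y + m) - h y)‖ ≤ ‖DD h (y + m)‖ + ‖h (y + m) - h y‖ :=
          norm_add_le _ _
      _ ≤ B + m * B := add_le_add (hB _) (ih y)
      _ = ((m + 1 : ℕ) : ℝ) * B := by push_cast; ring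

theorem norm_int {h : ℤ → ℂ} {B : ℝ} (hB : ∀ y, ‖DD h y‖ ≤ B) (a y : ℤ) :
    ‖h y - h (y + a)‖ ≤ |(a : ℝ)| * B := by
  obtain ⟨m, hm | hm⟩ := Int.eq_nat_or_neg a
  · subst hm
    rw [norm_sub_rev]
    simpa using norm_nat hB m y
  · subst hm
    have := norm_nat hB m (y + -(m : ℤ))
    rw [show y + -(m : ℤ) + m = y by ring] at this
    simpa using this

theorem DS_lin (a : Fin r → ℤ) (b : ℤ) (c : ℕ) (ha : ∀ i, |a i| ≤ c) (S : Finset (Fin r)) :
    ∀ (f : ℤ → ℂ) (B : ℝ), (∀ y, ‖(DD^[S.card] f) y‖ ≤ B) → ∀ x,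
      ‖DS S (fun x : Fin r → ℤ => f (b + ∑ i, a i * x i)) x‖ ≤ (c : ℝ) ^ S.card * B := by
  induction S using Finset.induction_on with
  | empty =>
    intro f B hB x
    rw [DS_empty]
    simpa using hB (b + ∑ i, a i * x i)
  | insert i S hi ih =>
    intro f B hB x
    rw [DS_insert' hi]
    have e : (fun y : Fin r → ℤ => f (b + ∑ j, a j * y j) -
        f (b + ∑ j, a j * (y + ind {i} : Fin r → ℤ) j)) =
        fun y => (fun t => f t - f (t + a i)) (b + ∑ j, a j * y j) := by
      funext y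
      have h2 : ∑ j, a j * (ind {i} : Fin r → ℤ) j = a i := by
        rw [Finset.sum_eq_single i]
        · simp [ind]
        · intro j _ hj
          simp [ind, hj]
        · intro h
          exact absurd (Finset.mem_univ i) h
      have h3 : b + ∑ j, a j * (y + ind {i} : Fin r → ℤ) j = b + ∑ j, a j * y j + a i := by
        rw [← h2, add_assoc, ← Finset.sum_add_distrib]
        congr 1
        refine Finset.sum_congr rfl fun j _ => ?_
        rw [Pi.add_apply]
        ring
      rw [h3]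
    rw [e]
    rw [Finset.card_insert_of_notMem hi] at hB ⊢
    have hB0 : 0 ≤ B := (norm_nonneg _).trans (hB 0)
    have hk : ∀ y, ‖(DD^[S.card] (fun t => f t - f (t + a i))) y‖ ≤ c * B := by
      intro y
      rw [DD_iter_shift]
      have h1 : ∀ y, ‖DD (DD^[S.card] f) y‖ ≤ B := by
        intro y
        have := hB y
        rwa [Function.iterate_succ_apply'] at this
      refine (norm_int h1 (a i) y).trans ?_
      apply mul_le_mul_of_nonneg_right _ hB0
      have := ha i
      exact_mod_cast this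
    calc _ ≤ (c : ℝ) ^ S.card * (c * B) := ih _ _ hk x
      _ = (c : ℝ) ^ (S.card + 1) * B := by ring

theorem linW (r c : ℕ) (z : Fin r → ℤ) (n : Fin r → ℕ) (R : Fin r → ℝ) (R₀ L : ℝ) (f : ℤ → ℂ)
    (a : Fin r → ℤ) (b : ℤ) (hR : ∀ i, 0 < R i) (hR₀ : ∀ i, R i ≤ R₀) (hL : 0 ≤ L)
    (ha : ∀ i, |a i| ≤ c) (hf : ∀ j ≤ r, ∀ y, ‖(DD^[j] f) y‖ ≤ L / R₀ ^ j) :
    WClY z n R ((1 + (c : ℝ)) ^ r * L) (fun x => f (b + ∑ i, a i * x i)) := by
  intro S x _ _
  have hS : (S.card : ℕ) ≤ r := by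
    have := Finset.card_le_univ S
    simpa using this
  have h1 := DS_lin a b c ha S f (L / R₀ ^ S.card) (hf S.card hS) x
  have p : 0 < ∏ i ∈ S, R i := Finset.prod_pos fun i _ => hR i
  have p2 : ∏ i ∈ S, R i ≤ R₀ ^ S.card := by
    rw [← Finset.prod_const]
    exact Finset.prod_le_prod (fun i _ => (hR i).le) fun i _ => hR₀ i
  have hc : (c : ℝ) ^ S.card ≤ (1 + (c : ℝ)) ^ r := by
    have hc0 : (0 : ℝ) ≤ c := Nat.cast_nonneg c
    calc (c : ℝ) ^ S.card ≤ (1 + (c : ℝ)) ^ S.card := pow_le_pow_left₀ hc0 (by linarith) _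
      _ ≤ (1 + (c : ℝ)) ^ r := pow_le_pow_right₀ (by linarith) hS
  calc ‖DS S (fun x : Fin r → ℤ => f (b + ∑ i, a i * x i)) x‖
      ≤ (c : ℝ) ^ S.card * (L / R₀ ^ S.card) := h1
    _ ≤ (1 + (c : ℝ)) ^ r * (L / ∏ i ∈ S, R i) := by
        apply mul_le_mul hc (div_le_div_of_nonneg_left hL p p2)
        · have : 0 < R₀ ^ S.card := lt_of_lt_of_le p p2
          positivity
        · positivity
    _ = (1 + (c : ℝ)) ^ r * L / ∏ i ∈ S, R i := by ring

end WCLY

theorem t_WCLY : S_WCLY where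
  mul := WCLY.mulW
  const := WCLY.constW
  iso := WCLY.isoW
  coord := WCLY.coordW
  lin := WCLY.linW

end STZ
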