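import Pool.Agent.STZ.StmtsU

/-!
# Module WEYY: Weyl differencing in boxes with different sides
-/

set_option autoImplicit false

namespace STZ

open Matrix

open scoped ComplexConjugate Matrix Real

noncomputable section

namespace WEYY

theorem eu_add (a b : ℝ) : eu (a + b) = eu a * eu b := by
  unfold eu
  rw [← Complex.exp_add]
  congr 1
  push_cast
  ring

theorem eu_zero : eu 0 = 1 := by
  unfold eu
  simp

theorem eu_conj (a : ℝ) : conj (eu a) = eu (-a) := by
  unfold eu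
  rw [← Complex.exp_conj]
  congr 1
  have h2 : (starRingEnd ℂ) 2 = 2 := Complex.conj_ofNat 2
  simp [h2]

theorem norm_eu (a : ℝ) : ‖eu a‖ = 1 := by
  unfold eu
  have h : (2 * (π : ℂ) * (a : ℂ) * Complex.I) = ((2 * π * a : ℝ) : ℂ) * Complex.I := by
    push_cast
    ring
  rw [h, Complex.norm_exp_ofReal_mul_I]

theorem eu_sum {ι : Type*} (s : Finset ι) (f : ι → ℝ) :
    eu (∑ i ∈ s, f i) = ∏ i ∈ s, eu (f i) := by
  classical
  induction s using Finset.induction_on with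
  | empty => simp [eu_zero]
  | insert a s ha ih => rw [Finset.sum_insert ha, Finset.prod_insert ha, eu_add, ih]

/-- the box of the `y` with `y`, `y + h` in the box -/
theorem filter_eq {r : ℕ} (z : Fin r → ℤ) (n : Fin r → ℕ) (h : Fin r → ℤ) :
    (bxn z n).filter (fun y => y + h ∈ bxn z n) =
      Fintype.piFinset fun i =>
        Finset.Ico (max (z i) (z i - h i)) (min (z i + n i) (z i + n i - h i)) := by
  ext y
  simp only [bxn, Finset.mem_filter, Fintype.mem_piFinset, Finset.mem_Ico, Pi.add_apply]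
  constructor
  · rintro ⟨h1, h2⟩ i
    have h3 := h1 i
    have h4 := h2 i
    omega
  · intro h1
    refine ⟨fun i => ?_, fun i => ?_⟩
    · have h3 := h1 i
      omega
    · have h3 := h1 i
      omega

theorem inner_bound (hGEO : S_GEO) {r : ℕ} (z : Fin r → ℤ) (n : Fin r → ℕ) (R : Fin r → ℕ)
    (hn : ∀ i, n i ≤ R i) (h : Fin r → ℤ) (w : Fin r → ℤ) (t : ℝ) :
    ‖∑ y ∈ (bxn z n).filter (fun y => y + h ∈ bxn z n), eu (t * (y ⬝ᵥ w : ℤ))‖ ≤
      ∏ i, mn (R i) (t * w i) := by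
  rw [filter_eq]
  have h1 : ∀ y : Fin r → ℤ, eu (t * (y ⬝ᵥ w : ℤ)) = ∏ i, eu (y i * (t * w i)) := by
    intro y
    rw [← eu_sum]
    congr 1
    rw [dotProduct]
    push_cast
    rw [Finset.mul_sum]
    refine Finset.sum_congr rfl fun i _ => ?_
    ring
  simp only [h1]
  rw [← Finset.prod_univ_sum
    (fun i => Finset.Ico (max (z i) (z i - h i)) (min (z i + n i) (z i + n i - h i)))
    (fun i k => eu (k * (t * w i)))]
  rw [norm_prod]
  refine Finset.prod_le_prod (fun i _ => norm_nonneg _) fun i _ => ?_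
  refine hGEO (R i) _ _ _ ?_
  have h2 : z i ≤ max (z i) (z i - h i) := le_max_left _ _
  have h3 : min (z i + n i) (z i + n i - h i) ≤ z i + n i := min_le_left _ _
  have h4 : ((n i : ℕ) : ℤ) ≤ R i := by exact_mod_cast hn i
  linarith

theorem diff_sum (hGEO : S_GEO) {r : ℕ} (A : Matrix (Fin r) (Fin r) ℤ) (R : Fin r → ℕ)
    (z : Fin r → ℤ) (n : Fin r → ℕ) (t : ℝ) (φ ψ : (Fin r → ℤ) → ℝ) (hn : ∀ i, n i ≤ R i)
    (hφ : ∀ x h, φ (x + h) = φ x + ψ h + t * ((x ⬝ᵥ (A *ᵥ h) : ℤ) : ℝ)) :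
    ‖∑ x ∈ bxn z n, eu (φ x)‖ ^ 2 ≤
      ∑ h ∈ Fintype.piFinset (fun i : Fin r => Finset.Icc (-(R i : ℤ)) (R i)),
        ∏ i, mn (R i) (t * ((A *ᵥ h) i : ℤ)) := by
  have h1 : ‖∑ x ∈ bxn z n, eu (φ x)‖ ^ 2 =
      ‖(∑ x ∈ bxn z n, eu (φ x)) * conj (∑ x ∈ bxn z n, eu (φ x))‖ := by
    rw [norm_mul, RCLike.norm_conj, sq]
  have h2 : (∑ x ∈ bxn z n, eu (φ x)) * conj (∑ x ∈ bxn z n, eu (φ x)) =
      ∑ h ∈ Fintype.piFinset (fun i : Fin r => Finset.Icc (-(R i : ℤ)) (R i)),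
        eu (ψ h) * ∑ y ∈ (bxn z n).filter (fun y => y + h ∈ bxn z n),
          eu (t * (y ⬝ᵥ (A *ᵥ h) : ℤ)) := by
    rw [map_sum, Finset.sum_mul_sum, Finset.sum_comm]
    have h3 : ∀ y ∈ bxn z n, ∑ x ∈ bxn z n, eu (φ x) * conj (eu (φ y)) =
        ∑ h ∈ (Fintype.piFinset (fun i : Fin r => Finset.Icc (-(R i : ℤ)) (R i))).filter
          (fun h => y + h ∈ bxn z n), eu (ψ h) * eu (t * (y ⬝ᵥ (A *ᵥ h) : ℤ)) := by
      intro y hy
      refine Finset.sum_nbij' (fun x => x - y) (fun h => y + h) ?_ ?_ ?_ ?_ ?_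
      · intro x hx
        rw [Finset.mem_filter, Fintype.mem_piFinset]
        refine ⟨fun i => ?_, ?_⟩
        · rw [bxn, Fintype.mem_piFinset] at hx hy
          have h4 := Finset.mem_Ico.1 (hx i)
          have h5 := Finset.mem_Ico.1 (hy i)
          have h6 : ((n i : ℕ) : ℤ) ≤ R i := by exact_mod_cast hn i
          rw [Finset.mem_Icc, Pi.sub_apply]
          omega
        · simpa using hx
      · intro h hh
        exact (Finset.mem_filter.1 hh).2
      · intro x _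
        simp
      · intro h _
        simp
      · intro x _
        have h6 : φ x = φ y + ψ (x - y) + t * ((y ⬝ᵥ (A *ᵥ (x - y)) : ℤ) : ℝ) := by
          rw [← hφ, add_sub_cancel]
        rw [eu_conj, ← eu_add, ← eu_add, h6]
        congr 1
        ring
    rw [Finset.sum_congr rfl h3]
    simp only [Finset.sum_filter]
    rw [Finset.sum_comm]
    refine Finset.sum_congr rfl fun h _ => ?_
    rw [Finset.mul_sum]
    refine Finset.sum_congr rfl fun y _ => ?_
    rw [mul_ite, mul_zero]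
  rw [h1, h2]
  refine (norm_sum_le _ _).trans (Finset.sum_le_sum fun h _ => ?_)
  rw [norm_mul, norm_eu, one_mul]
  exact inner_bound hGEO z n R hn h (A *ᵥ h) t

end WEYY

open WEYY

theorem t_WEYY : M_WEYY := by
  intro hGEO hANI r G hG
  obtain ⟨c, hc, h⟩ := hANI r G hG
  refine ⟨c, hc, fun R z n t φ ψ hR hn hφ => ?_⟩
  refine (diff_sum hGEO G R z n t φ ψ hn hφ).trans ?_
  have h1 := h R t (fun _ => 0) hR
  simpa only [zero_add] using h1

end

end STZ
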