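import Pool.Agent.STZ.StmtsX

/-!
# Module WWF: facts about `WW`
-/

set_option autoImplicit false

namespace STZ

open MeasureTheory Matrix

open scoped ComplexConjugate Matrix Real

noncomputable section

namespace WWF

lemma nd_eq_norm : nd = fun θ : ℝ => ‖(θ : UnitAddCircle)‖ := by
  funext θ
  rw [UnitAddCircle.norm_eq]
  rfl

lemma nd_continuous : Continuous nd := by
  rw [nd_eq_norm]
  exact continuous_norm.comp (AddCircle.continuous_mk' 1)

lemma nd_nonneg (θ : ℝ) : 0 ≤ nd θ := abs_nonneg _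

lemma nd_neg (θ : ℝ) : nd (-θ) = nd θ := by
  rw [nd_eq_norm]
  show ‖((-θ : ℝ) : UnitAddCircle)‖ = ‖(θ : UnitAddCircle)‖
  rw [AddCircle.coe_neg, norm_neg]

lemma nd_add_int (θ : ℝ) (n : ℤ) : nd (θ + n) = nd θ := by
  unfold nd
  rw [round_add_intCast]
  congr 1
  push_cast
  ring

lemma nd_zero : nd 0 = 0 := by
  unfold nd
  simp

lemma mx_pos (a : ℝ) : 0 < max 1 a := lt_of_lt_of_le one_pos (le_max_left _ _)

lemma mn_nonneg (R : ℕ) (θ : ℝ) : 0 ≤ mn R θ :=
  div_nonneg (Nat.cast_nonneg R) (mx_pos _).le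

lemma mn_continuous (R : ℕ) : Continuous (mn R) := by
  unfold mn
  refine continuous_const.div (continuous_const.max (continuous_const.mul nd_continuous)) ?_
  intro θ
  exact (mx_pos _).ne'

lemma mn_neg (R : ℕ) (θ : ℝ) : mn R (-θ) = mn R θ := by
  unfold mn
  rw [nd_neg]

lemma mn_add_int (R : ℕ) (θ : ℝ) (n : ℤ) : mn R (θ + n) = mn R θ := by
  unfold mn
  rw [nd_add_int]

lemma mn_zero (R : ℕ) : mn R 0 = R := by
  unfold mn
  rw [nd_zero, mul_zero, max_eq_left zero_le_one, div_one]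

lemma mn_mono (R R' : ℕ) (θ : ℝ) (h : R ≤ R') : mn R θ ≤ mn R' θ := by
  unfold mn
  have hR : (0 : ℝ) ≤ R := Nat.cast_nonneg _
  have hR' : (0 : ℝ) ≤ R' := Nat.cast_nonneg _
  have h' : (R : ℝ) ≤ R' := by exact_mod_cast h
  have hd := nd_nonneg θ
  rw [div_le_div_iff₀ (mx_pos _) (mx_pos _)]
  rcases le_total 1 (2 * (R' : ℝ) * nd θ) with h1 | h1
  · rw [max_eq_right h1]
    calc (R : ℝ) * (2 * R' * nd θ) = R' * (2 * R * nd θ) := by ring
      _ ≤ R' * max 1 (2 * R * nd θ) := mul_le_mul_of_nonneg_left (le_max_right _ _) hR'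
  · rw [max_eq_left h1, mul_one]
    calc (R : ℝ) ≤ R' * 1 := by rw [mul_one]; exact h'
      _ ≤ R' * max 1 (2 * R * nd θ) := mul_le_mul_of_nonneg_left (le_max_left _ _) hR'

lemma mn_scale (k R : ℕ) (θ : ℝ) (hk : 1 ≤ k) : mn (k * R) θ ≤ k * mn R θ := by
  unfold mn
  have hk' : (1 : ℝ) ≤ k := by exact_mod_cast hk
  have hR : (0 : ℝ) ≤ R := Nat.cast_nonneg _
  have hd := nd_nonneg θ
  rw [Nat.cast_mul, ← mul_div_assoc]
  refine div_le_div_of_nonneg_left (by positivity) (mx_pos _) ?_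
  refine max_le_max le_rfl ?_
  have h1 : 0 ≤ (R : ℝ) * nd θ := mul_nonneg hR hd
  nlinarith

lemma WW_nonneg (R c : ℕ) (t : ℝ) : 0 ≤ WW R c t :=
  Finset.sum_nonneg fun _ _ => mn_nonneg R _

lemma WW_continuous (R c : ℕ) : Continuous (WW R c) := by
  unfold WW
  refine continuous_finsetSum _ fun x _ => ?_
  exact (mn_continuous R).comp (continuous_id.mul continuous_const)

/-- the model integral -/
lemma int_model (R : ℕ) (hR : 1 ≤ R) :
    ∫ θ in (0 : ℝ)..1, (R : ℝ) / max 1 (2 * R * θ) ≤ 1 / 2 + (1 / 2) * Real.log (2 * R) := by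
  have hR' : (1 : ℝ) ≤ R := by exact_mod_cast hR
  have hc : Continuous fun θ : ℝ => (R : ℝ) / max 1 (2 * R * θ) := by
    refine continuous_const.div (continuous_const.max (by fun_prop)) ?_
    intro θ
    exact (mx_pos _).ne'
  have hε : (0 : ℝ) < 1 / (2 * R) := by positivity
  have hε1 : 1 / (2 * (R : ℝ)) ≤ 1 := by
    rw [div_le_one (by positivity)]
    linarith
  rw [← intervalIntegral.integral_add_adjacent_intervals (b := 1 / (2 * (R : ℝ)))
    (hc.intervalIntegrable _ _) (hc.intervalIntegrable _ _)]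
  have h1 : ∫ θ in (0 : ℝ)..(1 / (2 * R)), (R : ℝ) / max 1 (2 * R * θ) ≤ 1 / 2 := by
    calc ∫ θ in (0 : ℝ)..(1 / (2 * R)), (R : ℝ) / max 1 (2 * R * θ)
        ≤ ∫ _ in (0 : ℝ)..(1 / (2 * R)), (R : ℝ) := by
          refine intervalIntegral.integral_mono_on hε.le (hc.intervalIntegrable _ _)
            (continuous_const.intervalIntegrable _ _) ?_
          intro θ _
          exact div_le_self (by positivity) (le_max_left _ _)
      _ = 1 / 2 := by
          rw [intervalIntegral.integral_const, smul_eq_mul, sub_zero]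
          field_simp
  have h2 : ∫ θ in (1 / (2 * R : ℝ))..1, (R : ℝ) / max 1 (2 * R * θ) ≤
      (1 / 2) * Real.log (2 * R) := by
    calc ∫ θ in (1 / (2 * R : ℝ))..1, (R : ℝ) / max 1 (2 * R * θ)
        ≤ ∫ θ in (1 / (2 * R : ℝ))..1, (1 / 2) * θ⁻¹ := by
          refine intervalIntegral.integral_mono_on hε1 (hc.intervalIntegrable _ _) ?_ ?_
          · refine ContinuousOn.intervalIntegrable ?_
            rw [Set.uIcc_of_le hε1]
            refine continuousOn_const.mul (ContinuousOn.inv₀ continuousOn_id ?_)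
            intro θ hθ
            exact (lt_of_lt_of_le hε hθ.1).ne'
          · intro θ hθ
            have hθ0 : 0 < θ := lt_of_lt_of_le hε hθ.1
            calc (R : ℝ) / max 1 (2 * R * θ) ≤ R / (2 * R * θ) :=
                  div_le_div_of_nonneg_left (by positivity) (by positivity) (le_max_right _ _)
              _ = (1 / 2) * θ⁻¹ := by
                  field_simp
      _ = (1 / 2) * Real.log (2 * R) := by
          rw [intervalIntegral.integral_const_mul, integral_inv_of_pos hε one_pos, one_div_one_div]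
  linarith

lemma mn_le_model (R : ℕ) (θ : ℝ) (h0 : 0 ≤ θ) (h1 : θ ≤ 1) :
    mn R θ ≤ (R : ℝ) / max 1 (2 * R * θ) + (R : ℝ) / max 1 (2 * R * (1 - θ)) := by
  have hR : (0 : ℝ) ≤ R := Nat.cast_nonneg _
  have hA : 0 ≤ (R : ℝ) / max 1 (2 * R * θ) := div_nonneg hR (mx_pos _).le
  have hB : 0 ≤ (R : ℝ) / max 1 (2 * R * (1 - θ)) := div_nonneg hR (mx_pos _).le
  have hnd : θ ≤ nd θ ∨ 1 - θ ≤ nd θ := by
    unfold nd
    rcases le_or_gt (round θ) 0 with h | h
    · left
      have h' : ((round θ : ℤ) : ℝ) ≤ 0 := by exact_mod_cast h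
      refine le_trans ?_ (le_abs_self _)
      linarith
    · right
      have h' : (1 : ℝ) ≤ ((round θ : ℤ) : ℝ) := by exact_mod_cast h
      refine le_trans ?_ (neg_le_abs _)
      linarith
  unfold mn
  rcases hnd with h | h
  · have : (R : ℝ) / max 1 (2 * R * nd θ) ≤ (R : ℝ) / max 1 (2 * R * θ) := by
      refine div_le_div_of_nonneg_left hR (mx_pos _) (max_le_max le_rfl ?_)
      exact mul_le_mul_of_nonneg_left h (by positivity)
    linarith
  · have : (R : ℝ) / max 1 (2 * R * nd θ) ≤ (R : ℝ) / max 1 (2 * R * (1 - θ)) := by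
      refine div_le_div_of_nonneg_left hR (mx_pos _) (max_le_max le_rfl ?_)
      exact mul_le_mul_of_nonneg_left h (by positivity)
    linarith

/-- the integral of `mn` -/
lemma int_mn (R : ℕ) (hR : 1 ≤ R) : ∫ θ in (0 : ℝ)..1, mn R θ ≤ 2 * (1 + Real.log R) := by
  have hR' : (1 : ℝ) ≤ R := by exact_mod_cast hR
  have hc : Continuous fun θ : ℝ => (R : ℝ) / max 1 (2 * R * θ) := by
    refine continuous_const.div (continuous_const.max (by fun_prop)) ?_
    intro θ
    exact (mx_pos _).ne'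
  have hc2 : Continuous fun θ : ℝ => (R : ℝ) / max 1 (2 * R * (1 - θ)) := by
    refine continuous_const.div (continuous_const.max (by fun_prop)) ?_
    intro θ
    exact (mx_pos _).ne'
  have h1 : ∫ θ in (0 : ℝ)..1, mn R θ ≤
      ∫ θ in (0 : ℝ)..1, ((R : ℝ) / max 1 (2 * R * θ) + (R : ℝ) / max 1 (2 * R * (1 - θ))) := by
    refine intervalIntegral.integral_mono_on zero_le_one ((mn_continuous R).intervalIntegrable _ _)
      ((hc.add hc2).intervalIntegrable _ _) ?_
    intro θ hθ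
    exact mn_le_model R θ hθ.1 hθ.2
  rw [intervalIntegral.integral_add (hc.intervalIntegrable _ _) (hc2.intervalIntegrable _ _)] at h1
  have h2 : ∫ θ in (0 : ℝ)..1, (R : ℝ) / max 1 (2 * R * (1 - θ)) =
      ∫ θ in (0 : ℝ)..1, (R : ℝ) / max 1 (2 * R * θ) := by
    have := intervalIntegral.integral_comp_sub_left (a := 0) (b := 1)
      (fun θ : ℝ => (R : ℝ) / max 1 (2 * R * θ)) 1
    rw [sub_self, sub_zero] at this
    exact this
  rw [h2] at h1
  have h3 := int_model R hR
  have h4 : Real.log (2 * R) = Real.log 2 + Real.log R :=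
    Real.log_mul two_ne_zero (by positivity)
  have h5 : Real.log 2 ≤ 1 := by
    have := Real.log_two_lt_d9
    linarith
  have h6 : 0 ≤ Real.log R := Real.log_nonneg hR'
  rw [h4] at h3
  linarith

lemma int_mn_nat (R n : ℕ) (hn : 1 ≤ n) :
    ∫ t in (0 : ℝ)..1, mn R (t * n) = ∫ θ in (0 : ℝ)..1, mn R θ := by
  have hn' : (n : ℝ) ≠ 0 := by
    have : (1 : ℝ) ≤ n := by exact_mod_cast hn
    positivity
  rw [intervalIntegral.integral_comp_mul_right (fun θ : ℝ => mn R θ) hn', zero_mul, one_mul]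
  have hp : Function.Periodic (mn R) 1 := by
    intro θ
    have := mn_add_int R θ 1
    rw [Int.cast_one] at this
    exact this
  have h := hp.intervalIntegral_add_zsmul_eq (n : ℤ) 0
    (fun t₁ t₂ => (mn_continuous R).intervalIntegrable _ _)
  simp only [zero_add, zsmul_eq_mul, mul_one, Int.cast_natCast] at h
  rw [h, smul_eq_mul, ← mul_assoc, inv_mul_cancel₀ hn', one_mul]

lemma int_mn_int (R : ℕ) (x : ℤ) (hx : x ≠ 0) :
    ∫ t in (0 : ℝ)..1, mn R (t * x) = ∫ θ in (0 : ℝ)..1, mn R θ := by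
  rcases lt_or_gt_of_ne hx with h | h
  · obtain ⟨n, hn⟩ := Int.eq_ofNat_of_zero_le (show 0 ≤ -x by omega)
    have hx' : x = -(n : ℤ) := by omega
    have hn1 : 1 ≤ n := by omega
    rw [← int_mn_nat R n hn1]
    refine intervalIntegral.integral_congr fun t _ => ?_
    show mn R (t * x) = mn R (t * n)
    rw [hx']
    push_cast
    rw [mul_neg, mn_neg]
  · obtain ⟨n, hn⟩ := Int.eq_ofNat_of_zero_le (show 0 ≤ x by omega)
    have hn1 : 1 ≤ n := by omega
    rw [← int_mn_nat R n hn1, hn]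
    rfl

lemma int_WW (R c : ℕ) (hR : 1 ≤ R) :
    ∫ t in (0 : ℝ)..1, WW R c t ≤ (1 + 4 * c) * (R * (1 + Real.log R)) := by
  have hR' : (1 : ℝ) ≤ R := by exact_mod_cast hR
  have hlog : 0 ≤ Real.log R := Real.log_nonneg hR'
  unfold WW
  have hi : ∀ x ∈ Finset.Icc (-((c * R : ℕ) : ℤ)) ((c * R : ℕ) : ℤ),
      IntervalIntegrable (fun t : ℝ => mn R (t * (x : ℝ))) volume 0 1 := fun x _ =>
    ((mn_continuous R).comp (continuous_id.mul continuous_const)).intervalIntegrable _ _
  rw [intervalIntegral.integral_finsetSum hi]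
  have h0 : (0 : ℤ) ∈ Finset.Icc (-((c * R : ℕ) : ℤ)) ((c * R : ℕ) : ℤ) := by
    rw [Finset.mem_Icc]
    constructor <;> omega
  rw [← Finset.add_sum_erase _ _ h0]
  have h1 : ∫ t in (0 : ℝ)..1, mn R (t * ((0 : ℤ) : ℝ)) = R := by
    simp only [Int.cast_zero, mul_zero, mn_zero]
    rw [intervalIntegral.integral_const]
    simp
  rw [h1]
  have h2 : ∀ x ∈ (Finset.Icc (-((c * R : ℕ) : ℤ)) ((c * R : ℕ) : ℤ)).erase 0,
      ∫ t in (0 : ℝ)..1, mn R (t * (x : ℝ)) ≤ 2 * (1 + Real.log R) := by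
    intro x hx
    rw [int_mn_int R x (Finset.ne_of_mem_erase hx)]
    exact int_mn R hR
  have h3 := Finset.sum_le_card_nsmul _ _ _ h2
  have h4 : ((Finset.Icc (-((c * R : ℕ) : ℤ)) ((c * R : ℕ) : ℤ)).erase 0).card = 2 * (c * R) := by
    rw [Finset.card_erase_of_mem h0, Int.card_Icc]
    omega
  rw [h4, nsmul_eq_mul] at h3
  push_cast at h3 ⊢
  have h5 : 0 ≤ (R : ℝ) * Real.log R := by positivity
  nlinarith

end WWF

theorem t_WWF : S_WWF where
  cont := WWF.WW_continuous
  per R c t := by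
    unfold WW
    refine Finset.sum_congr rfl fun x _ => ?_
    rw [add_mul, one_mul, WWF.mn_add_int]
  even R c t := by
    unfold WW
    refine Finset.sum_congr rfl fun x _ => ?_
    rw [neg_mul, WWF.mn_neg]
  ge R c t := by
    have h0 : (0 : ℤ) ∈ Finset.Icc (-((c * R : ℕ) : ℤ)) ((c * R : ℕ) : ℤ) := by
      rw [Finset.mem_Icc]
      constructor <;> omega
    have h1 := Finset.single_le_sum (f := fun x : ℤ => mn R (t * x))
      (fun x _ => WWF.mn_nonneg R _) h0
    simp only [Int.cast_zero, mul_zero, WWF.mn_zero] at h1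
    exact h1
  mono R R' c c' t hR hc := by
    unfold WW
    refine (Finset.sum_le_sum fun x _ => WWF.mn_mono R R' _ hR).trans ?_
    refine Finset.sum_le_sum_of_subset_of_nonneg ?_ fun x _ _ => WWF.mn_nonneg R' _
    have h1 : c * R ≤ c' * R' := Nat.mul_le_mul hc hR
    refine Finset.Icc_subset_Icc ?_ ?_ <;> omega
  scale k R c t hk := by
    unfold WW
    rw [Finset.mul_sum, show c * (k * R) = k * c * R by ring]
    exact Finset.sum_le_sum fun x _ => WWF.mn_scale k R _ hk
  int1 c := ⟨1 + 4 * c, fun R hR => WWF.int_WW R c hR⟩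

end

end STZ
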