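import Pool.Agent.STZ.StmtsT

/-!
# STZ, module YOUNG: Young's inequality on the circle
-/

namespace STZ

open MeasureTheory Set

namespace YOUNG

/-- the integral over the unit square -/
noncomputable def dbl (u : ℝ → ℝ → ℝ) : ℝ := ∫ s in (0 : ℝ)..1, ∫ t in (0 : ℝ)..1, u s t

theorem cont_inner {u : ℝ → ℝ → ℝ} (hu : Continuous (Function.uncurry u)) :
    Continuous fun s => ∫ t in (0 : ℝ)..1, u s t :=
  intervalIntegral.continuous_parametric_intervalIntegral_of_continuous' hu 0 1

theorem cont_sec {u : ℝ → ℝ → ℝ} (hu : Continuous (Function.uncurry u)) (s : ℝ) :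
    Continuous (u s) :=
  hu.comp (Continuous.prodMk_right s)

theorem dbl_add {u v : ℝ → ℝ → ℝ} (hu : Continuous (Function.uncurry u))
    (hv : Continuous (Function.uncurry v)) :
    dbl (fun s t => u s t + v s t) = dbl u + dbl v := by
  unfold dbl
  rw [← intervalIntegral.integral_add ((cont_inner hu).intervalIntegrable 0 1)
    ((cont_inner hv).intervalIntegrable 0 1)]
  refine intervalIntegral.integral_congr fun s _ => ?_
  exact intervalIntegral.integral_add ((cont_sec hu s).intervalIntegrable 0 1)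
    ((cont_sec hv s).intervalIntegrable 0 1)

theorem dbl_mul (c : ℝ) (u : ℝ → ℝ → ℝ) : dbl (fun s t => c * u s t) = c * dbl u := by
  unfold dbl
  simp only [intervalIntegral.integral_const_mul]

theorem dbl_mono {u v : ℝ → ℝ → ℝ} (hu : Continuous (Function.uncurry u))
    (hv : Continuous (Function.uncurry v)) (h : ∀ s t, u s t ≤ v s t) : dbl u ≤ dbl v := by
  refine intervalIntegral.integral_mono_on zero_le_one ((cont_inner hu).intervalIntegrable 0 1)
    ((cont_inner hv).intervalIntegrable 0 1) fun s _ => ?_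
  exact intervalIntegral.integral_mono_on zero_le_one ((cont_sec hu s).intervalIntegrable 0 1)
    ((cont_sec hv s).intervalIntegrable 0 1) fun t _ => h s t

theorem dbl_swap {u : ℝ → ℝ → ℝ} (hu : Continuous (Function.uncurry u)) :
    dbl u = dbl fun s t => u t s := by
  unfold dbl
  refine intervalIntegral_intervalIntegral_swap ?_
  refine (hu.continuousOn.integrableOn_compact (isCompact_uIcc.prod isCompact_uIcc)).mono_set
    (Set.prod_mono uIoc_subset_uIcc uIoc_subset_uIcc)

/-- integral of a shifted periodic function -/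
theorem int_shift {G : ℝ → ℝ} (hp : ∀ x, G (x + 1) = G x) (s : ℝ) :
    ∫ t in (0 : ℝ)..1, G (s - t) = ∫ t in (0 : ℝ)..1, G t := by
  rw [intervalIntegral.integral_comp_sub_left (fun x => G x) s]
  have h := Function.Periodic.intervalIntegral_add_eq (f := G) (T := 1) hp (s - 1) 0
  rw [sub_add_cancel, zero_add] at h
  rw [sub_zero]
  exact h

theorem dbl_prod (F G : ℝ → ℝ) :
    dbl (fun s t => F s * G t) = (∫ t in (0 : ℝ)..1, F t) * ∫ t in (0 : ℝ)..1, G t := by
  unfold dbl
  simp only [intervalIntegral.integral_const_mul, intervalIntegral.integral_mul_const]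

theorem dbl_conv {F G : ℝ → ℝ} (hp : ∀ x, G (x + 1) = G x) :
    dbl (fun s t => F s * G (s - t)) = (∫ t in (0 : ℝ)..1, F t) * ∫ t in (0 : ℝ)..1, G t := by
  unfold dbl
  simp only [intervalIntegral.integral_const_mul, int_shift hp, intervalIntegral.integral_mul_const]

/-- the pointwise identity -/
theorem pointwise {q x y z : ℝ} (hq : 2 ≤ q) (hx : 0 ≤ x) (hy : 0 ≤ y) (hz : 0 ≤ z) :
    z * x * y = (x ^ (q / (q - 1)) * y ^ (q / (q - 1))) ^ ((q - 2) / q) *
      (x ^ (q / (q - 1)) * z ^ (q / 2)) ^ (1 / q) *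
      (y ^ (q / (q - 1)) * z ^ (q / 2)) ^ (1 / q) := by
  have hq0 : 0 < q := by linarith
  have hq1 : 0 < q - 1 := by linarith
  have hb : 0 ≤ q / (q - 1) := (div_pos hq0 hq1).le
  have hw0 : 0 ≤ (q - 2) / q := div_nonneg (by linarith) hq0.le
  have hw1 : 0 ≤ 1 / q := by positivity
  have ha : 0 ≤ q / 2 := by positivity
  rw [Real.mul_rpow (Real.rpow_nonneg hx _) (Real.rpow_nonneg hy _),
    Real.mul_rpow (Real.rpow_nonneg hx _) (Real.rpow_nonneg hz _),
    Real.mul_rpow (Real.rpow_nonneg hy _) (Real.rpow_nonneg hz _)]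
  simp only [← Real.rpow_mul hx, ← Real.rpow_mul hy, ← Real.rpow_mul hz]
  have e1 : ∀ w : ℝ, 0 ≤ w → w ^ (q / (q - 1) * ((q - 2) / q)) * w ^ (q / (q - 1) * (1 / q)) = w := by
    intro w hw
    rw [← Real.rpow_add_of_nonneg hw (mul_nonneg hb hw0) (mul_nonneg hb hw1)]
    have : q / (q - 1) * ((q - 2) / q) + q / (q - 1) * (1 / q) = 1 := by
      field_simp
      ring
    rw [this, Real.rpow_one]
  have e2 : z ^ (q / 2 * (1 / q)) * z ^ (q / 2 * (1 / q)) = z := by
    rw [← Real.rpow_add_of_nonneg hz (mul_nonneg ha hw1) (mul_nonneg ha hw1)]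
    have : q / 2 * (1 / q) + q / 2 * (1 / q) = 1 := by
      field_simp
      ring
    rw [this, Real.rpow_one]
  calc z * x * y = (z ^ (q / 2 * (1 / q)) * z ^ (q / 2 * (1 / q))) *
        (x ^ (q / (q - 1) * ((q - 2) / q)) * x ^ (q / (q - 1) * (1 / q))) *
        (y ^ (q / (q - 1) * ((q - 2) / q)) * y ^ (q / (q - 1) * (1 / q))) := by
        rw [e1 x hx, e1 y hy, e2]
    _ = _ := by ring

/-- weighted arithmetic-geometric mean -/
theorem amgm {q A B p r s : ℝ} (hq : 2 ≤ q) (hA : 0 < A) (hB : 0 < B) (hp : 0 ≤ p) (hr : 0 ≤ r)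
    (hs : 0 ≤ s) :
    p ^ ((q - 2) / q) * r ^ (1 / q) * s ^ (1 / q) ≤
      (A ^ (2 / q) * B ^ (2 * (q - 1) / q)) *
        ((q - 2) / q / (B * B) * p + 1 / q / (A * B) * r + 1 / q / (A * B) * s) := by
  have hq0 : 0 < q := by linarith
  have hw0 : 0 ≤ (q - 2) / q := div_nonneg (by linarith) hq0.le
  have hw1 : 0 ≤ 1 / q := by positivity
  have h1 := Real.geom_mean_le_arith_mean3_weighted hw0 hw1 hw1
    (div_nonneg hp (mul_pos hB hB).le) (div_nonneg hr (mul_pos hA hB).le)
    (div_nonneg hs (mul_pos hA hB).le) (by field_simp; ring)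
  rw [Real.div_rpow hp (mul_pos hB hB).le, Real.div_rpow hr (mul_pos hA hB).le,
    Real.div_rpow hs (mul_pos hA hB).le, Real.mul_rpow hB.le hB.le,
    Real.mul_rpow hA.le hB.le] at h1
  have e1 : (B ^ ((q - 2) / q) * B ^ ((q - 2) / q)) * (A ^ (1 / q) * B ^ (1 / q)) *
      (A ^ (1 / q) * B ^ (1 / q)) = A ^ (2 / q) * B ^ (2 * (q - 1) / q) := by
    have e2 : A ^ (1 / q) * A ^ (1 / q) = A ^ (2 / q) := by
      rw [← Real.rpow_add hA]; congr 1; ring
    have e3 : (B ^ ((q - 2) / q) * B ^ ((q - 2) / q)) * (B ^ (1 / q) * B ^ (1 / q)) =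
        B ^ (2 * (q - 1) / q) := by
      rw [← Real.rpow_add hB, ← Real.rpow_add hB, ← Real.rpow_add hB]
      congr 1
      field_simp
      ring
    rw [← e2, ← e3]; ring
  have hB0 : 0 < B ^ ((q - 2) / q) := Real.rpow_pos_of_pos hB _
  have hB1 : 0 < B ^ (1 / q) := Real.rpow_pos_of_pos hB _
  have hA1 : 0 < A ^ (1 / q) := Real.rpow_pos_of_pos hA _
  rw [← e1]
  have h2 := mul_le_mul_of_nonneg_left h1 (a := (B ^ ((q - 2) / q) * B ^ ((q - 2) / q)) *
    (A ^ (1 / q) * B ^ (1 / q)) * (A ^ (1 / q) * B ^ (1 / q))) (by positivity)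
  refine le_trans (le_of_eq ?_) (h2.trans (le_of_eq ?_))
  · field_simp
  · congr 1
    ring

theorem main_eps {q : ℝ} {f k : ℝ → ℝ} (hq : 2 ≤ q) (hf : Continuous f) (hk : Continuous k)
    (hf0 : ∀ x, 0 ≤ f x) (hk0 : ∀ x, 0 ≤ k x) (hp : ∀ x, k (x + 1) = k x) {A B : ℝ}
    (hA : ∫ t in (0 : ℝ)..1, k t ^ (q / 2) ≤ A) (hB : ∫ t in (0 : ℝ)..1, f t ^ (q / (q - 1)) ≤ B)
    (hA0 : 0 < A) (hB0 : 0 < B) :
    ∫ s in (0 : ℝ)..1, ∫ t in (0 : ℝ)..1, k (s - t) * f s * f t ≤
      A ^ (2 / q) * B ^ (2 * (q - 1) / q) := by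
  have hq0 : 0 < q := by linarith
  have hq1 : 0 < q - 1 := by linarith
  have hb : 0 ≤ q / (q - 1) := (div_pos hq0 hq1).le
  have ha : 0 ≤ q / 2 := by positivity
  obtain ⟨F, hF⟩ : ∃ F : ℝ → ℝ, ∀ t, F t = f t ^ (q / (q - 1)) := ⟨_, fun _ => rfl⟩
  obtain ⟨G, hG⟩ : ∃ G : ℝ → ℝ, ∀ t, G t = k t ^ (q / 2) := ⟨_, fun _ => rfl⟩
  have hFc : Continuous F := by
    have : F = fun t => f t ^ (q / (q - 1)) := funext hF
    rw [this]
    exact hf.rpow_const fun _ => Or.inr hb
  have hGc : Continuous G := by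
    have : G = fun t => k t ^ (q / 2) := funext hG
    rw [this]
    exact hk.rpow_const fun _ => Or.inr ha
  have hF0 : ∀ t, 0 ≤ F t := fun t => by rw [hF]; exact Real.rpow_nonneg (hf0 t) _
  have hG0 : ∀ t, 0 ≤ G t := fun t => by rw [hG]; exact Real.rpow_nonneg (hk0 t) _
  have hGp : ∀ t, G (t + 1) = G t := fun t => by rw [hG, hG, hp]
  simp only [← hF] at hB
  simp only [← hG] at hA
  have hIA : 0 ≤ ∫ t in (0 : ℝ)..1, G t :=
    intervalIntegral.integral_nonneg zero_le_one fun t _ => hG0 t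
  have hIB : 0 ≤ ∫ t in (0 : ℝ)..1, F t :=
    intervalIntegral.integral_nonneg zero_le_one fun t _ => hF0 t
  set IA := ∫ t in (0 : ℝ)..1, G t with hIAd
  set IB := ∫ t in (0 : ℝ)..1, F t with hIBd
  have c1 : Continuous (Function.uncurry fun s t : ℝ => F s * F t) := by
    unfold Function.uncurry
    fun_prop
  have c2 : Continuous (Function.uncurry fun s t : ℝ => F s * G (s - t)) := by
    unfold Function.uncurry
    fun_prop
  have c3 : Continuous (Function.uncurry fun s t : ℝ => F t * G (s - t)) := by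
    unfold Function.uncurry
    fun_prop
  have c3' : Continuous (Function.uncurry fun s t : ℝ => F s * G (t - s)) := by
    unfold Function.uncurry
    fun_prop
  have c0 : Continuous (Function.uncurry fun s t : ℝ => k (s - t) * f s * f t) := by
    unfold Function.uncurry
    fun_prop
  have d1 : dbl (fun s t => F s * F t) = IB * IB := dbl_prod F F
  have d2 : dbl (fun s t => F s * G (s - t)) = IB * IA := dbl_conv hGp
  have d3 : dbl (fun s t => F t * G (s - t)) = IB * IA := by
    rw [dbl_swap c3]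
    have hsh : ∀ s : ℝ, ∫ t in (0 : ℝ)..1, G (t - s) = IA := by
      intro s
      rw [intervalIntegral.integral_comp_sub_right (fun x => G x) s]
      have h := Function.Periodic.intervalIntegral_add_eq (f := G) (T := 1) hGp (0 - s) 0
      rw [zero_add, show (0 : ℝ) - s + 1 = 1 - s by ring] at h
      exact h
    unfold dbl
    simp only [intervalIntegral.integral_const_mul, hsh, intervalIntegral.integral_mul_const]
    rfl
  set w0 : ℝ := (q - 2) / q / (B * B) with hw0d
  set w1 : ℝ := 1 / q / (A * B) with hw1d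
  have hsum : dbl (fun s t => w0 * (F s * F t) + w1 * (F s * G (s - t)) +
      w1 * (F t * G (s - t))) = w0 * (IB * IB) + w1 * (IB * IA) + w1 * (IB * IA) := by
    rw [dbl_add (u := fun s t => w0 * (F s * F t) + w1 * (F s * G (s - t)))
      (v := fun s t => w1 * (F t * G (s - t))),
      dbl_add (u := fun s t => w0 * (F s * F t)) (v := fun s t => w1 * (F s * G (s - t))),
      dbl_mul, dbl_mul, dbl_mul, d1, d2, d3]
    · exact continuous_const.mul c1
    · exact continuous_const.mul c2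
    · exact (continuous_const.mul c1).add (continuous_const.mul c2)
    · exact continuous_const.mul c3
  have hle : w0 * (IB * IB) + w1 * (IB * IA) + w1 * (IB * IA) ≤ 1 := by
    have h1 : w0 * (IB * IB) ≤ (q - 2) / q := by
      rw [hw0d, div_mul_eq_mul_div, div_le_iff₀ (mul_pos hB0 hB0)]
      exact mul_le_mul_of_nonneg_left (mul_le_mul hB hB hIB hB0.le)
        (div_nonneg (by linarith) hq0.le)
    have h2 : w1 * (IB * IA) ≤ 1 / q := by
      rw [hw1d, div_mul_eq_mul_div, div_le_iff₀ (mul_pos hA0 hB0)]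
      refine mul_le_mul_of_nonneg_left ?_ (by positivity)
      rw [mul_comm A B]
      exact mul_le_mul hB hA hIA hB0.le
    have h3 : (q - 2) / q + 1 / q + 1 / q = 1 := by
      field_simp
      ring
    linarith
  have hC : 0 ≤ A ^ (2 / q) * B ^ (2 * (q - 1) / q) :=
    mul_nonneg (Real.rpow_nonneg hA0.le _) (Real.rpow_nonneg hB0.le _)
  have hmono : dbl (fun s t => k (s - t) * f s * f t) ≤
      dbl (fun s t => (A ^ (2 / q) * B ^ (2 * (q - 1) / q)) * (w0 * (F s * F t) +
        w1 * (F s * G (s - t)) + w1 * (F t * G (s - t)))) := by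
    refine dbl_mono c0 ?_ fun s t => ?_
    · exact continuous_const.mul (((continuous_const.mul c1).add
        (continuous_const.mul c2)).add (continuous_const.mul c3))
    · rw [pointwise hq (hf0 s) (hf0 t) (hk0 (s - t)), ← hF, ← hF, ← hG]
      exact amgm hq hA0 hB0 (mul_nonneg (hF0 s) (hF0 t)) (mul_nonneg (hF0 s) (hG0 _))
        (mul_nonneg (hF0 t) (hG0 _))
  rw [dbl_mul, hsum] at hmono
  refine hmono.trans ?_
  calc _ ≤ (A ^ (2 / q) * B ^ (2 * (q - 1) / q)) * 1 := mul_le_mul_of_nonneg_left hle hC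
    _ = _ := mul_one _

end YOUNG

theorem t_YOUNG : S_YOUNG := by
  intro q f k hq hf hk hf0 hk0 hp _
  have hq0 : 0 < q := by linarith
  set A := ∫ t in (0 : ℝ)..1, k t ^ (q / 2) with hA
  set B := ∫ t in (0 : ℝ)..1, f t ^ (q / (q - 1)) with hB
  have hA0 : 0 ≤ A :=
    intervalIntegral.integral_nonneg zero_le_one fun t _ => Real.rpow_nonneg (hk0 t) _
  have hB0 : 0 ≤ B :=
    intervalIntegral.integral_nonneg zero_le_one fun t _ => Real.rpow_nonneg (hf0 t) _
  have h1 : Continuous fun ε : ℝ => (A + ε) ^ (2 / q) * (B + ε) ^ (2 * (q - 1) / q) := by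
    refine ((continuous_const.add continuous_id).rpow_const fun _ => Or.inr ?_).mul
      ((continuous_const.add continuous_id).rpow_const fun _ => Or.inr ?_)
    · positivity
    · exact div_nonneg (by linarith) hq0.le
  have h2 : Filter.Tendsto (fun ε : ℝ => (A + ε) ^ (2 / q) * (B + ε) ^ (2 * (q - 1) / q))
      (nhdsWithin 0 (Ioi 0)) (nhds ((A + 0) ^ (2 / q) * (B + 0) ^ (2 * (q - 1) / q))) :=
    (h1.tendsto 0).mono_left nhdsWithin_le_nhds
  rw [add_zero, add_zero] at h2
  refine ge_of_tendsto h2 ?_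
  filter_upwards [self_mem_nhdsWithin] with ε hε
  have hε' : 0 < ε := hε
  exact YOUNG.main_eps hq hf hk hf0 hk0 hp (by linarith) (by linarith) (by linarith)
    (by linarith)

end STZ
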