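import Pool.Agent.STZ.StmtsV
import Pool.Agent.STZ.KSUP

/-!
# Module SUPY: the bound for the pieces of the kernel on the torus
-/

namespace STZ

open MeasureTheory Matrix

open scoped ComplexConjugate Matrix Real

noncomputable section

namespace SUPY

variable {r : ℕ} {D : RD r} {P : RT r} {B : Matrix (Fin r) (Fin r) ℤ} {h : ℕ}

theorem dim_anti (hX : RDX D) {w : Matrix (Fin r) (Fin r) ℤ} (hw : w ∈ D.W) (l : Fin r → ℤ) :
    (D.dim (w *ᵥ l) : ℂ) = (w.det : ℂ) * D.dim l := by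
  rw [← hX.d.dim_eq, ← hX.d.dim_eq, hX.p.anti w hw]

theorem one_pos' (hP : RTD D P B h) {p : (Fin r → ℤ) × (Fin r → ℤ)} (hp : p ∈ P) :
    0 < p.2 ⬝ᵥ (1 : Fin r → ℤ) := by
  obtain ⟨h1, h2⟩ := hP.pos p hp
  obtain ⟨i, hi⟩ := Function.ne_iff.1 h2
  have h3 : p.2 ⬝ᵥ (1 : Fin r → ℤ) = ∑ i, p.2 i := by simp [dotProduct]
  rw [h3]
  refine lt_of_lt_of_le (lt_of_le_of_ne (h1 i) (Ne.symm hi)) ?_
  exact Finset.single_le_sum (f := fun i => p.2 i) (fun i _ => h1 i) (Finset.mem_univ i)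

theorem dim_eq' (hP : RTD D P B h) (l : Fin r → ℤ) :
    (D.dim l : ℂ) = (∏ p ∈ P, ((p.2 ⬝ᵥ (1 : Fin r → ℤ) : ℤ) : ℂ))⁻¹ * ∏ p ∈ P, ((p.2 ⬝ᵥ l : ℤ) : ℂ) := by
  have h1 : (∏ p ∈ P, ((p.2 ⬝ᵥ (1 : Fin r → ℤ) : ℤ) : ℂ)) ≠ 0 := by
    refine Finset.prod_ne_zero_iff.2 fun p hp => ?_
    exact_mod_cast (one_pos' hP hp).ne'
  have h2 : (D.dim l : ℂ) * ∏ p ∈ P, ((p.2 ⬝ᵥ (1 : Fin r → ℤ) : ℤ) : ℂ) = ∏ p ∈ P, ((p.2 ⬝ᵥ l : ℤ) : ℂ) := by
    have := hP.dimP l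
    exact_mod_cast this
  rw [← h2]
  field_simp

/-- the bound for the entries of the elements of `W` -/
def cW (D : RD r) : ℕ := ∑ w ∈ D.W, ∑ i, ∑ j, (w i j).natAbs

theorem sum_le_cW {w : Matrix (Fin r) (Fin r) ℤ} (hw : w ∈ D.W) :
    ∑ i, ∑ j, (w i j).natAbs ≤ cW D :=
  Finset.single_le_sum (f := fun w : Matrix (Fin r) (Fin r) ℤ => ∑ i, ∑ j, (w i j).natAbs)
    (fun _ _ => Nat.zero_le _) hw

theorem row_le {w : Matrix (Fin r) (Fin r) ℤ} (hw : w ∈ D.W) (i : Fin r) :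
    ∑ j, (w i j).natAbs ≤ cW D :=
  (Finset.single_le_sum (f := fun i => ∑ j, (w i j).natAbs) (fun _ _ => Nat.zero_le _)
    (Finset.mem_univ i)).trans (sum_le_cW hw)

theorem col_le {w : Matrix (Fin r) (Fin r) ℤ} (hw : w ∈ D.W) (j : Fin r) :
    ∑ i, (w i j).natAbs ≤ cW D := by
  refine le_trans ?_ (sum_le_cW hw)
  exact Finset.sum_le_sum fun i _ => Finset.single_le_sum (f := fun j => (w i j).natAbs)
    (fun _ _ => Nat.zero_le _) (Finset.mem_univ j)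

theorem abs_mulVec_le {w : Matrix (Fin r) (Fin r) ℤ} (hw : w ∈ D.W) {ν : Fin r → ℤ} {M : ℤ}
    (hM : 0 ≤ M) (hν : ∀ j, |ν j| ≤ M) (i : Fin r) : |(w *ᵥ ν) i| ≤ cW D * M := by
  have h1 : |(w *ᵥ ν) i| ≤ ∑ j, |w i j * ν j| := by
    rw [Matrix.mulVec, dotProduct]
    exact Finset.abs_sum_le_sum_abs _ _
  refine h1.trans ?_
  calc ∑ j, |w i j * ν j| ≤ ∑ j, ((w i j).natAbs : ℤ) * M := by
        refine Finset.sum_le_sum fun j _ => ?_
        rw [abs_mul, Int.natCast_natAbs]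
        exact mul_le_mul_of_nonneg_left (hν j) (abs_nonneg _)
    _ = ((∑ j, (w i j).natAbs : ℕ) : ℤ) * M := by
        push_cast
        rw [Finset.sum_mul]
    _ ≤ cW D * M := by
        refine mul_le_mul_of_nonneg_right ?_ hM
        exact_mod_cast row_le hw i

theorem mem_cb {K : ℕ} {ν : Fin r → ℤ} : ν ∈ cb r K ↔ ∀ i, |ν i| ≤ K := by
  rw [cb, Fintype.mem_piFinset]
  refine forall_congr' fun i => ?_
  rw [Finset.mem_Icc, abs_le]

/-- the permutation of `ℤ^r` given by an element of `W` -/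
def ew (w w' : Matrix (Fin r) (Fin r) ℤ) (h1 : w' * w = 1) (h2 : w * w' = 1) :
    (Fin r → ℤ) ≃ (Fin r → ℤ) where
  toFun ν := w *ᵥ ν
  invFun ν := w' *ᵥ ν
  left_inv ν := by
    show w' *ᵥ (w *ᵥ ν) = ν
    rw [Matrix.mulVec_mulVec, h1, Matrix.one_mulVec]
  right_inv ν := by
    show w *ᵥ (w' *ᵥ ν) = ν
    rw [Matrix.mulVec_mulVec, h2, Matrix.one_mulVec]

/-- the transposed action -/
def tr' (w : Matrix (Fin r) (Fin r) ℤ) (ζ : Fin r → ℂ) : Fin r → ℂ := fun j => ∑ i, (w i j : ℂ) * ζ i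

theorem pair_tr (w : Matrix (Fin r) (Fin r) ℤ) (ν : Fin r → ℤ) (ζ : Fin r → ℂ) :
    ∑ i, ((w *ᵥ ν) i : ℂ) * ζ i = ∑ j, (ν j : ℂ) * tr' w ζ j := by
  unfold tr'
  simp_rw [Finset.mul_sum]
  rw [Finset.sum_comm]
  refine Finset.sum_congr rfl fun i _ => ?_
  have h1 : ((w *ᵥ ν) i : ℂ) = ∑ j, (w i j : ℂ) * (ν j : ℂ) := by
    rw [Matrix.mulVec, dotProduct]
    push_cast
    rfl
  rw [h1, Finset.sum_mul]
  refine Finset.sum_congr rfl fun j _ => ?_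
  ring

theorem tr_real (w : Matrix (Fin r) (Fin r) ℤ) (p : Fin r → ℤ) (θ : Fin r → ℝ) :
    dz p (fun j => ∑ i, (w i j : ℝ) * θ i) = dz (w *ᵥ p) θ := by
  unfold dz
  simp_rw [Finset.mul_sum]
  rw [Finset.sum_comm]
  refine Finset.sum_congr rfl fun i _ => ?_
  have h1 : ((w *ᵥ p) i : ℝ) = ∑ j, (w i j : ℝ) * (p j : ℝ) := by
    rw [Matrix.mulVec, dotProduct]
    push_cast
    rfl
  rw [h1, Finset.sum_mul]
  refine Finset.sum_congr rfl fun j _ => ?_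
  ring

/-- substitution in the exponential sum -/
theorem ES_sub (hX : RDX D) (hP : RTD D P B h) {w w' : Matrix (Fin r) (Fin r) ℤ} (hw' : w' ∈ D.W)
    (h1 : w' * w = 1) (h2 : w * w' = 1) {K C : ℕ} (hCK : C ≤ K) (hCK' : cW D * C ≤ K)
    {n : (Fin r → ℤ) → ℂ} (hn : ∀ ν i, (C : ℤ) < |ν i| → n ν = 0) (ζ : Fin r → ℂ) :
    ES (cb r K) (fun ν => (D.dim ν : ℂ) * n (w *ᵥ ν)) ζ =
      (w'.det : ℂ) * (∏ p ∈ P, ((p.2 ⬝ᵥ (1 : Fin r → ℤ) : ℤ) : ℂ))⁻¹ *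
        ES (cb r K) (fun ν => (∏ p ∈ P, ((p.2 ⬝ᵥ ν : ℤ) : ℂ)) * n ν) (tr' w' ζ) := by
  have hn' : ∀ ν, n ν ≠ 0 → ∀ i, |ν i| ≤ C := by
    intro ν hν i
    by_contra hcon
    exact hν (hn ν i (not_le.1 hcon))
  let f : (Fin r → ℤ) → ℂ := fun ν => (D.dim (w' *ᵥ ν) : ℂ) * n ν *
    Complex.exp (2 * π * Complex.I * ∑ i, ((w' *ᵥ ν) i : ℂ) * ζ i)
  have hf : Function.support f ⊆ cb r K := by
    intro ν hν
    rw [Function.mem_support] at hν
    have h3 : n ν ≠ 0 := by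
      intro h3
      apply hν
      simp only [f]
      rw [h3, mul_zero, zero_mul]
    rw [Finset.mem_coe, mem_cb]
    intro i
    exact (hn' ν h3 i).trans (by exact_mod_cast hCK)
  have hfe : ∀ ν, f (ew w w' h1 h2 ν) = (D.dim ν : ℂ) * n (w *ᵥ ν) *
      Complex.exp (2 * π * Complex.I * ∑ i, (ν i : ℂ) * ζ i) := by
    intro ν
    have h3 : w' *ᵥ (w *ᵥ ν) = ν := by rw [Matrix.mulVec_mulVec, h1, Matrix.one_mulVec]
    show (D.dim (w' *ᵥ (w *ᵥ ν)) : ℂ) * n (w *ᵥ ν) *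
      Complex.exp (2 * π * Complex.I * ∑ i, ((w' *ᵥ (w *ᵥ ν)) i : ℂ) * ζ i) = _
    rw [h3]
  have hs : Function.support (fun ν => (D.dim ν : ℂ) * n (w *ᵥ ν) *
      Complex.exp (2 * π * Complex.I * ∑ i, (ν i : ℂ) * ζ i)) ⊆ cb r K := by
    intro ν hν
    rw [Function.mem_support] at hν
    have h3 : n (w *ᵥ ν) ≠ 0 := by
      intro h3
      apply hν
      rw [h3, mul_zero, zero_mul]
    rw [Finset.mem_coe, mem_cb]
    intro i
    have h4 := abs_mulVec_le hw' (Int.natCast_nonneg C) (hn' _ h3) i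
    rw [Matrix.mulVec_mulVec, h1, Matrix.one_mulVec] at h4
    exact h4.trans (by exact_mod_cast hCK')
  have e1 : ES (cb r K) (fun ν => (D.dim ν : ℂ) * n (w *ᵥ ν)) ζ = ∑ ν ∈ cb r K, f ν := by
    unfold ES
    rw [← finsum_eq_sum_of_support_subset _ hs, ← finsum_eq_sum_of_support_subset _ hf,
      ← finsum_comp_equiv (ew w w' h1 h2) (f := f)]
    exact finsum_congr fun ν => (hfe ν).symm
  rw [e1]
  unfold ES
  rw [Finset.mul_sum]
  refine Finset.sum_congr rfl fun ν _ => ?_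
  simp only [f]
  rw [dim_anti hX hw', dim_eq' hP, pair_tr]
  ring

theorem ES_nm (J K : ℕ) (x : {p // p ∈ P} → Fin (J + 1)) (t : ℝ) (ζ : Fin r → ℂ) :
    ES (cb r K) (fun ν => (D.dim ν : ℂ) * nm D P J x t ν) ζ = (1 / (D.W.card : ℂ)) *
      ∑ w ∈ D.W, ES (cb r K) (fun ν => (D.dim ν : ℂ) * nk D P J x t (w *ᵥ ν)) ζ := by
  unfold ES nm
  rw [Finset.sum_comm, Finset.mul_sum]
  refine Finset.sum_congr rfl fun ν _ => ?_
  beta_reduce
  generalize Complex.exp (2 * π * Complex.I * ∑ i, (ν i : ℂ) * ζ i) = e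
  rw [Finset.mul_sum, Finset.mul_sum, Finset.sum_mul, Finset.mul_sum]
  refine Finset.sum_congr rfl fun w _ => ?_
  ring

/-- products over the roots are invariant -/
theorem prod_perm (hX : RDX D) (hP : RTD D P B h) (hE : RTE D P) {w : Matrix (Fin r) (Fin r) ℤ}
    (hw : w ∈ D.W) (θ : Fin r → ℝ) (g : ℝ → ℝ) :
    ∏ p : {p // p ∈ P}, g (nd (dz (w *ᵥ p.1.1) θ)) = ∏ p ∈ P, g (nd (dz p.1 θ)) := by
  classical
  have h1 : ∀ p : {p // p ∈ P}, ∃ q : {p // p ∈ P}, w *ᵥ p.1.1 = q.1.1 ∨ w *ᵥ p.1.1 = -q.1.1 := by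
    intro p
    obtain ⟨q, hq, hpq⟩ := hE.perm w hw p.1 p.2
    exact ⟨⟨q, hq⟩, hpq⟩
  choose σ hσ using h1
  obtain ⟨w', -, hw'⟩ := hX.w.W_inv w hw
  have hinv : ∀ κ κ' : Fin r → ℤ, w *ᵥ κ = w *ᵥ κ' → κ = κ' := by
    intro κ κ' hk
    have := congrArg (fun v => w' *ᵥ v) hk
    simp only [Matrix.mulVec_mulVec, hw', Matrix.one_mulVec] at this
    exact this
  have hinj : Function.Injective σ := by
    intro p q hpq
    by_contra hne
    have hne' : p.1 ≠ q.1 := fun h => hne (Subtype.ext h)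
    have h2 : w *ᵥ p.1.1 = w *ᵥ q.1.1 ∨ w *ᵥ p.1.1 = w *ᵥ (-q.1.1) := by
      rw [Matrix.mulVec_neg]
      rcases hσ p with h3 | h3 <;> rcases hσ q with h4 | h4
      · exact Or.inl (by rw [h3, h4, hpq])
      · exact Or.inr (by rw [h3, h4, hpq, neg_neg])
      · exact Or.inr (by rw [h3, h4, hpq])
      · exact Or.inl (by rw [h3, h4, hpq])
    rcases h2 with h2 | h2
    · have h3 := hP.np1 p.1 p.2 q.1 q.2 hne' 1 1 (by rw [hinv _ _ h2])
      exact one_ne_zero h3.1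
    · have h3 := hP.np1 p.1 p.2 q.1 q.2 hne' 1 (-1) (by rw [hinv _ _ h2, one_smul, neg_smul, one_smul])
      exact one_ne_zero h3.1
  have hbij : Function.Bijective σ := Finite.injective_iff_bijective.1 hinj
  have h5 : ∀ p : {p // p ∈ P}, nd (dz (w *ᵥ p.1.1) θ) = nd (dz (σ p).1.1 θ) := by
    intro p
    rcases hσ p with h3 | h3
    · rw [h3]
    · rw [h3]
      have h6 : dz (-(σ p).1.1) θ = -dz (σ p).1.1 θ := by
        simp only [dz, Pi.neg_apply, Int.cast_neg, neg_mul]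
        rw [Finset.sum_neg_distrib]
      rw [h6, KSUP.nd_neg]
  simp_rw [h5]
  rw [hbij.prod_comp (fun p : {p // p ∈ P} => g (nd (dz p.1.1 θ)))]
  exact Finset.prod_coe_sort P fun p => g (nd (dz p.1 θ))

theorem mx_nonneg (J x : ℕ) {y : ℝ} (hy : 0 ≤ y) : 0 ≤ mx J x y := by
  unfold mx
  positivity

theorem factor (J x : ℕ) {y : ℝ} (hy : 0 ≤ y) : mx J x y * min 1 (2 ^ J * y) ≤ 2 * 2 ^ x * y := by
  have hN : (0 : ℝ) < 2 ^ J := by positivity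
  have hx : (0 : ℝ) < 2 ^ x := by positivity
  have h1 : mx J x y ≤ 2 ^ x * (y + 1 / 2 ^ J) := min_le_right _ _
  have h0 : 0 ≤ mx J x y := mx_nonneg J x hy
  rcases le_total 1 (2 ^ J * y) with h | h
  · have h2 : 1 / 2 ^ J ≤ y := by
      rw [div_le_iff₀ hN]
      linarith
    calc mx J x y * min 1 (2 ^ J * y) ≤ mx J x y * 1 :=
          mul_le_mul_of_nonneg_left (min_le_left _ _) h0
      _ ≤ 2 ^ x * (y + 1 / 2 ^ J) := by linarith
      _ ≤ 2 ^ x * (y + y) := by gcongr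
      _ = 2 * 2 ^ x * y := by ring
  · have h2 : y ≤ 1 / 2 ^ J := by
      rw [le_div_iff₀ hN]
      linarith
    calc mx J x y * min 1 (2 ^ J * y) ≤ (2 ^ x * (y + 1 / 2 ^ J)) * (2 ^ J * y) :=
          mul_le_mul h1 (min_le_right _ _) (le_min zero_le_one (by positivity)) (by positivity)
      _ ≤ (2 ^ x * (1 / 2 ^ J + 1 / 2 ^ J)) * (2 ^ J * y) := by gcongr
      _ = 2 * 2 ^ x * y := by
          field_simp
          ring

end SUPY

open SUPY in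
theorem t_SUPY : M_SUPY := by
  intro hDENS hATF hWCF hNSUM hHBDY hGDVA hFANT r D P B h hX hP hE
  classical
  obtain ⟨-, hdens⟩ := hDENS r D P B h hP
  have hA := hATF r D P B h hX hP
  obtain ⟨hψ, hW⟩ := hWCF r D P B h hX hP
  have hN := hNSUM r D P B h hX hP hE
  obtain ⟨C1, hC1⟩ := hN.supp
  obtain ⟨C2, c, K2, hC2, hc, hH⟩ := hHBDY r D P B h hX hP hE (cW D) (Nat.cast_nonneg _)
  obtain ⟨C3, hC3, hG⟩ := hGDVA r D P B h hX hP
  -- inverses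
  have hinv : ∀ w, w ∈ D.W → ∃ w', w' ∈ D.W ∧ w' * w = 1 := fun w hw => by
    obtain ⟨w', h1, h2⟩ := hX.w.W_inv w hw
    exact ⟨w', h1, h2⟩
  choose! wi hwi hwi1 using hinv
  have hwi2 : ∀ w, w ∈ D.W → w * wi w = 1 := fun w hw => mul_eq_one_comm.1 (hwi1 w hw)
  set cP : ℝ := ‖(∏ p ∈ P, ((p.2 ⬝ᵥ (1 : Fin r → ℤ) : ℤ) : ℂ))⁻¹‖ with hcP
  have hcP0 : 0 ≤ cP := norm_nonneg _
  refine ⟨C3 * (cP * C2) * (D.W.card * 2 ^ P.card), c, K2 + C1 + cW D * C1, by positivity, hc, ?_⟩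
  intro J K x t θ hK
  have hK2 : K2 * 2 ^ J ≤ K := le_trans (Nat.mul_le_mul_right _ (by omega)) hK
  have hK1 : C1 * 2 ^ J ≤ K := le_trans (Nat.mul_le_mul_right _ (by omega)) hK
  have hK3 : cW D * (C1 * 2 ^ J) ≤ K := by
    rw [← mul_assoc]
    exact le_trans (Nat.mul_le_mul_right _ (by omega)) hK
  have hnk : ∀ ν i, ((C1 * 2 ^ J : ℕ) : ℤ) < |ν i| → nk D P J x t ν = 0 := by
    intro ν i hν
    push_cast at hν
    exact (hC1 J x t ν i hν).1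
  set Y : ℝ := ((2 : ℝ) ^ J) ^ P.card * WW (2 ^ J) c t ^ ((r : ℝ) / 2) with hY
  have hY0 : 0 ≤ Y := by
    have : 0 ≤ WW (2 ^ J) c t := TIME.WW_nonneg _ _ _
    positivity
  let b : (Fin r → ℤ) → ℂ := fun ν => (D.dim ν : ℂ) * nm D P J x t ν
  have hb1 : ∀ w ∈ D.W, ∀ ν, b (w *ᵥ ν) = (w.det : ℂ) * b ν := by
    intro w hw ν
    simp only [b]
    rw [dim_anti hX hw, hN.inv w hw]
    ring
  have hb2 : ∀ ν i, (K : ℤ) < |ν i| → b ν = 0 := by
    intro ν i hν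
    simp only [b]
    rw [(hC1 J x t ν i (lt_of_le_of_lt (by exact_mod_cast hK1) hν)).2, mul_zero]
  let S : (Fin r → ℝ) → ℂ := fun θ =>
    ∑ ν ∈ bx (1 : Fin r → ℤ) K, (D.dim ν : ℂ) * nm D P J x t ν * D.ψ (XT D θ) ν
  have hF : ∀ θ : Fin r → ℝ, ES (cb r K) b (fun i => θ i) = S θ * AT D 1 θ := by
    intro θ
    rw [hFANT r D hX.w K b hb1 hb2 θ]
    simp only [S]
    rw [Finset.sum_mul]
    refine Finset.sum_congr rfl fun ν _ => ?_
    simp only [b]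
    rw [← hW ν θ]
    ring
  have hvan : ∀ (θ' : Fin r → ℝ) (k : ℤ), ∀ p ∈ P, dz p.1 θ' = k → ES (cb r K) b (fun i => θ' i) = 0 := by
    intro θ' k p hp hk
    rw [hF, hA.van p hp 1 θ' k hk, mul_zero]
  -- the sup bound
  have hbound : ∀ θ : Fin r → ℝ, ∀ ζ : Fin r → ℂ, (∀ i, ‖ζ i - θ i‖ ≤ 1 / (2 : ℝ) ^ J) →
      ‖ES (cb r K) b ζ‖ ≤ cP * C2 * Y *
        ∑ w ∈ D.W, ∏ p : {p // p ∈ P}, mx J (x p).val (nd (dz (wi w *ᵥ p.1.1) θ)) := by
    intro θ ζ hζ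
    have e1 : ES (cb r K) b ζ = (1 / (D.W.card : ℂ)) *
      ∑ w ∈ D.W, ES (cb r K) (fun ν => (D.dim ν : ℂ) * nk D P J x t (w *ᵥ ν)) ζ := ES_nm J K x t ζ
    rw [e1, norm_mul]
    have e2 : ‖(1 / (D.W.card : ℂ))‖ ≤ 1 := by
      have h1 : 1 ≤ D.W.card := Finset.card_pos.2 ⟨1, hX.w.W_one⟩
      rw [norm_div, norm_one, Complex.norm_natCast, div_le_one (by exact_mod_cast h1)]
      exact_mod_cast h1
    have e3 : ∀ w ∈ D.W, ‖ES (cb r K) (fun ν => (D.dim ν : ℂ) * nk D P J x t (w *ᵥ ν)) ζ‖ ≤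
        cP * C2 * Y * ∏ p : {p // p ∈ P}, mx J (x p).val (nd (dz (wi w *ᵥ p.1.1) θ)) := by
      intro w hw
      rw [ES_sub hX hP (hwi w hw) (hwi1 w hw) (hwi2 w hw) hK1 hK3 hnk ζ, norm_mul, norm_mul]
      have e4 : ‖((wi w).det : ℂ)‖ = 1 := by
        rcases hX.w.W_det _ (hwi w hw) with h1 | h1 <;> simp [h1]
      have e5 : ∀ j, ‖tr' (wi w) ζ j - ((∑ i, ((wi w) i j : ℝ) * θ i : ℝ) : ℂ)‖ ≤ (cW D : ℝ) / 2 ^ J := by
        intro j
        have e6 : tr' (wi w) ζ j - ((∑ i, ((wi w) i j : ℝ) * θ i : ℝ) : ℂ) =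
            ∑ i, ((wi w) i j : ℂ) * (ζ i - θ i) := by
          unfold tr'
          push_cast
          rw [← Finset.sum_sub_distrib]
          refine Finset.sum_congr rfl fun i _ => ?_
          ring
        rw [e6]
        refine (norm_sum_le _ _).trans ?_
        calc ∑ i, ‖((wi w) i j : ℂ) * (ζ i - θ i)‖ ≤ ∑ i, (((wi w) i j).natAbs : ℝ) * (1 / 2 ^ J) := by
              refine Finset.sum_le_sum fun i _ => ?_
              rw [norm_mul]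
              refine mul_le_mul ?_ (hζ i) (norm_nonneg _) (Nat.cast_nonneg _)
              rw [Complex.norm_intCast, Nat.cast_natAbs, Int.cast_abs]
          _ = ((∑ i, ((wi w) i j).natAbs : ℕ) : ℝ) / 2 ^ J := by
              push_cast
              rw [← Finset.sum_mul]
              ring
          _ ≤ (cW D : ℝ) / 2 ^ J := by
              refine div_le_div_of_nonneg_right ?_ (by positivity)
              exact_mod_cast col_le (hwi w hw) j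
      have e7 := hH J K x t (fun j => ∑ i, ((wi w) i j : ℝ) * θ i) (tr' (wi w) ζ) hK2 e5
      have e8 : ∏ p : {p // p ∈ P}, mx J (x p).val
          (nd (dz p.1.1 (fun j => ∑ i, ((wi w) i j : ℝ) * θ i))) =
          ∏ p : {p // p ∈ P}, mx J (x p).val (nd (dz (wi w *ᵥ p.1.1) θ)) :=
        Finset.prod_congr rfl fun p _ => by rw [tr_real]
      rw [e8] at e7
      rw [e4, one_mul, ← hcP]
      calc cP * ‖ES (cb r K) (fun ν => (∏ p ∈ P, ((p.2 ⬝ᵥ ν : ℤ) : ℂ)) * nk D P J x t ν) (tr' (wi w) ζ)‖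
          ≤ cP * (C2 * (Y * ∏ p : {p // p ∈ P}, mx J (x p).val (nd (dz (wi w *ᵥ p.1.1) θ)))) :=
            mul_le_mul_of_nonneg_left e7 hcP0
        _ = _ := by ring
    calc ‖(1 / (D.W.card : ℂ))‖ * ‖∑ w ∈ D.W, ES (cb r K) (fun ν => (D.dim ν : ℂ) * nk D P J x t (w *ᵥ ν)) ζ‖
        ≤ 1 * ∑ w ∈ D.W, ‖ES (cb r K) (fun ν => (D.dim ν : ℂ) * nk D P J x t (w *ᵥ ν)) ζ‖ :=
          mul_le_mul e2 (norm_sum_le _ _) (norm_nonneg _) zero_le_one
      _ ≤ ∑ w ∈ D.W, cP * C2 * Y *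
          ∏ p : {p // p ∈ P}, mx J (x p).val (nd (dz (wi w *ᵥ p.1.1) θ)) := by
          rw [one_mul]
          exact Finset.sum_le_sum e3
      _ = _ := by rw [Finset.mul_sum]
  -- the good points
  have hgood : ∀ θ : Fin r → ℝ, (∀ p ∈ P, nd (dz p.1 θ) ≠ 0) →
      ‖S θ‖ ≤ C3 * (cP * C2) * (D.W.card * 2 ^ P.card) * (Y * ∏ p, (2 : ℝ) ^ (x p).val) := by
    intro θ hθ
    have hnd : ∀ y : ℝ, 0 ≤ nd y := fun y => abs_nonneg _
    set E : ℝ := cP * C2 * Y *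
        ∑ w ∈ D.W, ∏ p : {p // p ∈ P}, mx J (x p).val (nd (dz (wi w *ᵥ p.1.1) θ)) with hEdef
    have hE0 : 0 ≤ E := by
      have : 0 ≤ ∑ w ∈ D.W, ∏ p : {p // p ∈ P}, mx J (x p).val (nd (dz (wi w *ᵥ p.1.1) θ)) :=
        Finset.sum_nonneg fun w _ => Finset.prod_nonneg fun p _ => mx_nonneg _ _ (hnd _)
      positivity
    have g1 := hG (cb r K) b (2 ^ J) θ E (one_le_pow₀ (by norm_num)) hE0 hvan (hbound θ)
    have g2 : E * ∏ p ∈ P, min 1 ((2 : ℝ) ^ J * nd (dz p.1 θ)) ≤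
        cP * C2 * Y * (D.W.card * (2 ^ P.card * (∏ p, (2 : ℝ) ^ (x p).val) * ∏ p ∈ P, nd (dz p.1 θ))) := by
      rw [hEdef, mul_assoc (cP * C2 * Y)]
      refine mul_le_mul_of_nonneg_left ?_ (by positivity)
      rw [Finset.sum_mul]
      have g3 : ∀ w ∈ D.W, (∏ p : {p // p ∈ P}, mx J (x p).val (nd (dz (wi w *ᵥ p.1.1) θ))) *
          ∏ p ∈ P, min 1 ((2 : ℝ) ^ J * nd (dz p.1 θ)) ≤
          2 ^ P.card * (∏ p, (2 : ℝ) ^ (x p).val) * ∏ p ∈ P, nd (dz p.1 θ) := by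
        intro w hw
        rw [← prod_perm hX hP hE (hwi w hw) θ (fun y => min 1 ((2 : ℝ) ^ J * y)),
          ← Finset.prod_mul_distrib]
        calc ∏ p : {p // p ∈ P}, mx J (x p).val (nd (dz (wi w *ᵥ p.1.1) θ)) *
              min 1 ((2 : ℝ) ^ J * nd (dz (wi w *ᵥ p.1.1) θ))
            ≤ ∏ p : {p // p ∈ P}, (2 * 2 ^ (x p).val * nd (dz (wi w *ᵥ p.1.1) θ)) :=
              Finset.prod_le_prod (fun p _ => mul_nonneg (mx_nonneg _ _ (hnd _))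
                (le_min zero_le_one (mul_nonneg (by positivity) (hnd _))))
                fun p _ => factor _ _ (hnd _)
          _ = 2 ^ P.card * (∏ p, (2 : ℝ) ^ (x p).val) * ∏ p ∈ P, nd (dz p.1 θ) := by
              rw [Finset.prod_mul_distrib, Finset.prod_mul_distrib, Finset.prod_const,
                prod_perm hX hP hE (hwi w hw) θ (fun y => y)]
              simp
      calc ∑ w ∈ D.W, (∏ p : {p // p ∈ P}, mx J (x p).val (nd (dz (wi w *ᵥ p.1.1) θ))) *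
            ∏ p ∈ P, min 1 ((2 : ℝ) ^ J * nd (dz p.1 θ))
          ≤ ∑ _w ∈ D.W, 2 ^ P.card * (∏ p, (2 : ℝ) ^ (x p).val) * ∏ p ∈ P, nd (dz p.1 θ) :=
            Finset.sum_le_sum g3
        _ = _ := by rw [Finset.sum_const, nsmul_eq_mul]
    have g4 := KSUP.AT_lower hP θ
    have hpos : 0 < ∏ p ∈ P, nd (dz p.1 θ) :=
      Finset.prod_pos fun p hp => lt_of_le_of_ne (hnd _) (Ne.symm (hθ p hp))
    have g5 : ∏ p ∈ P, nd (dz p.1 θ) ≤ ‖AT D 1 θ‖ := by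
      refine le_trans ?_ g4
      refine Finset.prod_le_prod (fun p _ => hnd _) fun p _ => ?_
      have := hnd (dz p.1 θ)
      linarith
    have g6 : ‖S θ‖ * ∏ p ∈ P, nd (dz p.1 θ) ≤
        (C3 * (cP * C2) * (D.W.card * 2 ^ P.card) * (Y * ∏ p, (2 : ℝ) ^ (x p).val)) *
          ∏ p ∈ P, nd (dz p.1 θ) := by
      calc ‖S θ‖ * ∏ p ∈ P, nd (dz p.1 θ) ≤ ‖S θ‖ * ‖AT D 1 θ‖ :=
            mul_le_mul_of_nonneg_left g5 (norm_nonneg _)
        _ = ‖ES (cb r K) b (fun i => θ i)‖ := by rw [hF, norm_mul]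
        _ ≤ C3 * (E * ∏ p ∈ P, min 1 ((2 : ℝ) ^ J * nd (dz p.1 θ))) := g1
        _ ≤ C3 * (cP * C2 * Y * (D.W.card * (2 ^ P.card * (∏ p, (2 : ℝ) ^ (x p).val) *
            ∏ p ∈ P, nd (dz p.1 θ)))) := mul_le_mul_of_nonneg_left g2 hC3
        _ = _ := by ring
    exact le_of_mul_le_mul_right g6 hpos
  -- all points
  have hScont : Continuous S := continuous_finsetSum _ fun ν _ => continuous_const.mul (hψ ν)
  set Bd : ℝ := C3 * (cP * C2) * (D.W.card * 2 ^ P.card) * (Y * ∏ p, (2 : ℝ) ^ (x p).val) with hBd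
  have hfin := hdens (fun θ => ((max 0 (‖S θ‖ - Bd) : ℝ) : ℂ))
    (Complex.continuous_ofReal.comp (continuous_const.max (hScont.norm.sub continuous_const)))
    (fun θ hθ => by
      have := hgood θ hθ
      rw [max_eq_left (by linarith), Complex.ofReal_zero]) θ
  have h1 : max 0 (‖S θ‖ - Bd) = 0 := by exact_mod_cast hfin
  have h2 : ‖S θ‖ - Bd ≤ 0 := by
    rw [← h1]
    exact le_max_right _ _
  have h3 : ‖S θ‖ ≤ Bd := by linarith
  exact h3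

end

end STZ
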