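import Pool.Agent.STZ.StmtsA

/-!
# ALL: all frequencies
-/

namespace STZ

open MeasureTheory Matrix

open scoped ComplexConjugate Matrix Real

noncomputable section

namespace ALL

theorem nq_nonneg {M : Type} [MeasurableSpace M] (μ : Measure M) (q : ℝ) (F : ℝ → M → ℂ) :
    0 ≤ nq μ q F := by
  unfold nq
  apply Real.rpow_nonneg
  apply intervalIntegral.integral_nonneg zero_le_one
  intro t _
  exact integral_nonneg fun x => Real.rpow_nonneg (norm_nonneg _) _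

theorem nsq_nonneg {M : Type} [MeasurableSpace M] (μ : Measure M) (u : M → ℂ) :
    0 ≤ nsq μ u := integral_nonneg fun x => by positivity

theorem one_le_sz {r : ℕ} (x : Fin r → ℤ) : 1 ≤ sz x := by
  unfold sz
  have : 0 ≤ ∑ i, |(x i : ℝ)| := Finset.sum_nonneg fun i _ => abs_nonneg _
  linarith

/-- the dyadic size -/
def lev {r : ℕ} (x : Fin r → ℤ) : ℕ := Nat.log 2 ⌊sz x⌋₊

theorem lev_le {r : ℕ} (x : Fin r → ℤ) : (2 : ℝ) ^ (lev x) ≤ sz x := by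
  have h1 : ⌊sz x⌋₊ ≠ 0 := (Nat.floor_pos.2 (one_le_sz x)).ne'
  have h2 := Nat.pow_log_le_self 2 h1
  have h3 : ((2 ^ (lev x) : ℕ) : ℝ) ≤ (⌊sz x⌋₊ : ℝ) := by exact_mod_cast h2
  have h4 : (⌊sz x⌋₊ : ℝ) ≤ sz x := Nat.floor_le (by linarith [one_le_sz x])
  push_cast at h3
  exact h3.trans h4

theorem le_lev {r : ℕ} (x : Fin r → ℤ) : sz x ≤ (2 : ℝ) ^ (lev x + 1) := by
  have h2 : ⌊sz x⌋₊ < 2 ^ (lev x + 1) := Nat.lt_pow_succ_log_self (by norm_num) _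
  have h3 : sz x < ⌊sz x⌋₊ + 1 := Nat.lt_floor_add_one _
  have h4 : ((⌊sz x⌋₊ : ℝ)) + 1 ≤ ((2 ^ (lev x + 1) : ℕ) : ℝ) := by exact_mod_cast h2
  push_cast at h4
  exact h3.le.trans h4

theorem uw_cont {M : Type} [TopologicalSpace M] {ι : Type} {r : ℕ} (w : ι → Fin r → ℤ)
    (Q : (Fin r → ℤ) → ℤ) (F : Finset ι) (u : ι → M → ℂ) (hu : ∀ a ∈ F, Continuous (u a)) :
    JC (uw w Q F u) := by
  unfold JC uw
  refine continuous_finsetSum _ fun a ha => ?_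
  refine Continuous.mul ?_ ((hu a ha).comp continuous_snd)
  unfold eu
  fun_prop

theorem uw_sum {M : Type} {ι : Type} {r : ℕ} (w : ι → Fin r → ℤ)
    (Q : (Fin r → ℤ) → ℤ) (F : Finset ι) (u : ι → M → ℂ) (t : ℝ) (x : M) :
    uw w Q F u t x = ∑ j ∈ F.image (fun a => lev (w a)),
      uw w Q (F.filter fun a => lev (w a) = j) u t x := by
  unfold uw
  exact (Finset.sum_fiberwise_of_maps_to (fun a ha => Finset.mem_image_of_mem _ ha) _).symm

end ALL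

open ALL in
theorem t_ALL : M_ALL := by
  intro hNQ hSCH hLOC M _ _ _ _ _ _ μ _ _ ι K r e w τ C hS Q A hQ hr p hp
  have nf := hNQ M μ
  have he : 0 ≤ e := hS.enn
  have hr' : (2 : ℝ) ≤ r := by exact_mod_cast hr
  have p0 : 0 < p := by linarith
  obtain ⟨ε, ε0, ε1, ε2⟩ : ∃ ε : ℝ, 0 < ε ∧ ε < 1 / p ∧ 1 / p + ε < 1 / 4 := by
    have h1 : 0 < 1 / p := by positivity
    have h2 : 1 / p < 1 / 4 := one_div_lt_one_div_of_lt (by norm_num) hp
    refine ⟨min (1 / p) (1 / 4 - 1 / p) / 2, ?_, ?_, ?_⟩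
    · have : 0 < min (1 / p) (1 / 4 - 1 / p) := lt_min h1 (by linarith)
      linarith
    · have := min_le_left (1 / p) (1 / 4 - 1 / p)
      linarith
    · have := min_le_right (1 / p) (1 / 4 - 1 / p)
      linarith
  have hp4 : 1 / p < 1 / 4 := by linarith
  obtain ⟨p₁, hp₁, hp₁'⟩ : ∃ p₁ : ℝ, 4 < p₁ ∧ 1 / p₁ = 1 / p + ε := by
    refine ⟨1 / (1 / p + ε), ?_, by rw [one_div_one_div]⟩
    rw [lt_div_iff₀ (by positivity)]
    linarith
  obtain ⟨p₂, hp₂, hp₂'⟩ : ∃ p₂ : ℝ, 4 < p₂ ∧ 1 / p₂ = 1 / p - ε := by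
    refine ⟨1 / (1 / p - ε), ?_, by rw [one_div_one_div]⟩
    rw [lt_div_iff₀ (by linarith)]
    linarith
  obtain ⟨D₁, hD₁, h₁⟩ := hLOC M μ ι K r e w τ C hS Q A hQ hr p₁ hp₁
  obtain ⟨D₂, hD₂, h₂⟩ := hLOC M μ ι K r e w τ C hS Q A hQ hr p₂ hp₂
  obtain ⟨s, hs⟩ : ∃ s : ℝ, s = (r + e) / 2 - (r + e + 2) / p := ⟨_, rfl⟩
  obtain ⟨δ, hδ⟩ : ∃ δ : ℝ, δ = (r + e + 2) * ε := ⟨_, rfl⟩
  have δ0 : 0 < δ := by
    rw [hδ]
    positivity
  have s0 : 0 ≤ s := by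
    have h1 : (r + e + 2) / p ≤ (r + e + 2) * (1 / 4) := by
      rw [div_eq_mul_one_div]
      exact mul_le_mul_of_nonneg_left hp4.le (by positivity)
    rw [hs]
    linarith
  have e₁ : (r + e) / 2 - (r + e + 2) / p₁ = s - δ := by
    rw [div_eq_mul_one_div (r + e + 2 : ℝ) p₁, hp₁', hs, hδ]
    ring
  have e₂ : (r + e) / 2 - (r + e + 2) / p₂ = s + δ := by
    rw [div_eq_mul_one_div (r + e + 2 : ℝ) p₂, hp₂', hs, hδ]
    ring
  have e₃ : (r + e : ℝ) - 2 * (r + e + 2) / p = 2 * s := by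
    rw [hs]
    ring
  rw [e₁] at h₁
  rw [e₂] at h₂
  rw [e₃]
  obtain ⟨C', hC', hsch⟩ := hSCH δ δ0
  refine ⟨√(D₁ * D₂ * 2 ^ (2 * s) * C'), Real.sqrt_nonneg _, fun F u hu => ?_⟩
  have hc : ∀ a ∈ F, Continuous (u a) := fun a ha => (hu a ha).1
  obtain ⟨J, hJ⟩ : ∃ J : Finset ℕ, J = F.image (fun a => lev (w a)) := ⟨_, rfl⟩
  obtain ⟨G, hG⟩ : ∃ G : ℕ → Finset ι, G = fun j => F.filter fun a => lev (w a) = j := ⟨_, rfl⟩
  have hGF : ∀ j, ∀ a ∈ G j, a ∈ F ∧ lev (w a) = j := by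
    intro j a ha
    rw [hG] at ha
    exact Finset.mem_filter.1 ha
  obtain ⟨v, hv⟩ : ∃ v : ℕ → ℝ → M → ℂ, v = fun j => uw w Q (G j) u := ⟨_, rfl⟩
  obtain ⟨B, hB⟩ : ∃ B : ℕ → ℝ, B = fun j => √(∑ a ∈ G j, nsq μ (u a)) := ⟨_, rfl⟩
  have B0 : ∀ j, 0 ≤ B j := by
    intro j
    rw [hB]
    exact Real.sqrt_nonneg _
  have vc : ∀ j, JC (v j) := by
    intro j
    rw [hv]
    exact uw_cont w Q (G j) u fun a ha => hc a (hGF j a ha).1
  have key₁ : ∀ j, nq μ p₁ (v j) ≤ D₁ * ((2 : ℝ) ^ (j + 1)) ^ (s - δ) * B j := by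
    intro j
    rw [hv, hB]
    refine h₁ (G j) u (fun a ha => hu a (hGF j a ha).1) _ fun a ha => ?_
    have := le_lev (w a)
    rwa [(hGF j a ha).2] at this
  have key₂ : ∀ j, nq μ p₂ (v j) ≤ D₂ * ((2 : ℝ) ^ (j + 1)) ^ (s + δ) * B j := by
    intro j
    rw [hv, hB]
    refine h₂ (G j) u (fun a ha => hu a (hGF j a ha).1) _ fun a ha => ?_
    have := le_lev (w a)
    rwa [(hGF j a ha).2] at this
  obtain ⟨b, hb⟩ : ∃ b : ℕ → ℝ, b = fun j : ℕ => (2 : ℝ) ^ ((j : ℝ) * s) * B j := ⟨_, rfl⟩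
  have b0 : ∀ j, 0 ≤ b j := by
    intro j
    rw [hb]
    exact mul_nonneg (Real.rpow_nonneg (by norm_num) _) (B0 j)
  have pw : ∀ (j : ℕ) (x : ℝ), ((2 : ℝ) ^ (j + 1)) ^ x = 2 ^ x * 2 ^ ((j : ℝ) * x) := by
    intro j x
    rw [← Real.rpow_natCast, ← Real.rpow_mul (by norm_num), ← Real.rpow_add (by norm_num)]
    congr 1
    push_cast
    ring
  -- the calculation with the powers of two
  have alg : ∀ j k : ℕ, D₁ * ((2 : ℝ) ^ (j + 1)) ^ (s - δ) * B j *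
      (D₂ * ((2 : ℝ) ^ (k + 1)) ^ (s + δ) * B k) =
      D₁ * D₂ * 2 ^ (2 * s) * (b j * b k * 2 ^ (-δ * ((j : ℝ) - k))) := by
    intro j k
    rw [pw, pw, hb]
    have e1 : (2 : ℝ) ^ (s - δ) * 2 ^ (s + δ) = 2 ^ (2 * s) := by
      rw [← Real.rpow_add (by norm_num)]
      congr 1
      ring
    have e2 : (2 : ℝ) ^ ((j : ℝ) * (s - δ)) * 2 ^ ((k : ℝ) * (s + δ)) =
        2 ^ ((j : ℝ) * s) * 2 ^ ((k : ℝ) * s) * 2 ^ (-δ * ((j : ℝ) - k)) := by
      rw [← Real.rpow_add (by norm_num), ← Real.rpow_add (by norm_num),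
        ← Real.rpow_add (by norm_num)]
      congr 1
      ring
    calc D₁ * (2 ^ (s - δ) * 2 ^ ((j : ℝ) * (s - δ))) * B j *
        (D₂ * (2 ^ (s + δ) * 2 ^ ((k : ℝ) * (s + δ))) * B k)
        = D₁ * D₂ * (2 ^ (s - δ) * 2 ^ (s + δ)) *
          ((2 ^ ((j : ℝ) * (s - δ)) * 2 ^ ((k : ℝ) * (s + δ))) * (B j * B k)) := by ring
      _ = _ := by
        rw [e1, e2]
        ring
  have hq : 1 / (p / 2) = 1 / p₁ + 1 / p₂ := by
    rw [hp₁', hp₂', one_div_div]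
    ring
  have pair : ∀ j k : ℕ, nq μ (p / 2) (fun t x => v j t x * v k t x) ≤
      D₁ * D₂ * 2 ^ (2 * s) * (|b j * b k| * 2 ^ (-δ * |(j : ℝ) - k|)) := by
    intro j k
    rw [abs_of_nonneg (mul_nonneg (b0 j) (b0 k))]
    rcases le_total k j with hkj | hjk
    · have h3 : (k : ℝ) ≤ j := by exact_mod_cast hkj
      rw [abs_of_nonneg (by linarith), ← alg j k]
      refine (nf.hol (p / 2) p₁ p₂ (v j) (v k) (by linarith) (by linarith) (by linarith) hq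
        (vc j) (vc k)).trans ?_
      exact mul_le_mul (key₁ j) (key₂ k) (nq_nonneg _ _ _) ((nq_nonneg _ _ _).trans (key₁ j))
    · have h3 : (j : ℝ) ≤ k := by exact_mod_cast hjk
      have h4 : |(j : ℝ) - k| = (k : ℝ) - j := by
        rw [abs_sub_comm, abs_of_nonneg (by linarith)]
      have h5 : (fun t x => v j t x * v k t x) = fun t x => v k t x * v j t x := by
        funext t x
        exact mul_comm _ _
      rw [h4, h5, mul_comm (b j) (b k), ← alg k j]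
      refine (nf.hol (p / 2) p₁ p₂ (v k) (v j) (by linarith) (by linarith) (by linarith) hq
        (vc k) (vc j)).trans ?_
      exact mul_le_mul (key₁ k) (key₂ j) (nq_nonneg _ _ _) ((nq_nonneg _ _ _).trans (key₁ k))
  have hsq : nq μ p (uw w Q F u) ^ 2 ≤
      D₁ * D₂ * 2 ^ (2 * s) * C' * ∑ a ∈ F, sz (w a) ^ (2 * s) * nsq μ (u a) := by
    have h3 := nf.sq (p / 2) (uw w Q F u) (by linarith)
    have h4 : 2 * (p / 2) = p := by ring
    rw [h4] at h3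
    rw [h3]
    have h5 : (fun t x => uw w Q F u t x ^ 2) =
        fun t x => ∑ jk ∈ J ×ˢ J, v jk.1 t x * v jk.2 t x := by
      funext t x
      rw [Finset.sum_product, uw_sum, sq, Finset.sum_mul_sum, hv, hG, hJ]
    rw [h5]
    refine (nf.tri (p / 2) (ℕ × ℕ) (J ×ˢ J) (fun jk t x => v jk.1 t x * v jk.2 t x) (by linarith)
      fun jk _ => (vc jk.1).mul (vc jk.2)).trans ?_
    have h6 : ∑ jk ∈ J ×ˢ J, nq μ (p / 2) (fun t x => v jk.1 t x * v jk.2 t x) ≤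
        ∑ jk ∈ J ×ˢ J, D₁ * D₂ * 2 ^ (2 * s) *
          (|b jk.1 * b jk.2| * 2 ^ (-δ * |(jk.1 : ℝ) - jk.2|)) :=
      Finset.sum_le_sum fun jk _ => pair jk.1 jk.2
    refine h6.trans ?_
    rw [← Finset.mul_sum, Finset.sum_product, mul_assoc (D₁ * D₂ * 2 ^ (2 * s)) C']
    have hDD : 0 ≤ D₁ * D₂ * 2 ^ (2 * s) :=
      mul_nonneg (mul_nonneg hD₁ hD₂) (Real.rpow_nonneg (by norm_num) _)
    refine mul_le_mul_of_nonneg_left ?_ hDD
    refine (hsch J b).trans (mul_le_mul_of_nonneg_left ?_ hC')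
    have h7 : ∑ a ∈ F, sz (w a) ^ (2 * s) * nsq μ (u a) =
        ∑ j ∈ J, ∑ a ∈ G j, sz (w a) ^ (2 * s) * nsq μ (u a) := by
      rw [hJ, hG]
      exact (Finset.sum_fiberwise_of_maps_to (fun a ha => Finset.mem_image_of_mem _ ha) _).symm
    rw [h7]
    refine Finset.sum_le_sum fun j _ => ?_
    rw [hb, hB]
    simp only
    rw [mul_pow, Real.sq_sqrt (Finset.sum_nonneg fun a _ => nsq_nonneg _ _), Finset.mul_sum]
    refine Finset.sum_le_sum fun a ha => ?_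
    refine mul_le_mul_of_nonneg_right ?_ (nsq_nonneg _ _)
    have h8 : ((2 : ℝ) ^ ((j : ℝ) * s)) ^ 2 = ((2 : ℝ) ^ j) ^ (2 * s) := by
      rw [← Real.rpow_natCast ((2 : ℝ) ^ ((j : ℝ) * s)) 2, ← Real.rpow_mul (by norm_num),
        ← Real.rpow_natCast (2 : ℝ) j, ← Real.rpow_mul (by norm_num)]
      congr 1
      push_cast
      ring
    rw [h8]
    refine Real.rpow_le_rpow (by positivity) ?_ (by linarith)
    have := lev_le (w a)
    rwa [(hGF j a ha).2] at this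
  have hfin := Real.abs_le_sqrt hsq
  rw [Real.sqrt_mul (mul_nonneg (mul_nonneg (mul_nonneg hD₁ hD₂)
    (Real.rpow_nonneg (by norm_num) _)) hC')] at hfin
  exact (le_abs_self _).trans hfin

end

end STZ
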