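import Pool.Agent.STZ.StmtsS

/-!
# The alternants `XX` and the functions `ps`
-/

namespace STZ

open scoped ComplexConjugate

namespace ALT

theorem HH_nat (x y : ℂ) (k : ℕ) : HH x y (k : ℤ) = (hp x y k).2.2 := rfl

theorem HH_neg (x y : ℂ) (m : ℕ) : HH x y (-(m : ℤ)) = (hn x y m).2.2 := by
  cases m with
  | zero => rfl
  | succ m => rfl

theorem hn3 (x y : ℂ) (m : ℕ) : (hn x y (m + 3)).2.2 =
    (hn x y m).2.2 - x * (hn x y (m + 1)).2.2 + y * (hn x y (m + 2)).2.2 := rfl

theorem rc (x y : ℂ) (k : ℤ) :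
    HH x y (k + 3) = x * HH x y (k + 2) - y * HH x y (k + 1) + HH x y k := by
  rcases k with k | k
  · rfl
  · rcases k with _ | _ | m
    · show (hp x y 2).2.2 = x * (hp x y 1).2.2 - y * (hp x y 0).2.2 + (hn x y 1).2.2
      simp [hp, hn]
    · show (hp x y 1).2.2 = x * (hp x y 0).2.2 - y * (hn x y 1).2.2 + (hn x y 2).2.2
      simp [hp, hn]
    · have h0 : Int.negSucc (m + 1 + 1) = -((m + 3 : ℕ) : ℤ) := by
        rw [Int.negSucc_eq]; push_cast; ring
      have h1 : -((m + 3 : ℕ) : ℤ) + 3 = -((m : ℕ) : ℤ) := by push_cast; ring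
      have h2 : -((m + 3 : ℕ) : ℤ) + 2 = -((m + 1 : ℕ) : ℤ) := by push_cast; ring
      have h3 : -((m + 3 : ℕ) : ℤ) + 1 = -((m + 2 : ℕ) : ℤ) := by push_cast; ring
      rw [h0, h1, h2, h3, HH_neg, HH_neg, HH_neg, HH_neg, hn3]
      ring

theorem XX_eq (x y : ℂ) (l : Fin 3 → ℤ) : XX x y l =
    HH x y (l 0 - 2) * HH x y (l 1 - 1) * HH x y (l 2)
    - HH x y (l 0 - 2) * HH x y (l 1) * HH x y (l 2 - 1)
    - HH x y (l 0 - 1) * HH x y (l 1 - 2) * HH x y (l 2)
    + HH x y (l 0 - 1) * HH x y (l 1) * HH x y (l 2 - 2)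
    + HH x y (l 0) * HH x y (l 1 - 2) * HH x y (l 2 - 1)
    - HH x y (l 0) * HH x y (l 1 - 1) * HH x y (l 2 - 2) := by
  unfold XX
  rw [Matrix.det_fin_three]
  simp only [Matrix.of_apply]
  have e0 : ∀ a : ℤ, a - 2 + (((0 : Fin 3) : ℕ) : ℤ) = a - 2 := by intro a; simp
  have e1 : ∀ a : ℤ, a - 2 + (((1 : Fin 3) : ℕ) : ℤ) = a - 1 := by
    intro a
    have : (((1 : Fin 3) : ℕ) : ℤ) = 1 := rfl
    rw [this]; ring
  have e2 : ∀ a : ℤ, a - 2 + (((2 : Fin 3) : ℕ) : ℤ) = a := by
    intro a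
    have : (((2 : Fin 3) : ℕ) : ℤ) = 2 := rfl
    rw [this]; ring
  simp only [e0, e1, e2]

theorem perm (x y : ℂ) (σ : Equiv.Perm (Fin 3)) (l : Fin 3 → ℤ) :
    XX x y (l ∘ σ) = (Equiv.Perm.sign σ : ℤ) * XX x y l := by
  unfold XX
  exact Matrix.det_permute σ (Matrix.of fun i j : Fin 3 => HH x y (l i - 2 + (j : ℕ)))

theorem same (x y : ℂ) (l : Fin 3 → ℤ) (i j : Fin 3) (h : i ≠ j) (hl : l i = l j) :
    XX x y l = 0 := by
  unfold XX
  apply Matrix.det_zero_of_row_eq h
  funext k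
  simp only [Matrix.of_apply, hl]

theorem up (x y : ℂ) (a : ℤ) : HH x y (a + 1) = x * HH x y a - y * HH x y (a - 1) + HH x y (a - 2) := by
  have h := rc x y (a - 2)
  have h1 : a - 2 + 3 = a + 1 := by ring
  have h2 : a - 2 + 2 = a := by ring
  have h3 : a - 2 + 1 = a - 1 := by ring
  rwa [h1, h2, h3] at h

theorem dn (x y : ℂ) (a : ℤ) : HH x y (a - 3) = HH x y a - x * HH x y (a - 1) + y * HH x y (a - 2) := by
  have h := rc x y (a - 3)
  have h1 : a - 3 + 3 = a := by ring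
  have h2 : a - 3 + 2 = a - 1 := by ring
  have h3 : a - 3 + 1 = a - 2 := by ring
  rw [h1, h2, h3] at h
  rw [h]
  ring

theorem shift1 (x y : ℂ) (l : Fin 3 → ℤ) : XX x y (fun i => l i + 1) = XX x y l := by
  rw [XX_eq, XX_eq]
  have e1 : ∀ a : ℤ, a + 1 - 2 = a - 1 := by intro a; ring
  have e2 : ∀ a : ℤ, a + 1 - 1 = a := by intro a; ring
  simp only [e1, e2, up]
  ring

theorem shift (x y : ℂ) (l : Fin 3 → ℤ) (c : ℤ) : XX x y (fun i => l i + c) = XX x y l := by
  induction c using Int.induction_on with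
  | zero => simp
  | succ n ih =>
    rw [← ih, ← shift1 x y (fun i => l i + (n : ℤ))]
    congr 1
    funext i
    ring
  | pred n ih =>
    rw [← ih, ← shift1 x y (fun i => l i + (-(n : ℤ) - 1))]
    congr 1
    funext i
    ring

theorem xm (x y : ℂ) (l : Fin 3 → ℤ) : x * XX x y l = ∑ i, XX x y (l + Pi.single i 1) := by
  rw [Fin.sum_univ_three]
  simp only [XX_eq, Pi.add_apply, Pi.single_apply]
  have e1 : ∀ a : ℤ, a + 1 - 2 = a - 1 := by intro a; ring
  have e2 : ∀ a : ℤ, a + 1 - 1 = a := by intro a; ring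
  simp only [Fin.isValue, if_true, one_ne_zero, zero_ne_one, if_false, add_zero,
    show (2 : Fin 3) ≠ 0 by decide, show (2 : Fin 3) ≠ 1 by decide, show (0 : Fin 3) ≠ 2 by decide,
    show (1 : Fin 3) ≠ 2 by decide, e1, e2, up]
  ring

theorem ym (x y : ℂ) (l : Fin 3 → ℤ) : y * XX x y l = ∑ i, XX x y (l - Pi.single i 1) := by
  rw [Fin.sum_univ_three]
  simp only [XX_eq, Pi.sub_apply, Pi.single_apply]
  have e1 : ∀ a : ℤ, a - 1 - 2 = a - 3 := by intro a; ring
  have e2 : ∀ a : ℤ, a - 1 - 1 = a - 2 := by intro a; ring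
  simp only [Fin.isValue, if_true, one_ne_zero, zero_ne_one, if_false, sub_zero,
    show (2 : Fin 3) ≠ 0 by decide, show (2 : Fin 3) ≠ 1 by decide, show (0 : Fin 3) ≠ 2 by decide,
    show (1 : Fin 3) ≠ 2 by decide, e1, e2, dn]
  ring

theorem h0 (x y : ℂ) : HH x y 0 = 1 := rfl
theorem h1 (x y : ℂ) : HH x y (-1) = 0 := rfl
theorem h2 (x y : ℂ) : HH x y (-2) = 0 := rfl

theorem xp (x y : ℂ) (p q : ℤ) :
    x * ps x y p q = ps x y (p + 1) q + ps x y (p - 1) (q + 1) + ps x y p (q - 1) := by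
  unfold ps
  rw [xm, Fin.sum_univ_three]
  congr 1
  · congr 1
    · congr 1
      funext i
      fin_cases i <;> simp
      ring
    · congr 1
      funext i
      fin_cases i <;> simp
  · rw [← shift x y ![p + (q - 1), q - 1, 0] 1]
    congr 1
    funext i
    fin_cases i <;> simp
    ring

theorem yp (x y : ℂ) (p q : ℤ) :
    y * ps x y p q = ps x y p (q + 1) + ps x y (p + 1) (q - 1) + ps x y (p - 1) q := by
  unfold ps
  rw [ym, Fin.sum_univ_three]
  have a0 : XX x y (![p + q, q, 0] - Pi.single 0 1) = XX x y ![p - 1 + q, q, 0] := by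
    congr 1
    funext i
    fin_cases i <;> simp
    ring
  have a1 : XX x y (![p + q, q, 0] - Pi.single 1 1) = XX x y ![p + 1 + (q - 1), q - 1, 0] := by
    congr 1
    funext i
    fin_cases i <;> simp
  have a2 : XX x y (![p + q, q, 0] - Pi.single 2 1) = XX x y ![p + (q + 1), q + 1, 0] := by
    rw [← shift x y ![p + (q + 1), q + 1, 0] (-1)]
    congr 1
    funext i
    fin_cases i <;> simp
    ring
  rw [a0, a1, a2]
  ring

theorem one (x y : ℂ) : ps x y 1 1 = 1 := by
  unfold ps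
  rw [XX_eq]
  simp [h0, h1, h2]

theorem p0 (x y : ℂ) (q : ℤ) : ps x y 0 q = 0 := by
  unfold ps
  exact same x y _ 0 1 (by decide) (by simp)

theorem q0 (x y : ℂ) (p : ℤ) : ps x y p 0 = 0 := by
  unfold ps
  exact same x y _ 1 2 (by decide) (by simp)

theorem anti (x y : ℂ) (p q : ℤ) : ps x y (-p) (p + q) = -ps x y p q := by
  unfold ps
  have h : (![-p + (p + q), p + q, 0] : Fin 3 → ℤ) = ![p + q, q, 0] ∘ (Equiv.swap (0 : Fin 3) 1) := by
    funext i
    fin_cases i
    · simp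
    · simp
    · have : Equiv.swap (0 : Fin 3) 1 2 = 2 := by decide
      simp [this]
  rw [h, perm, Equiv.Perm.sign_swap (by decide)]
  simp

/-- uniqueness for the recursion -/
theorem uniq (a b : ℂ) (F G : ℤ → ℤ → ℂ)
    (hF1 : ∀ p q, a * F p q = F (p + 1) q + F (p - 1) (q + 1) + F p (q - 1))
    (hF2 : ∀ p q, b * F p q = F p (q + 1) + F (p + 1) (q - 1) + F (p - 1) q)
    (hF3 : ∀ q, F 0 q = 0) (hF4 : ∀ p, F p 0 = 0) (hF5 : F 1 1 = 1)
    (hG1 : ∀ p q, a * G p q = G (p + 1) q + G (p - 1) (q + 1) + G p (q - 1))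
    (hG2 : ∀ p q, b * G p q = G p (q + 1) + G (p + 1) (q - 1) + G (p - 1) q)
    (hG3 : ∀ q, G 0 q = 0) (hG4 : ∀ p, G p 0 = 0) (hG5 : G 1 1 = 1) :
    ∀ n : ℕ, ∀ p q : ℕ, p + q ≤ n → F p q = G p q := by
  intro n
  induction n with
  | zero =>
    intro p q h
    have : p = 0 := by omega
    subst this
    rw [Nat.cast_zero, hF3, hG3]
  | succ n ih =>
    intro p q h
    rcases p with _ | _ | p
    · rw [Nat.cast_zero, hF3, hG3]
    · rcases q with _ | _ | q
      · rw [Nat.cast_zero, hF4, hG4]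
      · simp only [zero_add, Nat.cast_one, hF5, hG5]
      · have e1 := hF2 1 (q + 1)
        have e2 := hG2 1 (q + 1)
        have i1 := ih 1 (q + 1) (by omega)
        have i2 := ih 2 q (by omega)
        have i3 := ih 0 (q + 1) (by omega)
        push_cast at i1 i2 i3 ⊢
        have f1 : (1 : ℤ) + 1 = 2 := by norm_num
        have f2 : (q : ℤ) + 1 - 1 = q := by ring
        have f3 : (1 : ℤ) - 1 = 0 := by norm_num
        rw [f1, f2, f3] at e1 e2
        linear_combination e2 - e1 + b * i1 - i2 - i3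
    · rcases q with _ | q
      · rw [Nat.cast_zero, hF4, hG4]
      · have e1 := hF1 (p + 1) (q + 1)
        have e2 := hG1 (p + 1) (q + 1)
        have i1 := ih (p + 1) (q + 1) (by omega)
        have i2 := ih p (q + 1 + 1) (by omega)
        have i3 := ih (p + 1) q (by omega)
        push_cast at i1 i2 i3 ⊢
        have f1 : (p : ℤ) + 1 - 1 = p := by ring
        have f2 : (q : ℤ) + 1 - 1 = q := by ring
        rw [f1, f2] at e1 e2
        linear_combination e2 - e1 + a * i1 - i2 - i3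

theorem dual (x y : ℂ) (p q : ℕ) : ps y x p q = ps x y q p := by
  refine uniq y x (fun p q => ps y x p q) (fun p q => ps x y q p) (fun p q => xp y x p q)
    (fun p q => yp y x p q) (p0 y x) (q0 y x) (one y x) (fun p q => ?_) (fun p q => ?_)
    (q0 x y) (p0 x y) (one x y) (p + q) p q le_rfl
  · exact yp x y q p
  · exact xp x y q p

theorem dim (p q : ℕ) : ps 3 3 p q = p * q * (p + q) / 2 := by
  have h := uniq 3 3 (fun p q => ps 3 3 p q) (fun p q => (p : ℂ) * q * (p + q) / 2)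
    (fun p q => xp 3 3 p q) (fun p q => yp 3 3 p q) (p0 3 3) (q0 3 3) (one 3 3)
    (fun p q => by push_cast; ring) (fun p q => by push_cast; ring) (fun q => by simp)
    (fun p => by simp) (by norm_num) (p + q) p q le_rfl
  simpa using h

theorem conj_hp (x y : ℂ) (k : ℕ) : hp (conj x) (conj y) k =
    (conj (hp x y k).1, conj (hp x y k).2.1, conj (hp x y k).2.2) := by
  induction k with
  | zero => simp [hp]
  | succ k ih => simp [hp, ih]

theorem conj_hn (x y : ℂ) (k : ℕ) : hn (conj x) (conj y) k =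
    (conj (hn x y k).1, conj (hn x y k).2.1, conj (hn x y k).2.2) := by
  induction k with
  | zero => simp [hn]
  | succ k ih => simp [hn, ih]

theorem conj_HH (x y : ℂ) (k : ℤ) : conj (HH x y k) = HH (conj x) (conj y) k := by
  rcases k with k | k
  · show conj (hp x y k).2.2 = (hp (conj x) (conj y) k).2.2
    rw [conj_hp]
  · show conj (hn x y (k + 1)).2.2 = (hn (conj x) (conj y) (k + 1)).2.2
    rw [conj_hn]

theorem cj (x y : ℂ) (p q : ℤ) : conj (ps x y p q) = ps (conj x) (conj y) p q := by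
  unfold ps
  rw [XX_eq, XX_eq]
  simp only [map_add, map_sub, map_mul, conj_HH]

end ALT

open ALT in
theorem t_ALT : S_ALT where
  rc := rc
  h0 := h0
  h1 := h1
  h2 := h2
  perm := perm
  same := fun x y l i j h hl => same x y l i j h hl
  shift := shift
  xm := xm
  ym := ym
  xp := xp
  yp := yp
  one := one
  p0 := p0
  q0 := q0
  anti := anti
  dual := dual
  cj := cj
  dim := dim

end STZ
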