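import Pool.Agent.STZ.StmtsY

/-!
# ANU: the bound for the alternating sums near the centre
-/

namespace STZ

open MeasureTheory Matrix

open scoped ComplexConjugate Matrix Real

noncomputable section

namespace ANU

/-- finitely many nonzero linear forms have a common point where none of them vanishes -/
theorem gen_vec {r : ℕ} {ι : Type} [Finite ι] (v : ι → Fin r → ℝ) (hv : ∀ i, v i ≠ 0) :
    ∃ u : Fin r → ℝ, ∀ i, v i ⬝ᵥ u ≠ 0 := by
  by_contra hcon
  push Not at hcon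
  let f : ι → ((Fin r → ℝ) →ₗ[ℝ] ℝ) := fun i =>
    { toFun := fun u => v i ⬝ᵥ u
      map_add' := fun x y => dotProduct_add _ _ _
      map_smul' := fun a x => by simp }
  have hcov : ⋃ i, ((LinearMap.ker (f i) : Submodule ℝ (Fin r → ℝ)) : Set (Fin r → ℝ)) = Set.univ := by
    ext u
    simp only [Set.mem_iUnion, Set.mem_univ, iff_true]
    obtain ⟨i, hi⟩ := hcon u
    exact ⟨i, hi⟩
  obtain ⟨i, hi⟩ := Subspace.exists_eq_top_of_iUnion_eq_univ (k := ℝ) hcov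
  have h1 : v i ∈ LinearMap.ker (f i) := by rw [hi]; exact Submodule.mem_top
  have h2 : v i ⬝ᵥ v i = 0 := h1
  exact hv i (dotProduct_self_eq_zero.mp h2)

/-- reduction to a point near zero -/
theorem shift {r : ℕ} (B : Matrix (Fin r) (Fin r) ℤ) (hB : B.det ≠ 0) :
    ∃ K : ℝ, 0 ≤ K ∧ ∀ (θ : Fin r → ℝ) (T : ℝ), (∀ i, nd (dz (B i) θ) ≤ T) →
      ∃ z θ' : Fin r → ℝ, θ = θ' + z ∧ (∀ i, ∃ k : ℤ, dz (B i) z = k) ∧ ∀ i, |θ' i| ≤ K * T := by
  set A : Matrix (Fin r) (Fin r) ℝ := B.map (fun x : ℤ => (x : ℝ)) with hA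
  have hdet : A.det ≠ 0 := by
    have h1 : ((B.det : ℤ) : ℝ) = A.det := (Int.castRingHom ℝ).map_det B
    rw [← h1]
    exact_mod_cast hB
  have hu : IsUnit A.det := isUnit_iff_ne_zero.mpr hdet
  have hmul : A * A⁻¹ = 1 := Matrix.mul_nonsing_inv A hu
  have hmul' : A⁻¹ * A = 1 := Matrix.nonsing_inv_mul A hu
  have hdz : ∀ x i, dz (B i) x = (A *ᵥ x) i := fun x i => rfl
  refine ⟨∑ i, ∑ j, |A⁻¹ i j|, by positivity, fun θ T hT => ?_⟩
  set k : Fin r → ℝ := fun i => ((round (dz (B i) θ) : ℤ) : ℝ) with hk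
  refine ⟨A⁻¹ *ᵥ k, θ - A⁻¹ *ᵥ k, by simp, fun i => ⟨round (dz (B i) θ), ?_⟩, fun i => ?_⟩
  · rw [hdz, Matrix.mulVec_mulVec, hmul, Matrix.one_mulVec]
  · have h1 : θ - A⁻¹ *ᵥ k = A⁻¹ *ᵥ (A *ᵥ θ - k) := by
      rw [Matrix.mulVec_sub, Matrix.mulVec_mulVec, hmul', Matrix.one_mulVec]
    have h2 : ∀ j, |(A *ᵥ θ - k) j| ≤ T := by
      intro j
      have h3 := hT j
      rw [nd] at h3
      rw [Pi.sub_apply, ← hdz]
      exact h3
    have hT0 : 0 ≤ T := (abs_nonneg _).trans (h2 i)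
    rw [h1]
    calc |(A⁻¹ *ᵥ (A *ᵥ θ - k)) i| = |∑ j, A⁻¹ i j * (A *ᵥ θ - k) j| := rfl
      _ ≤ ∑ j, |A⁻¹ i j * (A *ᵥ θ - k) j| := Finset.abs_sum_le_sum_abs _ _
      _ ≤ ∑ j, |A⁻¹ i j| * T := Finset.sum_le_sum fun j _ => by
          rw [abs_mul]
          exact mul_le_mul_of_nonneg_left (h2 j) (abs_nonneg _)
      _ = (∑ j, |A⁻¹ i j|) * T := by rw [Finset.sum_mul]
      _ ≤ (∑ i, ∑ j, |A⁻¹ i j|) * T := by
          refine mul_le_mul_of_nonneg_right ?_ hT0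
          exact Finset.single_le_sum (f := fun i => ∑ j, |A⁻¹ i j|) (fun _ _ => by positivity)
            (Finset.mem_univ i)

/-- the bound on complex lines -/
theorem bound {r : ℕ} (D : RD r) (K : ℝ) : ∃ C : ℝ, 0 ≤ C ∧
    ∀ (y θ : Fin r → ℝ) (T : ℝ) (s : ℂ), 0 < T → (∀ i, |θ i| ≤ K * T) → ‖s‖ ≤ 1 / T →
      ‖ATC D (fun j => (y j : ℂ) + s) (fun i => (θ i : ℂ))‖ ≤ C := by
  refine ⟨∑ w ∈ D.W, ‖(w.det : ℂ)‖ * Real.exp (2 * π * (K * ∑ i, ∑ j, |(w i j : ℝ)|)),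
    by positivity, ?_⟩
  intro y θ T s hT hθ hs
  unfold ATC
  refine (norm_sum_le _ _).trans (Finset.sum_le_sum fun w _ => ?_)
  rw [norm_mul, Complex.norm_exp]
  refine mul_le_mul_of_nonneg_left (Real.exp_le_exp.mpr ?_) (norm_nonneg _)
  have h1 : (2 * (π : ℂ) * Complex.I * ∑ i, (∑ j, (w i j : ℂ) * ((y j : ℂ) + s)) * (θ i : ℂ)).re =
      -(2 * π) * (∑ i, (∑ j, (w i j : ℂ) * ((y j : ℂ) + s)) * (θ i : ℂ)).im := by
    have h0 : 2 * (π : ℂ) * Complex.I = ((2 * π : ℝ) : ℂ) * Complex.I := by push_cast; ring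
    rw [h0, mul_assoc, Complex.re_ofReal_mul, Complex.I_mul_re]
    ring
  have h2 : (∑ i, (∑ j, (w i j : ℂ) * ((y j : ℂ) + s)) * (θ i : ℂ)).im =
      ∑ i, (∑ j, (w i j : ℝ) * s.im) * θ i := by
    rw [Complex.im_sum]
    refine Finset.sum_congr rfl fun i _ => ?_
    rw [Complex.im_mul_ofReal, Complex.im_sum]
    congr 1
    refine Finset.sum_congr rfl fun j _ => ?_
    have h3 : ((w i j : ℤ) : ℂ) = ((w i j : ℝ) : ℂ) := by push_cast; rfl
    rw [h3, Complex.im_ofReal_mul, Complex.add_im, Complex.ofReal_im, zero_add]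
  rw [h1, h2]
  have h4 : |∑ i, (∑ j, (w i j : ℝ) * s.im) * θ i| ≤ K * ∑ i, ∑ j, |(w i j : ℝ)| := by
    calc |∑ i, (∑ j, (w i j : ℝ) * s.im) * θ i| ≤ ∑ i, |(∑ j, (w i j : ℝ) * s.im) * θ i| :=
          Finset.abs_sum_le_sum_abs _ _
      _ ≤ ∑ i, K * ∑ j, |(w i j : ℝ)| := by
          refine Finset.sum_le_sum fun i _ => ?_
          rw [abs_mul, ← Finset.sum_mul, abs_mul]
          have h5 : |∑ j, (w i j : ℝ)| ≤ ∑ j, |(w i j : ℝ)| := Finset.abs_sum_le_sum_abs _ _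
          have h6 : |s.im| ≤ 1 / T := (Complex.abs_im_le_norm s).trans hs
          have h7 : |s.im| * |θ i| ≤ K := by
            calc |s.im| * |θ i| ≤ 1 / T * (K * T) :=
                  mul_le_mul h6 (hθ i) (abs_nonneg _) (by positivity)
              _ = K := by field_simp
          calc |∑ j, (w i j : ℝ)| * |s.im| * |θ i| = |∑ j, (w i j : ℝ)| * (|s.im| * |θ i|) := by ring
            _ ≤ (∑ j, |(w i j : ℝ)|) * K := mul_le_mul h5 h7 (by positivity) (by positivity)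
            _ = K * ∑ j, |(w i j : ℝ)| := by ring
      _ = K * ∑ i, ∑ j, |(w i j : ℝ)| := by rw [Finset.mul_sum]
  have h8 := neg_abs_le (∑ i, (∑ j, (w i j : ℝ) * s.im) * θ i)
  have hpi := Real.pi_pos
  nlinarith [mul_le_mul_of_nonneg_left h4 (by positivity : (0 : ℝ) ≤ 2 * π),
    mul_le_mul_of_nonneg_left h8 (by positivity : (0 : ℝ) ≤ 2 * π)]

/-- the sum of the coefficients of the coroot -/
def cc {r : ℕ} (p : (Fin r → ℤ) × (Fin r → ℤ)) : ℝ := ∑ j, (p.2 j : ℝ)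

/-- the value of the coroot -/
def aa {r : ℕ} (p : (Fin r → ℤ) × (Fin r → ℤ)) (y : Fin r → ℝ) : ℝ := ∑ j, (p.2 j : ℝ) * y j

/-- the Schwarz lemma, generic case -/
theorem gen {r : ℕ} (D : RD r) (P : RT r) (B : Matrix (Fin r) (Fin r) ℤ) (hA : ATF D P B)
    (hS : S_SCHW) (C : ℝ) (θ y : Fin r → ℝ) (R : ℝ) (hR : 0 < R) (S : RT r) (hSP : S ⊆ P)
    (hc : ∀ p ∈ S, cc p ≠ 0) (hinj : ∀ p ∈ S, ∀ q ∈ S, p ≠ q → aa p y / cc p ≠ aa q y / cc q)
    (hsm : ∀ p ∈ S, |aa p y / cc p| ≤ R / 2)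
    (hb : ∀ s : ℂ, ‖s‖ ≤ R → ‖ATC D (fun j => (y j : ℂ) + s) (fun i => (θ i : ℂ))‖ ≤ C) :
    ‖ATC D (fun j => (y j : ℂ)) (fun i => (θ i : ℂ))‖ ≤ C * ∏ p ∈ S, (2 * |aa p y / cc p| / R) := by
  let e : Fin S.card ≃ S := S.equivFin.symm
  let z : Fin S.card → ℂ := fun i => ((-(aa (e i).1 y / cc (e i).1) : ℝ) : ℂ)
  let h : ℂ → ℂ := fun s => ATC D (fun j => (y j : ℂ) + s) (fun i => (θ i : ℂ))
  have hnz : ∀ i, ‖z i‖ = |aa (e i).1 y / cc (e i).1| := by
    intro i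
    simp only [z, Complex.norm_real, Real.norm_eq_abs, abs_neg]
  have hd : Differentiable ℂ h := by
    simp only [h, ATC]
    fun_prop
  have hz : Function.Injective z := by
    intro i i' hii
    have h1 : aa (e i).1 y / cc (e i).1 = aa (e i').1 y / cc (e i').1 := by
      have h2 := Complex.ofReal_injective hii
      linarith
    by_contra hne
    have h3 : (e i).1 ≠ (e i').1 := fun h => hne (e.injective (Subtype.ext h))
    exact hinj _ (e i).2 _ (e i').2 h3 h1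
  have h0 : ∀ i, h (z i) = 0 := by
    intro i
    refine hA.vanC _ (hSP (e i).2) _ _ ?_
    have hcne := hc _ (e i).2
    have h1 : ∑ j, ((e i).1.2 j : ℂ) * ((y j : ℂ) + z i) =
        ((aa (e i).1 y + cc (e i).1 * (-(aa (e i).1 y / cc (e i).1)) : ℝ) : ℂ) := by
      simp only [mul_add, Finset.sum_add_distrib, ← Finset.sum_mul, z, aa, cc]
      push_cast
      rfl
    rw [h1]
    have h2 : aa (e i).1 y + cc (e i).1 * (-(aa (e i).1 y / cc (e i).1)) = 0 := by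
      field_simp
      ring
    rw [h2, Complex.ofReal_zero]
  have h1 := hS S.card z h R C hR hd hz (fun i => by rw [hnz]; exact hsm _ (e i).2) h0 hb
  have h2 : h 0 = ATC D (fun j => (y j : ℂ)) (fun i => (θ i : ℂ)) := by
    simp only [h, add_zero]
  rw [h2] at h1
  refine h1.trans (le_of_eq ?_)
  congr 1
  rw [← Finset.prod_coe_sort S fun p => 2 * |aa p y / cc p| / R]
  rw [← Equiv.prod_comp e]
  refine Finset.prod_congr rfl fun i _ => ?_
  rw [hnz]

/-- the Schwarz lemma, general case -/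
theorem lim {r : ℕ} (D : RD r) (P : RT r) (B : Matrix (Fin r) (Fin r) ℤ) (hA : ATF D P B)
    (hS : S_SCHW) (C : ℝ) (θ y : Fin r → ℝ) (R : ℝ) (hR : 0 < R) (S : RT r) (hSP : S ⊆ P)
    (hc : ∀ p ∈ P, 0 < cc p)
    (hnp : ∀ p ∈ P, ∀ q ∈ P, p ≠ q → ∀ a b : ℤ, a • p.2 = b • q.2 → a = 0 ∧ b = 0)
    (hsm : ∀ p ∈ S, |aa p y / cc p| ≤ R / 4)
    (hb : ∀ (x : Fin r → ℝ) (s : ℂ), ‖s‖ ≤ R →
      ‖ATC D (fun j => (x j : ℂ) + s) (fun i => (θ i : ℂ))‖ ≤ C) :
    ‖ATC D (fun j => (y j : ℂ)) (fun i => (θ i : ℂ))‖ ≤ C * ∏ p ∈ S, (2 * |aa p y / cc p| / R) := by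
  classical
  let ι := {x : P × P // x.1 ≠ x.2}
  let v : ι → Fin r → ℝ := fun x j =>
    (cc x.1.2.1 * (x.1.1.1.2 j : ℝ) - cc x.1.1.1 * (x.1.2.1.2 j : ℝ))
  have hv : ∀ x, v x ≠ 0 := by
    rintro ⟨⟨p, q⟩, hpq⟩ h0
    have hpq' : p.1 ≠ q.1 := fun h => hpq (Subtype.ext h)
    have h1 : (∑ j, q.1.2 j) • p.1.2 = (∑ j, p.1.2 j) • q.1.2 := by
      funext j
      have h2 := congrFun h0 j
      simp only [v, Pi.zero_apply, cc] at h2
      simp only [Pi.smul_apply, smul_eq_mul]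
      have h3 : (((∑ j, q.1.2 j) * p.1.2 j : ℤ) : ℝ) = (((∑ j, p.1.2 j) * q.1.2 j : ℤ) : ℝ) := by
        push_cast
        linarith
      exact_mod_cast h3
    have h2 := (hnp p.1 p.2 q.1 q.2 hpq' _ _ h1).1
    have h3 := hc q.1 q.2
    have h4 : cc q.1 = ((∑ j, q.1.2 j : ℤ) : ℝ) := by simp only [cc]; push_cast; rfl
    rw [h4, h2] at h3
    simp at h3
  obtain ⟨u, hu⟩ := gen_vec v hv
  have haa : ∀ p (ε : ℝ), aa p (fun j => y j + ε * u j) = aa p y + ε * aa p u := by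
    intro p ε
    simp only [aa, mul_add, Finset.sum_add_distrib, Finset.mul_sum]
    congr 1
    refine Finset.sum_congr rfl fun j _ => by ring
  have hcont : ∀ p, Continuous fun ε : ℝ => aa p (fun j => y j + ε * u j) := by
    intro p
    simp only [haa]
    fun_prop
  have hF : Continuous fun ε : ℝ =>
      ‖ATC D (fun j => ((y j + ε * u j : ℝ) : ℂ)) (fun i => (θ i : ℂ))‖ := by
    simp only [ATC]
    fun_prop
  have hG : Continuous fun ε : ℝ =>
      C * ∏ p ∈ S, (2 * |aa p (fun j => y j + ε * u j) / cc p| / R) := by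
    refine continuous_const.mul (continuous_finsetProd _ fun p _ => ?_)
    have := hcont p
    fun_prop
  have ev1 : ∀ᶠ ε in nhdsWithin (0 : ℝ) {0}ᶜ, ∀ p ∈ S,
      |aa p (fun j => y j + ε * u j) / cc p| ≤ R / 2 := by
    refine Filter.Eventually.filter_mono nhdsWithin_le_nhds ?_
    rw [Filter.eventually_all_finset]
    intro p hp
    have h1 : Continuous fun ε : ℝ => |aa p (fun j => y j + ε * u j) / cc p| := by
      have := hcont p
      fun_prop
    have h2 : |aa p (fun j => y j + 0 * u j) / cc p| < R / 2 := by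
      simp only [zero_mul, add_zero]
      have := hsm p hp
      linarith
    exact (h1.continuousAt.eventually_lt continuousAt_const h2).mono fun ε hε => hε.le
  have ev2 : ∀ᶠ ε in nhdsWithin (0 : ℝ) {0}ᶜ, ∀ x : ι,
      (cc x.1.2.1 * aa x.1.1.1 y - cc x.1.1.1 * aa x.1.2.1 y) + ε * (v x ⬝ᵥ u) ≠ 0 := by
    rw [Filter.eventually_all]
    intro x
    by_cases h0 : cc x.1.2.1 * aa x.1.1.1 y - cc x.1.1.1 * aa x.1.2.1 y = 0
    · filter_upwards [self_mem_nhdsWithin] with ε hε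
      rw [h0, zero_add]
      exact mul_ne_zero hε (hu x)
    · refine Filter.Eventually.filter_mono nhdsWithin_le_nhds ?_
      have h1 : Continuous fun ε : ℝ =>
          (cc x.1.2.1 * aa x.1.1.1 y - cc x.1.1.1 * aa x.1.2.1 y) + ε * (v x ⬝ᵥ u) := by
        fun_prop
      refine h1.continuousAt.eventually_ne ?_
      simpa using h0
  have ev : ∀ᶠ ε in nhdsWithin (0 : ℝ) {0}ᶜ,
      ‖ATC D (fun j => ((y j + ε * u j : ℝ) : ℂ)) (fun i => (θ i : ℂ))‖ ≤
        C * ∏ p ∈ S, (2 * |aa p (fun j => y j + ε * u j) / cc p| / R) := by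
    filter_upwards [ev1, ev2] with ε h1 h2
    refine gen D P B hA hS C θ (fun j => y j + ε * u j) R hR S hSP
      (fun p hp => (hc p (hSP hp)).ne') ?_ h1 (fun s hs => hb _ s hs)
    intro p hp q hq hpq heq
    have h3 := h2 ⟨⟨⟨p, hSP hp⟩, ⟨q, hSP hq⟩⟩, fun h => hpq (congrArg Subtype.val h)⟩
    apply h3
    have hp0 := hc p (hSP hp)
    have hq0 := hc q (hSP hq)
    rw [div_eq_div_iff hp0.ne' hq0.ne', haa, haa] at heq
    have h4 : v ⟨⟨⟨p, hSP hp⟩, ⟨q, hSP hq⟩⟩, fun h => hpq (congrArg Subtype.val h)⟩ ⬝ᵥ u =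
        cc q * aa p u - cc p * aa q u := by
      simp only [v, dotProduct, aa, Finset.mul_sum, ← Finset.sum_sub_distrib]
      refine Finset.sum_congr rfl fun j _ => by ring
    rw [h4]
    simp only
    linarith
  have t1 := (hF.tendsto 0).mono_left (nhdsWithin_le_nhds (s := {0}ᶜ))
  have t2 := (hG.tendsto 0).mono_left (nhdsWithin_le_nhds (s := {0}ᶜ))
  have h5 := le_of_tendsto_of_tendsto t1 t2 ev
  simpa only [zero_mul, add_zero] using h5

end ANU

theorem t_ANU : M_ANU := by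
  intro hATF hS r D P B h hX hR
  have hA := hATF r D P B h hX hR
  obtain ⟨K, hK, hsh⟩ := ANU.shift B hR.bas
  obtain ⟨C, hC, hbd⟩ := ANU.bound D K
  have r2 : 0 < r := by have := hX.w.r2; omega
  have hcP : ∀ p ∈ P, 1 ≤ ANU.cc p := by
    intro p hp
    obtain ⟨h1, h2⟩ := hR.pos p hp
    have h3 : ∃ i, p.2 i ≠ 0 := by
      by_contra hcon
      push Not at hcon
      exact h2 (funext hcon)
    obtain ⟨i, hi⟩ := h3
    have h4 : 1 ≤ p.2 i := by have := h1 i; omega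
    have h5 : p.2 i ≤ ∑ j, p.2 j := Finset.single_le_sum (fun j _ => h1 j) (Finset.mem_univ i)
    have h6 : ANU.cc p = ((∑ j, p.2 j : ℤ) : ℝ) := by simp only [ANU.cc]; push_cast; rfl
    rw [h6]
    exact_mod_cast h4.trans h5
  refine ⟨C * 4 ^ P.card, by positivity, fun ν θ hν => ?_⟩
  have hnd : ∀ x : ℝ, 0 ≤ nd x := fun x => abs_nonneg _
  have hT0 : 0 ≤ nz P θ := Finset.sum_nonneg fun p _ => hnd _
  have hndT : ∀ p ∈ P, nd (dz p.1 θ) ≤ nz P θ := fun p hp =>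
    Finset.single_le_sum (f := fun p : (Fin r → ℤ) × (Fin r → ℤ) => nd (dz p.1 θ))
      (fun q _ => hnd _) hp
  have haa : ∀ p : (Fin r → ℤ) × (Fin r → ℤ),
      ((p.2 ⬝ᵥ ν : ℤ) : ℝ) = ANU.aa p (fun j => (ν j : ℝ)) := by
    intro p
    simp only [dotProduct, ANU.aa]
    push_cast
    rfl
  have ha0 : ∀ p ∈ P, 0 ≤ ANU.aa p (fun j => (ν j : ℝ)) := by
    intro p hp
    refine Finset.sum_nonneg fun j _ => ?_
    have h1 : (0 : ℝ) ≤ (p.2 j : ℝ) := by exact_mod_cast (hR.pos p hp).1 j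
    have h2 : (0 : ℝ) ≤ (ν j : ℝ) := by
      have := hν j
      exact_mod_cast (by omega : (0 : ℤ) ≤ ν j)
    positivity
  have hrhs : 0 ≤ ∏ p ∈ P, min 1 (((p.2 ⬝ᵥ ν : ℤ) : ℝ) * nz P θ) := by
    refine Finset.prod_nonneg fun p hp => le_min zero_le_one ?_
    rw [haa]
    exact mul_nonneg (ha0 p hp) hT0
  rcases hT0.eq_or_lt with h0 | hT
  · obtain ⟨p, hp, -⟩ := hR.bmem ⟨0, r2⟩
    have h1 : nd (dz p.1 θ) = 0 := le_antisymm (h0 ▸ hndT p hp) (hnd _)
    have h2 : dz p.1 θ = (round (dz p.1 θ) : ℤ) := by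
      have h3 := abs_eq_zero.mp h1
      linarith
    rw [hA.van p hp ν θ _ h2, norm_zero]
    positivity
  · obtain ⟨z, θ', hθ, hz, hθ'⟩ := hsh θ (nz P θ) (fun i => by
      obtain ⟨p, hp, hpi⟩ := hR.bmem i
      rw [← hpi]
      exact hndT p hp)
    set T := nz P θ with hTdef
    have hAT : ‖AT D ν θ‖ = ‖ATC D (fun j => ((ν j : ℝ) : ℂ)) (fun i => (θ' i : ℂ))‖ := by
      have h1 : AT D ν θ = eu (dz ν z) * AT D ν θ' := by
        rw [hθ]
        exact hA.cen z hz ν θ'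
      have h2 : ‖eu (dz ν z)‖ = 1 := by
        have h3 : 2 * (π : ℂ) * (dz ν z : ℂ) * Complex.I = ((2 * π * dz ν z : ℝ) : ℂ) * Complex.I := by
          push_cast
          ring
        rw [eu, h3, Complex.norm_exp_ofReal_mul_I]
      rw [h1, norm_mul, h2, one_mul, ← hA.real]
      rfl
    have hR0 : 0 < 1 / T := by positivity
    set y : Fin r → ℝ := fun j => (ν j : ℝ) with hy
    set S : RT r := P.filter fun p => ANU.aa p y / ANU.cc p ≤ 1 / T / 4 with hSdef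
    have h1 := ANU.lim D P B hA hS C θ' y (1 / T) hR0 S (Finset.filter_subset _ _)
      (fun p hp => lt_of_lt_of_le one_pos (hcP p hp)) hR.np2
      (fun p hp => by
        obtain ⟨hp1, hp2⟩ := Finset.mem_filter.mp hp
        rw [abs_of_nonneg (div_nonneg (ha0 p hp1) (zero_le_one.trans (hcP p hp1)))]
        exact hp2)
      (fun x s hs => hbd x θ' T s hT hθ' hs)
    rw [hAT]
    refine h1.trans ?_
    rw [mul_assoc]
    refine mul_le_mul_of_nonneg_left ?_ hC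
    rw [← Finset.prod_const, ← Finset.prod_mul_distrib, hSdef, Finset.prod_filter]
    refine Finset.prod_le_prod (fun p hp => ?_) fun p hp => ?_
    · split_ifs
      · positivity
      · exact zero_le_one
    · rw [haa]
      have ha := ha0 p hp
      have hc1 := hcP p hp
      have hc0 : 0 < ANU.cc p := lt_of_lt_of_le one_pos hc1
      have hq : 0 ≤ ANU.aa p y / ANU.cc p := div_nonneg ha hc0.le
      have hle : ANU.aa p y / ANU.cc p ≤ ANU.aa p y := div_le_self ha hc1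
      split_ifs with hif
      · rw [abs_of_nonneg hq]
        have h2 : 2 * (ANU.aa p y / ANU.cc p) / (1 / T) = 2 * ((ANU.aa p y / ANU.cc p) * T) := by
          field_simp
        rw [h2]
        have h3 : (ANU.aa p y / ANU.cc p) * T ≤ 1 / 4 := by
          calc (ANU.aa p y / ANU.cc p) * T ≤ 1 / T / 4 * T := mul_le_mul_of_nonneg_right hif hT.le
            _ = 1 / 4 := by field_simp
        have h4 : (ANU.aa p y / ANU.cc p) * T ≤ ANU.aa p y * T :=
          mul_le_mul_of_nonneg_right hle hT.le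
        have h5 : (ANU.aa p y / ANU.cc p) * T ≤ min 1 (ANU.aa p y * T) := le_min (by linarith) h4
        have h6 : 0 ≤ (ANU.aa p y / ANU.cc p) * T := mul_nonneg hq hT.le
        linarith
      · have h3 : 1 / 4 ≤ ANU.aa p y * T := by
          push Not at hif
          calc 1 / 4 = 1 / T / 4 * T := by field_simp
            _ ≤ ANU.aa p y / ANU.cc p * T := mul_le_mul_of_nonneg_right hif.le hT.le
            _ ≤ ANU.aa p y * T := mul_le_mul_of_nonneg_right hle hT.le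
        have h4 : 1 / 4 ≤ min 1 (ANU.aa p y * T) := le_min (by norm_num) h3
        linarith

end

end STZ
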