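import Pool.Agent.STZ.StmtsK

/-!
# Module BRG: the restriction of the characters of `G₂` to `SU(3)`
-/

namespace STZ

open MeasureTheory Matrix

open scoped ComplexConjugate Matrix Real

noncomputable section

namespace BRG

/-! ### continuity -/

theorem cont_hp (v : ℂ) (k : ℕ) : Continuous fun u : ℂ => hp u v k := by
  induction k with
  | zero => exact continuous_const
  | succ k ih =>
    have h1 : Continuous fun u : ℂ => (hp u v k).1 := continuous_fst.comp ih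
    have h2 : Continuous fun u : ℂ => (hp u v k).2.1 :=
      continuous_fst.comp (continuous_snd.comp ih)
    have h3 : Continuous fun u : ℂ => (hp u v k).2.2 :=
      continuous_snd.comp (continuous_snd.comp ih)
    exact h2.prodMk (h3.prodMk
      (((continuous_id.mul h3).sub (continuous_const.mul h2)).add h1))

theorem cont_hn (v : ℂ) (k : ℕ) : Continuous fun u : ℂ => hn u v k := by
  induction k with
  | zero => exact continuous_const
  | succ k ih =>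
    have h1 : Continuous fun u : ℂ => (hn u v k).1 := continuous_fst.comp ih
    have h2 : Continuous fun u : ℂ => (hn u v k).2.1 :=
      continuous_fst.comp (continuous_snd.comp ih)
    have h3 : Continuous fun u : ℂ => (hn u v k).2.2 :=
      continuous_snd.comp (continuous_snd.comp ih)
    exact ((h3.sub (continuous_id.mul h2)).add (continuous_const.mul h1)).prodMk
      (h1.prodMk h2)

theorem cont_HH (v : ℂ) (k : ℤ) : Continuous fun u : ℂ => HH u v k := by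
  cases k with
  | ofNat k => exact continuous_snd.comp (continuous_snd.comp (cont_hp v k))
  | negSucc k => exact continuous_snd.comp (continuous_snd.comp (cont_hn v (k + 1)))

theorem cont_ps (v : ℂ) (a b : ℤ) : Continuous fun u : ℂ => ps u v a b := by
  unfold ps XX
  apply Continuous.matrix_det
  refine continuous_matrix fun i j => ?_
  exact cont_HH v _

/-! ### the coefficients -/

/-- the multiplicity as a function of the three coordinates -/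
def m3 (p : ℕ) (i j k : ℤ) : ℤ :=
  max 0 ((p : ℤ) + 1 - (max i 0 + max j 0 + max k 0))

theorem mlt_m3 (p q : ℕ) (κ : Fin 3 → ℤ) (h : κ 0 + κ 1 + κ 2 = (p : ℤ) - q) :
    mlt p q κ = m3 p (κ 0) (κ 1) (κ 2) := by
  rw [mlt, Fin.sum_univ_three, Fin.sum_univ_three, if_pos h, m3]

theorem mlt_zero (p q : ℕ) (κ : Fin 3 → ℤ) (h : κ 0 + κ 1 + κ 2 ≠ (p : ℤ) - q) :
    mlt p q κ = 0 := by
  rw [mlt, Fin.sum_univ_three, if_neg h]

theorem m3_ne {p q : ℕ} {i j k : ℤ} (hs : i + j + k = (p : ℤ) - q) (h : m3 p i j k ≠ 0) :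
    -((p + q : ℕ) : ℤ) ≤ i ∧ i ≤ (p + q : ℕ) ∧ -((p + q : ℕ) : ℤ) ≤ j ∧ j ≤ (p + q : ℕ) ∧
      -((p + q : ℕ) : ℤ) ≤ k ∧ k ≤ (p + q : ℕ) := by
  unfold m3 at h
  push_cast
  omega

theorem tri (i : ℤ) :
    (i ≤ -1 ∧ max (i - 1) 0 = 0 ∧ max i 0 = 0 ∧ max (i + 1) 0 = 0) ∨
    (i = 0 ∧ max (i - 1) 0 = 0 ∧ max i 0 = 0 ∧ max (i + 1) 0 = 1) ∨
    (1 ≤ i ∧ max (i - 1) 0 = i - 1 ∧ max i 0 = i ∧ max (i + 1) 0 = i + 1) := by
  omega

theorem coef (p q : ℕ) (i j k : ℤ) (hs : i + j + k = (p : ℤ) - q) (hi : i ≠ -((q : ℤ) + 1))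
    (hj : j ≠ -((q : ℤ) + 1)) :
    m3 p (i - 1) j (k + 1) - m3 p (i + 1) j (k - 1) + (m3 p (i + 1) (j - 1) k -
      m3 p (i - 1) (j + 1) k) + (m3 p i (j + 1) (k - 1) - m3 p i (j - 1) (k + 1)) =
    (if i = (p : ℤ) + 1 ∧ j = 0 then 1 else 0) - (if i = 0 ∧ j = (p : ℤ) + 1 then 1 else 0) := by
  unfold m3
  rcases tri i with ⟨a0, a1, a2, a3⟩ | ⟨a0, a1, a2, a3⟩ | ⟨a0, a1, a2, a3⟩ <;>
  rcases tri j with ⟨b0, b1, b2, b3⟩ | ⟨b0, b1, b2, b3⟩ | ⟨b0, b1, b2, b3⟩ <;>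
  rcases tri k with ⟨c0, c1, c2, c3⟩ | ⟨c0, c1, c2, c3⟩ | ⟨c0, c1, c2, c3⟩ <;>
  rw [a1, a2, a3, b1, b2, b3, c1, c2, c3] <;>
  split_ifs <;> omega

/-! ### sums over pairs -/

/-- the square of radius `n` -/
abbrev Sq (n : ℕ) : Finset (ℤ × ℤ) :=
  Finset.Icc (-(n : ℤ)) n ×ˢ Finset.Icc (-(n : ℤ)) n

theorem mem_Sq {n : ℕ} {z : ℤ × ℤ} : z ∈ Sq n ↔ (-(n : ℤ) ≤ z.1 ∧ z.1 ≤ n) ∧
    (-(n : ℤ) ≤ z.2 ∧ z.2 ≤ n) := by
  rw [Finset.mem_product, Finset.mem_Icc, Finset.mem_Icc]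

theorem to_pairs (p q : ℕ) (G : ℤ × ℤ → ℂ) :
    ∑ κ ∈ Fintype.piFinset (fun _ : Fin 3 => Finset.Icc (-((p + q : ℕ) : ℤ)) (p + q : ℕ)),
      (mlt p q κ : ℂ) * G (κ 0, κ 1) =
    ∑ z ∈ Sq (p + q + 1), (m3 p z.1 z.2 ((p : ℤ) - q - z.1 - z.2) : ℂ) * G z := by
  refine Finset.sum_bij_ne_zero (fun κ _ _ => (κ 0, κ 1)) ?_ ?_ ?_ ?_
  · intro κ hκ _
    rw [Fintype.mem_piFinset] at hκ
    have h0 := Finset.mem_Icc.1 (hκ 0)
    have h1 := Finset.mem_Icc.1 (hκ 1)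
    rw [mem_Sq]
    push_cast at h0 h1 ⊢
    show (_ ≤ κ 0 ∧ κ 0 ≤ _) ∧ (_ ≤ κ 1 ∧ κ 1 ≤ _)
    omega
  · intro κ _ hκ2 κ' _ hκ2' h
    have h1 : κ 0 = κ' 0 := congrArg Prod.fst h
    have h2 : κ 1 = κ' 1 := congrArg Prod.snd h
    have h3 : κ 0 + κ 1 + κ 2 = (p : ℤ) - q := by
      by_contra h4
      apply hκ2
      rw [mlt_zero p q κ h4, Int.cast_zero, zero_mul]
    have h3' : κ' 0 + κ' 1 + κ' 2 = (p : ℤ) - q := by
      by_contra h4
      apply hκ2'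
      rw [mlt_zero p q κ' h4, Int.cast_zero, zero_mul]
    funext i
    fin_cases i
    · exact h1
    · exact h2
    · show κ 2 = κ' 2
      omega
  · intro z _ hz
    have hs : z.1 + z.2 + ((p : ℤ) - q - z.1 - z.2) = (p : ℤ) - q := by ring
    have h1 : m3 p z.1 z.2 ((p : ℤ) - q - z.1 - z.2) ≠ 0 := by
      intro h
      apply hz
      rw [h, Int.cast_zero, zero_mul]
    obtain ⟨a1, a2, a3, a4, a5, a6⟩ := m3_ne hs h1
    refine ⟨![z.1, z.2, (p : ℤ) - q - z.1 - z.2], ?_, ?_, rfl⟩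
    · rw [Fintype.mem_piFinset]
      intro i
      rw [Finset.mem_Icc]
      fin_cases i
      · exact ⟨a1, a2⟩
      · exact ⟨a3, a4⟩
      · exact ⟨a5, a6⟩
    · have h2 : mlt p q ![z.1, z.2, (p : ℤ) - q - z.1 - z.2] =
          m3 p z.1 z.2 ((p : ℤ) - q - z.1 - z.2) := mlt_m3 p q _ hs
      rw [h2]
      exact hz
  · intro κ _ hκ2
    have h3 : κ 0 + κ 1 + κ 2 = (p : ℤ) - q := by
      by_contra h4
      apply hκ2
      rw [mlt_zero p q κ h4, Int.cast_zero, zero_mul]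
    rw [mlt_m3 p q κ h3]
    have h4 : κ 2 = (p : ℤ) - q - κ 0 - κ 1 := by omega
    rw [h4]

theorem shift (p q : ℕ) (G : ℤ × ℤ → ℂ) (a b : ℤ) (ha : |a| ≤ 1) (hb : |b| ≤ 1) :
    ∑ z ∈ Sq (p + q + 1), (m3 p z.1 z.2 ((p : ℤ) - q - z.1 - z.2) : ℂ) * G (z.1 + a, z.2 + b) =
    ∑ z ∈ Sq (p + q + 1),
      (m3 p (z.1 - a) (z.2 - b) ((p : ℤ) - q - (z.1 - a) - (z.2 - b)) : ℂ) * G z := by
  rw [abs_le] at ha hb
  refine Finset.sum_bij_ne_zero (fun z _ _ => (z.1 + a, z.2 + b)) ?_ ?_ ?_ ?_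
  · intro z _ hz
    have hs : z.1 + z.2 + ((p : ℤ) - q - z.1 - z.2) = (p : ℤ) - q := by ring
    have h1 : m3 p z.1 z.2 ((p : ℤ) - q - z.1 - z.2) ≠ 0 := by
      intro h
      apply hz
      rw [h, Int.cast_zero, zero_mul]
    obtain ⟨a1, a2, a3, a4, a5, a6⟩ := m3_ne hs h1
    rw [mem_Sq]
    push_cast at a1 a2 a3 a4 ⊢
    show (_ ≤ z.1 + a ∧ z.1 + a ≤ _) ∧ (_ ≤ z.2 + b ∧ z.2 + b ≤ _)
    omega
  · intro z _ _ z' _ _ h
    have h1 : z.1 + a = z'.1 + a := congrArg Prod.fst h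
    have h2 : z.2 + b = z'.2 + b := congrArg Prod.snd h
    exact Prod.ext (by omega) (by omega)
  · intro z _ hz
    have hs : (z.1 - a) + (z.2 - b) + ((p : ℤ) - q - (z.1 - a) - (z.2 - b)) = (p : ℤ) - q := by
      ring
    have h1 : m3 p (z.1 - a) (z.2 - b) ((p : ℤ) - q - (z.1 - a) - (z.2 - b)) ≠ 0 := by
      intro h
      apply hz
      rw [h, Int.cast_zero, zero_mul]
    obtain ⟨a1, a2, a3, a4, a5, a6⟩ := m3_ne hs h1
    refine ⟨(z.1 - a, z.2 - b), ?_, ?_, ?_⟩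
    · rw [mem_Sq]
      push_cast at a1 a2 a3 a4 ⊢
      show (_ ≤ z.1 - a ∧ z.1 - a ≤ _) ∧ (_ ≤ z.2 - b ∧ z.2 - b ≤ _)
      omega
    · show (m3 p (z.1 - a) (z.2 - b) ((p : ℤ) - q - (z.1 - a) - (z.2 - b)) : ℂ) *
        G (z.1 - a + a, z.2 - b + b) ≠ 0
      rw [sub_add_cancel, sub_add_cancel]
      exact hz
    · show (z.1 - a + a, z.2 - b + b) = z
      rw [sub_add_cancel, sub_add_cancel]
  · intro z _ _
    show _ = (m3 p (z.1 + a - a) (z.2 + b - b) ((p : ℤ) - q - (z.1 + a - a) - (z.2 + b - b)) : ℂ) *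
      G (z.1 + a, z.2 + b)
    rw [add_sub_cancel_right, add_sub_cancel_right]

theorem key (hA : ALTF) (p q : ℕ) (u v : ℂ) :
    (u - v) * ∑ κ ∈ Fintype.piFinset
        (fun _ : Fin 3 => Finset.Icc (-((p + q : ℕ) : ℤ)) (p + q : ℕ)),
      (mlt p q κ : ℂ) * ps u v (q + 1 + κ 0) (q + 1 + κ 1) =
    ps u v ((q : ℤ) + 1 + (p + 1)) (q + 1) - ps u v (q + 1) ((q : ℤ) + 1 + (p + 1)) := by
  set G : ℤ × ℤ → ℂ := fun z => ps u v (q + 1 + z.1) (q + 1 + z.2) with hG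
  have h1 := to_pairs p q G
  have h2 : ∀ z : ℤ × ℤ, (u - v) * G z = G (z.1 + 1, z.2 + 0) - G (z.1 + (-1), z.2 + 0) +
      (G (z.1 + (-1), z.2 + 1) - G (z.1 + 1, z.2 + (-1))) +
      (G (z.1 + 0, z.2 + (-1)) - G (z.1 + 0, z.2 + 1)) := by
    intro z
    have e1 := hA.xp u v ((q : ℤ) + 1 + z.1) ((q : ℤ) + 1 + z.2)
    have e2 := hA.yp u v ((q : ℤ) + 1 + z.1) ((q : ℤ) + 1 + z.2)
    show (u - v) * ps u v ((q : ℤ) + 1 + z.1) ((q : ℤ) + 1 + z.2) = _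
    rw [sub_mul, e1, e2]
    simp only [hG, add_zero]
    have f1 : (q : ℤ) + 1 + (z.1 + 1) = (q : ℤ) + 1 + z.1 + 1 := by ring
    have f2 : (q : ℤ) + 1 + (z.1 + -1) = (q : ℤ) + 1 + z.1 - 1 := by ring
    have f3 : (q : ℤ) + 1 + (z.2 + 1) = (q : ℤ) + 1 + z.2 + 1 := by ring
    have f4 : (q : ℤ) + 1 + (z.2 + -1) = (q : ℤ) + 1 + z.2 - 1 := by ring
    rw [f1, f2, f3, f4]
    ring
  have hL : ∑ κ ∈ Fintype.piFinset
        (fun _ : Fin 3 => Finset.Icc (-((p + q : ℕ) : ℤ)) (p + q : ℕ)),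
      (mlt p q κ : ℂ) * ps u v (q + 1 + κ 0) (q + 1 + κ 1) =
      ∑ z ∈ Sq (p + q + 1), (m3 p z.1 z.2 ((p : ℤ) - q - z.1 - z.2) : ℂ) * G z := h1
  rw [hL, Finset.mul_sum]
  have h3 : ∀ z ∈ Sq (p + q + 1), (u - v) * ((m3 p z.1 z.2 ((p : ℤ) - q - z.1 - z.2) : ℂ) * G z) =
      (m3 p z.1 z.2 ((p : ℤ) - q - z.1 - z.2) : ℂ) * G (z.1 + 1, z.2 + 0) -
      (m3 p z.1 z.2 ((p : ℤ) - q - z.1 - z.2) : ℂ) * G (z.1 + (-1), z.2 + 0) +
      ((m3 p z.1 z.2 ((p : ℤ) - q - z.1 - z.2) : ℂ) * G (z.1 + (-1), z.2 + 1) -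
      (m3 p z.1 z.2 ((p : ℤ) - q - z.1 - z.2) : ℂ) * G (z.1 + 1, z.2 + (-1))) +
      ((m3 p z.1 z.2 ((p : ℤ) - q - z.1 - z.2) : ℂ) * G (z.1 + 0, z.2 + (-1)) -
      (m3 p z.1 z.2 ((p : ℤ) - q - z.1 - z.2) : ℂ) * G (z.1 + 0, z.2 + 1)) := by
    intro z _
    rw [mul_left_comm, h2]
    ring
  rw [Finset.sum_congr rfl h3]
  simp only [Finset.sum_add_distrib, Finset.sum_sub_distrib]
  rw [shift p q G 1 0 (by norm_num) (by norm_num), shift p q G (-1) 0 (by norm_num) (by norm_num),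
    shift p q G (-1) 1 (by norm_num) (by norm_num), shift p q G 1 (-1) (by norm_num) (by norm_num),
    shift p q G 0 (-1) (by norm_num) (by norm_num), shift p q G 0 1 (by norm_num) (by norm_num)]
  simp only [← Finset.sum_add_distrib, ← Finset.sum_sub_distrib]
  have h4 : ∀ z ∈ Sq (p + q + 1),
      (m3 p (z.1 - 1) (z.2 - 0) ((p : ℤ) - q - (z.1 - 1) - (z.2 - 0)) : ℂ) * G z -
      (m3 p (z.1 - -1) (z.2 - 0) ((p : ℤ) - q - (z.1 - -1) - (z.2 - 0)) : ℂ) * G z +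
      ((m3 p (z.1 - -1) (z.2 - 1) ((p : ℤ) - q - (z.1 - -1) - (z.2 - 1)) : ℂ) * G z -
      (m3 p (z.1 - 1) (z.2 - -1) ((p : ℤ) - q - (z.1 - 1) - (z.2 - -1)) : ℂ) * G z) +
      ((m3 p (z.1 - 0) (z.2 - -1) ((p : ℤ) - q - (z.1 - 0) - (z.2 - -1)) : ℂ) * G z -
      (m3 p (z.1 - 0) (z.2 - 1) ((p : ℤ) - q - (z.1 - 0) - (z.2 - 1)) : ℂ) * G z) =
      (if z = ((p : ℤ) + 1, (0 : ℤ)) then G z else 0) -
        (if z = ((0 : ℤ), (p : ℤ) + 1) then G z else 0) := by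
    intro z _
    by_cases hi : z.1 = -((q : ℤ) + 1)
    · have h5 : G z = 0 := by
        show ps u v ((q : ℤ) + 1 + z.1) ((q : ℤ) + 1 + z.2) = 0
        have h6 : (q : ℤ) + 1 + z.1 = 0 := by omega
        rw [h6, hA.p0]
      rw [h5]
      simp
    by_cases hj : z.2 = -((q : ℤ) + 1)
    · have h5 : G z = 0 := by
        show ps u v ((q : ℤ) + 1 + z.1) ((q : ℤ) + 1 + z.2) = 0
        have h6 : (q : ℤ) + 1 + z.2 = 0 := by omega
        rw [h6, hA.q0]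
      rw [h5]
      simp
    have hs : z.1 + z.2 + ((p : ℤ) - q - z.1 - z.2) = (p : ℤ) - q := by ring
    have h6 := coef p q z.1 z.2 _ hs hi hj
    have k1 : (p : ℤ) - q - (z.1 - 1) - (z.2 - 0) = (p : ℤ) - q - z.1 - z.2 + 1 := by ring
    have k2 : (p : ℤ) - q - (z.1 - -1) - (z.2 - 0) = (p : ℤ) - q - z.1 - z.2 - 1 := by ring
    have k3 : (p : ℤ) - q - (z.1 - -1) - (z.2 - 1) = (p : ℤ) - q - z.1 - z.2 := by ring
    have k4 : (p : ℤ) - q - (z.1 - 1) - (z.2 - -1) = (p : ℤ) - q - z.1 - z.2 := by ring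
    have k5 : (p : ℤ) - q - (z.1 - 0) - (z.2 - -1) = (p : ℤ) - q - z.1 - z.2 - 1 := by ring
    have k6 : (p : ℤ) - q - (z.1 - 0) - (z.2 - 1) = (p : ℤ) - q - z.1 - z.2 + 1 := by ring
    rw [k1, k2, k3, k4, k5, k6]
    simp only [sub_neg_eq_add, sub_zero]
    have h7 := congrArg (fun t : ℤ => (t : ℂ) * G z) h6
    have e1 : (z = ((p : ℤ) + 1, (0 : ℤ))) ↔ (z.1 = (p : ℤ) + 1 ∧ z.2 = 0) := by
      rw [Prod.ext_iff]
    have e2 : (z = ((0 : ℤ), (p : ℤ) + 1)) ↔ (z.1 = 0 ∧ z.2 = (p : ℤ) + 1) := by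
      rw [Prod.ext_iff]
    simp only [e1, e2]
    push_cast at h7
    have h8 : ∀ (P : Prop) [Decidable P], (if P then (1 : ℂ) else 0) * G z =
        if P then G z else 0 := by
      intro P _
      split_ifs
      · rw [one_mul]
      · rw [zero_mul]
    rw [sub_mul, h8, h8] at h7
    rw [← h7]
    ring
  rw [Finset.sum_congr rfl h4, Finset.sum_sub_distrib, Finset.sum_ite_eq', Finset.sum_ite_eq',
    if_pos, if_pos]
  · show ps u v ((q : ℤ) + 1 + (p + 1)) ((q : ℤ) + 1 + 0) -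
      ps u v ((q : ℤ) + 1 + 0) ((q : ℤ) + 1 + (p + 1)) = _
    rw [add_zero]
  · rw [mem_Sq]
    push_cast
    omega
  · rw [mem_Sq]
    push_cast
    omega

end BRG

open BRG in
theorem t_BRG : M_BRG := by
  intro hA ψ hψ p q u v
  obtain ⟨F, hF⟩ := hψ.poly ![(p : ℤ) + 1, (q : ℤ) + 1]
  have hne : ∀ u v : ℂ, u ≠ v → ψ ![1 + u + v, u * v + u + v - 1] ![(p : ℤ) + 1, (q : ℤ) + 1] =
      ∑ κ ∈ Fintype.piFinset (fun _ : Fin 3 => Finset.Icc (-((p + q : ℕ) : ℤ)) (p + q : ℕ)),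
        (mlt p q κ : ℂ) * ps u v (q + 1 + κ 0) (q + 1 + κ 1) := by
    intro u v huv
    have h1 := hψ.eq u v ![(p : ℤ) + 1, (q : ℤ) + 1]
    have h2 := key hA p q u v
    have h3 : (![(p : ℤ) + 1, (q : ℤ) + 1] : Fin 2 → ℤ) 0 = (p : ℤ) + 1 := rfl
    have h4 : (![(p : ℤ) + 1, (q : ℤ) + 1] : Fin 2 → ℤ) 1 = (q : ℤ) + 1 := rfl
    rw [h3, h4] at h1
    have h5 : (p : ℤ) + 1 + ((q : ℤ) + 1) = (q : ℤ) + 1 + (p + 1) := by ring
    rw [h5, ← h2, mul_comm (u - v)] at h1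
    exact mul_right_cancel₀ (sub_ne_zero.2 huv) h1
  have hc1 : Continuous fun u : ℂ =>
      ψ ![1 + u + v, u * v + u + v - 1] ![(p : ℤ) + 1, (q : ℤ) + 1] := by
    have h1 : (fun u : ℂ => ψ ![1 + u + v, u * v + u + v - 1] ![(p : ℤ) + 1, (q : ℤ) + 1]) =
        fun u : ℂ => MvPolynomial.aeval ![1 + u + v, u * v + u + v - 1] F := by
      funext u
      exact hF _
    rw [h1]
    have h2 : ∀ F : MvPolynomial (Fin 2) ℤ, Continuous fun u : ℂ =>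
        MvPolynomial.aeval (![1 + u + v, u * v + u + v - 1] : Fin 2 → ℂ) F := by
      intro F
      induction F using MvPolynomial.induction_on with
      | C a =>
        simp only [MvPolynomial.aeval_C]
        exact continuous_const
      | add f g hf hg =>
        simp only [map_add]
        exact hf.add hg
      | mul_X f i hf =>
        simp only [map_mul, MvPolynomial.aeval_X]
        refine hf.mul ?_
        fin_cases i
        · exact (continuous_const.add continuous_id).add continuous_const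
        · exact (((continuous_id.mul continuous_const).add continuous_id).add
            continuous_const).sub continuous_const
    exact h2 F
  have hc2 : Continuous fun u : ℂ =>
      ∑ κ ∈ Fintype.piFinset (fun _ : Fin 3 => Finset.Icc (-((p + q : ℕ) : ℤ)) (p + q : ℕ)),
        (mlt p q κ : ℂ) * ps u v (q + 1 + κ 0) (q + 1 + κ 1) :=
    continuous_finsetSum _ fun κ _ => continuous_const.mul (cont_ps v _ _)
  have hd : Dense ({v}ᶜ : Set ℂ) := dense_compl_singleton v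
  have h := Continuous.ext_on hd hc1 hc2 (fun u hu => hne u v (by simpa using hu))
  exact congrFun h u

end

end STZ
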