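import Pool.Agent.STZ.StmtsG

/-!
# Module CALC: rules for the derivatives
-/

namespace STZ

open MeasureTheory Matrix

open scoped ComplexConjugate Matrix Real

noncomputable section

namespace CALC

variable {n : ℕ}

theorem val0 {X : Matrix (Fin n) (Fin n) ℂ} (hX : EXF X) (f : SU n → ℂ) (g : SU n) :
    f (g * ex X 0) = f g := by
  rw [hX.zero, mul_one]

theorem dconst (X : Matrix (Fin n) (Fin n) ℂ) (c : ℂ) (g : SU n) :
    dX X (fun _ => c) g = 0 := by
  rw [dX]
  exact deriv_const 0 c

theorem dadd {X : Matrix (Fin n) (Fin n) ℂ} (hX : X ∈ su n) {f h : SU n → ℂ} (hf : C1 f)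
    (hh : C1 h) (g : SU n) : dX X (fun g => f g + h g) g = dX X f g + dX X h g := by
  have := deriv_add (hf.diff X hX g) (hh.diff X hX g)
  exact this

theorem dmul (hE : S_EXP) {X : Matrix (Fin n) (Fin n) ℂ} (hX : X ∈ su n) {f h : SU n → ℂ}
    (hf : C1 f) (hh : C1 h) (g : SU n) :
    dX X (fun g => f g * h g) g = dX X f g * h g + f g * dX X h g := by
  have := deriv_mul (hf.diff X hX g) (hh.diff X hX g)
  rw [val0 (hE n X hX) f g, val0 (hE n X hX) h g] at this
  exact this

theorem hasDeriv_conj {F : ℝ → ℂ} {F' : ℂ} {t : ℝ} (h : HasDerivAt F F' t) :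
    HasDerivAt (fun t => conj (F t)) (conj F') t := by
  have := (Complex.conjCLE.toContinuousLinearMap.hasFDerivAt (x := F t)).comp_hasDerivAt t h
  exact this

theorem dconj {X : Matrix (Fin n) (Fin n) ℂ} (hX : X ∈ su n) {f : SU n → ℂ} (hf : C1 f)
    (g : SU n) : dX X (fun g => conj (f g)) g = conj (dX X f g) :=
  (hasDeriv_conj (hf.diff X hX g).hasDerivAt).deriv

theorem dleft {X : Matrix (Fin n) (Fin n) ℂ} (h : SU n) (f : SU n → ℂ) (g : SU n) :
    dX X (fun g => f (h * g)) g = dX X f (h * g) := by
  simp only [dX, mul_assoc]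

theorem entry_der (hE : S_EXP) {X : Matrix (Fin n) (Fin n) ℂ} (hX : X ∈ su n) (i j : Fin n)
    (g : SU n) : HasDerivAt (fun t : ℝ => (g * ex X t).1 i j) ((g.1 * X) i j) 0 := by
  have h1 : (fun t : ℝ => (g * ex X t).1 i j) = fun t => ∑ k, g.1 i k * (ex X t).1 k j := by
    funext t
    rw [coe_mul, Matrix.mul_apply]
  rw [h1, Matrix.mul_apply]
  exact HasDerivAt.fun_sum fun k _ => ((hE n X hX).der k j).const_mul (g.1 i k)

theorem dentry (hE : S_EXP) {X : Matrix (Fin n) (Fin n) ℂ} (hX : X ∈ su n) (i j : Fin n)
    (g : SU n) : dX X (fun g => g.1 i j) g = (g.1 * X) i j := (entry_der hE hX i j g).deriv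

theorem const1 (c : ℂ) : C1 (fun _ : SU n => c) where
  cont := continuous_const
  diff := fun _ _ _ => differentiableAt_const c
  dcont := fun X _ => by
    rw [show dX X (fun _ : SU n => c) = fun _ => 0 from funext fun g => dconst X c g]
    exact continuous_const

theorem add1 {f h : SU n → ℂ} (hf : C1 f) (hh : C1 h) : C1 (fun g => f g + h g) where
  cont := hf.cont.add hh.cont
  diff := fun X hX g => (hf.diff X hX g).add (hh.diff X hX g)
  dcont := fun X hX => by
    rw [show dX X (fun g => f g + h g) = fun g => dX X f g + dX X h g from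
      funext fun g => dadd hX hf hh g]
    exact (hf.dcont X hX).add (hh.dcont X hX)

theorem mul1 (hE : S_EXP) {f h : SU n → ℂ} (hf : C1 f) (hh : C1 h) :
    C1 (fun g => f g * h g) where
  cont := hf.cont.mul hh.cont
  diff := fun X hX g => (hf.diff X hX g).mul (hh.diff X hX g)
  dcont := fun X hX => by
    rw [show dX X (fun g => f g * h g) = fun g => dX X f g * h g + f g * dX X h g from
      funext fun g => dmul hE hX hf hh g]
    exact ((hf.dcont X hX).mul hh.cont).add (hf.cont.mul (hh.dcont X hX))

theorem cj1 {f : SU n → ℂ} (hf : C1 f) : C1 (fun g => conj (f g)) where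
  cont := Complex.continuous_conj.comp hf.cont
  diff := fun X hX g => (hasDeriv_conj (hf.diff X hX g).hasDerivAt).differentiableAt
  dcont := fun X hX => by
    rw [show dX X (fun g => conj (f g)) = fun g => conj (dX X f g) from
      funext fun g => dconj hX hf g]
    exact Complex.continuous_conj.comp (hf.dcont X hX)

theorem left1 (h : SU n) {f : SU n → ℂ} (hf : C1 f) : C1 (fun g => f (h * g)) where
  cont := hf.cont.comp (continuous_const.mul continuous_id)
  diff := fun X hX g => by
    have := hf.diff X hX (h * g)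
    simpa only [mul_assoc] using this
  dcont := fun X hX => by
    rw [show dX X (fun g => f (h * g)) = fun g => dX X f (h * g) from
      funext fun g => dleft h f g]
    exact (hf.dcont X hX).comp (continuous_const.mul continuous_id)

theorem entry1 (hE : S_EXP) (i j : Fin n) : C1 (fun g : SU n => g.1 i j) where
  cont := continuous_entry i j
  diff := fun X hX g => (entry_der hE hX i j g).differentiableAt
  dcont := fun X hX => by
    rw [show dX X (fun g : SU n => g.1 i j) = fun g => ∑ k, g.1 i k * X k j from
      funext fun g => by rw [dentry hE hX, Matrix.mul_apply]]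
    exact continuous_finsetSum _ fun k _ => (continuous_entry i k).mul continuous_const

theorem sum1 {ι : Type} (s : Finset ι) (f : ι → SU n → ℂ) (hf : ∀ i, C1 (f i)) :
    C1 (fun g => ∑ i ∈ s, f i g) := by
  classical
  induction s using Finset.induction_on with
  | empty =>
    simp only [Finset.sum_empty]
    exact const1 0
  | insert a s ha ih =>
    simp only [Finset.sum_insert ha]
    exact add1 (hf a) ih

end CALC

open CALC in
theorem t_CALC : M_CALC := by
  intro hE n
  refine ⟨fun c => ⟨const1 c, fun X _ => ?_⟩, fun f h hf hh => ⟨add1 hf.1 hh.1, fun X hX => ?_⟩,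
    fun f h hf hh => ⟨mul1 hE hf.1 hh.1, fun X hX => ?_⟩, fun f hf => ⟨cj1 hf.1, fun X hX => ?_⟩,
    fun i j => ⟨entry1 hE i j, fun X hX => ?_⟩, fun h f hf => ⟨left1 h hf.1, fun X hX => ?_⟩,
    fun f h hf hh => add1 hf hh, fun f h hf hh => mul1 hE hf hh, dconst,
    fun X hX f h hf hh g => dadd hX hf hh g, fun X hX f h hf hh g => dmul hE hX hf hh g,
    fun X hX f hf g => dconj hX hf g, fun X hX i j g => dentry hE hX i j g,
    fun X _ h f _ g => dleft h f g⟩
  · rw [show dX X (fun _ : SU n => c) = fun _ => 0 from funext fun g => dconst X c g]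
    exact const1 0
  · rw [show dX X (fun g => f g + h g) = fun g => dX X f g + dX X h g from
      funext fun g => dadd hX hf.1 hh.1 g]
    exact add1 (hf.2 X hX) (hh.2 X hX)
  · rw [show dX X (fun g => f g * h g) = fun g => dX X f g * h g + f g * dX X h g from
      funext fun g => dmul hE hX hf.1 hh.1 g]
    exact add1 (mul1 hE (hf.2 X hX) hh.1) (mul1 hE hf.1 (hh.2 X hX))
  · rw [show dX X (fun g => conj (f g)) = fun g => conj (dX X f g) from
      funext fun g => dconj hX hf.1 g]
    exact cj1 (hf.2 X hX)
  · rw [show dX X (fun g : SU n => g.1 i j) = fun g => ∑ k, g.1 i k * X k j from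
      funext fun g => by rw [dentry hE hX, Matrix.mul_apply]]
    exact sum1 Finset.univ (fun k g => g.1 i k * X k j)
      fun k => mul1 hE (entry1 hE i k) (const1 (X k j))
  · rw [show dX X (fun g => f (h * g)) = fun g => dX X f (h * g) from
      funext fun g => dleft h f g]
    exact left1 h (hf.2 X hX)

end

end STZ
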