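import Pool.Agent.STZ.StmtsG

/-!
# The Casimir tensor
-/

namespace STZ

open Matrix

namespace CAS

/-- the matrices `1` and `X a` -/
noncomputable def v {n : ℕ} (X : Fin (n ^ 2 - 1) → Matrix (Fin n) (Fin n) ℂ) :
    Option (Fin (n ^ 2 - 1)) → Matrix (Fin n) (Fin n) ℂ
  | none => 1
  | some a => X a

/-- their squares -/
noncomputable def c (n : ℕ) : Option (Fin (n ^ 2 - 1)) → ℂ
  | none => n
  | some _ => -(1 / (2 * (n : ℂ)))

theorem c_ne {n : ℕ} (hn : 1 ≤ n) (i : Option (Fin (n ^ 2 - 1))) : c n i ≠ 0 := by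
  have h : (n : ℂ) ≠ 0 := by
    exact_mod_cast (by omega : n ≠ 0)
  rcases i with _ | a
  · exact h
  · simp only [c]
    exact neg_ne_zero.2 (one_div_ne_zero (mul_ne_zero two_ne_zero h))

theorem orth {n : ℕ} (hn : 1 ≤ n) {X : Fin (n ^ 2 - 1) → Matrix (Fin n) (Fin n) ℂ} (hX : Frame X)
    (i j : Option (Fin (n ^ 2 - 1))) : (v X i * v X j).trace = if i = j then c n i else 0 := by
  have h : (n : ℂ) ≠ 0 := by
    exact_mod_cast (by omega : n ≠ 0)
  rcases i with _ | a <;> rcases j with _ | b
  · simp [v, c]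
  · simp only [v, one_mul]
    rw [(hX.mem b).2]
    simp
  · simp only [v, mul_one]
    rw [(hX.mem a).2]
    simp
  · have h1 := hX.orth a b
    simp only [v, c, Option.some.injEq]
    split_ifs at h1 ⊢ with h2
    · field_simp
      linear_combination -h1
    · rcases mul_eq_zero.1 h1 with h3 | h3
      · exact absurd h3 (neg_ne_zero.2 (mul_ne_zero two_ne_zero h))
      · exact h3

theorem span {n : ℕ} (hn : 1 ≤ n) {X : Fin (n ^ 2 - 1) → Matrix (Fin n) (Fin n) ℂ}
    (hX : Frame X) : Submodule.span ℂ (Set.range (v X)) = ⊤ := by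
  have h1 : LinearIndependent ℂ (v X) := by
    rw [Fintype.linearIndependent_iff]
    intro g hg i
    have h2 : (v X i * ∑ j, g j • v X j).trace = g i * c n i := by
      rw [Finset.mul_sum, trace_sum, Finset.sum_eq_single i]
      · rw [mul_smul_comm, trace_smul, orth hn hX, if_pos rfl, smul_eq_mul]
      · intro j _ hj
        rw [mul_smul_comm, trace_smul, orth hn hX, if_neg (Ne.symm hj), smul_zero]
      · intro hh
        exact absurd (Finset.mem_univ i) hh
    rw [hg, mul_zero, trace_zero] at h2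
    exact (mul_eq_zero.1 h2.symm).resolve_right (c_ne hn i)
  apply h1.span_eq_top_of_card_eq_finrank'
  rw [Fintype.card_option, Fintype.card_fin, Module.finrank_matrix, Module.finrank_self,
    Fintype.card_fin]
  have : 1 ≤ n ^ 2 := Nat.one_le_pow _ _ hn
  rw [mul_one, ← pow_two]
  omega

theorem expand {n : ℕ} (hn : 1 ≤ n) {X : Fin (n ^ 2 - 1) → Matrix (Fin n) (Fin n) ℂ}
    (hX : Frame X) (Y : Matrix (Fin n) (Fin n) ℂ) :
    Y = ∑ i, ((v X i * Y).trace / c n i) • v X i := by
  have h0 : ∀ W : Matrix (Fin n) (Fin n) ℂ,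
      (W * (Y - ∑ i, ((v X i * Y).trace / c n i) • v X i)).trace = 0 := by
    intro W
    have hW : W ∈ Submodule.span ℂ (Set.range (v X)) := by
      rw [span hn hX]
      exact Submodule.mem_top
    induction hW using Submodule.span_induction with
    | mem x hx =>
      obtain ⟨j, rfl⟩ := hx
      rw [mul_sub, trace_sub, Finset.mul_sum, trace_sum, Finset.sum_eq_single j]
      · rw [mul_smul_comm, trace_smul, orth hn hX, if_pos rfl, smul_eq_mul,
          div_mul_cancel₀ _ (c_ne hn j), sub_self]
      · intro i _ hi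
        rw [mul_smul_comm, trace_smul, orth hn hX, if_neg (Ne.symm hi), smul_zero]
      · intro hh
        exact absurd (Finset.mem_univ j) hh
    | zero => rw [zero_mul, trace_zero]
    | add x y _ _ hx hy => rw [add_mul, trace_add, hx, hy, add_zero]
    | smul a x _ hx => rw [smul_mul_assoc, trace_smul, hx, smul_zero]
  rw [← sub_eq_zero]
  ext k l
  have h1 := h0 (Matrix.single l k 1)
  rw [trace_single_mul] at h1
  simpa using h1

end CAS

theorem t_CAS : S_CAS := by
  intro n hn X hX i j k l
  have h : (n : ℂ) ≠ 0 := by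
    exact_mod_cast (by omega : n ≠ 0)
  have h1 := CAS.expand hn hX (Matrix.single l k 1)
  rw [Fintype.sum_option] at h1
  have h2 := congrFun (congrFun h1 i) j
  simp only [CAS.v, CAS.c, one_mul, Matrix.add_apply, Matrix.smul_apply, Matrix.sum_apply,
    trace_mul_single, smul_eq_mul] at h2
  have h3 : ∑ x, MulOpposite.op (1 : ℂ) • X x k l / -(1 / (2 * (n : ℂ))) * X x i j =
      -(2 * (n : ℂ)) * ∑ a, X a i j * X a k l := by
    rw [Finset.mul_sum]
    refine Finset.sum_congr rfl fun a _ => ?_
    rw [op_smul_eq_mul, mul_one]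
    field_simp
  have h4 : (Matrix.single l k (1 : ℂ)).trace = if k = l then 1 else 0 := by
    split_ifs with h5
    · rw [h5, trace_single_eq_same]
    · exact trace_single_eq_of_ne _ _ _ (Ne.symm h5)
  rw [h3, h4, Matrix.one_apply, Matrix.single_apply] at h2
  have h6 : (if l = i ∧ k = j then (1 : ℂ) else 0) = if i = l ∧ j = k then 1 else 0 := by
    simp only [eq_comm]
  have h7 : (if k = l then (1 : ℂ) else 0) / n * (if i = j then 1 else 0) =
      if i = j ∧ k = l then 1 / (n : ℂ) else 0 := by
    by_cases h8 : i = j <;> by_cases h9 : k = l <;> simp [h8, h9]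
  rw [h6, h7] at h2
  rw [h2]
  field_simp
  ring

end STZ
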