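import Pool.Agent.STZ.StmtsN

/-!
# The Casimir tensor of `Sp(2)`
-/

namespace STZ

open Matrix

open scoped ComplexConjugate Matrix

namespace CASC

theorem JJ : J4 * J4 = -1 := by
  ext i j
  fin_cases i <;> fin_cases j <;> simp [J4, Matrix.mul_apply, Fin.sum_univ_four]

theorem JT : J4ᵀ = -J4 := by
  ext i j
  fin_cases i <;> fin_cases j <;> simp [J4]

theorem JH : J4ᴴ = -J4 := by
  ext i j
  fin_cases i <;> fin_cases j <;> simp [J4]

/-- `J Xᵀ J = X` -/
theorem conjJ {X : Matrix (Fin 4) (Fin 4) ℂ} (h : Xᵀ * J4 + J4 * X = 0) : J4 * (Xᵀ * J4) = X := by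
  have h1 : Xᵀ * J4 = -(J4 * X) := eq_neg_of_add_eq_zero_left h
  rw [h1, mul_neg, ← mul_assoc, JJ]
  simp

theorem trace_zero {X : Matrix (Fin 4) (Fin 4) ℂ} (h : Xᵀ * J4 + J4 * X = 0) : X.trace = 0 := by
  have h1 : (J4 * (Xᵀ * J4)).trace = X.trace := by rw [conjJ h]
  rw [trace_mul_comm, mul_assoc, JJ] at h1
  simp only [mul_neg, mul_one, trace_neg, trace_transpose] at h1
  have h2 : (2 : ℂ) * X.trace = 0 := by linear_combination -h1
  simpa using h2

theorem herm {X : Matrix (Fin 4) (Fin 4) ℂ} (h : Xᵀ * J4 + J4 * X = 0) :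
    Xᴴᵀ * J4 + J4 * Xᴴ = 0 := by
  have h1 := congrArg conjTranspose (conjJ h)
  rw [conjTranspose_mul, conjTranspose_mul, JH] at h1
  have h2 : (Xᵀ)ᴴ = Xᴴᵀ := by
    ext i j
    simp
  rw [h2] at h1
  simp only [neg_mul, mul_neg, neg_neg] at h1
  have h3 : (J4 * (Xᴴᵀ * J4))ᵀ = J4 * (Xᴴ * J4) := by
    rw [transpose_mul, transpose_mul, JT, transpose_transpose]
    simp only [neg_mul, mul_neg, neg_neg, mul_assoc]
  have h4 : Xᴴᵀ = J4 * (Xᴴ * J4) := by
    have h5 := congrArg transpose h1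
    rw [mul_assoc, h3] at h5
    exact h5.symm
  have h6 : Xᴴᵀ * J4 = -(J4 * Xᴴ) := by
    rw [h4, mul_assoc, mul_assoc, JJ]
    simp
  rw [h6]
  simp

end CASC

open CASC in
theorem t_CASC : M_CASC := by
  intro hL X hX i j k l
  have hXJ : ∀ a, (X a)ᵀ * J4 + J4 * X a = 0 := fun a => ((hL (X a)).1 (hX.mem a)).2
  -- the complexification
  have h1 : ∀ Z : Matrix (Fin 4) (Fin 4) ℂ, Zᵀ * J4 + J4 * Z = 0 →
      ∃ z : Fin 10 → ℂ, Z = ∑ a, z a • X a := by
    intro Z hZ
    have hH := herm hZ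
    have hA : (1 / 2 : ℂ) • (Z - Zᴴ) ∈ lie Sp2 := by
      rw [hL]
      refine ⟨⟨?_, ?_⟩, ?_⟩
      · rw [conjTranspose_smul, conjTranspose_sub, conjTranspose_conjTranspose]
        simp only [one_div, star_inv₀, star_ofNat, smul_sub]
        abel
      · rw [trace_smul, trace_sub, CASC.trace_zero hZ, CASC.trace_zero hH]
        simp
      · rw [transpose_smul, transpose_sub, smul_mul_assoc, mul_smul_comm, ← smul_add, sub_mul,
          mul_sub]
        have : Zᵀ * J4 - Zᴴᵀ * J4 + (J4 * Z - J4 * Zᴴ) =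
          (Zᵀ * J4 + J4 * Z) - (Zᴴᵀ * J4 + J4 * Zᴴ) := by abel
        rw [this, hZ, hH]
        simp
    have hB : (-Complex.I / 2 : ℂ) • (Z + Zᴴ) ∈ lie Sp2 := by
      rw [hL]
      refine ⟨⟨?_, ?_⟩, ?_⟩
      · rw [conjTranspose_smul, conjTranspose_add, conjTranspose_conjTranspose, ← neg_smul,
          add_comm Zᴴ]
        congr 1
        simp [neg_div]
      · rw [trace_smul, trace_add, CASC.trace_zero hZ, CASC.trace_zero hH]
        simp
      · rw [transpose_smul, transpose_add, smul_mul_assoc, mul_smul_comm, ← smul_add, add_mul,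
          mul_add]
        have : Zᵀ * J4 + Zᴴᵀ * J4 + (J4 * Z + J4 * Zᴴ) =
          (Zᵀ * J4 + J4 * Z) + (Zᴴᵀ * J4 + J4 * Zᴴ) := by abel
        rw [this, hZ, hH]
        simp
    obtain ⟨y, hy⟩ := hX.span _ hA
    obtain ⟨y', hy'⟩ := hX.span _ hB
    refine ⟨fun a => (y a : ℂ) + Complex.I * (y' a : ℂ), ?_⟩
    have e : Z = (1 / 2 : ℂ) • (Z - Zᴴ) + Complex.I • ((-Complex.I / 2 : ℂ) • (Z + Zᴴ)) := by
      rw [smul_smul]
      have : Complex.I * (-Complex.I / 2) = 1 / 2 := by
        linear_combination (-1 / 2 : ℂ) * Complex.I_mul_I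
      rw [this, ← smul_add]
      ext a b
      simp only [Matrix.smul_apply, Matrix.add_apply, Matrix.sub_apply, smul_eq_mul]
      ring
    calc Z = _ := e
      _ = _ := by
        rw [hy, hy', Finset.smul_sum, ← Finset.sum_add_distrib]
        refine Finset.sum_congr rfl fun a _ => ?_
        rw [smul_smul, add_smul]
  have h2 : ∀ Z : Matrix (Fin 4) (Fin 4) ℂ, Zᵀ * J4 + J4 * Z = 0 →
      Z = ∑ a, (-6 * (X a * Z).trace) • X a := by
    intro Z hZ
    obtain ⟨z, hz⟩ := h1 Z hZ
    have h3 : ∀ b, -6 * (X b * Z).trace = z b := by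
      intro b
      rw [hz, Finset.mul_sum, trace_sum, Finset.mul_sum, Finset.sum_eq_single b]
      · rw [mul_smul_comm, trace_smul, smul_eq_mul]
        have h4 := hX.orth b b
        rw [if_pos rfl] at h4
        push_cast at h4
        linear_combination z b * h4
      · intro a _ hab
        rw [mul_smul_comm, trace_smul, smul_eq_mul]
        have h4 := hX.orth b a
        rw [if_neg (Ne.symm hab)] at h4
        push_cast at h4
        linear_combination z a * h4
      · intro hh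
        exact absurd (Finset.mem_univ b) hh
    simp only [h3]
    exact hz
  -- the projection
  obtain ⟨Y, hY⟩ : ∃ Y : Matrix (Fin 4) (Fin 4) ℂ, Y = Matrix.single l k (1 : ℂ) := ⟨_, rfl⟩
  have h3 := h2 ((1 / 2 : ℂ) • (Y + J4 * (Yᵀ * J4))) (by
    rw [transpose_smul, transpose_add, smul_mul_assoc, mul_smul_comm, ← smul_add, add_mul,
      mul_add, transpose_mul, transpose_mul, transpose_transpose, JT]
    have e1 : -J4 * Y * -J4 * J4 = -(J4 * Y) := by
      simp only [neg_mul, mul_neg, neg_neg, mul_assoc, JJ, mul_one]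
    have e2 : J4 * (J4 * (Yᵀ * J4)) = -(Yᵀ * J4) := by
      rw [← mul_assoc, JJ]
      simp
    rw [e1, e2]
    have : Yᵀ * J4 + -(J4 * Y) + (J4 * Y + -(Yᵀ * J4)) = 0 := by abel
    rw [this, smul_zero])
  have h4 : ∀ a, (X a * ((1 / 2 : ℂ) • (Y + J4 * (Yᵀ * J4)))).trace = X a k l := by
    intro a
    rw [mul_smul_comm, trace_smul, mul_add, trace_add]
    have e1 : (X a * (J4 * (Yᵀ * J4))).trace = (X a * Y).trace := by
      have e2 : (X a * (J4 * (Yᵀ * J4)))ᵀ = J4 * Y * (J4 * (X a)ᵀ) := by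
        rw [transpose_mul, transpose_mul, transpose_mul, transpose_transpose, JT]
        simp only [neg_mul, mul_neg, neg_neg, mul_assoc]
      rw [← trace_transpose, e2, trace_mul_comm, ← mul_assoc, mul_assoc J4,  conjJ (hXJ a)]
    rw [e1, hY, trace_mul_single]
    simp only [smul_eq_mul, op_smul_eq_mul]
    ring
  simp only [h4] at h3
  have h5 := congrFun (congrFun h3 i) j
  have h6 : (J4 * (Yᵀ * J4)) i j = J4 i k * J4 l j := by
    rw [hY, transpose_single, mul_apply, Finset.sum_eq_single k]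
    · rw [single_mul_apply_same]
      ring
    · intro b _ hb
      rw [single_mul_apply_of_ne _ _ _ _ _ hb, mul_zero]
    · intro hh
      exact absurd (Finset.mem_univ k) hh
  have h7 : J4 l j = -J4 j l := by
    have := congrFun (congrFun JT j) l
    simpa using this
  rw [Matrix.smul_apply, Matrix.add_apply, h6, h7, hY, Matrix.sum_apply] at h5
  simp only [Matrix.smul_apply, smul_eq_mul, Matrix.single_apply] at h5
  have h8 : ∑ x, -6 * X x k l * X x i j = -6 * ∑ a, X a i j * X a k l := by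
    rw [Finset.mul_sum]
    refine Finset.sum_congr rfl fun a _ => by ring
  rw [h8] at h5
  have h9 : (if l = i ∧ k = j then (1 : ℂ) else 0) = if i = l ∧ j = k then 1 else 0 := by
    simp only [eq_comm]
  rw [h9] at h5
  linear_combination (1 / 6 : ℂ) * h5

end STZ
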