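import Pool.Agent.STZ.StmtsN

/-!
# Module CASG: the Casimir tensor of `G₂`
-/

set_option autoImplicit false

namespace STZ

open MeasureTheory Matrix

open scoped ComplexConjugate Matrix Real

noncomputable section

namespace CASG

theorem cyc (h : PHF) (m i j : Fin 7) : ph m i j = ph i j m := by
  have h1 := h.a1 i m j
  have h2 := h.a2 i j m
  rw [h1, h2, neg_neg]

/-- the integral form (times 6) -/
def zz (k l i j : Fin 7) : ℤ :=
  3 * (dl i k * dl j l - dl i l * dl j k) - ∑ m, ph i j m * ph k l m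

theorem sum_dl (f : Fin 7 → Fin 7 → ℤ) (k l : Fin 7) :
    ∑ i, ∑ j, f i j * (dl i k * dl j l) = f k l := by
  rw [Finset.sum_eq_single k]
  · rw [Finset.sum_eq_single l]
    · simp [dl]
    · intro j _ hj
      simp [dl, hj]
    · intro h
      exact absurd (Finset.mem_univ l) h
  · intro i _ hi
    refine Finset.sum_eq_zero fun j _ => ?_
    simp [dl, hi]
  · intro h
    exact absurd (Finset.mem_univ k) h

theorem sum_zz (h : PHF) (n k l : Fin 7) : ∑ i, ∑ j, ph n i j * zz k l i j = 0 := by
  have h1 : ∑ i, ∑ j, ph n i j * ∑ m, ph i j m * ph k l m = 6 * ph k l n := by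
    calc ∑ i, ∑ j, ph n i j * ∑ m, ph i j m * ph k l m
        = ∑ i, ∑ j, ∑ m, ph n i j * (ph i j m * ph k l m) := by
          refine Finset.sum_congr rfl fun i _ => Finset.sum_congr rfl fun j _ => ?_
          rw [Finset.mul_sum]
      _ = ∑ i, ∑ m, ∑ j, ph n i j * (ph i j m * ph k l m) :=
          Finset.sum_congr rfl fun i _ => Finset.sum_comm
      _ = ∑ m, ∑ i, ∑ j, ph n i j * (ph i j m * ph k l m) := Finset.sum_comm
      _ = ∑ m, (6 * dl n m) * ph k l m := by
          refine Finset.sum_congr rfl fun m _ => ?_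
          rw [← h.c6 n m, Finset.sum_mul]
          refine Finset.sum_congr rfl fun i _ => ?_
          rw [Finset.sum_mul]
          refine Finset.sum_congr rfl fun j _ => ?_
          rw [cyc h m i j]
          ring
      _ = 6 * ph k l n := by
          rw [Finset.sum_eq_single n]
          · simp [dl]
          · intro m _ hm
            simp [dl, Ne.symm hm]
          · intro h
            exact absurd (Finset.mem_univ n) h
  have h2 : ∑ i, ∑ j, ph n i j * zz k l i j =
      3 * (∑ i, ∑ j, ph n i j * (dl i k * dl j l) - ∑ i, ∑ j, ph n i j * (dl i l * dl j k)) -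
        ∑ i, ∑ j, ph n i j * ∑ m, ph i j m * ph k l m := by
    rw [← Finset.sum_sub_distrib, Finset.mul_sum, ← Finset.sum_sub_distrib]
    refine Finset.sum_congr rfl fun i _ => ?_
    rw [← Finset.sum_sub_distrib, Finset.mul_sum, ← Finset.sum_sub_distrib]
    refine Finset.sum_congr rfl fun j _ => ?_
    rw [zz]
    ring
  rw [h2, h1, sum_dl, sum_dl]
  have h3 := h.a2 n k l
  have h4 := cyc h n k l
  rw [h3, ← h4]
  ring

theorem zz_anti (h : PHF) (k l i j : Fin 7) : zz k l j i = - zz k l i j := by
  have h1 : ∑ m, ph j i m * ph k l m = - ∑ m, ph i j m * ph k l m := by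
    rw [← Finset.sum_neg_distrib]
    refine Finset.sum_congr rfl fun m _ => ?_
    rw [h.a1 i j m]
    ring
  rw [zz, zz, h1]
  ring

/-- the contraction with an element of the Lie algebra -/
theorem contr (h : PHF) (W : Matrix (Fin 7) (Fin 7) ℂ) (hT : Wᵀ = -W)
    (hW : ∀ i, ∑ j, ∑ k, (ph i j k : ℂ) * W j k = 0) (k l : Fin 7) :
    ∑ i, ∑ j, (zz k l i j : ℂ) * W i j = 6 * W k l := by
  have hanti : W l k = - W k l := by
    have := congrFun (congrFun hT k) l
    rwa [Matrix.transpose_apply, Matrix.neg_apply] at this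
  have hs : ∀ k l : Fin 7, ∑ i, ∑ j, ((dl i k * dl j l : ℤ) : ℂ) * W i j = W k l := by
    intro k l
    rw [Finset.sum_eq_single k]
    · rw [Finset.sum_eq_single l]
      · simp [dl]
      · intro j _ hj
        simp [dl, hj]
      · intro h
        exact absurd (Finset.mem_univ l) h
    · intro i _ hi
      refine Finset.sum_eq_zero fun j _ => ?_
      simp [dl, hi]
    · intro h
      exact absurd (Finset.mem_univ k) h
  have h1 : ∑ i, ∑ j, ((∑ m, ph i j m * ph k l m : ℤ) : ℂ) * W i j = 0 := by
    calc ∑ i, ∑ j, ((∑ m, ph i j m * ph k l m : ℤ) : ℂ) * W i j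
        = ∑ i, ∑ j, ∑ m, (ph k l m : ℂ) * ((ph m i j : ℂ) * W i j) := by
          refine Finset.sum_congr rfl fun i _ => Finset.sum_congr rfl fun j _ => ?_
          push_cast
          rw [Finset.sum_mul]
          refine Finset.sum_congr rfl fun m _ => ?_
          rw [cyc h m i j]
          ring
      _ = ∑ i, ∑ m, ∑ j, (ph k l m : ℂ) * ((ph m i j : ℂ) * W i j) :=
          Finset.sum_congr rfl fun i _ => Finset.sum_comm
      _ = ∑ m, ∑ i, ∑ j, (ph k l m : ℂ) * ((ph m i j : ℂ) * W i j) := Finset.sum_comm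
      _ = 0 := by
          refine Finset.sum_eq_zero fun m _ => ?_
          have h2 : ∑ i, ∑ j, (ph k l m : ℂ) * ((ph m i j : ℂ) * W i j) =
              (ph k l m : ℂ) * ∑ i, ∑ j, (ph m i j : ℂ) * W i j := by
            rw [Finset.mul_sum]
            refine Finset.sum_congr rfl fun i _ => ?_
            rw [Finset.mul_sum]
          rw [h2, hW m, mul_zero]
  have h2 : ∑ i, ∑ j, (zz k l i j : ℂ) * W i j =
      3 * (∑ i, ∑ j, ((dl i k * dl j l : ℤ) : ℂ) * W i j -
        ∑ i, ∑ j, ((dl i l * dl j k : ℤ) : ℂ) * W i j) -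
        ∑ i, ∑ j, ((∑ m, ph i j m * ph k l m : ℤ) : ℂ) * W i j := by
    rw [← Finset.sum_sub_distrib, Finset.mul_sum, ← Finset.sum_sub_distrib]
    refine Finset.sum_congr rfl fun i _ => ?_
    rw [← Finset.sum_sub_distrib, Finset.mul_sum, ← Finset.sum_sub_distrib]
    refine Finset.sum_congr rfl fun j _ => ?_
    rw [zz]
    push_cast
    ring
  rw [h2, h1, hs, hs, hanti]
  ring

end CASG

open CASG in
theorem t_CASG : M_CASG := by
  intro hP hL X hX i j k l
  have hmem := fun a => (hL (X a)).1 (hX.mem a)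
  let Z : Matrix (Fin 7) (Fin 7) ℂ := Matrix.of fun i j => (zz k l i j : ℂ)
  have hZ : Z ∈ lie G2 := by
    rw [hL]
    refine ⟨fun i j => ?_, ?_, fun n => ?_⟩
    · change conj ((zz k l i j : ℤ) : ℂ) = _
      exact map_intCast (starRingEnd ℂ) _
    · ext i j
      change ((zz k l j i : ℤ) : ℂ) = -((zz k l i j : ℤ) : ℂ)
      rw [zz_anti hP]
      push_cast
      ring
    · have h1 := sum_zz hP n k l
      have h2 : ((∑ i, ∑ j, ph n i j * zz k l i j : ℤ) : ℂ) = 0 := by
        rw [h1, Int.cast_zero]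
      push_cast at h2
      exact h2
  obtain ⟨y, hy⟩ := hX.span Z hZ
  have hyb : ∀ b, (y b : ℂ) = 24 * X b k l := by
    intro b
    have h1 : (X b * Z).trace = -(1 / 4) * (y b : ℂ) := by
      rw [hy, Finset.mul_sum, trace_sum, Finset.sum_eq_single b]
      · rw [mul_smul_comm, trace_smul, smul_eq_mul]
        have h2 := hX.orth b b
        rw [if_pos rfl] at h2
        push_cast at h2
        linear_combination (-(1 / 4) * (y b : ℂ)) * h2
      · intro a _ ha
        rw [mul_smul_comm, trace_smul, smul_eq_mul]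
        have h2 := hX.orth b a
        rw [if_neg (Ne.symm ha)] at h2
        push_cast at h2
        linear_combination (-(1 / 4) * (y a : ℂ)) * h2
      · intro h
        exact absurd (Finset.mem_univ b) h
    have h3 : (X b * Z).trace = -(6 * X b k l) := by
      rw [← contr hP (X b) (hmem b).2.1 (hmem b).2.2 k l, Matrix.trace, ← Finset.sum_neg_distrib]
      refine Finset.sum_congr rfl fun i _ => ?_
      rw [Matrix.diag_apply, Matrix.mul_apply, ← Finset.sum_neg_distrib]
      refine Finset.sum_congr rfl fun j _ => ?_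
      change X b i j * ((zz k l j i : ℤ) : ℂ) = _
      rw [zz_anti hP]
      push_cast
      ring
    rw [h1] at h3
    linear_combination (-4) * h3
  have h5 : ((zz k l i j : ℤ) : ℂ) = ∑ a, 24 * X a k l * X a i j := by
    have h6 := congrFun (congrFun hy i) j
    rw [Matrix.sum_apply] at h6
    change ((zz k l i j : ℤ) : ℂ) = _ at h6
    rw [h6]
    refine Finset.sum_congr rfl fun a _ => ?_
    rw [Matrix.smul_apply, smul_eq_mul, hyb]
  have h7 : ∑ a, 24 * X a k l * X a i j = 24 * ∑ a, X a i j * X a k l := by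
    rw [Finset.mul_sum]
    refine Finset.sum_congr rfl fun a _ => ?_
    ring
  rw [h7] at h5
  have h8 : ((zz k l i j : ℤ) : ℂ) = 3 * (((dl i k * dl j l : ℤ) : ℂ) - ((dl i l * dl j k : ℤ) : ℂ)) -
      ((∑ m, ph i j m * ph k l m : ℤ) : ℂ) := by
    rw [zz]
    push_cast
    ring
  rw [h8] at h5
  linear_combination (-(1 / 24)) * h5

end

end STZ
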