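import Pool.Agent.STZ.StmtsL

/-!
# Module CASM of the project STZ
-/

namespace STZ

open MeasureTheory Matrix

open scoped ComplexConjugate Matrix Real ENNReal

noncomputable section

/-- Expansion of `D Z` in the matrix units. -/
theorem CASM.expand (hD : S_DALG) (n : ℕ) (Z : Matrix (Fin n) (Fin n) ℂ) (F : MP n) :
    D Z F = ∑ k, ∑ l, Z k l • D (Matrix.single k l (1 : ℂ)) F := by
  let L : Matrix (Fin n) (Fin n) ℂ →ₗ[ℂ] MP n :=
    { toFun := fun Z => D Z F
      map_add' := fun Z W => (hD n F).1 Z W
      map_smul' := fun c Z => (hD n F).2.1 c Z }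
  have h1 : L Z = L (∑ k, ∑ l, Matrix.single k l (Z k l)) :=
    congrArg L (Matrix.matrix_eq_sum_single Z)
  rw [map_sum] at h1
  change L Z = _
  rw [h1]
  refine Finset.sum_congr rfl fun k _ => ?_
  rw [map_sum]
  refine Finset.sum_congr rfl fun l _ => ?_
  have h2 : Matrix.single k l (Z k l) = Z k l • Matrix.single k l (1 : ℂ) := by
    rw [Matrix.smul_single, smul_eq_mul, mul_one]
  rw [h2, map_smul]
  rfl

theorem t_CASM : M_CASM := by
  intro hC hD n hn X hX F
  set G : Fin n → Fin n → Fin n → Fin n → MP n := fun k l p q =>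
    D (Matrix.single k l (1 : ℂ)) (D (Matrix.single p q (1 : ℂ)) F) with hG
  have h1 : ∀ a, D (X a) (D (X a) F) =
      ∑ k, ∑ l, ∑ p, ∑ q, (X a k l * X a p q) • G k l p q := by
    intro a
    rw [CASM.expand hD n (X a) (D (X a) F)]
    refine Finset.sum_congr rfl fun k _ => Finset.sum_congr rfl fun l _ => ?_
    rw [CASM.expand hD n (X a) F, map_sum, Finset.smul_sum]
    refine Finset.sum_congr rfl fun p _ => ?_
    rw [map_sum, Finset.smul_sum]
    refine Finset.sum_congr rfl fun q _ => ?_
    rw [Derivation.map_smul, smul_smul]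
  have h2 : ∑ a, D (X a) (D (X a) F) =
      ∑ k, ∑ l, ∑ p, ∑ q, (∑ a, X a k l * X a p q) • G k l p q := by
    rw [Finset.sum_congr rfl fun a _ => h1 a, Finset.sum_comm]
    refine Finset.sum_congr rfl fun k _ => ?_
    rw [Finset.sum_comm]
    refine Finset.sum_congr rfl fun l _ => ?_
    rw [Finset.sum_comm]
    refine Finset.sum_congr rfl fun p _ => ?_
    rw [Finset.sum_comm]
    refine Finset.sum_congr rfl fun q _ => ?_
    rw [Finset.sum_smul]
  rw [h2]
  set c : ℂ := -(1 / (2 * (n : ℂ))) with hc
  have h3 : ∀ k l p q : Fin n, (∑ a, X a k l * X a p q) • G k l p q =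
      c • ((if q = k then (if p = l then G k l p q else 0) else 0) -
        (if l = k then (if q = p then (1 / (n : ℂ)) • G k l p q else 0) else 0)) := by
    intro k l p q
    rw [hC n hn X hX k l p q, ← hc, mul_smul, sub_smul]
    congr 1
    congr 1
    · by_cases e1 : k = q
      · by_cases e2 : l = p
        · rw [if_pos ⟨e1, e2⟩, if_pos e1.symm, if_pos e2.symm, one_smul]
        · rw [if_neg (fun h => e2 h.2), if_pos e1.symm, if_neg (fun h => e2 h.symm), zero_smul]
      · rw [if_neg (fun h => e1 h.1), if_neg (fun h => e1 h.symm), zero_smul]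
    · by_cases e1 : k = l
      · by_cases e2 : p = q
        · rw [if_pos ⟨e1, e2⟩, if_pos e1.symm, if_pos e2.symm]
        · rw [if_neg (fun h => e2 h.2), if_pos e1.symm, if_neg (fun h => e2 h.symm), zero_smul]
      · rw [if_neg (fun h => e1 h.1), if_neg (fun h => e1 h.symm), zero_smul]
  have h4 : ∑ k, ∑ l, ∑ p, ∑ q, (∑ a, X a k l * X a p q) • G k l p q =
      c • ((∑ k, ∑ l, G k l l k) - ∑ k, ∑ p, (1 / (n : ℂ)) • G k k p p) := by
    rw [← Finset.sum_sub_distrib, Finset.smul_sum]
    refine Finset.sum_congr rfl fun k _ => ?_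
    have h5 : ∑ l, ∑ p, ∑ q, (∑ a, X a k l * X a p q) • G k l p q =
        c • ((∑ l, ∑ p, ∑ q, (if q = k then (if p = l then G k l p q else 0) else 0)) -
          ∑ l, ∑ p, ∑ q, (if l = k then (if q = p then (1 / (n : ℂ)) • G k l p q else 0)
            else 0)) := by
      rw [← Finset.sum_sub_distrib, Finset.smul_sum]
      refine Finset.sum_congr rfl fun l _ => ?_
      rw [← Finset.sum_sub_distrib, Finset.smul_sum]
      refine Finset.sum_congr rfl fun p _ => ?_
      rw [← Finset.sum_sub_distrib, Finset.smul_sum]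
      refine Finset.sum_congr rfl fun q _ => ?_
      exact h3 k l p q
    rw [h5]
    congr 2
    · refine Finset.sum_congr rfl fun l _ => ?_
      have h6 : ∀ p, ∑ q, (if q = k then (if p = l then G k l p q else 0) else 0) =
          if p = l then G k l p k else 0 := by
        intro p
        rw [Finset.sum_ite_eq' Finset.univ k]
        simp
      rw [Finset.sum_congr rfl fun p _ => h6 p, Finset.sum_ite_eq' Finset.univ l]
      simp
    · have h7 : ∀ l, ∑ p, ∑ q, (if l = k then (if q = p then (1 / (n : ℂ)) • G k l p q else 0)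
            else 0) = if l = k then ∑ p, (1 / (n : ℂ)) • G k l p p else 0 := by
        intro l
        by_cases e : l = k
        · simp only [if_pos e]
          refine Finset.sum_congr rfl fun p _ => ?_
          rw [Finset.sum_ite_eq' Finset.univ p]
          simp
        · simp only [if_neg e, Finset.sum_const_zero]
      rw [Finset.sum_congr rfl fun l _ => h7 l, Finset.sum_ite_eq' Finset.univ k]
      simp
  rw [h4]
  congr 2
  rw [Finset.smul_sum]
  refine Finset.sum_congr rfl fun k _ => ?_
  rw [Finset.smul_sum]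

end

end STZ
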