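import Pool.Agent.STZ.StmtsY

/-!
# Module CDIF: differences of the Fourier coefficients of the cutoff functions
-/

namespace STZ

open MeasureTheory Matrix

open scoped ComplexConjugate Matrix Real

noncomputable section

namespace CDIF

theorem nd_eq (θ : ℝ) : nd θ = ‖(θ : UnitAddCircle)‖ := by
  rw [UnitAddCircle.norm_eq]
  rfl

theorem nd_cont : Continuous nd := by
  have h : nd = fun θ : ℝ => ‖(θ : UnitAddCircle)‖ := funext nd_eq
  rw [h]
  exact continuous_norm.comp (AddCircle.continuous_mk' 1)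

theorem nd_nonneg (θ : ℝ) : 0 ≤ nd θ := abs_nonneg _

theorem nd_sum {ι : Type} (s : Finset ι) (n : ι → ℤ) (y : ι → ℝ) :
    nd (∑ j ∈ s, (n j : ℝ) * y j) ≤ ∑ j ∈ s, |(n j : ℝ)| * nd (y j) := by
  rw [nd_eq]
  have h : ((∑ j ∈ s, (n j : ℝ) * y j : ℝ) : UnitAddCircle) = ∑ j ∈ s, n j • ((y j : ℝ) : UnitAddCircle) := by
    have h1 : ((∑ j ∈ s, (n j : ℝ) * y j : ℝ) : UnitAddCircle) =
        ∑ j ∈ s, (((n j : ℝ) * y j : ℝ) : UnitAddCircle) :=
      map_sum (QuotientAddGroup.mk' (AddSubgroup.zmultiples (1 : ℝ))) _ _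
    rw [h1]
    refine Finset.sum_congr rfl fun j _ => ?_
    rw [← zsmul_eq_mul]
    exact map_zsmul (QuotientAddGroup.mk' (AddSubgroup.zmultiples (1 : ℝ))) _ _
  rw [h]
  refine (norm_sum_le _ _).trans (Finset.sum_le_sum fun j _ => ?_)
  rw [nd_eq]
  refine (norm_zsmul_le _ _).trans (le_of_eq ?_)
  rw [Int.norm_eq_abs]

theorem norm_eu (x : ℝ) : ‖eu x‖ = 1 := by
  have h : (2 * π * x * Complex.I : ℂ) = ((2 * π * x : ℝ) : ℂ) * Complex.I := by push_cast; ring
  rw [eu, h, Complex.norm_exp_ofReal_mul_I]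

theorem eu_sub_int (x : ℝ) (n : ℤ) : eu x = eu (x - n) := by
  rw [eu, eu]
  have h : (2 * π * ((x - n : ℝ) : ℂ) * Complex.I : ℂ) = 2 * π * x * Complex.I - n * (2 * π * Complex.I) := by
    push_cast; ring
  rw [h, Complex.exp_periodic.sub_int_mul_eq]

theorem one_sub_eu (x : ℝ) : ‖1 - eu x‖ ≤ 2 * π * nd x := by
  rw [eu_sub_int x (round x), norm_sub_rev]
  have h : (2 * π * ((x - round x : ℝ) : ℂ) * Complex.I : ℂ) =
      Complex.I * ((2 * π * (x - round x) : ℝ) : ℂ) := by push_cast; ring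
  rw [eu, h]
  refine (Real.norm_exp_I_mul_ofReal_sub_one_le).trans (le_of_eq ?_)
  rw [Real.norm_eq_abs, abs_mul, abs_of_pos (by positivity : (0 : ℝ) < 2 * π), nd]

theorem eu_cont : Continuous eu := by
  unfold eu
  fun_prop

variable {r : ℕ} {D : RD r} {P : RT r} {B : Matrix (Fin r) (Fin r) ℤ} {h : ℕ}

theorem dz_cont (κ : Fin r → ℤ) : Continuous (dz κ) := by
  unfold dz
  fun_prop

theorem nz_cont (P : RT r) : Continuous (nz P) := by
  unfold nz
  exact continuous_finsetSum _ fun p _ => nd_cont.comp (dz_cont p.1)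

theorem nz_nonneg (P : RT r) (θ : Fin r → ℝ) : 0 ≤ nz P θ :=
  Finset.sum_nonneg fun _ _ => nd_nonneg _

theorem nd_le_nz (hP : RTD D P B h) (i : Fin r) (θ : Fin r → ℝ) : nd (dz (B i) θ) ≤ nz P θ := by
  obtain ⟨p, hp, hpi⟩ := hP.bmem i
  rw [← hpi]
  exact Finset.single_le_sum (f := fun p : (Fin r → ℤ) × (Fin r → ℤ) => nd (dz p.1 θ))
    (fun _ _ => nd_nonneg _) hp

/-- `|det B| θ i` is an integral combination of the `dz (B j) θ` -/
theorem det_eq (B : Matrix (Fin r) (Fin r) ℤ) (i : Fin r) (θ : Fin r → ℝ) :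
    (B.det.natAbs : ℝ) * θ i = ∑ j, ((B.det.sign * B.adjugate i j : ℤ) : ℝ) * dz (B j) θ := by
  have h1 : ∀ k, ∑ j, B.adjugate i j * B j k = if i = k then B.det else 0 := by
    intro k
    have h2 := congrFun (congrFun (Matrix.adjugate_mul B) i) k
    rw [Matrix.mul_apply] at h2
    rw [h2, Matrix.smul_apply, Matrix.one_apply, smul_eq_mul, mul_ite, mul_one, mul_zero]
  have h3 : (B.det.natAbs : ℝ) = ((B.det.sign * B.det : ℤ) : ℝ) := by
    rw [Int.sign_mul_self_eq_abs, Nat.cast_natAbs]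
  have h4 : ∑ j, ((B.det.sign * B.adjugate i j : ℤ) : ℝ) * dz (B j) θ =
      ∑ k, ((B.det.sign * ∑ j, B.adjugate i j * B j k : ℤ) : ℝ) * θ k := by
    simp only [dz, Finset.mul_sum]
    rw [Finset.sum_comm]
    refine Finset.sum_congr rfl fun k _ => ?_
    rw [Int.cast_sum, Finset.sum_mul]
    refine Finset.sum_congr rfl fun j _ => ?_
    push_cast
    ring
  rw [h4, h3]
  simp only [h1]
  rw [Finset.sum_eq_single i]
  · rw [if_pos rfl]
  · intro k _ hk
    rw [if_neg (Ne.symm hk)]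
    simp
  · intro hi
    exact absurd (Finset.mem_univ i) hi

/-- the constant -/
def cB (B : Matrix (Fin r) (Fin r) ℤ) : ℝ :=
  1 + 2 * π * ∑ i, ∑ j, |((B.det.sign * B.adjugate i j : ℤ) : ℝ)|

theorem cB_one (B : Matrix (Fin r) (Fin r) ℤ) : 1 ≤ cB B := by
  unfold cB
  have : 0 ≤ 2 * π * ∑ i, ∑ j, |((B.det.sign * B.adjugate i j : ℤ) : ℝ)| := by positivity
  linarith

theorem one_sub_le (hP : RTD D P B h) (i : Fin r) (θ : Fin r → ℝ) :
    ‖1 - eu ((B.det.natAbs : ℝ) * θ i)‖ ≤ cB B * nz P θ := by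
  refine (one_sub_eu _).trans ?_
  rw [det_eq B i θ]
  have hz := nz_nonneg P θ
  have h1 : nd (∑ j, ((B.det.sign * B.adjugate i j : ℤ) : ℝ) * dz (B j) θ) ≤
      (∑ j, |((B.det.sign * B.adjugate i j : ℤ) : ℝ)|) * nz P θ := by
    refine (nd_sum _ _ _).trans ?_
    rw [Finset.sum_mul]
    exact Finset.sum_le_sum fun j _ => mul_le_mul_of_nonneg_left (nd_le_nz hP j θ) (abs_nonneg _)
  have h2 : (∑ j, |((B.det.sign * B.adjugate i j : ℤ) : ℝ)|) ≤
      ∑ i, ∑ j, |((B.det.sign * B.adjugate i j : ℤ) : ℝ)| :=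
    Finset.single_le_sum (f := fun i => ∑ j, |((B.det.sign * B.adjugate i j : ℤ) : ℝ)|)
      (fun _ _ => Finset.sum_nonneg fun _ _ => abs_nonneg _) (Finset.mem_univ i)
  have h3 : 0 ≤ 2 * π := by positivity
  calc 2 * π * nd (∑ j, ((B.det.sign * B.adjugate i j : ℤ) : ℝ) * dz (B j) θ)
      ≤ 2 * π * ((∑ i, ∑ j, |((B.det.sign * B.adjugate i j : ℤ) : ℝ)|) * nz P θ) :=
        mul_le_mul_of_nonneg_left (h1.trans (mul_le_mul_of_nonneg_right h2 hz)) h3
    _ ≤ cB B * nz P θ := by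
        unfold cB
        nlinarith

theorem dot_nonneg (hP : RTD D P B h) {ν : Fin r → ℤ} (hν : Reg ν) {p : (Fin r → ℤ) × (Fin r → ℤ)}
    (hp : p ∈ P) : (0 : ℝ) ≤ ((p.2 ⬝ᵥ ν : ℤ) : ℝ) := by
  have h1 : 0 ≤ p.2 ⬝ᵥ ν :=
    Finset.sum_nonneg fun i _ => mul_nonneg ((hP.pos p hp).1 i) (zero_le_one.trans (hν i))
  exact_mod_cast h1

end CDIF

open CDIF in
theorem t_CDIF : M_CDIF := by
  classical
  intro hANU hSMB hINTN r D P B h hD hP
  obtain ⟨C1, hC1, h1⟩ := hANU r D P B h hD hP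
  obtain ⟨C2, hC2, h2⟩ := hSMB r D P B h hD hP
  obtain ⟨C3, hC3, h3⟩ := hINTN r D P B h hD hP
  have hc := cB_one B
  have hc0 : 0 ≤ cB B := zero_le_one.trans hc
  refine ⟨C2 * C1 * cB B ^ r * C3, by positivity, ?_⟩
  intro M ν l S hM hν
  have hM0 : (0 : ℝ) < M := by exact_mod_cast hM
  set P0 := P.filter fun p => ((p.2 ⬝ᵥ ν : ℤ) : ℝ) ≤ M with hP0
  set A : ℝ := ∏ p ∈ P0, ((p.2 ⬝ᵥ ν : ℤ) : ℝ) with hA
  have hP0P : P0 ⊆ P := Finset.filter_subset _ _
  have hA0 : 0 ≤ A := Finset.prod_nonneg fun p hp => dot_nonneg hP hν (hP0P hp)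
  have hk : S.card + P0.card ≤ r + P.card := by
    have := Finset.card_le_univ S
    rw [Fintype.card_fin] at this
    exact add_le_add this (Finset.card_le_card hP0P)
  have hI := h3 M (S.card + P0.card) hM hk
  -- the pointwise bound
  have hpt : ∀ θ : Fin r → ℝ, ‖FM D P M (XT D θ) * conj (AT D ν θ) * eu (dz l θ) *
      ∏ i ∈ S, (1 - eu ((B.det.natAbs : ℝ) * θ i))‖ ≤
      (C2 * C1 * cB B ^ r * A) * (nz P θ ^ (S.card + P0.card) /
        (1 + M * nz P θ) ^ (2 * (2 * r + P.card))) := by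
    intro θ
    have hT := nz_nonneg P θ
    have hT1 : (0 : ℝ) < 1 + M * nz P θ := by positivity
    rw [norm_mul, norm_mul, norm_mul, norm_eu, mul_one, RCLike.norm_conj, norm_prod]
    have e1 : ‖FM D P M (XT D θ)‖ ≤ C2 / (1 + M * nz P θ) ^ (2 * (2 * r + P.card)) := (h2 M θ hM).2
    have e2 : ‖AT D ν θ‖ ≤ C1 * (nz P θ ^ P0.card * A) := by
      refine (h1 ν θ hν).trans (mul_le_mul_of_nonneg_left ?_ hC1)
      have e3 : ∏ p ∈ P, min 1 (((p.2 ⬝ᵥ ν : ℤ) : ℝ) * nz P θ) ≤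
          ∏ p ∈ P, (if p ∈ P0 then ((p.2 ⬝ᵥ ν : ℤ) : ℝ) * nz P θ else 1) := by
        refine Finset.prod_le_prod (fun p hp => ?_) fun p hp => ?_
        · exact le_min zero_le_one (mul_nonneg (dot_nonneg hP hν hp) hT)
        · split_ifs
          · exact min_le_right _ _
          · exact min_le_left _ _
      refine e3.trans (le_of_eq ?_)
      rw [Finset.prod_ite, Finset.prod_const_one, mul_one]
      have e4 : P.filter (fun p => p ∈ P0) = P0 := by
        rw [Finset.filter_mem_eq_inter]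
        exact Finset.inter_eq_right.mpr hP0P
      rw [e4, Finset.prod_mul_distrib, Finset.prod_const, mul_comm]
    have e5 : ∏ i ∈ S, ‖1 - eu ((B.det.natAbs : ℝ) * θ i)‖ ≤ cB B ^ r * nz P θ ^ S.card := by
      calc ∏ i ∈ S, ‖1 - eu ((B.det.natAbs : ℝ) * θ i)‖ ≤ ∏ _i ∈ S, (cB B * nz P θ) :=
            Finset.prod_le_prod (fun _ _ => norm_nonneg _) fun i _ => one_sub_le hP i θ
        _ = cB B ^ S.card * nz P θ ^ S.card := by rw [Finset.prod_const, mul_pow]
        _ ≤ cB B ^ r * nz P θ ^ S.card := by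
            refine mul_le_mul_of_nonneg_right ?_ (by positivity)
            have := Finset.card_le_univ S
            rw [Fintype.card_fin] at this
            exact pow_le_pow_right₀ hc this
    have e6 : (0 : ℝ) ≤ ∏ i ∈ S, ‖1 - eu ((B.det.natAbs : ℝ) * θ i)‖ :=
      Finset.prod_nonneg fun _ _ => norm_nonneg _
    calc ‖FM D P M (XT D θ)‖ * ‖AT D ν θ‖ * ∏ i ∈ S, ‖1 - eu ((B.det.natAbs : ℝ) * θ i)‖
        ≤ C2 / (1 + M * nz P θ) ^ (2 * (2 * r + P.card)) * (C1 * (nz P θ ^ P0.card * A)) *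
          (cB B ^ r * nz P θ ^ S.card) :=
          mul_le_mul (mul_le_mul e1 e2 (norm_nonneg _) (by positivity)) e5 e6 (by positivity)
      _ = (C2 * C1 * cB B ^ r * A) * (nz P θ ^ (S.card + P0.card) /
          (1 + M * nz P θ) ^ (2 * (2 * r + P.card))) := by
          rw [pow_add]
          field_simp
  -- integrability of the majorant
  have hcont : Continuous fun θ : Fin r → ℝ => (C2 * C1 * cB B ^ r * A) *
      (nz P θ ^ (S.card + P0.card) / (1 + M * nz P θ) ^ (2 * (2 * r + P.card))) := by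
    refine continuous_const.mul (((nz_cont P).pow _).div
      ((continuous_const.add (continuous_const.mul (nz_cont P))).pow _) fun θ => ?_)
    have hT := nz_nonneg P θ
    have hT1 : (0 : ℝ) < 1 + M * nz P θ := by positivity
    positivity
  have hint : IntegrableOn (fun θ : Fin r → ℝ => (C2 * C1 * cB B ^ r * A) *
      (nz P θ ^ (S.card + P0.card) / (1 + M * nz P θ) ^ (2 * (2 * r + P.card))))
      (Set.Icc (0 : Fin r → ℝ) 1) := hcont.continuousOn.integrableOn_compact isCompact_Icc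
  refine (norm_integral_le_of_norm_le hint (Filter.Eventually.of_forall hpt)).trans ?_
  rw [integral_const_mul]
  have hprod : ∏ p ∈ P, min 1 (((p.2 ⬝ᵥ ν : ℤ) : ℝ) / M) = A / (M : ℝ) ^ P0.card := by
    have e3 : ∏ p ∈ P, min 1 (((p.2 ⬝ᵥ ν : ℤ) : ℝ) / M) =
        ∏ p ∈ P, (if p ∈ P0 then ((p.2 ⬝ᵥ ν : ℤ) : ℝ) / M else 1) := by
      refine Finset.prod_congr rfl fun p hp => ?_
      split_ifs with hp0
      · rw [hP0, Finset.mem_filter] at hp0
        exact min_eq_right ((div_le_one hM0).mpr hp0.2)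
      · rw [hP0, Finset.mem_filter, not_and, not_le] at hp0
        exact min_eq_left ((one_le_div hM0).mpr (hp0 hp).le)
    rw [e3, Finset.prod_ite, Finset.prod_const_one, mul_one]
    have e4 : P.filter (fun p => p ∈ P0) = P0 := by
      rw [Finset.filter_mem_eq_inter]
      exact Finset.inter_eq_right.mpr hP0P
    rw [e4, Finset.prod_div_distrib, Finset.prod_const]
  rw [hprod]
  calc (C2 * C1 * cB B ^ r * A) * ∫ θ in Set.Icc (0 : Fin r → ℝ) 1,
        nz P θ ^ (S.card + P0.card) / (1 + M * nz P θ) ^ (2 * (2 * r + P.card))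
      ≤ (C2 * C1 * cB B ^ r * A) * (C3 / (M : ℝ) ^ (r + (S.card + P0.card))) :=
        mul_le_mul_of_nonneg_left hI (by positivity)
    _ = C2 * C1 * cB B ^ r * C3 / (M : ℝ) ^ (r + S.card) * (A / (M : ℝ) ^ P0.card) := by
        rw [← add_assoc, pow_add]
        field_simp

end

end STZ
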