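import Pool.Agent.STZ.StmtsS

set_option autoImplicit false

namespace STZ

namespace CG

lemma perm_cases : ∀ σ : Equiv.Perm (Fin 3),
    (σ 0 = 0 ∧ σ 1 = 1 ∧ σ 2 = 2) ∨ (σ 0 = 0 ∧ σ 1 = 2 ∧ σ 2 = 1) ∨
    (σ 0 = 1 ∧ σ 1 = 0 ∧ σ 2 = 2) ∨ (σ 0 = 1 ∧ σ 1 = 2 ∧ σ 2 = 0) ∨
    (σ 0 = 2 ∧ σ 1 = 0 ∧ σ 2 = 1) ∨ (σ 0 = 2 ∧ σ 1 = 1 ∧ σ 2 = 0) := by
  decide

lemma mlt_abs (a b : ℕ) (κ : Fin 3 → ℤ) : |mlt a b κ| ≤ ((min a b : ℕ) : ℤ) + 1 := by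
  unfold mlt
  split_ifs with h
  · rw [Fin.sum_univ_three] at h
    rw [Fin.sum_univ_three]
    have h0 := le_max_left (κ 0) 0
    have h1 := le_max_left (κ 1) 0
    have h2 := le_max_left (κ 2) 0
    have h0' := le_max_right (κ 0) 0
    have h1' := le_max_right (κ 1) 0
    have h2' := le_max_right (κ 2) 0
    rw [abs_of_nonneg (le_max_left _ _)]
    refine max_le ?_ ?_
    · positivity
    · have h3 : (a : ℤ) + 1 - (max (κ 0) 0 + max (κ 1) 0 + max (κ 2) 0) - 1 ≤ min (a : ℤ) b := by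
        refine le_min ?_ ?_
        · linarith
        · linarith
      rw [Nat.cast_min]
      linarith
  · rw [abs_zero]
    positivity

lemma dist (a b c d : ℕ) (κ : Fin 3 → ℤ)
    (hκ : ∀ i, -((a + b : ℕ) : ℤ) ≤ κ i ∧ κ i ≤ ((a + b : ℕ) : ℤ)) (ν : ℕ × ℕ)
    (σ : Equiv.Perm (Fin 3)) (k : ℤ)
    (h : ∀ i, (![(c : ℤ) + d + 2, (d : ℤ) + 1, 0] + κ) i =
      ![(ν.1 : ℤ) + ν.2 + 2, (ν.2 : ℤ) + 1, 0] (σ i) + k) :
    |(ν.1 : ℤ) - c| ≤ 2 * (a + b) ∧ |(ν.2 : ℤ) - d| ≤ 2 * (a + b) := by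
  have h0 := h 0
  have h1 := h 1
  have h2 := h 2
  have k0 := hκ 0
  have k1 := hκ 1
  have k2 := hκ 2
  rw [abs_le, abs_le]
  rcases perm_cases σ with ⟨s0, s1, s2⟩ | ⟨s0, s1, s2⟩ | ⟨s0, s1, s2⟩ | ⟨s0, s1, s2⟩ |
    ⟨s0, s1, s2⟩ | ⟨s0, s1, s2⟩ <;>
  · rw [s0] at h0
    rw [s1] at h1
    rw [s2] at h2
    simp at h0 h1 h2 k0 k1 k2
    refine ⟨⟨?_, ?_⟩, ⟨?_, ?_⟩⟩ <;> omega

lemma inj (a b c d : ℕ) (κ κ' : Fin 3 → ℤ) (h1 : mlt a b κ ≠ 0) (h2 : mlt a b κ' ≠ 0)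
    (ν : ℕ × ℕ) (σ : Equiv.Perm (Fin 3)) (k k' : ℤ)
    (h : ∀ i, (![(c : ℤ) + d + 2, (d : ℤ) + 1, 0] + κ) i =
      ![(ν.1 : ℤ) + ν.2 + 2, (ν.2 : ℤ) + 1, 0] (σ i) + k)
    (h' : ∀ i, (![(c : ℤ) + d + 2, (d : ℤ) + 1, 0] + κ') i =
      ![(ν.1 : ℤ) + ν.2 + 2, (ν.2 : ℤ) + 1, 0] (σ i) + k') : κ = κ' := by
  have s1 : ∑ i, κ i = (a : ℤ) - b := by
    by_contra hne
    exact h1 (by unfold mlt; rw [if_neg hne])
  have s2 : ∑ i, κ' i = (a : ℤ) - b := by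
    by_contra hne
    exact h2 (by unfold mlt; rw [if_neg hne])
  have hd : ∀ i, κ i - κ' i = k - k' := by
    intro i
    have e1 := h i
    have e2 := h' i
    simp only [Pi.add_apply] at e1 e2
    linarith
  rw [Fin.sum_univ_three] at s1 s2
  have d0 := hd 0
  have d1 := hd 1
  have d2 := hd 2
  have hk : k - k' = 0 := by linarith
  funext i
  have := hd i
  linarith

end CG

theorem t_CG : M_CG := by
  intro hM hS a b c d
  classical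
  obtain ⟨N, hN⟩ : ∃ N : ℕ, N = a + b := ⟨_, rfl⟩
  obtain ⟨l, hl⟩ : ∃ l : Fin 3 → ℤ, l = ![(c : ℤ) + d + 2, (d : ℤ) + 1, 0] := ⟨_, rfl⟩
  obtain ⟨K, hK⟩ : ∃ K : Finset (Fin 3 → ℤ),
    K = Fintype.piFinset (fun _ : Fin 3 => Finset.Icc (-(N : ℤ)) N) := ⟨_, rfl⟩
  obtain ⟨Z, hZ⟩ : ∃ Z : (Fin 3 → ℤ) → Prop, ∀ κ, Z κ ↔ ∀ x y : ℂ, XX x y (l + κ) = 0 :=
    ⟨_, fun _ => Iff.rfl⟩
  have hch : ∀ κ : Fin 3 → ℤ, ∃ (ν : ℕ × ℕ) (σ : Equiv.Perm (Fin 3)) (k : ℤ), ¬ Z κ →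
      (∀ i, (l + κ) i = ![(ν.1 : ℤ) + ν.2 + 2, ν.2 + 1, 0] (σ i) + k) ∧
      ∀ x y : ℂ, XX x y (l + κ) = (Equiv.Perm.sign σ : ℤ) * ps x y (ν.1 + 1) (ν.2 + 1) := by
    intro κ
    rcases hS (l + κ) with h | ⟨ν, σ, k, h1, h2⟩
    · exact ⟨(0, 0), 1, 0, fun hn => absurd ((hZ κ).2 h) hn⟩
    · exact ⟨ν, σ, k, fun _ => ⟨h1, h2⟩⟩
  choose ν σ k hνσ using hch
  obtain ⟨K', hK'⟩ : ∃ K' : Finset (Fin 3 → ℤ),
    K' = K.filter (fun κ => ¬ Z κ ∧ mlt a b κ ≠ 0) := ⟨_, rfl⟩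
  have hmem : ∀ κ ∈ K', κ ∈ K ∧ ¬ Z κ ∧ mlt a b κ ≠ 0 := by
    intro κ hκ
    rw [hK', Finset.mem_filter] at hκ
    exact hκ
  refine ⟨K'.image ν, fun μ => ∑ κ ∈ K' with ν κ = μ, (Equiv.Perm.sign (σ κ) : ℤ) * mlt a b κ,
    ?_, ?_⟩
  · intro x y
    have h1 := hM a b N hN.ge x y l
    have h2 : ps x y (c + 1) (d + 1) = XX x y l := by
      rw [hl]
      unfold ps
      have : (c : ℤ) + 1 + (d + 1) = c + d + 2 := by ring
      rw [this]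
    rw [h2, h1, ← hK]
    have h3 : ∑ κ ∈ K, (mlt a b κ : ℂ) * XX x y (l + κ) =
        ∑ κ ∈ K', (mlt a b κ : ℂ) * XX x y (l + κ) := by
      symm
      refine Finset.sum_subset ?_ ?_
      · intro κ hκ
        exact (hmem κ hκ).1
      · intro κ hκ hκ'
        rw [hK', Finset.mem_filter] at hκ'
        by_cases hz : Z κ
        · rw [(hZ κ).1 hz x y, mul_zero]
        · have : mlt a b κ = 0 := by
            by_contra hne
            exact hκ' ⟨hκ, hz, hne⟩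
          rw [this, Int.cast_zero, zero_mul]
    rw [h3, ← Finset.sum_fiberwise_of_maps_to (s := K') (t := K'.image ν) (g := ν)
      (fun κ hκ => Finset.mem_image_of_mem ν hκ)]
    refine Finset.sum_congr rfl fun μ _ => ?_
    rw [Int.cast_sum, Finset.sum_mul]
    refine Finset.sum_congr rfl fun κ hκ => ?_
    rw [Finset.mem_filter] at hκ
    rw [(hνσ κ (hmem κ hκ.1).2.1).2 x y, hκ.2]
    push_cast
    ring
  · intro μ hμ
    refine ⟨?_, ?_⟩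
    · have hcard : (K'.filter (fun κ => ν κ = μ)).card ≤ 6 := by
        have h6 : (Finset.univ : Finset (Equiv.Perm (Fin 3))).card = 6 := by
          rw [Finset.card_univ, Fintype.card_perm, Fintype.card_fin]
          rfl
        rw [← h6]
        refine Finset.card_le_card_of_injOn σ (fun _ _ => Finset.mem_coe.2 (Finset.mem_univ _)) ?_
        intro κ hκ κ' hκ' he
        rw [Finset.mem_coe, Finset.mem_filter] at hκ hκ'
        obtain ⟨hk1, hk2, hk3⟩ := hmem κ hκ.1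
        obtain ⟨hk1', hk2', hk3'⟩ := hmem κ' hκ'.1
        have e1 := (hνσ κ hk2).1
        have e2 := (hνσ κ' hk2').1
        rw [hκ.2, hl] at e1
        rw [hκ'.2, hl, ← he] at e2
        exact CG.inj a b c d κ κ' hk3 hk3' μ (σ κ) (k κ) (k κ') e1 e2
      calc |∑ κ ∈ K' with ν κ = μ, (Equiv.Perm.sign (σ κ) : ℤ) * mlt a b κ|
          ≤ ∑ κ ∈ K' with ν κ = μ, |(Equiv.Perm.sign (σ κ) : ℤ) * mlt a b κ| :=
            Finset.abs_sum_le_sum_abs _ _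
        _ ≤ ∑ κ ∈ K' with ν κ = μ, ((min a b : ℕ) + 1 : ℤ) := by
            refine Finset.sum_le_sum fun κ _ => ?_
            rw [abs_mul]
            have hs : |((Equiv.Perm.sign (σ κ) : ℤˣ) : ℤ)| = 1 := by
              rcases Int.units_eq_one_or (Equiv.Perm.sign (σ κ)) with h | h <;> rw [h] <;> simp
            rw [hs, one_mul]
            exact CG.mlt_abs a b κ
        _ = ((K'.filter (fun κ => ν κ = μ)).card : ℤ) * ((min a b : ℕ) + 1 : ℤ) := by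
            rw [Finset.sum_const, nsmul_eq_mul]
        _ ≤ 6 * ((min a b : ℕ) + 1 : ℤ) := by
            refine mul_le_mul_of_nonneg_right ?_ (by positivity)
            exact_mod_cast hcard
    · obtain ⟨κ, hκ, hκμ⟩ := Finset.mem_image.1 hμ
      obtain ⟨hk1, hk2, hk3⟩ := hmem κ hκ
      have e1 := (hνσ κ hk2).1
      rw [hκμ, hl] at e1
      refine CG.dist a b c d κ ?_ μ (σ κ) (k κ) e1
      intro i
      rw [hK, Fintype.mem_piFinset] at hk1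
      have := Finset.mem_Icc.1 (hk1 i)
      rw [← hN]
      exact this

end STZ
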