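import Pool.Agent.STZ.StmtsM

/-!
# Module CGG: products of characters, combinatorial version
-/

set_option autoImplicit false

namespace STZ

open Matrix

namespace CGG

theorem sz_neg {r : ℕ} (x : Fin r → ℤ) : sz (-x) = sz x := by
  unfold sz
  simp

theorem one_le_sz {r : ℕ} (x : Fin r → ℤ) : 1 ≤ sz x := by
  unfold sz
  have : 0 ≤ ∑ i, |(x i : ℝ)| := Finset.sum_nonneg fun i _ => abs_nonneg _
  linarith

theorem det_sq {r : ℕ} {w w' : Matrix (Fin r) (Fin r) ℤ} (h : w' * w = 1) :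
    (w.det = 1 ∨ w.det = -1) := by
  have h1 : w'.det * w.det = 1 := by
    rw [← Matrix.det_mul, h, Matrix.det_one]
  have h2 : IsUnit w.det := IsUnit.of_mul_eq_one w'.det (by rw [mul_comm]; exact h1)
  exact Int.isUnit_iff.1 h2

end CGG

open CGG in
theorem t_CGG : S_CGG := by
  intro r D hD
  classical
  obtain ⟨C1, hC1⟩ := hD.mult
  obtain ⟨c, hc, hpd⟩ := hD.pd
  refine ⟨(D.W.card : ℝ) * |C1| + (1 + |C1| / c), fun a b ha hb => ?_⟩
  obtain ⟨T0, m, hm, hT0⟩ := hC1 a ha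
  have hch : ∀ κ : Fin r → ℤ, ∃ w ∈ D.W, ∀ i, 0 ≤ (w *ᵥ (b + κ)) i := fun κ => hD.str (b + κ)
  choose w hw hw0 using hch
  have hinv : ∀ κ : Fin r → ℤ, ∃ w' ∈ D.W, w' * w κ = 1 := fun κ => hD.W_inv (w κ) (hw κ)
  choose w' hw' hww' using hinv
  obtain ⟨ν, hν⟩ : ∃ ν : (Fin r → ℤ) → (Fin r → ℤ), ∀ κ, ν κ = w κ *ᵥ (b + κ) :=
    ⟨_, fun _ => rfl⟩
  have hback : ∀ κ, w' κ *ᵥ ν κ = b + κ := by
    intro κ
    rw [hν, Matrix.mulVec_mulVec, hww', Matrix.one_mulVec]
  have hpsi : ∀ κ x, D.ψ x (b + κ) = ((w κ).det : ℂ) * D.ψ x (ν κ) := by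
    intro κ x
    rw [hν, hD.anti _ (hw κ)]
    rcases det_sq (hww' κ) with h | h <;> rw [h] <;> push_cast <;> ring
  have hzero : ∀ κ x, ¬ Reg (ν κ) → D.ψ x (b + κ) = 0 := by
    intro κ x hr
    rw [hpsi κ x]
    unfold Reg at hr
    push Not at hr
    obtain ⟨i, hi⟩ := hr
    have h0 : 0 ≤ ν κ i := by rw [hν]; exact hw0 κ i
    have h1 : ν κ i = 0 := by omega
    rw [hD.wall x _ i h1, mul_zero]
  obtain ⟨K', hK'⟩ : ∃ K' : Finset (Fin r → ℤ), K' = T0.filter (fun κ => Reg (ν κ)) := ⟨_, rfl⟩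
  have hmem : ∀ κ ∈ K', κ ∈ T0 ∧ Reg (ν κ) := by
    intro κ hκ
    rw [hK', Finset.mem_filter] at hκ
    exact hκ
  refine ⟨K'.image ν, fun μ => ∑ κ ∈ K' with ν κ = μ, (w κ).det * m κ, ?_, ?_⟩
  · intro x
    rw [hm x b]
    have h3 : ∑ κ ∈ T0, (m κ : ℂ) * D.ψ x (b + κ) = ∑ κ ∈ K', (m κ : ℂ) * D.ψ x (b + κ) := by
      symm
      refine Finset.sum_subset (fun κ hκ => (hmem κ hκ).1) ?_
      intro κ hκ hκ'
      rw [hK', Finset.mem_filter] at hκ'
      rw [hzero κ x (fun h => hκ' ⟨hκ, h⟩), mul_zero]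
    rw [h3, ← Finset.sum_fiberwise_of_maps_to (s := K') (t := K'.image ν) (g := ν)
      (fun κ hκ => Finset.mem_image_of_mem ν hκ)]
    refine Finset.sum_congr rfl fun μ _ => ?_
    rw [Int.cast_sum, Finset.sum_mul]
    refine Finset.sum_congr rfl fun κ hκ => ?_
    rw [Finset.mem_filter] at hκ
    rw [hpsi κ x, hκ.2]
    push_cast
    ring
  · intro μ hμ
    obtain ⟨κ0, hκ0, hκμ⟩ := Finset.mem_image.1 hμ
    have hreg : Reg μ := hκμ ▸ (hmem κ0 hκ0).2
    have hdim : (0 : ℝ) < D.dim a := by exact_mod_cast hD.dim_pos a ha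
    have hCd : ∀ κ ∈ T0, |(m κ : ℝ)| * sz a ^ r ≤ |C1| * D.dim a := by
      intro κ hκ
      refine ((hT0 κ hκ).1).trans ?_
      exact mul_le_mul_of_nonneg_right (le_abs_self C1) hdim.le
    have hsza : 0 < sz a := lt_of_lt_of_le one_pos (one_le_sz a)
    have hP : 0 ≤ |C1| / c := by positivity
    refine ⟨hreg, ?_, ?_⟩
    · have hcard : (K'.filter (fun κ => ν κ = μ)).card ≤ D.W.card := by
        refine Finset.card_le_card_of_injOn w (fun κ _ => Finset.mem_coe.2 (hw κ)) ?_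
        intro κ hκ κ' hκ' he
        rw [Finset.mem_coe, Finset.mem_filter] at hκ hκ'
        have e1 := hback κ
        have e2 : w' κ *ᵥ ν κ' = b + κ' := by
          rw [hν, ← he, Matrix.mulVec_mulVec, hww', Matrix.one_mulVec]
        rw [hκ.2] at e1
        rw [hκ'.2, e1] at e2
        exact add_left_cancel e2
      have h1 : |((∑ κ ∈ K' with ν κ = μ, (w κ).det * m κ : ℤ) : ℝ)| ≤
          ∑ κ ∈ K' with ν κ = μ, |(m κ : ℝ)| := by
        rw [Int.cast_sum]
        refine (Finset.abs_sum_le_sum_abs _ _).trans (le_of_eq ?_)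
        refine Finset.sum_congr rfl fun κ _ => ?_
        rw [Int.cast_mul, abs_mul]
        rcases det_sq (hww' κ) with h | h <;> rw [h] <;> simp
      calc |((∑ κ ∈ K' with ν κ = μ, (w κ).det * m κ : ℤ) : ℝ)| * sz a ^ r
          ≤ (∑ κ ∈ K' with ν κ = μ, |(m κ : ℝ)|) * sz a ^ r :=
            mul_le_mul_of_nonneg_right h1 (by positivity)
        _ = ∑ κ ∈ K' with ν κ = μ, |(m κ : ℝ)| * sz a ^ r := Finset.sum_mul _ _ _
        _ ≤ ∑ κ ∈ K' with ν κ = μ, |C1| * D.dim a := by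
            refine Finset.sum_le_sum fun κ hκ => ?_
            rw [Finset.mem_filter] at hκ
            exact hCd κ (hmem κ hκ.1).1
        _ = ((K'.filter (fun κ => ν κ = μ)).card : ℝ) * (|C1| * D.dim a) := by
            rw [Finset.sum_const, nsmul_eq_mul]
        _ ≤ (D.W.card : ℝ) * (|C1| * D.dim a) := by
            refine mul_le_mul_of_nonneg_right ?_ (by positivity)
            exact_mod_cast hcard
        _ ≤ ((D.W.card : ℝ) * |C1| + (1 + |C1| / c)) * D.dim a := by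
            have : 0 ≤ (1 + |C1| / c) * D.dim a := by positivity
            nlinarith
    · have hκ0T := (hmem κ0 hκ0).1
      have e1 : w' κ0 *ᵥ μ = b + κ0 := by rw [← hκμ]; exact hback κ0
      have hQ := hD.chm b μ (fun i => le_trans zero_le_one (hb i))
        (fun i => le_trans zero_le_one (hreg i)) (w' κ0) (hw' κ0)
      rw [e1] at hQ
      have e2 : b - (b + κ0) = -κ0 := by
        funext i
        simp
      rw [e2] at hQ
      have hQ' : (D.Q (b - μ) : ℝ) ≤ D.Q (-κ0) := by exact_mod_cast hQ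
      have p1 := (hpd (b - μ)).1
      have p2 := (hpd (-κ0)).2
      have e3 : sz (b - μ) = sz (μ - b) := by
        rw [← sz_neg, neg_sub]
      rw [e3] at p1
      rw [sz_neg] at p2
      have hs1 := one_le_sz (μ - b)
      have hs2 := one_le_sz κ0
      have h5 : (c * (sz (μ - b) - 1)) ^ 2 ≤ (sz κ0 - 1) ^ 2 := by
        have h6 : c * (c * (sz (μ - b) - 1) ^ 2) ≤ c * (D.Q (-κ0) : ℝ) :=
          mul_le_mul_of_nonneg_left (p1.trans hQ') hc.le
        nlinarith
      have h7 : c * (sz (μ - b) - 1) ≤ sz κ0 - 1 :=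
        le_of_sq_le_sq h5 (by linarith)
      have h8 : sz κ0 ≤ |C1| * sz a :=
        ((hT0 κ0 hκ0T).2).trans (mul_le_mul_of_nonneg_right (le_abs_self C1) hsza.le)
      have h9 : sz (μ - b) - 1 ≤ (|C1| * sz a) / c := by
        rw [le_div_iff₀ hc]
        nlinarith
      have h10 : (|C1| * sz a) / c = |C1| / c * sz a := by ring
      have h11 : 0 ≤ (D.W.card : ℝ) * |C1| * sz a := by positivity
      have h12 := one_le_sz a
      rw [h10] at h9
      nlinarith

end STZ
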