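import Pool.Agent.STZ.StmtsL

/-!
# Module CHAIN
-/

namespace STZ

open MeasureTheory Matrix

open scoped ENNReal Real

namespace CHAIN

theorem sq (φ : ℝ → ℝ≥0∞) :
    ∫⁻ w in Set.Ioi (0 : ℝ), φ w = ∫⁻ r in Set.Ioi (0 : ℝ), ENNReal.ofReal (2 * r) * φ (r ^ 2) := by
  have himg : (fun r : ℝ => r ^ 2) '' Set.Ioi (0 : ℝ) = Set.Ioi 0 := by
    ext w
    constructor
    · rintro ⟨r, hr, rfl⟩
      have hr' : (0 : ℝ) < r := hr
      exact pow_pos hr' 2
    · intro hw
      refine ⟨√w, Real.sqrt_pos.2 hw, ?_⟩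
      exact Real.sq_sqrt (le_of_lt hw)
  have h := lintegral_image_eq_lintegral_abs_deriv_mul (s := Set.Ioi (0 : ℝ))
    (f := fun r => r ^ 2) (f' := fun r => 2 * r) measurableSet_Ioi
    (fun x _ => by simpa using (hasDerivAt_pow 2 x).hasDerivWithinAt)
    (fun x hx y hy hxy => by
      have hx' : (0 : ℝ) < x := hx
      have hy' : (0 : ℝ) < y := hy
      exact (pow_left_inj₀ hx'.le hy'.le two_ne_zero).1 hxy) φ
  rw [himg] at h
  rw [h]
  refine setLIntegral_congr_fun measurableSet_Ioi fun r hr => ?_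
  have hr' : (0 : ℝ) < r := hr
  have : |2 * r| = 2 * r := abs_of_pos (by linarith)
  simp only [this]

theorem pol (φ : ℝ → ℝ≥0∞) (hφ : Measurable φ) :
    ∫⁻ z : ℂ, φ (‖z‖ ^ 2) = ENNReal.ofReal π * ∫⁻ w in Set.Ioi (0 : ℝ), φ w := by
  rw [← Complex.lintegral_comp_polarCoord_symm]
  have h1 : ∀ p ∈ polarCoord.target, ENNReal.ofReal p.1 • φ (‖Complex.polarCoord.symm p‖ ^ 2) =
      ENNReal.ofReal p.1 * φ (p.1 ^ 2) := by
    intro p hp
    rw [Complex.norm_polarCoord_symm, sq_abs, smul_eq_mul]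
  rw [setLIntegral_congr_fun polarCoord.open_target.measurableSet h1]
  rw [polarCoord_target, Measure.volume_eq_prod, ← Measure.prod_restrict]
  have hm : Measurable fun p : ℝ × ℝ => ENNReal.ofReal p.1 * φ (p.1 ^ 2) := by
    fun_prop
  rw [lintegral_prod _ hm.aemeasurable]
  have h2 : ∀ x : ℝ, ∫⁻ _ in Set.Ioo (-π) π, ENNReal.ofReal x * φ (x ^ 2) =
      ENNReal.ofReal π * (ENNReal.ofReal (2 * x) * φ (x ^ 2)) := by
    intro x
    rw [setLIntegral_const, Real.volume_Ioo]
    have h3 : ENNReal.ofReal (π - -π) = ENNReal.ofReal π * 2 := by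
      rw [show π - -π = π * 2 by ring, ENNReal.ofReal_mul Real.pi_pos.le]
      norm_num
    have h4 : ENNReal.ofReal (2 * x) = 2 * ENNReal.ofReal x := by
      rw [ENNReal.ofReal_mul (by norm_num)]
      norm_num
    rw [h3, h4]
    ring
  simp only [h2]
  rw [lintegral_const_mul _ (by fun_prop), ← sq]

/-- the double integral -/
theorem dbl (a : ℝ) (ha : 0 ≤ a) (Ψ : ℝ → ℝ≥0∞) (hΨ : Measurable Ψ) :
    ∫⁻ w in Set.Ioi (0 : ℝ), ∫⁻ t in Set.Ioi (0 : ℝ), ENNReal.ofReal (t ^ a) * Ψ (w + t) =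
      ENNReal.ofReal (1 / (a + 1)) *
        ∫⁻ u in Set.Ioi (0 : ℝ), ENNReal.ofReal (u ^ (a + 1)) * Ψ u := by
  have hm1 : Measurable fun t : ℝ => ENNReal.ofReal (t ^ a) := by fun_prop
  rw [lintegral_lintegral_swap (by
    refine Measurable.aemeasurable ?_
    have : Measurable fun p : ℝ × ℝ => ENNReal.ofReal (p.2 ^ a) * Ψ (p.1 + p.2) :=
      (hm1.comp measurable_snd).mul (hΨ.comp (measurable_fst.add measurable_snd))
    exact this)]
  have h1 : ∀ t : ℝ, ∫⁻ w in Set.Ioi (0 : ℝ), ENNReal.ofReal (t ^ a) * Ψ (w + t) =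
      ∫⁻ u, (Set.Ioi t).indicator (fun u => ENNReal.ofReal (t ^ a) * Ψ u) u := by
    intro t
    rw [← lintegral_indicator measurableSet_Ioi]
    rw [← lintegral_add_right_eq_self (μ := (volume : Measure ℝ))
      (fun u => (Set.Ioi t).indicator (fun u => ENNReal.ofReal (t ^ a) * Ψ u) u) t]
    refine lintegral_congr fun w => ?_
    by_cases hw : 0 < w
    · rw [Set.indicator_of_mem (show w ∈ Set.Ioi (0 : ℝ) from hw),
        Set.indicator_of_mem (show w + t ∈ Set.Ioi t by simpa using hw)]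
    · rw [Set.indicator_of_notMem (show w ∉ Set.Ioi (0 : ℝ) from hw),
        Set.indicator_of_notMem (show w + t ∉ Set.Ioi t by simpa using hw)]
  simp only [h1]
  rw [← lintegral_indicator measurableSet_Ioi]
  have h2 : ∀ t : ℝ, (Set.Ioi (0 : ℝ)).indicator (fun t => ∫⁻ u, (Set.Ioi t).indicator
      (fun u => ENNReal.ofReal (t ^ a) * Ψ u) u) t =
      ∫⁻ u, (Set.Ioi (0 : ℝ)).indicator (fun u => (Set.Ioo 0 u).indicator
        (fun t => ENNReal.ofReal (t ^ a)) t * Ψ u) u := by
    intro t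
    by_cases ht : 0 < t
    · rw [Set.indicator_of_mem (show t ∈ Set.Ioi (0 : ℝ) from ht)]
      refine lintegral_congr fun u => ?_
      by_cases hu : t < u
      · rw [Set.indicator_of_mem (show u ∈ Set.Ioi t from hu),
          Set.indicator_of_mem (show u ∈ Set.Ioi (0 : ℝ) from ht.trans hu),
          Set.indicator_of_mem (show t ∈ Set.Ioo 0 u from ⟨ht, hu⟩)]
      · rw [Set.indicator_of_notMem (show u ∉ Set.Ioi t from hu)]
        by_cases hu0 : 0 < u
        · rw [Set.indicator_of_mem (show u ∈ Set.Ioi (0 : ℝ) from hu0),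
            Set.indicator_of_notMem (show t ∉ Set.Ioo 0 u from fun h => hu h.2), zero_mul]
        · rw [Set.indicator_of_notMem (show u ∉ Set.Ioi (0 : ℝ) from hu0)]
    · rw [Set.indicator_of_notMem (show t ∉ Set.Ioi (0 : ℝ) from ht)]
      symm
      rw [lintegral_eq_zero_iff']
      · refine Filter.Eventually.of_forall fun u => ?_
        simp only [Pi.zero_apply]
        by_cases hu0 : 0 < u
        · rw [Set.indicator_of_mem (show u ∈ Set.Ioi (0 : ℝ) from hu0),
            Set.indicator_of_notMem (show t ∉ Set.Ioo 0 u from fun h => ht h.1), zero_mul]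
        · rw [Set.indicator_of_notMem (show u ∉ Set.Ioi (0 : ℝ) from hu0)]
      · have : (fun u => (Set.Ioi (0 : ℝ)).indicator (fun u => (Set.Ioo 0 u).indicator
            (fun t => ENNReal.ofReal (t ^ a)) t * Ψ u) u) = fun _ => 0 := by
          funext u
          by_cases hu0 : 0 < u
          · rw [Set.indicator_of_mem (show u ∈ Set.Ioi (0 : ℝ) from hu0),
              Set.indicator_of_notMem (show t ∉ Set.Ioo 0 u from fun h => ht h.1), zero_mul]
          · rw [Set.indicator_of_notMem (show u ∉ Set.Ioi (0 : ℝ) from hu0)]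
        exact (aemeasurable_const (b := (0 : ℝ≥0∞))).congr
          (Filter.Eventually.of_forall fun u => (congrFun this u).symm)
  simp only [h2]
  have hmeas : Measurable (Function.uncurry fun (t u : ℝ) => (Set.Ioi (0 : ℝ)).indicator
      (fun u => (Set.Ioo 0 u).indicator (fun t => ENNReal.ofReal (t ^ a)) t * Ψ u) u) := by
    have he : (Function.uncurry fun (t u : ℝ) => (Set.Ioi (0 : ℝ)).indicator
        (fun u => (Set.Ioo 0 u).indicator (fun t => ENNReal.ofReal (t ^ a)) t * Ψ u) u) =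
        {p : ℝ × ℝ | 0 < p.1 ∧ p.1 < p.2}.indicator
          (fun p => ENNReal.ofReal (p.1 ^ a) * Ψ p.2) := by
      funext p
      obtain ⟨t, u⟩ := p
      simp only [Function.uncurry_apply_pair]
      by_cases hu0 : 0 < u
      · rw [Set.indicator_of_mem (show u ∈ Set.Ioi (0 : ℝ) from hu0)]
        by_cases ht : 0 < t ∧ t < u
        · rw [Set.indicator_of_mem (show t ∈ Set.Ioo 0 u from ht),
            Set.indicator_of_mem (show (t, u) ∈ {p : ℝ × ℝ | 0 < p.1 ∧ p.1 < p.2} from ht)]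
        · rw [Set.indicator_of_notMem (show t ∉ Set.Ioo 0 u from ht),
            Set.indicator_of_notMem (show (t, u) ∉ {p : ℝ × ℝ | 0 < p.1 ∧ p.1 < p.2} from ht),
            zero_mul]
      · rw [Set.indicator_of_notMem (show u ∉ Set.Ioi (0 : ℝ) from hu0),
          Set.indicator_of_notMem (show (t, u) ∉ {p : ℝ × ℝ | 0 < p.1 ∧ p.1 < p.2} from
            fun h => hu0 (h.1.trans h.2))]
    rw [he]
    refine Measurable.indicator ?_ ?_
    · exact (hm1.comp measurable_fst).mul (hΨ.comp measurable_snd)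
    · exact (measurableSet_lt measurable_const measurable_fst).inter
        (measurableSet_lt measurable_fst measurable_snd)
  rw [lintegral_lintegral_swap hmeas.aemeasurable]
  rw [← lintegral_const_mul _ (by fun_prop), ← lintegral_indicator measurableSet_Ioi]
  refine lintegral_congr fun u => ?_
  by_cases hu0 : 0 < u
  · simp only [Set.indicator_of_mem (show u ∈ Set.Ioi (0 : ℝ) from hu0)]
    rw [lintegral_mul_const _ (Measurable.indicator hm1 measurableSet_Ioo),
      lintegral_indicator measurableSet_Ioo, ← mul_assoc]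
    congr 1
    rw [← ofReal_integral_eq_lintegral_ofReal]
    · rw [← ENNReal.ofReal_mul (by positivity), ← integral_Ioc_eq_integral_Ioo,
        ← intervalIntegral.integral_of_le hu0.le, integral_rpow (Or.inl (by linarith)),
        Real.zero_rpow (by linarith), sub_zero]
      congr 1
      ring
    · have h5 : IntegrableOn (fun t : ℝ => t ^ a) (Set.Ioc 0 u) volume :=
        (intervalIntegral.intervalIntegrable_rpow' (by linarith)).1
      exact h5.mono_set Set.Ioo_subset_Ioc_self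
    · refine (ae_restrict_iff' measurableSet_Ioo).2 (Filter.Eventually.of_forall fun t ht => ?_)
      exact Real.rpow_nonneg ht.1.le _
  · simp only [Set.indicator_of_notMem (show u ∉ Set.Ioi (0 : ℝ) from hu0), lintegral_zero]

theorem prod_shift (f : ℕ → ℝ≥0∞) (n : ℕ) :
    ∏ j ∈ Finset.Icc 1 (n + 1), f j = f 1 * ∏ j ∈ Finset.Icc 1 n, f (j + 1) := by
  induction n with
  | zero => simp
  | succ n ih =>
    rw [Finset.prod_Icc_succ_top (by omega), ih, Finset.prod_Icc_succ_top (by omega), mul_assoc]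

theorem T_nonneg {N : ℕ} (j : ℕ) (z : Fin N → ℂ) : 0 ≤ T j z :=
  Finset.sum_nonneg fun _ _ => by positivity

theorem T_meas {N : ℕ} (j : ℕ) : Measurable fun z : Fin N → ℂ => T j z := by
  unfold T
  fun_prop

theorem T_zero_cons {n : ℕ} (w : ℂ) (z : Fin n → ℂ) :
    T 0 (Fin.cons w z : Fin (n + 1) → ℂ) = ‖w‖ ^ 2 + T 0 z := by
  unfold T
  simp [Fin.sum_univ_succ]

theorem T_succ_cons {n : ℕ} (j : ℕ) (w : ℂ) (z : Fin n → ℂ) :
    T (j + 1) (Fin.cons w z : Fin (n + 1) → ℂ) = T j z := by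
  unfold T
  rw [Finset.sum_filter, Finset.sum_filter, Fin.sum_univ_succ]
  simp

end CHAIN

open CHAIN in
theorem t_CHAIN : S_CHAIN := by
  intro n s Ψ hs
  induction n generalizing Ψ with
  | zero =>
    intro hΨ
    have h1 : ∀ z : Fin (0 + 1) → ℂ, (∏ j ∈ Finset.Icc 1 0, ENNReal.ofReal (T j z ^ s)) *
        Ψ (T 0 z) = (fun w : ℂ => Ψ (‖w‖ ^ 2)) (MeasurableEquiv.funUnique (Fin 1) ℂ z) := by
      intro z
      simp [T]
    rw [lintegral_congr h1]
    refine ((volume_preserving_funUnique (Fin 1) ℂ).lintegral_comp_emb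
      (MeasurableEquiv.measurableEmbedding _) (fun w : ℂ => Ψ (‖w‖ ^ 2))).trans ?_
    rw [pol Ψ hΨ]
    simp
  | succ n ih =>
    intro hΨ
    have hA : 0 < (n.factorial : ℝ) * (1 + s) ^ n := by positivity
    have hpres := volume_preserving_piFinSuccAbove (fun _ : Fin (n + 2) => ℂ) 0
    rw [← hpres.symm.lintegral_comp_emb (MeasurableEquiv.measurableEmbedding _)]
    have hcons : ∀ p : ℂ × (Fin (n + 1) → ℂ),
        (MeasurableEquiv.piFinSuccAbove (fun _ : Fin (n + 2) => ℂ) 0).symm p =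
          (Fin.cons p.1 p.2 : Fin (n + 2) → ℂ) := by
      intro p
      rw [MeasurableEquiv.symm_apply_eq]
      refine Prod.ext ?_ ?_
      · simp [MeasurableEquiv.piFinSuccAbove]
      · funext i
        simp [MeasurableEquiv.piFinSuccAbove]
    have hprod : ∀ (w : ℂ) (z : Fin (n + 1) → ℂ),
        (∏ j ∈ Finset.Icc 1 (n + 1), ENNReal.ofReal
          (T j (Fin.cons w z : Fin (n + 2) → ℂ) ^ s)) =
        ENNReal.ofReal (T 0 z ^ s) * ∏ j ∈ Finset.Icc 1 n, ENNReal.ofReal (T j z ^ s) := by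
      intro w z
      rw [prod_shift]
      have h0 : T 1 (Fin.cons w z : Fin (n + 2) → ℂ) = T 0 z := T_succ_cons 0 w z
      rw [h0]
      congr 1
      refine Finset.prod_congr rfl fun j _ => ?_
      rw [T_succ_cons]
    have hF : ∀ p : ℂ × (Fin (n + 1) → ℂ),
        (∏ j ∈ Finset.Icc 1 (n + 1), ENNReal.ofReal (T j
          ((MeasurableEquiv.piFinSuccAbove (fun _ : Fin (n + 2) => ℂ) 0).symm p) ^ s)) *
          Ψ (T 0 ((MeasurableEquiv.piFinSuccAbove (fun _ : Fin (n + 2) => ℂ) 0).symm p)) =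
        (∏ j ∈ Finset.Icc 1 n, ENNReal.ofReal (T j p.2 ^ s)) *
          (ENNReal.ofReal (T 0 p.2 ^ s) * Ψ (‖p.1‖ ^ 2 + T 0 p.2)) := by
      intro p
      rw [hcons p, hprod, T_zero_cons]
      ring
    simp only [hF]
    have hTm : ∀ j : ℕ, Measurable fun p : ℂ × (Fin (n + 1) → ℂ) =>
        ENNReal.ofReal (T j p.2 ^ s) := fun j =>
      (((T_meas j).comp measurable_snd).pow_const s).ennreal_ofReal
    have hmeas : Measurable fun p : ℂ × (Fin (n + 1) → ℂ) =>
        (∏ j ∈ Finset.Icc 1 n, ENNReal.ofReal (T j p.2 ^ s)) *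
          (ENNReal.ofReal (T 0 p.2 ^ s) * Ψ (‖p.1‖ ^ 2 + T 0 p.2)) := by
      refine Measurable.mul (Finset.measurable_prod _ fun j _ => hTm j) ((hTm 0).mul ?_)
      exact hΨ.comp (((measurable_fst.norm).pow_const 2).add ((T_meas 0).comp measurable_snd))
    rw [Measure.volume_eq_prod, lintegral_prod _ hmeas.aemeasurable]
    obtain ⟨V, hV⟩ : ∃ V : ℝ → ℝ≥0∞, V = fun v : ℝ => ∫⁻ t in Set.Ioi (0 : ℝ),
      ENNReal.ofReal (t ^ (n * (s + 1) + s)) * Ψ (v + t) := ⟨_, rfl⟩
    have hin : ∀ w : ℂ, ∫⁻ z : Fin (n + 1) → ℂ, (∏ j ∈ Finset.Icc 1 n,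
        ENNReal.ofReal (T j z ^ s)) * (ENNReal.ofReal (T 0 z ^ s) * Ψ (‖w‖ ^ 2 + T 0 z)) =
        ENNReal.ofReal (π ^ (n + 1) / (n.factorial * (1 + s) ^ n)) * V (‖w‖ ^ 2) := by
      intro w
      rw [hV]
      have h1 := ih (fun t => ENNReal.ofReal (t ^ s) * Ψ (‖w‖ ^ 2 + t))
        ((measurable_id.pow_const s).ennreal_ofReal.mul
          (hΨ.comp (measurable_const.add measurable_id)))
      rw [h1]
      congr 1
      refine setLIntegral_congr_fun measurableSet_Ioi fun t ht => ?_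
      have ht' : (0 : ℝ) < t := ht
      rw [← mul_assoc, ← ENNReal.ofReal_mul (Real.rpow_nonneg ht'.le _),
        ← Real.rpow_add ht']
    simp only [hin]
    have hm2 : Measurable V := by
      rw [hV]
      refine Measurable.lintegral_prod_right' (f := fun p : ℝ × ℝ =>
        ENNReal.ofReal (p.2 ^ (n * (s + 1) + s)) * Ψ (p.1 + p.2)) ?_
      exact (((measurable_snd).pow_const _).ennreal_ofReal).mul
        (hΨ.comp (measurable_fst.add measurable_snd))
    have hm3 : Measurable fun x : ℂ => V (‖x‖ ^ 2) := hm2.comp ((measurable_norm).pow_const 2)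
    rw [lintegral_const_mul _ hm3, pol _ hm2, hV, dbl _ (by positivity) Ψ hΨ, ← mul_assoc,
      ← mul_assoc]
    have hexp : (n : ℝ) * (s + 1) + s + 1 = ((n + 1 : ℕ) : ℝ) * (s + 1) := by
      push_cast
      ring
    rw [hexp]
    congr 1
    rw [← ENNReal.ofReal_mul (by positivity), ← ENNReal.ofReal_mul (by positivity)]
    congr 1
    rw [Nat.factorial_succ]
    push_cast
    have h6 : (0 : ℝ) < 1 + s := by linarith
    field_simp
    ring

end STZ
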