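import Pool.Agent.STZ.StmtsK

/-!
# STZ, module CHC: the formula for the characters of the group of type `C₂`
-/

namespace STZ

open Matrix

namespace CHC

/-- `(1, s)` is a left eigenvector of the polynomials of `cm` -/
theorem left_eig (s t : ℂ) (p : Polynomial ℤ) (j : Fin 2) :
    (Polynomial.aeval (cm ![s + t, s * t + 1]) p) 0 j +
      s * (Polynomial.aeval (cm ![s + t, s * t + 1]) p) 1 j =
        Polynomial.aeval s p * (![1, s] : Fin 2 → ℂ) j := by
  induction p using Polynomial.induction_on generalizing j with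
  | C a =>
    rw [Polynomial.aeval_C, Polynomial.aeval_C]
    fin_cases j <;> simp [Matrix.algebraMap_matrix_apply]
    ring
  | add p q hp hq =>
    rw [map_add, map_add, Matrix.add_apply, Matrix.add_apply, add_mul, ← hp, ← hq]
    ring
  | monomial n a hp =>
    have h0 := hp 0
    have h1 := hp 1
    have h2 : (Polynomial.C a * Polynomial.X ^ (n + 1) : Polynomial ℤ) =
        (Polynomial.C a * Polynomial.X ^ n) * Polynomial.X := by
      rw [pow_succ, mul_assoc]
    rw [h2]
    generalize (Polynomial.C a * Polynomial.X ^ n : Polynomial ℤ) = P at h0 h1 ⊢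
    have h3 : Polynomial.aeval (cm ![s + t, s * t + 1]) (P * Polynomial.X) =
        Polynomial.aeval (cm ![s + t, s * t + 1]) P * cm ![s + t, s * t + 1] := by
      rw [map_mul, Polynomial.aeval_X]
    have h4 : Polynomial.aeval s (P * Polynomial.X) = Polynomial.aeval s P * s := by
      rw [map_mul, Polynomial.aeval_X]
    rw [h3, h4, Matrix.mul_apply, Matrix.mul_apply, Fin.sum_univ_two, Fin.sum_univ_two]
    generalize (Polynomial.aeval (cm ![s + t, s * t + 1]) P :
      Matrix (Fin 2) (Fin 2) ℂ) = Q at h0 h1 ⊢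
    generalize (Polynomial.aeval s P : ℂ) = z at h0 h1 ⊢
    simp only [Matrix.cons_val_zero, Matrix.cons_val_one, mul_one] at h0 h1
    fin_cases j
    · simp [cm]
      linear_combination h1
    · simp [cm]
      linear_combination (-(s * t)) * h0 + (s + t) * h1

theorem eval_S (s t : ℂ) (n : ℤ) :
    (Polynomial.Chebyshev.S ℂ (n - 1)).eval s =
      vC ![s + t, s * t + 1] n 0 + s * vC ![s + t, s * t + 1] n 1 := by
  unfold vC
  rw [left_eig s t (Polynomial.Chebyshev.S ℤ (n - 1)) 0]
  rw [← Polynomial.Chebyshev.map_S (algebraMap ℤ ℂ) (n - 1), Polynomial.eval_map,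
    Polynomial.aeval_def]
  simp

end CHC

open CHC in
theorem t_CHC : S_CHC := by
  intro s t l
  have h1 := eval_S s t (l 0 + l 1)
  have h2 := eval_S s t (l 1)
  have h3 := eval_S t s (l 0 + l 1)
  have h4 := eval_S t s (l 1)
  rw [add_comm t s, mul_comm t s] at h3 h4
  rw [h1, h2, h3, h4]
  unfold psC
  ring

end STZ
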