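import Pool.Agent.STZ.StmtsS

/-!
# Module CPL3: completeness of the characters of `SU(3)`
-/

namespace STZ

open MeasureTheory Matrix

open scoped ComplexConjugate Matrix Real

noncomputable section

theorem t_CPL3 : M_CPL3 := by
  intro hHA hKB hKE hAL hTE hSW hIN hIR μ _ _ f hf h0
  have hirr : IrrFam c3 := hIR μ
  obtain ⟨hker, -⟩ := hKE (SU 3) μ (ℕ × ℕ) c3 hirr
  have hkbf := hKB (SU 3) μ (ℕ × ℕ) (KK c3) hker
  have hPr0 : ∀ (S : Finset (ℕ × ℕ)) (x : SU 3), Pr μ (KK c3) S f x = 0 := by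
    intro S x
    unfold Pr
    refine Finset.sum_eq_zero fun a _ => ?_
    have h := congrFun (h0 a) x
    unfold Pr at h
    rw [Finset.sum_singleton] at h
    exact h
  have hc : Continuous fun g => conj (f g) := Complex.continuous_conj.comp hf
  have hn : nsq μ (fun g => conj (f g)) = 0 := by
    refine hSW 3 μ (fun g => conj (f g)) hc ?_
    intro i j p q p' q'
    obtain ⟨R, hR1, hR2⟩ := hTE 3 i j
    obtain ⟨S, n, hn⟩ := hIN.2 i j
    have hch : ∀ g, R.ch g = ∑ a ∈ S, (n a : ℂ) * c3 a g := by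
      intro g
      rw [hR2, hn]
      rfl
    have hall := hAL (SU 3) μ (ℕ × ℕ) c3 hirr _ R S (fun a => (n a : ℂ)) hch (p, p') (q, q')
    have hm : (fun g : SU 3 => (∏ s, g.1 (p s) (q s)) * ∏ s, conj (g.1 (p' s) (q' s))) =
        fun g => R.ρ g (p, p') (q, q') := by
      funext g
      rw [hR1]
    have hmc : Continuous fun g => R.ρ g (p, p') (q, q') := R.cont.matrix_elem _ _
    have hadj := hkbf.adj S (fun g => R.ρ g (p, p') (q, q')) f hmc hf
    rw [hall] at hadj
    have e : (fun g : SU 3 => conj (f g) *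
        ((∏ s, g.1 (p s) (q s)) * ∏ s, conj (g.1 (p' s) (q' s)))) =
        fun g => conj (f g) * R.ρ g (p, p') (q, q') := by
      funext g
      rw [congrFun hm g]
    rw [e, ← hadj]
    have e2 : (fun x => conj (Pr μ (KK c3) S f x) * R.ρ x (p, p') (q, q')) = fun _ => 0 := by
      funext x
      rw [hPr0, map_zero, zero_mul]
    rw [e2, integral_zero]
  have : μ.IsOpenPosMeasure := (hHA (SU 3) μ).2.2
  have hn2 : ∫ x, ‖f x‖ ^ 2 ∂μ = 0 := by
    have e : (fun x => ‖f x‖ ^ 2) = fun x => ‖conj (f x)‖ ^ 2 := by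
      funext x
      rw [RCLike.norm_conj]
    rw [e]
    exact hn
  have hi : Integrable (fun x => ‖f x‖ ^ 2) μ :=
    (hf.norm.pow 2).integrable_of_hasCompactSupport (HasCompactSupport.of_compactSpace _)
  rw [integral_eq_zero_iff_of_nonneg (fun x => sq_nonneg _) hi] at hn2
  have h2 : (fun x => ‖f x‖ ^ 2) = 0 :=
    (Continuous.ae_eq_iff_eq μ (hf.norm.pow 2) continuous_const).mp hn2
  funext x
  have h3 : ‖f x‖ ^ 2 = 0 := congrFun h2 x
  have h4 : ‖f x‖ = 0 := by
    rwa [sq_eq_zero_iff] at h3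
  exact norm_eq_zero.mp h4

end

end STZ
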