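import Pool.Agent.STZ.StmtsY

/-!
# Module CPLX: completeness of the characters, for closed subgroups of `SU(N)` with combinatorial data
-/

namespace STZ

open MeasureTheory Matrix

open scoped ComplexConjugate Matrix Real

noncomputable section

namespace CPLX

/-- the exponent of a regular weight -/
def un {r : ℕ} (l : Fin r → ℤ) : Fin r → ℕ := fun i => (l i - 1).toNat

lemma wG_un {r : ℕ} {l : Fin r → ℤ} (h : Reg l) : wG (un l) = l := by
  funext i
  have h1 := h i
  show ((l i - 1).toNat : ℤ) + 1 = l i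
  rw [Int.toNat_of_nonneg (by omega)]
  ring

/-- a polynomial in the functions `x` is a combination of the characters -/
lemma poly_comb {N : ℕ} {H : Subgroup (SU N)} {r : ℕ} {D : RD r} (x : Fin r → H → ℂ)
    (hIN : S_INTX) (hD : RDO D) (F : MvPolynomial (Fin r) ℤ) :
    ∃ (S : Finset (Fin r → ℕ)) (n : (Fin r → ℕ) → ℤ), ∀ g : H,
      MvPolynomial.aeval (fun i => x i g) F = ∑ a ∈ S, (n a : ℂ) * cG D x a g := by
  classical
  obtain ⟨T, n, hT, hn⟩ := (hIN r D hD).2.1 F
  refine ⟨T.image un, fun a => n (wG a), fun g => ?_⟩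
  rw [hn, Finset.sum_image]
  · refine Finset.sum_congr rfl fun l hl => ?_
    show (n l : ℂ) * D.ψ (fun i => x i g) l = (n (wG (un l)) : ℂ) * cG D x (un l) g
    rw [cG, wG_un (hT l hl)]
  · intro l hl l' hl' h
    have h1 := congrArg wG h
    rwa [wG_un (hT l hl), wG_un (hT l' hl')] at h1

/-- the trace and its conjugate -/
lemma trace_poly {N : ℕ} {H : Subgroup (SU N)} {c : ℝ} {d r : ℕ} {D : RD r} {x : Fin r → H → ℂ}
    {k : ℝ} (hG : GF H c d D x k) (i j : ℕ) : ∃ F : MvPolynomial (Fin r) ℤ, ∀ g : H,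
      g.1.1.trace ^ i * conj g.1.1.trace ^ j = MvPolynomial.aeval (fun i => x i g) F := by
  obtain ⟨F, hF⟩ := hG.tr
  refine ⟨F ^ i * (MvPolynomial.rename D.st F) ^ j, fun g => ?_⟩
  have h1 : conj g.1.1.trace = MvPolynomial.aeval (fun i => x i g) (MvPolynomial.rename D.st F) := by
    rw [hF g, MvPolynomial.aeval_rename]
    have e : ((fun i => x i g) ∘ D.st) = fun i => conj (x i g) := by
      funext i
      exact (hG.cj i g).symm
    rw [e]
    clear hF
    induction F using MvPolynomial.induction_on with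
    | C a => simp
    | add p q hp hq => rw [map_add, map_add, map_add, hp, hq]
    | mul_X p i hp => rw [map_mul, map_mul, map_mul, hp, MvPolynomial.aeval_X, MvPolynomial.aeval_X]
  rw [map_mul, map_pow, map_pow, ← hF g, ← h1]

end CPLX

theorem t_CPLX : M_CPLX := by
  intro hHA hKB hKE hAL hTE hSW hIN hIR N H c d r D x k hD hG μ _ _ f hf h0
  have hcs : CompactSpace H := isCompact_iff_compactSpace.1 (hG.closed.isCompact)
  have hsc : SecondCountableTopology H :=
    TopologicalSpace.Subtype.secondCountableTopology (H : Set (SU N))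
  have hirr : IrrFam (cG D x) := hIR N H c d r D x k hD hG μ
  obtain ⟨hker, -⟩ := hKE H μ (Fin r → ℕ) (cG D x) hirr
  have hkbf := hKB H μ (Fin r → ℕ) (KK (cG D x)) hker
  have hPr0 : ∀ (S : Finset (Fin r → ℕ)) (y : H), Pr μ (KK (cG D x)) S f y = 0 := by
    intro S y
    unfold Pr
    refine Finset.sum_eq_zero fun a _ => ?_
    have h := congrFun (h0 a) y
    unfold Pr at h
    rw [Finset.sum_singleton] at h
    exact h
  have hc : Continuous fun g => conj (f g) := Complex.continuous_conj.comp hf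
  have hn : nsq μ (fun g => conj (f g)) = 0 := by
    refine hSW N H hG.closed μ (fun g => conj (f g)) hc ?_
    intro i j p q p' q'
    obtain ⟨R, hR1, hR2⟩ := hTE N H i j
    obtain ⟨F, hF⟩ := CPLX.trace_poly hG i j
    obtain ⟨S, n, hn⟩ := CPLX.poly_comb x hIN hD F
    have hch : ∀ g, R.ch g = ∑ a ∈ S, (n a : ℂ) * cG D x a g := by
      intro g
      rw [hR2, hF, hn]
    have hall := hAL H μ (Fin r → ℕ) (cG D x) hirr _ R S (fun a => (n a : ℂ)) hch (p, p') (q, q')
    have hm : (fun g : H => (∏ s, g.1.1 (p s) (q s)) * ∏ s, conj (g.1.1 (p' s) (q' s))) =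
        fun g => R.ρ g (p, p') (q, q') := by
      funext g
      rw [hR1]
    have hmc : Continuous fun g => R.ρ g (p, p') (q, q') := R.cont.matrix_elem _ _
    have hadj := hkbf.adj S (fun g => R.ρ g (p, p') (q, q')) f hmc hf
    rw [hall] at hadj
    have e : (fun g : H => conj (f g) *
        ((∏ s, g.1.1 (p s) (q s)) * ∏ s, conj (g.1.1 (p' s) (q' s)))) =
        fun g => conj (f g) * R.ρ g (p, p') (q, q') := by
      funext g
      rw [congrFun hm g]
    rw [e, ← hadj]
    have e2 : (fun y => conj (Pr μ (KK (cG D x)) S f y) * R.ρ y (p, p') (q, q')) = fun _ => 0 := by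
      funext y
      rw [hPr0, map_zero, zero_mul]
    rw [e2, integral_zero]
  have : μ.IsOpenPosMeasure := (hHA H μ).2.2
  have hn2 : ∫ y, ‖f y‖ ^ 2 ∂μ = 0 := by
    have e : (fun y => ‖f y‖ ^ 2) = fun y => ‖conj (f y)‖ ^ 2 := by
      funext y
      rw [RCLike.norm_conj]
    rw [e]
    exact hn
  have hi : Integrable (fun y => ‖f y‖ ^ 2) μ :=
    (hf.norm.pow 2).integrable_of_hasCompactSupport (HasCompactSupport.of_compactSpace _)
  rw [integral_eq_zero_iff_of_nonneg (fun y => sq_nonneg _) hi] at hn2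
  have h2 : (fun y => ‖f y‖ ^ 2) = 0 :=
    (Continuous.ae_eq_iff_eq μ (hf.norm.pow 2) continuous_const).mp hn2
  funext y
  have h3 : ‖f y‖ ^ 2 = 0 := congrFun h2 y
  have h4 : ‖f y‖ = 0 := by
    rwa [sq_eq_zero_iff] at h3
  exact norm_eq_zero.mp h4

end

end STZ
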