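import Pool.Agent.STZ.StmtsP

/-!
# CUMA: partition coordinates of the root system `A_r`
-/

namespace STZ

open MeasureTheory Matrix

open scoped ComplexConjugate Matrix Real

noncomputable section

namespace CUMA

variable {r : ℕ}

theorem cum_last (l : Fin r → ℤ) : cum l (Fin.last r) = 0 := by
  unfold cum
  apply Finset.sum_eq_zero
  intro i _
  rw [if_neg]
  simp only [Fin.val_last]
  have := i.2
  omega

theorem cd (l : Fin r → ℤ) (i : Fin r) : cum l i.castSucc - cum l i.succ = l i := by
  unfold cum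
  rw [← Finset.sum_sub_distrib, Finset.sum_eq_single i]
  · simp
  · intro k _ hk
    have hk' : k.val ≠ i.val := fun h => hk (Fin.ext h)
    simp only [Fin.val_castSucc, Fin.val_succ]
    by_cases h : i.val ≤ k.val
    · rw [if_pos h, if_pos (by omega), sub_self]
    · rw [if_neg h, if_neg (by omega), sub_self]
  · intro h
    exact absurd (Finset.mem_univ i) h

theorem cum_castSucc (l : Fin r → ℤ) (i : Fin r) :
    cum l i.castSucc = l i + cum l i.succ := by
  have := cd l i
  linarith

theorem dc (m : Fin (r + 1) → ℤ) (j : Fin (r + 1)) :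
    cum (dif m) j = m j - m (Fin.last r) := by
  induction j using Fin.reverseInduction with
  | last => rw [cum_last, sub_self]
  | cast i ih =>
    rw [cum_castSucc, ih]
    unfold dif
    ring

theorem cadd (l l' : Fin r → ℤ) (j : Fin (r + 1)) : cum (l + l') j = cum l j + cum l' j := by
  unfold cum
  rw [← Finset.sum_add_distrib]
  apply Finset.sum_congr rfl
  intro i _
  split_ifs <;> simp

theorem one (j : Fin (r + 1)) : cum (1 : Fin r → ℤ) j = r - j.val := by
  induction j using Fin.reverseInduction with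
  | last => rw [cum_last]; simp
  | cast i ih =>
    rw [cum_castSucc, ih]
    simp only [Fin.val_castSucc, Fin.val_succ, Pi.one_apply]
    push_cast
    ring

theorem dot (l : Fin r → ℤ) (a b : Fin (r + 1)) (hab : a < b) :
    cum l a - cum l b =
      (fun i : Fin r => if a.val ≤ i.val ∧ i.val < b.val then (1 : ℤ) else 0) ⬝ᵥ l := by
  have hab' : a.val < b.val := hab
  unfold cum dotProduct
  rw [← Finset.sum_sub_distrib]
  apply Finset.sum_congr rfl
  intro i _
  show _ = (if a.val ≤ i.val ∧ i.val < b.val then (1 : ℤ) else 0) * l i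
  by_cases h1 : a.val ≤ i.val
  · by_cases h2 : b.val ≤ i.val
    · have h3 : ¬(a.val ≤ i.val ∧ i.val < b.val) := by omega
      rw [if_pos h1, if_pos h2, if_neg h3]; ring
    · have h3 : a.val ≤ i.val ∧ i.val < b.val := by omega
      rw [if_pos h1, if_neg h2, if_pos h3]; ring
  · have h2 : ¬ b.val ≤ i.val := by omega
    have h3 : ¬(a.val ≤ i.val ∧ i.val < b.val) := by omega
    rw [if_neg h1, if_neg h2, if_neg h3]; ring

theorem wl (σ : Equiv.Perm (Fin (r + 1))) (l : Fin r → ℤ) : wA σ *ᵥ l = dif (cum l ∘ σ) := by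
  funext i
  unfold dif cum wA mulVec dotProduct
  simp only [Matrix.of_apply, Function.comp_apply]
  rw [← Finset.sum_sub_distrib]
  apply Finset.sum_congr rfl
  intro k _
  split_ifs <;> ring

theorem wc (σ : Equiv.Perm (Fin (r + 1))) (l : Fin r → ℤ) (j : Fin (r + 1)) :
    cum (wA σ *ᵥ l) j = cum l (σ j) - cum l (σ (Fin.last r)) := by
  rw [wl, dc]
  rfl

theorem dif_cum (l : Fin r → ℤ) : dif (cum l) = l := by
  funext i
  exact cd l i

theorem ext_mulVec (A B : Matrix (Fin r) (Fin r) ℤ) (h : ∀ l, A *ᵥ l = B *ᵥ l) : A = B := by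
  have h' : A.mulVec = B.mulVec := funext h
  exact Matrix.mulVec_injective h'

theorem wone : wA (1 : Equiv.Perm (Fin (r + 1))) = 1 := by
  apply ext_mulVec
  intro l
  rw [wl, Matrix.one_mulVec]
  exact dif_cum l

theorem wmul (σ τ : Equiv.Perm (Fin (r + 1))) : wA σ * wA τ = wA (τ * σ) := by
  apply ext_mulVec
  intro l
  rw [← Matrix.mulVec_mulVec, wl σ, wl (τ * σ)]
  funext i
  unfold dif
  simp only [Function.comp_apply, Equiv.Perm.coe_mul]
  rw [wc, wc]
  ring

/-- the vector of a transposition -/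
def al' (a b : Fin (r + 1)) : Fin r → ℤ := dif (ind {a} - ind {b})

theorem ind_single (a j : Fin (r + 1)) : (ind {a} : Fin (r + 1) → ℤ) j = if j = a then 1 else 0 := by
  unfold ind
  simp

theorem wswap (a b : Fin (r + 1)) (hab : a < b) :
    wA (Equiv.swap a b) = 1 + Matrix.replicateCol Unit (-(al' a b)) *
      Matrix.replicateRow Unit
        (fun i : Fin r => if a.val ≤ i.val ∧ i.val < b.val then (1 : ℤ) else 0) := by
  apply ext_mulVec
  intro l
  rw [wl, Matrix.add_mulVec, Matrix.one_mulVec, ← Matrix.mulVec_mulVec]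
  have hne : a ≠ b := ne_of_lt hab
  have h1 : (Matrix.replicateRow Unit
        (fun i : Fin r => if a.val ≤ i.val ∧ i.val < b.val then (1 : ℤ) else 0)) *ᵥ l =
      fun _ => cum l a - cum l b := by
    funext u
    rw [dot l a b hab]
    rfl
  rw [h1]
  funext i
  have h2 : ((Matrix.replicateCol Unit (-(al' a b))) *ᵥ (fun _ : Unit => cum l a - cum l b)) i =
      -(al' a b i) * (cum l a - cum l b) := by
    simp [Matrix.mulVec, dotProduct, Matrix.replicateCol]
  rw [Pi.add_apply, h2]
  have key : ∀ j : Fin (r + 1), cum l (Equiv.swap a b j) = cum l j -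
      (cum l a - cum l b) * ((ind {a} : Fin (r + 1) → ℤ) j - (ind {b} : Fin (r + 1) → ℤ) j) := by
    intro j
    rw [ind_single, ind_single]
    by_cases hja : j = a
    · subst hja
      rw [Equiv.swap_apply_left, if_pos rfl, if_neg hne]
      ring
    · by_cases hjb : j = b
      · subst hjb
        rw [Equiv.swap_apply_right, if_neg hja, if_pos rfl]
        ring
      · rw [Equiv.swap_apply_of_ne_of_ne hja hjb, if_neg hja, if_neg hjb]
        ring
  have h3 := cd l i
  unfold al' dif
  simp only [Function.comp_apply, Pi.sub_apply]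
  rw [key, key, ← h3]
  ring

theorem det_swap (a b : Fin (r + 1)) (hab : a < b) : (wA (Equiv.swap a b)).det = -1 := by
  rw [wswap a b hab, Matrix.det_one_add_replicateCol_mul_replicateRow]
  have hne : a ≠ b := ne_of_lt hab
  have h : (fun i : Fin r => if a.val ≤ i.val ∧ i.val < b.val then (1 : ℤ) else 0) ⬝ᵥ (al' a b) = 2 := by
    rw [← dot (al' a b) a b hab]
    unfold al'
    rw [dc, dc]
    simp only [Pi.sub_apply, ind_single]
    rw [if_neg hne, if_neg hne.symm]
    simp
  rw [dotProduct_neg, h]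
  norm_num

theorem wdet (σ : Equiv.Perm (Fin (r + 1))) : (wA σ).det = (Equiv.Perm.sign σ : ℤ) := by
  induction σ using Equiv.Perm.swap_induction_on with
  | one => rw [wone, Matrix.det_one]; simp
  | swap_mul f x y hxy ih =>
    rw [← wmul, Matrix.det_mul, ih, Equiv.Perm.sign_mul, Equiv.Perm.sign_swap hxy]
    have h : (wA (Equiv.swap x y)).det = -1 := by
      rcases lt_or_gt_of_ne hxy with h | h
      · exact det_swap x y h
      · rw [Equiv.swap_comm]
        exact det_swap y x h
    rw [h]
    simp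

theorem winj : Function.Injective (wA : Equiv.Perm (Fin (r + 1)) → Matrix (Fin r) (Fin r) ℤ) := by
  intro σ τ h
  have h1 : ∀ j, ((σ j).val : ℤ) - (σ (Fin.last r)).val = (τ j).val - (τ (Fin.last r)).val := by
    intro j
    have h2 : cum (wA σ *ᵥ (1 : Fin r → ℤ)) j = cum (wA τ *ᵥ (1 : Fin r → ℤ)) j := by rw [h]
    rw [wc, wc, one, one, one, one] at h2
    linarith
  have h3 : ∑ j, ((σ j).val : ℤ) = ∑ j, ((τ j).val : ℤ) := by
    rw [Equiv.sum_comp σ (fun j : Fin (r + 1) => (j.val : ℤ)),
      Equiv.sum_comp τ (fun j : Fin (r + 1) => (j.val : ℤ))]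
  have h4 : ∑ j : Fin (r + 1), (((σ j).val : ℤ) - (τ j).val) = 0 := by
    rw [Finset.sum_sub_distrib, h3, sub_self]
  have h5 : ∀ j : Fin (r + 1), ((σ j).val : ℤ) - (τ j).val =
      (σ (Fin.last r)).val - (τ (Fin.last r)).val := by
    intro j
    have := h1 j
    linarith
  have h6 : ((r : ℤ) + 1) * ((σ (Fin.last r)).val - (τ (Fin.last r)).val) = 0 := by
    rw [← h4, Finset.sum_congr rfl (fun j _ => h5 j), Finset.sum_const, Finset.card_univ,
      Fintype.card_fin, nsmul_eq_mul]
    push_cast
    ring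
  have h7 : ((σ (Fin.last r)).val : ℤ) - (τ (Fin.last r)).val = 0 := by
    rcases mul_eq_zero.mp h6 with h | h
    · omega
    · exact h
  apply Equiv.ext
  intro j
  apply Fin.ext
  have := h5 j
  omega

theorem wrev (l : Fin r → ℤ) :
    wA (Fin.revPerm : Equiv.Perm (Fin (r + 1))) *ᵥ l = -(l ∘ Fin.revPerm) := by
  rw [wl]
  funext i
  unfold dif
  simp only [Function.comp_apply, Pi.neg_apply, Fin.revPerm_apply]
  rw [Fin.rev_castSucc, Fin.rev_succ]
  have := cd l (Fin.rev i)
  linarith

theorem sum_ind (I : Finset (Fin (r + 1))) : ∑ j, (ind I : Fin (r + 1) → ℤ) j = I.card := by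
  unfold ind
  simp

theorem dinj (I J : Finset (Fin (r + 1))) (hc : I.card = J.card) (h : dif (ind I) = dif (ind J)) :
    I = J := by
  have h1 : ∀ j, (ind I : Fin (r + 1) → ℤ) j - ind J j = ind I (Fin.last r) - ind J (Fin.last r) := by
    intro j
    have h2 : cum (dif (ind I)) j = cum (dif (ind J)) j := by rw [h]
    rw [dc, dc] at h2
    linarith
  have h3 : ((r : ℤ) + 1) * (ind I (Fin.last r) - ind J (Fin.last r)) = 0 := by
    have h4 : ∑ j, ((ind I : Fin (r + 1) → ℤ) j - ind J j) = 0 := by
      rw [Finset.sum_sub_distrib, sum_ind, sum_ind, hc, sub_self]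
    rw [← h4, Finset.sum_congr rfl (fun j _ => h1 j), Finset.sum_const, Finset.card_univ,
      Fintype.card_fin, nsmul_eq_mul]
    push_cast
    ring
  have h5 : (ind I : Fin (r + 1) → ℤ) (Fin.last r) - ind J (Fin.last r) = 0 := by
    rcases mul_eq_zero.mp h3 with h | h
    · omega
    · exact h
  ext j
  have h6 := h1 j
  rw [h5] at h6
  unfold ind at h6
  by_cases hI : j ∈ I <;> by_cases hJ : j ∈ J <;> simp_all

theorem dif_sub_const (m : Fin (r + 1) → ℤ) (c : ℤ) : dif (fun j => m j - c) = dif m := by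
  funext i
  unfold dif
  ring

theorem dw (σ : Equiv.Perm (Fin (r + 1))) (I : Finset (Fin (r + 1))) :
    wA σ *ᵥ dif (ind I) = dif (ind (I.map σ.symm.toEmbedding)) := by
  rw [wl]
  have h1 : (cum (dif (ind I)) ∘ σ) =
      fun j => (ind I : Fin (r + 1) → ℤ) (σ j) - ind I (Fin.last r) := by
    funext j
    simp only [Function.comp_apply]
    rw [dc]
  rw [h1, dif_sub_const (fun j => (ind I : Fin (r + 1) → ℤ) (σ j))]
  congr 1
  funext j
  unfold ind
  have h2 : j ∈ I.map σ.symm.toEmbedding ↔ σ j ∈ I := by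
    simp only [Finset.mem_map, Equiv.coe_toEmbedding]
    constructor
    · rintro ⟨a, ha, hj⟩
      rw [← hj, Equiv.apply_symm_apply]
      exact ha
    · intro h
      exact ⟨σ j, h, Equiv.symm_apply_apply σ j⟩
  simp only [h2]

theorem single (i : Fin r) : dif (ind (Finset.Iic i.castSucc)) = Pi.single i 1 := by
  funext k
  unfold dif ind
  simp only [Finset.mem_Iic]
  have e1 : k.castSucc ≤ i.castSucc ↔ k.val ≤ i.val := Iff.rfl
  have e2 : k.succ ≤ i.castSucc ↔ k.val + 1 ≤ i.val := Iff.rfl
  simp only [e1, e2]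
  by_cases h : k = i
  · subst h
    simp
  · have h' : k.val ≠ i.val := fun hh => h (Fin.ext hh)
    rw [Pi.single_eq_of_ne h]
    by_cases h1 : k.val ≤ i.val
    · rw [if_pos h1, if_pos (by omega)]; ring
    · rw [if_neg h1, if_neg (by omega)]; ring

theorem cum_lin (x : Fin r → ℤ) (j : Fin (r + 1)) :
    cum x j = ∑ i, x i * cum (Pi.single i 1 : Fin r → ℤ) j := by
  have h : ∀ i : Fin r, cum (Pi.single i 1 : Fin r → ℤ) j = if j.val ≤ i.val then 1 else 0 := by
    intro i
    unfold cum
    rw [Finset.sum_eq_single i]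
    · rw [Pi.single_eq_same]
    · intro k _ hk
      rw [Pi.single_eq_of_ne hk]
      simp
    · intro h
      exact absurd (Finset.mem_univ i) h
  unfold cum at *
  apply Finset.sum_congr rfl
  intro i _
  rw [h i]
  split_ifs <;> ring

theorem pol (x y : Fin r → ℤ) : x ⬝ᵥ ((DA r).A *ᵥ y) =
    ∑ p ∈ prs r, 2 * (cum x p.1 - cum x p.2) * (cum y p.1 - cum y p.2) := by
  have hx : ∀ (x : Fin r → ℤ) (p : Fin (r + 1) × Fin (r + 1)), cum x p.1 - cum x p.2 =
      ∑ i, x i * (cum (Pi.single i 1 : Fin r → ℤ) p.1 - cum (Pi.single i 1 : Fin r → ℤ) p.2) := by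
    intro x p
    rw [cum_lin x p.1, cum_lin x p.2, ← Finset.sum_sub_distrib]
    apply Finset.sum_congr rfl
    intro i _
    ring
  unfold dotProduct mulVec DA
  simp only [Matrix.of_apply, dotProduct]
  have h1 : ∀ p ∈ prs r, 2 * (cum x p.1 - cum x p.2) * (cum y p.1 - cum y p.2) =
      ∑ i, ∑ k, x i * (2 * (cum (Pi.single i 1 : Fin r → ℤ) p.1 -
        cum (Pi.single i 1 : Fin r → ℤ) p.2) * (cum (Pi.single k 1 : Fin r → ℤ) p.1 -
        cum (Pi.single k 1 : Fin r → ℤ) p.2) * y k) := by
    intro p _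
    rw [hx x p, hx y p, mul_assoc, Finset.sum_mul_sum, Finset.mul_sum]
    apply Finset.sum_congr rfl
    intro i _
    rw [Finset.mul_sum]
    apply Finset.sum_congr rfl
    intro k _
    ring
  rw [Finset.sum_congr rfl h1, Finset.sum_comm]
  apply Finset.sum_congr rfl
  intro i _
  rw [Finset.mul_sum, Finset.sum_comm]
  apply Finset.sum_congr rfl
  intro k _
  rw [Finset.sum_mul, Finset.mul_sum]

theorem psum (x y : Fin (r + 1) → ℤ) : ∑ p ∈ prs r, 2 * (x p.1 - x p.2) * (y p.1 - y p.2) =
    2 * ((r + 1) * ∑ j, x j * y j - (∑ j, x j) * ∑ j, y j) := by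
  set f : Fin (r + 1) × Fin (r + 1) → ℤ := fun p => (x p.1 - x p.2) * (y p.1 - y p.2) with hf
  have hsw : ∀ p, f p.swap = f p := by
    intro p
    simp only [hf, Prod.fst_swap, Prod.snd_swap]
    ring
  have h1 : ∑ p : Fin (r + 1) × Fin (r + 1), f p =
      2 * ((r + 1) * ∑ j, x j * y j - (∑ j, x j) * ∑ j, y j) := by
    rw [Fintype.sum_prod_type]
    simp only [hf]
    have h2 : ∀ a b : Fin (r + 1), (x a - x b) * (y a - y b) =
        x a * y a + x b * y b - x a * y b - x b * y a := by
      intro a b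
      ring
    simp only [h2, Finset.sum_sub_distrib, Finset.sum_add_distrib, ← Finset.mul_sum,
      ← Finset.sum_mul]
    simp only [Finset.sum_const, Finset.card_univ, Fintype.card_fin, nsmul_eq_mul]
    have h5 : ∑ j, x j * (((r + 1 : ℕ) : ℤ) * y j) = ((r + 1 : ℕ) : ℤ) * ∑ j, x j * y j := by
      rw [Finset.mul_sum]
      apply Finset.sum_congr rfl
      intro j _
      ring
    rw [h5]
    push_cast
    ring
  have h3 : ∑ p : Fin (r + 1) × Fin (r + 1), f p =
      ∑ p ∈ prs r, f p + ∑ p ∈ prs r, f p := by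
    have h4 : ∀ p : Fin (r + 1) × Fin (r + 1), f p =
        (if p.1 < p.2 then f p else 0) + (if p.2 < p.1 then f p else 0) := by
      intro p
      rcases lt_trichotomy p.1 p.2 with h | h | h
      · rw [if_pos h, if_neg (not_lt_of_gt h), add_zero]
      · rw [if_neg (by rw [h]; exact lt_irrefl _), if_neg (by rw [h]; exact lt_irrefl _)]
        simp only [hf, h]
        ring
      · rw [if_pos h, if_neg (not_lt_of_gt h), zero_add]
    rw [Finset.sum_congr rfl (fun p _ => h4 p), Finset.sum_add_distrib]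
    congr 1
    · unfold prs
      rw [Finset.sum_filter]
    · unfold prs
      rw [Finset.sum_filter, ← Equiv.sum_comp (Equiv.prodComm _ _)]
      apply Finset.sum_congr rfl
      intro p _
      simp only [Equiv.prodComm_apply, Prod.fst_swap, Prod.snd_swap, hsw]
  rw [← h1, h3, ← two_mul, Finset.mul_sum]
  apply Finset.sum_congr rfl
  intro p _
  simp only [hf]
  ring

end CUMA

open CUMA in
/-- CUMA -/
theorem t_CUMA : S_CUMA := by
  intro r
  exact
    { cd := dif_cum
      dc := CUMA.dc
      last := cum_last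
      cadd := CUMA.cadd
      one := CUMA.one
      dot := CUMA.dot
      wl := CUMA.wl
      wc := CUMA.wc
      wone := CUMA.wone
      wmul := CUMA.wmul
      wdet := CUMA.wdet
      winj := CUMA.winj
      wrev := CUMA.wrev
      dinj := CUMA.dinj
      dw := CUMA.dw
      single := CUMA.single
      pol := CUMA.pol
      psum := CUMA.psum }

end

end STZ
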