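import Pool.Agent.STZ.StmtsL

/-!
# Module DALG: the derivations `D Z`
-/

namespace STZ

open MeasureTheory Matrix

open scoped ComplexConjugate Matrix Real ENNReal

noncomputable section

namespace DALG

theorem D_X {n : ℕ} (Z : Matrix (Fin n) (Fin n) ℂ) (k : Fin n × Fin n) :
    D Z (MvPolynomial.X k) = ∑ l, Z l k.2 • (MvPolynomial.X (k.1, l) : MP n) := by
  unfold D
  rw [MvPolynomial.mkDerivation_X]
  exact Finset.sum_congr rfl fun l _ => by rw [MvPolynomial.C_mul']

theorem D_D {n : ℕ} (Z W : Matrix (Fin n) (Fin n) ℂ) (k : Fin n × Fin n) :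
    D Z (D W (MvPolynomial.X k)) = ∑ m, (Z * W) m k.2 • (MvPolynomial.X (k.1, m) : MP n) := by
  rw [D_X, map_sum]
  have h : ∀ l : Fin n, D Z (W l k.2 • (MvPolynomial.X (k.1, l) : MP n)) =
      ∑ m, (Z m l * W l k.2) • (MvPolynomial.X (k.1, m) : MP n) := by
    intro l
    rw [Derivation.map_smul, D_X, Finset.smul_sum]
    exact Finset.sum_congr rfl fun m _ => by rw [smul_smul, mul_comm]
  rw [Finset.sum_congr rfl fun l _ => h l, Finset.sum_comm]
  refine Finset.sum_congr rfl fun m _ => ?_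
  rw [Matrix.mul_apply, Finset.sum_smul]

theorem add {n : ℕ} (Z W : Matrix (Fin n) (Fin n) ℂ) : D (Z + W) = D Z + D W := by
  apply MvPolynomial.derivation_ext
  intro k
  rw [Derivation.add_apply, D_X, D_X, D_X, ← Finset.sum_add_distrib]
  exact Finset.sum_congr rfl fun l _ => by rw [Matrix.add_apply, add_smul]

theorem smul {n : ℕ} (c : ℂ) (Z : Matrix (Fin n) (Fin n) ℂ) : D (c • Z) = c • D Z := by
  apply MvPolynomial.derivation_ext
  intro k
  rw [Derivation.smul_apply, D_X, D_X, Finset.smul_sum]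
  exact Finset.sum_congr rfl fun l _ => by rw [Matrix.smul_apply, smul_eq_mul, smul_smul]

theorem comm {n : ℕ} (Z W : Matrix (Fin n) (Fin n) ℂ) : ⁅D Z, D W⁆ = D (Z * W - W * Z) := by
  apply MvPolynomial.derivation_ext
  intro k
  rw [Derivation.commutator_apply, D_D, D_D, D_X, ← Finset.sum_sub_distrib]
  exact Finset.sum_congr rfl fun l _ => by rw [Matrix.sub_apply, sub_smul]

end DALG

theorem t_DALG : S_DALG := by
  intro n F
  refine ⟨fun Z W => ?_, fun c Z => ?_, fun Z W => ?_⟩
  · rw [DALG.add, Derivation.add_apply]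
  · rw [DALG.smul, Derivation.smul_apply]
  · rw [← DALG.comm, Derivation.commutator_apply]

end

end STZ
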