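import Pool.Agent.STZ.StmtsP

/-!
# Module DERA: the derivatives of the elementary symmetric functions of the eigenvalues
-/

set_option autoImplicit false

namespace STZ

open Matrix

open scoped ComplexConjugate Matrix

noncomputable section

namespace DERA

/-! ### smoothness -/

section smooth

variable {N : ℕ} {H : Subgroup (SU N)}

theorem sum2 (hC : CALFH H) {ι : Type} (s : Finset ι) (f : ι → H → ℂ) (hf : ∀ i, C2H (f i)) :
    C2H (fun g => ∑ i ∈ s, f i g) := by
  classical
  induction s using Finset.induction_on with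
  | empty =>
    simp only [Finset.sum_empty]
    exact hC.const 0
  | insert a s ha ih =>
    simp only [Finset.sum_insert ha]
    exact hC.add _ _ (hf a) ih

theorem prod2 (hC : CALFH H) {ι : Type} (s : Finset ι) (f : ι → H → ℂ) (hf : ∀ i, C2H (f i)) :
    C2H (fun g => ∏ i ∈ s, f i g) := by
  classical
  induction s using Finset.induction_on with
  | empty =>
    simp only [Finset.prod_empty]
    exact hC.const 1
  | insert a s ha ih =>
    simp only [Finset.prod_insert ha]
    exact hC.mul _ _ (hf a) ih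

theorem det2 (hC : CALFH H) {ι : Type} [Fintype ι] [DecidableEq ι] (A : H → Matrix ι ι ℂ)
    (hA : ∀ i j, C2H (fun g => A g i j)) : C2H (fun g => (A g).det) := by
  have h : (fun g => (A g).det) =
      fun g => ∑ σ : Equiv.Perm ι, ((Equiv.Perm.sign σ : ℤ) : ℂ) * ∏ i, A g (σ i) i := by
    funext g
    rw [Matrix.det_apply']
  rw [h]
  exact sum2 hC _ _ fun σ => hC.mul _ _ (hC.const _) (prod2 hC _ _ fun i => hA _ _)

theorem eg2 (hC : CALFH H) (a : ℕ) : C2H (fun g : H => eg a g.1.1) := by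
  have h : (fun g : H => eg a g.1.1) = fun g : H => ∑ s ∈ Finset.univ.powersetCard a,
      (g.1.1.submatrix (Subtype.val : s → Fin N) (Subtype.val : s → Fin N)).det := by
    funext g
    rfl
  rw [h]
  exact sum2 hC _ _ fun s => det2 hC _ fun i j => hC.entry _ _

end smooth

/-! ### the derivative of the determinant -/

section deriv

variable {n : ℕ}

/-- the derivative of the determinant at `A` in the direction `B` -/
def dd (A B : Matrix (Fin n) (Fin n) ℂ) : ℂ :=
  ∑ σ : Equiv.Perm (Fin n), ((Equiv.Perm.sign σ : ℤ) : ℂ) *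
    ∑ i, (∏ j ∈ Finset.univ.erase i, A (σ j) j) • B (σ i) i

theorem hdd (M : ℝ → Matrix (Fin n) (Fin n) ℂ) (B : Matrix (Fin n) (Fin n) ℂ)
    (hM : ∀ i j, HasDerivAt (fun t => M t i j) (B i j) 0) :
    HasDerivAt (fun t => (M t).det) (dd (M 0) B) 0 := by
  have h : (fun t => (M t).det) =
      fun t => ∑ σ : Equiv.Perm (Fin n), ((Equiv.Perm.sign σ : ℤ) : ℂ) * ∏ i, M t (σ i) i := by
    funext t
    rw [Matrix.det_apply']
  rw [h]
  exact HasDerivAt.fun_sum fun σ _ =>
    (HasDerivAt.fun_finsetProd fun i _ => hM (σ i) i).const_mul _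

theorem hlin (A B : Matrix (Fin n) (Fin n) ℂ) (hA : IsUnit A.det) :
    HasDerivAt (fun t : ℝ => (A + (t : ℂ) • B).det) (A.det * (A⁻¹ * B).trace) 0 := by
  have h1 : (fun t : ℝ => (A + (t : ℂ) • B).det) = fun t : ℝ => A.det *
      (1 + (A⁻¹ * B).trace * (t : ℂ) +
        (det (1 + (Polynomial.X : Polynomial ℂ) • (A⁻¹ * B).map Polynomial.C)).divX.divX.eval
          (t : ℂ) * (t : ℂ) ^ 2) := by
    funext t
    rw [← Matrix.det_one_add_smul, ← Matrix.det_mul, mul_add, mul_one, Matrix.mul_smul,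
      ← Matrix.mul_assoc, Matrix.mul_nonsing_inv A hA, Matrix.one_mul]
  rw [h1]
  have ht : HasDerivAt (fun t : ℝ => (t : ℂ)) 1 0 := Complex.ofRealCLM.hasDerivAt
  have hp := (Polynomial.hasDerivAt
    (det (1 + (Polynomial.X : Polynomial ℂ) • (A⁻¹ * B).map Polynomial.C)).divX.divX
      ((0 : ℝ) : ℂ)).comp_ofReal
  have h2 := (((ht.const_mul (A⁻¹ * B).trace).const_add 1).add (hp.mul (ht.pow 2))).const_mul A.det
  refine h2.congr_deriv ?_
  simp

theorem dd_unit (A B : Matrix (Fin n) (Fin n) ℂ) (hA : IsUnit A.det) :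
    dd A B = A.det * (A⁻¹ * B).trace := by
  have h1 := hdd (fun t : ℝ => A + (t : ℂ) • B) B (fun i j => by
    have ht : HasDerivAt (fun t : ℝ => (t : ℂ)) 1 0 := Complex.ofRealCLM.hasDerivAt
    have := (ht.mul_const (B i j)).const_add (A i j)
    rw [one_mul] at this
    exact this)
  have h2 := h1.unique (hlin A B hA)
  simpa using h2

end deriv

/-! ### algebra -/

section alg

variable {n : ℕ}

/-- the coefficients of the adjugate of `1 + z g` -/
def TT (k : ℕ) (g : Matrix (Fin n) (Fin n) ℂ) : Matrix (Fin n) (Fin n) ℂ :=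
  ∑ s ∈ Finset.range (k + 1), ((-1) ^ s * eg (k - s) g) • g ^ s

theorem GM_succ (k : ℕ) (g : Matrix (Fin n) (Fin n) ℂ) : GM (k + 1) g = TT k g * g := by
  unfold GM TT
  rw [Finset.sum_mul]
  refine Finset.sum_congr rfl fun s hs => ?_
  rw [Matrix.smul_mul, ← pow_succ, Nat.add_sub_cancel]

theorem TT_succ (k : ℕ) (g : Matrix (Fin n) (Fin n) ℂ) :
    g * TT k g = eg (k + 1) g • 1 - TT (k + 1) g := by
  have h : TT (k + 1) g = (∑ s ∈ Finset.range (k + 1),
      ((-1) ^ (s + 1) * eg (k + 1 - (s + 1)) g) • g ^ (s + 1)) +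
      ((-1) ^ 0 * eg (k + 1 - 0) g) • g ^ 0 := by
    unfold TT
    rw [Finset.sum_range_succ']
  rw [h]
  simp only [pow_zero, one_mul, Nat.sub_zero, Nat.add_sub_add_right]
  rw [sub_add_cancel_right]
  unfold TT
  rw [Finset.mul_sum, ← Finset.sum_neg_distrib]
  refine Finset.sum_congr rfl fun s hs => ?_
  rw [Matrix.mul_smul, ← pow_succ', pow_succ (-1 : ℂ), ← neg_smul]
  ring_nf

theorem cp {k : ℕ} (h : k ≤ n) (g : Matrix (Fin n) (Fin n) ℂ) :
    g.charpoly.coeff (n - k) = (-1) ^ k * eg k g := by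
  have h1 := charpoly_coeff_eq_sum_minors g k (by simpa using h)
  rw [Fintype.card_fin] at h1
  exact h1

theorem TT_n (g : Matrix (Fin n) (Fin n) ℂ) : TT n g = 0 := by
  have h1 := Matrix.aeval_self_charpoly g
  rw [Polynomial.aeval_eq_sum_range, Matrix.charpoly_natDegree_eq_dim, Fintype.card_fin] at h1
  have h2 : TT n g = (-1 : ℂ) ^ n • ∑ i ∈ Finset.range (n + 1), g.charpoly.coeff i • g ^ i := by
    unfold TT
    rw [Finset.smul_sum]
    refine Finset.sum_congr rfl fun s hs => ?_
    have hs' : s ≤ n := Nat.lt_succ_iff.1 (Finset.mem_range.1 hs)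
    have h3 := cp (Nat.sub_le n s) g
    rw [Nat.sub_sub_self hs'] at h3
    rw [h3, smul_smul, ← mul_assoc]
    congr 2
    have h4 : (-1 : ℂ) ^ n = (-1) ^ (n - s) * (-1) ^ s := by
      rw [← pow_add, Nat.sub_add_cancel hs']
    rw [h4]
    have h5 : ((-1 : ℂ) ^ (n - s)) * (-1) ^ (n - s) = 1 := by
      rw [← mul_pow]
      simp
    calc (-1 : ℂ) ^ s = ((-1 : ℂ) ^ (n - s) * (-1) ^ (n - s)) * (-1) ^ s := by rw [h5, one_mul]
      _ = (-1) ^ (n - s) * (-1) ^ s * (-1) ^ (n - s) := by ring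
  rw [h2, h1, smul_zero]

theorem adj (hE : EGF n) (g : Matrix (Fin n) (Fin n) ℂ) (z : ℂ) :
    (1 + z • g) * ∑ k ∈ Finset.range n, z ^ k • TT k g = (1 + z • g).det • 1 := by
  have key : ∀ m : ℕ, (1 + z • g) * ∑ k ∈ Finset.range m, z ^ k • TT k g =
      (∑ k ∈ Finset.range (m + 1), eg k g * z ^ k) • 1 - z ^ m • TT m g := by
    intro m
    induction m with
    | zero =>
      simp [TT]
    | succ m ih =>
      rw [Finset.sum_range_succ, mul_add, ih, Finset.sum_range_succ _ (m + 1), add_smul, add_mul,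
        one_mul, smul_mul_assoc, Matrix.mul_smul, TT_succ]
      rw [smul_smul, smul_sub, smul_smul, ← pow_succ', mul_comm (z ^ (m + 1))]
      abel
  rw [key n, TT_n, smul_zero, sub_zero, hE.gen g z]

theorem inv_eq (hE : EGF n) (g : Matrix (Fin n) (Fin n) ℂ) (z : ℂ) (hz : IsUnit (1 + z • g).det) :
    (1 + z • g).det • (1 + z • g)⁻¹ = ∑ k ∈ Finset.range n, z ^ k • TT k g := by
  have h := congrArg (fun B => (1 + z • g)⁻¹ * B) (adj hE g z)
  rw [← Matrix.mul_assoc, Matrix.nonsing_inv_mul _ hz, Matrix.one_mul, Matrix.mul_smul,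
    Matrix.mul_one] at h
  exact h.symm

end alg

/-! ### the derivatives of the functions `eg a` -/

section main

variable {n : ℕ} {H : Subgroup (SU n)}

theorem entry_der (hC : CALFH H) {X : Matrix (Fin n) (Fin n) ℂ} (hX : X ∈ lie H) (i j : Fin n)
    (g : H) : HasDerivAt (fun t : ℝ => (g * exH H X t).1.1 i j) ((g.1.1 * X) i j) 0 := by
  have h1 := ((hC.entry i j).1.diff X hX g).hasDerivAt
  have h2 := hC.dentry X hX i j g
  unfold dH at h2
  rw [h2] at h1
  exact h1

theorem dsum (hC : CALFH H) {X : Matrix (Fin n) (Fin n) ℂ} (hX : X ∈ lie H) (g : H) (z : ℂ) :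
    HasDerivAt (fun t : ℝ => ∑ k ∈ Finset.range (n + 1), eg k (g * exH H X t).1.1 * z ^ k)
      (∑ k ∈ Finset.range (n + 1), dH X (fun g : H => eg k g.1.1) g * z ^ k) 0 :=
  HasDerivAt.fun_sum fun k _ => (((eg2 hC k).1.diff X hX g).hasDerivAt).mul_const _

theorem ddet (hC : CALFH H) {X : Matrix (Fin n) (Fin n) ℂ} (hX : X ∈ lie H) (g : H) (z : ℂ)
    (hz : IsUnit (1 + z • g.1.1).det) :
    HasDerivAt (fun t : ℝ => (1 + z • (g * exH H X t).1.1).det)
      ((1 + z • g.1.1).det * ((1 + z • g.1.1)⁻¹ * (z • (g.1.1 * X))).trace) 0 := by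
  have h1 := hdd (fun t : ℝ => 1 + z • (g * exH H X t).1.1) (z • (g.1.1 * X)) (fun i j => by
    have h2 := ((entry_der hC hX i j g).const_mul z).const_add ((1 : Matrix (Fin n) (Fin n) ℂ) i j)
    exact h2)
  have h3 : (g * exH H X 0) = g := by rw [hC.exzero X hX, mul_one]
  simp only [h3] at h1
  rw [dd_unit _ _ hz] at h1
  exact h1

theorem eq_at (hC : CALFH H) (hE : EGF n) {X : Matrix (Fin n) (Fin n) ℂ} (hX : X ∈ lie H) (g : H)
    (z : ℂ) (hz : IsUnit (1 + z • g.1.1).det) :
    ∑ k ∈ Finset.range (n + 1), dH X (fun g : H => eg k g.1.1) g * z ^ k =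
      ∑ k ∈ Finset.range n, (GM (k + 1) g.1.1 * X).trace * z ^ (k + 1) := by
  have h1 := dsum hC hX g z
  have h2 := ddet hC hX g z hz
  have h3 : (fun t : ℝ => ∑ k ∈ Finset.range (n + 1), eg k (g * exH H X t).1.1 * z ^ k) =
      fun t : ℝ => (1 + z • (g * exH H X t).1.1).det := by
    funext t
    rw [hE.gen]
  rw [h3] at h1
  rw [h1.unique h2, ← smul_eq_mul, ← Matrix.trace_smul, ← Matrix.smul_mul, inv_eq hE _ z hz,
    Finset.sum_mul, Matrix.trace_sum]
  refine Finset.sum_congr rfl fun k _ => ?_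
  rw [GM_succ, Matrix.smul_mul, Matrix.mul_smul, smul_smul, Matrix.trace_smul, smul_eq_mul,
    ← Matrix.mul_assoc, ← pow_succ, mul_comm]

theorem all (hC : CALFH H) (hE : EGF n) {X : Matrix (Fin n) (Fin n) ℂ} (hX : X ∈ lie H) (g : H)
    (a : ℕ) (ha : a ≤ n) :
    dH X (fun g : H => eg a g.1.1) g = (GM a g.1.1 * X).trace := by
  rcases a with _ | a
  · have h1 : (fun g : H => eg 0 g.1.1) = fun _ => 1 := funext fun g => hE.zero _
    rw [h1, hC.dconst]
    simp [GM]
  · set P : Polynomial ℂ := ∑ k ∈ Finset.range (n + 1),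
      Polynomial.C (dH X (fun g : H => eg k g.1.1) g) * Polynomial.X ^ k with hP
    set R : Polynomial ℂ := ∑ k ∈ Finset.range n,
      Polynomial.C ((GM (k + 1) g.1.1 * X).trace) * Polynomial.X ^ (k + 1) with hR
    set Q : Polynomial ℂ := ∑ k ∈ Finset.range (n + 1),
      Polynomial.C (eg k g.1.1) * Polynomial.X ^ k with hQ
    have hQ0 : Q ≠ 0 := by
      intro h0
      have h1 : Q.coeff 0 = 1 := by
        rw [hQ, Polynomial.finsetSum_coeff, Finset.sum_range_succ']
        simp [hE.zero]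
      rw [h0, Polynomial.coeff_zero] at h1
      exact zero_ne_one h1
    have hPR : (P - R) * Q = 0 := by
      refine Polynomial.funext fun z => ?_
      rw [Polynomial.eval_mul, Polynomial.eval_zero, mul_eq_zero]
      by_cases hz : (1 + z • g.1.1).det = 0
      · right
        rw [hQ, Polynomial.eval_finsetSum]
        simp only [Polynomial.eval_mul, Polynomial.eval_C, Polynomial.eval_pow, Polynomial.eval_X]
        rw [← hE.gen, hz]
      · left
        have h2 := eq_at hC hE hX g z (isUnit_iff_ne_zero.2 hz)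
        rw [Polynomial.eval_sub, hP, hR, Polynomial.eval_finsetSum, Polynomial.eval_finsetSum]
        simp only [Polynomial.eval_mul, Polynomial.eval_C, Polynomial.eval_pow, Polynomial.eval_X]
        rw [h2, sub_self]
    have hPR' : P = R := by
      rcases mul_eq_zero.1 hPR with h | h
      · exact sub_eq_zero.1 h
      · exact absurd h hQ0
    have h3 := congrArg (fun p => Polynomial.coeff p (a + 1)) hPR'
    simp only [hP, hR, Polynomial.finsetSum_coeff, Polynomial.coeff_C_mul,
      Polynomial.coeff_X_pow] at h3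
    rw [Finset.sum_eq_single (a + 1), Finset.sum_eq_single a] at h3
    · simpa using h3
    · intro b _ hb
      rw [if_neg (by omega), mul_zero]
    · intro hb
      exact absurd (Finset.mem_range.2 (by omega)) hb
    · intro b _ hb
      rw [if_neg (by omega), mul_zero]
    · intro hb
      exact absurd (Finset.mem_range.2 (by omega)) hb

end main

end DERA

theorem t_DERA : M_DERA := by
  intro hC hE n H a ha
  exact ⟨DERA.eg2 (hC n H) a, fun X hX g => DERA.all (hC n H) (hE n) hX g a ha⟩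

end

end STZ
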