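import Pool.Agent.STZ.StmtsP

/-!
# DIMA: the dimension formula for `SU(r + 1)`
-/

namespace STZ

open MeasureTheory Matrix Filter Topology

noncomputable section

namespace DIMA

/-- the points of the torus converging to the identity -/
def vt (r : ℕ) (t : ℂ) (k : Fin (r + 1)) : ℂ := Complex.exp (((k.val : ℂ) - r / 2) * t)

lemma prod_prs {r : ℕ} (f : Fin (r + 1) → Fin (r + 1) → ℂ) :
    ∏ i, ∏ j ∈ Finset.Ioi i, f i j = ∏ p ∈ prs r, f p.1 p.2 := by
  rw [prs, Finset.prod_filter, ← Finset.univ_product_univ, Finset.prod_product]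
  refine Finset.prod_congr rfl fun i _ => ?_
  rw [← Finset.prod_filter]
  refine Finset.prod_congr ?_ fun _ _ => rfl
  ext j
  simp

lemma mem_prs {r : ℕ} (p : Fin (r + 1) × Fin (r + 1)) : p ∈ prs r ↔ p.1 < p.2 := by
  simp [prs]

lemma prod_rev {r : ℕ} (f : Fin (r + 1) → Fin (r + 1) → ℂ) :
    ∏ p ∈ prs r, f p.2.rev p.1.rev = ∏ p ∈ prs r, f p.1 p.2 := by
  refine Finset.prod_bij' (fun p _ => (p.2.rev, p.1.rev)) (fun p _ => (p.2.rev, p.1.rev)) ?_ ?_ ?_ ?_ ?_
  · intro p hp
    rw [mem_prs] at hp ⊢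
    exact Fin.rev_lt_rev.mpr hp
  · intro p hp
    rw [mem_prs] at hp ⊢
    exact Fin.rev_lt_rev.mpr hp
  · intro p _
    simp
  · intro p _
    simp
  · intro p _
    rfl

lemma sum_zero (r : ℕ) : ∑ k : Fin (r + 1), ((k.val : ℂ) - r / 2) = 0 := by
  rw [Finset.sum_sub_distrib, Fin.sum_univ_eq_sum_range (fun k => (k : ℂ)) (r + 1)]
  have h := Finset.sum_range_id_mul_two (r + 1)
  have h' : (∑ k ∈ Finset.range (r + 1), (k : ℂ)) * 2 = (r + 1) * r := by
    have := congrArg (fun n : ℕ => (n : ℂ)) h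
    push_cast at this
    simpa using this
  simp only [Finset.sum_const, Finset.card_univ, Fintype.card_fin, nsmul_eq_mul]
  push_cast
  linear_combination h' / 2

lemma prod_vt (r : ℕ) (t : ℂ) : ∏ k, vt r t k = 1 := by
  unfold vt
  rw [← Complex.exp_sum, ← Finset.sum_mul, sum_zero, zero_mul, Complex.exp_zero]

lemma al_vt {r : ℕ} (l : Fin r → ℤ) (t : ℂ) : al (vt r t) l =
    (∏ j : Fin (r + 1), Complex.exp (-(r / 2) * cum l j.rev * t)) *
      ∏ p ∈ prs r, (Complex.exp (cum l p.1 * t) - Complex.exp (cum l p.2 * t)) := by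
  have h1 : al (vt r t) l = Matrix.det (Matrix.of fun k j : Fin (r + 1) =>
      Complex.exp (-(r / 2) * cum l j.rev * t) *
        (Matrix.vandermonde fun j : Fin (r + 1) => Complex.exp (cum l j.rev * t))ᵀ k j) := by
    unfold al vt
    congr 1
    ext k j
    simp only [Matrix.of_apply, Matrix.transpose_apply, Matrix.vandermonde_apply]
    rw [← Complex.exp_int_mul, ← Complex.exp_nat_mul, ← Complex.exp_add]
    congr 1
    ring
  rw [h1, Matrix.det_mul_row, Matrix.det_transpose, Matrix.det_vandermonde, prod_prs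
    (fun i j => Complex.exp (cum l j.rev * t) - Complex.exp (cum l i.rev * t)),
    prod_rev (fun a b => Complex.exp (cum l a * t) - Complex.exp (cum l b * t))]

lemma slope (a b : ℂ) : Tendsto (fun t : ℂ => t⁻¹ * (Complex.exp (a * t) - Complex.exp (b * t)))
    (𝓝[≠] 0) (𝓝 (a - b)) := by
  have h : HasDerivAt (fun t : ℂ => Complex.exp (a * t) - Complex.exp (b * t)) (a - b) 0 := by
    have ha : HasDerivAt (fun t : ℂ => Complex.exp (a * t)) a 0 := by
      have := ((hasDerivAt_id (0 : ℂ)).const_mul a).cexp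
      simpa using this
    have hb : HasDerivAt (fun t : ℂ => Complex.exp (b * t)) b 0 := by
      have := ((hasDerivAt_id (0 : ℂ)).const_mul b).cexp
      simpa using this
    exact ha.sub hb
  have := h.tendsto_slope_zero
  simpa using this

lemma tend_prod {ι : Type*} (s : Finset ι) (a b : ι → ℂ) :
    Tendsto (fun t : ℂ => (t⁻¹) ^ s.card * ∏ p ∈ s, (Complex.exp (a p * t) - Complex.exp (b p * t)))
      (𝓝[≠] 0) (𝓝 (∏ p ∈ s, (a p - b p))) := by
  have h : (fun t : ℂ => (t⁻¹) ^ s.card * ∏ p ∈ s, (Complex.exp (a p * t) - Complex.exp (b p * t))) =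
      fun t : ℂ => ∏ p ∈ s, (t⁻¹ * (Complex.exp (a p * t) - Complex.exp (b p * t))) := by
    funext t
    rw [Finset.prod_mul_distrib, Finset.prod_const]
  rw [h]
  exact tendsto_finsetProd s fun p _ => slope (a p) (b p)

lemma esA_vt (r : ℕ) : Tendsto (fun t : ℂ => esA (vt r t)) (𝓝[≠] 0) (𝓝 (DA r).ξ) := by
  have hc : Continuous fun t : ℂ => esA (vt r t) := by
    refine continuous_pi fun i => ?_
    unfold esA esk vt
    fun_prop
  have h0 : esA (vt r 0) = (DA r).ξ := by
    funext i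
    simp [esA, esk, vt, DA]
  have := (hc.tendsto 0).mono_left (nhdsWithin_le_nhds (s := {0}ᶜ))
  rwa [h0] at this

end DIMA

open DIMA in
theorem t_DIMA : M_DIMA := by
  intro _ hP r l
  have P := hP r
  -- the identity for all t
  have key : ∀ t : ℂ, (∏ p ∈ prs r, (Complex.exp (((p.2.val : ℂ) - r / 2) * t) -
      Complex.exp (((p.1.val : ℂ) - r / 2) * t))) * psA (esA (vt r t)) l =
      (∏ j : Fin (r + 1), Complex.exp (-(r / 2) * cum l j.rev * t)) *
      ∏ p ∈ prs r, (Complex.exp (cum l p.1 * t) - Complex.exp (cum l p.2 * t)) := by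
    intro t
    rw [← al_vt, ← P.alt _ (prod_vt r t) l, Matrix.det_vandermonde,
      prod_prs (fun i j => vt r t j - vt r t i)]
    rfl
  have hL : Tendsto (fun t : ℂ => (t⁻¹) ^ (prs r).card * (∏ p ∈ prs r,
      (Complex.exp (((p.2.val : ℂ) - r / 2) * t) - Complex.exp (((p.1.val : ℂ) - r / 2) * t))) *
      psA (esA (vt r t)) l) (𝓝[≠] 0)
      (𝓝 ((∏ p ∈ prs r, (((p.2.val : ℂ) - r / 2) - ((p.1.val : ℂ) - r / 2))) * psA (DA r).ξ l)) :=
    (tend_prod (prs r) (fun p => (p.2.val : ℂ) - r / 2) (fun p => (p.1.val : ℂ) - r / 2)).mul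
      (((P.cont l).tendsto _).comp (esA_vt r))
  have hE : Tendsto (fun t : ℂ => ∏ j : Fin (r + 1), Complex.exp (-(r / 2) * cum l j.rev * t))
      (𝓝[≠] 0) (𝓝 1) := by
    have hc : Continuous fun t : ℂ => ∏ j : Fin (r + 1), Complex.exp (-(r / 2) * cum l j.rev * t) := by
      fun_prop
    have := (hc.tendsto 0).mono_left (nhdsWithin_le_nhds (s := {0}ᶜ))
    simpa using this
  have hR : Tendsto (fun t : ℂ => (∏ j : Fin (r + 1), Complex.exp (-(r / 2) * cum l j.rev * t)) *
      ((t⁻¹) ^ (prs r).card * ∏ p ∈ prs r, (Complex.exp (cum l p.1 * t) - Complex.exp (cum l p.2 * t))))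
      (𝓝[≠] 0) (𝓝 (1 * ∏ p ∈ prs r, ((cum l p.1 : ℂ) - cum l p.2))) :=
    hE.mul (tend_prod (prs r) (fun p => (cum l p.1 : ℂ)) (fun p => (cum l p.2 : ℂ)))
  have heq : (fun t : ℂ => (t⁻¹) ^ (prs r).card * (∏ p ∈ prs r,
      (Complex.exp (((p.2.val : ℂ) - r / 2) * t) - Complex.exp (((p.1.val : ℂ) - r / 2) * t))) *
      psA (esA (vt r t)) l) = fun t : ℂ =>
      (∏ j : Fin (r + 1), Complex.exp (-(r / 2) * cum l j.rev * t)) *
      ((t⁻¹) ^ (prs r).card * ∏ p ∈ prs r, (Complex.exp (cum l p.1 * t) - Complex.exp (cum l p.2 * t))) := by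
    funext t
    rw [mul_assoc, key t]
    ring
  rw [heq] at hL
  have := tendsto_nhds_unique hL hR
  rw [one_mul] at this
  push_cast
  rw [← this, mul_comm]
  congr 1
  refine Finset.prod_congr rfl fun p _ => ?_
  ring

end

end STZ
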