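import Pool.Agent.STZ.StmtsK

/-!
# Module DKA: the dimensions for the root system `A₂`
-/

namespace STZ

open MeasureTheory Matrix

open scoped ComplexConjugate Matrix Real

noncomputable section

namespace DKA

theorem two_dvd (p q : ℤ) : (2 : ℤ) ∣ p * q * (p + q) := by
  rcases Int.even_or_odd p with hp | hp
  · exact Dvd.dvd.mul_right (Dvd.dvd.mul_right hp.two_dvd _) _
  · rcases Int.even_or_odd q with hq | hq
    · exact Dvd.dvd.mul_right (Dvd.dvd.mul_left hq.two_dvd _) _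
    · exact Dvd.dvd.mul_left (hp.add_odd hq).two_dvd _

theorem dim_two (l : Fin 2 → ℤ) : D1.dim l * 2 = l 0 * l 1 * (l 0 + l 1) := by
  show l 0 * l 1 * (l 0 + l 1) / 2 * 2 = _
  exact Int.ediv_mul_cancel (two_dvd _ _)

theorem dim_cast (l : Fin 2 → ℤ) :
    ((D1.dim l : ℤ) : ℂ) = ((l 0 : ℂ) * l 1 * (l 0 + l 1)) / 2 := by
  rw [eq_div_iff (two_ne_zero)]
  have h := dim_two l
  exact_mod_cast h

theorem dim_anti (w : Matrix (Fin 2) (Fin 2) ℤ) (hw : w ∈ D1.W) (l : Fin 2 → ℤ) :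
    ((D1.dim (w *ᵥ l) : ℤ) : ℂ) = (w.det : ℂ) * ((D1.dim l : ℤ) : ℂ) := by
  rw [dim_cast, dim_cast]
  have hw' : w ∈ W1 := hw
  simp only [W1, Finset.mem_insert, Finset.mem_singleton] at hw'
  rcases hw' with rfl | rfl | rfl | rfl | rfl | rfl <;>
  · simp [Matrix.mulVec, Matrix.det_fin_two, dotProduct, Fin.sum_univ_two]
    try ring

theorem dim_rule (i : Fin 2) (l : Fin 2 → ℤ) : D1.ξ i * ((D1.dim l : ℤ) : ℂ) =
    ∑ κ ∈ D1.S i, (D1.P i κ : ℂ) * ((D1.dim (l + κ) : ℤ) : ℂ) := by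
  have hP : ∀ i κ, D1.P i κ = 1 := fun i κ => rfl
  have hξ : ∀ i, D1.ξ i = 3 := by
    intro i
    show (![3, 3] : Fin 2 → ℂ) i = 3
    fin_cases i <;> rfl
  simp only [hP, hξ, Int.cast_one, one_mul, dim_cast]
  have h0 : D1.S 0 = {![1, 0], ![-1, 1], ![0, -1]} := rfl
  have h1 : D1.S 1 = {![-1, 0], ![1, -1], ![0, 1]} := rfl
  fin_cases i
  · show 3 * _ = ∑ κ ∈ D1.S 0, _
    rw [h0, Finset.sum_insert (by decide), Finset.sum_insert (by decide),
      Finset.sum_singleton]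
    simp only [Pi.add_apply, Matrix.cons_val_zero, Matrix.cons_val_one]
    push_cast
    ring
  · show 3 * _ = ∑ κ ∈ D1.S 1, _
    rw [h1, Finset.sum_insert (by decide), Finset.sum_insert (by decide),
      Finset.sum_singleton]
    simp only [Pi.add_apply, Matrix.cons_val_zero, Matrix.cons_val_one]
    push_cast
    ring

theorem dim_one : D1.dim 1 = 1 := by
  have h := dim_two 1
  simp only [Pi.one_apply] at h
  omega

end DKA

open DKA in
theorem t_DKA : M_DKA := by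
  intro hU hW hP
  refine ⟨?_, ?_, ?_⟩
  · intro l
    have h := hU 2 D1 hW D1.ξ (fun l => D1.ψ D1.ξ l) (fun l => ((D1.dim l : ℤ) : ℂ))
      (fun w hw l => hP.anti w hw D1.ξ l) dim_anti
      (by
        show D1.ψ D1.ξ 1 = ((D1.dim 1 : ℤ) : ℂ)
        rw [hP.one, dim_one, Int.cast_one])
      (fun i l => hP.rule i D1.ξ l) dim_rule
    exact congrFun h l
  · intro l hl
    have h0 := hl 0
    have h1 := hl 1
    have h2 := dim_two l
    have h3 : 0 < l 0 * l 1 * (l 0 + l 1) := by positivity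
    omega
  · refine ⟨1, fun l hl => ?_⟩
    have h0 : (1 : ℝ) ≤ l 0 := by exact_mod_cast hl 0
    have h1 : (1 : ℝ) ≤ l 1 := by exact_mod_cast hl 1
    have h2 : (D1.dim l : ℝ) * 2 = l 0 * l 1 * (l 0 + l 1) := by exact_mod_cast dim_two l
    have he : ((D1.e : ℕ) : ℝ) / 2 = ((3 : ℕ) : ℝ) := by
      show (((6 : ℕ) : ℕ) : ℝ) / 2 = ((3 : ℕ) : ℝ)
      norm_num
    rw [he, Real.rpow_natCast, one_mul]
    have hsz : sz l = 1 + (l 0 + l 1) := by
      unfold sz
      rw [Fin.sum_univ_two, abs_of_nonneg (by linarith), abs_of_nonneg (by linarith)]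
    rw [hsz]
    have ha : (l 0 : ℝ) ≤ 1 + (l 0 + l 1) := by linarith
    have hb : (l 1 : ℝ) ≤ 1 + (l 0 + l 1) := by linarith
    have hc : (l 0 : ℝ) + l 1 ≤ 1 + (l 0 + l 1) := by linarith
    have hs : (0 : ℝ) ≤ 1 + (l 0 + l 1) := by linarith
    have h3 : (l 0 : ℝ) * l 1 * (l 0 + l 1) ≤
        (1 + (l 0 + l 1)) * (1 + (l 0 + l 1)) * (1 + (l 0 + l 1)) := by
      apply mul_le_mul (mul_le_mul ha hb (by linarith) hs) hc (by linarith) (by positivity)
    have h4 : (0 : ℝ) ≤ (1 + (l 0 + l 1)) * (1 + (l 0 + l 1)) * (1 + (l 0 + l 1)) := by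
      positivity
    have h5 : (1 + ((l 0 : ℝ) + l 1)) ^ 3 =
        (1 + (l 0 + l 1)) * (1 + (l 0 + l 1)) * (1 + (l 0 + l 1)) := by ring
    rw [h5]
    linarith

end

end STZ
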