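import Pool.Agent.STZ.StmtsK

/-!
# Module DKC: the dimensions for the root system `C₂`
-/

namespace STZ

open MeasureTheory Matrix

open scoped ComplexConjugate Matrix Real

noncomputable section

namespace DKC

theorem six_zmod : ∀ a b : ZMod 6, a * b * (a + b) * (a + 2 * b) = 0 := by decide

theorem six_dvd (p q : ℤ) : (6 : ℤ) ∣ p * q * (p + q) * (p + 2 * q) := by
  have h := six_zmod (p : ZMod 6) (q : ZMod 6)
  have h2 : ((p * q * (p + q) * (p + 2 * q) : ℤ) : ZMod 6) = 0 := by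
    push_cast
    exact h
  have h3 := (ZMod.intCast_zmod_eq_zero_iff_dvd (p * q * (p + q) * (p + 2 * q)) 6).1 h2
  exact_mod_cast h3

theorem dim_six (l : Fin 2 → ℤ) :
    D2.dim l * 6 = l 0 * l 1 * (l 0 + l 1) * (l 0 + 2 * l 1) := by
  show l 0 * l 1 * (l 0 + l 1) * (l 0 + 2 * l 1) / 6 * 6 = _
  exact Int.ediv_mul_cancel (six_dvd _ _)

theorem dim_cast (l : Fin 2 → ℤ) :
    ((D2.dim l : ℤ) : ℂ) = ((l 0 : ℂ) * l 1 * (l 0 + l 1) * (l 0 + 2 * l 1)) / 6 := by
  rw [eq_div_iff (by norm_num)]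
  have h := dim_six l
  exact_mod_cast h

theorem dim_anti (w : Matrix (Fin 2) (Fin 2) ℤ) (hw : w ∈ D2.W) (l : Fin 2 → ℤ) :
    ((D2.dim (w *ᵥ l) : ℤ) : ℂ) = (w.det : ℂ) * ((D2.dim l : ℤ) : ℂ) := by
  rw [dim_cast, dim_cast]
  have hw' : w ∈ W2 := hw
  simp only [W2, Finset.mem_insert, Finset.mem_singleton] at hw'
  rcases hw' with rfl | rfl | rfl | rfl | rfl | rfl | rfl | rfl <;>
  · simp [Matrix.mulVec, Matrix.det_fin_two, dotProduct, Fin.sum_univ_two]
    try ring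

theorem dim_rule (i : Fin 2) (l : Fin 2 → ℤ) : D2.ξ i * ((D2.dim l : ℤ) : ℂ) =
    ∑ κ ∈ D2.S i, (D2.P i κ : ℂ) * ((D2.dim (l + κ) : ℤ) : ℂ) := by
  have hP : ∀ i κ, D2.P i κ = 1 := fun i κ => rfl
  have hξ0 : D2.ξ 0 = 4 := rfl
  have hξ1 : D2.ξ 1 = 5 := rfl
  simp only [hP, Int.cast_one, one_mul, dim_cast]
  have h0 : D2.S 0 = {![1, 0], ![-1, 1], ![-1, 0], ![1, -1]} := rfl
  have h1 : D2.S 1 = {![0, 1], ![2, -1], ![0, -1], ![-2, 1], ![0, 0]} := rfl
  fin_cases i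
  · show D2.ξ 0 * _ = ∑ κ ∈ D2.S 0, _
    rw [h0, hξ0, Finset.sum_insert (by decide), Finset.sum_insert (by decide),
      Finset.sum_insert (by decide), Finset.sum_singleton]
    simp only [Pi.add_apply, Matrix.cons_val_zero, Matrix.cons_val_one]
    push_cast
    ring
  · show D2.ξ 1 * _ = ∑ κ ∈ D2.S 1, _
    rw [h1, hξ1, Finset.sum_insert (by decide), Finset.sum_insert (by decide),
      Finset.sum_insert (by decide), Finset.sum_insert (by decide), Finset.sum_singleton]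
    simp only [Pi.add_apply, Matrix.cons_val_zero, Matrix.cons_val_one]
    push_cast
    ring

theorem dim_one : D2.dim 1 = 1 := by
  have h := dim_six 1
  simp only [Pi.one_apply] at h
  omega

end DKC

open DKC in
theorem t_DKC : M_DKC := by
  intro hU hW hP
  refine ⟨?_, ?_, ?_⟩
  · intro l
    have h := hU 2 D2 hW D2.ξ (fun l => D2.ψ D2.ξ l) (fun l => ((D2.dim l : ℤ) : ℂ))
      (fun w hw l => hP.anti w hw D2.ξ l) dim_anti
      (by
        show D2.ψ D2.ξ 1 = ((D2.dim 1 : ℤ) : ℂ)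
        rw [hP.one, dim_one, Int.cast_one])
      (fun i l => hP.rule i D2.ξ l) dim_rule
    exact congrFun h l
  · intro l hl
    have h0 := hl 0
    have h1 := hl 1
    have h2 := dim_six l
    have h3 : 0 < l 0 * l 1 * (l 0 + l 1) * (l 0 + 2 * l 1) := by positivity
    omega
  · refine ⟨1, fun l hl => ?_⟩
    have h0 : (1 : ℝ) ≤ l 0 := by exact_mod_cast hl 0
    have h1 : (1 : ℝ) ≤ l 1 := by exact_mod_cast hl 1
    have h2 : (D2.dim l : ℝ) * 6 = l 0 * l 1 * (l 0 + l 1) * (l 0 + 2 * l 1) := by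
      exact_mod_cast dim_six l
    have he : ((D2.e : ℕ) : ℝ) / 2 = ((4 : ℕ) : ℝ) := by
      show (((8 : ℕ) : ℕ) : ℝ) / 2 = ((4 : ℕ) : ℝ)
      norm_num
    rw [he, Real.rpow_natCast, one_mul]
    have hsz : sz l = 1 + (l 0 + l 1) := by
      unfold sz
      rw [Fin.sum_univ_two, abs_of_nonneg (by linarith), abs_of_nonneg (by linarith)]
    rw [hsz]
    set s : ℝ := 1 + (l 0 + l 1) with hs'
    have ha : (l 0 : ℝ) ≤ s := by linarith
    have hb : (l 1 : ℝ) ≤ s := by linarith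
    have hc : (l 0 : ℝ) + l 1 ≤ s := by linarith
    have hd : (l 0 : ℝ) + 2 * l 1 ≤ 2 * s := by linarith
    have hs : (0 : ℝ) ≤ s := by linarith
    have h3 : (l 0 : ℝ) * l 1 * (l 0 + l 1) * (l 0 + 2 * l 1) ≤ s * s * s * (2 * s) := by
      apply mul_le_mul (mul_le_mul (mul_le_mul ha hb (by linarith) hs) hc (by linarith)
        (by positivity)) hd (by linarith) (by positivity)
    have h4 : (0 : ℝ) ≤ s * s * s * s := by positivity
    have h5 : s ^ 4 = s * s * s * s := by ring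
    rw [h5]
    linarith

end

end STZ
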