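import Pool.Agent.STZ.StmtsY

/-!
# Module DKER: the Dirichlet kernel of the torus
-/

namespace STZ

open MeasureTheory Matrix

open scoped ComplexConjugate Matrix Real

noncomputable section

namespace DKER

theorem eu_add (a b : ℝ) : eu (a + b) = eu a * eu b := by
  unfold eu
  rw [← Complex.exp_add]
  congr 1
  push_cast
  ring

theorem eu_zero : eu 0 = 1 := by
  unfold eu
  simp

theorem eu_conj (a : ℝ) : conj (eu a) = eu (-a) := by
  unfold eu
  rw [← Complex.exp_conj]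
  congr 1
  simp only [map_mul, Complex.conj_ofReal, Complex.conj_I, map_ofNat, Complex.ofReal_neg]
  ring

theorem eu_sum {ι : Type*} (s : Finset ι) (f : ι → ℝ) :
    eu (∑ i ∈ s, f i) = ∏ i ∈ s, eu (f i) := by
  classical
  induction s using Finset.induction_on with
  | empty => simp [eu_zero]
  | insert a s ha ih => rw [Finset.sum_insert ha, Finset.prod_insert ha, eu_add, ih]

theorem cont_eu : Continuous eu := by
  unfold eu
  fun_prop

theorem cont_dz {r : ℕ} (κ : Fin r → ℤ) : Continuous fun θ : Fin r → ℝ => dz κ θ := by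
  unfold dz
  fun_prop

/-- the geometric sum -/
theorem geo (M : ℕ) (y : ℝ) :
    (∑ j ∈ Finset.range M, eu (-(j * y))) * (1 - eu (-y)) = 1 - eu (-(M * y)) := by
  induction M with
  | zero => simp [eu_zero]
  | succ M ih =>
    have h : eu (-(((M + 1 : ℕ) : ℝ) * y)) = eu (-(M * y)) * eu (-y) := by
      rw [← eu_add]
      congr 1
      push_cast
      ring
    rw [Finset.sum_range_succ, add_mul, ih, h]
    ring

/-- one factor is real -/
theorem fac (M : ℕ) (y : ℝ) :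
    conj (eu (((M : ℝ) - 1) * y / 2) * ∑ j ∈ Finset.range M, eu (-(j * y))) =
      eu (((M : ℝ) - 1) * y / 2) * ∑ j ∈ Finset.range M, eu (-(j * y)) := by
  rw [map_mul, map_sum, eu_conj, ← Finset.sum_range_reflect, Finset.mul_sum, Finset.mul_sum]
  refine Finset.sum_congr rfl fun j hj => ?_
  have hj' : j < M := Finset.mem_range.1 hj
  rw [eu_conj, ← eu_add, ← eu_add]
  congr 1
  have h : ((M - 1 - j : ℕ) : ℝ) = (M : ℝ) - 1 - j := by
    have h1 : M - 1 - j + (1 + j) = M := by omega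
    have h2 : ((M - 1 - j : ℕ) : ℝ) + (1 + j) = M := by exact_mod_cast h1
    linarith
  rw [h]
  ring

theorem dz_sum {r : ℕ} {ι : Type*} (s : Finset ι) (f : ι → Fin r → ℤ) (θ : Fin r → ℝ) :
    ∑ p ∈ s, dz (f p) θ = dz (∑ p ∈ s, f p) θ := by
  unfold dz
  rw [Finset.sum_comm]
  refine Finset.sum_congr rfl fun i _ => ?_
  rw [Finset.sum_apply]
  push_cast
  rw [Finset.sum_mul]

/-- the alternating sum of a multiple -/
theorem AT_mul {r : ℕ} (D : RD r) (M : ℕ) (θ : Fin r → ℝ) :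
    AT D (fun _ => (M : ℤ)) θ = AT D 1 (fun i => (M : ℝ) * θ i) := by
  unfold AT
  refine Finset.sum_congr rfl fun w _ => ?_
  congr 2
  unfold dz
  refine Finset.sum_congr rfl fun i _ => ?_
  have h : (w *ᵥ fun _ => (M : ℤ)) i = (w *ᵥ (1 : Fin r → ℤ)) i * M := by
    simp only [Matrix.mulVec, dotProduct, Pi.one_apply, mul_one]
    rw [Finset.sum_mul]
  rw [h]
  push_cast
  ring

theorem dz_mul {r : ℕ} (κ : Fin r → ℤ) (M : ℕ) (θ : Fin r → ℝ) :
    dz κ (fun i => (M : ℝ) * θ i) = M * dz κ θ := by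
  unfold dz
  rw [Finset.mul_sum]
  refine Finset.sum_congr rfl fun i _ => ?_
  ring

end DKER

open DKER in
theorem t_DKER : M_DKER := by
  intro hD hA hW r D P B h hX hR M θ hM
  have hA1 := hA r D P B h hX hR
  obtain ⟨hc, hw⟩ := hW r D P B h hX hR
  have key : ∀ θ : Fin r → ℝ,
      (eu (((M : ℝ) - 1) * ∑ i, θ i) * ∏ p ∈ P, ∑ j ∈ Finset.range M, eu (-(j * dz p.1 θ))) *
        AT D 1 θ = AT D (fun _ => (M : ℤ)) θ := by
    intro θ
    rw [AT_mul, hR.den, hR.den]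
    have h1 : eu (∑ i, (M : ℝ) * θ i) = eu (((M : ℝ) - 1) * ∑ i, θ i) * eu (∑ i, θ i) := by
      rw [← eu_add, ← Finset.mul_sum]
      congr 1
      ring
    have h2 : ∏ p ∈ P, (1 - eu (-(dz p.1 fun i => (M : ℝ) * θ i))) =
        (∏ p ∈ P, ∑ j ∈ Finset.range M, eu (-(j * dz p.1 θ))) *
          ∏ p ∈ P, (1 - eu (-(dz p.1 θ))) := by
      rw [← Finset.prod_mul_distrib]
      refine Finset.prod_congr rfl fun p _ => ?_
      rw [geo, dz_mul]
    rw [h1, h2]
    ring
  have hcont : Continuous fun θ : Fin r → ℝ =>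
      eu (((M : ℝ) - 1) * ∑ i, θ i) * ∏ p ∈ P, ∑ j ∈ Finset.range M, eu (-(j * dz p.1 θ)) := by
    refine Continuous.mul (cont_eu.comp (by fun_prop)) ?_
    refine continuous_finsetProd _ fun p _ => ?_
    refine continuous_finsetSum _ fun j _ => ?_
    exact cont_eu.comp ((continuous_const.mul (cont_dz p.1)).neg)
  have main : ∀ θ : Fin r → ℝ, D.ψ (XT D θ) (fun _ => (M : ℤ)) =
      eu (((M : ℝ) - 1) * ∑ i, θ i) * ∏ p ∈ P, ∑ j ∈ Finset.range M, eu (-(j * dz p.1 θ)) := by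
    intro θ
    refine sub_eq_zero.1 ((hD r D P B h hR).2
      (fun θ => D.ψ (XT D θ) (fun _ => (M : ℤ)) -
        eu (((M : ℝ) - 1) * ∑ i, θ i) * ∏ p ∈ P, ∑ j ∈ Finset.range M, eu (-(j * dz p.1 θ)))
      ((hc _).sub hcont) ?_ θ)
    intro θ hθ
    have hne : AT D 1 θ ≠ 0 := (hA1.ne θ).2 hθ
    refine sub_eq_zero.2 (mul_right_cancel₀ hne ?_)
    rw [hw, key]
  refine ⟨main θ, ?_⟩
  rw [main θ]
  refine Complex.conj_eq_iff_im.1 ?_
  have h3 : ∑ i, θ i = ∑ p ∈ P, dz p.1 θ / 2 := by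
    rw [← Finset.sum_div, dz_sum P (fun p => p.1) θ, hR.rho2]
    unfold dz
    push_cast
    rw [← Finset.mul_sum]
    ring
  have h4 : eu (((M : ℝ) - 1) * ∑ i, θ i) * ∏ p ∈ P, ∑ j ∈ Finset.range M, eu (-(j * dz p.1 θ)) =
      ∏ p ∈ P, (eu (((M : ℝ) - 1) * dz p.1 θ / 2) *
        ∑ j ∈ Finset.range M, eu (-(j * dz p.1 θ))) := by
    rw [Finset.prod_mul_distrib, ← eu_sum, h3, Finset.mul_sum]
    congr 2
    refine Finset.sum_congr rfl fun p _ => ?_
    ring
  rw [h4, map_prod]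
  exact Finset.prod_congr rfl fun p _ => fac M (dz p.1 θ)

end

end STZ
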