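import Pool.Agent.STZ.StmtsK

/-!
# STZ_DKG: the dimensions for `G₂`
-/

namespace STZ

open MeasureTheory Matrix

open scoped ComplexConjugate Matrix Real

noncomputable section

namespace DKG

/-- the product in the dimension formula -/
def NG (p q : ℤ) : ℤ := p * q * (p + q) * (p + 2 * q) * (p + 3 * q) * (2 * p + 3 * q)

theorem dvd8 (p q : ℤ) : (8 : ℤ) ∣ NG p q := by
  have h : ∀ a b : ZMod 8, a * b * (a + b) * (a + 2 * b) * (a + 3 * b) * (2 * a + 3 * b) = 0 := by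
    decide
  have h2 := h (p : ZMod 8) (q : ZMod 8)
  refine (ZMod.intCast_zmod_eq_zero_iff_dvd (NG p q) 8).1 ?_
  rw [NG]
  push_cast
  exact h2

theorem dvd3 (p q : ℤ) : (3 : ℤ) ∣ NG p q := by
  have h : ∀ a b : ZMod 3, a * b * (a + b) * (a + 2 * b) * (a + 3 * b) * (2 * a + 3 * b) = 0 := by
    decide
  have h2 := h (p : ZMod 3) (q : ZMod 3)
  refine (ZMod.intCast_zmod_eq_zero_iff_dvd (NG p q) 3).1 ?_
  rw [NG]
  push_cast
  exact h2

theorem dvd5 (p q : ℤ) : (5 : ℤ) ∣ NG p q := by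
  have h : ∀ a b : ZMod 5, a * b * (a + b) * (a + 2 * b) * (a + 3 * b) * (2 * a + 3 * b) = 0 := by
    decide
  have h2 := h (p : ZMod 5) (q : ZMod 5)
  refine (ZMod.intCast_zmod_eq_zero_iff_dvd (NG p q) 5).1 ?_
  rw [NG]
  push_cast
  exact h2

theorem dvd120 (p q : ℤ) : (120 : ℤ) ∣ NG p q := by
  have h8 := dvd8 p q
  have h3 := dvd3 p q
  have h5 := dvd5 p q
  omega

theorem dimN (ψ : (Fin 2 → ℂ) → (Fin 2 → ℤ) → ℂ) (l : Fin 2 → ℤ) :
    120 * (D3 ψ).dim l = NG (l 0) (l 1) := by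
  change 120 * (NG (l 0) (l 1) / 120) = NG (l 0) (l 1)
  exact Int.mul_ediv_cancel' (dvd120 _ _)

theorem dimC (ψ : (Fin 2 → ℂ) → (Fin 2 → ℤ) → ℂ) (l : Fin 2 → ℤ) :
    ((D3 ψ).dim l : ℂ) = (l 0 : ℂ) * l 1 * (l 0 + l 1) * (l 0 + 2 * l 1) * (l 0 + 3 * l 1) *
      (2 * l 0 + 3 * l 1) / 120 := by
  have h := dimN ψ l
  have h2 : (120 : ℂ) * ((D3 ψ).dim l : ℂ) = (NG (l 0) (l 1) : ℂ) := by
    rw [← h]
    push_cast
    rfl
  rw [eq_div_iff (by norm_num), mul_comm, h2, NG]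
  push_cast
  ring

theorem s0 (ψ : (Fin 2 → ℂ) → (Fin 2 → ℤ) → ℂ) (g : (Fin 2 → ℤ) → ℂ) :
    ∑ κ ∈ (D3 ψ).S 0, ((D3 ψ).P 0 κ : ℂ) * g κ =
      g ![1, 0] + (g ![2, -1] + (g ![-1, 1] + (g ![-1, 0] + (g ![-2, 1] + (g ![1, -1] +
        g ![0, 0]))))) := by
  have hP : ∀ κ, (((D3 ψ).P 0 κ : ℤ) : ℂ) = 1 := by
    intro κ
    change (((if (0 : Fin 2) = 1 ∧ κ = 0 then 2 else 1 : ℤ)) : ℂ) = 1
    rw [if_neg (by simp)]
    norm_num
  simp only [hP, one_mul]
  change ∑ κ ∈ ({![1, 0], ![2, -1], ![-1, 1], ![-1, 0], ![-2, 1], ![1, -1], ![0, 0]} :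
    Finset (Fin 2 → ℤ)), g κ = _
  rw [Finset.sum_insert (by decide), Finset.sum_insert (by decide), Finset.sum_insert (by decide),
    Finset.sum_insert (by decide), Finset.sum_insert (by decide), Finset.sum_insert (by decide),
    Finset.sum_singleton]

theorem s1 (ψ : (Fin 2 → ℂ) → (Fin 2 → ℤ) → ℂ) (g : (Fin 2 → ℤ) → ℂ) :
    ∑ κ ∈ (D3 ψ).S 1, ((D3 ψ).P 1 κ : ℂ) * g κ =
      g ![1, 0] + (g ![2, -1] + (g ![-1, 1] + (g ![-1, 0] + (g ![-2, 1] + (g ![1, -1] +
        (2 * g ![0, 0] + (g ![-3, 2] + (g ![3, -1] + (g ![0, 1] + (g ![3, -2] + (g ![-3, 1] +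
          g ![0, -1]))))))))))) := by
  have hP : ∀ κ, (((D3 ψ).P 1 κ : ℤ) : ℂ) = if κ = 0 then 2 else 1 := by
    intro κ
    change (((if (1 : Fin 2) = 1 ∧ κ = 0 then 2 else 1 : ℤ)) : ℂ) = _
    simp only [true_and]
    split_ifs
    · norm_num
    · norm_num
  simp only [hP]
  change ∑ κ ∈ ({![1, 0], ![2, -1], ![-1, 1], ![-1, 0], ![-2, 1], ![1, -1], ![0, 0], ![-3, 2],
    ![3, -1], ![0, 1], ![3, -2], ![-3, 1], ![0, -1]} : Finset (Fin 2 → ℤ)),
    (if κ = 0 then (2 : ℂ) else 1) * g κ = _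
  rw [Finset.sum_insert (by decide), Finset.sum_insert (by decide), Finset.sum_insert (by decide),
    Finset.sum_insert (by decide), Finset.sum_insert (by decide), Finset.sum_insert (by decide),
    Finset.sum_insert (by decide), Finset.sum_insert (by decide), Finset.sum_insert (by decide),
    Finset.sum_insert (by decide), Finset.sum_insert (by decide), Finset.sum_insert (by decide),
    Finset.sum_singleton]
  rw [if_neg (by decide), if_neg (by decide), if_neg (by decide), if_neg (by decide),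
    if_neg (by decide), if_neg (by decide), if_pos (by decide), if_neg (by decide),
    if_neg (by decide), if_neg (by decide), if_neg (by decide), if_neg (by decide),
    if_neg (by decide)]
  ring

theorem anti (l : Fin 2 → ℤ) : ∀ w ∈ W3,
    NG ((w *ᵥ l) 0) ((w *ᵥ l) 1) = w.det * NG (l 0) (l 1) := by
  intro w hw
  have e : ∀ i, (w *ᵥ l) i = w i 0 * l 0 + w i 1 * l 1 := by
    intro i
    simp [Matrix.mulVec, dotProduct, Fin.sum_univ_two]
  rw [e, e, Matrix.det_fin_two]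
  simp only [W3, Finset.mem_insert, Finset.mem_singleton] at hw
  rcases hw with rfl | rfl | rfl | rfl | rfl | rfl | rfl | rfl | rfl | rfl | rfl | rfl <;>
  · simp only [Matrix.of_apply, Matrix.cons_val_zero, Matrix.cons_val_one, Matrix.cons_val',
      Matrix.cons_val_fin_one, NG]
    ring

end DKG

open DKG

theorem t_DKG : M_DKG := by
  intro hU hW hP ψ hψ
  have hD := hP ψ hψ
  refine ⟨?_, ?_, ?_⟩
  · have h : (D3 ψ).ψ (D3 ψ).ξ = fun l => ((D3 ψ).dim l : ℂ) := by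
      refine hU 2 (D3 ψ) (hW ψ) (D3 ψ).ξ _ _ (fun w hw l => hD.anti w hw _ l) ?_ ?_
        (fun i l => hD.rule i _ l) ?_
      · intro w hw l
        have h1 := anti l w hw
        have h2 := dimN ψ (w *ᵥ l)
        have h3 := dimN ψ l
        have h4 : (D3 ψ).dim (w *ᵥ l) = w.det * (D3 ψ).dim l := by
          have : 120 * (D3 ψ).dim (w *ᵥ l) = 120 * (w.det * (D3 ψ).dim l) := by
            rw [h2, h1, ← h3]
            ring
          exact mul_left_cancel₀ (by norm_num) this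
        change (((D3 ψ).dim (w *ᵥ l) : ℤ) : ℂ) = _
        rw [h4]
        push_cast
        rfl
      · change (D3 ψ).ψ (D3 ψ).ξ 1 = (((D3 ψ).dim 1 : ℤ) : ℂ)
        rw [hD.one, dimC]
        norm_num
      · intro i l
        change (D3 ψ).ξ i * ((D3 ψ).dim l : ℂ) =
          ∑ κ ∈ (D3 ψ).S i, ((D3 ψ).P i κ : ℂ) * ((D3 ψ).dim (l + κ) : ℂ)
        fin_cases i
        · refine Eq.trans ?_ (s0 ψ fun κ => ((D3 ψ).dim (l + κ) : ℂ)).symm
          have hξ : (D3 ψ).ξ ((fun i => i) ⟨0, by norm_num⟩) = 7 := rfl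
          rw [hξ]
          simp only [dimC, Pi.add_apply, Matrix.cons_val_zero, Matrix.cons_val_one]
          push_cast
          ring
        · refine Eq.trans ?_ (s1 ψ fun κ => ((D3 ψ).dim (l + κ) : ℂ)).symm
          have hξ : (D3 ψ).ξ ((fun i => i) ⟨1, by norm_num⟩) = 14 := rfl
          rw [hξ]
          simp only [dimC, Pi.add_apply, Matrix.cons_val_zero, Matrix.cons_val_one]
          push_cast
          ring
    exact fun l => congrFun h l
  · intro l hl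
    have h0 := hl 0
    have h1 := hl 1
    have h2 := dimN ψ l
    have h3 : 0 < NG (l 0) (l 1) := by
      unfold NG
      have a1 : 0 < l 0 := by omega
      have a2 : 0 < l 1 := by omega
      positivity
    omega
  · refine ⟨18, fun l hl => ?_⟩
    have h0 := hl 0
    have h1 := hl 1
    have h2 := dimN ψ l
    have he : (((D3 ψ).e : ℝ) / 2) = ((6 : ℕ) : ℝ) := by
      change (((12 : ℕ) : ℝ) / 2) = ((6 : ℕ) : ℝ)
      norm_num
    rw [he, Real.rpow_natCast]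
    have hp : (0 : ℝ) ≤ (l 0 : ℝ) := by exact_mod_cast (by omega : (0 : ℤ) ≤ l 0)
    have hq : (0 : ℝ) ≤ (l 1 : ℝ) := by exact_mod_cast (by omega : (0 : ℤ) ≤ l 1)
    have hs : sz l = 1 + ((l 0 : ℝ) + (l 1 : ℝ)) := by
      unfold sz
      rw [Fin.sum_univ_two, abs_of_nonneg hp, abs_of_nonneg hq]
    have hN : (120 : ℝ) * ((D3 ψ).dim l : ℝ) = (l 0 : ℝ) * l 1 * (l 0 + l 1) * (l 0 + 2 * l 1) *
        (l 0 + 3 * l 1) * (2 * l 0 + 3 * l 1) := by
      have : ((120 * (D3 ψ).dim l : ℤ) : ℝ) = ((NG (l 0) (l 1) : ℤ) : ℝ) := by rw [h2]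
      unfold NG at this
      push_cast at this
      exact this
    set p : ℝ := (l 0 : ℝ)
    set q : ℝ := (l 1 : ℝ)
    have hsp : 0 ≤ sz l := by rw [hs]; positivity
    have b1 : p ≤ sz l := by rw [hs]; linarith
    have b2 : q ≤ sz l := by rw [hs]; linarith
    have b3 : p + q ≤ sz l := by rw [hs]; linarith
    have b4 : p + 2 * q ≤ 2 * sz l := by rw [hs]; linarith
    have b5 : p + 3 * q ≤ 3 * sz l := by rw [hs]; linarith
    have b6 : 2 * p + 3 * q ≤ 3 * sz l := by rw [hs]; linarith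
    have hle : p * q * (p + q) * (p + 2 * q) * (p + 3 * q) * (2 * p + 3 * q) ≤
        sz l * sz l * sz l * (2 * sz l) * (3 * sz l) * (3 * sz l) := by
      gcongr
    have hd : (0 : ℝ) ≤ sz l ^ 6 := by positivity
    nlinarith [hN, hle, hd]

end

end STZ
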