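import Mathlib

/-!
# Scale invariant Strichartz estimates on `SU(n)`: definitions

`SU n` is the group `SU(n)`. The Lie algebra consists of the skew-Hermitian matrices `X` of trace `0`, the
Killing form is `B(X, Y) = 2 n tr(X Y)`, and the canonical metric is `-B`. The Laplacian is the sum
of the squares of the (left invariant) derivatives in the directions of an orthonormal basis.
-/

namespace STZ

open MeasureTheory Matrix

open scoped ComplexConjugate Matrix

noncomputable section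

/-- the group `SU(n)` -/
abbrev SU (n : ℕ) : Type := Matrix.specialUnitaryGroup (Fin n) ℂ

instance (n : ℕ) : MeasurableSpace (SU n) := borel _

instance (n : ℕ) : BorelSpace (SU n) := ⟨rfl⟩

/-- the Lie algebra `su(n)`: skew-Hermitian matrices of trace `0` -/
def su (n : ℕ) : Set (Matrix (Fin n) (Fin n) ℂ) := {X | Xᴴ = -X ∧ X.trace = 0}

open Classical in
/-- the one-parameter group `t ↦ exp (t X)` (for `X ∈ su n` it has values in `SU n`) -/
def ex {n : ℕ} (X : Matrix (Fin n) (Fin n) ℂ) (t : ℝ) : SU n :=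
  if h : NormedSpace.exp ((t : ℂ) • X) ∈ Matrix.specialUnitaryGroup (Fin n) ℂ then ⟨_, h⟩ else 1

/-- the derivative of `f` in the direction of the left invariant vector field `X` -/
def dX {n : ℕ} (X : Matrix (Fin n) (Fin n) ℂ) (f : SU n → ℂ) (g : SU n) : ℂ :=
  deriv (fun t : ℝ => f (g * ex X t)) 0

/-- `f` is continuous and has a continuous derivative in every direction -/
structure C1 {n : ℕ} (f : SU n → ℂ) : Prop where
  cont : Continuous f
  diff : ∀ X ∈ su n, ∀ g, DifferentiableAt ℝ (fun t : ℝ => f (g * ex X t)) 0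
  dcont : ∀ X ∈ su n, Continuous (dX X f)

/-- `f` is twice continuously differentiable -/
def C2 {n : ℕ} (f : SU n → ℂ) : Prop := C1 f ∧ ∀ X ∈ su n, C1 (dX X f)

/-- `X` is an orthonormal basis of `su(n)` for the negative `-2 n tr(X Y)` of the Killing form -/
structure Frame {n : ℕ} (X : Fin (n ^ 2 - 1) → Matrix (Fin n) (Fin n) ℂ) : Prop where
  mem : ∀ a, X a ∈ su n
  orth : ∀ a b, -(2 * (n : ℂ)) * (X a * X b).trace = if a = b then 1 else 0

/-- the Laplace-Beltrami operator for the canonical metric -/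
def lap {n : ℕ} (X : Fin (n ^ 2 - 1) → Matrix (Fin n) (Fin n) ℂ) (f : SU n → ℂ) (g : SU n) : ℂ :=
  ∑ a, dX (X a) (dX (X a) f) g

/-- `Δ f = - κ f`, `f` twice continuously differentiable -/
def Eig {n : ℕ} (X : Fin (n ^ 2 - 1) → Matrix (Fin n) (Fin n) ℂ) (κ : ℝ) (f : SU n → ℂ) : Prop :=
  C2 f ∧ ∀ g, lap X f g = -(κ : ℂ) * f g

/-- the dimension `n² - 1` of `SU(n)` -/
def dm (n : ℕ) : ℝ := (n : ℝ) ^ 2 - 1

/-- The scale invariant Strichartz inequality `(S_p)` on `SU(n)` for the time interval `[a, b]` with the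
constant `C ^ (1 / p)`, for the data `∑ k, f k`, a finite sum of eigenfunctions `f k` of the Laplacian for
different eigenvalues `- κ k`. Here `e ^ (i t Δ) f = ∑ k, e ^ (- i t κ k) f k`, and the square of the norm of
`f` in the Sobolev space `H^s`, `s = d / 2 - (d + 2) / p`, is `∑ k, (1 + κ k) ^ s ‖f k‖²`. (Finite sums of
eigenfunctions are dense in `H^s`.) -/
def StrIneq (n : ℕ) (μ : Measure (SU n)) (p a b C : ℝ) : Prop :=
  ∀ X : Fin (n ^ 2 - 1) → Matrix (Fin n) (Fin n) ℂ, Frame X →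
  ∀ (m : ℕ) (κ : Fin m → ℝ) (f : Fin m → SU n → ℂ), Function.Injective κ →
    (∀ k, Eig X (κ k) (f k)) →
    ∫ t in a..b, ∫ g, ‖∑ k, Complex.exp (-(Complex.I * κ k * t)) * f k g‖ ^ p ∂μ ≤
      C * (∑ k, (1 + κ k) ^ (dm n / 2 - (dm n + 2) / p) * ∫ g, ‖f k g‖ ^ 2 ∂μ) ^ (p / 2)

/-- `(S_p)` holds on `SU(n)`: for every finite time interval there is a constant. `μ` is the
invariant probability measure on `SU(n)`. -/
def Str (n : ℕ) (p : ℝ) : Prop :=
  ∀ μ : Measure (SU n), IsProbabilityMeasure μ → μ.IsMulLeftInvariant → ∀ a b : ℝ, a ≤ b →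
    ∃ C : ℝ, StrIneq n μ p a b C

/-- the upper bound: `(S_p)` holds on `SU(3)` for all `p > 4` -/
def MainUpper : Prop := ∀ p : ℝ, 4 < p → Str 3 p

/-- the lower bound: `(S_p)` fails on `SU(n)` for all `p < 2 + 8 / ((n - 1) (n + 2))` -/
def MainLower : Prop := ∀ n : ℕ, 2 ≤ n → ∀ p : ℝ, 2 ≤ p →
  p < 2 + 8 / (((n : ℝ) - 1) * (n + 2)) → ∀ μ : Measure (SU n), IsProbabilityMeasure μ →
  μ.IsMulLeftInvariant → ∀ a b C : ℝ, a < b → ¬ StrIneq n μ p a b C

end

end STZ
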