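import Pool.Agent.STZ.Defs

/-!
# Scale invariant Strichartz estimates on closed subgroups of `SU(N)`: definitions

`H` is a closed subgroup of `SU(N)`, with the Lie algebra `lie H` and the bi-invariant metric `-c tr(X Y)`,
`c > 0`. For the groups
* `⊤ ≤ SU(3)`, `c = 6`, dimension `8`;
* `Sp2 ≤ SU(4)`, `c = 6`, dimension `10`;
* `G2 ≤ SU(7)`, `c = 4`, dimension `14`
the form `c tr(X Y)` is the Killing form.
-/

namespace STZ

open MeasureTheory Matrix Filter

open scoped ComplexConjugate Matrix Topology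

noncomputable section

/-- the Lie algebra of the subgroup `H` -/
def lie {N : ℕ} (H : Subgroup (SU N)) : Set (Matrix (Fin N) (Fin N) ℂ) :=
  {X | X ∈ su N ∧ ∀ t : ℝ, ex X t ∈ H}

open Classical in
/-- the one-parameter group `t ↦ exp (t X)` (for `X ∈ lie H` it has values in `H`) -/
def exH {N : ℕ} (H : Subgroup (SU N)) (X : Matrix (Fin N) (Fin N) ℂ) (t : ℝ) : H :=
  if h : ex X t ∈ H then ⟨ex X t, h⟩ else 1

/-- the derivative of `f` in the direction of the left invariant vector field `X` -/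
def dH {N : ℕ} {H : Subgroup (SU N)} (X : Matrix (Fin N) (Fin N) ℂ) (f : H → ℂ) (g : H) : ℂ :=
  deriv (fun t : ℝ => f (g * exH H X t)) 0

/-- `f` is continuous and has a continuous derivative in every direction -/
structure C1H {N : ℕ} {H : Subgroup (SU N)} (f : H → ℂ) : Prop where
  cont : Continuous f
  diff : ∀ X ∈ lie H, ∀ g, DifferentiableAt ℝ (fun t : ℝ => f (g * exH H X t)) 0
  dcont : ∀ X ∈ lie H, Continuous (dH X f)

/-- `f` is twice continuously differentiable -/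
def C2H {N : ℕ} {H : Subgroup (SU N)} (f : H → ℂ) : Prop := C1H f ∧ ∀ X ∈ lie H, C1H (dH X f)

/-- `X` is an orthonormal basis of the Lie algebra of `H` for the inner product `-c tr(X Y)` -/
structure FrameH {N : ℕ} (H : Subgroup (SU N)) (c : ℝ) {d : ℕ}
    (X : Fin d → Matrix (Fin N) (Fin N) ℂ) : Prop where
  mem : ∀ a, X a ∈ lie H
  orth : ∀ a b, -(c : ℂ) * (X a * X b).trace = if a = b then 1 else 0
  span : ∀ Y ∈ lie H, ∃ y : Fin d → ℝ, Y = ∑ a, (y a : ℂ) • X a

/-- the Laplace-Beltrami operator -/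
def lapH {N : ℕ} {H : Subgroup (SU N)} {d : ℕ} (X : Fin d → Matrix (Fin N) (Fin N) ℂ) (f : H → ℂ)
    (g : H) : ℂ := ∑ a, dH (X a) (dH (X a) f) g

/-- `Δ f = - κ f`, `f` twice continuously differentiable -/
def EigH {N : ℕ} {H : Subgroup (SU N)} {d : ℕ} (X : Fin d → Matrix (Fin N) (Fin N) ℂ) (κ : ℝ)
    (f : H → ℂ) : Prop :=
  C2H f ∧ ∀ g, lapH X f g = -(κ : ℂ) * f g

/-- The scale invariant Strichartz inequality `(S_p)` on `H` (of dimension `d`) with the metric `-c tr(X Y)`, for the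
time interval `[a, b]` with the constant `C ^ (1 / p)`, for all data. The function `f` in `H^s`,
`s = d / 2 - (d + 2) / p`, is `∑ k, f k`, where the `f k` are eigenfunctions of the Laplacian for different eigenvalues `- κ k` and
`∑ k, (1 + κ k) ^ s ‖f k‖² < ∞` (the square of the norm of `f` in `H^s`). Its evolution `u t = e ^ (i t Δ) f` is the sum
`∑ k, e ^ (- i t κ k) f k` in `L²`, for every `t`. -/
def StrIneqG {N : ℕ} (H : Subgroup (SU N)) (c : ℝ) (d : ℕ) (μ : Measure H) (p a b C : ℝ) : Prop :=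
  ∀ X : Fin d → Matrix (Fin N) (Fin N) ℂ, FrameH H c X →
  ∀ (κ : ℕ → ℝ) (f : ℕ → H → ℂ), Function.Injective κ → (∀ k, EigH X (κ k) (f k)) →
    Summable (fun k => (1 + κ k) ^ ((d : ℝ) / 2 - ((d : ℝ) + 2) / p) * ∫ g, ‖f k g‖ ^ 2 ∂μ) →
  ∀ u : ℝ → H → ℂ, (∀ t, AEStronglyMeasurable (u t) μ) →
    (∀ t, Tendsto (fun N : ℕ => eLpNorm
      (fun g => u t g - ∑ k ∈ Finset.range N, Complex.exp (-(Complex.I * κ k * t)) * f k g) 2 μ)
      atTop (𝓝 0)) →
    ∫⁻ t in Set.Icc a b, ∫⁻ g, ‖u t g‖ₑ ^ p ∂μ ≤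
      ENNReal.ofReal
        (C * (∑' k, (1 + κ k) ^ ((d : ℝ) / 2 - ((d : ℝ) + 2) / p) * ∫ g, ‖f k g‖ ^ 2 ∂μ) ^ (p / 2))

/-- `(S_p)` holds on `H`: for every finite time interval there is a constant. `μ` is the
invariant probability measure on `H`. -/
def StrG {N : ℕ} (H : Subgroup (SU N)) (c : ℝ) (d : ℕ) (p : ℝ) : Prop :=
  ∀ μ : Measure H, IsProbabilityMeasure μ → μ.IsMulLeftInvariant → ∀ a b : ℝ, a ≤ b →
    ∃ C : ℝ, StrIneqG H c d μ p a b C

end

end STZ
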