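import Pool.Agent.STZ.Defs

/-!
# Scale invariant Strichartz estimates on `SU(n)`, all data
-/

namespace STZ

open MeasureTheory Matrix Filter

open scoped ComplexConjugate Matrix Topology

noncomputable section

/-- The scale invariant Strichartz inequality `(S_p)` on `SU(n)` for the time interval `[a, b]` with the
constant `C ^ (1 / p)`, for all data. The function `f` in `H^s`, `s = d / 2 - (d + 2) / p`, is `∑ k, f k`, where the `f k` are
eigenfunctions of the Laplacian for different eigenvalues `- κ k` and `∑ k, (1 + κ k) ^ s ‖f k‖² < ∞` (the square of the norm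
of `f` in `H^s`). Its evolution `u t = e ^ (i t Δ) f` is the sum `∑ k, e ^ (- i t κ k) f k` in `L²(SU(n))`, for every `t`. -/
def StrIneqH (n : ℕ) (μ : Measure (SU n)) (p a b C : ℝ) : Prop :=
  ∀ X : Fin (n ^ 2 - 1) → Matrix (Fin n) (Fin n) ℂ, Frame X →
  ∀ (κ : ℕ → ℝ) (f : ℕ → SU n → ℂ), Function.Injective κ → (∀ k, Eig X (κ k) (f k)) →
    Summable (fun k => (1 + κ k) ^ (dm n / 2 - (dm n + 2) / p) * ∫ g, ‖f k g‖ ^ 2 ∂μ) →
  ∀ u : ℝ → SU n → ℂ, (∀ t, AEStronglyMeasurable (u t) μ) →
    (∀ t, Tendsto (fun N : ℕ => eLpNorm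
      (fun g => u t g - ∑ k ∈ Finset.range N, Complex.exp (-(Complex.I * κ k * t)) * f k g) 2 μ)
      atTop (𝓝 0)) →
    ∫⁻ t in Set.Icc a b, ∫⁻ g, ‖u t g‖ₑ ^ p ∂μ ≤
      ENNReal.ofReal
        (C * (∑' k, (1 + κ k) ^ (dm n / 2 - (dm n + 2) / p) * ∫ g, ‖f k g‖ ^ 2 ∂μ) ^ (p / 2))

/-- the upper bound for all data: `(S_p)` holds on `SU(3)` for all `p > 4`. `μ` is the invariant probability
measure on `SU(3)`. -/
def MainUpperH : Prop := ∀ p : ℝ, 4 < p → ∀ μ : Measure (SU 3), IsProbabilityMeasure μ →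
  μ.IsMulLeftInvariant → ∀ a b : ℝ, a ≤ b → ∃ C : ℝ, StrIneqH 3 μ p a b C

/-- INF. Let `C` be the constant of the finite inequality, made nonnegative. Let `u_N` be the sum of the first `N` terms. For every `t`: `u_N t → u t` in `L²`, so
`∫⁻ ‖u t‖^p ≤ liminf ∫⁻ ‖u_N t‖^p` (choose a subsequence along which the integrals converge to the liminf, and a further one which
converges almost everywhere, `TendstoInMeasure.exists_seq_tendsto_ae`, and use Fatou's lemma `lintegral_liminf_le`). Then Fatou's lemma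
for the integral over `t` (the functions `t ↦ ∫⁻ ‖u_N t‖^p` are continuous or at least measurable), and the finite inequality for
every `N` (`Eig` functions are continuous, so all integrals are finite and `∫⁻` is `ENNReal.ofReal` of the integral; the restriction of `κ`, `f` to
`Fin N`); the finite sums are at most the infinite sum: the terms are nonnegative because `κ k ≥ 0` if `f k` is not zero, or: the terms with
`f k = 0` vanish. (`κ k ≥ 0`: use the hypothesis `hpos` below.) -/
def M_INF : Prop :=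
  (∀ (μ : Measure (SU 3)), IsProbabilityMeasure μ → μ.IsMulLeftInvariant →
    ∀ (X : Fin (3 ^ 2 - 1) → Matrix (Fin 3) (Fin 3) ℂ), Frame X → ∀ (κ : ℝ) (f : SU 3 → ℂ),
    Eig X κ f → 0 ≤ κ ∨ f = 0) →
  MainUpper → MainUpperH

end

end STZ
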