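import Pool.Agent.STZ.DefsG

/-!
# The compact simple simply connected groups of rank two

`SU(3)` is the group `⊤ ≤ SU(3)`; `Sp2 ≤ SU(4)` is the compact symplectic group of rank two; `G2 ≤ SU(7)` is the compact
exceptional group of rank two, the stabilizer in `SO(7)` of the three-form `∑ i, e i ∧ e (i + 1) ∧ e (i + 3)` (indices modulo `7`).
-/

namespace STZ

open MeasureTheory Matrix

open scoped ComplexConjugate Matrix

/-- the matrix of the symplectic form -/
def J4 : Matrix (Fin 4) (Fin 4) ℂ := !![0, 0, 1, 0; 0, 0, 0, 1; -1, 0, 0, 0; 0, -1, 0, 0]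

/-- the compact symplectic group `Sp(2)`: the elements of `SU(4)` which preserve the symplectic form -/
def Sp2 : Subgroup (SU 4) where
  carrier := {g | g.1ᵀ * J4 * g.1 = J4}
  mul_mem' := by
    intro g h hg hh
    simp only [Set.mem_ofPred_eq] at hg hh ⊢
    have h1 : (g * h).1 = g.1 * h.1 := rfl
    calc (g * h).1ᵀ * J4 * (g * h).1 = h.1ᵀ * (g.1ᵀ * J4 * g.1) * h.1 := by
          rw [h1, Matrix.transpose_mul]
          simp only [Matrix.mul_assoc]
      _ = J4 := by rw [hg, hh]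
  one_mem' := by
    simp only [Set.mem_ofPred_eq]
    have h1 : (1 : SU 4).1 = 1 := rfl
    rw [h1, Matrix.transpose_one, Matrix.one_mul, Matrix.mul_one]
  inv_mem' := by
    intro g hg
    simp only [Set.mem_ofPred_eq] at hg ⊢
    have h1 : g.1 * (g⁻¹).1 = 1 := by
      have := congrArg Subtype.val (mul_inv_cancel g)
      exact this
    have h2 : (g⁻¹).1ᵀ * g.1ᵀ = 1 := by
      rw [← Matrix.transpose_mul, h1, Matrix.transpose_one]
    calc (g⁻¹).1ᵀ * J4 * (g⁻¹).1 = (g⁻¹).1ᵀ * (g.1ᵀ * J4 * g.1) * (g⁻¹).1 := by rw [hg]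
      _ = ((g⁻¹).1ᵀ * g.1ᵀ) * J4 * (g.1 * (g⁻¹).1) := by simp only [Matrix.mul_assoc]
      _ = J4 := by rw [h1, h2, Matrix.one_mul, Matrix.mul_one]

/-- the coefficients of the three-form `∑ i, e i ∧ e (i + 1) ∧ e (i + 3)`, indices modulo `7` -/
def ph (i j k : Fin 7) : ℤ :=
  if (j - i, k - i) = (1, 3) ∨ (j - i, k - i) = (2, 6) ∨ (j - i, k - i) = (4, 5) then 1
  else if (j - i, k - i) = (3, 1) ∨ (j - i, k - i) = (6, 2) ∨ (j - i, k - i) = (5, 4) then -1
  else 0

/-- the three-form -/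
def Phi (x y z : Fin 7 → ℂ) : ℂ := ∑ i, ∑ j, ∑ k, (ph i j k : ℂ) * x i * y j * z k

/-- the compact group `G₂`: the real matrices in `SU(7)` (that is, `SO(7)`) which preserve the three-form -/
def G2 : Subgroup (SU 7) where
  carrier := {g | (∀ i j, conj (g.1 i j) = g.1 i j) ∧
    ∀ x y z : Fin 7 → ℂ, Phi (g.1 *ᵥ x) (g.1 *ᵥ y) (g.1 *ᵥ z) = Phi x y z}
  mul_mem' := by
    intro g h hg hh
    have h1 : (g * h).1 = g.1 * h.1 := rfl
    refine ⟨fun i j => ?_, fun x y z => ?_⟩
    · rw [h1, Matrix.mul_apply, map_sum]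
      refine Finset.sum_congr rfl fun k _ => ?_
      rw [map_mul, hg.1, hh.1]
    · rw [h1, ← Matrix.mulVec_mulVec, ← Matrix.mulVec_mulVec, ← Matrix.mulVec_mulVec, hg.2, hh.2]
  one_mem' := by
    have h1 : (1 : SU 7).1 = 1 := rfl
    refine ⟨fun i j => ?_, fun x y z => ?_⟩
    · rw [h1, Matrix.one_apply]
      split_ifs <;> simp
    · rw [h1, Matrix.one_mulVec, Matrix.one_mulVec, Matrix.one_mulVec]
  inv_mem' := by
    intro g hg
    have h1 : g.1 * (g⁻¹).1 = 1 := congrArg Subtype.val (mul_inv_cancel g)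
    refine ⟨fun i j => ?_, fun x y z => ?_⟩
    · have h2 : (g⁻¹).1 = g.1ᴴ := rfl
      rw [h2, Matrix.conjTranspose_apply]
      have := hg.1 j i
      rw [Complex.star_def, this, this]
    · have h3 := hg.2 ((g⁻¹).1 *ᵥ x) ((g⁻¹).1 *ᵥ y) ((g⁻¹).1 *ᵥ z)
      rw [Matrix.mulVec_mulVec, Matrix.mulVec_mulVec, Matrix.mulVec_mulVec, h1, Matrix.one_mulVec,
        Matrix.one_mulVec, Matrix.one_mulVec] at h3
      exact h3.symm

/-- The upper bound: `(S_p)` holds for all `p > 4` on the compact simple simply connected groups of rank two, with the metric given by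
the negative of the Killing form. The Killing form is `6 tr(X Y)` for `SU(3)` (dimension `8`), `6 tr(X Y)` for `Sp(2)` (dimension `10`)
and `4 tr(X Y)` for `G₂` (dimension `14`). -/
def MainRankTwo : Prop := ∀ p : ℝ, 4 < p →
  StrG (⊤ : Subgroup (SU 3)) 6 8 p ∧ StrG Sp2 6 10 p ∧ StrG G2 4 14 p

end STZ
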