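import Pool.Agent.STZ.DefsK

/-!
# The family of the compact simple simply connected Lie groups of rank two
-/

namespace STZ

/-- the compact simple simply connected Lie groups of rank two: `SU(3)`, `Sp(2)` and `G₂` -/
inductive RankTwo where
  | su3
  | sp2
  | g2

namespace RankTwo

/-- the size of the matrices -/
def N : RankTwo → ℕ
  | su3 => 3
  | sp2 => 4
  | g2 => 7

/-- the group, as a closed subgroup of `SU(N)` -/
def grp : (G : RankTwo) → Subgroup (SU G.N)
  | su3 => (⊤ : Subgroup (SU 3))
  | sp2 => Sp2
  | g2 => G2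

/-- `c tr(X Y)` is the Killing form -/
def c : RankTwo → ℝ
  | su3 => 6
  | sp2 => 6
  | g2 => 4

/-- the dimension -/
def d : RankTwo → ℕ
  | su3 => 8
  | sp2 => 10
  | g2 => 14

end RankTwo

end STZ
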