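import Pool.Agent.STZ.StmtsN

/-!
# STZ_E3G: the traces of the powers of an element of `G₂`
-/

namespace STZ

open MeasureTheory Matrix

open scoped ComplexConjugate Matrix Real

noncomputable section

namespace E3G

/-- Kronecker's symbol, complex -/
def d (i j : Fin 7) : ℂ := if i = j then 1 else 0

theorem d_symm (i j : Fin 7) : d i j = d j i := by
  unfold d
  by_cases h : i = j
  · subst h; rfl
  · rw [if_neg h, if_neg (fun h' => h h'.symm)]

theorem sum_d (i : Fin 7) (f : Fin 7 → ℂ) : ∑ a, d i a * f a = f i := by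
  simp [d]

theorem sum_d' (i : Fin 7) (f : Fin 7 → ℂ) : ∑ a, d a i * f a = f i := by
  simp [d]

theorem sc3 (f : Fin 7 → Fin 7 → Fin 7 → ℂ) :
    ∑ i, ∑ j, ∑ k, f i j k = ∑ k, ∑ i, ∑ j, f i j k := by
  calc ∑ i, ∑ j, ∑ k, f i j k = ∑ i, ∑ k, ∑ j, f i j k :=
        Finset.sum_congr rfl fun i _ => Finset.sum_comm
    _ = ∑ k, ∑ i, ∑ j, f i j k := Finset.sum_comm

theorem scx {ι : Type} [Fintype ι] (f : Fin 7 → Fin 7 → ι → ℂ) :
    ∑ i, ∑ j, ∑ k, f i j k = ∑ k, ∑ i, ∑ j, f i j k := by
  calc ∑ i, ∑ j, ∑ k, f i j k = ∑ i, ∑ k, ∑ j, f i j k :=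
        Finset.sum_congr rfl fun i _ => Finset.sum_comm
    _ = ∑ k, ∑ i, ∑ j, f i j k := Finset.sum_comm

theorem sc4 (f : Fin 7 → Fin 7 → Fin 7 → Fin 7 → ℂ) :
    ∑ i, ∑ j, ∑ k, ∑ l, f i j k l = ∑ l, ∑ i, ∑ j, ∑ k, f i j k l := by
  calc ∑ i, ∑ j, ∑ k, ∑ l, f i j k l = ∑ i, ∑ l, ∑ j, ∑ k, f i j k l :=
        Finset.sum_congr rfl fun i _ => sc3 _
    _ = _ := Finset.sum_comm

variable (G : Fin 7 → Fin 7 → ℂ)

/-- contraction -/
def ct (F : Fin 7 → Fin 7 → ℂ) : ℂ := ∑ i, ∑ a, F i a * G i a

/-- the square -/
def sq (i j : Fin 7) : ℂ := ∑ k, G i k * G k j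

/-- the trace -/
def P1 : ℂ := ∑ i, G i i

/-- the trace of the square -/
def P2 : ℂ := ∑ i, sq G i i

/-- the trace of the cube -/
def P3 : ℂ := ∑ i, ∑ j, sq G i j * G j i

theorem ct_add (F F' : Fin 7 → Fin 7 → ℂ) :
    ct G (fun i a => F i a + F' i a) = ct G F + ct G F' := by
  unfold ct
  rw [← Finset.sum_add_distrib]
  refine Finset.sum_congr rfl fun i _ => ?_
  rw [← Finset.sum_add_distrib]
  refine Finset.sum_congr rfl fun a _ => ?_
  ring

theorem ct_mul (x : ℂ) (F : Fin 7 → Fin 7 → ℂ) :
    ct G (fun i a => x * F i a) = x * ct G F := by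
  unfold ct
  rw [Finset.mul_sum]
  refine Finset.sum_congr rfl fun i _ => ?_
  rw [Finset.mul_sum]
  refine Finset.sum_congr rfl fun a _ => ?_
  ring

theorem ct_sum (F : Fin 7 → Fin 7 → Fin 7 → ℂ) :
    ct G (fun i a => ∑ m, F m i a) = ∑ m, ct G (F m) := by
  unfold ct
  rw [← sc3]
  refine Finset.sum_congr rfl fun i _ => ?_
  refine Finset.sum_congr rfl fun a _ => ?_
  rw [Finset.sum_mul]

theorem ct_comm (F : Fin 7 → Fin 7 → Fin 7 → Fin 7 → ℂ) :
    ct G (fun i a => ct G (fun j b => F i a j b)) =
      ct G (fun j b => ct G (fun i a => F i a j b)) := by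
  have h : ct G (fun i a => ct G (fun j b => F i a j b)) =
      ∑ i, ∑ a, ∑ j, ∑ b, F i a j b * G j b * G i a := by
    unfold ct
    refine Finset.sum_congr rfl fun i _ => ?_
    refine Finset.sum_congr rfl fun a _ => ?_
    rw [Finset.sum_mul]
    refine Finset.sum_congr rfl fun j _ => ?_
    rw [Finset.sum_mul]
  have h' : ct G (fun j b => ct G (fun i a => F i a j b)) =
      ∑ j, ∑ b, ∑ i, ∑ a, F i a j b * G j b * G i a := by
    unfold ct
    refine Finset.sum_congr rfl fun i _ => ?_
    refine Finset.sum_congr rfl fun a _ => ?_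
    rw [Finset.sum_mul]
    refine Finset.sum_congr rfl fun j _ => ?_
    rw [Finset.sum_mul]
    refine Finset.sum_congr rfl fun b _ => ?_
    ring
  rw [h, h', sc4, sc4]

theorem ct_d (x : ℂ) : ct G (fun i a => d i a * x) = P1 G * x := by
  unfold ct P1
  rw [Finset.sum_mul]
  refine Finset.sum_congr rfl fun i _ => ?_
  calc ∑ a, d i a * x * G i a = ∑ a, d i a * (x * G i a) :=
        Finset.sum_congr rfl fun a _ => by ring
    _ = _ := by rw [sum_d]; ring

/-- the contraction with the square -/
def cs (Y : Fin 7 → Fin 7 → ℂ) : ℂ := ∑ j, ∑ a, Y j a * sq G j a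

theorem ctA (Y : Fin 7 → Fin 7 → ℂ) :
    ct G (fun i a => ct G (fun j b => d i b * Y j a)) = cs G Y := by
  have h : ∀ i a, ct G (fun j b => d i b * Y j a) = ∑ j, Y j a * G j i := by
    intro i a
    unfold ct
    refine Finset.sum_congr rfl fun j _ => ?_
    calc ∑ b, d i b * Y j a * G j b = ∑ b, d i b * (Y j a * G j b) :=
          Finset.sum_congr rfl fun a _ => by ring
      _ = _ := by rw [sum_d]
  have h2 : ct G (fun i a => ct G (fun j b => d i b * Y j a)) =
      ct G (fun i a => ∑ j, Y j a * G j i) := by
    congr 1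
    funext i a
    exact h i a
  rw [h2]
  unfold ct cs sq
  calc ∑ i, ∑ a, (∑ j, Y j a * G j i) * G i a = ∑ i, ∑ a, ∑ j, Y j a * (G j i * G i a) := by
        refine Finset.sum_congr rfl fun i _ => Finset.sum_congr rfl fun a _ => ?_
        rw [Finset.sum_mul]
        exact Finset.sum_congr rfl fun j _ => by ring
    _ = ∑ j, ∑ i, ∑ a, Y j a * (G j i * G i a) := sc3 _
    _ = ∑ j, ∑ a, Y j a * ∑ k, G j k * G k a := by
        refine Finset.sum_congr rfl fun j _ => ?_
        rw [Finset.sum_comm]
        refine Finset.sum_congr rfl fun a _ => ?_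
        rw [Finset.mul_sum]

/-- triple contraction -/
def T (F : Fin 7 → Fin 7 → Fin 7 → Fin 7 → Fin 7 → Fin 7 → ℂ) : ℂ :=
  ct G (fun i a => ct G (fun j b => ct G (fun k c => F i j k a b c)))

theorem T_add (F F' : Fin 7 → Fin 7 → Fin 7 → Fin 7 → Fin 7 → Fin 7 → ℂ) :
    T G (fun i j k a b c => F i j k a b c + F' i j k a b c) = T G F + T G F' := by
  unfold T
  rw [← ct_add]
  congr 1
  funext i a
  rw [← ct_add]
  congr 1
  funext j b
  rw [← ct_add]

theorem T_mul (x : ℂ) (F : Fin 7 → Fin 7 → Fin 7 → Fin 7 → Fin 7 → Fin 7 → ℂ) :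
    T G (fun i j k a b c => x * F i j k a b c) = x * T G F := by
  unfold T
  rw [← ct_mul]
  congr 1
  funext i a
  rw [← ct_mul]
  congr 1
  funext j b
  rw [← ct_mul]

theorem T_sub (F F' : Fin 7 → Fin 7 → Fin 7 → Fin 7 → Fin 7 → Fin 7 → ℂ) :
    T G (fun i j k a b c => F i j k a b c - F' i j k a b c) = T G F - T G F' := by
  have h : T G (fun i j k a b c => F i j k a b c - F' i j k a b c) =
      T G (fun i j k a b c => F i j k a b c + (-1) * F' i j k a b c) := by
    congr 1
    funext i j k a b c
    ring
  rw [h, T_add, T_mul]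
  ring

theorem T_s12 (F : Fin 7 → Fin 7 → Fin 7 → Fin 7 → Fin 7 → Fin 7 → ℂ) :
    T G F = T G (fun i j k a b c => F j i k b a c) := by
  unfold T
  exact ct_comm G (fun i a j b => ct G (fun k c => F i j k a b c))

theorem T_s23 (F : Fin 7 → Fin 7 → Fin 7 → Fin 7 → Fin 7 → Fin 7 → ℂ) :
    T G F = T G (fun i j k a b c => F i k j a c b) := by
  unfold T
  congr 1
  funext i a
  exact ct_comm G (fun j b k c => F i j k a b c)

/-- double contraction -/
def CC (X : Fin 7 → Fin 7 → Fin 7 → Fin 7 → ℂ) : ℂ :=
  ct G (fun j b => ct G (fun k c => X j k b c))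

/-- double contraction, first the square -/
def C2 (X : Fin 7 → Fin 7 → Fin 7 → Fin 7 → ℂ) : ℂ :=
  cs G (fun j a => ct G (fun k c => X j k a c))

theorem T_diag (X : Fin 7 → Fin 7 → Fin 7 → Fin 7 → ℂ) :
    T G (fun i j k a b c => d i a * X j k b c) = P1 G * CC G X := by
  have h : T G (fun i j k a b c => d i a * X j k b c) = ct G (fun i a => d i a * CC G X) := by
    unfold T CC
    congr 1
    funext i a
    rw [← ct_mul]
    congr 1
    funext j b
    rw [← ct_mul]
  rw [h, ct_d]

theorem T_off (X : Fin 7 → Fin 7 → Fin 7 → Fin 7 → ℂ) :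
    T G (fun i j k a b c => d i b * X j k a c) = C2 G X := by
  have h : T G (fun i j k a b c => d i b * X j k a c) =
      ct G (fun i a => ct G (fun j b => d i b * ct G (fun k c => X j k a c))) := by
    unfold T
    congr 1
    funext i a
    congr 1
    funext j b
    rw [← ct_mul]
  rw [h, ctA G (fun j a => ct G (fun k c => X j k a c))]
  rfl

theorem T_eq (F : Fin 7 → Fin 7 → Fin 7 → Fin 7 → Fin 7 → Fin 7 → ℂ) :
    T G F = ∑ a, ∑ b, ∑ c, ∑ i, ∑ j, ∑ k, F i j k a b c * (G i a * G j b * G k c) := by
  have h : T G F = ∑ i, ∑ a, ∑ j, ∑ b, ∑ k, ∑ c, F i j k a b c * (G i a * G j b * G k c) := by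
    unfold T ct
    refine Finset.sum_congr rfl fun i _ => Finset.sum_congr rfl fun a _ => ?_
    rw [Finset.sum_mul]
    refine Finset.sum_congr rfl fun j _ => ?_
    rw [Finset.sum_mul]
    refine Finset.sum_congr rfl fun b _ => ?_
    rw [Finset.sum_mul, Finset.sum_mul]
    refine Finset.sum_congr rfl fun k _ => ?_
    rw [Finset.sum_mul, Finset.sum_mul]
    refine Finset.sum_congr rfl fun c _ => ?_
    ring
  rw [h, Finset.sum_comm]
  refine Finset.sum_congr rfl fun a _ => ?_
  calc ∑ i, ∑ j, ∑ b, ∑ k, ∑ c, F i j k a b c * (G i a * G j b * G k c)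
      = ∑ b, ∑ i, ∑ j, ∑ k, ∑ c, F i j k a b c * (G i a * G j b * G k c) := sc3 _
    _ = ∑ b, ∑ c, ∑ i, ∑ j, ∑ k, F i j k a b c * (G i a * G j b * G k c) := by
        refine Finset.sum_congr rfl fun b _ => ?_
        exact sc4 (fun i j k c => F i j k a b c * (G i a * G j b * G k c))

/-- the data: the orthogonal matrix `G` preserves the form `p` -/
structure Dat (G : Fin 7 → Fin 7 → ℂ) (p : Fin 7 → Fin 7 → Fin 7 → ℂ)
    (q : Fin 7 → Fin 7 → Fin 7 → Fin 7 → ℂ) : Prop where
  o1 : ∀ a b, ∑ i, G i a * G i b = d a b
  o2 : ∀ i j, ∑ a, G i a * G j a = d i j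
  i3 : ∀ a b c, ∑ i, ∑ j, ∑ k, p i j k * (G i a * G j b * G k c) = p a b c
  a1 : ∀ i j k, p j i k = - p i j k
  a2 : ∀ i j k, p i k j = - p i j k
  c6 : ∀ i l, ∑ j, ∑ k, p i j k * p l j k = 6 * d i l
  qd : ∀ i j k l, q i j k l = ∑ m, p i j m * p k l m - d i k * d j l + d i l * d j k
  b1 : ∀ i j k l, q j i k l = - q i j k l
  b2 : ∀ i j k l, q i k j l = - q i j k l
  b3 : ∀ i j k l, q i j l k = - q i j k l
  c24 : ∀ l m, ∑ i, ∑ j, ∑ k, q i j k l * q i j k m = 24 * d l m
  six : ∀ i j k a b c, ∑ n, q i j k n * q a b c n =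
    d i a * (d j b * d k c - d j c * d k b) - d i b * (d j a * d k c - d j c * d k a) +
    d i c * (d j a * d k b - d j b * d k a) - p i j k * p a b c +
    (d i a * q j k b c + d i b * q j k c a + d i c * q j k a b) +
    (d j a * q k i b c + d j b * q k i c a + d j c * q k i a b) +
    (d k a * q i j b c + d k b * q i j c a + d k c * q i j a b)

variable {G} {p : Fin 7 → Fin 7 → Fin 7 → ℂ} {q : Fin 7 → Fin 7 → Fin 7 → Fin 7 → ℂ}

/-- inversion -/
theorem Dat.inv (D : Dat G p q) {f h : Fin 7 → ℂ} (H : ∀ c, ∑ k, f k * G k c = h c) (k : Fin 7) :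
    f k = ∑ c, h c * G k c := by
  calc f k = ∑ l, d k l * f l := (sum_d k f).symm
    _ = ∑ l, ∑ c, f l * G l c * G k c := by
        refine Finset.sum_congr rfl fun l _ => ?_
        rw [← D.o2 k l, Finset.sum_mul]
        exact Finset.sum_congr rfl fun c _ => by ring
    _ = ∑ c, ∑ l, f l * G l c * G k c := Finset.sum_comm
    _ = ∑ c, h c * G k c := by
        refine Finset.sum_congr rfl fun c _ => ?_
        rw [← H c, Finset.sum_mul]

theorem Dat.i2 (D : Dat G p q) (a b k : Fin 7) :
    ∑ i, ∑ j, p i j k * (G i a * G j b) = ∑ c, p a b c * G k c := by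
  refine D.inv (f := fun k => ∑ i, ∑ j, p i j k * (G i a * G j b)) (h := fun c => p a b c) ?_ k
  intro c
  rw [← D.i3 a b c]
  calc ∑ k, (∑ i, ∑ j, p i j k * (G i a * G j b)) * G k c
      = ∑ k, ∑ i, ∑ j, p i j k * (G i a * G j b * G k c) := by
        refine Finset.sum_congr rfl fun k _ => ?_
        rw [Finset.sum_mul]
        refine Finset.sum_congr rfl fun i _ => ?_
        rw [Finset.sum_mul]
        exact Finset.sum_congr rfl fun j _ => by ring
    _ = _ := (sc3 _).symm

theorem Dat.i1 (D : Dat G p q) (a j k : Fin 7) :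
    ∑ i, p i j k * G i a = ∑ b, (∑ c, p a b c * G k c) * G j b := by
  refine D.inv (f := fun j => ∑ i, p i j k * G i a) (h := fun b => ∑ c, p a b c * G k c) ?_ j
  intro b
  rw [← D.i2 a b k, Finset.sum_comm]
  refine Finset.sum_congr rfl fun j _ => ?_
  rw [Finset.sum_mul]
  exact Finset.sum_congr rfl fun i _ => by ring

/-- the four-form is invariant -/
theorem Dat.j4 (D : Dat G p q) (a b c n : Fin 7) :
    ∑ i, ∑ j, ∑ k, q i j k n * (G i a * G j b * G k c) = ∑ m, q a b c m * G n m := by
  have h0 : ∀ i j, ∑ k, q i j k n * (G i a * G j b * G k c) =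
      ∑ m, (∑ k, p k n m * G k c) * (p i j m * (G i a * G j b)) -
        (d j n * G j b) * (G i a * G i c) + (d i n * G i a) * (G j b * G j c) := by
    intro i j
    have e1 : ∀ k, q i j k n * (G i a * G j b * G k c) =
        ∑ m, (p k n m * G k c) * (p i j m * (G i a * G j b)) -
          d i k * ((d j n * G j b) * (G i a * G k c)) +
          d j k * ((d i n * G i a) * (G j b * G k c)) := by
      intro k
      rw [D.qd]
      have e2 : ∑ m, (p k n m * G k c) * (p i j m * (G i a * G j b)) =
          (∑ m, p i j m * p k n m) * (G i a * G j b * G k c) := by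
        rw [Finset.sum_mul]
        exact Finset.sum_congr rfl fun m _ => by ring
      rw [e2]
      ring
    calc ∑ k, q i j k n * (G i a * G j b * G k c) = ∑ k, (∑ m, (p k n m * G k c) *
          (p i j m * (G i a * G j b)) - d i k * ((d j n * G j b) * (G i a * G k c)) +
          d j k * ((d i n * G i a) * (G j b * G k c))) :=
          Finset.sum_congr rfl fun k _ => e1 k
      _ = _ := by
          rw [Finset.sum_add_distrib, Finset.sum_sub_distrib, sum_d, sum_d, Finset.sum_comm]
          congr 2
          refine Finset.sum_congr rfl fun m _ => ?_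
          rw [Finset.sum_mul]
  have h1 : ∑ i, ∑ j, ∑ k, q i j k n * (G i a * G j b * G k c) =
      ∑ i, ∑ j, ∑ m, (∑ k, p k n m * G k c) * (p i j m * (G i a * G j b)) -
        ∑ i, ∑ j, (d j n * G j b) * (G i a * G i c) +
        ∑ i, ∑ j, (d i n * G i a) * (G j b * G j c) := by
    rw [← Finset.sum_sub_distrib, ← Finset.sum_add_distrib]
    refine Finset.sum_congr rfl fun i _ => ?_
    rw [← Finset.sum_sub_distrib, ← Finset.sum_add_distrib]
    exact Finset.sum_congr rfl fun j _ => h0 i j
  have h2 : ∑ i, ∑ j, ∑ m, (∑ k, p k n m * G k c) * (p i j m * (G i a * G j b)) =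
      ∑ m, (∑ r, p a b r * p c m r) * G n m := by
    calc ∑ i, ∑ j, ∑ m, (∑ k, p k n m * G k c) * (p i j m * (G i a * G j b))
        = ∑ m, ∑ i, ∑ j, (∑ k, p k n m * G k c) * (p i j m * (G i a * G j b)) := sc3 _
      _ = ∑ m, (∑ k, p k n m * G k c) * ∑ r, p a b r * G m r := by
          refine Finset.sum_congr rfl fun m _ => ?_
          rw [← D.i2 a b m, Finset.mul_sum]
          exact Finset.sum_congr rfl fun i _ => by rw [Finset.mul_sum]
      _ = ∑ m, (∑ s, (∑ t, p c s t * G m t) * G n s) * ∑ r, p a b r * G m r :=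
          Finset.sum_congr rfl fun m _ => by rw [D.i1]
      _ = ∑ m, ∑ s, ∑ t, ∑ r, p c s t * G n s * p a b r * (G m t * G m r) := by
          refine Finset.sum_congr rfl fun m _ => ?_
          rw [Finset.sum_mul]
          refine Finset.sum_congr rfl fun s _ => ?_
          rw [mul_assoc, Finset.sum_mul]
          refine Finset.sum_congr rfl fun t _ => ?_
          rw [Finset.mul_sum, Finset.mul_sum]
          exact Finset.sum_congr rfl fun r _ => by ring
      _ = ∑ s, ∑ t, ∑ r, ∑ m, p c s t * G n s * p a b r * (G m t * G m r) := (sc4 _).symm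
      _ = ∑ s, (∑ r, p a b r * p c s r) * G n s := by
          refine Finset.sum_congr rfl fun s _ => ?_
          rw [Finset.sum_mul, Finset.sum_comm]
          refine Finset.sum_congr rfl fun r _ => ?_
          calc ∑ t, ∑ m, p c s t * G n s * p a b r * (G m t * G m r)
              = ∑ t, d r t * (p c s t * G n s * p a b r) := by
                refine Finset.sum_congr rfl fun t _ => ?_
                rw [← Finset.mul_sum, D.o1, d_symm t r]
                ring
            _ = _ := by rw [sum_d]; ring
  have h3 : ∑ i, ∑ j, (d j n * G j b) * (G i a * G i c) = d a c * G n b := by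
    calc ∑ i, ∑ j, (d j n * G j b) * (G i a * G i c)
        = ∑ i, (∑ j, d j n * G j b) * (G i a * G i c) := by
          refine Finset.sum_congr rfl fun i _ => ?_
          rw [Finset.sum_mul]
      _ = _ := by
          rw [← Finset.mul_sum, sum_d', D.o1]
          ring
  have h4 : ∑ i, ∑ j, (d i n * G i a) * (G j b * G j c) = d b c * G n a := by
    calc ∑ i, ∑ j, (d i n * G i a) * (G j b * G j c)
        = ∑ i, (d i n * G i a) * d b c := by
          refine Finset.sum_congr rfl fun i _ => ?_
          rw [← Finset.mul_sum, D.o1]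
      _ = _ := by
          rw [← Finset.sum_mul, sum_d']
          ring
  rw [h1, h2, h3, h4]
  have h5 : ∀ m, q a b c m * G n m = (∑ r, p a b r * p c m r) * G n m -
      d b m * (d a c * G n m) + d a m * (d b c * G n m) := by
    intro m
    rw [D.qd]
    ring
  calc ∑ m, (∑ r, p a b r * p c m r) * G n m - d a c * G n b + d b c * G n a
      = ∑ m, ((∑ r, p a b r * p c m r) * G n m - d b m * (d a c * G n m) +
        d a m * (d b c * G n m)) := by
        rw [Finset.sum_add_distrib, Finset.sum_sub_distrib, sum_d, sum_d]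
    _ = _ := Finset.sum_congr rfl fun m _ => (h5 m).symm

/-- the complex `nn` -/
def NN (q : Fin 7 → Fin 7 → Fin 7 → Fin 7 → ℂ) (A B : Fin 7 → Fin 7 → ℂ) : ℂ :=
  ∑ i, ∑ j, ∑ a, ∑ b, q i j a b * A i a * B j b

theorem nn_ct (q : Fin 7 → Fin 7 → Fin 7 → Fin 7 → ℂ) :
    NN q G G = CC G q := by
  unfold NN CC ct
  refine Finset.sum_congr rfl fun i _ => ?_
  rw [Finset.sum_comm]
  refine Finset.sum_congr rfl fun a _ => ?_
  rw [Finset.sum_mul]
  refine Finset.sum_congr rfl fun j _ => ?_
  rw [Finset.sum_mul]
  exact Finset.sum_congr rfl fun b _ => by ring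

theorem nn_c2 (q : Fin 7 → Fin 7 → Fin 7 → Fin 7 → ℂ) :
    NN q (sq G) G = C2 G q := by
  unfold NN C2 cs ct
  refine Finset.sum_congr rfl fun i _ => ?_
  rw [Finset.sum_comm]
  refine Finset.sum_congr rfl fun a _ => ?_
  rw [Finset.sum_mul]
  refine Finset.sum_congr rfl fun j _ => ?_
  rw [Finset.sum_mul]
  exact Finset.sum_congr rfl fun b _ => by ring

theorem Dat.nn_symm (D : Dat G p q) (A B : Fin 7 → Fin 7 → ℂ) : NN q A B = NN q B A := by
  unfold NN
  rw [Finset.sum_comm]
  refine Finset.sum_congr rfl fun i _ => Finset.sum_congr rfl fun j _ => ?_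
  rw [Finset.sum_comm]
  refine Finset.sum_congr rfl fun a _ => Finset.sum_congr rfl fun b _ => ?_
  rw [D.b1, D.b3]
  ring

theorem Dat.t1 (D : Dat G p q) : NN q G G = 6 * P1 G - P1 G ^ 2 + P2 G := by
  have e1 : ct G (fun i a => ct G (fun j b => ∑ m, p i j m * p a b m)) = 6 * P1 G := by
    calc ct G (fun i a => ct G (fun j b => ∑ m, p i j m * p a b m))
        = ∑ m, ct G (fun i a => ct G (fun j b => p i j m * p a b m)) := by
          rw [← ct_sum]
          congr 1
          funext i a
          rw [← ct_sum]
      _ = ∑ m, ∑ c, G m c * (6 * d m c) := by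
          refine Finset.sum_congr rfl fun m _ => ?_
          calc ct G (fun i a => ct G (fun j b => p i j m * p a b m))
              = ∑ i, ∑ a, ∑ j, ∑ b, p a b m * (p i j m * (G i a * G j b)) := by
                unfold ct
                refine Finset.sum_congr rfl fun i _ => Finset.sum_congr rfl fun a _ => ?_
                rw [Finset.sum_mul]
                refine Finset.sum_congr rfl fun j _ => ?_
                rw [Finset.sum_mul]
                exact Finset.sum_congr rfl fun b _ => by ring
            _ = ∑ a, ∑ i, ∑ j, ∑ b, p a b m * (p i j m * (G i a * G j b)) := Finset.sum_comm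
            _ = ∑ a, ∑ b, ∑ i, ∑ j, p a b m * (p i j m * (G i a * G j b)) :=
                Finset.sum_congr rfl fun a _ => sc3 _
            _ = ∑ a, ∑ b, p a b m * ∑ c, p a b c * G m c := by
                refine Finset.sum_congr rfl fun a _ => Finset.sum_congr rfl fun b _ => ?_
                rw [← D.i2, Finset.mul_sum]
                exact Finset.sum_congr rfl fun i _ => by rw [Finset.mul_sum]
            _ = ∑ a, ∑ b, ∑ c, p a b m * (p a b c * G m c) := by
                refine Finset.sum_congr rfl fun a _ => Finset.sum_congr rfl fun b _ => ?_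
                rw [Finset.mul_sum]
            _ = ∑ c, ∑ a, ∑ b, p a b m * (p a b c * G m c) := sc3 _
            _ = ∑ c, G m c * (6 * d m c) := by
                refine Finset.sum_congr rfl fun c _ => ?_
                rw [← D.c6 m c, Finset.mul_sum]
                refine Finset.sum_congr rfl fun a _ => ?_
                rw [Finset.mul_sum]
                refine Finset.sum_congr rfl fun b _ => ?_
                have h1 : p m a b = p a b m := by rw [D.a2 a m b, D.a1 a m b]
                have h2 : p c a b = p a b c := by rw [D.a2 a c b, D.a1 a c b]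
                rw [h1, h2]
                ring
      _ = 6 * P1 G := by
          unfold P1
          rw [Finset.mul_sum]
          refine Finset.sum_congr rfl fun m _ => ?_
          calc ∑ c, G m c * (6 * d m c) = ∑ c, d m c * (6 * G m c) :=
                Finset.sum_congr rfl fun c _ => by ring
            _ = _ := sum_d _ _
  have e2 : ct G (fun i a => ct G (fun j b => ∑ m, p i j m * p a b m)) =
      NN q G G + P1 G * P1 G - P2 G := by
    have h : ∀ i a j b, ∑ m, p i j m * p a b m = q i j a b + d i a * (d j b * 1) +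
        (-1) * (d i b * d j a) := by
      intro i a j b
      rw [D.qd]
      ring
    calc ct G (fun i a => ct G (fun j b => ∑ m, p i j m * p a b m))
        = ct G (fun i a => ct G (fun j b => q i j a b + d i a * (d j b * 1) +
          (-1) * (d i b * d j a))) := by
          congr 1
          funext i a
          congr 1
          funext j b
          exact h i a j b
      _ = ct G (fun i a => ct G (fun j b => q i j a b) + d i a * (P1 G * 1) +
          (-1) * ct G (fun j b => d i b * d j a)) := by
          congr 1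
          funext i a
          rw [ct_add, ct_add, ct_mul, ct_mul, ct_d]
      _ = _ := by
          rw [ct_add, ct_add, ct_mul, ct_d, ctA G d, nn_ct]
          have h3 : cs G d = P2 G := by
            unfold cs P2
            exact Finset.sum_congr rfl fun j _ => sum_d _ _
          rw [h3]
          unfold CC
          ring
  rw [e1] at e2
  linear_combination -e2

theorem cs_mul_right : (∑ j, ∑ a, sq G j a * G a j) = P3 G := rfl

theorem Dat.cyc (D : Dat G p q) (i j k : Fin 7) : p i j k = p j k i := by
  rw [D.a2 j i k, D.a1 i j k, neg_neg]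

theorem Dat.t2 (D : Dat G p q) :
    NN q G (sq G) = P1 G ^ 2 - 7 - NN q G G - P1 G * P2 G + P3 G := by
  -- first evaluation
  have e1 : ∑ i, ∑ j, ∑ a, ∑ b, (∑ m, p i j m * p a b m) * G i a * sq G j b =
      NN q G (sq G) + P1 G * P2 G - P3 G := by
    have h : ∀ i j a b, (∑ m, p i j m * p a b m) * G i a * sq G j b =
        q i j a b * G i a * sq G j b + d i a * (G i a * (d j b * sq G j b)) -
          d i b * (G i a * (d j a * sq G j b)) := by
      intro i j a b
      rw [D.qd]
      ring
    calc ∑ i, ∑ j, ∑ a, ∑ b, (∑ m, p i j m * p a b m) * G i a * sq G j b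
        = ∑ i, ∑ j, ∑ a, ∑ b, (q i j a b * G i a * sq G j b +
          d i a * (G i a * (d j b * sq G j b)) -
          d i b * (G i a * (d j a * sq G j b))) := by
          refine Finset.sum_congr rfl fun i _ => Finset.sum_congr rfl fun j _ =>
            Finset.sum_congr rfl fun a _ => Finset.sum_congr rfl fun b _ => h i j a b
      _ = ∑ i, ∑ j, (∑ a, ∑ b, q i j a b * G i a * sq G j b +
          G i i * sq G j j - G i j * sq G j i) := by
          refine Finset.sum_congr rfl fun i _ => Finset.sum_congr rfl fun j _ => ?_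
          have h1 : ∀ a, ∑ b, (q i j a b * G i a * sq G j b +
              d i a * (G i a * (d j b * sq G j b)) - d i b * (G i a * (d j a * sq G j b))) =
              ∑ b, q i j a b * G i a * sq G j b + d i a * (G i a * sq G j j) -
              d j a * (G i a * sq G j i) := by
            intro a
            rw [Finset.sum_sub_distrib, Finset.sum_add_distrib, sum_d, ← Finset.mul_sum,
              ← Finset.mul_sum, sum_d]
            ring
          calc ∑ a, ∑ b, (q i j a b * G i a * sq G j b +
              d i a * (G i a * (d j b * sq G j b)) - d i b * (G i a * (d j a * sq G j b))) =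
              ∑ a, (∑ b, q i j a b * G i a * sq G j b + d i a * (G i a * sq G j j) -
              d j a * (G i a * sq G j i)) := Finset.sum_congr rfl fun a _ => h1 a
            _ = _ := by
              rw [Finset.sum_sub_distrib, Finset.sum_add_distrib, sum_d, sum_d]
      _ = NN q G (sq G) + P1 G * P2 G - P3 G := by
          unfold NN P1 P2 P3
          rw [Finset.sum_mul]
          rw [show (∑ i, ∑ j, sq G i j * G j i) = ∑ i, ∑ j, G i j * sq G j i by
            rw [Finset.sum_comm]
            exact Finset.sum_congr rfl fun i _ => Finset.sum_congr rfl fun j _ => by ring]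
          rw [← Finset.sum_add_distrib, ← Finset.sum_sub_distrib]
          refine Finset.sum_congr rfl fun i _ => ?_
          rw [Finset.mul_sum, ← Finset.sum_add_distrib, ← Finset.sum_sub_distrib]
  -- second evaluation
  have e2 : ∑ i, ∑ j, ∑ a, ∑ b, (∑ m, p i j m * p a b m) * G i a * sq G j b =
      P1 G ^ 2 - 7 - NN q G G := by
    calc ∑ i, ∑ j, ∑ a, ∑ b, (∑ m, p i j m * p a b m) * G i a * sq G j b
        = ∑ i, ∑ j, ∑ a, ∑ b, ∑ m, ∑ c, (p a b m * G c b) * (p i j m * (G i a * G j c)) := by
          refine Finset.sum_congr rfl fun i _ => Finset.sum_congr rfl fun j _ =>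
            Finset.sum_congr rfl fun a _ => Finset.sum_congr rfl fun b _ => ?_
          rw [Finset.sum_mul, Finset.sum_mul]
          refine Finset.sum_congr rfl fun m _ => ?_
          unfold sq
          rw [Finset.mul_sum]
          exact Finset.sum_congr rfl fun c _ => by ring
      _ = ∑ a, ∑ b, ∑ m, ∑ c, ∑ i, ∑ j, (p a b m * G c b) * (p i j m * (G i a * G j c)) := by
          have s1 : ∀ i j, ∑ a, ∑ b, ∑ m, ∑ c, (p a b m * G c b) * (p i j m * (G i a * G j c)) =
              ∑ x : Fin 7 × Fin 7 × Fin 7 × Fin 7, (p x.1 x.2.1 x.2.2.1 * G x.2.2.2 x.2.1) *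
                (p i j x.2.2.1 * (G i x.1 * G j x.2.2.2)) := by
            intro i j
            simp only [Fintype.sum_prod_type]
          have s2 : ∑ a, ∑ b, ∑ m, ∑ c, ∑ i, ∑ j, (p a b m * G c b) *
              (p i j m * (G i a * G j c)) =
              ∑ x : Fin 7 × Fin 7 × Fin 7 × Fin 7, ∑ i, ∑ j,
                (p x.1 x.2.1 x.2.2.1 * G x.2.2.2 x.2.1) *
                (p i j x.2.2.1 * (G i x.1 * G j x.2.2.2)) := by
            simp only [Fintype.sum_prod_type]
          rw [s2]
          have s3 := scx (fun (i j : Fin 7) (x : Fin 7 × Fin 7 × Fin 7 × Fin 7) =>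
            (p x.1 x.2.1 x.2.2.1 * G x.2.2.2 x.2.1) *
                (p i j x.2.2.1 * (G i x.1 * G j x.2.2.2)))
          refine Eq.trans ?_ s3
          refine Finset.sum_congr rfl fun i _ => ?_
          refine Finset.sum_congr rfl fun j _ => ?_
          exact s1 i j
      _ = ∑ a, ∑ b, ∑ m, ∑ c, (p a b m * G c b) * ∑ n, p a c n * G m n := by
          refine Finset.sum_congr rfl fun a _ => Finset.sum_congr rfl fun b _ =>
            Finset.sum_congr rfl fun m _ => Finset.sum_congr rfl fun c _ => ?_
          rw [← D.i2, Finset.mul_sum]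
          exact Finset.sum_congr rfl fun i _ => by rw [Finset.mul_sum]
      _ = ∑ a, ∑ b, ∑ m, ∑ c, ∑ n, G c b * G m n * (p c n a * p b m a) := by
          refine Finset.sum_congr rfl fun a _ => Finset.sum_congr rfl fun b _ =>
            Finset.sum_congr rfl fun m _ => Finset.sum_congr rfl fun c _ => ?_
          rw [Finset.mul_sum]
          refine Finset.sum_congr rfl fun n _ => ?_
          rw [D.cyc a b m, D.cyc a c n]
          ring
      _ = ∑ b, ∑ m, ∑ c, ∑ n, G c b * G m n * ∑ a, p c n a * p b m a := by
          have s2 : ∑ a, ∑ b, ∑ m, ∑ c, ∑ n, G c b * G m n * (p c n a * p b m a) =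
              ∑ a, ∑ x : Fin 7 × Fin 7 × Fin 7 × Fin 7,
                G x.2.2.1 x.1 * G x.2.1 x.2.2.2 * (p x.2.2.1 x.2.2.2 a * p x.1 x.2.1 a) := by
            simp only [Fintype.sum_prod_type]
          have s3 : ∑ b, ∑ m, ∑ c, ∑ n, G c b * G m n * ∑ a, p c n a * p b m a =
              ∑ x : Fin 7 × Fin 7 × Fin 7 × Fin 7,
                G x.2.2.1 x.1 * G x.2.1 x.2.2.2 *
                  ∑ a, (p x.2.2.1 x.2.2.2 a * p x.1 x.2.1 a) := by
            simp only [Fintype.sum_prod_type]
          rw [s2, s3, Finset.sum_comm]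
          exact Finset.sum_congr rfl fun x _ => by rw [Finset.mul_sum]
      _ = ∑ b, ∑ m, ∑ c, ∑ n, (- (q m c n b * G m n * G c b) +
            d n m * (d c b * (G c b * G m n)) - d m c * (d n b * (G c b * G m n))) := by
          refine Finset.sum_congr rfl fun b _ => Finset.sum_congr rfl fun m _ =>
            Finset.sum_congr rfl fun c _ => Finset.sum_congr rfl fun n _ => ?_
          have h1 : ∑ a, p c n a * p b m a = q c n b m + d c b * d n m - d c m * d n b := by
            rw [D.qd]; ring
          have h2 : q c n b m = - q m c n b := by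
            rw [D.b3 c n m b, D.b2 c m n b, D.b1 m c n b]
            ring
          rw [h1, h2, d_symm c m]
          ring
      _ = P1 G ^ 2 - 7 - NN q G G := by
          have h1 : ∀ b m, ∑ c, ∑ n, (- (q m c n b * G m n * G c b) +
            d n m * (d c b * (G c b * G m n)) - d m c * (d n b * (G c b * G m n))) =
            - (∑ c, ∑ n, q m c n b * G m n * G c b) + G b b * G m m - G m b * G m b := by
            intro b m
            have h2 : ∀ c, ∑ n, (- (q m c n b * G m n * G c b) +
              d n m * (d c b * (G c b * G m n)) - d m c * (d n b * (G c b * G m n))) =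
              - (∑ n, q m c n b * G m n * G c b) + d c b * (G c b * G m m) -
                d m c * (G c b * G m b) := by
              intro c
              rw [Finset.sum_sub_distrib, Finset.sum_add_distrib, sum_d', Finset.sum_neg_distrib,
                ← Finset.mul_sum, sum_d']
            calc ∑ c, ∑ n, (- (q m c n b * G m n * G c b) +
              d n m * (d c b * (G c b * G m n)) - d m c * (d n b * (G c b * G m n))) =
                ∑ c, (- (∑ n, q m c n b * G m n * G c b) + d c b * (G c b * G m m) -
                d m c * (G c b * G m b)) := Finset.sum_congr rfl fun c _ => h2 c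
              _ = _ := by
                rw [Finset.sum_sub_distrib, Finset.sum_add_distrib, sum_d', sum_d,
                  Finset.sum_neg_distrib]
          calc ∑ b, ∑ m, ∑ c, ∑ n, (- (q m c n b * G m n * G c b) +
            d n m * (d c b * (G c b * G m n)) - d m c * (d n b * (G c b * G m n)))
              = ∑ b, ∑ m, (- (∑ c, ∑ n, q m c n b * G m n * G c b) + G b b * G m m -
                G m b * G m b) :=
                Finset.sum_congr rfl fun b _ => Finset.sum_congr rfl fun m _ => h1 b m
            _ = ∑ b, (- (∑ m, ∑ c, ∑ n, q m c n b * G m n * G c b) + G b b * P1 G - 1) := by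
                refine Finset.sum_congr rfl fun b _ => ?_
                rw [Finset.sum_sub_distrib, Finset.sum_add_distrib, Finset.sum_neg_distrib,
                  ← Finset.mul_sum, D.o1]
                simp [d, P1]
            _ = - (∑ b, ∑ m, ∑ c, ∑ n, q m c n b * G m n * G c b) + P1 G * P1 G - 7 := by
                rw [Finset.sum_sub_distrib, Finset.sum_add_distrib, Finset.sum_neg_distrib,
                  ← Finset.sum_mul]
                simp [P1]
            _ = _ := by
                have h3 : ∑ b, ∑ m, ∑ c, ∑ n, q m c n b * G m n * G c b = NN q G G := by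
                  unfold NN
                  exact (sc4 _).symm
                rw [h3]
                ring
  rw [e1] at e2
  linear_combination e2

theorem Dat.T_left (D : Dat G p q) :
    T G (fun i j k a b c => ∑ n, q i j k n * q a b c n) = 24 * P1 G := by
  rw [T_eq]
  calc ∑ a, ∑ b, ∑ c, ∑ i, ∑ j, ∑ k, (∑ n, q i j k n * q a b c n) * (G i a * G j b * G k c)
      = ∑ a, ∑ b, ∑ c, ∑ n, q a b c n * ∑ m, q a b c m * G n m := by
        refine Finset.sum_congr rfl fun a _ => ?_
        refine Finset.sum_congr rfl fun b _ => ?_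
        refine Finset.sum_congr rfl fun c _ => ?_
        calc ∑ i, ∑ j, ∑ k, (∑ n, q i j k n * q a b c n) * (G i a * G j b * G k c)
            = ∑ i, ∑ j, ∑ k, ∑ n, q a b c n * (q i j k n * (G i a * G j b * G k c)) := by
              refine Finset.sum_congr rfl fun i _ => ?_
              refine Finset.sum_congr rfl fun j _ => ?_
              refine Finset.sum_congr rfl fun k _ => ?_
              rw [Finset.sum_mul]
              exact Finset.sum_congr rfl fun n _ => by ring
          _ = ∑ n, ∑ i, ∑ j, ∑ k, q a b c n * (q i j k n * (G i a * G j b * G k c)) := sc4 _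
          _ = ∑ n, q a b c n * ∑ m, q a b c m * G n m := by
              refine Finset.sum_congr rfl fun n _ => ?_
              rw [← D.j4, Finset.mul_sum]
              refine Finset.sum_congr rfl fun i _ => ?_
              rw [Finset.mul_sum]
              refine Finset.sum_congr rfl fun j _ => ?_
              rw [Finset.mul_sum]
    _ = ∑ n, ∑ a, ∑ b, ∑ c, q a b c n * ∑ m, q a b c m * G n m := sc4 _
    _ = ∑ n, ∑ m, d n m * (24 * G n m) := by
        refine Finset.sum_congr rfl fun n _ => ?_
        calc ∑ a, ∑ b, ∑ c, q a b c n * ∑ m, q a b c m * G n m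
            = ∑ a, ∑ b, ∑ c, ∑ m, G n m * (q a b c n * q a b c m) := by
              refine Finset.sum_congr rfl fun a _ => ?_
              refine Finset.sum_congr rfl fun b _ => ?_
              refine Finset.sum_congr rfl fun c _ => ?_
              rw [Finset.mul_sum]
              exact Finset.sum_congr rfl fun n _ => by ring
          _ = ∑ m, ∑ a, ∑ b, ∑ c, G n m * (q a b c n * q a b c m) := sc4 _
          _ = ∑ m, d n m * (24 * G n m) := by
              refine Finset.sum_congr rfl fun m _ => ?_
              have h := D.c24 n m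
              calc ∑ a, ∑ b, ∑ c, G n m * (q a b c n * q a b c m)
                  = G n m * ∑ a, ∑ b, ∑ c, q a b c n * q a b c m := by
                    rw [Finset.mul_sum]
                    refine Finset.sum_congr rfl fun a _ => ?_
                    rw [Finset.mul_sum]
                    refine Finset.sum_congr rfl fun b _ => ?_
                    rw [Finset.mul_sum]
                _ = _ := by rw [h]; ring
    _ = 24 * P1 G := by
        unfold P1
        rw [Finset.mul_sum]
        exact Finset.sum_congr rfl fun n _ => sum_d _ _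

theorem Dat.T_pp (D : Dat G p q) :
    T G (fun i j k a b c => p i j k * p a b c) = 42 := by
  rw [T_eq]
  calc ∑ a, ∑ b, ∑ c, ∑ i, ∑ j, ∑ k, (p i j k * p a b c) * (G i a * G j b * G k c)
      = ∑ a, ∑ b, ∑ c, p a b c * p a b c := by
        refine Finset.sum_congr rfl fun a _ => ?_
        refine Finset.sum_congr rfl fun b _ => ?_
        refine Finset.sum_congr rfl fun c _ => ?_
        calc ∑ i, ∑ j, ∑ k, (p i j k * p a b c) * (G i a * G j b * G k c)
            = p a b c * ∑ i, ∑ j, ∑ k, p i j k * (G i a * G j b * G k c) := by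
              rw [Finset.mul_sum]
              refine Finset.sum_congr rfl fun i _ => ?_
              rw [Finset.mul_sum]
              refine Finset.sum_congr rfl fun j _ => ?_
              rw [Finset.mul_sum]
              refine Finset.sum_congr rfl fun k _ => ?_
              ring
          _ = _ := by rw [D.i3]
    _ = ∑ a : Fin 7, (6 : ℂ) := by
        refine Finset.sum_congr rfl fun a _ => ?_
        rw [D.c6]
        simp [d]
    _ = 42 := by
        simp
        norm_num

theorem T_smul_neg (X : Fin 7 → Fin 7 → Fin 7 → Fin 7 → ℂ)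
    (h : ∀ j k a c, X j k a c = - q j k a c) : C2 G X = - C2 G q := by
  have h1 : X = fun j k a c => (-1) * q j k a c := by
    funext j k a c
    rw [h]; ring
  rw [h1]
  unfold C2 cs
  rw [← Finset.sum_neg_distrib]
  refine Finset.sum_congr rfl fun j _ => ?_
  rw [← Finset.sum_neg_distrib]
  refine Finset.sum_congr rfl fun a _ => ?_
  show ct G (fun k c => (-1) * q j k a c) * sq G j a = -(ct G (fun k c => q j k a c) * sq G j a)
  rw [ct_mul]
  ring

theorem CC_dd : CC G (fun j k b c => d j b * d k c) = P1 G * P1 G := by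
  unfold CC
  calc ct G (fun j b => ct G (fun k c => d j b * d k c))
      = ct G (fun j b => d j b * ct G (fun k c => d k c * 1)) := by
        congr 1
        funext j b
        rw [← ct_mul]
        congr 1
        funext k c
        ring
    _ = _ := by rw [ct_d, ct_d]; ring

theorem cs_d : cs G d = P2 G := by
  unfold cs P2
  exact Finset.sum_congr rfl fun j _ => sum_d _ _

theorem CC_off : CC G (fun j k b c => d j c * d k b) = P2 G := by
  unfold CC
  rw [ctA G d, cs_d]

theorem C2_dd : C2 G (fun j k a c => d j a * d k c) = P1 G * P2 G := by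
  unfold C2
  have h : (fun j a => ct G (fun k c => d j a * d k c)) = fun j a => d j a * P1 G := by
    funext j a
    rw [ct_mul]
    have := ct_d G 1
    simp only [mul_one] at this
    rw [this]
  rw [h]
  unfold cs P2
  rw [Finset.mul_sum]
  refine Finset.sum_congr rfl fun j _ => ?_
  calc ∑ a, d j a * P1 G * sq G j a = ∑ a, d j a * (P1 G * sq G j a) :=
        Finset.sum_congr rfl fun a _ => by ring
    _ = _ := sum_d _ _

theorem C2_off : C2 G (fun j k a c => d j c * d k a) = P3 G := by
  unfold C2
  have h : (fun j a => ct G (fun k c => d j c * d k a)) = fun j a => G a j := by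
    funext j a
    unfold ct
    calc ∑ k, ∑ c, d j c * d k a * G k c = ∑ k, d k a * G k j := by
          refine Finset.sum_congr rfl fun k _ => ?_
          calc ∑ c, d j c * d k a * G k c = ∑ c, d j c * (d k a * G k c) :=
                Finset.sum_congr rfl fun c _ => by ring
            _ = _ := sum_d _ _
      _ = _ := sum_d' a (fun k => G k j)
  rw [h]
  unfold cs P3
  refine Finset.sum_congr rfl fun j _ => ?_
  exact Finset.sum_congr rfl fun a _ => by ring

theorem Dat.t3 (D : Dat G p q) :
    24 * P1 G = P1 G ^ 3 - 3 * P1 G * P2 G + 2 * P3 G - 42 + 3 * P1 G * NN q G G -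
      6 * NN q G (sq G) := by
  have hN2 : NN q G (sq G) = C2 G q := by rw [D.nn_symm, nn_c2]
  rw [hN2, nn_ct, ← D.T_left]
  have hs : (fun i j k a b c => ∑ n, q i j k n * q a b c n) = fun i j k a b c =>
      d i a * (d j b * d k c - d j c * d k b) - d i b * (d j a * d k c - d j c * d k a) +
      d i c * (d j a * d k b - d j b * d k a) - p i j k * p a b c +
      (d i a * q j k b c + d i b * q j k c a + d i c * q j k a b) +
      (d j a * q k i b c + d j b * q k i c a + d j c * q k i a b) +
      (d k a * q i j b c + d k b * q i j c a + d k c * q i j a b) := by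
    funext i j k a b c
    exact D.six i j k a b c
  rw [hs]
  -- the determinant
  have d1 : T G (fun i j k a b c => d i a * (d j b * d k c - d j c * d k b)) =
      P1 G * (P1 G * P1 G) - P1 G * P2 G := by
    have : (fun i j k a b c => d i a * (d j b * d k c - d j c * d k b)) = fun i j k a b c =>
        d i a * (fun j k b c => d j b * d k c) j k b c -
        d i a * (fun j k b c => d j c * d k b) j k b c := by
      funext i j k a b c
      ring
    rw [this, T_sub, T_diag, T_diag, CC_dd, CC_off]
  have d2 : T G (fun i j k a b c => d i b * (d j a * d k c - d j c * d k a)) =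
      P1 G * P2 G - P3 G := by
    have : (fun i j k a b c => d i b * (d j a * d k c - d j c * d k a)) = fun i j k a b c =>
        d i b * (fun j k a c => d j a * d k c) j k a c -
        d i b * (fun j k a c => d j c * d k a) j k a c := by
      funext i j k a b c
      ring
    rw [this, T_sub, T_off, T_off, C2_dd, C2_off]
  have d3 : T G (fun i j k a b c => d i c * (d j a * d k b - d j b * d k a)) =
      P3 G - P1 G * P2 G := by
    rw [T_s23]
    have : (fun i j k a b c => d i b * (d k a * d j c - d k c * d j a)) = fun i j k a b c =>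
        d i b * (fun j k a c => d j c * d k a) j k a c -
        d i b * (fun j k a c => d j a * d k c) j k a c := by
      funext i j k a b c
      ring
    rw [this, T_sub, T_off, T_off, C2_dd, C2_off]
  -- the nine terms
  have qc : ∀ j k a c, q j k c a = - q j k a c := fun j k a c => D.b3 j k a c
  have qcc : ∀ j k a c, q k j a c = - q j k a c := fun j k a c => D.b1 j k a c
  have n1 : T G (fun i j k a b c => d i a * q j k b c) = P1 G * CC G q := T_diag G q
  have n2 : T G (fun i j k a b c => d i b * q j k c a) = - C2 G q := by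
    rw [T_off G (fun j k a c => q j k c a)]
    exact T_smul_neg _ qc
  have n3 : T G (fun i j k a b c => d i c * q j k a b) = - C2 G q := by
    rw [T_s23, T_off G (fun j k a c => q k j a c)]
    exact T_smul_neg _ qcc
  have n4 : T G (fun i j k a b c => d j a * q k i b c) = - C2 G q := by
    rw [T_s12, T_off G (fun j k a c => q k j a c)]
    exact T_smul_neg _ qcc
  have n5 : T G (fun i j k a b c => d j b * q k i c a) = P1 G * CC G q := by
    rw [T_s12]
    have : (fun (i j k a b c : Fin 7) => d i a * q k j c b) = fun i j k a b c =>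
        d i a * q j k b c := by
      funext i j k a b c
      rw [D.b1, D.b3]; ring
    rw [this, n1]
  have n6 : T G (fun i j k a b c => d j c * q k i a b) = - C2 G q := by
    rw [T_s12, T_s23, T_off G (fun j k a c => q j k c a)]
    exact T_smul_neg _ qc
  have n7 : T G (fun i j k a b c => d k a * q i j b c) = - C2 G q := by
    rw [T_s23, T_s12, T_off G (fun j k a c => q j k c a)]
    exact T_smul_neg _ qc
  have n8 : T G (fun i j k a b c => d k b * q i j c a) = - C2 G q := by
    rw [T_s23, T_s12, T_s23, T_off G (fun j k a c => q k j a c)]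
    exact T_smul_neg _ qcc
  have n9 : T G (fun i j k a b c => d k c * q i j a b) = P1 G * CC G q := by
    rw [T_s23, T_s12]
    have : (fun (i j k a b c : Fin 7) => d i a * q j k b c) = fun i j k a b c =>
        d i a * q j k b c := rfl
    rw [n1]
  rw [T_add, T_add, T_add, T_sub, T_add, T_sub, d1, d2, d3, D.T_pp, T_add, T_add, n1, n2, n3,
    T_add, T_add, n4, n5, n6, T_add, T_add, n7, n8, n9]
  ring

/-- cast of the symbol -/
theorem cast_dl (i j : Fin 7) : ((dl i j : ℤ) : ℂ) = d i j := by
  unfold dl d
  split_ifs <;> simp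

/-- cast of the four-form -/
theorem cast_ps4 (i j k l : Fin 7) : ((ps4 i j k l : ℤ) : ℂ) =
    ∑ m, (ph i j m : ℂ) * (ph k l m : ℂ) - d i k * d j l + d i l * d j k := by
  unfold ps4
  push_cast
  simp only [cast_dl]

theorem phi_basis (a b c : Fin 7) :
    Phi (fun i => d i a) (fun i => d i b) (fun i => d i c) = (ph a b c : ℂ) := by
  unfold Phi
  calc ∑ i, ∑ j, ∑ k, (ph i j k : ℂ) * d i a * d j b * d k c
      = ∑ i, ∑ j, (ph i j c : ℂ) * d i a * d j b := by
        refine Finset.sum_congr rfl fun i _ => ?_
        refine Finset.sum_congr rfl fun j _ => ?_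
        calc ∑ k, (ph i j k : ℂ) * d i a * d j b * d k c
            = ∑ k, d k c * ((ph i j k : ℂ) * d i a * d j b) :=
              Finset.sum_congr rfl fun k _ => by ring
          _ = _ := sum_d' c (fun k => (ph i j k : ℂ) * d i a * d j b)
    _ = ∑ i, (ph i b c : ℂ) * d i a := by
        refine Finset.sum_congr rfl fun i _ => ?_
        calc ∑ j, (ph i j c : ℂ) * d i a * d j b
            = ∑ j, d j b * ((ph i j c : ℂ) * d i a) :=
              Finset.sum_congr rfl fun k _ => by ring
          _ = _ := sum_d' b (fun j => (ph i j c : ℂ) * d i a)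
    _ = _ := by
        calc ∑ i, (ph i b c : ℂ) * d i a
            = ∑ i, d i a * (ph i b c : ℂ) :=
              Finset.sum_congr rfl fun k _ => by ring
          _ = _ := sum_d' a (fun i => (ph i b c : ℂ))

theorem mulVec_d (g : Matrix (Fin 7) (Fin 7) ℂ) (a : Fin 7) :
    g *ᵥ (fun i => d i a) = fun i => g i a := by
  funext i
  show ∑ j, g i j * d j a = g i a
  calc ∑ j, g i j * d j a = ∑ j, d j a * g i j := Finset.sum_congr rfl fun j _ => by ring
    _ = _ := sum_d' a (fun j => g i j)

theorem mkDat (H : PHF) (g : SU 7) (hg : g ∈ G2) :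
    Dat (fun i j => g.1 i j) (fun i j k => (ph i j k : ℂ)) (fun i j k l => (ps4 i j k l : ℂ)) where
  o1 := by
    intro a b
    have h1 : star g.1 * g.1 = 1 :=
      Matrix.mem_unitaryGroup_iff'.1 (Matrix.mem_specialUnitaryGroup_iff.1 g.2).1
    have h2 := congrFun (congrFun h1 a) b
    rw [Matrix.mul_apply, Matrix.one_apply] at h2
    unfold d
    rw [← h2]
    refine Finset.sum_congr rfl fun i _ => ?_
    have h3 : (star g.1) a i = g.1 i a := by
      rw [Matrix.star_apply]
      exact hg.1 i a
    rw [h3]
  o2 := by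
    intro i j
    have h1 : g.1 * star g.1 = 1 :=
      Matrix.mem_unitaryGroup_iff.1 (Matrix.mem_specialUnitaryGroup_iff.1 g.2).1
    have h2 := congrFun (congrFun h1 i) j
    rw [Matrix.mul_apply, Matrix.one_apply] at h2
    unfold d
    rw [← h2]
    refine Finset.sum_congr rfl fun a _ => ?_
    have h3 : (star g.1) a j = g.1 j a := by
      rw [Matrix.star_apply]
      exact hg.1 j a
    rw [h3]
  i3 := by
    intro a b c
    have h := hg.2 (fun i => d i a) (fun i => d i b) (fun i => d i c)
    rw [mulVec_d, mulVec_d, mulVec_d, phi_basis] at h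
    rw [← h]
    unfold Phi
    refine Finset.sum_congr rfl fun i _ => ?_
    refine Finset.sum_congr rfl fun j _ => ?_
    refine Finset.sum_congr rfl fun k _ => ?_
    ring
  a1 := by
    intro i j k
    have := H.a1 i j k
    exact_mod_cast congrArg (Int.cast (R := ℂ)) this
  a2 := by
    intro i j k
    have := H.a2 i j k
    exact_mod_cast congrArg (Int.cast (R := ℂ)) this
  c6 := by
    intro i l
    have := congrArg (Int.cast (R := ℂ)) (H.c6 i l)
    rw [← cast_dl]
    exact_mod_cast this
  qd := cast_ps4
  b1 := by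
    intro i j k l
    have := H.b1 i j k l
    exact_mod_cast congrArg (Int.cast (R := ℂ)) this
  b2 := by
    intro i j k l
    have := H.b2 i j k l
    exact_mod_cast congrArg (Int.cast (R := ℂ)) this
  b3 := by
    intro i j k l
    have := H.b3 i j k l
    exact_mod_cast congrArg (Int.cast (R := ℂ)) this
  c24 := by
    intro l m
    have := congrArg (Int.cast (R := ℂ)) (H.c24 l m)
    rw [← cast_dl]
    exact_mod_cast this
  six := by
    intro i j k a b c
    have := congrArg (Int.cast (R := ℂ)) (H.six i j k a b c)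
    simp only [← cast_dl]
    exact_mod_cast this

end E3G

open E3G

theorem t_E3G : M_E3G := by
  intro H g hg
  have D := mkDat H g hg
  have e1 : g.1.trace = P1 (fun i j => g.1 i j) := rfl
  have es : ∀ i j, (g.1 ^ 2 : Matrix (Fin 7) (Fin 7) ℂ) i j = sq (fun i j => g.1 i j) i j := by
    intro i j
    rw [pow_two, Matrix.mul_apply]
    rfl
  have e2 : (g.1 ^ 2).trace = P2 (fun i j => g.1 i j) := by
    unfold Matrix.trace P2
    refine Finset.sum_congr rfl fun i _ => ?_
    rw [Matrix.diag_apply, es]
  have e3 : (g.1 ^ 3).trace = P3 (fun i j => g.1 i j) := by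
    have h : g.1 ^ 3 = g.1 ^ 2 * g.1 := pow_succ g.1 2
    rw [h]
    unfold Matrix.trace P3
    refine Finset.sum_congr rfl fun i _ => ?_
    rw [Matrix.diag_apply, Matrix.mul_apply]
    refine Finset.sum_congr rfl fun j _ => ?_
    rw [es]
  have n1 : nn g.1 g.1 = NN (fun i j k l => (ps4 i j k l : ℂ)) (fun i j => g.1 i j)
      (fun i j => g.1 i j) := rfl
  have n2 : nn g.1 (g.1 ^ 2) = NN (fun i j k l => (ps4 i j k l : ℂ)) (fun i j => g.1 i j)
      (sq (fun i j => g.1 i j)) := by
    unfold nn NN
    refine Finset.sum_congr rfl fun i _ => ?_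
    refine Finset.sum_congr rfl fun j _ => ?_
    refine Finset.sum_congr rfl fun a _ => ?_
    refine Finset.sum_congr rfl fun b _ => ?_
    rw [es]
  have t1 := D.t1
  have t2 := D.t2
  have t3 := D.t3
  refine ⟨?_, ?_, ?_⟩
  · rw [n1, e1, e2]
    exact t1
  · rw [n1, n2, e1, e2, e3]
    exact t2
  · rw [e1, e2, e3]
    rw [t2, t1] at t3
    linear_combination (1 / 2) * t3

end

end STZ
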