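import Pool.Agent.STZ.StmtsP

/-!
# Module EGFA: the elementary symmetric functions of the eigenvalues
-/

set_option autoImplicit false

namespace STZ

open Matrix

open scoped ComplexConjugate Matrix

noncomputable section

namespace EGFA

variable {n : ℕ}

theorem eg_eq (k : ℕ) (g : Matrix (Fin n) (Fin n) ℂ) :
    eg k g = (det (1 + (Polynomial.X : Polynomial ℂ) • g.map Polynomial.C)).coeff k :=
  (coeff_det_one_add_X_smul_eq_sum_minors g k).symm

theorem eg_big {k : ℕ} (h : n < k) (g : Matrix (Fin n) (Fin n) ℂ) : eg k g = 0 := by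
  unfold eg
  rw [Finset.powersetCard_eq_empty.2, Finset.sum_empty]
  simpa using h

theorem esk_big {k : ℕ} (h : n < k) (v : Fin n → ℂ) : esk v k = 0 := by
  unfold esk
  rw [Finset.powersetCard_eq_empty.2, Finset.sum_empty]
  simpa using h

theorem cp {k : ℕ} (h : k ≤ n) (g : Matrix (Fin n) (Fin n) ℂ) :
    g.charpoly.coeff (n - k) = (-1) ^ k * eg k g := by
  have h1 := charpoly_coeff_eq_sum_minors g k (by simpa using h)
  rw [Fintype.card_fin] at h1
  exact h1

theorem eg_congr {g h : Matrix (Fin n) (Fin n) ℂ} (e : g.charpoly = h.charpoly) (k : ℕ) :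
    eg k g = eg k h := by
  rcases lt_or_ge n k with hk | hk
  · rw [eg_big hk, eg_big hk]
  · have h1 := cp hk g
    rw [e, cp hk h] at h1
    exact (mul_left_cancel₀ (pow_ne_zero k (by norm_num)) h1).symm

theorem eg_esk {g : Matrix (Fin n) (Fin n) ℂ} {v : Fin n → ℂ}
    (e : g.charpoly = ∏ i, (Polynomial.X - Polynomial.C (v i))) (k : ℕ) : eg k g = esk v k := by
  rcases lt_or_ge n k with hk | hk
  · rw [eg_big hk, esk_big hk]
  · have h1 := cp hk g
    rw [e] at h1
    have h2 := Multiset.prod_X_sub_C_coeff ((Finset.univ : Finset (Fin n)).val.map v)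
      (k := n - k) (by simp)
    rw [Multiset.map_map, Multiset.card_map, Finset.card_val, Finset.card_univ, Fintype.card_fin,
      Nat.sub_sub_self hk, Finset.esymm_map_val] at h2
    have h3 : (∏ i, (Polynomial.X - Polynomial.C (v i))).coeff (n - k) =
        (-1) ^ k * ∑ t ∈ Finset.univ.powersetCard k, ∏ i ∈ t, v i := h2
    rw [h3] at h1
    exact (mul_left_cancel₀ (pow_ne_zero k (by norm_num)) h1).symm

theorem esk_conj {v : Fin n → ℂ} (h1 : ∀ i, v i * conj (v i) = 1) (h2 : ∏ i, v i = 1) {k : ℕ}
    (hk : k ≤ n) : conj (esk v k) = esk v (n - k) := by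
  unfold esk
  rw [map_sum]
  refine Finset.sum_nbij' (fun I => Iᶜ) (fun I => Iᶜ) ?_ ?_ ?_ ?_ ?_
  · intro I hI
    rw [Finset.mem_powersetCard] at hI ⊢
    refine ⟨Finset.subset_univ _, ?_⟩
    rw [Finset.card_compl, Fintype.card_fin, hI.2]
  · intro I hI
    rw [Finset.mem_powersetCard] at hI ⊢
    refine ⟨Finset.subset_univ _, ?_⟩
    rw [Finset.card_compl, Fintype.card_fin, hI.2]
    omega
  · intro I _
    exact compl_compl I
  · intro I _
    exact compl_compl I
  · intro I _
    rw [map_prod]
    calc ∏ j ∈ I, conj (v j) = (∏ j ∈ I, conj (v j)) * ((∏ j ∈ I, v j) * ∏ j ∈ Iᶜ, v j) := by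
          rw [Finset.prod_mul_prod_compl, h2, mul_one]
      _ = (∏ j ∈ I, v j * conj (v j)) * ∏ j ∈ Iᶜ, v j := by
          rw [Finset.prod_mul_distrib]
          ring
      _ = ∏ j ∈ Iᶜ, v j := by
          rw [Finset.prod_congr rfl fun j _ => h1 j, Finset.prod_const_one, one_mul]

end EGFA

open EGFA in
theorem t_EGFA : M_EGFA := by
  intro hE n
  refine ⟨?_, ?_, ?_, ?_, ?_, ?_, ?_, ?_⟩
  · intro g
    unfold eg
    rw [Finset.powersetCard_zero, Finset.sum_singleton]
    exact det_isEmpty
  · intro g
    rw [eg_eq]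
    exact coeff_det_one_add_X_smul_one g
  · intro g
    unfold eg
    have h1 : (Finset.univ : Finset (Fin n)).powersetCard n = {Finset.univ} := by
      have h2 := Finset.powersetCard_self (Finset.univ : Finset (Fin n))
      rwa [Finset.card_univ, Fintype.card_fin] at h2
    rw [h1, Finset.sum_singleton]
    have h3 := det_submatrix_equiv_self (Equiv.subtypeUnivEquiv fun i : Fin n => Finset.mem_univ i) g
    rw [← h3]
    congr 1
  · intro g z
    have h1 : (1 + z • g).det =
        (det (1 + (Polynomial.X : Polynomial ℂ) • g.map Polynomial.C)).eval z := by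
      rw [← Polynomial.coe_evalRingHom, RingHom.map_det]
      congr 1
      ext i j
      simp only [Matrix.add_apply, Matrix.smul_apply, smul_eq_mul, RingHom.mapMatrix_apply, Matrix.map_apply,
        Polynomial.coe_evalRingHom, Polynomial.eval_add, Polynomial.eval_mul, Polynomial.eval_X,
        Polynomial.eval_C, one_apply]
      split_ifs <;> simp
    have h2 : (det (1 + (Polynomial.X : Polynomial ℂ) • g.map Polynomial.C)).natDegree < n + 1 := by
      have h3 := Polynomial.natDegree_det_X_add_C_le g 1
      rw [Fintype.card_fin] at h3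
      have h4 : (1 : Matrix (Fin n) (Fin n) ℂ).map Polynomial.C = 1 :=
        Matrix.map_one _ (map_zero _) (map_one _)
      rw [h4, add_comm] at h3
      omega
    rw [h1, Polynomial.eval_eq_sum_range' h2]
    refine Finset.sum_congr rfl fun k _ => ?_
    rw [eg_eq]
  · intro g v e k
    exact eg_esk e k
  · intro g h k
    exact eg_congr (charpoly_mul_comm g h) k
  · intro k
    unfold eg
    have h1 : ∀ s ∈ (Finset.univ : Finset (Fin n)).powersetCard k,
        ((1 : Matrix (Fin n) (Fin n) ℂ).submatrix (Subtype.val : s → Fin n)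
          (Subtype.val : s → Fin n)).det = 1 := by
      intro s _
      rw [submatrix_one _ Subtype.val_injective, det_one]
    rw [Finset.sum_congr rfl h1, Finset.sum_const, Finset.card_powersetCard, Finset.card_univ,
      Fintype.card_fin, nsmul_eq_mul, mul_one]
  · intro g k hk
    obtain ⟨v, h1, h2, h3, _⟩ := hE n g
    rw [eg_esk h3, eg_esk h3]
    exact esk_conj h1 h2 hk

end

end STZ
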