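import Pool.Agent.STZ.StmtsS

/-!
# Eigenfunctions of the Laplacian on `SU(3)` are finite sums of pieces
-/

namespace STZ

open MeasureTheory Matrix

open scoped ComplexConjugate Matrix Real

noncomputable section

namespace EIG3

theorem tg_inv (g : SU 3) : tg g⁻¹ = conj (tg g) := by
  unfold tg
  rw [coe_inv, Matrix.trace_conjTranspose]
  rfl

theorem tg_comm (g h : SU 3) : tg (g * h) = tg (h * g) := by
  unfold tg
  rw [coe_mul, coe_mul, Matrix.trace_mul_comm]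

theorem px_inv (hA : S_ALT) (p q : ℤ) (g : SU 3) : px p q g⁻¹ = conj (px p q g) := by
  unfold px
  rw [tg_inv, hA.cj]

theorem px_comm (p q : ℤ) (g h : SU 3) : px p q (g * h) = px p q (h * g) := by
  unfold px
  rw [tg_comm]

theorem KK_eq (hA : S_ALT) (a : ℕ × ℕ) (x y : SU 3) :
    KK c3 a x y = c3 a 1 * conj (c3 a (x⁻¹ * y)) := by
  unfold KK
  congr 1
  have h1 : x * y⁻¹ = (y * x⁻¹)⁻¹ := by rw [_root_.mul_inv_rev, inv_inv]
  unfold c3
  rw [h1, px_inv hA, px_comm]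

theorem lap_tr {n : ℕ} (hC : CALF n) (X : Fin (n ^ 2 - 1) → Matrix (Fin n) (Fin n) ℂ)
    (hX : Frame X) (c : ℂ) (h : SU n) (F : SU n → ℂ) (hF : C2 F) :
    C2 (fun g => c * conj (F (h * g))) ∧
      ∀ g, lap X (fun g => c * conj (F (h * g))) g = c * conj (lap X F (h * g)) := by
  have hL : C2 (fun g => F (h * g)) := hC.left h F hF
  have hG : C2 (fun g => conj (F (h * g))) := hC.cj _ hL
  have hcG : C2 (fun g => c * conj (F (h * g))) := hC.mul _ _ (hC.const c) hG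
  refine ⟨hcG, fun g => ?_⟩
  unfold lap
  rw [map_sum, Finset.mul_sum]
  refine Finset.sum_congr rfl fun a _ => ?_
  have hm := hX.mem a
  have e1 : dX (X a) (fun g => F (h * g)) = fun g => dX (X a) F (h * g) := by
    funext g
    exact hC.dleft (X a) hm h F hF.1 g
  have hL1 : C1 (fun g => dX (X a) F (h * g)) := by
    rw [← e1]; exact hL.2 (X a) hm
  have e2 : dX (X a) (fun g => conj (F (h * g))) = fun g => conj (dX (X a) F (h * g)) := by
    funext g
    rw [hC.dconj (X a) hm (fun g => F (h * g)) hL.1 g, e1]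
  have e3 : dX (X a) (fun g => c * conj (F (h * g))) =
      fun g => c * conj (dX (X a) F (h * g)) := by
    funext g
    rw [hC.dmul (X a) hm (fun _ => c) (fun g => conj (F (h * g))) (hC.const c).1 hG.1 g,
      hC.dconst, zero_mul, zero_add, e2]
  have hG1 : C1 (fun g => conj (dX (X a) F (h * g))) := by
    rw [← e2]; exact hG.2 (X a) hm
  rw [e3, hC.dmul (X a) hm (fun _ => c) (fun g => conj (dX (X a) F (h * g))) (hC.const c).1 hG1 g,
    hC.dconst, zero_mul, zero_add, hC.dconj (X a) hm (fun g => dX (X a) F (h * g)) hL1 g,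
    hC.dleft (X a) hm h (dX (X a) F) (hF.2 (X a) hm) g]

/-- the eigenvalue of the piece `a` -/
def ka (a : ℕ × ℕ) : ℝ :=
  (((a.1 : ℝ) + 1) ^ 2 + (a.1 + 1) * (a.2 + 1) + (a.2 + 1) ^ 2 - 3) / 9

theorem fin_ka (κ : ℝ) : {a : ℕ × ℕ | κ = ka a}.Finite := by
  obtain ⟨N, hN⟩ := exists_nat_gt (9 * κ + 3)
  refine ((Set.finite_Iio N).prod (Set.finite_Iio N)).subset ?_
  rintro ⟨a, b⟩ h
  have h1 : κ = (((a : ℝ) + 1) ^ 2 + (a + 1) * (b + 1) + (b + 1) ^ 2 - 3) / 9 := h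
  have ha : (0 : ℝ) ≤ a := Nat.cast_nonneg a
  have hb : (0 : ℝ) ≤ b := Nat.cast_nonneg b
  have h2 : ((a : ℝ) + 1) ^ 2 + (a + 1) * (b + 1) + (b + 1) ^ 2 < N := by
    linarith
  have h3 : (a : ℝ) < N := by nlinarith [mul_nonneg ha hb, mul_nonneg ha ha, mul_nonneg hb hb]
  have h4 : (b : ℝ) < N := by nlinarith [mul_nonneg ha hb, mul_nonneg ha ha, mul_nonneg hb hb]
  exact ⟨by exact_mod_cast h3, by exact_mod_cast h4⟩

theorem c3_eig (hL : S_LAPX) (X : Fin (3 ^ 2 - 1) → Matrix (Fin 3) (Fin 3) ℂ) (hX : Frame X)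
    (a : ℕ × ℕ) : C2 (c3 a) ∧ ∀ g, lap X (c3 a) g = -(ka a : ℂ) * c3 a g := by
  obtain ⟨h1, h2⟩ := hL X hX (a.1 + 1) (a.2 + 1)
  have e : c3 a = px ((a.1 + 1 : ℕ) : ℤ) ((a.2 + 1 : ℕ) : ℤ) := by
    funext g
    unfold c3
    push_cast
    rfl
  rw [e]
  refine ⟨h1, fun g => ?_⟩
  rw [h2 g]
  congr 1
  unfold ka
  push_cast
  ring

theorem KK_eig (hC : S_CALC) (hA : S_ALT) (hL : S_LAPX)
    (X : Fin (3 ^ 2 - 1) → Matrix (Fin 3) (Fin 3) ℂ) (hX : Frame X) (a : ℕ × ℕ) (x : SU 3) :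
    C2 (KK c3 a x) ∧ ∀ g, lap X (KK c3 a x) g = -(ka a : ℂ) * KK c3 a x g := by
  obtain ⟨h1, h2⟩ := c3_eig hL X hX a
  obtain ⟨h3, h4⟩ := lap_tr (hC 3) X hX (c3 a 1) x⁻¹ (c3 a) h1
  have e : KK c3 a x = fun g => c3 a 1 * conj (c3 a (x⁻¹ * g)) := by
    funext g
    exact KK_eq hA a x g
  rw [e]
  refine ⟨h3, fun g => ?_⟩
  rw [h4 g, h2]
  simp only [map_mul, map_neg, Complex.conj_ofReal]
  ring

theorem integrable (μ : Measure (SU 3)) [IsProbabilityMeasure μ] (u : SU 3 → ℂ)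
    (hu : Continuous u) : Integrable u μ :=
  hu.integrable_of_hasCompactSupport (HasCompactSupport.of_compactSpace u)

theorem cont_KK {μ : Measure (SU 3)} (hK : Ker μ (KK c3)) (a : ℕ × ℕ) (x : SU 3) :
    Continuous (KK c3 a x) := by
  have h1 := hK.cont a
  have h2 : Continuous fun y : SU 3 => (x, y) :=
    Continuous.prodMk continuous_const continuous_id
  have h3 := h1.comp h2
  simp only [Function.comp_def] at h3
  exact h3

/-- the pieces for the other eigenvalues vanish -/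
theorem zero_piece (hC : S_CALC) (hGR : S_GREEN) (hA : S_ALT) (hL : S_LAPX)
    (μ : Measure (SU 3)) [IsProbabilityMeasure μ] [μ.IsMulLeftInvariant]
    (X : Fin (3 ^ 2 - 1) → Matrix (Fin 3) (Fin 3) ℂ) (hX : Frame X) (κ : ℝ) (f : SU 3 → ℂ)
    (hf : Eig X κ f) (a : ℕ × ℕ) (hne : κ ≠ ka a) (x : SU 3) :
    ∫ g, KK c3 a x g * f g ∂μ = 0 := by
  obtain ⟨h1, h2⟩ := KK_eig hC hA hL X hX a x
  have h3 := (hGR 3 μ).2 X hX f (KK c3 a x) hf.1 h1
  have h4 : ∫ g, lap X f g * KK c3 a x g ∂μ = -(κ : ℂ) * ∫ g, KK c3 a x g * f g ∂μ := by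
    rw [← integral_const_mul]
    refine integral_congr_ae (Filter.Eventually.of_forall fun g => ?_)
    simp only
    rw [hf.2 g]; ring
  have h5 : ∫ g, f g * lap X (KK c3 a x) g ∂μ =
      -(ka a : ℂ) * ∫ g, KK c3 a x g * f g ∂μ := by
    rw [← integral_const_mul]
    refine integral_congr_ae (Filter.Eventually.of_forall fun g => ?_)
    simp only
    rw [h2 g]; ring
  rw [h4, h5] at h3
  have h6 : ((κ : ℂ) - ka a) * ∫ g, KK c3 a x g * f g ∂μ = 0 := by
    linear_combination -h3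
  rcases mul_eq_zero.mp h6 with h7 | h7
  · exact absurd (Complex.ofReal_injective (sub_eq_zero.mp h7)) hne
  · exact h7

theorem Pr_one {μ : Measure (SU 3)} (a : ℕ × ℕ) (u : SU 3 → ℂ) (x : SU 3) :
    Pr μ (KK c3) {a} u x = ∫ y, KK c3 a x y * u y ∂μ := by
  unfold Pr
  rw [Finset.sum_singleton]

theorem Pr_sub {μ : Measure (SU 3)} [IsProbabilityMeasure μ] (hK : Ker μ (KK c3)) (a : ℕ × ℕ)
    (u v : SU 3 → ℂ) (hu : Continuous u) (hv : Continuous v) (x : SU 3) :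
    Pr μ (KK c3) {a} (fun x => u x - v x) x = Pr μ (KK c3) {a} u x - Pr μ (KK c3) {a} v x := by
  have hk := cont_KK hK a x
  have h1 : Integrable (fun y => KK c3 a x y * u y) μ := integrable μ _ (hk.mul hu)
  have h2 : Integrable (fun y => KK c3 a x y * v y) μ := integrable μ _ (hk.mul hv)
  rw [Pr_one, Pr_one, Pr_one, ← integral_sub h1 h2]
  refine integral_congr_ae (Filter.Eventually.of_forall fun g => ?_)
  simp only
  ring

theorem fix (hCP : S_CPL3) (μ : Measure (SU 3)) [IsProbabilityMeasure μ] [μ.IsMulLeftInvariant]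
    (hK : Ker μ (KK c3)) (hB : KBF μ (KK c3)) (f : SU 3 → ℂ) (hfc : Continuous f)
    (S : Finset (ℕ × ℕ)) (h0 : ∀ a ∉ S, ∀ x, ∫ g, KK c3 a x g * f g ∂μ = 0) :
    Pr μ (KK c3) S f = f := by
  have hPc : Continuous (Pr μ (KK c3) S f) := hB.cont S f hfc
  have hsub : ∀ a, Pr μ (KK c3) {a} (fun x => f x - Pr μ (KK c3) S f x) = 0 := by
    intro a
    funext x
    rw [Pr_sub hK a f (Pr μ (KK c3) S f) hfc hPc x]
    by_cases ha : a ∈ S
    · rw [hB.piece S a f ha hfc, sub_self]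
      rfl
    · rw [hB.piece0 S a f ha hfc, Pr_one, h0 a ha x]
      exact sub_self 0
  have h8 := hCP μ (fun x => f x - Pr μ (KK c3) S f x) (hfc.sub hPc) hsub
  funext x
  have h9 := congrFun h8 x
  exact (sub_eq_zero.mp h9).symm

end EIG3

theorem t_EIG3 : M_EIG3 := by
  intro hKB hKERI hC hGR hA hL hI hCP μ _ _ X hX κ f hf
  have hK := (hKERI (SU 3) μ (ℕ × ℕ) c3 (hI μ)).1
  have hB := hKB (SU 3) μ (ℕ × ℕ) (KK c3) hK
  have hfin := EIG3.fin_ka κ
  refine ⟨hfin.toFinset, fun a ha => ?_, ?_⟩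
  · have h := hfin.mem_toFinset.mp ha
    have h2 : κ = EIG3.ka a := h
    rw [EIG3.ka] at h2
    exact h2
  · refine EIG3.fix hCP μ hK hB f hf.1.1.cont _ fun a ha x => ?_
    refine EIG3.zero_piece hC hGR hA hL μ X hX κ f hf a (fun h => ha ?_) x
    exact hfin.mem_toFinset.mpr h

end

end STZ
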