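import Pool.Agent.STZ.StmtsM

/-!
# Eigenfunctions of the Laplacian on `H` are finite sums of pieces
-/

namespace STZ

open MeasureTheory Matrix

open scoped ComplexConjugate Matrix Real

noncomputable section

namespace EIGG

section Irr

variable {G : Type} [Group G] [TopologicalSpace G] {ι : Type} {χ : ι → G → ℂ}

theorem ch_inv (hI : IrrFam χ) (a : ι) (g : G) : χ a g⁻¹ = conj (χ a g) := by
  obtain ⟨d, σ, -, h⟩ := hI.irr a
  rw [← h, ← h, Rep.ch, Rep.ch, σ.unit, Matrix.trace_conjTranspose]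
  rfl

theorem ch_comm (hI : IrrFam χ) (a : ι) (g h : G) : χ a (g * h) = χ a (h * g) := by
  obtain ⟨d, σ, -, e⟩ := hI.irr a
  rw [← e, ← e, Rep.ch, Rep.ch, map_mul, map_mul, Matrix.trace_mul_comm]

theorem KK_eq (hI : IrrFam χ) (a : ι) (x y : G) :
    KK χ a x y = χ a 1 * conj (χ a (x⁻¹ * y)) := by
  unfold KK
  congr 1
  have h1 : x * y⁻¹ = (y * x⁻¹)⁻¹ := by rw [_root_.mul_inv_rev, inv_inv]
  rw [h1, ch_inv hI, ch_comm hI]

end Irr

section Lap

variable {N : ℕ} {H : Subgroup (SU N)}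

theorem lap_tr (hC : CALFH H) {d : ℕ} {c0 : ℝ} (X : Fin d → Matrix (Fin N) (Fin N) ℂ)
    (hX : FrameH H c0 X) (c : ℂ) (h : H) (F : H → ℂ) (hF : C2H F) :
    C2H (fun g => c * conj (F (h * g))) ∧
      ∀ g, lapH X (fun g => c * conj (F (h * g))) g = c * conj (lapH X F (h * g)) := by
  have hL : C2H (fun g => F (h * g)) := hC.left h F hF
  have hG : C2H (fun g => conj (F (h * g))) := hC.cj _ hL
  have hcG : C2H (fun g => c * conj (F (h * g))) := hC.mul _ _ (hC.const c) hG
  refine ⟨hcG, fun g => ?_⟩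
  unfold lapH
  rw [map_sum, Finset.mul_sum]
  refine Finset.sum_congr rfl fun a _ => ?_
  have hm := hX.mem a
  have e1 : dH (X a) (fun g => F (h * g)) = fun g => dH (X a) F (h * g) := by
    funext g
    exact hC.dleft (X a) hm h F hF.1 g
  have hL1 : C1H (fun g => dH (X a) F (h * g)) := by
    rw [← e1]; exact hL.2 (X a) hm
  have e2 : dH (X a) (fun g => conj (F (h * g))) = fun g => conj (dH (X a) F (h * g)) := by
    funext g
    rw [hC.dconj (X a) hm (fun g => F (h * g)) hL.1 g, e1]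
  have e3 : dH (X a) (fun g => c * conj (F (h * g))) =
      fun g => c * conj (dH (X a) F (h * g)) := by
    funext g
    rw [hC.dmul (X a) hm (fun _ => c) (fun g => conj (F (h * g))) (hC.const c).1 hG.1 g,
      hC.dconst, zero_mul, zero_add, e2]
  have hG1 : C1H (fun g => conj (dH (X a) F (h * g))) := by
    rw [← e2]; exact hG.2 (X a) hm
  rw [e3, hC.dmul (X a) hm (fun _ => c) (fun g => conj (dH (X a) F (h * g))) (hC.const c).1 hG1 g,
    hC.dconst, zero_mul, zero_add, hC.dconj (X a) hm (fun g => dH (X a) F (h * g)) hL1 g,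
    hC.dleft (X a) hm h (dH (X a) F) (hF.2 (X a) hm) g]

/-- the eigenvalue of the piece `a` -/
def ka {r : ℕ} (D : RD r) (k : ℝ) (a : Fin r → ℕ) : ℝ := k * ((D.Q (wG a) : ℝ) - D.Q 1)

theorem fin_ka {r : ℕ} (D : RD r) (hD : RDF D) {k : ℝ} (hk : 0 < k) (κ : ℝ) :
    {a : Fin r → ℕ | κ = ka D k a}.Finite := by
  obtain ⟨c, hc, hpd⟩ := hD.pd
  obtain ⟨M, hM⟩ := exists_nat_gt ((κ / k + D.Q 1) / c + 1)
  refine (Set.Finite.pi' (t := fun _ : Fin r => Set.Iio M) fun _ => Set.finite_Iio M).subset ?_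
  intro a ha i
  have h1 : κ = k * ((D.Q (wG a) : ℝ) - D.Q 1) := ha
  have h2 : κ / k = (D.Q (wG a) : ℝ) - D.Q 1 := by
    rw [h1]
    field_simp
  have h3 := (hpd (wG a)).1
  have h4 : ((a i : ℝ) + 1) ≤ sz (wG a) - 1 := by
    have h5 : |((wG a i : ℤ) : ℝ)| ≤ ∑ j, |((wG a j : ℤ) : ℝ)| :=
      Finset.single_le_sum (f := fun j => |((wG a j : ℤ) : ℝ)|) (fun j _ => abs_nonneg _)
        (Finset.mem_univ i)
    have h6 : |((wG a i : ℤ) : ℝ)| = (a i : ℝ) + 1 := by
      have h7 : ((wG a i : ℤ) : ℝ) = (a i : ℝ) + 1 := by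
        unfold wG
        push_cast
        ring
      rw [h7, abs_of_nonneg (by positivity)]
    unfold sz
    linarith
  have h5 : (sz (wG a) - 1) ^ 2 ≤ (κ / k + D.Q 1) / c := by
    rw [le_div_iff₀ hc]
    linarith
  have h6 : (a i : ℝ) < M := by
    have ha0 : (0 : ℝ) ≤ a i := Nat.cast_nonneg _
    nlinarith [sq_nonneg (sz (wG a) - 1 - 1)]
  exact_mod_cast h6

theorem KK_eig {r d : ℕ} {c k : ℝ} {D : RD r} {x : Fin r → H → ℂ} (hC : CALFH H)
    (hG : GF H c d D x k) (hI : IrrFam (cG D x)) (X : Fin d → Matrix (Fin N) (Fin N) ℂ)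
    (hX : FrameH H c X) (a : Fin r → ℕ) (y : H) :
    C2H (KK (cG D x) a y) ∧
      ∀ g, lapH X (KK (cG D x) a y) g = -(ka D k a : ℂ) * KK (cG D x) a y g := by
  have hreg : Reg (wG a) := fun i => by unfold wG; omega
  obtain ⟨h1, h2⟩ := hG.lap X hX (wG a) hreg
  obtain ⟨h3, h4⟩ := lap_tr hC X hX (cG D x a 1) y⁻¹ (cG D x a) h1
  have e : KK (cG D x) a y = fun g => cG D x a 1 * conj (cG D x a (y⁻¹ * g)) := by
    funext g
    exact KK_eq hI a y g
  rw [e]
  refine ⟨h3, fun g => ?_⟩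
  have h5 : ∀ g, lapH X (cG D x a) g = -(ka D k a : ℂ) * cG D x a g := by
    intro g
    have h6 := h2 g
    change lapH X (cG D x a) g = _ * cG D x a g at h6
    rw [h6]
    congr 1
    unfold ka
    push_cast
    ring
  rw [h4 g, h5]
  simp only [map_mul, map_neg, Complex.conj_ofReal]
  ring

theorem cont_KK {μ : Measure H} {ι : Type} {χ : ι → H → ℂ} (hK : Ker μ (KK χ)) (a : ι) (x : H) :
    Continuous (KK χ a x) := by
  have h1 := hK.cont a
  have h2 : Continuous fun y : H => (x, y) :=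
    Continuous.prodMk continuous_const continuous_id
  have h3 := h1.comp h2
  simp only [Function.comp_def] at h3
  exact h3

/-- the pieces for the other eigenvalues vanish -/
theorem zero_piece {r d : ℕ} {c k : ℝ} {D : RD r} {x : Fin r → H → ℂ} (hC : CALFH H)
    (hGR : S_GRH) (hG : GF H c d D x k) (hI : IrrFam (cG D x))
    (μ : Measure H) [IsProbabilityMeasure μ] [μ.IsMulLeftInvariant]
    (X : Fin d → Matrix (Fin N) (Fin N) ℂ) (hX : FrameH H c X) (κ : ℝ) (f : H → ℂ)
    (hf : EigH X κ f) (a : Fin r → ℕ) (hne : κ ≠ ka D k a) (y : H) :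
    ∫ g, KK (cG D x) a y g * f g ∂μ = 0 := by
  obtain ⟨h1, h2⟩ := KK_eig hC hG hI X hX a y
  have h3 := (hGR N H hG.closed μ).2 c d X hX f (KK (cG D x) a y) hf.1 h1
  have h4 : ∫ g, lapH X f g * KK (cG D x) a y g ∂μ =
      -(κ : ℂ) * ∫ g, KK (cG D x) a y g * f g ∂μ := by
    rw [← integral_const_mul]
    refine integral_congr_ae (Filter.Eventually.of_forall fun g => ?_)
    simp only
    rw [hf.2 g]; ring
  have h5 : ∫ g, f g * lapH X (KK (cG D x) a y) g ∂μ =
      -(ka D k a : ℂ) * ∫ g, KK (cG D x) a y g * f g ∂μ := by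
    rw [← integral_const_mul]
    refine integral_congr_ae (Filter.Eventually.of_forall fun g => ?_)
    simp only
    rw [h2 g]; ring
  rw [h4, h5] at h3
  have h6 : ((κ : ℂ) - ka D k a) * ∫ g, KK (cG D x) a y g * f g ∂μ = 0 := by
    linear_combination -h3
  rcases mul_eq_zero.mp h6 with h7 | h7
  · exact absurd (Complex.ofReal_injective (sub_eq_zero.mp h7)) hne
  · exact h7

theorem Pr_one {μ : Measure H} {ι : Type} (χ : ι → H → ℂ) (a : ι) (u : H → ℂ) (x : H) :
    Pr μ (KK χ) {a} u x = ∫ y, KK χ a x y * u y ∂μ := by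
  unfold Pr
  rw [Finset.sum_singleton]

theorem Pr_sub [CompactSpace H] {μ : Measure H} [IsProbabilityMeasure μ] {ι : Type}
    {χ : ι → H → ℂ} (hK : Ker μ (KK χ)) (a : ι)
    (u v : H → ℂ) (hu : Continuous u) (hv : Continuous v) (x : H) :
    Pr μ (KK χ) {a} (fun x => u x - v x) x = Pr μ (KK χ) {a} u x - Pr μ (KK χ) {a} v x := by
  have hk := cont_KK hK a x
  have h1 : Integrable (fun y => KK χ a x y * u y) μ :=
    (hk.mul hu).integrable_of_hasCompactSupport (HasCompactSupport.of_compactSpace _)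
  have h2 : Integrable (fun y => KK χ a x y * v y) μ :=
    (hk.mul hv).integrable_of_hasCompactSupport (HasCompactSupport.of_compactSpace _)
  rw [Pr_one, Pr_one, Pr_one, ← integral_sub h1 h2]
  refine integral_congr_ae (Filter.Eventually.of_forall fun g => ?_)
  simp only
  ring

theorem fix [CompactSpace H] {ι : Type} {χ : ι → H → ℂ} (μ : Measure H) [IsProbabilityMeasure μ]
    (hCP : ∀ f : H → ℂ, Continuous f → (∀ a, Pr μ (KK χ) {a} f = 0) → f = 0)
    (hK : Ker μ (KK χ)) (hB : KBF μ (KK χ)) (f : H → ℂ) (hfc : Continuous f)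
    (S : Finset ι) (h0 : ∀ a ∉ S, ∀ x, ∫ g, KK χ a x g * f g ∂μ = 0) :
    Pr μ (KK χ) S f = f := by
  have hPc : Continuous (Pr μ (KK χ) S f) := hB.cont S f hfc
  have hsub : ∀ a, Pr μ (KK χ) {a} (fun x => f x - Pr μ (KK χ) S f x) = 0 := by
    intro a
    funext x
    rw [Pr_sub hK a f (Pr μ (KK χ) S f) hfc hPc x]
    by_cases ha : a ∈ S
    · rw [hB.piece S a f ha hfc, sub_self]
      rfl
    · rw [hB.piece0 S a f ha hfc, Pr_one, h0 a ha x]
      exact sub_self 0
  have h8 := hCP (fun x => f x - Pr μ (KK χ) S f x) (hfc.sub hPc) hsub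
  funext x
  have h9 := congrFun h8 x
  exact (sub_eq_zero.mp h9).symm

end Lap

end EIGG

theorem t_EIGG : M_EIGG := by
  intro hKB hKERI hC hGR hI hCP N H c d r D x k hD hG μ _ _ X hX κ f hf
  have hcomp : CompactSpace H := isCompact_iff_compactSpace.1 hG.closed.isCompact
  have hsec : SecondCountableTopology H :=
    inferInstanceAs (SecondCountableTopology ((H : Set (SU N)) : Type))
  have hI' := hI N H c d r D x k hD hG μ
  have hK := (hKERI H μ (Fin r → ℕ) (cG D x) hI').1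
  have hB := hKB H μ (Fin r → ℕ) (KK (cG D x)) hK
  have hfin := EIGG.fin_ka D hD hG.kpos κ
  refine ⟨hfin.toFinset, fun a ha => ?_, ?_⟩
  · have h := hfin.mem_toFinset.mp ha
    exact h
  · refine EIGG.fix μ (hCP N H c d r D x k hD hG μ) hK hB f hf.1.1.cont _ fun a ha y => ?_
    refine EIGG.zero_piece (hC N H) hGR hG hI' μ X hX κ f hf a (fun h => ha ?_) y
    exact hfin.mem_toFinset.mpr h

end

end STZ
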