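import Pool.Agent.STZ.StmtsL

/-!
# Module EIGM: the products of powers of the leading minors are eigenfunctions
-/

namespace STZ

open MeasureTheory Matrix

open scoped ComplexConjugate Matrix Real ENNReal

noncomputable section

namespace EIGM

theorem sum_lin (a : ℂ) (n : ℕ) :
    ∑ k ∈ Finset.range n, (a - (k : ℂ)) = n * a - (n : ℂ) * (n - 1) / 2 := by
  induction n with
  | zero => simp
  | succ n ih =>
    rw [Finset.sum_range_succ, ih]
    push_cast
    ring

theorem sum_sq (a : ℂ) (n : ℕ) :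
    ∑ k ∈ Finset.range n, (a - (k : ℂ)) ^ 2 =
      n * a ^ 2 - a * (n * (n - 1)) + (n - 1) * n * (2 * n - 1) / 6 := by
  induction n with
  | zero => simp
  | succ n ih =>
    rw [Finset.sum_range_succ, ih]
    push_cast
    ring

theorem sum_tri (n : ℕ) :
    ∑ k ∈ Finset.range n, ∑ l ∈ Finset.range n, (if k < l then ((l : ℂ) - k) else 0) =
      ((n : ℂ) - 1) * n * (n + 1) / 6 := by
  induction n with
  | zero => simp
  | succ n ih =>
    have h1 : ∀ k ∈ Finset.range (n + 1),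
        ∑ l ∈ Finset.range (n + 1), (if k < l then ((l : ℂ) - k) else 0) =
        ∑ l ∈ Finset.range n, (if k < l then ((l : ℂ) - k) else 0) +
          (if k < n then ((n : ℂ) - k) else 0) := fun k _ => Finset.sum_range_succ _ _
    rw [Finset.sum_congr rfl h1, Finset.sum_add_distrib, Finset.sum_range_succ, ih,
      Finset.sum_range_succ]
    have h2 : ∑ l ∈ Finset.range n, (if n < l then ((l : ℂ) - n) else 0) = 0 :=
      Finset.sum_eq_zero fun l hl => if_neg (by
        have := Finset.mem_range.1 hl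
        omega)
    have h3 : ∑ k ∈ Finset.range n, (if k < n then ((n : ℂ) - k) else 0) =
        ∑ k ∈ Finset.range n, ((n : ℂ) - k) :=
      Finset.sum_congr rfl fun k hk => if_pos (Finset.mem_range.1 hk)
    rw [h2, h3, sum_lin, if_neg (lt_irrefl n)]
    push_cast
    ring

/-- the coefficient of `D (E k l) (D (E l k) F)` -/
def cf (n m k l : ℕ) : ℂ :=
  (if k = l then ((m : ℂ) * (n - 1 - (k : ℕ))) ^ 2 else 0) +
    (m : ℂ) * (if k < l then ((l : ℂ) - k) else 0)

theorem sum_cf (n m : ℕ) : ∑ k : Fin n, ∑ l : Fin n, cf n m k l =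
    (m : ℂ) ^ 2 * (n * (n - 1) * (2 * n - 1) / 6) + m * ((n - 1) * n * (n + 1) / 6) := by
  have h1 : ∑ k : Fin n, ∑ l : Fin n, cf n m k l =
      ∑ k ∈ Finset.range n, ∑ l ∈ Finset.range n, cf n m k l := by
    rw [← Fin.sum_univ_eq_sum_range (fun k => ∑ l ∈ Finset.range n, cf n m k l) n]
    refine Finset.sum_congr rfl fun k _ => ?_
    rw [← Fin.sum_univ_eq_sum_range (fun l => cf n m k l) n]
  rw [h1]
  have h2 : ∀ k ∈ Finset.range n, ∑ l ∈ Finset.range n, cf n m k l =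
      (m : ℂ) ^ 2 * ((n : ℂ) - 1 - k) ^ 2 +
        (m : ℂ) * ∑ l ∈ Finset.range n, (if k < l then ((l : ℂ) - k) else 0) := by
    intro k hk
    unfold cf
    rw [Finset.sum_add_distrib, Finset.sum_ite_eq, if_pos hk, Finset.mul_sum, mul_pow]
  rw [Finset.sum_congr rfl h2, Finset.sum_add_distrib, ← Finset.mul_sum, ← Finset.mul_sum,
    sum_tri, sum_sq]
  ring

theorem D_sub (hD : S_DALG) {n : ℕ} (A B : Matrix (Fin n) (Fin n) ℂ) (F : MP n) :
    D (A - B) F = D A F - D B F := by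
  have h := hD n F
  rw [sub_eq_add_neg, h.1, ← neg_one_smul ℂ B, h.2.1, neg_one_smul, sub_eq_add_neg]

theorem dbl (hD : S_DALG) (hM : S_MINR) {n : ℕ} (m : ℕ) (k l : Fin n) :
    D (Matrix.single k l (1 : ℂ)) (D (Matrix.single l k (1 : ℂ)) (fmP n m)) =
      cf n m k l • fmP n m := by
  have h0 := (hM n m).2
  unfold cf
  rcases lt_trichotomy k l with h | h | h
  · have h1 := (hD n (fmP n m)).2.2 (Matrix.single k l (1 : ℂ)) (Matrix.single l k (1 : ℂ))
    rw [h0.1 k l h, map_zero, sub_zero, Matrix.single_mul_single_same,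
      Matrix.single_mul_single_same, D_sub hD, mul_one, h0.2 k, h0.2 l, ← sub_smul] at h1
    rw [h1, if_neg (fun e => absurd (Fin.ext e) h.ne), if_pos (Fin.lt_def.1 h)]
    congr 1
    ring
  · subst h
    rw [h0.2 k, Derivation.map_smul, h0.2 k, smul_smul, if_pos rfl, if_neg (lt_irrefl _)]
    congr 1
    ring
  · rw [h0.1 l k h, map_zero, if_neg (fun e => absurd (Fin.ext e) h.ne'),
      if_neg (not_lt.2 (Fin.lt_def.1 h).le)]
    simp

theorem diag (hM : S_MINR) {n : ℕ} (m : ℕ) (k l : Fin n) :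
    D (Matrix.single k k (1 : ℂ)) (D (Matrix.single l l (1 : ℂ)) (fmP n m)) =
      (((m : ℂ) * (n - 1 - (k : ℕ))) * ((m : ℂ) * (n - 1 - (l : ℕ)))) • fmP n m := by
  have h0 := (hM n m).2
  rw [h0.2 l, Derivation.map_smul, h0.2 k, smul_smul]
  congr 1
  ring

theorem sum_diag (n m : ℕ) : ∑ k : Fin n, ∑ l : Fin n,
    (((m : ℂ) * (n - 1 - (k : ℕ))) * ((m : ℂ) * (n - 1 - (l : ℕ)))) =
      (m : ℂ) ^ 2 * (n * (n - 1) / 2) ^ 2 := by
  rw [← Finset.sum_mul_sum, Fin.sum_univ_eq_sum_range (fun k => (m : ℂ) * (n - 1 - (k : ℕ))) n,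
    ← Finset.mul_sum, sum_lin]
  ring

/-- the sum of the squares of the derivations -/
theorem cas (hD : S_DALG) (hM : S_MINR) (hC : S_CASM) {n : ℕ} (hn : 1 ≤ n)
    (X : Fin (n ^ 2 - 1) → Matrix (Fin n) (Fin n) ℂ) (hX : Frame X) (m : ℕ) :
    ∑ a, D (X a) (D (X a) (fmP n m)) =
      (-(((m : ℂ) ^ 2 + 2 * m) * ((n : ℂ) ^ 2 - 1) / 24)) • fmP n m := by
  have hn0 : (n : ℂ) ≠ 0 := by exact_mod_cast (by omega : n ≠ 0)
  rw [hC n hn X hX]
  have e1 : ∑ k, ∑ l, D (Matrix.single k l (1 : ℂ)) (D (Matrix.single l k (1 : ℂ)) (fmP n m)) =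
      (∑ k : Fin n, ∑ l : Fin n, cf n m k l) • fmP n m := by
    rw [Finset.sum_smul]
    refine Finset.sum_congr rfl fun k _ => ?_
    rw [Finset.sum_smul]
    exact Finset.sum_congr rfl fun l _ => dbl hD hM m k l
  have e2 : ∑ k, ∑ l, D (Matrix.single k k (1 : ℂ)) (D (Matrix.single l l (1 : ℂ)) (fmP n m)) =
      (∑ k : Fin n, ∑ l : Fin n,
        (((m : ℂ) * (n - 1 - (k : ℕ))) * ((m : ℂ) * (n - 1 - (l : ℕ))))) • fmP n m := by
    rw [Finset.sum_smul]
    refine Finset.sum_congr rfl fun k _ => ?_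
    rw [Finset.sum_smul]
    exact Finset.sum_congr rfl fun l _ => diag hM m k l
  rw [e1, e2, sum_cf, sum_diag, smul_smul, ← sub_smul, smul_smul]
  congr 1
  field_simp
  ring

theorem ev_fm (hM : S_MINR) (n m : ℕ) (A : Matrix (Fin n) (Fin n) ℂ) :
    ev A (fmP n m) = ∏ j ∈ Finset.range n, mnr j A ^ m := by
  have h1 : ev A (fmP n m) = ∏ j ∈ Finset.range n, ev A (mnP n j) ^ m := by
    unfold ev fmP
    rw [map_prod]
    exact Finset.prod_congr rfl fun j _ => map_pow _ _ _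
  rw [h1]
  exact Finset.prod_congr rfl fun j _ => by rw [(hM n m).1 A j]

end EIGM

theorem t_EIGM : M_EIGM := by
  intro hP hD hM hC n hn X hX m
  have hf : (fun g : SU n => ∏ j ∈ Finset.range n, mnr j g.1 ^ m) =
      fun g : SU n => ev g.1 (fmP n m) := by
    funext g
    exact (EIGM.ev_fm hM n m g.1).symm
  rw [hf]
  refine ⟨(hP n (fmP n m)).1, fun g => ?_⟩
  have h1 : ∀ a, dX (X a) (fun g : SU n => ev g.1 (fmP n m)) =
      fun g : SU n => ev g.1 (D (X a) (fmP n m)) := by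
    intro a
    funext g
    exact (hP n (fmP n m)).2 (X a) (hX.mem a) g
  have h2 : lap X (fun g : SU n => ev g.1 (fmP n m)) g =
      ∑ a, ev g.1 (D (X a) (D (X a) (fmP n m))) := by
    unfold lap
    refine Finset.sum_congr rfl fun a _ => ?_
    rw [h1 a]
    exact (hP n (D (X a) (fmP n m))).2 (X a) (hX.mem a) g
  have h3 : ∑ a, ev g.1 (D (X a) (D (X a) (fmP n m))) =
      ev g.1 (∑ a, D (X a) (D (X a) (fmP n m))) := by
    unfold ev
    rw [map_sum]
  rw [h2, h3, EIGM.cas hD hM hC hn X hX m]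
  unfold ev
  rw [MvPolynomial.smul_eval]
  push_cast
  rfl

end

end STZ
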