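import Pool.Agent.STZ.StmtsN

/-!
# STZ, EIGV: the eigenvalues of a special unitary matrix
-/

namespace STZ

open Matrix

open scoped ComplexConjugate

noncomputable section

namespace EIGV

open Polynomial

section Mat

variable {n : Type} [Fintype n] [DecidableEq n] (A : Matrix n n ℂ)

theorem card_roots_charpoly : Multiset.card A.charpoly.roots = Fintype.card n := by
  rw [← (IsAlgClosed.splits A.charpoly).natDegree_eq_card_roots, Matrix.charpoly_natDegree_eq_dim]

/-- `p ↦ det p(A)`. -/
def phi : ℂ[X] →* ℂ where
  toFun p := (aeval A p).det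
  map_one' := by simp
  map_mul' p q := by simp

/-- `p ↦ ∏ p(x)` over the roots of the characteristic polynomial. -/
def psi (R : Multiset ℂ) : ℂ[X] →* ℂ where
  toFun p := (R.map (fun x => eval x p)).prod
  map_one' := by simp
  map_mul' p q := by simp

theorem phi_C (c : ℂ) : phi A (C c) = psi A.charpoly.roots (C c) := by
  show (aeval A (C c)).det = (A.charpoly.roots.map (fun x => eval x (C c))).prod
  simp only [eval_C, Multiset.map_const', Multiset.prod_replicate, card_roots_charpoly]
  rw [aeval_C, Algebra.algebraMap_eq_smul_one, Matrix.det_smul, Matrix.det_one, mul_one]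

theorem phi_X_sub (a : ℂ) : phi A (X - C a) = psi A.charpoly.roots (X - C a) := by
  show (aeval A (X - C a)).det = (A.charpoly.roots.map (fun x => eval x (X - C a))).prod
  have h1 : aeval A (X - C a) = -(Matrix.scalar n a - A) := by
    rw [map_sub, aeval_X, aeval_C, neg_sub]
    rfl
  have h2 : A.charpoly.eval a = (A.charpoly.roots.map (fun x => a - x)).prod := by
    conv_lhs => rw [(IsAlgClosed.splits A.charpoly).eq_prod_roots_of_monic A.charpoly_monic]
    rw [eval_multiset_prod, Multiset.map_map]
    congr 1
    apply Multiset.map_congr rfl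
    intro x _
    simp
  rw [h1, Matrix.det_neg, ← Matrix.eval_charpoly, h2]
  have h3 : (A.charpoly.roots.map (fun x => eval x (X - C a))) =
      (A.charpoly.roots.map (fun x => (-1) * (a - x))) := by
    apply Multiset.map_congr rfl
    intro x _
    simp
  rw [h3, Multiset.prod_map_mul]
  simp [card_roots_charpoly]

theorem det_aeval (p : ℂ[X]) :
    (aeval A p).det = (A.charpoly.roots.map (fun x => eval x p)).prod := by
  show phi A p = psi A.charpoly.roots p
  have h := (IsAlgClosed.splits p).eq_prod_roots
  rw [h, map_mul, map_mul, phi_C, map_multiset_prod, map_multiset_prod, Multiset.map_map,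
    Multiset.map_map]
  congr 2
  apply Multiset.map_congr rfl
  intro a _
  exact phi_X_sub A a

theorem charpoly_pow (k : ℕ) :
    (A ^ k).charpoly = (A.charpoly.roots.map (fun x => X - C (x ^ k))).prod := by
  apply Polynomial.funext
  intro z
  rw [Matrix.eval_charpoly]
  have h1 : Matrix.scalar n z - A ^ k = aeval A (C z - X ^ k) := by
    rw [map_sub, map_pow, aeval_X, aeval_C]
    rfl
  rw [h1, det_aeval, eval_multiset_prod, Multiset.map_map]
  congr 1
  apply Multiset.map_congr rfl
  intro x _
  simp

theorem trace_pow (k : ℕ) :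
    (A ^ k).trace = (A.charpoly.roots.map (fun x => x ^ k)).sum := by
  rw [Matrix.trace_eq_sum_roots_charpoly, charpoly_pow]
  congr 1
  have := Polynomial.roots_multiset_prod_X_sub_C (A.charpoly.roots.map (fun x => x ^ k))
  rw [Multiset.map_map] at this
  exact this

end Mat

open scoped ComplexOrder in
/-- The eigenvalues of a unitary matrix have absolute value one. -/
theorem root_unit {N : ℕ} (M : Matrix (Fin N) (Fin N) ℂ) (hM : star M * M = 1) (x : ℂ)
    (hx : x ∈ M.charpoly.roots) : x * conj x = 1 := by
  have h0 : IsRoot M.charpoly x := Polynomial.isRoot_of_mem_roots hx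
  have h1 : (Matrix.scalar (Fin N) x - M).det = 0 := by
    rw [← Matrix.eval_charpoly]
    exact h0
  obtain ⟨w, hw0, hw⟩ := Matrix.exists_mulVec_eq_zero_iff.2 h1
  have h2 : M *ᵥ w = x • w := by
    rw [Matrix.sub_mulVec, sub_eq_zero] at hw
    rw [← hw]
    ext i
    simp [Matrix.scalar_apply, Matrix.mulVec_diagonal]
  have h3 : star (M *ᵥ w) ⬝ᵥ (M *ᵥ w) = star w ⬝ᵥ w := by
    rw [Matrix.star_mulVec, ← Matrix.dotProduct_mulVec, Matrix.mulVec_mulVec]
    rw [show Mᴴ * M = 1 from hM, Matrix.one_mulVec]
  rw [h2, star_smul, smul_dotProduct, dotProduct_smul, smul_eq_mul, smul_eq_mul] at h3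
  have h4 : star w ⬝ᵥ w ≠ 0 := by
    intro h
    exact hw0 (dotProduct_star_self_eq_zero.1 h)
  have h5 : (star x * x - 1) * (star w ⬝ᵥ w) = 0 := by
    linear_combination h3
  rcases mul_eq_zero.1 h5 with h6 | h6
  · have h7 : star x * x = 1 := by linear_combination h6
    rw [mul_comm]
    exact h7
  · exact absurd h6 h4

/-- A multiset with `N` elements is the family of values of a function on `Fin N`. -/
theorem enum {N : ℕ} (s : Multiset ℂ) (hs : Multiset.card s = N) :
    ∃ v : Fin N → ℂ, Finset.univ.val.map v = s := by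
  subst hs
  induction s using Quotient.inductionOn with
  | h l =>
    refine ⟨fun i => l.get (Fin.cast (by simp) i), ?_⟩
    have h : List.ofFn (fun i : Fin (Multiset.card (⟦l⟧ : Multiset ℂ)) =>
        l.get (Fin.cast (by simp) i)) = l := by
      apply List.ext_get
      · simp
      · intro i h1 h2
        simp
    rw [Fin.univ_val_map, h]
    rfl

end EIGV

open EIGV in
theorem t_EIGV : S_EIGV := by
  intro N g
  have hU : star g.1 * g.1 = 1 := (Matrix.mem_unitaryGroup_iff'.1 (Matrix.mem_specialUnitaryGroup_iff.1 g.2).1)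
  have hD : g.1.det = 1 := (Matrix.mem_specialUnitaryGroup_iff.1 g.2).2
  obtain ⟨v, hv⟩ := enum g.1.charpoly.roots (by rw [card_roots_charpoly, Fintype.card_fin])
  refine ⟨v, fun i => ?_, ?_, ?_, fun k => ?_⟩
  · apply root_unit g.1 hU
    rw [← hv]
    exact Multiset.mem_map_of_mem v (Finset.mem_univ i)
  · rw [← hD, Matrix.det_eq_prod_roots_charpoly, ← hv]
    rfl
  · conv_lhs => rw [(IsAlgClosed.splits g.1.charpoly).eq_prod_roots_of_monic g.1.charpoly_monic]
    rw [← hv, Multiset.map_map]
    rfl
  · rw [EIGV.trace_pow, ← hv, Multiset.map_map]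
    rfl

end

end STZ
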