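import Pool.Agent.STZ.StmtsL

/-!
# STZ, EMB: the embedding of `SU(n)` in `SU(n + 1)`
-/

namespace STZ

open MeasureTheory Matrix

open scoped ComplexConjugate Matrix Real ENNReal

namespace EMB

variable {n : ℕ}

theorem cc (h : Matrix (Fin n) (Fin n) ℂ) (i j : Fin n) : embM h i.castSucc j.castSucc = h i j := by
  simp [embM]

theorem cl (h : Matrix (Fin n) (Fin n) ℂ) (i : Fin n) : embM h i.castSucc (Fin.last n) = 0 := by
  simp [embM]

theorem lc (h : Matrix (Fin n) (Fin n) ℂ) (j : Fin n) : embM h (Fin.last n) j.castSucc = 0 := by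
  simp [embM]

theorem ll (h : Matrix (Fin n) (Fin n) ℂ) : embM h (Fin.last n) (Fin.last n) = 1 := by
  simp [embM]

theorem embM_mul (h k : Matrix (Fin n) (Fin n) ℂ) : embM (h * k) = embM h * embM k := by
  ext i j
  rw [Matrix.mul_apply, Fin.sum_univ_castSucc]
  induction i using Fin.lastCases with
  | last =>
    induction j using Fin.lastCases with
    | last => simp [ll, lc, cl]
    | cast j => simp [ll, lc]
  | cast i =>
    induction j using Fin.lastCases with
    | last => simp [ll, cl]
    | cast j => simp [cc, lc, Matrix.mul_apply]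

theorem embM_one : embM (1 : Matrix (Fin n) (Fin n) ℂ) = 1 := by
  ext i j
  induction i using Fin.lastCases with
  | last =>
    induction j using Fin.lastCases with
    | last => simp [ll]
    | cast j => rw [lc, Matrix.one_apply_ne (Fin.castSucc_lt_last j).ne']
  | cast i =>
    induction j using Fin.lastCases with
    | last => rw [cl, Matrix.one_apply_ne (Fin.castSucc_lt_last i).ne]
    | cast j =>
      rw [cc]
      by_cases hij : i = j
      · subst hij
        rw [Matrix.one_apply_eq, Matrix.one_apply_eq]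
      · rw [Matrix.one_apply_ne hij,
          Matrix.one_apply_ne (fun h => hij (Fin.castSucc_injective n h))]

theorem embM_star (h : Matrix (Fin n) (Fin n) ℂ) : star (embM h) = embM (star h) := by
  ext i j
  rw [Matrix.star_apply]
  induction i using Fin.lastCases with
  | last =>
    induction j using Fin.lastCases with
    | last => simp [ll]
    | cast j => simp [lc, cl]
  | cast i =>
    induction j using Fin.lastCases with
    | last => simp [cl, lc]
    | cast j => simp [cc, Matrix.star_apply]

theorem det_embM (h : Matrix (Fin n) (Fin n) ℂ) : (embM h).det = h.det := by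
  rw [Matrix.det_succ_row _ (Fin.last n), Fin.sum_univ_castSucc]
  simp only [lc, ll, mul_zero, zero_mul, Finset.sum_const_zero, zero_add, Fin.succAbove_last, mul_one]
  have h1 : (embM h).submatrix Fin.castSucc Fin.castSucc = h := by
    ext i j
    exact cc h i j
  rw [h1, Fin.val_last, ← two_mul, pow_mul]
  simp

theorem mem_of (h : Matrix (Fin n) (Fin n) ℂ) (hh : h ∈ Matrix.specialUnitaryGroup (Fin n) ℂ) :
    embM h ∈ Matrix.specialUnitaryGroup (Fin (n + 1)) ℂ := by
  rw [Matrix.mem_specialUnitaryGroup_iff] at hh ⊢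
  refine ⟨?_, by rw [det_embM]; exact hh.2⟩
  rw [Matrix.mem_unitaryGroup_iff] at hh ⊢
  rw [embM_star, ← embM_mul, hh.1, embM_one]

theorem coe_emb (h : SU n) : (emb h).1 = embM h.1 := by
  unfold emb
  rw [dif_pos (mem_of h.1 h.2)]

theorem embM_inj {h k : Matrix (Fin n) (Fin n) ℂ} (hk : embM h = embM k) : h = k := by
  ext i j
  rw [← cc h, ← cc k, hk]

theorem colE (g : SU (n + 1)) (h : SU n) : STZ.col (g * emb h) = STZ.col g := by
  funext i
  unfold STZ.col
  rw [coe_mul, coe_emb, Matrix.mul_apply, Fin.sum_univ_castSucc]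
  simp [cl, ll]

theorem stabE (g g' : SU (n + 1)) (hc : STZ.col g = STZ.col g') : ∃ k : SU n, g' = g * emb k := by
  set u : SU (n + 1) := g⁻¹ * g' with hu
  have h1 : ∀ i, u.1 i (Fin.last n) = if i = Fin.last n then 1 else 0 := by
    intro i
    have e1 : u.1 i (Fin.last n) = ∑ k, (g⁻¹).1 i k * g'.1 k (Fin.last n) := by
      rw [hu, coe_mul, Matrix.mul_apply]
    have e2 : ∀ k, g'.1 k (Fin.last n) = g.1 k (Fin.last n) := fun k => (congrFun hc k).symm
    have e3 : ((g⁻¹ * g : SU (n + 1))).1 i (Fin.last n) =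
        ∑ k, (g⁻¹).1 i k * g.1 k (Fin.last n) := by
      rw [coe_mul, Matrix.mul_apply]
    rw [e1]
    simp only [e2]
    rw [← e3, inv_mul_cancel, coe_one, Matrix.one_apply]
  have h2 : ∀ j : Fin n, u.1 (Fin.last n) j.castSucc = 0 := by
    have e1 : u.1 * star u.1 = 1 := u.2.1.2
    have e2 := congrFun (congrFun e1 (Fin.last n)) (Fin.last n)
    rw [Matrix.mul_apply, Matrix.one_apply_eq, Fin.sum_univ_castSucc, Matrix.star_apply,
      h1 (Fin.last n), if_pos rfl, star_one, mul_one] at e2
    have e3 : ∑ j : Fin n, u.1 (Fin.last n) j.castSucc * (star u.1) j.castSucc (Fin.last n) = 0 := by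
      linear_combination e2
    have e4 : ∑ j : Fin n, ‖u.1 (Fin.last n) j.castSucc‖ ^ 2 = 0 := by
      have e5 : ((∑ j : Fin n, ‖u.1 (Fin.last n) j.castSucc‖ ^ 2 : ℝ) : ℂ) = 0 := by
        rw [← e3]
        push_cast
        refine Finset.sum_congr rfl fun j _ => ?_
        rw [Matrix.star_apply]
        exact (Complex.mul_conj' _).symm
      exact_mod_cast e5
    intro j
    have e6 := (Finset.sum_eq_zero_iff_of_nonneg (fun j _ => by positivity)).1 e4 j
      (Finset.mem_univ j)
    have e7 : ‖u.1 (Fin.last n) j.castSucc‖ = 0 := by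
      exact pow_eq_zero_iff (two_ne_zero) |>.1 e6
    exact norm_eq_zero.1 e7
  set k : Matrix (Fin n) (Fin n) ℂ := u.1.submatrix Fin.castSucc Fin.castSucc with hk
  have h3 : embM k = u.1 := by
    ext i j
    induction i using Fin.lastCases with
    | last =>
      induction j using Fin.lastCases with
      | last => rw [ll, h1, if_pos rfl]
      | cast j => rw [lc, h2]
    | cast i =>
      induction j using Fin.lastCases with
      | last => rw [cl, h1, if_neg (Fin.castSucc_lt_last i).ne]
      | cast j => rw [cc, hk, Matrix.submatrix_apply]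
  have h4 : k ∈ Matrix.specialUnitaryGroup (Fin n) ℂ := by
    rw [Matrix.mem_specialUnitaryGroup_iff, Matrix.mem_unitaryGroup_iff]
    constructor
    · apply embM_inj
      rw [embM_mul, ← embM_star, h3, embM_one]
      exact u.2.1.2
    · rw [← det_embM, h3]
      exact u.2.2
  refine ⟨⟨k, h4⟩, ?_⟩
  have h5 : emb (⟨k, h4⟩ : SU n) = u := Subtype.ext (by rw [coe_emb]; exact h3)
  rw [h5, hu, mul_inv_cancel_left]

/-- the indices below `j` in `Fin n` and in `Fin (n + 1)` -/
def eq1 (j : ℕ) (hj : j ≤ n) : {i : Fin n // (i : ℕ) < j} ≃ {i : Fin (n + 1) // (i : ℕ) < j} where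
  toFun i := ⟨i.1.castSucc, by simpa using i.2⟩
  invFun i := ⟨⟨i.1, lt_of_lt_of_le i.2 hj⟩, i.2⟩
  left_inv i := by ext; rfl
  right_inv i := by ext; rfl

theorem mnr_emb (h : Matrix (Fin n) (Fin n) ℂ) (j : ℕ) (hj : j ≤ n) : mnr j (embM h) = mnr j h := by
  unfold mnr
  rw [← Matrix.det_submatrix_equiv_self (eq1 j hj)]
  congr 1
  ext a b
  exact cc h a.1 b.1

theorem minorE (g : SU (n + 1)) (h : SU n)
    (hg : ∀ i j : Fin (n + 1), i < j → j ≠ Fin.last n → g.1 i j = 0) (j : ℕ) (hj : j ≤ n) :
    mnr j (g * emb h).1 =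
      (∏ i ∈ Finset.univ.filter (fun i : Fin (n + 1) => (i : ℕ) < j), g.1 i i) * mnr j h.1 := by
  rw [← mnr_emb h.1 j hj]
  unfold mnr
  have h1 : (Matrix.of fun a b : {i : Fin (n + 1) // (i : ℕ) < j} => (g * emb h).1 a.1 b.1) =
      (Matrix.of fun a b : {i : Fin (n + 1) // (i : ℕ) < j} => g.1 a.1 b.1) *
      (Matrix.of fun a b : {i : Fin (n + 1) // (i : ℕ) < j} => embM h.1 a.1 b.1) := by
    ext a b
    rw [Matrix.mul_apply, Matrix.of_apply, coe_mul, coe_emb, Matrix.mul_apply]
    simp only [Matrix.of_apply]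
    rw [← Finset.sum_subtype (Finset.univ.filter fun i : Fin (n + 1) => (i : ℕ) < j)
      (fun x => by simp) (fun k => g.1 a.1 k * embM h.1 k b.1)]
    rw [Finset.sum_filter]
    refine Finset.sum_congr rfl fun k _ => ?_
    split_ifs with hk
    · rfl
    · by_cases hkl : k = Fin.last n
      · have hb : (b.1 : ℕ) < n := lt_of_lt_of_le b.2 hj
        have e1 : b.1 = (⟨b.1, hb⟩ : Fin n).castSucc := by ext; rfl
        rw [hkl, e1, lc, mul_zero]
      · rw [hg a.1 k _ hkl, zero_mul]
        rw [Fin.lt_def]
        exact lt_of_lt_of_le a.2 (not_lt.1 hk)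
  rw [h1, Matrix.det_mul]
  congr 1
  rw [Matrix.det_of_isLowerTriangular]
  · rw [Finset.prod_subtype (p := fun i : Fin (n + 1) => (i : ℕ) < j)
      (Finset.univ.filter fun i : Fin (n + 1) => (i : ℕ) < j) (fun x => by simp)
      (fun i => g.1 i i)]
    rfl
  · intro a b hab
    have hab' : a < b := hab
    rw [Matrix.of_apply]
    refine hg a.1 b.1 hab' ?_
    intro hb
    have h2 := b.2
    rw [hb, Fin.val_last] at h2
    omega

theorem fullE (h : SU n) : mnr n h.1 = 1 := by
  unfold mnr
  have h1 : ∀ i : Fin n, (i : ℕ) < n := fun i => i.2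
  rw [← Matrix.det_submatrix_equiv_self (Equiv.subtypeUnivEquiv h1).symm]
  have h2 : ((Matrix.of fun a b : {i : Fin n // (i : ℕ) < n} => h.1 a.1 b.1).submatrix
      (Equiv.subtypeUnivEquiv h1).symm (Equiv.subtypeUnivEquiv h1).symm) = h.1 := by
    ext a b
    rfl
  rw [h2]
  exact h.2.2

theorem lastE (g : SU (n + 1)) : mnr n g.1 = conj (g.1 (Fin.last n) (Fin.last n)) := by
  have hadj : g.1.adjugate = star g.1 := by
    have e1 : g.1 * g.1.adjugate = 1 := by
      have e0 : g.1.det = 1 := g.2.2
      rw [Matrix.mul_adjugate, e0, one_smul]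
    have e2 : star g.1 * g.1 = 1 := g.2.1.1
    calc g.1.adjugate = (star g.1 * g.1) * g.1.adjugate := by rw [e2, one_mul]
      _ = star g.1 * (g.1 * g.1.adjugate) := by rw [mul_assoc]
      _ = star g.1 := by rw [e1, mul_one]
  have h1 := Matrix.adjugate_fin_succ_eq_det_submatrix g.1 (Fin.last n) (Fin.last n)
  rw [hadj, Matrix.star_apply, Fin.val_last, ← two_mul, pow_mul, Fin.succAbove_last] at h1
  have h2 : mnr n g.1 = (g.1.submatrix Fin.castSucc Fin.castSucc).det := by
    unfold mnr
    have h3 : ∀ i : Fin n, (i : ℕ) < n := fun i => i.2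
    rw [← Matrix.det_submatrix_equiv_self ((Equiv.subtypeUnivEquiv h3).symm.trans (eq1 n le_rfl))]
    congr 1
  rw [h2]
  simpa using h1.symm

end EMB

theorem t_EMB : S_EMB := by
  intro n
  exact {
    coe := EMB.coe_emb
    cont := by
      rw [continuous_induced_rng]
      have h1 : (Subtype.val ∘ (emb : SU n → SU (n + 1))) = fun h : SU n => embM h.1 := by
        funext h
        exact EMB.coe_emb h
      rw [h1]
      refine continuous_matrix fun i j => ?_
      induction i using Fin.lastCases with
      | last =>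
        induction j using Fin.lastCases with
        | last => simp only [EMB.ll]; exact continuous_const
        | cast j => simp only [EMB.lc]; exact continuous_const
      | cast i =>
        induction j using Fin.lastCases with
        | last => simp only [EMB.cl]; exact continuous_const
        | cast j => simp only [EMB.cc]; exact continuous_entry i j
    mul := fun h k => Subtype.ext (by
      rw [EMB.coe_emb, coe_mul, coe_mul, EMB.coe_emb, EMB.coe_emb, EMB.embM_mul])
    one := Subtype.ext (by rw [EMB.coe_emb, coe_one, coe_one, EMB.embM_one])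
    col := EMB.colE
    stab := EMB.stabE
    minor := fun g h hg j hj => EMB.minorE g h hg j hj
    full := EMB.fullE
    zero := fun h => by
      unfold mnr
      have : IsEmpty {i : Fin n // (i : ℕ) < 0} := ⟨fun i => absurd i.2 (Nat.not_lt_zero _)⟩
      exact Matrix.det_isEmpty
    last := EMB.lastE }

end STZ
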