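import Pool.Agent.STZ.StmtsV

/-!
# ETAF: the cutoff function for the frequencies
-/

namespace STZ

open MeasureTheory Matrix

noncomputable section

namespace ETAF

/-- linear forms which agree are equal -/
lemma ext_dot {r : ℕ} {a b : Fin r → ℤ} (h : ∀ l, a ⬝ᵥ l = b ⬝ᵥ l) : a = b := by
  funext i
  have := h (Pi.single i 1)
  simpa using this

end ETAF

open ETAF in
theorem t_ETAF : M_ETAF := by
  intro hP r D P B h hX hT hE X hX1
  obtain ⟨C, -, hC⟩ := hP r
  obtain ⟨hnn, heven, hge, hsupp, -⟩ := hC X hX1
  refine ⟨?_, ?_, ?_, ?_⟩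
  · intro w hw l
    have hf := hE.cperm w hw
    choose! f hfP hf2 using hf
    obtain ⟨w', -, hw'⟩ := hX.w.W_inv w hw
    have hww : w * w' = 1 := mul_eq_one_comm.mp hw'
    have hsur : ∀ l : Fin r → ℤ, w *ᵥ (w' *ᵥ l) = l := by
      intro l
      rw [Matrix.mulVec_mulVec, hww, Matrix.one_mulVec]
    have hinj : ∀ p ∈ P, ∀ p' ∈ P, f p = f p' → p = p' := by
      intro p hp p' hp' hpp
      by_contra hne
      have key : (∀ l, p.2 ⬝ᵥ l = p'.2 ⬝ᵥ l) ∨ (∀ l, p.2 ⬝ᵥ l = (-p'.2) ⬝ᵥ l) := by
        rcases hf2 p hp with h1 | h1 <;> rcases hf2 p' hp' with h2 | h2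
        · left
          intro l
          have e1 := h1 (w' *ᵥ l)
          have e2 := h2 (w' *ᵥ l)
          rw [hsur] at e1 e2
          rw [e1, e2, hpp]
        · right
          intro l
          have e1 := h1 (w' *ᵥ l)
          have e2 := h2 (w' *ᵥ l)
          rw [hsur] at e1 e2
          rw [neg_dotProduct, e1, e2, hpp, neg_neg]
        · right
          intro l
          have e1 := h1 (w' *ᵥ l)
          have e2 := h2 (w' *ᵥ l)
          rw [hsur] at e1 e2
          rw [neg_dotProduct, e1, e2, hpp]
        · left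
          intro l
          have e1 := h1 (w' *ᵥ l)
          have e2 := h2 (w' *ᵥ l)
          rw [hsur] at e1 e2
          rw [e1, e2, hpp]
      rcases key with k | k
      · have := ext_dot k
        have := (hT.np2 p hp p' hp' hne 1 1 (by rw [this])).1
        exact one_ne_zero this
      · have := ext_dot k
        have := (hT.np2 p hp p' hp' hne 1 (-1) (by rw [this]; simp)).1
        exact one_ne_zero this
    have himg : P.image f = P := by
      refine Finset.eq_of_subset_of_card_le ?_ ?_
      · intro q hq
        obtain ⟨p, hp, rfl⟩ := Finset.mem_image.1 hq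
        exact hfP p hp
      · rw [Finset.card_image_of_injOn]
        intro p hp p' hp' hpp
        exact hinj p hp p' hp' hpp
    have e1 : et P X (w *ᵥ l) = ∏ p ∈ P, psm X r ((f p).2 ⬝ᵥ l) := by
      unfold et
      refine Finset.prod_congr rfl fun p hp => ?_
      rcases hf2 p hp with h1 | h1
      · rw [h1]
      · rw [h1, heven]
    rw [e1, et]
    conv_rhs => rw [← himg]
    rw [Finset.prod_image]
    intro p hp p' hp' hpp
    exact hinj p hp p' hp' hpp
  · intro l
    exact Finset.prod_nonneg fun p _ => hnn _
  · intro l hl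
    unfold et
    have key : ∀ Q : Finset ((Fin r → ℤ) × (Fin r → ℤ)), Q ⊆ P →
        1 ≤ ∏ p ∈ Q, psm X r (p.2 ⬝ᵥ l) := by
      intro Q
      induction Q using Finset.induction_on with
      | empty => intro _; simp
      | insert a Q ha ih =>
        intro hQ
        rw [Finset.prod_insert ha]
        have h1 := hge _ (hl a (hQ (Finset.mem_insert_self a Q)))
        have h2 := ih (fun q hq => hQ (Finset.mem_insert_of_mem hq))
        exact one_le_mul_of_one_le_of_one_le h1 h2
    exact key P (Finset.Subset.refl P)
  · intro l i hi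
    obtain ⟨p, hp, hp2⟩ := hE.sim i
    refine Finset.prod_eq_zero hp ?_
    rw [hp2]
    refine hsupp _ ?_
    simpa using hi

end

end STZ
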