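import Pool.Agent.STZ.StmtsP

/-!
# STZ, EXPW: the exterior powers
-/

namespace STZ

open Matrix

open scoped ComplexConjugate

noncomputable section

namespace EXPW

/-- the subsets with `k` elements -/
abbrev Sk (n k : ℕ) : Type := {s : Finset (Fin n) // s.card = k}

/-- the increasing enumeration of a subset with `k` elements -/
def en {n k : ℕ} (s : Sk n k) : Fin k ↪o Fin n := s.1.orderEmbOfFin s.2

/-- the compound matrix: the minors -/
def cm {n : ℕ} (k : ℕ) (M : Matrix (Fin n) (Fin n) ℂ) : Matrix (Sk n k) (Sk n k) ℂ :=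
  Matrix.of fun s t => (M.submatrix (en s) (en t)).det

/-- the basis of the exterior power -/
def bs (n k : ℕ) : Module.Basis (Sk n k) ℂ (⋀[ℂ]^k (Fin n → ℂ)) :=
  ((Pi.basisFun ℂ (Fin n)).exteriorPower k)

theorem cm_eq {n : ℕ} (k : ℕ) (M : Matrix (Fin n) (Fin n) ℂ) :
    cm k M = LinearMap.toMatrix (bs n k) (bs n k) (exteriorPower.map k (Matrix.toLin' M)) := by
  ext s t
  rw [LinearMap.toMatrix_apply]
  have h1 : bs n k t = exteriorPower.ιMulti ℂ k ((Pi.basisFun ℂ (Fin n)) ∘ en t) :=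
    exteriorPower.basis_apply ℂ k (Pi.basisFun ℂ (Fin n)) t
  rw [h1, exteriorPower.map_apply_ιMulti]
  have h2 := exteriorPower.basis_repr_apply ℂ k (Pi.basisFun ℂ (Fin n))
    (exteriorPower.ιMulti ℂ k ((Matrix.toLin' M) ∘ ((Pi.basisFun ℂ (Fin n)) ∘ en t))) s
  refine Eq.trans ?_ h2.symm
  rw [exteriorPower.ιMultiDual_apply_ιMulti]
  rw [← Matrix.det_transpose]
  rw [cm, Matrix.of_apply]
  congr 1
  ext i j
  rw [Matrix.transpose_apply, Matrix.of_apply, Matrix.submatrix_apply]
  have h3 : ((Matrix.toLin' M) ∘ ((Pi.basisFun ℂ (Fin n)) ∘ en t)) j = fun i => M i (en t j) := by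
    funext l
    simp [Matrix.toLin'_apply]
  rw [h3, Module.Basis.coord_apply, Pi.basisFun_repr]
  rfl

theorem cm_one {n : ℕ} (k : ℕ) : cm k (1 : Matrix (Fin n) (Fin n) ℂ) = 1 := by
  rw [cm_eq, Matrix.toLin'_one, exteriorPower.map_id, LinearMap.toMatrix_id]

theorem cm_mul {n : ℕ} (k : ℕ) (A B : Matrix (Fin n) (Fin n) ℂ) : cm k (A * B) = cm k A * cm k B := by
  rw [cm_eq, cm_eq, cm_eq, Matrix.toLin'_mul, exteriorPower.map_comp,
    LinearMap.toMatrix_comp (bs n k) (bs n k) (bs n k)]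

theorem cm_conjTranspose {n : ℕ} (k : ℕ) (M : Matrix (Fin n) (Fin n) ℂ) : cm k Mᴴ = (cm k M)ᴴ := by
  ext s t
  rw [Matrix.conjTranspose_apply, cm, cm, Matrix.of_apply, Matrix.of_apply, ← Matrix.det_conjTranspose,
    Matrix.conjTranspose_submatrix]

theorem cm_trace {n : ℕ} (k : ℕ) (M : Matrix (Fin n) (Fin n) ℂ) : (cm k M).trace = eg k M := by
  rw [eg, Finset.sum_subtype (p := fun s : Finset (Fin n) => s.card = k)
    (Finset.univ.powersetCard k) (by intro s; rw [Finset.mem_powersetCard_univ])]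
  refine Finset.sum_congr rfl fun s _ => ?_
  rw [Matrix.diag_apply, cm, Matrix.of_apply]
  have h := Matrix.det_submatrix_equiv_self (s.1.orderIsoOfFin s.2).toEquiv
    (M.submatrix (Subtype.val : s.1 → Fin n) (Subtype.val : s.1 → Fin n))
  rw [← h, Matrix.submatrix_submatrix]
  rfl

/-- the exterior power of the standard representation -/
def rep (n : ℕ) (H : Subgroup (SU n)) (k : ℕ) : Rep H (Sk n k) where
  ρ := ⟨⟨fun g => cm k g.1.1, cm_one k⟩, fun g h => cm_mul k g.1.1 h.1.1⟩
  cont := by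
    refine continuous_matrix fun s t => ?_
    change Continuous fun g : H => (g.1.1.submatrix (en s) (en t)).det
    have hc : Continuous fun g : H => g.1.1 := continuous_subtype_val.comp continuous_subtype_val
    exact (hc.matrix_submatrix _ _).matrix_det
  unit := fun g => cm_conjTranspose k g.1.1

end EXPW

theorem t_EXPW : M_EXPW := by
  intro hV n H k
  have h := (hV H).2.2.2.2 (EXPW.Sk n k) (EXPW.rep n H k)
  have h1 : (EXPW.rep n H k).ch = fun g : H => eg k g.1.1 := by
    funext g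
    exact EXPW.cm_trace k g.1.1
  rw [h1] at h
  exact h

end

end STZ
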