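import Pool.Agent.STZ.StmtsM

/-!
# STZ, EXSQ: the exterior square
-/

namespace STZ

open Matrix

open scoped ComplexConjugate

noncomputable section

namespace EXSQ

/-- pairs `i < j` -/
abbrev Pr (N : ℕ) : Type := {p : Fin N × Fin N // p.1 < p.2}

/-- the second compound matrix -/
def em {N : ℕ} (M : Matrix (Fin N) (Fin N) ℂ) : Matrix (Pr N) (Pr N) ℂ :=
  Matrix.of fun p q => M p.1.1 q.1.1 * M p.1.2 q.1.2 - M p.1.1 q.1.2 * M p.1.2 q.1.1

theorem sum_pairs {N : ℕ} (f : Fin N → Fin N → ℂ) (h0 : ∀ k, f k k = 0)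
    (hs : ∀ k l, f k l = f l k) :
    ∑ k, ∑ l, f k l = 2 * ∑ p : Pr N, f p.1.1 p.1.2 := by
  have h1 : ∑ p : Pr N, f p.1.1 p.1.2 =
      ∑ p ∈ (Finset.univ : Finset (Fin N × Fin N)).filter (fun p => p.1 < p.2), f p.1 p.2 := by
    rw [Finset.sum_subtype (p := fun p : Fin N × Fin N => p.1 < p.2)
      ((Finset.univ : Finset (Fin N × Fin N)).filter (fun p => p.1 < p.2))
      (by intro x; simp) (fun p => f p.1 p.2)]
  have h2 : ∑ p ∈ (Finset.univ : Finset (Fin N × Fin N)).filter (fun p => ¬ p.1 < p.2), f p.1 p.2 =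
      ∑ p ∈ (Finset.univ : Finset (Fin N × Fin N)).filter (fun p => p.1 < p.2), f p.1 p.2 := by
    have h3 : ∑ p ∈ (Finset.univ : Finset (Fin N × Fin N)).filter (fun p => ¬ p.1 < p.2), f p.1 p.2 =
        ∑ p ∈ (Finset.univ : Finset (Fin N × Fin N)).filter (fun p => p.2 < p.1), f p.1 p.2 := by
      symm
      apply Finset.sum_subset
      · intro p hp
        rw [Finset.mem_filter] at hp ⊢
        exact ⟨hp.1, not_lt.2 hp.2.le⟩
      · intro p hp hp2
        rw [Finset.mem_filter] at hp hp2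
        have h4 : p.1 = p.2 := by
          apply le_antisymm _ (not_lt.1 hp.2)
          rw [← not_lt]
          intro h5
          exact hp2 ⟨Finset.mem_univ _, h5⟩
        rw [h4, h0]
    rw [h3]
    refine Finset.sum_bij' (fun p _ => (p.2, p.1)) (fun p _ => (p.2, p.1)) ?_ ?_ ?_ ?_ ?_
    · intro p hp
      rw [Finset.mem_filter] at hp ⊢
      exact ⟨Finset.mem_univ _, hp.2⟩
    · intro p hp
      rw [Finset.mem_filter] at hp ⊢
      exact ⟨Finset.mem_univ _, hp.2⟩
    · intro p _
      rfl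
    · intro p _
      rfl
    · intro p _
      exact hs _ _
  rw [← Fintype.sum_prod_type' (f := fun k l => f k l),
    ← Finset.sum_filter_add_sum_filter_not _ (fun p : Fin N × Fin N => p.1 < p.2), h2, h1]
  ring

theorem em_mul {N : ℕ} (A B : Matrix (Fin N) (Fin N) ℂ) : em (A * B) = em A * em B := by
  ext p q
  obtain ⟨⟨i, j⟩, hp⟩ := p
  obtain ⟨⟨m, n⟩, hq⟩ := q
  rw [Matrix.mul_apply]
  simp only [em, Matrix.of_apply]
  have h := sum_pairs (fun k l => (A i k * A j l - A i l * A j k) * (B k m * B l n - B k n * B l m))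
    (by intro k; ring) (by intro k l; ring)
  have h1 : ∀ (a b : Fin N → ℂ), (∑ k, a k) * (∑ l, b l) = ∑ k, ∑ l, a k * b l := by
    intro a b
    rw [Finset.sum_mul_sum]
  have h2 : ∑ k, ∑ l, (A i k * A j l - A i l * A j k) * (B k m * B l n - B k n * B l m) =
      2 * ((A * B) i m * (A * B) j n - (A * B) i n * (A * B) j m) := by
    have e1 : (A * B) i m * (A * B) j n = ∑ k, ∑ l, (A i k * B k m) * (A j l * B l n) := by
      rw [Matrix.mul_apply, Matrix.mul_apply, h1]
    have e2 : (A * B) i n * (A * B) j m = ∑ k, ∑ l, (A i k * B k n) * (A j l * B l m) := by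
      rw [Matrix.mul_apply, Matrix.mul_apply, h1]
    have e3 : (A * B) j n * (A * B) i m = ∑ k, ∑ l, (A j k * B k n) * (A i l * B l m) := by
      rw [Matrix.mul_apply, Matrix.mul_apply, h1]
    have e4 : (A * B) j m * (A * B) i n = ∑ k, ∑ l, (A j k * B k m) * (A i l * B l n) := by
      rw [Matrix.mul_apply, Matrix.mul_apply, h1]
    have e5 : 2 * ((A * B) i m * (A * B) j n - (A * B) i n * (A * B) j m) =
        (A * B) i m * (A * B) j n - (A * B) i n * (A * B) j m + (A * B) j n * (A * B) i m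
          - (A * B) j m * (A * B) i n := by ring
    rw [e5, e1, e2, e3, e4, ← Finset.sum_sub_distrib, ← Finset.sum_add_distrib,
      ← Finset.sum_sub_distrib]
    refine Finset.sum_congr rfl fun k _ => ?_
    rw [← Finset.sum_sub_distrib, ← Finset.sum_add_distrib, ← Finset.sum_sub_distrib]
    refine Finset.sum_congr rfl fun l _ => ?_
    ring
  rw [h2] at h
  exact mul_left_cancel₀ two_ne_zero h

theorem em_one {N : ℕ} : em (1 : Matrix (Fin N) (Fin N) ℂ) = 1 := by
  ext p q
  obtain ⟨⟨i, j⟩, hp⟩ := p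
  obtain ⟨⟨k, l⟩, hq⟩ := q
  simp only [em, Matrix.of_apply]
  have hp' : i < j := hp
  have hq' : k < l := hq
  by_cases h : i = k ∧ j = l
  · obtain ⟨rfl, rfl⟩ := h
    rw [Matrix.one_apply_eq, Matrix.one_apply_eq, Matrix.one_apply_eq, Matrix.one_apply_ne hp'.ne]
    ring
  · rw [Matrix.one_apply_ne (i := (⟨(i, j), hp⟩ : Pr N))]
    · by_cases h1 : i = k
      · have h2 : j ≠ l := fun h2 => h ⟨h1, h2⟩
        have h3 : i ≠ l := by
          rintro rfl
          exact absurd hq' (by rw [h1]; exact lt_irrefl _)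
        rw [Matrix.one_apply_ne h2, Matrix.one_apply_ne h3]
        ring
      · rw [Matrix.one_apply_ne h1]
        by_cases h4 : i = l
        · have h5 : j ≠ k := by
            rintro rfl
            rw [← h4] at hq'
            exact absurd (hp'.trans hq') (lt_irrefl _)
          rw [Matrix.one_apply_ne h5]
          ring
        · rw [Matrix.one_apply_ne h4]
          ring
    · intro h6
      apply h
      have h7 := congrArg Subtype.val h6
      exact ⟨congrArg Prod.fst h7, congrArg Prod.snd h7⟩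

theorem em_conjTranspose {N : ℕ} (M : Matrix (Fin N) (Fin N) ℂ) : em Mᴴ = (em M)ᴴ := by
  ext p q
  rw [Matrix.conjTranspose_apply]
  simp only [em, Matrix.of_apply, Matrix.conjTranspose_apply, star_sub, star_mul']
  ring

theorem em_trace {N : ℕ} (M : Matrix (Fin N) (Fin N) ℂ) :
    (em M).trace = (M.trace ^ 2 - (M * M).trace) / 2 := by
  have h := sum_pairs (fun i j => M i i * M j j - M i j * M j i) (by intro k; ring)
    (by intro k l; ring)
  have h1 : (em M).trace = ∑ p : Pr N, (M p.1.1 p.1.1 * M p.1.2 p.1.2 - M p.1.1 p.1.2 * M p.1.2 p.1.1) :=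
    rfl
  have h2 : ∑ i, ∑ j, (M i i * M j j - M i j * M j i) = M.trace ^ 2 - (M * M).trace := by
    rw [pow_two, Matrix.trace, Matrix.trace, Finset.sum_mul_sum, ← Finset.sum_sub_distrib]
    refine Finset.sum_congr rfl fun i _ => ?_
    rw [Finset.sum_sub_distrib]
    rfl
  rw [h1, ← h2, h]
  ring

/-- the exterior square of the standard representation -/
def rep (N : ℕ) (H : Subgroup (SU N)) : Rep H (Pr N) where
  ρ := ⟨⟨fun g => em g.1.1, em_one⟩, fun g h => em_mul g.1.1 h.1.1⟩
  cont := by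
    refine continuous_matrix fun p q => ?_
    change Continuous fun g : H => g.1.1 p.1.1 q.1.1 * g.1.1 p.1.2 q.1.2 -
      g.1.1 p.1.1 q.1.2 * g.1.1 p.1.2 q.1.1
    have hc : ∀ i j, Continuous fun g : H => g.1.1 i j := fun i j =>
      (continuous_apply_apply i j).comp (continuous_subtype_val.comp continuous_subtype_val)
    exact ((hc _ _).mul (hc _ _)).sub ((hc _ _).mul (hc _ _))
  unit := fun g => em_conjTranspose g.1.1

end EXSQ

theorem t_EXSQ : M_EXSQ := by
  intro hV N H
  have h := (hV H).2.2.2.2 (EXSQ.Pr N) (EXSQ.rep N H)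
  have h1 : (EXSQ.rep N H).ch = fun g : H => (g.1.1.trace ^ 2 - (g.1.1 * g.1.1).trace) / 2 := by
    funext g
    exact EXSQ.em_trace g.1.1
  rw [h1] at h
  exact h

end

end STZ
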