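import Pool.Agent.STZ.StmtsK

/-!
# Module STZ_EXT: continuous functions of the elementary symmetric functions
-/

set_option autoImplicit false

namespace STZ

namespace EXT

theorem all (F : (Fin 2 → ℂ) → ℂ) (hF : Continuous F)
    (h : ∀ u v : ℂ, u ≠ v → F ![u + v, u * v] = 0) (u v : ℂ) : F ![u + v, u * v] = 0 := by
  by_cases huv : u = v
  · have hg : Continuous fun e : ℂ => F ![(u + e) + v, (u + e) * v] := by
      refine hF.comp (continuous_pi fun i => ?_)
      fin_cases i
      · show Continuous fun e : ℂ => (u + e) + v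
        fun_prop
      · show Continuous fun e : ℂ => (u + e) * v
        fun_prop
    have h0 : (fun e : ℂ => F ![(u + e) + v, (u + e) * v]) = fun _ => 0 := by
      refine Continuous.ext_on (dense_compl_singleton (0 : ℂ)) hg continuous_const ?_
      intro e he
      refine h (u + e) v ?_
      rw [huv]
      intro h1
      exact he (by simpa using h1)
    have h1 := congrFun h0 0
    simpa using h1
  · exact h u v huv

end EXT

theorem t_EXT : S_EXT := by
  intro F hF h x
  obtain ⟨s, hs⟩ := IsAlgClosed.exists_eq_mul_self (x 0 ^ 2 - 4 * x 1)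
  have h1 := EXT.all F hF h ((x 0 + s) / 2) ((x 0 - s) / 2)
  have h2 : (x 0 + s) / 2 + (x 0 - s) / 2 = x 0 := by ring
  have h3 : (x 0 + s) / 2 * ((x 0 - s) / 2) = x 1 := by linear_combination (-1 / 4 : ℂ) * hs.symm
  rw [h2, h3] at h1
  have h4 : (![x 0, x 1] : Fin 2 → ℂ) = x := by
    ext i
    fin_cases i <;> rfl
  rwa [h4] at h1

end STZ
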