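import Pool.Agent.STZ.StmtsP

/-! Module EXTA: the elementary symmetric functions are onto, and density of the injective sequences. -/

namespace STZ

open MeasureTheory Matrix

open scoped ComplexConjugate Matrix Real

noncomputable section

namespace EXTA

/-- the coefficients of the polynomial with given elementary symmetric functions -/
def cf {r : ℕ} (x : Fin r → ℂ) (i : ℕ) : ℂ := (-1) ^ (r + 1 - i) * ee x (r + 1 - i)

/-- the polynomial with given elementary symmetric functions -/
def pl {r : ℕ} (x : Fin r → ℂ) : Polynomial ℂ :=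
  Polynomial.X ^ (r + 1) + ∑ i : Fin (r + 1), Polynomial.C (cf x i.val) * Polynomial.X ^ (i.val)

lemma deg_lt {r : ℕ} (x : Fin r → ℂ) :
    (∑ i : Fin (r + 1), Polynomial.C (cf x i.val) * Polynomial.X ^ (i.val)).degree < ((r + 1 : ℕ) : WithBot ℕ) :=
  Polynomial.degree_sum_fin_lt fun i : Fin (r + 1) => cf x i.val

lemma pl_monic {r : ℕ} (x : Fin r → ℂ) : (pl x).Monic :=
  Polynomial.monic_X_pow_add (deg_lt x)

lemma pl_natDegree {r : ℕ} (x : Fin r → ℂ) : (pl x).natDegree = r + 1 := by
  have h : (pl x).degree = ((r + 1 : ℕ) : WithBot ℕ) := by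
    unfold pl
    rw [Polynomial.degree_add_eq_left_of_degree_lt]
    · exact Polynomial.degree_X_pow _
    · rw [Polynomial.degree_X_pow]
      exact deg_lt x
  exact Polynomial.natDegree_eq_of_degree_eq_some h

lemma pl_coeff {r : ℕ} (x : Fin r → ℂ) (k : ℕ) (hk : k < r + 1) : (pl x).coeff k = cf x k := by
  unfold pl
  rw [Polynomial.coeff_add, Polynomial.finsetSum_coeff, Polynomial.coeff_X_pow, if_neg (by omega), zero_add,
    Finset.sum_eq_single (⟨k, hk⟩ : Fin (r + 1))]
  · simp
  · intro b _ hb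
    rw [Polynomial.coeff_C_mul, Polynomial.coeff_X_pow, if_neg, mul_zero]
    intro h
    exact hb (Fin.ext h.symm)
  · intro h
    exact absurd (Finset.mem_univ _) h

lemma exv (n : ℕ) (s : Multiset ℂ) (hs : Multiset.card s = n) :
    ∃ v : Fin n → ℂ, (Finset.univ : Finset (Fin n)).val.map v = s := by
  subst hs
  refine ⟨fun i => s.toList.get (Fin.cast (Multiset.length_toList s).symm i), ?_⟩
  rw [Fin.univ_val_map]
  have : List.ofFn (fun i : Fin (Multiset.card s) => s.toList.get (Fin.cast (Multiset.length_toList s).symm i)) =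
      s.toList := by
    apply List.ext_get
    · simp
    · intro m h1 h2
      simp
  rw [this, Multiset.coe_toList]

lemma esk_eq {n : ℕ} (v : Fin n → ℂ) (k : ℕ) : esk v k = ((Finset.univ : Finset (Fin n)).val.map v).esymm k := by
  unfold esk
  rw [Finset.esymm_map_val]

lemma onto {r : ℕ} (x : Fin r → ℂ) : ∃ v : Fin (r + 1) → ℂ, ∏ k, v k = 1 ∧ esA v = x := by
  have hsp : (pl x).Splits := IsAlgClosed.splits (pl x)
  have hcard : Multiset.card (pl x).roots = r + 1 := by
    rw [← pl_natDegree x]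
    exact hsp.natDegree_eq_card_roots.symm
  obtain ⟨v, hv⟩ := exv (r + 1) (pl x).roots hcard
  have hprod : ((pl x).roots.map fun t => Polynomial.X - Polynomial.C t).prod = pl x := by
    have h := hsp.eq_prod_roots_of_monic (pl_monic x)
    exact h.symm
  have key : ∀ k : ℕ, k < r + 1 → esk v (r + 1 - k) = ee x (r + 1 - k) := by
    intro k hk
    have h1 := Multiset.prod_X_sub_C_coeff (pl x).roots (k := k) (by rw [hcard]; omega)
    rw [hprod, hcard, pl_coeff x k hk] at h1
    unfold cf at h1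
    rw [esk_eq, hv]
    have h2 : ((-1 : ℂ) ^ (r + 1 - k)) ≠ 0 := pow_ne_zero _ (by norm_num)
    exact (mul_left_cancel₀ h2 h1).symm
  refine ⟨v, ?_, ?_⟩
  · have h := key 0 (by omega)
    rw [Nat.sub_zero] at h
    have h3 : esk v (r + 1) = ∏ k, v k := by
      unfold esk
      have : (Finset.univ : Finset (Fin (r + 1))).powersetCard (r + 1) = {Finset.univ} := by
        have := Finset.powersetCard_self (Finset.univ : Finset (Fin (r + 1)))
        rwa [Finset.card_univ, Fintype.card_fin] at this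
      rw [this, Finset.sum_singleton]
    have h4 : ee x (r + 1) = 1 := by
      simp [ee]
    rw [← h3, h, h4]
  · funext i
    have h := key (r - i.val) (by omega)
    have h5 : r + 1 - (r - i.val) = i.val + 1 := by
      have := i.isLt
      omega
    rw [h5] at h
    unfold esA
    rw [h]
    simp [ee]

/-- the perturbed sequence -/
def pv {r : ℕ} (v : Fin (r + 1) → ℂ) (ε : ℝ) (k : Fin (r + 1)) : ℂ :=
  v k * Complex.exp ((ε * (2 * (k.val : ℝ) - r) : ℝ) : ℂ)

lemma pv_cont {r : ℕ} (v : Fin (r + 1) → ℂ) : Continuous fun ε : ℝ => pv v ε := by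
  refine continuous_pi fun k => ?_
  unfold pv
  fun_prop

lemma sum_s (r : ℕ) : ∑ k : Fin (r + 1), (2 * (k.val : ℝ) - r) = 0 := by
  rw [Finset.sum_sub_distrib, ← Finset.mul_sum]
  have h : ∑ k : Fin (r + 1), (k.val : ℝ) = (r : ℝ) * (r + 1) / 2 := by
    rw [Fin.sum_univ_eq_sum_range (fun k => (k : ℝ)) (r + 1)]
    induction r with
    | zero => simp
    | succ m ih =>
      rw [Finset.sum_range_succ, ih]
      push_cast
      ring
  rw [h]
  simp
  ring

lemma pv_prod {r : ℕ} (v : Fin (r + 1) → ℂ) (ε : ℝ) : ∏ k, pv v ε k = ∏ k, v k := by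
  unfold pv
  rw [Finset.prod_mul_distrib, ← Complex.exp_sum, ← Complex.ofReal_sum, ← Finset.mul_sum, sum_s]
  simp

lemma pv_zero {r : ℕ} (v : Fin (r + 1) → ℂ) : pv v 0 = v := by
  funext k
  simp [pv]

lemma pv_ne {r : ℕ} (v : Fin (r + 1) → ℂ) (hv : ∏ k, v k = 1) (k l : Fin (r + 1)) (h : k ≠ l) :
    ∀ᶠ ε in nhdsWithin (0 : ℝ) {0}ᶜ, pv v ε k ≠ pv v ε l := by
  by_cases hkl : v k = v l
  · refine eventually_nhdsWithin_of_forall fun ε hε => ?_
    have hε' : ε ≠ 0 := hε
    intro he
    unfold pv at he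
    rw [hkl] at he
    have hl : v l ≠ 0 := by
      intro h0
      have : ∏ k, v k = 0 := Finset.prod_eq_zero (Finset.mem_univ l) h0
      rw [hv] at this
      exact one_ne_zero this
    have h1 := mul_left_cancel₀ hl he
    rw [← Complex.ofReal_exp, ← Complex.ofReal_exp] at h1
    have h2 := Real.exp_injective (Complex.ofReal_injective h1)
    have h3 := mul_left_cancel₀ hε' h2
    apply h
    have h4 : (k.val : ℝ) = l.val := by linarith
    exact Fin.ext (by exact_mod_cast h4)
  · have hc : ∀ j : Fin (r + 1), Continuous fun ε : ℝ => pv v ε j := fun j =>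
      (continuous_apply j).comp (pv_cont v)
    have h1 : ∀ᶠ ε in nhds (0 : ℝ), pv v ε k ≠ pv v ε l := by
      have ho : IsOpen {ε : ℝ | pv v ε k ≠ pv v ε l} := isOpen_ne_fun (hc k) (hc l)
      exact ho.mem_nhds (by
        show pv v 0 k ≠ pv v 0 l
        rw [pv_zero]
        exact hkl)
    exact h1.filter_mono nhdsWithin_le_nhds

lemma pv_inj {r : ℕ} (v : Fin (r + 1) → ℂ) (hv : ∏ k, v k = 1) :
    ∀ᶠ ε in nhdsWithin (0 : ℝ) {0}ᶜ, Function.Injective (pv v ε) := by
  have h : ∀ᶠ ε in nhdsWithin (0 : ℝ) {0}ᶜ, ∀ k l : Fin (r + 1), k ≠ l → pv v ε k ≠ pv v ε l := by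
    rw [Filter.eventually_all]
    intro k
    rw [Filter.eventually_all]
    intro l
    by_cases hkl : k = l
    · exact Filter.Eventually.of_forall fun ε hne => absurd hkl hne
    · exact (pv_ne v hv k l hkl).mono fun ε hε _ => hε
  refine h.mono fun ε hε k l hkl => ?_
  by_contra hne
  exact hε k l hne hkl

lemma esA_cont {r : ℕ} : Continuous fun v : Fin (r + 1) → ℂ => esA v := by
  refine continuous_pi fun i => ?_
  unfold esA esk
  fun_prop

lemma dens {r : ℕ} (F : (Fin r → ℂ) → ℂ) (hF : Continuous F)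
    (h : ∀ v : Fin (r + 1) → ℂ, Function.Injective v → ∏ k, v k = 1 → F (esA v) = 0) (x : Fin r → ℂ) :
    F x = 0 := by
  obtain ⟨v, hv, hx⟩ := onto x
  have hc : Continuous fun ε : ℝ => F (esA (pv v ε)) := hF.comp (esA_cont.comp (pv_cont v))
  have h1 : Filter.Tendsto (fun ε : ℝ => F (esA (pv v ε))) (nhdsWithin (0 : ℝ) {0}ᶜ) (nhds (F x)) := by
    have h0 := (hc.tendsto 0).mono_left (nhdsWithin_le_nhds (s := {0}ᶜ))
    simp only [pv_zero, hx] at h0
    exact h0
  have h2 : Filter.Tendsto (fun ε : ℝ => F (esA (pv v ε))) (nhdsWithin (0 : ℝ) {0}ᶜ) (nhds 0) := by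
    refine Filter.Tendsto.congr' ?_ tendsto_const_nhds
    filter_upwards [pv_inj v hv] with ε hε
    exact (h _ hε ((pv_prod v ε).trans hv)).symm
  exact tendsto_nhds_unique h1 h2

end EXTA

theorem t_EXTA : S_EXTA := fun _ => ⟨fun x => EXTA.onto x, fun F hF h x => EXTA.dens F hF h x⟩

end

end STZ
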