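import Pool.Agent.STZ.StmtsL

/-!
# Module FIB: integration over the fibres
-/

namespace STZ

open MeasureTheory Matrix

open scoped ComplexConjugate Matrix Real ENNReal

noncomputable section

namespace FIB

/-- The last column of a special unitary matrix is a unit vector. -/
theorem T_col {n : ℕ} (g : SU (n + 1)) : T 0 (col g) = 1 := by
  have h1 : g.1 ∈ Matrix.unitaryGroup (Fin (n + 1)) ℂ := (Matrix.mem_specialUnitaryGroup_iff.1 g.2).1
  have h2 : star g.1 * g.1 = 1 := Matrix.mem_unitaryGroup_iff'.1 h1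
  have h3 := congrFun (congrFun h2 (Fin.last n)) (Fin.last n)
  rw [Matrix.mul_apply, Matrix.one_apply_eq] at h3
  have h4 : ∀ k, (star g.1) (Fin.last n) k * g.1 k (Fin.last n) = ((‖g.1 k (Fin.last n)‖ ^ 2 : ℝ) : ℂ) := by
    intro k
    rw [Matrix.star_apply, Complex.star_def, Complex.conj_mul']
    push_cast
    rfl
  simp_rw [h4] at h3
  have h5 : (((∑ k, ‖g.1 k (Fin.last n)‖ ^ 2 : ℝ)) : ℂ) = ((1 : ℝ) : ℂ) := by
    push_cast
    push_cast at h3
    exact h3
  have h6 := Complex.ofReal_injective h5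
  unfold T col
  rw [← h6]
  apply Finset.sum_congr
  · ext k
    simp
  · intro k _
    rfl

/-- The last tail sum. -/
theorem T_last {n : ℕ} (x : Fin (n + 1) → ℂ) : T n x = ‖x (Fin.last n)‖ ^ 2 := by
  unfold T
  have : Finset.univ.filter (fun k : Fin (n + 1) => n ≤ (k : ℕ)) = {Fin.last n} := by
    ext k
    simp only [Finset.mem_filter, Finset.mem_univ, true_and, Finset.mem_singleton]
    constructor
    · intro h
      apply Fin.ext
      rw [Fin.val_last]
      omega
    · rintro rfl
      exact (Fin.val_last n).ge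
  rw [this, Finset.sum_singleton]

theorem T_pos {n : ℕ} (x : Fin (n + 1) → ℂ) (hx : x (Fin.last n) ≠ 0) (j : ℕ) (hj : j ≤ n) : 0 < T j x := by
  unfold T
  apply Finset.sum_pos'
  · intro i _
    positivity
  · refine ⟨Fin.last n, ?_, ?_⟩
    · simp only [Finset.mem_filter, Finset.mem_univ, true_and, Fin.val_last]
      exact hj
    · have : 0 < ‖x (Fin.last n)‖ := norm_pos_iff.2 hx
      positivity

/-- The product of the first diagonal entries. -/
theorem prod_diag {n : ℕ} (x : Fin (n + 1) → ℂ) (hx : x (Fin.last n) ≠ 0) (h0 : T 0 x = 1)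
    (A : Matrix (Fin (n + 1)) (Fin (n + 1)) ℂ)
    (hd : ∀ j : Fin (n + 1), j ≠ Fin.last n → ‖A j j‖ ^ 2 = T ((j : ℕ) + 1) x / T (j : ℕ) x) (j : ℕ)
    (hj : j ≤ n) :
    ‖∏ i ∈ Finset.univ.filter (fun i : Fin (n + 1) => (i : ℕ) < j), A i i‖ ^ 2 = T j x := by
  induction j with
  | zero =>
    rw [h0]
    simp
  | succ j ih =>
    have hjn : j < n := hj
    have hj1 : j < n + 1 := by omega
    have hset : Finset.univ.filter (fun i : Fin (n + 1) => (i : ℕ) < j + 1) =
        insert ⟨j, hj1⟩ (Finset.univ.filter (fun i : Fin (n + 1) => (i : ℕ) < j)) := by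
      ext i
      simp only [Finset.mem_filter, Finset.mem_univ, true_and, Finset.mem_insert, Fin.ext_iff]
      omega
    have hnot : (⟨j, hj1⟩ : Fin (n + 1)) ∉ Finset.univ.filter (fun i : Fin (n + 1) => (i : ℕ) < j) := by
      simp
    rw [hset, Finset.prod_insert hnot, norm_mul, mul_pow, ih hjn.le]
    have hne : (⟨j, hj1⟩ : Fin (n + 1)) ≠ Fin.last n := by
      intro h
      have := congrArg Fin.val h
      simp only [Fin.val_last] at this
      omega
    rw [hd _ hne]
    have hp := T_pos x hx j hjn.le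
    exact div_mul_cancel₀ _ hp.ne'

/-- The power of the norm in terms of the square. -/
theorem rpow_two_mul' (a s : ℝ) (ha : 0 ≤ a) : a ^ (2 * s) = (a ^ 2) ^ s := by
  rw [Real.rpow_mul ha]
  norm_num

end FIB

open FIB in
theorem t_FIB : M_FIB := by
  intro hTR hEM n hn s hs μ _ _ g
  have hE := hEM n
  have hT0 := T_col g
  by_cases hx : col g (Fin.last n) = 0
  · -- both sides vanish
    have hr : ∏ j ∈ Finset.Icc 1 n, T j (col g) ^ s = 0 := by
      apply Finset.prod_eq_zero (Finset.mem_Icc.2 ⟨hn, le_rfl⟩)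
      rw [T_last, hx, norm_zero]
      norm_num
      exact Real.zero_rpow hs.ne'
    rw [hr, zero_mul]
    have hl : ∀ h : SU n, ∏ j ∈ Finset.range (n + 1), ‖mnr j (g * emb h).1‖ ^ (2 * s) = 0 := by
      intro h
      apply Finset.prod_eq_zero (Finset.mem_range.2 (Nat.lt_succ_self n))
      have h1 := hE.last (g * emb h)
      have h2 : (g * emb h).1 (Fin.last n) (Fin.last n) = 0 := by
        have h3 := congrFun (hE.col g h) (Fin.last n)
        rw [hx] at h3
        exact h3
      rw [h1, h2, map_zero, norm_zero]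
      exact Real.zero_rpow (by positivity)
    rw [integral_congr_ae (Filter.Eventually.of_forall hl)]
    exact integral_zero _ _
  · obtain ⟨g', hc, htri, hd⟩ := hTR n hn (col g) hT0 hx
    have hcol : col g' = col g := by
      funext i
      exact hc i
    obtain ⟨k, hk⟩ := hE.stab g' g hcol
    have hmul : ∀ h : SU n, g * emb h = g' * emb (k * h) := by
      intro h
      rw [hk, hE.mul, mul_assoc]
    have hF : ∀ h : SU n, ∏ j ∈ Finset.range (n + 1), ‖mnr j (g' * emb h).1‖ ^ (2 * s) =
        (∏ j ∈ Finset.Icc 1 n, T j (col g) ^ s) * ∏ j ∈ Finset.range n, ‖mnr j h.1‖ ^ (2 * s) := by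
      intro h
      have h1 : ∀ j ∈ Finset.range (n + 1), ‖mnr j (g' * emb h).1‖ ^ (2 * s) =
          T j (col g) ^ s * ‖mnr j h.1‖ ^ (2 * s) := by
        intro j hj
        have hjn : j ≤ n := by
          rw [Finset.mem_range] at hj
          omega
        rw [hE.minor g' h htri j hjn, norm_mul, Real.mul_rpow (norm_nonneg _) (norm_nonneg _),
          rpow_two_mul' _ _ (norm_nonneg _), prod_diag (col g) hx hT0 g'.1 hd j hjn]
      rw [Finset.prod_congr rfl h1, Finset.prod_mul_distrib]
      congr 1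
      · rw [Finset.range_eq_Ico, Finset.prod_eq_prod_Ico_succ_bot (Nat.succ_pos n), hT0, Real.one_rpow, one_mul]
        rfl
      · rw [Finset.prod_range_succ, hE.full h, norm_one, Real.one_rpow, mul_one]
    calc ∫ h, ∏ j ∈ Finset.range (n + 1), ‖mnr j (g * emb h).1‖ ^ (2 * s) ∂μ
        = ∫ h, (fun h' : SU n => ∏ j ∈ Finset.range (n + 1), ‖mnr j (g' * emb h').1‖ ^ (2 * s)) (k * h) ∂μ := by
          apply integral_congr_ae
          apply Filter.Eventually.of_forall
          intro h
          simp only [hmul h]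
      _ = ∫ h, ∏ j ∈ Finset.range (n + 1), ‖mnr j (g' * emb h).1‖ ^ (2 * s) ∂μ :=
          integral_mul_left_eq_self (fun h' : SU n => ∏ j ∈ Finset.range (n + 1), ‖mnr j (g' * emb h').1‖ ^ (2 * s)) k
      _ = ∫ h, (∏ j ∈ Finset.Icc 1 n, T j (col g) ^ s) * ∏ j ∈ Finset.range n, ‖mnr j h.1‖ ^ (2 * s) ∂μ :=
          integral_congr_ae (Filter.Eventually.of_forall hF)
      _ = (∏ j ∈ Finset.Icc 1 n, T j (col g) ^ s) * ∫ h, ∏ j ∈ Finset.range n, ‖mnr j h.1‖ ^ (2 * s) ∂μ :=
          integral_const_mul _ _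

end

end STZ
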