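import Pool.Agent.STZ.StmtsN

/-!
# STZ, module FRA: the frame of the Lie algebra of `SU(3)`
-/

namespace STZ

open MeasureTheory Matrix

open scoped ComplexConjugate Matrix Real

noncomputable section

namespace FRA

/-- the trace of a product of two elements of `su 3` is real -/
theorem tr_real {n : ℕ} {X Y : Matrix (Fin n) (Fin n) ℂ} (hX : X ∈ su n) (hY : Y ∈ su n) :
    conj (X * Y).trace = (X * Y).trace := by
  have h1 : Xᴴ = -X := hX.1
  have h2 : Yᴴ = -Y := hY.1
  have h3 : conj (X * Y).trace = ((X * Y)ᴴ).trace := by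
    rw [Matrix.trace_conjTranspose]
    rfl
  rw [h3, Matrix.conjTranspose_mul, h1, h2, neg_mul_neg, Matrix.trace_mul_comm]

end FRA

open FRA in
theorem t_FRA : M_FRA := by
  intro hFRX hCAS
  obtain ⟨X, hX⟩ := hFRX
  have hc := hCAS 3 (by norm_num) X hX
  refine ⟨X, ⟨fun a => ⟨hX.mem a, fun t => Subgroup.mem_top _⟩, fun a b => ?_, ?_⟩⟩
  · have h := hX.orth a b
    have e : -(2 * ((3 : ℕ) : ℂ)) = -((6 : ℝ) : ℂ) := by
      push_cast
      norm_num
    rw [e] at h
    exact h
  · rintro Y ⟨hY, -⟩
    refine ⟨fun a => (-6 * (X a * Y).trace).re, ?_⟩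
    have hre : ∀ a, (((-6 * (X a * Y).trace).re : ℝ) : ℂ) = -6 * (X a * Y).trace := by
      intro a
      apply Complex.conj_eq_iff_re.1
      have h6 : conj (-6 : ℂ) = -6 := by
        rw [map_neg]
        exact congrArg Neg.neg (Complex.conj_ofNat 6)
      rw [map_mul, tr_real (hX.mem a) hY, h6]
    have hgoal : Y = ∑ a, ((-6 : ℂ) * (X a * Y).trace) • X a := by
      ext i j
      rw [Matrix.sum_apply]
      have e1 : ∀ a, (((-6 : ℂ) * (X a * Y).trace) • X a) i j =
          ∑ k, ∑ l, (-6 : ℂ) * (X a i j * X a k l) * Y l k := by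
        intro a
        rw [Matrix.smul_apply, Matrix.trace, smul_eq_mul]
        simp only [Matrix.diag_apply, Matrix.mul_apply, Finset.mul_sum, Finset.sum_mul]
        refine Finset.sum_congr rfl fun k _ => Finset.sum_congr rfl fun l _ => ?_
        ring
      rw [Finset.sum_congr rfl fun a _ => e1 a, Finset.sum_comm]
      have e2 : ∀ k, ∑ a, ∑ l, (-6 : ℂ) * (X a i j * X a k l) * Y l k =
          ∑ l, ((if i = l ∧ j = k then Y l k else 0) -
            (if i = j ∧ k = l then (1 / 3 : ℂ) * Y l k else 0)) := by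
        intro k
        rw [Finset.sum_comm]
        refine Finset.sum_congr rfl fun l _ => ?_
        rw [← Finset.sum_mul, ← Finset.mul_sum, hc i j k l]
        push_cast
        split_ifs <;> ring
      rw [Finset.sum_congr rfl fun k _ => e2 k]
      have hY0 : Y 0 0 + Y 1 1 + Y 2 2 = 0 := by
        have := hY.2
        rw [Matrix.trace_fin_three] at this
        exact this
      fin_cases i <;> fin_cases j <;>
        simp [Fin.sum_univ_three] <;> linear_combination (1 / 3 : ℂ) * hY0
    rw [hgoal]
    refine Finset.sum_congr rfl fun a _ => ?_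
    rw [← hgoal, ← hre a]

end

end STZ
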