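import Pool.Agent.STZ.StmtsP

/-!
# STZ, module FRAN: an orthonormal basis of `su(n)`

A real matrix `B` with skew part `A` and symmetric part `S` gives the skew-Hermitian matrix `A + i S`. This is an
isometry, and the trace is `i tr B`; so an orthonormal basis of the orthogonal complement of the identity gives
an orthonormal basis of `su(n)`.
-/

namespace STZ

open MeasureTheory Matrix

open scoped ComplexConjugate Matrix Real

noncomputable section

namespace FRAN

/-- the trace of a product of two elements of `su n` is real -/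
theorem tr_real {n : ℕ} {X Y : Matrix (Fin n) (Fin n) ℂ} (hX : X ∈ su n) (hY : Y ∈ su n) :
    conj (X * Y).trace = (X * Y).trace := by
  have h1 : Xᴴ = -X := hX.1
  have h2 : Yᴴ = -Y := hY.1
  have h3 : conj (X * Y).trace = ((X * Y)ᴴ).trace := by
    rw [Matrix.trace_conjTranspose]
    rfl
  rw [h3, Matrix.conjTranspose_mul, h1, h2, neg_mul_neg, Matrix.trace_mul_comm]

/-- a frame of `su n` spans -/
theorem span (hCAS : S_CAS) {n : ℕ} (hn : 1 ≤ n) {X : Fin (n ^ 2 - 1) → Matrix (Fin n) (Fin n) ℂ}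
    (hX : Frame X) {Y : Matrix (Fin n) (Fin n) ℂ} (hY : Y ∈ su n) :
    ∃ y : Fin (n ^ 2 - 1) → ℝ, Y = ∑ a, (y a : ℂ) • X a := by
  have hc := hCAS n hn X hX
  have hn0 : (n : ℂ) ≠ 0 := by
    have : n ≠ 0 := by omega
    exact_mod_cast this
  refine ⟨fun a => (-(2 * (n : ℂ)) * (X a * Y).trace).re, ?_⟩
  have hre : ∀ a, (((-(2 * (n : ℂ)) * (X a * Y).trace).re : ℝ) : ℂ) =
      -(2 * (n : ℂ)) * (X a * Y).trace := by
    intro a
    apply Complex.conj_eq_iff_re.1
    have h6 : conj (-(2 * (n : ℂ))) = -(2 * (n : ℂ)) := by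
      have h7 : conj (2 : ℂ) = 2 := Complex.conj_ofNat 2
      rw [map_neg, map_mul, h7, Complex.conj_natCast]
    rw [map_mul, tr_real (hX.mem a) hY, h6]
  have hgoal : Y = ∑ a, (-(2 * (n : ℂ)) * (X a * Y).trace) • X a := by
    ext i j
    rw [Matrix.sum_apply]
    have e1 : ∀ a, ((-(2 * (n : ℂ)) * (X a * Y).trace) • X a) i j =
        ∑ k, ∑ l, (-(2 * (n : ℂ))) * (X a i j * X a k l) * Y l k := by
      intro a
      rw [Matrix.smul_apply, Matrix.trace, smul_eq_mul]
      simp only [Matrix.diag_apply, Matrix.mul_apply, Finset.mul_sum, Finset.sum_mul]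
      refine Finset.sum_congr rfl fun k _ => Finset.sum_congr rfl fun l _ => ?_
      ring
    rw [Finset.sum_congr rfl fun a _ => e1 a, Finset.sum_comm]
    have e2 : ∀ k, ∑ a, ∑ l, (-(2 * (n : ℂ))) * (X a i j * X a k l) * Y l k =
        ∑ l, ((if i = l ∧ j = k then Y l k else 0) -
          (if i = j ∧ k = l then (1 / (n : ℂ)) * Y l k else 0)) := by
      intro k
      rw [Finset.sum_comm]
      refine Finset.sum_congr rfl fun l _ => ?_
      rw [← Finset.sum_mul, ← Finset.mul_sum, hc i j k l]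
      split_ifs <;> field_simp
      all_goals ring
    rw [Finset.sum_congr rfl fun k _ => e2 k]
    have hY0 : ∑ k, Y k k = 0 := by
      have := hY.2
      rw [Matrix.trace] at this
      exact this
    simp only [Finset.sum_sub_distrib]
    have e3 : ∑ k, ∑ l, (if i = l ∧ j = k then Y l k else 0) = Y i j := by
      rw [Finset.sum_eq_single j, Finset.sum_eq_single i]
      · simp
      · intro l _ hl
        rw [if_neg]
        exact fun h => hl h.1.symm
      · simp
      · intro k _ hk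
        apply Finset.sum_eq_zero
        intro l _
        rw [if_neg]
        exact fun h => hk h.2.symm
      · simp
    have e4 : ∑ k, ∑ l, (if i = j ∧ k = l then (1 / (n : ℂ)) * Y l k else 0) = 0 := by
      by_cases hij : i = j
      · have e5 : ∀ k, ∑ l, (if i = j ∧ k = l then (1 / (n : ℂ)) * Y l k else 0) =
            (1 / (n : ℂ)) * Y k k := by
          intro k
          rw [Finset.sum_eq_single k]
          · simp [hij]
          · intro l _ hl
            rw [if_neg]
            exact fun h => hl h.2.symm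
          · simp
        rw [Finset.sum_congr rfl fun k _ => e5 k, ← Finset.mul_sum, hY0, mul_zero]
      · apply Finset.sum_eq_zero
        intro k _
        apply Finset.sum_eq_zero
        intro l _
        rw [if_neg]
        exact fun h => hij h.1
    rw [e3, e4, sub_zero]
  rw [hgoal]
  refine Finset.sum_congr rfl fun a _ => ?_
  rw [← hgoal, ← hre a]

/-- the skew-Hermitian matrix of a real matrix -/
def skm {n : ℕ} (c : ℝ) (B : Fin n × Fin n → ℝ) : Matrix (Fin n) (Fin n) ℂ :=
  Matrix.of fun i j => (c : ℂ) * (((B (i, j) - B (j, i) : ℝ) : ℂ) / 2 +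
    Complex.I * (((B (i, j) + B (j, i) : ℝ) : ℂ) / 2))

theorem skm_mem {n : ℕ} (c : ℝ) (B : Fin n × Fin n → ℝ) (hB : ∑ i, B (i, i) = 0) :
    skm c B ∈ su n := by
  constructor
  · ext i j
    rw [Matrix.conjTranspose_apply, Matrix.neg_apply]
    simp only [skm, Matrix.of_apply, Complex.star_def, map_mul, map_add, map_div₀,
      Complex.conj_ofReal, Complex.conj_I]
    have h2 : conj (2 : ℂ) = 2 := Complex.conj_ofNat 2
    rw [h2]
    push_cast
    ring
  · rw [Matrix.trace]
    have e : ∀ i, (skm c B).diag i = (c : ℂ) * Complex.I * ((B (i, i) : ℝ) : ℂ) := by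
      intro i
      simp only [skm, Matrix.diag_apply, Matrix.of_apply]
      push_cast
      ring
    rw [Finset.sum_congr rfl fun i _ => e i, ← Finset.mul_sum, ← Complex.ofReal_sum, hB]
    simp

theorem skm_trace {n : ℕ} (c : ℝ) (B B' : Fin n × Fin n → ℝ) :
    (skm c B * skm c B').trace = -((c : ℂ) * c) * ((∑ p, B p * B' p : ℝ) : ℂ) := by
  rw [Matrix.trace]
  simp only [Matrix.diag_apply, Matrix.mul_apply]
  have e : ∀ i j, skm c B i j * skm c B' j i =
      -((c : ℂ) * c) / 2 * ((B (i, j) : ℂ) * B' (i, j)) +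
      -((c : ℂ) * c) / 2 * ((B (j, i) : ℂ) * B' (j, i)) +
      (Complex.I * ((c : ℂ) * c) / 2 * ((B (i, j) : ℂ) * B' (j, i)) -
      Complex.I * ((c : ℂ) * c) / 2 * ((B (j, i) : ℂ) * B' (i, j))) := by
    intro i j
    simp only [skm, Matrix.of_apply]
    push_cast
    linear_combination ((c : ℂ) * c / 4 * ((B (i, j) : ℂ) + B (j, i)) *
      ((B' (j, i) : ℂ) + B' (i, j))) * Complex.I_mul_I
  simp only [e, Finset.sum_add_distrib, Finset.sum_sub_distrib, ← Finset.mul_sum]
  have h1 : ∑ i, ∑ j, ((B (j, i) : ℂ) * B' (j, i)) = ∑ i, ∑ j, ((B (i, j) : ℂ) * B' (i, j)) := by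
    rw [Finset.sum_comm]
  have h2 : ∑ i, ∑ j, ((B (j, i) : ℂ) * B' (i, j)) = ∑ i, ∑ j, ((B (i, j) : ℂ) * B' (j, i)) := by
    rw [Finset.sum_comm]
  rw [h1, h2]
  have h3 : ((∑ p, B p * B' p : ℝ) : ℂ) = ∑ i, ∑ j, ((B (i, j) : ℂ) * B' (i, j)) := by
    rw [Fintype.sum_prod_type]
    push_cast
    rfl
  rw [h3]
  ring

/-- an orthonormal family of real matrices of trace zero -/
theorem basis {n : ℕ} (hn : 1 ≤ n) : ∃ B : Fin (n ^ 2 - 1) → Fin n × Fin n → ℝ,
    (∀ a, ∑ i, B a (i, i) = 0) ∧ ∀ a b, ∑ p, B a p * B b p = if a = b then 1 else 0 := by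
  have hfr : Module.finrank ℝ (EuclideanSpace ℝ (Fin n × Fin n)) = (n ^ 2 - 1) + 1 := by
    rw [finrank_euclideanSpace, Fintype.card_prod, Fintype.card_fin,
      Nat.sub_add_cancel (Nat.one_le_pow _ _ hn), sq]
  have : Fact (Module.finrank ℝ (EuclideanSpace ℝ (Fin n × Fin n)) = (n ^ 2 - 1) + 1) := ⟨hfr⟩
  let v : EuclideanSpace ℝ (Fin n × Fin n) :=
    WithLp.toLp 2 (fun p : Fin n × Fin n => if p.1 = p.2 then (1 : ℝ) else 0)
  have hv : v ≠ 0 := by
    intro h
    have h1 : v (⟨0, by omega⟩, ⟨0, by omega⟩) = 0 := by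
      rw [h]
      rfl
    simp [v] at h1
  let b := OrthonormalBasis.fromOrthogonalSpanSingleton (𝕜 := ℝ) (n ^ 2 - 1) hv
  refine ⟨fun a p => (b a : EuclideanSpace ℝ (Fin n × Fin n)) p, fun a => ?_, fun a a' => ?_⟩
  · have h := (b a).2
    rw [Submodule.mem_orthogonal_singleton_iff_inner_right] at h
    rw [PiLp.inner_apply, Fintype.sum_prod_type] at h
    rw [← h]
    refine Finset.sum_congr rfl fun i _ => ?_
    rw [Finset.sum_eq_single i]
    · simp [v]
    · intro j _ hj
      have : i ≠ j := fun h => hj h.symm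
      simp [v, this]
    · simp
  · have h := orthonormal_iff_ite.1 b.orthonormal a a'
    rw [Submodule.coe_inner, PiLp.inner_apply] at h
    rw [← h]
    refine Finset.sum_congr rfl fun p _ => ?_
    simp [mul_comm]

end FRAN

open FRAN in
theorem t_FRAN : M_FRAN := by
  intro _ hCAS n hn
  obtain ⟨B, hB0, hB⟩ := basis hn
  have hn0 : (0 : ℝ) < 2 * n := by
    have : (1 : ℝ) ≤ n := by exact_mod_cast hn
    linarith
  let c : ℝ := (√(2 * n))⁻¹
  have hc : c * c = (2 * (n : ℝ))⁻¹ := by
    show (√(2 * n))⁻¹ * (√(2 * n))⁻¹ = _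
    rw [← mul_inv, Real.mul_self_sqrt hn0.le]
  have hcc : (2 * (n : ℂ)) * ((c : ℂ) * c) = 1 := by
    rw [← Complex.ofReal_mul, hc]
    push_cast
    have : (2 * (n : ℂ)) ≠ 0 := by
      have h : (((2 * n : ℝ)) : ℂ) ≠ 0 := by
        exact_mod_cast hn0.ne'
      push_cast at h
      exact h
    exact mul_inv_cancel₀ this
  have hF : Frame (fun a => skm c (B a)) := by
    refine ⟨fun a => skm_mem c (B a) (hB0 a), fun a b => ?_⟩
    rw [skm_trace, hB a b]
    split_ifs
    · push_cast
      linear_combination hcc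
    · simp
  refine ⟨fun a => skm c (B a), ⟨fun a => ⟨hF.mem a, fun t => Subgroup.mem_top _⟩, fun a b => ?_,
    fun Y hY => span hCAS hn hF hY.1⟩⟩
  have h := hF.orth a b
  have e : (((2 * (n : ℝ) : ℝ)) : ℂ) = 2 * (n : ℂ) := by
    push_cast
    ring
  rw [e]
  exact h

end

end STZ
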