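import Pool.Agent.STZ.StmtsN

/-!
# STZ, module FRC: a frame of `sp(2)`
-/

namespace STZ

open MeasureTheory Matrix

open scoped ComplexConjugate Matrix Real

noncomputable section

namespace FRC

/-- the constant `1 / √12` -/
def c : ℝ := (√12)⁻¹

/-- the constant `1 / √24` -/
def s : ℝ := (√24)⁻¹

theorem c_mul : (c : ℂ) * c = 1 / 12 := by
  have h : c * c = 1 / 12 := by
    unfold c
    rw [← mul_inv, Real.mul_self_sqrt (by norm_num)]
    norm_num
  rw [← Complex.ofReal_mul, h]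
  norm_num

theorem s_mul : (s : ℂ) * s = 1 / 24 := by
  have h : s * s = 1 / 24 := by
    unfold s
    rw [← mul_inv, Real.mul_self_sqrt (by norm_num)]
    norm_num
  rw [← Complex.ofReal_mul, h]
  norm_num

theorem c_ne : c ≠ 0 := by
  unfold c
  positivity

theorem s_ne : s ≠ 0 := by
  unfold s
  positivity

/-- the element of `sp(2)` with the coordinates `v` -/
def mt (v : Fin 10 → ℝ) : Matrix (Fin 4) (Fin 4) ℂ :=
  !![⟨0, c * v 0⟩, ⟨s * v 2, s * v 3⟩, ⟨c * v 4, c * v 5⟩, ⟨s * v 8, s * v 9⟩;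
    ⟨-(s * v 2), s * v 3⟩, ⟨0, c * v 1⟩, ⟨s * v 8, s * v 9⟩, ⟨c * v 6, c * v 7⟩;
    ⟨-(c * v 4), c * v 5⟩, ⟨-(s * v 8), s * v 9⟩, ⟨0, -(c * v 0)⟩, ⟨s * v 2, -(s * v 3)⟩;
    ⟨-(s * v 8), s * v 9⟩, ⟨-(c * v 6), c * v 7⟩, ⟨-(s * v 2), -(s * v 3)⟩, ⟨0, -(c * v 1)⟩]

theorem mt_su (v : Fin 10 → ℝ) : mt v ∈ su 4 := by
  constructor
  · ext i j
    fin_cases i <;> fin_cases j <;>
      simp [mt, Matrix.conjTranspose_apply, Complex.ext_iff]
  · simp [mt, Matrix.trace, Fin.sum_univ_four, Complex.ext_iff]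

theorem mt_J (v : Fin 10 → ℝ) : (mt v)ᵀ * J4 + J4 * mt v = 0 := by
  ext i j
  fin_cases i <;> fin_cases j <;>
    simp [mt, J4, Matrix.mul_apply, Fin.sum_univ_four, Complex.ext_iff]

theorem mt_trace (v w : Fin 10 → ℝ) :
    (mt v * mt w).trace = -(1 / 6) * ∑ k, (v k : ℂ) * w k := by
  have h1 : c * c = 1 / 12 := by
    have := c_mul
    rw [← Complex.ofReal_mul] at this
    have h2 := congrArg Complex.re this
    simpa using h2
  have h2 : s * s = 1 / 24 := by
    have := s_mul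
    rw [← Complex.ofReal_mul] at this
    have h2 := congrArg Complex.re this
    simpa using h2
  rw [Matrix.trace, Fin.sum_univ_four]
  simp only [Matrix.diag_apply, Matrix.mul_apply, Fin.sum_univ_succ, Fin.sum_univ_zero]
  apply Complex.ext
  · simp [mt, Fin.succ]
    linear_combination (-2 * (v 0 * w 0 + v 1 * w 1 + v 4 * w 4 + v 5 * w 5 + v 6 * w 6 +
      v 7 * w 7)) * h1 + (-4 * (v 2 * w 2 + v 3 * w 3 + v 8 * w 8 + v 9 * w 9)) * h2
  · simp [mt, Fin.succ]
    ring

theorem mt_sum (v : Fin 10 → ℝ) : mt v = ∑ a, (v a : ℂ) • mt (Pi.single a 1) := by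
  ext i j
  rw [Matrix.sum_apply]
  simp only [Fin.sum_univ_succ, Fin.sum_univ_zero, Matrix.smul_apply]
  fin_cases i <;> fin_cases j <;>
    simp [mt, Fin.succ, Complex.ext_iff] <;> first | (constructor <;> ring) | ring

/-- the coordinates -/
def co (Y : Matrix (Fin 4) (Fin 4) ℂ) : Fin 10 → ℝ :=
  ![(Y 0 0).im / c, (Y 1 1).im / c, (Y 0 1).re / s, (Y 0 1).im / s, (Y 0 2).re / c,
    (Y 0 2).im / c, (Y 1 3).re / c, (Y 1 3).im / c, (Y 0 3).re / s, (Y 0 3).im / s]

theorem mt_co (Y : Matrix (Fin 4) (Fin 4) ℂ) (hY : Y ∈ su 4) (hJ : Yᵀ * J4 + J4 * Y = 0) :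
    Y = mt (co Y) := by
  have hc : ∀ x : ℝ, c * (x / c) = x := fun x => mul_div_cancel₀ x c_ne
  have hs : ∀ x : ℝ, s * (x / s) = x := fun x => mul_div_cancel₀ x s_ne
  have h1 : ∀ i j, conj (Y j i) = -Y i j := by
    intro i j
    have := congrFun (congrFun hY.1 i) j
    rwa [Matrix.conjTranspose_apply, Matrix.neg_apply] at this
  have hr : ∀ i j, (Y j i).re = -(Y i j).re := by
    intro i j
    have := congrArg Complex.re (h1 i j)
    simpa using this
  have hi : ∀ i j, (Y j i).im = (Y i j).im := by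
    intro i j
    have := congrArg Complex.im (h1 i j)
    simpa using this
  have hJ' : ∀ i j, (Y 0 i * J4 0 j + Y 1 i * J4 1 j + Y 2 i * J4 2 j + Y 3 i * J4 3 j) +
      (J4 i 0 * Y 0 j + J4 i 1 * Y 1 j + J4 i 2 * Y 2 j + J4 i 3 * Y 3 j) = 0 := by
    intro i j
    have h2 := congrFun (congrFun hJ i) j
    rw [Matrix.add_apply, Matrix.mul_apply, Matrix.mul_apply, Fin.sum_univ_four,
      Fin.sum_univ_four, Matrix.zero_apply] at h2
    exact h2
  have j02 : Y 0 0 + Y 2 2 = 0 := by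
    have := hJ' 0 2
    simpa [J4] using this
  have j03 : Y 1 0 * 0 + Y 0 1 + Y 3 2 = 0 := by
    have := hJ' 1 2
    simpa [J4] using this
  have j13 : Y 1 1 + Y 3 3 = 0 := by
    have := hJ' 1 3
    simpa [J4] using this
  have j23 : Y 1 2 = Y 0 3 := by
    have := hJ' 2 3
    simp [J4] at this
    linear_combination this
  rw [mul_zero, zero_add] at j03
  have r02 := congrArg Complex.re j02
  have i02 := congrArg Complex.im j02
  have r03 := congrArg Complex.re j03
  have i03 := congrArg Complex.im j03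
  have r13 := congrArg Complex.re j13
  have i13 := congrArg Complex.im j13
  have r23 := congrArg Complex.re j23
  have i23 := congrArg Complex.im j23
  simp only [Complex.add_re, Complex.add_im, Complex.zero_re, Complex.zero_im] at r02 i02 r03 i03 r13 i13
  have r00 := hr 0 0
  have r11 := hr 1 1
  have r22 := hr 2 2
  have r33 := hr 3 3
  have r10 := hr 0 1
  have r20 := hr 0 2
  have r30 := hr 0 3
  have r21 := hr 1 2
  have r31 := hr 1 3
  have r32 := hr 2 3
  have i10 := hi 0 1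
  have i20 := hi 0 2
  have i30 := hi 0 3
  have i21 := hi 1 2
  have i31 := hi 1 3
  have i32 := hi 2 3
  ext i j
  fin_cases i <;> fin_cases j <;> simp [mt, co, hc, hs, Complex.ext_iff] <;>
    first | linarith | (constructor <;> linarith)

end FRC

theorem t_FRC : M_FRC := by
  intro hL
  refine ⟨fun a => FRC.mt (Pi.single a 1), ?_, ?_, ?_⟩
  · intro a
    rw [hL]
    exact ⟨FRC.mt_su _, FRC.mt_J _⟩
  · intro a b
    rw [FRC.mt_trace]
    have h : ∑ k, (((Pi.single a 1 : Fin 10 → ℝ) k : ℝ) : ℂ) *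
        ((Pi.single b 1 : Fin 10 → ℝ) k : ℝ) = if a = b then 1 else 0 := by
      rw [Finset.sum_eq_single a]
      · rw [Pi.single_eq_same, Complex.ofReal_one, one_mul, Pi.single_apply]
        split_ifs <;> simp
      · intro k _ hk
        rw [Pi.single_eq_of_ne hk, Complex.ofReal_zero, zero_mul]
      · intro h
        exact absurd (Finset.mem_univ a) h
    rw [h]
    split_ifs <;> norm_num
  · intro Y hY
    rw [hL] at hY
    refine ⟨FRC.co Y, ?_⟩
    rw [← FRC.mt_sum]
    exact FRC.mt_co Y hY.1 hY.2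

end

end STZ
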