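import Pool.Agent.STZ.StmtsX

/-!
# FRCN: the number of rationals with denominators in `[Q, 2Q)` in an interval
-/

namespace STZ

namespace FRCN

theorem sep {Q : ℕ} {a b : ℚ} (ha : a.den < 2 * Q) (hb : b.den < 2 * Q) (hab : a ≠ b) :
    (1 : ℝ) < 4 * (Q : ℝ) ^ 2 * |(a : ℝ) - b| := by
  have hd : a - b ≠ 0 := sub_ne_zero.2 hab
  have had : (0 : ℚ) < a.den := by exact_mod_cast a.den_pos
  have hbd : (0 : ℚ) < b.den := by exact_mod_cast b.den_pos
  have h1 : (a - b) * ((a.den : ℚ) * b.den) = ((a.num * b.den - b.num * a.den : ℤ) : ℚ) := by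
    have e1 : a * a.den = a.num := Rat.mul_den_eq_num a
    have e2 : b * b.den = b.num := Rat.mul_den_eq_num b
    push_cast
    rw [← e1, ← e2]
    ring
  have h2 : (a.num * b.den - b.num * a.den : ℤ) ≠ 0 := by
    intro h
    rw [h] at h1
    have : (a - b) * ((a.den : ℚ) * b.den) ≠ 0 := mul_ne_zero hd (mul_pos had hbd).ne'
    exact this (by rw [h1]; simp)
  have h3 : (1 : ℚ) ≤ |a - b| * ((a.den : ℚ) * b.den) := by
    have h4 : |(a - b) * ((a.den : ℚ) * b.den)| = ((|a.num * b.den - b.num * a.den| : ℤ) : ℚ) := by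
      rw [h1]
      push_cast
      rfl
    rw [abs_mul, abs_of_pos (mul_pos had hbd)] at h4
    rw [h4]
    exact_mod_cast Int.one_le_abs h2
  have h5 : (a.den : ℚ) * b.den < 4 * (Q : ℚ) ^ 2 := by
    have h6 : (a.den : ℚ) < 2 * Q := by exact_mod_cast ha
    have h7 : (b.den : ℚ) < 2 * Q := by exact_mod_cast hb
    nlinarith
  have h8 : (1 : ℚ) < 4 * (Q : ℚ) ^ 2 * |a - b| := by
    have h9 : 0 < |a - b| := abs_pos.2 hd
    nlinarith
  have h10 : ((1 : ℚ) : ℝ) < ((4 * (Q : ℚ) ^ 2 * |a - b| : ℚ) : ℝ) := by exact_mod_cast h8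
  simpa using h10

end FRCN

theorem t_FRCN : S_FRCN := by
  intro Q x δ hQ hδ s hs
  have hQ0 : (0 : ℝ) < 4 * (Q : ℝ) ^ 2 := by
    have : (0 : ℝ) < Q := by exact_mod_cast hQ
    positivity
  have hmaps : ∀ ρ ∈ s, ⌊4 * (Q : ℝ) ^ 2 * ((ρ : ℝ) - x + δ)⌋₊ ∈ Finset.range (⌊8 * (Q : ℝ) ^ 2 * δ⌋₊ + 1) := by
    intro ρ hρ
    obtain ⟨_, _, h3⟩ := hs ρ hρ
    have h4 := abs_le.1 h3
    rw [Finset.mem_range, Nat.lt_succ_iff]
    apply Nat.floor_le_floor
    nlinarith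
  have hinj : Set.InjOn (fun ρ : ℚ => ⌊4 * (Q : ℝ) ^ 2 * ((ρ : ℝ) - x + δ)⌋₊) s := by
    intro a ha b hb hab
    by_contra hne
    have ha1 := hs a ha
    have hb1 := hs b hb
    have hsep := FRCN.sep ha1.2.1 hb1.2.1 hne
    have ha2 := abs_le.1 ha1.2.2
    have hb2 := abs_le.1 hb1.2.2
    have ea : 0 ≤ 4 * (Q : ℝ) ^ 2 * ((a : ℝ) - x + δ) := by
      apply mul_nonneg hQ0.le
      linarith
    have eb : 0 ≤ 4 * (Q : ℝ) ^ 2 * ((b : ℝ) - x + δ) := by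
      apply mul_nonneg hQ0.le
      linarith
    have fa := Nat.floor_le ea
    have fa' := Nat.lt_floor_add_one (4 * (Q : ℝ) ^ 2 * ((a : ℝ) - x + δ))
    have fb := Nat.floor_le eb
    have fb' := Nat.lt_floor_add_one (4 * (Q : ℝ) ^ 2 * ((b : ℝ) - x + δ))
    simp only at hab
    rw [hab] at fa fa'
    have h1 : |4 * (Q : ℝ) ^ 2 * ((a : ℝ) - b)| < 1 := by
      rw [abs_lt]
      constructor <;> nlinarith
    rw [abs_mul, abs_of_pos hQ0] at h1
    linarith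
  have hcard := Finset.card_le_card_of_injOn _ hmaps hinj
  rw [Finset.card_range] at hcard
  have h0 : 0 ≤ 8 * (Q : ℝ) ^ 2 * δ := by positivity
  have h1 := Nat.floor_le h0
  have h2 : (s.card : ℝ) ≤ (⌊8 * (Q : ℝ) ^ 2 * δ⌋₊ : ℝ) + 1 := by exact_mod_cast hcard
  linarith

end STZ
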