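import Pool.Agent.STZ.StmtsN

/-!
# FRG: an orthonormal basis of the Lie algebra of `G₂`
-/

set_option autoImplicit false

namespace STZ

open MeasureTheory Matrix

open scoped ComplexConjugate Matrix Real

noncomputable section

namespace FRG

/-- the first index -/
def P (s : Fin 3) (i : Fin 7) : Fin 7 := i + ![1, 2, 4] s

/-- the second index -/
def R (s : Fin 3) (i : Fin 7) : Fin 7 := i + ![3, 6, 5] s

/-- the entries of `E p q` -/
def eZ (p q j k : Fin 7) : ℤ :=
  (if j = p ∧ k = q then 1 else 0) - (if j = q ∧ k = p then 1 else 0)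

theorem eZ_anti (p q j k : Fin 7) : eZ p q k j = - eZ p q j k := by
  unfold eZ
  have e1 : (k = p ∧ j = q) ↔ (j = q ∧ k = p) := and_comm
  have e2 : (k = q ∧ j = p) ↔ (j = p ∧ k = q) := and_comm
  rw [if_congr e1 rfl rfl, if_congr e2 rfl rfl]
  ring

theorem h1 : ∀ (s : Fin 3) (i : Fin 7) (t : Fin 3) (j : Fin 7),
    eZ (P s i) (R s i) (P t j) (R t j) = if s = t ∧ i = j then 1 else 0 := by
  decide

theorem h2 : ∀ j k : Fin 7, j ≠ k →
    ∃ (s : Fin 3) (i : Fin 7), (P s i = j ∧ R s i = k) ∨ (P s i = k ∧ R s i = j) := by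
  decide

theorem h3 : ∀ (i : Fin 7) (s : Fin 3) (j : Fin 7),
    ph i (P s j) (R s j) - ph i (R s j) (P s j) = if i = j then 2 else 0 := by
  decide

theorem sum_eZ (p q : Fin 7) (f : Fin 7 → Fin 7 → ℂ) :
    ∑ j, ∑ k, f j k * (eZ p q j k : ℂ) = f p q - f q p := by
  have h : ∀ j k, f j k * (eZ p q j k : ℂ) =
      (if j = p then (if k = q then f j k else 0) else 0) -
        (if j = q then (if k = p then f j k else 0) else 0) := by
    intro j k
    unfold eZ
    push_cast
    rw [mul_sub]
    simp only [ite_and, mul_ite, mul_one, mul_zero]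
  simp only [h, Finset.sum_sub_distrib]
  have h' : ∀ p q : Fin 7, ∑ j, ∑ k, (if j = p then (if k = q then f j k else 0) else 0) =
      f p q := by
    intro p q
    rw [Finset.sum_eq_single p]
    · simp
    · intro j _ hj
      simp [hj]
    · intro hp
      exact absurd (Finset.mem_univ p) hp
  rw [h', h']

/-- the matrix `x 0 A + x 1 B + x 2 C` -/
def W (x : Fin 3 → ℂ) (i : Fin 7) : Matrix (Fin 7) (Fin 7) ℂ :=
  Matrix.of fun j k => ∑ s, x s * (eZ (P s i) (R s i) j k : ℂ)

theorem W_apply (x : Fin 3 → ℂ) (i j k : Fin 7) :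
    W x i j k = ∑ s, x s * (eZ (P s i) (R s i) j k : ℂ) := rfl

theorem W_anti (x : Fin 3 → ℂ) (i j k : Fin 7) : W x i k j = - W x i j k := by
  rw [W_apply, W_apply, ← Finset.sum_neg_distrib]
  refine Finset.sum_congr rfl fun s _ => ?_
  rw [eZ_anti]
  push_cast
  ring

theorem W_at (x : Fin 3 → ℂ) (i : Fin 7) (s : Fin 3) (j : Fin 7) :
    W x i (P s j) (R s j) = if i = j then x s else 0 := by
  rw [W_apply]
  by_cases h : i = j
  · rw [if_pos h, Finset.sum_eq_single s]
    · rw [h1, if_pos ⟨rfl, h⟩]
      push_cast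
      ring
    · intro t _ ht
      rw [h1, if_neg fun h' => ht h'.1]
      push_cast
      ring
    · intro hs
      exact absurd (Finset.mem_univ s) hs
  · rw [if_neg h, Finset.sum_eq_zero]
    intro t _
    rw [h1, if_neg fun h' => h h'.2]
    push_cast
    ring

theorem sum_W (x : Fin 3 → ℂ) (i : Fin 7) (f : Fin 7 → Fin 7 → ℂ) :
    ∑ j, ∑ k, f j k * W x i j k = ∑ s, x s * (f (P s i) (R s i) - f (R s i) (P s i)) := by
  have h : ∀ j k, f j k * W x i j k = ∑ s, x s * (f j k * (eZ (P s i) (R s i) j k : ℂ)) := by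
    intro j k
    rw [W_apply, Finset.mul_sum]
    exact Finset.sum_congr rfl fun s _ => by ring
  simp only [h]
  have h' : ∀ j, ∑ k, ∑ s, x s * (f j k * (eZ (P s i) (R s i) j k : ℂ)) =
      ∑ s, x s * ∑ k, f j k * (eZ (P s i) (R s i) j k : ℂ) := by
    intro j
    rw [Finset.sum_comm]
    exact Finset.sum_congr rfl fun s _ => by rw [Finset.mul_sum]
  simp only [h']
  rw [Finset.sum_comm]
  refine Finset.sum_congr rfl fun s _ => ?_
  rw [← Finset.mul_sum, sum_eZ]

theorem trW (x y : Fin 3 → ℂ) (i j : Fin 7) :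
    (W x i * W y j).trace = if i = j then -2 * ∑ s, x s * y s else 0 := by
  have h : (W x i * W y j).trace = ∑ a, ∑ b, W y j b a * W x i a b := by
    rw [Matrix.trace]
    refine Finset.sum_congr rfl fun a _ => ?_
    rw [Matrix.diag_apply, Matrix.mul_apply]
    exact Finset.sum_congr rfl fun b _ => mul_comm _ _
  rw [h, sum_W x i fun a b => W y j b a]
  have h' : ∀ s, x s * (W y j (R s i) (P s i) - W y j (P s i) (R s i)) =
      if i = j then -2 * (x s * y s) else 0 := by
    intro s
    rw [W_anti y j (P s i) (R s i), W_at]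
    by_cases h0 : i = j
    · rw [if_pos h0, if_pos h0.symm]
      ring
    · rw [if_neg h0, if_neg fun h' => h0 h'.symm]
      ring
  simp only [h']
  by_cases h0 : i = j
  · simp only [if_pos h0]
    rw [← Finset.mul_sum]
  · simp only [if_neg h0]
    simp

theorem memW (hL : S_LIEG) (x : Fin 3 → ℂ) (hx : ∀ s, conj (x s) = x s) (h0 : ∑ s, x s = 0)
    (i : Fin 7) : W x i ∈ lie G2 := by
  rw [hL]
  refine ⟨fun j k => ?_, ?_, fun j => ?_⟩
  · rw [W_apply, map_sum]
    refine Finset.sum_congr rfl fun s _ => ?_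
    rw [map_mul, hx, map_intCast]
  · ext j k
    rw [Matrix.transpose_apply, Matrix.neg_apply, W_anti]
  · rw [sum_W x i fun a b => (ph j a b : ℂ)]
    have h : ∀ s, x s * ((ph j (P s i) (R s i) : ℂ) - (ph j (R s i) (P s i) : ℂ)) =
        x s * (if j = i then 2 else 0) := by
      intro s
      have h' : ((ph j (P s i) (R s i) : ℂ) - (ph j (R s i) (P s i) : ℂ)) =
          ((ph j (P s i) (R s i) - ph j (R s i) (P s i) : ℤ) : ℂ) := by push_cast; ring
      rw [h', h3]
      split_ifs <;> norm_num
    simp only [h]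
    rw [← Finset.sum_mul, h0, zero_mul]

theorem complete (Y : Matrix (Fin 7) (Fin 7) ℂ) (hY : Yᵀ = -Y) :
    Y = ∑ i, W (fun s => Y (P s i) (R s i)) i := by
  have ha : ∀ j k, Y k j = - Y j k := by
    intro j k
    have := congrFun (congrFun hY j) k
    rwa [Matrix.transpose_apply, Matrix.neg_apply] at this
  have hZ : ∀ j k, (∑ i, W (fun s => Y (P s i) (R s i)) i) j k =
      ∑ i, W (fun s => Y (P s i) (R s i)) i j k := by
    intro j k
    rw [Matrix.sum_apply]
  have hat : ∀ (s : Fin 3) (i : Fin 7),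
      (∑ i, W (fun s => Y (P s i) (R s i)) i) (P s i) (R s i) = Y (P s i) (R s i) := by
    intro s i
    rw [hZ]
    have : ∀ i', W (fun s => Y (P s i') (R s i')) i' (P s i) (R s i) =
        if i' = i then Y (P s i') (R s i') else 0 := fun i' => W_at _ _ _ _
    simp only [this]
    rw [Finset.sum_ite_eq' Finset.univ i fun i' => Y (P s i') (R s i'),
      if_pos (Finset.mem_univ i)]
  have hanti : ∀ j k, (∑ i, W (fun s => Y (P s i) (R s i)) i) k j =
      - (∑ i, W (fun s => Y (P s i) (R s i)) i) j k := by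
    intro j k
    rw [hZ, hZ, ← Finset.sum_neg_distrib]
    exact Finset.sum_congr rfl fun i _ => W_anti _ _ _ _
  ext j k
  by_cases hjk : j = k
  · subst hjk
    have e1 := ha j j
    have e2 := hanti j j
    have e3 : Y j j = 0 := by
      have : (2 : ℂ) * Y j j = 0 := by
        rw [two_mul]
        nth_rewrite 1 [e1]
        ring
      rcases mul_eq_zero.1 this with h | h
      · norm_num at h
      · exact h
    have e4 : (∑ i, W (fun s => Y (P s i) (R s i)) i) j j = 0 := by
      have : (2 : ℂ) * (∑ i, W (fun s => Y (P s i) (R s i)) i) j j = 0 := by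
        rw [two_mul]
        nth_rewrite 1 [e2]
        ring
      rcases mul_eq_zero.1 this with h | h
      · norm_num at h
      · exact h
    rw [e3, e4]
  · obtain ⟨s, i, h | h⟩ := h2 j k hjk
    · rw [← h.1, ← h.2, hat]
    · rw [← h.1, ← h.2, ha, hanti, hat]

/-- the constant `1 / √48` -/
def c : ℝ := (√48)⁻¹

theorem c_mul : (c : ℂ) * c = 1 / 48 := by
  have h : c * c = 1 / 48 := by
    unfold c
    rw [← mul_inv, Real.mul_self_sqrt (by norm_num)]
    norm_num
  rw [← Complex.ofReal_mul, h]
  norm_num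

/-- the coefficients -/
def u : Fin 3 → ℂ := fun s => ((![1 / 4, -1 / 4, 0] : Fin 3 → ℝ) s : ℝ)

/-- the coefficients -/
def v : Fin 3 → ℂ := fun s => ((![c, c, -2 * c] : Fin 3 → ℝ) s : ℝ)

/-- the frame -/
def F : Fin 7 ⊕ Fin 7 → Matrix (Fin 7) (Fin 7) ℂ := Sum.elim (W u) (W v)

/-- the index set -/
def e : Fin 14 ≃ Fin 7 ⊕ Fin 7 := (finSumFinEquiv (m := 7) (n := 7)).symm

end FRG

open FRG in
theorem t_FRG : M_FRG := by
  intro hL
  refine ⟨fun a => F (e a), ⟨fun a => ?_, fun a b => ?_, fun Y hY => ?_⟩⟩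
  · rcases e a with i | i
    · refine memW hL u ?_ ?_ i
      · intro s
        exact Complex.conj_ofReal _
      · rw [Fin.sum_univ_three]
        simp [u]
        norm_num
    · refine memW hL v ?_ ?_ i
      · intro s
        exact Complex.conj_ofReal _
      · rw [Fin.sum_univ_three]
        simp [v]
        ring
  · have hab : (a = b) ↔ e a = e b := ⟨fun h => by rw [h], fun h => e.injective h⟩
    rw [if_congr hab rfl rfl]
    have hc := c_mul
    rcases e a with i | i <;> rcases e b with j | j
    · simp only [F, Sum.elim_inl]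
      rw [trW, Fin.sum_univ_three]
      simp only [Sum.inl.injEq]
      split_ifs
      · simp [u]
        norm_num
      · simp
    · simp only [F, Sum.elim_inl, Sum.elim_inr]
      rw [trW, Fin.sum_univ_three]
      simp only [reduceCtorEq, if_false]
      split_ifs
      · simp [u, v]
        ring
      · simp
    · simp only [F, Sum.elim_inl, Sum.elim_inr]
      rw [trW, Fin.sum_univ_three]
      simp only [reduceCtorEq, if_false]
      split_ifs
      · simp [u, v]
        ring
      · simp
    · simp only [F, Sum.elim_inr]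
      rw [trW, Fin.sum_univ_three]
      simp only [Sum.inr.injEq]
      split_ifs
      · simp [v]
        linear_combination 48 * hc
      · simp
  · obtain ⟨hr, ht, hq⟩ := (hL Y).1 hY
    have hc := complete Y ht
    have hs : ∀ i, ∑ s, Y (P s i) (R s i) = 0 := by
      intro i
      have h := hq i
      have ha : ∀ j k, Y k j = - Y j k := by
        intro j k
        have := congrFun (congrFun ht j) k
        rwa [Matrix.transpose_apply, Matrix.neg_apply] at this
      rw [hc] at h
      simp only [Matrix.sum_apply, Finset.mul_sum] at h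
      have h5 : ∀ j, ∑ k, ∑ i', (ph i j k : ℂ) * W (fun s => Y (P s i') (R s i')) i' j k =
          ∑ i', ∑ k, (ph i j k : ℂ) * W (fun s => Y (P s i') (R s i')) i' j k := fun j =>
        Finset.sum_comm
      simp only [h5] at h
      rw [Finset.sum_comm] at h
      have h6 : ∀ i', ∑ j, ∑ k, (ph i j k : ℂ) * W (fun s => Y (P s i') (R s i')) i' j k =
          if i = i' then ∑ s, Y (P s i') (R s i') * 2 else 0 := by
        intro i'
        rw [sum_W _ i' fun a b => (ph i a b : ℂ)]
        by_cases h7 : i = i'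
        · rw [if_pos h7]
          refine Finset.sum_congr rfl fun s _ => ?_
          have h' : ((ph i (P s i') (R s i') : ℂ) - (ph i (R s i') (P s i') : ℂ)) =
            ((ph i (P s i') (R s i') - ph i (R s i') (P s i') : ℤ) : ℂ) := by push_cast; ring
          rw [h', h3, if_pos h7]
          norm_num
        · rw [if_neg h7, Finset.sum_eq_zero]
          intro s _
          have h' : ((ph i (P s i') (R s i') : ℂ) - (ph i (R s i') (P s i') : ℂ)) =
            ((ph i (P s i') (R s i') - ph i (R s i') (P s i') : ℤ) : ℂ) := by push_cast; ring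
          rw [h', h3, if_neg h7]
          norm_num
      simp only [h6] at h
      rw [Finset.sum_ite_eq, if_pos (Finset.mem_univ i), ← Finset.sum_mul] at h
      rcases mul_eq_zero.1 h with h8 | h8
      · exact h8
      · norm_num at h8
    have hre : ∀ j k, (((Y j k).re : ℝ) : ℂ) = Y j k := fun j k =>
      Complex.conj_eq_iff_re.1 (hr j k)
    refine ⟨fun a => Sum.elim
      (fun i => 2 * ((Y (P 0 i) (R 0 i)).re - (Y (P 1 i) (R 1 i)).re))
      (fun i => -(√48 / 2) * (Y (P 2 i) (R 2 i)).re) (e a), ?_⟩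
    have hsum : ∀ (g : Fin 7 ⊕ Fin 7 → Matrix (Fin 7) (Fin 7) ℂ),
        ∑ a, g (e a) = ∑ i, g (Sum.inl i) + ∑ i, g (Sum.inr i) := by
      intro g
      rw [Equiv.sum_comp e g, Fintype.sum_sum_type]
    rw [hsum fun z => (((Sum.elim
      (fun i => 2 * ((Y (P 0 i) (R 0 i)).re - (Y (P 1 i) (R 1 i)).re))
      (fun i => -(√48 / 2) * (Y (P 2 i) (R 2 i)).re) z : ℝ) : ℂ)) • F z]
    simp only [Sum.elim_inl, Sum.elim_inr, F]
    conv_lhs => rw [hc]
    rw [← Finset.sum_add_distrib]
    refine Finset.sum_congr rfl fun i _ => ?_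
    have hi := hs i
    rw [Fin.sum_univ_three] at hi
    have hk : (√48 : ℂ) * (c : ℂ) = 1 := by
      rw [← Complex.ofReal_mul]
      have : √48 * c = 1 := by
        unfold c
        exact mul_inv_cancel₀ (by positivity)
      rw [this]
      norm_num
    ext j k
    simp only [Matrix.add_apply, Matrix.smul_apply, smul_eq_mul, W_apply, Fin.sum_univ_three]
    simp only [u, v, Matrix.cons_val_zero, Matrix.cons_val_one, Matrix.cons_val]
    push_cast
    rw [hre, hre, hre]
    generalize Y (P 0 i) (R 0 i) = y0 at *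
    generalize Y (P 1 i) (R 1 i) = y1 at *
    generalize Y (P 2 i) (R 2 i) = y2 at *
    generalize (eZ (P 0 i) (R 0 i) j k : ℂ) = a0
    generalize (eZ (P 1 i) (R 1 i) j k : ℂ) = a1
    generalize (eZ (P 2 i) (R 2 i) j k : ℂ) = a2
    linear_combination (a0 / 2 + a1 / 2) * hi + (-(y2 / 2) * a0 - (y2 / 2) * a1 + y2 * a2) * (-hk)

end

end STZ
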