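import Pool.Agent.STZ.StmtsL

set_option autoImplicit false

namespace STZ

namespace FRN

open Matrix

open scoped ComplexConjugate Matrix

/-- the real vector space `su(n)` -/
def V (n : ℕ) : Submodule ℝ (Matrix (Fin n) (Fin n) ℂ) where
  carrier := su n
  zero_mem' := by
    refine ⟨?_, Matrix.trace_zero _ _⟩
    rw [Matrix.conjTranspose_zero, neg_zero]
  add_mem' := by
    rintro X Y ⟨h1, h2⟩ ⟨h3, h4⟩
    refine ⟨?_, ?_⟩
    · rw [Matrix.conjTranspose_add, h1, h3, neg_add]
    · rw [Matrix.trace_add, h2, h4, add_zero]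
  smul_mem' := by
    rintro c X ⟨h1, h2⟩
    refine ⟨?_, ?_⟩
    · rw [Matrix.conjTranspose_smul, star_trivial, h1, smul_neg]
    · rw [Matrix.trace_smul, h2, smul_zero]

/-- from real matrices to skew-Hermitian matrices -/
noncomputable def phi (n : ℕ) : Matrix (Fin n) (Fin n) ℝ →ₗ[ℝ] Matrix (Fin n) (Fin n) ℂ where
  toFun R := fun i j => ((R i j - R j i : ℝ) : ℂ) + Complex.I * ((R i j + R j i : ℝ) : ℂ)
  map_add' R S := by
    funext i j
    simp only [Matrix.add_apply]
    push_cast
    ring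
  map_smul' c R := by
    funext i j
    simp only [Matrix.smul_apply, smul_eq_mul, RingHom.id_apply,
      Complex.real_smul]
    push_cast
    ring

lemma phi_apply (n : ℕ) (R : Matrix (Fin n) (Fin n) ℝ) (i j : Fin n) :
    phi n R i j = ((R i j - R j i : ℝ) : ℂ) + Complex.I * ((R i j + R j i : ℝ) : ℂ) := rfl

lemma phi_inj (n : ℕ) : Function.Injective (phi n) := by
  rw [injective_iff_map_eq_zero]
  intro R hR
  ext i j
  have h := congrFun (congrFun hR i) j
  rw [phi_apply] at h
  have h1 := congrArg Complex.re h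
  have h2 := congrArg Complex.im h
  simp at h1 h2
  rw [Matrix.zero_apply]
  linarith

lemma phi_skew (n : ℕ) (R : Matrix (Fin n) (Fin n) ℝ) : (phi n R)ᴴ = -phi n R := by
  ext i j
  rw [Matrix.conjTranspose_apply, Matrix.neg_apply, phi_apply, phi_apply]
  apply Complex.ext
  · simp
  · simp
    ring

lemma phi_trace (n : ℕ) (R : Matrix (Fin n) (Fin n) ℝ) (h : R.trace = 0) :
    (phi n R).trace = 0 := by
  have h1 : (phi n R).trace = Complex.I * ((2 * R.trace : ℝ) : ℂ) := by
    rw [Matrix.trace, Matrix.trace]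
    push_cast
    rw [Finset.mul_sum, Finset.mul_sum]
    refine Finset.sum_congr rfl fun i _ => ?_
    rw [Matrix.diag_apply, phi_apply, Matrix.diag_apply]
    push_cast
    ring
  rw [h1, h]
  simp

lemma finrank_ge (n : ℕ) : n ^ 2 - 1 ≤ Module.finrank ℝ (V n) := by
  let t : Matrix (Fin n) (Fin n) ℝ →ₗ[ℝ] ℝ := Matrix.traceLinearMap (Fin n) ℝ ℝ
  have h1 := LinearMap.finrank_range_add_finrank_ker t
  have h2 : Module.finrank ℝ (LinearMap.range t) ≤ 1 := by
    have := Submodule.finrank_le (LinearMap.range t)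
    rwa [Module.finrank_self] at this
  have h3 : Module.finrank ℝ (Matrix (Fin n) (Fin n) ℝ) = n ^ 2 := by
    rw [Module.finrank_matrix, Module.finrank_self, Fintype.card_fin]
    ring
  let f : LinearMap.ker t →ₗ[ℝ] V n :=
    LinearMap.codRestrict (V n) ((phi n).comp (LinearMap.ker t).subtype) (by
      intro R
      exact ⟨phi_skew n _, phi_trace n _ (LinearMap.mem_ker.1 R.2)⟩)
  have hf : Function.Injective f := by
    intro R S h
    have h' := congrArg Subtype.val h
    exact Subtype.ext (phi_inj n h')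
  have h4 := LinearMap.finrank_le_finrank_of_injective hf
  omega

lemma trace_real {n : ℕ} {X Y : Matrix (Fin n) (Fin n) ℂ} (hX : X ∈ su n) (hY : Y ∈ su n) :
    (((X * Y).trace.re : ℝ) : ℂ) = (X * Y).trace := by
  have h : conj (X * Y).trace = (X * Y).trace := by
    have h1 : (X * Y)ᴴ.trace = star (X * Y).trace := Matrix.trace_conjTranspose _
    rw [Matrix.conjTranspose_mul, hX.1, hY.1, neg_mul_neg, Matrix.trace_mul_comm] at h1
    exact h1.symm
  exact Complex.conj_eq_iff_re.1 h

lemma trace_neg {n : ℕ} {X : Matrix (Fin n) (Fin n) ℂ} (hX : X ∈ su n) (h0 : X ≠ 0) :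
    (X * X).trace.re < 0 := by
  have h1 : (X * X).trace = -(∑ i, ∑ j, ((Complex.normSq (X j i) : ℝ) : ℂ)) := by
    have h2 : X * X = -(Xᴴ * X) := by
      rw [hX.1, neg_mul, neg_neg]
    rw [h2, Matrix.trace_neg, Matrix.trace]
    congr 1
    refine Finset.sum_congr rfl fun i _ => ?_
    rw [Matrix.diag_apply, Matrix.mul_apply]
    refine Finset.sum_congr rfl fun j _ => ?_
    rw [Matrix.conjTranspose_apply, Complex.normSq_eq_conj_mul_self]
    rfl
  have h3 : (X * X).trace.re = -(∑ i, ∑ j, Complex.normSq (X j i)) := by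
    rw [h1]
    simp
  rw [h3, neg_lt_zero]
  have h4 : ∃ i j, X j i ≠ 0 := by
    by_contra hc
    push Not at hc
    exact h0 (by ext j i; exact hc i j)
  obtain ⟨i, j, hij⟩ := h4
  refine Finset.sum_pos' (fun i _ => Finset.sum_nonneg fun j _ => Complex.normSq_nonneg _) ?_
  exact ⟨i, Finset.mem_univ i, Finset.sum_pos' (fun j _ => Complex.normSq_nonneg _)
    ⟨j, Finset.mem_univ j, Complex.normSq_pos.2 hij⟩⟩

/-- the form `-2 n tr (X Y)` -/
noncomputable def B (n : ℕ) : LinearMap.BilinForm ℝ (V n) :=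
  LinearMap.mk₂ ℝ (fun X Y : V n => -(2 * (n : ℝ)) * (X.1 * Y.1).trace.re)
    (by
      intro X X' Y
      rw [Submodule.coe_add, Matrix.add_mul, Matrix.trace_add, Complex.add_re]
      ring)
    (by
      intro c X Y
      rw [Submodule.coe_smul, Matrix.smul_mul, Matrix.trace_smul, Complex.smul_re, smul_eq_mul,
        smul_eq_mul]
      ring)
    (by
      intro X Y Y'
      rw [Submodule.coe_add, Matrix.mul_add, Matrix.trace_add, Complex.add_re]
      ring)
    (by
      intro c X Y
      rw [Submodule.coe_smul, Matrix.mul_smul, Matrix.trace_smul, Complex.smul_re, smul_eq_mul,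
        smul_eq_mul]
      ring)

lemma B_apply (n : ℕ) (X Y : V n) : B n X Y = -(2 * (n : ℝ)) * (X.1 * Y.1).trace.re := rfl

lemma B_symm (n : ℕ) : LinearMap.IsSymm (B n) := by
  constructor
  intro X Y
  rw [RingHom.id_apply, B_apply, B_apply, Matrix.trace_mul_comm]

lemma B_pos (n : ℕ) (hn : 1 ≤ n) (X : V n) (h : X ≠ 0) : 0 < B n X X := by
  rw [B_apply]
  have h1 : X.1 ≠ 0 := fun h' => h (Subtype.ext h')
  have h2 := trace_neg X.2 h1
  have h3 : (1 : ℝ) ≤ n := by exact_mod_cast hn
  nlinarith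

end FRN

open FRN Matrix in
theorem t_FRN : S_FRN := by
  intro n hn
  obtain ⟨v, hv⟩ := LinearMap.BilinForm.exists_orthogonal_basis (K := ℝ) (V := V n) (B := B n)
    (B_symm n)
  have hle := finrank_ge n
  have hpos : ∀ i, 0 < B n (v i) (v i) := fun i => B_pos n hn _ (v.ne_zero i)
  let c : Fin (Module.finrank ℝ (V n)) → ℝ := fun i => (Real.sqrt (B n (v i) (v i)))⁻¹
  let Y : Fin (n ^ 2 - 1) → V n := fun a => c (Fin.castLE hle a) • v (Fin.castLE hle a)
  refine ⟨fun a => (Y a).1, ⟨fun a => (Y a).2, ?_⟩⟩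
  intro a b
  have key : B n (Y a) (Y b) = if a = b then 1 else 0 := by
    change B n (c (Fin.castLE hle a) • v (Fin.castLE hle a))
      (c (Fin.castLE hle b) • v (Fin.castLE hle b)) = _
    rw [map_smul, map_smul, LinearMap.smul_apply, smul_eq_mul, smul_eq_mul]
    by_cases hab : a = b
    · subst hab
      rw [if_pos rfl]
      have hp := hpos (Fin.castLE hle a)
      have hs := Real.mul_self_sqrt hp.le
      have hs0 : Real.sqrt (B n (v (Fin.castLE hle a)) (v (Fin.castLE hle a))) ≠ 0 :=
        (Real.sqrt_pos.2 hp).ne'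
      change (Real.sqrt (B n (v (Fin.castLE hle a)) (v (Fin.castLE hle a))))⁻¹ *
        ((Real.sqrt (B n (v (Fin.castLE hle a)) (v (Fin.castLE hle a))))⁻¹ * _) = 1
      nth_rewrite 3 [← hs]
      field_simp
    · rw [if_neg hab]
      have hne : Fin.castLE hle a ≠ Fin.castLE hle b := fun h => hab (Fin.castLE_injective hle h)
      have h0 : B n (v (Fin.castLE hle a)) (v (Fin.castLE hle b)) = 0 := hv hne
      rw [h0, mul_zero, mul_zero]
  have h1 := congrArg (fun r : ℝ => (r : ℂ)) key
  simp only [B_apply] at h1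
  push_cast at h1
  rw [trace_real (Y a).2 (Y b).2] at h1
  rw [h1]
  split_ifs <;> simp

end STZ
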