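import Pool.Agent.STZ.StmtsS

/-!
# STZ, module FRX: an orthonormal basis of `su(3)`
-/

namespace STZ

open MeasureTheory Matrix

open scoped ComplexConjugate Matrix Real

noncomputable section

namespace FRX

/-- the constant `1 / √12` -/
def c : ℝ := (√12)⁻¹

theorem c_mul : (c : ℂ) * c = 1 / 12 := by
  have h : c * c = 1 / 12 := by
    unfold c
    rw [← mul_inv, Real.mul_self_sqrt (by norm_num)]
    norm_num
  rw [← Complex.ofReal_mul, h]
  norm_num

/-- the element of `su(3)` with the coordinates `v` -/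
def mt (v : Fin 8 → ℝ) : Matrix (Fin 3) (Fin 3) ℂ :=
  !![Complex.I * (c * v 0 + v 1 / 6), c * (v 2 + Complex.I * v 5), c * (v 3 + Complex.I * v 6);
    c * (-v 2 + Complex.I * v 5), Complex.I * (-c * v 0 + v 1 / 6), c * (v 4 + Complex.I * v 7);
    c * (-v 3 + Complex.I * v 6), c * (-v 4 + Complex.I * v 7), Complex.I * (-2 * v 1 / 6)]

theorem mt_mem (v : Fin 8 → ℝ) : mt v ∈ su 3 := by
  constructor
  · ext i j
    fin_cases i <;> fin_cases j <;>
      simp [mt, Matrix.conjTranspose_apply] <;> ring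
  · simp [mt, Matrix.trace_fin_three]
    ring

theorem mt_trace (v w : Fin 8 → ℝ) :
    (mt v * mt w).trace = -(1 / 6) * ∑ k, (v k : ℂ) * w k := by
  have h1 := c_mul
  have h2 := Complex.I_mul_I
  rw [Matrix.trace_fin_three, Fin.sum_univ_eight]
  simp only [Matrix.mul_apply, Fin.sum_univ_three]
  simp only [mt, Matrix.of_apply, Matrix.cons_val', Matrix.cons_val_zero, Matrix.cons_val_one,
    Matrix.cons_val]
  linear_combination (2 * (c : ℂ) * c * v 0 * w 0 + v 1 * w 1 / 6 +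
    2 * (c : ℂ) * c * (v 5 * w 5 + v 6 * w 6 + v 7 * w 7)) * h2 +
    (-2) * ((v 0 : ℂ) * w 0 + v 2 * w 2 + v 3 * w 3 + v 4 * w 4 + v 5 * w 5 + v 6 * w 6 +
      v 7 * w 7) * h1

end FRX

theorem t_FRX : S_FRX := by
  have key : ∃ X : Fin 8 → Matrix (Fin 3) (Fin 3) ℂ, (∀ a, X a ∈ su 3) ∧
      ∀ a b, -(2 * ((3 : ℕ) : ℂ)) * (X a * X b).trace = if a = b then 1 else 0 := by
    refine ⟨fun a => FRX.mt (Pi.single a 1), fun a => FRX.mt_mem _, fun a b => ?_⟩
    rw [FRX.mt_trace]
    have h : ∑ k, (((Pi.single a 1 : Fin 8 → ℝ) k : ℝ) : ℂ) * ((Pi.single b 1 : Fin 8 → ℝ) k : ℝ) =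
        if a = b then 1 else 0 := by
      rw [Finset.sum_eq_single a]
      · rw [Pi.single_eq_same, Complex.ofReal_one, one_mul, Pi.single_apply]
        split_ifs <;> simp
      · intro k _ hk
        rw [Pi.single_eq_of_ne hk, Complex.ofReal_zero, zero_mul]
      · intro h
        exact absurd (Finset.mem_univ a) h
    rw [h]
    split_ifs <;> norm_num
  obtain ⟨X, h1, h2⟩ := key
  exact ⟨X, h1, h2⟩

end

end STZ
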