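import Pool.Agent.STZ.StmtsY

/-!
# Module FSUM: the entire exponential sum
-/

namespace STZ

open MeasureTheory Matrix

open scoped ComplexConjugate Matrix Real

noncomputable section

namespace FSUM

/-- products of weights -/
theorem prod_wcl (hw : WCLF) {r : ℕ} (z : Fin r → ℤ) (n : Fin r → ℕ) (R : ℝ) (hR : 0 < R)
    {ι : Type*} (P : Finset ι) (L : ι → ℝ) (g : ι → (Fin r → ℤ) → ℂ)
    (hL : ∀ p ∈ P, 0 ≤ L p) (hg : ∀ p ∈ P, WCl z n R (L p) (g p)) :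
    WCl z n R (∏ p ∈ P, (2 ^ r * L p)) (fun x => ∏ p ∈ P, g p x) := by
  classical
  induction P using Finset.induction_on with
  | empty =>
    have := hw.const r z n R 1 hR
    simpa using this
  | insert a s ha ih =>
    have h1 := ih (fun p hp => hL p (Finset.mem_insert_of_mem hp))
      (fun p hp => hg p (Finset.mem_insert_of_mem hp))
    have h0 : 0 ≤ ∏ p ∈ s, (2 ^ r * L p) :=
      Finset.prod_nonneg fun p hp =>
        mul_nonneg (by positivity) (hL p (Finset.mem_insert_of_mem hp))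
    have h2 := hw.mul r z n R (L a) (∏ p ∈ s, (2 ^ r * L p)) (g a) (fun x => ∏ p ∈ s, g p x) hR
      (hL a (Finset.mem_insert_self _ _)) h0 (hg a (Finset.mem_insert_self _ _)) h1
    simp only [Finset.prod_insert ha]
    have e : 2 ^ r * L a * ∏ p ∈ s, (2 ^ r * L p) = 2 ^ r * (L a * ∏ p ∈ s, (2 ^ r * L p)) := by
      ring
    rw [e]
    exact h2

theorem norm_le_rpow {W : ℝ} (hW : 0 ≤ W) (r : ℕ) {s : ℝ} (_ : 0 ≤ s) (h : s ^ 2 ≤ W ^ r) :
    s ≤ W ^ ((r : ℝ) / 2) := by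
  have h1 : s ≤ √(W ^ r) := Real.le_sqrt_of_sq_le h
  have h2 : √(W ^ r) = W ^ ((r : ℝ) / 2) := by
    rw [Real.sqrt_eq_rpow, ← Real.rpow_natCast W r, ← Real.rpow_mul hW]
    congr 1
    ring
  exact h1.trans h2.le

theorem exp_id {r : ℕ} (q t : ℝ) (x : Fin r → ℤ) (ζ : Fin r → ℂ) :
    eu (t * q + ∑ i, (ζ i).re * x i) *
      (Complex.exp (∑ i, -(2 * π * (ζ i).im : ℂ)) *
        Complex.exp (∑ i, -(2 * π * (ζ i).im : ℂ) * ((x i : ℂ) - ((1 : Fin r → ℤ) i : ℂ)))) =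
      eu (t * q) * Complex.exp (2 * π * Complex.I * ∑ i, (x i : ℂ) * ζ i) := by
  unfold eu
  rw [← Complex.exp_add, ← Complex.exp_add, ← Complex.exp_add, ← Finset.sum_add_distrib]
  congr 1
  have h1 : (∑ i, (-(2 * π * (ζ i).im : ℂ) +
      -(2 * π * (ζ i).im : ℂ) * ((x i : ℂ) - ((1 : Fin r → ℤ) i : ℂ)))) =
      ∑ i, 2 * π * Complex.I * (((ζ i).im : ℂ) * Complex.I * x i) := by
    refine Finset.sum_congr rfl fun i _ => ?_
    simp only [Pi.one_apply, Int.cast_one]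
    ring_nf
    rw [Complex.I_sq]
    ring
  rw [h1]
  have h2 : (∑ i, (x i : ℂ) * ζ i) =
      ∑ i, (((ζ i).re : ℂ) * x i) + ∑ i, (((ζ i).im : ℂ) * Complex.I * x i) := by
    rw [← Finset.sum_add_distrib]
    refine Finset.sum_congr rfl fun i _ => ?_
    conv_lhs => rw [← Complex.re_add_im (ζ i)]
    ring
  rw [h2, ← Finset.mul_sum]
  push_cast
  ring

end FSUM

open FSUM in
theorem t_FSUM : M_FSUM := by
  intro hWEYX hWWF hABEL hWCLF r D P B h hX hT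
  obtain ⟨c, hc1, hc⟩ := hWEYX r D.A hX.w.qf.det
  obtain ⟨C₁, hC₁, hexp⟩ := hWCLF.exp r (2 * π) 1 (by positivity) zero_le_one
  -- constants
  set K0 : ℤ := ∏ p ∈ P, (p.2 ⬝ᵥ (1 : Fin r → ℤ)) with hK0
  have hK0ne : K0 ≠ 0 := by
    rw [hK0]
    refine Finset.prod_ne_zero_iff.2 fun p hp => ?_
    obtain ⟨hnn, hne⟩ := hT.pos p hp
    rw [dotProduct_one]
    intro h0
    apply hne
    funext i
    exact (Finset.sum_eq_zero_iff_of_nonneg (fun i _ => hnn i)).1 h0 i (Finset.mem_univ i)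
  set Kp : (Fin r → ℤ) × (Fin r → ℤ) → ℝ := fun p => ∑ i, |(p.2 i : ℝ)| with hKp
  have hKp0 : ∀ p, 0 ≤ Kp p := fun p => Finset.sum_nonneg fun i _ => abs_nonneg _
  set κ0 : ℝ := ‖((K0 : ℂ))⁻¹‖ * Real.exp (2 * π * r) with hκ0
  have hκ0n : 0 ≤ κ0 := by positivity
  have hPi0 : 0 ≤ ∏ p ∈ P, (2 ^ r * Kp p) :=
    Finset.prod_nonneg fun p _ => mul_nonneg (by positivity) (hKp0 p)
  refine ⟨2 ^ r * (2 ^ r * ((2 ^ r * (κ0 * C₁)) * ∏ p ∈ P, (2 ^ r * Kp p))), c, by positivity, hc1, ?_⟩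
  intro N t ζ hN hζ
  have hNr : (1 : ℝ) ≤ N := by exact_mod_cast hN
  have hN0 : (0 : ℝ) < N := by linarith
  have hη : ∀ i, |(ζ i).im| ≤ 1 := fun i => (hζ i).trans (by rw [div_le_one hN0]; exact hNr)
  set z : Fin r → ℤ := 1 with hz
  set n : Fin r → ℕ := fun _ => N with hn
  have hW0 : 0 ≤ WW N c t := le_trans (by positivity) (hWWF.ge N c t)
  -- the weights
  have w2 := hexp z n N (fun i => -(2 * π * (ζ i).im : ℂ)) hNr
    (fun i => by
      rw [norm_neg, norm_mul, norm_mul, Complex.norm_real, Complex.norm_real, Complex.norm_ofNat,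
        Real.norm_of_nonneg Real.pi_pos.le, Real.norm_eq_abs]
      have := hζ i
      calc 2 * π * |(ζ i).im| ≤ 2 * π * (1 / N) := by gcongr
        _ = 2 * π / N := by ring)
    (fun i => by simp [hn])
  have w3 := prod_wcl hWCLF z n N hN0 P (fun p => Kp p * N)
    (fun p x => 0 + ∑ i, (p.2 i : ℂ) * x i) (fun p _ => mul_nonneg (hKp0 p) hN0.le)
    (fun p _ => by
      refine hWCLF.lin r z n N (Kp p * N) (fun i => (p.2 i : ℂ)) 0 hN0
        (mul_nonneg (hKp0 p) hN0.le) (fun i => ?_) (fun x hx => ?_)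
      · rw [mul_div_assoc, div_self hN0.ne', mul_one, Complex.norm_intCast]
        exact Finset.single_le_sum (f := fun i => |(p.2 i : ℝ)|) (fun i _ => abs_nonneg _)
          (Finset.mem_univ i)
      · rw [zero_add, hKp, Finset.sum_mul]
        refine (norm_sum_le _ _).trans (Finset.sum_le_sum fun i _ => ?_)
        rw [norm_mul, Complex.norm_intCast, Complex.norm_intCast]
        have hxi := (Finset.mem_Ico.1 (Fintype.mem_piFinset.1 hx i))
        simp only [hz, hn, Pi.one_apply] at hxi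
        have h1 : (1 : ℝ) ≤ x i := by exact_mod_cast hxi.1
        have h2 : (x i : ℝ) ≤ N := by
          have : x i ≤ N := by omega
          exact_mod_cast this
        have h3 : |(x i : ℝ)| ≤ N := by rw [abs_of_nonneg (by linarith)]; exact h2
        exact mul_le_mul_of_nonneg_left h3 (abs_nonneg _))
  set c0 : ℂ := ((K0 : ℂ))⁻¹ * Complex.exp (∑ i, -(2 * π * (ζ i).im : ℂ)) with hc0
  have w1 := hWCLF.const r z n N c0 hN0
  have hPiN : 0 ≤ ∏ p ∈ P, (2 ^ r * (Kp p * N)) :=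
    Finset.prod_nonneg fun p _ => mul_nonneg (by positivity) (mul_nonneg (hKp0 p) hN0.le)
  have w12 := hWCLF.mul r z n N ‖c0‖ C₁ _ _ hN0 (norm_nonneg _) hC₁ w1 w2
  have w := hWCLF.mul r z n N (2 ^ r * (‖c0‖ * C₁)) (∏ p ∈ P, (2 ^ r * (Kp p * N))) _ _ hN0
    (by positivity) hPiN w12 w3
  set f : (Fin r → ℤ) → ℂ := fun x => eu (t * D.Q x + ∑ i, (ζ i).re * x i) with hf
  have hsum : ∀ m : Fin r → ℕ, (∀ i, m i ≤ n i) →
      ‖∑ x ∈ bxn z m, f x‖ ≤ WW N c t ^ ((r : ℝ) / 2) := by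
    intro m hm
    refine norm_le_rpow hW0 r (norm_nonneg _) ?_
    refine hc N z m t (fun x => t * D.Q x + ∑ i, (ζ i).re * x i)
      (fun x => t * D.Q x + ∑ i, (ζ i).re * x i) hN hm ?_
    intro x k
    rw [hX.w.qf.polar]
    simp only [Pi.add_apply, Int.cast_add, mul_add, Finset.sum_add_distrib]
    ring
  have hBL : 0 ≤ WW N c t ^ ((r : ℝ) / 2) := Real.rpow_nonneg hW0 _
  have hLt : 0 ≤ 2 ^ r * ((2 ^ r * (‖c0‖ * C₁)) * ∏ p ∈ P, (2 ^ r * (Kp p * N))) := by positivity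
  have key := hABEL r z n N _ (WW N c t ^ ((r : ℝ) / 2)) f _ hN0 hLt hBL hsum w
  -- rewrite the sum
  have hcongr : ∑ l ∈ bx (1 : Fin r → ℤ) N, (D.dim l : ℂ) * eu (t * D.Q l) *
      Complex.exp (2 * π * Complex.I * ∑ i, (l i : ℂ) * ζ i) =
      ∑ x ∈ bxn z n, f x * (c0 * Complex.exp (∑ i, -(2 * π * (ζ i).im : ℂ) * ((x i : ℂ) - (z i : ℂ))) *
        ∏ p ∈ P, (0 + ∑ i, (p.2 i : ℂ) * x i)) := by
    refine Finset.sum_congr rfl fun x _ => ?_
    have hd : (D.dim x : ℂ) = ((K0 : ℂ))⁻¹ * ∏ p ∈ P, (0 + ∑ i, (p.2 i : ℂ) * x i) := by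
      have h1 := hT.dimP x
      rw [← hK0] at h1
      have h2 : (D.dim x : ℂ) * (K0 : ℂ) = ∏ p ∈ P, (0 + ∑ i, (p.2 i : ℂ) * x i) := by
        have h3 := congrArg (fun q : ℤ => (q : ℂ)) h1
        simp only [Int.cast_mul, Int.cast_prod] at h3
        rw [h3]
        refine Finset.prod_congr rfl fun p _ => ?_
        simp [dotProduct]
      rw [← h2]
      have hK0c : (K0 : ℂ) ≠ 0 := by exact_mod_cast hK0ne
      field_simp
    have he := exp_id (D.Q x : ℝ) t x ζ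
    rw [hd, hf, hc0, hz]
    linear_combination (-(((K0 : ℂ))⁻¹ * ∏ p ∈ P, (0 + ∑ i, (p.2 i : ℂ) * x i))) * he
  rw [hcongr]
  refine key.trans ?_
  have hprod1 : ∏ i : Fin r, (1 + (n i : ℝ) / N) = 2 ^ r := by
    simp only [hn, div_self hN0.ne']
    rw [Finset.prod_const, Finset.card_univ, Fintype.card_fin]
    norm_num
  have hprod2 : ∏ p ∈ P, (2 ^ r * (Kp p * (N : ℝ))) = (∏ p ∈ P, (2 ^ r * Kp p)) * (N : ℝ) ^ P.card := by
    rw [← Finset.prod_const, ← Finset.prod_mul_distrib]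
    refine Finset.prod_congr rfl fun p _ => ?_
    ring
  have hc0n : ‖c0‖ ≤ κ0 := by
    rw [hc0, hκ0, norm_mul]
    refine mul_le_mul_of_nonneg_left ?_ (norm_nonneg _)
    rw [Complex.norm_exp]
    refine Real.exp_le_exp.2 ?_
    rw [Complex.re_sum]
    have h1 : ∀ i : Fin r, (-(2 * π * (ζ i).im : ℂ)).re ≤ 2 * π := by
      intro i
      have h2 : (-(2 * π * (ζ i).im : ℂ)) = ((-(2 * π * (ζ i).im) : ℝ) : ℂ) := by push_cast; ring
      rw [h2, Complex.ofReal_re]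
      have h3 := (abs_le.1 (hη i)).1
      nlinarith [Real.pi_pos]
    calc ∑ i : Fin r, (-(2 * π * (ζ i).im : ℂ)).re ≤ ∑ _i : Fin r, 2 * π :=
          Finset.sum_le_sum fun i _ => h1 i
      _ = 2 * π * r := by
          rw [Finset.sum_const, Finset.card_univ, Fintype.card_fin, nsmul_eq_mul]
          ring
  rw [hprod1, hprod2]
  have hfin : 2 ^ r * (2 ^ r * (‖c0‖ * C₁) * ((∏ p ∈ P, (2 ^ r * Kp p)) * (N : ℝ) ^ P.card)) ≤
      2 ^ r * (2 ^ r * (κ0 * C₁) * ((∏ p ∈ P, (2 ^ r * Kp p)) * (N : ℝ) ^ P.card)) := by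
    gcongr
  calc WW N c t ^ ((r : ℝ) / 2) *
        (2 ^ r * (2 ^ r * (‖c0‖ * C₁) * ((∏ p ∈ P, (2 ^ r * Kp p)) * (N : ℝ) ^ P.card))) * 2 ^ r
      ≤ WW N c t ^ ((r : ℝ) / 2) *
        (2 ^ r * (2 ^ r * (κ0 * C₁) * ((∏ p ∈ P, (2 ^ r * Kp p)) * (N : ℝ) ^ P.card))) * 2 ^ r := by
        gcongr
    _ = 2 ^ r * (2 ^ r * (2 ^ r * (κ0 * C₁) * ∏ p ∈ P, (2 ^ r * Kp p))) *
        ((N : ℝ) ^ P.card * WW N c t ^ ((r : ℝ) / 2)) := by ring

end

end STZ
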