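import Pool.Agent.STZ.StmtsY
import Pool.Agent.STZ.DefsH

/-!
# Statements of the modules, block Z: the group

The paper proof is in `SUN_PAPER.md` (Sections 5, 6, 8, 9). Module `X` proves `theorem t_X : M_X` (or `t_X : S_X` if there is no `M_X`) in the file
`Pool/Agent/STZ/X.lean`, namespace `STZ`.
-/

namespace STZ

open MeasureTheory Matrix

open scoped ComplexConjugate Matrix Real

noncomputable section

/-- the class functions `x` at any element of `H` have the values at some point of the torus -/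
def Tor {N : ℕ} {H : Subgroup (SU N)} {r : ℕ} (D : RD r) (x : Fin r → H → ℂ) : Prop :=
  ∀ g : H, ∃ θ : Fin r → ℝ, ∀ i, x i g = XT D θ i

/-- the data of a group -/
structure GD {N : ℕ} (H : Subgroup (SU N)) (c : ℝ) (d : ℕ) {r : ℕ} (D : RD r) (P : RT r)
    (B : Matrix (Fin r) (Fin r) ℤ) (h : ℕ) (x : Fin r → H → ℂ) (k : ℝ) : Prop where
  rdx : RDX D
  gf : GF H c d D x k
  rtd : RTD D P B h
  tor : Tor D x

/-- the box of indices -/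
def ib (r n : ℕ) : Finset (Fin r → ℕ) := Fintype.piFinset fun _ => Finset.range n

/-- the kernel of the frequencies in the box -/
def kx {N : ℕ} {H : Subgroup (SU N)} {r : ℕ} (D : RD r) (x : Fin r → H → ℂ) (n : ℕ) (t : ℝ) (g g' : H) : ℂ :=
  ∑ a ∈ ib r n, eu (t * ((-D.Q (wG a) : ℤ) : ℝ)) * KK (cG D x) a g g'

/-- the kernel times the cutoff function -/
def kg {N : ℕ} {H : Subgroup (SU N)} {r : ℕ} (D : RD r) (P : RT r) (x : Fin r → H → ℂ) (n M : ℕ)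
    (t : ℝ) (g g' : H) : ℂ :=
  kx D x n t g g' * FM D P M (fun i => x i (g * g'⁻¹))

/-- GKT. Let `θ` be the point of `Tor` for `g * g'⁻¹`, so `x i (g * g'⁻¹) = XT D θ i`. `wG` maps `ib r n` bijectively to `bx 1 n`, and `cG D x a 1 = dim (wG a)` (`xone`, `dim_eq`): `kx n t g g' = KT D n (-t) θ`.
Everything by KSH and `WWF.even`. `FM` for `M = 1` is `1` (`ψ 1 = 1`, `P` is not empty). Continuity: `ψ x l` is a polynomial in `x` (INTX), `GF.cont`. -/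
def S_GKT : Prop := ∀ (N : ℕ) (H : Subgroup (SU N)) (c : ℝ) (d r : ℕ) (D : RD r) (P : RT r)
  (B : Matrix (Fin r) (Fin r) ℤ) (h : ℕ) (x : Fin r → H → ℂ) (k : ℝ), GD H c d D P B h x k →
  (∀ n M, Continuous fun z : ℝ × H × H => kg D P x n M z.1 z.2.1 z.2.2) ∧
  (∀ n t g g', kg D P x n 1 t g g' = kx D x n t g g') ∧
  ∃ (C : ℝ) (c : ℕ), 0 ≤ C ∧ 1 ≤ c ∧ ∀ (n : ℕ) (t : ℝ) (g g' : H), 1 ≤ n →
    ‖kg D P x n n t g g'‖ ≤ C * ((n : ℝ) ^ (2 * P.card) * WW n c t ^ ((r : ℝ) / 2)) ∧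
    ∀ M : ℕ, 1 ≤ M → M ≤ n → ‖kg D P x n M t g g' - kg D P x n (2 * M) t g g'‖ ≤
      C * ((n : ℝ) ^ (2 * P.card) * WW n c t ^ ((r : ℝ) / 2) * ((M : ℝ) / n) ^ h)

def M_GKT : Prop := S_WWF → S_INTX → S_KSH → S_GKT

/-- GOP. By KDT (at the point `θ` of `Tor`, time `-t`) `kg n M t g g' = ∑ b ∈ ib r (C (n + M)), m b * KK (cG D x) b g g'` with `m b = (∑ l, dim l e(-t Q l) csh M l (wG b)) / dim (wG b)`
(`KK (cG D x) b g g' = dim (wG b) ψ (XT θ) (wG b)`, `dim (wG b) > 0`), and `‖m b‖ ≤ C WW M c t ^ (r/2) / M^r` by OPB and `WWF.even`. The kernels `KK (cG D x)` are reproducing by IRRX and KERI. KOP. -/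
def S_GOP : Prop := ∀ (N : ℕ) (H : Subgroup (SU N)) (c : ℝ) (d r : ℕ) (D : RD r) (P : RT r)
  (B : Matrix (Fin r) (Fin r) ℤ) (h : ℕ) (x : Fin r → H → ℂ) (k : ℝ), GD H c d D P B h x k →
  ∀ (μ : Measure H) [IsProbabilityMeasure μ] [μ.IsMulLeftInvariant],
  ∃ (C : ℝ) (c : ℕ), 0 ≤ C ∧ 1 ≤ c ∧ ∀ (n M : ℕ) (t : ℝ) (u v : H → ℂ), 1 ≤ n → 1 ≤ M →
    Continuous u → Continuous v →
    ‖∫ g, conj (v g) * ∫ g', kg D P x n M t g g' * u g' ∂μ ∂μ‖ ≤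
      C * (WW M c t ^ ((r : ℝ) / 2) / (M : ℝ) ^ r) * (√(nsq μ u) * √(nsq μ v))

def M_GOP : Prop := S_WWF → S_KERI → S_IRRX → S_KDT → S_OPB → S_KOP → S_GOP

/-- the scale of the piece `j` -/
def MJ (J j : ℕ) : ℕ := 2 ^ min (j + 1) J

/-- GDEC. `k j = kg (2^J) (2^j) - kg (2^J) (2^(j+1))` for `j < J`, `k J = kg (2^J) (2^J)`; the sum telescopes to `kg (2^J) 1`. The bounds: GKT with `M = 2^j`; GOP for `M = 2^j` and `M = 2^(j+1)`, the triangle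
inequality, `WW (2^j) ≤ WW (2^(j+1))` and `(2^j)^(-r) = 2^r (2^(j+1))^(-r)`. (Take the larger of the two constants `c`, `WWF.mono`.) -/
def S_GDEC : Prop := ∀ (N : ℕ) (H : Subgroup (SU N)) (c : ℝ) (d r : ℕ) (D : RD r) (P : RT r)
  (B : Matrix (Fin r) (Fin r) ℤ) (h : ℕ) (x : Fin r → H → ℂ) (k : ℝ), GD H c d D P B h x k →
  ∀ (μ : Measure H) [IsProbabilityMeasure μ] [μ.IsMulLeftInvariant],
  ∃ (C : ℝ) (c : ℕ), 0 ≤ C ∧ 1 ≤ c ∧ ∀ J : ℕ, ∃ k : Fin (J + 1) → ℝ → H → H → ℂ,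
    (∀ t g g', kx D x (2 ^ J) t g g' = ∑ j, k j t g g') ∧
    (∀ j, Continuous fun z : ℝ × H × H => k j z.1 z.2.1 z.2.2) ∧
    (∀ j t g g', ‖k j t g g'‖ ≤ C * (((2 ^ J : ℕ) : ℝ) ^ (2 * P.card) *
      WW (2 ^ J) c t ^ ((r : ℝ) / 2) * ((MJ J j : ℝ) / (2 ^ J : ℕ)) ^ h)) ∧
    ∀ j t (u v : H → ℂ), Continuous u → Continuous v →
      ‖∫ g, conj (v g) * ∫ g', k j t g g' * u g' ∂μ ∂μ‖ ≤
        C * (WW (MJ J j) c t ^ ((r : ℝ) / 2) / (MJ J j : ℝ) ^ r) * (√(nsq μ u) * √(nsq μ v))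

def M_GDEC : Prop := S_WWF → S_GKT → S_GOP → S_GDEC

/-- GSUM. Let `κ = p/2 - 1`, `a = κ r/2 ∈ (2/3, 1)`, `b = r/2 ≥ 3/2`, `n = 2^J`, `M = MJ J j ≤ n`. By INTI the integral is at most
`C n^(qκ) (M/n)^(rκ) M^(-r) n^(2a-2) M^(2b) (n/M)^(1+a/2) = C n^((q+r)κ-2) (M/n)^(3a/2-1)` (`rκ = 2a`, `2b = r`); `3a/2 - 1 > 0`, so the sum over `j` of the powers `2/p` is a geometric series. -/
def S_GSUM : Prop := ∀ (r q c : ℕ) (p C : ℝ), 3 ≤ r → 1 ≤ c → 0 ≤ C → 2 + 8 / (3 * (r : ℝ)) < p →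
  p < 2 + 4 / r → ∃ C' : ℝ, 0 ≤ C' ∧ ∀ J : ℕ, ∃ Γ : Fin (J + 1) → ℝ,
    (∀ j : Fin (J + 1), ∫ t in (0 : ℝ)..1, (C * (((2 ^ J : ℕ) : ℝ) ^ q * WW (2 ^ J) c t ^ ((r : ℝ) / 2) *
        ((MJ J j : ℝ) / (2 ^ J : ℕ)) ^ r)) ^ (p / 2 - 1) *
      (C * (WW (MJ J j) c t ^ ((r : ℝ) / 2) / (MJ J j : ℝ) ^ r)) ≤ Γ j) ∧
    (∀ j, 0 ≤ Γ j) ∧
    ∑ j, Γ j ^ (2 / p) ≤ C' * ((2 ^ J : ℕ) : ℝ) ^ ((((q : ℝ) + r) * (p / 2 - 1) - 2) * (2 / p))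

def M_GSUM : Prop := S_WWF → S_INTI → S_GSUM

/-- LOCX. Let `p' > 2 + 8/(3r)` be the exponent, choose `p` with `2 + 8/(3r) < p < min p' (2 + 4/r)`. `d = r + e`, `e = 2|P|` (`card`), `n = 2^J` with `N ≤ n ≤ 2 N` (if `F` is not empty, `N ≥ 1`; if `F` is empty all is `0`).
`F ⊆ ib r n`, set `u a = 0` outside of `F`. GDEC, GSUM (`q = 2|P|`) and TTX (`φ a = -Q (wG a)`) give the hypothesis of LEV for `U = uw wG (-Q) F u` with `Γ = C' n^((d κ - 2)(2/p)) ∑ nsq (u a)`, `κ = p/2 - 1`. BERN gives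
`|U|² ≤ (∑ a ∈ F, ‖K a g g‖) nsq (U t) ≤ C n^r n^e ∑ nsq (u a)` (`KBF.orth`, `dim_le`). LEV: `∫∫ |U|^p' ≤ C (n^d S)^((p'-p)/2) n^(dκ-2) S^(p/2) = C n^(dp'/2-d-2) S^(p'/2)`. The exponent `d/2 - (d+2)/p'` is nonnegative
(`|P| ≥ r` by `far`; `P` is not empty by `bmem`), so `n` may be replaced by `2 N`. -/
def S_LOCX : Prop := ∀ (N : ℕ) (H : Subgroup (SU N)) (c : ℝ) (d r : ℕ) (D : RD r) (P : RT r)
  (B : Matrix (Fin r) (Fin r) ℤ) (x : Fin r → H → ℂ) (k : ℝ), 3 ≤ r → GD H c d D P B r x k →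
  ∀ (μ : Measure H) [IsProbabilityMeasure μ] [μ.IsMulLeftInvariant],
    LOCH μ (KK (cG D x)) (D.e : ℝ) wG (fun l => -D.Q l) (2 + 8 / (3 * (r : ℝ)))

def M_LOCX : Prop := S_KB → S_BERN → S_KERI → S_WWF → S_IRRX → S_GDEC → S_GSUM → S_TTX → S_LEV → S_LOCX

/-- STRX. As FING (FING.lean), with ALLX and LOCX instead of ALL and SDG. In FING.core replace the hypothesis `SData` by `Ker` and `0 ≤ e`, and `4 < p` by the condition that the exponent `(r+e)/2 - (r+e+2)/p` is nonnegative; the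
conclusion of S_ALL for `-Q` is the conclusion of S_ALLX (LOCX is for `-Q`). -/
def S_STRX : Prop := ∀ (N : ℕ) (H : Subgroup (SU N)) (c : ℝ) (d r : ℕ) (D : RD r) (P : RT r)
  (B : Matrix (Fin r) (Fin r) ℤ) (x : Fin r → H → ℂ) (k : ℝ), 3 ≤ r → GD H c d D P B r x k →
  ∀ p : ℝ, 2 + 8 / (3 * (r : ℝ)) < p → StrG H c d p

def M_STRX : Prop := S_NQ → S_KB → S_HAAR → S_KERI → S_IRRX → S_EIGX → S_ALLX → S_LOCX → S_STRX

/-- TOPN. Transport everything along the isomorphism of `SU n` and `⊤`. A frame in the sense of `Frame` is a frame in the sense of `FrameH ⊤ (2 n)`: it spans by CAS (see FRA.lean). `lie ⊤ = su n`. `C2`, `lap` and `Eig` correspond to `C2H`, `lapH`,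
`EigH`. The measure: `μ.map` of the isomorphism. `dm n = ((n ^ 2 - 1 : ℕ) : ℝ)`. -/
def S_TOPN : Prop := ∀ (n : ℕ) (p : ℝ), 1 ≤ n → 0 < p →
  StrG (⊤ : Subgroup (SU n)) (2 * (n : ℝ)) (n ^ 2 - 1) p →
  ∀ μ : Measure (SU n), IsProbabilityMeasure μ → μ.IsMulLeftInvariant → ∀ a b : ℝ, a ≤ b →
    ∃ C : ℝ, StrIneqH n μ p a b C

def M_TOPN : Prop := S_EXP → S_CAS → S_TOPN

end

end STZ
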