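import Pool.Agent.STZ.Base
import Pool.Agent.STZ.StmtsZ

/-!
# Module GDEC: the dyadic decomposition of the kernel
-/

namespace STZ

open MeasureTheory Matrix

open scoped ComplexConjugate Matrix Real

noncomputable section

namespace GDEC

/-- the bilinear form of a kernel -/
def op {M : Type} [MeasurableSpace M] (μ : Measure M) (K : M → M → ℂ) (u v : M → ℂ) : ℂ :=
  ∫ g, conj (v g) * ∫ g', K g g' * u g' ∂μ ∂μ

theorem integ {M : Type} [TopologicalSpace M] [CompactSpace M] [SecondCountableTopology M]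
    [MeasurableSpace M] [BorelSpace M] (μ : Measure M) [IsFiniteMeasure μ] {f : M → ℂ}
    (hf : Continuous f) : Integrable f μ := by
  obtain ⟨C, hC⟩ := (isCompact_univ (X := M)).exists_bound_of_continuousOn hf.continuousOn
  exact Integrable.of_bound hf.aestronglyMeasurable C
    (Filter.Eventually.of_forall fun x => hC x (Set.mem_univ _))

theorem cont_in {M : Type} [TopologicalSpace M] [CompactSpace M] [T2Space M]
    [SecondCountableTopology M] [MeasurableSpace M] [BorelSpace M] (μ : Measure M)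
    [IsFiniteMeasure μ] {K : M → M → ℂ} {u : M → ℂ}
    (hK : Continuous fun z : M × M => K z.1 z.2) (hu : Continuous u) :
    Continuous fun g => ∫ g', K g g' * u g' ∂μ := by
  have hc : Continuous (Function.uncurry fun (g g' : M) => K g g' * u g') :=
    hK.mul (hu.comp continuous_snd)
  have h := continuous_parametric_integral_of_continuous (μ := μ) hc
    (isCompact_univ (X := M))
  simpa only [Measure.restrict_univ] using h

theorem op_sub {M : Type} [TopologicalSpace M] [CompactSpace M] [T2Space M]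
    [SecondCountableTopology M] [MeasurableSpace M] [BorelSpace M] (μ : Measure M)
    [IsFiniteMeasure μ] {K L : M → M → ℂ} {u v : M → ℂ}
    (hK : Continuous fun z : M × M => K z.1 z.2) (hL : Continuous fun z : M × M => L z.1 z.2)
    (hu : Continuous u) (hv : Continuous v) :
    op μ (fun g g' => K g g' - L g g') u v = op μ K u v - op μ L u v := by
  unfold op
  have e1 : ∀ g, ∫ g', (K g g' - L g g') * u g' ∂μ =
      ∫ g', K g g' * u g' ∂μ - ∫ g', L g g' * u g' ∂μ := by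
    intro g
    rw [← integral_sub]
    · refine integral_congr_ae (Filter.Eventually.of_forall fun x => ?_)
      simp only
      ring
    · exact integ μ ((hK.comp (Continuous.prodMk continuous_const continuous_id)).mul hu)
    · exact integ μ ((hL.comp (Continuous.prodMk continuous_const continuous_id)).mul hu)
  have hcv : Continuous fun g => conj (v g) := Complex.continuous_conj.comp hv
  rw [← integral_sub]
  · refine integral_congr_ae (Filter.Eventually.of_forall fun g => ?_)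
    simp only
    rw [e1 g]
    ring
  · exact integ μ (hcv.mul (cont_in μ hK hu))
  · exact integ μ (hcv.mul (cont_in μ hL hu))

/-- the pieces -/
def pc {N : ℕ} {H : Subgroup (SU N)} {r : ℕ} (D : RD r) (P : RT r) (x : Fin r → H → ℂ) (J : ℕ)
    (j : Fin (J + 1)) (t : ℝ) (g g' : H) : ℂ :=
  if (j : ℕ) < J then kg D P x (2 ^ J) (2 ^ (j : ℕ)) t g g' - kg D P x (2 ^ J) (2 * 2 ^ (j : ℕ)) t g g'
  else kg D P x (2 ^ J) (2 ^ J) t g g'

theorem pc_lt {N : ℕ} {H : Subgroup (SU N)} {r : ℕ} (D : RD r) (P : RT r) (x : Fin r → H → ℂ) (J : ℕ)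
    (j : Fin (J + 1)) (hj : (j : ℕ) < J) (t : ℝ) : pc D P x J j t = fun g g' =>
      kg D P x (2 ^ J) (2 ^ (j : ℕ)) t g g' - kg D P x (2 ^ J) (2 * 2 ^ (j : ℕ)) t g g' := by
  funext g g'
  unfold pc
  rw [if_pos hj]

theorem pc_eq {N : ℕ} {H : Subgroup (SU N)} {r : ℕ} (D : RD r) (P : RT r) (x : Fin r → H → ℂ) (J : ℕ)
    (j : Fin (J + 1)) (hj : ¬ (j : ℕ) < J) (t : ℝ) : pc D P x J j t = fun g g' =>
      kg D P x (2 ^ J) (2 ^ J) t g g' := by
  funext g g'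
  unfold pc
  rw [if_neg hj]

theorem tele (f : ℕ → ℂ) (J : ℕ) :
    ∑ j : Fin (J + 1), (if (j : ℕ) < J then f j - f ((j : ℕ) + 1) else f J) = f 0 := by
  rw [Fin.sum_univ_castSucc]
  have h1 : ∑ i : Fin J, (if ((i.castSucc : Fin (J + 1)) : ℕ) < J
      then f (i.castSucc : Fin (J + 1)) - f (((i.castSucc : Fin (J + 1)) : ℕ) + 1) else f J) =
      ∑ i : Fin J, (f (i : ℕ) - f ((i : ℕ) + 1)) := by
    refine Finset.sum_congr rfl fun i _ => ?_
    have : ((i.castSucc : Fin (J + 1)) : ℕ) < J := i.2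
    rw [if_pos this]
    rfl
  rw [h1, Fin.sum_univ_eq_sum_range (fun i => f i - f (i + 1)) J, Finset.sum_range_sub']
  have h2 : ¬ ((Fin.last J : Fin (J + 1)) : ℕ) < J := by simp
  rw [if_neg h2]
  ring

theorem MJ_lt {J j : ℕ} (h : j < J) : MJ J j = 2 ^ (j + 1) := by
  unfold MJ
  rw [min_eq_left (by omega)]

theorem MJ_ge {J j : ℕ} (h : ¬ j < J) : MJ J j = 2 ^ J := by
  unfold MJ
  rw [min_eq_right (by omega)]

theorem cont_sl {M : Type} [TopologicalSpace M] {F : ℝ → M → M → ℂ}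
    (hF : Continuous fun z : ℝ × M × M => F z.1 z.2.1 z.2.2) (t : ℝ) :
    Continuous fun z : M × M => F t z.1 z.2 :=
  hF.comp (Continuous.prodMk continuous_const continuous_id)

theorem WW0 (hW : S_WWF) (R c : ℕ) (t : ℝ) : 0 ≤ WW R c t := (Nat.cast_nonneg R).trans (hW.ge R c t)

variable {N : ℕ} {H : Subgroup (SU N)} {r : ℕ}

theorem sum_eq (D : RD r) (P : RT r) (x : Fin r → H → ℂ)
    (h1 : ∀ n t g g', kg D P x n 1 t g g' = kx D x n t g g') (J : ℕ) (t : ℝ) (g g' : H) :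
    kx D x (2 ^ J) t g g' = ∑ j, pc D P x J j t g g' := by
  have e := tele (fun i => kg D P x (2 ^ J) (2 ^ i) t g g') J
  rw [← h1 (2 ^ J) t g g']
  have e0 : kg D P x (2 ^ J) 1 t g g' = kg D P x (2 ^ J) (2 ^ 0) t g g' := by rw [pow_zero]
  rw [e0]
  refine e.symm.trans ?_
  refine Finset.sum_congr rfl fun j _ => ?_
  unfold pc
  rw [pow_succ']

theorem cont_pc (D : RD r) (P : RT r) (x : Fin r → H → ℂ)
    (hcont : ∀ n M, Continuous fun z : ℝ × H × H => kg D P x n M z.1 z.2.1 z.2.2) (J : ℕ)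
    (j : Fin (J + 1)) : Continuous fun z : ℝ × H × H => pc D P x J j z.1 z.2.1 z.2.2 := by
  by_cases hj : (j : ℕ) < J
  · have e : (fun z : ℝ × H × H => pc D P x J j z.1 z.2.1 z.2.2) = fun z : ℝ × H × H =>
        kg D P x (2 ^ J) (2 ^ (j : ℕ)) z.1 z.2.1 z.2.2 -
          kg D P x (2 ^ J) (2 * 2 ^ (j : ℕ)) z.1 z.2.1 z.2.2 := by
      funext z
      rw [pc_lt D P x J j hj]
    rw [e]
    exact (hcont _ _).sub (hcont _ _)
  · have e : (fun z : ℝ × H × H => pc D P x J j z.1 z.2.1 z.2.2) = fun z : ℝ × H × H =>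
        kg D P x (2 ^ J) (2 ^ J) z.1 z.2.1 z.2.2 := by
      funext z
      rw [pc_eq D P x J j hj]
    rw [e]
    exact hcont _ _

/-- arithmetic for the pointwise bound -/
theorem ar1 {X C₁ C A w W q Q : ℝ} (hX : X ≤ C₁ * (A * w * q)) (h1 : 0 ≤ C₁) (hC : C₁ ≤ C)
    (hA : 0 ≤ A) (hw : 0 ≤ w) (hwW : w ≤ W) (hq : 0 ≤ q) (hqQ : q ≤ Q) : X ≤ C * (A * W * Q) := by
  have h3 : 0 ≤ C := h1.trans hC
  have h4 : 0 ≤ W := hw.trans hwW
  refine hX.trans ?_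
  gcongr

theorem ar2 {X C₁ C w W M S : ℝ} (hX : X ≤ C₁ * (w / M) * S) (h1 : 0 ≤ C₁) (hC : C₁ ≤ C)
    (hw : 0 ≤ w) (hwW : w ≤ W) (hM : 0 ≤ M) (hS : 0 ≤ S) : X ≤ C * (W / M) * S := by
  have h3 : 0 ≤ C := h1.trans hC
  have h4 : 0 ≤ W := hw.trans hwW
  refine hX.trans ?_
  gcongr

theorem ar3 {X Y C₁ C₂ C w W m M S a : ℝ} (hX : X ≤ C₂ * (w / m) * S) (hY : Y ≤ C₂ * (W / M) * S)
    (h1 : 0 ≤ C₂) (h1' : 0 ≤ C₁) (hC : C = C₁ + C₂ * (a + 1)) (hwW : w ≤ W) (hW : 0 ≤ W)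
    (hm : 0 < m) (hM : M = a * m) (ha : 0 < a) (hS : 0 ≤ S) : X + Y ≤ C * (W / M) * S := by
  have e : w / m ≤ a * (W / M) := by
    rw [hM]
    have : a * (W / (a * m)) = W / m := by field_simp
    rw [this]
    gcongr
  have h2 : X ≤ C₂ * (a * (W / M)) * S := hX.trans (by gcongr)
  have hQ : 0 ≤ W / M := div_nonneg hW (by rw [hM]; positivity)
  have h3 : X + Y ≤ (C₂ * (a + 1)) * (W / M) * S := by
    have := add_le_add h2 hY
    refine this.trans (le_of_eq ?_)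
    ring
  refine h3.trans ?_
  have h4 : C₂ * (a + 1) ≤ C := by rw [hC]; linarith
  gcongr

theorem wle (hW : S_WWF) (r : ℕ) {R R' c c' : ℕ} (t : ℝ) (h : R ≤ R') (hc : c ≤ c') :
    WW R c t ^ ((r : ℝ) / 2) ≤ WW R' c' t ^ ((r : ℝ) / 2) :=
  Real.rpow_le_rpow (WW0 hW _ _ _) (hW.mono R R' c c' t h hc) (by positivity)

theorem w0 (hW : S_WWF) (r R c : ℕ) (t : ℝ) : 0 ≤ WW R c t ^ ((r : ℝ) / 2) :=
  Real.rpow_nonneg (WW0 hW _ _ _) _

theorem bd1 (hW : S_WWF) (D : RD r) (P : RT r) (x : Fin r → H → ℂ) (h : ℕ) (C₁ C : ℝ) (c₁ c : ℕ)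
    (hC₁ : 0 ≤ C₁) (hC : C₁ ≤ C) (hc : c₁ ≤ c)
    (hb : ∀ (n : ℕ) (t : ℝ) (g g' : H), 1 ≤ n →
    ‖kg D P x n n t g g'‖ ≤ C₁ * ((n : ℝ) ^ (2 * P.card) * WW n c₁ t ^ ((r : ℝ) / 2)) ∧
    ∀ M : ℕ, 1 ≤ M → M ≤ n → ‖kg D P x n M t g g' - kg D P x n (2 * M) t g g'‖ ≤
      C₁ * ((n : ℝ) ^ (2 * P.card) * WW n c₁ t ^ ((r : ℝ) / 2) * ((M : ℝ) / n) ^ h))
    (J n : ℕ) (hn : n = 2 ^ J) (j : Fin (J + 1)) (t : ℝ) (g g' : H) :
    ‖pc D P x J j t g g'‖ ≤ C * ((n : ℝ) ^ (2 * P.card) *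
      WW n c t ^ ((r : ℝ) / 2) * ((MJ J j : ℝ) / (n : ℕ)) ^ h) := by
  have hn1 : 1 ≤ n := by rw [hn]; exact Nat.one_le_two_pow
  have hn' : (0 : ℝ) < (n : ℝ) := by exact_mod_cast hn1
  by_cases hj : (j : ℕ) < J
  · obtain ⟨m, hm⟩ : ∃ m, m = 2 ^ (j : ℕ) := ⟨_, rfl⟩
    have hm1 : 1 ≤ m := by rw [hm]; exact Nat.one_le_two_pow
    have hmn : m ≤ n := by rw [hm, hn]; exact Nat.pow_le_pow_right (by norm_num) hj.le
    have hMJ : MJ J j = 2 * m := by rw [MJ_lt hj, hm, pow_succ']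
    rw [pc_lt D P x J j hj, hMJ, ← hm, ← hn]
    refine ar1 ((hb n t g g' hn1).2 m hm1 hmn) hC₁ hC (by positivity) (w0 hW r n c₁ t)
      (wle hW r t le_rfl hc) (by positivity) ?_
    refine pow_le_pow_left₀ (by positivity) ?_ h
    refine div_le_div_of_nonneg_right ?_ hn'.le
    push_cast
    have : (0 : ℝ) ≤ m := Nat.cast_nonneg m
    linarith
  · rw [pc_eq D P x J j hj, MJ_ge hj, ← hn]
    have h2 := (hb n t g g' hn1).1
    have h3 : ‖kg D P x n n t g g'‖ ≤ C₁ * ((n : ℝ) ^ (2 * P.card) * WW n c₁ t ^ ((r : ℝ) / 2) * 1) := by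
      rw [mul_one]; exact h2
    refine ar1 h3 hC₁ hC (by positivity) (w0 hW r n c₁ t) (wle hW r t le_rfl hc) zero_le_one ?_
    rw [div_self hn'.ne', one_pow]

theorem bd2 (hW : S_WWF) [CompactSpace H] (μ : Measure H) [IsProbabilityMeasure μ] (D : RD r)
    (P : RT r) (x : Fin r → H → ℂ) (C₁ C₂ : ℝ) (c₂ c : ℕ)
    (hC₁ : 0 ≤ C₁) (hC₂ : 0 ≤ C₂) (hc : c₂ ≤ c)
    (hct : ∀ n M t, Continuous fun z : H × H => kg D P x n M t z.1 z.2)
    (ho : ∀ (n M : ℕ) (t : ℝ) (u v : H → ℂ), 1 ≤ n → 1 ≤ M →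
    Continuous u → Continuous v →
    ‖op μ (kg D P x n M t) u v‖ ≤
      C₂ * (WW M c₂ t ^ ((r : ℝ) / 2) / (M : ℝ) ^ r) * (√(nsq μ u) * √(nsq μ v)))
    (J : ℕ) (j : Fin (J + 1)) (t : ℝ) (u v : H → ℂ) (hu : Continuous u) (hv : Continuous v) :
    ‖op μ (pc D P x J j t) u v‖ ≤ (C₁ + C₂ * (2 ^ r + 1)) *
      (WW (MJ J j) c t ^ ((r : ℝ) / 2) / (MJ J j : ℝ) ^ r) * (√(nsq μ u) * √(nsq μ v)) := by
  have hsec : SecondCountableTopology H :=
    inferInstanceAs (SecondCountableTopology ((H : Set (SU N)) : Type))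
  obtain ⟨n, hn⟩ : ∃ n, n = 2 ^ J := ⟨_, rfl⟩
  have hn1 : 1 ≤ n := by rw [hn]; exact Nat.one_le_two_pow
  obtain ⟨S, hS⟩ : ∃ S, S = √(nsq μ u) * √(nsq μ v) := ⟨_, rfl⟩
  have hS0 : 0 ≤ S := by rw [hS]; positivity
  have key : ∀ M : ℕ, 1 ≤ M → ‖op μ (kg D P x n M t) u v‖ ≤
      C₂ * (WW M c t ^ ((r : ℝ) / 2) / (M : ℝ) ^ r) * S := by
    intro M hM
    rw [hS] at hS0 ⊢
    exact ar2 (ho n M t u v hn1 hM hu hv) hC₂ le_rfl (w0 hW r M c₂ t) (wle hW r t le_rfl hc)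
      (by positivity) hS0
  rw [← hS]
  by_cases hj : (j : ℕ) < J
  · obtain ⟨m, hm⟩ : ∃ m, m = 2 ^ (j : ℕ) := ⟨_, rfl⟩
    have hm1 : 1 ≤ m := by rw [hm]; exact Nat.one_le_two_pow
    have hMJ : MJ J j = 2 * m := by rw [MJ_lt hj, hm, pow_succ']
    rw [pc_lt D P x J j hj, hMJ, ← hm, ← hn]
    rw [op_sub μ (hct n m t) (hct n (2 * m) t) hu hv]
    refine (norm_sub_le _ _).trans ?_
    refine ar3 (a := 2 ^ r) (key m hm1) (key (2 * m) (by omega)) hC₂ hC₁ rfl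
      (wle hW r t (by omega) le_rfl) (w0 hW r _ c t) ?_ ?_ (by positivity) hS0
    · have : (0 : ℝ) < m := by exact_mod_cast hm1
      positivity
    · push_cast
      rw [mul_pow]
  · rw [pc_eq D P x J j hj, MJ_ge hj, ← hn]
    refine ar2 (key n hn1) hC₂ ?_ (w0 hW r n c t) le_rfl (by positivity) hS0
    have h2 : (0 : ℝ) ≤ 2 ^ r := by positivity
    nlinarith

end GDEC

open GDEC in
theorem t_GDEC : M_GDEC := by
  intro hW hK hO N H c₀ d r D P B h x k hG μ _ _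
  have hcpt : CompactSpace H := isCompact_iff_compactSpace.1 hG.gf.closed.isCompact
  obtain ⟨hcont, h1, C₁, c₁, hC₁, hc₁, hb⟩ := hK N H c₀ d r D P B h x k hG
  obtain ⟨C₂, c₂, hC₂, hc₂, ho⟩ := hO N H c₀ d r D P B h x k hG μ
  have hct : ∀ n M t, Continuous fun z : H × H => kg D P x n M t z.1 z.2 := fun n M t => by
    exact cont_sl (F := kg D P x n M) (hcont n M) t
  have h2r : (0 : ℝ) ≤ C₂ * (2 ^ r + 1) := by positivity
  refine ⟨C₁ + C₂ * (2 ^ r + 1), max c₁ c₂, add_nonneg hC₁ h2r, le_max_of_le_left hc₁, fun J => ?_⟩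
  refine ⟨pc D P x J, fun t g g' => ?_, fun j => ?_, fun j t g g' => ?_, fun j t u v hu hv => ?_⟩
  · exact sum_eq D P x h1 J t g g'
  · exact cont_pc D P x hcont J j
  · exact bd1 hW D P x h C₁ (C₁ + C₂ * (2 ^ r + 1)) c₁ (max c₁ c₂) hC₁
      (le_add_of_nonneg_right h2r) (le_max_left _ _) hb J (2 ^ J) rfl j t g g'
  · exact bd2 hW μ D P x C₁ C₂ c₂ (max c₁ c₂) hC₁ hC₂ (le_max_right _ _) hct ho J j t u v hu hv

end

end STZ
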