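import Pool.Agent.STZ.StmtsN

/-!
# STZ, module GEA: simple facts about the characters of dimension `3` of `SU(3)`
-/

namespace STZ

open MeasureTheory Matrix

open scoped ComplexConjugate Matrix Real

noncomputable section

namespace GEA

theorem val_cont : Continuous fun g : (⊤ : Subgroup (SU 3)) => g.1.1 :=
  continuous_subtype_val.comp continuous_subtype_val

theorem tr_cont : Continuous fun g : (⊤ : Subgroup (SU 3)) => g.1.1.trace :=
  val_cont.matrix_trace

theorem tr_mul (g h : (⊤ : Subgroup (SU 3))) : (g * h).1.1.trace = (h * g).1.1.trace :=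
  Matrix.trace_mul_comm g.1.1 h.1.1

theorem tr_one : ((1 : (⊤ : Subgroup (SU 3))).1.1).trace = (3 : ℂ) := by
  show (1 : Matrix (Fin 3) (Fin 3) ℂ).trace = 3
  simp

end GEA

theorem t_GEA : M_GEA := by
  intro hV hT
  obtain ⟨-, -, -, hconj, hch⟩ := hV (⊤ : Subgroup (SU 3))
  have hv1 : VC (fun g : (⊤ : Subgroup (SU 3)) => g.1.1.trace) := by
    obtain ⟨R, -, h2⟩ := hT 3 (⊤ : Subgroup (SU 3)) 1 0
    have h3 := hch _ R
    have h4 : R.ch = fun g : (⊤ : Subgroup (SU 3)) => g.1.1.trace := by
      funext g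
      rw [h2 g, pow_one, pow_zero, mul_one]
    rwa [h4] at h3
  refine ⟨?_, ?_, ?_, ?_, ?_, ?_, ?_⟩
  · exact isClosed_univ
  · intro i g
    fin_cases i
    · show conj g.1.1.trace = xA (Equiv.swap 0 1 0) g
      rw [Equiv.swap_apply_left]
      rfl
    · show conj (conj g.1.1.trace) = xA (Equiv.swap 0 1 1) g
      rw [Equiv.swap_apply_right, Complex.conj_conj]
      rfl
  · intro i g h
    fin_cases i
    · exact GEA.tr_mul g h
    · show conj (g * h).1.1.trace = conj (h * g).1.1.trace
      rw [GEA.tr_mul g h]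
  · intro i
    fin_cases i
    · exact GEA.tr_one
    · show conj (1 : (⊤ : Subgroup (SU 3))).1.1.trace = 3
      rw [GEA.tr_one]
      exact Complex.conj_ofNat 3
  · intro i
    fin_cases i
    · exact GEA.tr_cont
    · exact Complex.continuous_conj.comp GEA.tr_cont
  · intro i
    fin_cases i
    · exact hv1
    · exact hconj _ hv1
  · refine ⟨MvPolynomial.X 0, fun g => ?_⟩
    rw [MvPolynomial.aeval_X]
    rfl

end

end STZ
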