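import Pool.Agent.STZ.StmtsN

/-!
# STZ, module GEC: simple facts about the class functions of `Sp(2)`
-/

namespace STZ

open MeasureTheory Matrix

open scoped ComplexConjugate Matrix Real

noncomputable section

namespace GEC

theorem J4_sq : J4 * J4 = -1 := by
  ext i j
  fin_cases i <;> fin_cases j <;> simp [J4, Matrix.mul_apply, Fin.sum_univ_four]

theorem val_cont : Continuous fun g : Sp2 => g.1.1 :=
  continuous_subtype_val.comp continuous_subtype_val

theorem tr_cont : Continuous fun g : Sp2 => g.1.1.trace :=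
  val_cont.matrix_trace

theorem tr2_cont : Continuous fun g : Sp2 => (g.1.1 * g.1.1).trace :=
  (val_cont.matrix_mul val_cont).matrix_trace

theorem real_aux {M : Matrix (Fin 4) (Fin 4) ℂ} (h1 : M * Mᴴ = 1) (h2 : Mᵀ * J4 * M = J4) :
    conj M.trace = M.trace := by
  have h3 : J4 * Mᴴ = Mᵀ * J4 := by
    calc J4 * Mᴴ = Mᵀ * J4 * M * Mᴴ := by rw [h2]
      _ = Mᵀ * J4 * (M * Mᴴ) := by simp only [Matrix.mul_assoc]
      _ = Mᵀ * J4 := by rw [h1, Matrix.mul_one]
  have h4 : (Mᴴ).trace = M.trace := by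
    calc (Mᴴ).trace = (-(J4 * J4) * Mᴴ).trace := by rw [J4_sq, neg_neg, Matrix.one_mul]
      _ = -(J4 * (J4 * Mᴴ)).trace := by
          rw [Matrix.neg_mul, Matrix.trace_neg, Matrix.mul_assoc]
      _ = -(J4 * (Mᵀ * J4)).trace := by rw [h3]
      _ = -(Mᵀ * (J4 * J4)).trace := by
          rw [Matrix.trace_mul_comm, Matrix.mul_assoc]
      _ = M.trace := by
          rw [J4_sq, Matrix.mul_neg, Matrix.mul_one, Matrix.trace_neg, neg_neg,
            Matrix.trace_transpose]
  rw [Matrix.trace_conjTranspose] at h4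
  exact h4

theorem star_mul_self (g : SU 4) : g.1 * (g.1)ᴴ = 1 := by
  have h := (Matrix.mem_specialUnitaryGroup_iff.mp g.2).1
  rw [Matrix.mem_unitaryGroup_iff] at h
  exact h

theorem tr_real (g : Sp2) : conj g.1.1.trace = g.1.1.trace :=
  real_aux (star_mul_self g.1) g.2

theorem tr2_real (g : Sp2) : conj (g.1.1 * g.1.1).trace = (g.1.1 * g.1.1).trace := by
  have h := tr_real (g * g)
  exact h

end GEC

theorem t_GEC : M_GEC := by
  intro hV hT hE
  obtain ⟨hc, hadd, -, -, hch⟩ := hV Sp2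
  have hT' := hT 4 Sp2 1 0
  have hE' := hE 4 Sp2
  refine ⟨?_, ?_, ?_, ?_, ?_, ?_, ?_⟩
  · have h : Continuous fun g : SU 4 => g.1ᵀ * J4 * g.1 := by
      have hv : Continuous fun g : SU 4 => g.1 := continuous_subtype_val
      exact (hv.matrix_transpose.matrix_mul continuous_const).matrix_mul hv
    exact isClosed_eq h continuous_const
  · intro i g
    have h1 := GEC.tr_real g
    have h2 := GEC.tr2_real g
    have h3 : D2.st i = i := rfl
    rw [h3]
    fin_cases i
    · exact h1
    · show conj ((g.1.1.trace ^ 2 - (g.1.1 * g.1.1).trace) / 2 - 1) =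
        (g.1.1.trace ^ 2 - (g.1.1 * g.1.1).trace) / 2 - 1
      have h4 : conj (2 : ℂ) = 2 := Complex.conj_ofNat 2
      rw [map_sub, map_div₀, map_sub, map_pow, h1, h2, map_one, h4]
  · intro i g h
    have h1 : ((g * h).1.1).trace = ((h * g).1.1).trace := by
      show (g.1.1 * h.1.1).trace = (h.1.1 * g.1.1).trace
      exact Matrix.trace_mul_comm _ _
    have h2 : ((g * h).1.1 * (g * h).1.1).trace = ((h * g).1.1 * (h * g).1.1).trace := by
      show (g.1.1 * h.1.1 * (g.1.1 * h.1.1)).trace = (h.1.1 * g.1.1 * (h.1.1 * g.1.1)).trace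
      rw [Matrix.mul_assoc, Matrix.trace_mul_comm]
      simp only [Matrix.mul_assoc]
    fin_cases i
    · exact h1
    · show ((g * h).1.1.trace ^ 2 - ((g * h).1.1 * (g * h).1.1).trace) / 2 - 1 =
        ((h * g).1.1.trace ^ 2 - ((h * g).1.1 * (h * g).1.1).trace) / 2 - 1
      rw [h1, h2]
  · intro i
    have h1 : ((1 : Sp2).1.1).trace = (4 : ℂ) := by
      show (1 : Matrix (Fin 4) (Fin 4) ℂ).trace = 4
      simp
    have h2 : ((1 : Sp2).1.1 * (1 : Sp2).1.1).trace = (4 : ℂ) := by
      show ((1 : Matrix (Fin 4) (Fin 4) ℂ) * 1).trace = 4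
      simp
    fin_cases i
    · exact h1
    · show ((1 : Sp2).1.1.trace ^ 2 - ((1 : Sp2).1.1 * (1 : Sp2).1.1).trace) / 2 - 1 = 5
      rw [h1, h2]
      norm_num
  · intro i
    fin_cases i
    · exact GEC.tr_cont
    · exact (((GEC.tr_cont.pow 2).sub GEC.tr2_cont).div_const 2).sub continuous_const
  · intro i
    fin_cases i
    · obtain ⟨R, -, hR⟩ := hT'
      have h : VC R.ch := hch _ R
      have h' : R.ch = xC 0 := by
        funext g
        rw [hR g]
        show g.1.1.trace ^ 1 * conj g.1.1.trace ^ 0 = g.1.1.trace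
        rw [pow_one, pow_zero, mul_one]
      rw [h'] at h
      exact h
    · have h := hadd _ _ hE' (hc (-1))
      have h' : (fun g : Sp2 => (g.1.1.trace ^ 2 - (g.1.1 * g.1.1).trace) / 2 + ((-1 : ℤ) : ℂ)) =
          xC 1 := by
        funext g
        show (g.1.1.trace ^ 2 - (g.1.1 * g.1.1).trace) / 2 + ((-1 : ℤ) : ℂ) =
          (g.1.1.trace ^ 2 - (g.1.1 * g.1.1).trace) / 2 - 1
        push_cast
        ring
      rw [h'] at h
      exact h
  · refine ⟨MvPolynomial.X 0, fun g => ?_⟩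
    rw [MvPolynomial.aeval_X]
    rfl

end

end STZ
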