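import Pool.Agent.STZ.StmtsN

/-!
# STZ, GEG: simple facts about the characters of `G₂` of dimension `7` and `14`
-/

namespace STZ

open MeasureTheory Matrix

open scoped ComplexConjugate Matrix

noncomputable section

namespace GEG

theorem closed : IsClosed (G2 : Set (SU 7)) := by
  have h1 : (G2 : Set (SU 7)) = (⋂ i, ⋂ j, {g : SU 7 | conj (g.1 i j) = g.1 i j}) ∩
      (⋂ x : Fin 7 → ℂ, ⋂ y : Fin 7 → ℂ, ⋂ z : Fin 7 → ℂ,
        {g : SU 7 | Phi (g.1 *ᵥ x) (g.1 *ᵥ y) (g.1 *ᵥ z) = Phi x y z}) := by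
    ext g
    simp only [Set.mem_inter_iff, Set.mem_iInter, Set.mem_ofPred_eq]
    exact Iff.rfl
  rw [h1]
  refine IsClosed.inter ?_ ?_
  · refine isClosed_iInter fun i => isClosed_iInter fun j => ?_
    exact isClosed_eq (Complex.continuous_conj.comp (continuous_entry i j)) (continuous_entry i j)
  · refine isClosed_iInter fun x => isClosed_iInter fun y => isClosed_iInter fun z => ?_
    refine isClosed_eq ?_ continuous_const
    have hc : ∀ v : Fin 7 → ℂ, ∀ i, Continuous fun g : SU 7 => (g.1 *ᵥ v) i := by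
      intro v i
      simp only [Matrix.mulVec, dotProduct]
      exact continuous_finsetSum _ fun k _ => (continuous_entry i k).mul continuous_const
    unfold Phi
    refine continuous_finsetSum _ fun i _ => continuous_finsetSum _ fun j _ =>
      continuous_finsetSum _ fun k _ => ?_
    exact ((continuous_const.mul (hc x i)).mul (hc y j)).mul (hc z k)

theorem tr_real (g : G2) : conj g.1.1.trace = g.1.1.trace := by
  rw [Matrix.trace, map_sum]
  exact Finset.sum_congr rfl fun i _ => g.2.1 i i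

theorem tr2_real (g : G2) : conj (g.1.1 * g.1.1).trace = (g.1.1 * g.1.1).trace :=
  tr_real (g * g)

theorem tr_mul (g h : G2) : (g * h).1.1.trace = (h * g).1.1.trace :=
  Matrix.trace_mul_comm g.1.1 h.1.1

theorem tr_mul2 (g h : G2) : ((g * h).1.1 * (g * h).1.1).trace =
    ((h * g).1.1 * (h * g).1.1).trace := by
  have h1 : ∀ a b : G2, (a * b).1.1 = a.1.1 * b.1.1 := fun a b => rfl
  rw [h1, h1, Matrix.mul_assoc, Matrix.trace_mul_comm]
  simp only [Matrix.mul_assoc]

end GEG

theorem t_GEG : M_GEG := by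
  intro hV hT hE ψ
  have hc1 : Continuous fun g : G2 => g.1.1.trace := continuous_trace.comp continuous_subtype_val
  have hc2 : Continuous fun g : G2 => (g.1.1 * g.1.1).trace :=
    ((continuous_subtype_val.comp continuous_subtype_val).matrix_mul
      (continuous_subtype_val.comp continuous_subtype_val)).matrix_trace
  have hv1 : VC (fun g : G2 => g.1.1.trace) := by
    obtain ⟨R, -, h2⟩ := hT 7 G2 1 0
    obtain ⟨-, -, -, -, h5⟩ := hV G2
    have h3 := h5 _ R
    have h4 : R.ch = fun g : G2 => g.1.1.trace := by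
      funext g
      rw [h2 g, pow_one, pow_zero, mul_one]
    rwa [h4] at h3
  refine ⟨GEG.closed, ?_, ?_, ?_, ?_, ?_, ?_⟩
  · intro i g
    fin_cases i
    · exact GEG.tr_real g
    · show conj ((g.1.1.trace ^ 2 - (g.1.1 * g.1.1).trace) / 2 - g.1.1.trace) =
        (g.1.1.trace ^ 2 - (g.1.1 * g.1.1).trace) / 2 - g.1.1.trace
      rw [map_sub, map_div₀, map_sub, map_pow, GEG.tr_real, GEG.tr2_real]
      congr 2
      exact Complex.conj_ofNat 2
  · intro i g h
    fin_cases i
    · exact GEG.tr_mul g h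
    · show ((g * h).1.1.trace ^ 2 - ((g * h).1.1 * (g * h).1.1).trace) / 2 - (g * h).1.1.trace =
        ((h * g).1.1.trace ^ 2 - ((h * g).1.1 * (h * g).1.1).trace) / 2 - (h * g).1.1.trace
      rw [GEG.tr_mul g h, GEG.tr_mul2 g h]
  · have h1 : (1 : G2).1.1 = 1 := rfl
    intro i
    fin_cases i
    · show (1 : G2).1.1.trace = 7
      rw [h1, Matrix.trace_one, Fintype.card_fin]
      norm_num
    · show ((1 : G2).1.1.trace ^ 2 - ((1 : G2).1.1 * (1 : G2).1.1).trace) / 2 -
        (1 : G2).1.1.trace = 14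
      rw [h1, Matrix.mul_one, Matrix.trace_one, Fintype.card_fin]
      norm_num
  · intro i
    fin_cases i
    · exact hc1
    · exact (((hc1.pow 2).sub hc2).div_const 2).sub hc1
  · intro i
    obtain ⟨h0, h1, h2, -, -⟩ := hV G2
    fin_cases i
    · exact hv1
    · have h3 := h1 _ _ (hE 7 G2) (h2 _ _ (h0 (-1)) hv1)
      have h4 : (fun g : G2 => (g.1.1.trace ^ 2 - (g.1.1 * g.1.1).trace) / 2 +
          (((-1 : ℤ) : ℂ)) * g.1.1.trace) = xG 1 := by
        funext g
        show (g.1.1.trace ^ 2 - (g.1.1 * g.1.1).trace) / 2 + (((-1 : ℤ) : ℂ)) * g.1.1.trace =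
          (g.1.1.trace ^ 2 - (g.1.1 * g.1.1).trace) / 2 - g.1.1.trace
        push_cast
        ring
      rw [h4] at h3
      exact h3
  · refine ⟨MvPolynomial.X 0, fun g => ?_⟩
    rw [MvPolynomial.aeval_X]
    rfl

end

end STZ
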