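import Pool.Agent.STZ.StmtsP

/-!
# The generators of the ring of class functions of `SU(r + 1)`
-/

namespace STZ

open MeasureTheory Matrix

open scoped ComplexConjugate Matrix Real

noncomputable section

namespace GFEN

theorem cont_eg {n : ℕ} (k : ℕ) : Continuous fun g : Matrix (Fin n) (Fin n) ℂ => eg k g := by
  unfold eg
  refine continuous_finsetSum _ fun s _ => ?_
  exact Continuous.matrix_det (Continuous.matrix_submatrix continuous_id _ _)

end GFEN

open GFEN in
theorem t_GFEN : M_GFEN := by
  intro hE hV r
  have hF := hE (r + 1)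
  refine ⟨?_, ?_, ?_, ?_, ?_, ?_, ?_⟩
  · simp
  · intro i g
    have hi := i.2
    have h := hF.cjg g.1 (i.val + 1) (by omega)
    have e : r + 1 - (i.val + 1) = (Fin.rev i).val + 1 := by
      rw [Fin.val_rev]
      omega
    rw [e] at h
    exact h
  · intro i g h
    exact hF.comm _ _ _
  · intro i
    have h := hF.one (i.val + 1)
    exact h
  · intro i
    exact (cont_eg _).comp (continuous_subtype_val.comp continuous_subtype_val)
  · intro i
    exact hV (r + 1) ⊤ (i.val + 1)
  · rcases Nat.eq_zero_or_pos r with h0 | h0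
    · subst h0
      refine ⟨1, fun g => ?_⟩
      rw [map_one]
      have h1 := hF.tr g.1.1
      have h2 := hF.top g.1.1
      rw [← h1, h2]
      exact (Matrix.mem_specialUnitaryGroup_iff.1 g.1.2).2
    · refine ⟨MvPolynomial.X ⟨0, h0⟩, fun g => ?_⟩
      rw [MvPolynomial.aeval_X]
      exact (hF.tr g.1.1).symm

end

end STZ
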