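import Pool.Agent.STZ.StmtsP

/-!
# STZ, module GFLN: the Laplace operator and the generators for `SU(n)`
-/

namespace STZ

open MeasureTheory Matrix

open scoped ComplexConjugate Matrix Real

noncomputable section

namespace GFLN

theorem frame {n : ℕ} {X : Fin (n ^ 2 - 1) → Matrix (Fin n) (Fin n) ℂ}
    (hF : FrameH (⊤ : Subgroup (SU n)) (2 * (n : ℝ)) X) : Frame X := by
  refine ⟨fun a => (hF.mem a).1, fun a b => ?_⟩
  have h := hF.orth a b
  rw [← h]
  push_cast
  ring

theorem trace_mul {n : ℕ} (P Y : Matrix (Fin n) (Fin n) ℂ) :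
    (P * Y).trace = ∑ p : Fin n × Fin n, P p.1 p.2 * Y p.2 p.1 := by
  rw [Fintype.sum_prod_type]
  simp only [Matrix.trace, Matrix.diag_apply, Matrix.mul_apply]

theorem casT {n : ℕ} (hn : 1 ≤ n) (hS : S_CAS) {X : Fin (n ^ 2 - 1) → Matrix (Fin n) (Fin n) ℂ}
    (hX : Frame X) (P Q : Matrix (Fin n) (Fin n) ℂ) :
    ∑ a, (P * X a).trace * (Q * X a).trace =
      -(1 / (2 * (n : ℂ))) * ((P * Q).trace - 1 / (n : ℂ) * (P.trace * Q.trace)) := by
  have h1 : ∀ a, (P * X a).trace * (Q * X a).trace =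
      ∑ p : Fin n × Fin n, ∑ q : Fin n × Fin n,
        (P p.1 p.2 * Q q.1 q.2) * (X a p.2 p.1 * X a q.2 q.1) := by
    intro a
    rw [trace_mul, trace_mul, Finset.sum_mul]
    refine Finset.sum_congr rfl fun p _ => ?_
    rw [Finset.mul_sum]
    exact Finset.sum_congr rfl fun q _ => by ring
  simp only [h1]
  rw [Finset.sum_comm]
  have h2 : ∀ p : Fin n × Fin n, ∑ a, ∑ q : Fin n × Fin n,
        (P p.1 p.2 * Q q.1 q.2) * (X a p.2 p.1 * X a q.2 q.1) =
      ∑ q : Fin n × Fin n, (P p.1 p.2 * Q q.1 q.2) * (-(1 / (2 * (n : ℂ))) *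
        ((if p.2 = q.1 ∧ p.1 = q.2 then 1 else 0) -
          (if p.2 = p.1 ∧ q.2 = q.1 then 1 / (n : ℂ) else 0))) := by
    intro p
    rw [Finset.sum_comm]
    refine Finset.sum_congr rfl fun q _ => ?_
    rw [← Finset.mul_sum, hS n hn X hX]
  simp only [h2]
  have h3 : (P * Q).trace = ∑ p : Fin n × Fin n, ∑ q : Fin n × Fin n,
      P p.1 p.2 * Q q.1 q.2 * (if p.2 = q.1 ∧ p.1 = q.2 then 1 else 0) := by
    rw [trace_mul]
    refine Finset.sum_congr rfl fun p _ => ?_
    rw [Finset.sum_eq_single (p.2, p.1)]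
    · simp
    · rintro ⟨a, b⟩ _ hq
      rw [if_neg, mul_zero]
      rintro ⟨h4, h5⟩
      exact hq (by rw [h4, h5])
    · intro h
      exact absurd (Finset.mem_univ _) h
  have h4 : P.trace * Q.trace = ∑ p : Fin n × Fin n, ∑ q : Fin n × Fin n,
      P p.1 p.2 * Q q.1 q.2 * (if p.2 = p.1 ∧ q.2 = q.1 then 1 else 0) := by
    have h5 : ∀ R : Matrix (Fin n) (Fin n) ℂ, R.trace =
        ∑ p : Fin n × Fin n, if p.2 = p.1 then R p.1 p.2 else 0 := by
      intro R
      rw [Fintype.sum_prod_type]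
      simp only [Matrix.trace, Matrix.diag_apply]
      refine Finset.sum_congr rfl fun i _ => ?_
      simp
    rw [h5 P, h5 Q, Finset.sum_mul]
    refine Finset.sum_congr rfl fun p _ => ?_
    rw [Finset.mul_sum]
    refine Finset.sum_congr rfl fun q _ => ?_
    by_cases h6 : p.2 = p.1 <;> by_cases h7 : q.2 = q.1 <;> simp [h6, h7]
  rw [h3, h4, Finset.mul_sum, ← Finset.sum_sub_distrib, Finset.mul_sum]
  refine Finset.sum_congr rfl fun p _ => ?_
  rw [Finset.mul_sum, ← Finset.sum_sub_distrib, Finset.mul_sum]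
  refine Finset.sum_congr rfl fun q _ => ?_
  have h6 : (if p.2 = p.1 ∧ q.2 = q.1 then 1 / (n : ℂ) else 0) =
      1 / (n : ℂ) * (if p.2 = p.1 ∧ q.2 = q.1 then 1 else 0) := by
    split_ifs <;> simp
  rw [h6]
  ring

/-- Newton's identities -/
theorem newton {n : ℕ} (v : Fin n → ℂ) (a : ℕ) :
    ∑ s ∈ Finset.range a, (-1) ^ s * esk v (a - 1 - s) * ∑ i, v i ^ (s + 1) = a * esk v a := by
  have h1 := congrArg (MvPolynomial.aeval v) (MvPolynomial.mul_esymm_eq_sum (Fin n) ℂ a)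
  have he : ∀ k, MvPolynomial.aeval v (MvPolynomial.esymm (Fin n) ℂ k) = esk v k := by
    intro k
    simp only [MvPolynomial.esymm, esk, map_sum, map_prod, MvPolynomial.aeval_X]
  have hp : ∀ k, MvPolynomial.aeval v (MvPolynomial.psum (Fin n) ℂ k) = ∑ i, v i ^ k := by
    intro k
    simp only [MvPolynomial.psum, map_sum, map_pow, MvPolynomial.aeval_X]
  simp only [map_mul, map_sum, map_pow, map_neg, map_one, map_natCast, he, hp] at h1
  rw [h1, Finset.sum_filter, Finset.Nat.sum_antidiagonal_eq_sum_range_succ_mk,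
    Finset.sum_range_succ, if_neg (lt_irrefl _), add_zero, Finset.mul_sum,
    ← Finset.sum_range_reflect]
  refine Finset.sum_congr rfl fun s hs => ?_
  have hs' := Finset.mem_range.1 hs
  have h2 : a - 1 - (a - 1 - s) = s := by omega
  have h3 : a - 1 - s + 1 = a - s := by omega
  have h6 : (s, a - s).1 < a := hs'
  rw [if_pos h6, h2, h3]
  have h4 : (-1 : ℂ) ^ (a + 1) * (-1) ^ s = (-1) ^ (a - 1 - s) := by
    rw [← pow_add]
    have h5 : a + 1 + s = a - 1 - s + 2 * (s + 1) := by omega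
    rw [h5, pow_add, pow_mul]
    norm_num
  rw [← h4]
  ring

/-- the trace of `GM` -/
theorem trGM {n : ℕ} (g : Matrix (Fin n) (Fin n) ℂ) (v : Fin n → ℂ)
    (he : ∀ k, eg k g = esk v k) (hp : ∀ k : ℕ, (g ^ k).trace = ∑ i, v i ^ k) (a : ℕ) :
    (GM a g).trace = a * eg a g := by
  rw [he a, ← newton v a, GM, Matrix.trace_sum]
  refine Finset.sum_congr rfl fun s _ => ?_
  rw [Matrix.trace_smul, hp, he, smul_eq_mul]

theorem prodTr {n m : ℕ} (g : Matrix (Fin n) (Fin n) ℂ) (C : Matrix (Fin m) (Fin m) ℂ)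
    (h : ∀ k : ℕ, (g ^ k).trace = (C ^ k).trace) (c d : ℕ → ℂ) (a b : ℕ) :
    ((∑ s ∈ Finset.range a, c s • g ^ (s + 1)) * ∑ s ∈ Finset.range b, d s • g ^ (s + 1)).trace =
    ((∑ s ∈ Finset.range a, c s • C ^ (s + 1)) * ∑ s ∈ Finset.range b, d s • C ^ (s + 1)).trace := by
  rw [Finset.sum_mul_sum, Finset.sum_mul_sum, Matrix.trace_sum, Matrix.trace_sum]
  refine Finset.sum_congr rfl fun s _ => ?_
  rw [Matrix.trace_sum, Matrix.trace_sum]
  refine Finset.sum_congr rfl fun t _ => ?_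
  rw [Matrix.smul_mul, Matrix.mul_smul, Matrix.smul_mul, Matrix.mul_smul, ← pow_add, ← pow_add,
    Matrix.trace_smul, Matrix.trace_smul, Matrix.trace_smul, Matrix.trace_smul, h]

/-- the sum of the partition coordinates -/
theorem Qeq {r : ℕ} (hU : CUF r) (l : Fin r → ℤ) :
    (DA r).Q l = (r + 1) * ∑ j, cum l j ^ 2 - (∑ j, cum l j) ^ 2 := by
  have h1 := hU.psum (cum l) (cum l)
  have h2 : ∑ p ∈ prs r, 2 * (cum l p.1 - cum l p.2) * (cum l p.1 - cum l p.2) =
      2 * (DA r).Q l := by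
    change _ = 2 * ∑ p ∈ prs r, (cum l p.1 - cum l p.2) ^ 2
    rw [Finset.mul_sum]
    exact Finset.sum_congr rfl fun p _ => by ring
  rw [h2] at h1
  have h3 := mul_left_cancel₀ (two_ne_zero) h1
  rw [h3]
  simp only [pow_two]

theorem cum_single {r : ℕ} (i : Fin r) (j : Fin (r + 1)) :
    cum (Pi.single i 1 : Fin r → ℤ) j = if j.val ≤ i.val then 1 else 0 := by
  unfold cum
  rw [Finset.sum_eq_single i]
  · simp
  · intro k _ hk
    rw [Pi.single_eq_of_ne hk]
    simp
  · intro h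
    exact absurd (Finset.mem_univ _) h

theorem sum_r (r : ℕ) : 2 * ∑ j : Fin (r + 1), ((r : ℤ) - j.val) = r * (r + 1) := by
  rw [Fin.sum_univ_eq_sum_range (fun j : ℕ => (r : ℤ) - j) (r + 1)]
  induction r with
  | zero => simp
  | succ r ih =>
    rw [Finset.sum_range_succ']
    have h1 : ∀ k : ℕ, ((r + 1 : ℕ) : ℤ) - ((k + 1 : ℕ) : ℤ) = (r : ℤ) - k := by
      intro k
      push_cast
      ring
    simp only [h1]
    rw [mul_add, ih]
    push_cast
    ring

theorem sum_le (N a : ℕ) (ha : a + 1 ≤ N) (f : ℕ → ℤ) :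
    ∑ j : Fin N, (if j.val ≤ a then f j.val else 0) = ∑ j ∈ Finset.range (a + 1), f j := by
  rw [Fin.sum_univ_eq_sum_range (fun j : ℕ => if j ≤ a then f j else 0) N, ← Finset.sum_filter]
  refine Finset.sum_congr ?_ fun _ _ => rfl
  ext j
  simp only [Finset.mem_filter, Finset.mem_range]
  omega

theorem sum_odd (r a : ℕ) : ∑ j ∈ Finset.range a, (2 * ((r : ℤ) - j) + 1) = a * (2 * (r + 1) - a) := by
  induction a with
  | zero => simp
  | succ a ih =>
    rw [Finset.sum_range_succ, ih]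
    push_cast
    ring

/-- the increment of the quadratic form -/
theorem Qinc {r : ℕ} (hU : CUF r) (i : Fin r) :
    (DA r).Q (1 + Pi.single i 1) - (DA r).Q 1 =
      (i.val + 1) * ((r + 1 : ℤ) + 1) * ((r + 1) - (i.val + 1)) := by
  rw [Qeq hU, Qeq hU]
  have h1 : ∀ j, cum (1 + Pi.single i 1 : Fin r → ℤ) j =
      ((r : ℤ) - j.val) + if j.val ≤ i.val then 1 else 0 := by
    intro j
    rw [hU.cadd, hU.one, cum_single]
  simp only [h1, hU.one]
  have hi : i.val + 1 ≤ r + 1 := by omega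
  have h2 : ∑ j : Fin (r + 1), ((r : ℤ) - j.val + if j.val ≤ i.val then 1 else 0) ^ 2 =
      ∑ j : Fin (r + 1), ((r : ℤ) - j.val) ^ 2 +
      (i.val + 1) * (2 * (r + 1) - (i.val + 1)) := by
    have h3 := sum_odd r (i.val + 1)
    rw [← sum_le (r + 1) i.val hi] at h3
    push_cast at h3
    rw [← h3, ← Finset.sum_add_distrib]
    refine Finset.sum_congr rfl fun j _ => ?_
    split_ifs <;> ring
  have h4 : ∑ j : Fin (r + 1), ((r : ℤ) - j.val + if j.val ≤ i.val then 1 else 0) =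
      ∑ j : Fin (r + 1), ((r : ℤ) - j.val) + (i.val + 1) := by
    rw [Finset.sum_add_distrib, sum_le (r + 1) i.val hi (fun _ => 1)]
    simp
  rw [h2, h4]
  have h5 := sum_r r
  linear_combination (-((i.val : ℤ) + 1)) * h5

end GFLN

theorem t_GFLN : M_GFLN := by
  intro hE hS hU hT hG hD hL r hr
  have hn : 1 ≤ r + 1 := by omega
  refine ⟨fun i => ?_, fun X hX i g => ?_, fun X hX i j g => ?_⟩
  · exact (hD (r + 1) ⊤ (i.val + 1) (by omega)).1
  · have h1 := hL (r + 1) hn X hX (i.val + 1) (by omega) g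
    have h2 : lapH X (xS r i) g = lapH X (fun g : (⊤ : Subgroup (SU (r + 1))) =>
      eg (i.val + 1) g.1.1) g := rfl
    rw [h2, h1]
    have h3 := GFLN.Qinc (hU r) i
    have h4 : ((DA r).Q (1 + Pi.single i 1) : ℂ) - (DA r).Q 1 =
        (i.val + 1) * (((r : ℂ) + 1) + 1) * (((r : ℂ) + 1) - (i.val + 1)) := by
      have h5 := congrArg (Int.cast : ℤ → ℂ) h3
      push_cast at h5
      exact h5
    rw [h4]
    change _ = _ * eg (i.val + 1) g.1.1
    push_cast
    ring
  · have hd : ∀ (i : Fin r) (a), dH (X a) (xS r i) g = (GM (i.val + 1) g.1.1 * X a).trace :=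
      fun i a => (hD (r + 1) ⊤ (i.val + 1) (by omega)).2 (X a) (hX.mem a) g
    simp only [hd]
    rw [GFLN.casT hn hS (GFLN.frame hX)]
    obtain ⟨v, _, hv2, hv3, hv4⟩ := hE (r + 1) g.1
    have he : ∀ k, eg k g.1.1 = esk v k := (hG (r + 1)).eig g.1.1 v hv3
    rw [GFLN.trGM _ v he hv4, GFLN.trGM _ v he hv4]
    have hx : (fun s => xS r s g) = esA v := funext fun s => he (s.val + 1)
    have hee : ∀ k, k ≤ r → eg k g.1.1 = ee (fun s => xS r s g) k := by
      intro k hk
      rcases k with _ | k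
      · exact (hG (r + 1)).zero _
      · have h1 : k < r := by omega
        change _ = if h : k < r then xS r ⟨k, h⟩ g else if k = r then 1 else 0
        rw [dif_pos h1]
        rfl
    have hCg : ∀ k : ℕ, (g.1.1 ^ k).trace = (CA (fun s => xS r s g) ^ k).trace := by
      intro k
      rw [hx, hT r v hv2 k, hv4 k]
    have hGM : ∀ a, a ≤ r → GM a g.1.1 = ∑ s ∈ Finset.range a,
        ((-1) ^ s * ee (fun s => xS r s g) (a - 1 - s)) • g.1.1 ^ (s + 1) := by
      intro a ha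
      unfold GM
      refine Finset.sum_congr rfl fun s hs => ?_
      rw [hee _ (by omega)]
    have htr : (GM (i.val + 1) g.1.1 * GM (j.val + 1) g.1.1).trace =
        (GG (fun s => xS r s g) (i.val + 1) (CA (fun s => xS r s g)) *
          GG (fun s => xS r s g) (j.val + 1) (CA (fun s => xS r s g))).trace := by
      rw [hGM _ (by omega), hGM _ (by omega)]
      exact GFLN.prodTr _ _ hCg _ _ _ _
    rw [htr]
    unfold MA
    have hne : ((r : ℂ) + 1) ≠ 0 := by
      exact_mod_cast Nat.succ_ne_zero r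
    change _ = -(_ / 2) * (2 * (((r : ℂ) + 1) * _ - ((i.val : ℂ) + 1) * ((j.val : ℂ) + 1) *
      eg (i.val + 1) g.1.1 * eg (j.val + 1) g.1.1))
    push_cast
    field_simp

end

end STZ
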