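import Pool.Agent.STZ.StmtsK

/-!
# Module GKC: products of two characters of `Sp(2)`
-/

namespace STZ

open MeasureTheory Matrix

open scoped ComplexConjugate Matrix Real

noncomputable section

namespace GKC

/-- sums over the short weights -/
theorem sum0 (f : (Fin 2 → ℤ) → ℂ) : ∑ κ ∈ D2.S 0, f κ =
    f ![1, 0] + f ![-1, 1] + f ![-1, 0] + f ![1, -1] := by
  change ∑ κ ∈ ({![1, 0], ![-1, 1], ![-1, 0], ![1, -1]} : Finset (Fin 2 → ℤ)), f κ = _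
  rw [Finset.sum_insert (by decide), Finset.sum_insert (by decide), Finset.sum_insert (by decide),
    Finset.sum_singleton]
  ring

/-- sums over the long weights -/
theorem sum1 (f : (Fin 2 → ℤ) → ℂ) : ∑ κ ∈ D2.S 1, f κ =
    f ![0, 1] + f ![2, -1] + f ![0, -1] + f ![-2, 1] + f ![0, 0] := by
  change ∑ κ ∈ ({![0, 1], ![2, -1], ![0, -1], ![-2, 1], ![0, 0]} : Finset (Fin 2 → ℤ)), f κ = _
  rw [Finset.sum_insert (by decide), Finset.sum_insert (by decide), Finset.sum_insert (by decide),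
    Finset.sum_insert (by decide), Finset.sum_singleton]
  ring

/-- the form -/
theorem form (a b c d : ℤ) : (![a, b] : Fin 2 → ℤ) ⬝ᵥ (D2.A *ᵥ ![c, d]) =
    2 * a * c + 2 * a * d + 2 * b * c + 4 * b * d := by
  change (![a, b] : Fin 2 → ℤ) ⬝ᵥ ((!![2, 2; 2, 4] : Matrix (Fin 2) (Fin 2) ℤ) *ᵥ ![c, d]) = _
  simp only [dotProduct, Matrix.mulVec, Fin.sum_univ_two, Matrix.of_apply, Matrix.cons_val_zero,
    Matrix.cons_val_one]
  ring

/-- shifted weights -/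
theorem shift (l : Fin 2 → ℤ) (a b c d : ℤ) :
    l + ![a, b] + ![c, d] = l + ![a + c, b + d] := by
  rw [add_assoc]
  congr 1
  funext i
  fin_cases i <;> simp

end GKC

theorem t_GKC : M_GKC := by
  intro hP
  have hP' : RDP D2 := hP
  have r0 : ∀ (x : Fin 2 → ℂ) (l : Fin 2 → ℤ) (a b : ℤ), x 0 * D2.ψ x (l + ![a, b]) =
      D2.ψ x (l + ![a + 1, b]) + D2.ψ x (l + ![a - 1, b + 1]) + D2.ψ x (l + ![a - 1, b]) +
        D2.ψ x (l + ![a + 1, b - 1]) := by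
    intro x l a b
    rw [hP'.rule 0 x (l + ![a, b])]
    have h1 : ∀ κ, D2.P 0 κ = 1 := fun _ => rfl
    simp only [h1, Int.cast_one, one_mul]
    rw [GKC.sum0 (fun κ => D2.ψ x (l + ![a, b] + κ))]
    simp only [GKC.shift, add_zero, sub_eq_add_neg]
  have r1 : ∀ (x : Fin 2 → ℂ) (l : Fin 2 → ℤ) (a b : ℤ), x 1 * D2.ψ x (l + ![a, b]) =
      D2.ψ x (l + ![a, b + 1]) + D2.ψ x (l + ![a + 2, b - 1]) + D2.ψ x (l + ![a, b - 1]) +
        D2.ψ x (l + ![a - 2, b + 1]) + D2.ψ x (l + ![a, b]) := by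
    intro x l a b
    rw [hP'.rule 1 x (l + ![a, b])]
    have h1 : ∀ κ, D2.P 1 κ = 1 := fun _ => rfl
    simp only [h1, Int.cast_one, one_mul]
    rw [GKC.sum1 (fun κ => D2.ψ x (l + ![a, b] + κ))]
    simp only [GKC.shift, add_zero, sub_eq_add_neg]
  have hl : ∀ l : Fin 2 → ℤ, l = l + ![0, 0] := by
    intro l
    funext i
    fin_cases i <;> simp
  have hPi : ∀ i κ, D2.P i κ = 1 := fun _ _ => rfl
  intro i j x l
  -- the function g
  obtain ⟨g, hg⟩ : ∃ g : ℤ → ℤ → ℂ, ∀ a b, D2.ψ x (l + ![a, b]) = g a b := ⟨_, fun _ _ => rfl⟩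
  have q0 : ∀ a b : ℤ, x 0 * g a b = g (a + 1) b + g (a - 1) (b + 1) + g (a - 1) b +
      g (a + 1) (b - 1) := by
    intro a b
    have := r0 x l a b
    simpa only [hg] using this
  have q1 : ∀ a b : ℤ, x 1 * g a b = g a (b + 1) + g (a + 2) (b - 1) + g a (b - 1) +
      g (a - 2) (b + 1) + g a b := by
    intro a b
    have := r1 x l a b
    simpa only [hg] using this
  have hl0 : D2.ψ x l = g 0 0 := by
    rw [← hg]
    exact congrArg _ (hl l)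
  have key : ∀ a b c d : ℤ, D2.ψ x (l + ![a, b] + ![c, d]) = g (a + c) (b + d) := by
    intro a b c d
    rw [GKC.shift, hg]
  simp only [hPi, one_mul]
  fin_cases i <;> fin_cases j
  · change M2 0 0 x * D2.ψ x l = ∑ κ ∈ D2.S 0, ∑ κ' ∈ D2.S 0,
      ((κ ⬝ᵥ (D2.A *ᵥ κ') : ℤ) : ℂ) * D2.ψ x (l + κ + κ')
    have hM : M2 0 0 x = 2 * x 0 ^ 2 - 4 * x 1 - 12 := rfl
    rw [hM, hl0]
    simp only [GKC.sum0, GKC.form, key]
    have e0 := q0 0 0
    have e1 := q1 0 0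
    have f1 := q0 1 0
    have f2 := q0 (-1) 1
    have f3 := q0 (-1) 0
    have f4 := q0 1 (-1)
    norm_num at e0 e1 f1 f2 f3 f4 ⊢
    linear_combination 2 * x 0 * e0 + 2 * (f1 + f2 + f3 + f4) - 4 * e1
  · change M2 0 1 x * D2.ψ x l = ∑ κ ∈ D2.S 0, ∑ κ' ∈ D2.S 1,
      ((κ ⬝ᵥ (D2.A *ᵥ κ') : ℤ) : ℂ) * D2.ψ x (l + κ + κ')
    have hM : M2 0 1 x = 2 * x 0 * x 1 - 10 * x 0 := rfl
    rw [hM, hl0]
    simp only [GKC.sum0, GKC.sum1, GKC.form, key]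
    have e0 := q0 0 0
    have e1 := q1 0 0
    have f1 := q0 0 1
    have f2 := q0 2 (-1)
    have f3 := q0 0 (-1)
    have f4 := q0 (-2) 1
    norm_num at e0 e1 f1 f2 f3 f4 ⊢
    linear_combination 2 * x 0 * e1 + 2 * (f1 + f2 + f3 + f4 + e0) - 10 * e0
  · change M2 1 0 x * D2.ψ x l = ∑ κ ∈ D2.S 1, ∑ κ' ∈ D2.S 0,
      ((κ ⬝ᵥ (D2.A *ᵥ κ') : ℤ) : ℂ) * D2.ψ x (l + κ + κ')
    have hM : M2 1 0 x = 2 * x 0 * x 1 - 10 * x 0 := rfl
    rw [hM, hl0]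
    simp only [GKC.sum0, GKC.sum1, GKC.form, key]
    have e0 := q0 0 0
    have e1 := q1 0 0
    have f1 := q0 0 1
    have f2 := q0 2 (-1)
    have f3 := q0 0 (-1)
    have f4 := q0 (-2) 1
    norm_num at e0 e1 f1 f2 f3 f4 ⊢
    linear_combination 2 * x 0 * e1 + 2 * (f1 + f2 + f3 + f4 + e0) - 10 * e0
  · change M2 1 1 x * D2.ψ x l = ∑ κ ∈ D2.S 1, ∑ κ' ∈ D2.S 1,
      ((κ ⬝ᵥ (D2.A *ᵥ κ') : ℤ) : ℂ) * D2.ψ x (l + κ + κ')
    have hM : M2 1 1 x = 4 * x 1 ^ 2 - 8 * x 0 ^ 2 + 8 * x 1 - 12 := rfl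
    rw [hM, hl0]
    simp only [GKC.sum1, GKC.form, key]
    have e0 := q0 0 0
    have e1 := q1 0 0
    have f1 := q1 0 1
    have f2 := q1 2 (-1)
    have f3 := q1 0 (-1)
    have f4 := q1 (-2) 1
    have g1 := q0 1 0
    have g2 := q0 (-1) 1
    have g3 := q0 (-1) 0
    have g4 := q0 1 (-1)
    norm_num at e0 e1 f1 f2 f3 f4 g1 g2 g3 g4 ⊢
    linear_combination 4 * x 1 * e1 + 4 * (f1 + f2 + f3 + f4 + e1) - 8 * (x 0 * e0) -
      8 * (g1 + g2 + g3 + g4) + 8 * e1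

end

end STZ
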