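import Pool.Agent.STZ.StmtsK

/-!
# Module GKG: products of two characters of `G₂`
-/

namespace STZ

open MeasureTheory Matrix

open scoped ComplexConjugate Matrix Real

noncomputable section

namespace GKG

variable {ψ : (Fin 2 → ℂ) → (Fin 2 → ℤ) → ℂ}

/-- sums over the short weights -/
theorem sum0 (f : (Fin 2 → ℤ) → ℂ) : ∑ κ ∈ (D3 ψ).S 0, f κ =
    f ![1, 0] + f ![2, -1] + f ![-1, 1] + f ![-1, 0] + f ![-2, 1] + f ![1, -1] + f ![0, 0] := by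
  change ∑ κ ∈ ({![1, 0], ![2, -1], ![-1, 1], ![-1, 0], ![-2, 1], ![1, -1], ![0, 0]} : Finset (Fin
      2 → ℤ)), f κ = _
  rw [Finset.sum_insert (by decide), Finset.sum_insert (by decide), Finset.sum_insert (by decide),
      Finset.sum_insert (by decide), Finset.sum_insert (by decide), Finset.sum_insert (by decide),
    Finset.sum_singleton]
  ring

/-- sums over the short and long weights -/
theorem sum1 (f : (Fin 2 → ℤ) → ℂ) : ∑ κ ∈ (D3 ψ).S 1, f κ =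
    f ![1, 0] + f ![2, -1] + f ![-1, 1] + f ![-1, 0] + f ![-2, 1] + f ![1, -1] + f ![0, 0] + f
        ![-3, 2] + f ![3, -1] + f ![0, 1] + f ![3, -2] + f ![-3, 1] + f ![0, -1] := by
  change ∑ κ ∈ ({![1, 0], ![2, -1], ![-1, 1], ![-1, 0], ![-2, 1], ![1, -1], ![0, 0], ![-3, 2], ![3,
      -1], ![0, 1], ![3, -2], ![-3, 1], ![0, -1]} : Finset (Fin 2 → ℤ)), f κ = _
  rw [Finset.sum_insert (by decide), Finset.sum_insert (by decide), Finset.sum_insert (by decide),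
      Finset.sum_insert (by decide), Finset.sum_insert (by decide), Finset.sum_insert (by decide),
      Finset.sum_insert (by decide), Finset.sum_insert (by decide), Finset.sum_insert (by decide),
      Finset.sum_insert (by decide), Finset.sum_insert (by decide), Finset.sum_insert (by decide),
    Finset.sum_singleton]
  ring

/-- the form -/
theorem form (a b c d : ℤ) : (![a, b] : Fin 2 → ℤ) ⬝ᵥ ((D3 ψ).A *ᵥ ![c, d]) =
    2 * a * c + 3 * a * d + 3 * b * c + 6 * b * d := by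
  change (![a, b] : Fin 2 → ℤ) ⬝ᵥ ((!![2, 3; 3, 6] : Matrix (Fin 2) (Fin 2) ℤ) *ᵥ ![c, d]) = _
  simp only [dotProduct, Matrix.mulVec, Fin.sum_univ_two, Matrix.of_apply, Matrix.cons_val_zero,
    Matrix.cons_val_one]
  ring

/-- shifted weights -/
theorem shift (l : Fin 2 → ℤ) (a b c d : ℤ) :
    l + ![a, b] + ![c, d] = l + ![a + c, b + d] := by
  rw [add_assoc]
  congr 1
  funext i
  fin_cases i <;> simp

/-- the multiplicities of the short weights -/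
theorem P0 (κ : Fin 2 → ℤ) : (D3 ψ).P 0 κ = 1 := rfl

/-- the multiplicities of the weights of the adjoint representation -/
theorem P1 (κ : Fin 2 → ℤ) : (D3 ψ).P 1 κ = if κ = 0 then 2 else 1 := by
  change (if (1 : Fin 2) = 1 ∧ κ = 0 then (2 : ℤ) else 1) = _
  simp

theorem q_p1p0 : (D3 ψ).P 1 ![1, 0] = 1 := by
  rw [P1]
  decide

theorem q_p2m1 : (D3 ψ).P 1 ![2, -1] = 1 := by
  rw [P1]
  decide

theorem q_m1p1 : (D3 ψ).P 1 ![-1, 1] = 1 := by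
  rw [P1]
  decide

theorem q_m1p0 : (D3 ψ).P 1 ![-1, 0] = 1 := by
  rw [P1]
  decide

theorem q_m2p1 : (D3 ψ).P 1 ![-2, 1] = 1 := by
  rw [P1]
  decide

theorem q_p1m1 : (D3 ψ).P 1 ![1, -1] = 1 := by
  rw [P1]
  decide

theorem q_p0p0 : (D3 ψ).P 1 ![0, 0] = 2 := by
  rw [P1]
  decide

theorem q_m3p2 : (D3 ψ).P 1 ![-3, 2] = 1 := by
  rw [P1]
  decide

theorem q_p3m1 : (D3 ψ).P 1 ![3, -1] = 1 := by
  rw [P1]
  decide

theorem q_p0p1 : (D3 ψ).P 1 ![0, 1] = 1 := by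
  rw [P1]
  decide

theorem q_p3m2 : (D3 ψ).P 1 ![3, -2] = 1 := by
  rw [P1]
  decide

theorem q_m3p1 : (D3 ψ).P 1 ![-3, 1] = 1 := by
  rw [P1]
  decide

theorem q_p0m1 : (D3 ψ).P 1 ![0, -1] = 1 := by
  rw [P1]
  decide

end GKG

theorem t_GKG : M_GKG := by
  intro hP ψ hψ
  have hP' : RDP (D3 ψ) := hP ψ hψ
  have r0 : ∀ (x : Fin 2 → ℂ) (l : Fin 2 → ℤ) (a b : ℤ), x 0 * (D3 ψ).ψ x (l + ![a, b]) =
      (D3 ψ).ψ x (l + ![a + 1, b]) +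
        (D3 ψ).ψ x (l + ![a + 2, b - 1]) +
        (D3 ψ).ψ x (l + ![a - 1, b + 1]) +
        (D3 ψ).ψ x (l + ![a - 1, b]) +
        (D3 ψ).ψ x (l + ![a - 2, b + 1]) +
        (D3 ψ).ψ x (l + ![a + 1, b - 1]) +
        (D3 ψ).ψ x (l + ![a, b]) := by
    intro x l a b
    rw [hP'.rule 0 x (l + ![a, b])]
    simp only [GKG.P0, Int.cast_one, one_mul]
    rw [GKG.sum0 (fun κ => (D3 ψ).ψ x (l + ![a, b] + κ))]
    simp only [GKG.shift, add_zero, sub_eq_add_neg]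
  have r1 : ∀ (x : Fin 2 → ℂ) (l : Fin 2 → ℤ) (a b : ℤ), x 1 * (D3 ψ).ψ x (l + ![a, b]) =
      (D3 ψ).ψ x (l + ![a + 1, b]) +
        (D3 ψ).ψ x (l + ![a + 2, b - 1]) +
        (D3 ψ).ψ x (l + ![a - 1, b + 1]) +
        (D3 ψ).ψ x (l + ![a - 1, b]) +
        (D3 ψ).ψ x (l + ![a - 2, b + 1]) +
        (D3 ψ).ψ x (l + ![a + 1, b - 1]) +
        2 * (D3 ψ).ψ x (l + ![a, b]) +
        (D3 ψ).ψ x (l + ![a - 3, b + 2]) +
        (D3 ψ).ψ x (l + ![a + 3, b - 1]) +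
        (D3 ψ).ψ x (l + ![a, b + 1]) +
        (D3 ψ).ψ x (l + ![a + 3, b - 2]) +
        (D3 ψ).ψ x (l + ![a - 3, b + 1]) +
        (D3 ψ).ψ x (l + ![a, b - 1]) := by
    intro x l a b
    rw [hP'.rule 1 x (l + ![a, b])]
    rw [GKG.sum1 (fun κ => (((D3 ψ).P 1 κ : ℤ) : ℂ) * (D3 ψ).ψ x (l + ![a, b] + κ))]
    simp only [GKG.q_p1p0, GKG.q_p2m1, GKG.q_m1p1, GKG.q_m1p0, GKG.q_m2p1, GKG.q_p1m1, GKG.q_p0p0,
        GKG.q_m3p2, GKG.q_p3m1, GKG.q_p0p1, GKG.q_p3m2, GKG.q_m3p1, GKG.q_p0m1, Int.cast_one,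
        one_mul, Int.cast_ofNat]
    simp only [GKG.shift, add_zero, sub_eq_add_neg]
  have hl : ∀ l : Fin 2 → ℤ, l = l + ![0, 0] := by
    intro l
    funext i
    fin_cases i <;> simp
  intro i j x l
  -- the function g
  obtain ⟨g, hg⟩ : ∃ g : ℤ → ℤ → ℂ, ∀ a b, (D3 ψ).ψ x (l + ![a, b]) = g a b :=
    ⟨_, fun _ _ => rfl⟩
  have q0 : ∀ a b : ℤ, x 0 * g a b = g (a + 1) b +
      g (a + 2) (b - 1) +
      g (a - 1) (b + 1) +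
      g (a - 1) b +
      g (a - 2) (b + 1) +
      g (a + 1) (b - 1) +
      g a b := by
    intro a b
    have := r0 x l a b
    simpa only [hg] using this
  have q1 : ∀ a b : ℤ, x 1 * g a b = g (a + 1) b +
      g (a + 2) (b - 1) +
      g (a - 1) (b + 1) +
      g (a - 1) b +
      g (a - 2) (b + 1) +
      g (a + 1) (b - 1) +
      2 * g a b +
      g (a - 3) (b + 2) +
      g (a + 3) (b - 1) +
      g a (b + 1) +
      g (a + 3) (b - 2) +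
      g (a - 3) (b + 1) +
      g a (b - 1) := by
    intro a b
    have := r1 x l a b
    simpa only [hg] using this
  have hl0 : (D3 ψ).ψ x l = g 0 0 := by
    rw [← hg]
    exact congrArg _ (hl l)
  have key : ∀ a b c d : ℤ, (D3 ψ).ψ x (l + ![a, b] + ![c, d]) = g (a + c) (b + d) := by
    intro a b c d
    rw [GKG.shift, hg]
  -- the monomials
  have h0_m4p2 : x 0 * g (-4) 2 =
      g (-3) 2 + g (-2) 1 + g (-5) 3 + g (-5) 2 + g (-6) 3 + g (-3) 1 + g (-4) 2 := by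
    have := q0 (-4) 2
    norm_num at this
    exact this
  have h0_m3p1 : x 0 * g (-3) 1 =
      g (-2) 1 + g (-1) 0 + g (-4) 2 + g (-4) 1 + g (-5) 2 + g (-2) 0 + g (-3) 1 := by
    have := q0 (-3) 1
    norm_num at this
    exact this
  have h0_m3p2 : x 0 * g (-3) 2 =
      g (-2) 2 + g (-1) 1 + g (-4) 3 + g (-4) 2 + g (-5) 3 + g (-2) 1 + g (-3) 2 := by
    have := q0 (-3) 2
    norm_num at this
    exact this
  have h0_m2p0 : x 0 * g (-2) 0 =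
      g (-1) 0 + g 0 (-1) + g (-3) 1 + g (-3) 0 + g (-4) 1 + g (-1) (-1) + g (-2) 0 := by
    have := q0 (-2) 0
    norm_num at this
    exact this
  have h0_m2p1 : x 0 * g (-2) 1 =
      g (-1) 1 + g 0 0 + g (-3) 2 + g (-3) 1 + g (-4) 2 + g (-1) 0 + g (-2) 1 := by
    have := q0 (-2) 1
    norm_num at this
    exact this
  have h0_m2p2 : x 0 * g (-2) 2 =
      g (-1) 2 + g 0 1 + g (-3) 3 + g (-3) 2 + g (-4) 3 + g (-1) 1 + g (-2) 2 := by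
    have := q0 (-2) 2
    norm_num at this
    exact this
  have h0_m1p0 : x 0 * g (-1) 0 =
      g 0 0 + g 1 (-1) + g (-2) 1 + g (-2) 0 + g (-3) 1 + g 0 (-1) + g (-1) 0 := by
    have := q0 (-1) 0
    norm_num at this
    exact this
  have h0_m1p1 : x 0 * g (-1) 1 =
      g 0 1 + g 1 0 + g (-2) 2 + g (-2) 1 + g (-3) 2 + g 0 0 + g (-1) 1 := by
    have := q0 (-1) 1
    norm_num at this
    exact this
  have h0_p0m1 : x 0 * g 0 (-1) =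
      g 1 (-1) + g 2 (-2) + g (-1) 0 + g (-1) (-1) + g (-2) 0 + g 1 (-2) + g 0 (-1) := by
    have := q0 0 (-1)
    norm_num at this
    exact this
  have h0_p0p0 : x 0 * g 0 0 =
      g 1 0 + g 2 (-1) + g (-1) 1 + g (-1) 0 + g (-2) 1 + g 1 (-1) + g 0 0 := by
    have := q0 0 0
    norm_num at this
    exact this
  have h0_p0p1 : x 0 * g 0 1 =
      g 1 1 + g 2 0 + g (-1) 2 + g (-1) 1 + g (-2) 2 + g 1 0 + g 0 1 := by
    have := q0 0 1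
    norm_num at this
    exact this
  have h0_p1m1 : x 0 * g 1 (-1) =
      g 2 (-1) + g 3 (-2) + g 0 0 + g 0 (-1) + g (-1) 0 + g 2 (-2) + g 1 (-1) := by
    have := q0 1 (-1)
    norm_num at this
    exact this
  have h0_p1p0 : x 0 * g 1 0 =
      g 2 0 + g 3 (-1) + g 0 1 + g 0 0 + g (-1) 1 + g 2 (-1) + g 1 0 := by
    have := q0 1 0
    norm_num at this
    exact this
  have h0_p2m2 : x 0 * g 2 (-2) =
      g 3 (-2) + g 4 (-3) + g 1 (-1) + g 1 (-2) + g 0 (-1) + g 3 (-3) + g 2 (-2) := by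
    have := q0 2 (-2)
    norm_num at this
    exact this
  have h0_p2m1 : x 0 * g 2 (-1) =
      g 3 (-1) + g 4 (-2) + g 1 0 + g 1 (-1) + g 0 0 + g 3 (-2) + g 2 (-1) := by
    have := q0 2 (-1)
    norm_num at this
    exact this
  have h0_p2p0 : x 0 * g 2 0 =
      g 3 0 + g 4 (-1) + g 1 1 + g 1 0 + g 0 1 + g 3 (-1) + g 2 0 := by
    have := q0 2 0
    norm_num at this
    exact this
  have h0_p3m2 : x 0 * g 3 (-2) =
      g 4 (-2) + g 5 (-3) + g 2 (-1) + g 2 (-2) + g 1 (-1) + g 4 (-3) + g 3 (-2) := by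
    have := q0 3 (-2)
    norm_num at this
    exact this
  have h0_p3m1 : x 0 * g 3 (-1) =
      g 4 (-1) + g 5 (-2) + g 2 0 + g 2 (-1) + g 1 0 + g 4 (-2) + g 3 (-1) := by
    have := q0 3 (-1)
    norm_num at this
    exact this
  have h0_p4m2 : x 0 * g 4 (-2) =
      g 5 (-2) + g 6 (-3) + g 3 (-1) + g 3 (-2) + g 2 (-1) + g 5 (-3) + g 4 (-2) := by
    have := q0 4 (-2)
    norm_num at this
    exact this
  have h1_m3p1 : x 1 * g (-3) 1 =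
      g (-2) 1 + g (-1) 0 + g (-4) 2 + g (-4) 1 + g (-5) 2 + g (-2) 0 + 2 * g (-3) 1 + g (-6) 3 + g
          0 0 + g (-3) 2 + g 0 (-1) + g (-6) 2 + g (-3) 0 := by
    have := q1 (-3) 1
    norm_num at this
    exact this
  have h1_m3p2 : x 1 * g (-3) 2 =
      g (-2) 2 + g (-1) 1 + g (-4) 3 + g (-4) 2 + g (-5) 3 + g (-2) 1 + 2 * g (-3) 2 + g (-6) 4 + g
          0 1 + g (-3) 3 + g 0 0 + g (-6) 3 + g (-3) 1 := by
    have := q1 (-3) 2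
    norm_num at this
    exact this
  have h1_m2p1 : x 1 * g (-2) 1 =
      g (-1) 1 + g 0 0 + g (-3) 2 + g (-3) 1 + g (-4) 2 + g (-1) 0 + 2 * g (-2) 1 + g (-5) 3 + g 1
          0 + g (-2) 2 + g 1 (-1) + g (-5) 2 + g (-2) 0 := by
    have := q1 (-2) 1
    norm_num at this
    exact this
  have h1_m1p0 : x 1 * g (-1) 0 =
      g 0 0 + g 1 (-1) + g (-2) 1 + g (-2) 0 + g (-3) 1 + g 0 (-1) + 2 * g (-1) 0 + g (-4) 2 + g 2
          (-1) + g (-1) 1 + g 2 (-2) + g (-4) 1 + g (-1) (-1) := by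
    have := q1 (-1) 0
    norm_num at this
    exact this
  have h1_m1p1 : x 1 * g (-1) 1 =
      g 0 1 + g 1 0 + g (-2) 2 + g (-2) 1 + g (-3) 2 + g 0 0 + 2 * g (-1) 1 + g (-4) 3 + g 2 0 + g
          (-1) 2 + g 2 (-1) + g (-4) 2 + g (-1) 0 := by
    have := q1 (-1) 1
    norm_num at this
    exact this
  have h1_p0m1 : x 1 * g 0 (-1) =
      g 1 (-1) + g 2 (-2) + g (-1) 0 + g (-1) (-1) + g (-2) 0 + g 1 (-2) + 2 * g 0 (-1) + g (-3) 1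
          + g 3 (-2) + g 0 0 + g 3 (-3) + g (-3) 0 + g 0 (-2) := by
    have := q1 0 (-1)
    norm_num at this
    exact this
  have h1_p0p0 : x 1 * g 0 0 =
      g 1 0 + g 2 (-1) + g (-1) 1 + g (-1) 0 + g (-2) 1 + g 1 (-1) + 2 * g 0 0 + g (-3) 2 + g 3
          (-1) + g 0 1 + g 3 (-2) + g (-3) 1 + g 0 (-1) := by
    have := q1 0 0
    norm_num at this
    exact this
  have h1_p0p1 : x 1 * g 0 1 =
      g 1 1 + g 2 0 + g (-1) 2 + g (-1) 1 + g (-2) 2 + g 1 0 + 2 * g 0 1 + g (-3) 3 + g 3 0 + g 0 2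
          + g 3 (-1) + g (-3) 2 + g 0 0 := by
    have := q1 0 1
    norm_num at this
    exact this
  have h1_p1m1 : x 1 * g 1 (-1) =
      g 2 (-1) + g 3 (-2) + g 0 0 + g 0 (-1) + g (-1) 0 + g 2 (-2) + 2 * g 1 (-1) + g (-2) 1 + g 4
          (-2) + g 1 0 + g 4 (-3) + g (-2) 0 + g 1 (-2) := by
    have := q1 1 (-1)
    norm_num at this
    exact this
  have h1_p1p0 : x 1 * g 1 0 =
      g 2 0 + g 3 (-1) + g 0 1 + g 0 0 + g (-1) 1 + g 2 (-1) + 2 * g 1 0 + g (-2) 2 + g 4 (-1) + g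
          1 1 + g 4 (-2) + g (-2) 1 + g 1 (-1) := by
    have := q1 1 0
    norm_num at this
    exact this
  have h1_p2m1 : x 1 * g 2 (-1) =
      g 3 (-1) + g 4 (-2) + g 1 0 + g 1 (-1) + g 0 0 + g 3 (-2) + 2 * g 2 (-1) + g (-1) 1 + g 5
          (-2) + g 2 0 + g 5 (-3) + g (-1) 0 + g 2 (-2) := by
    have := q1 2 (-1)
    norm_num at this
    exact this
  have h1_p3m2 : x 1 * g 3 (-2) =
      g 4 (-2) + g 5 (-3) + g 2 (-1) + g 2 (-2) + g 1 (-1) + g 4 (-3) + 2 * g 3 (-2) + g 0 0 + g 6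
          (-3) + g 3 (-1) + g 6 (-4) + g 0 (-1) + g 3 (-3) := by
    have := q1 3 (-2)
    norm_num at this
    exact this
  have h1_p3m1 : x 1 * g 3 (-1) =
      g 4 (-1) + g 5 (-2) + g 2 0 + g 2 (-1) + g 1 0 + g 4 (-2) + 2 * g 3 (-1) + g 0 1 + g 6 (-2) +
          g 3 0 + g 6 (-3) + g 0 0 + g 3 (-2) := by
    have := q1 3 (-1)
    norm_num at this
    exact this
  have t00 : x 0 ^ 2 * g 0 0 =
      g (-4) 2 + 2 * g (-3) 1 + 2 * g (-3) 2 + g (-2) 0 + 4 * g (-2) 1 + g (-2) 2 + 4 * g (-1) 0 +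
          4 * g (-1) 1 + 2 * g 0 (-1) + 7 * g 0 0 + 2 * g 0 1 + 4 * g 1 (-1) + 4 * g 1 0 + g 2 (-2)
          + 4 * g 2 (-1) + g 2 0 + 2 * g 3 (-2) + 2 * g 3 (-1) + g 4 (-2) := by
    linear_combination x 0 * h0_p0p0 + (h0_m2p1 + h0_m1p0 + h0_m1p1 + h0_p0p0 + h0_p1m1 + h0_p1p0 + h0_p2m1)
  have t01 : x 0 * x 1 * g 0 0 =
      g (-5) 2 + g (-5) 3 + g (-4) 1 + 3 * g (-4) 2 + g (-4) 3 + 3 * g (-3) 1 + 3 * g (-3) 2 + 3 *
          g (-2) 0 + 7 * g (-2) 1 + 3 * g (-2) 2 + g (-1) (-1) + 7 * g (-1) 0 + 7 * g (-1) 1 + g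
          (-1) 2 + 3 * g 0 (-1) + 8 * g 0 0 + 3 * g 0 1 + g 1 (-2) + 7 * g 1 (-1) + 7 * g 1 0 + g 1
          1 + 3 * g 2 (-2) + 7 * g 2 (-1) + 3 * g 2 0 + 3 * g 3 (-2) + 3 * g 3 (-1) + g 4 (-3) + 3
          * g 4 (-2) + g 4 (-1) + g 5 (-3) + g 5 (-2) := by
    linear_combination x 0 * h1_p0p0 + (h0_m3p1 + h0_m3p2 + h0_m2p1 + h0_m1p0 + h0_m1p1 + h0_p0m1 +
        2 * h0_p0p0 + h0_p0p1 + h0_p1m1 + h0_p1p0 + h0_p2m1 + h0_p3m2 + h0_p3m1)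
  have t11 : x 1 ^ 2 * g 0 0 =
      g (-6) 2 + 2 * g (-6) 3 + g (-6) 4 + 2 * g (-5) 2 + 2 * g (-5) 3 + 2 * g (-4) 1 + 5 * g (-4)
          2 + 2 * g (-4) 3 + 2 * g (-3) 0 + 8 * g (-3) 1 + 8 * g (-3) 2 + 2 * g (-3) 3 + 5 * g (-2)
          0 + 10 * g (-2) 1 + 5 * g (-2) 2 + 2 * g (-1) (-1) + 10 * g (-1) 0 + 10 * g (-1) 1 + 2 *
          g (-1) 2 + g 0 (-2) + 8 * g 0 (-1) + 16 * g 0 0 + 8 * g 0 1 + g 0 2 + 2 * g 1 (-2) + 10 *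
          g 1 (-1) + 10 * g 1 0 + 2 * g 1 1 + 5 * g 2 (-2) + 10 * g 2 (-1) + 5 * g 2 0 + 2 * g 3
          (-3) + 8 * g 3 (-2) + 8 * g 3 (-1) + 2 * g 3 0 + 2 * g 4 (-3) + 5 * g 4 (-2) + 2 * g 4
          (-1) + 2 * g 5 (-3) + 2 * g 5 (-2) + g 6 (-4) + 2 * g 6 (-3) + g 6 (-2) := by
    linear_combination x 1 * h1_p0p0 + (h1_m3p1 + h1_m3p2 + h1_m2p1 + h1_m1p0 + h1_m1p1 + h1_p0m1 +
        2 * h1_p0p0 + h1_p0p1 + h1_p1m1 + h1_p1p0 + h1_p2m1 + h1_p3m2 + h1_p3m1)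
  have t000 : x 0 ^ 3 * g 0 0 =
      g (-6) 3 + 3 * g (-5) 2 + 3 * g (-5) 3 + 3 * g (-4) 1 + 9 * g (-4) 2 + 3 * g (-4) 3 + g (-3)
          0 + 12 * g (-3) 1 + 12 * g (-3) 2 + g (-3) 3 + 9 * g (-2) 0 + 24 * g (-2) 1 + 9 * g (-2)
          2 + 3 * g (-1) (-1) + 24 * g (-1) 0 + 24 * g (-1) 1 + 3 * g (-1) 2 + 12 * g 0 (-1) + 31 *
          g 0 0 + 12 * g 0 1 + 3 * g 1 (-2) + 24 * g 1 (-1) + 24 * g 1 0 + 3 * g 1 1 + 9 * g 2 (-2)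
          + 24 * g 2 (-1) + 9 * g 2 0 + g 3 (-3) + 12 * g 3 (-2) + 12 * g 3 (-1) + g 3 0 + 3 * g 4
          (-3) + 9 * g 4 (-2) + 3 * g 4 (-1) + 3 * g 5 (-3) + 3 * g 5 (-2) + g 6 (-3) := by
    linear_combination x 0 * t00 + (h0_m4p2 + 2 * h0_m3p1 + 2 * h0_m3p2 + h0_m2p0 + 4 * h0_m2p1 +
        h0_m2p2 + 4 * h0_m1p0 + 4 * h0_m1p1 + 2 * h0_p0m1 + 7 * h0_p0p0 + 2 * h0_p0p1 + 4 * h0_p1m1
        + 4 * h0_p1p0 + h0_p2m2 + 4 * h0_p2m1 + h0_p2p0 + 2 * h0_p3m2 + 2 * h0_p3m1 + h0_p4m2)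
  have s00 : ∑ κ ∈ (D3 ψ).S 0, ∑ κ' ∈ (D3 ψ).S 0, (((D3 ψ).P 0 κ * (D3 ψ).P 0 κ' *
      (κ ⬝ᵥ ((D3 ψ).A *ᵥ κ')) : ℤ) : ℂ) * (D3 ψ).ψ x (l + κ + κ') =
      (2) * g (-4) 2 + (2) * g (-3) 1 + (2) * g (-3) 2 + (2) * g (-2) 0 + (-2) * g (-2) 1 + (2) * g
          (-2) 2 + (-2) * g (-1) 0 + (-2) * g (-1) 1 + (2) * g 0 (-1) + (-12) * g 0 0 + (2) * g 0 1
          + (-2) * g 1 (-1) + (-2) * g 1 0 + (2) * g 2 (-2) + (-2) * g 2 (-1) + (2) * g 2 0 + (2) *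
          g 3 (-2) + (2) * g 3 (-1) + (2) * g 4 (-2) := by
    simp only [GKG.sum0, GKG.P0, GKG.form, key]
    norm_num
    ring
  have s01 : ∑ κ ∈ (D3 ψ).S 0, ∑ κ' ∈ (D3 ψ).S 1, (((D3 ψ).P 0 κ * (D3 ψ).P 1 κ' *
      (κ ⬝ᵥ ((D3 ψ).A *ᵥ κ')) : ℤ) : ℂ) * (D3 ψ).ψ x (l + κ + κ') =
      (3) * g (-5) 2 + (3) * g (-5) 3 + (3) * g (-4) 1 + (2) * g (-4) 2 + (3) * g (-4) 3 + (2) * g
          (-3) 1 + (2) * g (-3) 2 + (2) * g (-2) 0 + (-8) * g (-2) 1 + (2) * g (-2) 2 + (3) * g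
          (-1) (-1) + (-8) * g (-1) 0 + (-8) * g (-1) 1 + (3) * g (-1) 2 + (2) * g 0 (-1) + (-12) *
          g 0 0 + (2) * g 0 1 + (3) * g 1 (-2) + (-8) * g 1 (-1) + (-8) * g 1 0 + (3) * g 1 1 + (2)
          * g 2 (-2) + (-8) * g 2 (-1) + (2) * g 2 0 + (2) * g 3 (-2) + (2) * g 3 (-1) + (3) * g 4
          (-3) + (2) * g 4 (-2) + (3) * g 4 (-1) + (3) * g 5 (-3) + (3) * g 5 (-2) := by
    simp only [GKG.sum0, GKG.sum1, GKG.P0, GKG.q_p1p0, GKG.q_p2m1, GKG.q_m1p1, GKG.q_m1p0,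
        GKG.q_m2p1, GKG.q_p1m1, GKG.q_p0p0, GKG.q_m3p2, GKG.q_p3m1, GKG.q_p0p1, GKG.q_p3m2,
        GKG.q_m3p1, GKG.q_p0m1, GKG.form, key]
    norm_num
    ring
  have s10 : ∑ κ ∈ (D3 ψ).S 1, ∑ κ' ∈ (D3 ψ).S 0, (((D3 ψ).P 1 κ * (D3 ψ).P 0 κ' *
      (κ ⬝ᵥ ((D3 ψ).A *ᵥ κ')) : ℤ) : ℂ) * (D3 ψ).ψ x (l + κ + κ') =
      (3) * g (-5) 2 + (3) * g (-5) 3 + (3) * g (-4) 1 + (2) * g (-4) 2 + (3) * g (-4) 3 + (2) * g
          (-3) 1 + (2) * g (-3) 2 + (2) * g (-2) 0 + (-8) * g (-2) 1 + (2) * g (-2) 2 + (3) * g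
          (-1) (-1) + (-8) * g (-1) 0 + (-8) * g (-1) 1 + (3) * g (-1) 2 + (2) * g 0 (-1) + (-12) *
          g 0 0 + (2) * g 0 1 + (3) * g 1 (-2) + (-8) * g 1 (-1) + (-8) * g 1 0 + (3) * g 1 1 + (2)
          * g 2 (-2) + (-8) * g 2 (-1) + (2) * g 2 0 + (2) * g 3 (-2) + (2) * g 3 (-1) + (3) * g 4
          (-3) + (2) * g 4 (-2) + (3) * g 4 (-1) + (3) * g 5 (-3) + (3) * g 5 (-2) := by
    simp only [GKG.sum0, GKG.sum1, GKG.P0, GKG.q_p1p0, GKG.q_p2m1, GKG.q_m1p1, GKG.q_m1p0,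
        GKG.q_m2p1, GKG.q_p1m1, GKG.q_p0p0, GKG.q_m3p2, GKG.q_p3m1, GKG.q_p0p1, GKG.q_p3m2,
        GKG.q_m3p1, GKG.q_p0m1, GKG.form, key]
    norm_num
    ring
  have s11 : ∑ κ ∈ (D3 ψ).S 1, ∑ κ' ∈ (D3 ψ).S 1, (((D3 ψ).P 1 κ * (D3 ψ).P 1 κ' *
      (κ ⬝ᵥ ((D3 ψ).A *ᵥ κ')) : ℤ) : ℂ) * (D3 ψ).ψ x (l + κ + κ') =
      (6) * g (-6) 2 + (6) * g (-6) 3 + (6) * g (-6) 4 + (6) * g (-5) 2 + (6) * g (-5) 3 + (6) * g
          (-4) 1 + (2) * g (-4) 2 + (6) * g (-4) 3 + (6) * g (-3) 0 + (-4) * g (-3) 1 + (-4) * g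
          (-3) 2 + (6) * g (-3) 3 + (2) * g (-2) 0 + (-14) * g (-2) 1 + (2) * g (-2) 2 + (6) * g
          (-1) (-1) + (-14) * g (-1) 0 + (-14) * g (-1) 1 + (6) * g (-1) 2 + (6) * g 0 (-2) + (-4)
          * g 0 (-1) + (-48) * g 0 0 + (-4) * g 0 1 + (6) * g 0 2 + (6) * g 1 (-2) + (-14) * g 1
          (-1) + (-14) * g 1 0 + (6) * g 1 1 + (2) * g 2 (-2) + (-14) * g 2 (-1) + (2) * g 2 0 +
          (6) * g 3 (-3) + (-4) * g 3 (-2) + (-4) * g 3 (-1) + (6) * g 3 0 + (6) * g 4 (-3) + (2) *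
          g 4 (-2) + (6) * g 4 (-1) + (6) * g 5 (-3) + (6) * g 5 (-2) + (6) * g 6 (-4) + (6) * g 6
          (-3) + (6) * g 6 (-2) := by
    simp only [GKG.sum1, GKG.q_p1p0, GKG.q_p2m1, GKG.q_m1p1, GKG.q_m1p0, GKG.q_m2p1, GKG.q_p1m1,
        GKG.q_p0p0, GKG.q_m3p2, GKG.q_p3m1, GKG.q_p0p1, GKG.q_p3m2, GKG.q_m3p1, GKG.q_p0m1,
        GKG.form, key]
    norm_num
    ring
  fin_cases i <;> fin_cases j
  · refine Eq.trans ?_ s00.symm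
    change M3 0 0 x * (D3 ψ).ψ x l = _
    have hM : M3 0 0 x = 2 * x 0 ^ 2 - 2 * x 1 - 8 * x 0 - 14 := rfl
    rw [hM, hl0]
    linear_combination (2) * t00 + (-2) * h1_p0p0 + (-8) * h0_p0p0
  · refine Eq.trans ?_ s01.symm
    change M3 0 1 x * (D3 ψ).ψ x l = _
    have hM : M3 0 1 x = 3 * x 0 * x 1 - 7 * x 0 ^ 2 + 7 * x 1 - 8 * x 0 + 7 := rfl
    rw [hM, hl0]
    linear_combination (3) * t01 + (-7) * t00 + (7) * h1_p0p0 + (-8) * h0_p0p0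
  · refine Eq.trans ?_ s10.symm
    change M3 1 0 x * (D3 ψ).ψ x l = _
    have hM : M3 1 0 x = 3 * x 0 * x 1 - 7 * x 0 ^ 2 + 7 * x 1 - 8 * x 0 + 7 := rfl
    rw [hM, hl0]
    linear_combination (3) * t01 + (-7) * t00 + (7) * h1_p0p0 + (-8) * h0_p0p0
  · refine Eq.trans ?_ s11.symm
    change M3 1 1 x * (D3 ψ).ψ x l = _
    have hM : M3 1 1 x = 6 * x 1 ^ 2 - 6 * x 0 ^ 3 + 12 * x 0 * x 1 - 10 * x 0 ^ 2 + 4 * x 1 + 22 *
        x 0 - 14 := rfl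
    rw [hM, hl0]
    linear_combination (6) * t11 + (-6) * t000 + (12) * t01 + (-10) * t00 + (4) * h1_p0p0 + (22) * h0_p0p0

end

end STZ
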