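import Pool.Agent.STZ.StmtsZ

/-!
# The kernel of the group at the points of the torus
-/

namespace STZ

open MeasureTheory Matrix

open scoped ComplexConjugate Matrix Real

noncomputable section

namespace GKT

variable {N : ℕ} {H : Subgroup (SU N)} {c : ℝ} {d r : ℕ} {D : RD r} {P : RT r}
  {B : Matrix (Fin r) (Fin r) ℤ} {h : ℕ} {x : Fin r → H → ℂ} {k : ℝ}

lemma sum_ib (n : ℕ) (F : (Fin r → ℤ) → ℂ) :
    ∑ a ∈ ib r n, F (wG a) = ∑ l ∈ bx (1 : Fin r → ℤ) n, F l := by
  refine Finset.sum_bij (fun a _ => wG a) ?_ ?_ ?_ ?_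
  · intro a ha
    unfold ib at ha
    rw [Fintype.mem_piFinset] at ha
    unfold bx
    rw [Fintype.mem_piFinset]
    intro i
    have h1 := Finset.mem_range.mp (ha i)
    rw [Finset.mem_Ico]
    unfold wG
    simp only [Pi.one_apply]
    omega
  · intro a _ b _ hab
    funext i
    have h1 := congrFun hab i
    unfold wG at h1
    omega
  · intro l hl
    unfold bx at hl
    rw [Fintype.mem_piFinset] at hl
    refine ⟨fun i => (l i - 1).toNat, ?_, ?_⟩
    · unfold ib
      rw [Fintype.mem_piFinset]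
      intro i
      have h1 := Finset.mem_Ico.mp (hl i)
      simp only [Pi.one_apply] at h1
      rw [Finset.mem_range]
      omega
    · funext i
      have h1 := Finset.mem_Ico.mp (hl i)
      simp only [Pi.one_apply] at h1
      unfold wG
      simp only
      omega
  · intro a _
    rfl

lemma cG_one (hG : GD H c d D P B h x k) (a : Fin r → ℕ) : cG D x a 1 = D.dim (wG a) := by
  unfold cG
  have h1 : (fun i => x i 1) = D.ξ := by
    funext i
    exact hG.gf.xone i
  rw [h1]
  exact hG.rdx.d.dim_eq _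

lemma kx_eq (hG : GD H c d D P B h x k) (n : ℕ) (t : ℝ) (g g' : H) {θ : Fin r → ℝ}
    (hθ : ∀ i, x i (g * g'⁻¹) = XT D θ i) : kx D x n t g g' = KT D n (-t) θ := by
  unfold kx KT
  have h1 : (fun i => x i (g * g'⁻¹)) = XT D θ := by
    funext i
    exact hθ i
  rw [← sum_ib n fun l => (D.dim l : ℂ) * eu (-t * D.Q l) * D.ψ (XT D θ) l]
  refine Finset.sum_congr rfl fun a _ => ?_
  unfold KK
  rw [cG_one hG]
  unfold cG
  rw [h1]
  have h2 : t * ((-D.Q (wG a) : ℤ) : ℝ) = -t * D.Q (wG a) := by
    push_cast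
    ring
  rw [h2]
  ring

lemma cont_psi (hI : S_INTX) (hG : GD H c d D P B h x k) (l : Fin r → ℤ) :
    Continuous fun g : H => D.ψ (fun i => x i g) l := by
  obtain ⟨F, hF⟩ := (hI r D hG.rdx.o).1 l
  have h1 : (fun g : H => D.ψ (fun i => x i g) l) =
      fun g : H => MvPolynomial.eval (fun i => x i g) (MvPolynomial.map (algebraMap ℤ ℂ) F) := by
    funext g
    rw [hF, MvPolynomial.aeval_def, MvPolynomial.eval_map]
  rw [h1]
  refine (MvPolynomial.continuous_eval (MvPolynomial.map (algebraMap ℤ ℂ) F)).comp ?_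
  exact continuous_pi fun i => hG.gf.cont i

lemma cont_quot : Continuous fun z : ℝ × H × H => z.2.1 * z.2.2⁻¹ :=
  (continuous_fst.comp continuous_snd).mul (continuous_snd.comp continuous_snd).inv

lemma cont_kg (hI : S_INTX) (hG : GD H c d D P B h x k) (n M : ℕ) :
    Continuous fun z : ℝ × H × H => kg D P x n M z.1 z.2.1 z.2.2 := by
  have hq : Continuous fun z : ℝ × H × H => z.2.1 * z.2.2⁻¹ := cont_quot
  unfold kg
  refine Continuous.mul ?_ ?_
  · unfold kx
    refine continuous_finsetSum _ fun a _ => ?_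
    refine Continuous.mul ?_ ?_
    · unfold eu
      refine Complex.continuous_exp.comp ?_
      refine Continuous.mul ?_ continuous_const
      refine Continuous.mul continuous_const ?_
      exact Complex.continuous_ofReal.comp (continuous_fst.mul continuous_const)
    · unfold KK
      refine continuous_const.mul ?_
      exact (cont_psi hI hG (wG a)).comp hq
  · unfold FM
    refine continuous_const.sub ?_
    refine Continuous.pow ?_ _
    refine continuous_const.sub ?_
    refine Continuous.pow ?_ _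
    refine Continuous.div_const ?_ _
    exact (cont_psi hI hG _).comp hq

lemma card_ne (hG : GD H c d D P B h x k) : P.card ≠ 0 := by
  have h2 := hG.rdx.w.r2
  obtain ⟨p, hp, -⟩ := hG.rtd.bmem ⟨0, by omega⟩
  exact Finset.card_ne_zero_of_mem hp

lemma FM_one (hG : GD H c d D P B h x k) (y : Fin r → ℂ) : FM D P 1 y = 1 := by
  unfold FM
  have h1 : D.ψ y (fun _ => ((1 : ℕ) : ℤ)) = 1 := by
    have h2 : (fun _ : Fin r => ((1 : ℕ) : ℤ)) = 1 := by
      funext i
      simp
    rw [h2]
    exact hG.rdx.p.one y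
  rw [h1, Nat.cast_one, one_pow, div_one, one_pow, sub_self, zero_pow (card_ne hG), sub_zero]

end GKT

theorem t_GKT : M_GKT := by
  intro hW hI hK N H c d r D P B h x k hG
  refine ⟨fun n M => GKT.cont_kg hI hG n M, fun n t g g' => ?_, ?_⟩
  · unfold kg
    rw [GKT.FM_one hG, mul_one]
  · obtain ⟨C, c', hC, hc', hKS⟩ := hK r D P B h hG.rdx hG.rtd
    refine ⟨C, c', hC, hc', fun n t g g' hn => ?_⟩
    obtain ⟨θ, hθ⟩ := hG.tor (g * g'⁻¹)
    have h0 : (fun i => x i (g * g'⁻¹)) = XT D θ := by
      funext i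
      exact hθ i
    obtain ⟨h1, h2⟩ := hKS n (-t) θ hn
    rw [hW.even] at h1 h2
    unfold kg
    rw [GKT.kx_eq hG n t g g' hθ, h0]
    refine ⟨h1, fun M hM hMn => ?_⟩
    rw [← mul_sub]
    exact h2 M hM hMn

end

end STZ
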