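import Pool.Agent.STZ.StmtsZ

/-!
# The pieces of the kernel of the group are bounded operators
-/

namespace STZ

open MeasureTheory Matrix

open scoped ComplexConjugate Matrix Real

noncomputable section

namespace GOP

variable {N : ℕ} {H : Subgroup (SU N)} {c : ℝ} {d r : ℕ} {D : RD r} {P : RT r}
  {B : Matrix (Fin r) (Fin r) ℤ} {h : ℕ} {x : Fin r → H → ℂ} {k : ℝ}

lemma sum_ib (n : ℕ) (F : (Fin r → ℤ) → ℂ) :
    ∑ a ∈ ib r n, F (wG a) = ∑ l ∈ bx (1 : Fin r → ℤ) n, F l := by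
  refine Finset.sum_bij (fun a _ => wG a) ?_ ?_ ?_ ?_
  · intro a ha
    unfold ib at ha
    rw [Fintype.mem_piFinset] at ha
    unfold bx
    rw [Fintype.mem_piFinset]
    intro i
    have h1 := Finset.mem_range.mp (ha i)
    rw [Finset.mem_Ico]
    unfold wG
    simp only [Pi.one_apply]
    omega
  · intro a _ b _ hab
    funext i
    have h1 := congrFun hab i
    unfold wG at h1
    omega
  · intro l hl
    unfold bx at hl
    rw [Fintype.mem_piFinset] at hl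
    refine ⟨fun i => (l i - 1).toNat, ?_, ?_⟩
    · unfold ib
      rw [Fintype.mem_piFinset]
      intro i
      have h1 := Finset.mem_Ico.mp (hl i)
      simp only [Pi.one_apply] at h1
      rw [Finset.mem_range]
      omega
    · funext i
      have h1 := Finset.mem_Ico.mp (hl i)
      simp only [Pi.one_apply] at h1
      unfold wG
      simp only
      omega
  · intro a _
    rfl

lemma reg_wG (a : Fin r → ℕ) : Reg (wG a) := by
  intro i
  unfold wG
  omega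

lemma cG_one (hG : GD H c d D P B h x k) (a : Fin r → ℕ) : cG D x a 1 = D.dim (wG a) := by
  unfold cG
  have h1 : (fun i => x i 1) = D.ξ := by
    funext i
    exact hG.gf.xone i
  rw [h1]
  exact hG.rdx.d.dim_eq _

lemma kx_eq (hG : GD H c d D P B h x k) (n : ℕ) (t : ℝ) (g g' : H) {θ : Fin r → ℝ}
    (hθ : ∀ i, x i (g * g'⁻¹) = XT D θ i) : kx D x n t g g' = KT D n (-t) θ := by
  unfold kx KT
  have h1 : (fun i => x i (g * g'⁻¹)) = XT D θ := by
    funext i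
    exact hθ i
  rw [← sum_ib n fun l => (D.dim l : ℂ) * eu (-t * D.Q l) * D.ψ (XT D θ) l]
  refine Finset.sum_congr rfl fun a _ => ?_
  unfold KK
  rw [cG_one hG]
  unfold cG
  rw [h1]
  have h2 : t * ((-D.Q (wG a) : ℤ) : ℝ) = -t * D.Q (wG a) := by
    push_cast
    ring
  rw [h2]
  ring

/-- the sum over the frequencies of the coefficients -/
def sm (D : RD r) (P : RT r) (n M : ℕ) (t : ℝ) (ν : Fin r → ℤ) : ℂ :=
  ∑ l ∈ bx (1 : Fin r → ℤ) n, (D.dim l : ℂ) * eu (t * D.Q l) * csh D P M l ν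

lemma kg_eq (hG : GD H c d D P B h x k) (C n M : ℕ) (t : ℝ)
    (hK : ∀ θ : Fin r → ℝ, KT D n (-t) θ * FM D P M (XT D θ) =
      ∑ ν ∈ bx (1 : Fin r → ℤ) (C * (n + M)), sm D P n M (-t) ν * D.ψ (XT D θ) ν) (g g' : H) :
    kg D P x n M t g g' = ∑ b ∈ ib r (C * (n + M)),
      (sm D P n M (-t) (wG b) / (D.dim (wG b) : ℂ)) * KK (cG D x) b g g' := by
  obtain ⟨θ, hθ⟩ := hG.tor (g * g'⁻¹)
  have h0 : (fun i => x i (g * g'⁻¹)) = XT D θ := by
    funext i
    exact hθ i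
  unfold kg
  rw [kx_eq hG n t g g' hθ, h0, hK θ,
    ← sum_ib (C * (n + M)) fun ν => sm D P n M (-t) ν * D.ψ (XT D θ) ν]
  refine Finset.sum_congr rfl fun b _ => ?_
  unfold KK
  rw [cG_one hG]
  unfold cG
  rw [h0]
  have h1 : (D.dim (wG b) : ℂ) ≠ 0 := by
    have h2 := hG.rdx.d.dim_pos (wG b) (reg_wG b)
    exact Int.cast_ne_zero.mpr h2.ne'
  field_simp

end GOP

theorem t_GOP : M_GOP := by
  intro hW hKE hIR hKD hO hKO N H c d r D P B h x k hG μ _ _
  obtain ⟨C, c', hC, hc', hOP⟩ := hO r D P B h hG.rdx hG.rtd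
  obtain ⟨C₁, hKT⟩ := hKD r D P B h hG.rdx hG.rtd
  refine ⟨C, c', hC, hc', fun n M t u v hn hM hu hv => ?_⟩
  have hcs : CompactSpace H := isCompact_iff_compactSpace.1 (hG.gf.closed.isCompact)
  have hsc : SecondCountableTopology H :=
    TopologicalSpace.Subtype.secondCountableTopology (H : Set (SU N))
  have hirr : IrrFam (cG D x) := hIR N H c d r D x k hG.rdx.o hG.gf μ
  obtain ⟨hker, -⟩ := hKE H μ (Fin r → ℕ) (cG D x) hirr
  have hE : 0 ≤ C * (WW M c' t ^ ((r : ℝ) / 2) / (M : ℝ) ^ r) := by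
    have h1 : (0 : ℝ) ≤ WW M c' t := le_trans (Nat.cast_nonneg M) (hW.ge M c' t)
    positivity
  have hm : ∀ b ∈ ib r (C₁ * (n + M)),
      ‖GOP.sm D P n M (-t) (wG b) / (D.dim (wG b) : ℂ)‖ ≤
        C * (WW M c' t ^ ((r : ℝ) / 2) / (M : ℝ) ^ r) := by
    intro b _
    have h1 := hOP n M (-t) (wG b) hn hM (GOP.reg_wG b)
    rw [hW.even] at h1
    have h2 : (0 : ℝ) < (D.dim (wG b) : ℝ) :=
      Int.cast_pos.mpr (hG.rdx.d.dim_pos (wG b) (GOP.reg_wG b))
    have h3 : ‖(D.dim (wG b) : ℂ)‖ = (D.dim (wG b) : ℝ) := by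
      have h4 : (D.dim (wG b) : ℂ) = (((D.dim (wG b) : ℝ)) : ℂ) := by push_cast; rfl
      rw [h4, Complex.norm_real, Real.norm_eq_abs, abs_of_pos h2]
    rw [norm_div, h3, div_le_iff₀ h2]
    refine le_trans h1 (le_of_eq ?_)
    ring
  have hk : ∀ g g' : H, kg D P x n M t g g' = ∑ b ∈ ib r (C₁ * (n + M)),
      (GOP.sm D P n M (-t) (wG b) / (D.dim (wG b) : ℂ)) * KK (cG D x) b g g' :=
    fun g g' => GOP.kg_eq hG C₁ n M t (fun θ => hKT n M (-t) θ hn hM) g g'
  have h5 := hKO H μ (Fin r → ℕ) (KK (cG D x)) hker (ib r (C₁ * (n + M)))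
    (fun b => GOP.sm D P n M (-t) (wG b) / (D.dim (wG b) : ℂ))
    (C * (WW M c' t ^ ((r : ℝ) / 2) / (M : ℝ) ^ r)) hE hm u v hu hv
  simp only [hk]
  exact h5

end

end STZ
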