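import Pool.Agent.STZ.StmtsZ

/-!
# GSUM: the sum over the pieces
-/

namespace STZ

open MeasureTheory Matrix

open scoped ComplexConjugate Matrix Real

noncomputable section

namespace GSUM

theorem MJ_pos (J j : ℕ) : 0 < MJ J j := by unfold MJ; positivity

theorem MJ_le (J j : ℕ) : MJ J j ≤ 2 ^ J := by
  unfold MJ
  exact Nat.pow_le_pow_right (by norm_num) (min_le_right _ _)

/-- the pointwise identity for the integrand -/
theorem integrand (C κ n M W V b : ℝ) (q r : ℕ) (hC : 0 ≤ C) (hn : 0 < n) (hM : 0 < M)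
    (hW : 0 ≤ W) :
    (C * (n ^ q * W ^ ((r : ℝ) / 2) * (M / n) ^ r)) ^ κ * (C * (V ^ b / M ^ r)) =
      (C ^ κ * C * ((n ^ q) ^ κ * ((M / n) ^ r) ^ κ / M ^ r)) * (W ^ (κ * ((r : ℝ) / 2)) * V ^ b) := by
  have h1 : 0 ≤ n ^ q := by positivity
  have h2 : 0 ≤ W ^ ((r : ℝ) / 2) := Real.rpow_nonneg hW _
  have h3 : 0 ≤ (M / n) ^ r := by positivity
  rw [Real.mul_rpow hC (by positivity), Real.mul_rpow (by positivity) h3, Real.mul_rpow h1 h2,
    ← Real.rpow_mul hW, mul_comm κ ((r : ℝ) / 2)]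
  ring

/-- the constants -/
theorem consts (κ n M : ℝ) (q r : ℕ) (hn : 0 < n) (hM : 0 < M) :
    ((n ^ q) ^ κ * ((M / n) ^ r) ^ κ / M ^ r) *
      (n ^ (2 * (κ * ((r : ℝ) / 2)) - 2) * M ^ (2 * ((r : ℝ) / 2)) *
        (n / M) ^ (1 + (κ * ((r : ℝ) / 2)) / 2)) =
      n ^ (((q : ℝ) + r) * κ - 2) * (M / n) ^ (3 * (κ * ((r : ℝ) / 2)) / 2 - 1) := by
  have hl : ∀ x : ℝ, 0 < x → ∀ y : ℝ, x ^ y = Real.exp (Real.log x * y) := fun x hx y =>
    Real.rpow_def_of_pos hx y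
  have hMr : (M : ℝ) ^ r = Real.exp (Real.log M * r) := by
    rw [← hl M hM, Real.rpow_natCast]
  have hnq : (n : ℝ) ^ q = Real.exp (Real.log n * q) := by
    rw [← hl n hn, Real.rpow_natCast]
  have hMn : (M / n) ^ r = Real.exp ((Real.log M - Real.log n) * r) := by
    rw [← Real.rpow_natCast, hl _ (div_pos hM hn), Real.log_div hM.ne' hn.ne']
  rw [hMr, hnq, hMn, hl (n / M) (div_pos hn hM), hl (M / n) (div_pos hM hn), hl n hn, hl M hM,
    hl n hn, hl _ (Real.exp_pos _), hl _ (Real.exp_pos _), Real.log_exp, Real.log_exp,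
    Real.log_div hM.ne' hn.ne', Real.log_div hn.ne' hM.ne']
  rw [← Real.exp_add, ← Real.exp_sub, ← Real.exp_add, ← Real.exp_add, ← Real.exp_add,
    ← Real.exp_add]
  congr 1
  ring

/-- the ratio -/
theorem ratio (J j : ℕ) (y : ℝ) :
    ((MJ J j : ℝ) / ((2 ^ J : ℕ) : ℝ)) ^ y = ((2 : ℝ) ^ (-y)) ^ (J - min (j + 1) J) := by
  have h : (MJ J j : ℝ) / ((2 ^ J : ℕ) : ℝ) = (2 : ℝ) ^ (-((J - min (j + 1) J : ℕ) : ℝ)) := by
    unfold MJ
    have hle : min (j + 1) J ≤ J := min_le_right _ _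
    push_cast [Nat.cast_sub hle]
    rw [← Real.rpow_natCast, ← Real.rpow_natCast, ← Real.rpow_sub (by norm_num)]
    congr 1
    push_cast
    ring
  rw [h, ← Real.rpow_mul (by norm_num), ← Real.rpow_natCast ((2 : ℝ) ^ (-y)),
    ← Real.rpow_mul (by norm_num)]
  congr 1
  ring

/-- the geometric sum -/
theorem geo (J : ℕ) (x : ℝ) (h0 : 0 ≤ x) (h1 : x < 1) :
    ∑ j : Fin (J + 1), x ^ (J - min ((j : ℕ) + 1) J) ≤ 1 + 1 / (1 - x) := by
  rw [Fin.sum_univ_eq_sum_range (fun j => x ^ (J - min (j + 1) J)) (J + 1), Finset.sum_range_succ]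
  have e1 : J - min (J + 1) J = 0 := by omega
  rw [e1, pow_zero]
  have e2 : ∑ j ∈ Finset.range J, x ^ (J - min (j + 1) J) = ∑ j ∈ Finset.range J, x ^ j := by
    rw [← Finset.sum_range_reflect (fun j => x ^ j) J]
    refine Finset.sum_congr rfl fun j hj => ?_
    have := Finset.mem_range.1 hj
    congr 1
    omega
  rw [e2]
  have e3 : ∑ j ∈ Finset.range J, x ^ j ≤ 1 / (1 - x) := by
    rw [geom_sum_eq h1.ne, ← neg_div_neg_eq, neg_sub, neg_sub]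
    exact div_le_div_of_nonneg_right (by have := pow_nonneg h0 J; linarith) (by linarith)
  linarith

end GSUM

open GSUM

theorem t_GSUM : M_GSUM := by
  intro hW hI r q c p C hr hc hC hp1 hp2
  have hr3 : (3 : ℝ) ≤ r := by exact_mod_cast hr
  have hr0 : (0 : ℝ) < r := by linarith
  have hp0 : 0 < p := by
    have : 0 < 8 / (3 * (r : ℝ)) := by positivity
    linarith
  have hκ1 : 4 / (3 * (r : ℝ)) < p / 2 - 1 := by
    have : 8 / (3 * (r : ℝ)) = 2 * (4 / (3 * (r : ℝ))) := by ring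
    linarith
  have hκ2 : p / 2 - 1 < 2 / r := by
    have : 4 / (r : ℝ) = 2 * (2 / r) := by ring
    linarith
  generalize hκ : p / 2 - 1 = κ at *
  have hκ0 : 0 < κ := lt_trans (by positivity) hκ1
  have ha1 : 2 / 3 < κ * ((r : ℝ) / 2) := by
    have h := mul_lt_mul_of_pos_right hκ1 (show (0 : ℝ) < (r : ℝ) / 2 by positivity)
    have e : 4 / (3 * (r : ℝ)) * ((r : ℝ) / 2) = 2 / 3 := by field_simp; norm_num
    linarith
  have ha2 : κ * ((r : ℝ) / 2) < 1 := by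
    have h := mul_lt_mul_of_pos_right hκ2 (show (0 : ℝ) < (r : ℝ) / 2 by positivity)
    have e : 2 / (r : ℝ) * ((r : ℝ) / 2) = 1 := by field_simp
    linarith
  obtain ⟨C0, hC0, h0⟩ := hI c (κ * ((r : ℝ) / 2)) ((r : ℝ) / 2) hc ha1 ha2 (by linarith)
  have hs : 0 < 3 * (κ * ((r : ℝ) / 2)) / 2 - 1 := by linarith
  have hK : 0 ≤ C ^ κ * C * C0 := by positivity
  have hx0 : (0 : ℝ) ≤ 2 ^ (-((3 * (κ * ((r : ℝ) / 2)) / 2 - 1) * (2 / p))) := by positivity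
  have hx1 : (2 : ℝ) ^ (-((3 * (κ * ((r : ℝ) / 2)) / 2 - 1) * (2 / p))) < 1 := by
    apply Real.rpow_lt_one_of_one_lt_of_neg (by norm_num)
    have : 0 < (3 * (κ * ((r : ℝ) / 2)) / 2 - 1) * (2 / p) := by positivity
    linarith
  refine ⟨(C ^ κ * C * C0) ^ (2 / p) *
    (1 + 1 / (1 - 2 ^ (-((3 * (κ * ((r : ℝ) / 2)) / 2 - 1) * (2 / p))))), ?_, fun J => ?_⟩
  · have : 0 < 1 - (2 : ℝ) ^ (-((3 * (κ * ((r : ℝ) / 2)) / 2 - 1) * (2 / p))) := by linarith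
    positivity
  have hn : (0 : ℝ) < ((2 ^ J : ℕ) : ℝ) := by positivity
  refine ⟨fun j => (C ^ κ * C * C0) * (((2 ^ J : ℕ) : ℝ) ^ (((q : ℝ) + r) * κ - 2) *
    ((MJ J j : ℝ) / ((2 ^ J : ℕ) : ℝ)) ^ (3 * (κ * ((r : ℝ) / 2)) / 2 - 1)), fun j => ?_,
    fun j => ?_, ?_⟩
  · have hM : (0 : ℝ) < (MJ J j : ℝ) := by exact_mod_cast MJ_pos J j
    have hint : ∀ t : ℝ, (C * (((2 ^ J : ℕ) : ℝ) ^ q * WW (2 ^ J) c t ^ ((r : ℝ) / 2) *
        ((MJ J j : ℝ) / (2 ^ J : ℕ)) ^ r)) ^ κ *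
        (C * (WW (MJ J j) c t ^ ((r : ℝ) / 2) / (MJ J j : ℝ) ^ r)) =
        (C ^ κ * C * ((((2 ^ J : ℕ) : ℝ) ^ q) ^ κ * (((MJ J j : ℝ) / (2 ^ J : ℕ)) ^ r) ^ κ /
          (MJ J j : ℝ) ^ r)) *
        (WW (2 ^ J) c t ^ (κ * ((r : ℝ) / 2)) * WW (MJ J j) c t ^ ((r : ℝ) / 2)) := fun t =>
      integrand C κ _ _ _ _ _ q r hC hn hM (le_trans (Nat.cast_nonneg _) (hW.ge (2 ^ J) c t))
    rw [intervalIntegral.integral_congr fun t _ => hint t, intervalIntegral.integral_const_mul]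
    have h1 := h0 (2 ^ J) (MJ J j) (MJ_pos J j) (MJ_le J j)
    have hK' : 0 ≤ C ^ κ * C * ((((2 ^ J : ℕ) : ℝ) ^ q) ^ κ *
        (((MJ J j : ℝ) / (2 ^ J : ℕ)) ^ r) ^ κ / (MJ J j : ℝ) ^ r) := by positivity
    refine le_trans (mul_le_mul_of_nonneg_left h1 hK') (le_of_eq ?_)
    beta_reduce
    rw [← consts κ _ _ q r hn hM]
    ring
  · have hM : (0 : ℝ) < (MJ J j : ℝ) := by exact_mod_cast MJ_pos J j
    positivity
  · have hterm : ∀ j : Fin (J + 1), ((C ^ κ * C * C0) * (((2 ^ J : ℕ) : ℝ) ^ (((q : ℝ) + r) * κ - 2) *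
        ((MJ J j : ℝ) / ((2 ^ J : ℕ) : ℝ)) ^ (3 * (κ * ((r : ℝ) / 2)) / 2 - 1))) ^ (2 / p) =
        ((C ^ κ * C * C0) ^ (2 / p) * ((2 ^ J : ℕ) : ℝ) ^ ((((q : ℝ) + r) * κ - 2) * (2 / p))) *
        ((2 : ℝ) ^ (-((3 * (κ * ((r : ℝ) / 2)) / 2 - 1) * (2 / p)))) ^ (J - min ((j : ℕ) + 1) J) := by
      intro j
      have hM : (0 : ℝ) < (MJ J j : ℝ) := by exact_mod_cast MJ_pos J j
      generalize C ^ κ * C * C0 = K at hK
      rw [Real.mul_rpow hK (by positivity), Real.mul_rpow (by positivity) (by positivity),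
        ← Real.rpow_mul hn.le, ← Real.rpow_mul (by positivity), ratio]
      ring
    rw [Finset.sum_congr rfl fun j _ => hterm j, ← Finset.mul_sum]
    have hg := geo J _ hx0 hx1
    have hc0 : 0 ≤ (C ^ κ * C * C0) ^ (2 / p) *
        ((2 ^ J : ℕ) : ℝ) ^ ((((q : ℝ) + r) * κ - 2) * (2 / p)) := by positivity
    refine le_trans (mul_le_mul_of_nonneg_left hg hc0) (le_of_eq ?_)
    ring

end

end STZ
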