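import Pool.Agent.STZ.StmtsS

/-!
# INTG: integer coefficients
-/

set_option autoImplicit false

namespace STZ

open MeasureTheory Matrix

open scoped ComplexConjugate Matrix Real

noncomputable section

namespace INTG

/-- the monomials -/
def mon (k : ℕ × ℕ) : ℂ → ℂ → ℂ := fun x y => x ^ k.1 * y ^ k.2

/-- the characters -/
def pf (p q : ℤ) : ℂ → ℂ → ℂ := fun x y => ps x y p q

/-- the multiplication by the first variable -/
def mx (f : ℂ → ℂ → ℂ) : ℂ → ℂ → ℂ := fun x y => x * f x y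

/-- the multiplication by the second variable -/
def my (f : ℂ → ℂ → ℂ) : ℂ → ℂ → ℂ := fun x y => y * f x y

/-- integer combinations of monomials -/
def M1 : Submodule ℤ (ℂ → ℂ → ℂ) := Submodule.span ℤ (Set.range mon)

/-- integer combinations of characters -/
def M2 : Submodule ℤ (ℂ → ℂ → ℂ) :=
  Submodule.span ℤ (Set.range fun k : ℕ × ℕ => pf (k.1 + 1) (k.2 + 1))

theorem mx_mem {ι : Type} (v : ι → ℂ → ℂ → ℂ) {S : Submodule ℤ (ℂ → ℂ → ℂ)}
    (hS : S = Submodule.span ℤ (Set.range v)) (h : ∀ i, mx (v i) ∈ S) :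
    ∀ f ∈ S, mx f ∈ S := by
  intro f hf
  rw [hS] at hf
  induction hf using Submodule.span_induction with
  | mem f hf =>
    obtain ⟨i, rfl⟩ := hf
    exact h i
  | zero =>
    have : mx 0 = 0 := by funext x y; simp [mx]
    rw [this]; exact Submodule.zero_mem _
  | add f g _ _ hf hg =>
    have : mx (f + g) = mx f + mx g := by funext x y; simp [mx, mul_add]
    rw [this]; exact Submodule.add_mem _ hf hg
  | smul c f _ hf =>
    have : mx (c • f) = c • mx f := by
      funext x y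
      simp only [mx, Pi.smul_apply, zsmul_eq_mul]
      ring
    rw [this]; exact Submodule.smul_mem _ _ hf

theorem my_mem {ι : Type} (v : ι → ℂ → ℂ → ℂ) {S : Submodule ℤ (ℂ → ℂ → ℂ)}
    (hS : S = Submodule.span ℤ (Set.range v)) (h : ∀ i, my (v i) ∈ S) :
    ∀ f ∈ S, my f ∈ S := by
  intro f hf
  rw [hS] at hf
  induction hf using Submodule.span_induction with
  | mem f hf =>
    obtain ⟨i, rfl⟩ := hf
    exact h i
  | zero =>
    have : my 0 = 0 := by funext x y; simp [my]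
    rw [this]; exact Submodule.zero_mem _
  | add f g _ _ hf hg =>
    have : my (f + g) = my f + my g := by funext x y; simp [my, mul_add]
    rw [this]; exact Submodule.add_mem _ hf hg
  | smul c f _ hf =>
    have : my (c • f) = c • my f := by
      funext x y
      simp only [my, Pi.smul_apply, zsmul_eq_mul]
      ring
    rw [this]; exact Submodule.smul_mem _ _ hf

theorem mx1 : ∀ f ∈ M1, mx f ∈ M1 := by
  refine mx_mem mon rfl fun k => Submodule.subset_span ⟨(k.1 + 1, k.2), ?_⟩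
  funext x y
  simp only [mon, mx]
  ring

theorem my1 : ∀ f ∈ M1, my f ∈ M1 := by
  refine my_mem mon rfl fun k => Submodule.subset_span ⟨(k.1, k.2 + 1), ?_⟩
  funext x y
  simp only [mon, my]
  ring

theorem exists_sum {ι : Type} (v : ι → ℂ → ℂ → ℂ) {f : ℂ → ℂ → ℂ}
    (hf : f ∈ Submodule.span ℤ (Set.range v)) :
    ∃ (s : Finset ι) (n : ι → ℤ), ∀ x y, f x y = ∑ k ∈ s, (n k : ℂ) * v k x y := by
  obtain ⟨c, hc⟩ := Finsupp.mem_span_range_iff_exists_finsupp.1 hf
  refine ⟨c.support, c, fun x y => ?_⟩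
  rw [← hc, Finsupp.sum, Finset.sum_apply, Finset.sum_apply]
  refine Finset.sum_congr rfl fun k _ => ?_
  simp only [Pi.smul_apply, zsmul_eq_mul]

variable (hA : ALTF)

include hA

theorem rx (p q : ℤ) : pf (p + 1) q = mx (pf p q) - pf (p - 1) (q + 1) - pf p (q - 1) := by
  funext x y
  simp only [Pi.sub_apply, pf, mx]
  rw [hA.xp x y p q]
  ring

theorem ry (p q : ℤ) : pf p (q + 1) = my (pf p q) - pf (p + 1) (q - 1) - pf (p - 1) q := by
  funext x y
  simp only [Pi.sub_apply, pf, my]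
  rw [hA.yp x y p q]
  ring

theorem p0 (q : ℤ) : pf 0 q = 0 := by
  funext x y
  exact hA.p0 x y q

theorem q0 (p : ℤ) : pf p 0 = 0 := by
  funext x y
  exact hA.q0 x y p

theorem ps_mem (N : ℕ) : ∀ p q : ℕ, p + q ≤ N → pf p q ∈ M1 := by
  induction N with
  | zero =>
    intro p q h
    have hp : p = 0 := by omega
    subst hp
    rw [Nat.cast_zero, p0 hA]
    exact Submodule.zero_mem _
  | succ N ih =>
    intro p q h
    rcases p with _ | p
    · rw [Nat.cast_zero, p0 hA]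
      exact Submodule.zero_mem _
    rcases q with _ | q
    · rw [Nat.cast_zero, q0 hA]
      exact Submodule.zero_mem _
    rcases p with _ | p
    · rcases q with _ | q
      · have h1 : pf ((0 + 1 : ℕ) : ℤ) ((0 + 1 : ℕ) : ℤ) = mon (0, 0) := by
          funext x y
          simp only [pf, mon]
          have := hA.one x y
          simpa using this
        rw [h1]
        exact Submodule.subset_span ⟨_, rfl⟩
      · have h1 : pf ((0 + 1 : ℕ) : ℤ) ((q + 1 + 1 : ℕ) : ℤ) =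
            my (pf ((1 : ℕ) : ℤ) ((q + 1 : ℕ) : ℤ)) - pf ((2 : ℕ) : ℤ) (q : ℤ) -
              pf ((0 : ℕ) : ℤ) ((q + 1 : ℕ) : ℤ) := by
          have h2 := ry hA 1 ((q : ℤ) + 1)
          push_cast
          rw [h2]
          norm_num
        rw [h1]
        exact Submodule.sub_mem _ (Submodule.sub_mem _ (my1 _ (ih _ _ (by omega)))
          (ih _ _ (by omega))) (ih _ _ (by omega))
    · have h1 : pf ((p + 1 + 1 : ℕ) : ℤ) ((q + 1 : ℕ) : ℤ) =
            mx (pf ((p + 1 : ℕ) : ℤ) ((q + 1 : ℕ) : ℤ)) - pf (p : ℤ) ((q + 2 : ℕ) : ℤ) -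
              pf ((p + 1 : ℕ) : ℤ) (q : ℤ) := by
        have h2 := rx hA ((p : ℤ) + 1) ((q : ℤ) + 1)
        push_cast
        rw [h2, add_sub_cancel_right, add_sub_cancel_right, add_assoc (q : ℤ) 1 1]
        norm_num
      rw [h1]
      exact Submodule.sub_mem _ (Submodule.sub_mem _ (mx1 _ (ih _ _ (by omega)))
        (ih _ _ (by omega))) (ih _ _ (by omega))

theorem pf_mem2 (p q : ℕ) : pf p q ∈ M2 := by
  rcases p with _ | p
  · rw [Nat.cast_zero, p0 hA]
    exact Submodule.zero_mem _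
  rcases q with _ | q
  · rw [Nat.cast_zero, q0 hA]
    exact Submodule.zero_mem _
  refine Submodule.subset_span ⟨(p, q), ?_⟩
  push_cast
  rfl

theorem mx2 : ∀ f ∈ M2, mx f ∈ M2 := by
  refine mx_mem (fun k : ℕ × ℕ => pf (k.1 + 1) (k.2 + 1)) rfl fun k => ?_
  have h1 : mx (pf ((k.1 : ℤ) + 1) ((k.2 : ℤ) + 1)) =
      pf ((k.1 + 2 : ℕ) : ℤ) ((k.2 + 1 : ℕ) : ℤ) + pf (k.1 : ℤ) ((k.2 + 2 : ℕ) : ℤ) +
        pf ((k.1 + 1 : ℕ) : ℤ) (k.2 : ℤ) := by
    have h2 := rx hA ((k.1 : ℤ) + 1) ((k.2 : ℤ) + 1)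
    rw [add_sub_cancel_right, add_sub_cancel_right, add_assoc (k.1 : ℤ) 1 1,
      add_assoc (k.2 : ℤ) 1 1] at h2
    push_cast
    norm_num at h2
    rw [h2]
    abel
  change mx (pf ((k.1 : ℤ) + 1) ((k.2 : ℤ) + 1)) ∈ M2
  rw [h1]
  exact Submodule.add_mem _ (Submodule.add_mem _ (pf_mem2 hA _ _) (pf_mem2 hA _ _))
    (pf_mem2 hA _ _)

theorem my2 : ∀ f ∈ M2, my f ∈ M2 := by
  refine my_mem (fun k : ℕ × ℕ => pf (k.1 + 1) (k.2 + 1)) rfl fun k => ?_
  have h1 : my (pf ((k.1 : ℤ) + 1) ((k.2 : ℤ) + 1)) =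
      pf ((k.1 + 1 : ℕ) : ℤ) ((k.2 + 2 : ℕ) : ℤ) + pf ((k.1 + 2 : ℕ) : ℤ) (k.2 : ℤ) +
        pf (k.1 : ℤ) ((k.2 + 1 : ℕ) : ℤ) := by
    have h2 := ry hA ((k.1 : ℤ) + 1) ((k.2 : ℤ) + 1)
    rw [add_sub_cancel_right, add_sub_cancel_right, add_assoc (k.1 : ℤ) 1 1,
      add_assoc (k.2 : ℤ) 1 1] at h2
    push_cast
    norm_num at h2
    rw [h2]
    abel
  change my (pf ((k.1 : ℤ) + 1) ((k.2 : ℤ) + 1)) ∈ M2
  rw [h1]
  exact Submodule.add_mem _ (Submodule.add_mem _ (pf_mem2 hA _ _) (pf_mem2 hA _ _))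
    (pf_mem2 hA _ _)

theorem mon_mem (i j : ℕ) : mon (i, j) ∈ M2 := by
  induction i with
  | zero =>
    induction j with
    | zero =>
      have h1 : mon (0, 0) = pf ((1 : ℕ) : ℤ) ((1 : ℕ) : ℤ) := by
        funext x y
        simp only [pf, mon]
        have := hA.one x y
        simpa using this.symm
      rw [h1]
      exact pf_mem2 hA _ _
    | succ j ih =>
      have h1 : mon (0, j + 1) = my (mon (0, j)) := by
        funext x y
        simp only [mon, my]
        ring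
      rw [h1]
      exact my2 hA _ ih
  | succ i ih =>
    have h1 : mon (i + 1, j) = mx (mon (i, j)) := by
      funext x y
      simp only [mon, mx]
      ring
    rw [h1]
    exact mx2 hA _ ih

end INTG

open INTG in
theorem t_INTG : M_INTG := by
  intro hA
  refine ⟨fun a b => ?_, fun i j => ?_⟩
  · obtain ⟨s, n, h⟩ := exists_sum mon (ps_mem hA _ (a + 1) (b + 1) le_rfl)
    refine ⟨s, n, fun x y => ?_⟩
    have h1 := h x y
    simp only [pf, mon] at h1
    push_cast at h1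
    exact h1
  · obtain ⟨s, n, h⟩ := exists_sum (fun k : ℕ × ℕ => pf (k.1 + 1) (k.2 + 1)) (mon_mem hA i j)
    exact ⟨s, n, fun x y => h x y⟩

end

end STZ
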