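import Pool.Agent.STZ.StmtsM

/-!
# INTGG: integer coefficients and symmetries of the polynomials `ψ`
-/

set_option autoImplicit false

namespace STZ

open MeasureTheory Matrix

open scoped ComplexConjugate Matrix Real

noncomputable section

namespace INTGG

variable {r : ℕ} {D : RD r}

theorem det_sq (h : RDF D) {w : Matrix (Fin r) (Fin r) ℤ} (hw : w ∈ D.W) : w.det * w.det = 1 := by
  obtain ⟨w', _, hw'⟩ := h.W_inv w hw
  have h1 : w'.det * w.det = 1 := by rw [← Matrix.det_mul, hw', Matrix.det_one]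
  have h2 : IsUnit w.det := IsUnit.of_mul_eq_one _ (by rw [mul_comm]; exact h1)
  exact Int.isUnit_mul_self h2

theorem det_sqC (h : RDF D) {w : Matrix (Fin r) (Fin r) ℤ} (hw : w ∈ D.W) :
    (w.det : ℂ) * (w.det : ℂ) = 1 := by
  have h1 := det_sq h hw
  exact_mod_cast h1

theorem psi_eq (h : RDF D) {w : Matrix (Fin r) (Fin r) ℤ} (hw : w ∈ D.W) (x : Fin r → ℂ)
    (l : Fin r → ℤ) : D.ψ x l = (w.det : ℂ) * D.ψ x (w *ᵥ l) := by
  rw [h.anti w hw, ← mul_assoc, det_sqC h hw, one_mul]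

theorem inv_zero (h : RDF D) {v : Fin r → ℤ} (hv : ∀ w ∈ D.W, w *ᵥ v = v) : v = 0 := by
  obtain ⟨w, hw, h1⟩ := h.str v
  obtain ⟨w', hw', h2⟩ := h.str (-v)
  funext i
  have h3 := h1 i
  have h4 := h2 i
  rw [hv w hw] at h3
  rw [Matrix.mulVec_neg, hv w' hw', Pi.neg_apply] at h4
  rw [Pi.zero_apply]
  omega

theorem sum_mul (h : RDF D) {w : Matrix (Fin r) (Fin r) ℤ} (hw : w ∈ D.W) {M : Type}
    [AddCommMonoid M] (g : Matrix (Fin r) (Fin r) ℤ → M) :
    ∑ u ∈ D.W, g (w * u) = ∑ u ∈ D.W, g u := by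
  classical
  obtain ⟨w', _, hw'⟩ := h.W_inv w hw
  have hinj : Function.Injective fun u : Matrix (Fin r) (Fin r) ℤ => w * u := by
    intro a b hab
    have h1 : w' * (w * a) = w' * (w * b) := congrArg (fun z => w' * z) hab
    rw [← mul_assoc, ← mul_assoc, hw', one_mul, one_mul] at h1
    exact h1
  have himg : D.W.image (fun u => w * u) = D.W := by
    apply Finset.eq_of_subset_of_card_le
    · intro u hu
      obtain ⟨a, ha, rfl⟩ := Finset.mem_image.1 hu
      exact h.W_mul w hw a ha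
    · rw [Finset.card_image_of_injective _ hinj]
  conv_rhs => rw [← himg]
  rw [Finset.sum_image fun a _ b _ hab => hinj hab]

theorem sum_orbit (h : RDF D) (κ : Fin r → ℤ) : ∑ w ∈ D.W, w *ᵥ κ = 0 := by
  apply inv_zero h
  intro w hw
  rw [Matrix.mulVec_sum]
  simp only [Matrix.mulVec_mulVec]
  exact sum_mul h hw fun u => u *ᵥ κ

theorem B_nonneg (h : RDF D) (i : Fin r) {l : Fin r → ℤ} (hl : Reg l) :
    0 ≤ l ⬝ᵥ (D.A *ᵥ Pi.single i 1) := by
  have h1 : ∀ w ∈ D.W, l ⬝ᵥ (D.A *ᵥ (w *ᵥ Pi.single i 1)) ≤ l ⬝ᵥ (D.A *ᵥ Pi.single i 1) := by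
    intro w hw
    by_cases he : w *ᵥ (Pi.single i 1 : Fin r → ℤ) = Pi.single i 1
    · rw [he]
    · have h2 := h.lt i l hl _ (h.S_W i w hw _ (h.top i).1) he
      rw [h.qf.polar, h.qf.polar, h.Q_W w hw] at h2
      omega
  have h2 : ∑ w ∈ D.W, l ⬝ᵥ (D.A *ᵥ (w *ᵥ Pi.single i 1)) = 0 := by
    rw [← dotProduct_sum, ← Matrix.mulVec_sum, sum_orbit h, Matrix.mulVec_zero,
      dotProduct_zero]
  have h3 := Finset.sum_le_sum h1
  rw [h2, Finset.sum_const, nsmul_eq_mul] at h3
  by_contra h4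
  have h5 : 0 < (D.W.card : ℤ) := by
    have := Finset.card_pos.2 ⟨1, h.W_one⟩
    exact_mod_cast this
  have h6 := mul_neg_of_pos_of_neg h5 (not_le.1 h4)
  omega

theorem Q_nonneg (h : RDF D) (l : Fin r → ℤ) : 0 ≤ D.Q l := by
  obtain ⟨c, hc, h1⟩ := h.pd
  have h2 := (h1 l).1
  have h3 : (0 : ℝ) ≤ D.Q l := le_trans (mul_nonneg hc.le (sq_nonneg _)) h2
  exact_mod_cast h3

theorem Q_single (h : RDF D) (i : Fin r) : 0 < D.Q (Pi.single i 1) := by
  obtain ⟨c, hc, h1⟩ := h.pd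
  have h2 := (h1 (Pi.single i 1)).1
  have h3 : sz (Pi.single i 1 : Fin r → ℤ) - 1 = 1 := by
    unfold sz
    rw [add_sub_cancel_left, Finset.sum_eq_single i]
    · simp
    · intro j _ hj
      rw [Pi.single_eq_of_ne hj]
      simp
    · intro hi
      exact absurd (Finset.mem_univ i) hi
  rw [h3] at h2
  have h4 : (0 : ℝ) < D.Q (Pi.single i 1) := by nlinarith
  exact_mod_cast h4

theorem Q_step (h : RDF D) (i : Fin r) {l : Fin r → ℤ} (hl : Reg l) :
    D.Q l < D.Q (l + Pi.single i 1) := by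
  rw [h.qf.polar]
  have h1 := B_nonneg h i hl
  have h2 := Q_single h i
  omega

/-- induction along `Q` -/
theorem ind (h : RDF D) {P : (Fin r → ℤ) → Prop} (hw : ∀ w ∈ D.W, ∀ l, P (w *ᵥ l) → P l)
    (h0 : ∀ l i, l i = 0 → P l) (h1 : P 1)
    (hs : ∀ i l, Reg l → P l → (∀ κ ∈ D.S i, κ ≠ Pi.single i 1 → P (l + κ)) →
      P (l + Pi.single i 1)) : ∀ l, P l := by
  have key : ∀ (n : ℕ) (l : Fin r → ℤ), (D.Q l).toNat = n → P l := by
    intro n
    induction n using Nat.strong_induction_on with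
    | _ n ih =>
      intro l hn
      obtain ⟨w, hwW, hpos⟩ := h.str l
      apply hw w hwW
      by_cases hz : ∃ i, (w *ᵥ l) i = 0
      · obtain ⟨i, hi⟩ := hz
        exact h0 _ i hi
      have hreg : Reg (w *ᵥ l) := by
        intro i
        have h2 := hpos i
        have h3 : (w *ᵥ l) i ≠ 0 := fun h3 => hz ⟨i, h3⟩
        omega
      have hQ : D.Q (w *ᵥ l) = D.Q l := h.Q_W w hwW l
      generalize hm : w *ᵥ l = m at hreg hQ
      by_cases hm1 : m = 1
      · rw [hm1]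
        exact h1
      obtain ⟨i, hi⟩ : ∃ i, 2 ≤ m i := by
        by_contra hno
        apply hm1
        funext i
        have h2 := hreg i
        have h3 : ¬ 2 ≤ m i := fun h3 => hno ⟨i, h3⟩
        rw [Pi.one_apply]
        omega
      set l' : Fin r → ℤ := m - Pi.single i 1 with hl'
      have hml : m = l' + Pi.single i 1 := by rw [hl', sub_add_cancel]
      have hreg' : Reg l' := by
        intro j
        rw [hl', Pi.sub_apply]
        by_cases hj : j = i
        · subst hj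
          rw [Pi.single_eq_same]
          omega
        · rw [Pi.single_eq_of_ne hj]
          have := hreg j
          omega
      have hQm : D.Q (l' + Pi.single i 1) = D.Q l := by rw [← hml, hQ]
      have hlt : ∀ l'', D.Q l'' < D.Q (l' + Pi.single i 1) → P l'' := by
        intro l'' h2
        refine ih (D.Q l'').toNat ?_ l'' rfl
        have h3 := Q_nonneg h l''
        rw [hQm] at h2
        omega
      rw [hml]
      exact hs i l' hreg' (hlt l' (Q_step h i hreg'))
        fun κ hκ hne => hlt _ (h.lt i l' hreg' κ hκ hne)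
  intro l
  exact key _ l rfl

/-- the rule, solved for the top term -/
theorem rule' (h : RDF D) (i : Fin r) (x : Fin r → ℂ) (l : Fin r → ℤ) :
    D.ψ x (l + Pi.single i 1) = x i * D.ψ x l -
      ∑ κ ∈ (D.S i).erase (Pi.single i 1), (D.P i κ : ℂ) * D.ψ x (l + κ) := by
  rw [h.rule i x l, ← Finset.add_sum_erase _ _ (h.top i).1, (h.top i).2]
  push_cast
  ring

/-- evaluation of integer polynomials as functions -/
def ev (r : ℕ) : MvPolynomial (Fin r) ℤ →+* ((Fin r → ℂ) → ℂ) :=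
  RingHom.pi fun x => (MvPolynomial.aeval (R := ℤ) x).toRingHom

theorem ev_apply (F : MvPolynomial (Fin r) ℤ) (x : Fin r → ℂ) :
    ev r F x = MvPolynomial.aeval x F := rfl

theorem mem1 (h : RDF D) : ∀ l, (fun x => D.ψ x l) ∈ (ev r).range := by
  refine ind h (P := fun l => (fun x => D.ψ x l) ∈ (ev r).range) ?_ ?_ ?_ ?_
  · intro w hw l hl
    have h1 : (fun x => D.ψ x l) = ((w.det : ℤ) : (Fin r → ℂ) → ℂ) * fun x => D.ψ x (w *ᵥ l) := by
      funext x
      rw [Pi.mul_apply, psi_eq h hw]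
      rfl
    rw [h1]
    exact Subring.mul_mem _ (intCast_mem _ _) hl
  · intro l i hi
    have h1 : (fun x => D.ψ x l) = 0 := by
      funext x
      exact h.wall x l i hi
    rw [h1]
    exact Subring.zero_mem _
  · have h1 : (fun x => D.ψ x 1) = 1 := by
      funext x
      exact h.one x
    rw [h1]
    exact Subring.one_mem _
  · intro i l _ hl hκ
    have h1 : (fun x => D.ψ x (l + Pi.single i 1)) =
        (fun x => x i) * (fun x => D.ψ x l) -
          ∑ κ ∈ (D.S i).erase (Pi.single i 1),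
            ((D.P i κ : ℤ) : (Fin r → ℂ) → ℂ) * fun x => D.ψ x (l + κ) := by
      funext x
      rw [rule' h, Pi.sub_apply, Pi.mul_apply, Finset.sum_apply]
      rfl
    rw [h1]
    refine Subring.sub_mem _ (Subring.mul_mem _ ⟨MvPolynomial.X i, ?_⟩ hl) ?_
    · funext x
      rw [ev_apply, MvPolynomial.aeval_X]
    · refine Subring.sum_mem _ fun κ hm => Subring.mul_mem _ (intCast_mem _ _) ?_
      exact hκ κ (Finset.mem_of_mem_erase hm) (Finset.ne_of_mem_erase hm)

theorem part1 (h : RDF D) (l : Fin r → ℤ) :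
    ∃ F : MvPolynomial (Fin r) ℤ, ∀ x, D.ψ x l = MvPolynomial.aeval x F := by
  obtain ⟨F, hF⟩ := mem1 h l
  exact ⟨F, fun x => (congrFun hF x).symm⟩

/-- integer combinations of the functions `ψ l`, `l` regular -/
def M2 (D : RD r) : Submodule ℤ ((Fin r → ℂ) → ℂ) :=
  Submodule.span ℤ (Set.range fun l : {l : Fin r → ℤ // Reg l} => fun x => D.ψ x l.1)

theorem psi_mem2 (h : RDF D) (l : Fin r → ℤ) : (fun x => D.ψ x l) ∈ M2 D := by
  obtain ⟨w, hw, hpos⟩ := h.str l
  by_cases hz : ∃ i, (w *ᵥ l) i = 0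
  · obtain ⟨i, hi⟩ := hz
    have h1 : (fun x => D.ψ x l) = 0 := by
      funext x
      rw [psi_eq h hw, h.wall x _ i hi, mul_zero]
      rfl
    rw [h1]
    exact Submodule.zero_mem _
  · have hreg : Reg (w *ᵥ l) := by
      intro i
      have h2 := hpos i
      have h3 : (w *ᵥ l) i ≠ 0 := fun h3 => hz ⟨i, h3⟩
      omega
    have h1 : (fun x => D.ψ x l) = w.det • fun x => D.ψ x (w *ᵥ l) := by
      funext x
      rw [psi_eq h hw, Pi.smul_apply, zsmul_eq_mul]
    rw [h1]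
    exact Submodule.smul_mem _ _ (Submodule.subset_span ⟨⟨_, hreg⟩, rfl⟩)

theorem mul_mem2 (h : RDF D) (i : Fin r) {f : (Fin r → ℂ) → ℂ} (hf : f ∈ M2 D) :
    (fun x => f x * x i) ∈ M2 D := by
  unfold M2 at hf
  induction hf using Submodule.span_induction with
  | mem f hf =>
    obtain ⟨l, rfl⟩ := hf
    have h1 : (fun x : Fin r → ℂ => D.ψ x l.1 * x i) =
        ∑ κ ∈ D.S i, D.P i κ • fun x => D.ψ x (l.1 + κ) := by
      funext x
      rw [mul_comm, h.rule, Finset.sum_apply]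
      refine Finset.sum_congr rfl fun κ _ => ?_
      rw [Pi.smul_apply, zsmul_eq_mul]
    show (fun x : Fin r → ℂ => D.ψ x l.1 * x i) ∈ M2 D
    rw [h1]
    exact Submodule.sum_mem _ fun κ _ => Submodule.smul_mem _ _ (psi_mem2 h _)
  | zero =>
    have h1 : (fun x : Fin r → ℂ => (0 : (Fin r → ℂ) → ℂ) x * x i) = 0 := by
      funext x
      simp
    rw [h1]
    exact Submodule.zero_mem _
  | add f g _ _ hf hg =>
    have h1 : (fun x : Fin r → ℂ => (f + g) x * x i) =
        (fun x => f x * x i) + fun x => g x * x i := by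
      funext x
      simp only [Pi.add_apply]
      ring
    rw [h1]
    exact Submodule.add_mem _ hf hg
  | smul c f _ hf =>
    have h1 : (fun x : Fin r → ℂ => (c • f) x * x i) = c • fun x => f x * x i := by
      funext x
      simp only [Pi.smul_apply, zsmul_eq_mul]
      ring
    rw [h1]
    exact Submodule.smul_mem _ _ hf

theorem ev_mem2 (h : RDF D) (F : MvPolynomial (Fin r) ℤ) : ev r F ∈ M2 D := by
  induction F using MvPolynomial.induction_on with
  | C a =>
    have h1 : ev r (MvPolynomial.C a) = a • fun x => D.ψ x 1 := by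
      funext x
      rw [ev_apply, MvPolynomial.aeval_C, Pi.smul_apply, h.one, zsmul_eq_mul, mul_one]
      simp
    rw [h1]
    exact Submodule.smul_mem _ _ (psi_mem2 h 1)
  | add p q hp hq =>
    rw [map_add]
    exact Submodule.add_mem _ hp hq
  | mul_X p i hp =>
    have h1 : ev r (p * MvPolynomial.X i) = fun x => ev r p x * x i := by
      funext x
      rw [ev_apply, map_mul, MvPolynomial.aeval_X, ev_apply]
    rw [h1]
    exact mul_mem2 h i hp

theorem part2 (h : RDF D) (F : MvPolynomial (Fin r) ℤ) :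
    ∃ (T : Finset (Fin r → ℤ)) (n : (Fin r → ℤ) → ℤ), (∀ l ∈ T, Reg l) ∧
      ∀ x : Fin r → ℂ, MvPolynomial.aeval x F = ∑ l ∈ T, (n l : ℂ) * D.ψ x l := by
  classical
  obtain ⟨c, hc⟩ := Finsupp.mem_span_range_iff_exists_finsupp.1 (ev_mem2 h F)
  refine ⟨c.support.map (Function.Embedding.subtype _),
    fun l => if hl : Reg l then c ⟨l, hl⟩ else 0, ?_, fun x => ?_⟩
  · intro l hl
    obtain ⟨m, _, rfl⟩ := Finset.mem_map.1 hl
    exact m.2
  · rw [← ev_apply, ← hc, Finsupp.sum, Finset.sum_apply, Finset.sum_map]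
    refine Finset.sum_congr rfl fun l _ => ?_
    show _ = ((if hl : Reg l.1 then c ⟨l.1, hl⟩ else 0 : ℤ) : ℂ) * D.ψ x l.1
    rw [dif_pos l.2, Pi.smul_apply, zsmul_eq_mul]

theorem part3 (h : RDF D) (x : Fin r → ℂ) (l : Fin r → ℤ) :
    conj (D.ψ x l) = D.ψ (fun i => conj (x i)) l := by
  obtain ⟨F, hF⟩ := part1 h l
  rw [hF, hF, MvPolynomial.aeval_def, MvPolynomial.aeval_def, MvPolynomial.hom_eval₂]
  congr 1
  exact RingHom.ext_int _ _

/-- the element `w₀` -/
theorem w0_facts (h : RDF D) : ∃ w ∈ D.W, (∀ κ, w *ᵥ κ = -(κ ∘ D.st)) ∧ w * w = 1 := by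
  obtain ⟨w, hw, h1⟩ := h.w0
  refine ⟨w, hw, h1, ?_⟩
  have h2 : ∀ κ, (w * w) *ᵥ κ = (1 : Matrix (Fin r) (Fin r) ℤ) *ᵥ κ := by
    intro κ
    rw [← Matrix.mulVec_mulVec, h1, h1, Matrix.one_mulVec]
    funext i
    simp [h.st2]
  exact Matrix.mulVec_injective (funext h2)

theorem part4 (h : RDF D) : ∀ l x, D.ψ (x ∘ D.st) l = D.ψ x (l ∘ D.st) := by
  obtain ⟨w0, hw0, h1, h2⟩ := w0_facts h
  have hst : ∀ κ : Fin r → ℤ, κ ∘ D.st = -(w0 *ᵥ κ) := by
    intro κ
    rw [h1, neg_neg]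
  refine ind h (P := fun l => ∀ x, D.ψ (x ∘ D.st) l = D.ψ x (l ∘ D.st)) ?_ ?_ ?_ ?_
  · intro w hw l hl x
    have hw' : w0 * w * w0 ∈ D.W := h.W_mul _ (h.W_mul _ hw0 _ hw) _ hw0
    have h3 : (w *ᵥ l) ∘ D.st = (w0 * w * w0) *ᵥ (l ∘ D.st) := by
      rw [hst, hst, Matrix.mulVec_neg, Matrix.mulVec_mulVec, Matrix.mulVec_mulVec,
        mul_assoc (w0 * w), h2, mul_one]
    have h4 : (w0 * w * w0).det = w.det := by
      rw [Matrix.det_mul, Matrix.det_mul, mul_right_comm, det_sq h hw0, one_mul]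
    have h5 := hl x
    rw [h3, h.anti _ hw', h4, h.anti _ hw] at h5
    have h6 := congrArg (fun z => (w.det : ℂ) * z) h5
    simp only [← mul_assoc, det_sqC h hw, one_mul] at h6
    exact h6
  · intro l i hi x
    rw [h.wall _ l i hi, h.wall x (l ∘ D.st) (D.st i) (by
      rw [Function.comp_apply, h.st2]
      exact hi)]
  · intro x
    rw [h.one]
    exact (h.one x).symm
  · intro i l _ hl hκ x
    have h3 : x (D.st i) * D.ψ x (l ∘ D.st) =
        ∑ κ ∈ D.S i, (D.P i κ : ℂ) * D.ψ x ((l + κ) ∘ D.st) := by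
      rw [h.rule]
      symm
      refine Finset.sum_nbij' (fun κ => κ ∘ D.st) (fun κ => κ ∘ D.st) ?_ ?_ ?_ ?_ ?_
      · intro κ hm
        show κ ∘ D.st ∈ D.S (D.st i)
        rw [h.S_st, hst, neg_neg]
        exact h.S_W i w0 hw0 κ hm
      · intro κ hm
        show κ ∘ D.st ∈ D.S i
        rw [h.S_st] at hm
        have h4 := h.S_W i w0 hw0 _ hm
        rw [hst, ← Matrix.mulVec_neg]
        exact h4
      · intro κ _
        funext j
        simp [h.st2]
      · intro κ _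
        funext j
        simp [h.st2]
      · intro κ _
        have h4 : D.P (D.st i) (κ ∘ D.st) = D.P i κ := by
          rw [h.P_st, hst, neg_neg, h.P_W i w0 hw0]
        show (D.P i κ : ℂ) * D.ψ x ((l + κ) ∘ D.st) =
          (D.P (D.st i) (κ ∘ D.st) : ℂ) * D.ψ x (l ∘ D.st + κ ∘ D.st)
        rw [h4]
        rfl
    rw [rule' h, hl x, Function.comp_apply, h3, ← Finset.add_sum_erase _ _ (h.top i).1,
      (h.top i).2]
    have h5 : ∑ κ ∈ (D.S i).erase (Pi.single i 1), (D.P i κ : ℂ) * D.ψ (x ∘ D.st) (l + κ) =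
        ∑ κ ∈ (D.S i).erase (Pi.single i 1), (D.P i κ : ℂ) * D.ψ x ((l + κ) ∘ D.st) := by
      refine Finset.sum_congr rfl fun κ hm => ?_
      rw [hκ κ (Finset.mem_of_mem_erase hm) (Finset.ne_of_mem_erase hm) x]
    rw [h5]
    push_cast
    ring

end INTGG

open INTGG in
theorem t_INTGG : S_INTGG := by
  intro r D h
  exact ⟨part1 h, part2 h, part3 h, fun x l => part4 h l x⟩

end

end STZ
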