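import Pool.Agent.STZ.StmtsL

/-!
# STZ, INTM: the integral of the product of the powers of the minors
-/

namespace STZ

open MeasureTheory Matrix

open scoped ComplexConjugate Matrix Real ENNReal

namespace INTM

theorem cont_mnr (n j : ℕ) : Continuous fun g : SU n => mnr j g.1 := by
  unfold mnr
  refine Continuous.matrix_det ?_
  refine continuous_matrix fun a b => ?_
  simp only [Matrix.of_apply]
  exact (continuous_apply_apply a.1 b.1).comp continuous_subtype_val

theorem cont_F (n : ℕ) (s : ℝ) (hs : 0 < s) :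
    Continuous fun g : SU n => ∏ j ∈ Finset.range n, ‖mnr j g.1‖ ^ (2 * s) := by
  refine continuous_finsetProd _ fun j _ => ?_
  exact (cont_mnr n j).norm.rpow_const fun _ => Or.inr (by positivity)

theorem base (hE : S_EMB) (s : ℝ) (μ : Measure (SU 1)) [IsProbabilityMeasure μ] :
    ∫ g, ∏ j ∈ Finset.range 1, ‖mnr j g.1‖ ^ (2 * s) ∂μ = ((1 + s) ^ (1 * (1 - 1) / 2))⁻¹ := by
  have h : ∀ g : SU 1, ∏ j ∈ Finset.range 1, ‖mnr j g.1‖ ^ (2 * s) = 1 := by
    intro g
    rw [Finset.prod_range_one, (hE 1).zero g, norm_one, Real.one_rpow]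
  simp only [h]
  simp

theorem step (hH : S_HAAR) (hE : S_EMB) (hF : S_FIB) (hM : S_MOM) (n : ℕ) (hn : 1 ≤ n)
    (s : ℝ) (hs : 0 < s)
    (ih : ∀ (μ : Measure (SU n)) [IsProbabilityMeasure μ] [μ.IsMulLeftInvariant],
      ∫ g, ∏ j ∈ Finset.range n, ‖mnr j g.1‖ ^ (2 * s) ∂μ = ((1 + s) ^ (n * (n - 1) / 2))⁻¹)
    (μ : Measure (SU (n + 1))) [IsProbabilityMeasure μ] [μ.IsMulLeftInvariant] :
    ∫ g, ∏ j ∈ Finset.range (n + 1), ‖mnr j g.1‖ ^ (2 * s) ∂μ =
      ((1 + s) ^ ((n + 1) * (n + 1 - 1) / 2))⁻¹ := by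
  obtain ⟨hr, -, hhaar⟩ := hH (SU (n + 1)) μ
  let ν : Measure (SU n) := Measure.haarMeasure ⊤
  have hν : IsProbabilityMeasure ν := ⟨by
    have := Measure.haarMeasure_self (K₀ := (⊤ : TopologicalSpace.PositiveCompacts (SU n)))
    simpa using this⟩
  set Fn : SU (n + 1) → ℝ := fun g => ∏ j ∈ Finset.range (n + 1), ‖mnr j g.1‖ ^ (2 * s) with hFn
  have hcont : Continuous Fn := cont_F (n + 1) s hs
  have hemb : Continuous (emb : SU n → SU (n + 1)) := (hE n).cont
  have h1 : ∀ h : SU n, ∫ g, Fn (g * emb h) ∂μ = ∫ g, Fn g ∂μ := fun h =>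
    integral_mul_right_eq_self Fn (emb h)
  have hc2 : Continuous (Function.uncurry fun (h : SU n) (g : SU (n + 1)) => Fn (g * emb h)) := by
    refine hcont.comp ?_
    exact continuous_snd.mul (hemb.comp continuous_fst)
  have hint : Integrable (Function.uncurry fun (h : SU n) (g : SU (n + 1)) => Fn (g * emb h))
      (ν.prod μ) :=
    hc2.integrable_of_hasCompactSupport (HasCompactSupport.of_compactSpace _)
  calc ∫ g, Fn g ∂μ = ∫ h : SU n, (∫ g, Fn (g * emb h) ∂μ) ∂ν := by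
        simp only [h1]
        rw [integral_const]
        simp
    _ = ∫ g, (∫ h : SU n, Fn (g * emb h) ∂ν) ∂μ := integral_integral_swap hint
    _ = ∫ g, (∏ j ∈ Finset.Icc 1 n, T j (col g) ^ s) * ((1 + s) ^ (n * (n - 1) / 2))⁻¹ ∂μ := by
        refine integral_congr_ae (Filter.Eventually.of_forall fun g => ?_)
        change ∫ h : SU n, ∏ j ∈ Finset.range (n + 1), ‖mnr j (g * emb h).1‖ ^ (2 * s) ∂ν = _
        rw [hF n hn s hs ν g, ih ν]
    _ = ((1 + s) ^ n)⁻¹ * ((1 + s) ^ (n * (n - 1) / 2))⁻¹ := by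
        rw [integral_mul_const, hM n hn s hs.le μ]
    _ = ((1 + s) ^ ((n + 1) * (n + 1 - 1) / 2))⁻¹ := by
        rw [← mul_inv, ← pow_add]
        congr 2
        have h3 : (n + 1) * (n + 1 - 1) = n * (n - 1) + n * 2 := by
          obtain ⟨k, rfl⟩ : ∃ k, n = k + 1 := ⟨n - 1, by omega⟩
          simp only [Nat.add_sub_cancel]
          ring
        rw [h3, Nat.add_mul_div_right _ _ (by norm_num : 0 < 2)]
        ring

end INTM

theorem t_INTM : M_INTM := by
  intro hH hE hF hM n hn s hs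
  induction n, hn using Nat.le_induction with
  | base =>
    intro μ _ _
    exact INTM.base hE s μ
  | succ n hn ih =>
    intro μ _ _
    exact INTM.step hH hE hF hM n hn s hs ih μ

end STZ
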