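import Pool.Agent.STZ.StmtsY

/-!
# INTN: the integral of the powers of the distance from the centre
-/

namespace STZ

open MeasureTheory Matrix

open scoped ComplexConjugate Matrix Real

noncomputable section

namespace INTN

theorem nd_eq (θ : ℝ) : nd θ = ‖(θ : UnitAddCircle)‖ := by
  rw [nd, UnitAddCircle.norm_eq]

theorem nd_cont : Continuous nd := by
  have h : nd = fun θ : ℝ => ‖(θ : UnitAddCircle)‖ := funext nd_eq
  rw [h]
  exact continuous_norm.comp (AddCircle.continuous_mk' 1)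

theorem nd_nonneg (θ : ℝ) : 0 ≤ nd θ := abs_nonneg _

theorem nd_add_int (θ : ℝ) (n : ℤ) : nd (θ + n) = nd θ := by
  unfold nd
  rw [round_add_intCast]
  push_cast
  congr 1
  ring

/-- on the unit interval one of the end points is at the distance `nd` or less -/
theorem nd_or {y : ℝ} (h0 : 0 ≤ y) (h1 : y ≤ 1) : y ≤ nd y ∨ 1 - y ≤ nd y := by
  unfold nd
  rcases le_or_gt (round y) 0 with h | h
  · left
    have h2 : ((round y : ℤ) : ℝ) ≤ 0 := by exact_mod_cast h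
    rw [abs_of_nonneg (by linarith)]
    linarith
  · right
    have h2 : (1 : ℝ) ≤ ((round y : ℤ) : ℝ) := by exact_mod_cast h
    rw [abs_of_nonpos (by linarith)]
    linarith

theorem dz_cont {r : ℕ} (κ : Fin r → ℤ) : Continuous (dz κ) := by
  unfold dz
  fun_prop

theorem nz_cont {r : ℕ} (P : RT r) : Continuous (nz P) := by
  unfold nz
  exact continuous_finsetSum _ fun p _ => nd_cont.comp (dz_cont p.1)

theorem nz_nonneg {r : ℕ} (P : RT r) (θ : Fin r → ℝ) : 0 ≤ nz P θ :=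
  Finset.sum_nonneg fun _ _ => nd_nonneg _

/-- the weight in one variable -/
def wt (M : ℕ) (y : ℝ) : ℝ := 1 / (1 + M * nd y) ^ 2

theorem den_pos (M : ℕ) {x : ℝ} (hx : 0 ≤ x) : 0 < 1 + (M : ℝ) * x := by positivity

theorem wt_cont (M : ℕ) : Continuous (wt M) := by
  unfold wt
  refine continuous_const.div ((continuous_const.add (continuous_const.mul nd_cont)).pow 2) fun y => ?_
  exact pow_ne_zero _ (den_pos M (nd_nonneg y)).ne'

theorem wt_nonneg (M : ℕ) (y : ℝ) : 0 ≤ wt M y := by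
  unfold wt
  positivity

/-- the primitive -/
theorem int_one (M : ℕ) (hM : 1 ≤ M) :
    ∫ y in (0 : ℝ)..1, (1 : ℝ) / (1 + (M : ℝ) * y) ^ 2 ≤ 1 / (M : ℝ) := by
  have hM' : (1 : ℝ) ≤ M := by exact_mod_cast hM
  have hM0 : (0 : ℝ) < M := by linarith
  have h1 : ∀ y ∈ Set.uIcc (0 : ℝ) 1,
      HasDerivAt (fun y : ℝ => -(1 / (M : ℝ)) * (1 + (M : ℝ) * y)⁻¹) (1 / (1 + (M : ℝ) * y) ^ 2) y := by
    intro y hy
    rw [Set.uIcc_of_le zero_le_one] at hy
    have hy0 : 0 < 1 + (M : ℝ) * y := den_pos M hy.1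
    have h2 : HasDerivAt (fun y : ℝ => 1 + (M : ℝ) * y) (M : ℝ) y := by
      simpa using ((hasDerivAt_id y).const_mul (M : ℝ)).const_add 1
    have h3 := (h2.inv hy0.ne').const_mul (-(1 / (M : ℝ)))
    have hM1 : (M : ℝ) ≠ 0 := hM0.ne'
    have h5 : -(1 / (M : ℝ)) * (-(M : ℝ) / (1 + (M : ℝ) * y) ^ 2) = 1 / (1 + (M : ℝ) * y) ^ 2 := by
      rw [neg_div, neg_mul_neg, one_div, ← mul_div_assoc, inv_mul_cancel₀ hM1]
    rw [h5] at h3
    exact h3
  have h4 : IntervalIntegrable (fun y : ℝ => 1 / (1 + (M : ℝ) * y) ^ 2) volume 0 1 := by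
    refine ContinuousOn.intervalIntegrable ?_
    rw [Set.uIcc_of_le zero_le_one]
    refine continuousOn_const.div (by fun_prop) fun y hy => ?_
    exact pow_ne_zero _ (den_pos M hy.1).ne'
  rw [intervalIntegral.integral_eq_sub_of_hasDerivAt h1 h4]
  have h5 : 0 ≤ 1 / (M : ℝ) * (1 + (M : ℝ) * 1)⁻¹ := by positivity
  have h6 : -(1 / (M : ℝ)) * (1 + (M : ℝ) * 0)⁻¹ = -(1 / (M : ℝ)) := by
    rw [mul_zero, add_zero, inv_one, mul_one]
  rw [h6]
  linarith

theorem wt_le (M : ℕ) {y : ℝ} (h0 : 0 ≤ y) (h1 : y ≤ 1) :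
    wt M y ≤ 1 / (1 + (M : ℝ) * y) ^ 2 + 1 / (1 + (M : ℝ) * (1 - y)) ^ 2 := by
  have hM : (0 : ℝ) ≤ M := Nat.cast_nonneg M
  have a0 : 0 < 1 + (M : ℝ) * y := den_pos M h0
  have a1 : 0 < 1 + (M : ℝ) * (1 - y) := den_pos M (by linarith)
  have key : ∀ z : ℝ, 0 < 1 + (M : ℝ) * z → z ≤ nd y → wt M y ≤ 1 / (1 + (M : ℝ) * z) ^ 2 := by
    intro z hz hzy
    unfold wt
    have h2 : 1 + (M : ℝ) * z ≤ 1 + (M : ℝ) * nd y := by
      have := mul_le_mul_of_nonneg_left hzy hM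
      linarith
    exact one_div_le_one_div_of_le (by positivity) (pow_le_pow_left₀ hz.le h2 2)
  rcases nd_or h0 h1 with h | h
  · have h3 := key y a0 h
    have h4 : 0 ≤ 1 / (1 + (M : ℝ) * (1 - y)) ^ 2 := by positivity
    linarith
  · have h3 := key (1 - y) a1 h
    have h4 : 0 ≤ 1 / (1 + (M : ℝ) * y) ^ 2 := by positivity
    linarith

/-- the integral in one variable -/
theorem int_wt (M : ℕ) (hM : 1 ≤ M) : ∫ y in Set.Icc (0 : ℝ) 1, wt M y ≤ 2 / (M : ℝ) := by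
  rw [integral_Icc_eq_integral_Ioc, ← intervalIntegral.integral_of_le zero_le_one]
  have hc : IntervalIntegrable (fun y : ℝ => 1 / (1 + (M : ℝ) * y) ^ 2) volume 0 1 := by
    refine ContinuousOn.intervalIntegrable ?_
    rw [Set.uIcc_of_le zero_le_one]
    refine continuousOn_const.div (by fun_prop) fun y hy => ?_
    exact pow_ne_zero _ (den_pos M hy.1).ne'
  have hd : IntervalIntegrable (fun y : ℝ => 1 / (1 + (M : ℝ) * (1 - y)) ^ 2) volume 0 1 := by
    refine ContinuousOn.intervalIntegrable ?_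
    rw [Set.uIcc_of_le zero_le_one]
    refine continuousOn_const.div (by fun_prop) fun y hy => ?_
    exact pow_ne_zero _ (den_pos M (by linarith [hy.2])).ne'
  have h1 : ∫ y in (0 : ℝ)..1, wt M y ≤
      ∫ y in (0 : ℝ)..1, (1 / (1 + (M : ℝ) * y) ^ 2 + 1 / (1 + (M : ℝ) * (1 - y)) ^ 2) := by
    refine intervalIntegral.integral_mono_on zero_le_one ((wt_cont M).intervalIntegrable 0 1)
      (hc.add hd) fun y hy => wt_le M hy.1 hy.2
  have h2 : ∫ y in (0 : ℝ)..1, 1 / (1 + (M : ℝ) * (1 - y)) ^ 2 =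
      ∫ y in (0 : ℝ)..1, 1 / (1 + (M : ℝ) * y) ^ 2 := by
    have h3 := intervalIntegral.integral_comp_sub_left (a := 0) (b := 1)
      (fun y : ℝ => 1 / (1 + (M : ℝ) * y) ^ 2) (1 : ℝ)
    rw [h3, sub_self, sub_zero]
  rw [intervalIntegral.integral_add hc hd, h2] at h1
  have h4 := int_one M hM
  have h5 : (2 : ℝ) / M = 1 / M + 1 / M := by ring
  rw [h5]
  linarith

/-- the measure on the cube is a product measure -/
theorem int_prod {r : ℕ} (f : ℝ → ℝ) :
    ∫ θ in Set.Icc (0 : Fin r → ℝ) 1, ∏ i, f (θ i) = (∫ y in Set.Icc (0 : ℝ) 1, f y) ^ r := by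
  have h1 : (volume : Measure (Fin r → ℝ)).restrict (Set.Icc (0 : Fin r → ℝ) 1) =
      Measure.pi fun _ => (volume : Measure ℝ).restrict (Set.Icc (0 : ℝ) 1) := by
    have h2 : Set.Icc (0 : Fin r → ℝ) 1 = Set.univ.pi fun _ => Set.Icc (0 : ℝ) 1 := by
      rw [Set.pi_univ_Icc]
      rfl
    rw [h2, volume_pi, Measure.restrict_pi_pi]
  rw [h1, integral_fintype_prod_eq_pow (ι := Fin r) f, Fintype.card_fin]

/-- the pointwise bound -/
theorem bnd {r : ℕ} {D : RD r} {P : RT r} {B : Matrix (Fin r) (Fin r) ℤ} {h : ℕ}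
    (hP : RTD D P B h) (M k : ℕ) (hM : 1 ≤ M) (hk : k ≤ r + P.card) (θ : Fin r → ℝ) :
    nz P θ ^ k / (1 + M * nz P θ) ^ (2 * (2 * r + P.card)) ≤
      1 / (M : ℝ) ^ k * ∏ i, wt M (dz (B i) θ) := by
  have hM' : (1 : ℝ) ≤ M := by exact_mod_cast hM
  have hM0 : (0 : ℝ) < M := by linarith
  have hz := nz_nonneg P θ
  set z := nz P θ with hzd
  have hA1 : 1 ≤ 1 + (M : ℝ) * z := by
    have : 0 ≤ (M : ℝ) * z := by positivity
    linarith
  set A := 1 + (M : ℝ) * z with hA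
  have hA0 : 0 < A := by linarith
  have h1 : z ^ k ≤ 1 / (M : ℝ) ^ k * A ^ k := by
    have h2 : ((M : ℝ) * z) ^ k ≤ A ^ k :=
      pow_le_pow_left₀ (by positivity) (by rw [hA]; linarith) k
    rw [mul_pow] at h2
    rw [one_div, inv_mul_eq_div, le_div_iff₀ (by positivity), mul_comm]
    exact h2
  have h3 : A ^ k / A ^ (2 * (2 * r + P.card)) ≤ 1 / A ^ (2 * r) := by
    rw [div_le_div_iff₀ (by positivity) (by positivity), one_mul, ← pow_add]
    exact pow_le_pow_right₀ hA1 (by omega)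
  have h4 : 1 / A ^ (2 * r) ≤ ∏ i, wt M (dz (B i) θ) := by
    have h5 : 1 / A ^ (2 * r) = ∏ _i : Fin r, 1 / A ^ 2 := by
      rw [Finset.prod_const, Finset.card_univ, Fintype.card_fin, _root_.one_div_pow, ← pow_mul]
    rw [h5]
    refine Finset.prod_le_prod (fun i _ => by positivity) fun i _ => ?_
    unfold wt
    obtain ⟨p, hp, hpi⟩ := hP.bmem i
    have h6 : nd (dz (B i) θ) ≤ z := by
      rw [← hpi]
      exact Finset.single_le_sum (f := fun p : (Fin r → ℤ) × (Fin r → ℤ) => nd (dz p.1 θ))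
        (fun _ _ => nd_nonneg _) hp
    have h7 : 0 < 1 + (M : ℝ) * nd (dz (B i) θ) := den_pos M (nd_nonneg _)
    refine one_div_le_one_div_of_le (by positivity) (pow_le_pow_left₀ h7.le ?_ 2)
    have := mul_le_mul_of_nonneg_left h6 hM0.le
    rw [hA]
    linarith
  calc z ^ k / A ^ (2 * (2 * r + P.card))
      ≤ 1 / (M : ℝ) ^ k * A ^ k / A ^ (2 * (2 * r + P.card)) :=
        div_le_div_of_nonneg_right h1 (by positivity)
    _ = 1 / (M : ℝ) ^ k * (A ^ k / A ^ (2 * (2 * r + P.card))) := by rw [mul_div_assoc]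
    _ ≤ 1 / (M : ℝ) ^ k * ∏ i, wt M (dz (B i) θ) :=
        mul_le_mul_of_nonneg_left (h3.trans h4) (by positivity)

end INTN

open INTN

theorem t_INTN : M_INTN := by
  intro hT r D P B h _ hP
  refine ⟨2 ^ r, by positivity, fun M k hM hk => ?_⟩
  have hM' : (1 : ℝ) ≤ M := by exact_mod_cast hM
  have hM0 : (0 : ℝ) < M := by linarith
  have hg : Continuous fun θ : Fin r → ℝ => ∏ i, wt M (θ i) :=
    continuous_finsetProd _ fun i _ => (wt_cont M).comp (continuous_apply i)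
  have hper : ∀ (θ : Fin r → ℝ) (n : Fin r → ℤ),
      (fun θ : Fin r → ℝ => ∏ i, wt M (θ i)) (fun i => θ i + n i) =
        (fun θ : Fin r → ℝ => ∏ i, wt M (θ i)) θ := by
    intro θ n
    refine Finset.prod_congr rfl fun i _ => ?_
    unfold wt
    rw [nd_add_int]
  have h1 := hT r B hP.bas (fun θ : Fin r → ℝ => ∏ i, wt M (θ i)) hg hper
  have h2 := int_prod (r := r) (wt M)
  have hgc : Continuous fun θ : Fin r → ℝ => ∏ i, wt M (dz (B i) θ) :=
    continuous_finsetProd _ fun i _ => (wt_cont M).comp (dz_cont (B i))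
  have hfc : Continuous fun θ : Fin r → ℝ =>
      nz P θ ^ k / (1 + M * nz P θ) ^ (2 * (2 * r + P.card)) := by
    refine ((nz_cont P).pow k).div
      ((continuous_const.add (continuous_const.mul (nz_cont P))).pow _) fun θ => ?_
    exact pow_ne_zero _ (den_pos M (nz_nonneg P θ)).ne'
  have hK : IsCompact (Set.Icc (0 : Fin r → ℝ) 1) := isCompact_Icc
  have h3 : ∫ θ in Set.Icc (0 : Fin r → ℝ) 1,
      nz P θ ^ k / (1 + M * nz P θ) ^ (2 * (2 * r + P.card)) ≤
      ∫ θ in Set.Icc (0 : Fin r → ℝ) 1, 1 / (M : ℝ) ^ k * ∏ i, wt M (dz (B i) θ) := by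
    refine integral_mono (hfc.continuousOn.integrableOn_compact hK)
      ((continuous_const.mul hgc).continuousOn.integrableOn_compact hK) fun θ => ?_
    exact bnd hP M k hM hk θ
  have h4 : ∫ θ in Set.Icc (0 : Fin r → ℝ) 1, ∏ i, wt M (dz (B i) θ) ≤ (2 / (M : ℝ)) ^ r := by
    have h5 : ∫ θ in Set.Icc (0 : Fin r → ℝ) 1, ∏ i, wt M (dz (B i) θ) =
        (∫ y in Set.Icc (0 : ℝ) 1, wt M y) ^ r := h1.trans h2
    rw [h5]
    exact pow_le_pow_left₀ (integral_nonneg fun y => wt_nonneg M y) (int_wt M hM) r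
  rw [integral_const_mul] at h3
  refine h3.trans ((mul_le_mul_of_nonneg_left h4 (by positivity)).trans (le_of_eq ?_))
  rw [div_pow, pow_add]
  field_simp

end

end STZ
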