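import Pool.Agent.STZ.StmtsS

/-!
# Module IRR3: the irreducible characters of `SU(3)`
-/

namespace STZ

open MeasureTheory Matrix

open scoped ComplexConjugate Matrix Real

noncomputable section

namespace IRR3

/-- change of the index set of a representation -/
def reidx {G : Type} [Group G] [TopologicalSpace G] {ι κ : Type} [Fintype ι] [DecidableEq ι]
    [Fintype κ] [DecidableEq κ] (R : Rep G ι) (e : κ ≃ ι) : Rep G κ where
  ρ :=
    { toFun := fun g => (R.ρ g).submatrix e e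
      map_one' := by
        rw [map_one]
        exact Matrix.submatrix_one_equiv e
      map_mul' := by
        intro g h
        rw [map_mul]
        exact (Matrix.submatrix_mul_equiv (R.ρ g) (R.ρ h) e e e).symm }
  cont := R.cont.matrix_submatrix e e
  unit := by
    intro g
    show (R.ρ g⁻¹).submatrix e e = ((R.ρ g).submatrix e e)ᴴ
    rw [R.unit g, Matrix.conjTranspose_submatrix]

theorem reidx_ch {G : Type} [Group G] [TopologicalSpace G] {ι κ : Type} [Fintype ι] [DecidableEq ι]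
    [Fintype κ] [DecidableEq κ] (R : Rep G ι) (e : κ ≃ ι) (g : G) : (reidx R e).ch g = R.ch g := by
  show ∑ i, R.ρ g (e i) (e i) = ∑ i, R.ρ g i i
  exact e.sum_comp fun i => R.ρ g i i

/-- the monomials in the trace and its conjugate are characters -/
theorem mono (hT : S_TENS) (i j : ℕ) : ∃ (N : ℕ) (R : Rep (SU 3) (Fin N)),
    ∀ g, R.ch g = tg g ^ i * conj (tg g) ^ j := by
  obtain ⟨R, -, hR⟩ := hT 3 i j
  refine ⟨_, reidx R (Fintype.equivFin ((Fin i → Fin 3) × (Fin j → Fin 3))).symm, fun g => ?_⟩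
  rw [reidx_ch, hR]
  rfl

theorem tg_one : tg 1 = 3 := by
  show ((1 : Matrix (Fin 3) (Fin 3) ℂ)).trace = 3
  rw [Matrix.trace_one, Fintype.card_fin]
  norm_num

end IRR3

open IRR3 in
theorem t_IRR3 : M_IRR3 := by
  intro hV hT hA hO hI μ _ _
  refine ⟨fun a => ?_, fun a b hab => ?_⟩
  · obtain ⟨s, n, hn⟩ := hI.1 a.1 a.2
    choose N R hR using fun k : ℕ × ℕ => mono hT k.1 k.2
    obtain ⟨e⟩ : Nonempty (Fin s.card ≃ s) := ⟨s.equivFin.symm⟩
    have hsum : ∀ g, ∑ k : Fin s.card, (n (e k) : ℂ) * (R (e k)).ch g = c3 a g := by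
      intro g
      have h1 : ∑ k : Fin s.card, (n (e k) : ℂ) * (R (e k)).ch g =
          ∑ k : s, (n k : ℂ) * (R k).ch g :=
        e.sum_comp fun k : s => (n k : ℂ) * (R k).ch g
      rw [h1, Finset.sum_coe_sort s fun k : ℕ × ℕ => (n k : ℂ) * (R k).ch g]
      have h2 : c3 a g = ps (tg g) (conj (tg g)) (a.1 + 1) (a.2 + 1) := rfl
      rw [h2, hn]
      exact Finset.sum_congr rfl fun k _ => by rw [hR]
    have hnorm : ∫ g, ‖∑ k : Fin s.card, (n (e k) : ℂ) * (R (e k)).ch g‖ ^ 2 ∂μ = 1 := by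
      have h1 : ∀ g, ‖∑ k : Fin s.card, (n (e k) : ℂ) * (R (e k)).ch g‖ ^ 2 = ‖c3 a g‖ ^ 2 :=
        fun g => by rw [hsum]
      simp only [h1]
      have h2 := hO μ a a
      rw [if_pos rfl] at h2
      have h3 : ∀ g, c3 a g * conj (c3 a g) = ((‖c3 a g‖ ^ 2 : ℝ) : ℂ) := by
        intro g
        rw [Complex.mul_conj']
        push_cast
        rfl
      simp only [h3] at h2
      rw [integral_complex_ofReal] at h2
      exact_mod_cast h2
    have hpos : 0 < (∑ k : Fin s.card, (n (e k) : ℂ) * (R (e k)).ch 1).re := by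
      rw [hsum]
      have h1 : c3 a 1 = ps 3 3 ((a.1 + 1 : ℕ) : ℤ) ((a.2 + 1 : ℕ) : ℤ) := by
        have h2 : c3 a 1 = ps (tg 1) (conj (tg 1)) (a.1 + 1) (a.2 + 1) := rfl
        rw [h2, tg_one]
        have h3 : conj (3 : ℂ) = 3 := Complex.conj_ofNat 3
        rw [h3]
        push_cast
        rfl
      have hD : ∀ p q : ℕ, ps 3 3 p q = p * q * (p + q) / 2 := hA.dim
      rw [h1, hD]
      have h4 : (((a.1 + 1 : ℕ) : ℂ) * ((a.2 + 1 : ℕ) : ℂ) *
          (((a.1 + 1 : ℕ) : ℂ) + ((a.2 + 1 : ℕ) : ℂ)) / 2) =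
          (((((a.1 + 1 : ℕ) : ℝ) * ((a.2 + 1 : ℕ) : ℝ) *
          (((a.1 + 1 : ℕ) : ℝ) + ((a.2 + 1 : ℕ) : ℝ)) / 2 : ℝ)) : ℂ) := by
        push_cast
        rfl
      rw [h4, Complex.ofReal_re]
      positivity
    obtain ⟨d, σ, hσ, hch⟩ := hV (SU 3) μ s.card (fun k => N (e k)) (fun k => R (e k))
      (fun k => n (e k)) hnorm hpos
    exact ⟨d, σ, hσ, fun g => (hch g).trans (hsum g)⟩
  · by_contra hc
    push Not at hc
    have h1 := hO μ a b
    rw [if_neg hab] at h1
    have h2 := hO μ a a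
    rw [if_pos rfl] at h2
    simp only [← hc] at h1
    rw [h2] at h1
    exact one_ne_zero h1

end

end STZ
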