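import Pool.Agent.STZ.StmtsY

/-!
# Module IRRX: the irreducible characters of a subgroup with combinatorial data
-/

namespace STZ

open MeasureTheory Matrix

open scoped ComplexConjugate Matrix Real

noncomputable section

namespace IRRX

theorem vc_aeval (hR : S_VRING) {G : Type} [Group G] [TopologicalSpace G] {r : ℕ}
    (x : Fin r → G → ℂ) (hx : ∀ i, VC (x i)) (F : MvPolynomial (Fin r) ℤ) :
    VC (fun g => MvPolynomial.aeval (fun i => x i g) F) := by
  obtain ⟨h1, h2, h3, -, -⟩ := hR G
  induction F using MvPolynomial.induction_on with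
  | C n =>
    have h := h1 n
    have e : (fun g : G => MvPolynomial.aeval (fun i => x i g) (MvPolynomial.C n)) =
        fun _ => (n : ℂ) := by
      funext g
      rw [MvPolynomial.aeval_C]
      exact eq_intCast _ n
    rw [e]
    exact h
  | add p q hp hq =>
    have h := h2 _ _ hp hq
    have e : (fun g : G => MvPolynomial.aeval (fun i => x i g) (p + q)) =
        fun g => MvPolynomial.aeval (fun i => x i g) p + MvPolynomial.aeval (fun i => x i g) q := by
      funext g
      rw [map_add]
    rw [e]
    exact h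
  | mul_X p i hp =>
    have h := h3 _ _ hp (hx i)
    have e : (fun g : G => MvPolynomial.aeval (fun i => x i g) (p * MvPolynomial.X i)) =
        fun g => MvPolynomial.aeval (fun i => x i g) p * x i g := by
      funext g
      rw [map_mul, MvPolynomial.aeval_X]
    rw [e]
    exact h

theorem reg_wG {r : ℕ} (a : Fin r → ℕ) : Reg (wG a) := by
  intro i
  unfold wG
  omega

theorem wG_inj {r : ℕ} {a b : Fin r → ℕ} (h : wG a = wG b) : a = b := by
  funext i
  have := congrFun h i
  unfold wG at this
  omega

end IRRX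

open IRRX in
theorem t_IRRX : M_IRRX := by
  intro hV hR hI hO N H c d r D x k hD hG μ _ _
  have hO' := hO N H c d r D x k hD hG μ
  refine ⟨fun a => ?_, fun a b hab => ?_⟩
  · obtain ⟨F, hF⟩ := (hI r D hD).1 (wG a)
    have hvc := vc_aeval hR x hG.virt F
    obtain ⟨m, M, R, n, hn⟩ := hvc
    have hsum : ∀ g, ∑ j, (n j : ℂ) * (R j).ch g = cG D x a g := by
      intro g
      rw [← hn g]
      exact (hF _).symm
    have hnorm : ∫ g, ‖∑ j, (n j : ℂ) * (R j).ch g‖ ^ 2 ∂μ = 1 := by
      have h1 : ∀ g, ‖∑ j, (n j : ℂ) * (R j).ch g‖ ^ 2 = ‖cG D x a g‖ ^ 2 :=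
        fun g => by rw [hsum]
      simp only [h1]
      have h2 := hO' (wG a) (wG a) (reg_wG a) (reg_wG a)
      rw [if_pos rfl] at h2
      have h3 : ∀ g, D.ψ (fun i => x i g) (wG a) * conj (D.ψ (fun i => x i g) (wG a)) =
          ((‖cG D x a g‖ ^ 2 : ℝ) : ℂ) := by
        intro g
        rw [Complex.mul_conj']
        push_cast
        rfl
      simp only [h3] at h2
      rw [integral_complex_ofReal] at h2
      exact_mod_cast h2
    have hpos : 0 < (∑ j, (n j : ℂ) * (R j).ch 1).re := by
      rw [hsum]
      have h1 : cG D x a 1 = D.dim (wG a) := by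
        have h2 : (fun i => x i (1 : H)) = D.ξ := funext hG.xone
        rw [cG, h2, hD.dim_eq]
      rw [h1, Complex.intCast_re]
      exact_mod_cast hD.dim_pos (wG a) (reg_wG a)
    have : CompactSpace H := isCompact_iff_compactSpace.1 hG.closed.isCompact
    have : SecondCountableTopology H :=
      TopologicalSpace.Subtype.secondCountableTopology (H : Set (SU N))
    obtain ⟨e, σ, hσ, hch⟩ := hV H μ m M R n hnorm hpos
    exact ⟨e, σ, hσ, fun g => (hch g).trans (hsum g)⟩
  · by_contra hc
    push Not at hc
    have h1 := hO' (wG a) (wG b) (reg_wG a) (reg_wG b)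
    rw [if_neg (fun h => hab (wG_inj h))] at h1
    have h2 := hO' (wG a) (wG a) (reg_wG a) (reg_wG a)
    rw [if_pos rfl] at h2
    have hc' : ∀ g, D.ψ (fun i => x i g) (wG a) = D.ψ (fun i => x i g) (wG b) := hc
    simp only [← hc'] at h1
    rw [h2] at h1
    exact one_ne_zero h1

end

end STZ
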