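import Pool.Agent.STZ.StmtsA

/-!
# STZ, module KB: elementary facts on reproducing kernels
-/

namespace STZ

open MeasureTheory Matrix

open scoped ComplexConjugate Matrix Real

noncomputable section

namespace KB

variable {M : Type} [TopologicalSpace M] [CompactSpace M] [T2Space M]
  [SecondCountableTopology M] [MeasurableSpace M] [BorelSpace M] (μ : Measure M)
  [IsProbabilityMeasure μ]

omit [T2Space M] [SecondCountableTopology M] in
theorem integ {f : M → ℂ} (hf : Continuous f) : Integrable f μ :=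
  hf.integrable_of_hasCompactSupport (HasCompactSupport.of_compactSpace f)

/-- the operator with kernel `k` -/
def op (k : M → M → ℂ) (u : M → ℂ) (x : M) : ℂ := ∫ y, k x y * u y ∂μ

theorem op_cont {k : M → M → ℂ} {u : M → ℂ} (hk : Continuous fun z : M × M => k z.1 z.2)
    (hu : Continuous u) : Continuous (op μ k u) := by
  have h1 : Continuous (Function.uncurry fun x y => k x y * u y) :=
    hk.mul (hu.comp continuous_snd)
  have := continuous_parametric_integral_of_continuous (μ := μ) h1 isCompact_univ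
  rw [Measure.restrict_univ] at this
  exact this

theorem row_cont {k : M → M → ℂ} (hk : Continuous fun z : M × M => k z.1 z.2) (x : M) :
    Continuous fun y => k x y :=
  hk.comp (continuous_const.prodMk continuous_id)

theorem swap {f : M → M → ℂ} (hf : Continuous fun z : M × M => f z.1 z.2) :
    ∫ x, ∫ y, f x y ∂μ ∂μ = ∫ y, ∫ x, f x y ∂μ ∂μ :=
  integral_integral_swap_of_hasCompactSupport (f := f) hf (HasCompactSupport.of_compactSpace _)

theorem op_comp {k l m : M → M → ℂ} {u : M → ℂ} (hk : Continuous fun z : M × M => k z.1 z.2)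
    (hl : Continuous fun z : M × M => l z.1 z.2) (hu : Continuous u)
    (h : ∀ x z, ∫ y, k x y * l y z ∂μ = m x z) (x : M) :
    op μ k (op μ l u) x = op μ m u x := by
  unfold op
  have h1 : ∀ y, k x y * ∫ z, l y z * u z ∂μ = ∫ z, k x y * l y z * u z ∂μ := by
    intro y
    rw [← integral_const_mul]
    refine integral_congr_ae (Filter.Eventually.of_forall fun z => ?_)
    simp only [mul_assoc]
  have hc : Continuous fun z : M × M => k x z.1 * l z.1 z.2 * u z.2 :=
    (((row_cont hk x).comp continuous_fst).mul hl).mul (hu.comp continuous_snd)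
  calc ∫ y, k x y * ∫ z, l y z * u z ∂μ ∂μ = ∫ y, ∫ z, k x y * l y z * u z ∂μ ∂μ :=
        integral_congr_ae (Filter.Eventually.of_forall h1)
    _ = ∫ z, ∫ y, k x y * l y z * u z ∂μ ∂μ := swap μ hc
    _ = ∫ z, m x z * u z ∂μ := by
        refine integral_congr_ae (Filter.Eventually.of_forall fun z => ?_)
        change ∫ y, k x y * l y z * u z ∂μ = m x z * u z
        rw [integral_mul_const, h]

variable {ι : Type} {K : ι → M → M → ℂ}

theorem Pr_eq (S : Finset ι) (u : M → ℂ) : Pr μ K S u = fun x => ∑ a ∈ S, op μ (K a) u x := rfl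

theorem Pr_single (a : ι) (u : M → ℂ) : Pr μ K {a} u = op μ (K a) u := by
  funext x
  exact Finset.sum_singleton _ _

theorem op_same (hK : Ker μ K) (a : ι) {u : M → ℂ} (hu : Continuous u) :
    op μ (K a) (op μ (K a) u) = op μ (K a) u := by
  funext x
  exact op_comp μ (hK.cont a) (hK.cont a) hu (hK.rep a) x

theorem op_diff (hK : Ker μ K) {a b : ι} (hab : a ≠ b) {u : M → ℂ} (hu : Continuous u) :
    op μ (K a) (op μ (K b) u) = 0 := by
  funext x
  rw [op_comp μ (m := fun _ _ => 0) (hK.cont a) (hK.cont b) hu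
    (fun x z => hK.orth a b x z hab) x]
  simp [op]

theorem op_sum {k : M → M → ℂ} (hk : Continuous fun z : M × M => k z.1 z.2) (S : Finset ι)
    (u : ι → M → ℂ) (hu : ∀ a ∈ S, Continuous (u a)) (x : M) :
    op μ k (fun y => ∑ a ∈ S, u a y) x = ∑ a ∈ S, op μ k (u a) x := by
  unfold op
  rw [← integral_finsetSum]
  · refine integral_congr_ae (Filter.Eventually.of_forall fun y => ?_)
    simp only [Finset.mul_sum]
  · intro a ha
    exact integ μ ((row_cont hk x).mul (hu a ha))

open Classical in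
theorem op_Pr (hK : Ker μ K) (a : ι) (S : Finset ι) {u : M → ℂ} (hu : Continuous u) :
    op μ (K a) (Pr μ K S u) = if a ∈ S then op μ (K a) u else 0 := by
  funext x
  rw [Pr_eq, op_sum μ (hK.cont a) S _ (fun b _ => op_cont μ (hK.cont b) hu)]
  split_ifs with h
  · rw [Finset.sum_eq_single_of_mem a h, op_same μ hK a hu]
    intro b _ hb
    rw [op_diff μ hK (Ne.symm hb) hu]
    rfl
  · refine Finset.sum_eq_zero fun b hb => ?_
    rw [op_diff μ hK (fun hab : a = b => h (by rw [hab]; exact hb)) hu]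
    rfl

theorem adj1 {k : M → M → ℂ} (hk : Continuous fun z : M × M => k z.1 z.2)
    (hh : ∀ x y, k x y = conj (k y x)) {u v : M → ℂ} (hu : Continuous u) (hv : Continuous v) :
    ∫ x, conj (op μ k v x) * u x ∂μ = ∫ x, conj (v x) * op μ k u x ∂μ := by
  have hc : Continuous fun z : M × M => conj (v z.2) * (k z.2 z.1 * u z.1) :=
    ((Complex.continuous_conj.comp hv).comp continuous_snd).mul
      ((hk.comp continuous_swap).mul (hu.comp continuous_fst))
  calc ∫ x, conj (op μ k v x) * u x ∂μ
      = ∫ x, ∫ y, conj (v y) * (k y x * u x) ∂μ ∂μ := by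
        refine integral_congr_ae (Filter.Eventually.of_forall fun x => ?_)
        change conj (op μ k v x) * u x = ∫ y, conj (v y) * (k y x * u x) ∂μ
        unfold op
        rw [← integral_conj, ← integral_mul_const]
        refine integral_congr_ae (Filter.Eventually.of_forall fun y => ?_)
        change conj (k x y * v y) * u x = conj (v y) * (k y x * u x)
        rw [hh y x, map_mul]
        ring
    _ = ∫ y, ∫ x, conj (v y) * (k y x * u x) ∂μ ∂μ := swap μ hc
    _ = ∫ y, conj (v y) * op μ k u y ∂μ := by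
        refine integral_congr_ae (Filter.Eventually.of_forall fun y => ?_)
        change ∫ x, conj (v y) * (k y x * u x) ∂μ = conj (v y) * op μ k u y
        rw [integral_const_mul]
        rfl

theorem Pr_cont (hK : Ker μ K) (S : Finset ι) {u : M → ℂ} (hu : Continuous u) :
    Continuous (Pr μ K S u) := by
  rw [Pr_eq]
  exact continuous_finsetSum S fun a _ => op_cont μ (hK.cont a) hu

theorem Pr_adj (hK : Ker μ K) (S : Finset ι) {u v : M → ℂ} (hu : Continuous u)
    (hv : Continuous v) :
    ∫ x, conj (Pr μ K S v x) * u x ∂μ = ∫ x, conj (v x) * Pr μ K S u x ∂μ := by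
  have h1 : ∀ x, conj (Pr μ K S v x) * u x = ∑ a ∈ S, conj (op μ (K a) v x) * u x := by
    intro x
    rw [Pr_eq]
    change conj (∑ a ∈ S, op μ (K a) v x) * u x = _
    rw [map_sum, Finset.sum_mul]
  have h2 : ∀ x, conj (v x) * Pr μ K S u x = ∑ a ∈ S, conj (v x) * op μ (K a) u x := by
    intro x
    rw [Pr_eq]
    change conj (v x) * (∑ a ∈ S, op μ (K a) u x) = _
    rw [Finset.mul_sum]
  rw [integral_congr_ae (Filter.Eventually.of_forall h1),
    integral_congr_ae (Filter.Eventually.of_forall h2), integral_finsetSum, integral_finsetSum]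
  · exact Finset.sum_congr rfl fun a _ => adj1 μ (hK.cont a) (hK.herm a) hu hv
  · intro a _
    exact integ μ ((Complex.continuous_conj.comp hv).mul (op_cont μ (hK.cont a) hu))
  · intro a _
    exact integ μ ((Complex.continuous_conj.comp (op_cont μ (hK.cont a) hv)).mul hu)

theorem Pr_idem (hK : Ker μ K) (S : Finset ι) {u : M → ℂ} (hu : Continuous u) :
    Pr μ K S (Pr μ K S u) = Pr μ K S u := by
  classical
  funext x
  change ∑ a ∈ S, op μ (K a) (Pr μ K S u) x = ∑ a ∈ S, op μ (K a) u x
  refine Finset.sum_congr rfl fun a ha => ?_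
  rw [op_Pr μ hK a S hu, if_pos ha]

omit [T2Space M] [SecondCountableTopology M] [CompactSpace M] [TopologicalSpace M] [BorelSpace M]
  [IsProbabilityMeasure μ] in
theorem nsq_eq (u : M → ℂ) : (nsq μ u : ℂ) = ∫ x, conj (u x) * u x ∂μ := by
  unfold nsq
  rw [← integral_complex_ofReal]
  refine integral_congr_ae (Filter.Eventually.of_forall fun x => ?_)
  change ((‖u x‖ ^ 2 : ℝ) : ℂ) = conj (u x) * u x
  rw [mul_comm, Complex.mul_conj, Complex.normSq_eq_norm_sq]

theorem Pr_inn (hK : Ker μ K) (S : Finset ι) {u : M → ℂ} (hu : Continuous u) :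
    ∫ x, conj (u x) * Pr μ K S u x ∂μ = (nsq μ (Pr μ K S u) : ℂ) := by
  rw [nsq_eq, Pr_adj μ hK S (Pr_cont μ hK S hu) hu, Pr_idem μ hK S hu]

theorem Pr_pyth (hK : Ker μ K) (S : Finset ι) {u : M → ℂ} (hu : Continuous u) :
    nsq μ (Pr μ K S u) = ∑ a ∈ S, nsq μ (Pr μ K {a} u) := by
  have h1 : ((nsq μ (Pr μ K S u) : ℝ) : ℂ) = ((∑ a ∈ S, nsq μ (Pr μ K {a} u) : ℝ) : ℂ) := by
    rw [← Pr_inn μ hK S hu, Complex.ofReal_sum]
    have h2 : ∀ x, conj (u x) * Pr μ K S u x = ∑ a ∈ S, conj (u x) * Pr μ K {a} u x := by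
      intro x
      rw [← Finset.mul_sum]
      congr 1
      refine Finset.sum_congr rfl fun a _ => ?_
      rw [Pr_single]
      rfl
    rw [integral_congr_ae (Filter.Eventually.of_forall h2), integral_finsetSum]
    · exact Finset.sum_congr rfl fun a _ => Pr_inn μ hK {a} hu
    · intro a _
      exact integ μ ((Complex.continuous_conj.comp hu).mul (Pr_cont μ hK {a} hu))
  exact_mod_cast h1

omit [T2Space M] [SecondCountableTopology M] [CompactSpace M] [TopologicalSpace M] [BorelSpace M]
  [IsProbabilityMeasure μ] in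
theorem nsq_nonneg (u : M → ℂ) : 0 ≤ nsq μ u :=
  integral_nonneg fun _ => by positivity

theorem Pr_bess (hK : Ker μ K) (S : Finset ι) {u : M → ℂ} (hu : Continuous u) :
    nsq μ (Pr μ K S u) ≤ nsq μ u := by
  have hp := Pr_cont μ hK S hu
  have hcu := Complex.continuous_conj.comp hu
  have hcp := Complex.continuous_conj.comp hp
  have h1 : ((nsq μ (fun x => u x - Pr μ K S u x) : ℝ) : ℂ) =
      ((nsq μ u - nsq μ (Pr μ K S u) : ℝ) : ℂ) := by
    rw [nsq_eq, Complex.ofReal_sub]
    have h2 : ∀ x, conj (u x - Pr μ K S u x) * (u x - Pr μ K S u x) =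
        (conj (u x) * u x - conj (u x) * Pr μ K S u x) -
          (conj (Pr μ K S u x) * u x - conj (Pr μ K S u x) * Pr μ K S u x) := by
      intro x
      rw [map_sub]
      ring
    rw [integral_congr_ae (Filter.Eventually.of_forall h2), integral_sub, integral_sub,
      integral_sub, Pr_adj μ hK S hu hu, Pr_inn μ hK S hu, ← nsq_eq, ← nsq_eq]
    · ring
    · exact integ μ (hcp.mul hu)
    · exact integ μ (hcp.mul hp)
    · exact integ μ (hcu.mul hu)
    · exact integ μ (hcu.mul hp)
    · exact integ μ ((hcu.mul hu).sub (hcu.mul hp))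
    · exact integ μ ((hcp.mul hu).sub (hcp.mul hp))
  have h3 : nsq μ (fun x => u x - Pr μ K S u x) = nsq μ u - nsq μ (Pr μ K S u) := by
    exact_mod_cast h1
  have h4 := nsq_nonneg μ (fun x => u x - Pr μ K S u x)
  linarith

theorem mem_op {a : ι} {u : M → ℂ} (h : Mem μ (K a) u) : op μ (K a) u = u :=
  funext h.2

open Classical in
theorem Pr_mem (hK : Ker μ K) (S : Finset ι) (a : ι) {u : M → ℂ} (h : Mem μ (K a) u) :
    Pr μ K S u = if a ∈ S then u else 0 := by
  funext x
  change ∑ b ∈ S, op μ (K b) u x = _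
  have h1 : ∀ b, b ≠ a → op μ (K b) u = 0 := by
    intro b hb
    rw [← mem_op μ h]
    exact op_diff μ hK hb h.1
  split_ifs with hs
  · rw [Finset.sum_eq_single_of_mem a hs, mem_op μ h]
    intro b _ hb
    rw [h1 b hb]
    rfl
  · refine Finset.sum_eq_zero fun b hb => ?_
    rw [h1 b (fun hab => hs (by rw [← hab]; exact hb))]
    rfl

theorem Pr_orth (hK : Ker μ K) (S : Finset ι) (u : ι → M → ℂ) (hu : ∀ a ∈ S, Mem μ (K a) (u a)) :
    nsq μ (fun x => ∑ a ∈ S, u a x) = ∑ a ∈ S, nsq μ (u a) := by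
  classical
  have hc : Continuous fun x => ∑ a ∈ S, u a x :=
    continuous_finsetSum S fun a ha => (hu a ha).1
  have h1 : ∀ a ∈ S, Pr μ K {a} (fun x => ∑ b ∈ S, u b x) = u a := by
    intro a ha
    rw [Pr_single]
    funext x
    rw [op_sum μ (hK.cont a) S u (fun b hb => (hu b hb).1), Finset.sum_eq_single_of_mem a ha,
      mem_op μ (hu a ha)]
    intro b hb hab
    have := op_diff μ hK (Ne.symm hab) (hu b hb).1
    rw [mem_op μ (hu b hb)] at this
    rw [this]
    rfl
  have h2 : Pr μ K S (fun x => ∑ b ∈ S, u b x) = fun x => ∑ b ∈ S, u b x := by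
    funext x
    change ∑ a ∈ S, op μ (K a) (fun x => ∑ b ∈ S, u b x) x = _
    refine Finset.sum_congr rfl fun a ha => ?_
    rw [← Pr_single, h1 a ha]
  have h3 := Pr_pyth μ hK S hc
  rw [h2] at h3
  rw [h3]
  exact Finset.sum_congr rfl fun a ha => by rw [h1 a ha]

end KB

theorem t_KB : S_KB := by
  classical
  intro M _ _ _ _ _ _ μ _ ι K hK
  refine ⟨fun S u hu => KB.Pr_cont μ hK S hu, ?_, fun S u v hu hv => KB.Pr_adj μ hK S hu hv,
    fun S u hu => KB.Pr_idem μ hK S hu, ?_, ?_, fun S u hu => KB.Pr_pyth μ hK S hu,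
    fun S u hu => KB.Pr_inn μ hK S hu, fun S u hu => KB.Pr_bess μ hK S hu, ?_, ?_,
    fun S u hu => KB.Pr_orth μ hK S u hu⟩
  · intro a u hu
    refine ⟨KB.Pr_cont μ hK {a} hu, fun x => ?_⟩
    rw [KB.Pr_single]
    exact congrFun (KB.op_same μ hK a hu) x
  · intro S a u ha hu
    rw [KB.Pr_single, KB.Pr_single, KB.op_Pr μ hK a S hu, if_pos ha]
  · intro S a u ha hu
    rw [KB.Pr_single, KB.op_Pr μ hK a S hu, if_neg ha]
  · intro S a u ha hu
    rw [KB.Pr_mem μ hK S a hu, if_pos ha]
  · intro S a u ha hu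
    rw [KB.Pr_mem μ hK S a hu, if_neg ha]

end

end STZ
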