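import Pool.Agent.STZ.StmtsY

/-!
# Module KDT: the coefficients of the product of the kernel and the cutoff function
-/

namespace STZ

namespace KDT

open Matrix

/-- a weight of small size lies in a cube -/
theorem mem_cube {r : ℕ} {κ : Fin r → ℤ} {a : ℝ} {K : ℕ} (hκ : sz κ ≤ a) (hK : a ≤ K) :
    κ ∈ Fintype.piFinset (fun _ : Fin r => Finset.Icc (-(K : ℤ)) K) := by
  rw [Fintype.mem_piFinset]
  intro i
  have h1 : |(κ i : ℝ)| ≤ ∑ j, |(κ j : ℝ)| :=
    Finset.single_le_sum (f := fun j => |(κ j : ℝ)|) (fun j _ => abs_nonneg _) (Finset.mem_univ i)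
  have h2 : |(κ i : ℝ)| ≤ K := by
    unfold sz at hκ
    linarith
  rw [abs_le] at h2
  rw [Finset.mem_Icc]
  constructor
  · have h3 := h2.1
    exact_mod_cast h3
  · have h3 := h2.2
    exact_mod_cast h3

/-- the element of a box is regular -/
theorem reg_of_bx {r : ℕ} {l : Fin r → ℤ} {N : ℕ} (hl : l ∈ bx (1 : Fin r → ℤ) N) : Reg l := by
  intro i
  unfold bx at hl
  rw [Fintype.mem_piFinset] at hl
  have h1 := hl i
  rw [Finset.mem_Ico] at h1
  exact h1.1

/-- the size of an element of a box -/
theorem sum_of_bx {r : ℕ} {l : Fin r → ℤ} {N : ℕ} (hl : l ∈ bx (1 : Fin r → ℤ) N) :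
    ∑ i, |(l i : ℝ)| ≤ r * N := by
  unfold bx at hl
  rw [Fintype.mem_piFinset] at hl
  have h2 : ∀ i ∈ (Finset.univ : Finset (Fin r)), |(l i : ℝ)| ≤ (N : ℝ) := by
    intro i _
    have h1 := hl i
    rw [Finset.mem_Ico] at h1
    have h3 : (1 : ℤ) ≤ l i := h1.1
    have h4 : l i < 1 + (N : ℤ) := h1.2
    have h5 : (0 : ℝ) ≤ (l i : ℝ) := by exact_mod_cast (by linarith : (0 : ℤ) ≤ l i)
    rw [abs_of_nonneg h5]
    exact_mod_cast (by linarith : l i ≤ (N : ℤ))
  have h6 := Finset.sum_le_sum h2
  simpa using h6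

end KDT

open KDT Matrix in
theorem t_KDT : M_KDT := by
  intro hSMF r D P B h hD hR
  obtain ⟨C₁, hC₁0, hC₁⟩ := hSMF r D P B h hD hR
  have ho := hD.o
  obtain ⟨c, hc, hpd⟩ := ho.pd
  obtain ⟨C, hC⟩ := exists_nat_ge (((r : ℝ) + C₁) / c)
  refine ⟨C, fun N M t θ hN hM => ?_⟩
  obtain ⟨hsup, -, hprod⟩ := hC₁ M hM
  obtain ⟨K, hK⟩ := exists_nat_ge (C₁ * M)
  have hT0 : ∀ κ : Fin r → ℤ, κ ∉ Fintype.piFinset (fun _ : Fin r => Finset.Icc (-(K : ℤ)) K) →
      sh D P M κ = 0 := by
    intro κ hκ
    apply hsup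
    by_contra hcon
    push Not at hcon
    exact hκ (mem_cube hcon hK)
  have hdet : ∀ w ∈ D.W, (w.det : ℂ) ≠ 0 := by
    intro w hw
    obtain ⟨w', hw', hww⟩ := ho.W_inv w hw
    have h1 : w'.det * w.det = 1 := by
      rw [← Matrix.det_mul, hww, Matrix.det_one]
    intro h0
    have h2 : w.det = 0 := by exact_mod_cast h0
    rw [h2] at h1
    simp at h1
  have key : ∀ l ∈ bx (1 : Fin r → ℤ) N, FM D P M (XT D θ) * D.ψ (XT D θ) l =
      ∑ ν ∈ bx (1 : Fin r → ℤ) (C * (N + M)), csh D P M l ν * D.ψ (XT D θ) ν := by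
    intro l hl
    rw [hprod _ hT0 l θ]
    have hrhs : ∑ ν ∈ bx (1 : Fin r → ℤ) (C * (N + M)), csh D P M l ν * D.ψ (XT D θ) ν =
        ∑ κ ∈ (D.W ×ˢ bx (1 : Fin r → ℤ) (C * (N + M))).image (fun p => p.1 *ᵥ p.2 - l),
          sh D P M κ * D.ψ (XT D θ) (l + κ) := by
      rw [Finset.sum_image, Finset.sum_product_right]
      · apply Finset.sum_congr rfl
        intro ν _
        unfold csh
        rw [Finset.sum_mul]
        apply Finset.sum_congr rfl
        intro w hw
        have h1 : l + (w *ᵥ ν - l) = w *ᵥ ν := by abel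
        dsimp only
        rw [h1, ho.anti w hw]
        ring
      · intro p hp q hq hpq
        have hp' : p ∈ D.W ×ˢ bx (1 : Fin r → ℤ) (C * (N + M)) := hp
        have hq' : q ∈ D.W ×ˢ bx (1 : Fin r → ℤ) (C * (N + M)) := hq
        rw [Finset.mem_product] at hp' hq'
        have h1 : p.1 *ᵥ p.2 = q.1 *ᵥ q.2 := by
          have h2 : p.1 *ᵥ p.2 - l = q.1 *ᵥ q.2 - l := hpq
          exact sub_left_injective h2
        obtain ⟨w', hw', hww⟩ := ho.W_inv q.1 hq'.1
        have h3 : (w' * p.1) *ᵥ p.2 = q.2 := by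
          rw [← Matrix.mulVec_mulVec, h1, Matrix.mulVec_mulVec, hww, Matrix.one_mulVec]
        have h4 : w' * p.1 = 1 := by
          apply ho.free p.2 (reg_of_bx hp'.2) _ (ho.W_mul _ hw' _ hp'.1)
          rw [h3]
          exact reg_of_bx hq'.2
        have h5 : p.2 = q.2 := by
          rw [← h3, h4, Matrix.one_mulVec]
        have h6 : p.1 = q.1 := by
          have h7 : w' * p.1 = w' * q.1 := by rw [h4, hww]
          have h8 : q.1 * w' = 1 := mul_eq_one_comm.mp hww
          calc p.1 = q.1 * w' * p.1 := by rw [h8, one_mul]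
            _ = q.1 * (w' * p.1) := by rw [Matrix.mul_assoc]
            _ = q.1 * (w' * q.1) := by rw [h7]
            _ = q.1 * w' * q.1 := by rw [Matrix.mul_assoc]
            _ = q.1 := by rw [h8, one_mul]
        exact Prod.ext h6 h5
    rw [hrhs]
    have hA := Finset.sum_subset (f := fun κ => sh D P M κ * D.ψ (XT D θ) (l + κ))
      (Finset.subset_union_left (s₁ := Fintype.piFinset (fun _ : Fin r => Finset.Icc (-(K : ℤ)) K))
        (s₂ := (D.W ×ˢ bx (1 : Fin r → ℤ) (C * (N + M))).image (fun p => p.1 *ᵥ p.2 - l))) (by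
        intro κ _ hκ
        rw [hT0 κ hκ, zero_mul])
    have hB := Finset.sum_subset (f := fun κ => sh D P M κ * D.ψ (XT D θ) (l + κ))
      (Finset.subset_union_right (s₁ := Fintype.piFinset (fun _ : Fin r => Finset.Icc (-(K : ℤ)) K))
        (s₂ := (D.W ×ˢ bx (1 : Fin r → ℤ) (C * (N + M))).image (fun p => p.1 *ᵥ p.2 - l))) (by
        intro κ _ hκ
        by_cases hs : sh D P M κ = 0
        · rw [hs, zero_mul]
        have hψ : D.ψ (XT D θ) (l + κ) = 0 := by
          by_contra hne
          have hszκ : sz κ ≤ C₁ * M := by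
            by_contra hcon
            push Not at hcon
            exact hs (hsup κ hcon)
          obtain ⟨w, hw, hwn⟩ := ho.str (l + κ)
          have hreg : Reg (w *ᵥ (l + κ)) := by
            intro i
            by_contra hcon
            have h1 : (w *ᵥ (l + κ)) i = 0 := by
              have h2 := hwn i
              push Not at hcon
              linarith
            have h3 := ho.wall (XT D θ) (w *ᵥ (l + κ)) i h1
            rw [ho.anti w hw] at h3
            rcases mul_eq_zero.mp h3 with h4 | h4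
            · exact hdet w hw h4
            · exact hne h4
          have hQ := ho.Q_W w hw (l + κ)
          have h5 := (hpd (w *ᵥ (l + κ))).1
          have h6 := (hpd (l + κ)).2
          rw [hQ] at h5
          have h7 : sz (l + κ) - 1 ≤ r * N + C₁ * M := by
            have h8 : sz (l + κ) - 1 ≤ (∑ i, |(l i : ℝ)|) + ∑ i, |(κ i : ℝ)| := by
              unfold sz
              rw [← Finset.sum_add_distrib]
              have h9 : ∑ i, |(((l + κ) i : ℤ) : ℝ)| ≤ ∑ i, (|(l i : ℝ)| + |(κ i : ℝ)|) := by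
                apply Finset.sum_le_sum
                intro i _
                rw [Pi.add_apply]
                push_cast
                exact abs_add_le _ _
              linarith
            have h10 := sum_of_bx hl
            have h11 : ∑ i, |(κ i : ℝ)| ≤ C₁ * M := by
              unfold sz at hszκ
              linarith
            linarith
          have h12 : 0 ≤ sz (l + κ) - 1 := by
            unfold sz
            have := Finset.sum_nonneg (s := Finset.univ) (f := fun i => |(((l + κ) i : ℤ) : ℝ)|)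
              (fun i _ => abs_nonneg _)
            linarith
          have h13 : c * (sz (w *ᵥ (l + κ)) - 1) ≤ sz (l + κ) - 1 := by
            have h14 : (c * (sz (w *ᵥ (l + κ)) - 1)) ^ 2 ≤ (sz (l + κ) - 1) ^ 2 := by
              calc (c * (sz (w *ᵥ (l + κ)) - 1)) ^ 2 = c * (c * (sz (w *ᵥ (l + κ)) - 1) ^ 2) := by ring
                _ ≤ c * (D.Q (l + κ) : ℝ) := mul_le_mul_of_nonneg_left h5 hc.le
                _ ≤ (sz (l + κ) - 1) ^ 2 := h6
            exact (le_abs_self _).trans (abs_le_of_sq_le_sq h14 h12)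
          have h15 : sz (w *ᵥ (l + κ)) - 1 ≤ C * (N + M) := by
            have hN' : (0 : ℝ) ≤ N := Nat.cast_nonneg N
            have hM' : (0 : ℝ) ≤ M := Nat.cast_nonneg M
            have hr' : (0 : ℝ) ≤ r := Nat.cast_nonneg r
            have h16 : (r : ℝ) + C₁ ≤ C * c := by
              rw [div_le_iff₀ hc] at hC
              exact hC
            have h17 : c * (sz (w *ᵥ (l + κ)) - 1) ≤ c * (C * (N + M)) := by
              calc c * (sz (w *ᵥ (l + κ)) - 1) ≤ r * N + C₁ * M := h13.trans h7
                _ ≤ ((r : ℝ) + C₁) * (N + M) := by nlinarith [mul_nonneg hr' hM', mul_nonneg hC₁0 hN']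
                _ ≤ (C * c) * (N + M) := mul_le_mul_of_nonneg_right h16 (by linarith)
                _ = c * (C * (N + M)) := by ring
            exact le_of_mul_le_mul_left h17 hc
          apply hκ
          obtain ⟨w', hw', hww⟩ := ho.W_inv w hw
          rw [Finset.mem_image]
          refine ⟨(w', w *ᵥ (l + κ)), ?_, ?_⟩
          · rw [Finset.mem_product]
            refine ⟨hw', ?_⟩
            unfold bx
            rw [Fintype.mem_piFinset]
            intro i
            rw [Finset.mem_Ico]
            refine ⟨hreg i, ?_⟩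
            have h18 : |(((w *ᵥ (l + κ)) i : ℤ) : ℝ)| ≤ ∑ j, |(((w *ᵥ (l + κ)) j : ℤ) : ℝ)| :=
              Finset.single_le_sum (f := fun j => |(((w *ᵥ (l + κ)) j : ℤ) : ℝ)|)
                (fun j _ => abs_nonneg _) (Finset.mem_univ i)
            have h19 : (((w *ᵥ (l + κ)) i : ℤ) : ℝ) ≤ C * (N + M) := by
              refine (le_abs_self _).trans (h18.trans ?_)
              unfold sz at h15
              linarith
            have h20 : (w *ᵥ (l + κ)) i ≤ ((C * (N + M) : ℕ) : ℤ) := by
              exact_mod_cast h19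
            have h21 : (1 : Fin r → ℤ) i = 1 := rfl
            rw [h21]
            dsimp only
            linarith
          · dsimp only
            rw [Matrix.mulVec_mulVec, hww, Matrix.one_mulVec]
            abel
        rw [hψ, mul_zero])
    exact hA.trans hB.symm
  unfold KT
  rw [Finset.sum_mul]
  have hL : ∀ l ∈ bx (1 : Fin r → ℤ) N,
      (D.dim l : ℂ) * eu (t * D.Q l) * D.ψ (XT D θ) l * FM D P M (XT D θ) =
      ∑ ν ∈ bx (1 : Fin r → ℤ) (C * (N + M)),
        (D.dim l : ℂ) * eu (t * D.Q l) * csh D P M l ν * D.ψ (XT D θ) ν := by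
    intro l hl
    rw [mul_assoc ((D.dim l : ℂ) * eu (t * D.Q l)), mul_comm (D.ψ (XT D θ) l), key l hl,
      Finset.mul_sum]
    apply Finset.sum_congr rfl
    intro ν _
    ring
  rw [Finset.sum_congr rfl hL, Finset.sum_comm]
  apply Finset.sum_congr rfl
  intro ν _
  rw [Finset.sum_mul]

end STZ
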