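import Pool.Agent.STZ.StmtsY

/-!
# KSH: the shells of the kernel on the torus
-/

namespace STZ

open MeasureTheory Matrix

open scoped ComplexConjugate Matrix Real

noncomputable section

namespace KSH

lemma nd_nonneg (θ : ℝ) : 0 ≤ nd θ := abs_nonneg _

lemma mn_nonneg (R : ℕ) (θ : ℝ) : 0 ≤ mn R θ :=
  div_nonneg (Nat.cast_nonneg _) (le_trans zero_le_one (le_max_left _ _))

lemma WW_nonneg (R c : ℕ) (t : ℝ) : 0 ≤ WW R c t :=
  Finset.sum_nonneg fun _ _ => mn_nonneg R _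

lemma nz_nonneg {r : ℕ} (P : RT r) (θ : Fin r → ℝ) : 0 ≤ nz P θ :=
  Finset.sum_nonneg fun _ _ => nd_nonneg _

/-- every factor of the product is at most `N` -/
lemma fac_le (N : ℕ) (x : ℝ) : (N : ℝ) / max 1 ((N : ℝ) * x) ≤ N := by
  apply div_le_self (Nat.cast_nonneg _) (le_max_left _ _)

lemma fac_nonneg (N : ℕ) (x : ℝ) : 0 ≤ (N : ℝ) / max 1 ((N : ℝ) * x) :=
  div_nonneg (Nat.cast_nonneg _) (le_trans zero_le_one (le_max_left _ _))

lemma prod_le {r : ℕ} (P : RT r) (N : ℕ) (θ : Fin r → ℝ) :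
    ∏ p ∈ P, ((N : ℝ) / max 1 (N * nd (dz p.1 θ))) ≤ (N : ℝ) ^ P.card := by
  calc ∏ p ∈ P, ((N : ℝ) / max 1 (N * nd (dz p.1 θ))) ≤ ∏ _p ∈ P, (N : ℝ) :=
        Finset.prod_le_prod (fun p _ => fac_nonneg N _) (fun p _ => fac_le N _)
    _ = (N : ℝ) ^ P.card := by simp

/-- the product is small away from the centre -/
lemma prod_le' {r : ℕ} (P : RT r) (N : ℕ) (θ : Fin r → ℝ) (h : ℕ) (s : ℝ)
    (hh : h ≤ (P.filter fun p => s ≤ nd (dz p.1 θ)).card) :
    ∏ p ∈ P, ((N : ℝ) / max 1 (N * nd (dz p.1 θ))) ≤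
      (N : ℝ) ^ P.card * (1 / max 1 (N * s)) ^ h := by
  set Q := P.filter fun p => s ≤ nd (dz p.1 θ) with hQ
  set y : ℝ := 1 / max 1 (N * s) with hy
  have hmax : (1 : ℝ) ≤ max 1 (N * s) := le_max_left _ _
  have hy0 : 0 ≤ y := by positivity
  have hy1 : y ≤ 1 := by
    rw [hy, div_le_one (by linarith)]
    exact hmax
  have hN0 : (0 : ℝ) ≤ N := Nat.cast_nonneg _
  have h1 : ∏ p ∈ P, ((N : ℝ) / max 1 (N * nd (dz p.1 θ))) ≤
      ∏ p ∈ P, ((N : ℝ) * (if s ≤ nd (dz p.1 θ) then y else 1)) := by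
    apply Finset.prod_le_prod (fun p _ => fac_nonneg N _)
    intro p _
    split_ifs with hs
    · rw [hy, mul_one_div]
      apply div_le_div_of_nonneg_left hN0 (by linarith)
      apply max_le_max le_rfl
      exact mul_le_mul_of_nonneg_left hs hN0
    · rw [mul_one]
      exact fac_le N _
  have h2 : ∏ p ∈ P, ((N : ℝ) * (if s ≤ nd (dz p.1 θ) then y else 1)) =
      (N : ℝ) ^ P.card * y ^ Q.card := by
    rw [Finset.prod_mul_distrib, Finset.prod_const, Finset.prod_ite]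
    simp [hQ]
  have h3 : y ^ Q.card ≤ y ^ h := pow_le_pow_of_le_one hy0 hy1 hh
  rw [h2] at h1
  exact h1.trans (mul_le_mul_of_nonneg_left h3 (by positivity))

/-- the root with the largest distance -/
lemma exists_far {r : ℕ} (P : RT r) (h : ℕ) (θ : Fin r → ℝ) (hP : P.Nonempty)
    (far : ∀ q ∈ P, h ≤ (P.filter fun p => nd (dz q.1 θ) ≤ 2 * nd (dz p.1 θ)).card) :
    h ≤ (P.filter fun p => nz P θ / (2 * P.card) ≤ nd (dz p.1 θ)).card := by
  obtain ⟨q, hq, hmax⟩ := Finset.exists_max_image P (fun p => nd (dz p.1 θ)) hP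
  have hc : (0 : ℝ) < P.card := by exact_mod_cast hP.card_pos
  have h1 : nz P θ ≤ P.card * nd (dz q.1 θ) := by
    have := Finset.sum_le_card_nsmul P (fun p => nd (dz p.1 θ)) (nd (dz q.1 θ)) hmax
    simpa [nz, nsmul_eq_mul] using this
  refine (far q hq).trans (Finset.card_le_card ?_)
  intro p hp
  rw [Finset.mem_filter] at hp ⊢
  refine ⟨hp.1, ?_⟩
  rw [div_le_iff₀ (by positivity)]
  nlinarith [hp.2]

/-- the elementary inequality -/
lemma elem (k h : ℕ) (hk : h ≤ k) (N M : ℕ) (hN : 1 ≤ N) (hM : 1 ≤ M) (T b : ℝ) (hT : 0 ≤ T) (hb : 0 < b) :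
    (1 / max 1 (N * (T / b))) ^ h * min 1 ((M * T) ^ k) ≤ b ^ h * ((M : ℝ) / N) ^ h := by
  have hN' : (0 : ℝ) < N := by exact_mod_cast hN
  have hM' : (0 : ℝ) < M := by exact_mod_cast hM
  set a : ℝ := M * T with ha
  have ha0 : 0 ≤ a := by positivity
  have h1 : min 1 (a ^ k) ≤ (min 1 a) ^ h := by
    have h2 : min 1 (a ^ k) ≤ (min 1 a) ^ k := by
      rcases le_total a 1 with h3 | h3
      · rw [min_eq_right h3]
        exact min_le_right _ _
      · rw [min_eq_left h3]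
        simp
    refine h2.trans (pow_le_pow_of_le_one (by positivity) (min_le_left _ _) hk)
  have hmx : (0 : ℝ) < max 1 (N * (T / b)) := lt_of_lt_of_le one_pos (le_max_left _ _)
  calc (1 / max 1 (N * (T / b))) ^ h * min 1 (a ^ k) ≤
      (1 / max 1 (N * (T / b))) ^ h * (min 1 a) ^ h :=
        mul_le_mul_of_nonneg_left h1 (by positivity)
    _ = (min 1 a / max 1 (N * (T / b))) ^ h := by rw [← mul_pow]; congr 1; ring
    _ ≤ (b * ((M : ℝ) / N)) ^ h := by
        apply pow_le_pow_left₀ (by positivity)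
        rw [div_le_iff₀ hmx]
        calc min 1 a ≤ a := min_le_right _ _
          _ = b * ((M : ℝ) / N) * (N * (T / b)) := by rw [ha]; field_simp
          _ ≤ b * ((M : ℝ) / N) * max 1 (N * (T / b)) :=
              mul_le_mul_of_nonneg_left (le_max_right _ _) (by positivity)
    _ = b ^ h * ((M : ℝ) / N) ^ h := by rw [mul_pow]

lemma min_two (M : ℕ) (T : ℝ) (k : ℕ) :
    min 1 (((2 * M : ℕ) * T) ^ k) ≤ (2 : ℝ) ^ k * min 1 ((M * T) ^ k) := by
  have h1 : (((2 * M : ℕ) : ℝ) * T) ^ k = (2 : ℝ) ^ k * (M * T) ^ k := by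
    push_cast
    rw [← mul_pow]
    congr 1
    ring
  rw [h1]
  have h2 : (1 : ℝ) ≤ 2 ^ k := one_le_pow₀ (by norm_num)
  rcases le_total 1 ((M * T) ^ k) with h3 | h3
  · rw [min_eq_left h3, mul_one]
    exact (min_le_left _ _).trans h2
  · rw [min_eq_right h3]
    exact min_le_right _ _

end KSH

open KSH in
theorem t_KSH : M_KSH := by
  intro hKS hSM r D P B h hD hR
  obtain ⟨C₁, c, hC₁, hc, hK⟩ := hKS r D P B h hD hR
  obtain ⟨C₂, hC₂, hF⟩ := hSM r D P B h hD hR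
  set k : ℕ := 2 * P.card with hk
  set b : ℝ := 2 * (P.card : ℝ) with hb
  have hb0 : 0 ≤ b := by positivity
  refine ⟨C₁ * C₂ + C₁ * (C₂ * (1 + 2 ^ k)) * b ^ h, c, by positivity, hc, ?_⟩
  intro N t θ hN
  have hN' : (0 : ℝ) < N := by exact_mod_cast hN
  set W : ℝ := WW N c t ^ ((r : ℝ) / 2) with hW
  have hW0 : 0 ≤ W := Real.rpow_nonneg (WW_nonneg _ _ _) _
  have hT0 : 0 ≤ nz P θ := nz_nonneg P θ
  have hKN := hK N t θ hN
  have hNN : (N : ℝ) ^ k = (N : ℝ) ^ P.card * (N : ℝ) ^ P.card := by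
    rw [hk, two_mul, pow_add]
  constructor
  · rw [norm_mul]
    have h1 : ‖KT D N t θ‖ ≤ C₁ * ((N : ℝ) ^ k * W) := by
      refine hKN.trans ?_
      calc C₁ * ((N : ℝ) ^ P.card * W) * ∏ p ∈ P, ((N : ℝ) / max 1 (N * nd (dz p.1 θ))) ≤
          C₁ * ((N : ℝ) ^ P.card * W) * (N : ℝ) ^ P.card :=
            mul_le_mul_of_nonneg_left (prod_le P N θ) (by positivity)
        _ = C₁ * ((N : ℝ) ^ k * W) := by rw [hNN]; ring
    have h2 : ‖FM D P N (XT D θ)‖ ≤ C₂ := by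
      refine ((hF N θ hN).2).trans ?_
      apply div_le_self hC₂
      apply one_le_pow₀
      have : 0 ≤ (N : ℝ) * nz P θ := by positivity
      linarith
    calc ‖KT D N t θ‖ * ‖FM D P N (XT D θ)‖ ≤ C₁ * ((N : ℝ) ^ k * W) * C₂ :=
          mul_le_mul h1 h2 (norm_nonneg _) (by positivity)
      _ = C₁ * C₂ * ((N : ℝ) ^ k * W) := by ring
      _ ≤ (C₁ * C₂ + C₁ * (C₂ * (1 + 2 ^ k)) * b ^ h) * ((N : ℝ) ^ k * W) := by
          apply mul_le_mul_of_nonneg_right _ (by positivity)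
          have : 0 ≤ C₁ * (C₂ * (1 + 2 ^ k)) * b ^ h := by positivity
          linarith
  · intro M hM hMN
    have hM' : (0 : ℝ) < M := by exact_mod_cast hM
    rcases P.eq_empty_or_nonempty with hP | hP
    · have h0 : FM D P M (XT D θ) - FM D P (2 * M) (XT D θ) = 0 := by
        subst hP
        simp [FM]
      rw [h0, mul_zero, norm_zero]
      positivity
    have hcp : (0 : ℝ) < P.card := by exact_mod_cast hP.card_pos
    have hb1 : 0 < b := by positivity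
    have hfar := exists_far P h θ hP (fun q hq => hR.far θ q hq)
    have hhk : h ≤ k := by
      have h1 := Finset.card_filter_le P (fun p => nz P θ / (2 * P.card) ≤ nd (dz p.1 θ))
      omega
    have hKT : ‖KT D N t θ‖ ≤ C₁ * ((N : ℝ) ^ k * W) * (1 / max 1 (N * (nz P θ / b))) ^ h := by
      refine hKN.trans ?_
      calc C₁ * ((N : ℝ) ^ P.card * W) * ∏ p ∈ P, ((N : ℝ) / max 1 (N * nd (dz p.1 θ))) ≤
          C₁ * ((N : ℝ) ^ P.card * W) *
            ((N : ℝ) ^ P.card * (1 / max 1 (N * (nz P θ / b))) ^ h) :=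
            mul_le_mul_of_nonneg_left (prod_le' P N θ h _ hfar) (by positivity)
        _ = C₁ * ((N : ℝ) ^ k * W) * (1 / max 1 (N * (nz P θ / b))) ^ h := by rw [hNN]; ring
    have hFF : ‖FM D P M (XT D θ) - FM D P (2 * M) (XT D θ)‖ ≤
        C₂ * (1 + 2 ^ k) * min 1 ((M * nz P θ) ^ k) := by
      have e : FM D P M (XT D θ) - FM D P (2 * M) (XT D θ) =
          (1 - FM D P (2 * M) (XT D θ)) - (1 - FM D P M (XT D θ)) := by ring
      rw [e]
      refine (norm_sub_le _ _).trans ?_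
      have h1 := (hF M θ hM).1
      have h2 := (hF (2 * M) θ (by omega)).1
      have h3 := min_two M (nz P θ) k
      have h4 : ‖1 - FM D P (2 * M) (XT D θ)‖ ≤ C₂ * ((2 : ℝ) ^ k * min 1 ((M * nz P θ) ^ k)) :=
        h2.trans (mul_le_mul_of_nonneg_left h3 hC₂)
      calc ‖1 - FM D P (2 * M) (XT D θ)‖ + ‖1 - FM D P M (XT D θ)‖ ≤
          C₂ * ((2 : ℝ) ^ k * min 1 ((M * nz P θ) ^ k)) + C₂ * min 1 ((M * nz P θ) ^ k) :=
            add_le_add h4 h1
        _ = C₂ * (1 + 2 ^ k) * min 1 ((M * nz P θ) ^ k) := by ring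
    have hel := elem k h hhk N M hN hM (nz P θ) b hT0 hb1
    rw [norm_mul]
    have hmin : 0 ≤ min 1 ((M * nz P θ) ^ k) := by positivity
    have hmx : (0 : ℝ) < max 1 (N * (nz P θ / b)) := lt_of_lt_of_le one_pos (le_max_left _ _)
    calc ‖KT D N t θ‖ * ‖FM D P M (XT D θ) - FM D P (2 * M) (XT D θ)‖ ≤
        (C₁ * ((N : ℝ) ^ k * W) * (1 / max 1 (N * (nz P θ / b))) ^ h) *
          (C₂ * (1 + 2 ^ k) * min 1 ((M * nz P θ) ^ k)) :=
          mul_le_mul hKT hFF (norm_nonneg _) (by positivity)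
      _ = C₁ * (C₂ * (1 + 2 ^ k)) * ((N : ℝ) ^ k * W) *
          ((1 / max 1 (N * (nz P θ / b))) ^ h * min 1 ((M * nz P θ) ^ k)) := by ring
      _ ≤ C₁ * (C₂ * (1 + 2 ^ k)) * ((N : ℝ) ^ k * W) * (b ^ h * ((M : ℝ) / N) ^ h) :=
          mul_le_mul_of_nonneg_left hel (by positivity)
      _ = (C₁ * (C₂ * (1 + 2 ^ k)) * b ^ h) * ((N : ℝ) ^ k * W * ((M : ℝ) / N) ^ h) := by ring
      _ ≤ (C₁ * C₂ + C₁ * (C₂ * (1 + 2 ^ k)) * b ^ h) *
          ((N : ℝ) ^ k * W * ((M : ℝ) / N) ^ h) := by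
          apply mul_le_mul_of_nonneg_right _ (by positivity)
          have : 0 ≤ C₁ * C₂ := by positivity
          linarith

end

end STZ
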