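import Pool.Agent.STZ.StmtsS

/-!
# STZ, module LAPX: the Laplacian of the characters of `SU(3)`
-/

namespace STZ

open MeasureTheory Matrix

open scoped ComplexConjugate Matrix

namespace LAPX

section calculus

variable {n : ℕ} (hC : CALF n) {X : Fin (n ^ 2 - 1) → Matrix (Fin n) (Fin n) ℂ} (hX : Frame X)

/-- the carre du champ -/
noncomputable def Gam (X : Fin (n ^ 2 - 1) → Matrix (Fin n) (Fin n) ℂ) (f h : SU n → ℂ)
    (g : SU n) : ℂ := ∑ a, dX (X a) f g * dX (X a) h g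

include hC hX

theorem gam_add (f h k : SU n → ℂ) (hh : C1 h) (hk : C1 k) (g : SU n) :
    Gam X f (fun g => h g + k g) g = Gam X f h g + Gam X f k g := by
  unfold Gam
  rw [← Finset.sum_add_distrib]
  refine Finset.sum_congr rfl fun a _ => ?_
  rw [hC.dadd _ (hX.mem a) h k hh hk g]
  ring

theorem gam_mul (f h k : SU n → ℂ) (hh : C1 h) (hk : C1 k) (g : SU n) :
    Gam X f (fun g => h g * k g) g = Gam X f h g * k g + h g * Gam X f k g := by
  unfold Gam
  rw [Finset.sum_mul, Finset.mul_sum, ← Finset.sum_add_distrib]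
  refine Finset.sum_congr rfl fun a _ => ?_
  rw [hC.dmul _ (hX.mem a) h k hh hk g]
  ring

theorem gam_const (f : SU n → ℂ) (c : ℂ) (g : SU n) : Gam X f (fun _ => c) g = 0 := by
  unfold Gam
  refine Finset.sum_eq_zero fun a _ => ?_
  rw [hC.dconst, mul_zero]

theorem gam_cmul (f k : SU n → ℂ) (c : ℂ) (hk : C1 k) (g : SU n) :
    Gam X f (fun g => c * k g) g = c * Gam X f k g := by
  rw [gam_mul hC hX f (fun _ => c) k (hC.const c).1 hk g, gam_const hC hX, zero_mul, zero_add]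

theorem lap_add (f h : SU n → ℂ) (hf : C2 f) (hh : C2 h) (g : SU n) :
    lap X (fun g => f g + h g) g = lap X f g + lap X h g := by
  unfold lap
  rw [← Finset.sum_add_distrib]
  refine Finset.sum_congr rfl fun a _ => ?_
  have h1 : dX (X a) (fun g => f g + h g) = fun g => dX (X a) f g + dX (X a) h g :=
    funext fun g => hC.dadd _ (hX.mem a) f h hf.1 hh.1 g
  rw [h1, hC.dadd _ (hX.mem a) _ _ (hf.2 _ (hX.mem a)) (hh.2 _ (hX.mem a)) g]

theorem lap_mul (f h : SU n → ℂ) (hf : C2 f) (hh : C2 h) (g : SU n) :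
    lap X (fun g => f g * h g) g = lap X f g * h g + 2 * Gam X f h g + f g * lap X h g := by
  unfold lap Gam
  rw [Finset.sum_mul, Finset.mul_sum, Finset.mul_sum, ← Finset.sum_add_distrib,
    ← Finset.sum_add_distrib]
  refine Finset.sum_congr rfl fun a _ => ?_
  have hm := hX.mem a
  have h1 : dX (X a) (fun g => f g * h g) = fun g => dX (X a) f g * h g + f g * dX (X a) h g :=
    funext fun g => hC.dmul _ hm f h hf.1 hh.1 g
  rw [h1, hC.dadd _ hm _ _ (hC.mul1 _ _ (hf.2 _ hm) hh.1) (hC.mul1 _ _ hf.1 (hh.2 _ hm)) g,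
    hC.dmul _ hm _ _ (hf.2 _ hm) hh.1 g, hC.dmul _ hm _ _ hf.1 (hh.2 _ hm) g]
  ring

theorem lap_const (c : ℂ) (g : SU n) : lap X (fun _ => c) g = 0 := by
  unfold lap
  refine Finset.sum_eq_zero fun a _ => ?_
  have h1 : dX (X a) (fun _ : SU n => c) = fun _ => (0 : ℂ) :=
    funext fun g => hC.dconst _ c g
  rw [h1, hC.dconst]

theorem lap_cmul (f : SU n → ℂ) (c : ℂ) (hf : C2 f) (g : SU n) :
    lap X (fun g => c * f g) g = c * lap X f g := by
  rw [lap_mul hC hX (fun _ => c) f (hC.const c) hf g, lap_const hC hX]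
  have h1 : Gam X (fun _ => c) f g = 0 := by
    unfold Gam
    refine Finset.sum_eq_zero fun a _ => ?_
    rw [hC.dconst, zero_mul]
  rw [h1]
  ring

end calculus

section three

variable (hC : CALF 3) {X : Fin (3 ^ 2 - 1) → Matrix (Fin 3) (Fin 3) ℂ} (hX : Frame X)
  (hS : S_CAS)

include hC in
theorem c2_neg {f : SU 3 → ℂ} (hf : C2 f) : C2 fun g => (-1) * f g :=
  hC.mul (fun _ => -1) f (hC.const _) hf

/-- sums of three entries -/
theorem tg_eq : (tg : SU 3 → ℂ) = fun g => (g.1 0 0 + g.1 1 1) + g.1 2 2 := by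
  funext g
  unfold tg
  rw [Matrix.trace, Fin.sum_univ_three]
  rfl

include hC in
theorem c2_tg : C2 (tg : SU 3 → ℂ) := by
  rw [tg_eq]
  exact hC.add _ _ (hC.add _ _ (hC.entry 0 0) (hC.entry 1 1)) (hC.entry 2 2)

include hC in
theorem c2_tgc : C2 (fun g : SU 3 => conj (tg g)) := hC.cj _ (c2_tg hC)

include hC in
theorem c1_lin (P : Matrix (Fin 3) (Fin 3) ℂ) (i : Fin 3) :
    C1 (fun g : SU 3 => (g.1 * P) i i) := by
  have h1 : (fun g : SU 3 => (g.1 * P) i i) = fun g : SU 3 =>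
      (g.1 i 0 * P 0 i + g.1 i 1 * P 1 i) + g.1 i 2 * P 2 i := by
    funext g
    rw [Matrix.mul_apply, Fin.sum_univ_three]
  rw [h1]
  exact hC.add1 _ _ (hC.add1 _ _ (hC.mul1 _ _ (hC.entry i 0).1 (hC.const _).1)
    (hC.mul1 _ _ (hC.entry i 1).1 (hC.const _).1))
    (hC.mul1 _ _ (hC.entry i 2).1 (hC.const _).1)

include hC in
theorem d_lin {Y : Matrix (Fin 3) (Fin 3) ℂ} (hY : Y ∈ su 3) (P : Matrix (Fin 3) (Fin 3) ℂ)
    (i : Fin 3) (g : SU 3) :
    dX Y (fun g : SU 3 => (g.1 * P) i i) g = (g.1 * Y * P) i i := by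
  have h1 : (fun g : SU 3 => (g.1 * P) i i) = fun g : SU 3 =>
      (g.1 i 0 * P 0 i + g.1 i 1 * P 1 i) + g.1 i 2 * P 2 i := by
    funext g
    rw [Matrix.mul_apply, Fin.sum_univ_three]
  have c0 := hC.mul1 _ _ (hC.entry i 0).1 (hC.const (P 0 i)).1
  have c1 := hC.mul1 _ _ (hC.entry i 1).1 (hC.const (P 1 i)).1
  have c2 := hC.mul1 _ _ (hC.entry i 2).1 (hC.const (P 2 i)).1
  rw [h1, hC.dadd Y hY _ _ (hC.add1 _ _ c0 c1) c2 g, hC.dadd Y hY _ _ c0 c1 g,
    hC.dmul Y hY _ _ (hC.entry i 0).1 (hC.const (P 0 i)).1 g,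
    hC.dmul Y hY _ _ (hC.entry i 1).1 (hC.const (P 1 i)).1 g,
    hC.dmul Y hY _ _ (hC.entry i 2).1 (hC.const (P 2 i)).1 g,
    hC.dentry Y hY, hC.dentry Y hY, hC.dentry Y hY, hC.dconst, hC.dconst, hC.dconst,
    Matrix.mul_apply (M := g.1 * Y) (N := P), Fin.sum_univ_three]
  ring

include hC in
theorem d_tg {Y : Matrix (Fin 3) (Fin 3) ℂ} (hY : Y ∈ su 3) :
    dX Y (tg : SU 3 → ℂ) = fun g => ((g.1 * Y) 0 0 + (g.1 * Y) 1 1) + (g.1 * Y) 2 2 := by
  funext g
  rw [tg_eq, hC.dadd Y hY _ _ (hC.add1 _ _ (hC.entry 0 0).1 (hC.entry 1 1).1) (hC.entry 2 2).1 g,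
    hC.dadd Y hY _ _ (hC.entry 0 0).1 (hC.entry 1 1).1 g,
    hC.dentry Y hY, hC.dentry Y hY, hC.dentry Y hY]

include hC in
theorem dd_tg {Y : Matrix (Fin 3) (Fin 3) ℂ} (hY : Y ∈ su 3) (g : SU 3) :
    dX Y (dX Y (tg : SU 3 → ℂ)) g = (g.1 * Y * Y).trace := by
  rw [d_tg hC hY, hC.dadd Y hY _ _ (hC.add1 _ _ (c1_lin hC Y 0) (c1_lin hC Y 1)) (c1_lin hC Y 2) g,
    hC.dadd Y hY _ _ (c1_lin hC Y 0) (c1_lin hC Y 1) g, d_lin hC hY, d_lin hC hY, d_lin hC hY,
    Matrix.trace, Fin.sum_univ_three]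
  rfl

include hX hS in
theorem cas (i j k l : Fin 3) : ∑ a, X a i j * X a k l =
    -(1 / 6) * ((if i = l ∧ j = k then 1 else 0) - (if i = j ∧ k = l then 1 / 3 else 0)) := by
  rw [hS 3 (by norm_num) X hX i j k l]
  norm_num

include hX hS in
theorem casT (P Q : Matrix (Fin 3) (Fin 3) ℂ) :
    ∑ a, (P * X a).trace * (Q * X a).trace =
      -(1 / 6) * ((P * Q).trace - 1 / 3 * P.trace * Q.trace) := by
  have h1 : ∀ a, (P * X a).trace * (Q * X a).trace =
      ∑ i, ∑ j, ∑ k, ∑ l, (P i j * Q k l) * (X a j i * X a l k) := by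
    intro a
    simp only [Matrix.trace, Matrix.diag_apply, Matrix.mul_apply, Fin.sum_univ_three]
    ring
  simp only [h1]
  rw [Finset.sum_comm]
  have h2 : ∀ i j k l : Fin 3, ∑ a, (P i j * Q k l) * (X a j i * X a l k) =
      (P i j * Q k l) * (-(1 / 6) * ((if j = k ∧ i = l then 1 else 0) -
        (if j = i ∧ l = k then 1 / 3 else 0))) := by
    intro i j k l
    rw [← Finset.mul_sum, cas hX hS]
  have h3 : ∀ i : Fin 3, ∑ a, ∑ j, ∑ k, ∑ l, (P i j * Q k l) * (X a j i * X a l k) =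
      ∑ j, ∑ k, ∑ l, (P i j * Q k l) * (-(1 / 6) * ((if j = k ∧ i = l then 1 else 0) -
        (if j = i ∧ l = k then 1 / 3 else 0))) := by
    intro i
    rw [Finset.sum_comm]
    refine Finset.sum_congr rfl fun j _ => ?_
    rw [Finset.sum_comm]
    refine Finset.sum_congr rfl fun k _ => ?_
    rw [Finset.sum_comm]
    exact Finset.sum_congr rfl fun l _ => h2 i j k l
  simp only [h3]
  simp only [Matrix.trace, Matrix.diag_apply, Matrix.mul_apply, Fin.sum_univ_three]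
  simp
  ring

include hX hS in
theorem cas2 : ∑ a, X a * X a = (-(4 / 9) : ℂ) • (1 : Matrix (Fin 3) (Fin 3) ℂ) := by
  ext i k
  rw [Matrix.sum_apply]
  simp only [Matrix.mul_apply]
  rw [Finset.sum_comm]
  have h1 : ∀ j : Fin 3, ∑ a, X a i j * X a j k =
      -(1 / 6) * ((if i = k ∧ j = j then 1 else 0) - (if i = j ∧ j = k then 1 / 3 else 0)) :=
    fun j => cas hX hS i j j k
  simp only [h1, Matrix.smul_apply, Matrix.one_apply, Fin.sum_univ_three]
  fin_cases i <;> fin_cases k <;> simp [Fin.ext_iff] <;> norm_num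

include hC hX hS in
theorem lap_tg (g : SU 3) : lap X tg g = -(4 / 9) * tg g := by
  unfold lap
  have h1 : ∀ a, dX (X a) (dX (X a) tg) g = (g.1 * (X a * X a)).trace := fun a => by
    rw [dd_tg hC (hX.mem a), Matrix.mul_assoc]
  simp only [h1]
  rw [← Matrix.trace_sum, ← Matrix.mul_sum, cas2 hX hS, Matrix.mul_smul, Matrix.mul_one,
    Matrix.trace_smul, smul_eq_mul]
  rfl

include hC in
theorem d_tg' {Y : Matrix (Fin 3) (Fin 3) ℂ} (hY : Y ∈ su 3) (g : SU 3) :
    dX Y (tg : SU 3 → ℂ) g = (g.1 * Y).trace := by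
  rw [d_tg hC hY, Matrix.trace, Fin.sum_univ_three]
  rfl

include hC in
theorem d_tgc {Y : Matrix (Fin 3) (Fin 3) ℂ} (hY : Y ∈ su 3) (g : SU 3) :
    dX Y (fun g : SU 3 => conj (tg g)) g = -(g.1ᴴ * Y).trace := by
  rw [hC.dconj Y hY tg (c2_tg hC).1 g, d_tg' hC hY]
  have h1 : conj ((g.1 * Y).trace) = ((g.1 * Y)ᴴ).trace := (Matrix.trace_conjTranspose _).symm
  rw [h1, Matrix.conjTranspose_mul, hY.1, Matrix.neg_mul, Matrix.trace_neg,
    Matrix.trace_mul_comm]

theorem adj (g : SU 3) : g.1ᴴ = g.1.adjugate := by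
  have h1 : g.1 ∈ Matrix.specialUnitaryGroup (Fin 3) ℂ := g.2
  rw [Matrix.mem_specialUnitaryGroup_iff] at h1
  have h2 : g.1ᴴ * g.1 = 1 := Matrix.mem_unitaryGroup_iff'.1 h1.1
  have h3 : g.1 * g.1.adjugate = 1 := by rw [Matrix.mul_adjugate, h1.2, one_smul]
  calc g.1ᴴ = g.1ᴴ * (g.1 * g.1.adjugate) := by rw [h3, Matrix.mul_one]
    _ = g.1.adjugate := by rw [← Matrix.mul_assoc, h2, Matrix.one_mul]

theorem trace_adj (A : Matrix (Fin 3) (Fin 3) ℂ) :
    (A * A).trace = A.trace ^ 2 - 2 * A.adjugate.trace := by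
  rw [Matrix.adjugate_fin_three]
  simp only [Matrix.trace, Matrix.diag_apply, Matrix.mul_apply, Fin.sum_univ_three]
  simp
  ring

theorem conj_tg (g : SU 3) : conj (tg g) = g.1ᴴ.trace := (Matrix.trace_conjTranspose _).symm

theorem trace_sq (g : SU 3) : (g.1 * g.1).trace = tg g ^ 2 - 2 * conj (tg g) := by
  rw [trace_adj, ← adj, conj_tg]
  rfl

include hC hX hS in
theorem gam_xx (g : SU 3) : Gam X tg tg g = -(tg g ^ 2) / 9 + conj (tg g) / 3 := by
  unfold Gam
  have h1 : ∀ a, dX (X a) tg g = (g.1 * X a).trace := fun a => d_tg' hC (hX.mem a) g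
  simp only [h1]
  rw [casT hX hS, trace_sq]
  change -(1 / 6) * (tg g ^ 2 - 2 * conj (tg g) - 1 / 3 * tg g * tg g) = _
  ring

include hC hX hS in
theorem gam_yx (g : SU 3) :
    Gam X (fun g : SU 3 => conj (tg g)) tg g = 1 / 2 - tg g * conj (tg g) / 18 := by
  unfold Gam
  have h1 : ∀ a, dX (X a) tg g = (g.1 * X a).trace := fun a => d_tg' hC (hX.mem a) g
  have h2 : ∀ a, dX (X a) (fun g : SU 3 => conj (tg g)) g = -(g.1ᴴ * X a).trace :=
    fun a => d_tgc hC (hX.mem a) g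
  simp only [h1, h2, neg_mul, Finset.sum_neg_distrib]
  have h3 : g.1ᴴ * g.1 = 1 := by
    have h1 : g.1 ∈ Matrix.specialUnitaryGroup (Fin 3) ℂ := g.2
    rw [Matrix.mem_specialUnitaryGroup_iff] at h1
    exact Matrix.mem_unitaryGroup_iff'.1 h1.1
  rw [casT hX hS, h3, Matrix.trace_one, Fintype.card_fin, ← conj_tg]
  change -(-(1 / 6) * (((3 : ℕ) : ℂ) - 1 / 3 * conj (tg g) * tg g)) = _
  push_cast
  ring

include hC hX hS in
theorem gam_xy (g : SU 3) :
    Gam X tg (fun g : SU 3 => conj (tg g)) g = 1 / 2 - tg g * conj (tg g) / 18 := by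
  rw [← gam_yx hC hX hS]
  unfold Gam
  exact Finset.sum_congr rfl fun a _ => mul_comm _ _

include hC hX hS in
theorem gam_yy (g : SU 3) : Gam X (fun g : SU 3 => conj (tg g)) (fun g : SU 3 => conj (tg g)) g =
    -(conj (tg g) ^ 2) / 9 + tg g / 3 := by
  unfold Gam
  have h2 : ∀ a, dX (X a) (fun g : SU 3 => conj (tg g)) g = -(g.1ᴴ * X a).trace :=
    fun a => d_tgc hC (hX.mem a) g
  simp only [h2, neg_mul_neg]
  have h3 : (g.1ᴴ * g.1ᴴ).trace = conj (tg g) ^ 2 - 2 * tg g := by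
    have h4 : g.1ᴴ * g.1ᴴ = (g.1 * g.1)ᴴ := by rw [Matrix.conjTranspose_mul]
    rw [h4, Matrix.trace_conjTranspose, trace_sq]
    simp
  rw [casT hX hS, h3, ← conj_tg]
  ring

include hC hX hS in
theorem lap_tgc (g : SU 3) : lap X (fun g : SU 3 => conj (tg g)) g = -(4 / 9) * conj (tg g) := by
  unfold lap
  have h1 : ∀ a, dX (X a) (dX (X a) (fun g : SU 3 => conj (tg g))) g =
      conj (dX (X a) (dX (X a) tg) g) := by
    intro a
    have h2 : dX (X a) (fun g : SU 3 => conj (tg g)) = fun g => conj (dX (X a) tg g) :=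
      funext fun g => hC.dconj _ (hX.mem a) tg (c2_tg hC).1 g
    rw [h2, hC.dconj _ (hX.mem a) _ ((c2_tg hC).2 _ (hX.mem a)) g]
  simp only [h1]
  rw [← map_sum]
  have h3 := lap_tg hC hX hS g
  unfold lap at h3
  rw [h3, map_mul, map_neg, map_div₀, Complex.conj_ofNat, Complex.conj_ofNat]

/-- the second reflection -/
theorem anti2 (hA : ALTF) (x y : ℂ) (p q : ℤ) : ps x y (p + q) (-q) = - ps x y p q := by
  unfold ps
  have h1 := hA.shift x y ![p + q + -q, -q, 0] q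
  rw [← h1]
  have h2 : (fun i => ![p + q + -q, -q, 0] i + q) =
      (![p + q, q, 0] : Fin 3 → ℤ) ∘ (Equiv.swap (1 : Fin 3) 2) := by
    funext i
    fin_cases i
    · simp [Equiv.swap_apply_of_ne_of_ne]
    · simp
    · simp
  rw [h2, hA.perm, Equiv.Perm.sign_swap (by decide)]
  simp

/-- the statement of the induction -/
structure Dt (X : Fin (3 ^ 2 - 1) → Matrix (Fin 3) (Fin 3) ℂ) (p q : ℤ) : Prop where
  c2 : C2 (px p q)
  l : ∀ g, lap X (px p q) g = -(((p : ℂ) ^ 2 + p * q + q ^ 2 - 3) / 9) * px p q g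
  gx : ∀ g, Gam X tg (px p q) g = -(1 / 18) * ((2 * p + q - 3) * px (p + 1) q g +
    (q - p - 3) * px (p - 1) (q + 1) g - (p + 2 * q + 3) * px p (q - 1) g)
  gy : ∀ g, Gam X (fun g : SU 3 => conj (tg g)) (px p q) g =
    -(1 / 18) * ((2 * q + p - 3) * px p (q + 1) g +
    (p - q - 3) * px (p + 1) (q - 1) g - (q + 2 * p + 3) * px (p - 1) q g)

include hC hX in
theorem Dt0q (hA : ALTF) (q : ℤ) : Dt X 0 q := by
  have h0 : px 0 q = fun _ => 0 := funext fun g => hA.p0 _ _ q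
  have e1 : ∀ g, px (-1) (q + 1) g = -px 1 q g := fun g => by
    have := hA.anti (tg g) (conj (tg g)) 1 q
    rw [add_comm 1 q] at this
    exact this
  have e2 : ∀ g, px (-1) q g = -px 1 (q - 1) g := fun g => by
    have := hA.anti (tg g) (conj (tg g)) 1 (q - 1)
    rw [show (1 : ℤ) + (q - 1) = q by ring] at this
    exact this
  refine ⟨?_, fun g => ?_, fun g => ?_, fun g => ?_⟩
  · rw [h0]; exact hC.const 0
  · rw [h0, lap_const hC hX]; simp
  · rw [h0, gam_const hC hX, zero_add, zero_sub, e1]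
    have h3 : px 0 (q - 1) g = 0 := hA.p0 _ _ _
    rw [h3]
    push_cast
    ring
  · rw [h0, gam_const hC hX, zero_add, zero_sub, e2]
    have h3 : px 0 (q + 1) g = 0 := hA.p0 _ _ _
    rw [h3]
    push_cast
    ring

include hC hX in
theorem Dtp0 (hA : ALTF) (p : ℤ) : Dt X p 0 := by
  have h0 : px p 0 = fun _ => 0 := funext fun g => hA.q0 _ _ p
  have e1 : ∀ g, px p (-1) g = -px (p - 1) 1 g := fun g => by
    have := anti2 hA (tg g) (conj (tg g)) (p - 1) 1
    rw [sub_add_cancel] at this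
    exact this
  have e2 : ∀ g, px (p + 1) (-1) g = -px p 1 g := fun g => anti2 hA (tg g) (conj (tg g)) p 1
  refine ⟨?_, fun g => ?_, fun g => ?_, fun g => ?_⟩
  · rw [h0]; exact hC.const 0
  · rw [h0, lap_const hC hX]; simp
  · rw [h0, gam_const hC hX, zero_add, zero_sub, e1]
    have h3 : px (p + 1) 0 g = 0 := hA.q0 _ _ _
    rw [h3]
    push_cast
    ring
  · rw [h0, gam_const hC hX, zero_add, zero_sub, e2]
    have h3 : px (p - 1) 0 g = 0 := hA.q0 _ _ _
    rw [h3]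
    push_cast
    ring

include hC hX in
theorem Dt11 (hA : ALTF) : Dt X 1 1 := by
  have h0 : px 1 1 = fun _ => 1 := funext fun g => hA.one _ _
  have z1 : ∀ (q : ℤ) g, px 0 q g = 0 := fun q g => hA.p0 _ _ q
  have z2 : ∀ (p : ℤ) g, px p 0 g = 0 := fun p g => hA.q0 _ _ p
  refine ⟨?_, fun g => ?_, fun g => ?_, fun g => ?_⟩
  · rw [h0]; exact hC.const 1
  · rw [h0, lap_const hC hX]; push_cast; ring
  · rw [h0, gam_const hC hX, sub_self (1 : ℤ), z1, z2]
    push_cast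
    ring
  · rw [h0, gam_const hC hX, sub_self (1 : ℤ), z1, z2]
    push_cast
    ring

include hC hX hS in
theorem step_x (hA : ALTF) (p q : ℤ) (h0 : Dt X p q) (h1 : Dt X (p - 1) (q + 1))
    (h2 : Dt X p (q - 1)) : Dt X (p + 1) q := by
  have xp : ∀ (a b : ℤ) (g : SU 3), tg g * px a b g =
      px (a + 1) b g + px (a - 1) (b + 1) g + px a (b - 1) g := fun a b g => hA.xp _ _ a b
  have yp : ∀ (a b : ℤ) (g : SU 3), conj (tg g) * px a b g =
      px a (b + 1) g + px (a + 1) (b - 1) g + px (a - 1) b g := fun a b g => hA.yp _ _ a b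
  have hF : px (p + 1) q = fun g => (tg g * px p q g + (-1) * px (p - 1) (q + 1) g) +
      (-1) * px p (q - 1) g := by
    funext g
    rw [xp]; ring
  have cx := c2_tg hC
  have cxf := hC.mul _ _ cx h0.c2
  have cn1 := c2_neg hC h1.c2
  have cn2 := c2_neg hC h2.c2
  have ca := hC.add _ _ cxf cn1
  have gen : ∀ (f : SU 3 → ℂ) (g : SU 3), Gam X f (px (p + 1) q) g =
      Gam X f tg g * px p q g + tg g * Gam X f (px p q) g - Gam X f (px (p - 1) (q + 1)) g -
        Gam X f (px p (q - 1)) g := by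
    intro f g
    rw [hF, gam_add hC hX _ _ _ ca.1 cn2.1, gam_add hC hX _ _ _ cxf.1 cn1.1,
      gam_mul hC hX _ _ _ cx.1 h0.c2.1, gam_cmul hC hX _ _ _ h1.c2.1,
      gam_cmul hC hX _ _ _ h2.c2.1]
    ring
  refine ⟨?_, fun g => ?_, fun g => ?_, fun g => ?_⟩
  · rw [hF]; exact hC.add _ _ ca cn2
  · have e : lap X (px (p + 1) q) g = lap X tg g * px p q g + 2 * Gam X tg (px p q) g +
        tg g * lap X (px p q) g - lap X (px (p - 1) (q + 1)) g - lap X (px p (q - 1)) g := by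
      rw [hF, lap_add hC hX _ _ ca cn2, lap_add hC hX _ _ cxf cn1, lap_mul hC hX _ _ cx h0.c2,
        lap_cmul hC hX _ _ h1.c2, lap_cmul hC hX _ _ h2.c2]
      ring
    rw [e, lap_tg hC hX hS, h0.gx, h0.l, h1.l, h2.l]
    have k1 := xp p q g
    push_cast
    linear_combination (-(4 / 9) - (((p : ℂ) ^ 2 + p * q + q ^ 2 - 3) / 9)) * k1
  · rw [gen, gam_xx hC hX hS, h0.gx, h1.gx, h2.gx]
    have k0 := xp p q g
    have k1 := xp (p + 1) q g
    have k2 := xp (p - 1) (q + 1) g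
    have k3 := xp p (q - 1) g
    have k4 := yp p q g
    push_cast
    ring_nf at k0 k1 k2 k3 k4 ⊢
    linear_combination (-(tg g) / 9) * k0 + (-(1 / 18) * (2 * p + q - 3) - 1 / 9) * k1 +
      (-(1 / 18) * (q - p - 3) - 1 / 9) * k2 + ((1 / 18) * (p + 2 * q + 3) - 1 / 9) * k3 +
      (1 / 3) * k4
  · rw [gen, gam_yx hC hX hS, h0.gy, h1.gy, h2.gy]
    have k0 := xp p q g
    have k1 := xp p (q + 1) g
    have k2 := xp (p + 1) (q - 1) g
    have k3 := xp (p - 1) q g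
    have k4 := yp p q g
    push_cast
    ring_nf at k0 k1 k2 k3 k4 ⊢
    linear_combination (-(tg g) / 18) * k4 + (-(1 / 18) * (2 * q + p - 3) - 1 / 18) * k1 +
      (-(1 / 18) * (p - q - 3) - 1 / 18) * k2 + ((1 / 18) * (q + 2 * p + 3) - 1 / 18) * k3

include hC hX hS in
theorem step_y (hA : ALTF) (p q : ℤ) (h0 : Dt X p q) (h1 : Dt X (p + 1) (q - 1))
    (h2 : Dt X (p - 1) q) : Dt X p (q + 1) := by
  have xp : ∀ (a b : ℤ) (g : SU 3), tg g * px a b g =
      px (a + 1) b g + px (a - 1) (b + 1) g + px a (b - 1) g := fun a b g => hA.xp _ _ a b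
  have yp : ∀ (a b : ℤ) (g : SU 3), conj (tg g) * px a b g =
      px a (b + 1) g + px (a + 1) (b - 1) g + px (a - 1) b g := fun a b g => hA.yp _ _ a b
  have hF : px p (q + 1) = fun g => (conj (tg g) * px p q g + (-1) * px (p + 1) (q - 1) g) +
      (-1) * px (p - 1) q g := by
    funext g
    rw [yp]; ring
  have cx := c2_tgc hC
  have cxf := hC.mul _ _ cx h0.c2
  have cn1 := c2_neg hC h1.c2
  have cn2 := c2_neg hC h2.c2
  have ca := hC.add _ _ cxf cn1
  have gen : ∀ (f : SU 3 → ℂ) (g : SU 3), Gam X f (px p (q + 1)) g =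
      Gam X f (fun g : SU 3 => conj (tg g)) g * px p q g + conj (tg g) * Gam X f (px p q) g -
        Gam X f (px (p + 1) (q - 1)) g - Gam X f (px (p - 1) q) g := by
    intro f g
    rw [hF, gam_add hC hX _ _ _ ca.1 cn2.1, gam_add hC hX _ _ _ cxf.1 cn1.1,
      gam_mul hC hX _ _ _ cx.1 h0.c2.1, gam_cmul hC hX _ _ _ h1.c2.1,
      gam_cmul hC hX _ _ _ h2.c2.1]
    ring
  refine ⟨?_, fun g => ?_, fun g => ?_, fun g => ?_⟩
  · rw [hF]; exact hC.add _ _ ca cn2
  · have e : lap X (px p (q + 1)) g = lap X (fun g : SU 3 => conj (tg g)) g * px p q g +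
        2 * Gam X (fun g : SU 3 => conj (tg g)) (px p q) g +
        conj (tg g) * lap X (px p q) g - lap X (px (p + 1) (q - 1)) g -
        lap X (px (p - 1) q) g := by
      rw [hF, lap_add hC hX _ _ ca cn2, lap_add hC hX _ _ cxf cn1, lap_mul hC hX _ _ cx h0.c2,
        lap_cmul hC hX _ _ h1.c2, lap_cmul hC hX _ _ h2.c2]
      ring
    rw [e, lap_tgc hC hX hS, h0.gy, h0.l, h1.l, h2.l]
    have k1 := yp p q g
    push_cast
    linear_combination (-(4 / 9) - (((p : ℂ) ^ 2 + p * q + q ^ 2 - 3) / 9)) * k1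
  · rw [gen, gam_xy hC hX hS, h0.gx, h1.gx, h2.gx]
    have k0 := yp p q g
    have k1 := yp (p + 1) q g
    have k2 := yp (p - 1) (q + 1) g
    have k3 := yp p (q - 1) g
    push_cast
    ring_nf at k0 k1 k2 k3 ⊢
    have k4 := xp p q g
    ring_nf at k4
    linear_combination (-(conj (tg g)) / 18) * k4 + (-(1 / 18) * (2 * p + q - 3) - 1 / 18) * k1 +
      (-(1 / 18) * (q - p - 3) - 1 / 18) * k2 + ((1 / 18) * (p + 2 * q + 3) - 1 / 18) * k3
  · rw [gen, gam_yy hC hX hS, h0.gy, h1.gy, h2.gy]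
    have k0 := yp p q g
    have k1 := yp p (q + 1) g
    have k2 := yp (p + 1) (q - 1) g
    have k3 := yp (p - 1) q g
    have k4 := xp p q g
    push_cast
    ring_nf at k0 k1 k2 k3 k4 ⊢
    linear_combination (-(conj (tg g)) / 9) * k0 + (-(1 / 18) * (2 * q + p - 3) - 1 / 9) * k1 +
      (-(1 / 18) * (p - q - 3) - 1 / 9) * k2 + ((1 / 18) * (q + 2 * p + 3) - 1 / 9) * k3 +
      (1 / 3) * k4

include hC hX hS in
theorem main (hA : ALTF) : ∀ N p q : ℕ, p + q = N → Dt X p q := by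
  intro N
  induction N using Nat.strong_induction_on with
  | _ N ih =>
    intro p q hpq
    rcases Nat.eq_zero_or_pos p with rfl | hp
    · exact_mod_cast Dt0q hC hX hA q
    rcases Nat.eq_zero_or_pos q with rfl | hq
    · exact_mod_cast Dtp0 hC hX hA p
    rcases Nat.lt_or_ge 1 p with hp1 | hp1
    · obtain ⟨r, rfl⟩ : ∃ r, p = r + 1 + 1 := ⟨p - 2, by omega⟩
      obtain ⟨s, rfl⟩ : ∃ s, q = s + 1 := ⟨q - 1, by omega⟩
      have i0 := ih (r + 1 + (s + 1)) (by omega) (r + 1) (s + 1) rfl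
      have i1 := ih (r + (s + 1 + 1)) (by omega) r (s + 1 + 1) rfl
      have i2 := ih (r + 1 + s) (by omega) (r + 1) s rfl
      push_cast at i0 i1 i2 ⊢
      refine step_x hC hX hS hA ((r : ℤ) + 1) ((s : ℤ) + 1) i0 ?_ ?_
      · rw [add_sub_cancel_right]; exact i1
      · rw [add_sub_cancel_right]; exact i2
    · have hp2 : p = 1 := by omega
      subst hp2
      rcases Nat.lt_or_ge 1 q with hq1 | hq1
      · obtain ⟨s, rfl⟩ : ∃ s, q = s + 1 + 1 := ⟨q - 2, by omega⟩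
        have i0 := ih (1 + (s + 1)) (by omega) 1 (s + 1) rfl
        have i1 := ih (2 + s) (by omega) 2 s rfl
        have i2 := ih (0 + (s + 1)) (by omega) 0 (s + 1) rfl
        push_cast at i0 i1 i2 ⊢
        refine step_y hC hX hS hA 1 ((s : ℤ) + 1) i0 ?_ ?_
        · rw [add_sub_cancel_right]; exact i1
        · rw [sub_self]; exact i2
      · have hq2 : q = 1 := by omega
        subst hq2
        exact_mod_cast Dt11 hC hX hA

end three

end LAPX

theorem t_LAPX : M_LAPX := by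
  intro hCALC hCAS hALT X hX p q
  have h := LAPX.main (hCALC 3) hX hCAS hALT (p + q) p q rfl
  refine ⟨h.c2, fun g => ?_⟩
  rw [h.l g]
  push_cast
  ring

end STZ
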