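import Pool.Agent.STZ.StmtsN
import Pool.Agent.STZ.LAPX

/-!
# STZ, module LAA: the Laplace operator and the generators for `SU(3)`
-/

namespace STZ

open MeasureTheory Matrix

open scoped ComplexConjugate Matrix Real

noncomputable section

namespace LAA

/-- the group `SU(3)` as a subgroup -/
abbrev T3 : Subgroup (SU 3) := ⊤

theorem frame {X : Fin 8 → Matrix (Fin 3) (Fin 3) ℂ} (hF : FrameH T3 6 X) :
    Frame (n := 3) X := by
  refine ⟨fun a => (hF.mem a).1, fun a b => ?_⟩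
  have h := hF.orth a b
  rw [← h]
  push_cast
  norm_num

section

variable {X : Fin 8 → Matrix (Fin 3) (Fin 3) ℂ} (hF : FrameH T3 6 X) (hS : S_CAS)

include hF hS in
theorem casT (P Q : Matrix (Fin 3) (Fin 3) ℂ) :
    ∑ a, (P * X a).trace * (Q * X a).trace =
      -(1 / 6) * ((P * Q).trace - 1 / 3 * P.trace * Q.trace) :=
  LAPX.casT (X := X) (frame hF) hS P Q

include hF hS in
theorem cas2 : ∑ a, X a * X a = (-(4 / 9) : ℂ) • (1 : Matrix (Fin 3) (Fin 3) ℂ) :=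
  LAPX.cas2 (X := X) (frame hF) hS

end

theorem conj_trace (g : T3) : conj g.1.1.trace = g.1.1ᴴ.trace :=
  (Matrix.trace_conjTranspose _).symm

theorem trace_sq (g : T3) : (g.1.1 * g.1.1).trace = g.1.1.trace ^ 2 - 2 * conj g.1.1.trace :=
  LAPX.trace_sq g.1

theorem trace_sqc (g : T3) :
    (g.1.1ᴴ * g.1.1ᴴ).trace = conj g.1.1.trace ^ 2 - 2 * g.1.1.trace := by
  have h4 : g.1.1ᴴ * g.1.1ᴴ = (g.1.1 * g.1.1)ᴴ := by rw [Matrix.conjTranspose_mul]
  rw [h4, Matrix.trace_conjTranspose, trace_sq]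
  simp

theorem star_mul (g : T3) : g.1.1ᴴ * g.1.1 = 1 := by
  have h1 : g.1.1 ∈ Matrix.specialUnitaryGroup (Fin 3) ℂ := g.1.2
  rw [Matrix.mem_specialUnitaryGroup_iff] at h1
  exact Matrix.mem_unitaryGroup_iff'.1 h1.1

section

variable (hC : S_CALH) (hT : S_TRH) {Y : Matrix (Fin 3) (Fin 3) ℂ} (hY : Y ∈ lie T3)

include hT hY in
theorem d0 (g : T3) : dH Y (xA 0) g = (g.1.1 * Y).trace := ((hT 3 ⊤).2.2 Y hY g).1

include hT hY in
theorem dd0 (g : T3) : dH Y (dH Y (xA 0)) g = (g.1.1 * Y * Y).trace :=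
  ((hT 3 ⊤).2.2 Y hY g).2.2.1

include hT in
theorem c20 : C2H (xA 0) := (hT 3 ⊤).1

theorem xA1 : xA 1 = fun g : T3 => conj (xA 0 g) := rfl

include hC hT in
theorem c21 : C2H (xA 1) := (hC 3 ⊤).cj _ (c20 hT)

include hC hT hY in
theorem d1' (g : T3) : dH Y (xA 1) g = conj (dH Y (xA 0) g) := by
  rw [xA1]
  exact (hC 3 ⊤).dconj Y hY _ (c20 hT).1 g

include hC hT hY in
theorem dd1 (g : T3) : dH Y (dH Y (xA 1)) g = conj (dH Y (dH Y (xA 0)) g) := by
  have h1 : dH Y (xA 1) = fun g => conj (dH Y (xA 0) g) := funext fun g => d1' hC hT hY g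
  rw [h1]
  exact (hC 3 ⊤).dconj Y hY _ ((c20 hT).2 Y hY) g

include hC hT hY in
theorem d1 (g : T3) : dH Y (xA 1) g = -(g.1.1ᴴ * Y).trace := by
  rw [d1' hC hT hY, d0 hT hY]
  have h1 : conj ((g.1.1 * Y).trace) = ((g.1.1 * Y)ᴴ).trace := (Matrix.trace_conjTranspose _).symm
  rw [h1, Matrix.conjTranspose_mul, hY.1.1, Matrix.neg_mul, Matrix.trace_neg,
    Matrix.trace_mul_comm]

end

section

variable (hC : S_CALH) (hT : S_TRH) {X : Fin 8 → Matrix (Fin 3) (Fin 3) ℂ}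
  (hF : FrameH T3 6 X) (hS : S_CAS)

include hT hF hS in
theorem lap0 (g : T3) : lapH X (xA 0) g = -(4 / 9) * xA 0 g := by
  unfold lapH
  have h1 : ∀ a, dH (X a) (dH (X a) (xA 0)) g = (g.1.1 * (X a * X a)).trace := fun a => by
    rw [dd0 hT (hF.mem a), Matrix.mul_assoc]
  simp only [h1]
  rw [← Matrix.trace_sum, ← Matrix.mul_sum, cas2 hF hS, Matrix.mul_smul, Matrix.mul_one,
    Matrix.trace_smul, smul_eq_mul]
  rfl

include hC hT hF hS in
theorem lap1 (g : T3) : lapH X (xA 1) g = -(4 / 9) * xA 1 g := by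
  unfold lapH
  have h1 : ∀ a, dH (X a) (dH (X a) (xA 1)) g = conj (dH (X a) (dH (X a) (xA 0)) g) :=
    fun a => dd1 hC hT (hF.mem a) g
  simp only [h1]
  rw [← map_sum]
  have h3 := lap0 hT hF hS g
  unfold lapH at h3
  rw [h3, map_mul, map_neg, map_div₀, Complex.conj_ofNat, Complex.conj_ofNat]
  rfl

include hT hF hS in
theorem g00 (g : T3) : ∑ a, dH (X a) (xA 0) g * dH (X a) (xA 0) g =
    -(xA 0 g ^ 2) / 9 + xA 1 g / 3 := by
  simp only [fun a => d0 hT (hF.mem a) g]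
  rw [casT hF hS, trace_sq]
  change -(1 / 6) * (xA 0 g ^ 2 - 2 * xA 1 g - 1 / 3 * xA 0 g * xA 0 g) = _
  ring

include hC hT hF hS in
theorem g10 (g : T3) : ∑ a, dH (X a) (xA 1) g * dH (X a) (xA 0) g =
    1 / 2 - xA 0 g * xA 1 g / 18 := by
  simp only [fun a => d0 hT (hF.mem a) g, fun a => d1 hC hT (hF.mem a) g, neg_mul,
    Finset.sum_neg_distrib]
  rw [casT hF hS, star_mul, Matrix.trace_one, Fintype.card_fin, ← conj_trace]
  change -(-(1 / 6) * (((3 : ℕ) : ℂ) - 1 / 3 * xA 1 g * xA 0 g)) = _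
  push_cast
  ring

include hC hT hF hS in
theorem g01 (g : T3) : ∑ a, dH (X a) (xA 0) g * dH (X a) (xA 1) g =
    1 / 2 - xA 0 g * xA 1 g / 18 := by
  rw [← g10 hC hT hF hS]
  exact Finset.sum_congr rfl fun a _ => mul_comm _ _

include hC hT hF hS in
theorem g11 (g : T3) : ∑ a, dH (X a) (xA 1) g * dH (X a) (xA 1) g =
    -(xA 1 g ^ 2) / 9 + xA 0 g / 3 := by
  simp only [fun a => d1 hC hT (hF.mem a) g, neg_mul_neg]
  rw [casT hF hS, trace_sqc, ← conj_trace]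
  change -(1 / 6) * (xA 1 g ^ 2 - 2 * xA 0 g - 1 / 3 * xA 1 g * xA 1 g) = _
  ring

end

theorem kc : (((1 / 9 : ℝ)) : ℂ) = 1 / 9 := by push_cast; rfl

theorem Q0 : D1.Q (1 + Pi.single 0 1) = 7 := by
  simp [D1]

theorem Q1 : D1.Q (1 + Pi.single 1 1) = 7 := by
  simp [D1]

theorem Qo : D1.Q 1 = 3 := by
  simp [D1]

end LAA

theorem t_LAA : M_LAA := by
  intro hC hT hS
  refine ⟨?_, ?_, ?_⟩
  · intro i
    fin_cases i
    · exact LAA.c20 hT
    · exact LAA.c21 hC hT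
  · intro X hF i g
    rw [LAA.kc]
    fin_cases i
    · change lapH X (xA 0) g =
        -(1 / 9 * ((D1.Q (1 + Pi.single 0 1) : ℂ) - (D1.Q 1 : ℂ))) * xA 0 g
      rw [LAA.lap0 hT hF hS, LAA.Q0, LAA.Qo]
      push_cast
      ring
    · change lapH X (xA 1) g =
        -(1 / 9 * ((D1.Q (1 + Pi.single 1 1) : ℂ) - (D1.Q 1 : ℂ))) * xA 1 g
      rw [LAA.lap1 hC hT hF hS, LAA.Q1, LAA.Qo]
      push_cast
      ring
  · intro X hF i j g
    rw [LAA.kc]
    fin_cases i <;> fin_cases j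
    · change ∑ a, dH (X a) (xA 0) g * dH (X a) (xA 0) g =
        -(1 / 9 / 2) * (2 * xA 0 g ^ 2 - 6 * xA 1 g)
      rw [LAA.g00 hT hF hS]
      ring
    · change ∑ a, dH (X a) (xA 0) g * dH (X a) (xA 1) g =
        -(1 / 9 / 2) * (xA 0 g * xA 1 g - 9)
      rw [LAA.g01 hC hT hF hS]
      ring
    · change ∑ a, dH (X a) (xA 1) g * dH (X a) (xA 0) g =
        -(1 / 9 / 2) * (xA 0 g * xA 1 g - 9)
      rw [LAA.g10 hC hT hF hS]
      ring
    · change ∑ a, dH (X a) (xA 1) g * dH (X a) (xA 1) g =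
        -(1 / 9 / 2) * (2 * xA 1 g ^ 2 - 6 * xA 0 g)
      rw [LAA.g11 hC hT hF hS]
      ring

end

end STZ
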