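import Pool.Agent.STZ.StmtsN

/-!
# Module LAC: the Laplace operator of `Sp(2)`
-/

namespace STZ

open MeasureTheory Matrix

open scoped ComplexConjugate Matrix Real

noncomputable section

namespace LAC

abbrev M4 := Matrix (Fin 4) (Fin 4) ℂ

theorem J_sq : J4 * J4 = -1 := by
  ext i j
  fin_cases i <;> fin_cases j <;> simp [J4, Matrix.mul_apply, Fin.sum_univ_four]

theorem J_tr : J4ᵀ = -J4 := by
  ext i j
  fin_cases i <;> fin_cases j <;> simp [J4, Matrix.transpose_apply]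

theorem J_swap (i j : Fin 4) : J4 i j = -J4 j i := by
  have h := congrFun (congrFun J_tr j) i
  rw [Matrix.transpose_apply, Matrix.neg_apply] at h
  exact h

theorem J_sq_apply (i l : Fin 4) : ∑ j, J4 i j * J4 j l = -(if i = l then (1 : ℂ) else 0) := by
  have h := congrFun (congrFun J_sq i) l
  rw [Matrix.mul_apply, Matrix.neg_apply, Matrix.one_apply] at h
  exact h

/-- the frame identity -/
def CasId (X : Fin 10 → M4) : Prop := ∀ i j k l : Fin 4,
  ∑ a, X a i j * X a k l = -(1 / 12) * ((if i = l ∧ j = k then 1 else 0) - J4 i k * J4 j l)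

theorem tr_mul_apply (A X : M4) : (A * X).trace = ∑ j, ∑ i, A j i * X i j := rfl

/-- the four-fold sum -/
theorem sum_four (A B : Fin 4 → Fin 4 → ℂ) (X : Fin 10 → M4) :
    ∑ a, (∑ j, ∑ i, A j i * X a i j) * (∑ l, ∑ k, B l k * X a k l) =
      ∑ j, ∑ i, ∑ l, ∑ k, A j i * B l k * ∑ a, X a i j * X a k l := by
  have h1 : ∀ a, (∑ j, ∑ i, A j i * X a i j) * (∑ l, ∑ k, B l k * X a k l) =
      ∑ j, ∑ i, ∑ l, ∑ k, A j i * B l k * (X a i j * X a k l) := by
    intro a
    rw [Finset.sum_mul]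
    refine Finset.sum_congr rfl fun j _ => ?_
    rw [Finset.sum_mul]
    refine Finset.sum_congr rfl fun i _ => ?_
    rw [Finset.mul_sum]
    refine Finset.sum_congr rfl fun l _ => ?_
    rw [Finset.mul_sum]
    refine Finset.sum_congr rfl fun k _ => ?_
    ring
  simp only [h1]
  rw [Finset.sum_comm]
  refine Finset.sum_congr rfl fun j _ => ?_
  rw [Finset.sum_comm]
  refine Finset.sum_congr rfl fun i _ => ?_
  rw [Finset.sum_comm]
  refine Finset.sum_congr rfl fun l _ => ?_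
  rw [Finset.sum_comm]
  refine Finset.sum_congr rfl fun k _ => ?_
  rw [Finset.mul_sum]

/-- the trace of `A J Bᵀ J` -/
theorem trJ (A B : M4) : (A * J4 * Bᵀ * J4).trace =
    -∑ j, ∑ i, ∑ l, ∑ k, A j i * B l k * (J4 i k * J4 j l) := by
  have h1 : (A * J4 * Bᵀ * J4).trace = ∑ j, ∑ l, (A * J4 * Bᵀ) j l * J4 l j := rfl
  have h2 : ∀ j l, (A * J4 * Bᵀ) j l = ∑ k, ∑ i, A j i * J4 i k * B l k := by
    intro j l
    rw [Matrix.mul_apply]
    refine Finset.sum_congr rfl fun k _ => ?_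
    rw [Matrix.mul_apply, Finset.sum_mul]
    rfl
  rw [h1, ← Finset.sum_neg_distrib]
  refine Finset.sum_congr rfl fun j _ => ?_
  have h3 : ∀ l : Fin 4, ∑ k, ∑ i, A j i * J4 i k * B l k * J4 l j =
      ∑ i, ∑ k, -(A j i * B l k * (J4 i k * J4 j l)) := by
    intro l
    rw [Finset.sum_comm]
    refine Finset.sum_congr rfl fun i _ => Finset.sum_congr rfl fun k _ => ?_
    rw [J_swap l j]
    ring
  simp only [h2, Finset.sum_mul, h3]
  rw [Finset.sum_comm]
  simp only [Finset.sum_neg_distrib]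

/-- bilinear form -/
theorem tt {X : Fin 10 → M4} (hX : CasId X) (A B : M4) :
    ∑ a, (A * X a).trace * (B * X a).trace =
      -(1 / 12) * ((A * B).trace + (A * J4 * Bᵀ * J4).trace) := by
  have e1 : ∀ a, (A * X a).trace * (B * X a).trace =
      (∑ j, ∑ i, A j i * X a i j) * (∑ l, ∑ k, B l k * X a k l) := fun a => rfl
  rw [Finset.sum_congr rfl fun a _ => e1 a]
  rw [sum_four (fun j i => A j i) (fun l k => B l k) X]
  have h1 : ∀ i j k l : Fin 4, A j i * B l k * ∑ a, X a i j * X a k l =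
      -(1 / 12) * (A j i * B l k * (if i = l ∧ j = k then 1 else 0)) +
        1 / 12 * (A j i * B l k * (J4 i k * J4 j l)) := by
    intro i j k l
    rw [hX i j k l]
    ring
  simp only [h1, Finset.sum_add_distrib, ← Finset.mul_sum]
  have h2 : ∑ j, ∑ i, ∑ l, ∑ k, A j i * B l k * (if i = l ∧ j = k then (1 : ℂ) else 0) =
      ∑ j, ∑ i, A j i * B i j := by
    refine Finset.sum_congr rfl fun j _ => Finset.sum_congr rfl fun i _ => ?_
    rw [Finset.sum_eq_single i, Finset.sum_eq_single j]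
    · simp
    · intro k _ hk
      rw [if_neg (fun h => hk h.2.symm), mul_zero]
    · intro h
      exact absurd (Finset.mem_univ j) h
    · intro l _ hl
      refine Finset.sum_eq_zero fun k _ => ?_
      rw [if_neg (fun h => hl h.1.symm), mul_zero]
    · intro h
      exact absurd (Finset.mem_univ i) h
  rw [h2, trJ, tr_mul_apply]
  ring

/-- quadratic term -/
theorem tq {X : Fin 10 → M4} (hX : CasId X) (A B : M4) :
    ∑ a, (A * X a * B * X a).trace =
      -(1 / 12) * (A.trace * B.trace - (A * J4 * Bᵀ * J4).trace) := by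
  have h0 : ∀ a, (A * X a * B * X a).trace =
      ∑ p, ∑ q, ∑ r, ∑ s, A p q * B r s * (X a q r * X a s p) := by
    intro a
    have h1 : (A * X a * B * X a).trace = ∑ p, ∑ s, (A * X a * B) p s * X a s p := rfl
    have h2 : ∀ p s, (A * X a * B) p s = ∑ r, ∑ q, A p q * X a q r * B r s := by
      intro p s
      rw [Matrix.mul_apply]
      refine Finset.sum_congr rfl fun r _ => ?_
      rw [Matrix.mul_apply, Finset.sum_mul]
    rw [h1]
    refine Finset.sum_congr rfl fun p _ => ?_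
    simp only [h2, Finset.sum_mul]
    rw [Finset.sum_comm]
    have h3 : ∀ r : Fin 4, ∑ s, ∑ q, A p q * X a q r * B r s * X a s p =
        ∑ q, ∑ s, A p q * B r s * (X a q r * X a s p) := by
      intro r
      rw [Finset.sum_comm]
      refine Finset.sum_congr rfl fun q _ => Finset.sum_congr rfl fun s _ => ?_
      ring
    simp only [h3]
    rw [Finset.sum_comm]
  simp only [h0]
  have h1 : ∑ a, ∑ p, ∑ q, ∑ r, ∑ s, A p q * B r s * (X a q r * X a s p) =
      ∑ p, ∑ q, ∑ r, ∑ s, A p q * B r s * ∑ a, X a q r * X a s p := by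
    rw [Finset.sum_comm]
    refine Finset.sum_congr rfl fun p _ => ?_
    rw [Finset.sum_comm]
    refine Finset.sum_congr rfl fun q _ => ?_
    rw [Finset.sum_comm]
    refine Finset.sum_congr rfl fun r _ => ?_
    rw [Finset.sum_comm]
    refine Finset.sum_congr rfl fun s _ => ?_
    rw [Finset.mul_sum]
  rw [h1]
  have h2 : ∀ p q r s : Fin 4, A p q * B r s * ∑ a, X a q r * X a s p =
      -(1 / 12) * (A p q * B r s * (if q = p ∧ r = s then 1 else 0)) -
        1 / 12 * -(A p q * B r s * (J4 q s * J4 p r)) * -1 := by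
    intro p q r s
    rw [hX q r s p, J_swap p r]
    ring
  simp only [h2, Finset.sum_sub_distrib, ← Finset.mul_sum, ← Finset.sum_mul]
  have h3 : ∑ p, ∑ q, ∑ r, ∑ s, A p q * B r s * (if q = p ∧ r = s then (1 : ℂ) else 0) =
      A.trace * B.trace := by
    have h4 : A.trace * B.trace = ∑ p, ∑ r, A p p * B r r := Finset.sum_mul_sum _ _ _ _
    rw [h4]
    refine Finset.sum_congr rfl fun p _ => ?_
    rw [Finset.sum_eq_single p]
    · refine Finset.sum_congr rfl fun r _ => ?_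
      rw [Finset.sum_eq_single r]
      · simp
      · intro s _ hs
        rw [if_neg (fun h => hs h.2.symm), mul_zero]
      · intro h
        exact absurd (Finset.mem_univ r) h
    · intro q _ hq
      refine Finset.sum_eq_zero fun r _ => Finset.sum_eq_zero fun s _ => ?_
      rw [if_neg (fun h => hq h.1), mul_zero]
    · intro h
      exact absurd (Finset.mem_univ p) h
  rw [h3, trJ]
  simp only [Finset.sum_neg_distrib]
  ring

/-- the sum of the squares -/
theorem ts {X : Fin 10 → M4} (hX : CasId X) (A : M4) :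
    ∑ a, (A * X a * X a).trace = -(5 / 12) * A.trace := by
  have h1 : ∑ a, X a * X a = (-(5 / 12) : ℂ) • (1 : M4) := by
    ext i l
    rw [Matrix.sum_apply, Matrix.smul_apply, Matrix.one_apply]
    simp only [Matrix.mul_apply]
    rw [Finset.sum_comm]
    have h2 : ∀ j, ∑ a, X a i j * X a j l =
        -(1 / 12) * ((if i = l then 1 else 0) - J4 i j * J4 j l) := by
      intro j
      rw [hX i j j l]
      simp
    simp only [h2]
    rw [← Finset.mul_sum, Finset.sum_sub_distrib, J_sq_apply]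
    simp only [Finset.sum_const, Finset.card_univ, Fintype.card_fin, nsmul_eq_mul, smul_eq_mul]
    split_ifs
    · norm_num
    · norm_num
  have h2 : ∑ a, (A * X a * X a).trace = (A * ∑ a, X a * X a).trace := by
    rw [Finset.mul_sum, Matrix.trace_sum]
    refine Finset.sum_congr rfl fun a _ => ?_
    rw [Matrix.mul_assoc]
  rw [h2, h1, Matrix.mul_smul, Matrix.mul_one, Matrix.trace_smul, smul_eq_mul]

/-- the symplectic group is closed under transposition -/
theorem gJg {g : SU 4} (hg : g ∈ Sp2) : g.1 * J4 * g.1ᵀ = J4 := by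
  have h1 : g.1ᵀ * J4 * g.1 = J4 := hg
  have h2 : (-(J4 * g.1ᵀ * J4)) * g.1 = 1 := by
    have : (-(J4 * g.1ᵀ * J4)) * g.1 = -(J4 * (g.1ᵀ * J4 * g.1)) := by noncomm_ring
    rw [this, h1, J_sq, neg_neg]
  have h3 : g.1 * (-(J4 * g.1ᵀ * J4)) = 1 := mul_eq_one_comm.1 h2
  have h4 : g.1 * J4 * g.1ᵀ = (g.1 * (-(J4 * g.1ᵀ * J4))) * J4 := by
    have : (g.1 * (-(J4 * g.1ᵀ * J4))) * J4 = -(g.1 * J4 * g.1ᵀ * (J4 * J4)) := by noncomm_ring
    rw [this, J_sq]
    noncomm_ring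
  rw [h4, h3, Matrix.one_mul]

theorem trace_neg_one : (-1 : M4).trace = -4 := by
  rw [Matrix.trace_neg, Matrix.trace_one]
  simp

/-- the three contractions with `J` -/
theorem tj1 {g : SU 4} (hg : g ∈ Sp2) : (g.1 * J4 * g.1ᵀ * J4).trace = -4 := by
  rw [gJg hg, J_sq, trace_neg_one]

theorem tj2 {g : SU 4} (hg : g ∈ Sp2) : (g.1 * g.1 * J4 * g.1ᵀ * J4).trace = -g.1.trace := by
  have h : g.1 * g.1 * J4 * g.1ᵀ * J4 = -g.1 := by
    have : g.1 * g.1 * J4 * g.1ᵀ * J4 = g.1 * (g.1 * J4 * g.1ᵀ) * J4 := by noncomm_ring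
    rw [this, gJg hg, Matrix.mul_assoc, J_sq, Matrix.mul_neg, Matrix.mul_one]
  rw [h, Matrix.trace_neg]

theorem tj3 {g : SU 4} (hg : g ∈ Sp2) :
    (g.1 * g.1 * J4 * (g.1 * g.1)ᵀ * J4).trace = -4 := by
  have h : g.1 * g.1 * J4 * (g.1 * g.1)ᵀ * J4 = -1 := by
    rw [Matrix.transpose_mul]
    have : g.1 * g.1 * J4 * (g.1ᵀ * g.1ᵀ) * J4 = g.1 * (g.1 * J4 * g.1ᵀ) * g.1ᵀ * J4 := by
      noncomm_ring
    rw [this, gJg hg, gJg hg, J_sq]
  rw [h, trace_neg_one]

/-- the trace and the trace of the square -/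
def f1 (g : Sp2) : ℂ := g.1.1.trace

def f2 (g : Sp2) : ℂ := (g.1.1 * g.1.1).trace

def f3 (g : Sp2) : ℂ := f1 g * f1 g * (1 / 2) + (f2 g * (-1 / 2) + (-1))

theorem xC_zero : xC 0 = f1 := rfl

theorem xC_one : xC 1 = f3 := by
  funext g
  change (g.1.1.trace ^ 2 - (g.1.1 * g.1.1).trace) / 2 - 1 = _
  unfold f3 f1 f2
  ring

variable (hC : CALFH Sp2)

include hC in
theorem dcm {X : M4} (hX : X ∈ lie Sp2) {f : Sp2 → ℂ} (hf : C1H f) (c : ℂ) (g : Sp2) :
    dH X (fun g => f g * c) g = dH X f g * c := by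
  rw [hC.dmul X hX f (fun _ => c) hf (hC.const c).1 g, hC.dconst, mul_zero, add_zero]

include hC in
theorem c2_f3 (h1 : C2H f1) (h2 : C2H f2) : C2H f3 :=
  hC.add _ _ (hC.mul _ _ (hC.mul _ _ h1 h1) (hC.const _))
    (hC.add _ _ (hC.mul _ _ h2 (hC.const _)) (hC.const _))

include hC in
theorem d_f3 (h1 : C2H f1) (h2 : C2H f2) {X : M4} (hX : X ∈ lie Sp2) (g : Sp2) :
    dH X f3 g = f1 g * dH X f1 g + dH X f2 g * (-1 / 2) := by
  have e : f3 = fun g => (f1 g * f1 g * (1 / 2)) + (f2 g * (-1 / 2) + (-1)) := rfl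
  rw [e, hC.dadd X hX _ _ (hC.mul _ _ (hC.mul _ _ h1 h1) (hC.const _)).1
    (hC.add _ _ (hC.mul _ _ h2 (hC.const _)) (hC.const _)).1,
    dcm hC hX (f := fun g => f1 g * f1 g) (hC.mul _ _ h1 h1).1,
    hC.dadd X hX _ _ (hC.mul _ _ h2 (hC.const _)).1 (hC.const _).1, dcm hC hX h2.1,
    hC.dconst, hC.dmul X hX _ _ h1.1 h1.1]
  ring

include hC in
theorem dd_f3 (h1 : C2H f1) (h2 : C2H f2) {X : M4} (hX : X ∈ lie Sp2) (g : Sp2) :
    dH X (dH X f3) g = dH X f1 g * dH X f1 g + f1 g * dH X (dH X f1) g +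
      dH X (dH X f2) g * (-1 / 2) := by
  have e : dH X f3 = fun g => f1 g * dH X f1 g + dH X f2 g * (-1 / 2) :=
    funext fun g => d_f3 hC h1 h2 hX g
  have c1 := h1.2 X hX
  have c2 := h2.2 X hX
  rw [e, hC.dadd X hX _ _ (hC.mul1 _ _ h1.1 c1) (hC.mul1 _ _ c2 (hC.const _).1),
    hC.dmul X hX _ _ h1.1 c1, dcm hC hX c2]

end LAC

open LAC in
theorem t_LAC : M_LAC := by
  intro hCAL hTRH hCAS hPW
  have hC : CALFH Sp2 := hCAL 4 Sp2
  obtain ⟨h1, h2, hd⟩ := hTRH 4 Sp2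
  have h1' : C2H f1 := h1
  have h2' : C2H f2 := h2
  have hd1 : ∀ X ∈ lie Sp2, ∀ g : Sp2, dH X f1 g = (g.1.1 * X).trace := fun X hX g =>
    (hd X hX g).1
  have hd2 : ∀ X ∈ lie Sp2, ∀ g : Sp2, dH X f2 g = 2 * (g.1.1 * g.1.1 * X).trace := fun X hX g =>
    (hd X hX g).2.1
  have hd3 : ∀ X ∈ lie Sp2, ∀ g : Sp2, dH X (dH X f1) g = (g.1.1 * X * X).trace := fun X hX g =>
    (hd X hX g).2.2.1
  have hd4 : ∀ X ∈ lie Sp2, ∀ g : Sp2, dH X (dH X f2) g =
      2 * (g.1.1 * g.1.1 * X * X).trace + 2 * (g.1.1 * X * g.1.1 * X).trace := fun X hX g =>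
    (hd X hX g).2.2.2
  -- the sums
  have s1 : ∀ X : Fin 10 → M4, FrameH Sp2 6 X → ∀ g : Sp2,
      ∑ a, dH (X a) f1 g * dH (X a) f1 g = -(1 / 12) * (f2 g - 4) := by
    intro X hX g
    rw [Finset.sum_congr rfl fun a _ => by rw [hd1 _ (hX.mem a)], tt (hCAS X hX), tj1 g.2]
    unfold f2
    ring
  have s2 : ∀ X : Fin 10 → M4, FrameH Sp2 6 X → ∀ g : Sp2,
      ∑ a, dH (X a) f2 g * dH (X a) f1 g = -(1 / 6) * ((g.1.1 ^ 3).trace - f1 g) := by
    intro X hX g
    have e : ∀ a, dH (X a) f2 g * dH (X a) f1 g =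
        2 * ((g.1.1 * g.1.1 * X a).trace * (g.1.1 * X a).trace) := by
      intro a
      rw [hd1 _ (hX.mem a), hd2 _ (hX.mem a)]
      ring
    have e3 : g.1.1 * g.1.1 * g.1.1 = g.1.1 ^ 3 := by noncomm_ring
    rw [Finset.sum_congr rfl fun a _ => e a, ← Finset.mul_sum, tt (hCAS X hX), tj2 g.2, e3]
    unfold f1
    ring
  have s3 : ∀ X : Fin 10 → M4, FrameH Sp2 6 X → ∀ g : Sp2,
      ∑ a, dH (X a) f2 g * dH (X a) f2 g = -(1 / 3) * ((g.1.1 ^ 4).trace - 4) := by
    intro X hX g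
    have e : ∀ a, dH (X a) f2 g * dH (X a) f2 g =
        4 * ((g.1.1 * g.1.1 * X a).trace * (g.1.1 * g.1.1 * X a).trace) := by
      intro a
      rw [hd2 _ (hX.mem a)]
      ring
    have e3 : g.1.1 * g.1.1 * (g.1.1 * g.1.1) = g.1.1 ^ 4 := by noncomm_ring
    rw [Finset.sum_congr rfl fun a _ => e a, ← Finset.mul_sum, tt (hCAS X hX), tj3 g.2, e3]
    ring
  have s4 : ∀ X : Fin 10 → M4, FrameH Sp2 6 X → ∀ g : Sp2,
      ∑ a, dH (X a) (dH (X a) f1) g = -(5 / 12) * f1 g := by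
    intro X hX g
    rw [Finset.sum_congr rfl fun a _ => hd3 _ (hX.mem a) g, ts (hCAS X hX)]
    rfl
  have s5 : ∀ X : Fin 10 → M4, FrameH Sp2 6 X → ∀ g : Sp2,
      ∑ a, dH (X a) (dH (X a) f2) g = -(5 / 6) * f2 g - (1 / 6) * (f1 g ^ 2 + 4) := by
    intro X hX g
    rw [Finset.sum_congr rfl fun a _ => hd4 _ (hX.mem a) g, Finset.sum_add_distrib,
      ← Finset.mul_sum, ← Finset.mul_sum, ts (hCAS X hX), tq (hCAS X hX), tj1 g.2]
    unfold f1 f2
    ring
  -- power sums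
  have p3 : ∀ g : Sp2, (g.1.1 ^ 3).trace = f1 g * f2 g - (f1 g ^ 2 - f2 g) / 2 * f1 g +
      3 * f1 g := by
    intro g
    have h := (hPW g.1 g.2).1
    rw [pow_two g.1.1] at h
    exact h
  have p4 : ∀ g : Sp2, (g.1.1 ^ 4).trace = f1 g * (g.1.1 ^ 3).trace -
      (f1 g ^ 2 - f2 g) / 2 * f2 g + f1 g ^ 2 - 4 := by
    intro g
    have h := (hPW g.1 g.2).2
    rw [pow_two g.1.1] at h
    exact h
  have g11 := s1
  have g12 : ∀ X : Fin 10 → M4, FrameH Sp2 6 X → ∀ g : Sp2,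
      ∑ a, dH (X a) f1 g * dH (X a) f3 g = -(1 / 24) * (2 * f1 g * f3 g - 10 * f1 g) := by
    intro X hX g
    have e : ∀ a, dH (X a) f1 g * dH (X a) f3 g = f1 g * (dH (X a) f1 g * dH (X a) f1 g) +
        (-1 / 2) * (dH (X a) f2 g * dH (X a) f1 g) := by
      intro a
      rw [d_f3 hC h1' h2' (hX.mem a)]
      ring
    rw [Finset.sum_congr rfl fun a _ => e a, Finset.sum_add_distrib, ← Finset.mul_sum,
      ← Finset.mul_sum, s1 X hX, s2 X hX, p3]
    unfold f3
    ring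
  have g22 : ∀ X : Fin 10 → M4, FrameH Sp2 6 X → ∀ g : Sp2,
      ∑ a, dH (X a) f3 g * dH (X a) f3 g =
        -(1 / 24) * (4 * f3 g ^ 2 - 8 * f1 g ^ 2 + 8 * f3 g - 12) := by
    intro X hX g
    have e : ∀ a, dH (X a) f3 g * dH (X a) f3 g =
        f1 g ^ 2 * (dH (X a) f1 g * dH (X a) f1 g) +
        (-f1 g) * (dH (X a) f2 g * dH (X a) f1 g) +
        (1 / 4) * (dH (X a) f2 g * dH (X a) f2 g) := by
      intro a
      rw [d_f3 hC h1' h2' (hX.mem a)]
      ring
    rw [Finset.sum_congr rfl fun a _ => e a, Finset.sum_add_distrib, Finset.sum_add_distrib,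
      ← Finset.mul_sum, ← Finset.mul_sum, ← Finset.mul_sum, s1 X hX, s2 X hX, s3 X hX, p4, p3]
    unfold f3
    ring
  refine ⟨?_, ?_, ?_⟩
  · intro i
    fin_cases i
    · exact h1'
    · change C2H (xC 1)
      rw [xC_one]
      exact c2_f3 hC h1' h2'
  · intro X hX i g
    fin_cases i
    · change ∑ a, dH (X a) (dH (X a) f1) g =
        -(((1 / 12 : ℝ) : ℂ) * ((D2.Q (1 + Pi.single 0 1) : ℂ) - D2.Q 1)) * f1 g
      have hQ1 : D2.Q (1 + Pi.single 0 1) = 10 := by decide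
      have hQ0 : D2.Q 1 = 5 := by decide
      rw [s4 X hX, hQ1, hQ0]
      push_cast
      ring
    · change lapH X (xC 1) g =
        -(((1 / 12 : ℝ) : ℂ) * ((D2.Q (1 + Pi.single 1 1) : ℂ) - D2.Q 1)) * xC 1 g
      rw [xC_one]
      change ∑ a, dH (X a) (dH (X a) f3) g = _
      have hQ1 : D2.Q (1 + Pi.single 1 1) = 13 := by decide
      have hQ0 : D2.Q 1 = 5 := by decide
      rw [Finset.sum_congr rfl fun a _ => dd_f3 hC h1' h2' (hX.mem a) g, Finset.sum_add_distrib,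
        Finset.sum_add_distrib, ← Finset.mul_sum, ← Finset.sum_mul, s1 X hX, s4 X hX, s5 X hX,
        hQ1, hQ0]
      unfold f3
      push_cast
      ring
  · intro X hX i j g
    have hM : ∀ i j, M2 i j (fun s => xC s g) =
        !![2 * f1 g ^ 2 - 4 * f3 g - 12, 2 * f1 g * f3 g - 10 * f1 g;
          2 * f1 g * f3 g - 10 * f1 g, 4 * f3 g ^ 2 - 8 * f1 g ^ 2 + 8 * f3 g - 12] i j := by
      intro i j
      have e1 : xC 1 g = f3 g := by rw [xC_one]
      unfold M2
      simp only [e1]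
      rfl
    rw [hM]
    fin_cases i <;> fin_cases j
    · change ∑ a, dH (X a) f1 g * dH (X a) f1 g =
        -(((1 / 12 : ℝ) : ℂ) / 2) * (2 * f1 g ^ 2 - 4 * f3 g - 12)
      rw [s1 X hX]
      unfold f3
      push_cast
      ring
    · change ∑ a, dH (X a) f1 g * dH (X a) (xC 1) g =
        -(((1 / 12 : ℝ) : ℂ) / 2) * (2 * f1 g * f3 g - 10 * f1 g)
      rw [xC_one, g12 X hX]
      push_cast
      ring
    · change ∑ a, dH (X a) (xC 1) g * dH (X a) f1 g =
        -(((1 / 12 : ℝ) : ℂ) / 2) * (2 * f1 g * f3 g - 10 * f1 g)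
      rw [xC_one, Finset.sum_congr rfl fun a _ => mul_comm _ _, g12 X hX]
      push_cast
      ring
    · change ∑ a, dH (X a) (xC 1) g * dH (X a) (xC 1) g =
        -(((1 / 12 : ℝ) : ℂ) / 2) * (4 * f3 g ^ 2 - 8 * f1 g ^ 2 + 8 * f3 g - 12)
      rw [xC_one, g22 X hX]
      push_cast
      ring

end

end STZ
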