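import Pool.Agent.STZ.StmtsN

/-!
# STZ, module LAG: the Laplace operator and the carré du champ for `G₂`
-/

namespace STZ

open MeasureTheory Matrix

open scoped ComplexConjugate Matrix

namespace LAG

section calculus

variable {N d : ℕ} {H : Subgroup (SU N)} (hC : CALFH H) {c : ℝ}
  {X : Fin d → Matrix (Fin N) (Fin N) ℂ} (hX : FrameH H c X)

/-- the carré du champ -/
noncomputable def Gam (X : Fin d → Matrix (Fin N) (Fin N) ℂ) (f h : H → ℂ) (g : H) : ℂ :=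
  ∑ a, dH (X a) f g * dH (X a) h g

theorem gam_symm (f h : H → ℂ) (g : H) : Gam X f h g = Gam X h f g := by
  unfold Gam
  exact Finset.sum_congr rfl fun a _ => mul_comm _ _

include hC hX

theorem gam_add (f h k : H → ℂ) (hh : C1H h) (hk : C1H k) (g : H) :
    Gam X f (fun g => h g + k g) g = Gam X f h g + Gam X f k g := by
  unfold Gam
  rw [← Finset.sum_add_distrib]
  refine Finset.sum_congr rfl fun a _ => ?_
  rw [hC.dadd _ (hX.mem a) h k hh hk g]
  ring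

theorem gam_mul (f h k : H → ℂ) (hh : C1H h) (hk : C1H k) (g : H) :
    Gam X f (fun g => h g * k g) g = Gam X f h g * k g + h g * Gam X f k g := by
  unfold Gam
  rw [Finset.sum_mul, Finset.mul_sum, ← Finset.sum_add_distrib]
  refine Finset.sum_congr rfl fun a _ => ?_
  rw [hC.dmul _ (hX.mem a) h k hh hk g]
  ring

theorem gam_const (f : H → ℂ) (c : ℂ) (g : H) : Gam X f (fun _ => c) g = 0 := by
  unfold Gam
  refine Finset.sum_eq_zero fun a _ => ?_
  rw [hC.dconst, mul_zero]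

theorem gam_cmul (f k : H → ℂ) (c : ℂ) (hk : C1H k) (g : H) :
    Gam X f (fun g => c * k g) g = c * Gam X f k g := by
  rw [gam_mul hC hX f (fun _ => c) k (hC.const c).1 hk g, gam_const hC hX, zero_mul, zero_add]

theorem lap_add (f h : H → ℂ) (hf : C2H f) (hh : C2H h) (g : H) :
    lapH X (fun g => f g + h g) g = lapH X f g + lapH X h g := by
  unfold lapH
  rw [← Finset.sum_add_distrib]
  refine Finset.sum_congr rfl fun a _ => ?_
  have h1 : dH (X a) (fun g => f g + h g) = fun g => dH (X a) f g + dH (X a) h g :=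
    funext fun g => hC.dadd _ (hX.mem a) f h hf.1 hh.1 g
  rw [h1, hC.dadd _ (hX.mem a) _ _ (hf.2 _ (hX.mem a)) (hh.2 _ (hX.mem a)) g]

theorem lap_mul (f h : H → ℂ) (hf : C2H f) (hh : C2H h) (g : H) :
    lapH X (fun g => f g * h g) g = lapH X f g * h g + 2 * Gam X f h g + f g * lapH X h g := by
  unfold lapH Gam
  rw [Finset.sum_mul, Finset.mul_sum, Finset.mul_sum, ← Finset.sum_add_distrib,
    ← Finset.sum_add_distrib]
  refine Finset.sum_congr rfl fun a _ => ?_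
  have hm := hX.mem a
  have h1 : dH (X a) (fun g => f g * h g) = fun g => dH (X a) f g * h g + f g * dH (X a) h g :=
    funext fun g => hC.dmul _ hm f h hf.1 hh.1 g
  rw [h1, hC.dadd _ hm _ _ (hC.mul1 _ _ (hf.2 _ hm) hh.1) (hC.mul1 _ _ hf.1 (hh.2 _ hm)) g,
    hC.dmul _ hm _ _ (hf.2 _ hm) hh.1 g, hC.dmul _ hm _ _ hf.1 (hh.2 _ hm) g]
  ring

theorem lap_const (c : ℂ) (g : H) : lapH X (fun _ => c) g = 0 := by
  unfold lapH
  refine Finset.sum_eq_zero fun a _ => ?_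
  have h1 : dH (X a) (fun _ : H => c) = fun _ => (0 : ℂ) :=
    funext fun g => hC.dconst _ c g
  rw [h1, hC.dconst]

theorem lap_cmul (f : H → ℂ) (c : ℂ) (hf : C2H f) (g : H) :
    lapH X (fun g => c * f g) g = c * lapH X f g := by
  rw [lap_mul hC hX (fun _ => c) f (hC.const c) hf g, lap_const hC hX]
  have h1 : Gam X (fun _ => c) f g = 0 := by
    unfold Gam
    refine Finset.sum_eq_zero fun a _ => ?_
    rw [hC.dconst, zero_mul]
  rw [h1]
  ring

end calculus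

section algebra

theorem tr2 (A B : Matrix (Fin 7) (Fin 7) ℂ) : (A * B).trace = ∑ i, ∑ j, A i j * B j i := by
  simp only [Matrix.trace, Matrix.diag_apply, Matrix.mul_apply]

theorem tr4 (A B C D : Matrix (Fin 7) (Fin 7) ℂ) :
    (A * B * C * D).trace = ∑ i, ∑ j, ∑ k, ∑ l, A i j * B j k * C k l * D l i := by
  rw [tr2 (A * B * C) D]
  refine Finset.sum_congr rfl fun i _ => ?_
  have h1 : ∀ l, (A * B * C) i l = ∑ j, ∑ k, A i j * B j k * C k l := by
    intro l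
    rw [Matrix.mul_apply]
    simp only [Matrix.mul_apply, Finset.sum_mul]
    rw [Finset.sum_comm]
  simp only [h1, Finset.sum_mul]
  rw [Finset.sum_comm]
  refine Finset.sum_congr rfl fun j _ => ?_
  rw [Finset.sum_comm]

/-- contraction with two Kronecker symbols -/
theorem ctr (F : Fin 7 → Fin 7 → ℂ) (i j : Fin 7) :
    ∑ k, ∑ l, F k l * (((dl i k : ℤ) : ℂ) * ((dl j l : ℤ) : ℂ)) = F i j := by
  simp [dl]

variable (hP : PHF) (hG : S_CASG) {X : Fin 14 → Matrix (Fin 7) (Fin 7) ℂ} (hX : FrameH G2 4 X)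

include hG hX in
theorem cas (i j k l : Fin 7) : ∑ a, X a i j * X a k l =
    (1 / 12) * (((dl i k : ℤ) : ℂ) * ((dl j l : ℤ) : ℂ) -
      ((dl i l : ℤ) : ℂ) * ((dl j k : ℤ) : ℂ)) - (1 / 24) * ((ps4 i j k l : ℤ) : ℂ) := by
  have h1 := hG X hX i j k l
  have h2 : (((∑ m, ph i j m * ph k l m : ℤ)) : ℂ) =
      ((ps4 i j k l + dl i k * dl j l - dl i l * dl j k : ℤ) : ℂ) := by
    congr 1
    unfold ps4
    ring
  rw [h1, h2]
  push_cast
  ring

include hP in
theorem ps_a (i j k l : Fin 7) : ps4 j i l k = -ps4 i k j l := by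
  have h1 := hP.b1 i j l k
  have h2 := hP.b3 i j k l
  have h3 := hP.b2 i j k l
  omega

include hP in
theorem ps_b (i j k l : Fin 7) : ps4 j k l i = ps4 i k j l := by
  have h1 := hP.b3 j k i l
  have h2 := hP.b2 j i k l
  have h3 := hP.b1 i j k l
  have h4 := hP.b2 i j k l
  omega

include hP in
theorem ps_c (i j l : Fin 7) : ps4 i j j l = 0 := by
  have h1 := hP.b2 i j j l
  omega

theorem nn_eq (A B : Matrix (Fin 7) (Fin 7) ℂ) :
    nn A B = ∑ i, ∑ j, ∑ k, ∑ l, (A i j * B k l) * ((ps4 i k j l : ℤ) : ℂ) := by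
  unfold nn
  refine Finset.sum_congr rfl fun i _ => ?_
  rw [Finset.sum_comm]
  refine Finset.sum_congr rfl fun j _ => ?_
  refine Finset.sum_congr rfl fun k _ => ?_
  refine Finset.sum_congr rfl fun l _ => ?_
  ring

/-- exchange of the sum over `a` with four sums -/
theorem comm4 (F : Fin 14 → Fin 7 → Fin 7 → Fin 7 → Fin 7 → ℂ) :
    ∑ a, ∑ i, ∑ j, ∑ k, ∑ l, F a i j k l = ∑ i, ∑ j, ∑ k, ∑ l, ∑ a, F a i j k l := by
  rw [Finset.sum_comm]
  refine Finset.sum_congr rfl fun i _ => ?_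
  rw [Finset.sum_comm]
  refine Finset.sum_congr rfl fun j _ => ?_
  rw [Finset.sum_comm]
  refine Finset.sum_congr rfl fun k _ => ?_
  rw [Finset.sum_comm]

include hP hG hX in
theorem casT (A B : Matrix (Fin 7) (Fin 7) ℂ) :
    ∑ a, (A * X a).trace * (B * X a).trace =
      (1 / 12) * ((A * Bᵀ).trace - (A * B).trace) + (1 / 24) * nn A B := by
  have h1 : ∀ a, (A * X a).trace * (B * X a).trace =
      ∑ i, ∑ j, ∑ k, ∑ l, (A i j * B k l) * (X a j i * X a l k) := by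
    intro a
    rw [tr2, tr2, Finset.sum_mul]
    refine Finset.sum_congr rfl fun i _ => ?_
    rw [Finset.sum_mul]
    refine Finset.sum_congr rfl fun j _ => ?_
    rw [Finset.mul_sum]
    refine Finset.sum_congr rfl fun k _ => ?_
    rw [Finset.mul_sum]
    refine Finset.sum_congr rfl fun l _ => ?_
    ring
  simp only [h1]
  rw [comm4]
  have h2 : ∀ i j k l : Fin 7, ∑ a, (A i j * B k l) * (X a j i * X a l k) =
      (1 / 12) * ((A i j * B k l) * (((dl i k : ℤ) : ℂ) * ((dl j l : ℤ) : ℂ))) -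
        (1 / 12) * ((A i j * B k l) * (((dl j k : ℤ) : ℂ) * ((dl i l : ℤ) : ℂ))) +
        (1 / 24) * ((A i j * B k l) * ((ps4 i k j l : ℤ) : ℂ)) := by
    intro i j k l
    rw [← Finset.mul_sum, cas hG hX, ps_a hP i j k l]
    push_cast
    ring
  simp only [h2, Finset.sum_add_distrib, Finset.sum_sub_distrib, ← Finset.mul_sum]
  rw [← nn_eq]
  have h3 : ∀ i j : Fin 7, ∑ k, ∑ l, (A i j * B k l) *
      (((dl i k : ℤ) : ℂ) * ((dl j l : ℤ) : ℂ)) = A i j * B i j := fun i j =>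
    ctr (fun k l => A i j * B k l) i j
  have h4 : ∀ i j : Fin 7, ∑ k, ∑ l, (A i j * B k l) *
      (((dl j k : ℤ) : ℂ) * ((dl i l : ℤ) : ℂ)) = A i j * B j i := fun i j =>
    ctr (fun k l => A i j * B k l) j i
  simp only [h3, h4]
  rw [tr2 A Bᵀ, tr2 A B]
  simp only [Matrix.transpose_apply]
  ring

include hP hG hX in
theorem cas4 (A : Matrix (Fin 7) (Fin 7) ℂ) :
    ∑ a, (A * X a * A * X a).trace =
      (1 / 12) * ((A * Aᵀ).trace - A.trace ^ 2) - (1 / 24) * nn A A := by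
  have h1 : ∀ a, (A * X a * A * X a).trace =
      ∑ i, ∑ j, ∑ k, ∑ l, (A i j * A k l) * (X a j k * X a l i) := by
    intro a
    rw [tr4]
    refine Finset.sum_congr rfl fun i _ => ?_
    refine Finset.sum_congr rfl fun j _ => ?_
    refine Finset.sum_congr rfl fun k _ => ?_
    refine Finset.sum_congr rfl fun l _ => ?_
    ring
  simp only [h1]
  rw [comm4]
  have h2 : ∀ i j k l : Fin 7, ∑ a, (A i j * A k l) * (X a j k * X a l i) =
      (1 / 12) * ((A i j * A k l) * (((dl i k : ℤ) : ℂ) * ((dl j l : ℤ) : ℂ))) -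
        (1 / 12) * ((A i j * A k l) * (((dl j i : ℤ) : ℂ) * ((dl k l : ℤ) : ℂ))) -
        (1 / 24) * ((A i j * A k l) * ((ps4 i k j l : ℤ) : ℂ)) := by
    intro i j k l
    have h5 : dl k i = dl i k := by
      unfold dl
      simp only [eq_comm]
    rw [← Finset.mul_sum, cas hG hX, ps_b hP i j k l, h5]
    ring
  simp only [h2, Finset.sum_sub_distrib, ← Finset.mul_sum]
  rw [← nn_eq]
  have h3 : ∀ i j : Fin 7, ∑ k, ∑ l, (A i j * A k l) *
      (((dl i k : ℤ) : ℂ) * ((dl j l : ℤ) : ℂ)) = A i j * A i j := fun i j =>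
    ctr (fun k l => A i j * A k l) i j
  have h4 : ∑ i, ∑ j, ∑ k, ∑ l, (A i j * A k l) *
      (((dl j i : ℤ) : ℂ) * ((dl k l : ℤ) : ℂ)) = A.trace ^ 2 := by
    simp [dl, Matrix.trace, sq, Finset.sum_mul, Finset.mul_sum]
    exact Finset.sum_congr rfl fun i _ => Finset.sum_congr rfl fun j _ => mul_comm _ _
  simp only [h3, h4]
  rw [tr2 A Aᵀ]
  simp only [Matrix.transpose_apply]
  ring

include hP hG hX in
theorem cas2 : ∑ a, X a * X a = (-(1 / 2) : ℂ) • (1 : Matrix (Fin 7) (Fin 7) ℂ) := by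
  ext i l
  rw [Matrix.sum_apply]
  simp only [Matrix.mul_apply]
  rw [Finset.sum_comm]
  have h1 : ∀ j : Fin 7, ∑ a, X a i j * X a j l =
      (1 / 12) * (((dl i j : ℤ) : ℂ) * ((dl j l : ℤ) : ℂ) - ((dl i l : ℤ) : ℂ)) := by
    intro j
    rw [cas hG hX, ps_c hP i j l]
    have h2 : dl j j = 1 := by
      unfold dl
      simp
    rw [h2]
    push_cast
    ring
  simp only [h1, ← Finset.mul_sum, Finset.sum_sub_distrib]
  have h3 : ∑ j, ((dl i j : ℤ) : ℂ) * ((dl j l : ℤ) : ℂ) = ((dl i l : ℤ) : ℂ) := by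
    simp [dl]
  rw [h3, Finset.sum_const, Finset.card_univ, Fintype.card_fin, Matrix.smul_apply,
    Matrix.one_apply]
  unfold dl
  split_ifs
  · push_cast
    norm_num
  · push_cast
    norm_num

include hP hG hX in
theorem cas3 (A : Matrix (Fin 7) (Fin 7) ℂ) :
    ∑ a, (A * X a * X a).trace = -(1 / 2) * A.trace := by
  have h1 : ∑ a, (A * X a * X a).trace = (A * ∑ a, X a * X a).trace := by
    rw [Matrix.mul_sum, Matrix.trace_sum]
    exact Finset.sum_congr rfl fun a _ => by rw [Matrix.mul_assoc]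
  rw [h1, cas2 hP hG hX, Matrix.mul_smul, Matrix.mul_one, Matrix.trace_smul, smul_eq_mul]

end algebra

/-- elements of `G₂` are orthogonal -/
theorem orth (g : G2) : g.1.1 * g.1.1ᵀ = 1 := by
  have h1 : g.1.1 * (g.1⁻¹).1 = 1 := congrArg Subtype.val (mul_inv_cancel g.1)
  have h2 : (g.1⁻¹).1 = g.1.1ᴴ := rfl
  have h3 : g.1.1ᴴ = g.1.1ᵀ := by
    ext i j
    rw [Matrix.conjTranspose_apply, Matrix.transpose_apply]
    exact g.2.1 j i
  rw [h2, h3] at h1
  exact h1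

end LAG

open LAG in
theorem t_LAG : M_LAG := by
  intro hCal hTr hPhi hCas hE3 hPw ψ
  have hC : CALFH G2 := hCal 7 G2
  obtain ⟨cx, cp, hd⟩ := hTr 7 G2
  set x : G2 → ℂ := fun g => g.1.1.trace with hx
  set p : G2 → ℂ := fun g => (g.1.1 * g.1.1).trace with hp
  have hy : (fun g : G2 => (g.1.1.trace ^ 2 - (g.1.1 * g.1.1).trace) / 2 - g.1.1.trace) =
      fun g => (1 / 2) * (x g * x g) + ((-(1 / 2)) * p g + (-1) * x g) := by
    funext g
    simp only [hx, hp]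
    ring
  have cxx : C2H (fun g => x g * x g) := hC.mul _ _ cx cx
  have cxx2 : C2H (fun g => (1 / 2) * (x g * x g)) := hC.mul (fun _ => 1 / 2) _ (hC.const _) cxx
  have cp2 : C2H (fun g => (-(1 / 2)) * p g) := hC.mul (fun _ => -(1 / 2)) _ (hC.const _) cp
  have cx2 : C2H (fun g => (-1) * x g) := hC.mul (fun _ => -1) _ (hC.const _) cx
  have cpx : C2H (fun g => (-(1 / 2)) * p g + (-1) * x g) := hC.add _ _ cp2 cx2
  have cy : C2H (fun g => (1 / 2) * (x g * x g) + ((-(1 / 2)) * p g + (-1) * x g)) :=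
    hC.add _ _ cxx2 cpx
  -- the formulas for a frame
  have key : ∀ X : Fin 14 → Matrix (Fin 7) (Fin 7) ℂ, FrameH G2 4 X → ∀ g : G2,
      ∃ P1 P2 P3 P4 N N12 N22 : ℂ, x g = P1 ∧ p g = P2 ∧
        lapH X x g = -(1 / 2) * P1 ∧
        lapH X p g = -P2 + 2 * ((1 / 12) * (7 - P1 ^ 2) - (1 / 24) * N) ∧
        Gam X x x g = (1 / 12) * (7 - P2) + (1 / 24) * N ∧
        Gam X x p g = 2 * ((1 / 12) * (P1 - P3) + (1 / 24) * N12) ∧
        Gam X p p g = 4 * ((1 / 12) * (7 - P4) + (1 / 24) * N22) ∧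
        N = 6 * P1 - P1 ^ 2 + P2 ∧
        N12 = P1 ^ 2 - 7 - N - P1 * P2 + P3 ∧
        2 * P3 = -P1 ^ 3 + 3 * P1 * P2 + 3 * P1 ^ 2 + 6 * P1 + 3 * P2 ∧
        N22 = 6 * P2 - P2 ^ 2 + P4 ∧
        P4 = P1 * P3 - (P1 ^ 2 - P2) / 2 * P2 + (P1 ^ 3 - 3 * P1 * P2 + 2 * P3) / 6 * (P1 - 4) := by
    intro X hX g
    have ho := orth g
    have ho7 : (g.1.1 * g.1.1ᵀ).trace = 7 := by
      rw [ho, Matrix.trace_one]
      simp
    have e1 := hE3 g.1 g.2
    have e2 := hE3 (g * g : G2).1 (g * g : G2).2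
    have hgg : ((g * g : G2).1).1 = g.1.1 ^ 2 := by
      rw [sq]
      rfl
    rw [hgg] at e2
    have e4 : (g.1.1 ^ 2) ^ 2 = g.1.1 ^ 4 := by
      rw [← pow_mul]
    rw [e4] at e2
    have e5 := hPw g.1 g.2.1
    have hsq : g.1.1 * g.1.1 = g.1.1 ^ 2 := (sq _).symm
    refine ⟨g.1.1.trace, (g.1.1 ^ 2).trace, (g.1.1 ^ 3).trace, (g.1.1 ^ 4).trace,
      nn g.1.1 g.1.1, nn g.1.1 (g.1.1 ^ 2), nn (g.1.1 ^ 2) (g.1.1 ^ 2), rfl, ?_, ?_, ?_, ?_, ?_,
      ?_, e1.1, e1.2.1, ?_, e2.1, e5⟩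
    · simp only [hp, hsq]
    · unfold lapH
      rw [Finset.sum_congr rfl fun a _ => (hd (X a) (hX.mem a) g).2.2.1]
      exact cas3 hPhi hCas hX g.1.1
    · unfold lapH
      rw [Finset.sum_congr rfl fun a _ => (hd (X a) (hX.mem a) g).2.2.2, Finset.sum_add_distrib,
        ← Finset.mul_sum, ← Finset.mul_sum, cas3 hPhi hCas hX (g.1.1 * g.1.1),
        cas4 hPhi hCas hX g.1.1, ho7, hsq]
      ring
    · unfold Gam
      rw [Finset.sum_congr rfl fun a _ => by rw [(hd (X a) (hX.mem a) g).1],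
        casT hPhi hCas hX g.1.1 g.1.1, ho7, hsq]
    · unfold Gam
      have h1 : ∀ a, dH (X a) x g * dH (X a) p g =
          2 * ((g.1.1 * X a).trace * (g.1.1 * g.1.1 * X a).trace) := by
        intro a
        rw [(hd (X a) (hX.mem a) g).1, (hd (X a) (hX.mem a) g).2.1]
        ring
      have h2 : (g.1.1 * (g.1.1 * g.1.1)ᵀ).trace = g.1.1.trace := by
        rw [Matrix.transpose_mul, ← Matrix.mul_assoc, ho, Matrix.one_mul, Matrix.trace_transpose]
      have h3 : g.1.1 * (g.1.1 * g.1.1) = g.1.1 ^ 3 := by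
        rw [hsq, ← pow_succ']
      rw [Finset.sum_congr rfl fun a _ => h1 a, ← Finset.mul_sum,
        casT hPhi hCas hX g.1.1 (g.1.1 * g.1.1), h2, h3, hsq]
    · unfold Gam
      have h1 : ∀ a, dH (X a) p g * dH (X a) p g =
          4 * ((g.1.1 * g.1.1 * X a).trace * (g.1.1 * g.1.1 * X a).trace) := by
        intro a
        rw [(hd (X a) (hX.mem a) g).2.1]
        ring
      have h2 : (g.1.1 * g.1.1 * (g.1.1 * g.1.1)ᵀ).trace = 7 := by
        have h4 : g.1.1 * g.1.1 * (g.1.1 * g.1.1)ᵀ = 1 := by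
          calc g.1.1 * g.1.1 * (g.1.1 * g.1.1)ᵀ = g.1.1 * (g.1.1 * g.1.1ᵀ) * g.1.1ᵀ := by
                rw [Matrix.transpose_mul]
                simp only [Matrix.mul_assoc]
            _ = 1 := by rw [ho, Matrix.mul_one, ho]
        rw [h4, Matrix.trace_one]
        simp
      have h3 : g.1.1 * g.1.1 * (g.1.1 * g.1.1) = g.1.1 ^ 4 := by
        rw [hsq, ← pow_add]
      rw [Finset.sum_congr rfl fun a _ => h1 a, ← Finset.mul_sum,
        casT hPhi hCas hX (g.1.1 * g.1.1) (g.1.1 * g.1.1), h2, h3, hsq]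
    · linear_combination e1.2.2
  have hQ0 : ((D3 ψ).Q (1 + Pi.single 0 1) : ℤ) = 13 := by
    simp [D3]
  have hQ1 : ((D3 ψ).Q (1 + Pi.single 1 1) : ℤ) = 19 := by
    simp [D3]
  have hQ : ((D3 ψ).Q 1 : ℤ) = 7 := by
    simp [D3]
  have gy : ∀ X : Fin 14 → Matrix (Fin 7) (Fin 7) ℂ, FrameH G2 4 X → ∀ (f : G2 → ℂ) (g : G2),
      Gam X f (fun g => (1 / 2) * (x g * x g) + ((-(1 / 2)) * p g + (-1) * x g)) g =
        x g * Gam X f x g - (1 / 2) * Gam X f p g - Gam X f x g := by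
    intro X hX f g
    rw [gam_add hC hX f _ _ cxx2.1 cpx.1, gam_add hC hX f _ _ cp2.1 cx2.1,
      gam_cmul hC hX f _ _ cxx.1, gam_cmul hC hX f _ _ cp.1, gam_cmul hC hX f _ _ cx.1,
      gam_mul hC hX f _ _ cx.1 cx.1]
    ring
  refine ⟨?_, ?_, ?_⟩
  · intro i
    fin_cases i
    · exact cx
    · change C2H (fun g : G2 => (g.1.1.trace ^ 2 - (g.1.1 * g.1.1).trace) / 2 - g.1.1.trace)
      rw [hy]
      exact cy
  · intro X hX i g
    obtain ⟨P1, P2, P3, P4, N, N12, N22, f1, f2, f3, f4, f5, f6, f7, f8, f9, f10, f11, f12⟩ :=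
      key X hX g
    fin_cases i
    · change lapH X x g = -((((1 / 12 : ℝ)) : ℂ) * (((D3 ψ).Q (1 + Pi.single 0 1) : ℂ) -
        (D3 ψ).Q 1)) * x g
      rw [hQ0, hQ, f3, f1]
      push_cast
      ring
    · change lapH X (fun g : G2 => (g.1.1.trace ^ 2 - (g.1.1 * g.1.1).trace) / 2 - g.1.1.trace) g
        = -((((1 / 12 : ℝ)) : ℂ) * (((D3 ψ).Q (1 + Pi.single 1 1) : ℂ) - (D3 ψ).Q 1)) *
          ((fun g : G2 => (g.1.1.trace ^ 2 - (g.1.1 * g.1.1).trace) / 2 - g.1.1.trace) g)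
      rw [hy, hQ1, hQ, lap_add hC hX _ _ cxx2 cpx, lap_add hC hX _ _ cp2 cx2,
        lap_cmul hC hX _ _ cxx, lap_cmul hC hX _ _ cp, lap_cmul hC hX _ _ cx,
        lap_mul hC hX _ _ cx cx, f3, f4, f5]
      beta_reduce
      rw [f1, f2, f8]
      push_cast
      ring
  · intro X hX i j g
    obtain ⟨P1, P2, P3, P4, N, N12, N22, f1, f2, f3, f4, f5, f6, f7, f8, f9, f10, f11, f12⟩ :=
      key X hX g
    have hxx : Gam X x x g = (1 / 12) * (7 - P2) + (1 / 24) * N := f5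
    have e0 : xG 0 = x := rfl
    have e1 : xG 1 = fun g => (1 / 2) * (x g * x g) + ((-(1 / 2)) * p g + (-1) * x g) := hy
    have e1g : xG 1 g = (1 / 2) * (P1 * P1) + ((-(1 / 2)) * P2 + (-1) * P1) := by
      rw [e1, ← f1, ← f2]
    have e0g : xG 0 g = P1 := f1
    change Gam X (xG i) (xG j) g = _
    have hgam01 : Gam X (xG 0) (xG 1) g = P1 * ((1 / 12) * (7 - P2) + (1 / 24) * N) -
        (1 / 2) * (2 * ((1 / 12) * (P1 - P3) + (1 / 24) * N12)) -
          ((1 / 12) * (7 - P2) + (1 / 24) * N) := by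
      rw [e0, e1, gy X hX, f5, f6, f1]
    have hgamp1 : Gam X p (xG 1) g = P1 * (2 * ((1 / 12) * (P1 - P3) + (1 / 24) * N12)) -
        (1 / 2) * (4 * ((1 / 12) * (7 - P4) + (1 / 24) * N22)) -
          (2 * ((1 / 12) * (P1 - P3) + (1 / 24) * N12)) := by
      rw [e1, gy X hX, gam_symm p x, f6, f7, f1]
    have hgam11 : Gam X (xG 1) (xG 1) g = P1 * Gam X (xG 0) (xG 1) g -
        (1 / 2) * Gam X p (xG 1) g - Gam X (xG 0) (xG 1) g := by
      have h1 := gy X hX (xG 1) g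
      rw [← e1, ← e0, gam_symm (xG 1) (xG 0), gam_symm (xG 1) p, e0g] at h1
      exact h1
    have h3 : P3 = (-P1 ^ 3 + 3 * P1 * P2 + 3 * P1 ^ 2 + 6 * P1 + 3 * P2) / 2 := by
      linear_combination (1 / 2) * f10
    fin_cases i <;> fin_cases j
    · change Gam X x x g = -((((1 / 12 : ℝ)) : ℂ) / 2) *
        (2 * xG 0 g ^ 2 - 2 * xG 1 g - 8 * xG 0 g - 14)
      rw [f5, e0g, e1g, f8]
      push_cast
      ring
    · change Gam X (xG 0) (xG 1) g = -((((1 / 12 : ℝ)) : ℂ) / 2) *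
        (3 * xG 0 g * xG 1 g - 7 * xG 0 g ^ 2 + 7 * xG 1 g - 8 * xG 0 g + 7)
      rw [hgam01, e0g, e1g, f9, f8, h3]
      push_cast
      ring
    · change Gam X (xG 1) (xG 0) g = -((((1 / 12 : ℝ)) : ℂ) / 2) *
        (3 * xG 0 g * xG 1 g - 7 * xG 0 g ^ 2 + 7 * xG 1 g - 8 * xG 0 g + 7)
      rw [gam_symm, hgam01, e0g, e1g, f9, f8, h3]
      push_cast
      ring
    · change Gam X (xG 1) (xG 1) g = -((((1 / 12 : ℝ)) : ℂ) / 2) *
        (6 * xG 1 g ^ 2 - 6 * xG 0 g ^ 3 + 12 * xG 0 g * xG 1 g - 10 * xG 0 g ^ 2 +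
          4 * xG 1 g + 22 * xG 0 g - 14)
      rw [hgam11, hgamp1, hgam01, e0g, e1g, f11, f9, f8, f12, h3]
      push_cast
      ring

end STZ
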