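import Pool.Agent.STZ.StmtsP

/-!
# Module LAPE: the Laplacian of the sums of the principal minors
-/

namespace STZ

namespace LAPE

open Matrix Finset

open scoped ComplexConjugate Matrix

section gen

variable {N : ℕ} {H : Subgroup (SU N)} {ι : Type} [DecidableEq ι]

theorem c1_prod (hc : CALFH H) (F : ι → H → ℂ) (J : Finset ι) (hF : ∀ j ∈ J, C1H (F j)) :
    C1H (fun g => ∏ j ∈ J, F j g) := by
  induction J using Finset.induction_on with
  | empty => simpa using (hc.const 1).1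
  | insert i J hi ih =>
    have h : (fun g => ∏ j ∈ insert i J, F j g) = fun g => F i g * ∏ j ∈ J, F j g := by
      funext g
      rw [prod_insert hi]
    rw [h]
    exact hc.mul1 _ _ (hF i (mem_insert_self i J)) (ih fun j hj => hF j (mem_insert_of_mem hj))

theorem c1_sum (hc : CALFH H) (F : ι → H → ℂ) (J : Finset ι) (hF : ∀ j ∈ J, C1H (F j)) :
    C1H (fun g => ∑ j ∈ J, F j g) := by
  induction J using Finset.induction_on with
  | empty => simpa using (hc.const 0).1
  | insert i J hi ih =>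
    have h : (fun g => ∑ j ∈ insert i J, F j g) = fun g => F i g + ∑ j ∈ J, F j g := by
      funext g
      rw [sum_insert hi]
    rw [h]
    exact hc.add1 _ _ (hF i (mem_insert_self i J)) (ih fun j hj => hF j (mem_insert_of_mem hj))

theorem d_sum (hc : CALFH H) {X : Matrix (Fin N) (Fin N) ℂ} (hX : X ∈ lie H) (F : ι → H → ℂ)
    (J : Finset ι) (hF : ∀ j ∈ J, C1H (F j)) (g : H) :
    dH X (fun g => ∑ j ∈ J, F j g) g = ∑ j ∈ J, dH X (F j) g := by
  induction J using Finset.induction_on with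
  | empty => simpa using hc.dconst X 0 g
  | insert i J hi ih =>
    have h : (fun g => ∑ j ∈ insert i J, F j g) = fun g => F i g + ∑ j ∈ J, F j g := by
      funext g
      rw [sum_insert hi]
    rw [h, hc.dadd X hX _ _ (hF i (mem_insert_self i J))
      (c1_sum hc F J fun j hj => hF j (mem_insert_of_mem hj)),
      ih fun j hj => hF j (mem_insert_of_mem hj), sum_insert hi]

theorem d_prod (hc : CALFH H) {X : Matrix (Fin N) (Fin N) ℂ} (hX : X ∈ lie H) (F : ι → H → ℂ)
    (J : Finset ι) (hF : ∀ j ∈ J, C1H (F j)) (g : H) :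
    dH X (fun g => ∏ j ∈ J, F j g) g = ∑ j ∈ J, (∏ k ∈ J.erase j, F k g) * dH X (F j) g := by
  induction J using Finset.induction_on with
  | empty => simpa using hc.dconst X 1 g
  | insert i J hi ih =>
    have h : (fun g => ∏ j ∈ insert i J, F j g) = fun g => F i g * ∏ j ∈ J, F j g := by
      funext g
      rw [prod_insert hi]
    rw [h, hc.dmul X hX _ _ (hF i (mem_insert_self i J))
      (c1_prod hc F J fun j hj => hF j (mem_insert_of_mem hj)),
      ih fun j hj => hF j (mem_insert_of_mem hj), sum_insert hi, erase_insert hi, mul_sum]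
    congr 1
    · ring
    · refine sum_congr rfl fun j hj => ?_
      have hne : i ≠ j := fun e => hi (e ▸ hj)
      rw [erase_insert_of_ne hne, prod_insert (fun hm => hi (mem_of_mem_erase hm))]
      ring

/-- the second derivative of a product -/
theorem dd_prod (hc : CALFH H) {X : Matrix (Fin N) (Fin N) ℂ} (hX : X ∈ lie H) (F : ι → H → ℂ)
    (J : Finset ι) (hF : ∀ j ∈ J, C2H (F j)) (g : H) :
    dH X (dH X (fun g => ∏ j ∈ J, F j g)) g =
      ∑ j ∈ J, (∏ k ∈ J.erase j, F k g) * dH X (dH X (F j)) g +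
      ∑ j ∈ J, ∑ l ∈ J.erase j, (∏ k ∈ (J.erase j).erase l, F k g) * (dH X (F j) g * dH X (F l) g) := by
  have h1 : dH X (fun g => ∏ j ∈ J, F j g) =
      fun g => ∑ j ∈ J, (∏ k ∈ J.erase j, F k g) * dH X (F j) g := by
    funext g
    exact d_prod hc hX F J (fun j hj => (hF j hj).1) g
  have h2 : ∀ j ∈ J, C1H (fun g => ∏ k ∈ J.erase j, F k g) := fun j _ =>
    c1_prod hc F _ fun k hk => (hF k (mem_of_mem_erase hk)).1
  have h3 : ∀ j ∈ J, C1H (dH X (F j)) := fun j hj => (hF j hj).2 X hX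
  rw [h1, d_sum hc hX (fun j g => (∏ k ∈ J.erase j, F k g) * dH X (F j) g) J
    (fun j hj => hc.mul1 _ _ (h2 j hj) (h3 j hj)), ← sum_add_distrib]
  refine sum_congr rfl fun j hj => ?_
  rw [hc.dmul X hX _ _ (h2 j hj) (h3 j hj),
    d_prod hc hX F _ (fun k hk => (hF k (mem_of_mem_erase hk)).1), add_comm, sum_mul]
  congr 1
  refine sum_congr rfl fun l _ => ?_
  ring

end gen

section entry

variable {N : ℕ} {H : Subgroup (SU N)}

theorem d_entry (hc : CALFH H) {X : Matrix (Fin N) (Fin N) ℂ} (hX : X ∈ lie H) (p q : Fin N) :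
    dH X (fun g : H => g.1.1 p q) = fun g : H => (g.1.1 * X) p q := by
  funext g
  exact hc.dentry X hX p q g

theorem dd_entry (hc : CALFH H) {X : Matrix (Fin N) (Fin N) ℂ} (hX : X ∈ lie H) (p q : Fin N)
    (g : H) : dH X (dH X (fun g : H => g.1.1 p q)) g = (g.1.1 * (X * X)) p q := by
  rw [d_entry hc hX]
  have h : (fun g : H => (g.1.1 * X) p q) = fun g : H => ∑ u, g.1.1 p u * X u q := by
    funext g
    rw [Matrix.mul_apply]
  have hc1 : ∀ u, C1H (fun g : H => g.1.1 p u * X u q) := fun u =>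
    hc.mul1 _ _ (hc.entry p u).1 (hc.const (X u q)).1
  rw [h, d_sum hc hX (fun u (g : H) => g.1.1 p u * X u q) univ (fun u _ => hc1 u),
    ← Matrix.mul_assoc, Matrix.mul_apply]
  refine sum_congr rfl fun u _ => ?_
  rw [hc.dmul X hX _ _ (hc.entry p u).1 (hc.const (X u q)).1, hc.dconst, hc.dentry X hX]
  ring

end entry

section cas

variable {n : ℕ}

/-- the formula of CAS -/
def CF (X : Fin (n ^ 2 - 1) → Matrix (Fin n) (Fin n) ℂ) : Prop :=
  ∀ i j k l : Fin n, ∑ a, X a i j * X a k l =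
    -(1 / (2 * (n : ℂ))) * ((if i = l ∧ j = k then 1 else 0) -
      (if i = j ∧ k = l then 1 / (n : ℂ) else 0))

theorem frame {X : Fin (n ^ 2 - 1) → Matrix (Fin n) (Fin n) ℂ}
    (hX : FrameH (⊤ : Subgroup (SU n)) (2 * (n : ℝ)) X) : Frame X where
  mem := fun a => (hX.mem a).1
  orth := fun a b => by
    have := hX.orth a b
    push_cast at this
    exact this

theorem cas2 (hn : 1 ≤ n) {X : Fin (n ^ 2 - 1) → Matrix (Fin n) (Fin n) ℂ} (h : CF X)
    (g : Matrix (Fin n) (Fin n) ℂ) (p q : Fin n) :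
    ∑ b, (g * (X b * X b)) p q = -(((n : ℂ) ^ 2 - 1) / (2 * (n : ℂ) ^ 2)) * g p q := by
  have hn0 : (n : ℂ) ≠ 0 := by
    have : n ≠ 0 := by omega
    exact_mod_cast this
  have h1 : ∀ u : Fin n, ∑ b, (X b * X b) u q =
      if u = q then -(((n : ℂ) ^ 2 - 1) / (2 * (n : ℂ) ^ 2)) else 0 := by
    intro u
    simp only [Matrix.mul_apply]
    rw [sum_comm]
    have h2 : ∀ v : Fin n, ∑ b, X b u v * X b v q =
        -(1 / (2 * (n : ℂ))) * ((if u = q then 1 else 0) -
          (if u = v then (if u = q then 1 / (n : ℂ) else 0) else 0)) := by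
      intro v
      rw [h u v v q]
      congr 2
      · simp
      · by_cases h3 : u = v
        · subst h3
          simp
        · simp [h3]
    rw [sum_congr rfl fun v _ => h2 v, ← mul_sum, sum_sub_distrib]
    simp only [sum_const, card_univ, Fintype.card_fin, nsmul_eq_mul, sum_ite_eq, mem_univ, if_true]
    by_cases h4 : u = q
    · simp only [h4, if_true]
      field_simp
    · simp [h4]
  have h5 : ∀ b, (g * (X b * X b)) p q = ∑ u, g p u * (X b * X b) u q := fun b => Matrix.mul_apply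
  rw [sum_congr rfl fun b _ => h5 b, sum_comm]
  have h6 : ∀ u : Fin n, ∑ b, g p u * (X b * X b) u q =
      g p u * (if u = q then -(((n : ℂ) ^ 2 - 1) / (2 * (n : ℂ) ^ 2)) else 0) := by
    intro u
    rw [← mul_sum, h1 u]
  rw [sum_congr rfl fun u _ => h6 u]
  simp only [mul_ite, mul_zero, sum_ite_eq', mem_univ, if_true]
  ring

theorem cas3 {X : Fin (n ^ 2 - 1) → Matrix (Fin n) (Fin n) ℂ} (h : CF X)
    (g : Matrix (Fin n) (Fin n) ℂ) (p j q k : Fin n) :
    ∑ b, (g * X b) p j * (g * X b) q k =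
      -(1 / (2 * (n : ℂ))) * (g p k * g q j - 1 / (n : ℂ) * (g p j * g q k)) := by
  have h1 : ∀ b, (g * X b) p j * (g * X b) q k =
      ∑ u, ∑ v, g p u * g q v * (X b u j * X b v k) := by
    intro b
    rw [Matrix.mul_apply, Matrix.mul_apply, sum_mul_sum]
    refine sum_congr rfl fun u _ => sum_congr rfl fun v _ => ?_
    ring
  rw [sum_congr rfl fun b _ => h1 b, sum_comm]
  have h2 : ∀ u : Fin n, ∑ b, ∑ v, g p u * g q v * (X b u j * X b v k) =
      ∑ v, g p u * g q v * (-(1 / (2 * (n : ℂ))) * ((if u = k ∧ j = v then 1 else 0) -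
      (if u = j ∧ v = k then 1 / (n : ℂ) else 0))) := by
    intro u
    rw [sum_comm]
    refine sum_congr rfl fun v _ => ?_
    rw [← mul_sum, h u j v k]
  rw [sum_congr rfl fun u _ => h2 u]
  have h3 : ∀ u v : Fin n, g p u * g q v * (-(1 / (2 * (n : ℂ))) * ((if u = k ∧ j = v then 1 else 0) -
      (if u = j ∧ v = k then 1 / (n : ℂ) else 0))) =
      (if u = k then (if j = v then -(1 / (2 * (n : ℂ))) * (g p u * g q v) else 0) else 0) -
      (if u = j then (if v = k then -(1 / (2 * (n : ℂ))) * (1 / (n : ℂ)) * (g p u * g q v) else 0)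
        else 0) := by
    intro u v
    rw [ite_and, ite_and]
    split_ifs <;> ring
  simp only [h3, sum_sub_distrib]
  have h4 : ∑ u : Fin n, ∑ v : Fin n, (if u = k then (if j = v then
      -(1 / (2 * (n : ℂ))) * (g p u * g q v) else 0) else 0) =
      -(1 / (2 * (n : ℂ))) * (g p k * g q j) := by
    rw [sum_eq_single k]
    · rw [sum_eq_single j]
      · simp
      · intro v _ hv
        simp [hv.symm]
      · simp
    · intro u _ hu
      simp [hu]
    · simp
  have h5 : ∑ u : Fin n, ∑ v : Fin n, (if u = j then (if v = k then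
      -(1 / (2 * (n : ℂ))) * (1 / (n : ℂ)) * (g p u * g q v) else 0) else 0) =
      -(1 / (2 * (n : ℂ))) * (1 / (n : ℂ)) * (g p j * g q k) := by
    rw [sum_eq_single j]
    · rw [sum_eq_single k]
      · simp
      · intro v _ hv
        simp [hv]
      · simp
    · intro u _ hu
      simp [hu]
    · simp
  rw [h4, h5]
  ring

end cas

section prod

variable {n : ℕ} {ι : Type} [Fintype ι] [DecidableEq ι]

/-- exchange of two columns in a product -/
theorem swap_prod (g : Matrix (Fin n) (Fin n) ℂ) (f h : ι → Fin n) {j l : ι} (hjl : l ≠ j) :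
    (∏ k ∈ (univ.erase j).erase l, g (f k) (h k)) * (g (f j) (h l) * g (f l) (h j)) =
      ∏ k, g (f k) (h (Equiv.swap j l k)) := by
  rw [← mul_prod_erase univ (fun k => g (f k) (h (Equiv.swap j l k))) (mem_univ j),
    ← mul_prod_erase (univ.erase j) (fun k => g (f k) (h (Equiv.swap j l k)))
      (mem_erase.2 ⟨hjl, mem_univ l⟩), Equiv.swap_apply_left, Equiv.swap_apply_right]
  have h1 : ∏ k ∈ (univ.erase j).erase l, g (f k) (h (Equiv.swap j l k)) =
      ∏ k ∈ (univ.erase j).erase l, g (f k) (h k) := by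
    refine prod_congr rfl fun k hk => ?_
    rw [mem_erase, mem_erase] at hk
    rw [Equiv.swap_apply_of_ne_of_ne hk.2.1 hk.1]
  rw [h1]
  ring

theorem same_prod (g : Matrix (Fin n) (Fin n) ℂ) (f h : ι → Fin n) {j l : ι} (hjl : l ≠ j) :
    (∏ k ∈ (univ.erase j).erase l, g (f k) (h k)) * (g (f j) (h j) * g (f l) (h l)) =
      ∏ k, g (f k) (h k) := by
  rw [← mul_prod_erase univ (fun k => g (f k) (h k)) (mem_univ j),
    ← mul_prod_erase (univ.erase j) (fun k => g (f k) (h k)) (mem_erase.2 ⟨hjl, mem_univ l⟩)]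
  ring

/-- the Laplacian of a product of entries -/
theorem lap_prod (hc : CALFH (⊤ : Subgroup (SU n))) (hn : 1 ≤ n)
    {X : Fin (n ^ 2 - 1) → Matrix (Fin n) (Fin n) ℂ}
    (hX : ∀ b, X b ∈ lie (⊤ : Subgroup (SU n))) (hF : CF X) (f h : ι → Fin n)
    (g : (⊤ : Subgroup (SU n))) :
    lapH X (fun g : (⊤ : Subgroup (SU n)) => ∏ j, g.1.1 (f j) (h j)) g =
      (-((Fintype.card ι : ℂ) * (((n : ℂ) ^ 2 - 1) / (2 * (n : ℂ) ^ 2))) +
        (Fintype.card ι : ℂ) * ((Fintype.card ι : ℂ) - 1) * (1 / (2 * (n : ℂ) ^ 2))) *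
        ∏ j, g.1.1 (f j) (h j) +
      -(1 / (2 * (n : ℂ))) * ∑ j, ∑ l ∈ univ.erase j, ∏ k, g.1.1 (f k) (h (Equiv.swap j l k)) := by
  unfold lapH
  have h1 : ∀ b, dH (X b) (dH (X b) (fun g : (⊤ : Subgroup (SU n)) => ∏ j, g.1.1 (f j) (h j))) g =
      ∑ j, (∏ k ∈ univ.erase j, g.1.1 (f k) (h k)) * (g.1.1 * (X b * X b)) (f j) (h j) +
      ∑ j, ∑ l ∈ univ.erase j, (∏ k ∈ (univ.erase j).erase l, g.1.1 (f k) (h k)) *
        ((g.1.1 * X b) (f j) (h j) * (g.1.1 * X b) (f l) (h l)) := by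
    intro b
    rw [dd_prod hc (hX b) (fun j (g : (⊤ : Subgroup (SU n))) => g.1.1 (f j) (h j)) univ
      (fun j _ => hc.entry _ _)]
    congr 1
    · refine sum_congr rfl fun j _ => ?_
      rw [dd_entry hc (hX b)]
    · refine sum_congr rfl fun j _ => sum_congr rfl fun l _ => ?_
      rw [hc.dentry _ (hX b), hc.dentry _ (hX b)]
  rw [sum_congr rfl fun b _ => h1 b, sum_add_distrib]
  have h2 : ∑ b, ∑ j, (∏ k ∈ univ.erase j, g.1.1 (f k) (h k)) *
      (g.1.1 * (X b * X b)) (f j) (h j) =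
      -((Fintype.card ι : ℂ) * (((n : ℂ) ^ 2 - 1) / (2 * (n : ℂ) ^ 2))) *
        ∏ j, g.1.1 (f j) (h j) := by
    rw [sum_comm]
    have h3 : ∀ j, ∑ b, (∏ k ∈ univ.erase j, g.1.1 (f k) (h k)) *
        (g.1.1 * (X b * X b)) (f j) (h j) =
        -(((n : ℂ) ^ 2 - 1) / (2 * (n : ℂ) ^ 2)) * ∏ j, g.1.1 (f j) (h j) := by
      intro j
      rw [← mul_sum, cas2 hn hF, ← mul_prod_erase univ (fun k => g.1.1 (f k) (h k)) (mem_univ j)]
      ring
    rw [sum_congr rfl fun j _ => h3 j, sum_const, card_univ, nsmul_eq_mul]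
    ring
  have h4 : ∑ b, ∑ j, ∑ l ∈ univ.erase j, (∏ k ∈ (univ.erase j).erase l, g.1.1 (f k) (h k)) *
        ((g.1.1 * X b) (f j) (h j) * (g.1.1 * X b) (f l) (h l)) =
      (Fintype.card ι : ℂ) * ((Fintype.card ι : ℂ) - 1) * (1 / (2 * (n : ℂ) ^ 2)) *
        ∏ j, g.1.1 (f j) (h j) +
      -(1 / (2 * (n : ℂ))) * ∑ j, ∑ l ∈ univ.erase j,
        ∏ k, g.1.1 (f k) (h (Equiv.swap j l k)) := by
    rw [sum_comm]
    have h5 : ∀ j : ι, ∑ b, ∑ l ∈ univ.erase j,
        (∏ k ∈ (univ.erase j).erase l, g.1.1 (f k) (h k)) *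
        ((g.1.1 * X b) (f j) (h j) * (g.1.1 * X b) (f l) (h l)) =
        ∑ l ∈ univ.erase j, (1 / (2 * (n : ℂ) ^ 2) * (∏ j, g.1.1 (f j) (h j)) +
          -(1 / (2 * (n : ℂ))) * ∏ k, g.1.1 (f k) (h (Equiv.swap j l k))) := by
      intro j
      rw [sum_comm]
      refine sum_congr rfl fun l hl => ?_
      have hlj : l ≠ j := (mem_erase.1 hl).1
      rw [← mul_sum, cas3 hF, ← swap_prod g.1.1 f h hlj, ← same_prod g.1.1 f h hlj]
      have hn0 : (n : ℂ) ≠ 0 := by
        have : n ≠ 0 := by omega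
        exact_mod_cast this
      field_simp
      ring
    rw [sum_congr rfl fun j _ => h5 j]
    simp only [sum_add_distrib, sum_const, card_erase_of_mem (mem_univ _), card_univ, nsmul_eq_mul,
      ← mul_sum]
    have h6 : ∀ c : ℂ, (Fintype.card ι : ℂ) * (((Fintype.card ι - 1 : ℕ) : ℂ) * c) =
        (Fintype.card ι : ℂ) * ((Fintype.card ι : ℂ) - 1) * c := by
      intro c
      rcases Nat.eq_zero_or_pos (Fintype.card ι) with h7 | h7
      · simp [h7]
      · rw [Nat.cast_sub h7]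
        push_cast
        ring
    rw [h6]
    ring
  rw [h2, h4]
  ring

omit [Fintype ι] in
theorem c2_prod (hc : CALFH (⊤ : Subgroup (SU n))) (f h : ι → Fin n) (J : Finset ι) :
    C2H (fun g : (⊤ : Subgroup (SU n)) => ∏ j ∈ J, g.1.1 (f j) (h j)) := by
  induction J using Finset.induction_on with
  | empty => simpa using hc.const 1
  | insert i J hi ih =>
    have h1 : (fun g : (⊤ : Subgroup (SU n)) => ∏ j ∈ insert i J, g.1.1 (f j) (h j)) =
        fun g : (⊤ : Subgroup (SU n)) => g.1.1 (f i) (h i) * ∏ j ∈ J, g.1.1 (f j) (h j) := by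
      funext g
      rw [prod_insert hi]
    rw [h1]
    exact hc.mul _ _ (hc.entry _ _) ih

end prod

section lin

variable {n : ℕ} {κ : Type} [DecidableEq κ]

theorem c2_lin (hc : CALFH (⊤ : Subgroup (SU n))) (c : κ → ℂ)
    (F : κ → (⊤ : Subgroup (SU n)) → ℂ) (J : Finset κ) (hF : ∀ j ∈ J, C2H (F j)) :
    C2H (fun g => ∑ j ∈ J, c j * F j g) := by
  induction J using Finset.induction_on with
  | empty => simpa using hc.const 0
  | insert i J hi ih =>
    have h1 : (fun g => ∑ j ∈ insert i J, c j * F j g) =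
        fun g => c i * F i g + ∑ j ∈ J, c j * F j g := by
      funext g
      rw [sum_insert hi]
    rw [h1]
    exact hc.add _ _ (hc.mul _ _ (hc.const (c i)) (hF i (mem_insert_self i J)))
      (ih fun j hj => hF j (mem_insert_of_mem hj))

theorem d_lin (hc : CALFH (⊤ : Subgroup (SU n))) {X : Matrix (Fin n) (Fin n) ℂ}
    (hX : X ∈ lie (⊤ : Subgroup (SU n))) (c : κ → ℂ)
    (F : κ → (⊤ : Subgroup (SU n)) → ℂ) (J : Finset κ) (hF : ∀ j ∈ J, C1H (F j))
    (g : (⊤ : Subgroup (SU n))) :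
    dH X (fun g => ∑ j ∈ J, c j * F j g) g = ∑ j ∈ J, c j * dH X (F j) g := by
  rw [d_sum hc hX (fun j g => c j * F j g) J
    (fun j hj => hc.mul1 _ _ (hc.const (c j)).1 (hF j hj))]
  refine sum_congr rfl fun j hj => ?_
  rw [hc.dmul X hX _ _ (hc.const (c j)).1 (hF j hj), hc.dconst]
  ring

theorem lap_lin (hc : CALFH (⊤ : Subgroup (SU n))) {d : ℕ} {X : Fin d → Matrix (Fin n) (Fin n) ℂ}
    (hX : ∀ b, X b ∈ lie (⊤ : Subgroup (SU n))) (c : κ → ℂ)
    (F : κ → (⊤ : Subgroup (SU n)) → ℂ) (J : Finset κ) (hF : ∀ j ∈ J, C2H (F j))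
    (g : (⊤ : Subgroup (SU n))) :
    lapH X (fun g => ∑ j ∈ J, c j * F j g) g = ∑ j ∈ J, c j * lapH X (F j) g := by
  unfold lapH
  have h1 : ∀ b, dH (X b) (dH (X b) (fun g => ∑ j ∈ J, c j * F j g)) g =
      ∑ j ∈ J, c j * dH (X b) (dH (X b) (F j)) g := by
    intro b
    have h2 : dH (X b) (fun g => ∑ j ∈ J, c j * F j g) =
        fun g => ∑ j ∈ J, c j * dH (X b) (F j) g := by
      funext g
      exact d_lin hc (hX b) c F J (fun j hj => (hF j hj).1) g
    rw [h2]
    exact d_lin hc (hX b) c (fun j => dH (X b) (F j)) J (fun j hj => (hF j hj).2 _ (hX b)) g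
  rw [sum_congr rfl fun b _ => h1 b, sum_comm]
  refine sum_congr rfl fun j _ => ?_
  rw [mul_sum]

end lin

section det

variable {n : ℕ} {ι : Type} [Fintype ι] [DecidableEq ι]

theorem det_eq (f : ι → Fin n) (g : Matrix (Fin n) (Fin n) ℂ) :
    (g.submatrix f f).det =
      ∑ σ : Equiv.Perm ι, ((Equiv.Perm.sign σ : ℤ) : ℂ) * ∏ i, g (f (σ i)) (f i) := by
  rw [Matrix.det_apply']
  rfl

theorem det_swap (f : ι → Fin n) (g : Matrix (Fin n) (Fin n) ℂ) {j l : ι} (hjl : l ≠ j) :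
    ∑ σ : Equiv.Perm ι, ((Equiv.Perm.sign σ : ℤ) : ℂ) * ∏ i, g (f (σ i)) (f (Equiv.swap j l i)) =
      -(g.submatrix f f).det := by
  have h := Matrix.det_permute' (Equiv.swap j l) (g.submatrix f f)
  rw [Equiv.Perm.sign_swap hjl.symm, Matrix.det_apply'] at h
  have h2 : ∑ σ : Equiv.Perm ι, ((Equiv.Perm.sign σ : ℤ) : ℂ) *
      ∏ i, ((g.submatrix f f).submatrix id (Equiv.swap j l)) (σ i) i =
      ∑ σ : Equiv.Perm ι, ((Equiv.Perm.sign σ : ℤ) : ℂ) *
        ∏ i, g (f (σ i)) (f (Equiv.swap j l i)) := rfl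
  rw [← h2, h]
  simp

/-- the Laplacian of a minor -/
theorem lap_det (hc : CALFH (⊤ : Subgroup (SU n))) (hn : 1 ≤ n)
    {X : Fin (n ^ 2 - 1) → Matrix (Fin n) (Fin n) ℂ}
    (hX : ∀ b, X b ∈ lie (⊤ : Subgroup (SU n))) (hF : CF X) (f : ι → Fin n) :
    C2H (fun g : (⊤ : Subgroup (SU n)) => (g.1.1.submatrix f f).det) ∧
    ∀ g : (⊤ : Subgroup (SU n)),
      lapH X (fun g : (⊤ : Subgroup (SU n)) => (g.1.1.submatrix f f).det) g =
        -(((Fintype.card ι : ℂ) * (n + 1) * (n - (Fintype.card ι : ℂ))) / (2 * (n : ℂ) ^ 2)) *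
          (g.1.1.submatrix f f).det := by
  have h0 : (fun g : (⊤ : Subgroup (SU n)) => (g.1.1.submatrix f f).det) =
      fun g : (⊤ : Subgroup (SU n)) => ∑ σ : Equiv.Perm ι, ((Equiv.Perm.sign σ : ℤ) : ℂ) *
        ∏ i, g.1.1 (f (σ i)) (f i) := by
    funext g
    exact det_eq f g.1.1
  have hC : ∀ σ ∈ (univ : Finset (Equiv.Perm ι)), C2H (fun g : (⊤ : Subgroup (SU n)) =>
      ∏ i, g.1.1 (f (σ i)) (f i)) := fun σ _ => c2_prod hc (fun i => f (σ i)) f univ
  constructor
  · rw [h0]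
    exact c2_lin hc (fun σ : Equiv.Perm ι => ((Equiv.Perm.sign σ : ℤ) : ℂ)) _ univ hC
  · intro g
    rw [h0, lap_lin hc hX (fun σ : Equiv.Perm ι => ((Equiv.Perm.sign σ : ℤ) : ℂ)) _ univ hC]
    have h1 : ∀ σ : Equiv.Perm ι, ((Equiv.Perm.sign σ : ℤ) : ℂ) *
        lapH X (fun g : (⊤ : Subgroup (SU n)) => ∏ i, g.1.1 (f (σ i)) (f i)) g =
        (-((Fintype.card ι : ℂ) * (((n : ℂ) ^ 2 - 1) / (2 * (n : ℂ) ^ 2))) +
        (Fintype.card ι : ℂ) * ((Fintype.card ι : ℂ) - 1) * (1 / (2 * (n : ℂ) ^ 2))) *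
        (((Equiv.Perm.sign σ : ℤ) : ℂ) * ∏ i, g.1.1 (f (σ i)) (f i)) +
      -(1 / (2 * (n : ℂ))) * ∑ j, ∑ l ∈ univ.erase j, ((Equiv.Perm.sign σ : ℤ) : ℂ) *
        ∏ i, g.1.1 (f (σ i)) (f (Equiv.swap j l i)) := by
      intro σ
      rw [lap_prod hc hn hX hF (fun i => f (σ i)) f g]
      simp only [← mul_sum]
      ring
    rw [sum_congr rfl fun σ _ => h1 σ, sum_add_distrib, ← mul_sum, ← mul_sum, ← det_eq, sum_comm]
    have h2 : ∑ j : ι, ∑ σ : Equiv.Perm ι, ∑ l ∈ univ.erase j, ((Equiv.Perm.sign σ : ℤ) : ℂ) *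
        ∏ i, g.1.1 (f (σ i)) (f (Equiv.swap j l i)) =
        -((Fintype.card ι : ℂ) * ((Fintype.card ι : ℂ) - 1)) * (g.1.1.submatrix f f).det := by
      have h3 : ∀ j : ι, ∑ σ : Equiv.Perm ι, ∑ l ∈ univ.erase j,
          ((Equiv.Perm.sign σ : ℤ) : ℂ) * ∏ i, g.1.1 (f (σ i)) (f (Equiv.swap j l i)) =
          ∑ l ∈ univ.erase j, -(g.1.1.submatrix f f).det := by
        intro j
        rw [sum_comm]
        refine sum_congr rfl fun l hl => ?_
        exact det_swap f g.1.1 (mem_erase.1 hl).1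
      rw [sum_congr rfl fun j _ => h3 j]
      simp only [sum_const, card_erase_of_mem (mem_univ _), card_univ, nsmul_eq_mul]
      rcases Nat.eq_zero_or_pos (Fintype.card ι) with h7 | h7
      · simp [h7]
      · rw [Nat.cast_sub h7]
        push_cast
        ring
    rw [h2]
    have hn0 : (n : ℂ) ≠ 0 := by
      have : n ≠ 0 := by omega
      exact_mod_cast this
    field_simp
    ring

end det

end LAPE

open LAPE in
theorem t_LAPE : M_LAPE := by
  intro hcal hcas n hn X hX a _ g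
  have hc : CALFH (⊤ : Subgroup (SU n)) := hcal n ⊤
  have hF : CF X := hcas n hn X (frame hX)
  unfold eg
  have h0 : (fun g : (⊤ : Subgroup (SU n)) => ∑ s ∈ Finset.univ.powersetCard a,
      (g.1.1.submatrix (Subtype.val : s → Fin n) (Subtype.val : s → Fin n)).det) =
      fun g : (⊤ : Subgroup (SU n)) => ∑ s ∈ Finset.univ.powersetCard a, (1 : ℂ) *
      (g.1.1.submatrix (Subtype.val : s → Fin n) (Subtype.val : s → Fin n)).det := by
    funext g
    refine Finset.sum_congr rfl fun s _ => ?_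
    rw [one_mul]
  rw [h0, lap_lin hc hX.mem (fun _ : Finset (Fin n) => (1 : ℂ))
    (fun (s : Finset (Fin n)) (g : (⊤ : Subgroup (SU n))) =>
      (g.1.1.submatrix (Subtype.val : s → Fin n) (Subtype.val : s → Fin n)).det) _
    (fun s _ => (lap_det hc hn hX.mem hF (Subtype.val : s → Fin n)).1), Finset.mul_sum]
  refine Finset.sum_congr rfl fun s hs => ?_
  rw [(lap_det hc hn hX.mem hF (Subtype.val : s → Fin n)).2 g, one_mul]
  have hcard : Fintype.card s = a := by
    rw [Fintype.card_coe]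
    exact (Finset.mem_powersetCard.1 hs).2
  rw [hcard]

end STZ
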