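import Pool.Agent.STZ.StmtsY
import Pool.Agent.STZ.INTX

/-!
# LAPN: the Laplace operator on the functions `ψ l`
-/

set_option autoImplicit false

namespace STZ

open MeasureTheory Matrix

open scoped ComplexConjugate Matrix Real

noncomputable section

namespace LAPN

section dif

variable {N : ℕ} {H : Subgroup (SU N)}

theorem c2_smul (C : CALFH H) (c : ℂ) {f : H → ℂ} (hf : C2H f) : C2H (fun g => c * f g) :=
  C.mul _ _ (C.const c) hf

theorem d_smul (C : CALFH H) {X : Matrix (Fin N) (Fin N) ℂ} (hX : X ∈ lie H) (c : ℂ) {f : H → ℂ}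
    (hf : C1H f) (g : H) : dH X (fun g => c * f g) g = c * dH X f g := by
  rw [C.dmul X hX _ _ (C.const c).1 hf, C.dconst, zero_mul, zero_add]

theorem c2_sum (C : CALFH H) {ι : Type} [DecidableEq ι] (s : Finset ι) (c : ι → ℂ)
    (f : ι → H → ℂ) (hf : ∀ i ∈ s, C2H (f i)) : C2H (fun g => ∑ i ∈ s, c i * f i g) := by
  induction s using Finset.induction_on with
  | empty =>
    simp only [Finset.sum_empty]
    exact C.const 0
  | insert i s hi ih =>
    simp only [Finset.sum_insert hi]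
    exact C.add _ _ (c2_smul C _ (hf i (Finset.mem_insert_self _ _)))
      (ih fun j hj => hf j (Finset.mem_insert_of_mem hj))

theorem d_sum (C : CALFH H) {X : Matrix (Fin N) (Fin N) ℂ} (hX : X ∈ lie H) {ι : Type}
    [DecidableEq ι] (s : Finset ι) (c : ι → ℂ)
    (f : ι → H → ℂ) (hf : ∀ i ∈ s, C1H (f i)) :
    C1H (fun g => ∑ i ∈ s, c i * f i g) ∧
    ∀ g, dH X (fun g => ∑ i ∈ s, c i * f i g) g = ∑ i ∈ s, c i * dH X (f i) g := by
  induction s using Finset.induction_on with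
  | empty =>
    simp only [Finset.sum_empty]
    exact ⟨(C.const 0).1, fun g => C.dconst X 0 g⟩
  | insert i s hi ih =>
    obtain ⟨h1, h2⟩ := ih fun j hj => hf j (Finset.mem_insert_of_mem hj)
    have h3 : C1H (fun g => c i * f i g) :=
      C.mul1 _ _ (C.const (c i)).1 (hf i (Finset.mem_insert_self _ _))
    simp only [Finset.sum_insert hi]
    refine ⟨C.add1 _ _ h3 h1, fun g => ?_⟩
    rw [C.dadd X hX _ _ h3 h1, h2 g, d_smul C hX _ (hf i (Finset.mem_insert_self _ _))]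

/-- the combination `u v - ∑ c κ f κ` -/
theorem comb (C : CALFH H) {ι : Type} [DecidableEq ι] (s : Finset ι) (c : ι → ℂ)
    (f : ι → H → ℂ) (hf : ∀ i ∈ s, C2H (f i)) (u v : H → ℂ) (hu : C2H u) (hv : C2H v) :
    C2H (fun g => u g * v g - ∑ i ∈ s, c i * f i g) ∧
    (∀ X ∈ lie H, ∀ g, dH X (fun g => u g * v g - ∑ i ∈ s, c i * f i g) g =
      dH X u g * v g + u g * dH X v g - ∑ i ∈ s, c i * dH X (f i) g) ∧
    ∀ X ∈ lie H, ∀ g, dH X (dH X (fun g => u g * v g - ∑ i ∈ s, c i * f i g)) g =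
      dH X (dH X u) g * v g + u g * dH X (dH X v) g + 2 * (dH X u g * dH X v g) -
        ∑ i ∈ s, c i * dH X (dH X (f i)) g := by
  have e1 : (fun g => u g * v g - ∑ i ∈ s, c i * f i g) =
      fun g => u g * v g + ∑ i ∈ s, (-c i) * f i g := by
    funext g
    simp only [neg_mul, Finset.sum_neg_distrib, sub_eq_add_neg]
  have hd : ∀ X ∈ lie H, ∀ g, dH X (fun g => u g * v g - ∑ i ∈ s, c i * f i g) g =
      dH X u g * v g + u g * dH X v g - ∑ i ∈ s, c i * dH X (f i) g := by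
    intro X hX g
    obtain ⟨h1, h2⟩ := d_sum C hX s (fun i => -c i) f fun i hi => (hf i hi).1
    rw [e1, C.dadd X hX (fun g => u g * v g) _ (C.mul1 _ _ hu.1 hv.1) h1, h2 g,
      C.dmul X hX u v hu.1 hv.1]
    simp only [neg_mul, Finset.sum_neg_distrib, sub_eq_add_neg]
  refine ⟨?_, hd, ?_⟩
  · rw [e1]
    exact C.add _ _ (C.mul _ _ hu hv) (c2_sum C s _ f hf)
  · intro X hX g
    have e2 : dH X (fun g => u g * v g - ∑ i ∈ s, c i * f i g) =
        fun g => (dH X u g * v g + u g * dH X v g) + ∑ i ∈ s, (-c i) * dH X (f i) g := by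
      funext g
      rw [hd X hX g]
      simp only [neg_mul, Finset.sum_neg_distrib, sub_eq_add_neg]
    obtain ⟨h1, h2⟩ := d_sum C hX s (fun i => -c i) (fun i => dH X (f i)) fun i hi => (hf i hi).2 X hX
    have hu1 := hu.2 X hX
    have hv1 := hv.2 X hX
    have h3 : C1H (fun g => dH X u g * v g) := C.mul1 _ _ hu1 hv.1
    have h4 : C1H (fun g => u g * dH X v g) := C.mul1 _ _ hu.1 hv1
    rw [e2, C.dadd X hX (fun g => dH X u g * v g + u g * dH X v g) _ (C.add1 _ _ h3 h4) h1, h2 g,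
      C.dadd X hX _ _ h3 h4, C.dmul X hX _ _ hu1 hv.1, C.dmul X hX _ _ hu.1 hv1]
    simp only [neg_mul, Finset.sum_neg_distrib]
    ring

end dif

section main

variable {N : ℕ} {H : Subgroup (SU N)} {c : ℝ} {d r : ℕ} {D : RD r}
  {M : Fin r → Fin r → (Fin r → ℂ) → ℂ} {x : Fin r → H → ℂ} {k : ℝ}
  {X : Fin d → Matrix (Fin N) (Fin N) ℂ}

/-- the right side of (B) -/
def B (D : RD r) (φ : (Fin r → ℤ) → ℂ) (j : Fin r) (l : Fin r → ℤ) : ℂ :=
  ∑ κ ∈ D.S j, (D.P j κ : ℂ) * (((D.Q (l + κ) : ℂ) - D.Q l - (D.Q (1 + Pi.single j 1) - D.Q 1)) *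
    φ (l + κ))

theorem B_w (h : RDO D) {φ : (Fin r → ℤ) → ℂ}
    (hφ : ∀ w ∈ D.W, ∀ l, φ (w *ᵥ l) = (w.det : ℂ) * φ l) {w : Matrix (Fin r) (Fin r) ℤ}
    (hw : w ∈ D.W) (j : Fin r) (l : Fin r → ℤ) : B D φ j (w *ᵥ l) = (w.det : ℂ) * B D φ j l := by
  classical
  obtain ⟨w', _, hw'⟩ := h.W_inv w hw
  have hinj : Function.Injective fun κ : Fin r → ℤ => w *ᵥ κ := by
    intro a b hab
    have h1 : w' *ᵥ (w *ᵥ a) = w' *ᵥ (w *ᵥ b) := congrArg (fun z => w' *ᵥ z) hab
    rwa [Matrix.mulVec_mulVec, Matrix.mulVec_mulVec, hw', Matrix.one_mulVec,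
      Matrix.one_mulVec] at h1
  have himg : (D.S j).image (fun κ => w *ᵥ κ) = D.S j := by
    apply Finset.eq_of_subset_of_card_le
    · intro κ hκ
      obtain ⟨a, ha, rfl⟩ := Finset.mem_image.1 hκ
      exact h.S_W j w hw a ha
    · rw [Finset.card_image_of_injective _ hinj]
  unfold B
  conv_lhs => rw [← himg]
  rw [Finset.sum_image fun a _ b _ hab => hinj hab, Finset.mul_sum]
  refine Finset.sum_congr rfl fun κ _ => ?_
  rw [h.P_W j w hw, ← Matrix.mulVec_add, h.Q_W w hw, h.Q_W w hw, hφ w hw]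
  ring

theorem B_wall (h : RDO D) (hW : RDW D) {φ : (Fin r → ℤ) → ℂ}
    (hφ : ∀ w ∈ D.W, ∀ l, φ (w *ᵥ l) = (w.det : ℂ) * φ l) (j : Fin r) (l : Fin r → ℤ)
    (i : Fin r) (hi : l i = 0) : B D φ j l = 0 := by
  obtain ⟨w, hw, hdet, hfix⟩ := hW.refl i
  have h1 := B_w h hφ hw j l
  rw [hfix l hi, hdet] at h1
  push_cast at h1
  have h2 : (2 : ℂ) * B D φ j l = 0 := by linear_combination h1
  rcases mul_eq_zero.1 h2 with h3 | h3
  · norm_num at h3
  · exact h3

theorem B_one (hW : RDW D) {φ : (Fin r → ℤ) → ℂ}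
    (hφ : ∀ w ∈ D.W, ∀ l, φ (w *ᵥ l) = (w.det : ℂ) * φ l) (j : Fin r) : B D φ j 1 = 0 := by
  rw [← hW.base φ hφ j]
  unfold B
  refine Finset.sum_congr rfl fun κ _ => ?_
  ring

/-- the step for the Laplace operator -/
theorem stepA (h : RDO D) (y : Fin r → ℂ) (i : Fin r) (l : Fin r → ℤ) :
    ((D.Q l : ℂ) - D.Q 1 + (D.Q (1 + Pi.single i 1) - D.Q 1)) * (y i * D.ψ y l) +
      B D (D.ψ y) i l = ∑ κ ∈ D.S i, (D.P i κ : ℂ) * (((D.Q (l + κ) : ℂ) - D.Q 1) *
        D.ψ y (l + κ)) := by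
  unfold B
  rw [h.rule, Finset.mul_sum, ← Finset.sum_add_distrib]
  refine Finset.sum_congr rfl fun κ _ => ?_
  ring

/-- the step for the carré du champ -/
theorem stepB (h : RDO D) (hG : RDG D M) (y : Fin r → ℂ) (i j : Fin r) (l : Fin r → ℤ) :
    M j i y * D.ψ y l + y i * B D (D.ψ y) j l =
      ∑ κ ∈ D.S i, (D.P i κ : ℂ) * B D (D.ψ y) j (l + κ) := by
  unfold B
  rw [hG j i y l, Finset.mul_sum]
  have e1 : ∑ κ ∈ D.S i, (D.P i κ : ℂ) * ∑ κ' ∈ D.S j, (D.P j κ' : ℂ) *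
      (((D.Q (l + κ + κ') : ℂ) - D.Q (l + κ) - (D.Q (1 + Pi.single j 1) - D.Q 1)) *
        D.ψ y (l + κ + κ')) = ∑ κ' ∈ D.S j, ∑ κ ∈ D.S i, (D.P i κ : ℂ) * ((D.P j κ' : ℂ) *
      (((D.Q (l + κ + κ') : ℂ) - D.Q (l + κ) - (D.Q (1 + Pi.single j 1) - D.Q 1)) *
        D.ψ y (l + κ + κ'))) := by
    simp only [Finset.mul_sum]
    exact Finset.sum_comm
  rw [e1, ← Finset.sum_add_distrib]
  refine Finset.sum_congr rfl fun κ' _ => ?_
  have e2 : y i * ((D.P j κ' : ℂ) * (((D.Q (l + κ') : ℂ) - D.Q l -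
      (D.Q (1 + Pi.single j 1) - D.Q 1)) * D.ψ y (l + κ'))) =
      ((D.P j κ' : ℂ) * ((D.Q (l + κ') : ℂ) - D.Q l - (D.Q (1 + Pi.single j 1) - D.Q 1))) *
        (y i * D.ψ y (l + κ')) := by ring
  rw [e2, h.rule, Finset.mul_sum, ← Finset.sum_add_distrib]
  refine Finset.sum_congr rfl fun κ _ => ?_
  have e3 : l + κ + κ' = l + κ' + κ := by abel
  have e4 : D.Q (l + κ' + κ) - D.Q (l + κ) = D.Q (l + κ') - D.Q l + κ' ⬝ᵥ (D.A *ᵥ κ) := by
    rw [h.qf.polar (l + κ') κ, h.qf.polar l κ, add_dotProduct]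
    ring
  have e5 : ((D.Q (l + κ' + κ) : ℂ) - D.Q (l + κ)) =
      (D.Q (l + κ') : ℂ) - D.Q l + ((κ' ⬝ᵥ (D.A *ᵥ κ) : ℤ) : ℂ) := by
    exact_mod_cast congrArg (Int.cast (R := ℂ)) e4
  rw [e3]
  push_cast
  linear_combination (-(D.P i κ : ℂ) * (D.P j κ' : ℂ) * D.ψ y (l + κ' + κ)) * e5

/-- the statement of the induction -/
def Cl (D : RD r) (x : Fin r → H → ℂ) (k : ℝ) (X : Fin d → Matrix (Fin N) (Fin N) ℂ)
    (l : Fin r → ℤ) : Prop :=
  C2H (fun g : H => D.ψ (fun i => x i g) l) ∧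
  (∀ g, lapH X (fun g : H => D.ψ (fun i => x i g) l) g =
    -((k : ℂ) * ((D.Q l : ℂ) - D.Q 1)) * D.ψ (fun i => x i g) l) ∧
  ∀ j g, ∑ a, dH (X a) (x j) g * dH (X a) (fun g : H => D.ψ (fun i => x i g) l) g =
    -((k : ℂ) / 2) * B D (D.ψ (fun i => x i g)) j l

theorem cl_all (C : CALFH H) (h : RDO D) (hW : RDW D) (hG : RDG D M) (hF : GFL H c d D M x k)
    (hX : FrameH H c X) : ∀ l, Cl D x k X l := by
  classical
  have hφ : ∀ g, ∀ w ∈ D.W, ∀ l, D.ψ (fun i => x i g) (w *ᵥ l) =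
      (w.det : ℂ) * D.ψ (fun i => x i g) l := fun g w hw l => h.anti w hw _ l
  refine INTX.ind h ?_ ?_ ?_ ?_
  · rintro w hw l ⟨h1, h2, h3⟩
    have e1 : (fun g : H => D.ψ (fun i => x i g) l) =
        fun g => (w.det : ℂ) * D.ψ (fun i => x i g) (w *ᵥ l) := by
      funext g
      exact INTX.psi_eq h hw _ l
    have e2 : ∀ a, dH (X a) (fun g : H => D.ψ (fun i => x i g) l) =
        fun g => (w.det : ℂ) * dH (X a) (fun g : H => D.ψ (fun i => x i g) (w *ᵥ l)) g := by
      intro a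
      funext g
      rw [e1, d_smul C (hX.mem a) _ h1.1]
    refine ⟨?_, ?_, ?_⟩
    · rw [e1]
      exact c2_smul C _ h1
    · intro g
      have e3 : lapH X (fun g : H => D.ψ (fun i => x i g) l) g =
          (w.det : ℂ) * lapH X (fun g : H => D.ψ (fun i => x i g) (w *ᵥ l)) g := by
        unfold lapH
        rw [Finset.mul_sum]
        refine Finset.sum_congr rfl fun a _ => ?_
        rw [e2 a, d_smul C (hX.mem a) _ (h1.2 _ (hX.mem a))]
      rw [e3, h2 g, h.Q_W w hw, INTX.psi_eq h hw (fun i => x i g) l]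
      ring
    · intro j g
      have e3 : ∑ a, dH (X a) (x j) g * dH (X a) (fun g : H => D.ψ (fun i => x i g) l) g =
          (w.det : ℂ) * ∑ a, dH (X a) (x j) g *
            dH (X a) (fun g : H => D.ψ (fun i => x i g) (w *ᵥ l)) g := by
        rw [Finset.mul_sum]
        refine Finset.sum_congr rfl fun a _ => ?_
        rw [e2 a]
        ring
      rw [e3, h3 j g, B_w h (hφ g) hw]
      linear_combination (-((k : ℂ) / 2) * B D (D.ψ (fun i => x i g)) j l) * INTX.det_sqC h hw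
  · intro l i hi
    have e1 : (fun g : H => D.ψ (fun i => x i g) l) = fun _ => (0 : ℂ) := by
      funext g
      exact h.wall _ l i hi
    have e2 : ∀ a, dH (X a) (fun _ : H => (0 : ℂ)) = fun _ => (0 : ℂ) := by
      intro a
      funext g
      exact C.dconst _ _ g
    refine ⟨?_, ?_, ?_⟩
    · rw [e1]
      exact C.const 0
    · intro g
      rw [h.wall (fun i => x i g) l i hi, e1]
      unfold lapH
      simp only [e2, Finset.sum_const_zero, mul_zero]
    · intro j g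
      rw [B_wall h hW (hφ g) j l i hi, e1]
      simp only [e2, mul_zero, Finset.sum_const_zero]
  · have e1 : (fun g : H => D.ψ (fun i => x i g) 1) = fun _ => (1 : ℂ) := by
      funext g
      exact h.one _
    have e2 : ∀ a (z : ℂ), dH (X a) (fun _ : H => z) = fun _ => (0 : ℂ) := by
      intro a z
      funext g
      exact C.dconst _ _ g
    refine ⟨?_, ?_, ?_⟩
    · rw [e1]
      exact C.const 1
    · intro g
      rw [h.one (fun i => x i g), e1]
      unfold lapH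
      simp only [e2, Finset.sum_const_zero, sub_self, mul_zero, neg_zero, zero_mul]
    · intro j g
      rw [B_one hW (hφ g) j, e1]
      simp only [e2, mul_zero, Finset.sum_const_zero]
  · rintro i l hl ⟨h1, h2, h3⟩ hκ
    set s := (D.S i).erase (Pi.single i 1) with hs
    have hκ' : ∀ κ ∈ s, Cl D x k X (l + κ) := fun κ hm =>
      hκ κ (Finset.mem_of_mem_erase hm) (Finset.ne_of_mem_erase hm)
    have e1 : (fun g : H => D.ψ (fun i => x i g) (l + Pi.single i 1)) =
        fun g => x i g * D.ψ (fun i => x i g) l -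
          ∑ κ ∈ s, (D.P i κ : ℂ) * D.ψ (fun i => x i g) (l + κ) := by
      funext g
      exact INTX.rule' h i (fun i => x i g) l
    obtain ⟨q1, q2, q3⟩ := comb C s (fun κ => (D.P i κ : ℂ))
      (fun κ g => D.ψ (fun i => x i g) (l + κ)) (fun κ hm => (hκ' κ hm).1) (x i)
      (fun g => D.ψ (fun i => x i g) l) (hF.c2 i) h1
    have htop : ∀ F : (Fin r → ℤ) → ℂ, ∑ κ ∈ D.S i, (D.P i κ : ℂ) * F κ =
        F (Pi.single i 1) + ∑ κ ∈ s, (D.P i κ : ℂ) * F κ := by
      intro F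
      rw [← Finset.add_sum_erase _ _ (h.top i).1, (h.top i).2]
      push_cast
      ring
    refine ⟨?_, ?_, ?_⟩
    · rw [e1]
      exact q1
    · intro g
      have e3 : lapH X (fun g : H => D.ψ (fun i => x i g) (l + Pi.single i 1)) g =
          lapH X (x i) g * D.ψ (fun i => x i g) l +
            x i g * lapH X (fun g : H => D.ψ (fun i => x i g) l) g +
            2 * ∑ a, dH (X a) (x i) g * dH (X a) (fun g : H => D.ψ (fun i => x i g) l) g -
            ∑ κ ∈ s, (D.P i κ : ℂ) * lapH X (fun g : H => D.ψ (fun i => x i g) (l + κ)) g := by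
        rw [e1]
        unfold lapH
        rw [Finset.sum_congr rfl fun a _ => q3 (X a) (hX.mem a) g, Finset.sum_sub_distrib,
          Finset.sum_add_distrib, Finset.sum_add_distrib, ← Finset.sum_mul, ← Finset.mul_sum,
          ← Finset.mul_sum, Finset.sum_comm]
        simp only [← Finset.mul_sum]
      have e4 := stepA h (fun i => x i g) i l
      rw [htop fun κ => ((D.Q (l + κ) : ℂ) - D.Q 1) * D.ψ (fun i => x i g) (l + κ)] at e4
      have e5 : ∑ κ ∈ s, (D.P i κ : ℂ) * lapH X (fun g : H => D.ψ (fun i => x i g) (l + κ)) g =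
          -(k : ℂ) * ∑ κ ∈ s, (D.P i κ : ℂ) * (((D.Q (l + κ) : ℂ) - D.Q 1) *
            D.ψ (fun i => x i g) (l + κ)) := by
        rw [Finset.mul_sum]
        refine Finset.sum_congr rfl fun κ hm => ?_
        rw [(hκ' κ hm).2.1 g]
        ring
      rw [e3, hF.lapx X hX i g, h2 g, h3 i g, e5]
      linear_combination (-(k : ℂ)) * e4
    · intro j g
      have e3 : ∑ a, dH (X a) (x j) g *
            dH (X a) (fun g : H => D.ψ (fun i => x i g) (l + Pi.single i 1)) g =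
          (∑ a, dH (X a) (x j) g * dH (X a) (x i) g) * D.ψ (fun i => x i g) l +
            x i g * (∑ a, dH (X a) (x j) g *
              dH (X a) (fun g : H => D.ψ (fun i => x i g) l) g) -
            ∑ κ ∈ s, (D.P i κ : ℂ) * ∑ a, dH (X a) (x j) g *
              dH (X a) (fun g : H => D.ψ (fun i => x i g) (l + κ)) g := by
        rw [e1]
        rw [Finset.sum_congr rfl fun a _ => congrArg (fun z => dH (X a) (x j) g * z)
          (q2 (X a) (hX.mem a) g)]
        simp only [Finset.mul_sum, Finset.sum_mul]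
        rw [Finset.sum_comm (s := s), ← Finset.sum_add_distrib, ← Finset.sum_sub_distrib]
        refine Finset.sum_congr rfl fun a _ => ?_
        rw [mul_sub, mul_add, Finset.mul_sum]
        congr 1
        · ring
        · refine Finset.sum_congr rfl fun κ _ => ?_
          ring
      have e4 := stepB h hG (fun i => x i g) i j l
      rw [htop fun κ => B D (D.ψ (fun i => x i g)) j (l + κ)] at e4
      have e5 : ∑ κ ∈ s, (D.P i κ : ℂ) * ∑ a, dH (X a) (x j) g *
              dH (X a) (fun g : H => D.ψ (fun i => x i g) (l + κ)) g =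
          -((k : ℂ) / 2) * ∑ κ ∈ s, (D.P i κ : ℂ) * B D (D.ψ (fun i => x i g)) j (l + κ) := by
        rw [Finset.mul_sum]
        refine Finset.sum_congr rfl fun κ hm => ?_
        rw [(hκ' κ hm).2.2 j g]
        ring
      have e6 := hF.gam X hX j i g
      have e7 : M j i (fun s => x s g) = M j i (fun i => x i g) := rfl
      rw [e3, e6, h3 j g, e5]
      linear_combination (-((k : ℂ) / 2)) * e4

end main

end LAPN

theorem t_LAPN : M_LAPN := by
  intro hC _ N H c d r D M x k h hW hG hF X hX l _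
  obtain ⟨h1, h2, _⟩ := LAPN.cl_all (hC N H) h hW hG hF hX l
  exact ⟨h1, h2⟩

end

end STZ
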