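import Pool.Agent.STZ.StmtsN

/-!
# Module LIEC: the Lie algebra of `Sp(2)`
-/

set_option autoImplicit false

namespace STZ

open MeasureTheory Matrix

open scoped ComplexConjugate Matrix Real

noncomputable section

namespace LIEC

theorem J4_mul : J4 * J4 = -1 := by
  ext i j
  fin_cases i <;> fin_cases j <;>
    simp [J4, Matrix.mul_apply, Fin.sum_univ_four]

theorem J4_inv_left : (-J4) * J4 = 1 := by
  rw [Matrix.neg_mul, J4_mul, neg_neg]

theorem J4_inv_right : J4 * (-J4) = 1 := by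
  rw [Matrix.mul_neg, J4_mul, neg_neg]

theorem J4_unit : IsUnit J4 := by
  rw [isUnit_iff_exists]
  exact ⟨-J4, J4_inv_right, J4_inv_left⟩

theorem J4_inv : J4⁻¹ = -J4 := Matrix.inv_eq_left_inv J4_inv_left

/-- the derivative of `Eᵀ J E` -/
theorem deriv_form {E : ℝ → Matrix (Fin 4) (Fin 4) ℂ} {X J : Matrix (Fin 4) (Fin 4) ℂ}
    (h0 : E 0 = 1) (h : ∀ i j, HasDerivAt (fun t : ℝ => E t i j) (X i j) 0) (i j : Fin 4) :
    HasDerivAt (fun t : ℝ => ((E t)ᵀ * J * E t) i j) ((Xᵀ * J + J * X) i j) 0 := by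
  have h1 : HasDerivAt (fun t : ℝ => ∑ l, (∑ k, E t k i * J k l) * E t l j)
      (∑ l, ((∑ k, X k i * J k l) * E 0 l j + (∑ k, E 0 k i * J k l) * X l j)) 0 := by
    refine HasDerivAt.fun_sum fun l _ => ?_
    refine HasDerivAt.mul ?_ (h l j)
    refine HasDerivAt.fun_sum fun k _ => ?_
    exact (h k i).mul_const _
  have h2 : (fun t : ℝ => ((E t)ᵀ * J * E t) i j) =
      fun t : ℝ => ∑ l, (∑ k, E t k i * J k l) * E t l j := by
    funext t
    rw [Matrix.mul_apply]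
    refine Finset.sum_congr rfl fun l _ => ?_
    rw [Matrix.mul_apply]
    rfl
  have h3 : (Xᵀ * J + J * X) i j =
      ∑ l, ((∑ k, X k i * J k l) * E 0 l j + (∑ k, E 0 k i * J k l) * X l j) := by
    have h4 : Xᵀ * J + J * X = Xᵀ * J * E 0 + (E 0)ᵀ * J * X := by
      rw [h0, Matrix.mul_one, Matrix.transpose_one, Matrix.one_mul]
    rw [h4, Matrix.add_apply, Matrix.mul_apply, Matrix.mul_apply, ← Finset.sum_add_distrib]
    refine Finset.sum_congr rfl fun l _ => ?_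
    rw [Matrix.mul_apply, Matrix.mul_apply]
    rfl
  rw [h2, h3]
  exact h1

theorem exp_form (X : Matrix (Fin 4) (Fin 4) ℂ) (hX : Xᵀ * J4 + J4 * X = 0) (t : ℂ) :
    (NormedSpace.exp (t • X))ᵀ * J4 * NormedSpace.exp (t • X) = J4 := by
  have h1 : Xᵀ = J4 * (-X) * J4⁻¹ := by
    have h2 : Xᵀ * J4 = -(J4 * X) := eq_neg_of_add_eq_zero_left hX
    have h3 : Xᵀ = Xᵀ * J4 * J4⁻¹ := by
      rw [Matrix.mul_assoc, J4_inv, J4_inv_right, Matrix.mul_one]
    rw [h3, h2, Matrix.mul_neg]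
  have h2 : (t • X)ᵀ = J4 * (-(t • X)) * J4⁻¹ := by
    rw [Matrix.transpose_smul, h1, ← smul_neg, Matrix.mul_smul, Matrix.smul_mul]
  have h3 : NormedSpace.exp (-(t • X)) * NormedSpace.exp (t • X) = 1 := by
    rw [← Matrix.exp_add_of_commute _ _ (Commute.refl (t • X)).neg_left, neg_add_cancel]
    exact NormedSpace.exp_zero
  rw [← Matrix.exp_transpose, h2, Matrix.exp_conj _ _ J4_unit]
  calc J4 * NormedSpace.exp (-(t • X)) * J4⁻¹ * J4 * NormedSpace.exp (t • X)
      = J4 * NormedSpace.exp (-(t • X)) * (J4⁻¹ * J4) * NormedSpace.exp (t • X) := by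
        simp only [Matrix.mul_assoc]
    _ = J4 * (NormedSpace.exp (-(t • X)) * NormedSpace.exp (t • X)) := by
        rw [J4_inv, J4_inv_left, Matrix.mul_one, Matrix.mul_assoc]
    _ = J4 := by rw [h3, Matrix.mul_one]

end LIEC

open LIEC in
theorem t_LIEC : M_LIEC := by
  intro hE X
  constructor
  · rintro ⟨hX, ht⟩
    refine ⟨hX, ?_⟩
    have hF := hE 4 X hX
    ext i j
    have h1 := deriv_form (E := fun t : ℝ => (ex X t).1) (J := J4)
      (by rw [hF.zero]; rfl) hF.der i j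
    have h2 : (fun t : ℝ => ((ex X t).1ᵀ * J4 * (ex X t).1) i j) = fun _ => J4 i j := by
      funext t
      have h3 : (ex X t).1ᵀ * J4 * (ex X t).1 = J4 := ht t
      rw [h3]
    rw [h2] at h1
    exact (h1.unique (hasDerivAt_const (0 : ℝ) (J4 i j)))
  · rintro ⟨hX, hJ⟩
    refine ⟨hX, fun t => ?_⟩
    change (ex X t).1ᵀ * J4 * (ex X t).1 = J4
    rw [(hE 4 X hX).coe t]
    exact exp_form X hJ t

end

end STZ
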