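import Pool.Agent.STZ.StmtsN

/-!
# Module LIEG: the Lie algebra of `G₂`
-/

set_option autoImplicit false

namespace STZ

open MeasureTheory Matrix

open scoped ComplexConjugate Matrix Real

noncomputable section

namespace LIEG

/-- the coefficients of the action of `X` on the three-form -/
def Dd (X : Matrix (Fin 7) (Fin 7) ℂ) (a b c : Fin 7) : ℂ :=
  ∑ i, ((ph i b c : ℂ) * X i a + (ph a i c : ℂ) * X i b + (ph a b i : ℂ) * X i c)

theorem ph_shift (s i j k : Fin 7) : ph (i + s) (j + s) (k + s) = ph i j k := by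
  unfold ph
  rw [add_sub_add_right_eq_sub, add_sub_add_right_eq_sub]

theorem Dd_shift (X : Matrix (Fin 7) (Fin 7) ℂ) (s a b c : Fin 7) :
    Dd X (a + s) (b + s) (c + s) = Dd (fun i j => X (i + s) (j + s)) a b c := by
  unfold Dd
  rw [← Equiv.sum_comp (Equiv.addRight s)]
  refine Finset.sum_congr rfl fun i _ => ?_
  simp only [Equiv.coe_addRight, ph_shift]

/-- the equations -/
def Eq7 (X : Matrix (Fin 7) (Fin 7) ℂ) (i : Fin 7) : ℂ := ∑ j, ∑ k, (ph i j k : ℂ) * X j k

theorem Eq7_shift (X : Matrix (Fin 7) (Fin 7) ℂ) (s i : Fin 7) :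
    Eq7 X (i + s) = Eq7 (fun i j => X (i + s) (j + s)) i := by
  unfold Eq7
  rw [← Equiv.sum_comp (Equiv.addRight s)]
  refine Finset.sum_congr rfl fun j _ => ?_
  rw [← Equiv.sum_comp (Equiv.addRight s)]
  refine Finset.sum_congr rfl fun k _ => ?_
  simp only [Equiv.coe_addRight, ph_shift]

theorem Eq7_zero (X : Matrix (Fin 7) (Fin 7) ℂ) (h : ∀ i j, X j i = -X i j) :
    Eq7 X 0 = 2 * (X 1 3 + X 2 6 + X 4 5) := by
  have e : ∀ j k : Fin 7, ph 0 j k = if (j = 1 ∧ k = 3) ∨ (j = 2 ∧ k = 6) ∨ (j = 4 ∧ k = 5) then 1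
      else if (j = 3 ∧ k = 1) ∨ (j = 6 ∧ k = 2) ∨ (j = 5 ∧ k = 4) then -1 else 0 := by decide
  unfold Eq7
  simp only [e, Fin.sum_univ_seven]
  simp
  rw [h 1 3, h 2 6, h 4 5]
  ring

/-- the entries of an antisymmetric matrix satisfying the equations -/
structure Hy (X : Matrix (Fin 7) (Fin 7) ℂ) : Prop where
  an : ∀ i j, X j i = -X i j
  eq : ∀ i, X (i + 1) (i + 3) + X (i + 2) (i + 6) + X (i + 4) (i + 5) = 0

theorem Hy.shift {X : Matrix (Fin 7) (Fin 7) ℂ} (h : Hy X) (s : Fin 7) :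
    Hy (fun i j => X (i + s) (j + s)) := by
  refine ⟨fun i j => h.an _ _, fun i => ?_⟩
  have := h.eq (i + s)
  simp only [add_right_comm _ s] at this
  exact this

theorem base {X : Matrix (Fin 7) (Fin 7) ℂ} (h : Hy X) (b c : Fin 7) : Dd X 0 b c = 0 := by
  have e0 := h.eq 0
  have e1 := h.eq 1
  have e2 := h.eq 2
  have e3 := h.eq 3
  have e4 := h.eq 4
  have e5 := h.eq 5
  have e6 := h.eq 6
  simp at e0 e1 e2 e3 e4 e5 e6
  have z0 : X 0 0 = 0 := by
    have := h.an 0 0
    linear_combination (1 / 2 : ℂ) * this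
  have z1 : X 1 1 = 0 := by
    have := h.an 1 1
    linear_combination (1 / 2 : ℂ) * this
  have z2 : X 2 2 = 0 := by
    have := h.an 2 2
    linear_combination (1 / 2 : ℂ) * this
  have z3 : X 3 3 = 0 := by
    have := h.an 3 3
    linear_combination (1 / 2 : ℂ) * this
  have z4 : X 4 4 = 0 := by
    have := h.an 4 4
    linear_combination (1 / 2 : ℂ) * this
  have z5 : X 5 5 = 0 := by
    have := h.an 5 5
    linear_combination (1 / 2 : ℂ) * this
  have z6 : X 6 6 = 0 := by
    have := h.an 6 6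
    linear_combination (1 / 2 : ℂ) * this
  have a10 : X 1 0 = -X 0 1 := h.an 0 1
  have a20 : X 2 0 = -X 0 2 := h.an 0 2
  have a30 : X 3 0 = -X 0 3 := h.an 0 3
  have a40 : X 4 0 = -X 0 4 := h.an 0 4
  have a50 : X 5 0 = -X 0 5 := h.an 0 5
  have a60 : X 6 0 = -X 0 6 := h.an 0 6
  have a21 : X 2 1 = -X 1 2 := h.an 1 2
  have a31 : X 3 1 = -X 1 3 := h.an 1 3
  have a41 : X 4 1 = -X 1 4 := h.an 1 4
  have a51 : X 5 1 = -X 1 5 := h.an 1 5
  have a61 : X 6 1 = -X 1 6 := h.an 1 6
  have a32 : X 3 2 = -X 2 3 := h.an 2 3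
  have a42 : X 4 2 = -X 2 4 := h.an 2 4
  have a52 : X 5 2 = -X 2 5 := h.an 2 5
  have a62 : X 6 2 = -X 2 6 := h.an 2 6
  have a43 : X 4 3 = -X 3 4 := h.an 3 4
  have a53 : X 5 3 = -X 3 5 := h.an 3 5
  have a63 : X 6 3 = -X 3 6 := h.an 3 6
  have a54 : X 5 4 = -X 4 5 := h.an 4 5
  have a64 : X 6 4 = -X 4 6 := h.an 4 6
  have a65 : X 6 5 = -X 5 6 := h.an 5 6
  have f0 : X 1 3 = -X 2 6 - X 4 5 := by linear_combination e0
  have f1 : X 2 4 = X 0 3 - X 5 6 := by linear_combination e1 - a30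
  have f2 : X 3 5 = X 1 4 + X 0 6 := by linear_combination e2 - a41 - a60
  have f3 : X 4 6 = X 2 5 - X 0 1 := by linear_combination e3 - a52
  have f4 : X 1 2 = X 0 5 + X 3 6 := by linear_combination e4 - a50 - a63
  have f5 : X 2 3 = X 1 6 - X 0 4 := by linear_combination e5 - a61
  have f6 : X 0 2 = -X 1 5 - X 3 4 := by linear_combination e6
  fin_cases b <;> fin_cases c <;> simp (decide := true) [Dd, ph, Fin.sum_univ_seven] <;>
    simp only [z0, z1, z2, z3, z4, z5, z6, a10, a20, a30, a40, a50, a60, a21, a31, a41, a51, a61, a32, a42, a52, a62, a43, a53, a63, a54, a64, a65,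
      f0, f1, f2, f3, f4, f5, f6] <;> ring

theorem Dd_zero {X : Matrix (Fin 7) (Fin 7) ℂ} (h : Hy X) (a b c : Fin 7) : Dd X a b c = 0 := by
  have h1 := Dd_shift X a 0 (b - a) (c - a)
  rw [zero_add, sub_add_cancel, sub_add_cancel] at h1
  rw [h1]
  exact base (h.shift a) _ _

theorem Eq7_eq (X : Matrix (Fin 7) (Fin 7) ℂ) (h : ∀ i j, X j i = -X i j) (i : Fin 7) :
    Eq7 X i = 2 * (X (i + 1) (i + 3) + X (i + 2) (i + 6) + X (i + 4) (i + 5)) := by
  have h1 := Eq7_shift X i 0
  rw [zero_add] at h1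
  rw [h1, Eq7_zero _ (fun j k => h _ _)]
  simp only [add_comm _ i]

theorem Dd_125 (X : Matrix (Fin 7) (Fin 7) ℂ) (h : ∀ i j, X j i = -X i j) :
    Dd X 1 2 5 = X 1 3 + X 2 6 + X 4 5 := by
  have a31 : X 3 1 = -X 1 3 := h 1 3
  have a62 : X 6 2 = -X 2 6 := h 2 6
  simp (decide := true) [Dd, ph, Fin.sum_univ_seven]
  rw [a31, a62]
  ring

theorem Dd_sum (X : Matrix (Fin 7) (Fin 7) ℂ) (h : ∀ i j, X j i = -X i j)
    (hD : ∀ a b c, Dd X a b c = 0) : Hy X := by
  refine ⟨h, fun i => ?_⟩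
  have h1 := Dd_shift X i 1 2 5
  rw [hD, Dd_125 _ (fun j k => h _ _)] at h1
  simp only [add_comm _ i] at h1
  exact h1.symm

theorem alg (X : Matrix (Fin 7) (Fin 7) ℂ) (u v w : Fin 7 → ℂ) :
    Phi (X *ᵥ u) v w + Phi u (X *ᵥ v) w + Phi u v (X *ᵥ w) =
      ∑ a, ∑ b, ∑ c, u a * v b * w c * Dd X a b c := by
  have h1 : Phi (X *ᵥ u) v w = ∑ a, ∑ b, ∑ c, u a * v b * w c * ∑ i, (ph i b c : ℂ) * X i a := by
    unfold Phi
    have e : ∀ i j k : Fin 7, (ph i j k : ℂ) * (X *ᵥ u) i * v j * w k =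
        ∑ a, (ph i j k : ℂ) * X i a * u a * v j * w k := by
      intro i j k
      rw [Matrix.mulVec, dotProduct, Finset.mul_sum, Finset.sum_mul, Finset.sum_mul]
      exact Finset.sum_congr rfl fun a _ => by ring
    simp only [e]
    have s1 : ∀ i : Fin 7, ∑ j, ∑ k, ∑ a, (ph i j k : ℂ) * X i a * u a * v j * w k =
        ∑ a, ∑ j, ∑ k, (ph i j k : ℂ) * X i a * u a * v j * w k := by
      intro i
      rw [Finset.sum_congr rfl fun j _ => Finset.sum_comm, Finset.sum_comm]
    rw [Finset.sum_congr rfl fun i _ => s1 i, Finset.sum_comm]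
    refine Finset.sum_congr rfl fun a _ => ?_
    rw [Finset.sum_comm]
    refine Finset.sum_congr rfl fun b _ => ?_
    rw [Finset.sum_comm]
    refine Finset.sum_congr rfl fun c _ => ?_
    rw [Finset.mul_sum]
    exact Finset.sum_congr rfl fun i _ => by ring
  have h2 : Phi u (X *ᵥ v) w = ∑ a, ∑ b, ∑ c, u a * v b * w c * ∑ i, (ph a i c : ℂ) * X i b := by
    unfold Phi
    refine Finset.sum_congr rfl fun a _ => ?_
    have e : ∀ j k : Fin 7, (ph a j k : ℂ) * u a * (X *ᵥ v) j * w k =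
        ∑ b, (ph a j k : ℂ) * X j b * u a * v b * w k := by
      intro j k
      rw [Matrix.mulVec, dotProduct, Finset.mul_sum, Finset.sum_mul]
      exact Finset.sum_congr rfl fun b _ => by ring
    simp only [e]
    rw [Finset.sum_congr rfl fun j _ => Finset.sum_comm, Finset.sum_comm]
    refine Finset.sum_congr rfl fun b _ => ?_
    rw [Finset.sum_comm]
    refine Finset.sum_congr rfl fun c _ => ?_
    rw [Finset.mul_sum]
    exact Finset.sum_congr rfl fun i _ => by ring
  have h3 : Phi u v (X *ᵥ w) = ∑ a, ∑ b, ∑ c, u a * v b * w c * ∑ i, (ph a b i : ℂ) * X i c := by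
    unfold Phi
    refine Finset.sum_congr rfl fun a _ => ?_
    refine Finset.sum_congr rfl fun b _ => ?_
    have e : ∀ k : Fin 7, (ph a b k : ℂ) * u a * v b * (X *ᵥ w) k =
        ∑ c, (ph a b k : ℂ) * X k c * u a * v b * w c := by
      intro k
      rw [Matrix.mulVec, dotProduct, Finset.mul_sum]
      exact Finset.sum_congr rfl fun c _ => by ring
    simp only [e]
    rw [Finset.sum_comm]
    refine Finset.sum_congr rfl fun c _ => ?_
    rw [Finset.mul_sum]
    exact Finset.sum_congr rfl fun i _ => by ring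
  rw [h1, h2, h3]
  simp only [← Finset.sum_add_distrib]
  refine Finset.sum_congr rfl fun a _ => Finset.sum_congr rfl fun b _ =>
    Finset.sum_congr rfl fun c _ => ?_
  rw [Dd, Finset.sum_add_distrib, Finset.sum_add_distrib]
  ring

theorem Dd_of_Phi (X : Matrix (Fin 7) (Fin 7) ℂ)
    (h : ∀ u v w, Phi (X *ᵥ u) v w + Phi u (X *ᵥ v) w + Phi u v (X *ᵥ w) = 0) (a b c : Fin 7) :
    Dd X a b c = 0 := by
  have h1 := h (Pi.single a 1) (Pi.single b 1) (Pi.single c 1)
  rw [alg] at h1
  simpa [Pi.single_apply, Finset.sum_ite_eq] using h1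

section deriv

variable {E : ℝ → Matrix (Fin 7) (Fin 7) ℂ} {E' : Matrix (Fin 7) (Fin 7) ℂ} {t : ℝ}

theorem der_mulVec (h : ∀ i j, HasDerivAt (fun s : ℝ => E s i j) (E' i j) t) (x : Fin 7 → ℂ)
    (i : Fin 7) : HasDerivAt (fun s : ℝ => (E s *ᵥ x) i) ((E' *ᵥ x) i) t := by
  simp only [Matrix.mulVec, dotProduct]
  exact HasDerivAt.fun_sum fun j _ => (h i j).mul_const _

theorem der_Phi (h : ∀ i j, HasDerivAt (fun s : ℝ => E s i j) (E' i j) t) (x y z : Fin 7 → ℂ) :
    HasDerivAt (fun s : ℝ => Phi (E s *ᵥ x) (E s *ᵥ y) (E s *ᵥ z))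
      (Phi (E' *ᵥ x) (E t *ᵥ y) (E t *ᵥ z) + Phi (E t *ᵥ x) (E' *ᵥ y) (E t *ᵥ z) +
        Phi (E t *ᵥ x) (E t *ᵥ y) (E' *ᵥ z)) t := by
  have h1 : ∀ i j k : Fin 7, HasDerivAt
      (fun s : ℝ => (ph i j k : ℂ) * (E s *ᵥ x) i * (E s *ᵥ y) j * (E s *ᵥ z) k)
      ((ph i j k : ℂ) * (E' *ᵥ x) i * (E t *ᵥ y) j * (E t *ᵥ z) k +
        (ph i j k : ℂ) * (E t *ᵥ x) i * (E' *ᵥ y) j * (E t *ᵥ z) k +
        (ph i j k : ℂ) * (E t *ᵥ x) i * (E t *ᵥ y) j * (E' *ᵥ z) k) t := by
    intro i j k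
    have h2 := (((der_mulVec h x i).const_mul (ph i j k : ℂ)).mul (der_mulVec h y j)).mul
      (der_mulVec h z k)
    refine h2.congr_deriv ?_
    simp only [Pi.mul_apply]
    ring
  have h3 := HasDerivAt.fun_sum (u := Finset.univ) fun i (_ : i ∈ Finset.univ) =>
    HasDerivAt.fun_sum (u := Finset.univ) fun j (_ : j ∈ Finset.univ) =>
      HasDerivAt.fun_sum (u := Finset.univ) fun k (_ : k ∈ Finset.univ) => h1 i j k
  refine h3.congr_deriv ?_
  unfold Phi
  simp only [Finset.sum_add_distrib]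

end deriv

end LIEG

open LIEG in
theorem t_LIEG : M_LIEG := by
  intro hE X
  constructor
  · rintro ⟨hX, ht⟩
    have hF := hE 7 X hX
    have hreal : ∀ i j, conj (X i j) = X i j := by
      intro i j
      have h1 := hF.der i j
      have h2 : HasDerivAt (fun t : ℝ => conj ((ex X t).1 i j)) (conj (X i j)) 0 := h1.star
      have h3 : (fun t : ℝ => conj ((ex X t).1 i j)) = fun t : ℝ => (ex X t).1 i j := by
        funext t
        exact (ht t).1 i j
      rw [h3] at h2
      exact h2.unique h1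
    have hanti : Xᵀ = -X := by
      rw [← hX.1]
      ext i j
      rw [Matrix.transpose_apply, Matrix.conjTranspose_apply, Complex.star_def, hreal]
    have han : ∀ i j, X j i = -X i j := by
      intro i j
      have := congrFun (congrFun hanti i) j
      rwa [Matrix.transpose_apply, Matrix.neg_apply] at this
    refine ⟨hreal, hanti, ?_⟩
    have hP : ∀ u v w, Phi (X *ᵥ u) v w + Phi u (X *ᵥ v) w + Phi u v (X *ᵥ w) = 0 := by
      intro u v w
      have h1 := der_Phi hF.der u v w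
      have h2 : (fun s : ℝ => Phi ((ex X s).1 *ᵥ u) ((ex X s).1 *ᵥ v) ((ex X s).1 *ᵥ w)) =
          fun _ => Phi u v w := by
        funext s
        exact (ht s).2 u v w
      rw [h2] at h1
      have h3 := h1.unique (hasDerivAt_const (0 : ℝ) (Phi u v w))
      have h4 : (ex X 0).1 = 1 := by rw [hF.zero]; rfl
      rw [h4, Matrix.one_mulVec, Matrix.one_mulVec, Matrix.one_mulVec] at h3
      exact h3
    have hH := Dd_sum X han (Dd_of_Phi X hP)
    intro i
    have h5 := Eq7_eq X han i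
    rw [hH.eq i, mul_zero] at h5
    exact h5
  · rintro ⟨hreal, hanti, heq⟩
    have han : ∀ i j, X j i = -X i j := by
      intro i j
      have := congrFun (congrFun hanti i) j
      rwa [Matrix.transpose_apply, Matrix.neg_apply] at this
    have hH : Hy X := by
      refine ⟨han, fun i => ?_⟩
      have h1 := Eq7_eq X han i
      have h2 : Eq7 X i = 0 := heq i
      rw [h2] at h1
      have h3 : (2 : ℂ) ≠ 0 := two_ne_zero
      exact (mul_eq_zero.1 h1.symm).resolve_left h3
    have hX : X ∈ su 7 := by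
      refine ⟨?_, ?_⟩
      · ext i j
        rw [Matrix.conjTranspose_apply, Complex.star_def, hreal, Matrix.neg_apply]
        exact han i j
      · rw [Matrix.trace]
        refine Finset.sum_eq_zero fun i _ => ?_
        have := han i i
        rw [Matrix.diag_apply]
        linear_combination (1 / 2 : ℂ) * this
    refine ⟨hX, fun t => ⟨fun i j => ?_, fun x y z => ?_⟩⟩
    · rw [(hE 7 X hX).coe t]
      have h1 : (NormedSpace.exp ((t : ℂ) • X))ᴴᵀ = NormedSpace.exp ((t : ℂ) • X) := by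
        rw [← Matrix.exp_conjTranspose, ← Matrix.exp_transpose]
        congr 1
        ext i j
        rw [Matrix.transpose_apply, Matrix.conjTranspose_apply, Matrix.smul_apply, smul_eq_mul,
          Complex.star_def, map_mul, Complex.conj_ofReal, hreal]
      have h2 := congrFun (congrFun h1 i) j
      rw [Matrix.transpose_apply, Matrix.conjTranspose_apply, Complex.star_def] at h2
      exact h2
    · have hF := hE 7 X hX
      have hder : ∀ (t : ℝ) (i j : Fin 7),
          HasDerivAt (fun s : ℝ => (ex X s).1 i j) ((X * (ex X t).1) i j) t := by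
        intro t i j
        have h1 : ∀ s : ℝ, (ex X s).1 i j = ∑ k, (ex X (s - t)).1 i k * (ex X t).1 k j := by
          intro s
          have h2 : ex X s = ex X (s - t) * ex X t := by
            rw [← hF.add, sub_add_cancel]
          have h3 : (ex X s).1 = (ex X (s - t)).1 * (ex X t).1 := by rw [h2]; rfl
          rw [h3, Matrix.mul_apply]
        have h4 : HasDerivAt (fun s : ℝ => ∑ k, (ex X (s - t)).1 i k * (ex X t).1 k j)
            (∑ k, X i k * (ex X t).1 k j) t := by
          refine HasDerivAt.fun_sum fun k _ => HasDerivAt.mul_const ?_ _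
          have h5 := hF.der i k
          rw [← sub_self t] at h5
          exact h5.comp_sub_const t t
        rw [Matrix.mul_apply]
        have h6 : (fun s : ℝ => (ex X s).1 i j) =
            fun s : ℝ => ∑ k, (ex X (s - t)).1 i k * (ex X t).1 k j := funext h1
        rw [h6]
        exact h4
      have hz : ∀ s : ℝ, HasDerivAt
          (fun s : ℝ => Phi ((ex X s).1 *ᵥ x) ((ex X s).1 *ᵥ y) ((ex X s).1 *ᵥ z)) 0 s := by
        intro s
        have h1 := der_Phi (hder s) x y z
        have h2 := alg X ((ex X s).1 *ᵥ x) ((ex X s).1 *ᵥ y) ((ex X s).1 *ᵥ z)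
        rw [Matrix.mulVec_mulVec, Matrix.mulVec_mulVec, Matrix.mulVec_mulVec] at h2
        refine h1.congr_deriv ?_
        rw [h2]
        refine Finset.sum_eq_zero fun a _ => Finset.sum_eq_zero fun b _ =>
          Finset.sum_eq_zero fun c _ => ?_
        rw [Dd_zero hH, mul_zero]
      have hc := is_const_of_deriv_eq_zero (fun s => (hz s).differentiableAt)
        (fun s => (hz s).deriv) t 0
      have h4 : (ex X 0).1 = 1 := by rw [hF.zero]; rfl
      simp only [h4, Matrix.one_mulVec] at hc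
      exact hc

end

end STZ
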