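import Pool.Agent.STZ.StmtsA

/-!
# Module LOC1: output frequencies about `R`
-/

namespace STZ

open MeasureTheory Matrix

open scoped ComplexConjugate Matrix Real

noncomputable section

namespace LOC1

section

variable {M : Type} [TopologicalSpace M] [CompactSpace M] [T2Space M]
  [SecondCountableTopology M] [MeasurableSpace M] [BorelSpace M] (μ : Measure M)
  [IsProbabilityMeasure μ]

theorem int_K {ι : Type} {K : ι → M → M → ℂ} (hK : Ker μ K) (a : ι) (x : M) {f : M → ℂ}
    (hf : Continuous f) : Integrable (fun y => K a x y * f y) μ := by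
  have hc : Continuous (fun y => K a x y * f y) :=
    ((hK.cont a).comp (Continuous.prodMk continuous_const continuous_id)).mul hf
  exact hc.integrable_of_hasCompactSupport (HasCompactSupport.of_compactSpace _)

theorem Pr_sum {ι κ : Type} {K : ι → M → M → ℂ} (hK : Ker μ K) (S : Finset ι) (s : Finset κ)
    (c : κ → ℂ) (f : κ → M → ℂ) (hf : ∀ i ∈ s, Continuous (f i)) (x : M) :
    Pr μ K S (fun y => ∑ i ∈ s, c i * f i y) x = ∑ i ∈ s, c i * Pr μ K S (f i) x := by
  unfold Pr
  have h : ∀ a ∈ S, ∫ y, K a x y * ∑ i ∈ s, c i * f i y ∂μ =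
      ∑ i ∈ s, c i * ∫ y, K a x y * f i y ∂μ := by
    intro a _
    have h1 : (fun y => K a x y * ∑ i ∈ s, c i * f i y) =
        fun y => ∑ i ∈ s, c i * (K a x y * f i y) := by
      funext y
      rw [Finset.mul_sum]
      exact Finset.sum_congr rfl fun i _ => by ring
    rw [h1, integral_finsetSum _ (fun i hi => (int_K μ hK a x (hf i hi)).const_mul (c i))]
    exact Finset.sum_congr rfl fun i _ => integral_const_mul _ _
  rw [Finset.sum_congr rfl h, Finset.sum_comm]
  exact Finset.sum_congr rfl fun i _ => (Finset.mul_sum _ _ _).symm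

theorem Pr_prod {ι : Type} {K : ι → M → M → ℂ} (hK : Ker μ K) (S A B : Finset ι)
    (α β : ι → ℂ) (u : ι → M → ℂ) (hA : ∀ a ∈ A, Continuous (u a))
    (hB : ∀ b ∈ B, Continuous (u b)) (x : M) :
    Pr μ K S (fun y => (∑ a ∈ A, α a * u a y) * (∑ b ∈ B, β b * u b y)) x =
      ∑ p ∈ A ×ˢ B, (α p.1 * β p.2) * Pr μ K S (fun y => u p.1 y * u p.2 y) x := by
  have h1 : (fun y => (∑ a ∈ A, α a * u a y) * (∑ b ∈ B, β b * u b y)) =
      fun y => ∑ p ∈ A ×ˢ B, (α p.1 * β p.2) * (fun z => u p.1 z * u p.2 z) y := by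
    funext y
    rw [Finset.sum_mul_sum, ← Finset.sum_product']
    exact Finset.sum_congr rfl fun p _ => by ring
  rw [h1]
  exact Pr_sum μ hK S (A ×ˢ B) (fun p => α p.1 * β p.2) (fun p z => u p.1 z * u p.2 z)
    (fun p hp => (hA p.1 (Finset.mem_product.1 hp).1).mul (hB p.2 (Finset.mem_product.1 hp).2)) x

/-- a continuous function of norm `0` is `0` -/
theorem zero_of_nsq [μ.IsOpenPosMeasure] {f : M → ℂ} (hf : Continuous f) (h : nsq μ f ≤ 0)
    (x : M) : f x = 0 := by
  have hc : Continuous fun y => ‖f y‖ ^ 2 := hf.norm.pow 2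
  have hi : Integrable (fun y => ‖f y‖ ^ 2) μ :=
    hc.integrable_of_hasCompactSupport (HasCompactSupport.of_compactSpace _)
  have h0 : ∫ y, ‖f y‖ ^ 2 ∂μ = 0 :=
    le_antisymm h (integral_nonneg fun y => by positivity)
  rw [integral_eq_zero_iff_of_nonneg (fun y => by positivity) hi] at h0
  have h1 : (fun y => ‖f y‖ ^ 2) = fun _ => (0 : ℝ) :=
    (hc.ae_eq_iff_eq μ continuous_const).1 h0
  have h2 := congrFun h1 x
  have h3 : ‖f x‖ = 0 := by
    have h4 : ‖f x‖ ^ 2 = 0 := h2
    exact (pow_eq_zero_iff two_ne_zero).1 h4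
  exact norm_eq_zero.1 h3

end

/-- the index of the box of side `R` which contains `x` -/
def bi {r : ℕ} (R : ℕ) (x : Fin r → ℤ) : Fin r → ℤ := fun i => x i / R

theorem mem_bx {r : ℕ} {R : ℕ} (hR : 1 ≤ R) (x m : Fin r → ℤ) :
    x ∈ bx (fun i => (R : ℤ) * m i) R ↔ bi R x = m := by
  unfold bx bi
  rw [Fintype.mem_piFinset]
  have hR0 : (0 : ℤ) < R := by exact_mod_cast hR
  constructor
  · intro h
    funext i
    have h1 := Finset.mem_Ico.1 (h i)
    have h2 : m i ≤ x i / R := (Int.le_ediv_iff_mul_le hR0).2 (by linarith [mul_comm (R : ℤ) (m i), h1.1])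
    have h3 : x i / R < m i + 1 := (Int.ediv_lt_iff_lt_mul hR0).2 (by
      have : (m i + 1) * (R : ℤ) = R * m i + R := by ring
      rw [this]; exact h1.2)
    omega
  · intro h i
    have h1 : x i / R = m i := congrFun h i
    rw [Finset.mem_Ico]
    have h2 := Int.mul_ediv_add_emod (x i) R
    have h3 := Int.emod_nonneg (x i) hR0.ne'
    have h4 := Int.emod_lt_of_pos (x i) hR0
    rw [h1] at h2
    constructor
    · linarith
    · linarith

/-- close indices -/
def Close {r : ℕ} (τ : Equiv.Perm (Fin r)) (k : ℕ) (m m' : Fin r → ℤ) : Prop :=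
  ∀ i, |m i - m' (τ i)| ≤ k

theorem card_right {r : ℕ} (τ : Equiv.Perm (Fin r)) (k : ℕ) (I : Finset (Fin r → ℤ))
    (m : Fin r → ℤ) [DecidablePred fun m' => Close τ k m m'] :
    (I.filter fun m' => Close τ k m m').card ≤ (2 * k + 1) ^ r := by
  classical
  have hsub : (I.filter fun m' => Close τ k m m') ⊆
      Fintype.piFinset fun j => Finset.Icc (m (τ.symm j) - k) (m (τ.symm j) + k) := by
    intro m' hm'
    rw [Fintype.mem_piFinset]
    intro j
    have h := (Finset.mem_filter.1 hm').2 (τ.symm j)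
    rw [Equiv.apply_symm_apply, abs_le] at h
    rw [Finset.mem_Icc]
    omega
  refine (Finset.card_le_card hsub).trans ?_
  rw [Fintype.card_piFinset]
  have h1 : ∀ j ∈ (Finset.univ : Finset (Fin r)),
      (Finset.Icc (m (τ.symm j) - (k : ℤ)) (m (τ.symm j) + k)).card = 2 * k + 1 := by
    intro j _
    rw [Int.card_Icc]
    omega
  rw [Finset.prod_congr rfl h1, Finset.prod_const, Finset.card_univ, Fintype.card_fin]

theorem card_left {r : ℕ} (τ : Equiv.Perm (Fin r)) (k : ℕ) (I : Finset (Fin r → ℤ))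
    (m' : Fin r → ℤ) [DecidablePred fun m => Close τ k m m'] :
    (I.filter fun m => Close τ k m m').card ≤ (2 * k + 1) ^ r := by
  classical
  have hsub : (I.filter fun m => Close τ k m m') ⊆
      Fintype.piFinset fun j => Finset.Icc (m' (τ j) - k) (m' (τ j) + k) := by
    intro m hm
    rw [Fintype.mem_piFinset]
    intro j
    have h := (Finset.mem_filter.1 hm).2 j
    rw [abs_le] at h
    rw [Finset.mem_Icc]
    omega
  refine (Finset.card_le_card hsub).trans ?_
  rw [Fintype.card_piFinset]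
  have h1 : ∀ j ∈ (Finset.univ : Finset (Fin r)),
      (Finset.Icc (m' (τ j) - (k : ℤ)) (m' (τ j) + k)).card = 2 * k + 1 := by
    intro j _
    rw [Int.card_Icc]
    omega
  rw [Finset.prod_congr rfl h1, Finset.prod_const, Finset.card_univ, Fintype.card_fin]

/-- Schur sum over the close pairs -/
theorem schur {r : ℕ} (τ : Equiv.Perm (Fin r)) (k : ℕ) (I : Finset (Fin r → ℤ))
    (g : (Fin r → ℤ) → ℝ) (hg : ∀ m, 0 ≤ g m)
    [DecidablePred fun p : (Fin r → ℤ) × (Fin r → ℤ) => Close τ k p.1 p.2] :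
    ∑ p ∈ (I ×ˢ I).filter (fun p => Close τ k p.1 p.2), √(g p.1) * √(g p.2) ≤
      ((2 * k + 1) ^ r : ℕ) * ∑ m ∈ I, g m := by
  classical
  have h1 : ∀ p ∈ (I ×ˢ I).filter (fun p => Close τ k p.1 p.2),
      √(g p.1) * √(g p.2) ≤ g p.1 / 2 + g p.2 / 2 := by
    intro p _
    have h2 := sq_nonneg (√(g p.1) - √(g p.2))
    have h3 := Real.sq_sqrt (hg p.1)
    have h4 := Real.sq_sqrt (hg p.2)
    nlinarith
  refine (Finset.sum_le_sum h1).trans ?_
  rw [Finset.sum_add_distrib]
  have hL : ∑ p ∈ (I ×ˢ I).filter (fun p => Close τ k p.1 p.2), g p.1 / 2 ≤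
      ((2 * k + 1) ^ r : ℕ) * ∑ m ∈ I, g m / 2 := by
    rw [Finset.sum_filter, Finset.sum_product, Finset.mul_sum]
    refine Finset.sum_le_sum fun m _ => ?_
    simp only
    rw [← Finset.sum_filter, Finset.sum_const, nsmul_eq_mul]
    refine mul_le_mul_of_nonneg_right ?_ (by have := hg m; positivity)
    exact_mod_cast card_right τ k I m
  have hR : ∑ p ∈ (I ×ˢ I).filter (fun p => Close τ k p.1 p.2), g p.2 / 2 ≤
      ((2 * k + 1) ^ r : ℕ) * ∑ m ∈ I, g m / 2 := by
    rw [Finset.sum_filter, Finset.sum_product_right, Finset.mul_sum]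
    refine Finset.sum_le_sum fun m _ => ?_
    simp only
    rw [← Finset.sum_filter, Finset.sum_const, nsmul_eq_mul]
    refine mul_le_mul_of_nonneg_right ?_ (by have := hg m; positivity)
    exact_mod_cast card_left τ k I m
  refine (add_le_add hL hR).trans (le_of_eq ?_)
  rw [← mul_add, ← Finset.sum_add_distrib]
  congr 1
  exact Finset.sum_congr rfl fun m _ => by ring

theorem eu_cont : Continuous eu := by
  unfold eu
  fun_prop

end LOC1

open LOC1 in
theorem t_LOC1 : M_LOC1 := by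
  intro hKB hPRD hNQ hPIECE M _ _ _ _ _ _ μ _ _ ι K r e w τ C hD Q A hQ hr q hq
  classical
  obtain ⟨D, hD0, hP⟩ := hPIECE M μ ι K r e w τ C hD Q A hQ hr q hq
  have hker := hD.ker
  have kb := hKB M μ ι K hker
  have nqf := hNQ M μ
  set k : ℕ := ⌈2 * C + 2⌉₊ with hk
  have hkC : 2 * C + 2 ≤ (k : ℝ) := Nat.le_ceil _
  refine ⟨D * ((2 * k + 1) ^ r : ℕ), by positivity, ?_⟩
  intro F u hu N hN R S hR hS
  have hq0 : (0 : ℝ) < q := by linarith
  -- the products
  have huc : ∀ a ∈ F, Continuous (u a) := fun a ha => (hu a ha).1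
  have hPc : ∀ p ∈ F ×ˢ F, Continuous (Pr μ K S (fun y => u p.1 y * u p.2 y)) := by
    intro p hp
    exact kb.cont S _ ((huc p.1 (Finset.mem_product.1 hp).1).mul
      (huc p.2 (Finset.mem_product.1 hp).2))
  -- far pairs
  have hR0 : (0 : ℝ) < R := by exact_mod_cast hR
  have hfar : ∀ a ∈ F, ∀ b ∈ F, ¬ Close τ k (bi R (w a)) (bi R (w b)) →
      ∀ x, Pr μ K S (fun y => u a y * u b y) x = 0 := by
    intro a ha b hb hab x
    obtain ⟨T, β, hT1, hT2⟩ := hD.prod a b
    have h1 := (hPRD M μ ι K hker a b T β hT1 (u a) (u b) (hu a ha) (hu b hb)).1 S 0 le_rfl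
    rw [zero_mul] at h1
    refine zero_of_nsq μ (hPc (a, b) (Finset.mk_mem_product ha hb)) (h1 ?_) x
    intro c hcS hcT
    exfalso
    apply hab
    intro i
    have h2 := (hT2 c hcT).2.1 i
    have h3 := (hS c hcS).2
    have h4 : |((w a i - w b (τ i) : ℤ) : ℝ)| ≤ 2 * C * R := by
      have hC := hD.one
      nlinarith
    have ha1 := Int.mul_ediv_add_emod (w a i) R
    have hRz : (0 : ℤ) < R := by exact_mod_cast hR
    have ha2 := Int.emod_nonneg (w a i) hRz.ne'
    have ha3 := Int.emod_lt_of_pos (w a i) hRz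
    have hb1 := Int.mul_ediv_add_emod (w b (τ i)) R
    have hb2 := Int.emod_nonneg (w b (τ i)) hRz.ne'
    have hb3 := Int.emod_lt_of_pos (w b (τ i)) hRz
    have hm1 : (bi R (w a) i : ℤ) = w a i / R := rfl
    have hm2 : (bi R (w b) (τ i) : ℤ) = w b (τ i) / R := rfl
    rw [← hm1] at ha1
    rw [← hm2] at hb1
    -- `R |m i - m' (τ i)| ≤ 2 C R + R`
    have h5 : (R : ℝ) * |((bi R (w a) i - bi R (w b) (τ i) : ℤ) : ℝ)| ≤ 2 * C * R + R := by
      have h6 : ((R : ℤ) * (bi R (w a) i - bi R (w b) (τ i)) : ℤ) =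
          (w a i - w b (τ i)) - (w a i % R - w b (τ i) % R) := by
        linear_combination ha1 - hb1
      have h7 : (R : ℝ) * ((bi R (w a) i - bi R (w b) (τ i) : ℤ) : ℝ) =
          ((w a i - w b (τ i) : ℤ) : ℝ) - ((w a i % R - w b (τ i) % R : ℤ) : ℝ) := by
        exact_mod_cast h6
      have h8 : |((w a i % R - w b (τ i) % R : ℤ) : ℝ)| ≤ R := by
        have : |(w a i % R - w b (τ i) % R : ℤ)| ≤ R := by
          rw [abs_le]
          constructor <;> linarith
        exact_mod_cast this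
      rw [← abs_of_pos hR0, ← abs_mul, abs_of_pos hR0, h7]
      calc |((w a i - w b (τ i) : ℤ) : ℝ) - ((w a i % R - w b (τ i) % R : ℤ) : ℝ)|
          ≤ |((w a i - w b (τ i) : ℤ) : ℝ)| + |((w a i % R - w b (τ i) % R : ℤ) : ℝ)| :=
            abs_sub _ _
        _ ≤ 2 * C * R + R := add_le_add h4 h8
    have h9 : |((bi R (w a) i - bi R (w b) (τ i) : ℤ) : ℝ)| ≤ k := by
      have h10 : (R : ℝ) * |((bi R (w a) i - bi R (w b) (τ i) : ℤ) : ℝ)| ≤ R * k := by
        nlinarith
      exact le_of_mul_le_mul_left h10 hR0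
    exact_mod_cast h9
  -- the indices
  set I : Finset (Fin r → ℤ) := F.image fun a => bi R (w a) with hI
  have hfib : ∀ (m : Fin r → ℤ), F.filter (fun a => w a ∈ bx (fun i => (R : ℤ) * m i) R) =
      F.filter (fun a => bi R (w a) = m) := by
    intro m
    exact Finset.filter_congr fun a _ => mem_bx hR (w a) m
  -- the decomposition
  have hmain : (fun t => Pr μ K S fun x => uw w Q F u t x ^ 2) = fun t x =>
      ∑ p ∈ (I ×ˢ I).filter (fun p => Close τ k p.1 p.2),
        (fun t => Pr μ K S fun x => ub w Q F u (fun i => (R : ℤ) * p.1 i) R t x *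
          ub w Q F u (fun i => (R : ℤ) * p.2 i) R t x) t x := by
    funext t x
    have h1 : (fun x => uw w Q F u t x ^ 2) = fun y =>
        (∑ a ∈ F, eu (t * Q (w a)) * u a y) * (∑ b ∈ F, eu (t * Q (w b)) * u b y) := by
      funext y
      unfold uw
      rw [sq]
    rw [h1, Pr_prod μ hker S F F (fun a => eu (t * Q (w a))) (fun a => eu (t * Q (w a))) u huc
      huc x]
    have h2 : ∀ p ∈ (I ×ˢ I).filter (fun p => Close τ k p.1 p.2),
        (fun t => Pr μ K S fun x => ub w Q F u (fun i => (R : ℤ) * p.1 i) R t x *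
          ub w Q F u (fun i => (R : ℤ) * p.2 i) R t x) t x =
        ∑ c ∈ (F.filter (fun a => bi R (w a) = p.1)) ×ˢ (F.filter (fun a => bi R (w a) = p.2)),
          (eu (t * Q (w c.1)) * eu (t * Q (w c.2))) *
            Pr μ K S (fun y => u c.1 y * u c.2 y) x := by
      intro p _
      have h3 := Pr_prod μ hker S (F.filter (fun a => bi R (w a) = p.1))
        (F.filter (fun a => bi R (w a) = p.2)) (fun a => eu (t * Q (w a)))
        (fun a => eu (t * Q (w a))) u (fun a ha => huc a (Finset.mem_filter.1 ha).1)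
        (fun a ha => huc a (Finset.mem_filter.1 ha).1) x
      rw [← h3, ← hfib p.1, ← hfib p.2]
      rfl
    rw [Finset.sum_congr rfl h2]
    -- fibres of `c ↦ (bi c.1, bi c.2)`
    have h4 : ∀ c ∈ F ×ˢ F, (bi R (w c.1), bi R (w c.2)) ∈ I ×ˢ I := by
      intro c hc
      have hc' := Finset.mem_product.1 hc
      exact Finset.mk_mem_product (Finset.mem_image_of_mem _ hc'.1)
        (Finset.mem_image_of_mem _ hc'.2)
    rw [← Finset.sum_fiberwise_of_maps_to h4]
    rw [Finset.sum_filter]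
    refine Finset.sum_congr rfl fun p _ => ?_
    have h5 : (F ×ˢ F).filter (fun c => (bi R (w c.1), bi R (w c.2)) = p) =
        (F.filter (fun a => bi R (w a) = p.1)) ×ˢ (F.filter (fun a => bi R (w a) = p.2)) := by
      ext c
      simp only [Finset.mem_filter, Finset.mem_product, Prod.ext_iff]
      tauto
    rw [h5]
    split_ifs with hcl
    · rfl
    · refine Finset.sum_eq_zero fun c hc => ?_
      have hc' := Finset.mem_product.1 hc
      have hc1 := Finset.mem_filter.1 hc'.1
      have hc2 := Finset.mem_filter.1 hc'.2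
      rw [hfar c.1 hc1.1 c.2 hc2.1 (by rw [hc1.2, hc2.2]; exact hcl) x, mul_zero]
  rw [hmain]
  -- joint continuity
  have hJC : ∀ p ∈ (I ×ˢ I).filter (fun p => Close τ k p.1 p.2),
      JC (fun t => Pr μ K S fun x => ub w Q F u (fun i => (R : ℤ) * p.1 i) R t x *
          ub w Q F u (fun i => (R : ℤ) * p.2 i) R t x) := by
    intro p _
    have h1 : (fun z : ℝ × M => Pr μ K S (fun x => ub w Q F u (fun i => (R : ℤ) * p.1 i) R z.1 x *
          ub w Q F u (fun i => (R : ℤ) * p.2 i) R z.1 x) z.2) = fun z =>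
        ∑ c ∈ (F.filter (fun a => bi R (w a) = p.1)) ×ˢ (F.filter (fun a => bi R (w a) = p.2)),
          (eu (z.1 * Q (w c.1)) * eu (z.1 * Q (w c.2))) *
            Pr μ K S (fun y => u c.1 y * u c.2 y) z.2 := by
      funext z
      have h3 := Pr_prod μ hker S (F.filter (fun a => bi R (w a) = p.1))
        (F.filter (fun a => bi R (w a) = p.2)) (fun a => eu (z.1 * Q (w a)))
        (fun a => eu (z.1 * Q (w a))) u (fun a ha => huc a (Finset.mem_filter.1 ha).1)
        (fun a ha => huc a (Finset.mem_filter.1 ha).1) z.2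
      rw [← h3, ← hfib p.1, ← hfib p.2]
      rfl
    unfold JC
    rw [h1]
    refine continuous_finsetSum _ fun c hc => ?_
    have hc' := Finset.mem_product.1 hc
    have hcc : c ∈ F ×ˢ F := Finset.mk_mem_product (Finset.mem_filter.1 hc'.1).1
      (Finset.mem_filter.1 hc'.2).1
    refine Continuous.mul (Continuous.mul ?_ ?_) ((hPc c hcc).comp continuous_snd)
    · exact eu_cont.comp (continuous_fst.mul continuous_const)
    · exact eu_cont.comp (continuous_fst.mul continuous_const)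
  refine (nqf.tri q _ _ _ (by linarith) hJC).trans ?_
  -- the pieces
  rcases F.eq_empty_or_nonempty with hF | hF
  · have hI0 : I = ∅ := by rw [hI, hF, Finset.image_empty]
    rw [hI0, hF]
    simp
  obtain ⟨a0, ha0⟩ := hF
  have hN0 : 0 ≤ N := by
    refine le_trans ?_ (hN a0 ha0)
    unfold sz
    positivity
  set X : ℝ := D * N ^ (e / 2) * (R : ℝ) ^ ((2 * r + e) / 2 - (r + e + 2) / q) with hX
  have hX0 : 0 ≤ X := by
    have h1 := Real.rpow_nonneg hN0 (e / 2)
    have h2 := Real.rpow_nonneg hR0.le ((2 * r + e) / 2 - (r + e + 2) / q)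
    positivity
  set g : (Fin r → ℤ) → ℝ := fun m => nb μ w F u (fun i => (R : ℤ) * m i) R with hg
  have hns : ∀ a, 0 ≤ nsq μ (u a) := fun a => integral_nonneg fun y => by positivity
  have hg0 : ∀ m, 0 ≤ g m := fun m => Finset.sum_nonneg fun a _ => hns a
  have hpc : ∀ p ∈ (I ×ˢ I).filter (fun p => Close τ k p.1 p.2),
      nq μ q (fun t => Pr μ K S fun x => ub w Q F u (fun i => (R : ℤ) * p.1 i) R t x *
          ub w Q F u (fun i => (R : ℤ) * p.2 i) R t x) ≤ X * (√(g p.1) * √(g p.2)) := by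
    intro p _
    refine (hP F u hu N hN R S hR hS _ _).trans (le_of_eq ?_)
    rw [hX, hg]
    ring
  refine (Finset.sum_le_sum hpc).trans ?_
  rw [← Finset.mul_sum]
  refine (mul_le_mul_of_nonneg_left (schur τ k I g hg0) hX0).trans (le_of_eq ?_)
  have hsum : ∑ m ∈ I, g m = ∑ a ∈ F, nsq μ (u a) := by
    rw [← Finset.sum_fiberwise_of_maps_to (s := F) (t := I) (g := fun a => bi R (w a))
      (fun a ha => Finset.mem_image_of_mem _ ha)]
    refine Finset.sum_congr rfl fun m _ => ?_
    rw [hg]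
    unfold nb
    simp only
    rw [hfib m]
  rw [hsum, hX]
  ring

end

end STZ
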