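import Pool.Agent.STZ.StmtsA

/-!
# LOC2: frequencies at most `N`
-/

set_option autoImplicit false
set_option linter.unusedSectionVars false

namespace STZ

open MeasureTheory Matrix

open scoped ComplexConjugate Matrix Real

noncomputable section

namespace LOC2

variable {M : Type} [TopologicalSpace M] [CompactSpace M] [T2Space M]
  [SecondCountableTopology M] [MeasurableSpace M] [BorelSpace M] (μ : Measure M)
  [IsProbabilityMeasure μ] {ι : Type} {K : ι → M → M → ℂ}

theorem integrable_of_cont {f : M → ℂ} (hf : Continuous f) : Integrable f μ :=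
  hf.integrable_of_hasCompactSupport (HasCompactSupport.of_compactSpace f)

theorem K_cont (hK : Ker μ K) (a : ι) (x : M) : Continuous fun y => K a x y :=
  (hK.cont a).comp (Continuous.prodMk continuous_const continuous_id)

/-- linearity of the projections -/
theorem Pr_lin (hK : Ker μ K) (S : Finset ι) {κ : Type} (I : Finset κ) (c : κ → ℂ)
    (v : κ → M → ℂ) (hv : ∀ i ∈ I, Continuous (v i)) :
    Pr μ K S (fun x => ∑ i ∈ I, c i * v i x) = fun x => ∑ i ∈ I, c i * Pr μ K S (v i) x := by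
  funext x
  unfold Pr
  have h1 : ∀ a, ∫ y, K a x y * ∑ i ∈ I, c i * v i y ∂μ =
      ∑ i ∈ I, c i * ∫ y, K a x y * v i y ∂μ := by
    intro a
    have h2 : ∀ y, K a x y * ∑ i ∈ I, c i * v i y = ∑ i ∈ I, c i * (K a x y * v i y) := by
      intro y
      rw [Finset.mul_sum]
      exact Finset.sum_congr rfl fun i _ => by ring
    simp_rw [h2]
    rw [integral_finsetSum]
    · exact Finset.sum_congr rfl fun i _ => integral_const_mul _ _
    · intro i hi
      exact (integrable_of_cont μ ((K_cont μ hK a x).mul (hv i hi))).const_mul _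
  simp_rw [h1]
  rw [Finset.sum_comm]
  exact Finset.sum_congr rfl fun i _ => by rw [Finset.mul_sum]

theorem Pr_sum (S : Finset ι) (v : M → ℂ) (x : M) :
    Pr μ K S v x = ∑ a ∈ S, Pr μ K {a} v x := by
  unfold Pr
  exact Finset.sum_congr rfl fun a _ => by rw [Finset.sum_singleton]

/-- enlarging the set -/
theorem Pr_mono (hB : KBF μ K) {S T : Finset ι} (hST : S ⊆ T) (v : M → ℂ) (hv : Continuous v)
    (h : Pr μ K S v = v) : Pr μ K T v = v := by
  classical
  funext x
  rw [Pr_sum]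
  have h1 : ∀ a ∈ T, a ∉ S → Pr μ K {a} v x = 0 := by
    intro a _ ha
    have h2 := hB.piece0 S a v ha hv
    rw [h] at h2
    rw [h2]
    rfl
  rw [← Finset.sum_subset hST h1, ← Pr_sum, h]

theorem sz_pos {r : ℕ} (x : Fin r → ℤ) : 1 ≤ sz x := by
  unfold sz
  have : 0 ≤ ∑ i, |(x i : ℝ)| := Finset.sum_nonneg fun i _ => abs_nonneg _
  linarith

theorem nq_nonneg (q : ℝ) (F : ℝ → M → ℂ) : 0 ≤ nq μ q F := by
  unfold nq
  apply Real.rpow_nonneg
  apply intervalIntegral.integral_nonneg zero_le_one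
  intro t _
  exact integral_nonneg fun x => Real.rpow_nonneg (norm_nonneg _) _

/-- geometric sum -/
theorem geom {x : ℝ} (hx : 1 < x) (J : ℕ) : ∑ j ∈ Finset.range (J + 1), x ^ j ≤ x / (x - 1) * x ^ J := by
  have h1 : 0 < x - 1 := by linarith
  rw [geom_sum_eq hx.ne', div_mul_eq_mul_div]
  apply div_le_div_of_nonneg_right _ h1.le
  rw [pow_succ]
  linarith

end LOC2

open LOC2 in
theorem t_LOC2 : M_LOC2 := by
  intro hKB hPRD hNQ hLOC1 M _ _ _ _ _ _ μ _ _ ι K r e w τ C hS Q A hQ hr p hp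
  classical
  have hB : KBF μ K := hKB M μ ι K hS.ker
  have hN' : NQF μ := hNQ M μ
  obtain ⟨D₁, hD₁, hL⟩ := hLOC1 M μ ι K r e w τ C hS Q A hQ hr (p / 2) (by linarith)
  set θ : ℝ := (2 * r + e) / 2 - (r + e + 2) / (p / 2) with hθ
  have hr' : (2 : ℝ) ≤ r := by exact_mod_cast hr
  have hC : 1 ≤ C := hS.one
  have he : 0 ≤ e := hS.enn
  have hθ0 : 0 < θ := by
    have h1 : (r + e + 2) / (p / 2) < (r + e + 2) / 2 := by
      apply div_lt_div_of_pos_left _ (by norm_num) (by linarith)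
      linarith
    rw [hθ]
    linarith
  have hx : 1 < (2 : ℝ) ^ θ := Real.one_lt_rpow (by norm_num) hθ0
  set E : ℝ := D₁ * (C ^ θ * ((2 : ℝ) ^ θ / ((2 : ℝ) ^ θ - 1))) with hE
  have hE0 : 0 ≤ E := by
    apply mul_nonneg hD₁
    apply mul_nonneg (Real.rpow_nonneg (by linarith) _)
    exact div_nonneg (by linarith) (by linarith)
  refine ⟨√E, Real.sqrt_nonneg _, ?_⟩
  intro F u hu N hN
  rcases F.eq_empty_or_nonempty with rfl | hF
  · have h1 : nq μ p (uw w Q ∅ u) = 0 := by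
      unfold nq uw
      simp only [Finset.sum_empty, norm_zero]
      have h2 : (0 : ℝ) ^ p = 0 := Real.zero_rpow (by linarith)
      simp only [h2, integral_zero, intervalIntegral.integral_zero]
      exact Real.zero_rpow (by
        have : (0 : ℝ) < 1 / p := by positivity
        exact this.ne')
    rw [h1]
    simp
  -- the frequencies
  have hN1 : 1 ≤ N := by
    obtain ⟨a, ha⟩ := hF
    exact (sz_pos (w a)).trans (hN a ha)
  choose T β hT using hS.prod
  set T₀ : Finset ι := F.biUnion fun a => F.biUnion fun b => T a b with hT₀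
  have hTsub : ∀ a ∈ F, ∀ b ∈ F, T a b ⊆ T₀ := by
    intro a ha b hb c hc
    rw [hT₀, Finset.mem_biUnion]
    exact ⟨a, ha, Finset.mem_biUnion.2 ⟨b, hb, hc⟩⟩
  have hTN : ∀ c ∈ T₀, sz (w c) ≤ C * N := by
    intro c hc
    rw [hT₀, Finset.mem_biUnion] at hc
    obtain ⟨a, ha, hc⟩ := hc
    obtain ⟨b, hb, hc⟩ := Finset.mem_biUnion.1 hc
    refine (((hT a b).2 c hc).2.2).trans ?_
    exact mul_le_mul_of_nonneg_left (max_le (hN a ha) (hN b hb)) (by linarith)
  have huc : ∀ a ∈ F, Continuous (u a) := fun a ha => (hu a ha).1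
  set v : ι × ι → M → ℂ := fun z x => u z.1 x * u z.2 x with hv
  set cf : ℝ → ι × ι → ℂ := fun t z => eu (t * Q (w z.1)) * eu (t * Q (w z.2)) with hcf
  have hvc : ∀ z ∈ F ×ˢ F, Continuous (v z) := by
    intro z hz
    rw [Finset.mem_product] at hz
    exact (huc _ hz.1).mul (huc _ hz.2)
  have hsq : ∀ t, (fun x => uw w Q F u t x ^ 2) = fun x => ∑ z ∈ F ×ˢ F, cf t z * v z x := by
    intro t
    funext x
    unfold uw
    rw [sq, Finset.sum_mul_sum, Finset.sum_product]
    refine Finset.sum_congr rfl fun a _ => Finset.sum_congr rfl fun b _ => ?_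
    simp only [hcf, hv]
    ring
  have hPr : ∀ (S : Finset ι) (t : ℝ), (Pr μ K S fun x => uw w Q F u t x ^ 2) =
      fun x => ∑ z ∈ F ×ˢ F, cf t z * Pr μ K S (v z) x := by
    intro S t
    rw [hsq t]
    exact Pr_lin μ hS.ker S (F ×ˢ F) (cf t) v hvc
  have hfull : ∀ t, (Pr μ K T₀ fun x => uw w Q F u t x ^ 2) = fun x => uw w Q F u t x ^ 2 := by
    intro t
    rw [hPr, hsq]
    funext x
    refine Finset.sum_congr rfl fun z hz => ?_
    congr 1
    rw [Finset.mem_product] at hz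
    have h1 := (hPRD M μ ι K hS.ker z.1 z.2 (T z.1 z.2) (β z.1 z.2) (hT z.1 z.2).1 (u z.1) (u z.2)
      (hu _ hz.1) (hu _ hz.2)).2
    have h2 := Pr_mono μ hB (hTsub _ hz.1 _ hz.2) _ ((huc _ hz.1).mul (huc _ hz.2)) h1
    exact congrFun h2 x
  -- dyadic pieces
  set lg : ι → ℕ := fun c => Nat.log 2 ⌊sz (w c)⌋₊ with hlg
  set J : ℕ := Nat.log 2 ⌊C * N⌋₊ with hJ
  have hCN : 1 ≤ C * N := by nlinarith
  have hlgJ : ∀ c ∈ T₀, lg c ∈ Finset.range (J + 1) := by
    intro c hc
    rw [Finset.mem_range, Nat.lt_succ_iff]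
    exact Nat.log_mono_right (Nat.floor_le_floor (hTN c hc))
  have hlow : ∀ c, (2 : ℝ) ^ lg c ≤ sz (w c) := by
    intro c
    have h1 : ⌊sz (w c)⌋₊ ≠ 0 := by
      have := Nat.floor_pos.2 (sz_pos (w c))
      omega
    have h2 := Nat.pow_log_le_self 2 h1
    calc (2 : ℝ) ^ lg c = ((2 ^ lg c : ℕ) : ℝ) := by push_cast; rfl
      _ ≤ (⌊sz (w c)⌋₊ : ℝ) := by exact_mod_cast h2
      _ ≤ sz (w c) := Nat.floor_le (by linarith [sz_pos (w c)])
  have hhigh : ∀ c, sz (w c) ≤ 2 * (2 : ℝ) ^ lg c := by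
    intro c
    have h2 := Nat.lt_pow_succ_log_self (b := 2) (by norm_num) ⌊sz (w c)⌋₊
    have h3 : sz (w c) < ⌊sz (w c)⌋₊ + 1 := Nat.lt_floor_add_one _
    have h4 : (⌊sz (w c)⌋₊ : ℝ) + 1 ≤ ((2 ^ (lg c + 1) : ℕ) : ℝ) := by exact_mod_cast h2
    rw [pow_succ] at h4
    push_cast at h4
    linarith
  have hJN : (2 : ℝ) ^ J ≤ C * N := by
    have h1 : ⌊C * N⌋₊ ≠ 0 := by
      have := Nat.floor_pos.2 hCN
      omega
    have h2 := Nat.pow_log_le_self 2 h1
    calc (2 : ℝ) ^ J = ((2 ^ J : ℕ) : ℝ) := by push_cast; rfl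
      _ ≤ (⌊C * N⌋₊ : ℝ) := by exact_mod_cast h2
      _ ≤ C * N := Nat.floor_le (by linarith)
  set Sj : ℕ → Finset ι := fun j => T₀.filter fun c => lg c = j with hSj
  have hdec : ∀ t x, uw w Q F u t x ^ 2 =
      ∑ j ∈ Finset.range (J + 1), Pr μ K (Sj j) (fun x => uw w Q F u t x ^ 2) x := by
    intro t x
    have h1 := congrFun (hfull t) x
    rw [← h1]
    unfold Pr
    rw [← Finset.sum_fiberwise_of_maps_to hlgJ]
  have hJC : ∀ j, JC fun t => Pr μ K (Sj j) fun x => uw w Q F u t x ^ 2 := by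
    intro j
    unfold JC
    have h1 : (fun z : ℝ × M => (Pr μ K (Sj j) fun x => uw w Q F u z.1 x ^ 2) z.2) =
        fun z : ℝ × M => ∑ y ∈ F ×ˢ F, cf z.1 y * Pr μ K (Sj j) (v y) z.2 := by
      funext z
      exact congrFun (hPr (Sj j) z.1) z.2
    rw [h1]
    refine continuous_finsetSum _ fun y hy => ?_
    have h2 : Continuous (Pr μ K (Sj j) (v y)) := hB.cont _ _ (hvc y hy)
    refine Continuous.mul ?_ (h2.comp continuous_snd)
    simp only [hcf, eu]
    fun_prop
  -- the estimate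
  set B : ℝ := ∑ a ∈ F, nsq μ (u a) with hBdef
  have hB0 : 0 ≤ B := Finset.sum_nonneg fun a _ => integral_nonneg fun x => by positivity
  have hmain : nq μ p (uw w Q F u) ^ 2 ≤ E * N ^ (e / 2 + θ) * B := by
    have h1 : nq μ p (uw w Q F u) ^ 2 = nq μ (p / 2) (fun t x => uw w Q F u t x ^ 2) := by
      rw [← hN'.sq (p / 2) (uw w Q F u) (by linarith)]
      congr 2
      ring
    have h2 : (fun t x => uw w Q F u t x ^ 2) = fun t x => ∑ j ∈ Finset.range (J + 1),
        (fun (j : ℕ) (t : ℝ) => Pr μ K (Sj j) fun x => uw w Q F u t x ^ 2) j t x := by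
      funext t x
      exact hdec t x
    rw [h1, h2]
    refine (hN'.tri (p / 2) ℕ (Finset.range (J + 1)) _ (by linarith) fun j _ => hJC j).trans ?_
    have h3 : ∀ j ∈ Finset.range (J + 1),
        nq μ (p / 2) (fun t => Pr μ K (Sj j) fun x => uw w Q F u t x ^ 2) ≤
          D₁ * N ^ (e / 2) * B * ((2 : ℝ) ^ θ) ^ j := by
      intro j _
      have h4 := hL F u hu N hN (2 ^ j) (Sj j) Nat.one_le_two_pow (by
        intro c hc
        rw [hSj, Finset.mem_filter] at hc
        have h5 := hlow c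
        have h6 := hhigh c
        rw [hc.2] at h5 h6
        push_cast
        exact ⟨h5, h6⟩)
      refine h4.trans (le_of_eq ?_)
      rw [← hBdef]
      have h7 : (((2 ^ j : ℕ) : ℝ)) ^ ((2 * r + e) / 2 - (r + e + 2) / (p / 2)) =
          ((2 : ℝ) ^ θ) ^ j := by
        rw [← hθ]
        push_cast
        rw [← Real.rpow_natCast, ← Real.rpow_natCast, ← Real.rpow_mul (by norm_num),
          ← Real.rpow_mul (by norm_num), mul_comm]
      rw [h7]
      ring
    refine (Finset.sum_le_sum h3).trans ?_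
    rw [← Finset.mul_sum]
    have h4 : ((2 : ℝ) ^ θ) ^ J ≤ C ^ θ * N ^ θ := by
      rw [← Real.mul_rpow (by linarith) (by linarith), ← Real.rpow_natCast,
        ← Real.rpow_mul (by norm_num), mul_comm, Real.rpow_mul (by norm_num), Real.rpow_natCast]
      exact Real.rpow_le_rpow (by positivity) hJN hθ0.le
    have h5 : ∑ j ∈ Finset.range (J + 1), ((2 : ℝ) ^ θ) ^ j ≤
        (2 : ℝ) ^ θ / ((2 : ℝ) ^ θ - 1) * (C ^ θ * N ^ θ) :=
      (geom hx J).trans (mul_le_mul_of_nonneg_left h4 (div_nonneg (by linarith) (by linarith)))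
    have h6 : 0 ≤ D₁ * N ^ (e / 2) * B :=
      mul_nonneg (mul_nonneg hD₁ (Real.rpow_nonneg (by linarith) _)) hB0
    refine (mul_le_mul_of_nonneg_left h5 h6).trans (le_of_eq ?_)
    rw [hE, Real.rpow_add (by linarith : 0 < N)]
    ring
  -- the square root
  have hexp : e / 2 + θ = ((r + e) / 2 - (r + e + 2) / p) * 2 := by
    rw [hθ]
    field_simp
    ring
  rw [hexp, Real.rpow_mul (by linarith), Real.rpow_two] at hmain
  have h7 : nq μ p (uw w Q F u) ≤ √(E * (N ^ (((r : ℝ) + e) / 2 - (r + e + 2) / p)) ^ 2 * B) :=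
    Real.le_sqrt_of_sq_le hmain
  refine h7.trans (le_of_eq ?_)
  rw [Real.sqrt_mul (mul_nonneg hE0 (sq_nonneg _)), Real.sqrt_mul hE0,
    Real.sqrt_sq (Real.rpow_nonneg (by linarith) _)]

end

end STZ
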