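import Pool.Agent.STZ.StmtsL

namespace STZ

open MeasureTheory Matrix Filter Topology

open scoped ComplexConjugate Matrix Real ENNReal

noncomputable section

namespace LOW

lemma expo {n : ℕ} (hn : 2 ≤ n) {p : ℝ} (hp2 : 2 ≤ p) (hp : p < 2 + 8 / (((n : ℝ) - 1) * (n + 2)))
    {N : ℝ} (hN : N = (n : ℝ) * (n - 1) / 2) :
    N + (2 * (dm n / 2 - (dm n + 2) / p) - N) * (p / 2) < 0 := by
  have hn' : (2 : ℝ) ≤ n := by exact_mod_cast hn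
  have hp0 : 0 < p := by linarith
  have hD : 0 < ((n : ℝ) - 1) * (n + 2) := mul_pos (by linarith) (by linarith)
  have h1 : (p - 2) * (((n : ℝ) - 1) * (n + 2)) < 8 := by
    have : p - 2 < 8 / (((n : ℝ) - 1) * (n + 2)) := by linarith
    rwa [lt_div_iff₀ hD] at this
  have h2 : (2 * (dm n / 2 - (dm n + 2) / p) - N) * (p / 2) = (dm n - N) * (p / 2) - (dm n + 2) := by
    field_simp
    ring
  rw [h2, hN]
  unfold dm
  nlinarith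

lemma key (n : ℕ) (hn : 2 ≤ n) (p : ℝ) (hp2 : 2 ≤ p) (hp : p < 2 + 8 / (((n : ℝ) - 1) * (n + 2)))
    (N : ℕ) (hN : (N : ℝ) = (n : ℝ) * (n - 1) / 2) :
    Tendsto (fun m : ℕ => (1 + p * m / 2) ^ N *
      ((1 + ((m : ℝ) ^ 2 + 2 * m) * ((n : ℝ) ^ 2 - 1) / 24) ^ (dm n / 2 - (dm n + 2) / p) *
        ((1 + (m : ℝ)) ^ N)⁻¹) ^ (p / 2)) atTop (𝓝 0) := by
  set s : ℝ := dm n / 2 - (dm n + 2) / p with hs
  have hn' : (2 : ℝ) ≤ n := by exact_mod_cast hn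
  have hd : (0 : ℝ) < (n : ℝ) ^ 2 - 1 := by nlinarith
  have hinv : Tendsto (fun m : ℕ => ((m : ℝ))⁻¹) atTop (𝓝 0) := tendsto_inv_atTop_nhds_zero_nat
  have e1 : Tendsto (fun m : ℕ => ((m : ℝ))⁻¹ + p / 2) atTop (𝓝 (0 + p / 2)) := hinv.add_const _
  have e2 : Tendsto (fun m : ℕ => ((m : ℝ))⁻¹ + 1) atTop (𝓝 (0 + 1)) := hinv.add_const _
  have e3 : Tendsto (fun m : ℕ => ((m : ℝ))⁻¹ ^ 2 + (1 + 2 * ((m : ℝ))⁻¹) * (((n : ℝ) ^ 2 - 1) / 24)) atTop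
      (𝓝 (0 ^ 2 + (1 + 2 * 0) * (((n : ℝ) ^ 2 - 1) / 24))) :=
    (hinv.pow 2).add (((hinv.const_mul 2).const_add 1).mul_const _)
  have e4 : Tendsto (fun m : ℕ => (m : ℝ) ^ ((N : ℝ) + (2 * s - N) * (p / 2))) atTop (𝓝 0) := by
    have h := expo hn hp2 hp hN
    rw [← hs] at h
    have h2 := (tendsto_rpow_neg_atTop (y := -((N : ℝ) + (2 * s - N) * (p / 2))) (by linarith)).comp
      (tendsto_natCast_atTop_atTop (R := ℝ))
    rw [neg_neg] at h2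
    exact h2
  have e5 : Tendsto (fun m : ℕ => (((m : ℝ))⁻¹ + p / 2) ^ N *
      ((((m : ℝ))⁻¹ ^ 2 + (1 + 2 * ((m : ℝ))⁻¹) * (((n : ℝ) ^ 2 - 1) / 24)) ^ s * ((((m : ℝ))⁻¹ + 1) ^ N)⁻¹) ^ (p / 2) *
        (m : ℝ) ^ ((N : ℝ) + (2 * s - N) * (p / 2))) atTop
      (𝓝 ((0 + p / 2) ^ N * ((0 ^ 2 + (1 + 2 * 0) * (((n : ℝ) ^ 2 - 1) / 24)) ^ s * ((0 + 1) ^ N)⁻¹) ^ (p / 2) * 0)) := by
    refine ((e1.pow N).mul ((Tendsto.mul (e3.rpow_const (Or.inl ?_)) ((e2.pow N).inv₀ (by simp))).rpow_const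
      (Or.inl ?_))).mul e4
    · have : (0 : ℝ) ^ 2 + (1 + 2 * 0) * (((n : ℝ) ^ 2 - 1) / 24) = ((n : ℝ) ^ 2 - 1) / 24 := by ring
      rw [this]; positivity
    · have : (0 : ℝ) ^ 2 + (1 + 2 * 0) * (((n : ℝ) ^ 2 - 1) / 24) = ((n : ℝ) ^ 2 - 1) / 24 := by ring
      rw [this]
      have : 0 < (((n : ℝ) ^ 2 - 1) / 24) ^ s := Real.rpow_pos_of_pos (by positivity) _
      simp
      exact this.ne'
  rw [mul_zero] at e5
  refine e5.congr' ?_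
  filter_upwards [eventually_ge_atTop 1] with m hm
  have hm' : (1 : ℝ) ≤ m := by exact_mod_cast hm
  have hm0 : (0 : ℝ) < m := by linarith
  have f1 : (1 + p * m / 2) = ((m : ℝ)⁻¹ + p / 2) * m := by field_simp
  have f2 : (1 + (m : ℝ)) = ((m : ℝ)⁻¹ + 1) * m := by field_simp
  have f3 : (1 + ((m : ℝ) ^ 2 + 2 * m) * ((n : ℝ) ^ 2 - 1) / 24) =
      (((m : ℝ))⁻¹ ^ 2 + (1 + 2 * ((m : ℝ))⁻¹) * (((n : ℝ) ^ 2 - 1) / 24)) * (m : ℝ) ^ 2 := by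
    field_simp
  have g1 : 0 < ((m : ℝ))⁻¹ ^ 2 + (1 + 2 * ((m : ℝ))⁻¹) * (((n : ℝ) ^ 2 - 1) / 24) := by positivity
  have g2 : 0 < (((m : ℝ))⁻¹ ^ 2 + (1 + 2 * ((m : ℝ))⁻¹) * (((n : ℝ) ^ 2 - 1) / 24)) ^ s := Real.rpow_pos_of_pos g1 _
  have g3 : 0 < (((m : ℝ)⁻¹ + 1) ^ N)⁻¹ := by positivity
  rw [f1, f2, f3, Real.mul_rpow g1.le (by positivity), mul_pow, mul_pow, mul_inv]
  have h1 : (m : ℝ) ^ ((N : ℝ) + (2 * s - N) * (p / 2)) = (m : ℝ) ^ N * ((((m : ℝ) ^ 2) ^ s * ((m : ℝ) ^ N)⁻¹) ^ (p / 2)) := by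
    rw [Real.rpow_add hm0, Real.rpow_natCast, Real.rpow_mul hm0.le, Real.rpow_sub hm0, Real.rpow_natCast,
      Real.rpow_mul hm0.le, div_eq_mul_inv]
    norm_num
  rw [h1]
  have h2 : (((m : ℝ))⁻¹ ^ 2 + (1 + 2 * ((m : ℝ))⁻¹) * (((n : ℝ) ^ 2 - 1) / 24)) ^ s * ((m : ℝ) ^ 2) ^ s *
      ((((m : ℝ)⁻¹ + 1) ^ N)⁻¹ * ((m : ℝ) ^ N)⁻¹) =
      ((((m : ℝ))⁻¹ ^ 2 + (1 + 2 * ((m : ℝ))⁻¹) * (((n : ℝ) ^ 2 - 1) / 24)) ^ s * (((m : ℝ)⁻¹ + 1) ^ N)⁻¹) *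
      (((m : ℝ) ^ 2) ^ s * ((m : ℝ) ^ N)⁻¹) := by ring
  rw [h2, Real.mul_rpow (mul_pos g2 g3).le (by positivity)]
  ring

end LOW

open LOW in
theorem t_LOW : M_LOW := by
  intro hFRN hEIGM hINTM n hn p hp2 hp μ hμ hμi a b C hab hStr
  have _ := hμ
  have _ := hμi
  obtain ⟨X, hX⟩ := hFRN n (by omega)
  have hn' : (2 : ℝ) ≤ n := by exact_mod_cast hn
  have hp0 : 0 < p := by linarith
  set N : ℕ := n * (n - 1) / 2 with hNdef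
  have hN : (N : ℝ) = (n : ℝ) * (n - 1) / 2 := by
    have h2 : 2 ∣ n * (n - 1) := by
      have := Nat.even_mul_pred_self n
      exact this.two_dvd
    rw [hNdef, Nat.cast_div h2 (by norm_num), Nat.cast_mul, Nat.cast_sub (by omega)]
    norm_num
  have main : ∀ m : ℕ, 1 ≤ m → (b - a) ≤ C * ((1 + p * m / 2) ^ N *
      ((1 + ((m : ℝ) ^ 2 + 2 * m) * ((n : ℝ) ^ 2 - 1) / 24) ^ (dm n / 2 - (dm n + 2) / p) *
        ((1 + (m : ℝ)) ^ N)⁻¹) ^ (p / 2)) := by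
    intro m hm
    have hm0 : (0 : ℝ) < m := by exact_mod_cast hm
    have h := hStr X hX 1 (fun _ => ((m : ℝ) ^ 2 + 2 * m) * ((n : ℝ) ^ 2 - 1) / 24)
      (fun _ g => ∏ j ∈ Finset.range n, mnr j g.1 ^ m) (Function.injective_of_subsingleton _)
      (fun _ => hEIGM n (by omega) X hX m)
    have hL : ∀ (t : ℝ) (g : SU n), ‖∑ k : Fin 1, Complex.exp (-(Complex.I *
        ((((m : ℝ) ^ 2 + 2 * m) * ((n : ℝ) ^ 2 - 1) / 24 : ℝ) : ℂ) * t)) *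
        ∏ j ∈ Finset.range n, mnr j g.1 ^ m‖ ^ p = ∏ j ∈ Finset.range n, ‖mnr j g.1‖ ^ (2 * (p * m / 2)) := by
      intro t g
      have he : ‖Complex.exp (-(Complex.I * ((((m : ℝ) ^ 2 + 2 * m) * ((n : ℝ) ^ 2 - 1) / 24 : ℝ) : ℂ) * t))‖ = 1 := by
        have h0 : (-(Complex.I * ((((m : ℝ) ^ 2 + 2 * m) * ((n : ℝ) ^ 2 - 1) / 24 : ℝ) : ℂ) * t)) =
            ((-((((m : ℝ) ^ 2 + 2 * m) * ((n : ℝ) ^ 2 - 1) / 24) * t) : ℝ) : ℂ) * Complex.I := by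
          push_cast
          ring
        rw [h0, Complex.norm_exp_ofReal_mul_I]
      rw [Fin.sum_univ_one, norm_mul, he, one_mul, norm_prod, ← Real.finsetProd_rpow _ _ (fun _ _ => norm_nonneg _)]
      refine Finset.prod_congr rfl fun j _ => ?_
      rw [norm_pow, ← Real.rpow_natCast, ← Real.rpow_mul (norm_nonneg _)]
      ring_nf
    have hR : ∀ g : SU n, ‖∏ j ∈ Finset.range n, mnr j g.1 ^ m‖ ^ 2 = ∏ j ∈ Finset.range n, ‖mnr j g.1‖ ^ (2 * (m : ℝ)) := by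
      intro g
      rw [norm_prod, ← Finset.prod_pow]
      refine Finset.prod_congr rfl fun j _ => ?_
      rw [norm_pow, ← pow_mul, ← Real.rpow_natCast]
      push_cast
      ring_nf
    simp only [hL, hR] at h
    rw [Fin.sum_univ_one, hINTM n (by omega) m hm0 μ, hINTM n (by omega) (p * m / 2) (by positivity) μ,
      intervalIntegral.integral_const, smul_eq_mul] at h
    have hpos : 0 < (1 + p * m / 2) ^ N := by positivity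
    calc (b - a) = ((b - a) * ((1 + p * m / 2) ^ N)⁻¹) * (1 + p * m / 2) ^ N := by field_simp
      _ ≤ _ := mul_le_mul_of_nonneg_right h hpos.le
      _ = _ := by ring
  have hlim := (key n hn p hp2 hp N hN).const_mul C
  rw [mul_zero] at hlim
  have : b - a ≤ 0 := ge_of_tendsto hlim (by filter_upwards [eventually_ge_atTop 1] with m hm using main m hm)
  linarith

end

end STZ
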