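import Pool.Agent.STZ.StmtsL

/-!
# Module MINR: the derivations `D (E k l)` on the leading principal minors
-/

namespace STZ

open MeasureTheory Matrix

open scoped ComplexConjugate Matrix Real ENNReal

noncomputable section

namespace MINR

section general

variable {R A : Type*} [CommRing R] [CommRing A] [Algebra R A] (d : Derivation R A A)

theorem d_prod {ι : Type*} [DecidableEq ι] (s : Finset ι) (f : ι → A) :
    d (∏ i ∈ s, f i) = ∑ i ∈ s, (∏ j ∈ s.erase i, f j) * d (f i) := by
  induction s using Finset.induction_on with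
  | empty => simp
  | insert a s ha ih =>
    rw [Finset.prod_insert ha, Derivation.leibniz, ih, Finset.sum_insert ha,
      Finset.erase_insert ha, smul_eq_mul, smul_eq_mul, add_comm, Finset.mul_sum]
    congr 1
    refine Finset.sum_congr rfl fun i hi => ?_
    have hne : i ≠ a := fun h => ha (h ▸ hi)
    rw [Finset.erase_insert_of_ne hne.symm, Finset.prod_insert (fun h => ha (Finset.mem_of_mem_erase h)),
      mul_assoc]

theorem d_det {ι : Type*} [DecidableEq ι] [Fintype ι] (M : Matrix ι ι A) :
    d M.det = ∑ c, (M.updateCol c fun a => d (M a c)).det := by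
  have h1 : ∀ c : ι, (M.updateCol c fun a => d (M a c)).det =
      ∑ σ : Equiv.Perm ι, ((Equiv.Perm.sign σ : ℤ) : A) *
        ((∏ i ∈ Finset.univ.erase c, M (σ i) i) * d (M (σ c) c)) := by
    intro c
    rw [Matrix.det_apply']
    refine Finset.sum_congr rfl fun σ _ => ?_
    congr 1
    rw [← Finset.mul_prod_erase Finset.univ _ (Finset.mem_univ c), Matrix.updateCol_self, mul_comm]
    congr 1
    refine Finset.prod_congr rfl fun i hi => ?_
    rw [Matrix.updateCol_ne (Finset.ne_of_mem_erase hi)]
  rw [Finset.sum_congr rfl fun c _ => h1 c, Finset.sum_comm, Matrix.det_apply', map_sum]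
  refine Finset.sum_congr rfl fun σ _ => ?_
  rw [← Finset.mul_sum, ← d_prod, Derivation.leibniz, smul_eq_mul, smul_eq_mul,
    Derivation.map_intCast, mul_zero, add_zero]

theorem eig_mul {a b : A} {x y : R} (ha : d a = x • a) (hb : d b = y • b) :
    d (a * b) = (x + y) • (a * b) := by
  rw [Derivation.leibniz, ha, hb, smul_eq_mul, smul_eq_mul, Algebra.mul_smul_comm,
    Algebra.mul_smul_comm, mul_comm b a, add_smul, add_comm]

theorem eig_one : d (1 : A) = (0 : R) • (1 : A) := by
  rw [Derivation.map_one_eq_zero, zero_smul]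

theorem eig_pow {a : A} {x : R} (ha : d a = x • a) (m : ℕ) :
    d (a ^ m) = ((m : R) * x) • a ^ m := by
  induction m with
  | zero => simp
  | succ m ih =>
    rw [pow_succ, eig_mul d ih ha]
    congr 1
    push_cast
    ring

theorem eig_prod {ι : Type*} [DecidableEq ι] (s : Finset ι) (f : ι → A) (x : ι → R)
    (h : ∀ i ∈ s, d (f i) = x i • f i) : d (∏ i ∈ s, f i) = (∑ i ∈ s, x i) • ∏ i ∈ s, f i := by
  induction s using Finset.induction_on with
  | empty => simp
  | insert a s ha ih =>
    rw [Finset.prod_insert ha, Finset.sum_insert ha]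
    exact eig_mul d (h a (Finset.mem_insert_self a s))
      (ih fun i hi => h i (Finset.mem_insert_of_mem hi))

end general

theorem D_X {n : ℕ} (k l : Fin n) (p : Fin n × Fin n) :
    D (Matrix.single k l (1 : ℂ)) (MvPolynomial.X p) =
      if p.2 = l then (MvPolynomial.X (p.1, k) : MP n) else 0 := by
  unfold D
  rw [MvPolynomial.mkDerivation_X]
  by_cases h : p.2 = l
  · rw [if_pos h, Finset.sum_eq_single k]
    · rw [h, Matrix.single_apply_same, map_one, one_mul]
    · intro b _ hb
      rw [Matrix.single_apply_of_row_ne hb.symm, map_zero, zero_mul]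
    · intro hk
      exact absurd (Finset.mem_univ k) hk
  · rw [if_neg h]
    refine Finset.sum_eq_zero fun b _ => ?_
    rw [Matrix.single_apply_of_col_ne k b (fun h' => h h'.symm) (1 : ℂ), map_zero, zero_mul]

theorem D_mnP {n : ℕ} (k l : Fin n) (hkl : k ≤ l) (j : ℕ) :
    D (Matrix.single k l (1 : ℂ)) (mnP n j) =
      (if k = l ∧ (k : ℕ) < j then (1 : ℂ) else 0) • mnP n j := by
  classical
  unfold mnP
  rw [d_det]
  set M : Matrix {i : Fin n // (i : ℕ) < j} {i : Fin n // (i : ℕ) < j} (MP n) :=
    Matrix.of fun a b => (MvPolynomial.X (a.1, b.1) : MP n) with hM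
  have hcol : ∀ a c : {i : Fin n // (i : ℕ) < j}, D (Matrix.single k l (1 : ℂ)) (M a c) =
      if c.1 = l then (MvPolynomial.X (a.1, k) : MP n) else 0 := by
    intro a c
    exact D_X k l (a.1, c.1)
  have hz : ∀ c : {i : Fin n // (i : ℕ) < j}, c.1 ≠ l →
      (M.updateCol c fun a => D (Matrix.single k l (1 : ℂ)) (M a c)).det = 0 := by
    intro c hc
    apply Matrix.det_eq_zero_of_column_eq_zero c
    intro a
    rw [Matrix.updateCol_self, hcol, if_neg hc]
  by_cases hl : (l : ℕ) < j
  · rw [Finset.sum_eq_single (⟨l, hl⟩ : {i : Fin n // (i : ℕ) < j})]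
    · have hk : (k : ℕ) < j := lt_of_le_of_lt hkl hl
      by_cases hkl' : k = l
      · subst hkl'
        rw [if_pos ⟨rfl, hk⟩, one_smul]
        congr 1
        ext1 a c
        by_cases hc : c = ⟨k, hl⟩
        · subst hc
          rw [Matrix.updateCol_self, hcol, if_pos rfl]
          rfl
        · rw [Matrix.updateCol_ne hc]
      · rw [if_neg (fun h => hkl' h.1), zero_smul]
        have hne : (⟨k, hk⟩ : {i : Fin n // (i : ℕ) < j}) ≠ ⟨l, hl⟩ := fun h =>
          hkl' (congrArg Subtype.val h)
        apply Matrix.det_zero_of_column_eq hne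
        intro a
        rw [Matrix.updateCol_self, Matrix.updateCol_ne hne, hcol, if_pos rfl]
        rfl
    · intro c _ hc
      apply hz
      intro h
      exact hc (Subtype.ext h)
    · intro h
      exact absurd (Finset.mem_univ _) h
  · rw [Finset.sum_eq_zero, if_neg, zero_smul]
    · rintro ⟨h1, h2⟩
      exact hl (h1 ▸ h2)
    · intro c _
      apply hz
      intro h
      exact hl (h ▸ c.2)

theorem D_fmP {n : ℕ} (k l : Fin n) (hkl : k ≤ l) (m : ℕ) :
    D (Matrix.single k l (1 : ℂ)) (fmP n m) =
      (∑ j ∈ Finset.range n, (m : ℂ) * (if k = l ∧ (k : ℕ) < j then (1 : ℂ) else 0)) •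
        fmP n m := by
  unfold fmP
  exact eig_prod _ _ _ _ fun j _ => eig_pow _ (D_mnP k l hkl j) m

end MINR

theorem t_MINR : S_MINR := by
  intro n m
  refine ⟨fun A j => ?_, fun k l hkl => ?_, fun k => ?_⟩
  · unfold ev mnP mnr
    rw [RingHom.map_det]
    congr 1
    ext1 a b
    rw [RingHom.mapMatrix_apply, Matrix.map_apply, Matrix.of_apply, Matrix.of_apply,
      MvPolynomial.eval_X]
  · rw [MINR.D_fmP k l hkl.le, Finset.sum_eq_zero, zero_smul]
    intro j _
    rw [if_neg (fun h => hkl.ne h.1), mul_zero]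
  · rw [MINR.D_fmP k k le_rfl]
    congr 1
    rw [← Finset.mul_sum]
    congr 1
    have h1 : ∀ j ∈ Finset.range n, (if k = k ∧ (k : ℕ) < j then (1 : ℂ) else 0) =
        if (k : ℕ) < j then (1 : ℂ) else 0 := by
      intro j _
      simp only [true_and]
    rw [Finset.sum_congr rfl h1, ← Finset.sum_filter, Finset.sum_const, nsmul_eq_mul, mul_one]
    have h2 : (Finset.range n).filter (fun j => (k : ℕ) < j) = Finset.Ioo (k : ℕ) n := by
      ext j
      simp only [Finset.mem_filter, Finset.mem_range, Finset.mem_Ioo]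
      exact and_comm
    rw [h2, Nat.card_Ioo]
    have h3 : (k : ℕ) + 1 ≤ n := k.2
    rw [show n - (k : ℕ) - 1 = n - ((k : ℕ) + 1) by omega, Nat.cast_sub h3]
    push_cast
    ring

end

end STZ
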