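import Pool.Agent.STZ.StmtsL

/-!
# Module MOM: moments of the column
-/

namespace STZ

open MeasureTheory Matrix

open scoped ComplexConjugate Matrix Real ENNReal

noncomputable section

namespace MOM

theorem T_nonneg {N : ℕ} (j : ℕ) (z : Fin N → ℂ) : 0 ≤ T j z :=
  Finset.sum_nonneg fun k _ => by positivity

theorem T_zero_eq {N : ℕ} (z : Fin N → ℂ) : T 0 z = ∑ k, ‖z k‖ ^ 2 := by
  simp [T]

theorem T_le {N : ℕ} (j : ℕ) (z : Fin N → ℂ) : T j z ≤ T 0 z := by
  rw [T_zero_eq]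
  exact Finset.sum_le_sum_of_subset_of_nonneg (Finset.filter_subset _ _) fun k _ _ => by positivity

theorem T_cont {N : ℕ} (j : ℕ) : Continuous (fun z : Fin N → ℂ => T j z) := by
  unfold T
  fun_prop

theorem T_smul {N : ℕ} (j : ℕ) (c : ℝ) (z : Fin N → ℂ) : T j ((c : ℂ) • z) = c ^ 2 * T j z := by
  unfold T
  rw [Finset.mul_sum]
  refine Finset.sum_congr rfl fun k _ => ?_
  simp [mul_pow]

theorem T_col {n : ℕ} (g : SU (n + 1)) : T 0 (col g) = 1 := by
  rw [T_zero_eq]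
  have hu : g.1 ∈ Matrix.unitaryGroup (Fin (n + 1)) ℂ := (Matrix.mem_specialUnitaryGroup_iff.1 g.2).1
  have h1 : star g.1 * g.1 = 1 := Matrix.mem_unitaryGroup_iff'.1 hu
  have h2 := congrFun (congrFun h1 (Fin.last n)) (Fin.last n)
  rw [Matrix.mul_apply, Matrix.one_apply_eq] at h2
  have h3 : ((∑ k, ‖col g k‖ ^ 2 : ℝ) : ℂ) = 1 := by
    rw [← h2]
    push_cast
    refine Finset.sum_congr rfl fun k _ => ?_
    rw [Matrix.star_apply]
    show ((‖g.1 k (Fin.last n)‖ : ℂ)) ^ 2 = _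
    rw [← Complex.conj_mul']
    rfl
  exact_mod_cast h3

theorem col_cont {n : ℕ} : Continuous (fun g : SU (n + 1) => col g) := by
  unfold col
  refine continuous_pi fun i => ?_
  have h1 : Continuous (fun g : SU (n + 1) => g.1) := continuous_subtype_val
  exact (continuous_apply (Fin.last n)).comp ((continuous_apply i).comp h1)

/-- the Gamma integral -/
theorem gam (n : ℕ) : ∫⁻ t in Set.Ioi (0 : ℝ), ENNReal.ofReal (Real.exp (-t) * t ^ (n : ℝ)) =
    ENNReal.ofReal (n.factorial : ℝ) := by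
  have hc : IntegrableOn (fun x : ℝ => Real.exp (-x) * x ^ ((n : ℝ) + 1 - 1)) (Set.Ioi 0) :=
    Real.GammaIntegral_convergent (by positivity)
  have he := Real.Gamma_eq_integral (s := (n : ℝ) + 1) (by positivity)
  rw [Real.Gamma_nat_eq_factorial] at he
  simp only [add_sub_cancel_right] at hc he
  rw [he, ofReal_integral_eq_lintegral_ofReal hc]
  refine (ae_restrict_iff' measurableSet_Ioi).2 (Filter.Eventually.of_forall fun x hx => ?_)
  have hx0 : 0 < x := hx
  positivity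

/-- the function on the sphere -/
def Ph (n : ℕ) (s : ℝ) (z : Fin (n + 1) → ℂ) : ℝ≥0∞ :=
  ∏ j ∈ Finset.Icc 1 n, ENNReal.ofReal ((T j z / T 0 z) ^ s)

theorem Ph_meas (n : ℕ) (s : ℝ) : Measurable (Ph n s) := by
  unfold Ph
  refine Finset.measurable_prod _ fun j _ => ?_
  refine ENNReal.measurable_ofReal.comp ?_
  exact (((T_cont j).measurable.div (T_cont 0).measurable).pow_const s)

theorem Ph_smul (n : ℕ) (s : ℝ) (c : ℝ) (z : Fin (n + 1) → ℂ) (hc : 0 < c) :
    Ph n s ((c : ℂ) • z) = Ph n s z := by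
  unfold Ph
  refine Finset.prod_congr rfl fun j _ => ?_
  rw [T_smul, T_smul, mul_div_mul_left _ _ (by positivity : c ^ 2 ≠ 0)]

theorem Ph_col {n : ℕ} (s : ℝ) (g : SU (n + 1)) :
    Ph n s (col g) = ENNReal.ofReal (∏ j ∈ Finset.Icc 1 n, T j (col g) ^ s) := by
  unfold Ph
  rw [T_col, ENNReal.ofReal_prod_of_nonneg fun j _ => Real.rpow_nonneg (T_nonneg _ _) _]
  simp

theorem Ph_eq (n : ℕ) (hn : 1 ≤ n) (s : ℝ) (hs : 0 ≤ s) (z : Fin (n + 1) → ℂ) :
    Ph n s z * ENNReal.ofReal (Real.exp (-T 0 z)) =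
    (∏ j ∈ Finset.Icc 1 n, ENNReal.ofReal (T j z ^ s)) *
      ENNReal.ofReal ((T 0 z) ^ (-(n * s)) * Real.exp (-T 0 z)) := by
  rcases eq_or_lt_of_le (T_nonneg 0 z) with h0 | h0
  · have hj : ∀ j, T j z = 0 := fun j => le_antisymm ((T_le j z).trans h0.symm.le) (T_nonneg j z)
    rcases eq_or_lt_of_le hs with hs0 | hs0
    · subst hs0
      unfold Ph
      simp [hj]
    · have h1 : Ph n s z = 0 := by
        unfold Ph
        refine Finset.prod_eq_zero (Finset.mem_Icc.2 ⟨le_refl 1, hn⟩) ?_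
        rw [hj, hj, div_zero, Real.zero_rpow hs0.ne']
        simp
      have h2 : (∏ j ∈ Finset.Icc 1 n, ENNReal.ofReal (T j z ^ s)) = 0 := by
        refine Finset.prod_eq_zero (Finset.mem_Icc.2 ⟨le_refl 1, hn⟩) ?_
        rw [hj, Real.zero_rpow hs0.ne']
        simp
      rw [h1, h2, zero_mul, zero_mul]
  · have h1 : Ph n s z = (∏ j ∈ Finset.Icc 1 n, ENNReal.ofReal (T j z ^ s)) *
        ENNReal.ofReal ((T 0 z) ^ (-(n * s))) := by
      unfold Ph
      have h2 : ∀ j ∈ Finset.Icc 1 n, ENNReal.ofReal ((T j z / T 0 z) ^ s) =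
          ENNReal.ofReal (T j z ^ s) * ENNReal.ofReal ((T 0 z) ^ (-s)) := by
        intro j _
        rw [← ENNReal.ofReal_mul (Real.rpow_nonneg (T_nonneg _ _) _),
          Real.div_rpow (T_nonneg _ _) h0.le, Real.rpow_neg h0.le, div_eq_mul_inv]
      rw [Finset.prod_congr rfl h2, Finset.prod_mul_distrib, Finset.prod_const, Nat.card_Icc,
        add_tsub_cancel_right, ← ENNReal.ofReal_pow (Real.rpow_nonneg h0.le _), ← Real.rpow_natCast,
        ← Real.rpow_mul h0.le]
      congr 3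
      ring
    rw [h1, mul_assoc, ← ENNReal.ofReal_mul (Real.rpow_nonneg h0.le _)]

end MOM

open MOM

theorem t_MOM : M_MOM := by
  intro hC hS n hn s hs μ _ _
  -- the Gaussian integral
  have hG : ∫⁻ z : Fin (n + 1) → ℂ, ENNReal.ofReal (Real.exp (-T 0 z)) =
      ENNReal.ofReal (π ^ (n + 1)) := by
    have h := hC n 0 (fun t => ENNReal.ofReal (Real.exp (-t))) le_rfl (by fun_prop)
    simp only [Real.rpow_zero, ENNReal.ofReal_one, Finset.prod_const_one, one_mul, add_zero, one_pow,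
      mul_one, zero_add] at h
    rw [h]
    have h2 : ∫⁻ t in Set.Ioi (0 : ℝ), ENNReal.ofReal (t ^ (n : ℝ)) * ENNReal.ofReal (Real.exp (-t)) =
        ENNReal.ofReal (n.factorial : ℝ) := by
      rw [← gam n]
      refine setLIntegral_congr_fun measurableSet_Ioi fun t ht => ?_
      have ht0 : (0 : ℝ) < t := ht
      show ENNReal.ofReal (t ^ (n : ℝ)) * ENNReal.ofReal (Real.exp (-t)) =
        ENNReal.ofReal (Real.exp (-t) * t ^ (n : ℝ))
      rw [← ENNReal.ofReal_mul (by positivity), mul_comm]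
    rw [h2, ← ENNReal.ofReal_mul (by positivity)]
    congr 1
    have : (n.factorial : ℝ) ≠ 0 := by positivity
    field_simp
  have hR : ∫⁻ z : Fin (n + 1) → ℂ, Ph n s z * ENNReal.ofReal (Real.exp (-T 0 z)) =
      ENNReal.ofReal (π ^ (n + 1) / (1 + s) ^ n) := by
    have h := hC n s (fun t => ENNReal.ofReal (t ^ (-(n * s)) * Real.exp (-t))) hs (by fun_prop)
    have h1 : ∫⁻ z : Fin (n + 1) → ℂ, Ph n s z * ENNReal.ofReal (Real.exp (-T 0 z)) =
        ∫⁻ z : Fin (n + 1) → ℂ, (∏ j ∈ Finset.Icc 1 n, ENNReal.ofReal (T j z ^ s)) *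
      ENNReal.ofReal ((T 0 z) ^ (-(n * s)) * Real.exp (-T 0 z)) :=
      lintegral_congr fun z => Ph_eq n hn s hs z
    rw [h1, h]
    have h2 : ∫⁻ t in Set.Ioi (0 : ℝ), ENNReal.ofReal (t ^ (n * (s + 1))) *
        ENNReal.ofReal (t ^ (-(n * s)) * Real.exp (-t)) = ENNReal.ofReal (n.factorial : ℝ) := by
      rw [← gam n]
      refine setLIntegral_congr_fun measurableSet_Ioi fun t ht => ?_
      have ht0 : (0 : ℝ) < t := ht
      show ENNReal.ofReal (t ^ (n * (s + 1))) * ENNReal.ofReal (t ^ (-(n * s)) * Real.exp (-t)) =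
        ENNReal.ofReal (Real.exp (-t) * t ^ (n : ℝ))
      rw [← ENNReal.ofReal_mul (by positivity), ← mul_assoc, ← Real.rpow_add ht0, mul_comm]
      congr 3
      ring
    rw [h2, ← ENNReal.ofReal_mul (by positivity)]
    congr 1
    have : (n.factorial : ℝ) ≠ 0 := by positivity
    have : (1 + s) ^ n ≠ 0 := by positivity
    field_simp
  have hM := hS n hn μ (Ph n s) (Ph_meas n s) (fun c z hc => Ph_smul n s c z hc)
  rw [hG, hR] at hM
  have hI : ∫⁻ g, Ph n s (col g) ∂μ = ENNReal.ofReal (((1 + s) ^ n)⁻¹) := by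
    have hpi : ENNReal.ofReal (π ^ (n + 1)) ≠ 0 := by
      rw [Ne, ENNReal.ofReal_eq_zero, not_le]
      positivity
    have hpi2 : ENNReal.ofReal (π ^ (n + 1)) ≠ ⊤ := ENNReal.ofReal_ne_top
    have h3 : ENNReal.ofReal (π ^ (n + 1) / (1 + s) ^ n) =
        ENNReal.ofReal (((1 + s) ^ n)⁻¹) * ENNReal.ofReal (π ^ (n + 1)) := by
      rw [← ENNReal.ofReal_mul (by positivity)]
      congr 1
      rw [div_eq_mul_inv, mul_comm]
    rw [h3] at hM
    exact (ENNReal.mul_left_inj hpi hpi2).1 hM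
  rw [integral_eq_lintegral_of_nonneg_ae]
  · have h4 : ∫⁻ g, ENNReal.ofReal (∏ j ∈ Finset.Icc 1 n, T j (col g) ^ s) ∂μ =
        ∫⁻ g, Ph n s (col g) ∂μ := lintegral_congr fun g => (Ph_col s g).symm
    rw [h4, hI, ENNReal.toReal_ofReal (by positivity)]
  · exact Filter.Eventually.of_forall fun g =>
      Finset.prod_nonneg fun j _ => Real.rpow_nonneg (T_nonneg _ _) _
  · refine Continuous.aestronglyMeasurable ?_
    refine continuous_finsetProd _ fun j _ => ?_
    exact ((T_cont j).comp col_cont).rpow_const fun _ => Or.inr hs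

end

end STZ
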