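import Pool.Agent.STZ.StmtsL

/-!
# Module POLY: polynomials in the entries
-/

namespace STZ

open MeasureTheory Matrix

open scoped ComplexConjugate Matrix Real ENNReal

noncomputable section

namespace POLY

variable {n : ℕ}

lemma ev_C (A : Matrix (Fin n) (Fin n) ℂ) (a : ℂ) : ev A (MvPolynomial.C a) = a := by
  simp [ev]

lemma ev_add (A : Matrix (Fin n) (Fin n) ℂ) (p q : MP n) : ev A (p + q) = ev A p + ev A q := by
  simp [ev]

lemma ev_mul (A : Matrix (Fin n) (Fin n) ℂ) (p q : MP n) : ev A (p * q) = ev A p * ev A q := by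
  simp [ev]

lemma ev_X (A : Matrix (Fin n) (Fin n) ℂ) (k : Fin n × Fin n) :
    ev A (MvPolynomial.X k) = A k.1 k.2 := by
  simp [ev]

lemma D_X (Z : Matrix (Fin n) (Fin n) ℂ) (k : Fin n × Fin n) (A : Matrix (Fin n) (Fin n) ℂ) :
    ev A (D Z (MvPolynomial.X k)) = (A * Z) k.1 k.2 := by
  rw [D, MvPolynomial.mkDerivation_X, Matrix.mul_apply]
  simp only [ev, map_sum, map_mul, MvPolynomial.eval_C, MvPolynomial.eval_X]
  exact Finset.sum_congr rfl fun l _ => mul_comm _ _

end POLY

open POLY in
theorem t_POLY : M_POLY := by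
  intro hC n F
  have h := hC n
  induction F using MvPolynomial.induction_on with
  | C a =>
    refine ⟨?_, ?_⟩
    · simp only [ev_C]
      exact h.const a
    · intro X hX g
      simp only [ev_C]
      rw [h.dconst]
      have h1 : D X (MvPolynomial.C a) = 0 := by
        have := (D X).map_algebraMap a
        rwa [MvPolynomial.algebraMap_eq] at this
      rw [h1]
      simp [ev]
  | add p q hp hq =>
    obtain ⟨hp1, hp2⟩ := hp
    obtain ⟨hq1, hq2⟩ := hq
    refine ⟨?_, ?_⟩
    · simp only [ev_add]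
      exact h.add _ _ hp1 hq1
    · intro X hX g
      simp only [ev_add]
      rw [h.dadd X hX _ _ hp1.1 hq1.1, hp2 X hX g, hq2 X hX g, map_add, ev_add]
  | mul_X p k hp =>
    obtain ⟨hp1, hp2⟩ := hp
    have he := h.entry k.1 k.2
    refine ⟨?_, ?_⟩
    · simp only [ev_mul, ev_X]
      exact h.mul _ _ hp1 he
    · intro X hX g
      simp only [ev_mul, ev_X]
      rw [h.dmul X hX _ _ hp1.1 he.1, hp2 X hX g, h.dentry X hX, Derivation.leibniz]
      simp only [smul_eq_mul, ev_add, ev_mul, ev_X, D_X]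
      ring

end

end STZ
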