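import Pool.Agent.STZ.StmtsL

/-!
# Module SPH: the last column of a random matrix is uniformly distributed
-/

namespace STZ

open MeasureTheory Matrix

open scoped ComplexConjugate Matrix Real ENNReal

noncomputable section

namespace SPH

theorem T0 {N : ℕ} (z : Fin N → ℂ) : T 0 z = ∑ k, ‖z k‖ ^ 2 := by
  unfold T
  rw [Finset.filter_true_of_mem fun k _ => Nat.zero_le _]

theorem T0c {N : ℕ} (z : Fin N → ℂ) : ((T 0 z : ℝ) : ℂ) = star z ⬝ᵥ z := by
  rw [T0, dotProduct, Complex.ofReal_sum]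
  refine Finset.sum_congr rfl fun k _ => ?_
  rw [Pi.star_apply, Complex.ofReal_pow]
  exact (Complex.conj_mul' (z k)).symm

theorem T0g {N : ℕ} (g : SU N) (z : Fin N → ℂ) : T 0 (g.1 *ᵥ z) = T 0 z := by
  have hg : (g.1)ᴴ * g.1 = 1 :=
    Matrix.mem_unitaryGroup_iff'.mp (Matrix.mem_specialUnitaryGroup_iff.mp g.2).1
  have h : ((T 0 (g.1 *ᵥ z) : ℝ) : ℂ) = ((T 0 z : ℝ) : ℂ) := by
    rw [T0c, T0c, star_mulVec, dotProduct_mulVec, vecMul_vecMul, hg, vecMul_one]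
  exact_mod_cast h

theorem T0_cont {N : ℕ} : Continuous fun z : Fin N → ℂ => T 0 z := by
  have h : (fun z : Fin N → ℂ => T 0 z) = fun z => ∑ k, ‖z k‖ ^ 2 := funext T0
  rw [h]
  fun_prop

theorem ae_ne (n : ℕ) : ∀ᵐ z : Fin (n + 1) → ℂ, z (Fin.last n) ≠ 0 := by
  rw [ae_iff]
  simp only [ne_eq, not_not]
  exact Measure.pi_hyperplane (fun _ => volume) (Fin.last n) 0

end SPH

open SPH in
theorem t_SPH : M_SPH := by
  intro hHA hU hT n hn μ _ _ Φ hΦ hΦs
  have hr : μ.IsMulRightInvariant := (hHA (SU (n + 1)) μ).1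
  have hE : Measurable fun z : Fin (n + 1) → ℂ => ENNReal.ofReal (Real.exp (-T 0 z)) :=
    ENNReal.measurable_ofReal.comp (Real.measurable_exp.comp T0_cont.measurable.neg)
  have h1 : ∀ g : SU (n + 1), ∫⁻ z : Fin (n + 1) → ℂ, Φ (g.1 *ᵥ z) * ENNReal.ofReal (Real.exp (-T 0 z)) =
      ∫⁻ z : Fin (n + 1) → ℂ, Φ z * ENNReal.ofReal (Real.exp (-T 0 z)) := by
    intro g
    have h := hU (n + 1) g (fun z => Φ z * ENNReal.ofReal (Real.exp (-T 0 z))) (hΦ.mul hE)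
    simp only [T0g] at h
    exact h
  have h2 : ∫⁻ g, (∫⁻ z : Fin (n + 1) → ℂ, Φ (g.1 *ᵥ z) * ENNReal.ofReal (Real.exp (-T 0 z))) ∂μ =
      ∫⁻ z : Fin (n + 1) → ℂ, Φ z * ENNReal.ofReal (Real.exp (-T 0 z)) := by
    simp only [h1]
    rw [lintegral_const, measure_univ, mul_one]
  have hc : Continuous fun p : SU (n + 1) × (Fin (n + 1) → ℂ) => p.1.1 *ᵥ p.2 :=
    Continuous.matrix_mulVec (continuous_subtype_val.comp continuous_fst) continuous_snd
  have hm : Measurable fun p : SU (n + 1) × (Fin (n + 1) → ℂ) =>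
      Φ (p.1.1 *ᵥ p.2) * ENNReal.ofReal (Real.exp (-T 0 p.2)) :=
    (hΦ.comp hc.measurable).mul (hE.comp measurable_snd)
  rw [lintegral_lintegral_swap hm.aemeasurable] at h2
  rw [← h2, ← lintegral_const_mul _ hE]
  refine lintegral_congr_ae ?_
  filter_upwards [ae_ne n] with z hz
  have hmg : Measurable fun g : SU (n + 1) => Φ (g.1 *ᵥ z) :=
    (hΦ.comp hc.measurable).comp (measurable_id.prodMk measurable_const)
  rw [lintegral_mul_const _ hmg]
  congr 1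
  have hpos : 0 < T 0 z := by
    rw [T0]
    have hs : 0 < ‖z (Fin.last n)‖ ^ 2 := by positivity
    exact lt_of_lt_of_le hs (Finset.single_le_sum (f := fun k => ‖z k‖ ^ 2)
      (fun k _ => sq_nonneg _) (Finset.mem_univ _))
  have hsq : 0 < √(T 0 z) := Real.sqrt_pos.mpr hpos
  have hx1 : T 0 (((√(T 0 z))⁻¹ : ℂ) • z) = 1 := by
    rw [T0]
    have e : ∀ k, ‖(((√(T 0 z))⁻¹ : ℂ) • z) k‖ ^ 2 = (T 0 z)⁻¹ * ‖z k‖ ^ 2 := by
      intro k
      rw [Pi.smul_apply, smul_eq_mul, norm_mul, norm_inv, Complex.norm_real, mul_pow, inv_pow,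
        Real.norm_eq_abs, sq_abs, Real.sq_sqrt hpos.le]
    rw [Finset.sum_congr rfl fun k _ => e k, ← Finset.mul_sum, ← T0]
    exact inv_mul_cancel₀ hpos.ne'
  have hx2 : (((√(T 0 z))⁻¹ : ℂ) • z) (Fin.last n) ≠ 0 := by
    rw [Pi.smul_apply, smul_eq_mul]
    exact mul_ne_zero (inv_ne_zero (Complex.ofReal_ne_zero.mpr hsq.ne')) hz
  obtain ⟨k, hk, -, -⟩ := hT n hn _ hx1 hx2
  have e3 : ∀ g : SU (n + 1), Φ (g.1 *ᵥ z) = Φ (col (g * k)) := by
    intro g
    have e4 : g.1 *ᵥ z = ((√(T 0 z) : ℝ) : ℂ) • col (g * k) := by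
      have e5 : col (g * k) = g.1 *ᵥ (((√(T 0 z))⁻¹ : ℂ) • z) := by
        funext i
        change (g.1 * k.1) i (Fin.last n) = _
        rw [Matrix.mul_apply, mulVec, dotProduct]
        exact Finset.sum_congr rfl fun j _ => by rw [hk]
      rw [e5, mulVec_smul, smul_smul, mul_inv_cancel₀ (Complex.ofReal_ne_zero.mpr hsq.ne'),
        one_smul]
    rw [e4, hΦs _ _ hsq]
  simp only [e3]
  exact (lintegral_mul_right_eq_self (fun g => Φ (col g)) k).symm

end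

end STZ
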