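import Pool.Agent.STZ.StmtsL

/-!
# TRAN: a matrix of `SU(n+1)` with a given last column, lower triangular in the other columns
-/

namespace STZ

namespace TRAN

open Matrix

open scoped ComplexConjugate

theorem T_step {N : ℕ} (x : Fin N → ℂ) (j : Fin N) : T (j : ℕ) x = ‖x j‖ ^ 2 + T ((j : ℕ) + 1) x := by
  classical
  unfold T
  have h1 : Finset.univ.filter (fun k : Fin N => (j : ℕ) ≤ k) =
      insert j (Finset.univ.filter (fun k : Fin N => (j : ℕ) + 1 ≤ k)) := by
    ext k
    simp only [Finset.mem_filter, Finset.mem_univ, true_and, Finset.mem_insert, Fin.ext_iff]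
    omega
  rw [h1, Finset.sum_insert]
  simp

theorem T_pos {n : ℕ} (x : Fin (n + 1) → ℂ) (hx : x (Fin.last n) ≠ 0) (j : ℕ) (hj : j ≤ n) :
    0 < T j x := by
  unfold T
  have h0 : ∀ k ∈ Finset.univ.filter (fun k : Fin (n + 1) => j ≤ k), 0 ≤ ‖x k‖ ^ 2 :=
    fun k _ => sq_nonneg _
  have h1 : Fin.last n ∈ Finset.univ.filter (fun k : Fin (n + 1) => j ≤ k) := by
    simp [Fin.val_last, hj]
  have h2 : ‖x (Fin.last n)‖ ^ 2 ≤
      ∑ k ∈ Finset.univ.filter (fun k : Fin (n + 1) => j ≤ k), ‖x k‖ ^ 2 :=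
    Finset.single_le_sum h0 h1
  have h3 : 0 < ‖x (Fin.last n)‖ ^ 2 := by positivity
  exact lt_of_lt_of_le h3 h2

noncomputable def al {n : ℕ} (x : Fin (n + 1) → ℂ) (j : Fin (n + 1)) : ℝ :=
  Real.sqrt (T ((j : ℕ) + 1) x / T (j : ℕ) x)

noncomputable def be {n : ℕ} (x : Fin (n + 1) → ℂ) (j : Fin (n + 1)) : ℂ :=
  -(conj (x j) * (al x j : ℂ) / (T ((j : ℕ) + 1) x : ℂ))

noncomputable def cl {n : ℕ} (x : Fin (n + 1) → ℂ) (j k : Fin (n + 1)) : ℂ :=
  (if k = j then (al x j : ℂ) else 0) + (if j < k then be x j * x k else 0)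

theorem conj_mul_self (z : ℂ) : conj z * z = ((‖z‖ ^ 2 : ℝ) : ℂ) := by
  rw [Complex.conj_mul']
  push_cast
  rfl

theorem sum_gt {n : ℕ} (x : Fin (n + 1) → ℂ) (j : Fin (n + 1)) :
    ∑ k, (if j < k then conj (x k) * x k else 0) = ((T ((j : ℕ) + 1) x : ℝ) : ℂ) := by
  unfold T
  rw [← Finset.sum_filter]
  push_cast
  refine Finset.sum_congr ?_ ?_
  · ext k
    simp only [Finset.mem_filter, Finset.mem_univ, true_and, Fin.lt_def]
    omega
  · intro k _
    rw [conj_mul_self]
    push_cast
    rfl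

theorem al_sq {n : ℕ} (x : Fin (n + 1) → ℂ) (hx : x (Fin.last n) ≠ 0) (j : Fin (n + 1))
    (hj : j ≠ Fin.last n) : al x j ^ 2 = T ((j : ℕ) + 1) x / T (j : ℕ) x := by
  have hj' : (j : ℕ) + 1 ≤ n := by
    have h1 := j.2
    have h2 : (j : ℕ) ≠ n := fun h => hj (Fin.ext h)
    omega
  have h1 : 0 < T ((j : ℕ) + 1) x := T_pos x hx _ hj'
  have h2 : 0 < T (j : ℕ) x := T_pos x hx _ (by omega)
  unfold al
  exact Real.sq_sqrt (div_pos h1 h2).le

theorem orth_x {n : ℕ} (x : Fin (n + 1) → ℂ) (hx : x (Fin.last n) ≠ 0) (j : Fin (n + 1))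
    (hj : j ≠ Fin.last n) : ∑ k, conj (x k) * cl x j k = 0 := by
  have hj' : (j : ℕ) + 1 ≤ n := by
    have h1 := j.2
    have h2 : (j : ℕ) ≠ n := fun h => hj (Fin.ext h)
    omega
  have h1 : 0 < T ((j : ℕ) + 1) x := T_pos x hx _ hj'
  have h1' : ((T ((j : ℕ) + 1) x : ℝ) : ℂ) ≠ 0 := by exact_mod_cast h1.ne'
  have h3 : ∀ k, conj (x k) * cl x j k =
      (if k = j then conj (x k) * (al x j : ℂ) else 0) +
        be x j * (if j < k then conj (x k) * x k else 0) := by
    intro k
    unfold cl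
    split_ifs <;> ring
  rw [Finset.sum_congr rfl fun k _ => h3 k, Finset.sum_add_distrib, ← Finset.mul_sum, sum_gt,
    Finset.sum_ite_eq' Finset.univ j, if_pos (Finset.mem_univ j)]
  unfold be
  field_simp
  ring

theorem orth_lt {n : ℕ} (x : Fin (n + 1) → ℂ) (hx : x (Fin.last n) ≠ 0) (i j : Fin (n + 1))
    (hij : i < j) (hj : j ≠ Fin.last n) : ∑ k, conj (cl x i k) * cl x j k = 0 := by
  have h3 : ∀ k, conj (cl x i k) * cl x j k = conj (be x i) * (conj (x k) * cl x j k) := by
    intro k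
    rcases lt_or_ge k j with h | h
    · have h4 : cl x j k = 0 := by
        unfold cl
        rw [if_neg h.ne, if_neg (not_lt.mpr h.le), add_zero]
      rw [h4]
      ring
    · have h5 : i < k := lt_of_lt_of_le hij h
      have h6 : cl x i k = be x i * x k := by
        unfold cl
        rw [if_neg h5.ne', if_pos h5, zero_add]
      rw [h6, map_mul]
      ring
  rw [Finset.sum_congr rfl fun k _ => h3 k, ← Finset.mul_sum, orth_x x hx j hj, mul_zero]

theorem unit_col {n : ℕ} (x : Fin (n + 1) → ℂ) (hx : x (Fin.last n) ≠ 0) (j : Fin (n + 1))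
    (hj : j ≠ Fin.last n) : ∑ k, conj (cl x j k) * cl x j k = 1 := by
  have hj' : (j : ℕ) + 1 ≤ n := by
    have h1 := j.2
    have h2 : (j : ℕ) ≠ n := fun h => hj (Fin.ext h)
    omega
  have h1 : 0 < T ((j : ℕ) + 1) x := T_pos x hx _ hj'
  have h2 : 0 < T (j : ℕ) x := T_pos x hx _ (by omega)
  have h1' : ((T ((j : ℕ) + 1) x : ℝ) : ℂ) ≠ 0 := by exact_mod_cast h1.ne'
  have h2' : ((T (j : ℕ) x : ℝ) : ℂ) ≠ 0 := by exact_mod_cast h2.ne'
  have h3 : ∀ k, conj (cl x j k) * cl x j k =
      (if k = j then (al x j : ℂ) ^ 2 else 0) +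
        conj (be x j) * be x j * (if j < k then conj (x k) * x k else 0) := by
    intro k
    unfold cl
    by_cases hk : k = j
    · subst hk
      simp only [if_true, lt_irrefl, if_false, add_zero, mul_zero, Complex.conj_ofReal]
      ring
    · rw [if_neg hk, if_neg hk]
      split_ifs
      · rw [zero_add, map_mul]
        ring
      · simp
  rw [Finset.sum_congr rfl fun k _ => h3 k, Finset.sum_add_distrib, ← Finset.mul_sum, sum_gt,
    Finset.sum_ite_eq' Finset.univ j, if_pos (Finset.mem_univ j), conj_mul_self]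
  have h4 : ‖be x j‖ ^ 2 = ‖x j‖ ^ 2 * al x j ^ 2 / T ((j : ℕ) + 1) x ^ 2 := by
    unfold be
    rw [norm_neg, norm_div, norm_mul, RCLike.norm_conj, Complex.norm_real, Complex.norm_real,
      div_pow, mul_pow, Real.norm_eq_abs, Real.norm_eq_abs, sq_abs, sq_abs]
  have h5 := T_step x j
  have h6 := al_sq x hx j hj
  have h7 : al x j ^ 2 + ‖be x j‖ ^ 2 * T ((j : ℕ) + 1) x = 1 := by
    rw [h4, h6]
    have h8 : ‖x j‖ ^ 2 = T (j : ℕ) x - T ((j : ℕ) + 1) x := by linarith
    rw [h8]
    field_simp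
    ring
  exact_mod_cast h7

/-- the matrix before the correction of the determinant -/
noncomputable def MM {n : ℕ} (x : Fin (n + 1) → ℂ) : Matrix (Fin (n + 1)) (Fin (n + 1)) ℂ :=
  Matrix.of fun i j => if j = Fin.last n then x i else cl x j i

theorem MM_last {n : ℕ} (x : Fin (n + 1) → ℂ) (i : Fin (n + 1)) : MM x i (Fin.last n) = x i := by
  unfold MM
  rw [Matrix.of_apply, if_pos rfl]

theorem MM_ne {n : ℕ} (x : Fin (n + 1) → ℂ) (i j : Fin (n + 1)) (hj : j ≠ Fin.last n) :
    MM x i j = cl x j i := by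
  unfold MM
  rw [Matrix.of_apply, if_neg hj]

theorem gram {n : ℕ} (x : Fin (n + 1) → ℂ) (hT : T 0 x = 1) (hx : x (Fin.last n) ≠ 0) :
    (MM x)ᴴ * MM x = 1 := by
  have hle : ∀ i j : Fin (n + 1), i ≤ j → ((MM x)ᴴ * MM x) i j = (1 : Matrix _ _ ℂ) i j := by
    intro i j hij
    rw [Matrix.mul_apply]
    simp only [Matrix.conjTranspose_apply]
    rcases eq_or_ne j (Fin.last n) with hj | hj
    · subst hj
      rcases eq_or_ne i (Fin.last n) with hi | hi
      · subst hi
        rw [Matrix.one_apply_eq]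
        have h1 : ∀ k, star (MM x k (Fin.last n)) * MM x k (Fin.last n) = ((‖x k‖ ^ 2 : ℝ) : ℂ) := by
          intro k
          rw [MM_last]
          exact conj_mul_self (x k)
        rw [Finset.sum_congr rfl fun k _ => h1 k, ← Complex.ofReal_sum]
        have h2 : ∑ k, ‖x k‖ ^ 2 = 1 := by
          rw [← hT]
          unfold T
          simp
        rw [h2]
        simp
      · rw [Matrix.one_apply_ne hi]
        have h1 : ∀ k, star (MM x k i) * MM x k (Fin.last n) = conj (conj (x k) * cl x i k) := by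
          intro k
          rw [MM_last, MM_ne x k i hi, map_mul, Complex.conj_conj, mul_comm]
          rfl
        rw [Finset.sum_congr rfl fun k _ => h1 k, ← map_sum, orth_x x hx i hi, map_zero]
    · have hi : i ≠ Fin.last n := by
        intro h
        subst h
        exact hj (le_antisymm (Fin.le_last j) hij)
      have h1 : ∀ k, star (MM x k i) * MM x k j = conj (cl x i k) * cl x j k := by
        intro k
        rw [MM_ne x k i hi, MM_ne x k j hj]
        rfl
      rw [Finset.sum_congr rfl fun k _ => h1 k]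
      rcases eq_or_lt_of_le hij with h | h
      · subst h
        rw [Matrix.one_apply_eq, unit_col x hx i hi]
      · rw [Matrix.one_apply_ne h.ne, orth_lt x hx i j h hj]
  ext i j
  rcases le_total i j with h | h
  · exact hle i j h
  · have h1 := hle j i h
    have h2 : ((MM x)ᴴ * MM x)ᴴ = (MM x)ᴴ * MM x := by
      rw [Matrix.conjTranspose_mul, Matrix.conjTranspose_conjTranspose]
    have h3 : ((MM x)ᴴ * MM x) i j = star (((MM x)ᴴ * MM x) j i) := by
      rw [← Matrix.conjTranspose_apply, h2]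
    rw [h3, h1]
    by_cases hij : i = j
    · subst hij
      simp
    · rw [Matrix.one_apply_ne hij, Matrix.one_apply_ne (Ne.symm hij), star_zero]

end TRAN

open TRAN Matrix in
theorem t_TRAN : S_TRAN := by
  intro n hn x hT hx
  have hG := gram x hT hx
  have hdet : star (MM x).det * (MM x).det = 1 := by
    rw [← Matrix.det_conjTranspose, ← Matrix.det_mul, hG, Matrix.det_one]
  set d : Fin (n + 1) → ℂ := fun j => if j = 0 then star (MM x).det else 1 with hd
  have hdd : ∀ j, star (d j) * d j = 1 := by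
    intro j
    rw [hd]
    by_cases h : j = 0
    · simp only [if_pos h, star_star]
      rw [mul_comm]
      exact hdet
    · simp [h]
  have hlast0 : Fin.last n ≠ 0 := by
    intro h
    have h1 := congrArg Fin.val h
    simp at h1
    omega
  have hmem : MM x * Matrix.diagonal d ∈ Matrix.specialUnitaryGroup (Fin (n + 1)) ℂ := by
    rw [Matrix.mem_specialUnitaryGroup_iff]
    constructor
    · rw [Matrix.mem_unitaryGroup_iff', Matrix.star_eq_conjTranspose, Matrix.conjTranspose_mul,
        Matrix.diagonal_conjTranspose]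
      have h1 : Matrix.diagonal (star d) * (MM x)ᴴ * (MM x * Matrix.diagonal d) =
          Matrix.diagonal (star d) * ((MM x)ᴴ * MM x) * Matrix.diagonal d := by
        simp only [Matrix.mul_assoc]
      rw [h1, hG, Matrix.mul_one, Matrix.diagonal_mul_diagonal]
      have h2 : (fun i => (star d) i * d i) = fun _ => 1 := by
        funext i
        exact hdd i
      rw [h2, Matrix.diagonal_one]
    · rw [Matrix.det_mul, Matrix.det_diagonal]
      have h1 : ∏ i, d i = star (MM x).det := by
        rw [hd, Finset.prod_ite_eq' Finset.univ (0 : Fin (n + 1)) (fun _ => star (MM x).det)]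
        simp
      rw [h1, mul_comm]
      exact hdet
  refine ⟨⟨MM x * Matrix.diagonal d, hmem⟩, ?_, ?_, ?_⟩
  · intro i
    show (MM x * Matrix.diagonal d) i (Fin.last n) = x i
    rw [Matrix.mul_diagonal, MM_last]
    have h1 : d (Fin.last n) = 1 := by
      rw [hd]
      exact if_neg hlast0
    rw [h1, mul_one]
  · intro i j hij hj
    show (MM x * Matrix.diagonal d) i j = 0
    rw [Matrix.mul_diagonal, MM_ne x i j hj]
    have h1 : cl x j i = 0 := by
      unfold cl
      rw [if_neg hij.ne, if_neg (not_lt.mpr hij.le), add_zero]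
    rw [h1, zero_mul]
  · intro j hj
    show ‖(MM x * Matrix.diagonal d) j j‖ ^ 2 = T ((j : ℕ) + 1) x / T (j : ℕ) x
    rw [Matrix.mul_diagonal, MM_ne x j j hj, norm_mul, mul_pow]
    have h1 : ‖d j‖ ^ 2 = 1 := by
      have h2 := hdd j
      have h3 : ((‖d j‖ ^ 2 : ℝ) : ℂ) = 1 := by
        rw [← conj_mul_self]
        exact h2
      exact_mod_cast h3
    have h4 : cl x j j = (al x j : ℂ) := by
      unfold cl
      rw [if_pos rfl, if_neg (lt_irrefl j), add_zero]
    rw [h1, mul_one, h4, Complex.norm_real, Real.norm_eq_abs, sq_abs]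
    exact al_sq x hx j hj

end STZ
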