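import Pool.Agent.STZ.StmtsL

/-!
# Lebesgue measure on `ℂ^N` is invariant under `SU(N)`
-/

namespace STZ

open MeasureTheory Matrix

open scoped ComplexConjugate Matrix Real ENNReal

noncomputable section

namespace UINV

/-- the square of the euclidean norm -/
def q {N : ℕ} (z : Fin N → ℂ) : ℝ := ∑ k, ‖z k‖ ^ 2

lemma q_eq {N : ℕ} (z : Fin N → ℂ) : ((q z : ℝ) : ℂ) = star z ⬝ᵥ z := by
  unfold q dotProduct
  push_cast
  refine Finset.sum_congr rfl fun k _ => ?_
  rw [Pi.star_apply, Complex.star_def, Complex.conj_mul']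

lemma q_inv {N : ℕ} (g : SU N) (z : Fin N → ℂ) : q (g.1 *ᵥ z) = q z := by
  have h1 : star g.1 * g.1 = 1 := by
    have := (Matrix.mem_specialUnitaryGroup_iff.1 g.2).1
    exact Matrix.mem_unitaryGroup_iff'.1 this
  have h : ((q (g.1 *ᵥ z) : ℝ) : ℂ) = ((q z : ℝ) : ℂ) := by
    rw [q_eq, q_eq, Matrix.star_mulVec, ← Matrix.dotProduct_mulVec, Matrix.mulVec_mulVec,
      ← Matrix.star_eq_conjTranspose, h1, Matrix.one_mulVec]
  exact_mod_cast h

/-- the real linear map -/
def f {N : ℕ} (A : Matrix (Fin N) (Fin N) ℂ) : (Fin N → ℂ) →ₗ[ℝ] (Fin N → ℂ) :=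
  (Matrix.mulVecLin A).restrictScalars ℝ

lemma f_apply {N : ℕ} (A : Matrix (Fin N) (Fin N) ℂ) (z : Fin N → ℂ) : f A z = A *ᵥ z := rfl

lemma f_mul {N : ℕ} (A B : Matrix (Fin N) (Fin N) ℂ) : f A ∘ₗ f B = f (A * B) := by
  refine LinearMap.ext fun z => ?_
  simp [f_apply, Matrix.mulVec_mulVec]

lemma f_one {N : ℕ} : f (1 : Matrix (Fin N) (Fin N) ℂ) = LinearMap.id := by
  refine LinearMap.ext fun z => ?_
  simp [f_apply]

lemma det_ne {N : ℕ} (g : SU N) : LinearMap.det (f g.1) ≠ 0 := by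
  have h1 : star g.1 * g.1 = 1 := by
    have := (Matrix.mem_specialUnitaryGroup_iff.1 g.2).1
    exact Matrix.mem_unitaryGroup_iff'.1 this
  have h : LinearMap.det (f (star g.1)) * LinearMap.det (f g.1) = 1 := by
    rw [← LinearMap.det_comp, f_mul, h1, f_one, LinearMap.det_id]
  exact right_ne_zero_of_mul_eq_one h

lemma q_cont {N : ℕ} : Continuous (q : (Fin N → ℂ) → ℝ) := by
  unfold q
  fun_prop

/-- the closed ball -/
def B (N : ℕ) : Set (Fin N → ℂ) := {z | q z ≤ 1}

lemma B_closed (N : ℕ) : IsClosed (B N) := isClosed_le q_cont continuous_const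

lemma B_finite (N : ℕ) : volume (B N) ≠ ∞ := by
  have hs : B N ⊆ Metric.closedBall 0 1 := by
    intro z hz
    rw [mem_closedBall_zero_iff, pi_norm_le_iff_of_nonneg zero_le_one]
    intro k
    have h1 : ‖z k‖ ^ 2 ≤ q z :=
      Finset.single_le_sum (f := fun k => ‖z k‖ ^ 2) (fun i _ => by positivity) (Finset.mem_univ k)
    have h2 : ‖z k‖ ^ 2 ≤ 1 := h1.trans hz
    exact (sq_le_one_iff₀ (norm_nonneg _)).1 h2
  exact ((measure_mono hs).trans_lt measure_closedBall_lt_top).ne

lemma B_pos (N : ℕ) : volume (B N) ≠ 0 := by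
  have hU : IsOpen {z : Fin N → ℂ | q z < 1} := isOpen_lt q_cont continuous_const
  have hn : ({z : Fin N → ℂ | q z < 1}).Nonempty := ⟨0, by simp [q]⟩
  have h1 := hU.measure_pos volume hn
  have h2 : volume {z : Fin N → ℂ | q z < 1} ≤ volume (B N) := measure_mono fun z hz => (le_of_lt hz : q z ≤ 1)
  exact (h1.trans_le h2).ne'

lemma map_eq {N : ℕ} (g : SU N) : (volume : Measure (Fin N → ℂ)).map (f g.1) = volume := by
  have h := MeasureTheory.Measure.map_linearMap_addHaar_eq_smul_addHaar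
    (volume : Measure (Fin N → ℂ)) (det_ne g)
  have hm : Measurable (f g.1) := (LinearMap.continuous_of_finiteDimensional (f g.1)).measurable
  have hB : (volume : Measure (Fin N → ℂ)).map (f g.1) (B N) = volume (B N) := by
    rw [Measure.map_apply hm (B_closed N).measurableSet]
    congr 1
    ext z
    simp only [Set.mem_preimage, B, Set.mem_ofPred_eq, f_apply, q_inv]
  have hc : ENNReal.ofReal |(LinearMap.det (f g.1))⁻¹| = 1 := by
    rw [h, Measure.smul_apply, smul_eq_mul] at hB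
    have := (ENNReal.mul_eq_right (B_pos N) (B_finite N)).1 hB
    exact this
  rw [h, hc, one_smul]

end UINV

open UINV in
/-- UINV -/
theorem t_UINV : S_UINV := by
  intro N g H hH
  have hm : Measurable (f g.1) := (LinearMap.continuous_of_finiteDimensional (f g.1)).measurable
  have h := lintegral_map (μ := (volume : Measure (Fin N → ℂ))) hH hm
  rw [map_eq] at h
  rw [h]
  rfl

end

end STZ
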