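import Pool.Agent.STZ.LOW
import Pool.Agent.STZ.FRN
import Pool.Agent.STZ.EIGM
import Pool.Agent.STZ.POLY
import Pool.Agent.STZ.DALG
import Pool.Agent.STZ.MINR
import Pool.Agent.STZ.CASM
import Pool.Agent.STZ.INTM
import Pool.Agent.STZ.EMB
import Pool.Agent.STZ.FIB
import Pool.Agent.STZ.TRAN
import Pool.Agent.STZ.MOM
import Pool.Agent.STZ.SPH
import Pool.Agent.STZ.UINV
import Pool.Agent.STZ.CHAIN
import Pool.Agent.STZ.HAAR
import Pool.Agent.STZ.CAS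
import Pool.Agent.STZ.CALC
import Pool.Agent.STZ.EXP

/-!
# The lower bound: `(S_p)` fails on `SU(n)` for all `p < 2 + 8 / ((n - 1) (n + 2))`
-/

namespace STZ

theorem main_lower : MainLower :=
  t_LOW t_FRN (t_EIGM (t_POLY (t_CALC t_EXP)) t_DALG t_MINR (t_CASM t_CAS t_DALG))
    (t_INTM t_HAAR t_EMB (t_FIB t_TRAN t_EMB) (t_MOM t_CHAIN (t_SPH t_HAAR t_UINV t_TRAN)))

end STZ
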