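import Pool.Agent.STZ.StmtsK

/-!
# The multiplicities of the weights for `SU(3)`
-/

set_option autoImplicit false

namespace STZ

open MeasureTheory Matrix

open scoped ComplexConjugate Matrix Real

noncomputable section

namespace MKA

/-- the weights in the coordinates of the fundamental weights -/
def fw (κ : Fin 3 → ℤ) : Fin 2 → ℤ := ![κ 0 - κ 1, κ 1 - κ 2]

theorem XX_fw (hALT : S_ALT) (x y : ℂ) (p q : ℤ) (κ : Fin 3 → ℤ) :
    XX x y (![p + q, q, 0] + κ) = ps x y (p + fw κ 0) (q + fw κ 1) := by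
  have h := hALT.shift x y ![(p + fw κ 0) + (q + fw κ 1), q + fw κ 1, 0] (κ 2)
  unfold ps
  rw [← h]
  congr 1
  funext i
  fin_cases i
  · simp [fw]
    ring
  · simp [fw]
    ring
  · simp [fw]

theorem mlt_nonneg (A B : ℕ) (κ : Fin 3 → ℤ) : 0 ≤ mlt A B κ := by
  unfold mlt
  split_ifs
  · exact le_max_left _ _
  · exact le_rfl

theorem mlt_le (A B : ℕ) (κ : Fin 3 → ℤ) : mlt A B κ ≤ A + 1 ∧ mlt A B κ ≤ B + 1 := by
  unfold mlt
  split_ifs with h
  · have h1 : (0 : ℤ) ≤ ∑ i, max (κ i) 0 := Finset.sum_nonneg fun i _ => le_max_right _ _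
    have h2 : ∑ i, κ i ≤ ∑ i, max (κ i) 0 := Finset.sum_le_sum fun i _ => le_max_left _ _
    rw [h] at h2
    constructor
    · exact max_le (by positivity) (by linarith)
    · exact max_le (by positivity) (by linarith)
  · constructor <;> positivity

theorem fw_inj {κ κ' : Fin 3 → ℤ} (h : fw κ = fw κ') (hs : ∑ i, κ i = ∑ i, κ' i) : κ = κ' := by
  have h0 : κ 0 - κ 1 = κ' 0 - κ' 1 := congrFun h 0
  have h1 : κ 1 - κ 2 = κ' 1 - κ' 2 := congrFun h 1
  rw [Fin.sum_univ_three, Fin.sum_univ_three] at hs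
  funext i
  fin_cases i
  · show κ 0 = κ' 0
    omega
  · show κ 1 = κ' 1
    omega
  · show κ 2 = κ' 2
    omega

theorem bound (M a b : ℝ) (ha : 1 ≤ a) (hb : 1 ≤ b) (hM1 : M ≤ a) (hM2 : M ≤ b) :
    M * (1 + (a + b)) ^ 2 ≤ 9 / 2 * (a * b * (a + b)) := by
  have hs : (1 + (a + b)) ^ 2 ≤ 9 / 4 * (a + b) ^ 2 := by nlinarith
  have hab : 0 ≤ a + b := by linarith
  rcases le_total a b with h | h
  · have h1 : M * (1 + (a + b)) ^ 2 ≤ a * (1 + (a + b)) ^ 2 :=
      mul_le_mul_of_nonneg_right hM1 (by positivity)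
    have h2 : a * (1 + (a + b)) ^ 2 ≤ a * (9 / 4 * (a + b) ^ 2) :=
      mul_le_mul_of_nonneg_left hs (by linarith)
    have h3 : a * (9 / 4 * (a + b) ^ 2) ≤ 9 / 2 * (a * b * (a + b)) := by
      have h4 : 0 ≤ a * (a + b) * (b - a) :=
        mul_nonneg (mul_nonneg (by linarith) hab) (by linarith)
      nlinarith [h4]
    linarith
  · have h1 : M * (1 + (a + b)) ^ 2 ≤ b * (1 + (a + b)) ^ 2 :=
      mul_le_mul_of_nonneg_right hM2 (by positivity)
    have h2 : b * (1 + (a + b)) ^ 2 ≤ b * (9 / 4 * (a + b) ^ 2) :=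
      mul_le_mul_of_nonneg_left hs (by linarith)
    have h3 : b * (9 / 4 * (a + b) ^ 2) ≤ 9 / 2 * (a * b * (a + b)) := by
      have h4 : 0 ≤ b * (a + b) * (a - b) :=
        mul_nonneg (mul_nonneg (by linarith) hab) (by linarith)
      nlinarith [h4]
    linarith

end MKA

theorem t_MKA : M_MKA := by
  intro hALT hMULT
  refine ⟨18, fun a ha => ?_⟩
  obtain ⟨A, hA⟩ : ∃ A : ℕ, a 0 = A + 1 := ⟨(a 0 - 1).toNat, by have := ha 0; omega⟩
  obtain ⟨B, hB⟩ : ∃ B : ℕ, a 1 = B + 1 := ⟨(a 1 - 1).toNat, by have := ha 1; omega⟩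
  let S0 : Finset (Fin 3 → ℤ) :=
    Fintype.piFinset (fun _ : Fin 3 => Finset.Icc (-((A + B : ℕ) : ℤ)) ((A + B : ℕ) : ℤ))
  let S1 : Finset (Fin 3 → ℤ) := S0.filter fun κ => ∑ i, κ i = (A : ℤ) - B
  have hfib : ∀ μ : Fin 2 → ℤ, (S1.filter fun κ => MKA.fw κ = μ).card ≤ 1 := by
    intro μ
    rw [Finset.card_le_one]
    intro κ hκ κ' hκ'
    rw [Finset.mem_filter, Finset.mem_filter] at hκ hκ'
    exact MKA.fw_inj (hκ.2.trans hκ'.2.symm) (hκ.1.2.trans hκ'.1.2.symm)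
  refine ⟨S1.image MKA.fw, fun μ => ∑ κ ∈ S1.filter (fun κ => MKA.fw κ = μ), mlt A B κ, ?_, ?_⟩
  · intro x l
    have h1 := hMULT A B (A + B) le_rfl (x 0) (x 1) ![l 0 + l 1, l 1, 0]
    have h2 : ∑ κ ∈ S0, (mlt A B κ : ℂ) * XX (x 0) (x 1) (![l 0 + l 1, l 1, 0] + κ) =
        ∑ κ ∈ S1, (mlt A B κ : ℂ) *
          ps (x 0) (x 1) (l 0 + MKA.fw κ 0) (l 1 + MKA.fw κ 1) := by
      rw [Finset.sum_filter]
      refine Finset.sum_congr rfl fun κ _ => ?_
      rw [MKA.XX_fw hALT]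
      split_ifs with h
      · rfl
      · have h3 : mlt A B κ = 0 := if_neg h
        rw [h3]
        simp
    have h4 : D1.ψ x a * D1.ψ x l = ps (x 0) (x 1) (A + 1) (B + 1) *
        XX (x 0) (x 1) ![l 0 + l 1, l 1, 0] := by
      show ps (x 0) (x 1) (a 0) (a 1) * ps (x 0) (x 1) (l 0) (l 1) = _
      rw [hA, hB]
      rfl
    rw [h4, h1]
    refine h2.trans ?_
    rw [← Finset.sum_fiberwise_of_maps_to (t := S1.image MKA.fw) (g := MKA.fw)
      (fun κ hκ => Finset.mem_image_of_mem _ hκ)]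
    refine Finset.sum_congr rfl fun μ _ => ?_
    rw [Int.cast_sum, Finset.sum_mul]
    refine Finset.sum_congr rfl fun κ hκ => ?_
    rw [Finset.mem_filter] at hκ
    rw [← hκ.2]
    rfl
  · intro μ hμ
    have ha0 : (1 : ℝ) ≤ (a 0 : ℝ) := by exact_mod_cast ha 0
    have ha1 : (1 : ℝ) ≤ (a 1 : ℝ) := by exact_mod_cast ha 1
    have hsz : sz a = 1 + ((a 0 : ℝ) + (a 1 : ℝ)) := by
      unfold sz
      rw [Fin.sum_univ_two, abs_of_nonneg (by linarith), abs_of_nonneg (by linarith)]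
    constructor
    · have hm0 : 0 ≤ ∑ κ ∈ S1.filter (fun κ => MKA.fw κ = μ), mlt A B κ :=
        Finset.sum_nonneg fun κ _ => MKA.mlt_nonneg A B κ
      have hm1 : ∀ c : ℤ, 0 ≤ c → (∀ κ, mlt A B κ ≤ c) →
          ∑ κ ∈ S1.filter (fun κ => MKA.fw κ = μ), mlt A B κ ≤ c := by
        intro c hc h
        have h5 := Finset.sum_le_card_nsmul (S1.filter fun κ => MKA.fw κ = μ)
          (fun κ => mlt A B κ) c (fun κ _ => h κ)
        refine h5.trans ?_
        rw [nsmul_eq_mul]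
        have h6 : (((S1.filter fun κ => MKA.fw κ = μ).card : ℕ) : ℤ) ≤ 1 := by
          exact_mod_cast hfib μ
        nlinarith
      have hm2 := hm1 (A + 1) (by positivity) (fun κ => (MKA.mlt_le A B κ).1)
      have hm3 := hm1 (B + 1) (by positivity) (fun κ => (MKA.mlt_le A B κ).2)
      rw [← hA] at hm2
      rw [← hB] at hm3
      have hm4 : ((∑ κ ∈ S1.filter (fun κ => MKA.fw κ = μ), mlt A B κ : ℤ) : ℝ) ≤ (a 0 : ℝ) := by
        exact_mod_cast hm2
      have hm5 : ((∑ κ ∈ S1.filter (fun κ => MKA.fw κ = μ), mlt A B κ : ℤ) : ℝ) ≤ (a 1 : ℝ) := by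
        exact_mod_cast hm3
      have hm6 : (0 : ℝ) ≤ ((∑ κ ∈ S1.filter (fun κ => MKA.fw κ = μ), mlt A B κ : ℤ) : ℝ) := by
        exact_mod_cast hm0
      have h7 := MKA.bound _ _ _ ha0 ha1 hm4 hm5
      have h8 : a 0 * a 1 * (a 0 + a 1) - 1 ≤ 2 * D1.dim a := by
        show a 0 * a 1 * (a 0 + a 1) - 1 ≤ 2 * (a 0 * a 1 * (a 0 + a 1) / 2)
        omega
      have h9 : (a 0 : ℝ) * a 1 * ((a 0 : ℝ) + a 1) - 1 ≤ 2 * (D1.dim a : ℝ) := by
        exact_mod_cast h8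
      have h10 : (2 : ℝ) ≤ (a 0 : ℝ) * a 1 * ((a 0 : ℝ) + a 1) := by
        have h11 : (1 : ℝ) ≤ (a 0 : ℝ) * a 1 := by nlinarith
        nlinarith
      rw [hsz, abs_of_nonneg hm6]
      linarith
    · rw [Finset.mem_image] at hμ
      obtain ⟨κ, hκ, rfl⟩ := hμ
      rw [Finset.mem_filter, Fintype.mem_piFinset] at hκ
      have hk : ∀ i, |(κ i : ℝ)| ≤ (A : ℝ) + B := by
        intro i
        have h12 := Finset.mem_Icc.1 (hκ.1 i)
        rw [abs_le]
        constructor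
        · have : (-((A + B : ℕ) : ℤ) : ℝ) ≤ (κ i : ℝ) := by exact_mod_cast h12.1
          push_cast at this
          linarith
        · have : (κ i : ℝ) ≤ (((A + B : ℕ) : ℤ) : ℝ) := by exact_mod_cast h12.2
          push_cast at this
          linarith
      have e0 : (a 0 : ℝ) = A + 1 := by
        rw [hA]
        push_cast
        ring
      have e1 : (a 1 : ℝ) = B + 1 := by
        rw [hB]
        push_cast
        ring
      have hA0 : (0 : ℝ) ≤ A := Nat.cast_nonneg A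
      have hB0 : (0 : ℝ) ≤ B := Nat.cast_nonneg B
      rw [hsz, e0, e1]
      unfold sz
      rw [Fin.sum_univ_two]
      have f0 : |((MKA.fw κ 0 : ℤ) : ℝ)| ≤ 2 * ((A : ℝ) + B) := by
        have : ((MKA.fw κ 0 : ℤ) : ℝ) = (κ 0 : ℝ) - κ 1 := by
          show (((κ 0 - κ 1 : ℤ)) : ℝ) = _
          push_cast
          ring
        rw [this]
        have := abs_sub (κ 0 : ℝ) (κ 1 : ℝ)
        have k0 := hk 0
        have k1 := hk 1
        linarith
      have f1 : |((MKA.fw κ 1 : ℤ) : ℝ)| ≤ 2 * ((A : ℝ) + B) := by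
        have : ((MKA.fw κ 1 : ℤ) : ℝ) = (κ 1 : ℝ) - κ 2 := by
          show (((κ 1 - κ 2 : ℤ)) : ℝ) = _
          push_cast
          ring
        rw [this]
        have := abs_sub (κ 1 : ℝ) (κ 2 : ℝ)
        have k0 := hk 1
        have k1 := hk 2
        linarith
      linarith

end

end STZ
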