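import Pool.Agent.STZ.StmtsK

/-!
# Module MKC: multiplicities for `Sp(2)`
-/

namespace STZ

open Matrix Finset

noncomputable section

namespace MKC

/-- `S (n - 1)` at `t` -/
def s (n : ℤ) (t : ℂ) : ℂ := (Polynomial.Chebyshev.S ℂ (n - 1)).eval t

theorem s_zero (t : ℂ) : s 0 t = 0 := by
  simp [s, Polynomial.Chebyshev.S_neg_one]

theorem s_one (t : ℂ) : s 1 t = 1 := by
  simp [s, Polynomial.Chebyshev.S_zero]

theorem s_rec (n : ℤ) (t : ℂ) : t * s n t = s (n + 1) t + s (n - 1) t := by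
  unfold s
  have h := Polynomial.Chebyshev.S_add_one ℂ (n - 1)
  rw [show n + 1 - 1 = n - 1 + 1 by ring, h]
  simp

/-- the sum in the product formula -/
def PS (k : ℕ) (n : ℤ) (t : ℂ) : ℂ := ∑ i ∈ range k, s (n + k - 1 - 2 * i) t

theorem PS_succ (k : ℕ) (n : ℤ) (t : ℂ) : PS (k + 1) n t = PS k (n + 1) t + s (n - k) t := by
  unfold PS
  rw [Finset.sum_range_succ]
  congr 1
  · refine Finset.sum_congr rfl fun i _ => ?_
    congr 1
    push_cast
    ring
  · congr 1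
    push_cast
    ring

theorem s_mul (k : ℕ) : ∀ (n : ℤ) (t : ℂ), s k t * s n t = PS k n t := by
  induction k using Nat.strong_induction_on with
  | _ k ih =>
    intro n t
    match k, ih with
    | 0, _ => simp [PS, s_zero]
    | 1, _ => simp [PS, s_one]
    | (k + 2), ih =>
      have h1 := s_rec ((k + 1 : ℕ) : ℤ) t
      have e1 : (((k + 1 : ℕ) : ℤ) + 1) = ((k + 2 : ℕ) : ℤ) := by push_cast; ring
      have e2 : (((k + 1 : ℕ) : ℤ) - 1) = ((k : ℕ) : ℤ) := by push_cast; ring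
      rw [e1, e2] at h1
      have h2 := s_rec n t
      have h3 := ih (k + 1) (by omega) (n + 1) t
      have h4 := ih (k + 1) (by omega) (n - 1) t
      have h5 := ih k (by omega) n t
      have h6 := PS_succ (k + 1) n t
      have h7 := PS_succ k (n - 1) t
      rw [sub_add_cancel] at h7
      have e3 : n - ((k + 1 : ℕ) : ℤ) = n - 1 - k := by push_cast; ring
      rw [e3] at h6
      rw [h6, ← h3]
      have h8 : s ((k + 2 : ℕ) : ℤ) t = t * s ((k + 1 : ℕ) : ℤ) t - s k t := by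
        rw [h1]; ring
      rw [h8]
      have h9 : (t * s ((k + 1 : ℕ) : ℤ) t - s k t) * s n t =
          s ((k + 1 : ℕ) : ℤ) t * (t * s n t) - s k t * s n t := by ring
      rw [h9, h2, h5, mul_add, h4, h7]
      ring

/-- telescoping -/
theorem tele (p q : ℕ) (σ τ : ℂ) :
    (σ - τ) * ∑ i ∈ range p, ∑ j ∈ range q, s ((p : ℤ) - i + j) σ * s (1 + i + j) τ =
      s ((p : ℤ) + q) σ * s q τ - s q σ * s ((p : ℤ) + q) τ := by
  rw [Finset.sum_comm, Finset.mul_sum]
  have h1 : ∀ j : ℕ, (σ - τ) * ∑ i ∈ range p, s ((p : ℤ) - i + j) σ * s (1 + i + j) τ =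
      (s ((p : ℤ) + j + 1) σ * s (j + 1) τ - s ((p : ℤ) + j) σ * s j τ) -
        (s (j + 1) σ * s ((p : ℤ) + j + 1) τ - s j σ * s ((p : ℤ) + j) τ) := by
    intro j
    rw [Finset.mul_sum]
    have h2 : ∀ i : ℕ, (σ - τ) * (s ((p : ℤ) - i + j) σ * s (1 + i + j) τ) =
        (s ((p : ℤ) - i + j + 1) σ * s (1 + i + j) τ - s ((p : ℤ) - i + j) σ * s (i + j) τ) -
          (s ((p : ℤ) - (i + 1 : ℕ) + j + 1) σ * s (1 + (i + 1 : ℕ) + j) τ -
            s ((p : ℤ) - (i + 1 : ℕ) + j) σ * s ((i + 1 : ℕ) + j) τ) := by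
      intro i
      have r1 := s_rec ((p : ℤ) - i + j) σ
      have r2 := s_rec (1 + i + j) τ
      have e1 : (1 + (i : ℤ) + j - 1) = i + j := by ring
      rw [e1] at r2
      have e2 : ((p : ℤ) - (i + 1 : ℕ) + j + 1) = (p : ℤ) - i + j := by push_cast; ring
      have e3 : (1 + ((i + 1 : ℕ) : ℤ) + j) = 1 + i + j + 1 := by push_cast; ring
      have e4 : ((p : ℤ) - (i + 1 : ℕ) + j) = (p : ℤ) - i + j - 1 := by push_cast; ring
      have e5 : (((i + 1 : ℕ) : ℤ) + j) = 1 + i + j := by push_cast; ring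
      rw [e2, e3, e4, e5]
      linear_combination s (1 + i + j) τ * r1 - s ((p : ℤ) - i + j) σ * r2
    rw [Finset.sum_congr rfl fun i _ => h2 i]
    rw [Finset.sum_range_sub' (fun i : ℕ => s ((p : ℤ) - i + j + 1) σ * s (1 + i + j) τ -
      s ((p : ℤ) - i + j) σ * s (i + j) τ)]
    have e6 : (1 + ((0 : ℕ) : ℤ) + j) = j + 1 := by push_cast; ring
    have e7 : (((0 : ℕ) : ℤ) + j) = j := by push_cast; ring
    have e8 : ((p : ℤ) - p + j + 1) = j + 1 := by ring
    have e9 : (1 + (p : ℤ) + j) = p + j + 1 := by ring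
    have e10 : ((p : ℤ) - p + j) = j := by ring
    have e11 : ((p : ℤ) - ((0 : ℕ) : ℤ) + j) = p + j := by push_cast; ring
    rw [e6, e7, e8, e9, e10, e11]
  rw [Finset.sum_congr rfl fun j _ => h1 j]
  have h3 : ∀ j : ℕ, (s ((p : ℤ) + j + 1) σ * s (j + 1) τ - s ((p : ℤ) + j) σ * s j τ) -
        (s (j + 1) σ * s ((p : ℤ) + j + 1) τ - s j σ * s ((p : ℤ) + j) τ) =
      (s ((p : ℤ) + (j + 1 : ℕ)) σ * s ((j + 1 : ℕ) : ℤ) τ -
        s ((j + 1 : ℕ) : ℤ) σ * s ((p : ℤ) + (j + 1 : ℕ)) τ) -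
      (s ((p : ℤ) + j) σ * s j τ - s j σ * s ((p : ℤ) + j) τ) := by
    intro j
    have e1 : ((p : ℤ) + (j + 1 : ℕ)) = p + j + 1 := by push_cast; ring
    have e2 : ((j + 1 : ℕ) : ℤ) = j + 1 := by push_cast; ring
    rw [e1, e2]
    ring
  rw [Finset.sum_congr rfl fun j _ => h3 j]
  rw [Finset.sum_range_sub (fun j : ℕ => s ((p : ℤ) + j) σ * s j τ - s j σ * s ((p : ℤ) + j) τ)]
  simp [s_zero]

/-- the index set -/
def Qd (p q : ℕ) : Finset (Σ _ : ℕ × ℕ, ℕ × ℕ) :=
  (range p ×ˢ range q).sigma fun ij => range (p - ij.1 + ij.2) ×ˢ range (1 + ij.1 + ij.2)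

/-- `μ` -/
def mu (p : ℕ) (z : Σ _ : ℕ × ℕ, ℕ × ℕ) : ℤ := (p : ℤ) - z.1.1 + z.1.2 - 1 - 2 * z.2.1

/-- `ν` -/
def nu (z : Σ _ : ℕ × ℕ, ℕ × ℕ) : ℤ := (z.1.1 : ℤ) + z.1.2 - 2 * z.2.2

/-- `κ` -/
def ka (p : ℕ) (z : Σ _ : ℕ × ℕ, ℕ × ℕ) : Fin 2 → ℤ := ![mu p z - nu z, nu z]

theorem sum_Qd (p q : ℕ) (f : ℤ → ℤ → ℂ) :
    ∑ z ∈ Qd p q, f (mu p z) (nu z) = ∑ i ∈ range p, ∑ j ∈ range q,
      ∑ i' ∈ range (p - i + j), ∑ j' ∈ range (1 + i + j),
        f ((p : ℤ) - i + j - 1 - 2 * i') ((i : ℤ) + j - 2 * j') := by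
  unfold Qd
  rw [Finset.sum_sigma, Finset.sum_product]
  refine Finset.sum_congr rfl fun i _ => Finset.sum_congr rfl fun j _ => ?_
  rw [Finset.sum_product]
  rfl

/-- the first product -/
theorem prod1 (p q : ℕ) (σ τ : ℂ) (L M : ℤ) :
    (∑ i ∈ range p, ∑ j ∈ range q, s ((p : ℤ) - i + j) σ * s (1 + i + j) τ * (s L σ * s M τ)) =
      ∑ z ∈ Qd p q, s (L + mu p z) σ * s (M + nu z) τ := by
  rw [sum_Qd p q fun a b => s (L + a) σ * s (M + b) τ]
  refine Finset.sum_congr rfl fun i hi => Finset.sum_congr rfl fun j _ => ?_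
  rw [Finset.mem_range] at hi
  have e1 : ((p : ℤ) - i + j) = ((p - i + j : ℕ) : ℤ) := by
    push_cast [Nat.cast_sub hi.le]
    ring
  have e2 : (1 + (i : ℤ) + j) = ((1 + i + j : ℕ) : ℤ) := by push_cast; ring
  rw [e1, e2]
  have h1 := s_mul (p - i + j) L σ
  have h2 := s_mul (1 + i + j) M τ
  have h3 : s ((p - i + j : ℕ) : ℤ) σ * s ((1 + i + j : ℕ) : ℤ) τ * (s L σ * s M τ) =
      (s ((p - i + j : ℕ) : ℤ) σ * s L σ) * (s ((1 + i + j : ℕ) : ℤ) τ * s M τ) := by ring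
  rw [h3, h1, h2]
  unfold PS
  rw [Finset.sum_mul_sum]
  refine Finset.sum_congr rfl fun i' _ => Finset.sum_congr rfl fun j' _ => ?_
  congr 2
  · ring
  · push_cast
    ring

/-- the second product -/
theorem prod2 (p q : ℕ) (σ τ : ℂ) (L M : ℤ) :
    (∑ i ∈ range p, ∑ j ∈ range q, s ((p : ℤ) - i + j) σ * s (1 + i + j) τ * (s M σ * s L τ)) =
      ∑ z ∈ Qd p q, s (M + nu z) σ * s (L + mu p z) τ := by
  rw [sum_Qd p q fun a b => s (M + b) σ * s (L + a) τ]
  rw [← Finset.sum_range_reflect]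
  refine Finset.sum_congr rfl fun i hi => Finset.sum_congr rfl fun j _ => ?_
  rw [Finset.mem_range] at hi
  have e1 : ((p : ℤ) - (p - 1 - i : ℕ) + j) = ((1 + i + j : ℕ) : ℤ) := by
    rw [Nat.cast_sub (by omega), Nat.cast_sub (by omega)]
    push_cast
    ring
  have e2 : (1 + ((p - 1 - i : ℕ) : ℤ) + j) = ((p - i + j : ℕ) : ℤ) := by
    rw [Nat.cast_sub (by omega), Nat.cast_sub (by omega)]
    push_cast [Nat.cast_sub hi.le]
    ring
  rw [e1, e2]
  have h1 := s_mul (1 + i + j) M σ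
  have h2 := s_mul (p - i + j) L τ
  have h3 : s ((1 + i + j : ℕ) : ℤ) σ * s ((p - i + j : ℕ) : ℤ) τ * (s M σ * s L τ) =
      (s ((1 + i + j : ℕ) : ℤ) σ * s M σ) * (s ((p - i + j : ℕ) : ℤ) τ * s L τ) := by ring
  rw [h3, h1, h2]
  unfold PS
  rw [Finset.sum_mul_sum, Finset.sum_comm]
  refine Finset.sum_congr rfl fun i' _ => Finset.sum_congr rfl fun j' _ => ?_
  congr 2
  · push_cast
    ring
  · push_cast [Nat.cast_sub hi.le]
    ring

theorem cont_psC (l : Fin 2 → ℤ) : Continuous fun x => psC x l := by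
  have hcm : Continuous cm := by
    unfold cm
    refine continuous_matrix fun i j => ?_
    fin_cases i <;> fin_cases j <;> simp <;> fun_prop
  have hv : ∀ (n : ℤ) (i : Fin 2), Continuous fun x => vC x n i := by
    intro n i
    unfold vC
    have h1 : Continuous fun x => Polynomial.aeval (cm x) (Polynomial.Chebyshev.S ℤ (n - 1)) :=
      (Polynomial.continuous_aeval _).comp hcm
    exact h1.matrix_elem i 0
  unfold psC
  exact ((hv _ _).mul (hv _ _)).sub ((hv _ _).mul (hv _ _))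

theorem prod_formula (hEXT : S_EXT) (hCHC : S_CHC) (p q : ℕ) (x : Fin 2 → ℂ) (l : Fin 2 → ℤ) :
    psC x ![(p : ℤ), (q : ℤ)] * psC x l = ∑ z ∈ Qd p q, psC x (l + ka p z) := by
  have hF : ∀ x : Fin 2 → ℂ, psC ![x 0, x 1 + 1] ![(p : ℤ), (q : ℤ)] * psC ![x 0, x 1 + 1] l -
      ∑ z ∈ Qd p q, psC ![x 0, x 1 + 1] (l + ka p z) = 0 := by
    apply hEXT
    · have hx : Continuous fun x : Fin 2 → ℂ => (![x 0, x 1 + 1] : Fin 2 → ℂ) := by
        refine continuous_pi fun i => ?_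
        fin_cases i <;> simp <;> fun_prop
      refine Continuous.sub ?_ ?_
      · exact ((cont_psC _).comp hx).mul ((cont_psC _).comp hx)
      · exact continuous_finsetSum _ fun z _ => (cont_psC _).comp hx
    · intro u v huv
      have hne : u - v ≠ 0 := sub_ne_zero.2 huv
      simp only [Matrix.cons_val_zero, Matrix.cons_val_one]
      apply mul_left_cancel₀ hne
      rw [mul_zero, mul_sub]
      have h1 := hCHC u v ![(p : ℤ), (q : ℤ)]
      have h2 := tele p q u v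
      have h3 : psC ![u + v, u * v + 1] ![(p : ℤ), (q : ℤ)] =
          ∑ i ∈ range p, ∑ j ∈ range q, s ((p : ℤ) - i + j) u * s (1 + i + j) v := by
        apply mul_left_cancel₀ hne
        rw [h1, h2]
        rfl
      have h4 := hCHC u v l
      rw [Finset.mul_sum]
      have h5 : ∀ z : Σ _ : ℕ × ℕ, ℕ × ℕ, (u - v) * psC ![u + v, u * v + 1] (l + ka p z) =
          s (l 0 + l 1 + mu p z) u * s (l 1 + nu z) v -
            s (l 1 + nu z) u * s (l 0 + l 1 + mu p z) v := by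
        intro z
        rw [hCHC u v (l + ka p z)]
        unfold s
        have e1 : (l + ka p z) 0 + (l + ka p z) 1 = l 0 + l 1 + mu p z := by
          simp [ka]
          ring
        have e2 : (l + ka p z) 1 = l 1 + nu z := by
          simp [ka]
        rw [e1, e2]
      rw [Finset.sum_congr rfl fun z _ => h5 z, Finset.sum_sub_distrib, ← prod1, ← prod2]
      have h6 : (u - v) * (psC ![u + v, u * v + 1] ![(p : ℤ), (q : ℤ)] *
          psC ![u + v, u * v + 1] l) = psC ![u + v, u * v + 1] ![(p : ℤ), (q : ℤ)] *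
            ((u - v) * psC ![u + v, u * v + 1] l) := by ring
      have h7 : (u - v) * psC ![u + v, u * v + 1] l = s (l 0 + l 1) u * s (l 1) v -
          s (l 1) u * s (l 0 + l 1) v := h4
      rw [h6, h7, h3, mul_sub, Finset.sum_mul, Finset.sum_mul]
      simp only [Finset.sum_mul]
      ring
  have h := hF ![x 0, x 1 - 1]
  simp only [Matrix.cons_val_zero, Matrix.cons_val_one, sub_add_cancel] at h
  have hx : (![x 0, x 1] : Fin 2 → ℂ) = x := by
    funext i
    fin_cases i <;> rfl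
  rw [hx] at h
  exact sub_eq_zero.1 h

theorem card_fib (p q : ℕ) (κ : Fin 2 → ℤ) :
    ((Qd p q).filter fun z => ka p z = κ).card ≤ p * q := by
  have h1 : ((Qd p q).filter fun z => ka p z = κ).card ≤ (range p ×ˢ range q).card := by
    apply Finset.card_le_card_of_injOn (fun z => z.1)
    · intro z hz
      rw [Finset.mem_coe, Finset.mem_filter] at hz
      exact (Finset.mem_sigma.1 hz.1).1
    · intro z hz z' hz' he
      rw [Finset.mem_coe, Finset.mem_filter] at hz hz'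
      obtain ⟨⟨i, j⟩, ⟨i1, j1⟩⟩ := z
      obtain ⟨⟨i', j'⟩, ⟨i1', j1'⟩⟩ := z'
      simp only at he
      obtain ⟨rfl, rfl⟩ := Prod.mk.inj he
      have h2 := hz.2.trans hz'.2.symm
      have h3 := congrFun h2 0
      have h4 := congrFun h2 1
      simp only [ka, mu, nu, Matrix.cons_val_zero, Matrix.cons_val_one] at h3 h4
      have h5 : j1 = j1' := by omega
      have h6 : i1 = i1' := by omega
      subst h5
      subst h6
      rfl
  simpa using h1

end MKC

open MKC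

theorem t_MKC : M_MKC := by
  intro hEXT hCHC
  refine ⟨27, fun a ha => ?_⟩
  obtain ⟨p, hp⟩ : ∃ p : ℕ, a 0 = p := ⟨(a 0).toNat, by have := ha 0; omega⟩
  obtain ⟨q, hq⟩ : ∃ q : ℕ, a 1 = q := ⟨(a 1).toNat, by have := ha 1; omega⟩
  have hp1 : 1 ≤ p := by have := ha 0; omega
  have hq1 : 1 ≤ q := by have := ha 1; omega
  have haa : a = ![(p : ℤ), (q : ℤ)] := by
    funext i
    fin_cases i
    · exact hp
    · exact hq
  have hsz : sz a = 1 + (p : ℝ) + q := by
    unfold sz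
    rw [Fin.sum_univ_two, hp, hq]
    simp
    ring
  refine ⟨(Qd p q).image (ka p), fun κ => (((Qd p q).filter fun z => ka p z = κ).card : ℤ),
    fun x l => ?_, fun κ hκ => ⟨?_, ?_⟩⟩
  · show psC x a * psC x l = _
    rw [haa, prod_formula hEXT hCHC p q x l]
    rw [Finset.sum_comp (fun κ => psC x (l + κ)) (ka p)]
    refine Finset.sum_congr rfl fun κ _ => ?_
    simp
    left
    rfl
  · have h1 := card_fib p q κ
    have h2 : |((((Qd p q).filter fun z => ka p z = κ).card : ℤ) : ℝ)| ≤ (p : ℝ) * q := by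
      rw [Int.cast_natCast, abs_of_nonneg (by positivity)]
      exact_mod_cast h1
    have h3 : D2.dim a = (p : ℤ) * q * (p + q) * (p + 2 * q) / 6 := by
      show a 0 * a 1 * (a 0 + a 1) * (a 0 + 2 * a 1) / 6 = _
      rw [hp, hq]
    rw [h3, hsz]
    set X : ℤ := (p : ℤ) * q * (p + q) * (p + 2 * q) with hX
    have hp1' : (1 : ℤ) ≤ p := by exact_mod_cast hp1
    have hq1' : (1 : ℤ) ≤ q := by exact_mod_cast hq1
    have hX6 : 6 ≤ X := by
      have h4 : (1 : ℤ) ≤ p * q := by nlinarith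
      have h5 : (2 : ℤ) ≤ p * q * (p + q) := by nlinarith
      nlinarith
    have h12 : X ≤ 12 * (X / 6) := by omega
    have h12' : (X : ℝ) ≤ 12 * ((X / 6 : ℤ) : ℝ) := by exact_mod_cast h12
    have hXr : (X : ℝ) = (p : ℝ) * q * (p + q) * (p + 2 * q) := by
      rw [hX]
      push_cast
      ring
    have hpr : (1 : ℝ) ≤ p := by exact_mod_cast hp1
    have hqr : (1 : ℝ) ≤ q := by exact_mod_cast hq1
    have h6 : (1 + (p : ℝ) + q) ^ 2 ≤ 9 / 4 * ((p + q) * (p + 2 * q)) := by nlinarith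
    calc |((((Qd p q).filter fun z => ka p z = κ).card : ℤ) : ℝ)| * (1 + (p : ℝ) + q) ^ 2 ≤
          (p : ℝ) * q * (9 / 4 * ((p + q) * (p + 2 * q))) :=
          mul_le_mul h2 h6 (by positivity) (by positivity)
      _ = 9 / 4 * (X : ℝ) := by rw [hXr]; ring
      _ ≤ 27 * ((X / 6 : ℤ) : ℝ) := by linarith
  · obtain ⟨z, hz, rfl⟩ := Finset.mem_image.1 hκ
    rw [hsz]
    unfold sz
    rw [Fin.sum_univ_two]
    obtain ⟨⟨i, j⟩, ⟨i', j'⟩⟩ := z
    unfold Qd at hz
    rw [Finset.mem_sigma, Finset.mem_product, Finset.mem_product] at hz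
    simp only [Finset.mem_range] at hz
    obtain ⟨⟨hi, hj⟩, hi', hj'⟩ := hz
    simp only [ka, mu, nu, Matrix.cons_val_zero, Matrix.cons_val_one]
    have h1 : |((p : ℤ) - i + j - 1 - 2 * i' - ((i : ℤ) + j - 2 * j'))| ≤ 2 * (p + q) := by
      rw [abs_le]
      constructor <;> omega
    have h2 : |((i : ℤ) + j - 2 * j')| ≤ p + q := by
      rw [abs_le]
      constructor <;> omega
    have h1' : |((((p : ℤ) - i + j - 1 - 2 * i' - ((i : ℤ) + j - 2 * j') : ℤ)) : ℝ)| ≤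
        2 * ((p : ℝ) + q) := by
      rw [← Int.cast_abs]
      exact_mod_cast h1
    have h2' : |((((i : ℤ) + j - 2 * j' : ℤ)) : ℝ)| ≤ (p : ℝ) + q := by
      rw [← Int.cast_abs]
      exact_mod_cast h2
    have hpr : (1 : ℝ) ≤ p := by exact_mod_cast hp1
    have hqr : (1 : ℝ) ≤ q := by exact_mod_cast hq1
    linarith

end

end STZ
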