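import Pool.Agent.STZ.StmtsK

/-!
# Module MKG: the bound for the multiplicities of the weights of `G₂`
-/

namespace STZ

open MeasureTheory Matrix

open scoped ComplexConjugate Matrix Real

noncomputable section

namespace MKG

/-- the box of radius `n` -/
abbrev Bx (n : ℕ) : Finset (Fin 3 → ℤ) :=
  Fintype.piFinset (fun _ : Fin 3 => Finset.Icc (-(n : ℤ)) n)

theorem mem_Bx {n : ℕ} {κ : Fin 3 → ℤ} : κ ∈ Bx n ↔ ∀ i, -(n : ℤ) ≤ κ i ∧ κ i ≤ n := by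
  rw [Fintype.mem_piFinset]
  simp only [Finset.mem_Icc]

theorem mlt_eq (a b : ℕ) (κ : Fin 3 → ℤ) : mlt a b κ =
    if κ 0 + κ 1 + κ 2 = (a : ℤ) - b then
      max 0 ((a : ℤ) + 1 - (max (κ 0) 0 + max (κ 1) 0 + max (κ 2) 0)) else 0 := by
  rw [mlt, Fin.sum_univ_three, Fin.sum_univ_three]

theorem mlt_nonneg (a b : ℕ) (κ : Fin 3 → ℤ) : 0 ≤ mlt a b κ := by
  rw [mlt_eq]
  split_ifs <;> omega

theorem mlt_le_left (a b : ℕ) (κ : Fin 3 → ℤ) : mlt a b κ ≤ a + 1 := by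
  rw [mlt_eq]
  split_ifs <;> omega

theorem mlt_le_right (a b : ℕ) (κ : Fin 3 → ℤ) : mlt a b κ ≤ b + 1 := by
  rw [mlt_eq]
  split_ifs <;> omega

theorem mlt_ne {a b : ℕ} {κ : Fin 3 → ℤ} (h : mlt a b κ ≠ 0) :
    κ 0 + κ 1 + κ 2 = (a : ℤ) - b ∧ κ 0 ≤ a ∧ κ 1 ≤ a ∧ κ 2 ≤ a ∧ -(b : ℤ) ≤ κ 0 ∧
      -(b : ℤ) ≤ κ 1 ∧ -(b : ℤ) ≤ κ 2 := by
  rw [mlt_eq] at h
  split_ifs at h with h1
  · omega
  · exact absurd rfl h

theorem mlt_swap (a b : ℕ) (κ : Fin 3 → ℤ) : mlt a b ![κ 1, κ 0, κ 2] = mlt a b κ := by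
  rw [mlt_eq, mlt_eq]
  simp only [Matrix.cons_val_zero, Matrix.cons_val_one, Matrix.cons_val]
  split_ifs <;> omega

theorem mlt_rev (a b : ℕ) (κ : Fin 3 → ℤ) : mlt a b ![-κ 2, -κ 1, -κ 0] = mlt b a κ := by
  rw [mlt_eq, mlt_eq]
  simp only [Matrix.cons_val_zero, Matrix.cons_val_one, Matrix.cons_val]
  split_ifs <;> omega

/-- the coefficient of a pair -/
def cf (p q : ℕ) (z : (Fin 3 → ℤ) × (Fin 3 → ℤ)) : ℤ :=
  mlt p q z.1 * mlt ((q : ℤ) + z.1 0).toNat ((q : ℤ) + z.1 1).toNat z.2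

/-- the set of pairs -/
def B2 (p q : ℕ) : Finset ((Fin 3 → ℤ) × (Fin 3 → ℤ)) := Bx (p + q) ×ˢ Bx (2 * (p + q))

/-- the weight of a pair -/
def kap (μ : Fin 3 → ℤ) : Fin 2 → ℤ := ![(μ 0 - μ 1) - (μ 1 - μ 2), μ 1 - μ 2]

theorem XX_add (hA : S_ALT) (u v : ℂ) (a b : ℤ) (μ : Fin 3 → ℤ) :
    XX u v (![a + b, b, 0] + μ) = ps u v (a + (μ 0 - μ 1)) (b + (μ 1 - μ 2)) := by
  rw [ps, ← hA.shift u v (![a + b, b, 0] + μ) (-μ 2)]
  congr 1
  funext i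
  fin_cases i
  · simp
    ring
  · simp
    ring
  · simp

theorem eq1 (hA : S_ALT) (hM : S_MULT) (hB : S_BRG) (ψ : (Fin 2 → ℂ) → (Fin 2 → ℤ) → ℂ)
    (hψ : PGF ψ) (p q : ℕ) (u v : ℂ) (a b : ℤ) :
    ψ ![1 + u + v, u * v + u + v - 1] ![(p : ℤ) + 1, (q : ℤ) + 1] * ps u v a b =
      ∑ z ∈ B2 p q, (cf p q z : ℂ) * ps u v (a + (z.2 0 - z.2 1)) (b + (z.2 1 - z.2 2)) := by
  rw [hB ψ hψ p q u v, B2, Finset.sum_mul, Finset.sum_product]
  refine Finset.sum_congr rfl fun κ _ => ?_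
  by_cases h : mlt p q κ = 0
  · simp only [cf, h, zero_mul, Int.cast_zero, Finset.sum_const_zero]
  · obtain ⟨h0, h1, h2, h3, h4, h5, h6⟩ := mlt_ne h
    have e0 : (q : ℤ) + 1 + κ 0 = (((q : ℤ) + κ 0).toNat : ℤ) + 1 := by omega
    have e1 : (q : ℤ) + 1 + κ 1 = (((q : ℤ) + κ 1).toNat : ℤ) + 1 := by omega
    have hle : ((q : ℤ) + κ 0).toNat + ((q : ℤ) + κ 1).toNat ≤ 2 * (p + q) := by omega
    have h7 := hM _ _ (2 * (p + q)) hle u v ![a + b, b, 0]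
    have h8 : ps u v a b = XX u v ![a + b, b, 0] := rfl
    rw [e0, e1, h8, mul_assoc, h7, Finset.mul_sum]
    refine Finset.sum_congr rfl fun μ _ => ?_
    rw [XX_add hA, cf, Int.cast_mul, mul_assoc]

/-- the involution of the pairs -/
def inv (z : (Fin 3 → ℤ) × (Fin 3 → ℤ)) : (Fin 3 → ℤ) × (Fin 3 → ℤ) :=
  (![z.1 1, z.1 0, z.1 2], ![-z.2 2, -z.2 1, -z.2 0])

theorem inv_inv (z : (Fin 3 → ℤ) × (Fin 3 → ℤ)) : inv (inv z) = z := by
  refine Prod.ext ?_ ?_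
  · funext i
    fin_cases i <;> simp [inv]
  · funext i
    fin_cases i <;> simp [inv]

theorem inv_mem {p q : ℕ} {z : (Fin 3 → ℤ) × (Fin 3 → ℤ)} (h : z ∈ B2 p q) : inv z ∈ B2 p q := by
  rw [B2, Finset.mem_product, mem_Bx, mem_Bx] at h ⊢
  obtain ⟨h1, h2⟩ := h
  have a0 := h1 0
  have a1 := h1 1
  have a2 := h1 2
  have b0 := h2 0
  have b1 := h2 1
  have b2 := h2 2
  refine ⟨fun i => ?_, fun i => ?_⟩
  · fin_cases i
    · exact a1
    · exact a0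
    · exact a2
  · fin_cases i
    · change _ ≤ -z.2 2 ∧ -z.2 2 ≤ _
      omega
    · change _ ≤ -z.2 1 ∧ -z.2 1 ≤ _
      omega
    · change _ ≤ -z.2 0 ∧ -z.2 0 ≤ _
      omega

theorem cf_inv (p q : ℕ) (z : (Fin 3 → ℤ) × (Fin 3 → ℤ)) : cf p q (inv z) = cf p q z := by
  have h1 : (inv z).1 0 = z.1 1 := rfl
  have h2 : (inv z).1 1 = z.1 0 := rfl
  rw [cf, h1, h2, cf]
  change mlt p q ![z.1 1, z.1 0, z.1 2] * mlt _ _ ![-z.2 2, -z.2 1, -z.2 0] = _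
  rw [mlt_swap, mlt_rev]

theorem eq2 (u v : ℂ) (p q : ℕ) (a b : ℤ) :
    ∑ z ∈ B2 p q, (cf p q z : ℂ) * ps u v (a + (z.2 0 - z.2 1)) (b + (z.2 1 - z.2 2)) =
      ∑ z ∈ B2 p q, (cf p q z : ℂ) * ps u v (a + (z.2 1 - z.2 2)) (b + (z.2 0 - z.2 1)) := by
  refine Finset.sum_nbij' inv inv (fun z hz => inv_mem hz) (fun z hz => inv_mem hz)
    (fun z _ => inv_inv z) (fun z _ => inv_inv z) (fun z _ => ?_)
  have h0 : (inv z).2 0 = -z.2 2 := rfl
  have h1 : (inv z).2 1 = -z.2 1 := rfl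
  have h2 : (inv z).2 2 = -z.2 0 := rfl
  rw [cf_inv, h0, h1, h2]
  congr 2
  · ring
  · ring

theorem eq3 (hA : S_ALT) (hM : S_MULT) (hB : S_BRG) (ψ : (Fin 2 → ℂ) → (Fin 2 → ℤ) → ℂ)
    (hψ : PGF ψ) (p q : ℕ) (u v : ℂ) (huv : u ≠ v) (l : Fin 2 → ℤ) :
    ψ ![1 + u + v, u * v + u + v - 1] ![(p : ℤ) + 1, (q : ℤ) + 1] *
        ψ ![1 + u + v, u * v + u + v - 1] l =
      ∑ z ∈ B2 p q, (cf p q z : ℂ) * ψ ![1 + u + v, u * v + u + v - 1] (l + kap z.2) := by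
  have h1 : u - v ≠ 0 := sub_ne_zero.2 huv
  refine mul_right_cancel₀ h1 ?_
  rw [mul_assoc, hψ.eq u v l, mul_sub, eq1 hA hM hB ψ hψ, eq1 hA hM hB ψ hψ, eq2 u v p q (l 1),
    Finset.sum_mul, ← Finset.sum_sub_distrib]
  refine Finset.sum_congr rfl fun z _ => ?_
  rw [mul_assoc, hψ.eq u v (l + kap z.2), ← mul_sub]
  have h2 : (l + kap z.2) 0 + (l + kap z.2) 1 = l 0 + l 1 + (z.2 0 - z.2 1) := by
    simp only [Pi.add_apply, kap, Matrix.cons_val_zero, Matrix.cons_val_one]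
    ring
  have h3 : (l + kap z.2) 1 = l 1 + (z.2 1 - z.2 2) := rfl
  rw [h2, h3]

theorem cont (ψ : (Fin 2 → ℂ) → (Fin 2 → ℤ) → ℂ) (hψ : PGF ψ) (l : Fin 2 → ℤ) :
    Continuous (fun y : Fin 2 → ℂ => ψ ![1 + y 0, y 1 + y 0 - 1] l) := by
  obtain ⟨F, hF⟩ := hψ.poly l
  have h1 : (fun y : Fin 2 → ℂ => ψ ![1 + y 0, y 1 + y 0 - 1] l) = (fun y : Fin 2 → ℂ =>
      MvPolynomial.eval ![1 + y 0, y 1 + y 0 - 1] (MvPolynomial.map (Int.castRingHom ℂ) F)) := by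
    funext y
    rw [hF, MvPolynomial.aeval_def, MvPolynomial.eval₂_eq_eval_map]
    rfl
  rw [h1]
  refine (MvPolynomial.continuous_eval _).comp ?_
  refine continuous_pi fun i => ?_
  fin_cases i
  · simp only [Fin.zero_eta, Matrix.cons_val_zero]
    fun_prop
  · simp only [Fin.mk_one, Matrix.cons_val_one]
    fun_prop

theorem eq4 (hA : S_ALT) (hM : S_MULT) (hE : S_EXT) (hB : S_BRG)
    (ψ : (Fin 2 → ℂ) → (Fin 2 → ℤ) → ℂ) (hψ : PGF ψ) (p q : ℕ) (x : Fin 2 → ℂ) (l : Fin 2 → ℤ) :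
    ψ x ![(p : ℤ) + 1, (q : ℤ) + 1] * ψ x l =
      ∑ z ∈ B2 p q, (cf p q z : ℂ) * ψ x (l + kap z.2) := by
  have h1 := hE (fun y => ψ ![1 + y 0, y 1 + y 0 - 1] ![(p : ℤ) + 1, (q : ℤ) + 1] *
      ψ ![1 + y 0, y 1 + y 0 - 1] l -
      ∑ z ∈ B2 p q, (cf p q z : ℂ) * ψ ![1 + y 0, y 1 + y 0 - 1] (l + kap z.2)) ?_ ?_
    ![x 0 - 1, x 1 - x 0 + 2]
  · simp only [Matrix.cons_val_zero, Matrix.cons_val_one] at h1
    have h2 : (![1 + (x 0 - 1), x 1 - x 0 + 2 + (x 0 - 1) - 1] : Fin 2 → ℂ) = x := by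
      funext i
      fin_cases i
      · simp
      · simp
        ring
    rw [h2] at h1
    exact sub_eq_zero.1 h1
  · refine ((cont ψ hψ _).mul (cont ψ hψ _)).sub ?_
    exact continuous_finsetSum _ fun z _ => continuous_const.mul (cont ψ hψ _)
  · intro u v huv
    simp only [Matrix.cons_val_zero, Matrix.cons_val_one]
    have h2 : (![1 + (u + v), u * v + (u + v) - 1] : Fin 2 → ℂ) =
        ![1 + u + v, u * v + u + v - 1] := by
      rw [← add_assoc, ← add_assoc]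
    rw [h2, eq3 hA hM hB ψ hψ p q u v huv l, sub_self]

/-- the multiplicities -/
def mm (p q : ℕ) (t : Fin 2 → ℤ) : ℤ := ∑ z ∈ (B2 p q).filter (fun z => kap z.2 = t), cf p q z

theorem inner_le (P Q n : ℕ) (t : Fin 2 → ℤ) (s : Finset (Fin 3 → ℤ)) (hP : P ≤ n) :
    ∑ μ ∈ s.filter (fun μ => kap μ = t), mlt P Q μ ≤ n + 1 := by
  have h1 : ∑ μ ∈ s.filter (fun μ => kap μ = t), mlt P Q μ =
      ∑ μ ∈ (s.filter (fun μ => kap μ = t)).filter (fun μ => mlt P Q μ ≠ 0), mlt P Q μ := by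
    rw [Finset.sum_filter_ne_zero]
  have h2 : ((s.filter (fun μ => kap μ = t)).filter (fun μ => mlt P Q μ ≠ 0)).card ≤ 1 := by
    rw [Finset.card_le_one]
    intro μ hμ ν hν
    rw [Finset.mem_filter, Finset.mem_filter] at hμ hν
    have e1 := (mlt_ne hμ.2).1
    have e2 := (mlt_ne hν.2).1
    have e3 : kap μ = kap ν := hμ.1.2.trans hν.1.2.symm
    have e4 := congrFun e3 0
    have e5 := congrFun e3 1
    simp only [kap, Matrix.cons_val_zero, Matrix.cons_val_one] at e4 e5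
    funext i
    fin_cases i
    · change μ 0 = ν 0
      omega
    · change μ 1 = ν 1
      omega
    · change μ 2 = ν 2
      omega
  rw [h1]
  have h3 : ∀ μ ∈ (s.filter (fun μ => kap μ = t)).filter (fun μ => mlt P Q μ ≠ 0),
      mlt P Q μ ≤ (n : ℤ) + 1 := by
    intro μ _
    have := mlt_le_left P Q μ
    omega
  refine (Finset.sum_le_card_nsmul _ _ _ h3).trans ?_
  rw [nsmul_eq_mul]
  have h4 : (((s.filter (fun μ => kap μ = t)).filter (fun μ => mlt P Q μ ≠ 0)).card : ℤ) ≤ 1 := by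
    exact_mod_cast h2
  nlinarith

theorem card_le (p q : ℕ) :
    (((Bx (p + q)).filter (fun κ => mlt p q κ ≠ 0)).card : ℤ) ≤ (2 * ((p : ℤ) + q) + 1) ^ 2 := by
  have h1 : ((Bx (p + q)).filter (fun κ => mlt p q κ ≠ 0)).card ≤
      (Finset.Icc (-((p + q : ℕ) : ℤ)) (p + q : ℕ) ×ˢ
        Finset.Icc (-((p + q : ℕ) : ℤ)) (p + q : ℕ)).card := by
    refine Finset.card_le_card_of_injOn (fun κ => (κ 0, κ 1)) ?_ ?_
    · intro κ hκ
      have h2 := (Finset.mem_filter.1 (Finset.mem_coe.1 hκ)).1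
      rw [mem_Bx] at h2
      rw [Finset.mem_coe, Finset.mem_product, Finset.mem_Icc, Finset.mem_Icc]
      exact ⟨h2 0, h2 1⟩
    · intro κ hκ ν hν h
      have h2 := (mlt_ne (Finset.mem_filter.1 (Finset.mem_coe.1 hκ)).2).1
      have h3 := (mlt_ne (Finset.mem_filter.1 (Finset.mem_coe.1 hν)).2).1
      have h4 : κ 0 = ν 0 := (Prod.ext_iff.1 h).1
      have h5 : κ 1 = ν 1 := (Prod.ext_iff.1 h).2
      funext i
      fin_cases i
      · exact h4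
      · exact h5
      · change κ 2 = ν 2
        omega
  rw [Finset.card_product, Int.card_Icc] at h1
  have h2 : (((p + q : ℕ) : ℤ) + 1 - -((p + q : ℕ) : ℤ)).toNat = 2 * (p + q) + 1 := by omega
  rw [h2] at h1
  have h3 : (((Bx (p + q)).filter (fun κ => mlt p q κ ≠ 0)).card : ℤ) ≤
      ((2 * (p + q) + 1) * (2 * (p + q) + 1) : ℕ) := by
    exact_mod_cast h1
  push_cast at h3
  nlinarith

theorem mm_nonneg (p q : ℕ) (t : Fin 2 → ℤ) : 0 ≤ mm p q t :=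
  Finset.sum_nonneg fun _ _ => mul_nonneg (mlt_nonneg _ _ _) (mlt_nonneg _ _ _)

theorem mm_le (p q : ℕ) (t : Fin 2 → ℤ) :
    mm p q t ≤ (2 * ((p : ℤ) + q) + 1) ^ 2 * ((min p q + 1 : ℤ) * ((p : ℤ) + q + 1)) := by
  have h1 : mm p q t = ∑ κ ∈ Bx (p + q), mlt p q κ *
      ∑ μ ∈ (Bx (2 * (p + q))).filter (fun μ => kap μ = t),
        mlt ((q : ℤ) + κ 0).toNat ((q : ℤ) + κ 1).toNat μ := by
    rw [mm, Finset.sum_filter, B2, Finset.sum_product]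
    refine Finset.sum_congr rfl fun κ _ => ?_
    rw [Finset.sum_filter, Finset.mul_sum]
    refine Finset.sum_congr rfl fun μ _ => ?_
    rw [cf]
    split_ifs
    · rfl
    · rw [mul_zero]
  have h2 : ∑ κ ∈ Bx (p + q), mlt p q κ *
      ∑ μ ∈ (Bx (2 * (p + q))).filter (fun μ => kap μ = t),
        mlt ((q : ℤ) + κ 0).toNat ((q : ℤ) + κ 1).toNat μ =
      ∑ κ ∈ (Bx (p + q)).filter (fun κ => mlt p q κ ≠ 0), mlt p q κ *
        ∑ μ ∈ (Bx (2 * (p + q))).filter (fun μ => kap μ = t),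
          mlt ((q : ℤ) + κ 0).toNat ((q : ℤ) + κ 1).toNat μ := by
    symm
    refine Finset.sum_filter_of_ne fun κ _ h => ?_
    exact left_ne_zero_of_mul h
  rw [h1, h2]
  have h3 : ∀ κ ∈ (Bx (p + q)).filter (fun κ => mlt p q κ ≠ 0), mlt p q κ *
        ∑ μ ∈ (Bx (2 * (p + q))).filter (fun μ => kap μ = t),
          mlt ((q : ℤ) + κ 0).toNat ((q : ℤ) + κ 1).toNat μ ≤
      (min p q + 1 : ℤ) * ((p : ℤ) + q + 1) := by
    intro κ hκ
    have h4 := (Finset.mem_filter.1 hκ).2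
    obtain ⟨-, h5, -⟩ := mlt_ne h4
    have h6 : mlt p q κ ≤ (min p q + 1 : ℤ) := by
      have := mlt_le_left p q κ
      have := mlt_le_right p q κ
      omega
    have h7 := inner_le ((q : ℤ) + κ 0).toNat ((q : ℤ) + κ 1).toNat (p + q) t (Bx (2 * (p + q)))
      (by omega)
    have h8 : (((p + q : ℕ) : ℤ) + 1) = (p : ℤ) + q + 1 := by push_cast; ring
    rw [h8] at h7
    refine mul_le_mul h6 h7 ?_ ?_
    · exact Finset.sum_nonneg fun _ _ => mlt_nonneg _ _ _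
    · omega
  refine (Finset.sum_le_card_nsmul _ _ _ h3).trans ?_
  rw [nsmul_eq_mul]
  refine mul_le_mul_of_nonneg_right (card_le p q) ?_
  have : (0 : ℤ) ≤ min (p : ℤ) q := by omega
  positivity

theorem final_int (P Q m : ℤ) (hP : 1 ≤ P) (hQ : 1 ≤ Q)
    (hm : m ≤ (2 * (P + Q) - 3) ^ 2 * (min P Q * (P + Q - 1))) :
    m * (1 + P + Q) ^ 2 ≤
      3840 * (P * Q * (P + Q) * (P + 2 * Q) * (P + 3 * Q) * (2 * P + 3 * Q) / 120) := by
  set X := P * Q * (P + Q) * (P + 2 * Q) * (P + 3 * Q) * (2 * P + 3 * Q) with hX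
  have hs : 2 ≤ P + Q := by omega
  have hPQ : 1 ≤ P * Q := by nlinarith
  -- bound of the minimum
  have h1 : min P Q * (P + Q - 1) ≤ 2 * (P * Q) := by
    rcases le_total P Q with h | h
    · rw [min_eq_left h]
      nlinarith
    · rw [min_eq_right h]
      nlinarith
  have h2 : (2 * (P + Q) - 3) ^ 2 ≤ 4 * (P + Q) ^ 2 := by nlinarith
  have h3 : m ≤ 8 * (P + Q) ^ 2 * (P * Q) := by
    have h4 : (2 * (P + Q) - 3) ^ 2 * (min P Q * (P + Q - 1)) ≤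
        4 * (P + Q) ^ 2 * (2 * (P * Q)) := by
      refine mul_le_mul h2 h1 ?_ (by positivity)
      have : 0 ≤ min P Q := le_min (by omega) (by omega)
      exact mul_nonneg this (by omega)
    linarith
  have h5 : (1 + P + Q) ^ 2 ≤ 4 * (P + Q) ^ 2 := by nlinarith
  have h6 : m * (1 + P + Q) ^ 2 ≤ 32 * ((P * Q) * (P + Q) ^ 4) := by
    have h7 : m * (1 + P + Q) ^ 2 ≤ 8 * (P + Q) ^ 2 * (P * Q) * (1 + P + Q) ^ 2 :=
      mul_le_mul_of_nonneg_right h3 (by positivity)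
    have h8 : 8 * (P + Q) ^ 2 * (P * Q) * (1 + P + Q) ^ 2 ≤
        8 * (P + Q) ^ 2 * (P * Q) * (4 * (P + Q) ^ 2) :=
      mul_le_mul_of_nonneg_left h5 (by positivity)
    calc m * (1 + P + Q) ^ 2 ≤ _ := h7
      _ ≤ _ := h8
      _ = 32 * ((P * Q) * (P + Q) ^ 4) := by ring
  -- the product
  have h9 : 2 * ((P * Q) * (P + Q) ^ 4) ≤ X := by
    have g1 : P + Q ≤ P + 2 * Q := by omega
    have g2 : P + Q ≤ P + 3 * Q := by omega
    have g3 : 2 * (P + Q) ≤ 2 * P + 3 * Q := by omega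
    have g0 : 0 ≤ P + Q := by omega
    have g4 : (P + Q) * (P + Q) ≤ (P + 2 * Q) * (P + 3 * Q) :=
      mul_le_mul g1 g2 g0 (by omega)
    have g5 : (P + Q) * (P + Q) * (2 * (P + Q)) ≤ (P + 2 * Q) * (P + 3 * Q) * (2 * P + 3 * Q) :=
      mul_le_mul g4 g3 (by positivity) (by positivity)
    have g6 := mul_le_mul_of_nonneg_left g5 (show 0 ≤ P * Q * (P + Q) by positivity)
    calc 2 * ((P * Q) * (P + Q) ^ 4) = P * Q * (P + Q) * ((P + Q) * (P + Q) * (2 * (P + Q))) := by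
          ring
      _ ≤ _ := g6
      _ = X := by rw [hX]; ring
  have h10 : 120 ≤ X := by
    have g1 : 2 * 3 ≤ (P + Q) * (P + 2 * Q) := mul_le_mul hs (by omega) (by norm_num) (by omega)
    have g2 : 4 * 5 ≤ (P + 3 * Q) * (2 * P + 3 * Q) :=
      mul_le_mul (by omega) (by omega) (by norm_num) (by omega)
    have g3 : (2 * 3) * (4 * 5) ≤ ((P + Q) * (P + 2 * Q)) * ((P + 3 * Q) * (2 * P + 3 * Q)) :=
      mul_le_mul g1 g2 (by norm_num) (by positivity)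
    have g4 : 1 * ((2 * 3) * (4 * 5)) ≤
        (P * Q) * (((P + Q) * (P + 2 * Q)) * ((P + 3 * Q) * (2 * P + 3 * Q))) :=
      mul_le_mul hPQ g3 (by norm_num) (by positivity)
    calc (120 : ℤ) = 1 * ((2 * 3) * (4 * 5)) := by norm_num
      _ ≤ _ := g4
      _ = X := by rw [hX]; ring
  have h11 : X ≤ 240 * (X / 120) := by omega
  omega

end MKG

open MKG in
/-- MKG -/
theorem t_MKG : M_MKG := by
  intro hA hM hE hB ψ hψ
  refine ⟨3840, fun a ha => ?_⟩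
  have ha0 := ha 0
  have ha1 := ha 1
  obtain ⟨p, hp⟩ : ∃ p : ℕ, a 0 = (p : ℤ) + 1 := ⟨(a 0 - 1).toNat, by omega⟩
  obtain ⟨q, hq⟩ : ∃ q : ℕ, a 1 = (q : ℤ) + 1 := ⟨(a 1 - 1).toNat, by omega⟩
  have ha2 : a = ![(p : ℤ) + 1, (q : ℤ) + 1] := by
    funext i
    fin_cases i
    · exact hp
    · exact hq
  refine ⟨(B2 p q).image (fun z => kap z.2), mm p q, fun x l => ?_, fun t ht => ⟨?_, ?_⟩⟩
  · change ψ x a * ψ x l = _
    rw [ha2, eq4 hA hM hE hB ψ hψ p q x l]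
    symm
    have h1 : ∀ t : Fin 2 → ℤ, (mm p q t : ℂ) * ψ x (l + t) =
        ∑ z ∈ (B2 p q).filter (fun z => kap z.2 = t), (cf p q z : ℂ) * ψ x (l + kap z.2) := by
      intro t
      rw [mm, Int.cast_sum, Finset.sum_mul]
      refine Finset.sum_congr rfl fun z hz => ?_
      rw [(Finset.mem_filter.1 hz).2]
    change ∑ κ ∈ (B2 p q).image (fun z => kap z.2), (mm p q κ : ℂ) * ψ x (l + κ) = _
    rw [Finset.sum_congr rfl fun t _ => h1 t]
    exact Finset.sum_fiberwise_of_maps_to (fun z hz => Finset.mem_image_of_mem _ hz) _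
  · have h1 := mm_le p q t
    have h2 := final_int (a 0) (a 1) (mm p q t) ha0 ha1 (by
      rw [hp, hq]
      have e1 : min ((p : ℤ) + 1) ((q : ℤ) + 1) = (min p q + 1 : ℤ) := by omega
      rw [e1]
      refine h1.trans (le_of_eq ?_)
      ring)
    have h3 : |((mm p q t : ℤ) : ℝ)| = ((mm p q t : ℤ) : ℝ) :=
      abs_of_nonneg (by exact_mod_cast mm_nonneg p q t)
    have h4 : sz a = 1 + (a 0 : ℝ) + (a 1 : ℝ) := by
      rw [sz, Fin.sum_univ_two, abs_of_nonneg (by exact_mod_cast (by omega : (0 : ℤ) ≤ a 0)),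
        abs_of_nonneg (by exact_mod_cast (by omega : (0 : ℤ) ≤ a 1)), add_assoc]
    rw [h3, h4]
    change _ ≤ (3840 : ℝ) * ((a 0 * a 1 * (a 0 + a 1) * (a 0 + 2 * a 1) * (a 0 + 3 * a 1) *
      (2 * a 0 + 3 * a 1) / 120 : ℤ) : ℝ)
    exact_mod_cast h2
  · obtain ⟨z, hz, rfl⟩ := Finset.mem_image.1 ht
    rw [B2, Finset.mem_product, mem_Bx, mem_Bx] at hz
    have b0 := hz.2 0
    have b1 := hz.2 1
    have b2 := hz.2 2
    rw [sz, Fin.sum_univ_two, sz, Fin.sum_univ_two]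
    have h1 : (1 : ℤ) + (|kap z.2 0| + |kap z.2 1|) ≤ 3840 * (1 + (|a 0| + |a 1|)) := by
      have k0 : kap z.2 0 = (z.2 0 - z.2 1) - (z.2 1 - z.2 2) := rfl
      have k1 : kap z.2 1 = z.2 1 - z.2 2 := rfl
      rw [k0, k1, hp, hq]
      have e1 : |(z.2 0 - z.2 1) - (z.2 1 - z.2 2)| ≤ 8 * ((p : ℤ) + q) := by
        rw [abs_le]
        constructor <;> omega
      have e2 : |z.2 1 - z.2 2| ≤ 4 * ((p : ℤ) + q) := by
        rw [abs_le]
        constructor <;> omega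
      have e3 : |(p : ℤ) + 1| = (p : ℤ) + 1 := abs_of_nonneg (by omega)
      have e4 : |(q : ℤ) + 1| = (q : ℤ) + 1 := abs_of_nonneg (by omega)
      rw [e3, e4]
      omega
    exact_mod_cast h1

end

end STZ
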