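import Pool.Agent.STZ.StmtsP

/-!
# The matrix `MA` in terms of the eigenvalues
-/

namespace STZ

open MeasureTheory Matrix

open scoped ComplexConjugate Matrix Real

noncomputable section

namespace MSYM

lemma ee_esA {r : ℕ} (v : Fin (r + 1) → ℂ) (hv : ∏ k, v k = 1) (a : ℕ) (ha : a ≤ r + 1) :
    ee (esA v) a = esk v a := by
  cases a with
  | zero =>
    simp [ee, esk]
  | succ k =>
    rcases Nat.lt_or_ge k r with h | h
    · simp [ee, h, esA]
    · have hk : k = r := by omega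
      subst hk
      have h1 : (Finset.univ : Finset (Fin (k + 1))).powersetCard (k + 1) = {Finset.univ} := by
        have := Finset.powersetCard_self (Finset.univ : Finset (Fin (k + 1)))
        rwa [Finset.card_univ, Fintype.card_fin] at this
      simp [ee, esk, h1, hv]

/-- the sums over the sets which contain `k` -/
def FF {n : ℕ} (v : Fin n → ℂ) (a : ℕ) (k : Fin n) : ℂ :=
  ∑ I ∈ Finset.univ.powersetCard a, if k ∈ I then ∏ j ∈ I, v j else 0

lemma FF_zero {n : ℕ} (v : Fin n → ℂ) (k : Fin n) : FF v 0 k = 0 := by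
  simp [FF]

lemma FF_succ {n : ℕ} (v : Fin n → ℂ) (a : ℕ) (k : Fin n) :
    FF v (a + 1) k = v k * (esk v a - FF v a k) := by
  classical
  have h1 : esk v a - FF v a k = ∑ I ∈ (Finset.univ.powersetCard a).filter (fun I => k ∉ I), ∏ j ∈ I, v j := by
    unfold esk FF
    rw [← Finset.sum_sub_distrib, Finset.sum_filter]
    apply Finset.sum_congr rfl
    intro I _
    by_cases h : k ∈ I <;> simp [h]
  rw [h1, Finset.mul_sum]
  unfold FF
  rw [← Finset.sum_filter]
  apply Finset.sum_nbij' (fun I => I.erase k) (fun I => insert k I)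
  · intro I hI
    rw [Finset.mem_filter, Finset.mem_powersetCard] at hI ⊢
    refine ⟨⟨Finset.subset_univ _, ?_⟩, Finset.notMem_erase k I⟩
    rw [Finset.card_erase_of_mem hI.2, hI.1.2]
    rfl
  · intro I hI
    rw [Finset.mem_filter, Finset.mem_powersetCard] at hI ⊢
    refine ⟨⟨Finset.subset_univ _, ?_⟩, Finset.mem_insert_self k I⟩
    rw [Finset.card_insert_of_notMem hI.2, hI.1.2]
  · intro I hI
    rw [Finset.mem_filter] at hI
    exact Finset.insert_erase hI.2
  · intro I hI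
    rw [Finset.mem_filter] at hI
    exact Finset.erase_insert hI.2
  · intro I hI
    rw [Finset.mem_filter] at hI
    exact (Finset.mul_prod_erase I v hI.2).symm

/-- the eigenvalues of `GG` -/
def EE {r : ℕ} (x : Fin r → ℂ) (v : Fin (r + 1) → ℂ) (a : ℕ) (k : Fin (r + 1)) : ℂ :=
  ∑ s ∈ Finset.range a, ((-1) ^ s * ee x (a - 1 - s)) * v k ^ (s + 1)

lemma EE_succ {r : ℕ} (x : Fin r → ℂ) (v : Fin (r + 1) → ℂ) (a : ℕ) (k : Fin (r + 1)) :
    EE x v (a + 1) k = v k * (ee x a - EE x v a k) := by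
  unfold EE
  rw [Finset.sum_range_succ']
  have h1 : ∀ s ∈ Finset.range a, (-1 : ℂ) ^ (s + 1) * ee x (a + 1 - 1 - (s + 1)) * v k ^ (s + 1 + 1) =
      -(v k * ((-1) ^ s * ee x (a - 1 - s) * v k ^ (s + 1))) := by
    intro s _
    have : a + 1 - 1 - (s + 1) = a - 1 - s := by omega
    rw [this]
    ring
  rw [Finset.sum_congr rfl h1, Finset.sum_neg_distrib, ← Finset.mul_sum]
  simp only [pow_zero, one_mul, zero_add, pow_one, Nat.add_sub_cancel, Nat.sub_zero]
  ring

lemma EE_eq {r : ℕ} (v : Fin (r + 1) → ℂ) (hv : ∏ k, v k = 1) (k : Fin (r + 1)) (a : ℕ)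
    (ha : a ≤ r + 1) : EE (esA v) v a k = FF v a k := by
  induction a with
  | zero => rw [FF_zero]; simp [EE]
  | succ a ih => rw [EE_succ, FF_succ, ih (by omega), ee_esA v hv a (by omega)]

lemma tr_GG (hT : S_TRCA) {r : ℕ} (v : Fin (r + 1) → ℂ) (hv : ∏ k, v k = 1) (a b : ℕ) :
    (GG (esA v) a (CA (esA v)) * GG (esA v) b (CA (esA v))).trace =
      ∑ k, EE (esA v) v a k * EE (esA v) v b k := by
  unfold GG
  rw [Finset.sum_mul_sum, Matrix.trace_sum]
  have h1 : ∀ s ∈ Finset.range a, (∑ t ∈ Finset.range b,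
      (((-1) ^ s * ee (esA v) (a - 1 - s)) • CA (esA v) ^ (s + 1)) *
        (((-1) ^ t * ee (esA v) (b - 1 - t)) • CA (esA v) ^ (t + 1))).trace =
      ∑ k, ∑ t ∈ Finset.range b, (((-1) ^ s * ee (esA v) (a - 1 - s)) * v k ^ (s + 1)) *
        (((-1) ^ t * ee (esA v) (b - 1 - t)) * v k ^ (t + 1)) := by
    intro s _
    rw [Matrix.trace_sum, Finset.sum_comm]
    apply Finset.sum_congr rfl
    intro t _
    rw [smul_mul_smul_comm, ← pow_add, Matrix.trace_smul, hT r v hv, smul_eq_mul, Finset.mul_sum]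
    apply Finset.sum_congr rfl
    intro k _
    rw [pow_add]
    ring
  rw [Finset.sum_congr rfl h1, Finset.sum_comm]
  apply Finset.sum_congr rfl
  intro k _
  unfold EE
  rw [Finset.sum_mul_sum]

lemma sum_FF {n : ℕ} (v : Fin n → ℂ) (a b : ℕ) :
    ∑ k, FF v a k * FF v b k = ∑ I ∈ Finset.univ.powersetCard a, ∑ J ∈ Finset.univ.powersetCard b,
      ((I ∩ J).card : ℂ) * ((∏ k ∈ I, v k) * ∏ k ∈ J, v k) := by
  classical
  unfold FF
  simp only [Finset.sum_mul_sum]
  rw [Finset.sum_comm]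
  apply Finset.sum_congr rfl
  intro I _
  rw [Finset.sum_comm]
  apply Finset.sum_congr rfl
  intro J _
  have h1 : ∀ k : Fin n, ((if k ∈ I then ∏ j ∈ I, v j else 0) * if k ∈ J then ∏ j ∈ J, v j else 0) =
      if k ∈ I ∩ J then (∏ j ∈ I, v j) * ∏ j ∈ J, v j else 0 := by
    intro k
    by_cases hI : k ∈ I <;> by_cases hJ : k ∈ J <;> simp [hI, hJ]
  simp only [h1]
  rw [Finset.sum_ite_mem, Finset.univ_inter, Finset.sum_const, nsmul_eq_mul]

end MSYM

open MSYM in
theorem t_MSYM : M_MSYM := by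
  classical
  intro hT r v hv i j
  unfold MA
  rw [tr_GG hT v hv]
  have h1 : ∀ k, EE (esA v) v (i.val + 1) k * EE (esA v) v (j.val + 1) k =
      FF v (i.val + 1) k * FF v (j.val + 1) k := by
    intro k
    rw [EE_eq v hv k _ (by omega), EE_eq v hv k _ (by omega)]
  simp only [h1]
  rw [sum_FF]
  have h2 : ((i.val : ℂ) + 1) * ((j.val : ℂ) + 1) * esA v i * esA v j =
      ∑ I ∈ Finset.univ.powersetCard (i.val + 1), ∑ J ∈ Finset.univ.powersetCard (j.val + 1),
        ((I.card : ℂ) * J.card) * ((∏ k ∈ I, v k) * ∏ k ∈ J, v k) := by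
    unfold esA esk
    rw [show ((i.val : ℂ) + 1) * ((j.val : ℂ) + 1) *
      (∑ I ∈ (Finset.univ : Finset (Fin (r + 1))).powersetCard (i.val + 1), ∏ j ∈ I, v j) *
      (∑ I ∈ (Finset.univ : Finset (Fin (r + 1))).powersetCard (j.val + 1), ∏ j ∈ I, v j) =
      ((i.val : ℂ) + 1) * ((j.val : ℂ) + 1) *
      ((∑ I ∈ (Finset.univ : Finset (Fin (r + 1))).powersetCard (i.val + 1), ∏ j ∈ I, v j) *
      (∑ I ∈ (Finset.univ : Finset (Fin (r + 1))).powersetCard (j.val + 1), ∏ j ∈ I, v j)) by ring,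
      Finset.sum_mul_sum, Finset.mul_sum]
    apply Finset.sum_congr rfl
    intro I hI
    rw [Finset.mul_sum]
    apply Finset.sum_congr rfl
    intro J hJ
    rw [(Finset.mem_powersetCard.mp hI).2, (Finset.mem_powersetCard.mp hJ).2]
    push_cast
    ring
  rw [h2, Finset.mul_sum, ← Finset.sum_sub_distrib, Finset.mul_sum]
  apply Finset.sum_congr rfl
  intro I _
  rw [Finset.mul_sum, ← Finset.sum_sub_distrib, Finset.mul_sum]
  apply Finset.sum_congr rfl
  intro J _
  ring

end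

end STZ
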