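import Pool.Agent.STZ.StmtsS

/-!
# STZ, module MULT: the product of an irreducible character and an alternating sum
-/

set_option autoImplicit false

namespace STZ

open scoped ComplexConjugate

noncomputable section

namespace MULT

/-- the multiplicities, for three integers -/
def m3 (a b p q r : ℤ) : ℤ :=
  if p + q + r = a - b then max 0 (a + 1 - (max p 0 + max q 0 + max r 0)) else 0

/-- the multiplicities, for integers `a`, `b` -/
def mm (a b : ℤ) (κ : Fin 3 → ℤ) : ℤ := m3 a b (κ 0) (κ 1) (κ 2)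

theorem mlt_eq (a b : ℕ) (κ : Fin 3 → ℤ) : mlt a b κ = mm a b κ := by
  unfold mlt mm m3
  rw [Fin.sum_univ_three, Fin.sum_univ_three]

theorem cases_pos (p : ℤ) : (1 ≤ p ∧ max p 0 = p ∧ max (p - 1) 0 = p - 1) ∨
    (p ≤ 0 ∧ max p 0 = 0 ∧ max (p - 1) 0 = 0) := by
  rcases le_or_gt 1 p with h | h
  · left
    exact ⟨h, max_eq_left (by omega), max_eq_left (by omega)⟩
  · right
    exact ⟨by omega, max_eq_right (by omega), max_eq_right (by omega)⟩

theorem cases_neg (p : ℤ) : (0 ≤ p ∧ max p 0 = p ∧ max (p + 1) 0 = p + 1) ∨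
    (p ≤ -1 ∧ max p 0 = 0 ∧ max (p + 1) 0 = 0) := by
  rcases le_or_gt 0 p with h | h
  · left
    exact ⟨h, max_eq_left (by omega), max_eq_left (by omega)⟩
  · right
    exact ⟨by omega, max_eq_right (by omega), max_eq_right (by omega)⟩

theorem m3_pos {a b p q r : ℤ} (h : p + q + r = a - b) :
    m3 a b p q r = max 0 (a + 1 - (max p 0 + max q 0 + max r 0)) := if_pos h

theorem m3_neg {a b p q r : ℤ} (h : p + q + r ≠ a - b) : m3 a b p q r = 0 := if_neg h

theorem rec_x (a b p q r : ℤ) (ha : 0 ≤ a) (hb : 0 ≤ b) :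
    m3 (a + 1) b p q r = m3 a b (p - 1) q r + m3 a b p (q - 1) r + m3 a b p q (r - 1) -
      m3 (a - 1) (b + 1) (p - 1) (q - 1) (r - 1) - m3 a (b - 1) p q r := by
  by_cases h : p + q + r = a + 1 - b
  · rw [m3_pos (by omega), m3_pos (by omega), m3_pos (by omega), m3_pos (by omega),
      m3_pos (by omega), m3_pos (by omega)]
    rcases cases_pos p with ⟨h1, h2, h3⟩ | ⟨h1, h2, h3⟩ <;>
    rcases cases_pos q with ⟨k1, k2, k3⟩ | ⟨k1, k2, k3⟩ <;>
    rcases cases_pos r with ⟨l1, l2, l3⟩ | ⟨l1, l2, l3⟩ <;>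
    rw [h2, h3, k2, k3, l2, l3] <;> omega
  · rw [m3_neg (by omega), m3_neg (by omega), m3_neg (by omega), m3_neg (by omega),
      m3_neg (by omega), m3_neg (by omega)]
    rfl

theorem rec_y (a b p q r : ℤ) (ha : 0 ≤ a) (hb : 0 ≤ b) :
    m3 a (b + 1) p q r = m3 a b (p + 1) q r + m3 a b p (q + 1) r + m3 a b p q (r + 1) -
      m3 (a + 1) (b - 1) (p + 1) (q + 1) (r + 1) - m3 (a - 1) b p q r := by
  by_cases h : p + q + r = a - b - 1
  · rw [m3_pos (by omega), m3_pos (by omega), m3_pos (by omega), m3_pos (by omega),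
      m3_pos (by omega), m3_pos (by omega)]
    rcases cases_neg p with ⟨h1, h2, h3⟩ | ⟨h1, h2, h3⟩ <;>
    rcases cases_neg q with ⟨k1, k2, k3⟩ | ⟨k1, k2, k3⟩ <;>
    rcases cases_neg r with ⟨l1, l2, l3⟩ | ⟨l1, l2, l3⟩ <;>
    rw [h2, h3, k2, k3, l2, l3] <;> omega
  · rw [m3_neg (by omega), m3_neg (by omega), m3_neg (by omega), m3_neg (by omega),
      m3_neg (by omega), m3_neg (by omega)]
    rfl

theorem m3_supp (a b p q r : ℤ) (h : m3 a b p q r ≠ 0) :
    (-b ≤ p ∧ p ≤ a) ∧ (-b ≤ q ∧ q ≤ a) ∧ (-b ≤ r ∧ r ≤ a) := by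
  by_cases h1 : p + q + r = a - b
  · rw [m3_pos h1] at h
    have h2 : 0 < a + 1 - (max p 0 + max q 0 + max r 0) := by
      by_contra h3
      exact h (max_eq_left (not_lt.1 h3))
    have := le_max_left p 0
    have := le_max_right p 0
    have := le_max_left q 0
    have := le_max_right q 0
    have := le_max_left r 0
    have := le_max_right r 0
    omega
  · exact absurd (m3_neg h1) h

theorem mm_supp (a b : ℤ) (κ : Fin 3 → ℤ) (h : mm a b κ ≠ 0) (i : Fin 3) :
    -b ≤ κ i ∧ κ i ≤ a := by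
  obtain ⟨h0, h1, h2⟩ := m3_supp a b _ _ _ h
  fin_cases i
  · exact h0
  · exact h1
  · exact h2

theorem fin_supp (a b : ℤ) (c : Fin 3 → ℤ) (X : (Fin 3 → ℤ) → ℂ) :
    Function.HasFiniteSupport fun κ => ((mm a b (κ - c) : ℤ) : ℂ) * X κ := by
  refine (Set.finite_Icc (fun i => -b + c i) (fun i => a + c i)).subset ?_
  intro κ hκ
  rw [Function.mem_support] at hκ
  have h1 : mm a b (κ - c) ≠ 0 := by
    intro h
    apply hκ
    rw [h, Int.cast_zero, zero_mul]
  have h2 := mm_supp a b (κ - c) h1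
  refine ⟨fun i => ?_, fun i => ?_⟩
  · have := (h2 i).1
    rw [Pi.sub_apply] at this
    show -b + c i ≤ κ i
    linarith
  · have := (h2 i).2
    rw [Pi.sub_apply] at this
    show κ i ≤ a + c i
    linarith

theorem comb3 {α : Type} {f0 f1 f2 : α → ℂ} (h0 : Function.HasFiniteSupport f0)
    (h1 : Function.HasFiniteSupport f1) (h2 : Function.HasFiniteSupport f2) :
    (∑ᶠ k, f0 k) + (∑ᶠ k, f1 k) + (∑ᶠ k, f2 k) = ∑ᶠ k, (f0 k + f1 k + f2 k) := by
  have a1 : Function.HasFiniteSupport (fun k => f0 k + f1 k) := h0.add h1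
  rw [← finsum_add_distrib h0 h1, ← finsum_add_distrib a1 h2]

theorem comb {α : Type} {f0 f1 f2 g h : α → ℂ} (h0 : Function.HasFiniteSupport f0)
    (h1 : Function.HasFiniteSupport f1) (h2 : Function.HasFiniteSupport f2)
    (h3 : Function.HasFiniteSupport g) (h4 : Function.HasFiniteSupport h) :
    (∑ᶠ k, f0 k) + (∑ᶠ k, f1 k) + (∑ᶠ k, f2 k) - (∑ᶠ k, g k) - (∑ᶠ k, h k) =
      ∑ᶠ k, (f0 k + f1 k + f2 k - g k - h k) := by
  have a1 : Function.HasFiniteSupport (fun k => f0 k + f1 k) := h0.add h1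
  have a2 : Function.HasFiniteSupport (fun k => f0 k + f1 k + f2 k) := a1.add h2
  have a3 : Function.HasFiniteSupport (fun k => f0 k + f1 k + f2 k - g k) := a2.sub h3
  rw [comb3 h0 h1 h2, ← finsum_sub_distrib a2 h3, ← finsum_sub_distrib a3 h4]

/-- the sum over all weights -/
def T (x y : ℂ) (a b : ℤ) (l : Fin 3 → ℤ) : ℂ := ∑ᶠ κ, ((mm a b κ : ℤ) : ℂ) * XX x y (l + κ)

theorem shift_sum (x y : ℂ) (a b : ℤ) (l c : Fin 3 → ℤ) :
    (∑ᶠ κ, ((mm a b (κ - c) : ℤ) : ℂ) * XX x y (l + κ)) = T x y a b (l + c) := by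
  have h := finsum_comp_equiv (Equiv.subRight c)
    (f := fun κ : Fin 3 → ℤ => ((mm a b κ : ℤ) : ℂ) * XX x y (l + c + κ))
  unfold T
  rw [← h]
  refine finsum_congr fun κ => ?_
  rw [Equiv.subRight_apply]
  have h2 : l + c + (κ - c) = l + κ := by abel
  rw [h2]

theorem mul_T (x y z : ℂ) (a b : ℤ) (l : Fin 3 → ℤ) (e : Fin 3 → Fin 3 → ℤ)
    (hz : ∀ l', z * XX x y l' = ∑ i, XX x y (l' + e i)) :
    z * T x y a b l = ∑ i, T x y a b (l + e i) := by
  unfold T
  have hf : ∀ c : Fin 3 → ℤ, Function.HasFiniteSupport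
      fun κ => ((mm a b κ : ℤ) : ℂ) * XX x y (l + c + κ) := by
    intro c
    have := fin_supp a b 0 (fun κ => XX x y (l + c + κ))
    simpa only [sub_zero] using this
  have hf0 : Function.HasFiniteSupport fun κ => ((mm a b κ : ℤ) : ℂ) * XX x y (l + κ) := by
    have := fin_supp a b 0 (fun κ => XX x y (l + κ))
    simpa only [sub_zero] using this
  rw [mul_finsum' _ _ hf0, Fin.sum_univ_three, comb3 (hf _) (hf _) (hf _)]
  refine finsum_congr fun κ => ?_
  have h1 : z * (((mm a b κ : ℤ) : ℂ) * XX x y (l + κ)) =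
      ((mm a b κ : ℤ) : ℂ) * (z * XX x y (l + κ)) := by ring
  rw [h1, hz, Fin.sum_univ_three]
  have h2 : ∀ i, l + κ + e i = l + e i + κ := fun i => by abel
  rw [h2, h2, h2]
  ring

theorem T_x (hA : ALTF) (x y : ℂ) (a b : ℤ) (ha : 0 ≤ a) (hb : 0 ≤ b) (l : Fin 3 → ℤ) :
    T x y (a + 1) b l = x * T x y a b l - T x y (a - 1) (b + 1) l - T x y a (b - 1) l := by
  rw [mul_T x y x a b l (fun i => Pi.single i 1) (fun l' => hA.xm x y l'), Fin.sum_univ_three]
  have hs : T x y (a - 1) (b + 1) l = T x y (a - 1) (b + 1) (l + fun _ => 1) := by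
    unfold T
    refine finsum_congr fun κ => ?_
    rw [← hA.shift x y (l + κ) 1]
    congr 2
    funext i
    simp only [Pi.add_apply]
    ring
  rw [hs, ← shift_sum, ← shift_sum, ← shift_sum, ← shift_sum]
  have hC : T x y a (b - 1) l =
      ∑ᶠ κ, ((mm a (b - 1) (κ - 0) : ℤ) : ℂ) * XX x y (l + κ) := by
    unfold T
    simp only [sub_zero]
  rw [hC]
  have F := fun (a b : ℤ) (c : Fin 3 → ℤ) => fin_supp a b c (fun κ => XX x y (l + κ))
  rw [comb (F _ _ _) (F _ _ _) (F _ _ _) (F _ _ _) (F _ _ _)]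
  unfold T
  refine finsum_congr fun κ => ?_
  have h1 : mm (a + 1) b κ = mm a b (κ - Pi.single 0 1) + mm a b (κ - Pi.single 1 1) +
      mm a b (κ - Pi.single 2 1) - mm (a - 1) (b + 1) (κ - fun _ => 1) - mm a (b - 1) (κ - 0) := by
    have h2 := rec_x a b (κ 0) (κ 1) (κ 2) ha hb
    unfold mm
    simp only [Pi.sub_apply, Pi.zero_apply, sub_zero]
    simpa [Pi.single_apply] using h2
  rw [h1]
  push_cast
  ring

theorem T_y (hA : ALTF) (x y : ℂ) (a b : ℤ) (ha : 0 ≤ a) (hb : 0 ≤ b) (l : Fin 3 → ℤ) :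
    T x y a (b + 1) l = y * T x y a b l - T x y (a + 1) (b - 1) l - T x y (a - 1) b l := by
  rw [mul_T x y y a b l (fun i => - Pi.single i 1) (fun l' => by
    rw [hA.ym x y l']
    exact Finset.sum_congr rfl fun i _ => by rw [sub_eq_add_neg]), Fin.sum_univ_three]
  have hs : T x y (a + 1) (b - 1) l = T x y (a + 1) (b - 1) (l + fun _ => -1) := by
    unfold T
    refine finsum_congr fun κ => ?_
    rw [← hA.shift x y (l + κ) (-1)]
    congr 2
    funext i
    simp only [Pi.add_apply]
    ring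
  rw [hs, ← shift_sum, ← shift_sum, ← shift_sum, ← shift_sum]
  have hC : T x y (a - 1) b l =
      ∑ᶠ κ, ((mm (a - 1) b (κ - 0) : ℤ) : ℂ) * XX x y (l + κ) := by
    unfold T
    simp only [sub_zero]
  rw [hC]
  have F := fun (a b : ℤ) (c : Fin 3 → ℤ) => fin_supp a b c (fun κ => XX x y (l + κ))
  rw [comb (F _ _ _) (F _ _ _) (F _ _ _) (F _ _ _) (F _ _ _)]
  unfold T
  refine finsum_congr fun κ => ?_
  have h1 : mm a (b + 1) κ = mm a b (κ - -Pi.single 0 1) + mm a b (κ - -Pi.single 1 1) +
      mm a b (κ - -Pi.single 2 1) - mm (a + 1) (b - 1) (κ - fun _ => -1) -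
      mm (a - 1) b (κ - 0) := by
    have h2 := rec_y a b (κ 0) (κ 1) (κ 2) ha hb
    unfold mm
    simp only [Pi.sub_apply, Pi.zero_apply, sub_zero, Pi.neg_apply, sub_neg_eq_add]
    simpa [Pi.single_apply] using h2
  rw [h1]
  push_cast
  ring

theorem T_zero (x y : ℂ) (l : Fin 3 → ℤ) : T x y 0 0 l = XX x y l := by
  unfold T
  rw [finsum_eq_single _ 0]
  · have : mm 0 0 0 = 1 := by
      unfold mm m3
      simp
    rw [this, add_zero]
    simp
  · intro κ hκ
    have : mm 0 0 κ = 0 := by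
      by_contra h
      apply hκ
      funext i
      have := mm_supp 0 0 κ h i
      show κ i = 0
      omega
    rw [this, Int.cast_zero, zero_mul]

/-- outside of the dominant weights -/
theorem T_nega (x y : ℂ) (b : ℤ) (l : Fin 3 → ℤ) : T x y (-1) b l = 0 := by
  unfold T
  refine (finsum_congr fun κ => ?_).trans finsum_zero
  have : mm (-1) b κ = 0 := by
    unfold mm m3
    split_ifs
    · apply max_eq_left
      have := le_max_right (κ 0) 0
      have := le_max_right (κ 1) 0
      have := le_max_right (κ 2) 0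
      omega
    · rfl
  rw [this, Int.cast_zero, zero_mul]

theorem T_negb (x y : ℂ) (a : ℤ) (l : Fin 3 → ℤ) : T x y a (-1) l = 0 := by
  unfold T
  refine (finsum_congr fun κ => ?_).trans finsum_zero
  have : mm a (-1) κ = 0 := by
    unfold mm m3
    split_ifs with h
    · apply max_eq_left
      have := le_max_left (κ 0) 0
      have := le_max_left (κ 1) 0
      have := le_max_left (κ 2) 0
      omega
    · rfl
  rw [this, Int.cast_zero, zero_mul]

theorem main (hA : ALTF) (x y : ℂ) : ∀ (n a b : ℕ), a + b ≤ n → ∀ l : Fin 3 → ℤ,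
    ps x y (a + 1) (b + 1) * XX x y l = T x y a b l := by
  intro n
  induction n with
  | zero =>
    intro a b hab l
    obtain rfl : a = 0 := by omega
    obtain rfl : b = 0 := by omega
    rw [Nat.cast_zero, T_zero]
    have := hA.one x y
    simp only [zero_add]
    rw [this, one_mul]
  | succ n ih =>
    intro a b hab l
    rcases a with _ | a
    · rcases b with _ | b
      · rw [Nat.cast_zero, T_zero]
        have := hA.one x y
        simp only [zero_add]
        rw [this, one_mul]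
      · -- `(0, b + 1)`
        have h1 := hA.yp x y 1 (b + 1)
        have h2 := T_y hA x y 0 b le_rfl (Int.natCast_nonneg b) l
        have e0 : ps x y (1 - 1) (b + 1) = 0 := by
          rw [sub_self]
          exact hA.p0 x y _
        have i1 := ih 0 b (by omega) l
        have i2 : ps x y (1 + 1) (b + 1 - 1) * XX x y l = T x y (0 + 1) (b - 1) l := by
          rcases b with _ | b
          · rw [Nat.cast_zero, zero_add, sub_self, hA.q0, zero_mul, zero_sub, T_negb]
          · have := ih 1 b (by omega) l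
            push_cast at this ⊢
            rw [add_sub_cancel_right, add_sub_cancel_right]
            exact this
        rw [zero_sub, T_nega, sub_zero] at h2
        rw [e0, add_zero] at h1
        push_cast at i1 ⊢
        rw [h2, ← i1, ← i2]
        have h3 : ps x y 1 (b + 1 + 1) = y * ps x y 1 (b + 1) - ps x y (1 + 1) (b + 1 - 1) := by
          rw [h1]
          ring
        rw [h3]
        ring
    · -- `(a + 1, b)`
      have h1 := hA.xp x y (a + 1) (b + 1)
      have h2 := T_x hA x y a b (Int.natCast_nonneg a) (Int.natCast_nonneg b) l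
      have i1 := ih a b (by omega) l
      have i2 : ps x y (a + 1 - 1) (b + 1 + 1) * XX x y l = T x y (a - 1) (b + 1) l := by
        rcases a with _ | a
        · rw [Nat.cast_zero, zero_add, sub_self, hA.p0, zero_mul, zero_sub, T_nega]
        · have := ih a (b + 1) (by omega) l
          push_cast at this ⊢
          rw [add_sub_cancel_right, add_sub_cancel_right]
          exact this
      have i3 : ps x y (a + 1) (b + 1 - 1) * XX x y l = T x y a (b - 1) l := by
        rcases b with _ | b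
        · rw [Nat.cast_zero, zero_add, sub_self, hA.q0, zero_mul, zero_sub, T_negb]
        · have := ih a b (by omega) l
          push_cast at this ⊢
          rw [add_sub_cancel_right, add_sub_cancel_right]
          exact this
      push_cast
      rw [h2, ← i1, ← i2, ← i3]
      have h3 : ps x y (a + 1 + 1) (b + 1) = x * ps x y (a + 1) (b + 1) -
          ps x y (a + 1 - 1) (b + 1 + 1) - ps x y (a + 1) (b + 1 - 1) := by
        rw [h1]
        ring
      rw [h3]
      ring

end MULT

open MULT in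
/-- MULT -/
theorem t_MULT : M_MULT := by
  intro hA a b N hN x y l
  rw [main hA x y (a + b) a b le_rfl l]
  unfold T
  rw [finsum_eq_sum_of_support_subset (s := Fintype.piFinset
    (fun _ : Fin 3 => Finset.Icc (-(N : ℤ)) N))]
  · exact Finset.sum_congr rfl fun κ _ => by rw [mlt_eq]
  · intro κ hκ
    rw [Function.mem_support] at hκ
    have h1 : mm a b κ ≠ 0 := by
      intro h
      apply hκ
      rw [h, Int.cast_zero, zero_mul]
    rw [Finset.mem_coe, Fintype.mem_piFinset]
    intro i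
    rw [Finset.mem_Icc]
    have := mm_supp a b κ h1 i
    omega

end

end STZ
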