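import Pool.Agent.STZ.StmtsY

/-!
# OPB: the operator norms of the pieces of the kernel
-/

set_option autoImplicit false

namespace STZ

open MeasureTheory Matrix

open scoped ComplexConjugate Matrix Real

noncomputable section

namespace OPB

variable {r : ℕ} {D : RD r}

theorem det_sq (h : RDO D) {w : Matrix (Fin r) (Fin r) ℤ} (hw : w ∈ D.W) : w.det * w.det = 1 := by
  obtain ⟨w', _, hw'⟩ := h.W_inv w hw
  have h1 : w'.det * w.det = 1 := by rw [← Matrix.det_mul, hw', Matrix.det_one]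
  have h2 : IsUnit w.det := IsUnit.of_mul_eq_one _ (by rw [mul_comm]; exact h1)
  exact Int.isUnit_mul_self h2

theorem det_sqC (h : RDO D) {w : Matrix (Fin r) (Fin r) ℤ} (hw : w ∈ D.W) :
    (w.det : ℂ) * (w.det : ℂ) = 1 := by
  have h1 := det_sq h hw
  exact_mod_cast h1

theorem psi_eq (h : RDO D) {w : Matrix (Fin r) (Fin r) ℤ} (hw : w ∈ D.W) (x : Fin r → ℂ)
    (l : Fin r → ℤ) : D.ψ x l = (w.det : ℂ) * D.ψ x (w *ᵥ l) := by
  rw [h.anti w hw, ← mul_assoc, det_sqC h hw, one_mul]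

theorem inv_zero (h : RDO D) {v : Fin r → ℤ} (hv : ∀ w ∈ D.W, w *ᵥ v = v) : v = 0 := by
  obtain ⟨w, hw, h1⟩ := h.str v
  obtain ⟨w', hw', h2⟩ := h.str (-v)
  funext i
  have h3 := h1 i
  have h4 := h2 i
  rw [hv w hw] at h3
  rw [Matrix.mulVec_neg, hv w' hw', Pi.neg_apply] at h4
  rw [Pi.zero_apply]
  omega

theorem sum_mul (h : RDO D) {w : Matrix (Fin r) (Fin r) ℤ} (hw : w ∈ D.W) {M : Type}
    [AddCommMonoid M] (g : Matrix (Fin r) (Fin r) ℤ → M) :
    ∑ u ∈ D.W, g (w * u) = ∑ u ∈ D.W, g u := by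
  classical
  obtain ⟨w', _, hw'⟩ := h.W_inv w hw
  have hinj : Function.Injective fun u : Matrix (Fin r) (Fin r) ℤ => w * u := by
    intro a b hab
    have h1 : w' * (w * a) = w' * (w * b) := congrArg (fun z => w' * z) hab
    rw [← mul_assoc, ← mul_assoc, hw', one_mul, one_mul] at h1
    exact h1
  have himg : D.W.image (fun u => w * u) = D.W := by
    apply Finset.eq_of_subset_of_card_le
    · intro u hu
      obtain ⟨a, ha, rfl⟩ := Finset.mem_image.1 hu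
      exact h.W_mul w hw a ha
    · rw [Finset.card_image_of_injective _ hinj]
  conv_rhs => rw [← himg]
  rw [Finset.sum_image fun a _ b _ hab => hinj hab]

theorem sum_orbit (h : RDO D) (κ : Fin r → ℤ) : ∑ w ∈ D.W, w *ᵥ κ = 0 := by
  apply inv_zero h
  intro w hw
  rw [Matrix.mulVec_sum]
  simp only [Matrix.mulVec_mulVec]
  exact sum_mul h hw fun u => u *ᵥ κ

theorem B_nonneg (h : RDO D) (i : Fin r) {l : Fin r → ℤ} (hl : Reg l) :
    0 ≤ l ⬝ᵥ (D.A *ᵥ Pi.single i 1) := by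
  have h1 : ∀ w ∈ D.W, l ⬝ᵥ (D.A *ᵥ (w *ᵥ Pi.single i 1)) ≤ l ⬝ᵥ (D.A *ᵥ Pi.single i 1) := by
    intro w hw
    by_cases he : w *ᵥ (Pi.single i 1 : Fin r → ℤ) = Pi.single i 1
    · rw [he]
    · have h2 := h.lt i l hl _ (h.S_W i w hw _ (h.top i).1) he
      rw [h.qf.polar, h.qf.polar, h.Q_W w hw] at h2
      omega
  have h2 : ∑ w ∈ D.W, l ⬝ᵥ (D.A *ᵥ (w *ᵥ Pi.single i 1)) = 0 := by
    rw [← dotProduct_sum, ← Matrix.mulVec_sum, sum_orbit h, Matrix.mulVec_zero,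
      dotProduct_zero]
  have h3 := Finset.sum_le_sum h1
  rw [h2, Finset.sum_const, nsmul_eq_mul] at h3
  by_contra h4
  have h5 : 0 < (D.W.card : ℤ) := by
    have := Finset.card_pos.2 ⟨1, h.W_one⟩
    exact_mod_cast this
  have h6 := mul_neg_of_pos_of_neg h5 (not_le.1 h4)
  omega

theorem Q_nonneg (h : RDO D) (l : Fin r → ℤ) : 0 ≤ D.Q l := by
  obtain ⟨c, hc, h1⟩ := h.pd
  have h2 := (h1 l).1
  have h3 : (0 : ℝ) ≤ D.Q l := le_trans (mul_nonneg hc.le (sq_nonneg _)) h2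
  exact_mod_cast h3

theorem Q_single (h : RDO D) (i : Fin r) : 0 < D.Q (Pi.single i 1) := by
  obtain ⟨c, hc, h1⟩ := h.pd
  have h2 := (h1 (Pi.single i 1)).1
  have h3 : sz (Pi.single i 1 : Fin r → ℤ) - 1 = 1 := by
    unfold sz
    rw [add_sub_cancel_left, Finset.sum_eq_single i]
    · simp
    · intro j _ hj
      rw [Pi.single_eq_of_ne hj]
      simp
    · intro hi
      exact absurd (Finset.mem_univ i) hi
  rw [h3] at h2
  have h4 : (0 : ℝ) < D.Q (Pi.single i 1) := by nlinarith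
  exact_mod_cast h4

theorem Q_step (h : RDO D) (i : Fin r) {l : Fin r → ℤ} (hl : Reg l) :
    D.Q l < D.Q (l + Pi.single i 1) := by
  rw [h.qf.polar]
  have h1 := B_nonneg h i hl
  have h2 := Q_single h i
  omega

/-- induction along `Q` -/
theorem ind (h : RDO D) {P : (Fin r → ℤ) → Prop} (hw : ∀ w ∈ D.W, ∀ l, P (w *ᵥ l) → P l)
    (h0 : ∀ l i, l i = 0 → P l) (h1 : P 1)
    (hs : ∀ i l, Reg l → P l → (∀ κ ∈ D.S i, κ ≠ Pi.single i 1 → P (l + κ)) →
      P (l + Pi.single i 1)) : ∀ l, P l := by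
  have key : ∀ (n : ℕ) (l : Fin r → ℤ), (D.Q l).toNat = n → P l := by
    intro n
    induction n using Nat.strong_induction_on with
    | _ n ih =>
      intro l hn
      obtain ⟨w, hwW, hpos⟩ := h.str l
      apply hw w hwW
      by_cases hz : ∃ i, (w *ᵥ l) i = 0
      · obtain ⟨i, hi⟩ := hz
        exact h0 _ i hi
      have hreg : Reg (w *ᵥ l) := by
        intro i
        have h2 := hpos i
        have h3 : (w *ᵥ l) i ≠ 0 := fun h3 => hz ⟨i, h3⟩
        omega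
      have hQ : D.Q (w *ᵥ l) = D.Q l := h.Q_W w hwW l
      generalize hm : w *ᵥ l = m at hreg hQ
      by_cases hm1 : m = 1
      · rw [hm1]
        exact h1
      obtain ⟨i, hi⟩ : ∃ i, 2 ≤ m i := by
        by_contra hno
        apply hm1
        funext i
        have h2 := hreg i
        have h3 : ¬ 2 ≤ m i := fun h3 => hno ⟨i, h3⟩
        rw [Pi.one_apply]
        omega
      set l' : Fin r → ℤ := m - Pi.single i 1 with hl'
      have hml : m = l' + Pi.single i 1 := by rw [hl', sub_add_cancel]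
      have hreg' : Reg l' := by
        intro j
        rw [hl', Pi.sub_apply]
        by_cases hj : j = i
        · subst hj
          rw [Pi.single_eq_same]
          omega
        · rw [Pi.single_eq_of_ne hj]
          have := hreg j
          omega
      have hQm : D.Q (l' + Pi.single i 1) = D.Q l := by rw [← hml, hQ]
      have hlt : ∀ l'', D.Q l'' < D.Q (l' + Pi.single i 1) → P l'' := by
        intro l'' h2
        refine ih (D.Q l'').toNat ?_ l'' rfl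
        have h3 := Q_nonneg h l''
        rw [hQm] at h2
        omega
      rw [hml]
      exact hs i l' hreg' (hlt l' (Q_step h i hreg'))
        fun κ hκ hne => hlt _ (h.lt i l' hreg' κ hκ hne)
  intro l
  exact key _ l rfl

/-- the rule, solved for the top term -/
theorem rule' (h : RDO D) (i : Fin r) (x : Fin r → ℂ) (l : Fin r → ℤ) :
    D.ψ x (l + Pi.single i 1) = x i * D.ψ x l -
      ∑ κ ∈ (D.S i).erase (Pi.single i 1), (D.P i κ : ℂ) * D.ψ x (l + κ) := by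
  rw [h.rule i x l, ← Finset.add_sum_erase _ _ (h.top i).1, (h.top i).2]
  push_cast
  ring


/-- the polynomials `ψ` are continuous -/
theorem cont_psi (h : RDO D) : ∀ l, Continuous fun x => D.ψ x l := by
  refine ind h (P := fun l => Continuous fun x => D.ψ x l) ?_ ?_ ?_ ?_
  · intro w hw l hl
    have h1 : (fun x => D.ψ x l) = fun x => (w.det : ℂ) * D.ψ x (w *ᵥ l) := by
      funext x
      exact psi_eq h hw x l
    rw [h1]
    exact continuous_const.mul hl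
  · intro l i hi
    have h1 : (fun x => D.ψ x l) = fun _ => 0 := by
      funext x
      exact h.wall x l i hi
    rw [h1]
    exact continuous_const
  · have h1 : (fun x => D.ψ x 1) = fun _ => 1 := by
      funext x
      exact h.one x
    rw [h1]
    exact continuous_const
  · intro i l _ hl hκ
    have h1 : (fun x => D.ψ x (l + Pi.single i 1)) = fun x => x i * D.ψ x l -
        ∑ κ ∈ (D.S i).erase (Pi.single i 1), (D.P i κ : ℂ) * D.ψ x (l + κ) := by
      funext x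
      exact rule' h i x l
    rw [h1]
    refine ((continuous_apply i).mul hl).sub (continuous_finsetSum _ fun κ hm => ?_)
    exact continuous_const.mul (hκ κ (Finset.mem_of_mem_erase hm) (Finset.ne_of_mem_erase hm))

theorem eu_add (a b : ℝ) : eu (a + b) = eu a * eu b := by
  unfold eu
  rw [← Complex.exp_add]
  congr 1
  push_cast
  ring

theorem eu_zero : eu 0 = 1 := by
  unfold eu
  simp

theorem eu_conj (a : ℝ) : conj (eu a) = eu (-a) := by
  unfold eu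
  rw [← Complex.exp_conj]
  congr 1
  simp only [map_mul, Complex.conj_ofReal, Complex.conj_I, Complex.ofReal_neg, map_ofNat]
  ring

theorem eu_sum {ι : Type} (s : Finset ι) (f : ι → ℝ) : eu (∑ i ∈ s, f i) = ∏ i ∈ s, eu (f i) := by
  classical
  induction s using Finset.induction_on with
  | empty => rw [Finset.sum_empty, Finset.prod_empty, eu_zero]
  | insert a s ha ih => rw [Finset.sum_insert ha, Finset.prod_insert ha, eu_add, ih]

theorem cont_eu : Continuous eu := by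
  unfold eu
  fun_prop

theorem cont_dz {r : ℕ} (κ : Fin r → ℤ) : Continuous (dz κ) := by
  unfold dz
  fun_prop

theorem dz_add {r : ℕ} (κ κ' : Fin r → ℤ) (θ : Fin r → ℝ) : dz (κ + κ') θ = dz κ θ + dz κ' θ := by
  unfold dz
  rw [← Finset.sum_add_distrib]
  refine Finset.sum_congr rfl fun i _ => ?_
  rw [Pi.add_apply]
  push_cast
  ring

theorem dz_sub {r : ℕ} (κ κ' : Fin r → ℤ) (θ : Fin r → ℝ) : dz (κ - κ') θ = dz κ θ - dz κ' θ := by
  unfold dz
  rw [← Finset.sum_sub_distrib]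
  refine Finset.sum_congr rfl fun i _ => ?_
  rw [Pi.sub_apply]
  push_cast
  ring

theorem dz_smul {r : ℕ} (c : ℤ) (κ : Fin r → ℤ) (θ : Fin r → ℝ) : dz (c • κ) θ = c * dz κ θ := by
  unfold dz
  rw [Finset.mul_sum]
  refine Finset.sum_congr rfl fun i _ => ?_
  rw [Pi.smul_apply, smul_eq_mul]
  push_cast
  ring

theorem dz_ind {r : ℕ} (T : Finset (Fin r)) (θ : Fin r → ℝ) : dz (STZ.ind T) θ = ∑ i ∈ T, θ i := by
  unfold dz STZ.ind
  rw [← Finset.sum_filter_add_sum_filter_not Finset.univ (fun i => i ∈ T)]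
  have h1 : ∑ i ∈ Finset.univ.filter (fun i => i ∈ T), ((if i ∈ T then (1 : ℤ) else 0 : ℤ) : ℝ) * θ i =
      ∑ i ∈ T, θ i := by
    rw [Finset.filter_mem_eq_inter, Finset.univ_inter]
    refine Finset.sum_congr rfl fun i hi => ?_
    rw [if_pos hi]
    simp
  have h2 : ∑ i ∈ Finset.univ.filter (fun i => ¬ i ∈ T),
      ((if i ∈ T then (1 : ℤ) else 0 : ℤ) : ℝ) * θ i = 0 := by
    refine Finset.sum_eq_zero fun i hi => ?_
    rw [if_neg (Finset.mem_filter.1 hi).2]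
    simp
  rw [h1, h2, add_zero]

theorem cont_XT : Continuous fun θ : Fin r → ℝ => XT D θ := by
  refine continuous_pi fun i => ?_
  unfold XT
  exact continuous_finsetSum _ fun κ _ => continuous_const.mul (cont_eu.comp (cont_dz κ))

theorem cont_FM (h : RDO D) (P : RT r) (M : ℕ) : Continuous fun θ : Fin r → ℝ => FM D P M (XT D θ) := by
  unfold FM
  have h1 : Continuous fun θ : Fin r → ℝ => D.ψ (XT D θ) (fun _ => (M : ℤ)) :=
    (cont_psi h _).comp cont_XT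
  fun_prop

/-- the coefficients as one integral -/
theorem csh_eq (h : RDO D) (P : RT r) (M : ℕ) (l ν : Fin r → ℤ) :
    csh D P M l ν = ∫ θ in Set.Icc (0 : Fin r → ℝ) 1,
      FM D P M (XT D θ) * conj (AT D ν θ) * eu (dz l θ) := by
  unfold csh sh
  have hc : ∀ κ : Fin r → ℤ, IntegrableOn (fun θ : Fin r → ℝ => FM D P M (XT D θ) * eu (-(dz κ θ)))
      (Set.Icc (0 : Fin r → ℝ) 1) := by
    intro κ
    refine Continuous.integrableOn_Icc ?_
    exact (cont_FM h P M).mul (cont_eu.comp (cont_dz κ).neg)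
  have h1 : ∀ w ∈ D.W, (w.det : ℂ) * ∫ θ in Set.Icc (0 : Fin r → ℝ) 1,
      FM D P M (XT D θ) * eu (-(dz (w *ᵥ ν - l) θ)) =
      ∫ θ in Set.Icc (0 : Fin r → ℝ) 1, (w.det : ℂ) *
        (FM D P M (XT D θ) * eu (-(dz (w *ᵥ ν - l) θ))) := by
    intro w _
    exact (integral_const_mul _ _).symm
  rw [Finset.sum_congr rfl h1, ← integral_finsetSum _ fun w _ => (hc _).const_mul _]
  refine integral_congr_ae (Filter.Eventually.of_forall fun θ => ?_)
  change ∑ w ∈ D.W, (w.det : ℂ) * (FM D P M (XT D θ) * eu (-(dz (w *ᵥ ν - l) θ))) =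
    FM D P M (XT D θ) * conj (AT D ν θ) * eu (dz l θ)
  unfold AT
  rw [map_sum, Finset.mul_sum, Finset.sum_mul]
  refine Finset.sum_congr rfl fun w _ => ?_
  rw [map_mul, eu_conj, dz_sub]
  have h2 : conj ((w.det : ℤ) : ℂ) = ((w.det : ℤ) : ℂ) := map_intCast (starRingEnd ℂ) _
  rw [h2, show -(dz (w *ᵥ ν) θ - dz l θ) = -dz (w *ᵥ ν) θ + dz l θ by ring, eu_add]
  ring

theorem alt_sum {r : ℕ} (S : Finset (Fin r)) (f : Fin r → ℂ) :
    ∑ T ∈ S.powerset, (-1 : ℂ) ^ T.card * ∏ i ∈ T, f i = ∏ i ∈ S, (1 - f i) := by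
  classical
  have h1 := Finset.prod_add (fun i => -f i) (fun _ => (1 : ℂ)) S
  have h2 : ∏ i ∈ S, (-f i + 1) = ∏ i ∈ S, (1 - f i) := Finset.prod_congr rfl fun i _ => by ring
  rw [← h2, h1]
  refine Finset.sum_congr rfl fun T _ => ?_
  rw [Finset.prod_const_one, mul_one]
  have h3 : ∏ i ∈ T, (-f i) = ∏ i ∈ T, ((-1 : ℂ) * f i) := Finset.prod_congr rfl fun i _ => by ring
  rw [h3, Finset.prod_mul_distrib, Finset.prod_const]

/-- the differences of the coefficients -/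
theorem DS_csh (h : RDO D) (P : RT r) (M : ℕ) (q : ℕ) (b ν x : Fin r → ℤ) (S : Finset (Fin r)) :
    DS S (fun x => csh D P M ((q : ℤ) • x + b) ν) x = ∫ θ in Set.Icc (0 : Fin r → ℝ) 1,
      FM D P M (XT D θ) * conj (AT D ν θ) * eu (dz ((q : ℤ) • x + b) θ) *
        ∏ i ∈ S, (1 - eu ((q : ℝ) * θ i)) := by
  unfold DS
  have hAT : Continuous fun θ : Fin r → ℝ => conj (AT D ν θ) := by
    refine Complex.continuous_conj.comp ?_
    unfold AT
    exact continuous_finsetSum _ fun w _ => continuous_const.mul (cont_eu.comp (cont_dz _))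
  have hc : ∀ κ : Fin r → ℤ, IntegrableOn (fun θ : Fin r → ℝ =>
      FM D P M (XT D θ) * conj (AT D ν θ) * eu (dz κ θ)) (Set.Icc (0 : Fin r → ℝ) 1) := by
    intro κ
    exact Continuous.integrableOn_Icc (((cont_FM h P M).mul hAT).mul (cont_eu.comp (cont_dz κ)))
  have h1 : ∀ T ∈ S.powerset, (-1 : ℂ) ^ T.card * csh D P M ((q : ℤ) • (x + STZ.ind T) + b) ν =
      ∫ θ in Set.Icc (0 : Fin r → ℝ) 1, (-1 : ℂ) ^ T.card *
        (FM D P M (XT D θ) * conj (AT D ν θ) * eu (dz ((q : ℤ) • (x + STZ.ind T) + b) θ)) := by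
    intro T _
    rw [csh_eq h, integral_const_mul]
  rw [Finset.sum_congr rfl h1, ← integral_finsetSum _ fun T _ => (hc _).const_mul _]
  refine integral_congr_ae (Filter.Eventually.of_forall fun θ => ?_)
  change ∑ T ∈ S.powerset, (-1 : ℂ) ^ T.card *
      (FM D P M (XT D θ) * conj (AT D ν θ) * eu (dz ((q : ℤ) • (x + STZ.ind T) + b) θ)) =
    FM D P M (XT D θ) * conj (AT D ν θ) * eu (dz ((q : ℤ) • x + b) θ) *
      ∏ i ∈ S, (1 - eu ((q : ℝ) * θ i))
  rw [← alt_sum S, Finset.mul_sum]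
  refine Finset.sum_congr rfl fun T _ => ?_
  have h2 : dz ((q : ℤ) • (x + STZ.ind T) + b) θ = dz ((q : ℤ) • x + b) θ + ∑ i ∈ T, (q : ℝ) * θ i := by
    rw [smul_add, dz_add, dz_add, dz_add, dz_smul _ (STZ.ind T), dz_ind, Finset.mul_sum]
    push_cast
    ring
  rw [h2, eu_add, eu_sum]
  ring

/-- the exponential sums over boxes -/
theorem exp_sum (hWEYX : S_WEYX) (hWWF : S_WWF) {r : ℕ} (Q : (Fin r → ℤ) → ℤ)
    (A : Matrix (Fin r) (Fin r) ℤ) (hQ : QF Q A) (q K : ℕ) (hq : 1 ≤ q) (hK : 1 ≤ K) :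
    ∃ c : ℕ, 1 ≤ c ∧ ∀ (M : ℕ) (t : ℝ) (b z : Fin r → ℤ) (m : Fin r → ℕ), 1 ≤ M →
      (∀ i, m i ≤ K * M) →
      ‖∑ x ∈ bxn z m, eu (t * Q ((q : ℤ) • x + b))‖ ≤
        (K : ℝ) ^ ((r : ℝ) / 2) * WW M c t ^ ((r : ℝ) / 2) := by
  have hdet : (((q : ℤ) ^ 2) • A).det ≠ 0 := by
    rw [Matrix.det_smul]
    refine mul_ne_zero (pow_ne_zero _ (pow_ne_zero _ ?_)) hQ.det
    omega
  obtain ⟨c, hc, h1⟩ := hWEYX r (((q : ℤ) ^ 2) • A) hdet
  refine ⟨K * c, Nat.mul_pos hK hc, ?_⟩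
  intro M t b z m hM hm
  have h2 := h1 (K * M) z m t (fun x => t * Q ((q : ℤ) • x + b))
    (fun x => t * (Q ((q : ℤ) • x) + (q : ℤ) * (b ⬝ᵥ (A *ᵥ x)) : ℤ)) (Nat.mul_pos hK hM) hm ?_
  · have h3 := hWWF.scale K M c t hK
    have h4 := hWWF.ge M (K * c) t
    have h5 : (0 : ℝ) ≤ WW (K * M) c t := le_trans (Nat.cast_nonneg _) (hWWF.ge (K * M) c t)
    have h6 : (0 : ℝ) ≤ WW M (K * c) t := le_trans (Nat.cast_nonneg _) h4
    have h7 : ‖∑ x ∈ bxn z m, eu (t * Q ((q : ℤ) • x + b))‖ ^ 2 ≤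
        ((K : ℝ) * WW M (K * c) t) ^ r := le_trans h2 (pow_le_pow_left₀ h5 h3 r)
    have h8 : ((K : ℝ) * WW M (K * c) t) ^ r = (((K : ℝ) * WW M (K * c) t) ^ ((r : ℝ) / 2)) ^ 2 := by
      rw [← Real.rpow_natCast, ← Real.rpow_natCast, ← Real.rpow_mul (by positivity)]
      congr 1
      push_cast
      ring
    rw [h8] at h7
    have h9 := (sq_le_sq₀ (norm_nonneg _) (Real.rpow_nonneg (by positivity) _)).1 h7
    rwa [Real.mul_rpow (Nat.cast_nonneg _) h6] at h9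
  · intro x y
    have h2 : (q : ℤ) • (x + y) + b = ((q : ℤ) • x + b) + (q : ℤ) • y := by
      rw [smul_add]
      abel
    have h3 : Q ((q : ℤ) • (x + y) + b) = Q ((q : ℤ) • x + b) +
        (Q ((q : ℤ) • y) + (q : ℤ) * (b ⬝ᵥ (A *ᵥ y))) + x ⬝ᵥ ((((q : ℤ) ^ 2) • A) *ᵥ y) := by
      rw [h2, hQ.polar]
      rw [Matrix.mulVec_smul, Matrix.smul_mulVec, dotProduct_smul, dotProduct_smul, add_dotProduct,
        smul_dotProduct, smul_eq_mul, smul_eq_mul, smul_eq_mul]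
      ring
    rw [h3]
    push_cast
    ring

/-- products of weights -/
theorem wcl_prod (hW : WCLF) {r : ℕ} {ι : Type} (s : Finset ι) (z : Fin r → ℤ) (n : Fin r → ℕ) (R : ℝ)
    (hR : 0 < R) (L : ι → ℝ) (f : ι → (Fin r → ℤ) → ℂ) (hL : ∀ p ∈ s, 0 ≤ L p)
    (hf : ∀ p ∈ s, WCl z n R (L p) (f p)) :
    WCl z n R (∏ p ∈ s, (2 ^ r * L p)) (fun x => ∏ p ∈ s, f p x) := by
  classical
  induction s using Finset.induction_on with
  | empty =>
    have h1 := hW.const r z n R 1 hR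
    rw [norm_one] at h1
    simpa using h1
  | insert a s ha ih =>
    have h1 := ih (fun p hp => hL p (Finset.mem_insert_of_mem hp))
      (fun p hp => hf p (Finset.mem_insert_of_mem hp))
    have h2 := hW.mul r z n R (L a) (∏ p ∈ s, (2 ^ r * L p)) (f a) (fun x => ∏ p ∈ s, f p x) hR
      (hL a (Finset.mem_insert_self _ _))
      (Finset.prod_nonneg fun p hp => mul_nonneg (by positivity) (hL p (Finset.mem_insert_of_mem hp)))
      (hf a (Finset.mem_insert_self _ _)) h1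
    have h3 : 2 ^ r * (L a * ∏ p ∈ s, (2 ^ r * L p)) = ∏ p ∈ insert a s, (2 ^ r * L p) := by
      rw [Finset.prod_insert ha]
      ring
    have h4 : (fun x => f a x * ∏ p ∈ s, f p x) = fun x => ∏ p ∈ insert a s, f p x := by
      funext x
      rw [Finset.prod_insert ha]
    rw [h3, h4] at h2
    exact h2

/-- splitting of a box into residue classes -/
theorem split {r : ℕ} (q : ℕ) (hq : 1 ≤ q) (α β : Fin r → ℤ) (F : (Fin r → ℤ) → ℂ) :
    ∑ l ∈ Fintype.piFinset (fun i => Finset.Ico (α i) (β i)), F l =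
      ∑ b ∈ Fintype.piFinset (fun _ : Fin r => Finset.Ico (0 : ℤ) q),
        ∑ x ∈ bxn (fun i => -((b i - α i) / q)) (fun i => ((b i - α i) / q - (b i - β i) / q).toNat),
          F ((q : ℤ) • x + b) := by
  have hq0 : (0 : ℤ) < q := by exact_mod_cast hq
  rw [Finset.sum_sigma']
  refine Finset.sum_nbij' (i := fun l => ⟨fun i => l i % q, fun i => l i / q⟩)
    (j := fun p => (q : ℤ) • p.2 + p.1) ?_ ?_ ?_ ?_ ?_
  · intro l hl
    rw [Fintype.mem_piFinset] at hl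
    rw [Finset.mem_sigma]
    refine ⟨?_, ?_⟩
    · rw [Fintype.mem_piFinset]
      intro i
      rw [Finset.mem_Ico]
      exact ⟨Int.emod_nonneg _ hq0.ne', Int.emod_lt_of_pos _ hq0⟩
    · unfold bxn
      rw [Fintype.mem_piFinset]
      intro i
      have h1 := Finset.mem_Ico.1 (hl i)
      have h2 : l i % q + q * (l i / q) = l i := Int.emod_add_mul_ediv _ _
      have h3 : -(l i / q) ≤ (l i % q - α i) / q := by
        rw [Int.le_ediv_iff_mul_le hq0]
        nlinarith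
      have h4 : ¬ -(l i / q) ≤ (l i % q - β i) / q := by
        rw [Int.le_ediv_iff_mul_le hq0]
        nlinarith
      rw [Finset.mem_Ico]
      change -((l i % q - α i) / q) ≤ l i / q ∧
        l i / q < -((l i % q - α i) / q) + ((l i % q - α i) / q - (l i % q - β i) / q).toNat
      omega
  · intro p hp
    rw [Finset.mem_sigma, Fintype.mem_piFinset] at hp
    have hp2 := hp.2
    unfold bxn at hp2
    rw [Fintype.mem_piFinset] at hp2
    rw [Fintype.mem_piFinset]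
    intro i
    have h1 : -((p.1 i - α i) / q) ≤ p.2 i ∧
        p.2 i < -((p.1 i - α i) / q) + ((p.1 i - α i) / q - (p.1 i - β i) / q).toNat :=
      Finset.mem_Ico.1 (hp2 i)
    have h3 : -(p.2 i) ≤ (p.1 i - α i) / q := by omega
    have h4 : ¬ -(p.2 i) ≤ (p.1 i - β i) / q := by omega
    rw [Int.le_ediv_iff_mul_le hq0] at h3 h4
    rw [Finset.mem_Ico, Pi.add_apply, Pi.smul_apply, smul_eq_mul]
    constructor <;> nlinarith
  · intro l _
    funext i
    rw [Pi.add_apply, Pi.smul_apply, smul_eq_mul]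
    exact Int.mul_ediv_add_emod _ _
  · intro p hp
    rw [Finset.mem_sigma, Fintype.mem_piFinset] at hp
    have h1 : ∀ i, 0 ≤ p.1 i ∧ p.1 i < q := fun i => Finset.mem_Ico.1 (hp.1 i)
    have h2 : (fun i => ((q : ℤ) • p.2 + p.1) i % q) = p.1 := by
      funext i
      rw [Pi.add_apply, Pi.smul_apply, smul_eq_mul, Int.mul_add_emod_self_left]
      exact Int.emod_eq_of_lt (h1 i).1 (h1 i).2
    have h3 : (fun i => ((q : ℤ) • p.2 + p.1) i / q) = p.2 := by
      funext i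
      rw [Pi.add_apply, Pi.smul_apply, smul_eq_mul, Int.mul_add_ediv_left _ _ hq0.ne',
        Int.ediv_eq_zero_of_lt (h1 i).1 (h1 i).2, add_zero]
    rw [h2, h3]
  · intro l _
    congr 1
    funext i
    rw [Pi.add_apply, Pi.smul_apply, smul_eq_mul]
    exact (Int.mul_ediv_add_emod _ _).symm

/-- the sides of the boxes -/
theorem side_le (q C M : ℕ) (hq : 1 ≤ q) (hM : 1 ≤ M) (b α β : ℤ) (h : β - α ≤ 2 * (C * M) + 1) :
    ((b - α) / q - (b - β) / q).toNat ≤ (2 * C + 1) * M := by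
  have hq0 : (0 : ℤ) < q := by exact_mod_cast hq
  have h1 : (b - α) / q * q ≤ b - α := Int.ediv_mul_le _ hq0.ne'
  have h2 : b - β < ((b - β) / q + 1) * q := Int.lt_ediv_add_one_mul_self _ hq0
  have h3 : (b - α) / q - (b - β) / q ≤ 2 * (C * M) + 1 := by
    by_contra h4
    have h5 : 2 * ((C : ℤ) * M) + 2 ≤ (b - α) / q - (b - β) / q := by omega
    have h6 : (2 * ((C : ℤ) * M) + 2) * q ≤ ((b - α) / q - (b - β) / q) * q :=
      mul_le_mul_of_nonneg_right h5 hq0.le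
    have h7 : (0 : ℤ) ≤ (C : ℤ) * M := by positivity
    nlinarith
  have h4 : ((b - α) / q - (b - β) / q).toNat ≤ 2 * (C * M) + 1 := by omega
  have h5 : 2 * (C * M) + 1 ≤ (2 * C + 1) * M := by nlinarith
  exact le_trans h4 h5

/-- the dimension as a weight -/
theorem wcl_dim (hW : WCLF) {r : ℕ} {D : RD r} {P : RT r} {B : Matrix (Fin r) (Fin r) ℤ} {h : ℕ}
    (hR : RTD D P B h) (q K : ℕ) :
    ∃ C : ℝ, 0 ≤ C ∧ ∀ (M : ℕ) (ν b z : Fin r → ℤ) (n : Fin r → ℕ), 1 ≤ M → Reg ν →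
      (∀ x ∈ bxn z n, ∀ i, |((q : ℤ) • x + b) i - ν i| ≤ K * M) →
      WCl z n M (C * ∏ p ∈ P, max (M : ℝ) ((p.2 ⬝ᵥ ν : ℤ) : ℝ))
        (fun x => (D.dim ((q : ℤ) • x + b) : ℂ)) := by
  classical
  set κ : ℂ := ∏ p ∈ P, ((p.2 ⬝ᵥ (1 : Fin r → ℤ) : ℤ) : ℂ) with hκ
  have hpos : ∀ p ∈ P, (0 : ℤ) < p.2 ⬝ᵥ (1 : Fin r → ℤ) := by
    intro p hp
    obtain ⟨h1, h2⟩ := hR.pos p hp
    rw [dotProduct_one]
    obtain ⟨i, hi⟩ : ∃ i, p.2 i ≠ 0 := by
      by_contra hno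
      push Not at hno
      exact h2 (funext hno)
    exact Finset.sum_pos' (fun j _ => h1 j) ⟨i, Finset.mem_univ i, lt_of_le_of_ne (h1 i) hi.symm⟩
  have hκ0 : κ ≠ 0 := by
    rw [hκ]
    refine Finset.prod_ne_zero_iff.2 fun p hp => ?_
    exact_mod_cast (hpos p hp).ne'
  set σ : (Fin r → ℤ) × (Fin r → ℤ) → ℝ := fun p => ∑ i, (p.2 i : ℝ) with hσ
  have hσ0 : ∀ p ∈ P, 0 ≤ σ p := fun p hp =>
    Finset.sum_nonneg fun i _ => by exact_mod_cast (hR.pos p hp).1 i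
  set c : (Fin r → ℤ) × (Fin r → ℤ) → ℝ := fun p => 1 + (q + K) * σ p with hc
  have hc0 : ∀ p ∈ P, 0 ≤ c p := fun p hp =>
    add_nonneg zero_le_one (mul_nonneg (by positivity) (hσ0 p hp))
  refine ⟨2 ^ r * (‖κ⁻¹‖ * ∏ p ∈ P, (2 ^ r * c p)), ?_, ?_⟩
  · refine mul_nonneg (by positivity) (mul_nonneg (norm_nonneg _) ?_)
    exact Finset.prod_nonneg fun p hp => mul_nonneg (by positivity) (hc0 p hp)
  intro M ν b z n hM hν hbox
  have hM0 : (0 : ℝ) < M := by exact_mod_cast hM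
  have hM1 : (1 : ℝ) ≤ M := by exact_mod_cast hM
  set mx : (Fin r → ℤ) × (Fin r → ℤ) → ℝ := fun p => max (M : ℝ) ((p.2 ⬝ᵥ ν : ℤ) : ℝ) with hmx
  have hmx0 : ∀ p, (M : ℝ) ≤ mx p := fun p => le_max_left _ _
  have hmxp : ∀ p, 0 ≤ mx p := fun p => le_trans hM0.le (hmx0 p)
  -- one factor
  have hlin : ∀ p ∈ P, WCl z n M (c p * mx p)
      (fun x => ((p.2 ⬝ᵥ ((q : ℤ) • x + b) : ℤ) : ℂ)) := by
    intro p hp
    have h1 : (fun x : Fin r → ℤ => ((p.2 ⬝ᵥ ((q : ℤ) • x + b) : ℤ) : ℂ)) =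
        fun x => ((p.2 ⬝ᵥ b : ℤ) : ℂ) + ∑ i, ((q : ℂ) * (p.2 i : ℂ)) * (x i : ℂ) := by
      funext x
      rw [dotProduct_add, dotProduct_smul, smul_eq_mul]
      unfold dotProduct
      push_cast
      rw [Finset.mul_sum, add_comm]
      congr 1
      exact Finset.sum_congr rfl fun i _ => by ring
    have hnn : ∀ i, (0 : ℝ) ≤ (p.2 i : ℝ) := fun i => by exact_mod_cast (hR.pos p hp).1 i
    rw [h1]
    refine hW.lin r z n M (c p * mx p) _ _ hM0 (mul_nonneg (hc0 p hp) (hmxp p)) ?_ ?_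
    · intro i
      rw [le_div_iff₀ hM0, norm_mul, Complex.norm_natCast, Complex.norm_intCast, abs_of_nonneg (hnn i)]
      have h2 : (p.2 i : ℝ) ≤ σ p := Finset.single_le_sum (fun j _ => hnn j) (Finset.mem_univ i)
      have h3 : (q : ℝ) * (p.2 i : ℝ) ≤ c p := by
        have h4 : (q : ℝ) * (p.2 i : ℝ) ≤ q * σ p := mul_le_mul_of_nonneg_left h2 (Nat.cast_nonneg _)
        have h5 : (0 : ℝ) ≤ K * σ p := mul_nonneg (Nat.cast_nonneg _) (hσ0 p hp)
        rw [hc]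
        nlinarith
      exact mul_le_mul h3 (hmx0 p) hM0.le (hc0 p hp)
    · intro x hx
      have h2 : ((p.2 ⬝ᵥ b : ℤ) : ℂ) + ∑ i, ((q : ℂ) * (p.2 i : ℂ)) * (x i : ℂ) =
          ((p.2 ⬝ᵥ ((q : ℤ) • x + b) : ℤ) : ℂ) := (congrFun h1 x).symm
      rw [h2, Complex.norm_intCast]
      have h3 : (p.2 ⬝ᵥ ((q : ℤ) • x + b) : ℤ) = p.2 ⬝ᵥ ν + p.2 ⬝ᵥ (((q : ℤ) • x + b) - ν) := by
        rw [← dotProduct_add]
        congr 1
        abel
      have h4 : |((p.2 ⬝ᵥ (((q : ℤ) • x + b) - ν) : ℤ) : ℝ)| ≤ σ p * (K * M) := by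
        unfold dotProduct
        push_cast
        refine le_trans (Finset.abs_sum_le_sum_abs _ _) ?_
        rw [hσ, Finset.sum_mul]
        refine Finset.sum_le_sum fun i _ => ?_
        rw [abs_mul, abs_of_nonneg (hnn i)]
        refine mul_le_mul_of_nonneg_left ?_ (hnn i)
        have h5 := hbox x hx i
        have h6 : ((|((q : ℤ) • x + b) i - ν i| : ℤ) : ℝ) ≤ ((K * M : ℤ) : ℝ) := by exact_mod_cast h5
        rw [Int.cast_abs] at h6
        simpa using h6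
      have h5 : (0 : ℤ) ≤ p.2 ⬝ᵥ ν := by
        refine Finset.sum_nonneg fun i _ => mul_nonneg ((hR.pos p hp).1 i) ?_
        have := hν i
        omega
      have h6 : (0 : ℝ) ≤ ((p.2 ⬝ᵥ ν : ℤ) : ℝ) := by exact_mod_cast h5
      have h7 : ((p.2 ⬝ᵥ ν : ℤ) : ℝ) ≤ mx p := le_max_right _ _
      rw [h3]
      push_cast
      refine le_trans (abs_add_le _ _) ?_
      rw [abs_of_nonneg h6]
      have h8 : σ p * (K * M) ≤ K * σ p * mx p := by
        have : (0 : ℝ) ≤ K * σ p := mul_nonneg (Nat.cast_nonneg _) (hσ0 p hp)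
        have h9 := mul_le_mul_of_nonneg_left (hmx0 p) this
        nlinarith
      have h9 : (0 : ℝ) ≤ q * σ p * mx p :=
        mul_nonneg (mul_nonneg (Nat.cast_nonneg _) (hσ0 p hp)) (hmxp p)
      have h10 : c p * mx p = mx p + K * σ p * mx p + q * σ p * mx p := by
        rw [hc]
        ring
      rw [h10]
      linarith
  have h1 := wcl_prod hW P z n M hM0 (fun p => c p * mx p)
    (fun p x => ((p.2 ⬝ᵥ ((q : ℤ) • x + b) : ℤ) : ℂ))
    (fun p hp => mul_nonneg (hc0 p hp) (hmxp p)) hlin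
  have h2 := hW.mul r z n M ‖κ⁻¹‖ (∏ p ∈ P, (2 ^ r * (c p * mx p))) (fun _ => κ⁻¹) _ hM0 (norm_nonneg _)
    (Finset.prod_nonneg fun p hp => mul_nonneg (by positivity) (mul_nonneg (hc0 p hp) (hmxp p)))
    (hW.const r z n M κ⁻¹ hM0) h1
  have h3 : (fun x : Fin r → ℤ => κ⁻¹ * ∏ p ∈ P, ((p.2 ⬝ᵥ ((q : ℤ) • x + b) : ℤ) : ℂ)) =
      fun x => (D.dim ((q : ℤ) • x + b) : ℂ) := by
    funext x
    have h4 := hR.dimP ((q : ℤ) • x + b)
    have h5 : (D.dim ((q : ℤ) • x + b) : ℂ) * κ =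
        ∏ p ∈ P, ((p.2 ⬝ᵥ ((q : ℤ) • x + b) : ℤ) : ℂ) := by
      rw [hκ]
      exact_mod_cast h4
    rw [← h5]
    field_simp
  have h4 : 2 ^ r * (‖κ⁻¹‖ * ∏ p ∈ P, (2 ^ r * (c p * mx p))) =
      2 ^ r * (‖κ⁻¹‖ * ∏ p ∈ P, (2 ^ r * c p)) * ∏ p ∈ P, mx p := by
    have h5 : ∏ p ∈ P, (2 ^ r * (c p * mx p)) = (∏ p ∈ P, (2 ^ r * c p)) * ∏ p ∈ P, mx p := by
      rw [← Finset.prod_mul_distrib]
      exact Finset.prod_congr rfl fun p _ => by ring
    rw [h5]
    ring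
  rw [h3, h4] at h2
  exact h2

end OPB

open OPB in
theorem t_OPB : M_OPB := by
  intro hWEYX hWWF hABEL hWCLF hSUPC hCDIF r D P B h hX hR
  have hO : RDO D := hX.o
  obtain ⟨C₁, hC₁⟩ := hSUPC r D P B h hX hR
  obtain ⟨C₂, hC₂, hcd⟩ := hCDIF r D P B h hX hR
  set q : ℕ := B.det.natAbs with hq
  have hq1 : 1 ≤ q := Int.natAbs_pos.2 hR.bas
  obtain ⟨c, hc, hexp⟩ := exp_sum hWEYX hWWF D.Q D.A hX.w.qf q (2 * C₁ + 1) hq1 (by omega)
  obtain ⟨C₃, hC₃, hdim⟩ := wcl_dim hWCLF hR q C₁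
  set K : ℕ := 2 * C₁ + 1 with hK
  set κ : ℝ := ∏ p ∈ P, ((p.2 ⬝ᵥ (1 : Fin r → ℤ) : ℤ) : ℝ) with hκ
  have hκ0 : 0 ≤ κ := by
    refine Finset.prod_nonneg fun p hp => ?_
    have h1 : (0 : ℤ) ≤ p.2 ⬝ᵥ (1 : Fin r → ℤ) := by
      rw [dotProduct_one]
      exact Finset.sum_nonneg fun i _ => (hR.pos p hp).1 i
    exact_mod_cast h1
  refine ⟨(q : ℝ) ^ r * ((K : ℝ) ^ ((r : ℝ) / 2) * (2 ^ r * (C₃ * C₂)) * κ * (1 + K) ^ r), c, by positivity,
    hc, ?_⟩
  intro N M t ν hN hM hν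
  have hM0 : (0 : ℝ) < M := by exact_mod_cast hM
  set F : (Fin r → ℤ) → ℂ := fun l => (D.dim l : ℂ) * eu (t * D.Q l) * csh D P M l ν with hF
  set α : Fin r → ℤ := fun i => max 1 (ν i - C₁ * M) with hα
  set β : Fin r → ℤ := fun i => min (1 + N) (ν i + C₁ * M + 1) with hβ
  -- restriction to the box
  have hbox : ∑ l ∈ bx (1 : Fin r → ℤ) N, F l =
      ∑ l ∈ Fintype.piFinset (fun i => Finset.Ico (α i) (β i)), F l := by
    symm
    refine Finset.sum_subset ?_ ?_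
    · intro l hl
      rw [Fintype.mem_piFinset] at hl
      unfold bx
      rw [Fintype.mem_piFinset]
      intro i
      have h1 := Finset.mem_Ico.1 (hl i)
      rw [Finset.mem_Ico, Pi.one_apply]
      exact ⟨le_trans (le_max_left _ _) h1.1, lt_of_lt_of_le h1.2 (min_le_left _ _)⟩
    · intro l hl hl'
      by_contra hne
      apply hl'
      unfold bx at hl
      rw [Fintype.mem_piFinset] at hl
      have h1 : csh D P M l ν ≠ 0 := fun h2 => hne (by rw [hF]; change _ * csh D P M l ν = 0; rw [h2, mul_zero])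
      have h2 := hC₁ M l ν hM (fun i => (Finset.mem_Ico.1 (hl i)).1) hν h1
      rw [Fintype.mem_piFinset]
      intro i
      have h3 := Finset.mem_Ico.1 (hl i)
      rw [Pi.one_apply] at h3
      have h4 := abs_le.1 (h2 i)
      rw [Finset.mem_Ico, hα, hβ]
      exact ⟨max_le h3.1 (by linarith [h4.1]), lt_min h3.2 (by linarith [h4.2])⟩
  rw [hbox, split q hq1 α β F]
  -- one residue class
  have hone : ∀ b ∈ Fintype.piFinset (fun _ : Fin r => Finset.Ico (0 : ℤ) q),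
      ‖∑ x ∈ bxn (fun i => -((b i - α i) / q)) (fun i => ((b i - α i) / q - (b i - β i) / q).toNat),
        F ((q : ℤ) • x + b)‖ ≤
      (K : ℝ) ^ ((r : ℝ) / 2) * (2 ^ r * (C₃ * C₂)) * κ * (1 + K) ^ r *
        (D.dim ν * (WW M c t ^ ((r : ℝ) / 2) / (M : ℝ) ^ r)) := by
    intro b hb
    set z : Fin r → ℤ := fun i => -((b i - α i) / q) with hz
    set n : Fin r → ℕ := fun i => ((b i - α i) / q - (b i - β i) / q).toNat with hn
    have hside : ∀ i, n i ≤ K * M := by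
      intro i
      refine side_le q C₁ M hq1 hM (b i) (α i) (β i) ?_
      have h1 : β i ≤ ν i + C₁ * M + 1 := min_le_right _ _
      have h2 : ν i - C₁ * M ≤ α i := le_max_right _ _
      linarith
    have hmem : ∀ x ∈ bxn z n, ∀ i, |((q : ℤ) • x + b) i - ν i| ≤ C₁ * M := by
      intro x hx i
      unfold bxn at hx
      rw [Fintype.mem_piFinset] at hx
      have hq0 : (0 : ℤ) < q := by exact_mod_cast hq1
      have h1 : -((b i - α i) / q) ≤ x i ∧
          x i < -((b i - α i) / q) + ((b i - α i) / q - (b i - β i) / q).toNat :=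
        Finset.mem_Ico.1 (hx i)
      have h3 : -(x i) ≤ (b i - α i) / q := by omega
      have h4 : ¬ -(x i) ≤ (b i - β i) / q := by omega
      rw [Int.le_ediv_iff_mul_le hq0] at h3 h4
      have h5 : β i ≤ ν i + C₁ * M + 1 := min_le_right _ _
      have h6 : ν i - C₁ * M ≤ α i := le_max_right _ _
      rw [Pi.add_apply, Pi.smul_apply, smul_eq_mul, abs_le]
      push Not at h4
      constructor
      · nlinarith
      · have h7 : (q : ℤ) * x i + b i < β i := by nlinarith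
        linarith
    set Lc : ℝ := C₂ / (M : ℝ) ^ r * ∏ p ∈ P, min 1 (((p.2 ⬝ᵥ ν : ℤ) : ℝ) / M) with hLc
    have hmin : ∀ p ∈ P, (0 : ℝ) ≤ ((p.2 ⬝ᵥ ν : ℤ) : ℝ) := by
      intro p hp
      have h5 : (0 : ℤ) ≤ p.2 ⬝ᵥ ν := by
        refine Finset.sum_nonneg fun i _ => mul_nonneg ((hR.pos p hp).1 i) ?_
        have := hν i
        omega
      exact_mod_cast h5
    have hprod0 : (0 : ℝ) ≤ ∏ p ∈ P, min 1 (((p.2 ⬝ᵥ ν : ℤ) : ℝ) / M) :=
      Finset.prod_nonneg fun p hp => le_min zero_le_one (div_nonneg (hmin p hp) hM0.le)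
    have hLc0 : 0 ≤ Lc := mul_nonneg (by positivity) hprod0
    have hw1 : WCl z n M Lc (fun x => csh D P M ((q : ℤ) • x + b) ν) := by
      intro S x _ _
      have h1 := hcd M ν ((q : ℤ) • x + b) S hM hν
      rw [DS_csh hO]
      refine le_trans h1 (le_of_eq ?_)
      rw [hLc, pow_add]
      field_simp
    have hw2 := hdim M ν b z n hM hν hmem
    have hmx0 : (0 : ℝ) ≤ ∏ p ∈ P, max (M : ℝ) ((p.2 ⬝ᵥ ν : ℤ) : ℝ) :=
      Finset.prod_nonneg fun p _ => le_trans hM0.le (le_max_left _ _)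
    have hw3 := hWCLF.mul r z n M _ _ _ _ hM0 (mul_nonneg hC₃ hmx0) hLc0 hw2 hw1
    have hsub : ∀ m : Fin r → ℕ, (∀ i, m i ≤ n i) →
        ‖∑ x ∈ bxn z m, eu (t * D.Q ((q : ℤ) • x + b))‖ ≤
          (K : ℝ) ^ ((r : ℝ) / 2) * WW M c t ^ ((r : ℝ) / 2) := by
      intro m hm
      exact hexp M t b z m hM fun i => le_trans (hm i) (hside i)
    have hWW : (0 : ℝ) ≤ WW M c t := le_trans (Nat.cast_nonneg _) (hWWF.ge M c t)
    have hab := hABEL r z n M _ _ (fun x => eu (t * D.Q ((q : ℤ) • x + b))) _ hM0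
      (mul_nonneg (by positivity) (mul_nonneg (mul_nonneg hC₃ hmx0) hLc0))
      (mul_nonneg (by positivity) (Real.rpow_nonneg hWW _)) hsub hw3
    have hsum : ∑ x ∈ bxn z n, F ((q : ℤ) • x + b) = ∑ x ∈ bxn z n, eu (t * D.Q ((q : ℤ) • x + b)) *
        ((D.dim ((q : ℤ) • x + b) : ℂ) * csh D P M ((q : ℤ) • x + b) ν) := by
      refine Finset.sum_congr rfl fun x _ => ?_
      rw [hF]
      ring
    rw [hsum]
    refine le_trans hab ?_
    -- the constants
    have h1 : ∏ i, (1 + (n i : ℝ) / M) ≤ (1 + K : ℝ) ^ r := by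
      have h2 : ∏ i : Fin r, (1 + (n i : ℝ) / M) ≤ ∏ _i : Fin r, (1 + K : ℝ) := by
        refine Finset.prod_le_prod (fun i _ => by positivity) fun i _ => ?_
        have h3 : (n i : ℝ) ≤ K * M := by exact_mod_cast hside i
        have h4 : (n i : ℝ) / M ≤ K := by
          rw [div_le_iff₀ hM0]
          exact h3
        linarith
      rw [Finset.prod_const, Finset.card_univ, Fintype.card_fin] at h2
      exact h2
    have h2 : (∏ p ∈ P, max (M : ℝ) ((p.2 ⬝ᵥ ν : ℤ) : ℝ)) *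
        ∏ p ∈ P, min 1 (((p.2 ⬝ᵥ ν : ℤ) : ℝ) / M) = κ * D.dim ν := by
      rw [← Finset.prod_mul_distrib]
      have h3 : ∀ p ∈ P, max (M : ℝ) ((p.2 ⬝ᵥ ν : ℤ) : ℝ) * min 1 (((p.2 ⬝ᵥ ν : ℤ) : ℝ) / M) =
          ((p.2 ⬝ᵥ ν : ℤ) : ℝ) := by
        intro p _
        rcases le_total (M : ℝ) ((p.2 ⬝ᵥ ν : ℤ) : ℝ) with h4 | h4
        · rw [max_eq_right h4, min_eq_left ((one_le_div hM0).2 h4), mul_one]
        · rw [max_eq_left h4, min_eq_right ((div_le_one hM0).2 h4)]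
          field_simp
      rw [Finset.prod_congr rfl h3]
      have h4 := hR.dimP ν
      have h5 : (D.dim ν : ℝ) * κ = ∏ p ∈ P, ((p.2 ⬝ᵥ ν : ℤ) : ℝ) := by
        rw [hκ]
        exact_mod_cast h4
      rw [← h5, mul_comm]
    have h3 : (K : ℝ) ^ ((r : ℝ) / 2) * WW M c t ^ ((r : ℝ) / 2) *
        (2 ^ r * (C₃ * (∏ p ∈ P, max (M : ℝ) ((p.2 ⬝ᵥ ν : ℤ) : ℝ)) * Lc)) =
        (K : ℝ) ^ ((r : ℝ) / 2) * (2 ^ r * (C₃ * C₂)) * κ *
          (D.dim ν * (WW M c t ^ ((r : ℝ) / 2) / (M : ℝ) ^ r)) := by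
      rw [hLc]
      have h4 : (2 : ℝ) ^ r * (C₃ * (∏ p ∈ P, max (M : ℝ) ((p.2 ⬝ᵥ ν : ℤ) : ℝ)) *
          (C₂ / (M : ℝ) ^ r * ∏ p ∈ P, min 1 (((p.2 ⬝ᵥ ν : ℤ) : ℝ) / M))) =
          2 ^ r * (C₃ * C₂) * ((∏ p ∈ P, max (M : ℝ) ((p.2 ⬝ᵥ ν : ℤ) : ℝ)) *
            ∏ p ∈ P, min 1 (((p.2 ⬝ᵥ ν : ℤ) : ℝ) / M)) / (M : ℝ) ^ r := by ring
      rw [h4, h2]
      ring
    have hd0 : (0 : ℝ) ≤ D.dim ν := by exact_mod_cast (hO.dim_pos ν hν).le
    rw [h3]
    calc (K : ℝ) ^ ((r : ℝ) / 2) * (2 ^ r * (C₃ * C₂)) * κ *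
          (D.dim ν * (WW M c t ^ ((r : ℝ) / 2) / (M : ℝ) ^ r)) * ∏ i, (1 + (n i : ℝ) / M)
        ≤ (K : ℝ) ^ ((r : ℝ) / 2) * (2 ^ r * (C₃ * C₂)) * κ *
          (D.dim ν * (WW M c t ^ ((r : ℝ) / 2) / (M : ℝ) ^ r)) * (1 + K : ℝ) ^ r := by
          refine mul_le_mul_of_nonneg_left h1 ?_
          have := Real.rpow_nonneg hWW ((r : ℝ) / 2)
          positivity
      _ = _ := by ring
  refine le_trans (norm_sum_le _ _) (le_trans (Finset.sum_le_sum hone) ?_)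
  rw [Finset.sum_const, Fintype.card_piFinset, Finset.prod_const, Finset.card_univ, Fintype.card_fin,
    Int.card_Ico, nsmul_eq_mul]
  refine le_of_eq ?_
  have h1 : (((q : ℤ) - 0).toNat : ℝ) = q := by simp
  push_cast
  rw [show ((((q : ℤ) - 0).toNat : ℕ) : ℝ) = (q : ℝ) from h1]
  ring

end

end STZ
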