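import Pool.Agent.STZ.StmtsS

/-!
# Module ORT3: orthonormality of the characters of `SU(3)`
-/

namespace STZ

open MeasureTheory Matrix

open scoped ComplexConjugate Matrix Real

noncomputable section

namespace ORT3

/-- `px` with natural indices -/
def pn (p q : ℕ) (g : SU 3) : ℂ := px p q g

theorem pn_zero_left (h : ALTF) (q : ℕ) (g : SU 3) : pn 0 q g = 0 := by
  unfold pn px
  rw [Nat.cast_zero]
  exact h.p0 _ _ _

theorem pn_zero_right (h : ALTF) (p : ℕ) (g : SU 3) : pn p 0 g = 0 := by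
  unfold pn px
  rw [Nat.cast_zero]
  exact h.q0 _ _ _

theorem pn_one (h : ALTF) (g : SU 3) : pn 1 1 g = 1 := by
  unfold pn px
  rw [Nat.cast_one]
  exact h.one _ _

theorem pn_x (h : ALTF) (p q : ℕ) (g : SU 3) :
    tg g * pn (p + 1) (q + 1) g = pn (p + 2) (q + 1) g + pn p (q + 2) g + pn (p + 1) q g := by
  unfold pn px
  have h1 := h.xp (tg g) (conj (tg g)) (p + 1) (q + 1)
  push_cast
  rw [h1]
  have e1 : (p : ℤ) + 1 + 1 = p + 2 := by ring
  have e2 : (p : ℤ) + 1 - 1 = p := by ring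
  have e3 : (q : ℤ) + 1 + 1 = q + 2 := by ring
  have e4 : (q : ℤ) + 1 - 1 = q := by ring
  rw [e1, e2, e3, e4]

theorem pn_y (h : ALTF) (p q : ℕ) (g : SU 3) :
    conj (tg g) * pn (p + 1) (q + 1) g =
      pn (p + 1) (q + 2) g + pn (p + 2) q g + pn p (q + 1) g := by
  unfold pn px
  have h1 := h.yp (tg g) (conj (tg g)) (p + 1) (q + 1)
  push_cast
  rw [h1]
  have e1 : (p : ℤ) + 1 + 1 = p + 2 := by ring
  have e2 : (p : ℤ) + 1 - 1 = p := by ring
  have e3 : (q : ℤ) + 1 + 1 = q + 2 := by ring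
  have e4 : (q : ℤ) + 1 - 1 = q := by ring
  rw [e1, e2, e3, e4]

theorem add5 {μ : Measure (SU 3)} {u v w s t : SU 3 → ℂ} (hu : Integrable u μ)
    (hv : Integrable v μ) (hw : Integrable w μ) (hs : Integrable s μ) (ht : Integrable t μ) :
    ∫ g, (u g + v g + w g - s g - t g) ∂μ =
      ∫ g, u g ∂μ + ∫ g, v g ∂μ + ∫ g, w g ∂μ - ∫ g, s g ∂μ - ∫ g, t g ∂μ := by
  have h1 : Integrable (fun g => u g + v g) μ := hu.add hv
  have h2 : Integrable (fun g => u g + v g + w g) μ := h1.add hw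
  have h3 : Integrable (fun g => u g + v g + w g - s g) μ := h2.sub hs
  rw [integral_sub h3 ht, integral_sub h2 hs, integral_add h1 hw, integral_add hu hv]

section

variable (μ : Measure (SU 3)) [IsProbabilityMeasure μ]

/-- the integrals -/
def J (p q p' q' : ℕ) : ℂ := ∫ g, pn p q g * conj (pn p' q' g) ∂μ

theorem integ {f : SU 3 → ℂ} (hf : Continuous f) : Integrable f μ :=
  hf.integrable_of_hasCompactSupport (HasCompactSupport.of_compactSpace f)

variable (hc : ∀ p q : ℕ, Continuous (pn p q))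

include hc

theorem integJ (p q p' q' : ℕ) : Integrable (fun g => pn p q g * conj (pn p' q' g)) μ :=
  integ μ ((hc p q).mul (Complex.continuous_conj.comp (hc p' q')))

theorem five (f : SU 3 → ℂ) (a b c d e : ℕ × ℕ × ℕ × ℕ)
    (h : ∀ g, f g = pn a.1 a.2.1 g * conj (pn a.2.2.1 a.2.2.2 g) +
      pn b.1 b.2.1 g * conj (pn b.2.2.1 b.2.2.2 g) + pn c.1 c.2.1 g * conj (pn c.2.2.1 c.2.2.2 g) -
      pn d.1 d.2.1 g * conj (pn d.2.2.1 d.2.2.2 g) - pn e.1 e.2.1 g * conj (pn e.2.2.1 e.2.2.2 g)) :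
    ∫ g, f g ∂μ = J μ a.1 a.2.1 a.2.2.1 a.2.2.2 + J μ b.1 b.2.1 b.2.2.1 b.2.2.2 +
      J μ c.1 c.2.1 c.2.2.1 c.2.2.2 - J μ d.1 d.2.1 d.2.2.1 d.2.2.2 -
      J μ e.1 e.2.1 e.2.2.1 e.2.2.2 := by
  have ha := integJ μ hc a.1 a.2.1 a.2.2.1 a.2.2.2
  have hb := integJ μ hc b.1 b.2.1 b.2.2.1 b.2.2.2
  have hc' := integJ μ hc c.1 c.2.1 c.2.2.1 c.2.2.2
  have hd := integJ μ hc d.1 d.2.1 d.2.2.1 d.2.2.2
  have he := integJ μ hc e.1 e.2.1 e.2.2.1 e.2.2.2
  rw [integral_congr_ae (Filter.Eventually.of_forall h)]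
  exact add5 ha hb hc' hd he

theorem recx (h : ALTF) (p q p' q' : ℕ) : J μ (p + 2) (q + 1) (p' + 1) (q' + 1) =
    J μ (p + 1) (q + 1) (p' + 1) (q' + 2) + J μ (p + 1) (q + 1) (p' + 2) q' +
      J μ (p + 1) (q + 1) p' (q' + 1) - J μ p (q + 2) (p' + 1) (q' + 1) -
      J μ (p + 1) q (p' + 1) (q' + 1) := by
  refine five μ hc _ (p + 1, q + 1, p' + 1, q' + 2) (p + 1, q + 1, p' + 2, q')
    (p + 1, q + 1, p', q' + 1) (p, q + 2, p' + 1, q' + 1) (p + 1, q, p' + 1, q' + 1) fun g => ?_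
  have h1 := pn_x h p q g
  have h2 := congrArg conj (pn_y h p' q' g)
  simp only [map_mul, map_add, Complex.conj_conj] at h2
  linear_combination (-conj (pn (p' + 1) (q' + 1) g)) * h1 + pn (p + 1) (q + 1) g * h2

theorem recy (h : ALTF) (p q p' q' : ℕ) : J μ (p + 1) (q + 2) (p' + 1) (q' + 1) =
    J μ (p + 1) (q + 1) (p' + 2) (q' + 1) + J μ (p + 1) (q + 1) p' (q' + 2) +
      J μ (p + 1) (q + 1) (p' + 1) q' - J μ (p + 2) q (p' + 1) (q' + 1) -
      J μ p (q + 1) (p' + 1) (q' + 1) := by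
  refine five μ hc _ (p + 1, q + 1, p' + 2, q' + 1) (p + 1, q + 1, p', q' + 2)
    (p + 1, q + 1, p' + 1, q') (p + 2, q, p' + 1, q' + 1) (p, q + 1, p' + 1, q' + 1) fun g => ?_
  have h1 := pn_y h p q g
  have h2 := congrArg conj (pn_x h p' q' g)
  simp only [map_mul, map_add] at h2
  linear_combination (-conj (pn (p' + 1) (q' + 1) g)) * h1 + pn (p + 1) (q + 1) g * h2

omit hc [IsProbabilityMeasure μ] in
theorem J_zero (h : ALTF) {p q p' q' : ℕ} (h0 : p = 0 ∨ q = 0 ∨ p' = 0 ∨ q' = 0) :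
    J μ p q p' q' = 0 := by
  have h1 : ∀ g, pn p q g * conj (pn p' q' g) = 0 := by
    intro g
    rcases h0 with rfl | rfl | rfl | rfl
    · rw [pn_zero_left h, zero_mul]
    · rw [pn_zero_right h, zero_mul]
    · rw [pn_zero_left h, map_zero, mul_zero]
    · rw [pn_zero_right h, map_zero, mul_zero]
  unfold J
  simp only [h1, integral_zero]

theorem main (h : ALTF) (hi : ∀ p q : ℕ, ∫ g, pn (p + 1) (q + 1) g ∂μ =
      if p = 0 ∧ q = 0 then 1 else 0) :
    ∀ n p q p' q' : ℕ, p + q ≤ n → J μ p q p' q' =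
      if p = p' ∧ q = q' ∧ 1 ≤ p ∧ 1 ≤ q then 1 else 0 := by
  intro n
  induction n with
  | zero =>
    intro p q p' q' hn
    rw [J_zero μ h (Or.inl (by omega)), if_neg (by omega)]
  | succ n ih =>
    intro p q p' q' hn
    by_cases h0 : p = 0 ∨ q = 0 ∨ p' = 0 ∨ q' = 0
    · rw [J_zero μ h h0, if_neg (by omega)]
    · obtain ⟨a, rfl⟩ : ∃ a, p = a + 1 := ⟨p - 1, by omega⟩
      obtain ⟨b, rfl⟩ : ∃ b, q = b + 1 := ⟨q - 1, by omega⟩
      obtain ⟨a', rfl⟩ : ∃ a', p' = a' + 1 := ⟨p' - 1, by omega⟩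
      obtain ⟨b', rfl⟩ : ∃ b', q' = b' + 1 := ⟨q' - 1, by omega⟩
      rcases Nat.eq_zero_or_pos a with ha | ha
      · subst ha
        rcases Nat.eq_zero_or_pos b with hb | hb
        · subst hb
          have h1 : J μ (0 + 1) (0 + 1) (a' + 1) (b' + 1) =
              conj (∫ g, pn (a' + 1) (b' + 1) g ∂μ) := by
            rw [← integral_conj]
            unfold J
            refine integral_congr_ae (Filter.Eventually.of_forall fun g => ?_)
            simp only [zero_add, pn_one h, one_mul]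
          rw [h1, hi]
          by_cases h2 : a' = 0 ∧ b' = 0
          · rw [if_pos h2, if_pos (by omega), map_one]
          · rw [if_neg h2, if_neg (by omega), map_zero]
        · obtain ⟨c, rfl⟩ : ∃ c, b = c + 1 := ⟨b - 1, by omega⟩
          have h1 := recy μ hc h 0 c a' b'
          rw [show c + 1 + 1 = c + 2 from rfl, h1, ih _ _ _ _ (by omega), ih _ _ _ _ (by omega),
            ih _ _ _ _ (by omega), ih _ _ _ _ (by omega), ih _ _ _ _ (by omega)]
          split_ifs <;> first | (exfalso; omega) | norm_num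
      · obtain ⟨c, rfl⟩ : ∃ c, a = c + 1 := ⟨a - 1, by omega⟩
        have h1 := recx μ hc h c b a' b'
        rw [show c + 1 + 1 = c + 2 from rfl, h1, ih _ _ _ _ (by omega), ih _ _ _ _ (by omega),
          ih _ _ _ _ (by omega), ih _ _ _ _ (by omega), ih _ _ _ _ (by omega)]
        split_ifs <;> first | (exfalso; omega) | norm_num

end

end ORT3

open ORT3 in
theorem t_ORT3 : M_ORT3 := by
  intro hCALC hGREEN hFRX hALT hLAPX μ _ _ a b
  have hA : ALTF := hALT
  obtain ⟨X, hX⟩ := hFRX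
  have hc : ∀ p q : ℕ, Continuous (pn p q) := fun p q => (hLAPX X hX p q).1.1.cont
  have hi : ∀ p q : ℕ, ∫ g, pn (p + 1) (q + 1) g ∂μ = if p = 0 ∧ q = 0 then 1 else 0 := by
    intro p q
    by_cases h0 : p = 0 ∧ q = 0
    · obtain ⟨rfl, rfl⟩ := h0
      rw [if_pos ⟨rfl, rfl⟩]
      have h1 : ∀ g, pn (0 + 1) (0 + 1) g = 1 := fun g => pn_one hA g
      simp only [h1, integral_const, probReal_univ, one_smul]
    · rw [if_neg h0]
      have h1 := (hGREEN 3 μ).2 X hX (pn (p + 1) (q + 1)) (fun _ => 1)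
        (hLAPX X hX (p + 1) (q + 1)).1 ((hCALC 3).const 1)
      have h2 : ∀ g, lap X (fun _ : SU 3 => (1 : ℂ)) g = 0 := by
        intro g
        unfold lap
        refine Finset.sum_eq_zero fun a _ => ?_
        have h3 : dX (X a) (fun _ : SU 3 => (1 : ℂ)) = fun _ => 0 :=
          funext fun g => (hCALC 3).dconst (X a) 1 g
        rw [h3]
        exact (hCALC 3).dconst (X a) 0 g
      have h4 : ∀ g, lap X (pn (p + 1) (q + 1)) g =
          -(((((p + 1 : ℕ) : ℂ) ^ 2 + (p + 1 : ℕ) * (q + 1 : ℕ) + ((q + 1 : ℕ) : ℂ) ^ 2 - 3) / 9)) *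
            pn (p + 1) (q + 1) g := (hLAPX X hX (p + 1) (q + 1)).2
      simp only [h2, h4, mul_one, mul_zero, integral_zero] at h1
      rw [integral_const_mul] at h1
      rcases mul_eq_zero.1 h1 with h5 | h5
      · exfalso
        have h6 : (((p + 1 : ℕ) : ℂ) ^ 2 + (p + 1 : ℕ) * (q + 1 : ℕ) + ((q + 1 : ℕ) : ℂ) ^ 2) =
            3 := by
          linear_combination (-9) * h5
        have h7 : (p + 1) ^ 2 + (p + 1) * (q + 1) + (q + 1) ^ 2 = 3 := by exact_mod_cast h6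
        apply h0
        constructor <;> nlinarith
      · exact h5
  have h1 := main μ hc hA hi (a.1 + 1 + (a.2 + 1)) (a.1 + 1) (a.2 + 1) (b.1 + 1) (b.2 + 1) le_rfl
  have h2 : ∀ (k : ℕ × ℕ) (g : SU 3), c3 k g = pn (k.1 + 1) (k.2 + 1) g := by
    intro k g
    unfold c3 pn
    push_cast
    rfl
  simp only [h2]
  unfold ORT3.J at h1
  rw [h1]
  by_cases h3 : a = b
  · rw [if_pos h3, if_pos]
    subst h3
    exact ⟨rfl, rfl, by omega, by omega⟩
  · rw [if_neg h3, if_neg]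
    rintro ⟨h4, h5, -, -⟩
    exact h3 (Prod.ext (by omega) (by omega))

end

end STZ
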