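import Pool.Agent.STZ.StmtsY

/-!
# STZ, ORTX: orthonormality of the characters, version for RDO
-/

namespace STZ

open MeasureTheory Matrix

open scoped ComplexConjugate Matrix Real

noncomputable section

namespace ORTX

section comb

variable {r : ℕ} {D : RD r}

/-- sums of signs -/
def E (D : RD r) (l l' : Fin r → ℤ) : ℤ := ∑ w ∈ D.W, if w *ᵥ l = l' then w.det else 0

theorem det_sq (hD : RDO D) {w : Matrix (Fin r) (Fin r) ℤ} (hw : w ∈ D.W) : w.det * w.det = 1 := by
  obtain ⟨w', -, h⟩ := hD.W_inv w hw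
  have h1 := congrArg Matrix.det h
  rw [Matrix.det_mul, Matrix.det_one] at h1
  have h2 : IsUnit w.det := IsUnit.of_mul_eq_one w'.det (by rw [mul_comm]; exact h1)
  rcases Int.isUnit_iff.1 h2 with h3 | h3 <;> rw [h3] <;> norm_num

theorem det_ne (hD : RDO D) {w : Matrix (Fin r) (Fin r) ℤ} (hw : w ∈ D.W) : (w.det : ℂ) ≠ 0 := by
  intro h
  have h1 : w.det = 0 := by exact_mod_cast h
  have h2 := det_sq hD hw
  rw [h1] at h2
  norm_num at h2

theorem sum_left (hD : RDO D) {M : Type} [AddCommMonoid M] {u : Matrix (Fin r) (Fin r) ℤ}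
    (hu : u ∈ D.W) (f : Matrix (Fin r) (Fin r) ℤ → M) :
    ∑ w ∈ D.W, f (u * w) = ∑ w ∈ D.W, f w := by
  obtain ⟨u', hu', h⟩ := hD.W_inv u hu
  have h2 : u * u' = 1 := mul_eq_one_comm.1 h
  refine Finset.sum_nbij' (fun w => u * w) (fun w => u' * w) (fun w hw => hD.W_mul _ hu _ hw)
    (fun w hw => hD.W_mul _ hu' _ hw) ?_ ?_ (fun _ _ => rfl)
  · intro w _
    show u' * (u * w) = w
    rw [← mul_assoc, h, one_mul]
  · intro w _
    show u * (u' * w) = w
    rw [← mul_assoc, h2, one_mul]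

theorem sum_right (hD : RDO D) {M : Type} [AddCommMonoid M] {u : Matrix (Fin r) (Fin r) ℤ}
    (hu : u ∈ D.W) (f : Matrix (Fin r) (Fin r) ℤ → M) :
    ∑ w ∈ D.W, f (w * u) = ∑ w ∈ D.W, f w := by
  obtain ⟨u', hu', h⟩ := hD.W_inv u hu
  have h2 : u * u' = 1 := mul_eq_one_comm.1 h
  refine Finset.sum_nbij' (fun w => w * u) (fun w => w * u') (fun w hw => hD.W_mul _ hw _ hu)
    (fun w hw => hD.W_mul _ hw _ hu') ?_ ?_ (fun _ _ => rfl)
  · intro w _
    show w * u * u' = w
    rw [mul_assoc, h2, mul_one]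
  · intro w _
    show w * u' * u = w
    rw [mul_assoc, h, mul_one]

theorem E_left (hD : RDO D) {u : Matrix (Fin r) (Fin r) ℤ} (hu : u ∈ D.W) (l l' : Fin r → ℤ) :
    E D (u *ᵥ l) l' = u.det * E D l l' := by
  have h1 : E D (u *ᵥ l) l' = ∑ w ∈ D.W,
      (fun v : Matrix (Fin r) (Fin r) ℤ => if v *ᵥ l = l' then u.det * v.det else 0) (w * u) := by
    refine Finset.sum_congr rfl fun w _ => ?_
    show (if w *ᵥ (u *ᵥ l) = l' then w.det else 0) =
      if (w * u) *ᵥ l = l' then u.det * (w * u).det else 0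
    rw [Matrix.mulVec_mulVec, Matrix.det_mul]
    congr 1
    have h := det_sq hD hu
    linear_combination (-w.det) * h
  rw [h1]
  refine (sum_right hD hu (fun v : Matrix (Fin r) (Fin r) ℤ =>
    if v *ᵥ l = l' then u.det * v.det else 0)).trans ?_
  rw [E, Finset.mul_sum]
  refine Finset.sum_congr rfl fun w _ => ?_
  rw [mul_ite, mul_zero]

theorem mulVec_inj (hD : RDO D) {u : Matrix (Fin r) (Fin r) ℤ} (hu : u ∈ D.W)
    {a b : Fin r → ℤ} : u *ᵥ a = u *ᵥ b ↔ a = b := by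
  obtain ⟨u', -, h⟩ := hD.W_inv u hu
  refine ⟨fun h1 => ?_, fun h1 => by rw [h1]⟩
  have h2 := congrArg (fun z => u' *ᵥ z) h1
  simp only [Matrix.mulVec_mulVec, h, Matrix.one_mulVec] at h2
  exact h2

theorem E_right (hD : RDO D) {u : Matrix (Fin r) (Fin r) ℤ} (hu : u ∈ D.W) (l l' : Fin r → ℤ) :
    E D l (u *ᵥ l') = u.det * E D l l' := by
  rw [E, ← sum_left hD hu, E, Finset.mul_sum]
  refine Finset.sum_congr rfl fun w _ => ?_
  rw [mul_ite, mul_zero, ← Matrix.mulVec_mulVec, Matrix.det_mul]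
  simp only [mulVec_inj hD hu]

theorem E_swap (hD : RDO D) (i : Fin r) (l l' : Fin r → ℤ) :
    ∑ κ ∈ D.S i, D.P i κ * E D (l + κ) l' =
      ∑ κ ∈ D.S (D.st i), D.P (D.st i) κ * E D l (l' + κ) := by
  have h1 : ∀ (i : Fin r) (f : (Fin r → ℤ) → (Fin r → ℤ)) (f' : (Fin r → ℤ) → (Fin r → ℤ)),
      ∑ κ ∈ D.S i, D.P i κ * E D (f κ) (f' κ) =
      ∑ w ∈ D.W, ∑ κ ∈ D.S i, D.P i κ * (if w *ᵥ f κ = f' κ then w.det else 0) := by
    intro i f f'
    rw [Finset.sum_comm]
    refine Finset.sum_congr rfl fun κ _ => ?_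
    rw [E, Finset.mul_sum]
  rw [h1 i (fun κ => l + κ) (fun _ => l'), h1 (D.st i) (fun _ => l) (fun κ => l' + κ)]
  refine Finset.sum_congr rfl fun w hw => ?_
  obtain ⟨w', hw', h⟩ := hD.W_inv w hw
  have h2 : w * w' = 1 := mul_eq_one_comm.1 h
  refine Finset.sum_nbij' (fun κ => -(w *ᵥ κ)) (fun κ => w' *ᵥ (-κ)) ?_ ?_ ?_ ?_ ?_
  · intro κ hκ
    rw [hD.S_st, neg_neg]
    exact hD.S_W i w hw κ hκ
  · intro κ hκ
    rw [hD.S_st] at hκ
    exact hD.S_W i w' hw' _ hκ
  · intro κ _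
    show w' *ᵥ (- -(w *ᵥ κ)) = κ
    rw [neg_neg, Matrix.mulVec_mulVec, h, Matrix.one_mulVec]
  · intro κ _
    show -(w *ᵥ (w' *ᵥ (-κ))) = κ
    rw [Matrix.mulVec_mulVec, h2, Matrix.one_mulVec, neg_neg]
  · intro κ _
    show D.P i κ * (if w *ᵥ (l + κ) = l' then w.det else 0) =
      D.P (D.st i) (-(w *ᵥ κ)) * (if w *ᵥ l = l' + -(w *ᵥ κ) then w.det else 0)
    rw [hD.P_st, neg_neg, hD.P_W i w hw]
    congr 1
    have h3 : w *ᵥ (l + κ) = l' ↔ w *ᵥ l = l' + -(w *ᵥ κ) := by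
      rw [Matrix.mulVec_add, ← sub_eq_add_neg, eq_sub_iff_add_eq]
    simp only [h3]

theorem Q_nonneg (hD : RDO D) (l : Fin r → ℤ) : 0 ≤ D.Q l := by
  obtain ⟨c, hc, h⟩ := hD.pd
  have h1 := (h l).1
  have h2 : (0 : ℝ) ≤ D.Q l := le_trans (by positivity) h1
  exact_mod_cast h2

theorem dot_nonneg (hD : RDO D) (a b : Fin r → ℤ) (ha : ∀ i, 0 ≤ a i) (hb : ∀ i, 0 ≤ b i) :
    0 ≤ a ⬝ᵥ (D.A *ᵥ b) := by
  have hinv : ∀ u ∈ D.W, u *ᵥ (∑ w ∈ D.W, w *ᵥ b) = ∑ w ∈ D.W, w *ᵥ b := by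
    intro u hu
    rw [Matrix.mulVec_sum]
    simp only [Matrix.mulVec_mulVec]
    exact sum_left hD hu (fun w => w *ᵥ b)
  have hz : ∑ w ∈ D.W, w *ᵥ b = 0 := by
    obtain ⟨w, hw, h1⟩ := hD.str (∑ w ∈ D.W, w *ᵥ b)
    obtain ⟨w', hw', h2⟩ := hD.str (-∑ w ∈ D.W, w *ᵥ b)
    rw [hinv w hw] at h1
    rw [Matrix.mulVec_neg, hinv w' hw'] at h2
    funext i
    have h3 := h1 i
    have h4 := h2 i
    rw [Pi.neg_apply] at h4
    rw [Pi.zero_apply]
    omega
  have hle : ∀ w ∈ D.W, a ⬝ᵥ (D.A *ᵥ (w *ᵥ b)) ≤ a ⬝ᵥ (D.A *ᵥ b) := by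
    intro w hw
    have h1 := hD.chm a b ha hb w hw
    have h2 : -(w *ᵥ b) = w *ᵥ (-b) := (Matrix.mulVec_neg _ _).symm
    rw [sub_eq_add_neg, sub_eq_add_neg, hD.qf.polar, hD.qf.polar, h2,
      hD.Q_W w hw, ← h2, Matrix.mulVec_neg, Matrix.mulVec_neg, dotProduct_neg,
      dotProduct_neg] at h1
    linarith
  have hs : ∑ w ∈ D.W, a ⬝ᵥ (D.A *ᵥ (w *ᵥ b)) = 0 := by
    rw [← dotProduct_sum, ← Matrix.mulVec_sum, hz, Matrix.mulVec_zero, dotProduct_zero]
  have h5 := Finset.sum_le_sum hle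
  rw [hs, Finset.sum_const, nsmul_eq_mul] at h5
  have h6 : (0 : ℤ) < (D.W.card : ℤ) := by
    have := Finset.card_pos.2 ⟨_, hD.W_one⟩
    exact_mod_cast this
  by_contra hneg
  rw [not_le] at hneg
  nlinarith

theorem Q_lt (hD : RDO D) {l : Fin r → ℤ} (hl : Reg l) (i : Fin r) :
    D.Q l < D.Q (l + Pi.single i 1) := by
  rw [hD.qf.polar]
  have h1 : 0 ≤ l ⬝ᵥ (D.A *ᵥ Pi.single i 1) := by
    refine dot_nonneg hD _ _ (fun j => by have := hl j; omega) fun j => ?_
    rcases eq_or_ne j i with rfl | hj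
    · rw [Pi.single_eq_same]
      norm_num
    · rw [Pi.single_eq_of_ne hj]
  obtain ⟨c, hc, h⟩ := hD.pd
  have h2 := (h (Pi.single i 1)).1
  have h3 : (1 : ℝ) ≤ sz (Pi.single i 1 : Fin r → ℤ) - 1 := by
    rw [sz, add_sub_cancel_left]
    have h4 := Finset.single_le_sum (f := fun j => |((Pi.single i 1 : Fin r → ℤ) j : ℝ)|)
      (fun j _ => abs_nonneg _) (Finset.mem_univ i)
    simp only [Pi.single_eq_same] at h4
    norm_num at h4
    exact h4
  have h5 : (0 : ℝ) < D.Q (Pi.single i 1) := by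
    refine lt_of_lt_of_le ?_ h2
    positivity
  have h6 : 0 < D.Q (Pi.single i 1) := by exact_mod_cast h5
  linarith

theorem not_reg (hD : RDO D) {l l' : Fin r → ℤ} {w : Matrix (Fin r) (Fin r) ℤ} (hw : w ∈ D.W)
    (h : w *ᵥ l = l') {i : Fin r} (hi : l i = 0) : ¬ Reg l' := by
  intro hl'
  have h1 := hD.anti w hw D.ξ l
  rw [hD.wall D.ξ l i hi, mul_zero, h, hD.dim_eq] at h1
  have h2 : D.dim l' = 0 := by exact_mod_cast h1
  have h3 := hD.dim_pos l' hl'
  omega

theorem E_zero_left (hD : RDO D) {l l' : Fin r → ℤ} {i : Fin r} (hi : l i = 0) (hl' : Reg l') :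
    E D l l' = 0 := by
  refine Finset.sum_eq_zero fun w hw => ?_
  rw [if_neg]
  intro h
  exact not_reg hD hw h hi hl'

theorem E_zero_right (hD : RDO D) {l l' : Fin r → ℤ} {i : Fin r} (hi : l' i = 0) (hl : Reg l) :
    E D l l' = 0 := by
  refine Finset.sum_eq_zero fun w hw => ?_
  rw [if_neg]
  intro h
  obtain ⟨w', hw', h1⟩ := hD.W_inv w hw
  refine not_reg hD hw' ?_ hi hl
  rw [← h, Matrix.mulVec_mulVec, h1, Matrix.one_mulVec]

theorem E_reg (hD : RDO D) {l l' : Fin r → ℤ} (hl : Reg l) (hl' : Reg l') :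
    E D l l' = if l = l' then 1 else 0 := by
  have h1 : ∀ w ∈ D.W, (if w *ᵥ l = l' then w.det else 0) =
      if w = 1 then (if l = l' then 1 else 0) else 0 := by
    intro w hw
    by_cases h2 : w = 1
    · rw [if_pos h2, h2, Matrix.one_mulVec, Matrix.det_one]
    · rw [if_neg h2, if_neg]
      intro h3
      exact h2 (hD.free l hl w hw (by rw [h3]; exact hl'))
  rw [E, Finset.sum_congr rfl h1, Finset.sum_ite_eq', if_pos hD.W_one]

theorem exists_zero {l : Fin r → ℤ} (h0 : ∀ i, 0 ≤ l i) (h : ¬ Reg l) : ∃ i, l i = 0 := by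
  by_contra h1
  push Not at h1
  apply h
  intro i
  have := h0 i
  have := h1 i
  omega

theorem main (hD : RDO D) (B : (Fin r → ℤ) → (Fin r → ℤ) → ℂ)
    (hL : ∀ u ∈ D.W, ∀ l l', B (u *ᵥ l) l' = (u.det : ℂ) * B l l')
    (hR : ∀ u ∈ D.W, ∀ l l', B l (u *ᵥ l') = (u.det : ℂ) * B l l')
    (hwL : ∀ l l' i, l i = 0 → B l l' = 0) (hwR : ∀ l l' i, l' i = 0 → B l l' = 0)
    (hkey : ∀ i l l', ∑ κ ∈ D.S i, (D.P i κ : ℂ) * B (l + κ) l' =
      ∑ κ ∈ D.S (D.st i), (D.P (D.st i) κ : ℂ) * B l (l' + κ))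
    (hone : ∀ l', Reg l' → B 1 l' = if 1 = l' then 1 else 0) :
    ∀ n : ℕ, ∀ l, Reg l → D.Q l = n → ∀ l', Reg l' → B l l' = (E D l l' : ℂ) := by
  intro n
  induction n using Nat.strong_induction_on with
  | _ n ih =>
    intro l hl hQ l' hl'
    by_cases h1 : l = 1
    · subst h1
      rw [hone l' hl', E_reg hD hl hl']
      split_ifs <;> simp
    · obtain ⟨i, hi⟩ : ∃ i, 2 ≤ l i := by
        by_contra h2
        push Not at h2
        apply h1
        funext i
        have h3 := hl i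
        have h4 := h2 i
        rw [Pi.one_apply]
        omega
      obtain ⟨l0, hl0⟩ : ∃ l0 : Fin r → ℤ, l = l0 + Pi.single i 1 :=
        ⟨l - Pi.single i 1, by rw [sub_add_cancel]⟩
      have hreg : Reg l0 := by
        intro j
        have h2 := hl j
        rw [hl0, Pi.add_apply] at hi h2
        rw [Pi.single_eq_same] at hi
        rcases eq_or_ne j i with rfl | hj
        · omega
        · rw [Pi.single_eq_of_ne hj, add_zero] at h2
          exact h2
      have hlt : D.Q l0 < n := by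
        rw [← hQ, hl0]
        exact Q_lt hD hreg i
      have hih : ∀ l1, Reg l1 → D.Q l1 < n → ∀ l', Reg l' → B l1 l' = (E D l1 l' : ℂ) := by
        intro l1 hr1 hq1
        obtain ⟨m, hm⟩ := Int.eq_ofNat_of_zero_le (Q_nonneg hD l1)
        exact ih m (by rw [hm] at hq1; exact_mod_cast hq1) l1 hr1 hm
      have hleft : ∀ l1, D.Q l1 < n → B l1 l' = (E D l1 l' : ℂ) := by
        intro l1 hq1
        obtain ⟨w, hw, h0⟩ := hD.str l1
        have h2 : B (w *ᵥ l1) l' = (E D (w *ᵥ l1) l' : ℂ) := by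
          by_cases h3 : Reg (w *ᵥ l1)
          · exact hih _ h3 (by rw [hD.Q_W w hw]; exact hq1) l' hl'
          · obtain ⟨j, hj⟩ := exists_zero h0 h3
            rw [hwL _ _ j hj, E_zero_left hD hj hl', Int.cast_zero]
        rw [hL w hw, E_left hD hw] at h2
        rw [Int.cast_mul] at h2
        exact mul_left_cancel₀ (det_ne hD hw) h2
      have hright : ∀ l2, B l0 l2 = (E D l0 l2 : ℂ) := by
        intro l2
        obtain ⟨w, hw, h0⟩ := hD.str l2
        have h2 : B l0 (w *ᵥ l2) = (E D l0 (w *ᵥ l2) : ℂ) := by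
          by_cases h3 : Reg (w *ᵥ l2)
          · exact hih _ hreg hlt _ h3
          · obtain ⟨j, hj⟩ := exists_zero h0 h3
            rw [hwR _ _ j hj, E_zero_right hD hj hreg, Int.cast_zero]
        rw [hR w hw, E_right hD hw] at h2
        rw [Int.cast_mul] at h2
        exact mul_left_cancel₀ (det_ne hD hw) h2
      have hk := hkey i l0 l'
      have hE : ∑ κ ∈ D.S i, (D.P i κ : ℂ) * (E D (l0 + κ) l' : ℂ) =
          ∑ κ ∈ D.S (D.st i), (D.P (D.st i) κ : ℂ) * (E D l0 (l' + κ) : ℂ) := by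
        exact_mod_cast congrArg (fun z : ℤ => (z : ℂ)) (E_swap hD i l0 l')
      simp only [hright] at hk
      rw [← hE] at hk
      obtain ⟨ht1, ht2⟩ := hD.top i
      rw [← Finset.add_sum_erase _ _ ht1, ← Finset.add_sum_erase _ _ ht1] at hk
      have h5 : ∑ κ ∈ (D.S i).erase (Pi.single i 1), (D.P i κ : ℂ) * B (l0 + κ) l' =
          ∑ κ ∈ (D.S i).erase (Pi.single i 1), (D.P i κ : ℂ) * (E D (l0 + κ) l' : ℂ) := by
        refine Finset.sum_congr rfl fun κ hκ => ?_
        rw [Finset.mem_erase] at hκ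
        rw [hleft]
        rw [← hQ, hl0]
        exact hD.lt i l0 hreg κ hκ.2 hκ.1
      rw [h5] at hk
      have h6 := add_right_cancel hk
      rw [ht2, Int.cast_one, one_mul, one_mul] at h6
      rw [hl0]
      exact h6

end comb

section ana

variable {N : ℕ} {H : Subgroup (SU N)} {c : ℝ} {d r : ℕ} {D : RD r} {x : Fin r → H → ℂ} {k : ℝ}

theorem cont_poly (hx : GF H c d D x k) (F : MvPolynomial (Fin r) ℤ) :
    Continuous fun g : H => MvPolynomial.aeval (fun i => x i g) F := by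
  induction F using MvPolynomial.induction_on with
  | C a =>
    simp only [MvPolynomial.aeval_C]
    exact continuous_const
  | add p q hp hq =>
    simp only [map_add]
    exact hp.add hq
  | mul_X p i hp =>
    simp only [map_mul, MvPolynomial.aeval_X]
    exact hp.mul (hx.cont i)

theorem cont_psi (hI : S_INTX) (hD : RDO D) (hx : GF H c d D x k) (l : Fin r → ℤ) :
    Continuous fun g : H => D.ψ (fun i => x i g) l := by
  obtain ⟨F, hF⟩ := (hI r D hD).1 l
  simp only [hF]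
  exact cont_poly hx F

/-- the inner products -/
def B (μ : Measure H) (D : RD r) (x : Fin r → H → ℂ) (l l' : Fin r → ℤ) : ℂ :=
  ∫ g, D.ψ (fun i => x i g) l * conj (D.ψ (fun i => x i g) l') ∂μ

variable (μ : Measure H)

theorem B_left (hD : RDO D) {u : Matrix (Fin r) (Fin r) ℤ} (hu : u ∈ D.W) (l l' : Fin r → ℤ) :
    B μ D x (u *ᵥ l) l' = (u.det : ℂ) * B μ D x l l' := by
  unfold B
  rw [← integral_const_mul]
  refine integral_congr_ae (Filter.Eventually.of_forall fun g => ?_)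
  simp only [hD.anti u hu]
  ring

theorem B_right (hD : RDO D) {u : Matrix (Fin r) (Fin r) ℤ} (hu : u ∈ D.W) (l l' : Fin r → ℤ) :
    B μ D x l (u *ᵥ l') = (u.det : ℂ) * B μ D x l l' := by
  unfold B
  rw [← integral_const_mul]
  refine integral_congr_ae (Filter.Eventually.of_forall fun g => ?_)
  simp only [hD.anti u hu, map_mul, map_intCast]
  ring

theorem B_wall_left (hD : RDO D) (l l' : Fin r → ℤ) (i : Fin r) (hi : l i = 0) :
    B μ D x l l' = 0 := by
  unfold B
  simp only [hD.wall _ l i hi, zero_mul, integral_zero]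

theorem B_wall_right (hD : RDO D) (l l' : Fin r → ℤ) (i : Fin r) (hi : l' i = 0) :
    B μ D x l l' = 0 := by
  unfold B
  simp only [hD.wall _ l' i hi, map_zero, mul_zero, integral_zero]

variable [IsProbabilityMeasure μ]

theorem integrable [CompactSpace H] {f : H → ℂ} (hf : Continuous f) : Integrable f μ := by
  obtain ⟨C, hC⟩ := (isCompact_univ (X := H)).exists_bound_of_continuousOn hf.continuousOn
  exact Integrable.of_bound hf.aestronglyMeasurable C
    (Filter.Eventually.of_forall fun g => hC g (Set.mem_univ _))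

theorem B_key [CompactSpace H] (hI : S_INTX) (hD : RDO D) (hx : GF H c d D x k) (i : Fin r)
    (l l' : Fin r → ℤ) :
    ∑ κ ∈ D.S i, (D.P i κ : ℂ) * B μ D x (l + κ) l' =
      ∑ κ ∈ D.S (D.st i), (D.P (D.st i) κ : ℂ) * B μ D x l (l' + κ) := by
  have hc := cont_psi hI hD hx
  have hint : ∀ a b, Integrable
      (fun g : H => D.ψ (fun i => x i g) a * conj (D.ψ (fun i => x i g) b)) μ :=
    fun a b => integrable μ ((hc a).mul (Complex.continuous_conj.comp (hc b)))
  have h1 : ∑ κ ∈ D.S i, (D.P i κ : ℂ) * B μ D x (l + κ) l' =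
      ∫ g, x i g * D.ψ (fun i => x i g) l * conj (D.ψ (fun i => x i g) l') ∂μ := by
    unfold B
    simp only [← integral_const_mul]
    rw [← integral_finsetSum _ fun κ _ => (hint (l + κ) l').const_mul _]
    refine integral_congr_ae (Filter.Eventually.of_forall fun g => ?_)
    show ∑ κ ∈ D.S i, (D.P i κ : ℂ) * (D.ψ (fun i => x i g) (l + κ) *
      conj (D.ψ (fun i => x i g) l')) =
        x i g * D.ψ (fun i => x i g) l * conj (D.ψ (fun i => x i g) l')
    rw [hD.rule i (fun i => x i g) l, Finset.sum_mul]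
    refine Finset.sum_congr rfl fun κ _ => ?_
    ring
  have h2 : ∑ κ ∈ D.S (D.st i), (D.P (D.st i) κ : ℂ) * B μ D x l (l' + κ) =
      ∫ g, x i g * D.ψ (fun i => x i g) l * conj (D.ψ (fun i => x i g) l') ∂μ := by
    unfold B
    simp only [← integral_const_mul]
    rw [← integral_finsetSum _ fun κ _ => (hint l (l' + κ)).const_mul _]
    refine integral_congr_ae (Filter.Eventually.of_forall fun g => ?_)
    show ∑ κ ∈ D.S (D.st i), (D.P (D.st i) κ : ℂ) * (D.ψ (fun i => x i g) l *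
      conj (D.ψ (fun i => x i g) (l' + κ))) =
        x i g * D.ψ (fun i => x i g) l * conj (D.ψ (fun i => x i g) l')
    have h3 := congrArg conj (hD.rule (D.st i) (fun i => x i g) l')
    rw [map_mul, map_sum, hx.cj, hD.st2] at h3
    rw [mul_comm (x i g), mul_assoc, h3, Finset.mul_sum]
    refine Finset.sum_congr rfl fun κ _ => ?_
    rw [map_mul, map_intCast]
    ring
  rw [h1, h2]

theorem B_one (hC : CALFH H) (hG : S_GRH) [μ.IsMulLeftInvariant] (hD : RDO D)
    (hx : GF H c d D x k) (l' : Fin r → ℤ) (hl' : Reg l') :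
    B μ D x 1 l' = if 1 = l' then 1 else 0 := by
  have h0 : B μ D x 1 l' = conj (∫ g, D.ψ (fun i => x i g) l' ∂μ) := by
    unfold B
    rw [← integral_conj]
    simp only [hD.one, one_mul]
  rw [h0]
  by_cases h1 : 1 = l'
  · subst h1
    simp only [hD.one, integral_const, probReal_univ, one_smul, map_one, if_true]
  · rw [if_neg h1]
    obtain ⟨X, hX⟩ := hx.frame
    obtain ⟨hC2, hlap⟩ := hx.lap X hX l' hl'
    have h2 := (hG N H hx.closed μ).2 c d X hX (fun g : H => D.ψ (fun i => x i g) l')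
      (fun _ => 1) hC2 (hC.const 1)
    have h3 : ∀ g, lapH X (fun _ : H => (1 : ℂ)) g = 0 := by
      intro g
      unfold lapH
      refine Finset.sum_eq_zero fun a _ => ?_
      have h4 : dH (X a) (fun _ : H => (1 : ℂ)) = fun _ => 0 :=
        funext fun g => hC.dconst (X a) 1 g
      rw [h4]
      exact hC.dconst (X a) 0 g
    simp only [h3, hlap, mul_one, mul_zero, integral_zero] at h2
    rw [integral_const_mul] at h2
    rcases mul_eq_zero.1 h2 with h5 | h5
    · exfalso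
      rw [neg_eq_zero] at h5
      rcases mul_eq_zero.1 h5 with h6 | h6
      · have h7 : k = 0 := by exact_mod_cast h6
        exact hx.kpos.ne' h7
      · have h7 : D.Q l' = D.Q 1 := by
          have h8 := sub_eq_zero.1 h6
          exact_mod_cast h8
        have h8 := hD.rho l' hl' (fun h => h1 h.symm)
        omega
    · rw [h5, map_zero]

end ana

end ORTX

open ORTX in
theorem t_ORTX : M_ORTX := by
  intro hCALH hGRH hI N H c d r D x k hD hx μ _ _ l l' hl hl'
  have hcs : CompactSpace H := isCompact_iff_compactSpace.1 (hx.closed.isCompact)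
  obtain ⟨m, hm⟩ := Int.eq_ofNat_of_zero_le (Q_nonneg hD l)
  have h1 := main hD (B μ D x) (fun u hu l l' => B_left μ hD hu l l')
    (fun u hu l l' => B_right μ hD hu l l') (fun l l' i hi => B_wall_left μ hD l l' i hi)
    (fun l l' i hi => B_wall_right μ hD l l' i hi) (fun i l l' => B_key μ hI hD hx i l l')
    (fun l' hl' => B_one μ (hCALH N H) hGRH hD hx l' hl') m l hl hm l' hl'
  have h2 : ∫ g, D.ψ (fun i => x i g) l * conj (D.ψ (fun i => x i g) l') ∂μ = B μ D x l l' := rfl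
  rw [h2, h1, E_reg hD hl hl']
  split_ifs <;> simp

end

end STZ
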