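import Pool.Agent.STZ.StmtsK

/-!
# PGX: the characters of `G₂`
-/

set_option autoImplicit false

namespace STZ

open MeasureTheory Matrix

open scoped ComplexConjugate Matrix Real

noncomputable section

namespace PGX

/-- functions of two variables given by integer polynomials -/
def IP (f : ℂ → ℂ → ℂ) : Prop :=
  ∃ P : MvPolynomial (Fin 2) ℤ, ∀ x y : ℂ, f x y = MvPolynomial.aeval ![x, y] P

theorem IP.add {f g : ℂ → ℂ → ℂ} (hf : IP f) (hg : IP g) : IP fun x y => f x y + g x y := by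
  obtain ⟨P, hP⟩ := hf
  obtain ⟨Q, hQ⟩ := hg
  exact ⟨P + Q, fun x y => by rw [map_add, ← hP, ← hQ]⟩

theorem IP.sub {f g : ℂ → ℂ → ℂ} (hf : IP f) (hg : IP g) : IP fun x y => f x y - g x y := by
  obtain ⟨P, hP⟩ := hf
  obtain ⟨Q, hQ⟩ := hg
  exact ⟨P - Q, fun x y => by rw [map_sub, ← hP, ← hQ]⟩

theorem IP.mul {f g : ℂ → ℂ → ℂ} (hf : IP f) (hg : IP g) : IP fun x y => f x y * g x y := by
  obtain ⟨P, hP⟩ := hf
  obtain ⟨Q, hQ⟩ := hg
  exact ⟨P * Q, fun x y => by rw [map_mul, ← hP, ← hQ]⟩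

theorem IP.fst : IP fun x _ => x :=
  ⟨MvPolynomial.X 0, fun x y => by simp⟩

theorem IP.snd : IP fun _ y => y :=
  ⟨MvPolynomial.X 1, fun x y => by simp⟩

theorem IP.zero : IP fun _ _ => 0 := ⟨0, fun x y => by simp⟩

theorem IP.one : IP fun _ _ => 1 := ⟨1, fun x y => by simp⟩

theorem hp_ip (k : ℕ) : IP (fun x y => (hp x y k).1) ∧ IP (fun x y => (hp x y k).2.1) ∧
    IP (fun x y => (hp x y k).2.2) := by
  induction k with
  | zero => exact ⟨IP.zero, IP.zero, IP.one⟩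
  | succ k ih =>
    obtain ⟨h1, h2, h3⟩ := ih
    exact ⟨h2, h3, ((IP.fst.mul h3).sub (IP.snd.mul h2)).add h1⟩

theorem hn_ip (k : ℕ) : IP (fun x y => (hn x y k).1) ∧ IP (fun x y => (hn x y k).2.1) ∧
    IP (fun x y => (hn x y k).2.2) := by
  induction k with
  | zero => exact ⟨IP.zero, IP.zero, IP.one⟩
  | succ k ih =>
    obtain ⟨h1, h2, h3⟩ := ih
    exact ⟨(h3.sub (IP.fst.mul h2)).add (IP.snd.mul h1), h1, h2⟩

theorem HH_ip (k : ℤ) : IP fun x y => HH x y k := by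
  cases k with
  | ofNat k => exact (hp_ip k).2.2
  | negSucc k => exact (hn_ip (k + 1)).2.2

theorem ps_ip (p q : ℤ) : IP fun x y => ps x y p q := by
  have e : (fun x y => ps x y p q) = fun x y =>
      HH x y ((![p + q, q, 0] : Fin 3 → ℤ) 0 - 2 + ((0 : Fin 3) : ℕ)) *
      HH x y ((![p + q, q, 0] : Fin 3 → ℤ) 1 - 2 + ((1 : Fin 3) : ℕ)) *
      HH x y ((![p + q, q, 0] : Fin 3 → ℤ) 2 - 2 + ((2 : Fin 3) : ℕ)) -
      HH x y ((![p + q, q, 0] : Fin 3 → ℤ) 0 - 2 + ((0 : Fin 3) : ℕ)) *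
      HH x y ((![p + q, q, 0] : Fin 3 → ℤ) 1 - 2 + ((2 : Fin 3) : ℕ)) *
      HH x y ((![p + q, q, 0] : Fin 3 → ℤ) 2 - 2 + ((1 : Fin 3) : ℕ)) -
      HH x y ((![p + q, q, 0] : Fin 3 → ℤ) 0 - 2 + ((1 : Fin 3) : ℕ)) *
      HH x y ((![p + q, q, 0] : Fin 3 → ℤ) 1 - 2 + ((0 : Fin 3) : ℕ)) *
      HH x y ((![p + q, q, 0] : Fin 3 → ℤ) 2 - 2 + ((2 : Fin 3) : ℕ)) +
      HH x y ((![p + q, q, 0] : Fin 3 → ℤ) 0 - 2 + ((1 : Fin 3) : ℕ)) *
      HH x y ((![p + q, q, 0] : Fin 3 → ℤ) 1 - 2 + ((2 : Fin 3) : ℕ)) *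
      HH x y ((![p + q, q, 0] : Fin 3 → ℤ) 2 - 2 + ((0 : Fin 3) : ℕ)) +
      HH x y ((![p + q, q, 0] : Fin 3 → ℤ) 0 - 2 + ((2 : Fin 3) : ℕ)) *
      HH x y ((![p + q, q, 0] : Fin 3 → ℤ) 1 - 2 + ((0 : Fin 3) : ℕ)) *
      HH x y ((![p + q, q, 0] : Fin 3 → ℤ) 2 - 2 + ((1 : Fin 3) : ℕ)) -
      HH x y ((![p + q, q, 0] : Fin 3 → ℤ) 0 - 2 + ((2 : Fin 3) : ℕ)) *
      HH x y ((![p + q, q, 0] : Fin 3 → ℤ) 1 - 2 + ((1 : Fin 3) : ℕ)) *
      HH x y ((![p + q, q, 0] : Fin 3 → ℤ) 2 - 2 + ((0 : Fin 3) : ℕ)) := by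
    funext x y
    rw [ps, XX, Matrix.det_fin_three]
    simp only [Matrix.of_apply]
  rw [e]
  have h : ∀ k : ℤ, IP fun x y => HH x y k := HH_ip
  exact ((((((h _).mul (h _)).mul (h _)).sub (((h _).mul (h _)).mul (h _))).sub
    (((h _).mul (h _)).mul (h _))).add (((h _).mul (h _)).mul (h _))).add
    (((h _).mul (h _)).mul (h _)) |>.sub (((h _).mul (h _)).mul (h _))

/-- the second reflection -/
theorem anti2 (hA : ALTF) (x y : ℂ) (p q : ℤ) : ps x y (p + q) (-q) = -ps x y p q := by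
  have h1 : ps x y (p + q) (-q) = XX x y (fun i => (![p, -q, 0] : Fin 3 → ℤ) i + q) := by
    rw [hA.shift, ps]
    congr 1
    funext i
    fin_cases i <;> simp
  have h2 : (fun i => (![p, -q, 0] : Fin 3 → ℤ) i + q) =
      (![p + q, q, 0] : Fin 3 → ℤ) ∘ (Equiv.swap (1 : Fin 3) 2) := by
    funext i
    fin_cases i
    · have : Equiv.swap (1 : Fin 3) 2 0 = 0 := by decide
      simp [this]
    · simp
    · simp
  rw [h1, h2, hA.perm, Equiv.Perm.sign_swap (by decide), ps]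
  simp

theorem dual (hA : ALTF) (x y : ℂ) (p q : ℤ) : ps y x p q = ps x y q p := by
  have s1 : ∀ p q : ℤ, ps y x (-p) (p + q) = ps x y (p + q) (-p) → ps y x p q = ps x y q p := by
    intro p q h
    rw [hA.anti, add_comm p q, anti2 hA] at h
    exact neg_injective h
  have s2 : ∀ p q : ℤ, ps y x (p + q) (-q) = ps x y (-q) (p + q) → ps y x p q = ps x y q p := by
    intro p q h
    rw [anti2 hA, add_comm p q, hA.anti] at h
    exact neg_injective h
  have s0 : ∀ p q : ℤ, 0 ≤ p → 0 ≤ q → ps y x p q = ps x y q p := by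
    intro p q hp hq
    lift p to ℕ using hp
    lift q to ℕ using hq
    exact hA.dual x y p q
  rcases le_or_gt 0 p with hp | hp
  · rcases le_or_gt 0 q with hq | hq
    · exact s0 p q hp hq
    · refine s2 p q ?_
      rcases le_or_gt 0 (p + q) with h | h
      · exact s0 _ _ h (by omega)
      · exact s1 _ _ (s0 _ _ (by omega) (by omega))
  · refine s1 p q ?_
    rcases le_or_gt 0 (p + q) with h | h
    · exact s0 _ _ (by omega) h
    · refine s2 _ _ ?_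
      rcases le_or_gt 0 q with hq | hq
      · exact s0 _ _ (by omega) (by omega)
      · exact s1 _ _ (s0 _ _ (by omega) (by omega))

/-- `u ^ n - v ^ n` is divisible by `u - v` -/
theorem pow_div (n : ℕ) : ∃ G : MvPolynomial (Fin 2) ℤ, ∀ u v : ℂ,
    u ^ n - v ^ n = (u - v) * MvPolynomial.aeval ![u + v, u * v] G := by
  induction n using Nat.twoStepInduction with
  | zero => exact ⟨0, fun u v => by simp⟩
  | one => exact ⟨1, fun u v => by simp⟩
  | more n h1 h2 =>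
    obtain ⟨G1, h1⟩ := h1
    obtain ⟨G2, h2⟩ := h2
    refine ⟨MvPolynomial.X 0 * G2 - MvPolynomial.X 1 * G1, fun u v => ?_⟩
    rw [map_sub, map_mul, map_mul, MvPolynomial.aeval_X, MvPolynomial.aeval_X]
    have e : u ^ (n + 2) - v ^ (n + 2) = (u + v) * (u ^ (n + 1) - v ^ (n + 1)) -
        u * v * (u ^ n - v ^ n) := by ring
    rw [e, h1, h2]
    simp only [Matrix.cons_val_zero, Matrix.cons_val_one]
    ring

theorem mon_div (a b : ℕ) : ∃ G : MvPolynomial (Fin 2) ℤ, ∀ u v : ℂ,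
    u ^ a * v ^ b - v ^ a * u ^ b = (u - v) * MvPolynomial.aeval ![u + v, u * v] G := by
  rcases le_total b a with h | h
  · obtain ⟨n, rfl⟩ := Nat.exists_eq_add_of_le h
    obtain ⟨G, hG⟩ := pow_div n
    refine ⟨MvPolynomial.X 1 ^ b * G, fun u v => ?_⟩
    rw [map_mul, map_pow, MvPolynomial.aeval_X]
    have e : u ^ (b + n) * v ^ b - v ^ (b + n) * u ^ b = (u * v) ^ b * (u ^ n - v ^ n) := by
      rw [mul_pow]
      ring
    rw [e, hG]
    simp only [Matrix.cons_val_one, Matrix.cons_val_fin_one]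
    ring
  · obtain ⟨n, rfl⟩ := Nat.exists_eq_add_of_le h
    obtain ⟨G, hG⟩ := pow_div n
    refine ⟨-(MvPolynomial.X 1 ^ a * G), fun u v => ?_⟩
    rw [map_neg, map_mul, map_pow, MvPolynomial.aeval_X]
    have e : u ^ a * v ^ (a + n) - v ^ a * u ^ (a + n) = -((u * v) ^ a * (u ^ n - v ^ n)) := by
      rw [mul_pow]
      ring
    rw [e, hG]
    simp only [Matrix.cons_val_one, Matrix.cons_val_fin_one]
    ring

theorem alt_div (F : MvPolynomial (Fin 2) ℤ) : ∃ G : MvPolynomial (Fin 2) ℤ, ∀ u v : ℂ,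
    MvPolynomial.aeval ![u, v] F - MvPolynomial.aeval ![v, u] F =
      (u - v) * MvPolynomial.aeval ![u + v, u * v] G := by
  induction F using MvPolynomial.induction_on' with
  | monomial m c =>
    obtain ⟨G, hG⟩ := mon_div (m 0) (m 1)
    refine ⟨MvPolynomial.C c * G, fun u v => ?_⟩
    rw [MvPolynomial.aeval_monomial, MvPolynomial.aeval_monomial, Finsupp.prod_fintype _ _ (by simp),
      Finsupp.prod_fintype _ _ (by simp), Fin.prod_univ_two, Fin.prod_univ_two, map_mul,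
      MvPolynomial.aeval_C]
    have e := hG u v
    simp only [Matrix.cons_val_zero, Matrix.cons_val_one, Matrix.cons_val_fin_one]
    calc algebraMap ℤ ℂ c * (u ^ m 0 * v ^ m 1) - algebraMap ℤ ℂ c * (v ^ m 0 * u ^ m 1)
        = algebraMap ℤ ℂ c * (u ^ m 0 * v ^ m 1 - v ^ m 0 * u ^ m 1) := by ring
      _ = _ := by rw [e]; ring
  | add F F' h h' =>
    obtain ⟨G, hG⟩ := h
    obtain ⟨G', hG'⟩ := h'
    refine ⟨G + G', fun u v => ?_⟩
    rw [map_add, map_add, map_add, mul_add, ← hG, ← hG']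
    ring

/-- the polynomials -/
theorem key (hA : ALTF) (l : Fin 2 → ℤ) : ∃ F : MvPolynomial (Fin 2) ℤ, ∀ u v : ℂ,
    MvPolynomial.aeval (![1 + u + v, u * v + u + v - 1] : Fin 2 → ℂ) F * (u - v) =
    ps u v (l 0 + l 1) (l 1) - ps u v (l 1) (l 0 + l 1) := by
  obtain ⟨P, hP⟩ := ps_ip (l 0 + l 1) (l 1)
  obtain ⟨G, hG⟩ := alt_div P
  refine ⟨MvPolynomial.aeval (![MvPolynomial.X 0 - 1, MvPolynomial.X 1 - MvPolynomial.X 0 + 2] :
    Fin 2 → MvPolynomial (Fin 2) ℤ) G, fun u v => ?_⟩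
  have h1 : ps u v (l 1) (l 0 + l 1) = ps v u (l 0 + l 1) (l 1) := dual hA v u (l 1) (l 0 + l 1)
  rw [h1]
  have h2 := hP u v
  have h3 := hP v u
  simp only at h2 h3
  rw [h2, h3, hG, mul_comm]
  congr 1
  have h4 : ((MvPolynomial.aeval (![1 + u + v, u * v + u + v - 1] : Fin 2 → ℂ)).comp
      (MvPolynomial.aeval (![MvPolynomial.X 0 - 1, MvPolynomial.X 1 - MvPolynomial.X 0 + 2] :
      Fin 2 → MvPolynomial (Fin 2) ℤ)) : MvPolynomial (Fin 2) ℤ →ₐ[ℤ] ℂ) =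
      MvPolynomial.aeval ![u + v, u * v] := by
    refine MvPolynomial.algHom_ext fun i => ?_
    rw [AlgHom.comp_apply, MvPolynomial.aeval_X, MvPolynomial.aeval_X]
    fin_cases i
    · simp
      ring
    · simp
      ring
  exact congrArg (fun f : MvPolynomial (Fin 2) ℤ →ₐ[ℤ] ℂ => f G) h4

end PGX

theorem t_PGX : M_PGX := by
  intro hA _
  choose F hF using PGX.key hA
  exact ⟨fun x l => MvPolynomial.aeval x (F l), ⟨fun l => ⟨F l, fun x => rfl⟩,
    fun u v l => hF l u v⟩⟩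

end

end STZ
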