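import Pool.Agent.STZ.StmtsN

/-!
# Module PHI: identities for the three-form and the four-form
-/

namespace STZ

open MeasureTheory Matrix

open scoped ComplexConjugate Matrix Real

namespace PHI

/-- table of the three-form -/
def p3 : ℕ := 0x80040101000000400202008000002000012000000010100090000000040000480000000200100400

/-- table of the three-form -/
def n3 : ℕ := 0x42000100000000210040000000080080202000000400400010000002101000080000010108000400000

/-- table of the four-form -/
def p4 : ℕ :=
  0x20000004000000020020000100000040000800040000000000001000800000900000000000004800000000000000000800002000000000000002100000800000004000080004000100000000100000800000000800000020080000000000000000080000200020000000000200800080000000000008020000000000040100100080000000000000002008000000000000000008001000042000000000004000008000000020000040020000000004000800008000001000000000200000000000000000040000100004200000000000021000000000002000004002000000020000080040000040100000000000000000000020000004000000100000020000000100100000800000200004000200000000000008004000004800000000000000000000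

/-- table of the four-form -/
def n4 : ℕ :=
  0x120000000800000000800000001004000020000040000000840000000100000020000000800000100000000000000000000802000100080000000800000000100000002000004000004004000000000020020020000080000000000000000000000000080200800008000000080000000800800000200000004000001000000000002100002000008000000000000000040000000008000080040000100008000000000800040000000020000000120000000000200000200040000000000000001004000000000000008004000000000040020000080004000020002000000042000000000000001000004000000000000000120000000000000900000004000000004000000008020000100000200000004200000000800000100000000000000000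

/-- the three-form from the table -/
def phf (i j k : Fin 7) : ℤ :=
  Int.ofNat ((p3 >>> (49 * i.1 + 7 * j.1 + k.1)) % 2) -
    Int.ofNat ((n3 >>> (49 * i.1 + 7 * j.1 + k.1)) % 2)

/-- the four-form from the table -/
def tb (i j k l : Fin 7) : ℤ :=
  Int.ofNat ((p4 >>> (343 * i.1 + 49 * j.1 + 7 * k.1 + l.1)) % 2) -
    Int.ofNat ((n4 >>> (343 * i.1 + 49 * j.1 + 7 * k.1 + l.1)) % 2)

theorem ph_eq : ∀ i j k, ph i j k = phf i j k := by
  decide +kernel

theorem tb_aux : ∀ i j k l, ∑ m, phf i j m * phf k l m - dl i k * dl j l + dl i l * dl j k =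
    tb i j k l := by
  decide +kernel

theorem ps4_eq (i j k l : Fin 7) : ps4 i j k l = tb i j k l := by
  rw [← tb_aux]
  simp only [ps4, ph_eq]

theorem c6' : ∀ i l, ∑ j, ∑ k, phf i j k * phf l j k = 6 * dl i l := by
  decide +kernel

theorem b2' : ∀ i j k l, tb i k j l = - tb i j k l := by
  decide +kernel

theorem c24' : ∀ l m, ∑ i, ∑ j, ∑ k, tb i j k l * tb i j k m = 24 * dl l m := by
  decide +kernel

theorem six' : ∀ i j k : Fin 7, i < j → j < k → ∀ a b c : Fin 7, a < b → b < c →
    ∑ n, tb i j k n * tb a b c n =
    dl i a * (dl j b * dl k c - dl j c * dl k b) - dl i b * (dl j a * dl k c - dl j c * dl k a) +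
    dl i c * (dl j a * dl k b - dl j b * dl k a) - phf i j k * phf a b c +
    (dl i a * tb j k b c + dl i b * tb j k c a + dl i c * tb j k a b) +
    (dl j a * tb k i b c + dl j b * tb k i c a + dl j c * tb k i a b) +
    (dl k a * tb i j b c + dl k b * tb i j c a + dl k c * tb i j a b) := by
  decide +kernel

theorem a1 (i j k : Fin 7) : ph j i k = -ph i j k := by
  have h : ∀ i j k, phf j i k = -phf i j k := by decide +kernel
  rw [ph_eq, ph_eq, h]

theorem a2 (i j k : Fin 7) : ph i k j = -ph i j k := by
  have h : ∀ i j k, phf i k j = -phf i j k := by decide +kernel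
  rw [ph_eq, ph_eq, h]

theorem b1 (i j k l : Fin 7) : ps4 j i k l = -ps4 i j k l := by
  have h : ∀ m, ph j i m * ph k l m = -(ph i j m * ph k l m) := fun m => by
    rw [a1 i j m]
    ring
  simp only [ps4, h, Finset.sum_neg_distrib]
  ring

theorem b2 (i j k l : Fin 7) : ps4 i k j l = -ps4 i j k l := by
  rw [ps4_eq, ps4_eq, b2']

theorem b3 (i j k l : Fin 7) : ps4 i j l k = -ps4 i j k l := by
  have h : ∀ m, ph i j m * ph l k m = -(ph i j m * ph k l m) := fun m => by
    rw [a1 k l m]
    ring
  simp only [ps4, h, Finset.sum_neg_distrib]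
  ring

/-- the difference of the two sides of `six` -/
def DD (i j k a b c : Fin 7) : ℤ := ∑ n, ps4 i j k n * ps4 a b c n -
    (dl i a * (dl j b * dl k c - dl j c * dl k b) - dl i b * (dl j a * dl k c - dl j c * dl k a) +
    dl i c * (dl j a * dl k b - dl j b * dl k a) - ph i j k * ph a b c +
    (dl i a * ps4 j k b c + dl i b * ps4 j k c a + dl i c * ps4 j k a b) +
    (dl j a * ps4 k i b c + dl j b * ps4 k i c a + dl j c * ps4 k i a b) +
    (dl k a * ps4 i j b c + dl k b * ps4 i j c a + dl k c * ps4 i j a b))

theorem DD_1 (a b c i j k : Fin 7) : DD j i k a b c = -DD i j k a b c := by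
  have hs : ∑ n, ps4 j i k n * ps4 a b c n = -∑ n, ps4 i j k n * ps4 a b c n := by
    rw [← Finset.sum_neg_distrib]
    refine Finset.sum_congr rfl fun n _ => ?_
    rw [b1 i j k n]
    ring
  have r1 : ∀ x y, ps4 j i x y = -ps4 i j x y := fun x y => b1 i j x y
  have r2 : ∀ x y, ps4 k j x y = -ps4 j k x y := fun x y => b1 j k x y
  have r3 : ∀ x y, ps4 i k x y = -ps4 k i x y := fun x y => b1 k i x y
  unfold DD
  rw [hs, a1 i j k, r1 b c, r1 c a, r1 a b, r2 b c, r2 c a, r2 a b, r3 b c, r3 c a, r3 a b]
  ring

theorem DD_2 (a b c i j k : Fin 7) : DD i k j a b c = -DD i j k a b c := by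
  have hs : ∑ n, ps4 i k j n * ps4 a b c n = -∑ n, ps4 i j k n * ps4 a b c n := by
    rw [← Finset.sum_neg_distrib]
    refine Finset.sum_congr rfl fun n _ => ?_
    rw [b2 i j k n]
    ring
  have r1 : ∀ x y, ps4 j i x y = -ps4 i j x y := fun x y => b1 i j x y
  have r2 : ∀ x y, ps4 k j x y = -ps4 j k x y := fun x y => b1 j k x y
  have r3 : ∀ x y, ps4 i k x y = -ps4 k i x y := fun x y => b1 k i x y
  unfold DD
  rw [hs, a2 i j k, r1 b c, r1 c a, r1 a b, r2 b c, r2 c a, r2 a b, r3 b c, r3 c a, r3 a b]
  ring

theorem DD_3 (i j k a b c : Fin 7) : DD i j k b a c = -DD i j k a b c := by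
  have hs : ∑ n, ps4 i j k n * ps4 b a c n = -∑ n, ps4 i j k n * ps4 a b c n := by
    rw [← Finset.sum_neg_distrib]
    refine Finset.sum_congr rfl fun n _ => ?_
    rw [b1 a b c n]
    ring
  have r1 : ∀ x y, ps4 x y b a = -ps4 x y a b := fun x y => b3 x y a b
  have r2 : ∀ x y, ps4 x y c b = -ps4 x y b c := fun x y => b3 x y b c
  have r3 : ∀ x y, ps4 x y a c = -ps4 x y c a := fun x y => b3 x y c a
  unfold DD
  rw [hs, a1 a b c, r1 i j, r1 j k, r1 k i, r2 i j, r2 j k, r2 k i, r3 i j, r3 j k, r3 k i]
  ring

theorem DD_4 (i j k a b c : Fin 7) : DD i j k a c b = -DD i j k a b c := by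
  have hs : ∑ n, ps4 i j k n * ps4 a c b n = -∑ n, ps4 i j k n * ps4 a b c n := by
    rw [← Finset.sum_neg_distrib]
    refine Finset.sum_congr rfl fun n _ => ?_
    rw [b2 a b c n]
    ring
  have r1 : ∀ x y, ps4 x y b a = -ps4 x y a b := fun x y => b3 x y a b
  have r2 : ∀ x y, ps4 x y c b = -ps4 x y b c := fun x y => b3 x y b c
  have r3 : ∀ x y, ps4 x y a c = -ps4 x y c a := fun x y => b3 x y c a
  unfold DD
  rw [hs, a2 a b c, r1 i j, r1 j k, r1 k i, r2 i j, r2 j k, r2 k i, r3 i j, r3 j k, r3 k i]
  ring

theorem anti3 (F : Fin 7 → Fin 7 → Fin 7 → ℤ) (h1 : ∀ i j k, F j i k = -F i j k)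
    (h2 : ∀ i j k, F i k j = -F i j k) (h0 : ∀ i j k, i < j → j < k → F i j k = 0)
    (i j k : Fin 7) : F i j k = 0 := by
  have e1 := h1 i j k
  have e2 := h2 i j k
  have e3 := h1 i k j
  have e4 := h2 k i j
  have e5 := h2 j i k
  rcases lt_trichotomy i j with hij | rfl | hij
  · rcases lt_trichotomy j k with hjk | rfl | hjk
    · exact h0 i j k hij hjk
    · omega
    · rcases lt_trichotomy i k with hik | rfl | hik
      · have := h0 i k j hik hjk
        omega
      · omega
      · have := h0 k i j hik hij
        omega
  · omega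
  · rcases lt_trichotomy i k with hik | rfl | hik
    · have := h0 j i k hij hik
      omega
    · omega
    · rcases lt_trichotomy j k with hjk | rfl | hjk
      · have := h0 j k i hjk hik
        omega
      · omega
      · have := h0 k j i hjk hij
        omega

theorem DD_zero (i j k a b c : Fin 7) : DD i j k a b c = 0 := by
  refine anti3 (fun i j k => DD i j k a b c) (DD_1 a b c) (DD_2 a b c) ?_ i j k
  intro i j k hij hjk
  refine anti3 (fun a b c => DD i j k a b c) (DD_3 i j k) (DD_4 i j k) ?_ a b c
  intro a b c hab hbc
  have h := six' i j k hij hjk a b c hab hbc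
  show DD i j k a b c = 0
  unfold DD
  simp only [ps4_eq, ph_eq]
  rw [h]
  ring

end PHI

open PHI in
theorem t_PHI : S_PHI where
  a1 := a1
  a2 := a2
  c6 := by
    intro i l
    simp only [ph_eq]
    exact c6' i l
  b1 := b1
  b2 := b2
  b3 := b3
  c24 := by
    intro l m
    simp only [ps4_eq]
    exact c24' l m
  six := by
    intro i j k a b c
    exact sub_eq_zero.1 (DD_zero i j k a b c)

end STZ
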