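import Pool.Agent.STZ.StmtsA

/-!
# Module PIECE: interaction of two boxes
-/

set_option autoImplicit false

namespace STZ

open MeasureTheory Matrix

open scoped ComplexConjugate Matrix Real

noncomputable section

namespace PIECE

section base

variable {M : Type} [TopologicalSpace M] [CompactSpace M] [T2Space M]
  [SecondCountableTopology M] [MeasurableSpace M] [BorelSpace M] (μ : Measure M)
  [IsProbabilityMeasure μ]

theorem integrable {E : Type} [NormedAddCommGroup E] {f : M → E} (hf : Continuous f) :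
    Integrable f μ :=
  hf.integrable_of_hasCompactSupport (HasCompactSupport.of_compactSpace f)

theorem norm_toLp_sq (f : C(M, ℂ)) :
    ‖ContinuousMap.toLp (E := ℂ) 2 μ ℂ f‖ ^ 2 = nsq μ f := by
  have h1 := ContinuousMap.inner_toLp (𝕜 := ℂ) μ f f
  rw [inner_self_eq_norm_sq_to_K] at h1
  have h2 : ∫ x, f x * conj (f x) ∂μ = ((nsq μ f : ℝ) : ℂ) := by
    rw [nsq, ← integral_complex_ofReal]
    refine integral_congr_ae (Filter.Eventually.of_forall fun x => ?_)
    change f x * conj (f x) = ((‖f x‖ ^ 2 : ℝ) : ℂ)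
    rw [Complex.mul_conj, Complex.normSq_eq_norm_sq]
  rw [h2] at h1
  apply Complex.ofReal_injective
  rw [← h1]
  exact Complex.ofReal_pow _ _

open Classical in
/-- the class of a continuous function in `L²` -/
def La (f : M → ℂ) : Lp ℂ 2 μ :=
  if h : Continuous f then ContinuousMap.toLp (E := ℂ) 2 μ ℂ ⟨f, h⟩ else 0

theorem La_sq {f : M → ℂ} (hf : Continuous f) : ‖La μ f‖ ^ 2 = nsq μ f := by
  rw [La, dif_pos hf, norm_toLp_sq]
  rfl

theorem La_sum {κ : Type} (I : Finset κ) (c : κ → ℂ) (v : κ → M → ℂ)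
    (hv : ∀ i ∈ I, Continuous (v i)) :
    La μ (fun x => ∑ i ∈ I, c i * v i x) = ∑ i ∈ I, c i • La μ (v i) := by
  classical
  induction I using Finset.induction_on with
  | empty =>
    have h0 : Continuous (fun _ : M => (0 : ℂ)) := continuous_const
    have h1 : (⟨fun _ : M => (0 : ℂ), h0⟩ : C(M, ℂ)) = 0 := rfl
    simp only [Finset.sum_empty]
    rw [La, dif_pos h0, h1, map_zero]
  | insert j I hj ih =>
    have hI : ∀ i ∈ I, Continuous (v i) := fun i hi => hv i (Finset.mem_insert_of_mem hi)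
    have hj' := hv j (Finset.mem_insert_self j I)
    have hc : Continuous fun x => ∑ i ∈ I, c i * v i x :=
      continuous_finsetSum _ fun i hi => continuous_const.mul (hI i hi)
    have hc' : Continuous fun x => c j * v j x + ∑ i ∈ I, c i * v i x :=
      (continuous_const.mul hj').add hc
    simp only [Finset.sum_insert hj]
    rw [← ih hI, La, dif_pos hc', La, dif_pos hj', La, dif_pos hc]
    have e : (⟨fun x => c j * v j x + ∑ i ∈ I, c i * v i x, hc'⟩ : C(M, ℂ)) =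
        c j • ⟨v j, hj'⟩ + ⟨fun x => ∑ i ∈ I, c i * v i x, hc⟩ := rfl
    rw [e, map_add, map_smul]

theorem Pr_sum {ι κ : Type} {K : ι → M → M → ℂ} (hK : ∀ a, Continuous fun z : M × M => K a z.1 z.2)
    (S : Finset ι) (I : Finset κ) (c : κ → ℂ) (v : κ → M → ℂ) (hv : ∀ i ∈ I, Continuous (v i))
    (x : M) :
    Pr μ K S (fun y => ∑ i ∈ I, c i * v i y) x = ∑ i ∈ I, c i * Pr μ K S (v i) x := by
  simp only [Pr]
  have h1 : ∀ a ∈ S, ∫ y, K a x y * ∑ i ∈ I, c i * v i y ∂μ =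
      ∑ i ∈ I, c i * ∫ y, K a x y * v i y ∂μ := by
    intro a _
    have hKx : Continuous fun y => K a x y := (hK a).comp (Continuous.prodMk_right x)
    simp only [Finset.mul_sum]
    rw [integral_finsetSum]
    · refine Finset.sum_congr rfl fun i _ => ?_
      rw [← integral_const_mul]
      refine integral_congr_ae (Filter.Eventually.of_forall fun y => ?_)
      change K a x y * (c i * v i y) = c i * (K a x y * v i y)
      ring
    · intro i hi
      exact integrable μ (hKx.mul (continuous_const.mul (hv i hi)))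
  rw [Finset.sum_congr rfl h1, Finset.sum_comm]
  simp only [Finset.mul_sum]

end base

/-- an abstract Hilbert space with a linear isometric map from the continuous functions -/
theorem exists_H {M : Type} [TopologicalSpace M] [CompactSpace M] [T2Space M]
    [SecondCountableTopology M] [MeasurableSpace M] [BorelSpace M] (μ : Measure M)
    [IsProbabilityMeasure μ] : ∃ (H : Type) (_ : NormedAddCommGroup H)
    (_ : InnerProductSpace ℂ H) (L : (M → ℂ) → H), (∀ f, Continuous f → ‖L f‖ ^ 2 = nsq μ f) ∧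
    ∀ (κ : Type) (I : Finset κ) (c : κ → ℂ) (v : κ → M → ℂ), (∀ i ∈ I, Continuous (v i)) →
      L (fun x => ∑ i ∈ I, c i * v i x) = ∑ i ∈ I, c i • L (v i) :=
  ⟨Lp ℂ 2 μ, inferInstance, inferInstance, La μ, fun _ hf => La_sq μ hf,
    fun _ I c v hv => La_sum μ I c v hv⟩

/-- the product of two parts of the data -/
theorem ub_mul {M ι : Type} {r : ℕ} (w : ι → Fin r → ℤ) (Q : (Fin r → ℤ) → ℤ) (F : Finset ι)
    (u : ι → M → ℂ) (z z' : Fin r → ℤ) (R : ℕ) (t : ℝ) :
    (fun x => ub w Q F u z R t x * ub w Q F u z' R t x) = fun x =>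
      ∑ p ∈ F.filter (fun a => w a ∈ bx z R) ×ˢ F.filter (fun b => w b ∈ bx z' R),
        (eu (t * Q (w p.1)) * eu (t * Q (w p.2))) * (u p.1 x * u p.2 x) := by
  funext x
  rw [ub, ub, Finset.sum_mul_sum, ← Finset.sum_product']
  refine Finset.sum_congr rfl fun p _ => ?_
  ring

theorem eu_add (a b : ℝ) : eu (a + b) = eu a * eu b := by
  rw [eu, eu, eu, ← Complex.exp_add]
  congr 1
  push_cast
  ring

theorem eu_cont (a : ℝ) : Continuous fun t : ℝ => eu (t * a) := by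
  unfold eu
  fun_prop

theorem fiber {ι X E : Type*} [DecidableEq X] [AddCommMonoid E] (F : Finset ι) (w : ι → X)
    (B : Finset X) (f : ι → E) :
    ∑ x ∈ B, ∑ a ∈ F.filter (fun a => w a = x), f a = ∑ a ∈ F.filter (fun a => w a ∈ B), f a := by
  classical
  rw [← Finset.sum_fiberwise_of_maps_to (s := F.filter (fun a => w a ∈ B)) (t := B) (g := w)
    (fun a ha => (Finset.mem_filter.1 ha).2)]
  refine Finset.sum_congr rfl fun x hx => ?_
  rw [Finset.filter_filter]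
  refine Finset.sum_congr ?_ fun _ _ => rfl
  ext a
  simp only [Finset.mem_filter]
  constructor
  · rintro ⟨h1, h2⟩
    exact ⟨h1, by rw [h2]; exact hx, h2⟩
  · rintro ⟨h1, _, h2⟩
    exact ⟨h1, h2⟩

/-- sums over sets with at most one element -/
theorem sq_sum_le {ι E : Type*} [SeminormedAddCommGroup E] (s : Finset ι)
    (hs : ∀ a ∈ s, ∀ b ∈ s, a = b) (f : ι → E) : ‖∑ a ∈ s, f a‖ ^ 2 ≤ ∑ a ∈ s, ‖f a‖ ^ 2 := by
  classical
  rcases s.eq_empty_or_nonempty with rfl | ⟨a, ha⟩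
  · simp
  · have h1 : s = {a} := by
      ext b
      rw [Finset.mem_singleton]
      exact ⟨fun hb => hs b hb a ha, fun hb => hb ▸ ha⟩
    rw [h1, Finset.sum_singleton, Finset.sum_singleton]

theorem one_le_sz {r : ℕ} (x : Fin r → ℤ) : 1 ≤ sz x := by
  have h : 0 ≤ ∑ i, |(x i : ℝ)| := Finset.sum_nonneg fun _ _ => abs_nonneg _
  rw [sz]
  linarith

theorem card_le {ι : Type} {r : ℕ} {w : ι → Fin r → ℤ} (hw : Function.Injective w) (S : Finset ι)
    (R : ℕ) (hS : ∀ c ∈ S, sz (w c) ≤ 2 * R) : S.card ≤ (4 * R + 1) ^ r := by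
  classical
  have h1 : S.image w ⊆ Fintype.piFinset fun _ : Fin r => Finset.Icc (-((2 * R : ℕ) : ℤ))
      ((2 * R : ℕ) : ℤ) := by
    intro x hx
    obtain ⟨c, hc, rfl⟩ := Finset.mem_image.1 hx
    rw [Fintype.mem_piFinset]
    intro i
    have h2 := hS c hc
    have h3 : |(w c i : ℝ)| ≤ ∑ j, |(w c j : ℝ)| :=
      Finset.single_le_sum (f := fun j => |(w c j : ℝ)|) (fun _ _ => abs_nonneg _)
        (Finset.mem_univ i)
    have h4 : |(w c i : ℝ)| ≤ ((2 * R : ℕ) : ℝ) := by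
      rw [sz] at h2
      push_cast
      linarith
    have h5 : |w c i| ≤ ((2 * R : ℕ) : ℤ) := by exact_mod_cast h4
    rw [Finset.mem_Icc]
    exact abs_le.1 h5
  have h2 := Finset.card_le_card h1
  rw [Finset.card_image_of_injective _ hw, Fintype.card_piFinset, Finset.prod_const,
    Finset.card_univ, Fintype.card_fin, Int.card_Icc] at h2
  have h3 : ((((2 * R : ℕ) : ℤ) + 1 - -((2 * R : ℕ) : ℤ)).toNat) = 4 * R + 1 := by omega
  rw [h3] at h2
  exact h2

/-- the bound for the diagonal -/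
theorem diag_le {ι : Type} {M : Type} {r : ℕ} {w : ι → Fin r → ℤ} {K : ι → M → M → ℂ} {C e : ℝ}
    (hw : Function.Injective w) (hC : 1 ≤ C) (he : 0 ≤ e)
    (hd : ∀ a x, ‖K a x x‖ ≤ C * sz (w a) ^ e) (S : Finset ι) (R : ℕ) (hR : 1 ≤ R)
    (hS : ∀ c ∈ S, R ≤ sz (w c) ∧ sz (w c) ≤ 2 * R) (x : M) :
    ∑ c ∈ S, ‖K c x x‖ ≤ C * 5 ^ r * 2 ^ e * ((R : ℝ) ^ (r : ℝ) * (R : ℝ) ^ e) := by
  have hR' : (1 : ℝ) ≤ R := by exact_mod_cast hR
  have h1 : ∀ c ∈ S, ‖K c x x‖ ≤ C * (2 * R) ^ e := by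
    intro c hc
    refine (hd c x).trans (mul_le_mul_of_nonneg_left ?_ (by linarith))
    exact Real.rpow_le_rpow (by linarith [one_le_sz (w c)]) (hS c hc).2 he
  have h2 := Finset.sum_le_card_nsmul S _ _ h1
  rw [nsmul_eq_mul] at h2
  refine h2.trans ?_
  have h3 : (S.card : ℝ) ≤ (5 * R) ^ r := by
    have h4 := card_le hw S R fun c hc => (hS c hc).2
    have h5 : (4 * R + 1) ^ r ≤ (5 * R) ^ r := Nat.pow_le_pow_left (by omega) r
    exact_mod_cast h4.trans h5
  have h4 : (0 : ℝ) ≤ C * (2 * R) ^ e := mul_nonneg (by linarith)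
    (Real.rpow_nonneg (by linarith) _)
  refine (mul_le_mul_of_nonneg_right h3 h4).trans (le_of_eq ?_)
  rw [mul_pow, Real.mul_rpow (by norm_num) (by linarith), Real.rpow_natCast]
  ring

/-- the integral over `M` -/
theorem space {M : Type} [TopologicalSpace M] [CompactSpace M] [T2Space M]
    [SecondCountableTopology M] [MeasurableSpace M] [BorelSpace M] (μ : Measure M)
    [IsProbabilityMeasure μ] {g : M → ℂ} (hg : Continuous g) {B q : ℝ} (hq : 2 < q) (hB : 0 ≤ B)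
    (h : ∀ x, ‖g x‖ ^ 2 ≤ B * nsq μ g) {y : ℝ} (hy : 0 ≤ y) (hy2 : nsq μ g = y ^ 2) :
    ∫ x, ‖g x‖ ^ q ∂μ ≤ B ^ ((q - 2) / 2) * y ^ q := by
  have hq2 : 0 ≤ (q - 2) / 2 := by linarith
  have h1 : ∀ x, ‖g x‖ ^ q ≤ (B * nsq μ g) ^ ((q - 2) / 2) * ‖g x‖ ^ 2 := by
    intro x
    have e1 : ‖g x‖ ^ q = (‖g x‖ ^ 2) ^ ((q - 2) / 2) * ‖g x‖ ^ 2 := by
      rw [← Real.rpow_natCast (‖g x‖) 2, ← Real.rpow_mul (norm_nonneg _),
        ← Real.rpow_add_of_nonneg (norm_nonneg _) (by push_cast; linarith) (by norm_num)]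
      congr 1
      push_cast
      ring
    rw [e1]
    exact mul_le_mul_of_nonneg_right (Real.rpow_le_rpow (sq_nonneg _) (h x) hq2) (sq_nonneg _)
  have h2 : ∫ x, ‖g x‖ ^ q ∂μ ≤ ∫ x, (B * nsq μ g) ^ ((q - 2) / 2) * ‖g x‖ ^ 2 ∂μ := by
    refine integral_mono (integrable μ ?_) (integrable μ ?_) h1
    · exact hg.norm.rpow_const fun _ => Or.inr (by linarith)
    · exact continuous_const.mul (hg.norm.pow 2)
  refine h2.trans (le_of_eq ?_)
  rw [integral_const_mul]
  change (B * nsq μ g) ^ ((q - 2) / 2) * nsq μ g = _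
  rw [hy2, Real.mul_rpow hB (sq_nonneg _), mul_assoc]
  congr 1
  rw [← Real.rpow_natCast y 2, ← Real.rpow_mul hy,
    ← Real.rpow_add_of_nonneg hy (by push_cast; linarith) (by norm_num)]
  congr 1
  push_cast
  ring

/-- the algebra of the exponents -/
theorem final {C0 CT C N R nb nb' q e r : ℝ} (hC0 : 0 ≤ C0) (hCT : 0 ≤ CT) (hC : 0 ≤ C)
    (hN : 0 < N) (hR : 0 < R) (hnb : 0 ≤ nb) (hnb' : 0 ≤ nb') (hq : 2 < q) :
    (C0 * (R ^ r * R ^ e)) ^ ((q - 2) / 2) *
        (CT * R ^ (r * q - 2) * (C * N ^ e / R ^ r * (nb * nb')) ^ (q / 2)) =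
      ((C0 ^ ((q - 2) / 2) * CT * C ^ (q / 2)) ^ (1 / q) * N ^ (e / 2) *
        R ^ ((2 * r + e) / 2 - (r + e + 2) / q) * √nb * √nb') ^ q := by
  have hq0 : q ≠ 0 := by linarith
  have h1 : 0 ≤ C0 ^ ((q - 2) / 2) * CT * C ^ (q / 2) :=
    mul_nonneg (mul_nonneg (Real.rpow_nonneg hC0 _) hCT) (Real.rpow_nonneg hC _)
  have h2 : 0 ≤ (C0 ^ ((q - 2) / 2) * CT * C ^ (q / 2)) ^ (1 / q) := Real.rpow_nonneg h1 _
  have h3 : 0 ≤ N ^ (e / 2) := Real.rpow_nonneg hN.le _
  have h4 : 0 ≤ R ^ ((2 * r + e) / 2 - (r + e + 2) / q) := Real.rpow_nonneg hR.le _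
  have h5 : 0 ≤ √nb := Real.sqrt_nonneg _
  have h6 : 0 ≤ √nb' := Real.sqrt_nonneg _
  rw [Real.mul_rpow (mul_nonneg (mul_nonneg (mul_nonneg h2 h3) h4) h5) h6,
    Real.mul_rpow (mul_nonneg (mul_nonneg h2 h3) h4) h5, Real.mul_rpow (mul_nonneg h2 h3) h4,
    Real.mul_rpow h2 h3, ← Real.rpow_mul h1, one_div, inv_mul_cancel₀ hq0, Real.rpow_one,
    ← Real.rpow_mul hN.le, ← Real.rpow_mul hR.le, Real.sqrt_eq_rpow, Real.sqrt_eq_rpow,
    ← Real.rpow_mul hnb, ← Real.rpow_mul hnb']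
  have hRr : 0 < R ^ r := Real.rpow_pos_of_pos hR _
  have hRe : 0 < R ^ e := Real.rpow_pos_of_pos hR _
  have hNe : 0 < N ^ e := Real.rpow_pos_of_pos hN _
  rw [Real.mul_rpow hC0 (mul_pos hRr hRe).le, Real.mul_rpow hRr.le hRe.le,
    Real.mul_rpow (div_nonneg (mul_nonneg hC hNe.le) hRr.le) (mul_nonneg hnb hnb'),
    Real.div_rpow (mul_nonneg hC hNe.le) hRr.le, Real.mul_rpow hC hNe.le,
    Real.mul_rpow hnb hnb', ← Real.rpow_mul hR.le, ← Real.rpow_mul hR.le, ← Real.rpow_mul hR.le,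
    ← Real.rpow_mul hN.le]
  have e1 : e / 2 * q = e * (q / 2) := by ring
  have e2 : 1 / 2 * q = q / 2 := by ring
  have e3 : R ^ (((2 * r + e) / 2 - (r + e + 2) / q) * q) =
      R ^ (r * ((q - 2) / 2)) * R ^ (e * ((q - 2) / 2)) * R ^ (r * q - 2) / R ^ (r * (q / 2)) := by
    rw [← Real.rpow_add hR, ← Real.rpow_add hR, ← Real.rpow_sub hR]
    congr 1
    field_simp
    ring
  rw [e1, e2, e3]
  ring

end PIECE

open PIECE in
theorem t_PIECE : M_PIECE := by
  classical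
  intro hKB hPRD hBERN hTIME M _ _ _ _ _ _ μ _ _ ι K r e w τ C hD Q A hQ hr q hq
  obtain ⟨CT, hCT, hT⟩ := hTIME r Q A q hQ hr hq
  have hkb := hKB M μ ι K hD.ker
  have hC1 := hD.one
  have hC : 0 ≤ C := by linarith
  have hC0 : 0 ≤ C * 5 ^ r * 2 ^ e :=
    mul_nonneg (mul_nonneg hC (by positivity)) (Real.rpow_nonneg (by norm_num) _)
  have hq0 : 0 < q := by linarith
  refine ⟨((C * 5 ^ r * 2 ^ e) ^ ((q - 2) / 2) * CT * C ^ (q / 2)) ^ (1 / q), ?_, ?_⟩
  · exact Real.rpow_nonneg (mul_nonneg (mul_nonneg (Real.rpow_nonneg hC0 _) hCT)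
      (Real.rpow_nonneg hC _)) _
  intro F u hu N hN R S hR hS z z'
  rcases F.eq_empty_or_nonempty with rfl | ⟨a0, ha0⟩
  · have h1 : nb μ w (∅ : Finset ι) u z' R = 0 := by
      rw [nb, Finset.filter_empty, Finset.sum_empty]
    have h2 : nq μ q (fun t => Pr μ K S fun x => ub w Q ∅ u z R t x * ub w Q ∅ u z' R t x) = 0 := by
      have h3 : ∀ t x, ‖Pr μ K S (fun x => ub w Q ∅ u z R t x * ub w Q ∅ u z' R t x) x‖ ^ q = 0 := by
        intro t x
        have h4 : Pr μ K S (fun x => ub w Q ∅ u z R t x * ub w Q ∅ u z' R t x) x = 0 := by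
          simp only [Pr, ub, Finset.filter_empty, Finset.sum_empty, mul_zero, integral_zero,
            Finset.sum_const_zero]
        rw [h4, norm_zero, Real.zero_rpow hq0.ne']
      simp only [nq, h3, integral_zero, intervalIntegral.integral_zero]
      exact Real.zero_rpow (one_div_pos.2 hq0).ne'
    rw [h1, h2, Real.sqrt_zero, mul_zero]
  have hN1 : 1 ≤ N := (one_le_sz (w a0)).trans (hN a0 ha0)
  have hN0 : 0 < N := by linarith
  have hR1 : (1 : ℝ) ≤ R := by exact_mod_cast hR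
  have hR0 : (0 : ℝ) < R := by linarith
  have hRr : (0 : ℝ) < (R : ℝ) ^ (r : ℝ) := Real.rpow_pos_of_pos hR0 _
  have huc : ∀ a ∈ F, Continuous (u a) := fun a ha => (hu a ha).1
  -- the functions of the pairs
  have hpc : ∀ a ∈ F, ∀ b ∈ F, Continuous (Pr μ K S fun m => u a m * u b m) := fun a ha b hb =>
    hkb.cont S _ ((huc a ha).mul (huc b hb))
  obtain ⟨H, _, _, L, hL2, hLs⟩ := exists_H μ
  obtain ⟨P, hP⟩ : ∃ P : ι → ι → M → ℂ, ∀ a b, P a b = Pr μ K S fun m => u a m * u b m :=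
    ⟨_, fun _ _ => rfl⟩
  have hPc : ∀ a ∈ F, ∀ b ∈ F, Continuous (P a b) := fun a ha b hb => by
    rw [hP]; exact hpc a ha b hb
  obtain ⟨G, hGd⟩ : ∃ G : (Fin r → ℤ) → (Fin r → ℤ) → H, ∀ x y, G x y =
      ∑ a ∈ F.filter (fun a => w a = x), ∑ b ∈ F.filter (fun b => w b = y), L (P a b) :=
    ⟨_, fun _ _ => rfl⟩
  obtain ⟨v, hv⟩ : ∃ v : ℝ → H, ∀ t, v t =
      ∑ x ∈ bx z R, ∑ y ∈ bx z' R, eu (t * (Q x + Q y : ℤ)) • G x y := ⟨_, fun _ => rfl⟩
  obtain ⟨g, hg⟩ : ∃ g : ℝ → M → ℂ, ∀ t, g t =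
      Pr μ K S fun x => ub w Q F u z R t x * ub w Q F u z' R t x := ⟨_, fun _ => rfl⟩
  -- the sum over the boxes
  have hvs : ∀ t, v t = ∑ a ∈ F.filter (fun a => w a ∈ bx z R),
      ∑ b ∈ F.filter (fun b => w b ∈ bx z' R),
        (eu (t * Q (w a)) * eu (t * Q (w b))) • L (P a b) := by
    intro t
    rw [hv, ← fiber]
    refine Finset.sum_congr rfl fun x _ => ?_
    have h1 : ∀ a ∈ F.filter (fun a => w a = x), ∑ b ∈ F.filter (fun b => w b ∈ bx z' R),
        (eu (t * Q (w a)) * eu (t * Q (w b))) • L (P a b) =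
        ∑ y ∈ bx z' R, ∑ b ∈ F.filter (fun b => w b = y),
          (eu (t * Q (w a)) * eu (t * Q (w b))) • L (P a b) :=
      fun a _ => (fiber _ _ _ _).symm
    rw [Finset.sum_congr rfl h1, Finset.sum_comm]
    refine Finset.sum_congr rfl fun y _ => ?_
    rw [hGd, Finset.smul_sum]
    refine Finset.sum_congr rfl fun a ha => ?_
    rw [Finset.smul_sum]
    refine Finset.sum_congr rfl fun b hb => ?_
    have e1 : t * ((Q x + Q y : ℤ) : ℝ) = t * (Q (w a) : ℝ) + t * (Q (w b) : ℝ) := by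
      rw [(Finset.mem_filter.1 ha).2, (Finset.mem_filter.1 hb).2]
      push_cast
      ring
    rw [e1, eu_add]
  -- the function `g`
  have hgs : ∀ t, g t = fun x => ∑ p ∈ F.filter (fun a => w a ∈ bx z R) ×ˢ
      F.filter (fun b => w b ∈ bx z' R), (eu (t * Q (w p.1)) * eu (t * Q (w p.2))) *
        P p.1 p.2 x := by
    intro t
    rw [hg, ub_mul]
    funext x
    have h2 := Pr_sum μ hD.ker.cont S (F.filter (fun a => w a ∈ bx z R) ×ˢ
      F.filter (fun b => w b ∈ bx z' R)) (fun p => eu (t * Q (w p.1)) * eu (t * Q (w p.2)))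
      (fun p m => u p.1 m * u p.2 m) (by
        intro p hp
        obtain ⟨hp1, hp2⟩ := Finset.mem_product.1 hp
        exact (huc _ (Finset.mem_filter.1 hp1).1).mul (huc _ (Finset.mem_filter.1 hp2).1)) x
    refine h2.trans (Finset.sum_congr rfl fun p _ => ?_)
    rw [hP]
  have hgc : ∀ t, Continuous (g t) := by
    intro t
    rw [hg]
    refine hkb.cont S _ ?_
    refine Continuous.mul ?_ ?_
    · exact continuous_finsetSum _ fun a ha =>
        continuous_const.mul (huc a (Finset.mem_filter.1 ha).1)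
    · exact continuous_finsetSum _ fun a ha =>
        continuous_const.mul (huc a (Finset.mem_filter.1 ha).1)
  have hgv : ∀ t, nsq μ (g t) = ‖v t‖ ^ 2 := by
    intro t
    have h1 := hLs (ι × ι) (F.filter (fun a => w a ∈ bx z R) ×ˢ
      F.filter (fun b => w b ∈ bx z' R)) (fun p => eu (t * Q (w p.1)) * eu (t * Q (w p.2)))
      (fun p => P p.1 p.2) (by
        intro p hp
        obtain ⟨hp1, hp2⟩ := Finset.mem_product.1 hp
        exact hPc _ (Finset.mem_filter.1 hp1).1 _ (Finset.mem_filter.1 hp2).1)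
    rw [← hL2 _ (hgc t), hgs t, h1, hvs t, Finset.sum_product]
  -- space
  have hsp : ∀ t, ∫ x, ‖g t x‖ ^ q ∂μ ≤
      (C * 5 ^ r * 2 ^ e * ((R : ℝ) ^ (r : ℝ) * (R : ℝ) ^ e)) ^ ((q - 2) / 2) * ‖v t‖ ^ q := by
    intro t
    refine space μ (hgc t) hq ?_ ?_ (norm_nonneg _) (hgv t)
    · exact mul_nonneg hC0 (mul_nonneg hRr.le (Real.rpow_nonneg hR0.le _))
    · intro x
      rw [hg]
      refine (hBERN M μ ι K hD.ker S _ x ?_).trans ?_
      · refine Continuous.mul ?_ ?_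
        · exact continuous_finsetSum _ fun a ha =>
            continuous_const.mul (huc a (Finset.mem_filter.1 ha).1)
        · exact continuous_finsetSum _ fun a ha =>
            continuous_const.mul (huc a (Finset.mem_filter.1 ha).1)
      · refine mul_le_mul_of_nonneg_right (diag_le hD.inj hC1 hD.enn hD.diag S R hR hS x) ?_
        exact integral_nonneg fun _ => sq_nonneg _
  -- time
  have hG : ∑ x ∈ bx z R, ∑ y ∈ bx z' R, ‖G x y‖ ^ 2 ≤
      C * N ^ e / (R : ℝ) ^ (r : ℝ) * (nb μ w F u z R * nb μ w F u z' R) := by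
    have hone : ∀ x : Fin r → ℤ, ∀ a ∈ F.filter (fun a => w a = x),
        ∀ b ∈ F.filter (fun a => w a = x), a = b := by
      intro x a ha b hb
      exact hD.inj ((Finset.mem_filter.1 ha).2.trans (Finset.mem_filter.1 hb).2.symm)
    have h1 : ∀ x y, ‖G x y‖ ^ 2 ≤ ∑ a ∈ F.filter (fun a => w a = x),
        ∑ b ∈ F.filter (fun b => w b = y), ‖L (P a b)‖ ^ 2 := by
      intro x y
      rw [hGd]
      refine (sq_sum_le _ (hone x) _).trans (Finset.sum_le_sum fun a _ => ?_)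
      exact sq_sum_le _ (hone y) _
    have h2 : ∑ x ∈ bx z R, ∑ y ∈ bx z' R, ‖G x y‖ ^ 2 ≤
        ∑ a ∈ F.filter (fun a => w a ∈ bx z R), ∑ b ∈ F.filter (fun b => w b ∈ bx z' R),
          ‖L (P a b)‖ ^ 2 := by
      refine (Finset.sum_le_sum fun x _ => Finset.sum_le_sum fun y _ => h1 x y).trans
        (le_of_eq ?_)
      rw [← fiber]
      refine Finset.sum_congr rfl fun x _ => ?_
      rw [Finset.sum_comm]
      refine Finset.sum_congr rfl fun a _ => ?_
      exact fiber _ _ _ _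
    refine h2.trans ?_
    have h3 : ∀ a ∈ F.filter (fun a => w a ∈ bx z R), ∀ b ∈ F.filter (fun b => w b ∈ bx z' R),
        ‖L (P a b)‖ ^ 2 ≤
          C * N ^ e / (R : ℝ) ^ (r : ℝ) * (nsq μ (u a) * nsq μ (u b)) := by
      intro a ha b hb
      have haF := (Finset.mem_filter.1 ha).1
      have hbF := (Finset.mem_filter.1 hb).1
      rw [hL2 _ (hPc a haF b hbF), hP]
      obtain ⟨T, β, hKK, hβ⟩ := hD.prod a b
      refine (hPRD M μ ι K hD.ker a b T β hKK (u a) (u b) (hu a haF) (hu b hbF)).1 S _ ?_ ?_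
      · exact div_nonneg (mul_nonneg hC (Real.rpow_nonneg hN0.le _)) hRr.le
      · intro c hcS hcT
        refine (hβ c hcT).1.trans ?_
        have hm : max (sz (w a)) (sz (w b)) ≤ N := max_le (hN a haF) (hN b hbF)
        have hm0 : 0 ≤ max (sz (w a)) (sz (w b)) :=
          le_max_of_le_left (by linarith [one_le_sz (w a)])
        refine div_le_div₀ (mul_nonneg hC (Real.rpow_nonneg hN0.le _)) ?_ hRr ?_
        · exact mul_le_mul_of_nonneg_left (Real.rpow_le_rpow hm0 hm hD.enn) hC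
        · rw [Real.rpow_natCast]
          exact pow_le_pow_left₀ hR0.le (hS c hcS).1 r
    refine (Finset.sum_le_sum fun a ha => Finset.sum_le_sum fun b hb => h3 a ha b hb).trans
      (le_of_eq ?_)
    rw [nb, nb, Finset.sum_mul_sum, Finset.mul_sum]
    refine Finset.sum_congr rfl fun a _ => ?_
    rw [Finset.mul_sum]
  have hG0 : 0 ≤ ∑ x ∈ bx z R, ∑ y ∈ bx z' R, ‖G x y‖ ^ 2 :=
    Finset.sum_nonneg fun _ _ => Finset.sum_nonneg fun _ _ => sq_nonneg _
  have hB0 : 0 ≤ C * 5 ^ r * 2 ^ e * ((R : ℝ) ^ (r : ℝ) * (R : ℝ) ^ e) :=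
    mul_nonneg hC0 (mul_nonneg hRr.le (Real.rpow_nonneg hR0.le _))
  have hvc : Continuous fun t => ‖v t‖ ^ q := by
    refine Continuous.rpow_const (continuous_norm.comp ?_) fun _ => Or.inr hq0.le
    have e1 : v = fun t => ∑ x ∈ bx z R, ∑ y ∈ bx z' R, eu (t * (Q x + Q y : ℤ)) • G x y :=
      funext hv
    rw [e1]
    exact continuous_finsetSum _ fun x _ => continuous_finsetSum _ fun y _ =>
      (eu_cont _).smul continuous_const
  have htot : ∫ t in (0 : ℝ)..1, ∫ x, ‖g t x‖ ^ q ∂μ ≤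
      (C * 5 ^ r * 2 ^ e * ((R : ℝ) ^ (r : ℝ) * (R : ℝ) ^ e)) ^ ((q - 2) / 2) *
        (CT * (R : ℝ) ^ (r * q - 2) *
          (C * N ^ e / (R : ℝ) ^ (r : ℝ) * (nb μ w F u z R * nb μ w F u z' R)) ^ (q / 2)) := by
    have h1 : ∫ t in (0 : ℝ)..1, ∫ x, ‖g t x‖ ^ q ∂μ ≤ ∫ t in (0 : ℝ)..1,
        (C * 5 ^ r * 2 ^ e * ((R : ℝ) ^ (r : ℝ) * (R : ℝ) ^ e)) ^ ((q - 2) / 2) * ‖v t‖ ^ q := by
      rw [intervalIntegral.integral_of_le zero_le_one, intervalIntegral.integral_of_le zero_le_one]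
      refine integral_mono_of_nonneg ?_ ?_ ?_
      · exact Filter.Eventually.of_forall fun t =>
          integral_nonneg fun x => Real.rpow_nonneg (norm_nonneg _) _
      · exact (continuous_const.mul hvc).integrableOn_Ioc
      · exact Filter.Eventually.of_forall hsp
    refine h1.trans ?_
    rw [intervalIntegral.integral_const_mul]
    refine mul_le_mul_of_nonneg_left ?_ (Real.rpow_nonneg hB0 _)
    have h2 := hT R z z' H G hR
    simp only [← hv] at h2
    refine h2.trans ?_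
    refine mul_le_mul_of_nonneg_left (Real.rpow_le_rpow hG0 hG (by linarith)) ?_
    exact mul_nonneg hCT (Real.rpow_nonneg hR0.le _)
  have hnb : 0 ≤ nb μ w F u z R :=
    Finset.sum_nonneg fun _ _ => integral_nonneg fun _ => sq_nonneg _
  have hnb' : 0 ≤ nb μ w F u z' R :=
    Finset.sum_nonneg fun _ _ => integral_nonneg fun _ => sq_nonneg _
  rw [final hC0 hCT hC hN0 hR0 hnb hnb' hq] at htot
  have hnq : nq μ q (fun t => Pr μ K S fun x => ub w Q F u z R t x * ub w Q F u z' R t x) =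
      (∫ t in (0 : ℝ)..1, ∫ x, ‖g t x‖ ^ q ∂μ) ^ (1 / q) := by
    rw [nq]
    simp only [hg]
  rw [hnq]
  have hint0 : 0 ≤ ∫ t in (0 : ℝ)..1, ∫ x, ‖g t x‖ ^ q ∂μ :=
    intervalIntegral.integral_nonneg zero_le_one fun t _ =>
      integral_nonneg fun x => Real.rpow_nonneg (norm_nonneg _) _
  refine (Real.rpow_le_rpow hint0 htot (one_div_pos.2 hq0).le).trans (le_of_eq ?_)
  rw [← Real.rpow_mul, mul_one_div_cancel hq0.ne', Real.rpow_one]
  refine mul_nonneg (mul_nonneg (mul_nonneg (mul_nonneg ?_ ?_) ?_) (Real.sqrt_nonneg _))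
    (Real.sqrt_nonneg _)
  · exact Real.rpow_nonneg (mul_nonneg (mul_nonneg (Real.rpow_nonneg hC0 _) hCT)
      (Real.rpow_nonneg hC _)) _
  · exact Real.rpow_nonneg hN0.le _
  · exact Real.rpow_nonneg hR0.le _

end

end STZ
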