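import Pool.Agent.STZ.StmtsK

/-!
# Module PKA: the characters of `SU(3)`
-/

namespace STZ

open MeasureTheory Matrix

open scoped ComplexConjugate Matrix Real

noncomputable section

namespace PKA

/-- the second reflection -/
theorem anti2 (hA : ALTF) (x y : ℂ) (p q : ℤ) : ps x y (p + q) (-q) = - ps x y p q := by
  unfold ps
  have h1 := hA.shift x y ![p + q + -q, -q, 0] q
  rw [← h1]
  have h2 : (fun i => ![p + q + -q, -q, 0] i + q) =
      (![p + q, q, 0] : Fin 3 → ℤ) ∘ (Equiv.swap (1 : Fin 3) 2) := by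
    funext i
    fin_cases i
    · simp [Equiv.swap_apply_of_ne_of_ne]
    · simp
    · simp
  rw [h2, hA.perm, Equiv.Perm.sign_swap (by decide)]
  simp

theorem mulVec_two (a b c d : ℤ) (l : Fin 2 → ℤ) :
    (!![a, b; c, d] *ᵥ l) 0 = a * l 0 + b * l 1 ∧ (!![a, b; c, d] *ᵥ l) 1 = c * l 0 + d * l 1 := by
  constructor <;> simp [Matrix.mulVec, dotProduct, Fin.sum_univ_two]

theorem det_two (a b c d : ℤ) : (!![a, b; c, d] : Matrix (Fin 2) (Fin 2) ℤ).det = a * d - b * c :=
  Matrix.det_fin_two_of a b c d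

/-- the action of a matrix -/
theorem act (x y : ℂ) (a b c d : ℤ) (l : Fin 2 → ℤ)
    (h : ps x y (a * l 0 + b * l 1) (c * l 0 + d * l 1) =
      ((a * d - b * c : ℤ) : ℂ) * ps x y (l 0) (l 1)) :
    ps x y ((!![a, b; c, d] *ᵥ l) 0) ((!![a, b; c, d] *ᵥ l) 1) =
      ((!![a, b; c, d] : Matrix (Fin 2) (Fin 2) ℤ).det : ℂ) * ps x y (l 0) (l 1) := by
  rw [(mulVec_two a b c d l).1, (mulVec_two a b c d l).2, det_two]
  exact h

end PKA

theorem t_PKA : M_PKA := by
  intro hA
  have hA' : ALTF := hA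
  refine ⟨?_, ?_, ?_⟩
  · intro w hw x l
    change w ∈ W1 at hw
    change ps (x 0) (x 1) ((w *ᵥ l) 0) ((w *ᵥ l) 1) = (w.det : ℂ) * ps (x 0) (x 1) (l 0) (l 1)
    have a1 := hA'.anti (x 0) (x 1)
    have a2 := PKA.anti2 hA' (x 0) (x 1)
    unfold W1 at hw
    simp only [Finset.mem_insert, Finset.mem_singleton] at hw
    rcases hw with rfl | rfl | rfl | rfl | rfl | rfl
    · apply PKA.act
      norm_num
    · apply PKA.act
      have h1 := a1 (l 0) (l 1)
      have e1 : -1 * l 0 + 0 * l 1 = -l 0 := by ring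
      have e2 : 1 * l 0 + 1 * l 1 = l 0 + l 1 := by ring
      rw [e1, e2, h1]
      norm_num
    · apply PKA.act
      have h1 := a2 (l 0) (l 1)
      have e1 : 1 * l 0 + 1 * l 1 = l 0 + l 1 := by ring
      have e2 : 0 * l 0 + -1 * l 1 = -l 1 := by ring
      rw [e1, e2, h1]
      norm_num
    · apply PKA.act
      have h1 := a1 (l 0) (l 1)
      have h2 := a2 (-l 0) (l 0 + l 1)
      have e1 : 0 * l 0 + 1 * l 1 = -l 0 + (l 0 + l 1) := by ring
      have e2 : -1 * l 0 + -1 * l 1 = -(l 0 + l 1) := by ring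
      rw [e1, e2, h2, h1]
      norm_num
    · apply PKA.act
      have h1 := a2 (l 0) (l 1)
      have h2 := a1 (l 0 + l 1) (-l 1)
      have e1 : -1 * l 0 + -1 * l 1 = -(l 0 + l 1) := by ring
      have e2 : 1 * l 0 + 0 * l 1 = l 0 + l 1 + -l 1 := by ring
      rw [e1, e2, h2, h1]
      norm_num
    · apply PKA.act
      have h1 := a1 (l 0) (l 1)
      have h2 := a2 (-l 0) (l 0 + l 1)
      have h3 := a1 (-l 0 + (l 0 + l 1)) (-(l 0 + l 1))
      have e1 : 0 * l 0 + -1 * l 1 = -(-l 0 + (l 0 + l 1)) := by ring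
      have e2 : -1 * l 0 + 0 * l 1 = -l 0 + (l 0 + l 1) + -(l 0 + l 1) := by ring
      rw [e1, e2, h3, h2, h1]
      norm_num
  · intro x
    exact hA'.one (x 0) (x 1)
  · intro i x l
    fin_cases i
    · change x 0 * ps (x 0) (x 1) (l 0) (l 1) =
        ∑ κ ∈ ({![1, 0], ![-1, 1], ![0, -1]} : Finset (Fin 2 → ℤ)),
          ((1 : ℤ) : ℂ) * ps (x 0) (x 1) ((l + κ) 0) ((l + κ) 1)
      rw [hA'.xp, Finset.sum_insert (by decide), Finset.sum_insert (by decide),
        Finset.sum_singleton]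
      simp only [Int.cast_one, one_mul, Pi.add_apply, Matrix.cons_val_zero, Matrix.cons_val_one,
        add_zero]
      rw [← sub_eq_add_neg, ← sub_eq_add_neg]
      ring
    · change x 1 * ps (x 0) (x 1) (l 0) (l 1) =
        ∑ κ ∈ ({![-1, 0], ![1, -1], ![0, 1]} : Finset (Fin 2 → ℤ)),
          ((1 : ℤ) : ℂ) * ps (x 0) (x 1) ((l + κ) 0) ((l + κ) 1)
      rw [hA'.yp, Finset.sum_insert (by decide), Finset.sum_insert (by decide),
        Finset.sum_singleton]
      simp only [Int.cast_one, one_mul, Pi.add_apply, Matrix.cons_val_zero, Matrix.cons_val_one,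
        add_zero]
      rw [← sub_eq_add_neg, ← sub_eq_add_neg]
      ring

end

end STZ
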