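import Pool.Agent.STZ.StmtsK

/-!
# STZ_PKC: the rules for the characters of `Sp(2)`
-/

namespace STZ

open MeasureTheory Matrix

open scoped ComplexConjugate Matrix Real

noncomputable section

namespace PKC

/-- the matrix of the Chebyshev polynomial -/
def SM (x : Fin 2 → ℂ) (n : ℤ) : Matrix (Fin 2) (Fin 2) ℂ :=
  Polynomial.aeval (cm x) (Polynomial.Chebyshev.S ℤ n)

theorem vC_eq (x : Fin 2 → ℂ) (n : ℤ) (i : Fin 2) : vC x n i = SM x (n - 1) i 0 := rfl

theorem SM_rec (x : Fin 2 → ℂ) (n : ℤ) : SM x (n + 1) = cm x * SM x n - SM x (n - 1) := by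
  unfold SM
  rw [Polynomial.Chebyshev.S_add_one, map_sub, map_mul, Polynomial.aeval_X]

theorem SM_neg (x : Fin 2 → ℂ) (n : ℤ) : SM x (-n - 1) = - SM x (n - 1) := by
  unfold SM
  rw [Polynomial.Chebyshev.S_neg_sub_one, map_neg]

theorem SM_zero (x : Fin 2 → ℂ) : SM x 0 = 1 := by
  unfold SM
  rw [Polynomial.Chebyshev.S_zero, map_one]

theorem vC_neg (x : Fin 2 → ℂ) (n : ℤ) (i : Fin 2) : vC x (-n) i = - vC x n i := by
  rw [vC_eq, vC_eq, SM_neg]
  rfl

theorem vC_add0 (x : Fin 2 → ℂ) (n : ℤ) :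
    vC x (n + 1) 0 + vC x (n - 1) 0 = (1 - x 1) * vC x n 1 := by
  have h := SM_rec x (n - 1)
  have h0 := congrFun (congrFun h 0) 0
  rw [Matrix.sub_apply, Matrix.mul_apply, Fin.sum_univ_two] at h0
  have e1 : n - 1 + 1 = n + 1 - 1 := by ring
  rw [e1] at h0
  rw [vC_eq, vC_eq, vC_eq, h0]
  simp [cm]

theorem vC_add1 (x : Fin 2 → ℂ) (n : ℤ) :
    vC x (n + 1) 1 + vC x (n - 1) 1 = vC x n 0 + x 0 * vC x n 1 := by
  have h := SM_rec x (n - 1)
  have h0 := congrFun (congrFun h 1) 0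
  rw [Matrix.sub_apply, Matrix.mul_apply, Fin.sum_univ_two] at h0
  have e1 : n - 1 + 1 = n + 1 - 1 := by ring
  rw [e1] at h0
  rw [vC_eq, vC_eq, vC_eq, vC_eq, h0]
  simp [cm]

/-- the determinant of two columns -/
def dt (x : Fin 2 → ℂ) (a b : ℤ) : ℂ := vC x a 0 * vC x b 1 - vC x a 1 * vC x b 0

theorem psC_eq (x : Fin 2 → ℂ) (l : Fin 2 → ℤ) : psC x l = dt x (l 1) (l 0 + l 1) := rfl

theorem dt_swap (x : Fin 2 → ℂ) (a b : ℤ) : dt x b a = - dt x a b := by
  unfold dt; ring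

theorem dt_neg_left (x : Fin 2 → ℂ) (a b : ℤ) : dt x (-a) b = - dt x a b := by
  unfold dt; rw [vC_neg, vC_neg]; ring

theorem dt_neg_right (x : Fin 2 → ℂ) (a b : ℤ) : dt x a (-b) = - dt x a b := by
  unfold dt; rw [vC_neg, vC_neg]; ring

theorem dt_rule0 (x : Fin 2 → ℂ) (a b : ℤ) :
    x 0 * dt x a b = dt x a (b + 1) + dt x a (b - 1) + dt x (a + 1) b + dt x (a - 1) b := by
  have h1 := vC_add0 x a
  have h2 := vC_add1 x a
  have h3 := vC_add0 x b
  have h4 := vC_add1 x b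
  unfold dt
  linear_combination (- vC x a 0) * h4 + vC x a 1 * h3 - vC x b 1 * h1 + vC x b 0 * h2

theorem dt_rule1 (x : Fin 2 → ℂ) (a b : ℤ) :
    x 1 * dt x a b = dt x (a + 1) (b + 1) + dt x (a - 1) (b + 1) + dt x (a + 1) (b - 1)
      + dt x (a - 1) (b - 1) + dt x a b := by
  have h1 := vC_add0 x a
  have h2 := vC_add1 x a
  have h3 := vC_add0 x b
  have h4 := vC_add1 x b
  have e : dt x (a + 1) (b + 1) + dt x (a - 1) (b + 1) + dt x (a + 1) (b - 1)
      + dt x (a - 1) (b - 1) = (vC x (a + 1) 0 + vC x (a - 1) 0) * (vC x (b + 1) 1 + vC x (b - 1) 1)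
        - (vC x (a + 1) 1 + vC x (a - 1) 1) * (vC x (b + 1) 0 + vC x (b - 1) 0) := by
    unfold dt; ring
  rw [e, h1, h2, h3, h4]
  unfold dt
  ring

end PKC

open PKC

theorem t_PKC : S_PKC := by
  refine ⟨?_, ?_, ?_⟩
  · intro w hw x l
    change w ∈ W2 at hw
    change psC x (w *ᵥ l) = _ * psC x l
    simp only [W2, Finset.mem_insert, Finset.mem_singleton] at hw
    rw [psC_eq, psC_eq]
    rcases hw with rfl | rfl | rfl | rfl | rfl | rfl | rfl | rfl
    · have e0 : ((!![1, 0; 0, 1] : Matrix (Fin 2) (Fin 2) ℤ) *ᵥ l) 0 = l 0 := by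
        simp [Matrix.mulVec, dotProduct, Fin.sum_univ_two]
      have e1 : ((!![1, 0; 0, 1] : Matrix (Fin 2) (Fin 2) ℤ) *ᵥ l) 1 = l 1 := by
        simp [Matrix.mulVec, dotProduct, Fin.sum_univ_two]
      rw [e0, e1]
      simp [Matrix.det_fin_two]
    · have e0 : ((!![-1, 0; 1, 1] : Matrix (Fin 2) (Fin 2) ℤ) *ᵥ l) 0 = - l 0 := by
        simp [Matrix.mulVec, dotProduct, Fin.sum_univ_two]
      have e1 : ((!![-1, 0; 1, 1] : Matrix (Fin 2) (Fin 2) ℤ) *ᵥ l) 1 = l 0 + l 1 := by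
        simp [Matrix.mulVec, dotProduct, Fin.sum_univ_two]
      rw [e0, e1, show -l 0 + (l 0 + l 1) = l 1 by ring, dt_swap]
      simp [Matrix.det_fin_two]
    · have e0 : ((!![1, 2; 0, -1] : Matrix (Fin 2) (Fin 2) ℤ) *ᵥ l) 0 = l 0 + 2 * l 1 := by
        simp [Matrix.mulVec, dotProduct, Fin.sum_univ_two]
      have e1 : ((!![1, 2; 0, -1] : Matrix (Fin 2) (Fin 2) ℤ) *ᵥ l) 1 = - l 1 := by
        simp [Matrix.mulVec, dotProduct, Fin.sum_univ_two]
      rw [e0, e1, show l 0 + 2 * l 1 + -l 1 = l 0 + l 1 by ring, dt_neg_left]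
      simp [Matrix.det_fin_two]
    · have e0 : ((!![1, 2; -1, -1] : Matrix (Fin 2) (Fin 2) ℤ) *ᵥ l) 0 = l 0 + 2 * l 1 := by
        simp [Matrix.mulVec, dotProduct, Fin.sum_univ_two]
      have e1 : ((!![1, 2; -1, -1] : Matrix (Fin 2) (Fin 2) ℤ) *ᵥ l) 1 = - (l 0 + l 1) := by
        simp [Matrix.mulVec, dotProduct, Fin.sum_univ_two]
        ring
      rw [e0, e1, show l 0 + 2 * l 1 + -(l 0 + l 1) = l 1 by ring, dt_neg_left, dt_swap]
      simp [Matrix.det_fin_two]
    · have e0 : ((!![-1, -2; 1, 1] : Matrix (Fin 2) (Fin 2) ℤ) *ᵥ l) 0 = - l 0 - 2 * l 1 := by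
        simp [Matrix.mulVec, dotProduct, Fin.sum_univ_two]
        ring
      have e1 : ((!![-1, -2; 1, 1] : Matrix (Fin 2) (Fin 2) ℤ) *ᵥ l) 1 = l 0 + l 1 := by
        simp [Matrix.mulVec, dotProduct, Fin.sum_univ_two]
      rw [e0, e1, show - l 0 - 2 * l 1 + (l 0 + l 1) = - l 1 by ring, dt_neg_right, dt_swap]
      simp [Matrix.det_fin_two]
    · have e0 : ((!![-1, -2; 0, 1] : Matrix (Fin 2) (Fin 2) ℤ) *ᵥ l) 0 = - l 0 - 2 * l 1 := by
        simp [Matrix.mulVec, dotProduct, Fin.sum_univ_two]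
        ring
      have e1 : ((!![-1, -2; 0, 1] : Matrix (Fin 2) (Fin 2) ℤ) *ᵥ l) 1 = l 1 := by
        simp [Matrix.mulVec, dotProduct, Fin.sum_univ_two]
      rw [e0, e1, show - l 0 - 2 * l 1 + l 1 = - (l 0 + l 1) by ring, dt_neg_right]
      simp [Matrix.det_fin_two]
    · have e0 : ((!![1, 0; -1, -1] : Matrix (Fin 2) (Fin 2) ℤ) *ᵥ l) 0 = l 0 := by
        simp [Matrix.mulVec, dotProduct, Fin.sum_univ_two]
      have e1 : ((!![1, 0; -1, -1] : Matrix (Fin 2) (Fin 2) ℤ) *ᵥ l) 1 = - (l 0 + l 1) := by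
        simp [Matrix.mulVec, dotProduct, Fin.sum_univ_two]
        ring
      rw [e0, e1, show l 0 + -(l 0 + l 1) = - l 1 by ring, dt_neg_left, dt_neg_right, dt_swap]
      simp [Matrix.det_fin_two]
    · have e0 : ((!![-1, 0; 0, -1] : Matrix (Fin 2) (Fin 2) ℤ) *ᵥ l) 0 = - l 0 := by
        simp [Matrix.mulVec, dotProduct, Fin.sum_univ_two]
      have e1 : ((!![-1, 0; 0, -1] : Matrix (Fin 2) (Fin 2) ℤ) *ᵥ l) 1 = - l 1 := by
        simp [Matrix.mulVec, dotProduct, Fin.sum_univ_two]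
      rw [e0, e1, show - l 0 + - l 1 = - (l 0 + l 1) by ring, dt_neg_left, dt_neg_right]
      simp [Matrix.det_fin_two]
  · intro x
    change psC x 1 = 1
    have h1 : vC x 1 0 = 1 := by
      rw [vC_eq, show (1 : ℤ) - 1 = 0 by ring, SM_zero, Matrix.one_apply_eq]
    have h2 : vC x 1 1 = 0 := by
      rw [vC_eq, show (1 : ℤ) - 1 = 0 by ring, SM_zero, Matrix.one_apply_ne (by decide)]
    have h3 : vC x 2 1 = 1 := by
      have h := vC_add1 x 1
      have h0 : vC x 0 1 = 0 := by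
        have := vC_neg x 0 1
        rw [neg_zero] at this
        linear_combination (1 / 2) * this
      rw [show (1 : ℤ) + 1 = 2 by ring, show (1 : ℤ) - 1 = 0 by ring, h0, h1, h2] at h
      linear_combination h
    rw [psC_eq]
    change dt x 1 (1 + 1) = 1
    unfold dt
    rw [show (1 : ℤ) + 1 = 2 by ring, h1, h2, h3]
    ring
  · intro i x l
    fin_cases i
    · change x 0 * psC x l = ∑ κ ∈ ({![1, 0], ![-1, 1], ![-1, 0], ![1, -1]} : Finset (Fin 2 → ℤ)),
        (((1 : ℤ) : ℂ)) * psC x (l + κ)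
      rw [Finset.sum_insert (by decide), Finset.sum_insert (by decide),
        Finset.sum_insert (by decide), Finset.sum_singleton]
      have a1 : psC x (l + ![1, 0]) = dt x (l 1) (l 0 + l 1 + 1) := by
        rw [psC_eq]
        congr 1
        · simp
        · simp; ring
      have a2 : psC x (l + ![-1, 1]) = dt x (l 1 + 1) (l 0 + l 1) := by
        rw [psC_eq]
        congr 1
        · simp; ring
      have a3 : psC x (l + ![-1, 0]) = dt x (l 1) (l 0 + l 1 - 1) := by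
        rw [psC_eq]
        congr 1
        · simp
        · simp; ring
      have a4 : psC x (l + ![1, -1]) = dt x (l 1 - 1) (l 0 + l 1) := by
        rw [psC_eq]
        congr 1
        · simp; ring
      rw [a1, a2, a3, a4, psC_eq, dt_rule0]
      push_cast
      ring
    · change x 1 * psC x l = ∑ κ ∈ ({![0, 1], ![2, -1], ![0, -1], ![-2, 1], ![0, 0]} :
        Finset (Fin 2 → ℤ)), (((1 : ℤ) : ℂ)) * psC x (l + κ)
      rw [Finset.sum_insert (by decide), Finset.sum_insert (by decide),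
        Finset.sum_insert (by decide), Finset.sum_insert (by decide), Finset.sum_singleton]
      have a1 : psC x (l + ![0, 1]) = dt x (l 1 + 1) (l 0 + l 1 + 1) := by
        rw [psC_eq]
        congr 1
        · simp; ring
      have a2 : psC x (l + ![2, -1]) = dt x (l 1 - 1) (l 0 + l 1 + 1) := by
        rw [psC_eq]
        congr 1
        · simp; ring
      have a3 : psC x (l + ![0, -1]) = dt x (l 1 - 1) (l 0 + l 1 - 1) := by
        rw [psC_eq]
        congr 1
        · simp; ring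
      have a4 : psC x (l + ![-2, 1]) = dt x (l 1 + 1) (l 0 + l 1 - 1) := by
        rw [psC_eq]
        congr 1
        · simp; ring
      have a5 : psC x (l + ![0, 0]) = dt x (l 1) (l 0 + l 1) := by
        rw [psC_eq]
        congr 1
        · simp
        · simp
      rw [a1, a2, a3, a4, a5, psC_eq, dt_rule1]
      push_cast
      ring

end

end STZ
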