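import Pool.Agent.STZ.StmtsK

/-!
# Module PKG: the rules for the characters of `G₂`
-/

namespace STZ

open MeasureTheory Matrix

open scoped ComplexConjugate Matrix Real

noncomputable section

namespace PKG

/-- the second reflection -/
theorem anti2 (hA : ALTF) (x y : ℂ) (p q : ℤ) : ps x y (p + q) (-q) = - ps x y p q := by
  unfold ps
  have h1 := hA.shift x y ![p + q + -q, -q, 0] q
  rw [← h1]
  have h2 : (fun i => ![p + q + -q, -q, 0] i + q) =
      (![p + q, q, 0] : Fin 3 → ℤ) ∘ (Equiv.swap (1 : Fin 3) 2) := by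
    funext i
    fin_cases i
    · simp [Equiv.swap_apply_of_ne_of_ne]
    · simp
    · simp
  rw [h2, hA.perm, Equiv.Perm.sign_swap (by decide)]
  simp

theorem mulVec_two (a b c d : ℤ) (l : Fin 2 → ℤ) :
    (!![a, b; c, d] *ᵥ l) 0 = a * l 0 + b * l 1 ∧ (!![a, b; c, d] *ᵥ l) 1 = c * l 0 + d * l 1 := by
  constructor <;> simp [Matrix.mulVec, dotProduct, Fin.sum_univ_two]

theorem det_two (a b c d : ℤ) : (!![a, b; c, d] : Matrix (Fin 2) (Fin 2) ℤ).det = a * d - b * c :=
  Matrix.det_fin_two_of a b c d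

/-- the difference of two characters of `SU(3)` -/
def dd (u v : ℂ) (a b : ℤ) : ℂ := ps u v a b - ps u v b a

theorem dd_swap (u v : ℂ) (a b : ℤ) : dd u v b a = - dd u v a b := by
  unfold dd; ring

theorem dd_one (hA : ALTF) (u v : ℂ) (a b : ℤ) : dd u v (-a) (a + b) = - dd u v a b := by
  unfold dd
  have h1 := hA.anti u v a b
  have h2 := anti2 hA u v b a
  rw [add_comm b a] at h2
  rw [h1, h2]; ring

theorem dd_two (hA : ALTF) (u v : ℂ) (a b : ℤ) : dd u v (a + b) (-b) = - dd u v a b := by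
  have h1 := dd_one hA u v b a
  rw [add_comm b a] at h1
  rw [dd_swap, h1, dd_swap, neg_neg]

theorem dd_c (hA : ALTF) (u v : ℂ) (a b : ℤ) : dd u v (a + b) (-a) = dd u v a b := by
  rw [dd_swap, dd_one hA, neg_neg]

theorem dd_neg (hA : ALTF) (u v : ℂ) (a b : ℤ) : dd u v (-a) (-b) = dd u v a b := by
  have h1 := dd_two hA u v (-a - b) b
  have e1 : -a - b + b = -a := by ring
  rw [e1] at h1
  have h2 := dd_one hA u v (a + b) (-a)
  have e2 : -(a + b) = -a - b := by ring
  have e3 : a + b + -a = b := by ring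
  rw [e2, e3, dd_c hA] at h2
  rw [h1, h2, neg_neg]

theorem dd_xm (hA : ALTF) (u v : ℂ) (a b : ℤ) : (u + v) * dd u v a b =
    dd u v (a + 1) b + dd u v (a - 1) (b + 1) + dd u v a (b - 1)
      + dd u v (a - 1) b + dd u v (a + 1) (b - 1) + dd u v a (b + 1) := by
  have h1 := hA.xp u v a b
  have h2 := hA.yp u v a b
  have h3 := hA.xp u v b a
  have h4 := hA.yp u v b a
  unfold dd
  linear_combination h1 + h2 - h3 - h4

theorem uv_ps (hA : ALTF) (u v : ℂ) (a b : ℤ) : u * v * ps u v a b =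
    3 * ps u v a b + ps u v (a - 2) (b + 1) + ps u v (a - 1) (b - 1) + ps u v (a + 2) (b - 1)
      + ps u v (a + 1) (b - 2) + ps u v (a + 1) (b + 1) + ps u v (a - 1) (b + 2) := by
  have h0 := hA.yp u v a b
  have h1 := hA.xp u v a (b + 1)
  have h2 := hA.xp u v (a + 1) (b - 1)
  have h3 := hA.xp u v (a - 1) b
  have e1 : b + 1 + 1 = b + 2 := by ring
  have e2 : b + 1 - 1 = b := by ring
  have e3 : a + 1 + 1 = a + 2 := by ring
  have e4 : a + 1 - 1 = a := by ring
  have e5 : b - 1 + 1 = b := by ring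
  have e6 : b - 1 - 1 = b - 2 := by ring
  have e7 : a - 1 + 1 = a := by ring
  have e8 : a - 1 - 1 = a - 2 := by ring
  rw [e1, e2] at h1
  rw [e3, e4, e5, e6] at h2
  rw [e7, e8] at h3
  linear_combination u * h0 + h1 + h2 + h3

theorem dd_ym (hA : ALTF) (u v : ℂ) (a b : ℤ) : u * v * dd u v a b =
    3 * dd u v a b + dd u v (a - 2) (b + 1) + dd u v (a - 1) (b - 1) + dd u v (a + 2) (b - 1)
      + dd u v (a + 1) (b - 2) + dd u v (a + 1) (b + 1) + dd u v (a - 1) (b + 2) := by
  have h1 := uv_ps hA u v a b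
  have h2 := uv_ps hA u v b a
  unfold dd
  linear_combination h1 - h2

/-- the principle of extension in the variables of `PGF` -/
theorem ext' (hE : S_EXT) (F : (Fin 2 → ℂ) → ℂ) (hF : Continuous F)
    (h : ∀ u v : ℂ, u ≠ v → F ![1 + u + v, u * v + u + v - 1] = 0) (x : Fin 2 → ℂ) : F x = 0 := by
  have h1 := hE (fun y => F ![1 + y 0, y 1 + y 0 - 1])
    (hF.comp (by
      refine continuous_pi ?_
      intro i
      fin_cases i
      · change Continuous fun y : Fin 2 → ℂ => 1 + y 0
        fun_prop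
      · change Continuous fun y : Fin 2 → ℂ => y 1 + y 0 - 1
        fun_prop))
    (by
      intro u v huv
      have h2 := h u v huv
      have e : (![1 + (![u + v, u * v] : Fin 2 → ℂ) 0,
          (![u + v, u * v] : Fin 2 → ℂ) 1 + (![u + v, u * v] : Fin 2 → ℂ) 0 - 1] : Fin 2 → ℂ) =
          ![1 + u + v, u * v + u + v - 1] := by
        ext i
        fin_cases i
        · simp; ring
        · simp; ring
      rw [← h2]
      exact congrArg F e)
    ![x 0 - 1, x 1 - x 0 + 2]
  rw [← h1]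
  congr 1
  ext i
  fin_cases i
  · simp
  · simp; ring

theorem psi_cont {ψ : (Fin 2 → ℂ) → (Fin 2 → ℤ) → ℂ} (hψ : PGF ψ) (l : Fin 2 → ℤ) :
    Continuous fun x => ψ x l := by
  obtain ⟨F, hF⟩ := hψ.poly l
  have e : (fun x => ψ x l) = fun x : Fin 2 → ℂ => MvPolynomial.aeval x F := by
    funext x; exact hF x
  rw [e]
  have e2 : (fun x : Fin 2 → ℂ => MvPolynomial.aeval x F) =
      fun x : Fin 2 → ℂ => MvPolynomial.eval x (MvPolynomial.map (Int.castRingHom ℂ) F) := by
    funext x
    rw [MvPolynomial.eval_map, MvPolynomial.aeval_def]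
    rfl
  rw [e2]
  exact MvPolynomial.continuous_eval _

/-- the value of `ψ` -/
theorem psi_eq {ψ : (Fin 2 → ℂ) → (Fin 2 → ℤ) → ℂ} (hψ : PGF ψ) (u v : ℂ) (l : Fin 2 → ℤ) :
    ψ ![1 + u + v, u * v + u + v - 1] l * (u - v) = dd u v (l 0 + l 1) (l 1) := hψ.eq u v l

/-- the action of a matrix -/
theorem act (hE : S_EXT) {ψ : (Fin 2 → ℂ) → (Fin 2 → ℤ) → ℂ} (hψ : PGF ψ) (a b c d : ℤ)
    (l : Fin 2 → ℤ)
    (h : ∀ u v : ℂ, dd u v ((a + c) * l 0 + (b + d) * l 1) (c * l 0 + d * l 1) =
      ((a * d - b * c : ℤ) : ℂ) * dd u v (l 0 + l 1) (l 1)) (x : Fin 2 → ℂ) :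
    ψ x (!![a, b; c, d] *ᵥ l) = ((!![a, b; c, d] : Matrix (Fin 2) (Fin 2) ℤ).det : ℂ) * ψ x l := by
  have h1 := ext' hE (fun x => ψ x (!![a, b; c, d] *ᵥ l) -
    ((!![a, b; c, d] : Matrix (Fin 2) (Fin 2) ℤ).det : ℂ) * ψ x l)
    (by
      have c1 := psi_cont hψ (!![a, b; c, d] *ᵥ l)
      have c2 := psi_cont hψ l
      exact c1.sub (continuous_const.mul c2))
    (by
      intro u v huv
      have huv' : u - v ≠ 0 := sub_ne_zero.mpr huv
      have h2 := psi_eq hψ u v (!![a, b; c, d] *ᵥ l)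
      have h3 := psi_eq hψ u v l
      rw [(mulVec_two a b c d l).1, (mulVec_two a b c d l).2] at h2
      have e : a * l 0 + b * l 1 + (c * l 0 + d * l 1) = (a + c) * l 0 + (b + d) * l 1 := by ring
      rw [e, h u v, ← h3] at h2
      rw [det_two]
      apply mul_right_cancel₀ huv'
      linear_combination h2) x
  linear_combination h1

/-- a rule from a rule for `dd` -/
theorem rul (hE : S_EXT) {ψ : (Fin 2 → ℂ) → (Fin 2 → ℤ) → ℂ} (hψ : PGF ψ) (i : Fin 2)
    (l : Fin 2 → ℤ) (S : Finset (Fin 2 → ℤ)) (P : (Fin 2 → ℤ) → ℤ)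
    (h : ∀ u v : ℂ, (![1 + u + v, u * v + u + v - 1] : Fin 2 → ℂ) i * dd u v (l 0 + l 1) (l 1) =
      ∑ κ ∈ S, (P κ : ℂ) * dd u v (l 0 + l 1 + (κ 0 + κ 1)) (l 1 + κ 1)) (x : Fin 2 → ℂ) :
    x i * ψ x l = ∑ κ ∈ S, (P κ : ℂ) * ψ x (l + κ) := by
  have h1 := ext' hE (fun x => x i * ψ x l - ∑ κ ∈ S, (P κ : ℂ) * ψ x (l + κ))
    (by
      refine ((continuous_apply i).mul (psi_cont hψ l)).sub ?_
      refine continuous_finsetSum _ ?_
      intro κ _
      exact continuous_const.mul (psi_cont hψ (l + κ)))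
    (by
      intro u v huv
      have huv' : u - v ≠ 0 := sub_ne_zero.mpr huv
      have h3 := psi_eq hψ u v l
      have h4 := h u v
      have h5 : (∑ κ ∈ S, (P κ : ℂ) * ψ ![1 + u + v, u * v + u + v - 1] (l + κ)) * (u - v) =
          ∑ κ ∈ S, (P κ : ℂ) * dd u v (l 0 + l 1 + (κ 0 + κ 1)) (l 1 + κ 1) := by
        rw [Finset.sum_mul]
        refine Finset.sum_congr rfl ?_
        intro κ _
        have h6 := psi_eq hψ u v (l + κ)
        rw [Pi.add_apply, Pi.add_apply] at h6
        have e : l 0 + κ 0 + (l 1 + κ 1) = l 0 + l 1 + (κ 0 + κ 1) := by ring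
        rw [e] at h6
        rw [mul_assoc, h6]
      apply mul_right_cancel₀ huv'
      rw [zero_mul, sub_mul, h5, mul_assoc, h3, h4, sub_self]) x
  linear_combination h1

end PKG

open PKG

theorem t_PKG : M_PKG := by
  intro hA hE ψ hψ
  have hA' : ALTF := hA
  refine ⟨?_, ?_, ?_⟩
  · intro w hw x l
    change w ∈ W3 at hw
    change ψ x (w *ᵥ l) = (w.det : ℂ) * ψ x l
    unfold W3 at hw
    simp only [Finset.mem_insert, Finset.mem_singleton] at hw
    rcases hw with rfl | rfl | rfl | rfl | rfl | rfl | rfl | rfl | rfl | rfl | rfl | rfl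
    · refine act hE hψ 1 0 0 1 l ?_ x
      intro u v
      norm_num
    · refine act hE hψ (-1) 0 1 1 l ?_ x
      intro u v
      rw [show (-1 + 1) * l 0 + (0 + 1) * l 1 = l 1 by ring,
        show (1 : ℤ) * l 0 + 1 * l 1 = l 0 + l 1 by ring, dd_swap]
      norm_num
    · refine act hE hψ 1 3 0 (-1) l ?_ x
      intro u v
      rw [show (1 + 0) * l 0 + (3 + -1) * l 1 = l 0 + l 1 + l 1 by ring,
        show (0 : ℤ) * l 0 + -1 * l 1 = -l 1 by ring, dd_two hA']
      norm_num
    · refine act hE hψ 2 3 (-1) (-1) l ?_ x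
      intro u v
      rw [show (2 + -1) * l 0 + (3 + -1) * l 1 = l 0 + l 1 + l 1 by ring,
        show -1 * l 0 + -1 * l 1 = -(l 0 + l 1) by ring, dd_c hA']
      norm_num
    · refine act hE hψ (-1) (-3) 1 2 l ?_ x
      intro u v
      rw [show (-1 + 1) * l 0 + (-3 + 2) * l 1 = -l 1 by ring,
        show 1 * l 0 + 2 * l 1 = l 0 + l 1 + l 1 by ring, dd_swap, dd_two hA']
      norm_num
    · refine act hE hψ (-2) (-3) 1 2 l ?_ x
      intro u v
      rw [show (-2 + 1) * l 0 + (-3 + 2) * l 1 = -(l 0 + l 1) by ring,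
        show 1 * l 0 + 2 * l 1 = l 0 + l 1 + l 1 by ring, dd_one hA']
      norm_num
    · refine act hE hψ 2 3 (-1) (-2) l ?_ x
      intro u v
      rw [show (2 + -1) * l 0 + (3 + -2) * l 1 = -(-(l 0 + l 1)) by ring,
        show -1 * l 0 + -2 * l 1 = -(l 0 + l 1) + -l 1 by ring, dd_one hA', dd_neg hA']
      norm_num
    · refine act hE hψ 1 3 (-1) (-2) l ?_ x
      intro u v
      rw [show (1 + -1) * l 0 + (3 + -2) * l 1 = l 1 by ring,
        show -1 * l 0 + -2 * l 1 = -(l 0 + l 1 + l 1) by ring, ← dd_neg hA', neg_neg, dd_swap,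
        dd_two hA']
      norm_num
    · refine act hE hψ (-2) (-3) 1 1 l ?_ x
      intro u v
      rw [show (-2 + 1) * l 0 + (-3 + 1) * l 1 = -(l 0 + l 1 + l 1) by ring,
        show (1 : ℤ) * l 0 + 1 * l 1 = l 0 + l 1 by ring, ← dd_neg hA', neg_neg, dd_c hA']
      norm_num
    · refine act hE hψ (-1) (-3) 0 1 l ?_ x
      intro u v
      rw [show (-1 + 0) * l 0 + (-3 + 1) * l 1 = -(l 0 + l 1 + l 1) by ring,
        show (0 : ℤ) * l 0 + 1 * l 1 = l 1 by ring, ← dd_neg hA', neg_neg, dd_two hA']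
      norm_num
    · refine act hE hψ 1 0 (-1) (-1) l ?_ x
      intro u v
      rw [show (1 + -1) * l 0 + (0 + -1) * l 1 = -l 1 by ring,
        show -1 * l 0 + -1 * l 1 = -(l 0 + l 1) by ring, dd_neg hA', dd_swap]
      norm_num
    · refine act hE hψ (-1) 0 0 (-1) l ?_ x
      intro u v
      rw [show (-1 + 0) * l 0 + (0 + -1) * l 1 = -(l 0 + l 1) by ring,
        show (0 : ℤ) * l 0 + -1 * l 1 = -l 1 by ring, dd_neg hA']
      norm_num
  · intro x
    change ψ x 1 = 1
    have h1 := ext' hE (fun x => ψ x 1 - 1)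
      ((psi_cont hψ 1).sub continuous_const)
      (by
        intro u v huv
        have huv' : u - v ≠ 0 := sub_ne_zero.mpr huv
        have h2 := psi_eq hψ u v 1
        have h3 : dd u v (1 + 1) 1 = u - v := by
          unfold dd
          have a1 := hA'.xp u v 1 1
          have a2 := hA'.yp u v 1 1
          rw [hA'.one, show (1 : ℤ) - 1 = 0 by ring, hA'.p0, hA'.q0] at a1 a2
          linear_combination a2 - a1
        rw [Pi.one_apply, Pi.one_apply, h3] at h2
        apply mul_right_cancel₀ huv'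
        linear_combination h2) x
    linear_combination h1
  · intro i x l
    fin_cases i
    · refine rul hE hψ 0 l _ _ ?_ x
      intro u v
      have h := dd_xm hA' u v (l 0 + l 1) (l 1)
      change (1 + u + v) * _ = ∑ κ ∈ ({![1, 0], ![2, -1], ![-1, 1], ![-1, 0], ![-2, 1], ![1, -1],
        ![0, 0]} : Finset (Fin 2 → ℤ)), ((if (0 : Fin 2) = 1 ∧ κ = 0 then (2 : ℤ) else 1 : ℤ) : ℂ) *
          dd u v (l 0 + l 1 + (κ 0 + κ 1)) (l 1 + κ 1)
      rw [Finset.sum_insert (by decide), Finset.sum_insert (by decide),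
        Finset.sum_insert (by decide), Finset.sum_insert (by decide),
        Finset.sum_insert (by decide), Finset.sum_insert (by decide), Finset.sum_singleton]
      simp only [Fin.isValue, zero_ne_one, false_and, if_false, Int.cast_one, one_mul,
        Matrix.cons_val_zero, Matrix.cons_val_one]
      norm_num
      simp only [← sub_eq_add_neg] at *
      linear_combination h
    · refine rul hE hψ 1 l _ _ ?_ x
      intro u v
      have h := dd_xm hA' u v (l 0 + l 1) (l 1)
      have h' := dd_ym hA' u v (l 0 + l 1) (l 1)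
      change (u * v + u + v - 1) * _ = ∑ κ ∈ ({![1, 0], ![2, -1], ![-1, 1], ![-1, 0], ![-2, 1],
        ![1, -1], ![0, 0], ![-3, 2], ![3, -1], ![0, 1], ![3, -2], ![-3, 1], ![0, -1]} :
        Finset (Fin 2 → ℤ)), ((if (1 : Fin 2) = 1 ∧ κ = 0 then (2 : ℤ) else 1 : ℤ) : ℂ) *
          dd u v (l 0 + l 1 + (κ 0 + κ 1)) (l 1 + κ 1)
      rw [Finset.sum_insert (by decide), Finset.sum_insert (by decide),
        Finset.sum_insert (by decide), Finset.sum_insert (by decide),
        Finset.sum_insert (by decide), Finset.sum_insert (by decide),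
        Finset.sum_insert (by decide), Finset.sum_insert (by decide),
        Finset.sum_insert (by decide), Finset.sum_insert (by decide),
        Finset.sum_insert (by decide), Finset.sum_insert (by decide), Finset.sum_singleton]
      rw [if_neg (by decide), if_neg (by decide), if_neg (by decide), if_neg (by decide),
        if_neg (by decide), if_neg (by decide), if_pos (by decide), if_neg (by decide),
        if_neg (by decide), if_neg (by decide), if_neg (by decide), if_neg (by decide),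
        if_neg (by decide)]
      simp only [Int.cast_one, one_mul, Matrix.cons_val_zero, Matrix.cons_val_one]
      norm_num
      simp only [← sub_eq_add_neg] at *
      linear_combination h + h'

end

end STZ
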