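import Pool.Agent.STZ.StmtsA

/-!
# Module PRD: products
-/

set_option autoImplicit false

set_option linter.unusedSectionVars false

namespace STZ

open MeasureTheory Matrix

open scoped ComplexConjugate Matrix Real

noncomputable section

namespace PRD

section

variable {M : Type} [TopologicalSpace M] [CompactSpace M] [T2Space M]
  [SecondCountableTopology M] [MeasurableSpace M] [BorelSpace M] (μ : Measure M)
  [IsProbabilityMeasure μ] {ι : Type} {K : ι → M → M → ℂ}

lemma integ {h : M → ℂ} (hh : Continuous h) : Integrable h μ :=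
  hh.integrable_of_hasCompactSupport (HasCompactSupport.of_compactSpace h)

lemma nsq_nonneg (u : M → ℂ) : 0 ≤ nsq μ u := integral_nonneg fun x => by positivity

lemma nsq_zero : nsq μ (0 : M → ℂ) = 0 := by simp [nsq]

lemma Kcont (hK : Ker μ K) (a : ι) (x : M) : Continuous fun y => K a x y :=
  (hK.cont a).comp (Continuous.prodMk_right x)

lemma Pr_sub (hK : Ker μ K) (S : Finset ι) {f g : M → ℂ} (hf : Continuous f)
    (hg : Continuous g) : Pr μ K S (fun x => f x - g x) = fun x => Pr μ K S f x - Pr μ K S g x := by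
  funext x
  unfold Pr
  rw [← Finset.sum_sub_distrib]
  refine Finset.sum_congr rfl fun a _ => ?_
  have e2 : ∫ y, (K a x y * f y - K a x y * g y) ∂μ =
      (∫ y, K a x y * f y ∂μ) - ∫ y, K a x y * g y ∂μ :=
    integral_sub (integ μ ((Kcont μ hK a x).mul hf)) (integ μ ((Kcont μ hK a x).mul hg))
  rw [← e2]
  congr 1
  funext y
  ring

lemma nsq_eq_zero [μ.IsOpenPosMeasure] {w : M → ℂ} (hw : Continuous w) (h : nsq μ w = 0) :
    w = 0 := by
  have hc : Continuous fun x => ‖w x‖ ^ 2 := (hw.norm).pow 2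
  have hi : Integrable (fun x => ‖w x‖ ^ 2) μ :=
    hc.integrable_of_hasCompactSupport (HasCompactSupport.of_compactSpace _)
  unfold nsq at h
  rw [integral_eq_zero_iff_of_nonneg (fun x => by positivity) hi] at h
  have h2 : (fun x => ‖w x‖ ^ 2) = (0 : M → ℝ) :=
    (hc.ae_eq_iff_eq μ continuous_zero).1 h
  funext x
  have h3 := congrFun h2 x
  simpa using h3

lemma int_conj_self {w : M → ℂ} : ∫ x, conj (w x) * w x ∂μ = (nsq μ w : ℂ) := by
  unfold nsq
  rw [← integral_complex_ofReal]
  congr 1
  funext x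
  rw [← Complex.normSq_eq_conj_mul_self, Complex.normSq_eq_norm_sq]

end

end PRD

open PRD

theorem t_PRD : M_PRD := by
  intro hKB hST M _ _ _ _ _ _ μ _ _ ι K hK a b T β hprod u v hu hv
  have kb : KBF μ K := hKB M μ ι K hK
  have hf : Continuous fun x => u x * v x := hu.1.mul hv.1
  constructor
  · intro S B hB hSB
    set f : M → ℂ := fun x => u x * v x with hfdef
    set w : M → ℂ := Pr μ K S f with hw
    have hwc : Continuous w := kb.cont S f hf
    have h1 := hST M μ ι K hK a b T β hprod u v w hu hv hwc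
    have h2 : ∫ x, conj (w x) * (u x * v x) ∂μ = (nsq μ w : ℂ) := by
      have e1 := kb.adj S f f hf hf
      rw [kb.inn S f hf] at e1
      exact e1
    have h3 : (∑ c ∈ T, ‖β c‖ * nsq μ (Pr μ K {c} w)) ≤ B * nsq μ w := by
      classical
      have e1 : nsq μ w = ∑ c ∈ S, nsq μ (Pr μ K {c} f) := kb.pyth S f hf
      rw [e1, Finset.mul_sum]
      have e2 : ∀ c ∈ T, ‖β c‖ * nsq μ (Pr μ K {c} w) ≤
          if c ∈ S then B * nsq μ (Pr μ K {c} f) else 0 := by
        intro c hc
        by_cases hcS : c ∈ S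
        · rw [if_pos hcS, hw, kb.piece S c f hcS hf]
          exact mul_le_mul_of_nonneg_right (hSB c hcS hc) (nsq_nonneg μ _)
        · rw [if_neg hcS, hw, kb.piece0 S c f hcS hf, nsq_zero, mul_zero]
      refine (Finset.sum_le_sum e2).trans ?_
      rw [← Finset.sum_filter]
      refine Finset.sum_le_sum_of_subset_of_nonneg ?_ ?_
      · intro c hc
        exact (Finset.mem_filter.1 hc).2
      · intro c _ _
        exact mul_nonneg hB (nsq_nonneg μ _)
    rw [h2] at h1
    have h4 : ‖((nsq μ w : ℝ) : ℂ)‖ ^ 2 = nsq μ w ^ 2 := by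
      rw [Complex.norm_real, Real.norm_eq_abs, sq_abs]
    rw [h4] at h1
    have hn : 0 ≤ nsq μ w := nsq_nonneg μ w
    have huv : 0 ≤ nsq μ u * nsq μ v := mul_nonneg (nsq_nonneg μ u) (nsq_nonneg μ v)
    rcases hn.eq_or_lt with h0 | h0
    · rw [← h0]
      exact mul_nonneg hB huv
    · have h5 : nsq μ w * nsq μ w ≤ nsq μ w * (B * (nsq μ u * nsq μ v)) := by
        calc nsq μ w * nsq μ w = nsq μ w ^ 2 := by ring
          _ ≤ _ := h1
          _ ≤ (B * nsq μ w) * (nsq μ u * nsq μ v) := mul_le_mul_of_nonneg_right h3 huv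
          _ = _ := by ring
      exact le_of_mul_le_mul_left h5 h0
  · set f : M → ℂ := fun x => u x * v x with hfdef
    have hPc : Continuous (Pr μ K T f) := kb.cont T f hf
    set w : M → ℂ := fun x => f x - Pr μ K T f x with hw
    have hwc : Continuous w := hf.sub hPc
    have hP0 : ∀ c ∈ T, Pr μ K {c} w = 0 := by
      intro c hc
      rw [hw, Pr_sub μ hK {c} hf hPc, kb.piece T c f hc hf]
      funext x
      simp
    have hPT : Pr μ K T w = 0 := by
      rw [hw, Pr_sub μ hK T hf hPc, kb.idem T f hf]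
      funext x
      simp
    have h1 := hST M μ ι K hK a b T β hprod u v w hu hv hwc
    have h2 : (∑ c ∈ T, ‖β c‖ * nsq μ (Pr μ K {c} w)) = 0 :=
      Finset.sum_eq_zero fun c hc => by rw [hP0 c hc, nsq_zero, mul_zero]
    rw [h2, zero_mul] at h1
    have h3 : ∫ x, conj (w x) * f x ∂μ = 0 := by
      have h4 : ‖∫ x, conj (w x) * (u x * v x) ∂μ‖ = 0 := by
        have := sq_nonneg ‖∫ x, conj (w x) * (u x * v x) ∂μ‖
        exact pow_eq_zero_iff two_ne_zero |>.1 (le_antisymm h1 this)
      exact norm_eq_zero.1 h4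
    have h4 : ∫ x, conj (w x) * Pr μ K T f x ∂μ = 0 := by
      rw [← kb.adj T f w hf hwc, hPT]
      simp
    have hcc : Continuous fun x => conj (w x) := Complex.continuous_conj.comp hwc
    have h5 : ∫ x, conj (w x) * w x ∂μ = 0 := by
      have e : (fun x => conj (w x) * w x) =
          fun x => conj (w x) * f x - conj (w x) * Pr μ K T f x := by
        funext x
        rw [← mul_sub]
      have e2 : ∫ x, (conj (w x) * f x - conj (w x) * Pr μ K T f x) ∂μ =
          (∫ x, conj (w x) * f x ∂μ) - ∫ x, conj (w x) * Pr μ K T f x ∂μ :=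
        integral_sub (integ μ (hcc.mul hf)) (integ μ (hcc.mul hPc))
      rw [e, e2, h3, h4, sub_zero]
    rw [int_conj_self] at h5
    have h6 : nsq μ w = 0 := by exact_mod_cast h5
    have h7 := nsq_eq_zero μ hwc h6
    funext x
    have h8 := congrFun h7 x
    have h9 : f x - Pr μ K T f x = 0 := h8
    exact (sub_eq_zero.1 h9).symm

end

end STZ
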