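import Pool.Agent.STZ.StmtsP

/-!
# PSAA: the characters of the root system `A_r`
-/

namespace STZ

open MeasureTheory Matrix

open scoped ComplexConjugate Matrix Real

noncomputable section

namespace PSAA

lemma ee_top {r : ℕ} (x : Fin r → ℂ) : ee x (r + 1) = 1 := by
  simp [ee]

lemma ee_cont {r : ℕ} (k : ℕ) : Continuous fun x : Fin r → ℂ => ee x k := by
  rcases k with _ | k
  · simp only [ee]
    exact continuous_const
  · simp only [ee]
    by_cases h : k < r
    · simp only [h, dif_pos]
      exact continuous_apply _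
    · simp only [h, dif_neg, not_false_iff]
      exact continuous_const

lemma CA_lt {r : ℕ} (x : Fin r → ℂ) (i j : Fin (r + 1)) (h : j.val < r) :
    CA x i j = if i.val = j.val + 1 then 1 else 0 := by
  simp [CA, h]

lemma CA_last {r : ℕ} (x : Fin r → ℂ) (i : Fin (r + 1)) :
    CA x i (Fin.last r) = (-1) ^ (r - i.val) * ee x (r + 1 - i.val) := by
  simp [CA]

lemma CA_cont {r : ℕ} : Continuous fun x : Fin r → ℂ => CA x := by
  refine continuous_matrix ?_
  intro i j
  by_cases h : j.val < r
  · simp only [CA_lt _ _ _ h]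
    exact continuous_const
  · have hj : j = Fin.last r := by
      apply Fin.ext
      have := j.isLt
      simp only [Fin.val_last]
      omega
    subst hj
    simp only [CA_last]
    exact continuous_const.mul (ee_cont _)

lemma CA_det {r : ℕ} (x : Fin r → ℂ) : (CA x).det = 1 := by
  rw [Matrix.det_succ_row_zero, Finset.sum_eq_single (Fin.last r)]
  · rw [CA_last]
    have hs : (CA x).submatrix Fin.succ (Fin.last r).succAbove = 1 := by
      ext i j
      have hj : (Fin.castSucc j).val < r := by simp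
      rw [Matrix.submatrix_apply, Fin.succAbove_last, CA_lt _ _ _ hj, Matrix.one_apply]
      simp [Fin.ext_iff]
    rw [hs, Matrix.det_one]
    simp only [Fin.val_zero, Nat.sub_zero, ee_top, mul_one, Fin.val_last]
    rw [← mul_pow]
    simp
  · intro j _ hj
    have hj' : j.val < r := by
      have h1 := j.isLt
      have h2 : j.val ≠ r := fun h => hj (Fin.ext (by simp [h]))
      omega
    rw [CA_lt _ _ _ hj']
    simp
  · intro h
    exact absurd (Finset.mem_univ _) h

lemma inv_eq {n : ℕ} (M : Matrix (Fin n) (Fin n) ℂ) (h : M.det = 1) : M⁻¹ = M.adjugate := by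
  rw [Matrix.inv_def, h]
  simp

lemma zpow_eq {n : ℕ} (M : Matrix (Fin n) (Fin n) ℂ) (h : M.det = 1) (m : ℤ) :
    M ^ m = if 0 ≤ m then M ^ m.toNat else M.adjugate ^ (-m).toNat := by
  split_ifs with hm
  · obtain ⟨k, rfl⟩ := Int.eq_ofNat_of_zero_le hm
    simp
  · obtain ⟨k, hk⟩ := Int.eq_ofNat_of_zero_le (show 0 ≤ -m by omega)
    have hm' : m = -(k : ℤ) := by omega
    subst hm'
    rw [Matrix.zpow_neg_natCast, ← Matrix.inv_pow', inv_eq M h]
    simp

lemma pow_cont {n : ℕ} {X : Type*} [TopologicalSpace X] (f : X → Matrix (Fin n) (Fin n) ℂ) (hf : Continuous f)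
    (hd : ∀ x, (f x).det = 1) (m : ℤ) : Continuous fun x => f x ^ m := by
  by_cases hm : 0 ≤ m
  · have : (fun x => f x ^ m) = fun x => f x ^ m.toNat := by
      funext x
      rw [zpow_eq _ (hd x), if_pos hm]
    rw [this]
    exact hf.pow _
  · have : (fun x => f x ^ m) = fun x => (f x).adjugate ^ (-m).toNat := by
      funext x
      rw [zpow_eq _ (hd x), if_neg hm]
    rw [this]
    exact (hf.matrix_adjugate).pow _

lemma ee_int {r : ℕ} (x : Fin r → ℤ) (k : ℕ) : ∃ a : ℤ, ee (fun i => (x i : ℂ)) k = a := by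
  rcases k with _ | k
  · exact ⟨1, by simp [ee]⟩
  · by_cases h : k < r
    · exact ⟨x ⟨k, h⟩, by simp [ee, h]⟩
    · by_cases h2 : k = r
      · exact ⟨1, by simp [ee, h2]⟩
      · exact ⟨0, by simp [ee, h, h2]⟩

lemma CA_int {r : ℕ} (x : Fin r → ℤ) : ∃ A : Matrix (Fin (r + 1)) (Fin (r + 1)) ℤ,
    CA (fun i => (x i : ℂ)) = A.map (Int.castRingHom ℂ) := by
  have h : ∀ i j, ∃ a : ℤ, CA (fun i => (x i : ℂ)) i j = a := by
    intro i j
    by_cases h : j.val < r
    · rw [CA_lt _ _ _ h]
      by_cases h2 : i.val = j.val + 1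
      · exact ⟨1, by simp [h2]⟩
      · exact ⟨0, by simp [h2]⟩
    · have hj : j = Fin.last r := by
        apply Fin.ext
        have := j.isLt
        simp only [Fin.val_last]
        omega
      subst hj
      obtain ⟨a, ha⟩ := ee_int x (r + 1 - i.val)
      refine ⟨(-1) ^ (r - i.val) * a, ?_⟩
      rw [CA_last, ha]
      push_cast
      ring
  choose A hA using h
  refine ⟨Matrix.of A, ?_⟩
  ext i j
  rw [hA]
  simp

lemma zpow_int {n : ℕ} (A : Matrix (Fin n) (Fin n) ℤ) (h : (A.map (Int.castRingHom ℂ)).det = 1) (m : ℤ) :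
    ∃ B : Matrix (Fin n) (Fin n) ℤ, (A.map (Int.castRingHom ℂ)) ^ m = B.map (Int.castRingHom ℂ) := by
  rw [zpow_eq _ h]
  split_ifs with hm
  · refine ⟨A ^ m.toNat, ?_⟩
    have := map_pow (Int.castRingHom ℂ).mapMatrix A m.toNat
    simpa [RingHom.mapMatrix_apply] using this.symm
  · refine ⟨A.adjugate ^ (-m).toNat, ?_⟩
    have h1 := map_pow (Int.castRingHom ℂ).mapMatrix A.adjugate (-m).toNat
    rw [RingHom.map_adjugate] at h1
    simpa [RingHom.mapMatrix_apply] using h1.symm

lemma pow_zero_col {r : ℕ} (x : Fin r → ℂ) (k : ℕ) (hk : k ≤ r) (i : Fin (r + 1)) :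
    (CA x ^ k) i 0 = if i.val = k then 1 else 0 := by
  induction k generalizing i with
  | zero =>
    rw [pow_zero, Matrix.one_apply]
    by_cases h : i = 0
    · rw [if_pos h, if_pos (by rw [h]; rfl)]
    · have h3 : ¬ i.val = 0 := fun h2 => h (Fin.ext h2)
      rw [if_neg h, if_neg h3]
  | succ k ih =>
    rw [pow_succ', Matrix.mul_apply, Finset.sum_eq_single (⟨k, by omega⟩ : Fin (r + 1))]
    · rw [ih (by omega), CA_lt _ _ _ (show (⟨k, by omega⟩ : Fin (r + 1)).val < r by simp; omega)]
      simp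
    · intro b _ hb
      rw [ih (by omega)]
      have : b.val ≠ k := fun h => hb (Fin.ext (by simp [h]))
      simp [this]
    · intro h
      exact absurd (Finset.mem_univ _) h

lemma row_pow {n : ℕ} (M : Matrix (Fin n) (Fin n) ℂ) (u : Fin n → ℂ) (a : ℂ) (h : u ᵥ* M = a • u) (k : ℕ) :
    u ᵥ* (M ^ k) = a ^ k • u := by
  induction k with
  | zero => simp
  | succ k ih =>
    rw [pow_succ, ← Matrix.vecMul_vecMul, ih, Matrix.smul_vecMul, h, smul_smul, pow_succ]

lemma row_zpow {n : ℕ} (M : Matrix (Fin n) (Fin n) ℂ) (hM : M.det = 1) (u : Fin n → ℂ) (a : ℂ) (ha : a ≠ 0)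
    (h : u ᵥ* M = a • u) (m : ℤ) : u ᵥ* (M ^ m) = a ^ m • u := by
  have h2 : u ᵥ* M.adjugate = a⁻¹ • u := by
    have h3 : (u ᵥ* M) ᵥ* M.adjugate = u := by
      rw [Matrix.vecMul_vecMul, Matrix.mul_adjugate, hM, one_smul, Matrix.vecMul_one]
    rw [h, Matrix.smul_vecMul] at h3
    calc u ᵥ* M.adjugate = a⁻¹ • (a • (u ᵥ* M.adjugate)) := by
          rw [smul_smul, inv_mul_cancel₀ ha, one_smul]
      _ = a⁻¹ • u := by rw [h3]
  rw [zpow_eq M hM]
  split_ifs with hm
  · rw [row_pow M u a h]
    congr 1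
    obtain ⟨k, rfl⟩ := Int.eq_ofNat_of_zero_le hm
    simp
  · rw [row_pow _ u _ h2]
    congr 1
    obtain ⟨k, hk⟩ := Int.eq_ofNat_of_zero_le (show 0 ≤ -m by omega)
    have hm' : m = -(k : ℤ) := by omega
    subst hm'
    simp

lemma esk_top {r : ℕ} (v : Fin (r + 1) → ℂ) : esk v (r + 1) = ∏ k, v k := by
  have h : Finset.univ.powersetCard (r + 1) = {(Finset.univ : Finset (Fin (r + 1)))} := by
    have := Finset.powersetCard_self (Finset.univ : Finset (Fin (r + 1)))
    rwa [Finset.card_univ, Fintype.card_fin] at this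
  rw [esk, h, Finset.sum_singleton]

lemma ee_esk {r : ℕ} (v : Fin (r + 1) → ℂ) (hv : ∏ k, v k = 1) (k : ℕ) (hk : k ≤ r + 1) :
    ee (esA v) k = esk v k := by
  rcases k with _ | k
  · simp [ee, esk]
  · by_cases h : k < r
    · simp [ee, h, esA]
    · have h2 : k = r := by omega
      subst h2
      rw [ee_top, esk_top, hv]

/-- Vieta -/
lemma vieta {n : ℕ} (v : Fin n → ℂ) (z : ℂ) :
    ∏ j, (z - v j) = ∑ k ∈ Finset.range (n + 1), (-1) ^ k * esk v k * z ^ (n - k) := by
  have h := Finset.prod_sub (fun _ : Fin n => z) v Finset.univ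
  have h1 : ∏ j, (z - v j) = ∑ t ∈ (Finset.univ : Finset (Fin n)).powerset,
      (-1) ^ t.card * (∏ i ∈ t, v i) * z ^ (n - t.card) := by
    have e : ∏ j, (z - v j) = ∏ j, ((-v j) + z) := by
      apply Finset.prod_congr rfl
      intro j _
      ring
    rw [e, Finset.prod_add]
    apply Finset.sum_congr rfl
    intro t _
    rw [Finset.prod_neg, Finset.prod_const, Finset.card_sdiff_of_subset (Finset.subset_univ t), Finset.card_univ,
      Fintype.card_fin]
  rw [h1, Finset.sum_powerset]
  rw [Finset.card_univ, Fintype.card_fin]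
  apply Finset.sum_congr rfl
  intro k _
  rw [esk, Finset.mul_sum, Finset.sum_mul]
  apply Finset.sum_congr rfl
  intro t ht
  rw [Finset.mem_powersetCard] at ht
  rw [ht.2]

lemma row_CA {r : ℕ} (v : Fin (r + 1) → ℂ) (hv : ∏ k, v k = 1) (k : Fin (r + 1)) :
    (fun i : Fin (r + 1) => v k ^ i.val) ᵥ* CA (esA v) = v k • fun i : Fin (r + 1) => v k ^ i.val := by
  ext j
  simp only [Matrix.vecMul, dotProduct, Pi.smul_apply, smul_eq_mul]
  by_cases h : j.val < r
  · rw [Finset.sum_eq_single (⟨j.val + 1, by omega⟩ : Fin (r + 1))]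
    · rw [CA_lt _ _ _ h]
      simp [pow_succ']
    · intro b _ hb
      have : b.val ≠ j.val + 1 := fun h => hb (Fin.ext (by simp [h]))
      rw [CA_lt _ _ _ h]
      simp [this]
    · intro h
      exact absurd (Finset.mem_univ _) h
  · have hj : j = Fin.last r := by
      apply Fin.ext
      have := j.isLt
      simp only [Fin.val_last]
      omega
    subst hj
    simp only [CA_last, Fin.val_last]
    have h0 : ∏ j, (v k - v j) = 0 := Finset.prod_eq_zero (Finset.mem_univ k) (sub_self _)
    rw [vieta, Finset.sum_range_succ'] at h0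
    simp only [pow_zero, one_mul, Nat.sub_zero] at h0
    have he0 : esk v 0 = 1 := by simp [esk]
    rw [he0, one_mul] at h0
    have h1 : ∑ i : Fin (r + 1), v k ^ i.val * ((-1) ^ (r - i.val) * ee (esA v) (r + 1 - i.val)) =
        ∑ s ∈ Finset.range (r + 1), v k ^ (r - s) * ((-1) ^ s * esk v (s + 1)) := by
      rw [Fin.sum_univ_eq_sum_range (fun i => v k ^ i * ((-1) ^ (r - i) * ee (esA v) (r + 1 - i))) (r + 1),
        ← Finset.sum_range_reflect]
      apply Finset.sum_congr rfl
      intro s hs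
      rw [Finset.mem_range] at hs
      have e1 : r + 1 - 1 - s = r - s := by omega
      have e2 : r - (r - s) = s := by omega
      have e3 : r + 1 - (r - s) = s + 1 := by omega
      rw [e1, e2, e3, ee_esk v hv _ (by omega)]
    rw [h1]
    have h2 : v k ^ (r + 1) = -∑ s ∈ Finset.range (r + 1), (-1) ^ (s + 1) * esk v (s + 1) * v k ^ (r + 1 - (s + 1)) := by
      linear_combination h0
    rw [← pow_succ', h2, ← Finset.sum_neg_distrib]
    apply Finset.sum_congr rfl
    intro s hs
    rw [Finset.mem_range] at hs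
    have e1 : r + 1 - (s + 1) = r - s := by omega
    rw [e1, pow_succ]
    ring

end PSAA

open PSAA in
theorem t_PSAA : M_PSAA := by
  intro hC r
  have hU := hC r
  refine ⟨fun x => CA_det x, ?_, ?_, ?_, ?_⟩
  · intro l
    unfold psA
    apply Continuous.matrix_det
    refine continuous_matrix ?_
    intro i j
    exact (pow_cont _ CA_cont (fun x => CA_det x) _).matrix_elem i 0
  · intro x
    unfold psA
    have h1 : (Matrix.of fun i j : Fin (r + 1) => (CA x ^ cum (1 : Fin r → ℤ) j.rev) i 0) = 1 := by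
      ext i j
      have h2 : cum (1 : Fin r → ℤ) j.rev = ((j.val : ℕ) : ℤ) := by
        rw [hU.one, Fin.val_rev]
        have := j.isLt
        omega
      rw [Matrix.of_apply, h2, zpow_natCast, pow_zero_col x _ (by have := j.isLt; omega), Matrix.one_apply]
      simp [Fin.ext_iff]
    rw [h1, Matrix.det_one]
  · intro x l
    obtain ⟨A, hA⟩ := CA_int x
    have hd : (A.map (Int.castRingHom ℂ)).det = 1 := by
      rw [← hA]
      exact CA_det _
    have h1 := zpow_int A hd
    choose B hB using h1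
    refine ⟨Matrix.det (Matrix.of fun i j : Fin (r + 1) => B (cum l j.rev) i 0), ?_⟩
    unfold psA
    rw [hA]
    simp only [hB]
    have := RingHom.map_det (Int.castRingHom ℂ) (Matrix.of fun i j : Fin (r + 1) => B (cum l j.rev) i 0)
    rw [eq_intCast] at this
    rw [this]
    congr 1
  · intro v hv l
    unfold psA al
    rw [← Matrix.det_mul]
    congr 1
    ext k j
    have hvk : v k ≠ 0 := by
      intro h0
      rw [Finset.prod_eq_zero (Finset.mem_univ k) h0] at hv
      exact zero_ne_one hv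
    have h1 := row_zpow (CA (esA v)) (CA_det _) _ (v k) hvk (row_CA v hv k) (cum l j.rev)
    have h2 := congrFun h1 0
    simp only [Matrix.vecMul, dotProduct, Pi.smul_apply, smul_eq_mul, Fin.val_zero, pow_zero, mul_one] at h2
    rw [Matrix.mul_apply, Matrix.of_apply]
    simp only [Matrix.vandermonde_apply, Matrix.of_apply]
    exact h2

end

end STZ
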