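import Pool.Agent.STZ.StmtsU

/-!
# Module PSIM: smooth cutoff functions on `ℤ`
-/

namespace STZ

namespace PSIM

/-- sums over intervals of integers -/
theorem sum_Icc (h : ℤ → ℝ) (a : ℤ) (n : ℕ) :
    ∑ y ∈ Finset.Icc a (a + n), h y = ∑ i ∈ Finset.range (n + 1), h (a + i) := by
  refine Finset.sum_nbij' (fun y => (y - a).toNat) (fun i => a + i) ?_ ?_ ?_ ?_ ?_
  · intro y hy
    rw [Finset.mem_Icc] at hy
    rw [Finset.mem_range]
    omega
  · intro i hi
    rw [Finset.mem_range] at hi
    rw [Finset.mem_Icc]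
    omega
  · intro y hy
    rw [Finset.mem_Icc] at hy
    omega
  · intro i _
    omega
  · intro y hy
    rw [Finset.mem_Icc] at hy
    congr 1
    omega

/-- telescoping -/
theorem tele (g : ℤ → ℝ) (X : ℕ) :
    ∑ y ∈ Finset.Icc (-(X : ℤ)) X, (g y - g (y + 1)) = g (-(X : ℤ)) - g (X + 1) := by
  have h1 : (X : ℤ) = -(X : ℤ) + ((2 * X : ℕ) : ℤ) := by
    push_cast
    ring
  have h2 : Finset.Icc (-(X : ℤ)) X = Finset.Icc (-(X : ℤ)) (-(X : ℤ) + ((2 * X : ℕ) : ℤ)) := by
    rw [← h1]
  rw [h2, sum_Icc (fun y => g y - g (y + 1))]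
  have h3 := Finset.sum_range_sub' (fun i : ℕ => g (-(X : ℤ) + i)) (2 * X + 1)
  have h4 : ∀ i : ℕ, g (-(X : ℤ) + i) - g (-(X : ℤ) + i + 1) =
      (fun i : ℕ => g (-(X : ℤ) + i)) i - (fun i : ℕ => g (-(X : ℤ) + i)) (i + 1) := by
    intro i
    dsimp only
    push_cast
    rw [add_assoc]
  rw [Finset.sum_congr rfl fun i _ => h4 i, h3]
  congr 2
  · push_cast
    ring
  · push_cast
    ring

/-- the difference of the next cutoff function -/
theorem dd_psm (X m : ℕ) (x : ℤ) : psm X (m + 1) (x + 1) - psm X (m + 1) x =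
    (psm X m (x + (1 + X)) - psm X m (x - X)) / X := by
  have h1 := tele (fun y => psm X m (x + 1 - y)) X
  rw [psm, psm, ← sub_div, ← Finset.sum_sub_distrib]
  congr 1
  have h2 : ∀ y : ℤ, psm X m (x + 1 - y) - psm X m (x - y) =
      psm X m (x + 1 - y) - psm X m (x + 1 - (y + 1)) := by
    intro y
    rw [add_sub_add_right_eq_sub]
  rw [Finset.sum_congr rfl fun y _ => h2 y, h1]
  congr 2 <;> ring

/-- iterated differences of differences of translates -/
theorem iter (f : ℤ → ℂ) (a b : ℤ) (c : ℂ) (j : ℕ) :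
    DD^[j] (fun x => (f (x + a) - f (x - b)) / c) =
      fun x => ((DD^[j] f) (x + a) - (DD^[j] f) (x - b)) / c := by
  induction j generalizing f with
  | zero => rfl
  | succ j ih =>
    rw [Function.iterate_succ_apply, Function.iterate_succ_apply]
    have h1 : DD (fun x => (f (x + a) - f (x - b)) / c) =
        fun x => (DD f (x + a) - DD f (x - b)) / c := by
      funext x
      unfold DD
      have h2 : x + 1 + a = x + a + 1 := by ring
      have h3 : x + 1 - b = x - b + 1 := by ring
      dsimp only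
      rw [h2, h3]
      ring
    rw [h1, ih]

theorem nonneg (X m : ℕ) (x : ℤ) : 0 ≤ psm X m x := by
  induction m generalizing x with
  | zero =>
    rw [psm]
    split_ifs
    · exact zero_le_one
    · exact le_rfl
  | succ m ih =>
    rw [psm]
    exact div_nonneg (Finset.sum_nonneg fun y _ => ih _) (Nat.cast_nonneg X)

theorem even (X m : ℕ) (x : ℤ) : psm X m (-x) = psm X m x := by
  induction m generalizing x with
  | zero => rw [psm, psm, abs_neg]
  | succ m ih =>
    rw [psm, psm]
    congr 1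
    refine Finset.sum_nbij' (fun y => -y) (fun y => -y) ?_ ?_ ?_ ?_ ?_
    · intro y hy
      rw [Finset.mem_Icc] at hy ⊢
      omega
    · intro y hy
      rw [Finset.mem_Icc] at hy ⊢
      omega
    · intro y _
      exact neg_neg y
    · intro y _
      exact neg_neg y
    · intro y _
      have h1 : -x - y = -(x - -y) := by ring
      rw [h1, ih]

theorem lower (X m : ℕ) (hX : 1 ≤ X) (x : ℤ) (hx : |x| ≤ X) : 1 ≤ psm X m x := by
  induction m generalizing x with
  | zero =>
    rw [psm, if_pos hx]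
  | succ m ih =>
    have key : ∀ x : ℤ, 0 ≤ x → x ≤ X → 1 ≤ psm X (m + 1) x := by
      intro x hx0 hxX
      have hX0 : (0 : ℝ) < X := by exact_mod_cast hX
      rw [psm, le_div_iff₀ hX0, one_mul]
      have h1 : ∑ y ∈ Finset.Icc (1 : ℤ) X, (1 : ℝ) ≤ ∑ y ∈ Finset.Icc (1 : ℤ) X, psm X m (x - y) := by
        apply Finset.sum_le_sum
        intro y hy
        rw [Finset.mem_Icc] at hy
        apply ih
        rw [abs_le]
        constructor <;> omega
      have h2 : ∑ y ∈ Finset.Icc (1 : ℤ) X, psm X m (x - y) ≤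
          ∑ y ∈ Finset.Icc (-(X : ℤ)) X, psm X m (x - y) := by
        apply Finset.sum_le_sum_of_subset_of_nonneg
        · intro y hy
          rw [Finset.mem_Icc] at hy ⊢
          omega
        · intro y _ _
          exact nonneg X m _
      have h3 : ∑ y ∈ Finset.Icc (1 : ℤ) X, (1 : ℝ) = X := by
        rw [Finset.sum_const, Int.card_Icc]
        simp
      linarith
    rcases le_total 0 x with h0 | h0
    · rw [abs_of_nonneg h0] at hx
      exact key x h0 hx
    · rw [abs_of_nonpos h0] at hx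
      rw [← even]
      exact key (-x) (by omega) hx

theorem supp (X m : ℕ) (x : ℤ) (hx : ((m : ℤ) + 1) * X < |x|) : psm X m x = 0 := by
  induction m generalizing x with
  | zero =>
    rw [psm, if_neg]
    intro h
    push_cast at hx
    linarith
  | succ m ih =>
    rw [psm]
    have h1 : ∑ y ∈ Finset.Icc (-(X : ℤ)) X, psm X m (x - y) = 0 := by
      apply Finset.sum_eq_zero
      intro y hy
      apply ih
      rw [Finset.mem_Icc] at hy
      have h2 : |y| ≤ X := abs_le.mpr hy
      have h3 : |x| ≤ |x - y| + |y| := by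
        have h4 := abs_add_le (x - y) y
        rwa [sub_add_cancel] at h4
      push_cast at hx
      nlinarith
    rw [h1, zero_div]

theorem upper (X m : ℕ) (hX : 1 ≤ X) (x : ℤ) : psm X m x ≤ 3 ^ m := by
  induction m generalizing x with
  | zero =>
    rw [psm, pow_zero]
    split_ifs
    · exact le_rfl
    · exact zero_le_one
  | succ m ih =>
    have hX0 : (0 : ℝ) < X := by exact_mod_cast hX
    have hX1 : (1 : ℝ) ≤ X := by exact_mod_cast hX
    rw [psm, div_le_iff₀ hX0]
    have h1 : ∑ y ∈ Finset.Icc (-(X : ℤ)) X, psm X m (x - y) ≤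
        ∑ _y ∈ Finset.Icc (-(X : ℤ)) X, (3 : ℝ) ^ m := Finset.sum_le_sum fun y _ => ih _
    have h2 : ∑ _y ∈ Finset.Icc (-(X : ℤ)) X, (3 : ℝ) ^ m = (2 * X + 1) * 3 ^ m := by
      rw [Finset.sum_const, Int.card_Icc, nsmul_eq_mul]
      have h3 : ((X : ℤ) + 1 - -(X : ℤ)).toNat = 2 * X + 1 := by omega
      rw [h3]
      push_cast
      ring
    rw [h2] at h1
    refine h1.trans ?_
    rw [pow_succ]
    have h3 : (0 : ℝ) < 3 ^ m := by positivity
    nlinarith

theorem diff (X m : ℕ) (hX : 1 ≤ X) : ∀ j ≤ m, ∀ x,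
    ‖(DD^[j] fun y => (psm X m y : ℂ)) x‖ ≤ 2 ^ j * 3 ^ m / (X : ℝ) ^ j := by
  have hX0 : (0 : ℝ) < X := by exact_mod_cast hX
  induction m with
  | zero =>
    intro j hj x
    obtain rfl : j = 0 := by omega
    rw [Function.iterate_zero, id_eq, Complex.norm_real, Real.norm_of_nonneg (nonneg X 0 x)]
    have h1 := upper X 0 hX x
    simpa using h1
  | succ m ih =>
    intro j hj x
    rcases j with _ | j
    · rw [Function.iterate_zero, id_eq, Complex.norm_real, Real.norm_of_nonneg (nonneg X (m + 1) x)]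
      have h1 := upper X (m + 1) hX x
      simpa using h1
    · rw [Function.iterate_succ_apply]
      have h1 : DD (fun y => (psm X (m + 1) y : ℂ)) =
          fun y => ((fun z : ℤ => (psm X m z : ℂ)) (y + (1 + X)) -
            (fun z : ℤ => (psm X m z : ℂ)) (y - X)) / (X : ℂ) := by
        funext y
        unfold DD
        have h2 := dd_psm X m y
        rw [← Complex.ofReal_sub, h2]
        push_cast
        ring
      rw [h1, iter (fun z : ℤ => (psm X m z : ℂ)) (1 + X) X X j]
      have h3 := ih j (by omega) (x + (1 + X))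
      have h4 := ih j (by omega) (x - X)
      dsimp only
      rw [norm_div, Complex.norm_natCast]
      have h5 : ‖(DD^[j] fun z : ℤ => (psm X m z : ℂ)) (x + (1 + X)) -
          (DD^[j] fun z : ℤ => (psm X m z : ℂ)) (x - X)‖ ≤
          2 * (2 ^ j * 3 ^ m / (X : ℝ) ^ j) := by
        refine (norm_sub_le _ _).trans ?_
        linarith
      calc ‖(DD^[j] fun z : ℤ => (psm X m z : ℂ)) (x + (1 + X)) -
          (DD^[j] fun z : ℤ => (psm X m z : ℂ)) (x - X)‖ / X
          ≤ 2 * (2 ^ j * 3 ^ m / (X : ℝ) ^ j) / X := div_le_div_of_nonneg_right h5 hX0.le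
        _ = 2 ^ (j + 1) * 3 ^ m / (X : ℝ) ^ (j + 1) := by
          rw [pow_succ, pow_succ]
          field_simp
        _ ≤ 2 ^ (j + 1) * 3 ^ (m + 1) / (X : ℝ) ^ (j + 1) := by
          apply div_le_div_of_nonneg_right _ (by positivity)
          apply mul_le_mul_of_nonneg_left _ (by positivity)
          exact pow_le_pow_right₀ (by norm_num) (Nat.le_succ m)

end PSIM

open PSIM in
theorem t_PSIM : S_PSIM := by
  intro m
  refine ⟨2 ^ m * 3 ^ m, by positivity, fun X hX => ⟨nonneg X m, even X m, lower X m hX, supp X m, ?_⟩⟩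
  intro j hj x
  refine (diff X m hX j hj x).trans ?_
  have hX0 : (0 : ℝ) < X := by exact_mod_cast hX
  apply div_le_div_of_nonneg_right _ (by positivity)
  apply mul_le_mul_of_nonneg_right _ (by positivity)
  exact pow_le_pow_right₀ (by norm_num) hj

end STZ
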