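import Pool.Agent.STZ.StmtsN

/-!
# Module PWC: traces of powers in `Sp(2)`
-/

namespace STZ

open MeasureTheory Matrix

open scoped ComplexConjugate Matrix Real

noncomputable section

namespace PWC

theorem J4_sq : J4 * J4 = -1 := by
  ext i j
  fin_cases i <;> fin_cases j <;> simp [J4, Matrix.mul_apply, Fin.sum_univ_four]

theorem trace_real (g : SU 4) (hg : g ∈ Sp2) : conj g.1.trace = g.1.trace := by
  have h1 : g.1ᵀ * J4 * g.1 = J4 := hg
  have h2 : g.1 * g.1ᴴ = 1 := by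
    have := (Matrix.mem_specialUnitaryGroup_iff.1 g.2).1
    exact (Matrix.mem_unitaryGroup_iff.1 this)
  have h3 : -(J4 * g.1ᵀ * J4) * g.1 = 1 := by
    calc -(J4 * g.1ᵀ * J4) * g.1 = -(J4 * (g.1ᵀ * J4 * g.1)) := by
          simp only [Matrix.neg_mul, Matrix.mul_assoc]
      _ = 1 := by rw [h1, J4_sq, neg_neg]
  have h4 : g.1ᴴ = -(J4 * g.1ᵀ * J4) := by
    calc g.1ᴴ = (-(J4 * g.1ᵀ * J4) * g.1) * g.1ᴴ := by rw [h3, Matrix.one_mul]
      _ = -(J4 * g.1ᵀ * J4) := by rw [Matrix.mul_assoc, h2, Matrix.mul_one]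
  have h5 : g.1ᴴ.trace = g.1.trace := by
    rw [h4, Matrix.trace_neg, Matrix.mul_assoc, Matrix.trace_mul_comm, Matrix.mul_assoc, J4_sq,
      Matrix.mul_neg, Matrix.mul_one, Matrix.trace_neg, neg_neg, Matrix.trace_transpose]
  rw [Matrix.trace_conjTranspose] at h5
  exact h5

end PWC

open PWC in
theorem t_PWC : M_PWC := by
  intro hE g hg
  obtain ⟨v, hv, hp, -, ht⟩ := hE 4 g
  have t1 : g.1.trace = v 0 + v 1 + v 2 + v 3 := by
    have := ht 1
    simpa only [Fin.sum_univ_four, pow_one] using this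
  have t2 : (g.1 ^ 2).trace = v 0 ^ 2 + v 1 ^ 2 + v 2 ^ 2 + v 3 ^ 2 := by
    rw [ht 2, Fin.sum_univ_four]
  have t3 : (g.1 ^ 3).trace = v 0 ^ 3 + v 1 ^ 3 + v 2 ^ 3 + v 3 ^ 3 := by
    rw [ht 3, Fin.sum_univ_four]
  have t4 : (g.1 ^ 4).trace = v 0 ^ 4 + v 1 ^ 4 + v 2 ^ 4 + v 3 ^ 4 := by
    rw [ht 4, Fin.sum_univ_four]
  have e4 : v 0 * v 1 * v 2 * v 3 = 1 := by
    rw [← hp, Fin.prod_univ_four]
  have hr := trace_real g hg
  rw [t1, map_add, map_add, map_add] at hr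
  have e3 : v 0 * v 1 * v 2 + v 0 * v 1 * v 3 + v 0 * v 2 * v 3 + v 1 * v 2 * v 3 =
      v 0 + v 1 + v 2 + v 3 := by
    have h0 : v 1 * v 2 * v 3 = conj (v 0) := by
      linear_combination conj (v 0) * e4 - v 1 * v 2 * v 3 * hv 0
    have h1 : v 0 * v 2 * v 3 = conj (v 1) := by
      linear_combination conj (v 1) * e4 - v 0 * v 2 * v 3 * hv 1
    have h2 : v 0 * v 1 * v 3 = conj (v 2) := by
      linear_combination conj (v 2) * e4 - v 0 * v 1 * v 3 * hv 2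
    have h3 : v 0 * v 1 * v 2 = conj (v 3) := by
      linear_combination conj (v 3) * e4 - v 0 * v 1 * v 2 * hv 3
    rw [h0, h1, h2, h3]
    linear_combination hr
  refine ⟨?_, ?_⟩
  · rw [t3, t2, t1]
    linear_combination 3 * e3
  · rw [t4, t3, t2, t1]
    linear_combination (v 0 + v 1 + v 2 + v 3) * e3 - 4 * e4

end

end STZ
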