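import Pool.Agent.STZ.StmtsN

/-!
# Module PWG: traces of powers for real matrices in `SU(7)`
-/

namespace STZ

open MeasureTheory Matrix

open scoped ComplexConjugate Matrix Real

noncomputable section

namespace PWG

/-- the elementary symmetric functions -/
def E (v : Fin 7 → ℂ) (k : ℕ) : ℂ := ∑ t ∈ Finset.powersetCard k Finset.univ, ∏ i ∈ t, v i

theorem aeval_esymm (v : Fin 7 → ℂ) (k : ℕ) :
    MvPolynomial.aeval v (MvPolynomial.esymm (Fin 7) ℤ k) = E v k := by
  unfold MvPolynomial.esymm E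
  rw [map_sum]
  apply Finset.sum_congr rfl
  intro t _
  rw [map_prod]
  apply Finset.prod_congr rfl
  intro i _
  rw [MvPolynomial.aeval_X]

theorem aeval_psum (v : Fin 7 → ℂ) (k : ℕ) :
    MvPolynomial.aeval v (MvPolynomial.psum (Fin 7) ℤ k) = ∑ i, v i ^ k := by
  unfold MvPolynomial.psum
  rw [map_sum]
  apply Finset.sum_congr rfl
  intro i _
  rw [map_pow, MvPolynomial.aeval_X]

theorem E_zero (v : Fin 7 → ℂ) : E v 0 = 1 := by
  unfold E
  simp

theorem newton (v : Fin 7 → ℂ) (k : ℕ) : (k : ℂ) * E v k = (-1) ^ (k + 1) *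
    ∑ a ∈ (Finset.HasAntidiagonal.antidiagonal k).filter (fun a => a.1 < k),
      (-1) ^ a.1 * E v a.1 * ∑ i, v i ^ a.2 := by
  have h := congrArg (MvPolynomial.aeval v) (MvPolynomial.mul_esymm_eq_sum (Fin 7) ℤ k)
  rw [map_mul, map_natCast, aeval_esymm, map_mul, map_pow, map_neg, map_one, map_sum] at h
  rw [h]
  congr 1
  apply Finset.sum_congr rfl
  intro a _
  rw [map_mul, map_mul, map_pow, map_neg, map_one, aeval_esymm, aeval_psum]

theorem newton1 (v : Fin 7 → ℂ) : E v 1 = ∑ i, v i ^ 1 := by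
  have h := newton v 1
  have hs : (Finset.HasAntidiagonal.antidiagonal 1).filter (fun a : ℕ × ℕ => a.1 < 1) = {(0, 1)} := by decide
  rw [hs, Finset.sum_singleton, E_zero] at h
  push_cast at h
  linear_combination h

theorem newton2 (v : Fin 7 → ℂ) : 2 * E v 2 = E v 1 * (∑ i, v i ^ 1) - ∑ i, v i ^ 2 := by
  have h := newton v 2
  have hs : (Finset.HasAntidiagonal.antidiagonal 2).filter (fun a : ℕ × ℕ => a.1 < 2) = {(0, 2), (1, 1)} := by decide
  rw [hs, Finset.sum_insert (by decide), Finset.sum_singleton, E_zero] at h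
  push_cast at h
  linear_combination h

theorem newton3 (v : Fin 7 → ℂ) :
    3 * E v 3 = E v 2 * (∑ i, v i ^ 1) - E v 1 * (∑ i, v i ^ 2) + ∑ i, v i ^ 3 := by
  have h := newton v 3
  have hs : (Finset.HasAntidiagonal.antidiagonal 3).filter (fun a : ℕ × ℕ => a.1 < 3) =
    {(0, 3), (1, 2), (2, 1)} := by decide
  rw [hs, Finset.sum_insert (by decide), Finset.sum_insert (by decide), Finset.sum_singleton,
    E_zero] at h
  push_cast at h
  linear_combination h

theorem newton4 (v : Fin 7 → ℂ) :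
    4 * E v 4 = E v 3 * (∑ i, v i ^ 1) - E v 2 * (∑ i, v i ^ 2) + E v 1 * (∑ i, v i ^ 3) -
      ∑ i, v i ^ 4 := by
  have h := newton v 4
  have hs : (Finset.HasAntidiagonal.antidiagonal 4).filter (fun a : ℕ × ℕ => a.1 < 4) =
    {(0, 4), (1, 3), (2, 2), (3, 1)} := by decide
  rw [hs, Finset.sum_insert (by decide), Finset.sum_insert (by decide),
    Finset.sum_insert (by decide), Finset.sum_singleton, E_zero] at h
  push_cast at h
  linear_combination h

theorem compl (v : Fin 7 → ℂ) (hv : ∀ i, v i * conj (v i) = 1) (hp : ∏ i, v i = 1) :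
    E v 4 = conj (E v 3) := by
  unfold E
  rw [map_sum]
  apply Finset.sum_nbij' (fun t => tᶜ) (fun t => tᶜ)
  · intro t ht
    rw [Finset.mem_powersetCard] at ht ⊢
    refine ⟨Finset.subset_univ _, ?_⟩
    rw [Finset.card_compl, Fintype.card_fin, ht.2]
  · intro t ht
    rw [Finset.mem_powersetCard] at ht ⊢
    refine ⟨Finset.subset_univ _, ?_⟩
    rw [Finset.card_compl, Fintype.card_fin, ht.2]
  · intro t _
    exact compl_compl t
  · intro t _
    exact compl_compl t
  · intro t _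
    rw [map_prod]
    have h1 : (∏ i ∈ t, v i) * ∏ i ∈ tᶜ, v i = 1 := by
      rw [Finset.prod_mul_prod_compl, hp]
    have h2 : (∏ i ∈ tᶜ, v i) * ∏ i ∈ tᶜ, conj (v i) = 1 := by
      rw [← Finset.prod_mul_distrib]
      exact Finset.prod_eq_one fun i _ => hv i
    calc (∏ i ∈ t, v i) = (∏ i ∈ t, v i) * ((∏ i ∈ tᶜ, v i) * ∏ i ∈ tᶜ, conj (v i)) := by
          rw [h2, mul_one]
      _ = ((∏ i ∈ t, v i) * ∏ i ∈ tᶜ, v i) * ∏ i ∈ tᶜ, conj (v i) := by rw [mul_assoc]
      _ = _ := by rw [h1, one_mul]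

theorem trace_real (g : Matrix (Fin 7) (Fin 7) ℂ) (hg : ∀ i j, conj (g i j) = g i j) (k : ℕ) :
    conj (g ^ k).trace = (g ^ k).trace := by
  have h1 : (RingHom.mapMatrix (starRingEnd ℂ)) g = g := by
    ext i j
    exact hg i j
  have h2 : (RingHom.mapMatrix (starRingEnd ℂ)) (g ^ k) = g ^ k := by
    rw [map_pow, h1]
  have h3 : conj (g ^ k).trace = ((RingHom.mapMatrix (starRingEnd ℂ)) (g ^ k)).trace := by
    unfold Matrix.trace
    rw [map_sum]
    rfl
  rw [h3, h2]

end PWG

open PWG in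
theorem t_PWG : M_PWG := by
  intro hE g hg
  obtain ⟨v, hv, hp, -, ht⟩ := hE 7 g
  have hr : ∀ k, conj (∑ i, v i ^ k) = ∑ i, v i ^ k := by
    intro k
    rw [← ht k]
    exact trace_real g.1 hg k
  have t1 : g.1.trace = ∑ i, v i ^ 1 := by
    have := ht 1
    rwa [pow_one] at this
  rw [ht 4, ht 3, ht 2, t1]
  have n1 := newton1 v
  have n2 := newton2 v
  have n3 := newton3 v
  have n4 := newton4 v
  have hc := compl v hv hp
  have r1 := hr 1
  have r2 := hr 2
  have r3 := hr 3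
  set p1 := ∑ i, v i ^ 1
  set p2 := ∑ i, v i ^ 2
  set p3 := ∑ i, v i ^ 3
  set p4 := ∑ i, v i ^ 4
  have e3 : E v 3 = (p1 ^ 3 - 3 * p1 * p2 + 2 * p3) / 6 := by
    rw [n1] at n2 n3
    linear_combination n3 / 3 + p1 * n2 / 6
  have e3r : conj (E v 3) = E v 3 := by
    rw [e3]
    simp only [map_div₀, map_add, map_sub, map_mul, map_pow, r1, r2, r3]
    congr 1
    · congr 1
      · congr 1
        congr 1
        congr 1
        exact Complex.conj_ofNat 3
      · congr 1
        exact Complex.conj_ofNat 2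
    · exact Complex.conj_ofNat 6
  rw [e3r] at hc
  rw [hc, n1] at n4
  rw [n1] at n2
  rw [← e3]
  linear_combination n4 - p2 * n2 / 2

end

end STZ
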