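import Pool.Agent.STZ.StmtsM

/-!
# Module SDG: the data of the group
-/

namespace STZ

open MeasureTheory Matrix

open scoped ComplexConjugate Matrix Real

noncomputable section

namespace SDG

variable {N : ℕ} {H : Subgroup (SU N)} {c : ℝ} {d r : ℕ} {D : RD r} {x : Fin r → H → ℂ} {k : ℝ}

/-- the functions `ψ` on the group -/
def ps (D : RD r) (x : Fin r → H → ℂ) (l : Fin r → ℤ) (g : H) : ℂ := D.ψ (fun i => x i g) l

theorem ps_conj (hINT : S_INTGG) (hD : RDF D) (hG : GF H c d D x k) (l : Fin r → ℤ) (g : H) :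
    conj (ps D x l g) = ps D x (l ∘ D.st) g := by
  obtain ⟨-, -, h3, h4⟩ := hINT r D hD
  unfold ps
  rw [h3]
  have h : (fun i => conj (x i g)) = (fun i => x i g) ∘ D.st := by
    funext i
    exact hG.cj i g
  rw [h, h4]

theorem ps_one (hD : RDF D) (hG : GF H c d D x k) (l : Fin r → ℤ) : ps D x l 1 = (D.dim l : ℂ) := by
  unfold ps
  have h : (fun i => x i 1) = D.ξ := funext hG.xone
  rw [h, hD.dim_eq]

theorem dim_st (hINT : S_INTGG) (hD : RDF D) (hG : GF H c d D x k) (l : Fin r → ℤ) :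
    D.dim (l ∘ D.st) = D.dim l := by
  have h := ps_conj hINT hD hG l 1
  rw [ps_one hD hG, ps_one hD hG, map_intCast] at h
  exact_mod_cast h.symm

theorem sz_st (l : Fin r → ℤ) : sz (l ∘ D.st) = sz l := by
  unfold sz
  congr 1
  exact Equiv.sum_comp D.st (fun i => |(l i : ℝ)|)

theorem reg_st {l : Fin r → ℤ} (hl : Reg l) : Reg (l ∘ D.st) := fun i => hl _

theorem st_st (hD : RDF D) (l : Fin r → ℤ) : (l ∘ D.st) ∘ D.st = l := by
  funext i
  simp only [Function.comp_apply, hD.st2]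

theorem cont (hG : GF H c d D x k) {l : Fin r → ℤ} (hl : Reg l) : Continuous (ps D x l) := by
  obtain ⟨X, hX⟩ := hG.frame
  exact (hG.lap X hX l hl).1.1.cont

theorem one_le_sz (l : Fin r → ℤ) : 1 ≤ sz l := by
  unfold sz
  have : 0 ≤ ∑ i, |(l i : ℝ)| := Finset.sum_nonneg fun i _ => abs_nonneg _
  linarith

theorem le_sz (l : Fin r → ℤ) (i : Fin r) : |(l i : ℝ)| ≤ sz l := by
  unfold sz
  have : |(l i : ℝ)| ≤ ∑ i, |(l i : ℝ)| :=
    Finset.single_le_sum (f := fun j => |(l j : ℝ)|) (fun _ _ => abs_nonneg _) (Finset.mem_univ i)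
  linarith

theorem sz_le (l b : Fin r → ℤ) : sz l ≤ sz (l - b) + sz b := by
  unfold sz
  have : ∑ i, |(l i : ℝ)| ≤ ∑ i, |(((l - b) i : ℤ) : ℝ)| + ∑ i, |(b i : ℝ)| := by
    rw [← Finset.sum_add_distrib]
    apply Finset.sum_le_sum
    intro i _
    have h : (l i : ℝ) = (((l - b) i : ℤ) : ℝ) + (b i : ℝ) := by
      rw [Pi.sub_apply]
      push_cast
      ring
    rw [h]
    exact abs_add_le _ _
  linarith

theorem coef (hG : GF H c d D x k) [CompactSpace H] {μ : Measure H} [IsProbabilityMeasure μ]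
    (hort : ∀ l l' : Fin r → ℤ, Reg l → Reg l' → ∫ g, ps D x l g * conj (ps D x l' g) ∂μ =
      if l = l' then 1 else 0)
    (a b : Fin r → ℤ) (T : Finset (Fin r → ℤ)) (n : (Fin r → ℤ) → ℤ) (hT : ∀ ν ∈ T, Reg ν)
    (h : ∀ g, ps D x a g * ps D x b g = ∑ ν ∈ T, (n ν : ℂ) * ps D x ν g) (κ : Fin r → ℤ) (hκ : Reg κ) :
    ∫ g, ps D x a g * ps D x b g * conj (ps D x κ g) ∂μ = if κ ∈ T then (n κ : ℂ) else 0 := by
  have h1 : ∀ g, ps D x a g * ps D x b g * conj (ps D x κ g) =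
      ∑ ν ∈ T, (n ν : ℂ) * (ps D x ν g * conj (ps D x κ g)) := by
    intro g
    rw [h, Finset.sum_mul]
    refine Finset.sum_congr rfl fun ν _ => ?_
    ring
  simp only [h1]
  rw [integral_finsetSum]
  · have h2 : ∀ ν ∈ T, ∫ g, (n ν : ℂ) * (ps D x ν g * conj (ps D x κ g)) ∂μ =
        if ν = κ then (n ν : ℂ) else 0 := by
      intro ν hν
      rw [integral_const_mul, hort ν κ (hT ν hν) hκ]
      split_ifs <;> ring
    rw [Finset.sum_congr rfl h2, Finset.sum_ite_eq' T κ]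
  · intro ν hν
    have hc : Continuous fun g => (n ν : ℂ) * (ps D x ν g * conj (ps D x κ g)) :=
      continuous_const.mul ((cont hG (hT ν hν)).mul (Complex.continuous_conj.comp (cont hG hκ)))
    exact hc.integrable_of_hasCompactSupport (HasCompactSupport.of_compactSpace _)

/-- the inverse of `wG` -/
def un (ν : Fin r → ℤ) : Fin r → ℕ := fun i => (ν i - 1).toNat

theorem wG_un {ν : Fin r → ℤ} (h : Reg ν) : wG (un ν) = ν := by
  funext i
  have := h i
  unfold wG un
  omega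

theorem un_wG (a : Fin r → ℕ) : un (wG a) = a := by
  funext i
  change ((a i : ℤ) + 1 - 1).toNat = a i
  omega

theorem reg_wG (a : Fin r → ℕ) : Reg (wG a) := by
  intro i
  change 1 ≤ (a i : ℤ) + 1
  omega

end SDG

open SDG in
theorem t_SDG : M_SDG := by
  intro hKERI hINT hORT hIRR hCG N H c d r D x k hD hG μ _ _
  have hcs : CompactSpace H := isCompact_iff_compactSpace.1 hG.closed.isCompact
  have hsc : SecondCountableTopology H :=
    (inferInstance : SecondCountableTopology ((H : Set (SU N)) : Type))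
  have hI := hIRR N H c d r D x k hD hG μ
  have hker := (hKERI H μ (Fin r → ℕ) (cG D x) hI).1
  have hort : ∀ l l' : Fin r → ℤ, Reg l → Reg l' → ∫ g, ps D x l g * conj (ps D x l' g) ∂μ =
      if l = l' then 1 else 0 := fun l l' hl hl' => hORT N H c d r D x k hD hG μ l l' hl hl'
  obtain ⟨C0, hC0⟩ := hCG r D hD
  obtain ⟨C1, hC1⟩ := hD.dim_le
  set B0 : ℝ := |C0| + 1 with hB0
  set B1 : ℝ := |C1| + 1 with hB1
  have hB0' : 1 ≤ B0 := by
    rw [hB0]
    linarith [abs_nonneg C0]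
  have hB1' : 1 ≤ B1 := by
    rw [hB1]
    linarith [abs_nonneg C1]
  have hC0B : C0 ≤ B0 := by
    rw [hB0]
    linarith [le_abs_self C0]
  have hC1B : C1 ≤ B1 := by
    rw [hB1]
    linarith [le_abs_self C1]
  have hone : ∀ a, cG D x a 1 = ((D.dim (wG a) : ℝ) : ℂ) := by
    intro a
    have := ps_one hD hG (wG a)
    rw [Complex.ofReal_intCast]
    exact this
  have hdp : ∀ l, Reg l → (0 : ℝ) < (D.dim l : ℝ) := fun l hl => by exact_mod_cast hD.dim_pos l hl
  have hdle : ∀ l, Reg l → ∀ m : ℝ, sz l ≤ m → (D.dim l : ℝ) ≤ B1 * m ^ ((D.e : ℝ) / 2) := by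
    intro l hl m hm
    have h0 : 0 ≤ sz l := by linarith [one_le_sz l]
    have h1 : sz l ^ ((D.e : ℝ) / 2) ≤ m ^ ((D.e : ℝ) / 2) :=
      Real.rpow_le_rpow h0 hm (by positivity)
    have h2 : 0 ≤ sz l ^ ((D.e : ℝ) / 2) := Real.rpow_nonneg h0 _
    calc (D.dim l : ℝ) ≤ C1 * sz l ^ ((D.e : ℝ) / 2) := hC1 l hl
      _ ≤ B1 * sz l ^ ((D.e : ℝ) / 2) := mul_le_mul_of_nonneg_right hC1B h2
      _ ≤ B1 * m ^ ((D.e : ℝ) / 2) := mul_le_mul_of_nonneg_left h1 (by linarith)
  have hsq : ∀ m : ℝ, 1 ≤ m → m ^ ((D.e : ℝ) / 2) * m ^ ((D.e : ℝ) / 2) = m ^ (D.e : ℝ) := by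
    intro m hm
    rw [← Real.rpow_add (by linarith)]
    congr 1
    ring
  set Cf : ℝ := B0 * B1 ^ 2 + B0 + 1 with hCf
  have hCf1 : B0 * B1 ^ 2 ≤ Cf := by
    rw [hCf]
    linarith
  have hCf2 : B0 + 1 ≤ Cf := by
    rw [hCf]
    have : 0 ≤ B0 * B1 ^ 2 := by positivity
    linarith
  refine ⟨Cf, ?_⟩
  refine
    { ker := hker
      inj := ?_
      one := by linarith
      enn := Nat.cast_nonneg _
      diag := ?_
      prod := ?_ }
  · intro a b hab
    rw [← un_wG a, ← un_wG b, hab]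
  · intro a y
    have h1 : KK (cG D x) a y y = ((D.dim (wG a) * D.dim (wG a) : ℝ) : ℂ) := by
      rw [KK, mul_inv_cancel, hone]
      push_cast
      rfl
    have hd := (hdp _ (reg_wG a)).le
    have hm := one_le_sz (wG a)
    have h2 := hdle _ (reg_wG a) _ le_rfl
    rw [h1, Complex.norm_real, Real.norm_of_nonneg (mul_nonneg hd hd)]
    have h3 : (D.dim (wG a) : ℝ) * D.dim (wG a) ≤ (B1 * sz (wG a) ^ ((D.e : ℝ) / 2)) *
        (B1 * sz (wG a) ^ ((D.e : ℝ) / 2)) := mul_le_mul h2 h2 hd (hd.trans h2)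
    have h4 : (B1 * sz (wG a) ^ ((D.e : ℝ) / 2)) * (B1 * sz (wG a) ^ ((D.e : ℝ) / 2)) =
        B1 ^ 2 * sz (wG a) ^ (D.e : ℝ) := by
      rw [← hsq _ hm]
      ring
    have h5 : 0 ≤ sz (wG a) ^ (D.e : ℝ) := Real.rpow_nonneg (by linarith) _
    have h6 : B1 ^ 2 ≤ Cf := by
      have : 1 * B1 ^ 2 ≤ B0 * B1 ^ 2 := mul_le_mul_of_nonneg_right hB0' (by positivity)
      linarith
    calc _ ≤ _ := h3
      _ = _ := h4
      _ ≤ _ := mul_le_mul_of_nonneg_right h6 h5
  · intro a b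
    obtain ⟨T0, n, hn1, hn2⟩ := hC0 (wG a) (wG b) (reg_wG a) (reg_wG b)
    have hn3 : ∀ g, ps D x (wG a) g * ps D x (wG b) g = ∑ ν ∈ T0, (n ν : ℂ) * ps D x ν g :=
      fun g => hn1 _
    have hT0 : ∀ ν ∈ T0, Reg ν := fun ν hν => (hn2 ν hν).1
    have hinj : Set.InjOn un ((T0.filter (fun ν => n ν ≠ 0) : Finset (Fin r → ℤ)) : Set (Fin r → ℤ)) := by
      intro ν hν ν' hν' h
      have h1 := hT0 ν (Finset.mem_filter.1 hν).1
      have h2 := hT0 ν' (Finset.mem_filter.1 hν').1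
      rw [← wG_un h1, ← wG_un h2, h]
    refine ⟨(T0.filter (fun ν => n ν ≠ 0)).image un,
      fun κ => ((D.dim (wG a) * D.dim (wG b) * n (wG κ) / D.dim (wG κ) : ℝ) : ℂ), ?_, ?_⟩
    · intro y z
      rw [Finset.sum_image hinj]
      have h1 : ∑ ν ∈ T0.filter (fun ν => n ν ≠ 0),
          ((D.dim (wG a) * D.dim (wG b) * n (wG (un ν)) / D.dim (wG (un ν)) : ℝ) : ℂ) *
            KK (cG D x) (un ν) y z =
          ∑ ν ∈ T0, ((D.dim (wG a) * D.dim (wG b) * n (wG (un ν)) / D.dim (wG (un ν)) : ℝ) : ℂ) *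
            KK (cG D x) (un ν) y z := by
        apply Finset.sum_filter_of_ne
        intro ν hν hc h0
        apply hc
        rw [wG_un (hT0 ν hν), h0, Int.cast_zero, mul_zero, zero_div, Complex.ofReal_zero, zero_mul]
      rw [h1]
      have h2 : KK (cG D x) a y z * KK (cG D x) b y z =
          ((D.dim (wG a) : ℝ) : ℂ) * ((D.dim (wG b) : ℝ) : ℂ) *
            (ps D x (wG a) (y * z⁻¹) * ps D x (wG b) (y * z⁻¹)) := by
        rw [KK, KK, hone, hone]
        change _ * ps D x (wG a) (y * z⁻¹) * (_ * ps D x (wG b) (y * z⁻¹)) = _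
        ring
      rw [h2, hn3, Finset.mul_sum]
      refine Finset.sum_congr rfl fun ν hν => ?_
      rw [KK, hone]
      change _ = _ * (_ * ps D x (wG (un ν)) (y * z⁻¹))
      rw [wG_un (hT0 ν hν)]
      have h3 : ((D.dim ν : ℝ) : ℂ) ≠ 0 := by
        exact_mod_cast (hdp ν (hT0 ν hν)).ne'
      push_cast at h3 ⊢
      field_simp
    · intro κ hκ
      obtain ⟨ν, hν, rfl⟩ := Finset.mem_image.1 hκ
      obtain ⟨hνT, hν0⟩ := Finset.mem_filter.1 hν
      have hνR := hT0 ν hνT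
      simp only [wG_un hνR]
      -- the other description of the coefficient
      obtain ⟨T', n', hm1, hm2⟩ := hC0 (ν ∘ D.st) (wG b) (reg_st hνR) (reg_wG b)
      have hm3 : ∀ g, ps D x (ν ∘ D.st) g * ps D x (wG b) g = ∑ ν ∈ T', (n' ν : ℂ) * ps D x ν g :=
        fun g => hm1 _
      have e1 := coef hG hort (wG a) (wG b) T0 n hT0 hn3 ν hνR
      rw [if_pos hνT] at e1
      have e2 := coef hG hort (ν ∘ D.st) (wG b) T' n' (fun ν hν => (hm2 ν hν).1) hm3
        (wG a ∘ D.st) (reg_st (reg_wG a))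
      have e3 : ∀ g, ps D x (wG a) g * ps D x (wG b) g * conj (ps D x ν g) =
          ps D x (ν ∘ D.st) g * ps D x (wG b) g * conj (ps D x (wG a ∘ D.st) g) := by
        intro g
        rw [ps_conj hINT hD hG, ps_conj hINT hD hG, st_st hD]
        ring
      simp only [e3] at e1
      rw [e1] at e2
      have hmem : wG a ∘ D.st ∈ T' := by
        by_contra hcon
        rw [if_neg hcon] at e2
        exact hν0 (by exact_mod_cast e2)
      rw [if_pos hmem] at e2
      have e4 : n ν = n' (wG a ∘ D.st) := by exact_mod_cast e2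
      obtain ⟨-, b2, b3⟩ := hm2 _ hmem
      rw [← e4, sz_st, dim_st hINT hD hG] at b2
      rw [sz_st] at b3
      obtain ⟨-, -, c3⟩ := hn2 ν hνT
      have hsν := one_le_sz ν
      have hsa := one_le_sz (wG a)
      have hsb := one_le_sz (wG b)
      set m : ℝ := max (sz (wG a)) (sz (wG b)) with hm
      have hma : sz (wG a) ≤ m := le_max_left _ _
      have hmb : sz (wG b) ≤ m := le_max_right _ _
      have hm1' : 1 ≤ m := by linarith
      have hb3 : sz (wG a ∘ D.st - wG b) ≤ B0 * sz ν :=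
        b3.trans (mul_le_mul_of_nonneg_right hC0B (by linarith))
      refine ⟨?_, ?_, ?_⟩
      · have hda := hdp _ (reg_wG a)
        have hdb := hdp _ (reg_wG b)
        have hdν := hdp ν hνR
        rw [Complex.norm_real, Real.norm_eq_abs, abs_div, abs_mul, abs_of_pos (mul_pos hda hdb),
          abs_of_pos hdν]
        have f1 := hdle _ (reg_wG a) m hma
        have f2 := hdle _ (reg_wG b) m hmb
        have f3 : (D.dim (wG a) : ℝ) * D.dim (wG b) ≤ B1 ^ 2 * m ^ (D.e : ℝ) := by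
          calc (D.dim (wG a) : ℝ) * D.dim (wG b) ≤ (B1 * m ^ ((D.e : ℝ) / 2)) * (B1 * m ^ ((D.e : ℝ) / 2)) :=
                mul_le_mul f1 f2 hdb.le (hda.le.trans f1)
            _ = B1 ^ 2 * m ^ (D.e : ℝ) := by
                rw [← hsq m hm1']
                ring
        have hpow : 0 < sz ν ^ r := pow_pos (by linarith) r
        have f4 : |(n ν : ℝ)| / D.dim ν ≤ B0 / sz ν ^ r := by
          rw [div_le_div_iff₀ hdν hpow]
          exact b2.trans (mul_le_mul_of_nonneg_right hC0B hdν.le)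
        have h5 : 0 ≤ m ^ (D.e : ℝ) := Real.rpow_nonneg (by linarith) _
        calc (D.dim (wG a) : ℝ) * D.dim (wG b) * |(n ν : ℝ)| / D.dim ν =
            ((D.dim (wG a) : ℝ) * D.dim (wG b)) * (|(n ν : ℝ)| / D.dim ν) := by ring
          _ ≤ (B1 ^ 2 * m ^ (D.e : ℝ)) * (B0 / sz ν ^ r) :=
            mul_le_mul f3 f4 (div_nonneg (abs_nonneg _) hdν.le) (mul_nonneg (by positivity) h5)
          _ = (B0 * B1 ^ 2) * m ^ (D.e : ℝ) / sz ν ^ r := by ring
          _ ≤ Cf * m ^ (D.e : ℝ) / sz ν ^ r :=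
            div_le_div_of_nonneg_right (mul_le_mul_of_nonneg_right hCf1 h5) hpow.le
      · intro i
        have h1 := le_sz (wG a ∘ D.st - wG b) (D.st i)
        rw [Pi.sub_apply, Function.comp_apply, hD.st2] at h1
        have h2 : B0 * sz ν ≤ Cf * sz ν := mul_le_mul_of_nonneg_right (by linarith) (by linarith)
        exact h1.trans (hb3.trans h2)
      · have g1 := sz_le ν (wG b)
        have g2 : sz (ν - wG b) ≤ B0 * m := by
          calc sz (ν - wG b) ≤ C0 * sz (wG a) := c3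
            _ ≤ B0 * sz (wG a) := mul_le_mul_of_nonneg_right hC0B (by linarith)
            _ ≤ B0 * m := mul_le_mul_of_nonneg_left hma (by linarith)
        have g3 : (B0 + 1) * m ≤ Cf * m := mul_le_mul_of_nonneg_right hCf2 (by linarith)
        linarith

end

end STZ
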