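import Pool.Agent.STZ.StmtsK

/-!
# Statements of the modules, block N: the Laplace operator of the groups of rank two

All formulas were checked by a computer. Module `X` proves `theorem t_X : M_X` (or `t_X : S_X` if there is no `M_X`) in the
file `Pool/Agent/STZ/X.lean`, namespace `STZ`.
-/

namespace STZ

open MeasureTheory Matrix

open scoped ComplexConjugate Matrix Real

noncomputable section

/-- simple facts about the class functions `x` -/
structure GFE {N : ℕ} (H : Subgroup (SU N)) {r : ℕ} (D : RD r) (x : Fin r → H → ℂ) : Prop where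
  closed : IsClosed (H : Set (SU N))
  cj : ∀ i g, conj (x i g) = x (D.st i) g
  cls : ∀ i g h, x i (g * h) = x i (h * g)
  xone : ∀ i, x i 1 = D.ξ i
  cont : ∀ i, Continuous (x i)
  virt : ∀ i, VC (x i)
  tr : ∃ F : MvPolynomial (Fin r) ℤ, ∀ g : H, g.1.1.trace = MvPolynomial.aeval (fun i => x i g) F

/-- the Laplace operator and the carré du champ of the generators -/
structure GFL {N : ℕ} (H : Subgroup (SU N)) (c : ℝ) (d : ℕ) {r : ℕ} (D : RD r)
    (M : Fin r → Fin r → (Fin r → ℂ) → ℂ) (x : Fin r → H → ℂ) (k : ℝ) : Prop where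
  c2 : ∀ i, C2H (x i)
  lapx : ∀ X : Fin d → Matrix (Fin N) (Fin N) ℂ, FrameH H c X → ∀ i g,
    lapH X (x i) g = -((k : ℂ) * ((D.Q (1 + Pi.single i 1) : ℂ) - D.Q 1)) * x i g
  gam : ∀ X : Fin d → Matrix (Fin N) (Fin N) ℂ, FrameH H c X → ∀ i j g,
    ∑ a, dH (X a) (x i) g * dH (X a) (x j) g = -((k : ℂ) / 2) * M i j (fun s => x s g)

/-- LAPM. Write `Δ` for `lapH X`, `Γ(f, h)` for `∑ a, dH (X a) f * dH (X a) h`, `ψ l` for `ψ (x g) l`, `c i = Q (1 + e i) - Q 1`. Every `ψ l` is `C2H` (it is an integer polynomial in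
the `x i`, INTGG; or by the induction below). Claims, for all `l`:
(A) `Δ (ψ l) = -k (Q l - Q 1) ψ l`;
(B) `Γ(x i, ψ l) = -(k/2) ∑ κ ∈ S i, P i κ (Q (l + κ) - Q l - c i) ψ (l + κ)`.
If they hold for `l` then for `w l`, `w ∈ W` (`anti`, `Q_W`, `S_W`, `P_W`: substitute `κ ↦ w κ`). If `l i = 0` for some `i`: `ψ l = 0`, and the right side of (B) is zero by the
substitution `κ ↦ w κ` for the reflection `w` of `refl`. `l = 1`: `ψ 1 = 1`, and the right side of (B) is zero by `base`. So by `str` we may assume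
`Reg l`, `l ≠ 1`, `l = l' + e i`, `Reg l'`, strong induction on `Q l` as in UNQ: `ψ l = x i ψ l' - ∑ κ ≠ e i, P i κ ψ (l' + κ)`, and (A), (B) hold for `l'` and `l' + κ`,
`κ ≠ e i`. (A): `Δ (x i ψ l') = x i Δ (ψ l') + ψ l' Δ (x i) + 2 Γ(x i, ψ l') = -k ∑ κ, P i κ (Q (l' + κ) - Q 1) ψ (l' + κ)`; subtract the terms `κ ≠ e i`.
(B) for `x j`: `Γ(x j, ψ l) = Γ(x j, x i) ψ l' + x i Γ(x j, ψ l') - ∑ κ ≠ e i, P i κ Γ(x j, ψ (l' + κ))`; by `gam` and RDG the first term is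
`-(k/2) ∑ κ' ∈ S j, ∑ κ ∈ S i, P P (κ' A κ) ψ (l' + κ + κ')`, the second is `-(k/2) ∑ κ', ∑ κ, P P (Q (l' + κ') - Q l' - c j) ψ (l' + κ + κ')`, and
`κ' A κ + Q (l' + κ') - Q l' = Q (l' + κ + κ') - Q (l' + κ)` (`qf`; `A` is symmetric because `Q (x + y) = Q (y + x)`); so the sum of the first two is the sum over all `κ` of the terms which
are subtracted for `κ ≠ e i`. -/
def S_LAPM : Prop := ∀ (N : ℕ) (H : Subgroup (SU N)) (c : ℝ) (d r : ℕ) (D : RD r)
  (M : Fin r → Fin r → (Fin r → ℂ) → ℂ) (x : Fin r → H → ℂ) (k : ℝ), RDF D → RDW D → RDG D M →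
  GFL H c d D M x k → ∀ X : Fin d → Matrix (Fin N) (Fin N) ℂ, FrameH H c X → ∀ l, Reg l →
    C2H (fun g : H => D.ψ (fun i => x i g) l) ∧
    ∀ g, lapH X (fun g : H => D.ψ (fun i => x i g) l) g =
      -((k : ℂ) * ((D.Q l : ℂ) - D.Q 1)) * D.ψ (fun i => x i g) l

def M_LAPM : Prop := S_CALH → S_INTGG → S_LAPM

/-- TRH. The derivatives of `tr g` and `tr (g²)`. From CALH (`dentry`, `dmul`, `dadd`; finite sums). -/
def S_TRH : Prop := ∀ (N : ℕ) (H : Subgroup (SU N)),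
  C2H (fun g : H => g.1.1.trace) ∧ C2H (fun g : H => (g.1.1 * g.1.1).trace) ∧
  ∀ X ∈ lie H, ∀ g : H,
    dH X (fun g : H => g.1.1.trace) g = (g.1.1 * X).trace ∧
    dH X (fun g : H => (g.1.1 * g.1.1).trace) g = 2 * (g.1.1 * g.1.1 * X).trace ∧
    dH X (dH X (fun g : H => g.1.1.trace)) g = (g.1.1 * X * X).trace ∧
    dH X (dH X (fun g : H => (g.1.1 * g.1.1).trace)) g =
      2 * (g.1.1 * g.1.1 * X * X).trace + 2 * (g.1.1 * X * g.1.1 * X).trace

def M_TRH : Prop := S_CALH → S_TRH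

/-- EIGV. The eigenvalues of `g`: `charpoly` splits over `ℂ`; the traces of the powers are the power sums of the roots (`Pool/Agent/Stark/TRD.lean` has this for
roots with multiplicity, look there; or upper triangular form, or diagonalise), the eigenvalues of a unitary matrix have absolute value `1`, the
product is the determinant. -/
def S_EIGV : Prop := ∀ (N : ℕ) (g : SU N), ∃ v : Fin N → ℂ, (∀ i, v i * conj (v i) = 1) ∧
  ∏ i, v i = 1 ∧ g.1.charpoly = ∏ i, (Polynomial.X - Polynomial.C (v i)) ∧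
  ∀ k : ℕ, (g.1 ^ k).trace = ∑ i, v i ^ k

/-! ### `SU(3)` -/

/-- the characters of dimension `3` -/
def xA : Fin 2 → (⊤ : Subgroup (SU 3)) → ℂ := ![fun g => g.1.1.trace, fun g => conj g.1.1.trace]

/-- FRA. `Fin 8 = Fin (3 ^ 2 - 1)`; the frame of FRX, `lie ⊤ = su 3`; it spans: by CAS `Y = -6 ∑ a, tr (X a Y) X a` for `Y ∈ su 3`, and `tr (X a Y)` is real. -/
def S_FRA : Prop := ∃ X : Fin 8 → Matrix (Fin 3) (Fin 3) ℂ, FrameH (⊤ : Subgroup (SU 3)) 6 X

def M_FRA : Prop := S_FRX → S_CAS → S_FRA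

/-- GEA. Simple. `virt`: VRING and TENH (`i = 1`, `j = 0`). -/
def S_GEA : Prop := GFE (⊤ : Subgroup (SU 3)) D1 xA

def M_GEA : Prop := S_VRING → S_TENH → S_GEA

/-- LAA. As in LAPX (see the comment there): a frame for `FrameH ⊤ 6` is a frame in the sense of `Frame`, so CAS holds. -/
def S_LAA : Prop := GFL (⊤ : Subgroup (SU 3)) 6 8 D1 M1 xA (1 / 9)

def M_LAA : Prop := S_CALH → S_TRH → S_CAS → S_LAA

/-! ### `Sp(2)` -/

/-- the characters of dimension `4` and `5` -/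
def xC : Fin 2 → Sp2 → ℂ :=
  ![fun g => g.1.1.trace, fun g => (g.1.1.trace ^ 2 - (g.1.1 * g.1.1).trace) / 2 - 1]

/-- GEC. Simple. `cj`: `conj g = J g J⁻¹` for `g ∈ Sp(2)`. `virt`: VRING, TENH, EXSQ. `tr = x 0`. -/
def S_GEC : Prop := GFE Sp2 D2 xC

def M_GEC : Prop := S_VRING → S_TENH → S_EXSQ → S_GEC

/-- LIEC. The Lie algebra of `Sp(2)`. `→`: derivative of `(exp tX)ᵀ J exp tX = J` at `t = 0` (EXP). `←`: `Xᵀ = -J X J⁻¹`, so `exp (t X)ᵀ = J exp (-t X) J⁻¹`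
(`Matrix.exp_transpose`, `Matrix.exp_conj`). -/
def S_LIEC : Prop := ∀ X : Matrix (Fin 4) (Fin 4) ℂ, X ∈ lie Sp2 ↔ X ∈ su 4 ∧ Xᵀ * J4 + J4 * X = 0

def M_LIEC : Prop := S_EXP → S_LIEC

/-- FRC. The elements of the Lie algebra are the block matrices `(A, B; -Bᴴ, conj A)`, `A` skew-Hermitian, `B` symmetric (`2 × 2`). A frame: `(A, B) / √n` with
`(A, 0)`: `A = i E11`, `i E22` (`n = 12`), `E12 - E21`, `i (E12 + E21)` (`n = 24`); `(0, B)`: `B = E11`, `i E11`, `E22`, `i E22` (`n = 12`), `E12 + E21`, `i (E12 + E21)`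
(`n = 24`). -/
def S_FRC : Prop := ∃ X : Fin 10 → Matrix (Fin 4) (Fin 4) ℂ, FrameH Sp2 6 X

def M_FRC : Prop := S_LIEC → S_FRC

/-- CASC. For every complex matrix `Y` the matrix `(Y + J Yᵀ J) / 2` is in `sp(4, ℂ) = {Z | Zᵀ J + J Z = 0}`, which is `lie + i lie` (`Z = (Z - Zᴴ)/2 + i (Z + Zᴴ)/(2 i)`, LIEC; the trace is
`0`), so a complex combination of the `X a` (`span`), with the coefficients `-6 tr (X a Z)` (`orth`), and `tr (X a J Yᵀ J) = tr (X a Y)`. Hence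
`(Y + J Yᵀ J)/2 = -6 ∑ a, tr (X a Y) X a`; `Y` the matrix with the entry `1` at `(l, k)`: `tr (X a Y) = X a k l`,
`Y i j = δ i l δ k j`, `(J Yᵀ J) i j = J i k J l j = - J i k J j l`. -/
def S_CASC : Prop := ∀ X : Fin 10 → Matrix (Fin 4) (Fin 4) ℂ, FrameH Sp2 6 X → ∀ i j k l : Fin 4,
  ∑ a, X a i j * X a k l =
    -(1 / 12) * ((if i = l ∧ j = k then 1 else 0) - J4 i k * J4 j l)

def M_CASC : Prop := S_LIEC → S_CASC

/-- PWC. Let `v 0, …, v 3` be the eigenvalues (EIGV), `e k` their elementary symmetric functions: `e 4 = 1`,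
`e 3 = ∑ (v i)⁻¹ = conj (e 1) = e 1` (`tr g` is real: `conj g = J g J⁻¹`), `e 2 = (p 1² - p 2)/2`; Newton's identities `p 3 = e 1 p 2 - e 2 p 1 + 3 e 3`,
`p 4 = e 1 p 3 - e 2 p 2 + e 3 p 1 - 4 e 4`. -/
def S_PWC : Prop := ∀ g ∈ Sp2,
  (g.1 ^ 3).trace = g.1.trace * (g.1 ^ 2).trace - (g.1.trace ^ 2 - (g.1 ^ 2).trace) / 2 * g.1.trace +
    3 * g.1.trace ∧
  (g.1 ^ 4).trace = g.1.trace * (g.1 ^ 3).trace -
    (g.1.trace ^ 2 - (g.1 ^ 2).trace) / 2 * (g.1 ^ 2).trace + g.1.trace ^ 2 - 4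

def M_PWC : Prop := S_EIGV → S_PWC

/-- LAC. Let `p k = tr (g ^ k)`, `x = x 0 = p 1`, `y = x 1 = (p 1² - p 2)/2 - 1`. By CASC for matrices `A`, `B`:
`∑ a, tr (A X a) tr (B X a) = -(1/12) (tr (A B) - ∑ (A J Bᵀ) j l J j l)`; `g J gᵀ = J` (also `gᵀ J g = J`), so
`∑ a, tr (g X a)² = -(1/12) (p 2 - 4)`, `∑ a, tr (g X a) tr (g² X a) = -(1/12) (p 3 - p 1)`, `∑ a, tr (g² X a)² = -(1/12) (p 4 - 4)`,
`∑ a, X a X a = -(5/12) 1`, `∑ a, tr (g X a g X a) = -(1/12) (p 1² + 4)`. By TRH: `Δ x = -(5/12) x`, `Δ p 2 = -(10/12) p 2 - (2/12) (p 1² + 4)`,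
`Γ(x, x) = -(1/12) (p 2 - 4)`, `Γ(x, p 2) = -(2/12) (p 3 - p 1)`, `Γ(p 2, p 2) = -(4/12) (p 4 - 4)`; `y = (x² - p 2)/2 - 1`:
`Δ y = -(8/12) y`, `Γ(x, y) = x Γ(x, x) - Γ(x, p 2)/2`, `Γ(y, y) = x² Γ(x, x) - x Γ(x, p 2) + Γ(p 2, p 2)/4`; insert PWC. -/
def S_LAC : Prop := GFL Sp2 6 10 D2 M2 xC (1 / 12)

def M_LAC : Prop := S_CALH → S_TRH → S_CASC → S_PWC → S_LAC

/-! ### `G₂` -/

/-- the characters of dimension `7` and `14` -/
def xG : Fin 2 → G2 → ℂ := ![fun g => g.1.1.trace,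
  fun g => (g.1.1.trace ^ 2 - (g.1.1 * g.1.1).trace) / 2 - g.1.1.trace]

/-- GEG. Simple. The traces are real. `virt`: VRING, TENH, EXSQ. `tr = x 0`. -/
def S_GEG : Prop := ∀ ψ, GFE G2 (D3 ψ) xG

def M_GEG : Prop := S_VRING → S_TENH → S_EXSQ → S_GEG

/-- Kronecker's symbol -/
def dl (i j : Fin 7) : ℤ := if i = j then 1 else 0

/-- the dual four-form -/
def ps4 (i j k l : Fin 7) : ℤ := ∑ m, ph i j m * ph k l m - dl i k * dl j l + dl i l * dl j k

/-- identities for the three-form -/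
structure PHF : Prop where
  a1 : ∀ i j k, ph j i k = - ph i j k
  a2 : ∀ i j k, ph i k j = - ph i j k
  c6 : ∀ i l, ∑ j, ∑ k, ph i j k * ph l j k = 6 * dl i l
  b1 : ∀ i j k l, ps4 j i k l = - ps4 i j k l
  b2 : ∀ i j k l, ps4 i k j l = - ps4 i j k l
  b3 : ∀ i j k l, ps4 i j l k = - ps4 i j k l
  c24 : ∀ l m, ∑ i, ∑ j, ∑ k, ps4 i j k l * ps4 i j k m = 24 * dl l m
  six : ∀ i j k a b c, ∑ n, ps4 i j k n * ps4 a b c n =
    dl i a * (dl j b * dl k c - dl j c * dl k b) - dl i b * (dl j a * dl k c - dl j c * dl k a) +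
    dl i c * (dl j a * dl k b - dl j b * dl k a) - ph i j k * ph a b c +
    (dl i a * ps4 j k b c + dl i b * ps4 j k c a + dl i c * ps4 j k a b) +
    (dl j a * ps4 k i b c + dl j b * ps4 k i c a + dl j c * ps4 k i a b) +
    (dl k a * ps4 i j b c + dl k b * ps4 i j c a + dl k c * ps4 i j a b)

/-- PHI. Finite checks. `six`: both sides are antisymmetric in `(i, j, k)` and in `(a, b, c)` (by `a1`, `a2`, `b1`, `b2`, `b3`), so `i < j < k`, `a < b < c` suffice (`35²` cases;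
all is invariant under the translations `i ↦ i + 1` of all indices, and the nonzero values of `ps4` are `± 1`; it may help to use `decide +kernel` on a
fast version of `ps4`, for instance with values from a list, first shown to be equal to `ps4`). -/
def S_PHI : Prop := PHF

/-- contraction of the four-form with two matrices -/
def nn (A B : Matrix (Fin 7) (Fin 7) ℂ) : ℂ := ∑ i, ∑ j, ∑ a, ∑ b, (ps4 i j a b : ℂ) * A i a * B j b

/-- E3G. Let `g ∈ G₂`, `P k = tr (g ^ k)`; `g` is real, `g gᵀ = 1`. Invariance: `∑ a b c, ph a b c g i a g j b g k c = ph i j k`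
(so `∑ a b, ph a b c g i a g j b = ∑ m, ph i j m g m c`, `∑ a, ph a b c g i a = ∑ m n, ph i m n g m b g n c`) and the same for `ps4`:
`∑ a b c, ps4 a b c n g i a g j b g k c = ∑ m, ps4 i j k m g m n`.
(1) `∑ ph i j m ph a b m g i a g j b = 6 P 1` by invariance and `c6`, and it is `P 1² - P 2 + nn g g` by the definition of `ps4`.
(2) `∑ ph i j m ph a b m g i a (g²) j b`: by the definition of `ps4` it is `P 1 P 2 - P 3 + nn g (g²)`; by invariance (`∑ a, ph a b m g i a = ∑ n s, ph i n s g n b g s m`) it is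
`∑ ph i j m ph i n s (g² gᵀ) j n g s m`-like, precisely `∑ ph i j m ph i n s g j n g s m = P 1² - 7 - nn g g`
(for the last equality: `∑ i, ph i j m ph i n s = dl j n dl m s - dl j s dl m n + ps4 j m n s`, and `∑ ps4 j m n s g j n g s m = - nn g g` because
`ps4 j m n s = ps4 j s ..` antisymmetry; note that `g s m`, not `g m s`, occurs).
(3) Multiply `six` by `g i a g j b g k c` and sum: left side `24 P 1` (invariance, `c24`); the determinant gives `P 1³ - 3 P 1 P 2 + 2 P 3`; `∑ ph ph g g g = 42`; the nine terms give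
`3 P 1 nn g g - 6 nn (g²) g`. With (1), (2) this is (3): `24 P 1 = P 1³ - 3 P 1 P 2 + 2 P 3 - 42 + 3 P 1 N - 6 (P 1² - 7 - N - P 1 P 2 + P 3)`,
`N = 6 P 1 - P 1² + P 2`. -/
def S_E3G : Prop := ∀ g ∈ G2,
  nn g.1 g.1 = 6 * g.1.trace - g.1.trace ^ 2 + (g.1 ^ 2).trace ∧
  nn g.1 (g.1 ^ 2) = g.1.trace ^ 2 - 7 - nn g.1 g.1 - g.1.trace * (g.1 ^ 2).trace + (g.1 ^ 3).trace ∧
  2 * (g.1 ^ 3).trace = -g.1.trace ^ 3 + 3 * g.1.trace * (g.1 ^ 2).trace + 3 * g.1.trace ^ 2 +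
    6 * g.1.trace + 3 * (g.1 ^ 2).trace

def M_E3G : Prop := S_PHI → S_E3G

/-- PWG. Let `v 0, …, v 6` be the eigenvalues (EIGV), `e k` their elementary symmetric functions. They are real (coefficients of the characteristic
polynomial of a real matrix), and `e 4 (v) = e 3 (v⁻¹) ∏ v = e 3 (conj v) = e 3 (v)`. Newton's identities. -/
def S_PWG : Prop := ∀ g : SU 7, (∀ i j, conj (g.1 i j) = g.1 i j) →
  (g.1 ^ 4).trace = g.1.trace * (g.1 ^ 3).trace -
    (g.1.trace ^ 2 - (g.1 ^ 2).trace) / 2 * (g.1 ^ 2).trace +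
    (g.1.trace ^ 3 - 3 * g.1.trace * (g.1 ^ 2).trace + 2 * (g.1 ^ 3).trace) / 6 * (g.1.trace - 4)

def M_PWG : Prop := S_EIGV → S_PWG

/-- LIEG. The Lie algebra of `G₂`. `→`: derivative at `t = 0` of the invariance `∑ a b c, ph a b c g i a g j b g k c = ph i j k`, `g = exp (t X)`: for all `i j k`
`∑ m, (ph m j k X i m + ph i m k X j m + ph i j m X k m) = 0`; each of the sums has at most one nonzero term if `i, j, k` are different and `ph i j k = 0`, and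
a suitable choice of `(i, j, k)` gives (up to sign and a factor `2`) the seven equations. `←`: `X` is a real combination of 14 explicit matrices (see FRG), and for those the derivation
property holds (finite check); so `exp (t X)` preserves the form: the function `t ↦ Phi (exp (tX) x) (exp (tX) y) (exp (tX) z)` has derivative `0`. -/
def S_LIEG : Prop := ∀ X : Matrix (Fin 7) (Fin 7) ℂ, X ∈ lie G2 ↔
  (∀ i j, conj (X i j) = X i j) ∧ Xᵀ = -X ∧ ∀ i, ∑ j, ∑ k, (ph i j k : ℂ) * X j k = 0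

def M_LIEG : Prop := S_EXP → S_LIEG

/-- FRG. Let `E j k` be the matrix with the entry `1` at `(j, k)` and `-1` at `(k, j)`. For `i : Fin 7` (indices modulo `7`) let `A = E (i+1) (i+3)`, `B = E (i+2) (i+6)`,
`C = E (i+4) (i+5)`; these `21` matrices are a basis of `so(7)`, the equation `i` of LIEG involves only the coefficients of these three: their sum is `0`. A frame:
`(A - B) / 4` and `(A + B - 2 C) / √48`. -/
def S_FRG : Prop := ∃ X : Fin 14 → Matrix (Fin 7) (Fin 7) ℂ, FrameH G2 4 X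

def M_FRG : Prop := S_LIEG → S_FRG

/-- CASG. For every complex matrix `Y` the matrix `Z = (Y - Yᵀ)/2 - (1/6) ∑ m, (∑ k l, ph k l m Y k l) (ph i j m)_(ij)` is antisymmetric and satisfies the equations of LIEG (by `c6`),
so its real and imaginary part are in `lie G2`, and `Z = ∑ a, z a X a` with complex `z a`, `z a = -4 tr (X a Z) = -4 tr (X a Y)`-like: `tr (X a Z) = ∑ X a j i Z i j`, where
`∑ X a j i ph i j m = 0` and `∑ X a j i (Y i j - Y j i)/2 = tr (X a Y)`. Take for `Y` the matrix with the entry `1` at `(k, l)`: `tr (X a Y) = X a l k = - X a k l`, so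
`Z i j = 4 ∑ a, X a k l X a i j`. -/
def S_CASG : Prop := ∀ X : Fin 14 → Matrix (Fin 7) (Fin 7) ℂ, FrameH G2 4 X → ∀ i j k l : Fin 7,
  ∑ a, X a i j * X a k l = (1 / 4) * ((1 / 2) * ((dl i k * dl j l : ℤ) - (dl i l * dl j k : ℤ)) -
    (1 / 6) * ((∑ m, ph i j m * ph k l m : ℤ) : ℂ))

def M_CASG : Prop := S_PHI → S_LIEG → S_CASG

/-- LAG. Let `P k = tr (g ^ k)`, `x = x 0 = P 1`, `y = x 1 = (P 1² - P 2)/2 - P 1`, `N = nn g g`. By CASG (and the definition of `ps4`) for matrices `A`, `B`: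
`∑ a, tr (A X a) tr (B X a) = (1/12) (tr (A Bᵀ) - tr (A B)) + (1/24) nn A B`; `∑ a, X a X a = -(1/2) 1`;
`∑ a, tr (g X a g X a) = (1/12) (7 - P 1²) - (1/24) N`. `g² ∈ G₂`, so by E3G (1) for `g²`: `nn (g²) (g²) = 6 P 2 - P 2² + P 4`. By TRH: `Δ x = -(1/2) x`,
`Δ P 2 = - P 2 + 2 ((1/12) (7 - P 1²) - (1/24) N)`, `Γ(x, x) = (1/12) (7 - P 2) + (1/24) N`, `Γ(x, P 2) = 2 ((1/12) (P 1 - P 3) + (1/24) nn g (g²))`,
`Γ(P 2, P 2) = 4 ((1/12) (7 - P 4) + (1/24) nn (g²) (g²))`; `y = (x² - P 2)/2 - x`: `Δ y = - y`, `Γ(x, y) = (x - 1) Γ(x, x) - Γ(x, P 2)/2`,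
`Γ(y, y) = (x - 1)² Γ(x, x) - (x - 1) Γ(x, P 2) + Γ(P 2, P 2)/4`; insert E3G and PWG (`P 2 = x² - 2 x - 2 y`). -/
def S_LAG : Prop := ∀ ψ, GFL G2 4 14 (D3 ψ) M3 xG (1 / 12)

def M_LAG : Prop := S_CALH → S_TRH → S_PHI → S_CASG → S_E3G → S_PWG → S_LAG

end

end STZ
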