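import Pool.Agent.STZ.StmtsN

/-! Module TRH: the derivatives of the traces of the first two powers. -/

namespace STZ

open MeasureTheory Matrix

open scoped ComplexConjugate Matrix Real

noncomputable section

namespace TRH

variable {N : ℕ} {H : Subgroup (SU N)}

theorem sum2 (hC : CALFH H) {ι : Type} (s : Finset ι) (F : ι → H → ℂ) (hF : ∀ i, C2H (F i)) :
    C2H (fun g => ∑ i ∈ s, F i g) ∧ ∀ X ∈ lie H, ∀ g,
      dH X (fun g => ∑ i ∈ s, F i g) g = ∑ i ∈ s, dH X (F i) g := by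
  classical
  induction s using Finset.induction_on with
  | empty =>
    simp only [Finset.sum_empty]
    exact ⟨hC.const 0, fun X _ g => hC.dconst X 0 g⟩
  | insert a s ha ih =>
    simp only [Finset.sum_insert ha]
    refine ⟨hC.add _ _ (hF a) ih.1, fun X hX g => ?_⟩
    rw [hC.dadd X hX _ _ (hF a).1 ih.1.1, ih.2 X hX g]

theorem mulc (hC : CALFH H) (f : H → ℂ) (hf : C2H f) (c : ℂ) :
    C2H (fun g => f g * c) ∧ ∀ X ∈ lie H, ∀ g, dH X (fun g => f g * c) g = dH X f g * c := by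
  refine ⟨hC.mul f (fun _ => c) hf (hC.const c), fun X hX g => ?_⟩
  rw [hC.dmul X hX f (fun _ => c) hf.1 (hC.const c).1, hC.dconst, mul_zero, add_zero]

theorem lin (hC : CALFH H) (M : Matrix (Fin N) (Fin N) ℂ) (i j : Fin N) :
    C2H (fun g : H => (g.1.1 * M) i j) ∧ ∀ X ∈ lie H, ∀ g : H,
      dH X (fun g : H => (g.1.1 * M) i j) g = (g.1.1 * X * M) i j := by
  have h1 := fun k => mulc hC _ (hC.entry i k) (M k j)
  have h2 := sum2 hC Finset.univ (fun k (g : H) => g.1.1 i k * M k j) fun k => (h1 k).1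
  have h3 : (fun g : H => (g.1.1 * M) i j) = fun g : H => ∑ k, g.1.1 i k * M k j := by
    funext g
    rw [Matrix.mul_apply]
  rw [h3]
  refine ⟨h2.1, fun X hX g => ?_⟩
  rw [h2.2 X hX g, Matrix.mul_apply]
  refine Finset.sum_congr rfl fun k _ => ?_
  rw [(h1 k).2 X hX g, hC.dentry X hX]

theorem tr1 (hC : CALFH H) (M : Matrix (Fin N) (Fin N) ℂ) :
    C2H (fun g : H => (g.1.1 * M).trace) ∧ ∀ X ∈ lie H, ∀ g : H,
      dH X (fun g : H => (g.1.1 * M).trace) g = (g.1.1 * X * M).trace := by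
  have h2 := sum2 hC Finset.univ (fun k (g : H) => (g.1.1 * M) k k) fun k => (lin hC M k k).1
  refine ⟨h2.1, fun X hX g => ?_⟩
  refine (h2.2 X hX g).trans ?_
  refine Finset.sum_congr rfl fun k _ => ?_
  rw [(lin hC M k k).2 X hX g]
  rfl

theorem tr2 (hC : CALFH H) (A B : Matrix (Fin N) (Fin N) ℂ) :
    C2H (fun g : H => (g.1.1 * A * (g.1.1 * B)).trace) ∧ ∀ X ∈ lie H, ∀ g : H,
      dH X (fun g : H => (g.1.1 * A * (g.1.1 * B)).trace) g =
        (g.1.1 * X * A * (g.1.1 * B)).trace + (g.1.1 * A * (g.1.1 * X * B)).trace := by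
  have h1 : ∀ p : Fin N × Fin N, C2H (fun g : H => (g.1.1 * A) p.1 p.2 * (g.1.1 * B) p.2 p.1) :=
    fun p => hC.mul _ _ (lin hC A p.1 p.2).1 (lin hC B p.2 p.1).1
  have h2 := sum2 hC Finset.univ
    (fun (p : Fin N × Fin N) (g : H) => (g.1.1 * A) p.1 p.2 * (g.1.1 * B) p.2 p.1) h1
  have ht : ∀ P Q : Matrix (Fin N) (Fin N) ℂ, (P * Q).trace =
      ∑ p : Fin N × Fin N, P p.1 p.2 * Q p.2 p.1 := by
    intro P Q
    rw [Fintype.sum_prod_type]
    rfl
  have h3 : (fun g : H => (g.1.1 * A * (g.1.1 * B)).trace) =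
      fun g : H => ∑ p : Fin N × Fin N, (g.1.1 * A) p.1 p.2 * (g.1.1 * B) p.2 p.1 := by
    funext g
    exact ht _ _
  rw [h3]
  refine ⟨h2.1, fun X hX g => ?_⟩
  rw [h2.2 X hX g, ht, ht, ← Finset.sum_add_distrib]
  refine Finset.sum_congr rfl fun p _ => ?_
  rw [hC.dmul X hX _ _ (lin hC A p.1 p.2).1.1 (lin hC B p.2 p.1).1.1,
    (lin hC A p.1 p.2).2 X hX g, (lin hC B p.2 p.1).2 X hX g]

end TRH

theorem t_TRH : M_TRH := by
  intro hCAL N H
  have hC := hCAL N H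
  have e1 : (fun g : H => g.1.1.trace) = fun g : H => (g.1.1 * 1).trace := by
    funext g
    rw [mul_one]
  have e2 : (fun g : H => (g.1.1 * g.1.1).trace) =
      fun g : H => (g.1.1 * 1 * (g.1.1 * 1)).trace := by
    funext g
    rw [mul_one]
  have a1 := TRH.tr1 hC (1 : Matrix (Fin N) (Fin N) ℂ)
  have a2 := TRH.tr2 hC (1 : Matrix (Fin N) (Fin N) ℂ) 1
  have d1 : ∀ X ∈ lie H, dH X (fun g : H => g.1.1.trace) = fun g : H => (g.1.1 * X).trace := by
    intro X hX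
    funext g
    rw [e1, a1.2 X hX g, mul_one]
  have d2 : ∀ X ∈ lie H, dH X (fun g : H => (g.1.1 * g.1.1).trace) =
      fun g : H => (g.1.1 * 1 * (g.1.1 * X)).trace + (g.1.1 * 1 * (g.1.1 * X)).trace := by
    intro X hX
    funext g
    rw [e2, a2.2 X hX g]
    simp only [mul_one]
    rw [Matrix.trace_mul_comm (g.1.1 * X) g.1.1]
  refine ⟨?_, ?_, fun X hX g => ⟨?_, ?_, ?_, ?_⟩⟩
  · rw [e1]
    exact a1.1
  · rw [e2]
    exact a2.1
  · rw [d1 X hX]
  · rw [d2 X hX]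
    simp only [mul_one]
    rw [← Matrix.mul_assoc]
    ring
  · rw [d1 X hX, (TRH.tr1 hC X).2 X hX g]
  · have b := TRH.tr2 hC (1 : Matrix (Fin N) (Fin N) ℂ) X
    rw [d2 X hX, hC.dadd X hX _ _ b.1.1 b.1.1, b.2 X hX g]
    simp only [mul_one, ← Matrix.mul_assoc]
    ring

end

end STZ
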