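import Pool.Agent.STZ.StmtsS

/-!
# Module SD3: the data of the group `SU(3)`
-/

namespace STZ

open MeasureTheory Matrix

open scoped ComplexConjugate Matrix Real

noncomputable section

namespace SD3

/-- the dimension -/
def dd (a : ℕ × ℕ) : ℝ := ((a.1 : ℝ) + 1) * (a.2 + 1) * ((a.1 + 1) + (a.2 + 1)) / 2

theorem dd_pos (a : ℕ × ℕ) : 0 < dd a := by
  unfold dd
  positivity

theorem c3_one (hA : ALTF) (a : ℕ × ℕ) : c3 a 1 = (dd a : ℂ) := by
  have h1 : tg 1 = 3 := by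
    rw [tg, coe_one, Matrix.trace_one, Fintype.card_fin]
    norm_num
  have h2 : c3 a 1 = ps 3 3 ((a.1 + 1 : ℕ) : ℤ) ((a.2 + 1 : ℕ) : ℤ) := by
    rw [c3, px, h1]
    have h3 : (conj (3 : ℂ)) = 3 := Complex.conj_ofNat 3
    rw [h3]
    push_cast
    rfl
  rw [h2, hA.dim, dd]
  push_cast
  ring

theorem c3_conj (hA : ALTF) (a : ℕ × ℕ) (g : SU 3) : conj (c3 a g) = c3 (a.2, a.1) g := by
  rw [c3, c3, px, px, hA.cj, Complex.conj_conj]
  have h1 := hA.dual (tg g) (conj (tg g)) (a.1 + 1) (a.2 + 1)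
  push_cast at h1
  exact h1

theorem c3_cont {μ : Measure (SU 3)} (hI : IrrFam c3) (a : ℕ × ℕ) : Continuous (c3 a) := by
  obtain ⟨d, σ, -, hσ⟩ := hI.irr a
  have h : c3 a = fun g => (σ.ρ g).trace := by
    funext g
    exact (hσ g).symm
  rw [h]
  exact σ.cont.matrix_trace

theorem coef {μ : Measure (SU 3)} [IsProbabilityMeasure μ] (hcont : ∀ a, Continuous (c3 a))
    (hort : ∀ a b : ℕ × ℕ, ∫ g, c3 a g * conj (c3 b g) ∂μ = if a = b then 1 else 0)
    (a b : ℕ × ℕ) (T : Finset (ℕ × ℕ)) (n : ℕ × ℕ → ℤ)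
    (h : ∀ g, c3 a g * c3 b g = ∑ ν ∈ T, (n ν : ℂ) * c3 ν g) (κ : ℕ × ℕ) :
    ∫ g, c3 a g * c3 b g * conj (c3 κ g) ∂μ = if κ ∈ T then (n κ : ℂ) else 0 := by
  have h1 : ∀ g, c3 a g * c3 b g * conj (c3 κ g) =
      ∑ ν ∈ T, (n ν : ℂ) * (c3 ν g * conj (c3 κ g)) := by
    intro g
    rw [h, Finset.sum_mul]
    refine Finset.sum_congr rfl fun ν _ => ?_
    ring
  simp only [h1]
  rw [integral_finsetSum]
  · simp only [integral_const_mul, hort]
    rw [Finset.sum_eq_ite κ]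
    · simp
    · intro ν _ hν
      rw [if_neg hν, mul_zero]
  · intro ν _
    have hc : Continuous fun g => (n ν : ℂ) * (c3 ν g * conj (c3 κ g)) :=
      continuous_const.mul ((hcont ν).mul (Complex.continuous_conj.comp (hcont κ)))
    exact hc.integrable_of_hasCompactSupport (HasCompactSupport.of_compactSpace _)

theorem sz_w3 (a : ℕ × ℕ) : sz (w3 a) = (a.1 : ℝ) + a.2 + 3 := by
  have h1 : (0 : ℝ) ≤ (a.1 : ℝ) + 1 := by positivity
  have h2 : (0 : ℝ) ≤ (a.2 : ℝ) + 1 := by positivity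
  rw [sz, Fin.sum_univ_two]
  simp only [w3, Matrix.cons_val_zero, Matrix.cons_val_one]
  push_cast
  rw [abs_of_nonneg h1, abs_of_nonneg h2]
  ring

theorem dd_le (a : ℕ × ℕ) : dd a ≤ sz (w3 a) ^ 3 := by
  rw [sz_w3, dd]
  have h1 : (0 : ℝ) ≤ (a.1 : ℝ) := Nat.cast_nonneg _
  have h2 : (0 : ℝ) ≤ (a.2 : ℝ) := Nat.cast_nonneg _
  set x : ℝ := (a.1 : ℝ)
  set y : ℝ := (a.2 : ℝ)
  have h3 : (x + 1) * (y + 1) * ((x + 1) + (y + 1)) / 2 ≤ (x + y + 3) * (x + y + 3) * (x + y + 3) := by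
    have e1 : (x + 1) * (y + 1) ≤ (x + y + 3) * (x + y + 3) :=
      mul_le_mul (by linarith) (by linarith) (by linarith) (by linarith)
    have e2 : ((x + 1) + (y + 1)) / 2 ≤ x + y + 3 := by linarith
    calc (x + 1) * (y + 1) * ((x + 1) + (y + 1)) / 2
        = (x + 1) * (y + 1) * (((x + 1) + (y + 1)) / 2) := by ring
      _ ≤ (x + y + 3) * (x + y + 3) * (x + y + 3) :=
        mul_le_mul e1 e2 (by positivity) (by positivity)
  calc _ ≤ _ := h3
    _ = _ := by ring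

theorem six (x : ℝ) : x ^ (6 : ℝ) = x ^ (6 : ℕ) := by
  exact_mod_cast Real.rpow_natCast x 6

/-- `6 (min ν + 1) / d_ν ≤ 54 / sz²` -/
theorem ratio (ν : ℕ × ℕ) :
    (6 * ((min ν.1 ν.2 : ℕ) + 1 : ℝ)) / dd ν ≤ 54 / sz (w3 ν) ^ 2 := by
  rw [sz_w3, div_le_div_iff₀ (dd_pos ν) (by positivity), dd]
  have h1 : (0 : ℝ) ≤ (ν.1 : ℝ) := Nat.cast_nonneg _
  have h2 : (0 : ℝ) ≤ (ν.2 : ℝ) := Nat.cast_nonneg _
  rw [Nat.cast_min]
  set x : ℝ := (ν.1 : ℝ)
  set y : ℝ := (ν.2 : ℝ)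
  have key : ∀ x y : ℝ, 0 ≤ x → x ≤ y →
      6 * (x + 1) * (x + y + 3) ^ 2 ≤ 54 * ((x + 1) * (y + 1) * ((x + 1) + (y + 1)) / 2) := by
    intro x y hx hxy
    have e1 : (x + y + 3) ^ 2 ≤ 9 / 4 * ((x + 1) + (y + 1)) ^ 2 := by nlinarith
    have e2 : ((x + 1) + (y + 1)) ^ 2 ≤ 2 * (y + 1) * ((x + 1) + (y + 1)) := by nlinarith
    have e3 : 6 * (x + 1) * (x + y + 3) ^ 2 ≤
        6 * (x + 1) * (9 / 4 * (2 * (y + 1) * ((x + 1) + (y + 1)))) :=
      mul_le_mul_of_nonneg_left (by linarith) (by linarith)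
    calc _ ≤ _ := e3
      _ = _ := by ring
  rcases le_total x y with h | h
  · rw [min_eq_left h]
    exact key x y h1 h
  · rw [min_eq_right h]
    have := key y x h2 h
    calc 6 * (y + 1) * (x + y + 3) ^ 2 = 6 * (y + 1) * (y + x + 3) ^ 2 := by ring
      _ ≤ _ := this
      _ = _ := by ring

end SD3

open SD3 in
theorem t_SD3 : M_SD3 := by
  intro hKERI hALT hORT hIRR hCG μ _ _
  have hA : ALTF := hALT
  have hI := hIRR μ
  have hker := (hKERI (SU 3) μ (ℕ × ℕ) c3 hI).1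
  have hort := hORT μ
  have hcont : ∀ a, Continuous (c3 a) := fun a => c3_cont (μ := μ) hI a
  have hone : ∀ a, c3 a 1 = (dd a : ℂ) := c3_one hA
  have hprod : ∀ (a b : ℕ × ℕ) (T : Finset (ℕ × ℕ)) (n : ℕ × ℕ → ℤ),
      (∀ x y : ℂ, ps x y (a.1 + 1) (a.2 + 1) * ps x y (b.1 + 1) (b.2 + 1) =
        ∑ ν ∈ T, (n ν : ℂ) * ps x y (ν.1 + 1) (ν.2 + 1)) →
      ∀ g, c3 a g * c3 b g = ∑ ν ∈ T, (n ν : ℂ) * c3 ν g :=
    fun a b T n h g => h (tg g) (conj (tg g))
  refine ⟨54, ?_⟩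
  refine
    { ker := hker
      inj := ?_
      one := by norm_num
      enn := by norm_num
      diag := ?_
      prod := ?_ }
  · intro a b hab
    have h0 := congrFun hab 0
    have h1 := congrFun hab 1
    simp only [w3, Matrix.cons_val_zero, Matrix.cons_val_one] at h0 h1
    exact Prod.ext (by omega) (by omega)
  · intro a x
    have h1 : KK c3 a x x = ((dd a * dd a : ℝ) : ℂ) := by
      rw [KK, mul_inv_cancel, hone]
      push_cast
      rfl
    have hd := (dd_pos a).le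
    have hs : 0 ≤ sz (w3 a) := by
      rw [sz_w3]
      positivity
    rw [h1, Complex.norm_real, Real.norm_of_nonneg (mul_nonneg hd hd), six]
    have h2 : dd a * dd a ≤ sz (w3 a) ^ 3 * sz (w3 a) ^ 3 :=
      mul_le_mul (dd_le a) (dd_le a) hd (pow_nonneg hs _)
    have h3 : sz (w3 a) ^ 3 * sz (w3 a) ^ 3 = sz (w3 a) ^ 6 := by ring
    have h4 : 0 ≤ sz (w3 a) ^ 6 := pow_nonneg hs _
    linarith
  · intro a b
    obtain ⟨T0, n, hn1, hn2⟩ := hCG a.1 a.2 b.1 b.2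
    have hn3 := hprod a b T0 n hn1
    refine ⟨T0.filter (fun ν => n ν ≠ 0), fun ν => ((dd a * dd b * n ν / dd ν : ℝ) : ℂ), ?_, ?_⟩
    · intro x y
      have h1 : ∑ c ∈ T0.filter (fun ν => n ν ≠ 0),
          ((dd a * dd b * n c / dd c : ℝ) : ℂ) * KK c3 c x y =
          ∑ c ∈ T0, ((dd a * dd b * n c / dd c : ℝ) : ℂ) * KK c3 c x y := by
        apply Finset.sum_filter_of_ne
        intro c _ hc h0
        apply hc
        rw [h0, Int.cast_zero, mul_zero, zero_div, Complex.ofReal_zero, zero_mul]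
      rw [h1]
      have h2 : KK c3 a x y * KK c3 b x y =
          (dd a : ℂ) * (dd b : ℂ) * (c3 a (x * y⁻¹) * c3 b (x * y⁻¹)) := by
        rw [KK, KK, hone, hone]
        ring
      rw [h2, hn3, Finset.mul_sum]
      refine Finset.sum_congr rfl fun c _ => ?_
      rw [KK, hone]
      have h3 : (dd c : ℂ) ≠ 0 := by
        exact_mod_cast (dd_pos c).ne'
      push_cast
      field_simp
    · intro ν hν
      obtain ⟨hνT, hν0⟩ := Finset.mem_filter.1 hν
      -- the other description of the coefficient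
      obtain ⟨T', n', hm1, hm2⟩ := hCG ν.2 ν.1 b.1 b.2
      have hm3 := hprod (ν.2, ν.1) b T' n' hm1
      have e1 := coef hcont hort a b T0 n hn3 ν
      rw [if_pos hνT] at e1
      have e2 := coef hcont hort (ν.2, ν.1) b T' n' hm3 (a.2, a.1)
      have e3 : ∀ g, c3 a g * c3 b g * conj (c3 ν g) =
          c3 (ν.2, ν.1) g * c3 b g * conj (c3 (a.2, a.1) g) := by
        intro g
        rw [c3_conj hA ν g, c3_conj hA (a.2, a.1) g]
        ring
      simp only [e3] at e1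
      rw [e1] at e2
      have hmem : (a.2, a.1) ∈ T' := by
        by_contra hcon
        rw [if_neg hcon] at e2
        exact hν0 (by exact_mod_cast e2)
      rw [if_pos hmem] at e2
      have e4 : n ν = n' (a.2, a.1) := by exact_mod_cast e2
      obtain ⟨b1, b2, b3⟩ := hm2 (a.2, a.1) hmem
      rw [← e4] at b1
      obtain ⟨-, c2, c3'⟩ := hn2 ν hνT
      have hsν : sz (w3 ν) = (ν.1 : ℝ) + ν.2 + 3 := sz_w3 ν
      have hsa : sz (w3 a) = (a.1 : ℝ) + a.2 + 3 := sz_w3 a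
      have hsb : sz (w3 b) = (b.1 : ℝ) + b.2 + 3 := sz_w3 b
      have hν1 : (0 : ℝ) ≤ (ν.1 : ℝ) := Nat.cast_nonneg _
      have hν2 : (0 : ℝ) ≤ (ν.2 : ℝ) := Nat.cast_nonneg _
      have ha1 : (0 : ℝ) ≤ (a.1 : ℝ) := Nat.cast_nonneg _
      have ha2 : (0 : ℝ) ≤ (a.2 : ℝ) := Nat.cast_nonneg _
      have hb1 : (0 : ℝ) ≤ (b.1 : ℝ) := Nat.cast_nonneg _
      have hb2 : (0 : ℝ) ≤ (b.2 : ℝ) := Nat.cast_nonneg _
      set m : ℝ := max (sz (w3 a)) (sz (w3 b)) with hm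
      have hma : sz (w3 a) ≤ m := le_max_left _ _
      have hmb : sz (w3 b) ≤ m := le_max_right _ _
      have hm0 : 0 ≤ m := by linarith
      refine ⟨?_, ?_, ?_⟩
      · have hda := dd_pos a
        have hdb := dd_pos b
        have hdν := dd_pos ν
        rw [Complex.norm_real, Real.norm_eq_abs, abs_div, abs_mul, abs_of_pos (mul_pos hda hdb),
          abs_of_pos hdν, six]
        have f1 : dd a ≤ m ^ 3 := (dd_le a).trans (pow_le_pow_left₀ (by linarith) hma 3)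
        have f2 : dd b ≤ m ^ 3 := (dd_le b).trans (pow_le_pow_left₀ (by linarith) hmb 3)
        have f3 : dd a * dd b ≤ m ^ 6 := by
          calc dd a * dd b ≤ m ^ 3 * m ^ 3 := mul_le_mul f1 f2 hdb.le (pow_nonneg hm0 _)
            _ = m ^ 6 := by ring
        have f4 : |(n ν : ℝ)| ≤ 6 * ((min ν.1 ν.2 : ℕ) + 1 : ℝ) := by
          have : ((|n ν| : ℤ) : ℝ) ≤ ((6 * (min (ν.2 : ℤ) (ν.1 : ℤ) + 1) : ℤ) : ℝ) := by
            exact_mod_cast b1
          rw [Int.cast_abs] at this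
          refine this.trans (le_of_eq ?_)
          rw [min_comm]
          push_cast
          rfl
        have f5 : |(n ν : ℝ)| / dd ν ≤ 54 / sz (w3 ν) ^ 2 :=
          (div_le_div_of_nonneg_right f4 hdν.le).trans (ratio ν)
        calc dd a * dd b * |(n ν : ℝ)| / dd ν = (dd a * dd b) * (|(n ν : ℝ)| / dd ν) := by ring
          _ ≤ m ^ 6 * (54 / sz (w3 ν) ^ 2) :=
            mul_le_mul f3 f5 (div_nonneg (abs_nonneg _) hdν.le) (pow_nonneg hm0 _)
          _ = 54 * m ^ 6 / sz (w3 ν) ^ 2 := by ring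
      · intro i
        have g2 : |((a.2 : ℝ) - b.1)| ≤ 2 * (ν.2 + ν.1) := by exact_mod_cast b2
        have g3 : |((a.1 : ℝ) - b.2)| ≤ 2 * (ν.2 + ν.1) := by exact_mod_cast b3
        fin_cases i
        · have e : (((w3 a 0 - w3 b ((Equiv.swap 0 1) 0) : ℤ)) : ℝ) = (a.1 : ℝ) - b.2 := by
            rw [Equiv.swap_apply_left]
            simp [w3]
          change |(((w3 a 0 - w3 b ((Equiv.swap 0 1) 0) : ℤ)) : ℝ)| ≤ _
          rw [e, hsν]
          linarith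
        · have e : (((w3 a 1 - w3 b ((Equiv.swap 0 1) 1) : ℤ)) : ℝ) = (a.2 : ℝ) - b.1 := by
            rw [Equiv.swap_apply_right]
            simp [w3]
          change |(((w3 a 1 - w3 b ((Equiv.swap 0 1) 1) : ℤ)) : ℝ)| ≤ _
          rw [e, hsν]
          linarith
      · have g2 : |((ν.1 : ℝ) - b.1)| ≤ 2 * (a.1 + a.2) := by exact_mod_cast c2
        have g3 : |((ν.2 : ℝ) - b.2)| ≤ 2 * (a.1 + a.2) := by exact_mod_cast c3'
        have g4 := (abs_le.1 g2).2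
        have g5 := (abs_le.1 g3).2
        rw [hsν]
        rw [hsa] at hma
        rw [hsb] at hmb
        linarith

end

end STZ
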