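import Pool.Agent.STZ.StmtsA

/-!
# Module STAR: the key inequality
-/

namespace STZ

open MeasureTheory Matrix

open scoped ComplexConjugate Matrix Real

noncomputable section

namespace STAR

/-- continuous functions on a compact space are integrable -/
theorem integ {X E : Type} [TopologicalSpace X] [CompactSpace X] [MeasurableSpace X]
    [OpensMeasurableSpace X] [NormedAddCommGroup E] [SecondCountableTopologyEither X E]
    (ν : Measure X) [IsFiniteMeasure ν] {f : X → E}
    (hf : Continuous f) : Integrable f ν :=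
  hf.integrable_of_hasCompactSupport (HasCompactSupport.of_compactSpace f)

/-- the Cauchy-Schwarz inequality -/
theorem cs {X : Type} [TopologicalSpace X] [CompactSpace X] [MeasurableSpace X]
    [OpensMeasurableSpace X] (ν : Measure X) [IsFiniteMeasure ν] {f g : X → ℂ}
    (hf : Continuous f) (hg : Continuous g) :
    ‖∫ x, f x * g x ∂ν‖ ^ 2 ≤ (∫ x, ‖f x‖ ^ 2 ∂ν) * ∫ x, ‖g x‖ ^ 2 ∂ν := by
  have h1 : ‖∫ x, f x * g x ∂ν‖ ≤ ∫ x, ‖f x‖ * ‖g x‖ ∂ν := by
    refine (norm_integral_le_integral_norm _).trans (le_of_eq ?_)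
    simp only [norm_mul]
  have hB : 0 ≤ ∫ x, ‖f x‖ * ‖g x‖ ∂ν :=
    integral_nonneg fun x => mul_nonneg (norm_nonneg _) (norm_nonneg _)
  have hq : ∀ t : ℝ, 0 ≤ (∫ x, ‖f x‖ ^ 2 ∂ν) * (t * t) + (2 * ∫ x, ‖f x‖ * ‖g x‖ ∂ν) * t +
      ∫ x, ‖g x‖ ^ 2 ∂ν := by
    intro t
    have h2 : 0 ≤ ∫ x, (‖f x‖ * t + ‖g x‖) ^ 2 ∂ν := integral_nonneg fun x => sq_nonneg _
    have e : ∫ x, (‖f x‖ * t + ‖g x‖) ^ 2 ∂ν = (∫ x, ‖f x‖ ^ 2 ∂ν) * (t * t) +
        (2 * ∫ x, ‖f x‖ * ‖g x‖ ∂ν) * t + ∫ x, ‖g x‖ ^ 2 ∂ν := by
      have e1 : (fun x => (‖f x‖ * t + ‖g x‖) ^ 2) = fun x =>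
          (‖f x‖ ^ 2 * (t * t) + (‖f x‖ * ‖g x‖) * (2 * t)) + ‖g x‖ ^ 2 := by
        funext x; ring
      rw [e1, integral_add, integral_add, integral_mul_const, integral_mul_const]
      · ring
      · exact integ ν (by fun_prop)
      · exact integ ν (by fun_prop)
      · exact integ ν (by fun_prop)
      · exact integ ν (by fun_prop)
    rwa [e] at h2
  have h3 := discrim_le_zero hq
  rw [discrim] at h3
  have h4 : ‖∫ x, f x * g x ∂ν‖ ^ 2 ≤ (∫ x, ‖f x‖ * ‖g x‖ ∂ν) ^ 2 :=
    pow_le_pow_left₀ (norm_nonneg _) h1 2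
  nlinarith

end STAR

open STAR in
theorem t_STAR : M_STAR := by
  intro hKB M _ _ _ _ _ _ μ _ ι K hK a b T β hβ u v w hu hv hw
  have hF := hKB M μ ι K hK
  obtain ⟨huc, hu⟩ := hu
  obtain ⟨hvc, hv⟩ := hv
  have hac := hK.cont a
  have hbc := hK.cont b
  have hc : ∀ (c : ι) {X : Type} [TopologicalSpace X] {f g : X → M}, Continuous f →
      Continuous g → Continuous fun p => K c (f p) (g p) :=
    fun c X _ f g hf hg => (hK.cont c).comp (hf.prodMk hg)
  set W : M × M → ℂ := fun p => ∫ x, conj (w x) * (K a x p.1 * K b x p.2) ∂μ with hW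
  have hWc : Continuous W := by
    have hc1 : Continuous fun q : (M × M) × M => conj (w q.2) * (K a q.2 q.1.1 * K b q.2 q.1.2) :=
      (Complex.continuous_conj.comp (hw.comp continuous_snd)).mul
        ((hc a continuous_snd (continuous_fst.comp continuous_fst)).mul
          (hc b continuous_snd (continuous_snd.comp continuous_fst)))
    have h := continuous_parametric_integral_of_continuous (μ := μ)
      (f := fun (p : M × M) (x : M) => conj (w x) * (K a x p.1 * K b x p.2)) (s := Set.univ)
      hc1 isCompact_univ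
    simpa [hW] using h
  -- step 1
  have h1 : ∫ x, conj (w x) * (u x * v x) ∂μ =
      ∫ p : M × M, W p * (u p.1 * v p.2) ∂(μ.prod μ) := by
    have e1 : ∀ x, conj (w x) * (u x * v x) = ∫ p : M × M,
        conj (w x) * (K a x p.1 * K b x p.2) * (u p.1 * v p.2) ∂(μ.prod μ) := by
      intro x
      have e2 := integral_prod_mul (μ := μ) (ν := μ) (fun y => K a x y * u y)
        (fun z => K b x z * v z)
      rw [hu x, hv x] at e2
      rw [← e2, ← integral_const_mul]
      congr 1
      funext p
      ring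
    rw [show (fun x => conj (w x) * (u x * v x)) = fun x => ∫ p : M × M,
        conj (w x) * (K a x p.1 * K b x p.2) * (u p.1 * v p.2) ∂(μ.prod μ) from funext e1]
    rw [integral_integral_swap]
    · congr 1
      funext p
      rw [integral_mul_const]
    · apply integ
      exact ((Complex.continuous_conj.comp (hw.comp continuous_fst)).mul
        ((hc a continuous_fst (continuous_fst.comp continuous_snd)).mul
          (hc b continuous_fst (continuous_snd.comp continuous_snd)))).mul
        ((huc.comp (continuous_fst.comp continuous_snd)).mul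
          (hvc.comp (continuous_snd.comp continuous_snd)))
  -- step 2
  have h2 : ∫ p : M × M, ‖u p.1 * v p.2‖ ^ 2 ∂(μ.prod μ) = nsq μ u * nsq μ v := by
    rw [nsq, nsq, ← integral_prod_mul]
    congr 1
    funext p
    rw [norm_mul, mul_pow]
  -- step 3
  have h3 : ((∫ p : M × M, ‖W p‖ ^ 2 ∂(μ.prod μ) : ℝ) : ℂ) =
      ∑ c ∈ T, β c * (nsq μ (Pr μ K {c} w) : ℂ) := by
    have e1 : ∀ p : M × M, ((‖W p‖ ^ 2 : ℝ) : ℂ) = ∫ q : M × M,
        (conj (w q.1) * w q.2) * ((K a q.1 p.1 * K a p.1 q.2) * (K b q.1 p.2 * K b p.2 q.2))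
          ∂(μ.prod μ) := by
      intro p
      have e2 : ((‖W p‖ ^ 2 : ℝ) : ℂ) = W p * conj (W p) := by
        rw [Complex.mul_conj, Complex.normSq_eq_norm_sq]
      have e3 : conj (W p) = ∫ x', w x' * (K a p.1 x' * K b p.2 x') ∂μ := by
        rw [hW]
        simp only
        rw [← integral_conj]
        congr 1
        funext x'
        rw [map_mul, map_mul, Complex.conj_conj, ← hK.herm a, ← hK.herm b]
      rw [e2, e3]
      rw [hW]
      simp only
      rw [← integral_prod_mul]
      congr 1
      funext q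
      ring
    have e4 : ((∫ p : M × M, ‖W p‖ ^ 2 ∂(μ.prod μ) : ℝ) : ℂ) =
        ∫ p : M × M, ((‖W p‖ ^ 2 : ℝ) : ℂ) ∂(μ.prod μ) := integral_ofReal.symm
    rw [e4]
    simp only [e1]
    rw [integral_integral_swap]
    · have e5 : ∀ q : M × M, ∫ p : M × M, (conj (w q.1) * w q.2) *
          ((K a q.1 p.1 * K a p.1 q.2) * (K b q.1 p.2 * K b p.2 q.2)) ∂(μ.prod μ) =
          ∑ c ∈ T, β c * (conj (w q.1) * (K c q.1 q.2 * w q.2)) := by
        intro q
        rw [integral_const_mul]
        have e6 := integral_prod_mul (μ := μ) (ν := μ) (fun y => K a q.1 y * K a y q.2)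
          (fun z => K b q.1 z * K b z q.2)
        rw [hK.rep, hK.rep, hβ] at e6
        rw [e6, Finset.mul_sum]
        refine Finset.sum_congr rfl fun c _ => ?_
        ring
      simp only [e5]
      rw [integral_finsetSum]
      · refine Finset.sum_congr rfl fun c _ => ?_
        rw [integral_const_mul]
        congr 1
        rw [← hF.inn {c} w hw]
        rw [integral_prod]
        · congr 1
          funext x
          simp only
          rw [integral_const_mul, Pr, Finset.sum_singleton]
        · apply integ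
          exact (Complex.continuous_conj.comp (hw.comp continuous_fst)).mul
            ((hc c continuous_fst continuous_snd).mul (hw.comp continuous_snd))
      · intro c _
        apply integ
        exact continuous_const.mul ((Complex.continuous_conj.comp (hw.comp continuous_fst)).mul
          ((hc c continuous_fst continuous_snd).mul (hw.comp continuous_snd)))
    · apply integ
      have g1 : Continuous fun z : (M × M) × (M × M) => z.1.1 := continuous_fst.comp continuous_fst
      have g2 : Continuous fun z : (M × M) × (M × M) => z.1.2 := continuous_snd.comp continuous_fst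
      have g3 : Continuous fun z : (M × M) × (M × M) => z.2.1 := continuous_fst.comp continuous_snd
      have g4 : Continuous fun z : (M × M) × (M × M) => z.2.2 := continuous_snd.comp continuous_snd
      exact ((Complex.continuous_conj.comp (hw.comp g3)).mul (hw.comp g4)).mul
        (((hc a g3 g1).mul (hc a g1 g4)).mul ((hc b g3 g2).mul (hc b g2 g4)))
  have h4 : ∫ p : M × M, ‖W p‖ ^ 2 ∂(μ.prod μ) ≤ ∑ c ∈ T, ‖β c‖ * nsq μ (Pr μ K {c} w) := by
    have h5 : ∫ p : M × M, ‖W p‖ ^ 2 ∂(μ.prod μ) =
        ‖((∫ p : M × M, ‖W p‖ ^ 2 ∂(μ.prod μ) : ℝ) : ℂ)‖ := by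
      rw [Complex.norm_real, Real.norm_of_nonneg]
      exact integral_nonneg fun p => sq_nonneg _
    rw [h5, h3]
    refine (norm_sum_le _ _).trans (Finset.sum_le_sum fun c _ => ?_)
    rw [norm_mul, Complex.norm_real, Real.norm_of_nonneg]
    exact integral_nonneg fun p => sq_nonneg _
  rw [h1]
  refine (cs (μ.prod μ) hWc ?_).trans ?_
  · exact (huc.comp continuous_fst).mul (hvc.comp continuous_snd)
  rw [h2]
  refine mul_le_mul_of_nonneg_right h4 ?_
  exact mul_nonneg (integral_nonneg fun p => sq_nonneg _) (integral_nonneg fun p => sq_nonneg _)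

end

end STZ
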