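import Pool.Agent.STZ.StmtsS

/-!
# Module STR: straightening
-/

set_option autoImplicit false

namespace STZ

noncomputable section

theorem t_STR : M_STR := by
  intro hA l
  have hmono : Monotone ((fun i => -l i) ∘ Tuple.sort (fun i => -l i)) :=
    Tuple.monotone_sort _
  set τ : Equiv.Perm (Fin 3) := Tuple.sort (fun i => -l i) with hτ
  have h01 : l (τ 1) ≤ l (τ 0) := by
    have := hmono (show (0 : Fin 3) ≤ 1 by decide)
    simp only [Function.comp_apply] at this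
    linarith
  have h12 : l (τ 2) ≤ l (τ 1) := by
    have := hmono (show (1 : Fin 3) ≤ 2 by decide)
    simp only [Function.comp_apply] at this
    linarith
  rcases eq_or_lt_of_le h01 with e1 | e1
  · left
    intro x y
    exact hA.same x y l (τ 1) (τ 0) (fun h => absurd (τ.injective h) (by decide)) e1
  rcases eq_or_lt_of_le h12 with e2 | e2
  · left
    intro x y
    exact hA.same x y l (τ 2) (τ 1) (fun h => absurd (τ.injective h) (by decide)) e2
  right
  obtain ⟨a, ha⟩ : ∃ a : ℕ, (a : ℤ) = l (τ 0) - l (τ 1) - 1 :=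
    ⟨(l (τ 0) - l (τ 1) - 1).toNat, Int.toNat_of_nonneg (by omega)⟩
  obtain ⟨b, hb⟩ : ∃ b : ℕ, (b : ℤ) = l (τ 1) - l (τ 2) - 1 :=
    ⟨(l (τ 1) - l (τ 2) - 1).toNat, Int.toNat_of_nonneg (by omega)⟩
  have hl : ∀ i, l (τ i) = ![(a : ℤ) + b + 2, b + 1, 0] i + l (τ 2) := by
    intro i
    fin_cases i
    · show l (τ 0) = (a : ℤ) + b + 2 + l (τ 2)
      omega
    · show l (τ 1) = (b : ℤ) + 1 + l (τ 2)
      omega
    · show l (τ 2) = 0 + l (τ 2)
      omega
  refine ⟨(a, b), τ⁻¹, l (τ 2), ?_, ?_⟩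
  · intro i
    have h1 := hl (τ⁻¹ i)
    rw [show τ (τ⁻¹ i) = i from Equiv.apply_symm_apply τ i] at h1
    exact h1
  · intro x y
    have h2 : l = (fun i => ![(a : ℤ) + b + 2, b + 1, 0] i + l (τ 2)) ∘ (τ⁻¹ : Equiv.Perm (Fin 3)) := by
      funext i
      have h1 := hl (τ⁻¹ i)
      rw [show τ (τ⁻¹ i) = i from Equiv.apply_symm_apply τ i] at h1
      exact h1
    have h3 : XX x y l = XX x y ((fun i => ![(a : ℤ) + b + 2, b + 1, 0] i + l (τ 2)) ∘
        (τ⁻¹ : Equiv.Perm (Fin 3))) := congrArg (XX x y) h2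
    rw [h3, hA.perm, hA.shift, ps]
    have h4 : (a : ℤ) + 1 + ((b : ℤ) + 1) = a + b + 2 := by ring
    rw [h4]

end

end STZ
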