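import Pool.Agent.STZ.StmtsG

/-!
# STZ, SW: polynomials in the entries are dense
-/

namespace STZ

open MeasureTheory Matrix

open scoped ComplexConjugate Matrix Real

namespace SW

variable {n : ℕ}

/-- The entries as elements of the algebra of continuous functions. -/
def ent (i j : Fin n) : C(SU n, ℂ) := ⟨fun g => g.1 i j, continuous_entry i j⟩

/-- The set of the entries. -/
def S (n : ℕ) : Set C(SU n, ℂ) := Set.range fun x : Fin n × Fin n => ent x.1 x.2

/-- A monomial in the entries and their conjugates. -/
def IsMon (h : C(SU n, ℂ)) : Prop :=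
  ∃ (i j : ℕ) (p q : Fin i → Fin n) (p' q' : Fin j → Fin n),
    ∀ g : SU n, h g = (∏ s, g.1 (p s) (q s)) * ∏ s, conj (g.1 (p' s) (q' s))

theorem isMon {h : C(SU n, ℂ)} (hh : h ∈ Submonoid.closure (S n ∪ star (S n))) : IsMon h := by
  induction hh using Submonoid.closure_induction with
  | mem h hh =>
    rcases hh with ⟨⟨i, j⟩, rfl⟩ | hh
    · refine ⟨1, 0, fun _ => i, fun _ => j, Fin.elim0, Fin.elim0, fun g => ?_⟩
      simp [ent]
    · obtain ⟨⟨i, j⟩, hij⟩ := hh
      refine ⟨0, 1, Fin.elim0, Fin.elim0, fun _ => i, fun _ => j, fun g => ?_⟩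
      have h1 : h = star (ent i j) := by rw [← star_star h]; exact congrArg star hij.symm
      rw [h1]
      simp [ent]
  | one => exact ⟨0, 0, Fin.elim0, Fin.elim0, Fin.elim0, Fin.elim0, fun g => by simp⟩
  | mul h h' _ _ ih ih' =>
    obtain ⟨i, j, p, q, p', q', hm⟩ := ih
    obtain ⟨i2, j2, p2, q2, p2', q2', hm2⟩ := ih'
    refine ⟨i + i2, j + j2, Fin.append p p2, Fin.append q q2, Fin.append p' p2',
      Fin.append q' q2', fun g => ?_⟩
    rw [ContinuousMap.mul_apply, hm g, hm2 g, Fin.prod_univ_add, Fin.prod_univ_add]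
    simp only [Fin.append_left, Fin.append_right]
    ring

end SW

open SW in
theorem t_SW : S_SW := by
  intro n μ _ f hf hz
  set A : StarSubalgebra ℂ C(SU n, ℂ) := StarAlgebra.adjoin ℂ (S n) with hA
  have hsep : A.SeparatesPoints := by
    intro g g' hgg
    have h1 : ∃ i j, g.1 i j ≠ g'.1 i j := by
      by_contra hcon
      push Not at hcon
      exact hgg (Subtype.ext (Matrix.ext hcon))
    obtain ⟨i, j, hij⟩ := h1
    exact ⟨_, ⟨ent i j, StarAlgebra.subset_adjoin ℂ (S n) ⟨(i, j), rfl⟩, rfl⟩, hij⟩
  have htop := ContinuousMap.starSubalgebra_topologicalClosure_eq_top_of_separatesPoints A hsep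
  let F : C(SU n, ℂ) := ⟨f, hf⟩
  have hint : ∀ h : C(SU n, ℂ), Integrable (fun g => f g * h g) μ := by
    intro h
    exact (hf.mul h.continuous).integrable_of_hasCompactSupport (HasCompactSupport.of_compactSpace _)
  have horth : ∀ h ∈ A, ∫ g, f g * h g ∂μ = 0 := by
    intro h hh
    have h1 : h ∈ Submodule.span ℂ (Submonoid.closure (S n ∪ star (S n)) : Set C(SU n, ℂ)) := by
      rw [← StarAlgebra.adjoin_eq_span]
      exact hh
    induction h1 using Submodule.span_induction with
    | mem h hh2 =>
      obtain ⟨i, j, p, q, p', q', hm⟩ := isMon hh2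
      simp only [hm]
      exact hz i j p q p' q'
    | zero => simp
    | add a b ha hb iha ihb =>
      have e1 : ∀ g, f g * (a + b) g = f g * a g + f g * b g := by
        intro g
        rw [ContinuousMap.add_apply]
        ring
      have ha' : a ∈ A := by
        show a ∈ A.toSubalgebra.toSubmodule
        rw [hA, StarAlgebra.adjoin_eq_span]
        exact ha
      have hb' : b ∈ A := by
        show b ∈ A.toSubalgebra.toSubmodule
        rw [hA, StarAlgebra.adjoin_eq_span]
        exact hb
      simp only [e1]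
      rw [integral_add (hint a) (hint b), iha ha', ihb hb', add_zero]
    | smul c a ha iha =>
      have e1 : ∀ g, f g * (c • a) g = c * (f g * a g) := by
        intro g
        rw [ContinuousMap.smul_apply, smul_eq_mul]
        ring
      have ha' : a ∈ A := by
        show a ∈ A.toSubalgebra.toSubmodule
        rw [hA, StarAlgebra.adjoin_eq_span]
        exact ha
      simp only [e1]
      rw [integral_const_mul, iha ha', mul_zero]
  have hnn : 0 ≤ nsq μ f := integral_nonneg fun g => by positivity
  have hle : ∀ ε > 0, nsq μ f ≤ ‖F‖ * ε := by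
    intro ε hε
    have h1 : star F ∈ A.topologicalClosure := by rw [htop]; exact StarSubalgebra.mem_top
    have h2 : star F ∈ closure (A : Set C(SU n, ℂ)) := by
      rw [← StarSubalgebra.topologicalClosure_coe]
      exact h1
    rw [Metric.mem_closure_iff] at h2
    obtain ⟨h, hh, hd⟩ := h2 ε hε
    have h3 : ((nsq μ f : ℝ) : ℂ) = ∫ g, f g * (star F - h) g ∂μ := by
      have e1 : ∀ g, f g * (star F - h) g = f g * (star F) g - f g * h g := by
        intro g
        rw [ContinuousMap.sub_apply]
        ring
      simp only [e1]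
      rw [integral_sub (hint _) (hint h), horth h hh, sub_zero]
      unfold nsq
      rw [← integral_complex_ofReal]
      refine integral_congr_ae (Filter.Eventually.of_forall fun g => ?_)
      show ((‖f g‖ ^ 2 : ℝ) : ℂ) = f g * (star F) g
      rw [ContinuousMap.star_apply]
      show ((‖f g‖ ^ 2 : ℝ) : ℂ) = f g * conj (f g)
      rw [Complex.mul_conj']
      push_cast
      rfl
    have h4 : nsq μ f = ‖((nsq μ f : ℝ) : ℂ)‖ := by
      rw [Complex.norm_real, Real.norm_eq_abs, abs_of_nonneg hnn]
    rw [h4, h3]
    have h5 : ∀ g, ‖f g * (star F - h) g‖ ≤ ‖F‖ * ε := by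
      intro g
      rw [norm_mul]
      refine mul_le_mul (F.norm_coe_le_norm g) ?_ (norm_nonneg _) (norm_nonneg _)
      refine le_trans ((star F - h).norm_coe_le_norm g) ?_
      rw [← dist_eq_norm]
      exact hd.le
    have h6 := norm_integral_le_of_norm_le_const (μ := μ) (Filter.Eventually.of_forall h5)
    simpa using h6
  refine le_antisymm ?_ hnn
  by_contra hcon
  push Not at hcon
  have h7 := hle (nsq μ f / (2 * (‖F‖ + 1))) (by positivity)
  have h8 : ‖F‖ * (nsq μ f / (2 * (‖F‖ + 1))) < nsq μ f := by
    have h9 : 0 ≤ ‖F‖ := norm_nonneg _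
    rw [mul_div_assoc', div_lt_iff₀ (by positivity)]
    nlinarith
  linarith

end STZ
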