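import Pool.Agent.STZ.StmtsT

/-!
# Module TT: the `T T*` argument
-/

set_option autoImplicit false

namespace STZ

open MeasureTheory Matrix

open scoped ComplexConjugate Matrix Real

namespace TT

theorem eu_add (a b : ℝ) : eu (a + b) = eu a * eu b := by
  rw [eu, eu, eu, ← Complex.exp_add]
  congr 1
  push_cast
  ring

theorem conj_eu (a : ℝ) : conj (eu a) = eu (-a) := by
  rw [eu, eu, ← Complex.exp_conj]
  congr 1
  simp only [map_mul, Complex.conj_ofReal, Complex.conj_I, map_ofNat]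
  push_cast
  ring

theorem eu_int (n : ℤ) : eu n = 1 := by
  rw [eu, Complex.exp_eq_one_iff]
  exact ⟨n, by push_cast; ring⟩

theorem eu_cont : Continuous eu := by
  unfold eu
  fun_prop

theorem norm_conj_sum {ι : Type} (F : Finset ι) (φ : ι → ℤ) (x : ℝ) :
    ‖∑ i ∈ F, eu (-x * φ i)‖ = ‖∑ i ∈ F, eu (x * φ i)‖ := by
  have h : ∑ i ∈ F, eu (-x * φ i) = conj (∑ i ∈ F, eu (x * φ i)) := by
    rw [map_sum]
    refine Finset.sum_congr rfl fun i _ => ?_
    rw [conj_eu, neg_mul]
  rw [h, RCLike.norm_conj]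

/-- the last step: real powers -/
theorem powers {A B K D q : ℝ} (hq : 2 ≤ q) (hA : 0 ≤ A) (hB : 0 ≤ B) (hK : 0 ≤ K)
    (h1 : A ^ 2 ≤ B * D) (h2 : D ≤ K ^ (2 / q) * A ^ (2 * (q - 1) / q)) : A ≤ K * B ^ (q / 2) := by
  have hq0 : 0 < q := by linarith
  rcases hA.eq_or_lt with rfl | hA0
  · positivity
  have h3 : A ^ (2 : ℝ) ≤ B * (K ^ (2 / q) * A ^ (2 * (q - 1) / q)) := by
    have h4 : A ^ (2 : ℝ) = A ^ (2 : ℕ) := by
      rw [← Real.rpow_natCast]
      norm_num
    rw [h4]
    exact h1.trans (mul_le_mul_of_nonneg_left h2 hB)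
  have h5 : A ^ (2 : ℝ) = A ^ (2 / q) * A ^ (2 * (q - 1) / q) := by
    rw [← Real.rpow_add hA0]
    congr 1
    field_simp
    ring
  have h6 : 0 < A ^ (2 * (q - 1) / q) := Real.rpow_pos_of_pos hA0 _
  have h7 : A ^ (2 / q) ≤ B * K ^ (2 / q) := by
    rw [h5, ← mul_assoc] at h3
    exact le_of_mul_le_mul_right h3 h6
  have h8 := Real.rpow_le_rpow (by positivity) h7 (show 0 ≤ q / 2 by positivity)
  rw [← Real.rpow_mul hA, Real.mul_rpow hB (by positivity), ← Real.rpow_mul hK] at h8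
  have h9 : 2 / q * (q / 2) = 1 := by
    field_simp
  rw [h9, Real.rpow_one, Real.rpow_one] at h8
  linarith

section

variable {H : Type} [NormedAddCommGroup H] [InnerProductSpace ℂ H] {ι : Type}

theorem sum_cont (F : Finset ι) (φ : ι → ℤ) (G : ι → H) :
    Continuous fun t : ℝ => ∑ i ∈ F, eu (t * φ i) • G i := by
  refine continuous_finsetSum _ fun i _ => ?_
  exact (eu_cont.comp (by fun_prop)).smul continuous_const

theorem complete [CompleteSpace H] (hY : S_YOUNG) (F : Finset ι) (φ : ι → ℤ) (G : ι → H) (q : ℝ)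
    (hq : 2 ≤ q) :
    ∫ t in (0 : ℝ)..1, ‖∑ i ∈ F, eu (t * φ i) • G i‖ ^ q ≤
      (∫ t in (0 : ℝ)..1, ‖∑ i ∈ F, eu (t * φ i)‖ ^ (q / 2)) *
        (∑ i ∈ F, ‖G i‖ ^ 2) ^ (q / 2) := by
  have hΦ := sum_cont F φ G
  set Φ : ℝ → H := fun t : ℝ => ∑ i ∈ F, eu (t * φ i) • G i with hΦdef
  set Fv : ℝ → H := fun t => ((‖Φ t‖ ^ (q - 2) : ℝ) : ℂ) • Φ t with hFvdef
  have hFv : Continuous Fv := by
    refine Continuous.smul ?_ hΦ
    exact Complex.continuous_ofReal.comp (hΦ.norm.rpow_const fun x => Or.inr (by linarith))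
  have hFn : ∀ t, ‖Fv t‖ = ‖Φ t‖ ^ (q - 1) := by
    intro t
    have h0 : 0 ≤ ‖Φ t‖ ^ (q - 2) := by positivity
    rw [hFvdef]
    simp only
    rw [norm_smul, Complex.norm_real, Real.norm_of_nonneg h0,
      ← Real.rpow_add_one' (norm_nonneg _) (by linarith)]
    congr 1
    ring
  set κ : ℝ → ℂ := fun x => ∑ i ∈ F, eu (x * φ i) with hκdef
  have hκ : Continuous κ := by
    refine continuous_finsetSum _ fun i _ => ?_
    exact eu_cont.comp (by fun_prop)
  set w : ι → H := fun i => ∫ t in (0 : ℝ)..1, eu (-(t * φ i)) • Fv t with hw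
  have hci : ∀ i, Continuous fun t : ℝ => eu (-(t * φ i)) • Fv t := fun i =>
    (eu_cont.comp (by fun_prop)).smul hFv
  -- pairing with a vector
  have hpair : ∀ (v : H) (i : ι), inner ℂ v (w i) =
      ∫ t in (0 : ℝ)..1, inner ℂ (eu (t * φ i) • v) (Fv t) := by
    intro v i
    have h1 := ContinuousLinearMap.intervalIntegral_comp_comm (innerSL ℂ v)
      ((hci i).intervalIntegrable (μ := volume) 0 1)
    simp only [innerSL_apply_apply] at h1
    rw [hw]
    simp only
    rw [← h1]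
    refine intervalIntegral.integral_congr fun t _ => ?_
    rw [inner_smul_right, inner_smul_left, conj_eu]
  have hpairs : ∀ v : ι → H, ∑ i ∈ F, inner ℂ (v i) (w i) =
      ∫ t in (0 : ℝ)..1, inner ℂ (∑ i ∈ F, eu (t * φ i) • v i) (Fv t) := by
    intro v
    rw [Finset.sum_congr rfl fun i _ => hpair (v i) i, ← intervalIntegral.integral_finsetSum]
    · refine intervalIntegral.integral_congr fun t _ => ?_
      rw [sum_inner]
    · intro i _
      refine Continuous.intervalIntegrable ?_ _ _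
      exact Continuous.inner ((eu_cont.comp (by fun_prop)).smul continuous_const) hFv
  set A : ℝ := ∫ t in (0 : ℝ)..1, ‖Φ t‖ ^ q with hA
  have hA0 : 0 ≤ A := by
    rw [hA]
    exact intervalIntegral.integral_nonneg (by norm_num) fun t _ => by positivity
  have hAeq : ∑ i ∈ F, inner ℂ (G i) (w i) = (A : ℂ) := by
    rw [hpairs G, hA, ← intervalIntegral.integral_ofReal]
    refine intervalIntegral.integral_congr fun t _ => ?_
    have h1 : inner ℂ (Φ t) (Fv t) = ((‖Φ t‖ ^ q : ℝ) : ℂ) := by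
      rw [hFvdef]
      simp only
      rw [inner_smul_right, inner_self_eq_norm_sq_to_K]
      have h2 : ‖Φ t‖ ^ (q - 2) * ‖Φ t‖ ^ 2 = ‖Φ t‖ ^ q := by
        rw [← Real.rpow_natCast ‖Φ t‖ 2, ← Real.rpow_add' (norm_nonneg _) (by push_cast; linarith)]
        congr 1
        push_cast
        ring
      rw [← h2]
      push_cast
      rfl
    exact h1
  set D : ℝ := ∑ i ∈ F, ‖w i‖ ^ 2 with hD
  have hD0 : 0 ≤ D := by positivity
  have hAD : A ^ 2 ≤ (∑ i ∈ F, ‖G i‖ ^ 2) * D := by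
    have h1 : A ≤ ∑ i ∈ F, ‖G i‖ * ‖w i‖ := by
      calc A = ‖(A : ℂ)‖ := by rw [Complex.norm_real, Real.norm_of_nonneg hA0]
        _ = ‖∑ i ∈ F, inner ℂ (G i) (w i)‖ := by rw [hAeq]
        _ ≤ ∑ i ∈ F, ‖inner ℂ (G i) (w i)‖ := norm_sum_le _ _
        _ ≤ ∑ i ∈ F, ‖G i‖ * ‖w i‖ := Finset.sum_le_sum fun i _ => norm_inner_le_norm _ _
    calc A ^ 2 ≤ (∑ i ∈ F, ‖G i‖ * ‖w i‖) ^ 2 := by
          exact pow_le_pow_left₀ hA0 h1 2
      _ ≤ (∑ i ∈ F, ‖G i‖ ^ 2) * D := Finset.sum_mul_sq_le_sq_mul_sq _ _ _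
  -- the kernel
  have hΨ : ∀ s : ℝ, ∑ i ∈ F, eu (s * φ i) • w i = ∫ t in (0 : ℝ)..1, κ (s - t) • Fv t := by
    intro s
    have h1 : ∀ i ∈ F, eu (s * φ i) • w i =
        ∫ t in (0 : ℝ)..1, eu ((s - t) * φ i) • Fv t := by
      intro i _
      rw [hw]
      simp only
      rw [← intervalIntegral.integral_smul]
      refine intervalIntegral.integral_congr fun t _ => ?_
      rw [smul_smul, ← eu_add]
      congr 2
      ring
    rw [Finset.sum_congr rfl h1, ← intervalIntegral.integral_finsetSum]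
    · refine intervalIntegral.integral_congr fun t _ => ?_
      rw [← Finset.sum_smul]
    · intro i _
      refine Continuous.intervalIntegrable ?_ _ _
      exact (eu_cont.comp (by fun_prop)).smul hFv
  have hbd : ∀ s : ℝ, ‖∑ i ∈ F, eu (s * φ i) • w i‖ ≤
      ∫ t in (0 : ℝ)..1, ‖κ (s - t)‖ * ‖Fv t‖ := by
    intro s
    rw [hΨ s]
    refine (intervalIntegral.norm_integral_le_integral_norm (by norm_num)).trans (le_of_eq ?_)
    refine intervalIntegral.integral_congr fun t _ => ?_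
    rw [norm_smul]
  have hDle : D ≤ ∫ s in (0 : ℝ)..1, ∫ t in (0 : ℝ)..1, ‖κ (s - t)‖ * ‖Fv s‖ * ‖Fv t‖ := by
    have h1 : ((D : ℝ) : ℂ) =
        ∫ s in (0 : ℝ)..1, inner ℂ (∑ i ∈ F, eu (s * φ i) • w i) (Fv s) := by
      rw [← hpairs w, hD]
      push_cast
      refine Finset.sum_congr rfl fun i _ => ?_
      rw [inner_self_eq_norm_sq_to_K]
      rfl
    have hΨc : Continuous fun s : ℝ => ∑ i ∈ F, eu (s * φ i) • w i := sum_cont F φ w
    calc D = ‖((D : ℝ) : ℂ)‖ := by rw [Complex.norm_real, Real.norm_of_nonneg hD0]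
      _ = ‖∫ s in (0 : ℝ)..1, inner ℂ (∑ i ∈ F, eu (s * φ i) • w i) (Fv s)‖ := by rw [h1]
      _ ≤ ∫ s in (0 : ℝ)..1, ‖inner ℂ (∑ i ∈ F, eu (s * φ i) • w i) (Fv s)‖ :=
          intervalIntegral.norm_integral_le_integral_norm (by norm_num)
      _ ≤ ∫ s in (0 : ℝ)..1, ∫ t in (0 : ℝ)..1, ‖κ (s - t)‖ * ‖Fv s‖ * ‖Fv t‖ := by
          refine intervalIntegral.integral_mono_on (by norm_num) ?_ ?_ ?_
          · exact (Continuous.inner hΨc hFv).norm.intervalIntegrable _ _
          · refine Continuous.intervalIntegrable ?_ _ _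
            refine intervalIntegral.continuous_parametric_intervalIntegral_of_continuous' ?_ 0 1
            exact (((hκ.comp (continuous_fst.sub continuous_snd)).norm.mul
              (hFv.comp continuous_fst).norm).mul (hFv.comp continuous_snd).norm)
          · intro s _
            refine (norm_inner_le_norm _ _).trans ?_
            refine (mul_le_mul_of_nonneg_right (hbd s) (norm_nonneg _)).trans (le_of_eq ?_)
            rw [← intervalIntegral.integral_mul_const]
            refine intervalIntegral.integral_congr fun t _ => ?_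
            ring
  -- Young's inequality
  have hyoung := hY q (fun t => ‖Fv t‖) (fun x => ‖κ x‖) hq hFv.norm hκ.norm
    (fun _ => norm_nonneg _) (fun _ => norm_nonneg _) (by
      intro x
      simp only [hκdef]
      congr 1
      refine Finset.sum_congr rfl fun i _ => ?_
      rw [add_mul, eu_add, one_mul, eu_int, mul_one]) (by
      intro x
      exact norm_conj_sum F φ x)
  have hfp : ∀ t, ‖Fv t‖ ^ (q / (q - 1)) = ‖Φ t‖ ^ q := by
    intro t
    rw [hFn, ← Real.rpow_mul (norm_nonneg _)]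
    congr 1
    have : q - 1 ≠ 0 := by linarith
    field_simp
  have hyoung' : D ≤ (∫ t in (0 : ℝ)..1, ‖κ t‖ ^ (q / 2)) ^ (2 / q) * A ^ (2 * (q - 1) / q) := by
    refine hDle.trans (hyoung.trans (le_of_eq ?_))
    congr 2
    refine intervalIntegral.integral_congr fun t _ => ?_
    exact hfp t
  refine powers hq hA0 (by positivity) ?_ hAD hyoung'
  exact intervalIntegral.integral_nonneg (by norm_num) fun t _ => by positivity

end

end TT

/-- Module TT. -/
theorem t_TT : M_TT := by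
  intro hY H _ _ ι F φ G q hq
  let L := UniformSpace.Completion.toComplₗᵢ (𝕜 := ℂ) (E := H)
  have h := TT.complete hY F φ (fun i => L (G i)) q hq
  have h1 : ∀ t : ℝ, ‖∑ i ∈ F, eu (t * φ i) • L (G i)‖ = ‖∑ i ∈ F, eu (t * φ i) • G i‖ := by
    intro t
    rw [← L.norm_map, map_sum]
    congr 1
    refine Finset.sum_congr rfl fun i _ => ?_
    rw [L.map_smul]
  simp only [h1, L.norm_map] at h
  exact h

end STZ
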