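import Pool.Agent.STZ.StmtsR

/-!
# Module VIRT: a virtual character of norm one
-/

set_option autoImplicit false

namespace STZ

open MeasureTheory Matrix

open scoped ComplexConjugate Matrix Real

noncomputable section

namespace VIRT

lemma cont_ch {G : Type} [Group G] [TopologicalSpace G] {ι : Type} [Fintype ι] [DecidableEq ι]
    (R : Rep G ι) : Continuous R.ch :=
  R.cont.matrix_trace

lemma ch_one {G : Type} [Group G] [TopologicalSpace G] {ι : Type} [Fintype ι] [DecidableEq ι]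
    (R : Rep G ι) : R.ch 1 = Fintype.card ι := by
  rw [Rep.ch, map_one, Matrix.trace_one]

lemma integrable_of_cont {G : Type} [TopologicalSpace G] [CompactSpace G] [MeasurableSpace G]
    [BorelSpace G] (μ : Measure G) [IsProbabilityMeasure μ] {f : G → ℂ} (hf : Continuous f) :
    Integrable f μ :=
  hf.integrable_of_hasCompactSupport (HasCompactSupport.of_compactSpace f)

/-- The square of the norm of a combination of orthonormal functions. -/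
lemma norm_sq_sum {G : Type} [TopologicalSpace G] [CompactSpace G] [MeasurableSpace G]
    [BorelSpace G] (μ : Measure G) [IsProbabilityMeasure μ] (S : Finset (G → ℂ))
    (hcont : ∀ φ ∈ S, Continuous φ)
    (horth : ∀ φ ∈ S, ∀ φ' ∈ S, φ ≠ φ' → ∫ g, φ g * conj (φ' g) ∂μ = 0)
    (hone : ∀ φ ∈ S, ∫ g, φ g * conj (φ g) ∂μ = 1) (n : (G → ℂ) → ℤ) :
    ∫ g, ‖∑ φ ∈ S, (n φ : ℂ) * φ g‖ ^ 2 ∂μ = ∑ φ ∈ S, (n φ : ℝ) ^ 2 := by
  classical
  have h1 : ∀ g, ((‖∑ φ ∈ S, (n φ : ℂ) * φ g‖ ^ 2 : ℝ) : ℂ) =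
      ∑ φ ∈ S, ∑ φ' ∈ S, ((n φ : ℂ) * (n φ' : ℂ)) * (φ g * conj (φ' g)) := by
    intro g
    rw [Complex.ofReal_pow, ← Complex.mul_conj', map_sum, Finset.sum_mul_sum]
    refine Finset.sum_congr rfl fun φ _ => Finset.sum_congr rfl fun φ' _ => ?_
    rw [map_mul, map_intCast]
    ring
  have hint : ∀ φ ∈ S, ∀ φ' ∈ S,
      Integrable (fun g => ((n φ : ℂ) * (n φ' : ℂ)) * (φ g * conj (φ' g))) μ := by
    intro φ hφ φ' hφ'
    exact integrable_of_cont μ (continuous_const.mul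
      ((hcont φ hφ).mul (Complex.continuous_conj.comp (hcont φ' hφ'))))
  have h2 : ((∫ g, ‖∑ φ ∈ S, (n φ : ℂ) * φ g‖ ^ 2 ∂μ : ℝ) : ℂ) = ∑ φ ∈ S, (n φ : ℂ) ^ 2 := by
    rw [← integral_complex_ofReal]
    have h3 : (fun g => ((‖∑ φ ∈ S, (n φ : ℂ) * φ g‖ ^ 2 : ℝ) : ℂ)) =
        fun g => ∑ φ ∈ S, ∑ φ' ∈ S, ((n φ : ℂ) * (n φ' : ℂ)) * (φ g * conj (φ' g)) :=
      funext h1
    calc _ = ∫ g, ∑ φ ∈ S, ∑ φ' ∈ S, ((n φ : ℂ) * (n φ' : ℂ)) * (φ g * conj (φ' g)) ∂μ :=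
          congrArg (fun F : G → ℂ => ∫ g, F g ∂μ) h3
      _ = ∑ φ ∈ S, ∑ φ' ∈ S, ∫ g, ((n φ : ℂ) * (n φ' : ℂ)) * (φ g * conj (φ' g)) ∂μ := by
          rw [integral_finsetSum _ fun φ hφ => integrable_finsetSum _ fun φ' hφ' =>
            hint φ hφ φ' hφ']
          exact Finset.sum_congr rfl fun φ hφ =>
            integral_finsetSum _ fun φ' hφ' => hint φ hφ φ' hφ'
      _ = ∑ φ ∈ S, (n φ : ℂ) ^ 2 := by
          refine Finset.sum_congr rfl fun φ hφ => ?_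
          rw [Finset.sum_eq_single φ]
          · rw [integral_const_mul, hone φ hφ]
            ring
          · intro φ' hφ' hne
            rw [integral_const_mul, horth φ hφ φ' hφ' hne.symm, mul_zero]
          · intro h
            exact absurd hφ h
  have h4 : ((∑ φ ∈ S, (n φ : ℝ) ^ 2 : ℝ) : ℂ) = ∑ φ ∈ S, (n φ : ℂ) ^ 2 := by
    push_cast
    rfl
  rw [← h4] at h2
  exact Complex.ofReal_injective h2

end VIRT

open VIRT

/-- MODULE VIRT. -/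
theorem t_VIRT : M_VIRT := by
  intro hC hD G _ _ _ _ _ _ _ _ μ _ _ m N R n h1 h2
  classical
  choose mm NN σ hirr hch _ using fun k => hD G (Fin (N k)) (R k)
  let ψ : (Σ k : Fin m, Fin (mm k)) → G → ℂ := fun i g => (σ i.1 i.2).ch g
  let c : (Σ k : Fin m, Fin (mm k)) → ℤ := fun i => n i.1
  let Ψ : Finset (G → ℂ) := Finset.univ.image ψ
  let n' : (G → ℂ) → ℤ := fun φ => ∑ i ∈ Finset.univ.filter (fun i => ψ i = φ), c i
  have hθ : ∀ g, ∑ k, (n k : ℂ) * (R k).ch g = ∑ φ ∈ Ψ, (n' φ : ℂ) * φ g := by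
    intro g
    have h3 : ∑ k, (n k : ℂ) * (R k).ch g = ∑ i, (c i : ℂ) * ψ i g := by
      rw [Fintype.sum_sigma]
      refine Finset.sum_congr rfl fun k _ => ?_
      rw [hch k g, Finset.mul_sum]
    rw [h3, ← Finset.sum_fiberwise_of_maps_to (s := Finset.univ) (t := Ψ) (g := ψ)
      (fun i _ => Finset.mem_image_of_mem ψ (Finset.mem_univ i))]
    refine Finset.sum_congr rfl fun φ _ => ?_
    simp only [n', Int.cast_sum, Finset.sum_mul]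
    refine Finset.sum_congr rfl fun i hi => ?_
    rw [(Finset.mem_filter.1 hi).2]
  have hmem : ∀ φ ∈ Ψ, ∃ i, ψ i = φ := by
    intro φ hφ
    obtain ⟨i, -, hi⟩ := Finset.mem_image.1 hφ
    exact ⟨i, hi⟩
  have hcont : ∀ φ ∈ Ψ, Continuous φ := by
    intro φ hφ
    obtain ⟨i, rfl⟩ := hmem φ hφ
    exact cont_ch (σ i.1 i.2)
  have hone : ∀ φ ∈ Ψ, ∫ g, φ g * conj (φ g) ∂μ = 1 := by
    intro φ hφ
    obtain ⟨i, rfl⟩ := hmem φ hφ
    exact (hC G μ _ (σ i.1 i.2) (hirr i.1 i.2)).1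
  have horth : ∀ φ ∈ Ψ, ∀ φ' ∈ Ψ, φ ≠ φ' → ∫ g, φ g * conj (φ' g) ∂μ = 0 := by
    intro φ hφ φ' hφ' hne
    obtain ⟨i, rfl⟩ := hmem φ hφ
    obtain ⟨j, rfl⟩ := hmem φ' hφ'
    rcases (hC G μ _ (σ i.1 i.2) (hirr i.1 i.2)).2 _ (σ j.1 j.2) (hirr j.1 j.2) with h | h
    · exact absurd (funext h) hne
    · exact h
  have hsq : ∑ φ ∈ Ψ, n' φ ^ 2 = 1 := by
    have h3 := norm_sq_sum μ Ψ hcont horth hone n'
    have h4 : (fun g => ‖∑ k, (n k : ℂ) * (R k).ch g‖ ^ 2) =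
        fun g => ‖∑ φ ∈ Ψ, (n' φ : ℂ) * φ g‖ ^ 2 := funext fun g => by rw [hθ g]
    have h5 : ∫ g, ‖∑ k, (n k : ℂ) * (R k).ch g‖ ^ 2 ∂μ =
        ∫ g, ‖∑ φ ∈ Ψ, (n' φ : ℂ) * φ g‖ ^ 2 ∂μ :=
      congrArg (fun F : G → ℝ => ∫ g, F g ∂μ) h4
    rw [h5, h3] at h1
    exact_mod_cast h1
  obtain ⟨φ, hφ, hne⟩ : ∃ φ ∈ Ψ, n' φ ≠ 0 := by
    by_contra hcon
    push Not at hcon
    rw [Finset.sum_eq_zero fun φ hφ => by rw [hcon φ hφ]; rfl] at hsq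
    exact zero_ne_one hsq
  have hsplit := Finset.add_sum_erase Ψ (fun φ => n' φ ^ 2) hφ
  have h5 : 0 < n' φ ^ 2 := by positivity
  have h6 : 0 ≤ ∑ φ' ∈ Ψ.erase φ, n' φ' ^ 2 := Finset.sum_nonneg fun _ _ => sq_nonneg _
  have h7 : ∑ φ' ∈ Ψ.erase φ, n' φ' ^ 2 = 0 := by
    have : n' φ ^ 2 + ∑ φ' ∈ Ψ.erase φ, n' φ' ^ 2 = 1 := hsplit.trans hsq
    omega
  have h8 : n' φ ^ 2 = 1 := by
    have : n' φ ^ 2 + ∑ φ' ∈ Ψ.erase φ, n' φ' ^ 2 = 1 := hsplit.trans hsq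
    omega
  have h9 : ∀ g, ∑ k, (n k : ℂ) * (R k).ch g = (n' φ : ℂ) * φ g := by
    intro g
    rw [hθ g, ← Finset.add_sum_erase Ψ (fun φ => (n' φ : ℂ) * φ g) hφ]
    rw [Finset.sum_eq_zero, add_zero]
    intro φ' hφ'
    have h10 := (Finset.sum_eq_zero_iff_of_nonneg fun _ _ => sq_nonneg _).1 h7 φ' hφ'
    rw [pow_eq_zero_iff two_ne_zero] at h10
    rw [h10, Int.cast_zero, zero_mul]
  obtain ⟨i, rfl⟩ := hmem φ hφ
  refine ⟨NN i.1 i.2, σ i.1 i.2, hirr i.1 i.2, fun g => ?_⟩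
  rcases sq_eq_one_iff.1 h8 with h | h
  · rw [h9 g, h, Int.cast_one, one_mul]
  · exfalso
    rw [h9 1, h] at h2
    have h11 : ψ i 1 = (NN i.1 i.2 : ℂ) := by
      show (σ i.1 i.2).ch 1 = _
      rw [ch_one, Fintype.card_fin]
    rw [h11] at h2
    simp at h2
    have := Nat.cast_nonneg (α := ℝ) (NN i.1 i.2)
    linarith

end

end STZ
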