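import Pool.Agent.STZ.StmtsT

/-!
# Module WEYL: Weyl differencing
-/

set_option autoImplicit false

namespace STZ

open Matrix

open scoped ComplexConjugate Matrix Real

noncomputable section

namespace WEYL

theorem eu_add (a b : ℝ) : eu (a + b) = eu a * eu b := by
  unfold eu
  rw [← Complex.exp_add]
  congr 1
  push_cast
  ring

theorem eu_zero : eu 0 = 1 := by
  unfold eu
  simp

theorem eu_conj (a : ℝ) : conj (eu a) = eu (-a) := by
  unfold eu
  rw [← Complex.exp_conj]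
  congr 1
  have h2 : (starRingEnd ℂ) 2 = 2 := Complex.conj_ofNat 2
  simp [h2]

theorem norm_eu (a : ℝ) : ‖eu a‖ = 1 := by
  unfold eu
  have h : (2 * (π : ℂ) * (a : ℂ) * Complex.I) = ((2 * π * a : ℝ) : ℂ) * Complex.I := by
    push_cast
    ring
  rw [h, Complex.norm_exp_ofReal_mul_I]

theorem eu_sum {ι : Type*} (s : Finset ι) (f : ι → ℝ) :
    eu (∑ i ∈ s, f i) = ∏ i ∈ s, eu (f i) := by
  classical
  induction s using Finset.induction_on with
  | empty => simp [eu_zero]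
  | insert a s ha ih => rw [Finset.sum_insert ha, Finset.prod_insert ha, eu_add, ih]

theorem mn_nonneg (R : ℕ) (θ : ℝ) : 0 ≤ mn R θ := by
  unfold mn
  positivity

/-- the box of the `y` with `y`, `y + h` in the box -/
theorem filter_eq {r : ℕ} (z : Fin r → ℤ) (R : ℕ) (h : Fin r → ℤ) :
    (bx z R).filter (fun y => y + h ∈ bx z R) =
      Fintype.piFinset fun i => Finset.Ico (max (z i) (z i - h i)) (min (z i + R) (z i + R - h i)) := by
  ext y
  simp only [bx, Finset.mem_filter, Fintype.mem_piFinset, Finset.mem_Ico, Pi.add_apply]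
  constructor
  · rintro ⟨h1, h2⟩ i
    have h3 := h1 i
    have h4 := h2 i
    omega
  · intro h1
    refine ⟨fun i => ?_, fun i => ?_⟩
    · have h3 := h1 i
      omega
    · have h3 := h1 i
      omega

theorem inner_bound (hGEO : S_GEO) {r : ℕ} (z : Fin r → ℤ) (R : ℕ) (h : Fin r → ℤ)
    (w : Fin r → ℤ) (t : ℝ) :
    ‖∑ y ∈ (bx z R).filter (fun y => y + h ∈ bx z R), eu (t * (y ⬝ᵥ w : ℤ))‖ ≤
      ∏ i, mn R (t * w i) := by
  rw [filter_eq]
  have h1 : ∀ y : Fin r → ℤ, eu (t * (y ⬝ᵥ w : ℤ)) = ∏ i, eu (y i * (t * w i)) := by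
    intro y
    rw [← eu_sum]
    congr 1
    rw [dotProduct]
    push_cast
    rw [Finset.mul_sum]
    refine Finset.sum_congr rfl fun i _ => ?_
    ring
  simp only [h1]
  rw [← Finset.prod_univ_sum (fun i => Finset.Ico (max (z i) (z i - h i)) (min (z i + R) (z i + R - h i)))
    (fun i k => eu (k * (t * w i)))]
  rw [norm_prod]
  refine Finset.prod_le_prod (fun i _ => norm_nonneg _) fun i _ => ?_
  refine hGEO R _ _ _ ?_
  have h2 : z i ≤ max (z i) (z i - h i) := le_max_left _ _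
  have h3 : min (z i + R) (z i + R - h i) ≤ z i + R := min_le_left _ _
  linarith

theorem diff_sum (hGEO : S_GEO) {r : ℕ} (Q : (Fin r → ℤ) → ℤ) (A : Matrix (Fin r) (Fin r) ℤ)
    (hQ : QF Q A) (z : Fin r → ℤ) (R : ℕ) (t : ℝ) :
    ‖∑ x ∈ bx z R, eu (t * Q x)‖ ^ 2 ≤
      ∑ h ∈ Fintype.piFinset (fun _ : Fin r => Finset.Icc (-(R : ℤ)) R),
        ∏ i, mn R (t * ((A *ᵥ h) i : ℤ)) := by
  have h1 : ‖∑ x ∈ bx z R, eu (t * Q x)‖ ^ 2 =
      ‖(∑ x ∈ bx z R, eu (t * Q x)) * conj (∑ x ∈ bx z R, eu (t * Q x))‖ := by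
    rw [norm_mul, RCLike.norm_conj, sq]
  have h2 : (∑ x ∈ bx z R, eu (t * Q x)) * conj (∑ x ∈ bx z R, eu (t * Q x)) =
      ∑ h ∈ Fintype.piFinset (fun _ : Fin r => Finset.Icc (-(R : ℤ)) R),
        eu (t * Q h) * ∑ y ∈ (bx z R).filter (fun y => y + h ∈ bx z R),
          eu (t * (y ⬝ᵥ (A *ᵥ h) : ℤ)) := by
    rw [map_sum, Finset.sum_mul_sum, Finset.sum_comm]
    have h3 : ∀ y ∈ bx z R, ∑ x ∈ bx z R, eu (t * Q x) * conj (eu (t * Q y)) =
        ∑ h ∈ (Fintype.piFinset (fun _ : Fin r => Finset.Icc (-(R : ℤ)) R)).filter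
          (fun h => y + h ∈ bx z R), eu (t * Q h) * eu (t * (y ⬝ᵥ (A *ᵥ h) : ℤ)) := by
      intro y hy
      refine Finset.sum_nbij' (fun x => x - y) (fun h => y + h) ?_ ?_ ?_ ?_ ?_
      · intro x hx
        rw [Finset.mem_filter, Fintype.mem_piFinset]
        refine ⟨fun i => ?_, ?_⟩
        · rw [bx, Fintype.mem_piFinset] at hx hy
          have h4 := Finset.mem_Ico.1 (hx i)
          have h5 := Finset.mem_Ico.1 (hy i)
          rw [Finset.mem_Icc, Pi.sub_apply]
          omega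
        · simpa using hx
      · intro h hh
        exact (Finset.mem_filter.1 hh).2
      · intro x _
        simp
      · intro h _
        simp
      · intro x _
        have h6 : Q x = Q y + Q (x - y) + y ⬝ᵥ (A *ᵥ (x - y)) := by
          rw [← hQ.polar, add_sub_cancel]
        rw [eu_conj, ← eu_add, ← eu_add, h6]
        congr 1
        push_cast
        ring
    rw [Finset.sum_congr rfl h3]
    simp only [Finset.sum_filter]
    rw [Finset.sum_comm]
    refine Finset.sum_congr rfl fun h _ => ?_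
    rw [Finset.mul_sum]
    refine Finset.sum_congr rfl fun y _ => ?_
    rw [mul_ite, mul_zero]
  rw [h1, h2]
  refine (norm_sum_le _ _).trans (Finset.sum_le_sum fun h _ => ?_)
  rw [norm_mul, norm_eu, one_mul]
  exact inner_bound hGEO z R h (A *ᵥ h) t

theorem mulVec_inj {r : ℕ} (A : Matrix (Fin r) (Fin r) ℤ) (hA : A.det ≠ 0) :
    Function.Injective fun h : Fin r → ℤ => A *ᵥ h := by
  intro x y hxy
  have h1 : A *ᵥ (x - y) = 0 := by
    rw [Matrix.mulVec_sub]
    exact sub_eq_zero.2 hxy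
  have h2 : A.adjugate *ᵥ (A *ᵥ (x - y)) = 0 := by rw [h1, Matrix.mulVec_zero]
  rw [Matrix.mulVec_mulVec, Matrix.adjugate_mul, Matrix.smul_mulVec, Matrix.one_mulVec] at h2
  have h3 := (smul_eq_zero.1 h2).resolve_left hA
  exact sub_eq_zero.1 h3

end WEYL

open WEYL

theorem t_WEYL : M_WEYL := by
  intro hGEO r Q A hQ
  refine ⟨1 + ∑ i, ∑ j, (A i j).natAbs, by omega, fun R z t _ => ?_⟩
  set c : ℕ := 1 + ∑ i, ∑ j, (A i j).natAbs with hc
  refine (diff_sum hGEO Q A hQ z R t).trans ?_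
  have h1 : WW R c t ^ r = ∑ x ∈ Fintype.piFinset (fun _ : Fin r =>
      Finset.Icc (-((c * R : ℕ) : ℤ)) ((c * R : ℕ) : ℤ)), ∏ i, mn R (t * (x i : ℤ)) := by
    have h2 := Finset.prod_univ_sum (fun _ : Fin r => Finset.Icc (-((c * R : ℕ) : ℤ)) ((c * R : ℕ) : ℤ))
      (fun _ (k : ℤ) => mn R (t * k))
    rw [← h2, Finset.prod_const, Finset.card_univ, Fintype.card_fin]
    rfl
  rw [h1]
  have h3 : ∑ h ∈ Fintype.piFinset (fun _ : Fin r => Finset.Icc (-(R : ℤ)) R),
        ∏ i, mn R (t * ((A *ᵥ h) i : ℤ)) =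
      ∑ x ∈ (Fintype.piFinset (fun _ : Fin r => Finset.Icc (-(R : ℤ)) R)).image
        (fun h => A *ᵥ h), ∏ i, mn R (t * (x i : ℤ)) := by
    rw [Finset.sum_image]
    exact (mulVec_inj A hQ.det).injOn
  rw [h3]
  refine Finset.sum_le_sum_of_subset_of_nonneg ?_ fun x _ _ =>
    Finset.prod_nonneg fun i _ => mn_nonneg _ _
  intro x hx
  obtain ⟨h, hh, rfl⟩ := Finset.mem_image.1 hx
  rw [Fintype.mem_piFinset] at hh ⊢
  intro i
  rw [Finset.mem_Icc, ← abs_le, Matrix.mulVec, dotProduct]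
  calc |∑ j, A i j * h j| ≤ ∑ j, |A i j * h j| := Finset.abs_sum_le_sum_abs _ _
    _ ≤ ∑ j, |A i j| * R := by
        refine Finset.sum_le_sum fun j _ => ?_
        rw [abs_mul]
        refine mul_le_mul_of_nonneg_left ?_ (abs_nonneg _)
        rw [abs_le]
        exact Finset.mem_Icc.1 (hh j)
    _ = (∑ j, |A i j|) * R := by rw [Finset.sum_mul]
    _ ≤ (c : ℤ) * R := by
        refine mul_le_mul_of_nonneg_right ?_ (by positivity)
        rw [hc]
        push_cast
        have h5 : ∑ j, |A i j| ≤ ∑ i, ∑ j, |A i j| :=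
          Finset.single_le_sum (f := fun i => ∑ j, |A i j|)
            (fun i _ => Finset.sum_nonneg fun j _ => abs_nonneg _) (Finset.mem_univ i)
        linarith
    _ = ((c * R : ℕ) : ℤ) := by push_cast; rfl

end

end STZ
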