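import Pool.Agent.STZ.FIN
import Pool.Agent.STZ.GEO
import Pool.Agent.STZ.WPT
import Pool.Agent.STZ.WINT
import Pool.Agent.STZ.YOUNG
import Pool.Agent.STZ.TT
import Pool.Agent.STZ.WEYL
import Pool.Agent.STZ.TIME
import Pool.Agent.STZ.KB
import Pool.Agent.STZ.STAR
import Pool.Agent.STZ.PRD
import Pool.Agent.STZ.BERN
import Pool.Agent.STZ.NQ
import Pool.Agent.STZ.PIECE
import Pool.Agent.STZ.LOC1
import Pool.Agent.STZ.LOC2
import Pool.Agent.STZ.SCH
import Pool.Agent.STZ.ALL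
import Pool.Agent.STZ.HAAR
import Pool.Agent.STZ.SCHUR
import Pool.Agent.STZ.CHAR
import Pool.Agent.STZ.DECO
import Pool.Agent.STZ.VIRT
import Pool.Agent.STZ.KERI
import Pool.Agent.STZ.ALLI
import Pool.Agent.STZ.EXP
import Pool.Agent.STZ.CALC
import Pool.Agent.STZ.GREEN
import Pool.Agent.STZ.CAS
import Pool.Agent.STZ.SW
import Pool.Agent.STZ.TENS
import Pool.Agent.STZ.ALT
import Pool.Agent.STZ.LAPX
import Pool.Agent.STZ.FRX
import Pool.Agent.STZ.ORT3
import Pool.Agent.STZ.INTG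
import Pool.Agent.STZ.IRR3
import Pool.Agent.STZ.CPL3
import Pool.Agent.STZ.MULT
import Pool.Agent.STZ.STR
import Pool.Agent.STZ.CG
import Pool.Agent.STZ.SD3
import Pool.Agent.STZ.EIG3

/-!
# The upper bound: `(S_p)` on `SU(3)` for all `p > 4`
-/

namespace STZ

theorem star : S_STAR := t_STAR t_KB

theorem prd : S_PRD := t_PRD t_KB star

theorem bern : S_BERN := t_BERN t_KB

theorem time : S_TIME := t_TIME (t_WINT t_WPT) (t_TT t_YOUNG) (t_WEYL t_GEO)

theorem piece : S_PIECE := t_PIECE t_KB prd bern time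

theorem loc1 : S_LOC1 := t_LOC1 t_KB prd t_NQ piece

theorem loc2 : S_LOC2 := t_LOC2 t_KB prd t_NQ loc1

theorem all : S_ALL := t_ALL t_NQ t_SCH loc2

theorem char : S_CHAR := t_CHAR t_SCHUR

theorem virt : S_VIRT := t_VIRT char t_DECO

theorem keri : S_KERI := t_KERI t_SCHUR

theorem alli : S_ALLI := t_ALLI t_KB char t_DECO keri

theorem calc1 : S_CALC := t_CALC t_EXP

theorem green : S_GREEN := t_GREEN t_HAAR t_EXP calc1

theorem lapx : S_LAPX := t_LAPX calc1 t_CAS t_ALT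

theorem ort3 : S_ORT3 := t_ORT3 calc1 green t_FRX t_ALT lapx

theorem intg : S_INTG := t_INTG t_ALT

theorem irr3 : S_IRR3 := t_IRR3 virt t_TENS t_ALT ort3 intg

theorem cpl3 : S_CPL3 := t_CPL3 t_HAAR t_KB keri alli t_TENS t_SW intg irr3

theorem cg : S_CG := t_CG (t_MULT t_ALT) (t_STR t_ALT)

theorem sd3 : S_SD3 := t_SD3 keri t_ALT ort3 irr3 cg

theorem eig3 : S_EIG3 := t_EIG3 t_KB keri calc1 green t_ALT lapx irr3 cpl3

theorem main_upper : MainUpper := t_FIN all t_NQ t_KB t_HAAR sd3 eig3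

end STZ
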