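import Pool.Agent.STZ.StmtsM

/-!
# STZ, VRING: the virtual characters form a ring
-/

namespace STZ

open MeasureTheory Matrix

open scoped ComplexConjugate Matrix Kronecker

noncomputable section

namespace VRING

variable {G : Type} [Group G] [TopologicalSpace G]

/-- transport of a representation to another index type -/
def reind {ι κ : Type} [Fintype ι] [DecidableEq ι] [Fintype κ] [DecidableEq κ] (e : ι ≃ κ)
    (R : Rep G ι) : Rep G κ where
  ρ :=
    { toFun := fun g => (R.ρ g).submatrix e.symm e.symm
      map_one' := by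
        rw [map_one]
        exact Matrix.submatrix_one_equiv e.symm
      map_mul' := fun g h => by
        rw [map_mul, Matrix.submatrix_mul_equiv] }
  cont := by
    refine continuous_pi fun i => continuous_pi fun j => ?_
    exact (continuous_apply (e.symm j)).comp ((continuous_apply (e.symm i)).comp R.cont)
  unit := fun g => by
    show (R.ρ g⁻¹).submatrix e.symm e.symm = ((R.ρ g).submatrix e.symm e.symm)ᴴ
    rw [R.unit, Matrix.conjTranspose_submatrix]

theorem reind_ch {ι κ : Type} [Fintype ι] [DecidableEq ι] [Fintype κ] [DecidableEq κ] (e : ι ≃ κ)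
    (R : Rep G ι) (g : G) : (reind e R).ch g = R.ch g := by
  show ((R.ρ g).submatrix e.symm e.symm).trace = (R.ρ g).trace
  simp only [Matrix.trace, Matrix.diag_apply, Matrix.submatrix_apply]
  exact Equiv.sum_comp e.symm (fun i => R.ρ g i i)

/-- the trivial representation -/
def triv : Rep G (Fin 1) where
  ρ := 1
  cont := continuous_const
  unit := fun g => by simp

theorem triv_ch (g : G) : (triv (G := G)).ch g = 1 := by
  show (1 : Matrix (Fin 1) (Fin 1) ℂ).trace = 1
  simp

/-- the tensor product -/
def tens {ι κ : Type} [Fintype ι] [DecidableEq ι] [Fintype κ] [DecidableEq κ]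
    (R : Rep G ι) (S : Rep G κ) : Rep G (ι × κ) where
  ρ :=
    { toFun := fun g => R.ρ g ⊗ₖ S.ρ g
      map_one' := by
        rw [map_one, map_one]
        exact Matrix.one_kronecker_one
      map_mul' := fun g h => by
        rw [map_mul, map_mul, Matrix.mul_kronecker_mul] }
  cont := by
    refine continuous_pi fun i => continuous_pi fun j => ?_
    show Continuous fun g => R.ρ g i.1 j.1 * S.ρ g i.2 j.2
    exact ((continuous_apply j.1).comp ((continuous_apply i.1).comp R.cont)).mul
      ((continuous_apply j.2).comp ((continuous_apply i.2).comp S.cont))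
  unit := fun g => by
    show R.ρ g⁻¹ ⊗ₖ S.ρ g⁻¹ = (R.ρ g ⊗ₖ S.ρ g)ᴴ
    rw [R.unit, S.unit, Matrix.conjTranspose_kronecker]

theorem tens_ch {ι κ : Type} [Fintype ι] [DecidableEq ι] [Fintype κ] [DecidableEq κ]
    (R : Rep G ι) (S : Rep G κ) (g : G) : (tens R S).ch g = R.ch g * S.ch g := by
  show (R.ρ g ⊗ₖ S.ρ g).trace = (R.ρ g).trace * (S.ρ g).trace
  exact Matrix.trace_kronecker _ _

/-- the complex conjugate representation -/
def cj {ι : Type} [Fintype ι] [DecidableEq ι] (R : Rep G ι) : Rep G ι where
  ρ :=
    { toFun := fun g => (R.ρ g).map (starRingEnd ℂ)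
      map_one' := by
        rw [map_one]
        exact Matrix.map_one _ (map_zero _) (map_one _)
      map_mul' := fun g h => by
        rw [map_mul, Matrix.map_mul] }
  cont := by
    refine continuous_pi fun i => continuous_pi fun j => ?_
    exact Complex.continuous_conj.comp
      ((continuous_apply j).comp ((continuous_apply i).comp R.cont))
  unit := fun g => by
    show (R.ρ g⁻¹).map (starRingEnd ℂ) = ((R.ρ g).map (starRingEnd ℂ))ᴴ
    rw [R.unit]
    rfl

theorem cj_ch {ι : Type} [Fintype ι] [DecidableEq ι] (R : Rep G ι) (g : G) :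
    (cj R).ch g = conj (R.ch g) := by
  show ((R.ρ g).map (starRingEnd ℂ)).trace = conj (R.ρ g).trace
  simp only [Matrix.trace, Matrix.diag_apply, Matrix.map_apply, map_sum]

/-- integer combinations over any finite index type -/
theorem vc_of {J : Type} [Fintype J] (ι : J → Type) [∀ j, Fintype (ι j)]
    [∀ j, DecidableEq (ι j)] (R : ∀ j, Rep G (ι j)) (n : J → ℤ) (f : G → ℂ)
    (h : ∀ g, f g = ∑ j, (n j : ℂ) * (R j).ch g) : VC f := by
  classical
  let e := (Fintype.equivFin J).symm
  refine ⟨Fintype.card J, fun j => Fintype.card (ι (e j)),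
    fun j => reind (Fintype.equivFin (ι (e j))) (R (e j)), fun j => n (e j), fun g => ?_⟩
  rw [h g, ← Equiv.sum_comp e]
  refine Finset.sum_congr rfl fun j _ => ?_
  rw [reind_ch]

end VRING

open VRING in
theorem t_VRING : S_VRING := by
  intro G _ _
  refine ⟨fun n => ?_, ?_, ?_, ?_, ?_⟩
  · refine ⟨1, fun _ => 1, fun _ => triv, fun _ => n, fun g => ?_⟩
    simp [triv_ch]
  · rintro f h ⟨m, M, R, n, hf⟩ ⟨m', M', R', n', hh⟩
    refine vc_of (J := Fin m ⊕ Fin m') (fun j => Fin (Sum.elim M M' j))
      (fun j => match j with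
        | Sum.inl i => R i
        | Sum.inr i => R' i) (Sum.elim n n') _ fun g => ?_
    rw [hf g, hh g, Fintype.sum_sum_type]
    rfl
  · rintro f h ⟨m, M, R, n, hf⟩ ⟨m', M', R', n', hh⟩
    refine vc_of (J := Fin m × Fin m') (fun j => Fin (M j.1) × Fin (M' j.2))
      (fun j => tens (R j.1) (R' j.2)) (fun j => n j.1 * n' j.2) _ fun g => ?_
    rw [hf g, hh g, Finset.sum_mul_sum, Fintype.sum_prod_type]
    refine Finset.sum_congr rfl fun i _ => Finset.sum_congr rfl fun j _ => ?_
    rw [tens_ch]
    push_cast
    ring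
  · rintro f ⟨m, M, R, n, hf⟩
    refine ⟨m, M, fun j => cj (R j), n, fun g => ?_⟩
    show conj (f g) = _
    rw [hf g, map_sum]
    refine Finset.sum_congr rfl fun i _ => ?_
    rw [cj_ch, map_mul]
    simp
  · intro ι _ _ R
    refine vc_of (J := Fin 1) (fun _ => ι) (fun _ => R) (fun _ => 1) _ fun g => ?_
    simp

end

end STZ
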