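import Pool.Agent.STZ.StmtsK

/-!
# Module WKA: the combinatorial data of the root system A₂
-/

namespace STZ

open MeasureTheory Matrix

open scoped ComplexConjugate Matrix Real

noncomputable section

namespace WKA

/-- case analysis on the six elements of the Weyl group -/
theorem cas {p : Matrix (Fin 2) (Fin 2) ℤ → Prop} (h0 : p !![1, 0; 0, 1]) (h1 : p !![-1, 0; 1, 1])
    (h2 : p !![1, 1; 0, -1]) (h3 : p !![0, 1; -1, -1]) (h4 : p !![-1, -1; 1, 0])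
    (h5 : p !![0, -1; -1, 0]) : ∀ w ∈ W1, p w := by
  intro w hw
  simp only [W1, Finset.mem_insert, Finset.mem_singleton] at hw
  rcases hw with rfl | rfl | rfl | rfl | rfl | rfl <;> assumption

theorem eta (l : Fin 2 → ℤ) : l = ![l 0, l 1] := by
  ext i; fin_cases i <;> rfl

theorem mv (a b c d : ℤ) (l : Fin 2 → ℤ) :
    !![a, b; c, d] *ᵥ l = ![a * l 0 + b * l 1, c * l 0 + d * l 1] := by
  ext i; fin_cases i <;> simp [Matrix.mulVec, dotProduct, Fin.sum_univ_two]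

theorem S0 : D1.S 0 = {![1, 0], ![-1, 1], ![0, -1]} := rfl

theorem S1 : D1.S 1 = {![-1, 0], ![1, -1], ![0, 1]} := rfl

theorem Qd (l : Fin 2 → ℤ) : D1.Q l = l 0 ^ 2 + l 0 * l 1 + l 1 ^ 2 := rfl

theorem st0 : D1.st 0 = 1 := by simp [D1]

theorem st1 : D1.st 1 = 0 := by simp [D1]

theorem sg0 : (Pi.single 0 1 : Fin 2 → ℤ) = ![1, 0] := by
  ext i; fin_cases i <;> simp

theorem sg1 : (Pi.single 1 1 : Fin 2 → ℤ) = ![0, 1] := by
  ext i; fin_cases i <;> simp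

theorem W_one : (1 : Matrix (Fin 2) (Fin 2) ℤ) ∈ W1 := by
  rw [Matrix.one_fin_two]; simp [W1]

theorem W_mul : ∀ w ∈ W1, ∀ w' ∈ W1, w * w' ∈ W1 := by
  decide +kernel

theorem W_inv : ∀ w ∈ W1, ∃ w' ∈ W1, w' * w = 1 := by
  decide +kernel

theorem W_det : ∀ w ∈ W1, w.det = 1 ∨ w.det = -1 := by
  apply cas <;> simp [Matrix.det_fin_two]

theorem Q_W : ∀ w ∈ W1, ∀ l, D1.Q (w *ᵥ l) = D1.Q l := by
  apply cas <;> intro l <;> rw [mv, Qd, Qd] <;> simp only [Matrix.cons_val_zero, Matrix.cons_val_one] <;> ring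

theorem S_W : ∀ i, ∀ w ∈ W1, ∀ κ ∈ D1.S i, w *ᵥ κ ∈ D1.S i := by
  intro i
  fin_cases i
  · show ∀ w ∈ W1, ∀ κ ∈ ({![1, 0], ![-1, 1], ![0, -1]} : Finset (Fin 2 → ℤ)), w *ᵥ κ ∈ ({![1, 0], ![-1, 1], ![0, -1]} : Finset (Fin 2 → ℤ))
    decide +kernel
  · show ∀ w ∈ W1, ∀ κ ∈ ({![-1, 0], ![1, -1], ![0, 1]} : Finset (Fin 2 → ℤ)), w *ᵥ κ ∈ ({![-1, 0], ![1, -1], ![0, 1]} : Finset (Fin 2 → ℤ))
    decide +kernel

theorem S_st : ∀ i κ, κ ∈ D1.S (D1.st i) ↔ -κ ∈ D1.S i := by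
  intro i κ
  rw [eta κ]
  generalize κ 0 = a
  generalize κ 1 = b
  fin_cases i
  · show _ ∈ D1.S (D1.st 0) ↔ _ ∈ D1.S 0
    rw [st0, S0, S1]
    simp only [Finset.mem_insert, Finset.mem_singleton, Matrix.neg_cons, Matrix.neg_empty, Matrix.vecCons_inj, and_true]
    omega
  · show _ ∈ D1.S (D1.st 1) ↔ _ ∈ D1.S 1
    rw [st1, S0, S1]
    simp only [Finset.mem_insert, Finset.mem_singleton, Matrix.neg_cons, Matrix.neg_empty, Matrix.vecCons_inj, and_true]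
    omega

theorem w0 : ∃ w ∈ W1, ∀ κ : Fin 2 → ℤ, w *ᵥ κ = -(κ ∘ D1.st) := by
  refine ⟨!![0, -1; -1, 0], by simp [W1], fun κ => ?_⟩
  rw [mv]
  ext i
  fin_cases i
  · show 0 * κ 0 + -1 * κ 1 = -(κ (D1.st 0))
    rw [st0]; ring
  · show -1 * κ 0 + 0 * κ 1 = -(κ (D1.st 1))
    rw [st1]; ring

theorem refl : ∀ i, ∃ w ∈ W1, w.det = -1 ∧ ∀ l : Fin 2 → ℤ, l i = 0 → w *ᵥ l = l := by
  intro i
  fin_cases i
  · refine ⟨!![-1, 0; 1, 1], by simp [W1], by simp [Matrix.det_fin_two], fun l hl => ?_⟩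
    replace hl : l 0 = 0 := hl
    rw [mv, hl]
    ext i; fin_cases i <;> simp [hl]
  · refine ⟨!![1, 1; 0, -1], by simp [W1], by simp [Matrix.det_fin_two], fun l hl => ?_⟩
    replace hl : l 1 = 0 := hl
    rw [mv, hl]
    ext i; fin_cases i <;> simp [hl]

theorem str : ∀ l : Fin 2 → ℤ, ∃ w ∈ W1, ∀ i, 0 ≤ (w *ᵥ l) i := by
  intro l
  have key : ∀ a b c d : ℤ, !![a, b; c, d] ∈ W1 → 0 ≤ a * l 0 + b * l 1 → 0 ≤ c * l 0 + d * l 1 →
      ∃ w ∈ W1, ∀ i, 0 ≤ (w *ᵥ l) i := by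
    intro a b c d hm h0 h1
    refine ⟨_, hm, fun i => ?_⟩
    rw [mv]
    fin_cases i
    · exact h0
    · exact h1
  have k0 := key 1 0 0 1 (by simp [W1])
  have k1 := key (-1) 0 1 1 (by simp [W1])
  have k2 := key 1 1 0 (-1) (by simp [W1])
  have k3 := key 0 1 (-1) (-1) (by simp [W1])
  have k4 := key (-1) (-1) 1 0 (by simp [W1])
  have k5 := key 0 (-1) (-1) 0 (by simp [W1])
  rcases le_total 0 (l 0) with h | h <;> rcases le_total 0 (l 1) with h' | h' <;>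
    rcases le_total 0 (l 0 + l 1) with h'' | h''
  · exact k0 (by omega) (by omega)
  · exact k0 (by omega) (by omega)
  · exact k2 (by omega) (by omega)
  · exact k4 (by omega) (by omega)
  · exact k1 (by omega) (by omega)
  · exact k3 (by omega) (by omega)
  · exact k5 (by omega) (by omega)
  · exact k5 (by omega) (by omega)

theorem free : ∀ l : Fin 2 → ℤ, Reg l → ∀ w ∈ W1, Reg (w *ᵥ l) → w = 1 := by
  intro l hl
  have h0 := hl 0
  have h1 := hl 1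
  apply cas <;> intro h <;> rw [mv] at h <;> have g0 := h 0 <;> have g1 := h 1 <;>
    simp only [Matrix.cons_val_zero, Matrix.cons_val_one] at g0 g1
  · exact Matrix.one_fin_two.symm
  all_goals (exfalso; omega)

theorem top : ∀ i, (Pi.single i 1 : Fin 2 → ℤ) ∈ D1.S i ∧ D1.P i (Pi.single i 1) = 1 := by
  intro i
  refine ⟨?_, rfl⟩
  fin_cases i
  · show (Pi.single 0 1 : Fin 2 → ℤ) ∈ D1.S 0
    rw [sg0, S0]; simp
  · show (Pi.single 1 1 : Fin 2 → ℤ) ∈ D1.S 1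
    rw [sg1, S1]; simp

theorem lt : ∀ i (l : Fin 2 → ℤ), Reg l → ∀ κ ∈ D1.S i, κ ≠ Pi.single i 1 →
    D1.Q (l + κ) < D1.Q (l + Pi.single i 1) := by
  intro i l hl κ hκ hne
  have h0 := hl 0
  have h1 := hl 1
  fin_cases i
  · replace hκ : κ ∈ D1.S 0 := hκ
    replace hne : κ ≠ Pi.single 0 1 := hne
    show D1.Q (l + κ) < D1.Q (l + Pi.single 0 1)
    rw [sg0] at *
    rw [S0] at hκ
    simp only [Finset.mem_insert, Finset.mem_singleton] at hκ
    rcases hκ with rfl | rfl | rfl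
    · exact absurd rfl hne
    · simp only [Qd, Pi.add_apply, Matrix.cons_val_zero, Matrix.cons_val_one]
      nlinarith
    · simp only [Qd, Pi.add_apply, Matrix.cons_val_zero, Matrix.cons_val_one]
      nlinarith
  · replace hκ : κ ∈ D1.S 1 := hκ
    replace hne : κ ≠ Pi.single 1 1 := hne
    show D1.Q (l + κ) < D1.Q (l + Pi.single 1 1)
    rw [sg1] at *
    rw [S1] at hκ
    simp only [Finset.mem_insert, Finset.mem_singleton] at hκ
    rcases hκ with rfl | rfl | rfl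
    · simp only [Qd, Pi.add_apply, Matrix.cons_val_zero, Matrix.cons_val_one]
      nlinarith
    · simp only [Qd, Pi.add_apply, Matrix.cons_val_zero, Matrix.cons_val_one]
      nlinarith
    · exact absurd rfl hne

theorem chm : ∀ a b : Fin 2 → ℤ, (∀ i, 0 ≤ a i) → (∀ i, 0 ≤ b i) → ∀ w ∈ W1,
    D1.Q (a - b) ≤ D1.Q (a - w *ᵥ b) := by
  intro a b ha hb
  have a0 := ha 0
  have a1 := ha 1
  have b0 := hb 0
  have b1 := hb 1
  have m00 := mul_nonneg a0 b0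
  have m01 := mul_nonneg a0 b1
  have m10 := mul_nonneg a1 b0
  have m11 := mul_nonneg a1 b1
  apply cas <;> rw [mv] <;>
    simp only [Qd, Pi.sub_apply, Matrix.cons_val_zero, Matrix.cons_val_one] <;> nlinarith

theorem qf : QF D1.Q D1.A := by
  constructor
  · intro x y
    show _ = _ + _ + x ⬝ᵥ (!![2, 1; 1, 2] *ᵥ y)
    rw [mv]
    simp only [Qd, Pi.add_apply, dotProduct, Fin.sum_univ_two, Matrix.cons_val_zero, Matrix.cons_val_one]
    ring
  · show (!![2, 1; 1, 2] : Matrix (Fin 2) (Fin 2) ℤ).det ≠ 0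
    simp [Matrix.det_fin_two]

theorem pd : ∃ c : ℝ, 0 < c ∧ ∀ l : Fin 2 → ℤ, c * (sz l - 1) ^ 2 ≤ D1.Q l ∧ c * D1.Q l ≤ (sz l - 1) ^ 2 := by
  refine ⟨1 / 4, by norm_num, fun l => ?_⟩
  have hs : sz l - 1 = |(l 0 : ℝ)| + |(l 1 : ℝ)| := by
    simp [sz, Fin.sum_univ_two]
  rw [hs, Qd]
  push_cast
  generalize (l 0 : ℝ) = x
  generalize (l 1 : ℝ) = y
  have h1 : (|x| + |y|) ^ 2 = x ^ 2 + y ^ 2 + 2 * |x * y| := by
    rw [abs_mul, add_sq, sq_abs, sq_abs]; ring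
  rw [h1]
  have h2 := le_abs_self (x * y)
  have h3 := neg_abs_le (x * y)
  have h4 := abs_nonneg (x * y)
  constructor
  · have h5 : |x * y| ≤ (x ^ 2 + y ^ 2) / 2 := by
      rw [abs_le]; constructor <;> nlinarith [sq_nonneg (x + y), sq_nonneg (x - y)]
    nlinarith
  · nlinarith [sq_nonneg x, sq_nonneg y]

theorem rho : ∀ l : Fin 2 → ℤ, Reg l → l ≠ 1 → D1.Q 1 < D1.Q l := by
  intro l hl hne
  have h0 := hl 0
  have h1 := hl 1
  have h : l 0 ≠ 1 ∨ l 1 ≠ 1 := by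
    by_contra hc
    push Not at hc
    apply hne
    rw [eta l, hc.1, hc.2]
    ext i; fin_cases i <;> rfl
  simp only [Qd, Pi.one_apply]
  have h' : 3 ≤ l 0 + l 1 := by omega
  nlinarith

theorem base : ∀ φ : (Fin 2 → ℤ) → ℂ, (∀ w ∈ W1, ∀ l, φ (w *ᵥ l) = (w.det : ℂ) * φ l) → ∀ i,
    ∑ κ ∈ D1.S i, (D1.P i κ : ℂ) * ((D1.Q (1 + κ) : ℂ) - D1.Q (1 + Pi.single i 1)) * φ (1 + κ) = 0 := by
  intro φ hφ i
  have wall : ∀ i, ∀ l : Fin 2 → ℤ, l i = 0 → φ l = 0 := by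
    intro i l hl
    obtain ⟨w, hw, hd, h⟩ := refl i
    have h2 := hφ w hw l
    rw [h l hl, hd] at h2
    have h3 : φ l = -φ l := by simpa using h2
    have h4 : (2 : ℂ) * φ l = 0 := by linear_combination h3
    simpa using h4
  fin_cases i
  · show ∑ κ ∈ D1.S 0, (D1.P 0 κ : ℂ) * ((D1.Q (1 + κ) : ℂ) - D1.Q (1 + Pi.single 0 1)) * φ (1 + κ) = 0
    rw [S0]
    apply Finset.sum_eq_zero
    intro κ hκ
    simp only [Finset.mem_insert, Finset.mem_singleton] at hκ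
    rcases hκ with rfl | rfl | rfl
    · rw [sg0]; simp
    · rw [wall 0 (1 + ![-1, 1]) (by simp)]; simp
    · rw [wall 1 (1 + ![0, -1]) (by simp)]; simp
  · show ∑ κ ∈ D1.S 1, (D1.P 1 κ : ℂ) * ((D1.Q (1 + κ) : ℂ) - D1.Q (1 + Pi.single 1 1)) * φ (1 + κ) = 0
    rw [S1]
    apply Finset.sum_eq_zero
    intro κ hκ
    simp only [Finset.mem_insert, Finset.mem_singleton] at hκ
    rcases hκ with rfl | rfl | rfl
    · rw [wall 0 (1 + ![-1, 0]) (by simp)]; simp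
    · rw [wall 1 (1 + ![1, -1]) (by simp)]; simp
    · rw [sg1]; simp

end WKA

/-- the combinatorial data of `A₂` has the properties `RDW` -/
theorem t_WKA : S_WKA where
  r2 := le_refl 2
  W_one := WKA.W_one
  W_mul := WKA.W_mul
  W_inv := WKA.W_inv
  W_det := WKA.W_det
  Q_W := WKA.Q_W
  S_W := WKA.S_W
  P_W := fun _ _ _ _ => rfl
  S_st := WKA.S_st
  P_st := fun _ _ => rfl
  st2 := by
    intro i
    fin_cases i
    · show D1.st (D1.st 0) = 0
      rw [WKA.st0, WKA.st1]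
    · show D1.st (D1.st 1) = 1
      rw [WKA.st1, WKA.st0]
  w0 := WKA.w0
  refl := WKA.refl
  str := WKA.str
  free := WKA.free
  top := WKA.top
  lt := WKA.lt
  chm := WKA.chm
  qf := WKA.qf
  pd := WKA.pd
  rho := WKA.rho
  base := WKA.base

end

end STZ
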