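import Pool.Agent.STZ.StmtsK

/-!
# Module WKC: the combinatorial data of `Sp(2)`
-/

namespace STZ

open MeasureTheory Matrix

open scoped ComplexConjugate Matrix Real

namespace WKC

theorem mul_mem : ∀ w ∈ W2, ∀ w' ∈ W2, w * w' ∈ W2 := by
  decide +kernel

theorem inv_mem : ∀ w ∈ W2, ∃ w' ∈ W2, w' * w = 1 := by
  decide +kernel

theorem one_mem : (1 : Matrix (Fin 2) (Fin 2) ℤ) ∈ W2 := by
  decide +kernel

theorem cases8 {w : Matrix (Fin 2) (Fin 2) ℤ} (hw : w ∈ W2) :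
    w = !![1, 0; 0, 1] ∨ w = !![-1, 0; 1, 1] ∨ w = !![1, 2; 0, -1] ∨ w = !![1, 2; -1, -1] ∨
      w = !![-1, -2; 1, 1] ∨ w = !![-1, -2; 0, 1] ∨ w = !![1, 0; -1, -1] ∨
      w = !![-1, 0; 0, -1] := by
  simpa only [W2, Finset.mem_insert, Finset.mem_singleton] using hw

theorem mv0 (a b c d : ℤ) (l : Fin 2 → ℤ) : (!![a, b; c, d] *ᵥ l) 0 = a * l 0 + b * l 1 := by
  simp [Matrix.mulVec, dotProduct, Fin.sum_univ_two]

theorem mv1 (a b c d : ℤ) (l : Fin 2 → ℤ) : (!![a, b; c, d] *ᵥ l) 1 = c * l 0 + d * l 1 := by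
  simp [Matrix.mulVec, dotProduct, Fin.sum_univ_two]

def Qf (l : Fin 2 → ℤ) : ℤ := l 0 ^ 2 + 2 * l 0 * l 1 + 2 * l 1 ^ 2

def Sf : Fin 2 → Finset (Fin 2 → ℤ) := ![{![1, 0], ![-1, 1], ![-1, 0], ![1, -1]},
    {![0, 1], ![2, -1], ![0, -1], ![-2, 1], ![0, 0]}]

theorem S_W : ∀ i, ∀ w ∈ W2, ∀ κ ∈ Sf i, w *ᵥ κ ∈ Sf i := by
  decide +kernel

theorem S_neg : ∀ i, ∀ κ ∈ Sf i, -κ ∈ Sf i := by
  decide +kernel

theorem mem0 {κ : Fin 2 → ℤ} (h : κ ∈ Sf 0) :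
    κ = ![1, 0] ∨ κ = ![-1, 1] ∨ κ = ![-1, 0] ∨ κ = ![1, -1] := by
  simpa [Sf] using h

theorem mem1 {κ : Fin 2 → ℤ} (h : κ ∈ Sf 1) :
    κ = ![0, 1] ∨ κ = ![2, -1] ∨ κ = ![0, -1] ∨ κ = ![-2, 1] ∨ κ = ![0, 0] := by
  simpa [Sf] using h

theorem top : ∀ i, (Pi.single i 1 : Fin 2 → ℤ) ∈ Sf i := by
  decide +kernel

theorem lt : ∀ i l, Reg l → ∀ κ ∈ Sf i, κ ≠ Pi.single i 1 →
    Qf (l + κ) < Qf (l + Pi.single i 1) := by
  intro i l hl κ hκ hne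
  have h0 := hl 0
  have h1 := hl 1
  fin_cases i
  · rcases mem0 hκ with rfl | rfl | rfl | rfl
    · exact absurd (by decide) hne
    all_goals (simp [Qf]; nlinarith)
  · rcases mem1 hκ with rfl | rfl | rfl | rfl | rfl
    · exact absurd (by decide) hne
    all_goals (simp [Qf]; nlinarith)

theorem Q_W : ∀ w ∈ W2, ∀ l, Qf (w *ᵥ l) = Qf l := by
  intro w hw l
  rcases cases8 hw with rfl | rfl | rfl | rfl | rfl | rfl | rfl | rfl <;>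
    simp only [Qf, mv0, mv1] <;> ring

theorem W_det : ∀ w ∈ W2, w.det = 1 ∨ w.det = -1 := by
  intro w hw
  rcases cases8 hw with rfl | rfl | rfl | rfl | rfl | rfl | rfl | rfl <;>
    simp [Matrix.det_fin_two]

theorem str (l : Fin 2 → ℤ) : ∃ w ∈ W2, ∀ i, 0 ≤ (w *ᵥ l) i := by
  have h : (0 ≤ l 0 ∧ 0 ≤ l 1) ∨ (0 ≤ -l 0 ∧ 0 ≤ l 0 + l 1) ∨
      (0 ≤ l 0 + 2 * l 1 ∧ 0 ≤ -l 1) ∨ (0 ≤ l 0 + 2 * l 1 ∧ 0 ≤ -l 0 - l 1) ∨
      (0 ≤ -l 0 - 2 * l 1 ∧ 0 ≤ l 0 + l 1) ∨ (0 ≤ -l 0 - 2 * l 1 ∧ 0 ≤ l 1) ∨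
      (0 ≤ l 0 ∧ 0 ≤ -l 0 - l 1) ∨ (0 ≤ -l 0 ∧ 0 ≤ -l 1) := by omega
  rcases h with h | h | h | h | h | h | h | h
  · refine ⟨!![1, 0; 0, 1], by simp [W2], fun i => ?_⟩
    fin_cases i
    · show 0 ≤ (!![1, 0; 0, 1] *ᵥ l) 0
      rw [mv0]; omega
    · show 0 ≤ (!![1, 0; 0, 1] *ᵥ l) 1
      rw [mv1]; omega
  · refine ⟨!![-1, 0; 1, 1], by simp [W2], fun i => ?_⟩
    fin_cases i
    · show 0 ≤ (!![-1, 0; 1, 1] *ᵥ l) 0
      rw [mv0]; omega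
    · show 0 ≤ (!![-1, 0; 1, 1] *ᵥ l) 1
      rw [mv1]; omega
  · refine ⟨!![1, 2; 0, -1], by simp [W2], fun i => ?_⟩
    fin_cases i
    · show 0 ≤ (!![1, 2; 0, -1] *ᵥ l) 0
      rw [mv0]; omega
    · show 0 ≤ (!![1, 2; 0, -1] *ᵥ l) 1
      rw [mv1]; omega
  · refine ⟨!![1, 2; -1, -1], by simp [W2], fun i => ?_⟩
    fin_cases i
    · show 0 ≤ (!![1, 2; -1, -1] *ᵥ l) 0
      rw [mv0]; omega
    · show 0 ≤ (!![1, 2; -1, -1] *ᵥ l) 1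
      rw [mv1]; omega
  · refine ⟨!![-1, -2; 1, 1], by simp [W2], fun i => ?_⟩
    fin_cases i
    · show 0 ≤ (!![-1, -2; 1, 1] *ᵥ l) 0
      rw [mv0]; omega
    · show 0 ≤ (!![-1, -2; 1, 1] *ᵥ l) 1
      rw [mv1]; omega
  · refine ⟨!![-1, -2; 0, 1], by simp [W2], fun i => ?_⟩
    fin_cases i
    · show 0 ≤ (!![-1, -2; 0, 1] *ᵥ l) 0
      rw [mv0]; omega
    · show 0 ≤ (!![-1, -2; 0, 1] *ᵥ l) 1
      rw [mv1]; omega
  · refine ⟨!![1, 0; -1, -1], by simp [W2], fun i => ?_⟩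
    fin_cases i
    · show 0 ≤ (!![1, 0; -1, -1] *ᵥ l) 0
      rw [mv0]; omega
    · show 0 ≤ (!![1, 0; -1, -1] *ᵥ l) 1
      rw [mv1]; omega
  · refine ⟨!![-1, 0; 0, -1], by simp [W2], fun i => ?_⟩
    fin_cases i
    · show 0 ≤ (!![-1, 0; 0, -1] *ᵥ l) 0
      rw [mv0]; omega
    · show 0 ≤ (!![-1, 0; 0, -1] *ᵥ l) 1
      rw [mv1]; omega

theorem free : ∀ l, Reg l → ∀ w ∈ W2, Reg (w *ᵥ l) → w = 1 := by
  intro l hl w hw h
  have h0 := hl 0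
  have h1 := hl 1
  have g0 := h 0
  have g1 := h 1
  rcases cases8 hw with rfl | rfl | rfl | rfl | rfl | rfl | rfl | rfl
  · decide +kernel
  all_goals
    exfalso
    rw [mv0] at g0
    rw [mv1] at g1
    omega

theorem chm : ∀ a b : Fin 2 → ℤ, (∀ i, 0 ≤ a i) → (∀ i, 0 ≤ b i) → ∀ w ∈ W2,
    Qf (a - b) ≤ Qf (a - w *ᵥ b) := by
  intro a b ha hb w hw
  have a0 := ha 0
  have a1 := ha 1
  have b0 := hb 0
  have b1 := hb 1
  have p00 := mul_nonneg a0 b0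
  have p01 := mul_nonneg a0 b1
  have p10 := mul_nonneg a1 b0
  have p11 := mul_nonneg a1 b1
  rcases cases8 hw with rfl | rfl | rfl | rfl | rfl | rfl | rfl | rfl <;>
    simp only [Qf, Pi.sub_apply, mv0, mv1] <;> nlinarith

theorem pd : ∃ c : ℝ, 0 < c ∧ ∀ l : Fin 2 → ℤ, c * (sz l - 1) ^ 2 ≤ Qf l ∧
    c * Qf l ≤ (sz l - 1) ^ 2 := by
  refine ⟨1 / 6, by norm_num, fun l => ?_⟩
  have h1 : sz l - 1 = |(l 0 : ℝ)| + |(l 1 : ℝ)| := by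
    simp [sz, Fin.sum_univ_two]
  have h2 : (Qf l : ℝ) = (l 0 : ℝ) ^ 2 + 2 * (l 0 : ℝ) * (l 1 : ℝ) + 2 * (l 1 : ℝ) ^ 2 := by
    simp [Qf]
  rw [h1, h2]
  have a0 := abs_nonneg (l 0 : ℝ)
  have a1 := abs_nonneg (l 1 : ℝ)
  have s0 := sq_abs (l 0 : ℝ)
  have s1 := sq_abs (l 1 : ℝ)
  have m1 : (l 0 : ℝ) * (l 1 : ℝ) ≤ |(l 0 : ℝ)| * |(l 1 : ℝ)| := by
    rw [← abs_mul]; exact le_abs_self _
  have m2 : -(|(l 0 : ℝ)| * |(l 1 : ℝ)|) ≤ (l 0 : ℝ) * (l 1 : ℝ) := by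
    rw [← abs_mul]; exact neg_abs_le _
  have m3 := mul_nonneg a0 a1
  constructor
  · nlinarith [sq_nonneg (5 * |(l 0 : ℝ)| - 7 * |(l 1 : ℝ)|), sq_nonneg |(l 1 : ℝ)|]
  · nlinarith [sq_nonneg |(l 0 : ℝ)|, sq_nonneg |(l 1 : ℝ)|]

theorem rho : ∀ l : Fin 2 → ℤ, Reg l → l ≠ 1 → Qf 1 < Qf l := by
  intro l hl hne
  have h0 := hl 0
  have h1 := hl 1
  have h2 : 2 ≤ l 0 ∨ 2 ≤ l 1 := by
    by_contra h
    push Not at h
    apply hne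
    funext i
    fin_cases i
    · show l 0 = 1
      omega
    · show l 1 = 1
      omega
  simp only [Qf, Pi.one_apply]
  rcases h2 with h | h <;> nlinarith [mul_nonneg (sub_nonneg.2 h0) (sub_nonneg.2 h1)]

theorem base (φ : (Fin 2 → ℤ) → ℂ) (hφ : ∀ w ∈ W2, ∀ l, φ (w *ᵥ l) = (w.det : ℂ) * φ l) (i) :
    ∑ κ ∈ Sf i, ((1 : ℤ) : ℂ) * ((Qf (1 + κ) : ℂ) - Qf (1 + Pi.single i 1)) * φ (1 + κ) = 0 := by
  have hw0 : ∀ l : Fin 2 → ℤ, l 0 = 0 → φ l = 0 := by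
    intro l hl
    have h1 := hφ !![-1, 0; 1, 1] (by simp [W2]) l
    have h2 : !![-1, 0; 1, 1] *ᵥ l = l := by
      funext j
      fin_cases j
      · show (!![-1, 0; 1, 1] *ᵥ l) 0 = l 0
        rw [mv0, hl]; ring
      · show (!![-1, 0; 1, 1] *ᵥ l) 1 = l 1
        rw [mv1, hl]; ring
    rw [h2] at h1
    simp [Matrix.det_fin_two] at h1
    linear_combination (1 / 2) * h1
  have hw1 : ∀ l : Fin 2 → ℤ, l 1 = 0 → φ l = 0 := by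
    intro l hl
    have h1 := hφ !![1, 2; 0, -1] (by simp [W2]) l
    have h2 : !![1, 2; 0, -1] *ᵥ l = l := by
      funext j
      fin_cases j
      · show (!![1, 2; 0, -1] *ᵥ l) 0 = l 0
        rw [mv0, hl]; ring
      · show (!![1, 2; 0, -1] *ᵥ l) 1 = l 1
        rw [mv1, hl]; ring
    rw [h2] at h1
    simp [Matrix.det_fin_two] at h1
    linear_combination (1 / 2) * h1
  fin_cases i
  · show ∑ κ ∈ ({![1, 0], ![-1, 1], ![-1, 0], ![1, -1]} : Finset (Fin 2 → ℤ)),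
      ((1 : ℤ) : ℂ) * ((Qf (1 + κ) : ℂ) - Qf (1 + Pi.single 0 1)) * φ (1 + κ) = 0
    rw [Finset.sum_insert (by decide), Finset.sum_insert (by decide),
      Finset.sum_insert (by decide), Finset.sum_singleton]
    rw [hw0 (1 + ![-1, 1]) (by simp), hw0 (1 + ![-1, 0]) (by simp), hw1 (1 + ![1, -1]) (by simp)]
    have h1 : (1 + Pi.single 0 1 : Fin 2 → ℤ) = 1 + ![1, 0] := by decide
    rw [h1]
    ring
  · show ∑ κ ∈ ({![0, 1], ![2, -1], ![0, -1], ![-2, 1], ![0, 0]} : Finset (Fin 2 → ℤ)),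
      ((1 : ℤ) : ℂ) * ((Qf (1 + κ) : ℂ) - Qf (1 + Pi.single 1 1)) * φ (1 + κ) = 0
    rw [Finset.sum_insert (by decide), Finset.sum_insert (by decide),
      Finset.sum_insert (by decide), Finset.sum_insert (by decide), Finset.sum_singleton]
    rw [hw1 (1 + ![2, -1]) (by simp), hw1 (1 + ![0, -1]) (by simp)]
    have h1 : (1 + Pi.single 1 1 : Fin 2 → ℤ) = 1 + ![0, 1] := by decide
    have h2 := hφ !![-1, 0; 1, 1] (by simp [W2]) (1 + ![-2, 1])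
    have h3 : !![-1, 0; 1, 1] *ᵥ (1 + ![-2, 1]) = (1 + ![0, 0] : Fin 2 → ℤ) := by decide
    rw [h3] at h2
    simp only [Matrix.det_fin_two, Matrix.of_apply, Matrix.cons_val_zero, Matrix.cons_val_one] at h2
    have h4 : Qf (1 + ![-2, 1]) = 5 := by decide
    have h5 : Qf (1 + ![0, 0]) = 5 := by decide
    rw [h1, h2, h4, h5]
    push_cast
    ring

end WKC

open WKC in
theorem t_WKC : S_WKC where
  r2 := le_rfl
  W_one := one_mem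
  W_mul := mul_mem
  W_inv := inv_mem
  W_det := W_det
  Q_W := Q_W
  S_W := S_W
  P_W := fun _ _ _ _ => rfl
  S_st := by
    intro i κ
    refine ⟨fun h => S_neg i κ h, fun h => ?_⟩
    have := S_neg i (-κ) h
    rwa [neg_neg] at this
  P_st := fun _ _ => rfl
  st2 := fun _ => rfl
  w0 := by
    refine ⟨!![-1, 0; 0, -1], by decide +kernel, fun κ => ?_⟩
    funext j
    fin_cases j
    · show (!![-1, 0; 0, -1] *ᵥ κ) 0 = -κ 0
      rw [mv0]; ring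
    · show (!![-1, 0; 0, -1] *ᵥ κ) 1 = -κ 1
      rw [mv1]; ring
  refl := by
    intro i
    fin_cases i
    · refine ⟨!![-1, 0; 1, 1], by decide +kernel, by simp [Matrix.det_fin_two], fun l hl => ?_⟩
      have hl : l 0 = 0 := hl
      funext j
      fin_cases j
      · show (!![-1, 0; 1, 1] *ᵥ l) 0 = l 0
        rw [mv0, hl]; ring
      · show (!![-1, 0; 1, 1] *ᵥ l) 1 = l 1
        rw [mv1, hl]; ring
    · refine ⟨!![1, 2; 0, -1], by decide +kernel, by simp [Matrix.det_fin_two], fun l hl => ?_⟩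
      have hl : l 1 = 0 := hl
      funext j
      fin_cases j
      · show (!![1, 2; 0, -1] *ᵥ l) 0 = l 0
        rw [mv0, hl]; ring
      · show (!![1, 2; 0, -1] *ᵥ l) 1 = l 1
        rw [mv1, hl]; ring
  str := str
  free := free
  top := fun i => ⟨top i, rfl⟩
  lt := lt
  chm := chm
  qf := by
    refine ⟨fun x y => ?_, ?_⟩
    · show Qf (x + y) = Qf x + Qf y + x ⬝ᵥ (!![2, 2; 2, 4] *ᵥ y)
      simp only [Qf, Pi.add_apply, dotProduct, Fin.sum_univ_two, mv0, mv1]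
      ring
    · show (!![2, 2; 2, 4] : Matrix (Fin 2) (Fin 2) ℤ).det ≠ 0
      simp [Matrix.det_fin_two]
  pd := pd
  rho := rho
  base := fun φ hφ i => base φ hφ i

end STZ
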