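import Pool.Agent.STZ.StmtsK

/-!
# The combinatorial data of the root system `G₂`
-/

namespace STZ

open Matrix

namespace WKG

/-- the weights of the two fundamental representations -/
def S3 : Fin 2 → Finset (Fin 2 → ℤ) :=
  ![{![1, 0], ![2, -1], ![-1, 1], ![-1, 0], ![-2, 1], ![1, -1], ![0, 0]},
    {![1, 0], ![2, -1], ![-1, 1], ![-1, 0], ![-2, 1], ![1, -1], ![0, 0], ![-3, 2], ![3, -1], ![0, 1],
      ![3, -2], ![-3, 1], ![0, -1]}]

theorem S3_eq (ψ : (Fin 2 → ℂ) → (Fin 2 → ℤ) → ℂ) : (D3 ψ).S = S3 := rfl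

theorem mem_W3 {w : Matrix (Fin 2) (Fin 2) ℤ} (hw : w ∈ W3) :
    w = !![1, 0; 0, 1] ∨ w = !![-1, 0; 1, 1] ∨ w = !![1, 3; 0, -1] ∨ w = !![2, 3; -1, -1] ∨
    w = !![-1, -3; 1, 2] ∨ w = !![-2, -3; 1, 2] ∨ w = !![2, 3; -1, -2] ∨ w = !![1, 3; -1, -2] ∨
    w = !![-2, -3; 1, 1] ∨ w = !![-1, -3; 0, 1] ∨ w = !![1, 0; -1, -1] ∨ w = !![-1, 0; 0, -1] := by
  simpa only [W3, Finset.mem_insert, Finset.mem_singleton] using hw

theorem W3_mul : ∀ w ∈ W3, ∀ w' ∈ W3, w * w' ∈ W3 := by decide +kernel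

theorem W3_inv : ∀ w ∈ W3, ∃ w' ∈ W3, w' * w = 1 := by decide +kernel

theorem W3_one : 1 ∈ W3 := by decide +kernel

theorem W3_S : ∀ i, ∀ w ∈ W3, ∀ κ ∈ S3 i, w *ᵥ κ ∈ S3 i := by decide +kernel

theorem neg_S : ∀ i, ∀ κ ∈ S3 i, -κ ∈ S3 i := by decide +kernel

theorem mv (a b c d : ℤ) (l : Fin 2 → ℤ) :
    !![a, b; c, d] *ᵥ l = ![a * l 0 + b * l 1, c * l 0 + d * l 1] := by
  ext i
  fin_cases i <;> simp [Matrix.mulVec, dotProduct, Fin.sum_univ_two]

theorem W3_det {w : Matrix (Fin 2) (Fin 2) ℤ} (hw : w ∈ W3) : w.det = 1 ∨ w.det = -1 := by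
  rcases mem_W3 hw with rfl | rfl | rfl | rfl | rfl | rfl | rfl | rfl | rfl | rfl | rfl | rfl <;>
    simp [Matrix.det_fin_two_of]

theorem W3_Q {w : Matrix (Fin 2) (Fin 2) ℤ} (hw : w ∈ W3) (l : Fin 2 → ℤ) :
    (w *ᵥ l) 0 ^ 2 + 3 * (w *ᵥ l) 0 * (w *ᵥ l) 1 + 3 * (w *ᵥ l) 1 ^ 2 =
      l 0 ^ 2 + 3 * l 0 * l 1 + 3 * l 1 ^ 2 := by
  rcases mem_W3 hw with rfl | rfl | rfl | rfl | rfl | rfl | rfl | rfl | rfl | rfl | rfl | rfl <;>
    rw [mv] <;> simp only [Matrix.cons_val_zero, Matrix.cons_val_one] <;> ring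

theorem W3_zero {w : Matrix (Fin 2) (Fin 2) ℤ} (hw : w ∈ W3) (l : Fin 2 → ℤ) :
    w *ᵥ l = 0 ↔ l = 0 := by
  constructor
  · intro h
    obtain ⟨w', _, h'⟩ := W3_inv w hw
    have := congrArg (w' *ᵥ ·) h
    simpa only [Matrix.mulVec_mulVec, h', Matrix.one_mulVec, Matrix.mulVec_zero] using this
  · rintro rfl
    exact Matrix.mulVec_zero _

theorem W3_refl (i : Fin 2) : ∃ w ∈ W3, w.det = -1 ∧ ∀ l : Fin 2 → ℤ, l i = 0 → w *ᵥ l = l := by
  fin_cases i
  · refine ⟨!![-1, 0; 1, 1], by decide +kernel, by simp [Matrix.det_fin_two_of], fun l hl => ?_⟩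
    have h0 : l 0 = 0 := hl
    rw [mv]
    ext j
    fin_cases j <;> simp [h0]
  · refine ⟨!![1, 3; 0, -1], by decide +kernel, by simp [Matrix.det_fin_two_of], fun l hl => ?_⟩
    have h0 : l 1 = 0 := hl
    rw [mv]
    ext j
    fin_cases j <;> simp [h0]

theorem nn (a b : ℤ) (ha : 0 ≤ a) (hb : 0 ≤ b) : ∀ i, 0 ≤ (![a, b] : Fin 2 → ℤ) i := by
  intro i
  fin_cases i
  · exact ha
  · exact hb

theorem W3_str (l : Fin 2 → ℤ) : ∃ w ∈ W3, ∀ i, 0 ≤ (w *ᵥ l) i := by
  have key : ∀ a b c d : ℤ, !![a, b; c, d] ∈ W3 → 0 ≤ a * l 0 + b * l 1 → 0 ≤ c * l 0 + d * l 1 →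
      ∃ w ∈ W3, ∀ i, 0 ≤ (w *ᵥ l) i := by
    intro a b c d h h1 h2
    refine ⟨_, h, ?_⟩
    rw [mv]
    exact nn _ _ h1 h2
  rcases le_total 0 (l 0) with h0 | h0
  · rcases le_total 0 (l 1) with h1 | h1
    · exact key 1 0 0 1 (by decide +kernel) (by omega) (by omega)
    · rcases le_total 0 (l 0 + 3 * l 1) with h2 | h2
      · exact key 1 3 0 (-1) (by decide +kernel) (by omega) (by omega)
      · rcases le_total 0 (l 0 + 2 * l 1) with h3 | h3
        · exact key (-1) (-3) 1 2 (by decide +kernel) (by omega) (by omega)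
        · rcases le_total 0 (2 * l 0 + 3 * l 1) with h4 | h4
          · exact key 2 3 (-1) (-2) (by decide +kernel) (by omega) (by omega)
          · rcases le_total 0 (l 0 + l 1) with h5 | h5
            · exact key (-2) (-3) 1 1 (by decide +kernel) (by omega) (by omega)
            · exact key 1 0 (-1) (-1) (by decide +kernel) (by omega) (by omega)
  · rcases le_total 0 (l 1) with h1 | h1
    · rcases le_total 0 (l 0 + l 1) with h2 | h2
      · exact key (-1) 0 1 1 (by decide +kernel) (by omega) (by omega)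
      · rcases le_total 0 (2 * l 0 + 3 * l 1) with h3 | h3
        · exact key 2 3 (-1) (-1) (by decide +kernel) (by omega) (by omega)
        · rcases le_total 0 (l 0 + 2 * l 1) with h4 | h4
          · exact key (-2) (-3) 1 2 (by decide +kernel) (by omega) (by omega)
          · rcases le_total 0 (l 0 + 3 * l 1) with h5 | h5
            · exact key 1 3 (-1) (-2) (by decide +kernel) (by omega) (by omega)
            · exact key (-1) (-3) 0 1 (by decide +kernel) (by omega) (by omega)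
    · exact key (-1) 0 0 (-1) (by decide +kernel) (by omega) (by omega)

theorem W3_free (l : Fin 2 → ℤ) (hl : Reg l) {w : Matrix (Fin 2) (Fin 2) ℤ} (hw : w ∈ W3)
    (h : Reg (w *ᵥ l)) : w = 1 := by
  have l0 := hl 0
  have l1 := hl 1
  have h0 := h 0
  have h1 := h 1
  rcases mem_W3 hw with rfl | rfl | rfl | rfl | rfl | rfl | rfl | rfl | rfl | rfl | rfl | rfl
  · decide +kernel
  all_goals
    exfalso
    rw [mv] at h0 h1
    simp only [Matrix.cons_val_zero, Matrix.cons_val_one] at h0 h1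
    omega

/-- the quadratic form -/
def q3 (l : Fin 2 → ℤ) : ℤ := l 0 ^ 2 + 3 * l 0 * l 1 + 3 * l 1 ^ 2

theorem single0 : (Pi.single 0 1 : Fin 2 → ℤ) = ![1, 0] := by
  ext j
  fin_cases j <;> rfl

theorem single1 : (Pi.single 1 1 : Fin 2 → ℤ) = ![0, 1] := by
  ext j
  fin_cases j <;> rfl

theorem q3_add (l : Fin 2 → ℤ) (a b : ℤ) :
    q3 (l + ![a, b]) = (l 0 + a) ^ 2 + 3 * (l 0 + a) * (l 1 + b) + 3 * (l 1 + b) ^ 2 := rfl

theorem lt0 (l : Fin 2 → ℤ) (hl : Reg l) (κ : Fin 2 → ℤ) (hκ : κ ∈ S3 0) (h : κ ≠ ![1, 0]) :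
    q3 (l + κ) < q3 (l + ![1, 0]) := by
  have l0 := hl 0
  have l1 := hl 1
  have hk : κ = ![1, 0] ∨ κ = ![2, -1] ∨ κ = ![-1, 1] ∨ κ = ![-1, 0] ∨ κ = ![-2, 1] ∨ κ = ![1, -1] ∨
      κ = ![0, 0] := by
    simpa only [S3, Matrix.cons_val_zero, Finset.mem_insert, Finset.mem_singleton] using hκ
  rcases hk with rfl | rfl | rfl | rfl | rfl | rfl | rfl
  · exact absurd rfl h
  all_goals
    rw [q3_add, q3_add]
    linarith

theorem lt1 (l : Fin 2 → ℤ) (hl : Reg l) (κ : Fin 2 → ℤ) (hκ : κ ∈ S3 1) (h : κ ≠ ![0, 1]) :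
    q3 (l + κ) < q3 (l + ![0, 1]) := by
  have l0 := hl 0
  have l1 := hl 1
  have hk : κ = ![1, 0] ∨ κ = ![2, -1] ∨ κ = ![-1, 1] ∨ κ = ![-1, 0] ∨ κ = ![-2, 1] ∨ κ = ![1, -1] ∨
      κ = ![0, 0] ∨ κ = ![-3, 2] ∨ κ = ![3, -1] ∨ κ = ![0, 1] ∨ κ = ![3, -2] ∨ κ = ![-3, 1] ∨
      κ = ![0, -1] := by
    simpa only [S3, Matrix.cons_val_one, Matrix.cons_val_fin_one, Finset.mem_insert,
      Finset.mem_singleton] using hκ
  rcases hk with rfl | rfl | rfl | rfl | rfl | rfl | rfl | rfl | rfl | rfl | rfl | rfl | rfl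
  case inr.inr.inr.inr.inr.inr.inr.inr.inr.inl => exact absurd rfl h
  all_goals
    rw [q3_add, q3_add]
    linarith

theorem chm3 (a b : Fin 2 → ℤ) (ha : ∀ i, 0 ≤ a i) (hb : ∀ i, 0 ≤ b i)
    {w : Matrix (Fin 2) (Fin 2) ℤ} (hw : w ∈ W3) : q3 (a - b) ≤ q3 (a - w *ᵥ b) := by
  have h00 := mul_nonneg (ha 0) (hb 0)
  have h01 := mul_nonneg (ha 0) (hb 1)
  have h10 := mul_nonneg (ha 1) (hb 0)
  have h11 := mul_nonneg (ha 1) (hb 1)
  rcases mem_W3 hw with rfl | rfl | rfl | rfl | rfl | rfl | rfl | rfl | rfl | rfl | rfl | rfl <;>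
    rw [mv] <;>
    simp only [q3, Pi.sub_apply, Matrix.cons_val_zero, Matrix.cons_val_one] <;>
    linarith

theorem qf3 : QF q3 !![2, 3; 3, 6] := by
  constructor
  · intro x y
    rw [mv]
    simp only [q3, Pi.add_apply, dotProduct, Fin.sum_univ_two, Matrix.cons_val_zero,
      Matrix.cons_val_one]
    ring
  · rw [Matrix.det_fin_two_of]
    norm_num

theorem pd3 : ∃ c : ℝ, 0 < c ∧ ∀ l : Fin 2 → ℤ, c * (sz l - 1) ^ 2 ≤ q3 l ∧
    c * q3 l ≤ (sz l - 1) ^ 2 := by
  refine ⟨1 / 20, by norm_num, fun l => ?_⟩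
  have h1 : sz l - 1 = |(l 0 : ℝ)| + |(l 1 : ℝ)| := by
    rw [sz, Fin.sum_univ_two]
    ring
  have h2 : (q3 l : ℝ) = (l 0 : ℝ) ^ 2 + 3 * l 0 * l 1 + 3 * (l 1 : ℝ) ^ 2 := by
    rw [q3]
    push_cast
    ring
  rw [h1, h2]
  generalize (l 0 : ℝ) = x
  generalize (l 1 : ℝ) = y
  have hx := sq_abs x
  have hy := sq_abs y
  have hxy : x * y ≤ |x| * |y| := by
    rw [← abs_mul]
    exact le_abs_self _
  have h0 : 0 ≤ |x| * |y| := by positivity
  constructor
  · nlinarith [sq_nonneg (|x| - |y|), sq_nonneg (2 * x + 3 * y), sq_nonneg (x + 2 * y),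
      sq_nonneg x, sq_nonneg y]
  · nlinarith [sq_nonneg x, sq_nonneg y]

theorem rho3 (l : Fin 2 → ℤ) (hl : Reg l) (h : l ≠ 1) : q3 1 < q3 l := by
  have l0 := hl 0
  have l1 := hl 1
  have h1 : q3 1 = 7 := by decide +kernel
  rw [h1, q3]
  by_cases h2 : l 0 = 1
  · by_cases h3 : l 1 = 1
    · exfalso
      apply h
      ext j
      fin_cases j
      · exact h2
      · exact h3
    · have h4 : 2 ≤ l 1 := by omega
      rw [h2]
      nlinarith
  · have h4 : 2 ≤ l 0 := by omega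
    nlinarith [mul_nonneg (by omega : 0 ≤ l 0 - 2) (by omega : 0 ≤ l 1 - 1)]

theorem vec_add (a b : ℤ) : (1 : Fin 2 → ℤ) + ![a, b] = ![1 + a, 1 + b] := by
  ext j
  fin_cases j <;> rfl

theorem q3_vec (a b : ℤ) : q3 ![a, b] = a ^ 2 + 3 * a * b + 3 * b ^ 2 := rfl

/-- the multiplicities -/
def P3 (i : Fin 2) (κ : Fin 2 → ℤ) : ℤ := if i = 1 ∧ κ = 0 then 2 else 1

theorem base3 (φ : (Fin 2 → ℤ) → ℂ)
    (h : ∀ w ∈ W3, ∀ l, φ (w *ᵥ l) = (w.det : ℂ) * φ l) (i : Fin 2) :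
    ∑ κ ∈ S3 i, (P3 i κ : ℂ) * ((q3 (1 + κ) : ℂ) - q3 (1 + Pi.single i 1)) * φ (1 + κ) = 0 := by
  have r0 : ∀ a b : ℤ, φ ![a, b] = - φ ![-a, a + b] := by
    intro a b
    have := h !![-1, 0; 1, 1] (by decide +kernel) ![a, b]
    rw [mv, Matrix.det_fin_two_of] at this
    simp only [Matrix.cons_val_zero, Matrix.cons_val_one] at this
    norm_num at this
    rw [this]
    ring
  have r1 : ∀ a b : ℤ, φ ![a, b] = - φ ![a + 3 * b, -b] := by
    intro a b
    have := h !![1, 3; 0, -1] (by decide +kernel) ![a, b]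
    rw [mv, Matrix.det_fin_two_of] at this
    simp only [Matrix.cons_val_zero, Matrix.cons_val_one] at this
    norm_num at this
    rw [this]
    ring
  have z0 : ∀ b : ℤ, φ ![0, b] = 0 := by
    intro b
    have := r0 0 b
    simp only [neg_zero, zero_add] at this
    exact self_eq_neg.1 this
  have z1 : ∀ a : ℤ, φ ![a, 0] = 0 := by
    intro a
    have := r1 a 0
    simp only [neg_zero, mul_zero, add_zero] at this
    exact self_eq_neg.1 this
  have e1 : φ ![-1, 2] = - φ ![1, 1] := by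
    rw [r0]
    norm_num
  have e2 : φ ![4, -1] = - φ ![1, 1] := by
    rw [r1]
    norm_num
  have e3 : φ ![-2, 3] = - φ ![2, 1] := by
    rw [r0]
    norm_num
  have e4 : φ ![-2, 2] = 0 := by
    rw [r0]
    norm_num [z1]
  fin_cases i
  · simp only [Fin.zero_eta, S3, Matrix.cons_val_zero]
    rw [Finset.sum_insert (by decide), Finset.sum_insert (by decide), Finset.sum_insert (by decide),
      Finset.sum_insert (by decide), Finset.sum_insert (by decide), Finset.sum_insert (by decide),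
      Finset.sum_singleton]
    simp only [single0, vec_add, q3_vec, P3]
    norm_num [z0, z1, e1]
    try ring
  · simp only [Fin.mk_one, S3, Matrix.cons_val_one, Matrix.cons_val_fin_one]
    rw [Finset.sum_insert (by decide), Finset.sum_insert (by decide), Finset.sum_insert (by decide),
      Finset.sum_insert (by decide), Finset.sum_insert (by decide), Finset.sum_insert (by decide),
      Finset.sum_insert (by decide), Finset.sum_insert (by decide), Finset.sum_insert (by decide),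
      Finset.sum_insert (by decide), Finset.sum_insert (by decide), Finset.sum_insert (by decide),
      Finset.sum_singleton]
    simp only [single1, vec_add, q3_vec, P3]
    norm_num [z0, z1, e1, e2, e3, e4, eq_iff_true_of_subsingleton]
    try ring

end WKG

open WKG in
theorem t_WKG : S_WKG := by
  intro ψ
  exact
  { r2 := le_rfl
    W_one := W3_one
    W_mul := W3_mul
    W_inv := W3_inv
    W_det := fun w hw => W3_det hw
    Q_W := fun w hw l => W3_Q hw l
    S_W := W3_S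
    P_W := by
      intro i w hw κ
      change P3 i _ = P3 i _
      simp only [P3, W3_zero hw]
    S_st := by
      intro i κ
      change κ ∈ S3 i ↔ -κ ∈ S3 i
      refine ⟨neg_S i κ, fun h => ?_⟩
      have := neg_S i _ h
      rwa [neg_neg] at this
    P_st := by
      intro i κ
      change P3 i _ = P3 i _
      simp only [P3, neg_eq_zero]
    st2 := fun i => rfl
    w0 := by
      refine ⟨!![-1, 0; 0, -1], (by decide +kernel : !![-1, 0; 0, -1] ∈ W3), fun κ => ?_⟩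
      rw [mv]
      ext j
      fin_cases j
      · change -1 * κ 0 + 0 * κ 1 = - κ 0
        ring
      · change 0 * κ 0 + -1 * κ 1 = - κ 1
        ring
    refl := W3_refl
    str := W3_str
    free := fun l hl w hw h => W3_free l hl hw h
    top := by
      intro i
      fin_cases i
      · change Pi.single 0 1 ∈ S3 0 ∧ P3 0 (Pi.single 0 1) = 1
        rw [single0]
        decide +kernel
      · change Pi.single 1 1 ∈ S3 1 ∧ P3 1 (Pi.single 1 1) = 1
        rw [single1]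
        decide +kernel
    lt := by
      intro i l hl κ hκ h
      fin_cases i
      · change κ ≠ Pi.single 0 1 at h
        change q3 (l + κ) < q3 (l + Pi.single 0 1)
        rw [single0] at h ⊢
        exact lt0 l hl κ hκ h
      · change κ ≠ Pi.single 1 1 at h
        change q3 (l + κ) < q3 (l + Pi.single 1 1)
        rw [single1] at h ⊢
        exact lt1 l hl κ hκ h
    chm := fun a b ha hb w hw => chm3 a b ha hb hw
    qf := qf3
    pd := pd3
    rho := rho3
    base := base3 }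

end STZ
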