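import Pool.Agent.STZ.FING
import Pool.Agent.STZ.StmtsN
import Pool.Agent.STZ.UPPER
import Pool.Agent.STZ.CALH
import Pool.Agent.STZ.GRH
import Pool.Agent.STZ.SWH
import Pool.Agent.STZ.TENH
import Pool.Agent.STZ.VRING
import Pool.Agent.STZ.EXSQ
import Pool.Agent.STZ.INTGG
import Pool.Agent.STZ.ORTG
import Pool.Agent.STZ.IRRG
import Pool.Agent.STZ.CPLG
import Pool.Agent.STZ.CGG
import Pool.Agent.STZ.SDG
import Pool.Agent.STZ.EIGG
import Pool.Agent.STZ.UNQ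
import Pool.Agent.STZ.EXT
import Pool.Agent.STZ.WKA
import Pool.Agent.STZ.PKA
import Pool.Agent.STZ.DKA
import Pool.Agent.STZ.MKA
import Pool.Agent.STZ.GKA
import Pool.Agent.STZ.WKC
import Pool.Agent.STZ.PKC
import Pool.Agent.STZ.CHC
import Pool.Agent.STZ.DKC
import Pool.Agent.STZ.MKC
import Pool.Agent.STZ.GKC
import Pool.Agent.STZ.PGX
import Pool.Agent.STZ.WKG
import Pool.Agent.STZ.PKG
import Pool.Agent.STZ.DKG
import Pool.Agent.STZ.BRG
import Pool.Agent.STZ.MKG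
import Pool.Agent.STZ.GKG
import Pool.Agent.STZ.LAPM
import Pool.Agent.STZ.TRH
import Pool.Agent.STZ.EIGV
import Pool.Agent.STZ.FRA
import Pool.Agent.STZ.GEA
import Pool.Agent.STZ.LAA
import Pool.Agent.STZ.GEC
import Pool.Agent.STZ.LIEC
import Pool.Agent.STZ.FRC
import Pool.Agent.STZ.CASC
import Pool.Agent.STZ.PWC
import Pool.Agent.STZ.LAC
import Pool.Agent.STZ.GEG
import Pool.Agent.STZ.PHI
import Pool.Agent.STZ.E3G
import Pool.Agent.STZ.PWG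
import Pool.Agent.STZ.LIEG
import Pool.Agent.STZ.FRG
import Pool.Agent.STZ.CASG
import Pool.Agent.STZ.LAG

/-!
# Scale invariant Strichartz estimates on the compact simple groups of rank two
-/

namespace STZ

open MeasureTheory Matrix

/-- the properties of the combinatorial data from their parts -/
theorem rdf_of {r : ℕ} (D : RD r) (hW : RDW D) (hP : RDP D) (hD : RDD D) (hM : RDM D) : RDF D where
  r2 := hW.r2
  W_one := hW.W_one
  W_mul := hW.W_mul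
  W_inv := hW.W_inv
  Q_W := hW.Q_W
  S_W := hW.S_W
  P_W := hW.P_W
  S_st := hW.S_st
  P_st := hW.P_st
  st2 := hW.st2
  w0 := hW.w0
  anti := hP.anti
  wall := by
    intro x l i hi
    obtain ⟨w, hw, hdet, hfix⟩ := hW.refl i
    have h1 := hP.anti w hw x l
    rw [hfix l hi, hdet] at h1
    push_cast at h1
    have h2 : (2 : ℂ) * D.ψ x l = 0 := by linear_combination h1
    simpa using h2
  one := hP.one
  rule := hP.rule
  str := hW.str
  free := hW.free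
  top := hW.top
  lt := hW.lt
  chm := hW.chm
  qf := hW.qf
  pd := hW.pd
  rho := hW.rho
  dim_eq := hD.dim_eq
  dim_pos := hD.dim_pos
  dim_le := hD.dim_le
  mult := hM

/-- the properties of the group data from their parts -/
theorem gf_of {N : ℕ} (H : Subgroup (SU N)) (c : ℝ) (d r : ℕ) (D : RD r)
    (M : Fin r → Fin r → (Fin r → ℂ) → ℂ) (x : Fin r → H → ℂ) (k : ℝ) (hF : RDF D) (hW : RDW D)
    (hG : RDG D M) (hE : GFE H D x) (hL : GFL H c d D M x k) (hk : 0 < k) (hd : d = D.e + r)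
    (hfr : ∃ X : Fin d → Matrix (Fin N) (Fin N) ℂ, FrameH H c X) (hlap : S_LAPM) :
    GF H c d D x k where
  closed := hE.closed
  kpos := hk
  dimd := hd
  frame := hfr
  cj := hE.cj
  cls := hE.cls
  xone := hE.xone
  cont := hE.cont
  virt := hE.virt
  tr := hE.tr
  lap := hlap N H c d r D M x k hF hW hG hL

theorem calh : S_CALH := t_CALH t_EXP

theorem grh : S_GRH := t_GRH t_HAAR calh

theorem tenh : S_TENH := t_TENH t_TENS

theorem exsq : S_EXSQ := t_EXSQ t_VRING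

theorem ortg : S_ORTG := t_ORTG calh grh t_INTGG

theorem irrg : S_IRRG := t_IRRG (t_VIRT (t_CHAR t_SCHUR) t_DECO) t_VRING t_INTGG ortg

theorem cplg : S_CPLG :=
  t_CPLG t_HAAR t_KB keri (t_ALLI t_KB (t_CHAR t_SCHUR) t_DECO keri) tenh t_SWH t_INTGG irrg

theorem sdg : S_SDG := t_SDG keri t_INTGG ortg irrg t_CGG

theorem eigg : S_EIGG := t_EIGG t_KB keri calh grh irrg cplg

/-- the machine for groups with combinatorial data -/
theorem machine {N : ℕ} (H : Subgroup (SU N)) (c : ℝ) (d r : ℕ) (D : RD r) (x : Fin r → H → ℂ)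
    (k : ℝ) (hD : RDF D) (hG : GF H c d D x k) (p : ℝ) (hp : 4 < p) : StrG H c d p :=
  t_FING all t_NQ t_KB t_HAAR sdg eigg N H c d r D x k hD hG p hp

theorem lapm : S_LAPM := t_LAPM calh t_INTGG

theorem trh : S_TRH := t_TRH calh

theorem rdf1 : RDF D1 :=
  rdf_of D1 t_WKA (t_PKA t_ALT) (t_DKA t_UNQ t_WKA (t_PKA t_ALT)) (t_MKA t_ALT (t_MULT t_ALT))

theorem rdf2 : RDF D2 := rdf_of D2 t_WKC t_PKC (t_DKC t_UNQ t_WKC t_PKC) (t_MKC t_EXT t_CHC)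

theorem pkg : S_PKG := t_PKG t_ALT t_EXT

theorem rdf3 (ψ : (Fin 2 → ℂ) → (Fin 2 → ℤ) → ℂ) (h : PGF ψ) : RDF (D3 ψ) :=
  rdf_of (D3 ψ) (t_WKG ψ) (pkg ψ h) (t_DKG t_UNQ t_WKG pkg ψ h)
    (t_MKG t_ALT (t_MULT t_ALT) t_EXT (t_BRG t_ALT) ψ h)

theorem gf1 : GF (⊤ : Subgroup (SU 3)) 6 8 D1 xA (1 / 9) :=
  gf_of _ 6 8 2 D1 M1 xA (1 / 9) rdf1 t_WKA (t_GKA (t_PKA t_ALT)) (t_GEA t_VRING tenh)
    (t_LAA calh trh t_CAS) (by norm_num) rfl (t_FRA t_FRX t_CAS) lapm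

theorem liec : S_LIEC := t_LIEC t_EXP

theorem gf2 : GF Sp2 6 10 D2 xC (1 / 12) :=
  gf_of _ 6 10 2 D2 M2 xC (1 / 12) rdf2 t_WKC (t_GKC t_PKC) (t_GEC t_VRING tenh exsq)
    (t_LAC calh trh (t_CASC liec) (t_PWC t_EIGV)) (by norm_num) rfl (t_FRC liec) lapm

theorem lieg : S_LIEG := t_LIEG t_EXP

theorem gf3 (ψ : (Fin 2 → ℂ) → (Fin 2 → ℤ) → ℂ) (h : PGF ψ) : GF G2 4 14 (D3 ψ) xG (1 / 12) :=
  gf_of _ 4 14 2 (D3 ψ) M3 xG (1 / 12) (rdf3 ψ h) (t_WKG ψ) (t_GKG pkg ψ h)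
    (t_GEG t_VRING tenh exsq ψ)
    (t_LAG calh trh t_PHI (t_CASG t_PHI lieg) (t_E3G t_PHI) (t_PWG t_EIGV) ψ) (by norm_num) rfl
    (t_FRG lieg) lapm

theorem main_rank_two : MainRankTwo := by
  intro p hp
  refine ⟨machine _ 6 8 2 D1 xA (1 / 9) rdf1 gf1 p hp, machine _ 6 10 2 D2 xC (1 / 12) rdf2 gf2 p hp,
    ?_⟩
  obtain ⟨ψ, hψ⟩ := t_PGX t_ALT (t_INTG t_ALT)
  exact machine _ 4 14 2 (D3 ψ) xG (1 / 12) (rdf3 ψ hψ) (gf3 ψ hψ) p hp

end STZ
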