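import Pool.Agent.STZ.StmtsP

/-!
# Module RDDA: the dimensions for `SU(r + 1)`
-/

namespace STZ

open MeasureTheory Matrix

open scoped ComplexConjugate Matrix Real

noncomputable section

namespace RDDA

theorem prs_lt {r : ℕ} {p : Fin (r + 1) × Fin (r + 1)} (hp : p ∈ prs r) : p.1 < p.2 := by
  unfold prs at hp
  exact (Finset.mem_filter.1 hp).2

theorem den_pos (r : ℕ) : 0 < ∏ p ∈ prs r, ((p.2.val : ℤ) - p.1.val) := by
  refine Finset.prod_pos fun p hp => ?_
  have h := prs_lt hp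
  have h2 : p.1.val < p.2.val := h
  omega

theorem fac_pos {r : ℕ} (hC : CUF r) {l : Fin r → ℤ} (hl : Reg l)
    {p : Fin (r + 1) × Fin (r + 1)} (hp : p ∈ prs r) : 0 < cum l p.1 - cum l p.2 := by
  have h := prs_lt hp
  have h2 : p.1.val < p.2.val := h
  rw [hC.dot l p.1 p.2 h]
  unfold dotProduct
  have hr : p.1.val < r := by
    have := p.2.isLt
    omega
  refine Finset.sum_pos' (fun i _ => ?_) ⟨⟨p.1.val, hr⟩, Finset.mem_univ _, ?_⟩
  · have := hl i
    dsimp only
    split_ifs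
    · omega
    · omega
  · have := hl ⟨p.1.val, hr⟩
    dsimp only
    rw [if_pos ⟨le_refl _, h2⟩]
    omega

theorem fac_le {r : ℕ} (hC : CUF r) {l : Fin r → ℤ} (hl : Reg l)
    {p : Fin (r + 1) × Fin (r + 1)} (hp : p ∈ prs r) :
    ((cum l p.1 - cum l p.2 : ℤ) : ℝ) ≤ sz l := by
  have h := prs_lt hp
  rw [hC.dot l p.1 p.2 h]
  unfold dotProduct sz
  push_cast
  have h1 : ∑ i : Fin r, (if p.1.val ≤ i.val ∧ i.val < p.2.val then (1 : ℝ) else 0) * (l i : ℝ) ≤
      ∑ i, |(l i : ℝ)| := by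
    refine Finset.sum_le_sum fun i _ => ?_
    split_ifs
    · rw [one_mul]
      exact le_abs_self _
    · rw [zero_mul]
      exact abs_nonneg _
  linarith

theorem card_prs (r : ℕ) : (prs r).card * 2 = r * (r + 1) := by
  unfold prs
  rw [Finset.card_filter, Fintype.sum_prod_type_right]
  have h : ∀ b : Fin (r + 1), ∑ a : Fin (r + 1), (if (a, b).1 < (a, b).2 then 1 else 0) = b.val := by
    intro b
    have h2 : (Finset.univ.filter fun a : Fin (r + 1) => a < b) = Finset.Iio b := by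
      ext a
      simp
    calc ∑ a : Fin (r + 1), (if (a, b).1 < (a, b).2 then 1 else 0)
        = (Finset.univ.filter fun a : Fin (r + 1) => a < b).card := by
          rw [Finset.card_filter]
      _ = b.val := by
          rw [h2, Fin.card_Iio]
  rw [Finset.sum_congr rfl fun b _ => h b]
  rw [Fin.sum_univ_eq_sum_range (fun i => i) (r + 1), Finset.sum_range_id_mul_two]
  simp only [Nat.add_sub_cancel]
  ring

theorem key {r : ℕ} (hP : PSF r) (hD : S_DIMA) (l : Fin r → ℤ) :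
    ∃ z : ℤ, psA (DA r).ξ l = z ∧ z * ∏ p ∈ prs r, ((p.2.val : ℤ) - p.1.val) =
      ∏ p ∈ prs r, (cum l p.1 - cum l p.2) := by
  obtain ⟨z, hz⟩ := hP.int (fun i => ((r + 1).choose (i.val + 1) : ℤ)) l
  have hx : (fun i : Fin r => ((((r + 1).choose (i.val + 1) : ℕ) : ℤ) : ℂ)) = (DA r).ξ := by
    funext i
    simp [DA]
  rw [hx] at hz
  refine ⟨z, hz, ?_⟩
  have h := hD r l
  rw [hz] at h
  exact_mod_cast h

theorem dimz {r : ℕ} (l : Fin r → ℤ) (z : ℤ)
    (h : z * ∏ p ∈ prs r, ((p.2.val : ℤ) - p.1.val) = ∏ p ∈ prs r, (cum l p.1 - cum l p.2)) :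
    (DA r).dim l = z := by
  change (∏ p ∈ prs r, (cum l p.1 - cum l p.2)) / ∏ p ∈ prs r, ((p.2.val : ℤ) - p.1.val) = z
  rw [← h]
  exact Int.mul_ediv_cancel _ (den_pos r).ne'

end RDDA

open RDDA in
theorem t_RDDA : M_RDDA := by
  intro hC hP hD r
  have hk := fun l : Fin r → ℤ => key (hP r) hD l
  have h2 : ∀ l : Fin r → ℤ, (DA r).dim l * ∏ p ∈ prs r, ((p.2.val : ℤ) - p.1.val) =
      ∏ p ∈ prs r, (cum l p.1 - cum l p.2) := by
    intro l
    obtain ⟨z, hz, h⟩ := hk l
    rw [dimz l z h, h]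
  refine ⟨⟨?_, ?_, ?_⟩, h2⟩
  · intro l
    obtain ⟨z, hz, h⟩ := hk l
    rw [dimz l z h]
    exact hz
  · intro l hl
    have h3 := h2 l
    have h4 : 0 < ∏ p ∈ prs r, (cum l p.1 - cum l p.2) :=
      Finset.prod_pos fun p hp => fac_pos (hC r) hl hp
    rw [← h3] at h4
    exact (pos_iff_pos_of_mul_pos h4).2 (den_pos r)
  · refine ⟨1, fun l hl => ?_⟩
    have h3 := h2 l
    have h4 : 0 < ∏ p ∈ prs r, (cum l p.1 - cum l p.2) :=
      Finset.prod_pos fun p hp => fac_pos (hC r) hl hp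
    have h5 : (DA r).dim l ≤ ∏ p ∈ prs r, (cum l p.1 - cum l p.2) := by
      have h6 := den_pos r
      have h7 : 0 < (DA r).dim l := by
        rw [← h3] at h4
        exact (pos_iff_pos_of_mul_pos h4).2 h6
      rw [← h3]
      nlinarith
    have h8 : ((DA r).dim l : ℝ) ≤ ∏ p ∈ prs r, ((cum l p.1 - cum l p.2 : ℤ) : ℝ) := by
      exact_mod_cast h5
    have h9 : ∏ p ∈ prs r, ((cum l p.1 - cum l p.2 : ℤ) : ℝ) ≤ sz l ^ (prs r).card := by
      have h10 := Finset.prod_le_prod (s := prs r)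
        (f := fun p => ((cum l p.1 - cum l p.2 : ℤ) : ℝ)) (g := fun _ => sz l)
        (fun p hp => by
          have := fac_pos (hC r) hl hp
          exact_mod_cast this.le) (fun p hp => fac_le (hC r) hl hp)
      rwa [Finset.prod_const] at h10
    have h11 : (((DA r).e : ℕ) : ℝ) / 2 = ((prs r).card : ℝ) := by
      have h12 : (DA r).e = (prs r).card * 2 := (card_prs r).symm
      rw [h12]
      push_cast
      ring
    rw [h11, Real.rpow_natCast, one_mul]
    exact h8.trans h9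

end

end STZ
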