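import Pool.Agent.STZ.StmtsP

/-!
# RDGA: the products of two characters of fundamental weights for `SU(r + 1)`
-/

namespace STZ

open MeasureTheory Matrix

open scoped ComplexConjugate Matrix Real

noncomputable section

namespace RDGA

/-- the coefficients -/
def ff (r : ℕ) (I J : Finset (Fin (r + 1))) : ℤ :=
  2 * ((r + 1) * ((I ∩ J).card : ℤ) - (I.card : ℤ) * J.card)

theorem sum_ind {n : ℕ} (I : Finset (Fin n)) : ∑ j, ind I j = (I.card : ℤ) := by
  simp [ind]

theorem sum_ind_mul {n : ℕ} (I J : Finset (Fin n)) :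
    ∑ j, ind I j * ind J j = ((I ∩ J).card : ℤ) := by
  rw [← sum_ind]
  refine Finset.sum_congr rfl fun j _ => ?_
  unfold ind
  by_cases h1 : j ∈ I <;> by_cases h2 : j ∈ J <;> simp [h1, h2]

theorem polar {r : ℕ} (hc : CUF r) (I J : Finset (Fin (r + 1))) :
    dif (ind I) ⬝ᵥ ((DA r).A *ᵥ dif (ind J)) = ff r I J := by
  rw [hc.pol]
  have h : ∀ p ∈ prs r, 2 * (cum (dif (ind I)) p.1 - cum (dif (ind I)) p.2) *
      (cum (dif (ind J)) p.1 - cum (dif (ind J)) p.2) =
      2 * (ind I p.1 - ind I p.2) * (ind J p.1 - ind J p.2) := by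
    intro p _
    rw [hc.dc, hc.dc, hc.dc, hc.dc]
    ring
  rw [Finset.sum_congr rfl h, hc.psum, sum_ind_mul, sum_ind, sum_ind]
  rfl

theorem ff_map {r : ℕ} (e : Fin (r + 1) ≃ Fin (r + 1)) (I J : Finset (Fin (r + 1))) :
    ff r (I.map e.toEmbedding) (J.map e.toEmbedding) = ff r I J := by
  unfold ff
  rw [← Finset.map_inter, Finset.card_map, Finset.card_map, Finset.card_map]

theorem sum_perm {r : ℕ} (e : Fin (r + 1) ≃ Fin (r + 1)) (a b : ℕ) (A : Finset (Fin (r + 1)) → ℂ) :
    ∑ I ∈ (Finset.univ : Finset (Fin (r + 1))).powersetCard a,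
      ∑ J ∈ (Finset.univ : Finset (Fin (r + 1))).powersetCard b,
        (ff r I J : ℂ) * (A (I.map e.toEmbedding) * A (J.map e.toEmbedding)) =
    ∑ I ∈ (Finset.univ : Finset (Fin (r + 1))).powersetCard a,
      ∑ J ∈ (Finset.univ : Finset (Fin (r + 1))).powersetCard b, (ff r I J : ℂ) * (A I * A J) := by
  refine Finset.sum_equiv e.finsetCongr ?_ ?_
  · intro I
    simp [Finset.mem_powersetCard]
  · intro I _
    refine Finset.sum_equiv e.finsetCongr ?_ ?_
    · intro J
      simp [Finset.mem_powersetCard]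
    · intro J _
      rw [Equiv.finsetCongr_apply, Equiv.finsetCongr_apply, ff_map]

theorem al_eq {r : ℕ} (v : Fin (r + 1) → ℂ) (l : Fin r → ℤ) :
    al v l = ∑ τ : Equiv.Perm (Fin (r + 1)), ((Equiv.Perm.sign τ : ℤ) : ℂ) *
      ∏ j, v (τ j) ^ cum l j.rev := by
  unfold al
  rw [Matrix.det_apply']
  rfl

theorem prod_ind {n : ℕ} (u : Fin n → ℂ) (I : Finset (Fin n)) :
    ∏ j, u j ^ ind I j = ∏ j ∈ I, u j := by
  have h : ∀ j ∈ (Finset.univ : Finset (Fin n)), u j ^ ind I j = if j ∈ I then u j else 1 := by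
    intro j _
    unfold ind
    by_cases hj : j ∈ I <;> simp [hj]
  rw [Finset.prod_congr rfl h]
  simp

/-- the bijection -/
def ee' {r : ℕ} (τ : Equiv.Perm (Fin (r + 1))) : Fin (r + 1) ≃ Fin (r + 1) := Fin.revPerm.trans τ

theorem prod_rev {r : ℕ} (v : Fin (r + 1) → ℂ) (τ : Equiv.Perm (Fin (r + 1)))
    (I : Finset (Fin (r + 1))) :
    ∏ j : Fin (r + 1), v (τ j) ^ ind I j.rev = ∏ k ∈ I.map (ee' τ).toEmbedding, v k := by
  rw [Finset.prod_map, ← prod_ind (fun j => v ((ee' τ).toEmbedding j)) I,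
    ← Equiv.prod_comp Fin.revPerm fun j : Fin (r + 1) => v (τ j) ^ ind I j.rev]
  refine Finset.prod_congr rfl fun j _ => ?_
  simp [ee']

theorem term {r : ℕ} (hc : CUF r) (v : Fin (r + 1) → ℂ) (hv : ∏ k, v k = 1) (l : Fin r → ℤ)
    (I J : Finset (Fin (r + 1))) (τ : Equiv.Perm (Fin (r + 1))) :
    ∏ j : Fin (r + 1), v (τ j) ^ cum (l + dif (ind I) + dif (ind J)) j.rev =
      (∏ j : Fin (r + 1), v (τ j) ^ cum l j.rev) *
        ((∏ k ∈ I.map (ee' τ).toEmbedding, v k) * ∏ k ∈ J.map (ee' τ).toEmbedding, v k) := by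
  have hne : ∀ k, v k ≠ 0 := by
    intro k hk
    rw [Finset.prod_eq_zero (Finset.mem_univ k) hk] at hv
    exact zero_ne_one hv
  have hτ : ∏ j, v (τ j) = 1 := by rw [Equiv.prod_comp τ v, hv]
  have hcst : ∀ c : ℤ, ∏ j, v (τ j) ^ c = 1 := by
    intro c
    rw [Finset.prod_zpow, hτ, _root_.one_zpow]
  have h : ∀ j ∈ (Finset.univ : Finset (Fin (r + 1))),
      v (τ j) ^ cum (l + dif (ind I) + dif (ind J)) j.rev =
      v (τ j) ^ cum l j.rev * (v (τ j) ^ ind I j.rev * v (τ j) ^ ind J j.rev) *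
        (v (τ j) ^ (-ind I (Fin.last r)) * v (τ j) ^ (-ind J (Fin.last r))) := by
    intro j _
    rw [hc.cadd, hc.cadd, hc.dc, hc.dc, ← zpow_add₀ (hne _), ← zpow_add₀ (hne _),
      ← zpow_add₀ (hne _), ← zpow_add₀ (hne _)]
    congr 1
    ring
  rw [Finset.prod_congr rfl h, Finset.prod_mul_distrib, Finset.prod_mul_distrib,
    Finset.prod_mul_distrib, Finset.prod_mul_distrib, hcst, hcst, prod_rev, prod_rev]
  ring

theorem main {r : ℕ} (hc : CUF r) (v : Fin (r + 1) → ℂ) (hv : ∏ k, v k = 1) (l : Fin r → ℤ)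
    (a b : ℕ) :
    ∑ I ∈ (Finset.univ : Finset (Fin (r + 1))).powersetCard a,
      ∑ J ∈ (Finset.univ : Finset (Fin (r + 1))).powersetCard b,
        (ff r I J : ℂ) * al v (l + dif (ind I) + dif (ind J)) =
    (∑ I ∈ (Finset.univ : Finset (Fin (r + 1))).powersetCard a,
      ∑ J ∈ (Finset.univ : Finset (Fin (r + 1))).powersetCard b,
        (ff r I J : ℂ) * ((∏ k ∈ I, v k) * ∏ k ∈ J, v k)) * al v l := by
  have h1 : ∀ I J : Finset (Fin (r + 1)), (ff r I J : ℂ) * al v (l + dif (ind I) + dif (ind J)) =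
      ∑ τ : Equiv.Perm (Fin (r + 1)), ((ff r I J : ℂ) *
        ((∏ k ∈ I.map (ee' τ).toEmbedding, v k) * ∏ k ∈ J.map (ee' τ).toEmbedding, v k)) *
        (((Equiv.Perm.sign τ : ℤ) : ℂ) * ∏ j, v (τ j) ^ cum l j.rev) := by
    intro I J
    rw [al_eq, Finset.mul_sum]
    refine Finset.sum_congr rfl fun τ _ => ?_
    rw [term hc v hv]
    ring
  simp_rw [h1]
  have h2 : ∀ I : Finset (Fin (r + 1)),
      ∑ J ∈ (Finset.univ : Finset (Fin (r + 1))).powersetCard b,
        ∑ τ : Equiv.Perm (Fin (r + 1)), ((ff r I J : ℂ) *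
        ((∏ k ∈ I.map (ee' τ).toEmbedding, v k) * ∏ k ∈ J.map (ee' τ).toEmbedding, v k)) *
        (((Equiv.Perm.sign τ : ℤ) : ℂ) * ∏ j, v (τ j) ^ cum l j.rev) =
      ∑ τ : Equiv.Perm (Fin (r + 1)), (∑ J ∈ (Finset.univ : Finset (Fin (r + 1))).powersetCard b,
        (ff r I J : ℂ) *
        ((∏ k ∈ I.map (ee' τ).toEmbedding, v k) * ∏ k ∈ J.map (ee' τ).toEmbedding, v k)) *
        (((Equiv.Perm.sign τ : ℤ) : ℂ) * ∏ j, v (τ j) ^ cum l j.rev) := by
    intro I
    rw [Finset.sum_comm]
    refine Finset.sum_congr rfl fun τ _ => ?_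
    rw [Finset.sum_mul]
  simp_rw [h2]
  rw [Finset.sum_comm, al_eq, Finset.mul_sum]
  refine Finset.sum_congr rfl fun τ _ => ?_
  rw [← Finset.sum_mul, sum_perm (ee' τ) a b fun I => ∏ k ∈ I, v k]

/-! ### continuity -/

theorem cont_ee {r : ℕ} (k : ℕ) : Continuous fun x : Fin r → ℂ => ee x k := by
  cases k with
  | zero => exact continuous_const
  | succ k =>
    show Continuous fun x : Fin r → ℂ => if h : k < r then x ⟨k, h⟩ else if k = r then 1 else 0
    by_cases h : k < r
    · simp only [h, dif_pos]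
      exact continuous_apply _
    · simp only [h, dif_neg, not_false_iff]
      exact continuous_const

theorem cont_CA {r : ℕ} : Continuous fun x : Fin r → ℂ => CA x := by
  refine continuous_matrix fun i j => ?_
  show Continuous fun x : Fin r → ℂ => if j.val < r then (if i.val = j.val + 1 then (1 : ℂ) else 0) else
    (-1) ^ (r - i.val) * ee x (r + 1 - i.val)
  by_cases h : j.val < r
  · simp only [h, if_true]
    exact continuous_const
  · simp only [h, if_false]
    exact continuous_const.mul (cont_ee _)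

theorem cont_GG {r : ℕ} (a : ℕ) : Continuous fun x : Fin r → ℂ => GG x a (CA x) := by
  unfold GG
  refine continuous_finsetSum _ fun s _ => ?_
  exact (continuous_const.mul (cont_ee _)).smul (cont_CA.pow _)

theorem cont_MA {r : ℕ} (i j : Fin r) : Continuous fun x : Fin r → ℂ => MA r i j x := by
  unfold MA
  refine continuous_const.mul ?_
  refine Continuous.sub ?_ ?_
  · exact continuous_const.mul (((cont_GG _).matrix_mul (cont_GG _)).matrix_trace)
  · exact ((continuous_const.mul (continuous_apply i)).mul (continuous_apply j))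

end RDGA

open RDGA

theorem t_RDGA : M_RDGA := by
  intro hC hP hE hM r i j x l
  have hc := hC r
  have hp := hP r
  have key : ∀ x : Fin r → ℂ, MA r i j x * psA x l -
      ∑ I ∈ (Finset.univ : Finset (Fin (r + 1))).powersetCard (i.val + 1),
        ∑ J ∈ (Finset.univ : Finset (Fin (r + 1))).powersetCard (j.val + 1),
          (ff r I J : ℂ) * psA x (l + dif (ind I) + dif (ind J)) = 0 := by
    refine (hE r).2 _ ?_ ?_
    · refine ((cont_MA i j).mul (hp.cont l)).sub ?_
      refine continuous_finsetSum _ fun I _ => continuous_finsetSum _ fun J _ => ?_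
      exact continuous_const.mul (hp.cont _)
    · intro v hvi hv
      have hV : (Matrix.vandermonde v).det ≠ 0 := Matrix.det_vandermonde_ne_zero_iff.2 hvi
      have h0 : (Matrix.vandermonde v).det * (MA r i j (esA v) * psA (esA v) l -
        ∑ I ∈ (Finset.univ : Finset (Fin (r + 1))).powersetCard (i.val + 1),
          ∑ J ∈ (Finset.univ : Finset (Fin (r + 1))).powersetCard (j.val + 1),
            (ff r I J : ℂ) * psA (esA v) (l + dif (ind I) + dif (ind J))) = 0 := by
        rw [mul_sub, Finset.mul_sum]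
        have e1 : ∀ I ∈ (Finset.univ : Finset (Fin (r + 1))).powersetCard (i.val + 1),
            (Matrix.vandermonde v).det *
              ∑ J ∈ (Finset.univ : Finset (Fin (r + 1))).powersetCard (j.val + 1),
                (ff r I J : ℂ) * psA (esA v) (l + dif (ind I) + dif (ind J)) =
            ∑ J ∈ (Finset.univ : Finset (Fin (r + 1))).powersetCard (j.val + 1),
                (ff r I J : ℂ) * al v (l + dif (ind I) + dif (ind J)) := by
          intro I _
          rw [Finset.mul_sum]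
          refine Finset.sum_congr rfl fun J _ => ?_
          rw [← hp.alt v hv]
          ring
        rw [Finset.sum_congr rfl e1, main hc v hv l]
        have e2 : MA r i j (esA v) =
            ∑ I ∈ (Finset.univ : Finset (Fin (r + 1))).powersetCard (i.val + 1),
              ∑ J ∈ (Finset.univ : Finset (Fin (r + 1))).powersetCard (j.val + 1),
                (ff r I J : ℂ) * ((∏ k ∈ I, v k) * ∏ k ∈ J, v k) := by
          rw [hM r v hv i j]
          refine Finset.sum_congr rfl fun I _ => Finset.sum_congr rfl fun J _ => ?_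
          unfold ff
          push_cast
          ring
        rw [← e2, ← hp.alt v hv]
        ring
      exact (mul_eq_zero.1 h0).resolve_left hV
  have hx := key x
  have hS : ∀ k : Fin r, (DA r).S k =
      ((Finset.univ : Finset (Fin (r + 1))).powersetCard (k.val + 1)).image
        fun I : Finset (Fin (r + 1)) => dif (ind I) := fun k => rfl
  have hinj : ∀ k : Fin r, ∀ I ∈ (Finset.univ : Finset (Fin (r + 1))).powersetCard (k.val + 1),
      ∀ J ∈ (Finset.univ : Finset (Fin (r + 1))).powersetCard (k.val + 1),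
        dif (ind I) = dif (ind J) → I = J := by
    intro k I hI J hJ h
    exact hc.dinj I J ((Finset.mem_powersetCard.1 hI).2.trans (Finset.mem_powersetCard.1 hJ).2.symm) h
  show MA r i j x * psA x l = _
  rw [hS i, hS j, Finset.sum_image (fun I hI J hJ h => hinj i I hI J hJ h)]
  rw [sub_eq_zero.1 hx]
  refine Finset.sum_congr rfl fun I _ => ?_
  rw [Finset.sum_image (fun I hI J hJ h => hinj j I hI J hJ h)]
  refine Finset.sum_congr rfl fun J _ => ?_
  have hP1 : ∀ (k : Fin r) (κ : Fin r → ℤ), (DA r).P k κ = 1 := fun _ _ => rfl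
  rw [hP1, hP1, polar hc, one_mul, one_mul]
  rfl

end

end STZ
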