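import Pool.Agent.STZ.StmtsP

/-!
# Module RDPA: the rules of the characters of `SU(r + 1)`
-/

namespace STZ

namespace RDPA

open Matrix

/-- a common factor of the columns with product `1` -/
theorem al_shift {r : ℕ} (v : Fin (r + 1) → ℂ) (hv : ∏ k, v k = 1) (a : Fin (r + 1) → ℤ) (c : ℤ) :
    Matrix.det (Matrix.of fun k j : Fin (r + 1) => v k ^ (a j - c)) =
      Matrix.det (Matrix.of fun k j : Fin (r + 1) => v k ^ a j) := by
  have hne : ∀ k, v k ≠ 0 := by
    intro k hk
    have h1 : ∏ k, v k = 0 := Finset.prod_eq_zero (Finset.mem_univ k) hk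
    rw [hv] at h1
    exact one_ne_zero h1
  have h2 : (Matrix.of fun k j : Fin (r + 1) => v k ^ (a j - c)) =
      Matrix.of fun k j : Fin (r + 1) => (v k ^ (-c)) * (Matrix.of fun k j : Fin (r + 1) => v k ^ a j) k j := by
    ext k j
    simp only [Matrix.of_apply]
    rw [sub_eq_add_neg, zpow_add₀ (hne k), mul_comm]
  rw [h2, Matrix.det_mul_column]
  have h3 : ∏ k, v k ^ (-c) = 1 := by
    rw [Finset.prod_zpow, hv, _root_.one_zpow]
  rw [h3, one_mul]

/-- a permutation of the columns -/
theorem al_perm {r : ℕ} (v : Fin (r + 1) → ℂ) (a : Fin (r + 1) → ℤ) (σ : Equiv.Perm (Fin (r + 1))) :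
    Matrix.det (Matrix.of fun k j : Fin (r + 1) => v k ^ a (σ j.rev)) =
      (Equiv.Perm.sign σ : ℂ) * Matrix.det (Matrix.of fun k j : Fin (r + 1) => v k ^ a j.rev) := by
  let τ : Equiv.Perm (Fin (r + 1)) := Fin.revPerm * σ * Fin.revPerm
  have h1 : (Matrix.of fun k j : Fin (r + 1) => v k ^ a (σ j.rev)) =
      (Matrix.of fun k j : Fin (r + 1) => v k ^ a j.rev).submatrix id τ := by
    ext k j
    simp only [Matrix.of_apply, Matrix.submatrix_apply, id_eq]
    congr 2
    change σ j.rev = (Fin.rev (Fin.rev (σ (Fin.rev j))))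
    rw [Fin.rev_rev]
  rw [h1, Matrix.det_permute']
  congr 1
  have h2 : Equiv.Perm.sign τ = Equiv.Perm.sign σ := by
    change Equiv.Perm.sign (Fin.revPerm * σ * Fin.revPerm) = Equiv.Perm.sign σ
    rw [Equiv.Perm.sign_mul, Equiv.Perm.sign_mul]
    have h3 : Equiv.Perm.sign (Fin.revPerm : Equiv.Perm (Fin (r + 1))) *
        Equiv.Perm.sign (Fin.revPerm : Equiv.Perm (Fin (r + 1))) = 1 := Int.units_mul_self _
    calc Equiv.Perm.sign (Fin.revPerm : Equiv.Perm (Fin (r + 1))) * Equiv.Perm.sign σ *
          Equiv.Perm.sign (Fin.revPerm : Equiv.Perm (Fin (r + 1)))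
        = Equiv.Perm.sign (Fin.revPerm : Equiv.Perm (Fin (r + 1))) *
          Equiv.Perm.sign (Fin.revPerm : Equiv.Perm (Fin (r + 1))) * Equiv.Perm.sign σ := by
          rw [mul_right_comm]
      _ = Equiv.Perm.sign σ := by rw [h3, one_mul]
  rw [h2]

/-- the elementary symmetric functions are symmetric -/
theorem esk_perm {n : ℕ} (v : Fin n → ℂ) (k : ℕ) (e : Equiv.Perm (Fin n)) :
    ∑ I ∈ Finset.univ.powersetCard k, ∏ j ∈ I, v (e j) = esk v k := by
  unfold esk
  refine Finset.sum_nbij' (fun I => I.map e.toEmbedding) (fun I => I.map e.symm.toEmbedding) ?_ ?_ ?_ ?_ ?_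
  · intro I hI
    rw [Finset.mem_powersetCard] at hI ⊢
    exact ⟨Finset.subset_univ _, by rw [Finset.card_map]; exact hI.2⟩
  · intro I hI
    rw [Finset.mem_powersetCard] at hI ⊢
    exact ⟨Finset.subset_univ _, by rw [Finset.card_map]; exact hI.2⟩
  · intro I _
    ext x
    simp
  · intro I _
    ext x
    simp
  · intro I _
    rw [Finset.prod_map]
    rfl

/-- Pieri's rule for the alternants -/
theorem al_pieri {r : ℕ} (v : Fin (r + 1) → ℂ) (hv : ∏ k, v k = 1) (a : Fin (r + 1) → ℤ) (k : ℕ) :
    ∑ I ∈ Finset.univ.powersetCard k,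
      Matrix.det (Matrix.of fun m j : Fin (r + 1) => v m ^ (a j.rev + ind I j.rev)) =
      esk v k * Matrix.det (Matrix.of fun m j : Fin (r + 1) => v m ^ a j.rev) := by
  have hne : ∀ k, v k ≠ 0 := by
    intro k hk
    have h1 : ∏ k, v k = 0 := Finset.prod_eq_zero (Finset.mem_univ k) hk
    rw [hv] at h1
    exact one_ne_zero h1
  simp_rw [Matrix.det_apply]
  rw [Finset.sum_comm, Finset.mul_sum]
  apply Finset.sum_congr rfl
  intro π _
  have h1 : ∀ I : Finset (Fin (r + 1)),
      (∏ j, (Matrix.of fun m j : Fin (r + 1) => v m ^ (a j.rev + ind I j.rev)) (π j) j) =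
      (∏ j, v (π j) ^ a j.rev) * ∏ j ∈ I, v ((Fin.revPerm.trans π) j) := by
    intro I
    have h2 : ∀ j, (Matrix.of fun m j : Fin (r + 1) => v m ^ (a j.rev + ind I j.rev)) (π j) j =
        v (π j) ^ a j.rev * (if j.rev ∈ I then v (π j) else 1) := by
      intro j
      rw [Matrix.of_apply, zpow_add₀ (hne _)]
      congr 1
      unfold ind
      split_ifs
      · rw [zpow_one]
      · rw [zpow_zero]
    rw [Finset.prod_congr rfl fun j _ => h2 j, Finset.prod_mul_distrib]
    congr 1
    have h3 : ∏ j, (if j.rev ∈ I then v (π j) else 1) =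
        ∏ j, (if j ∈ I then v ((Fin.revPerm.trans π) j) else 1) := by
      refine Fintype.prod_equiv Fin.revPerm _ _ ?_
      intro j
      change _ = if Fin.rev j ∈ I then v (π (Fin.rev (Fin.rev j))) else 1
      rw [Fin.rev_rev]
    rw [h3, Finset.prod_ite_mem, Finset.univ_inter]
  rw [Finset.sum_congr rfl fun I _ => by rw [h1 I], ← Finset.smul_sum, ← Finset.mul_sum, esk_perm]
  have h4 : (∏ j, (Matrix.of fun m j : Fin (r + 1) => v m ^ a j.rev) (π j) j) =
      ∏ j, v (π j) ^ a j.rev := rfl
  rw [h4, mul_comm (∏ j, v (π j) ^ a j.rev), mul_smul_comm]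

end RDPA

open RDPA Matrix in
theorem t_RDPA : M_RDPA := by
  intro hCUMA hPSAA hEXTA r
  have hC := hCUMA r
  have hP := hPSAA r
  obtain ⟨-, hE⟩ := hEXTA r
  constructor
  · intro w hw x l
    have hw' : w ∈ Finset.univ.image (wA : Equiv.Perm (Fin (r + 1)) → Matrix (Fin r) (Fin r) ℤ) := hw
    rw [Finset.mem_image] at hw'
    obtain ⟨σ, -, rfl⟩ := hw'
    change psA x (wA σ *ᵥ l) = ((wA σ).det : ℂ) * psA x l
    rw [hC.wdet]
    have hF : ∀ x : Fin r → ℂ, psA x (wA σ *ᵥ l) - ((Equiv.Perm.sign σ : ℤ) : ℂ) * psA x l = 0 := by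
      apply hE
      · exact (hP.cont _).sub (continuous_const.mul (hP.cont l))
      · intro v hinj hv
        have hV : (Matrix.vandermonde v).det ≠ 0 := Matrix.det_vandermonde_ne_zero_iff.mpr hinj
        have h1 := hP.alt v hv (wA σ *ᵥ l)
        have h2 := hP.alt v hv l
        have h3 : al v (wA σ *ᵥ l) = ((Equiv.Perm.sign σ : ℤ) : ℂ) * al v l := by
          unfold al
          have h4 : (Matrix.of fun k j : Fin (r + 1) => v k ^ cum (wA σ *ᵥ l) j.rev) =
              Matrix.of fun k j : Fin (r + 1) => v k ^ (cum l (σ j.rev) - cum l (σ (Fin.last r))) := by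
            ext k j
            rw [Matrix.of_apply, Matrix.of_apply, hC.wc]
          rw [h4, al_shift v hv (fun j => cum l (σ j.rev)), al_perm v (cum l) σ]
        have h5 : (Matrix.vandermonde v).det *
            (psA (esA v) (wA σ *ᵥ l) - ((Equiv.Perm.sign σ : ℤ) : ℂ) * psA (esA v) l) = 0 := by
          rw [mul_sub, h1, h3, ← h2]
          ring
        exact (mul_eq_zero.mp h5).resolve_left hV
    exact sub_eq_zero.mp (hF x)
  · intro x
    exact hP.one x
  · intro i x l
    change x i * psA x l = ∑ κ ∈ (Finset.univ.powersetCard (i.val + 1)).image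
      (fun I : Finset (Fin (r + 1)) => dif (ind I)), ((1 : ℤ) : ℂ) * psA x (l + κ)
    have hinj : Set.InjOn (fun I : Finset (Fin (r + 1)) => dif (ind I))
        ((Finset.univ.powersetCard (i.val + 1) : Finset (Finset (Fin (r + 1)))) : Set (Finset (Fin (r + 1)))) := by
      intro I hI J hJ hIJ
      have hI' := Finset.mem_coe.mp hI
      have hJ' := Finset.mem_coe.mp hJ
      rw [Finset.mem_powersetCard] at hI' hJ'
      exact hC.dinj I J (hI'.2.trans hJ'.2.symm) hIJ
    rw [Finset.sum_image hinj]
    have hF : ∀ x : Fin r → ℂ, x i * psA x l - ∑ I ∈ Finset.univ.powersetCard (i.val + 1),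
        ((1 : ℤ) : ℂ) * psA x (l + dif (ind I)) = 0 := by
      apply hE
      · refine ((continuous_apply i).mul (hP.cont l)).sub ?_
        exact continuous_finsetSum _ fun I _ => continuous_const.mul (hP.cont _)
      · intro v hinjv hv
        have hV : (Matrix.vandermonde v).det ≠ 0 := Matrix.det_vandermonde_ne_zero_iff.mpr hinjv
        have h2 := hP.alt v hv l
        have h5 : (Matrix.vandermonde v).det *
            (esA v i * psA (esA v) l - ∑ I ∈ Finset.univ.powersetCard (i.val + 1),
              ((1 : ℤ) : ℂ) * psA (esA v) (l + dif (ind I))) = 0 := by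
          rw [mul_sub, Finset.mul_sum]
          have h6 : ∀ I : Finset (Fin (r + 1)), (Matrix.vandermonde v).det *
              (((1 : ℤ) : ℂ) * psA (esA v) (l + dif (ind I))) =
              Matrix.det (Matrix.of fun m j : Fin (r + 1) => v m ^ (cum l j.rev + ind I j.rev)) := by
            intro I
            rw [Int.cast_one, one_mul, hP.alt v hv]
            unfold al
            have h7 : (Matrix.of fun k j : Fin (r + 1) => v k ^ cum (l + dif (ind I)) j.rev) =
                Matrix.of fun k j : Fin (r + 1) =>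
                  v k ^ ((cum l j.rev + ind I j.rev) - ind I (Fin.last r)) := by
              ext k j
              rw [Matrix.of_apply, Matrix.of_apply, hC.cadd, hC.dc]
              congr 1
              ring
            rw [h7, al_shift v hv (fun j => cum l j.rev + ind I j.rev)]
          rw [Finset.sum_congr rfl fun I _ => h6 I, al_pieri v hv (cum l)]
          have h8 : (Matrix.vandermonde v).det * (esA v i * psA (esA v) l) =
              esA v i * ((Matrix.vandermonde v).det * psA (esA v) l) := by ring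
          rw [h8, h2]
          unfold al esA
          ring
        exact (mul_eq_zero.mp h5).resolve_left hV
    exact sub_eq_zero.mp (hF x)

end STZ
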