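import Pool.Agent.STZ.StmtsP

/-!
# Module RTA1: the roots of `SU(r + 1)`
-/

namespace STZ

open MeasureTheory Matrix

open scoped ComplexConjugate Matrix Real

noncomputable section

namespace RTA1

variable {r : ℕ}

/-! ### the function `dif` -/

theorem dif_add (m m' : Fin (r + 1) → ℤ) : dif (m + m') = dif m + dif m' := by
  funext i
  simp only [dif, Pi.add_apply]
  ring

theorem dif_sub (m m' : Fin (r + 1) → ℤ) : dif (m - m') = dif m - dif m' := by
  funext i
  simp only [dif, Pi.sub_apply]
  ring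

theorem dif_smul (a : ℤ) (m : Fin (r + 1) → ℤ) : dif (a • m) = a • dif m := by
  funext i
  simp only [dif, Pi.smul_apply, smul_eq_mul]
  ring

theorem dif_sum {ι : Type} (s : Finset ι) (m : ι → Fin (r + 1) → ℤ) :
    dif (∑ j ∈ s, m j) = ∑ j ∈ s, dif (m j) := by
  funext i
  simp only [dif, Finset.sum_apply, Finset.sum_sub_distrib]

theorem key (hC : CUF r) {m m' : Fin (r + 1) → ℤ} (h1 : ∑ j, m j = ∑ j, m' j) (h2 : dif m = dif m') :
    m = m' := by
  have h3 : ∀ j, m j - m (Fin.last r) = m' j - m' (Fin.last r) := by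
    intro j
    rw [← hC.dc m j, ← hC.dc m' j, h2]
  have h4 : ∀ j, m j - m' j = m (Fin.last r) - m' (Fin.last r) := fun j => by
    have := h3 j
    linarith
  have h5 : ∑ j, (m j - m' j) = 0 := by
    rw [Finset.sum_sub_distrib, h1, sub_self]
  have h6 : ((r : ℤ) + 1) * (m (Fin.last r) - m' (Fin.last r)) = 0 := by
    rw [Finset.sum_congr rfl fun j _ => h4 j] at h5
    rw [Finset.sum_const, Finset.card_univ, Fintype.card_fin, nsmul_eq_mul] at h5
    push_cast at h5
    exact h5
  have h7 : m (Fin.last r) - m' (Fin.last r) = 0 := by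
    rcases mul_eq_zero.mp h6 with h | h
    · exfalso
      have : (0 : ℤ) ≤ r := Int.natCast_nonneg r
      linarith
    · exact h
  funext j
  have := h4 j
  rw [h7] at this
  linarith

theorem ind_self (a : Fin (r + 1)) : ind {a} a = 1 := by simp [ind]

theorem ind_ne {a b : Fin (r + 1)} (h : b ≠ a) : ind {a} b = 0 := by simp [ind, h]

theorem sum_ind (a : Fin (r + 1)) : ∑ j, ind {a} j = 1 := by
  simp [ind]

theorem sum_root (a b : Fin (r + 1)) : ∑ j, (ind {a} - ind {b}) j = 0 := by
  simp only [Pi.sub_apply]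
  rw [Finset.sum_sub_distrib, sum_ind, sum_ind, sub_self]

theorem mem_prs {p : Fin (r + 1) × Fin (r + 1)} : p ∈ prs r ↔ p.1 < p.2 := by
  simp [prs]

theorem root_inj (hC : CUF r) {a b c d : Fin (r + 1)} (hab : a < b) (_ : c < d)
    (h : dif (ind {a} - ind {b}) = dif (ind {c} - ind {d})) : a = c ∧ b = d := by
  have h1 : ind {a} - ind {b} = ind {c} - ind {d} := key hC (by rw [sum_root, sum_root]) h
  have ha : (ind {a} - ind {b}) a = 1 := by
    rw [Pi.sub_apply, ind_self, ind_ne hab.ne, sub_zero]
  have hb : (ind {a} - ind {b}) b = -1 := by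
    rw [Pi.sub_apply, ind_self, ind_ne hab.ne', zero_sub]
  rw [h1] at ha hb
  constructor
  · by_contra hac
    rw [Pi.sub_apply, ind_ne hac] at ha
    by_cases had : a = d
    · rw [had, ind_self] at ha
      norm_num at ha
    · rw [ind_ne had] at ha
      norm_num at ha
  · by_contra hbd
    rw [Pi.sub_apply, ind_ne hbd] at hb
    by_cases hbc : b = c
    · rw [hbc, ind_self] at hb
      norm_num at hb
    · rw [ind_ne hbc] at hb
      norm_num at hb

/-- the element of `PA r` for the pair `(a, b)` -/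
def el (p : Fin (r + 1) × Fin (r + 1)) : (Fin r → ℤ) × (Fin r → ℤ) :=
  (dif (ind {p.1} - ind {p.2}), fun i : Fin r => if p.1.val ≤ i.val ∧ i.val < p.2.val then (1 : ℤ) else 0)

theorem PA_eq : PA r = (prs r).image el := rfl

theorem mem_PA {q : (Fin r → ℤ) × (Fin r → ℤ)} : q ∈ PA r ↔ ∃ p : Fin (r + 1) × Fin (r + 1), p.1 < p.2 ∧ el p = q := by
  rw [PA_eq, Finset.mem_image]
  simp only [mem_prs]

theorem el_inj (hC : CUF r) {p q : Fin (r + 1) × Fin (r + 1)} (hp : p.1 < p.2) (hq : q.1 < q.2)
    (h : (el p).1 = (el q).1) : p = q :=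
  Prod.ext (root_inj hC hp hq h).1 (root_inj hC hp hq h).2

theorem el_injOn (hC : CUF r) : Set.InjOn (el (r := r)) (prs r : Set (Fin (r + 1) × Fin (r + 1))) := by
  intro p hp q hq h
  rw [Finset.mem_coe, mem_prs] at hp hq
  exact el_inj hC hp hq (congrArg Prod.fst h)

/-! ### counting -/

theorem card_prs (r : ℕ) : r * (r + 1) = 2 * (prs r).card := by
  have h1 : (prs r).card = ((Finset.univ : Finset (Fin (r + 1) × Fin (r + 1))).filter fun p => p.2 < p.1).card := by
    refine Finset.card_bij (fun p _ => (p.2, p.1)) ?_ ?_ ?_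
    · intro p hp
      rw [mem_prs] at hp
      simpa using hp
    · intro p _ q _ h
      have h1 := congrArg Prod.fst h
      have h2 := congrArg Prod.snd h
      exact Prod.ext h2 h1
    · intro p hp
      refine ⟨(p.2, p.1), ?_, rfl⟩
      rw [mem_prs]
      simpa using hp
  have h2 : (Finset.univ : Finset (Fin (r + 1))).offDiag = prs r ∪
      ((Finset.univ : Finset (Fin (r + 1) × Fin (r + 1))).filter fun p => p.2 < p.1) := by
    ext p
    rw [Finset.mem_offDiag, Finset.mem_union, mem_prs, Finset.mem_filter]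
    constructor
    · intro h
      rcases lt_or_gt_of_ne h.2.2 with h | h
      · exact Or.inl h
      · exact Or.inr ⟨Finset.mem_univ _, h⟩
    · rintro (h | h)
      · exact ⟨Finset.mem_univ _, Finset.mem_univ _, h.ne⟩
      · exact ⟨Finset.mem_univ _, Finset.mem_univ _, h.2.ne'⟩
  have h3 : Disjoint (prs r)
      ((Finset.univ : Finset (Fin (r + 1) × Fin (r + 1))).filter fun p => p.2 < p.1) := by
    rw [Finset.disjoint_left]
    intro p hp hq
    rw [mem_prs] at hp
    rw [Finset.mem_filter] at hq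
    exact lt_asymm hp hq.2
  have h4 := congrArg Finset.card h2
  rw [Finset.card_union_of_disjoint h3, ← h1, Finset.offDiag_card, Finset.card_univ, Fintype.card_fin] at h4
  have h5 : (r + 1) * (r + 1) - (r + 1) = r * (r + 1) := by
    rw [add_mul, one_mul, Nat.add_sub_cancel]
  omega

theorem sum_prs (j : Fin (r + 1)) : ∑ p ∈ prs r, (ind {p.1} - ind {p.2}) j = (r : ℤ) - 2 * j.val := by
  have h1 : ∑ p ∈ prs r, (ind {p.1} : Fin (r + 1) → ℤ) j = ((Finset.Ioi j).card : ℤ) := by
    rw [prs, Finset.sum_filter, Fintype.sum_prod_type]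
    rw [Finset.sum_eq_single j]
    · rw [Finset.card_eq_sum_ones, Nat.cast_sum, ← Finset.sum_filter]
      have : (Finset.univ.filter fun y : Fin (r + 1) => (j, y).1 < (j, y).2) = Finset.Ioi j := by
        ext y
        simp
      rw [this]
      refine Finset.sum_congr rfl fun y _ => ?_
      simp [ind]
    · intro a _ ha
      refine Finset.sum_eq_zero fun y _ => ?_
      simp only
      rw [ind_ne (Ne.symm ha)]
      simp
    · intro h
      exact absurd (Finset.mem_univ j) h
  have h2 : ∑ p ∈ prs r, (ind {p.2} : Fin (r + 1) → ℤ) j = ((Finset.Iio j).card : ℤ) := by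
    rw [prs, Finset.sum_filter, Fintype.sum_prod_type_right]
    rw [Finset.sum_eq_single j]
    · rw [Finset.card_eq_sum_ones, Nat.cast_sum, ← Finset.sum_filter]
      have : (Finset.univ.filter fun y : Fin (r + 1) => (y, j).1 < (y, j).2) = Finset.Iio j := by
        ext y
        simp
      rw [this]
      refine Finset.sum_congr rfl fun y _ => ?_
      simp [ind]
    · intro a _ ha
      refine Finset.sum_eq_zero fun y _ => ?_
      simp only
      rw [ind_ne (Ne.symm ha)]
      simp
    · intro h
      exact absurd (Finset.mem_univ j) h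
  simp only [Pi.sub_apply]
  rw [Finset.sum_sub_distrib, h1, h2, Fin.card_Ioi, Fin.card_Iio]
  have := j.isLt
  omega

/-! ### sums of simple roots -/

theorem sum_simple (f : ℕ → ℤ) (h0 : f 0 = 0) (h1 : f (r + 1) = 0) (j : Fin (r + 1)) :
    ∑ i : Fin r, f (i.val + 1) * (ind {i.castSucc} - ind {i.succ}) j = f (j.val + 1) - f j.val := by
  have e1 : ∑ i : Fin r, f (i.val + 1) * (ind {i.castSucc} : Fin (r + 1) → ℤ) j = f (j.val + 1) := by
    induction j using Fin.lastCases with
    | last =>
      rw [Fin.val_last, h1]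
      refine Finset.sum_eq_zero fun i _ => ?_
      rw [ind_ne (Fin.castSucc_lt_last i).ne', mul_zero]
    | cast k =>
      rw [Finset.sum_eq_single k]
      · rw [ind_self, mul_one]
        rfl
      · intro i _ hi
        rw [ind_ne (fun h => hi (Fin.castSucc_injective r h).symm), mul_zero]
      · intro h
        exact absurd (Finset.mem_univ k) h
  have e2 : ∑ i : Fin r, f (i.val + 1) * (ind {i.succ} : Fin (r + 1) → ℤ) j = f j.val := by
    induction j using Fin.cases with
    | zero =>
      rw [Fin.val_zero, h0]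
      refine Finset.sum_eq_zero fun i _ => ?_
      rw [ind_ne (Fin.succ_ne_zero i).symm, mul_zero]
    | succ k =>
      rw [Finset.sum_eq_single k]
      · rw [ind_self, mul_one]
        rfl
      · intro i _ hi
        rw [ind_ne (fun h => hi (Fin.succ_injective r h).symm), mul_zero]
      · intro h
        exact absurd (Finset.mem_univ k) h
  simp only [Pi.sub_apply, mul_sub]
  rw [Finset.sum_sub_distrib, e1, e2]

theorem gen0 (m : Fin (r + 1) → ℤ) (hm : ∑ j, m j = 0) :
    ∃ n : Fin r → ℤ, dif m = ∑ i, n i • BA r i := by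
  let f : ℕ → ℤ := fun k => ∑ j : Fin (r + 1), if j.val < k then m j else 0
  have f0 : f 0 = 0 := by simp [f]
  have f1 : f (r + 1) = 0 := by
    have : f (r + 1) = ∑ j, m j := Finset.sum_congr rfl fun j _ => if_pos j.isLt
    rw [this, hm]
  refine ⟨fun i => f (i.val + 1), ?_⟩
  have h1 : m = ∑ i : Fin r, f (i.val + 1) • (ind {i.castSucc} - ind {i.succ}) := by
    funext j
    rw [Finset.sum_apply]
    simp only [Pi.smul_apply, smul_eq_mul]
    rw [sum_simple f f0 f1 j]
    have h2 : f (j.val + 1) - f j.val = ∑ k : Fin (r + 1), if k = j then m k else 0 := by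
      simp only [f]
      rw [← Finset.sum_sub_distrib]
      refine Finset.sum_congr rfl fun k _ => ?_
      by_cases hk : k = j
      · rw [hk, if_pos rfl, if_pos (Nat.lt_succ_self _), if_neg (lt_irrefl _), sub_zero]
      · rw [if_neg hk]
        have hk' : k.val ≠ j.val := fun h => hk (Fin.ext h)
        by_cases hlt : k.val < j.val
        · rw [if_pos hlt, if_pos (by omega), sub_self]
        · rw [if_neg hlt, if_neg (by omega), sub_self]
    rw [h2]
    simp
  have h3 : dif m = dif (∑ i : Fin r, f (i.val + 1) • (ind {i.castSucc} - ind {i.succ})) := congrArg dif h1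
  rw [h3, dif_sum]
  refine Finset.sum_congr rfl fun i _ => ?_
  rw [dif_smul]
  rfl

theorem bas (hC : CUF r) : (BA r).det ≠ 0 := by
  intro h
  obtain ⟨v, hv, hv2⟩ := Matrix.exists_vecMul_eq_zero_iff.mpr h
  apply hv
  let f : ℕ → ℤ := fun k => if h : 0 < k ∧ k ≤ r then v ⟨k - 1, by omega⟩ else 0
  have f0 : f 0 = 0 := by simp [f]
  have f1 : f (r + 1) = 0 := by simp [f]
  have fv : ∀ i : Fin r, f (i.val + 1) = v i := by
    intro i
    have : 0 < i.val + 1 ∧ i.val + 1 ≤ r := ⟨Nat.succ_pos _, i.isLt⟩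
    simp only [f]
    rw [dif_pos this]
    rfl
  let m : Fin (r + 1) → ℤ := ∑ i : Fin r, v i • (ind {i.castSucc} - ind {i.succ})
  have hm1 : dif m = 0 := by
    simp only [m]
    rw [dif_sum, ← hv2]
    funext k
    rw [Finset.sum_apply, Matrix.vecMul, dotProduct]
    refine Finset.sum_congr rfl fun i _ => ?_
    rw [dif_smul, Pi.smul_apply, smul_eq_mul]
    rfl
  have hm2 : ∑ j, m j = 0 := by
    simp only [m, Finset.sum_apply]
    rw [Finset.sum_comm]
    refine Finset.sum_eq_zero fun i _ => ?_
    simp only [Pi.smul_apply]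
    rw [← Finset.smul_sum, sum_root, smul_zero]
  have hm3 : m = 0 := by
    refine key hC ?_ ?_
    · rw [hm2]
      simp
    · rw [hm1]
      funext i
      simp [dif]
  have hm4 : ∀ j : Fin (r + 1), f (j.val + 1) = f j.val := by
    intro j
    have h1 := sum_simple f f0 f1 j
    have h2 : m j = f (j.val + 1) - f j.val := by
      rw [← h1]
      simp only [m, Finset.sum_apply, Pi.smul_apply, smul_eq_mul]
      exact Finset.sum_congr rfl fun i _ => by rw [fv]
    rw [hm3] at h2
    simp only [Pi.zero_apply] at h2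
    linarith
  have hm5 : ∀ k : ℕ, k ≤ r → f k = 0 := by
    intro k
    induction k with
    | zero => intro _; exact f0
    | succ k ih =>
      intro hk
      have := hm4 ⟨k, by omega⟩
      simp only at this
      rw [this]
      exact ih (by omega)
  funext i
  rw [← fv i]
  exact hm5 _ i.isLt

/-! ### reflections -/

theorem refl_eq (hC : CUF r) {a b : Fin (r + 1)} (hab : a < b) (l : Fin r → ℤ) :
    wA (Equiv.swap a b) *ᵥ l = l - ((el (a, b)).2 ⬝ᵥ l) • (el (a, b)).1 := by
  rw [hC.wl]
  have h1 : (el (a, b)).2 ⬝ᵥ l = cum l a - cum l b := (hC.dot l a b hab).symm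
  have h2 : cum l ∘ (Equiv.swap a b) = cum l - (cum l a - cum l b) • (ind {a} - ind {b}) := by
    funext j
    simp only [Function.comp_apply, Pi.sub_apply, Pi.smul_apply, smul_eq_mul]
    by_cases ha : j = a
    · rw [ha, Equiv.swap_apply_left, ind_self, ind_ne hab.ne]
      ring
    · by_cases hb : j = b
      · rw [hb, Equiv.swap_apply_right, ind_self, ind_ne hab.ne']
        ring
      · rw [Equiv.swap_apply_of_ne_of_ne ha hb, ind_ne ha, ind_ne hb]
        ring
  rw [h2, dif_sub, dif_smul, hC.cd, h1]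
  rfl

/-! ### `far` -/

theorem nd_eq (θ : ℝ) : nd θ = ‖(θ : UnitAddCircle)‖ := by
  rw [UnitAddCircle.norm_eq]
  rfl

theorem nd_neg (θ : ℝ) : nd (-θ) = nd θ := by
  rw [nd_eq, nd_eq, AddCircle.coe_neg, norm_neg]

theorem nd_add (x y : ℝ) : nd (x + y) ≤ nd x + nd y := by
  rw [nd_eq, nd_eq, nd_eq, AddCircle.coe_add]
  exact norm_add_le _ _

theorem dz_add (κ κ' : Fin r → ℤ) (θ : Fin r → ℝ) : dz (κ + κ') θ = dz κ θ + dz κ' θ := by
  simp only [dz, Pi.add_apply, Int.cast_add, add_mul]
  rw [Finset.sum_add_distrib]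

theorem dz_neg (κ : Fin r → ℤ) (θ : Fin r → ℝ) : dz (-κ) θ = -dz κ θ := by
  simp only [dz, Pi.neg_apply, Int.cast_neg, neg_mul]
  rw [Finset.sum_neg_distrib]

/-- the distance for the pair `a`, `b` -/
def nn (θ : Fin r → ℝ) (a b : Fin (r + 1)) : ℝ := nd (dz (dif (ind {a} - ind {b})) θ)

theorem nn_symm (θ : Fin r → ℝ) (a b : Fin (r + 1)) : nn θ a b = nn θ b a := by
  unfold nn
  have : dif (ind {a} - ind {b}) = -dif (ind {b} - ind {a} : Fin (r + 1) → ℤ) := by
    rw [dif_sub, dif_sub, neg_sub]
  rw [this, dz_neg, nd_neg]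

theorem nn_tri (θ : Fin r → ℝ) (a b c : Fin (r + 1)) : nn θ a b ≤ nn θ a c + nn θ c b := by
  unfold nn
  have : dif (ind {a} - ind {b}) = dif (ind {a} - ind {c}) + dif (ind {c} - ind {b} : Fin (r + 1) → ℤ) := by
    rw [dif_sub, dif_sub, dif_sub]
    abel
  rw [this, dz_add]
  exact nd_add _ _

/-- the root for the set `{a, b}` -/
def pr (a b : Fin (r + 1)) : (Fin r → ℤ) × (Fin r → ℤ) := el (min a b, max a b)

theorem pr_mem {a b : Fin (r + 1)} (h : a ≠ b) : pr a b ∈ PA r :=
  mem_PA.mpr ⟨(min a b, max a b), min_lt_max.mpr h, rfl⟩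

theorem pr_nn {a b : Fin (r + 1)} (θ : Fin r → ℝ) : nd (dz (pr a b).1 θ) = nn θ a b := by
  rcases le_total a b with h | h
  · rw [pr, min_eq_left h, max_eq_right h]
    rfl
  · rw [pr, min_eq_right h, max_eq_left h, nn_symm]
    rfl

theorem pr_inj (hC : CUF r) {a b c d : Fin (r + 1)} (hab : a ≠ b) (hcd : c ≠ d) (h : pr a b = pr c d) :
    (a = c ∧ b = d) ∨ (a = d ∧ b = c) := by
  have h1 := el_inj hC (p := (min a b, max a b)) (q := (min c d, max c d)) (min_lt_max.mpr hab)
    (min_lt_max.mpr hcd) (congrArg Prod.fst h)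
  have h2 := congrArg Prod.fst h1
  have h3 := congrArg Prod.snd h1
  simp only at h2 h3
  rcases le_total a b with h | h <;> rcases le_total c d with h' | h'
  · rw [min_eq_left h, min_eq_left h'] at h2
    rw [max_eq_right h, max_eq_right h'] at h3
    exact Or.inl ⟨h2, h3⟩
  · rw [min_eq_left h, min_eq_right h'] at h2
    rw [max_eq_right h, max_eq_left h'] at h3
    exact Or.inr ⟨h2, h3⟩
  · rw [min_eq_right h, min_eq_left h'] at h2
    rw [max_eq_left h, max_eq_right h'] at h3
    exact Or.inr ⟨h3, h2⟩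
  · rw [min_eq_right h, min_eq_right h'] at h2
    rw [max_eq_left h, max_eq_left h'] at h3
    exact Or.inl ⟨h3, h2⟩

theorem far (hC : CUF r) (θ : Fin r → ℝ) (q : (Fin r → ℤ) × (Fin r → ℤ)) (hq : q ∈ PA r) :
    r ≤ ((PA r).filter fun p => nd (dz q.1 θ) ≤ 2 * nd (dz p.1 θ)).card := by
  classical
  obtain ⟨⟨a, b⟩, hab, rfl⟩ := mem_PA.mp hq
  simp only at hab
  have hne : a ≠ b := hab.ne
  have hq1 : nd (dz (el (a, b)).1 θ) = nn θ a b := rfl
  have hnn : ∀ x y, 0 ≤ nn θ x y := fun x y => abs_nonneg _
  let g : Fin (r + 1) → (Fin r → ℤ) × (Fin r → ℤ) := fun c =>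
    if c = a then pr a b else if nn θ a b ≤ 2 * nn θ a c then pr a c else pr c b
  have hcard : (Finset.univ.erase b : Finset (Fin (r + 1))).card = r := by
    rw [Finset.card_erase_of_mem (Finset.mem_univ _), Finset.card_univ, Fintype.card_fin]
    rfl
  have hmap : ∀ c ∈ (Finset.univ.erase b : Finset (Fin (r + 1))),
      g c ∈ (PA r).filter fun p => nd (dz (el (a, b)).1 θ) ≤ 2 * nd (dz p.1 θ) := by
    intro c hc
    have hcb : c ≠ b := (Finset.mem_erase.mp hc).1
    rw [Finset.mem_filter, hq1]
    simp only [g]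
    split_ifs with h1 h2
    · refine ⟨pr_mem hne, ?_⟩
      rw [pr_nn]
      have := hnn a b
      linarith
    · refine ⟨pr_mem (Ne.symm h1), ?_⟩
      rw [pr_nn]
      exact h2
    · refine ⟨pr_mem hcb, ?_⟩
      rw [pr_nn]
      have := nn_tri θ a b c
      rw [not_le] at h2
      linarith
  have hinj : Set.InjOn g ((Finset.univ.erase b : Finset (Fin (r + 1))) : Set (Fin (r + 1))) := by
    intro c hc d hd h
    have hcb : c ≠ b := (Finset.mem_erase.mp (Finset.mem_coe.mp hc)).1
    have hdb : d ≠ b := (Finset.mem_erase.mp (Finset.mem_coe.mp hd)).1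
    simp only [g] at h
    split_ifs at h with h1 h2 h3 h4 h5 h6 h7 h8
    · rw [h1, h2]
    · rcases pr_inj hC hne (Ne.symm h2) h with h | h
      · exact absurd h.2.symm hdb
      · exact absurd h.1.symm h2
    · rcases pr_inj hC hne hdb h with h | h
      · exact absurd h.1.symm h2
      · exact absurd h.1 hne
    · rcases pr_inj hC (Ne.symm h1) hne h with h | h
      · exact absurd h.2 hcb
      · exact absurd h.1 hne
    · rcases pr_inj hC (Ne.symm h1) (Ne.symm h5) h with h | h
      · exact h.2
      · exact absurd h.1.symm h5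
    · rcases pr_inj hC (Ne.symm h1) hdb h with h | h
      · exact absurd h.1.symm h5
      · exact absurd h.1 hne
    · rcases pr_inj hC hcb hne h with h | h
      · exact absurd h.1 h1
      · exact absurd h.1 hcb
    · rcases pr_inj hC hcb (Ne.symm h7) h with h | h
      · exact absurd h.1 h1
      · exact absurd h.2.symm hne
    · rcases pr_inj hC hcb hdb h with h | h
      · exact h.1
      · exact absurd h.1 hcb
  calc r = (Finset.univ.erase b : Finset (Fin (r + 1))).card := hcard.symm
    _ ≤ _ := Finset.card_le_card_of_injOn g hmap hinj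

end RTA1

open RTA1 in
theorem t_RTA1 : M_RTA1 := by
  intro hCU r
  have hC := hCU r
  refine
    { inj := ?_
      card := ?_
      refl := ?_
      pos := ?_
      np1 := ?_
      np2 := ?_
      rho2 := ?_
      bas := bas hC
      gen := ?_
      bmem := ?_
      wl := ?_
      far := far hC }
  · intro p hp q hq h
    rw [mem_prs] at hp hq
    exact el_inj hC hp hq h
  · rw [PA_eq, Finset.card_image_of_injOn (el_injOn hC)]
    exact card_prs r
  · intro p hp
    obtain ⟨⟨a, b⟩, hab, rfl⟩ := mem_PA.mp hp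
    refine ⟨wA (Equiv.swap a b), Finset.mem_image.mpr ⟨_, Finset.mem_univ _, rfl⟩, ?_, refl_eq hC hab⟩
    rw [hC.wdet, Equiv.Perm.sign_swap hab.ne]
    rfl
  · intro p hp
    obtain ⟨⟨a, b⟩, hab, rfl⟩ := mem_PA.mp hp
    simp only at hab
    constructor
    · intro i
      simp only [el]
      split_ifs <;> norm_num
    · intro h
      have hlt : a.val < r := by
        have h1 : a.val < b.val := hab
        have h2 := b.isLt
        omega
      have h1 := congrFun h ⟨a.val, hlt⟩
      simp only [el, Pi.zero_apply] at h1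
      rw [if_pos ⟨le_rfl, hab⟩] at h1
      norm_num at h1
  · intro p hp q hq hpq x y h
    obtain ⟨⟨a, b⟩, hab, rfl⟩ := mem_PA.mp hp
    obtain ⟨⟨c, d⟩, hcd, rfl⟩ := mem_PA.mp hq
    simp only at hab hcd
    have h1 : x • (ind {a} - ind {b}) = y • (ind {c} - ind {d} : Fin (r + 1) → ℤ) := by
      refine key hC ?_ ?_
      · simp only [Pi.smul_apply]
        rw [← Finset.smul_sum, ← Finset.smul_sum, sum_root, sum_root, smul_zero, smul_zero]
      · rw [dif_smul, dif_smul]
        exact h
    have hc0 : y * (ind {c} - ind {d} : Fin (r + 1) → ℤ) c = y := by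
      rw [Pi.sub_apply, ind_self, ind_ne hcd.ne]
      ring
    have ha : x = y * (ind {c} - ind {d} : Fin (r + 1) → ℤ) a := by
      have h2 := congrFun h1 a
      rw [Pi.smul_apply, Pi.smul_apply, Pi.sub_apply, ind_self, ind_ne hab.ne, smul_eq_mul, smul_eq_mul] at h2
      linarith
    have hb : -x = y * (ind {c} - ind {d} : Fin (r + 1) → ℤ) b := by
      have h2 := congrFun h1 b
      rw [Pi.smul_apply, Pi.smul_apply, Pi.sub_apply, ind_self, ind_ne hab.ne', smul_eq_mul, smul_eq_mul] at h2
      linarith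
    have hx : x = 0 := by
      by_contra hx
      have ha2 : a = c ∨ a = d := by
        by_contra hh
        rw [not_or] at hh
        rw [Pi.sub_apply, ind_ne hh.1, ind_ne hh.2] at ha
        apply hx
        rw [ha]
        ring
      have hb2 : b = c ∨ b = d := by
        by_contra hh
        rw [not_or] at hh
        rw [Pi.sub_apply, ind_ne hh.1, ind_ne hh.2] at hb
        apply hx
        have : -x = 0 := by
          rw [hb]
          ring
        linarith
      rcases ha2 with ha2 | ha2 <;> rcases hb2 with hb2 | hb2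
      · rw [ha2, hb2] at hab
        exact lt_irrefl _ hab
      · apply hpq
        rw [ha2, hb2]
      · rw [ha2, hb2] at hab
        exact lt_asymm hab hcd
      · rw [ha2, hb2] at hab
        exact lt_irrefl _ hab
    refine ⟨hx, ?_⟩
    have h2 := congrFun h1 c
    rw [hx, zero_smul, Pi.zero_apply, Pi.smul_apply, smul_eq_mul, hc0] at h2
    exact h2.symm
  · intro p hp q hq hpq x y h
    obtain ⟨⟨a, b⟩, hab, rfl⟩ := mem_PA.mp hp
    obtain ⟨⟨c, d⟩, hcd, rfl⟩ := mem_PA.mp hq
    simp only at hab hcd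
    have hab' : a.val < b.val := hab
    have hcd' : c.val < d.val := hcd
    have hb := b.isLt
    have hd := d.isLt
    have hval : ∀ i : Fin r, x * (if a.val ≤ i.val ∧ i.val < b.val then (1 : ℤ) else 0) =
        y * (if c.val ≤ i.val ∧ i.val < d.val then (1 : ℤ) else 0) := by
      intro i
      have := congrFun h i
      simpa only [el, Pi.smul_apply, smul_eq_mul] using this
    have hx : x = 0 := by
      by_contra hx
      have h1 := hval ⟨a.val, by omega⟩
      rw [if_pos ⟨le_rfl, hab'⟩, mul_one] at h1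
      have h2 : c.val ≤ a.val ∧ a.val < d.val := by
        by_contra hh
        rw [if_neg hh, mul_zero] at h1
        exact hx h1
      rw [if_pos h2, mul_one] at h1
      have h3 : ∀ i : Fin r, (a.val ≤ i.val ∧ i.val < b.val) ↔ (c.val ≤ i.val ∧ i.val < d.val) := by
        intro i
        have h4 := hval i
        rw [← h1] at h4
        have h5 := mul_left_cancel₀ hx h4
        constructor
        · intro h6
          rw [if_pos h6] at h5
          by_contra h7
          rw [if_neg h7] at h5
          norm_num at h5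
        · intro h6
          rw [if_pos h6] at h5
          by_contra h7
          rw [if_neg h7] at h5
          norm_num at h5
      have h4 := (h3 ⟨c.val, by omega⟩).mpr ⟨le_rfl, hcd'⟩
      have h5 := (h3 ⟨b.val - 1, by omega⟩).mp ⟨by simp only; omega, by simp only; omega⟩
      have h6 := (h3 ⟨d.val - 1, by omega⟩).mpr ⟨by simp only; omega, by simp only; omega⟩
      simp only at h4 h5 h6
      apply hpq
      have e1 : a = c := Fin.ext (by omega)
      have e2 : b = d := Fin.ext (by omega)
      rw [e1, e2]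
    refine ⟨hx, ?_⟩
    have h1 := hval ⟨c.val, by omega⟩
    rw [hx, zero_mul, if_pos ⟨le_rfl, hcd'⟩, mul_one] at h1
    exact h1.symm
  · rw [PA_eq, Finset.sum_image (el_injOn hC)]
    have h1 : ∑ p ∈ prs r, (el p).1 = dif (∑ p ∈ prs r, (ind {p.1} - ind {p.2})) := by
      rw [dif_sum]
      rfl
    rw [h1]
    funext i
    simp only [dif, Finset.sum_apply]
    rw [sum_prs, sum_prs, Fin.val_castSucc, Fin.val_succ]
    push_cast
    ring
  · intro p hp
    obtain ⟨⟨a, b⟩, hab, rfl⟩ := mem_PA.mp hp
    exact gen0 _ (sum_root a b)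
  · intro i
    exact ⟨el (i.castSucc, i.succ), mem_PA.mpr ⟨(i.castSucc, i.succ), Fin.castSucc_lt_succ, rfl⟩, rfl⟩
  · intro w hw l
    obtain ⟨σ, _, rfl⟩ := Finset.mem_image.mp hw
    have h1 : ∑ j, (cum l ∘ σ - cum l) j = 0 := by
      simp only [Pi.sub_apply, Function.comp_apply]
      rw [Finset.sum_sub_distrib, Equiv.sum_comp σ (cum l), sub_self]
    obtain ⟨n, hn⟩ := gen0 _ h1
    refine ⟨n, ?_⟩
    rw [hC.wl, ← hn, dif_sub, hC.cd]
    abel

end

end STZ
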