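import Pool.Agent.STZ.StmtsP

/-!
# The positive roots of `SU(r + 1)`
-/

namespace STZ

open MeasureTheory Matrix

open scoped ComplexConjugate Matrix Real

noncomputable section

namespace RTA2

variable {r : ℕ}

/-- the root and the coroot of a pair -/
def fr (p : Fin (r + 1) × Fin (r + 1)) : (Fin r → ℤ) × (Fin r → ℤ) :=
  (dif (ind {p.1} - ind {p.2}), fun i : Fin r => if p.1.val ≤ i.val ∧ i.val < p.2.val then (1 : ℤ) else 0)

theorem PA_eq : PA r = (prs r).image fr := rfl

theorem fr_inj (hR : RA1 r) : Set.InjOn (fr (r := r)) (prs r : Set (Fin (r + 1) × Fin (r + 1))) := by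
  intro p hp q hq h
  exact hR.inj p hp q hq (congrArg Prod.fst h)

theorem eu_add (a b : ℝ) : eu (a + b) = eu a * eu b := by
  unfold eu
  rw [← Complex.exp_add]
  congr 1
  push_cast
  ring

theorem eu_ne (a : ℝ) : eu a ≠ 0 := Complex.exp_ne_zero _

theorem vA_ne (θ : Fin r → ℝ) (j : Fin (r + 1)) : vA θ j ≠ 0 := eu_ne _

theorem dz_neg (κ : Fin r → ℤ) (θ : Fin r → ℝ) : -(dz κ θ) = dz (-κ) θ := by
  unfold dz
  rw [← Finset.sum_neg_distrib]
  refine Finset.sum_congr rfl fun i _ => ?_
  rw [Pi.neg_apply]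
  push_cast
  ring

theorem dif_neg (m : Fin (r + 1) → ℤ) : -(dif m) = dif (-m) := by
  funext i
  simp only [dif, Pi.neg_apply]
  ring

/-- the factor of a root -/
theorem factor (hV : VAF r) (θ : Fin r → ℝ) (a b : Fin (r + 1)) (hab : a < b) :
    vA θ a * (1 - eu (-(dz (dif (ind {a} - ind {b})) θ))) = vA θ a - vA θ b := by
  rw [dz_neg, dif_neg, hV.dz]
  have h1 : ∀ j, vA θ j ^ (-(ind {a} - ind {b}) : Fin (r + 1) → ℤ) j =
      (if j = a then (vA θ j)⁻¹ else 1) * (if j = b then vA θ j else 1) := by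
    intro j
    have h2 : (-(ind {a} - ind {b}) : Fin (r + 1) → ℤ) j = (if j = b then 1 else 0) -
        (if j = a then 1 else 0) := by
      simp only [Pi.neg_apply, Pi.sub_apply, ind, Finset.mem_singleton]
      ring
    rw [h2]
    by_cases ha : j = a
    · have hb : j ≠ b := by
        rw [ha]
        exact hab.ne
      simp [ha, hab.ne]
    · by_cases hb : j = b
      · simp [hb, hab.ne']
      · simp [ha, hb]
  simp only [h1]
  rw [Finset.prod_mul_distrib, Finset.prod_ite_eq', Finset.prod_ite_eq']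
  simp only [Finset.mem_univ, if_true]
  have h3 := vA_ne θ a
  field_simp

/-- the product of the first eigenvalues -/
theorem firsts (hV : VAF r) (θ : Fin r → ℝ) : ∏ p ∈ prs r, vA θ p.1 = eu (∑ i, θ i) := by
  have h1 : ∏ p ∈ prs r, vA θ p.1 = ∏ j : Fin (r + 1), vA θ j ^ ((r : ℤ) - j.val) := by
    have h2 : ∏ p ∈ prs r, vA θ p.1 =
        ∏ j : Fin (r + 1), ∏ p ∈ (prs r).filter (fun p => p.1 = j), vA θ p.1 := by
      rw [Finset.prod_fiberwise]
    rw [h2]
    refine Finset.prod_congr rfl fun j _ => ?_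
    have h3 : ∏ p ∈ (prs r).filter (fun p => p.1 = j), vA θ p.1 =
        ∏ _p ∈ (prs r).filter (fun p => p.1 = j), vA θ j := by
      refine Finset.prod_congr rfl fun p hp => ?_
      rw [(Finset.mem_filter.1 hp).2]
    rw [h3, Finset.prod_const]
    have h4 : ((prs r).filter (fun p => p.1 = j)).card = r - j.val := by
      have h5 : (prs r).filter (fun p => p.1 = j) = (Finset.Ioi j).image fun b => (j, b) := by
        ext p
        simp only [prs, Finset.mem_filter, Finset.mem_univ, true_and, Finset.mem_image,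
          Finset.mem_Ioi]
        constructor
        · rintro ⟨h, rfl⟩
          exact ⟨p.2, h, rfl⟩
        · rintro ⟨b, hb, rfl⟩
          exact ⟨hb, rfl⟩
      rw [h5, Finset.card_image_of_injective _ (fun a b h => (Prod.mk.inj h).2), Fin.card_Ioi]
      omega
    rw [h4]
    have h6 : ((r : ℤ) - j.val) = ((r - j.val : ℕ) : ℤ) := by
      have := j.isLt
      omega
    rw [h6, zpow_natCast]
  rw [h1]
  have h7 := hV.dz (fun j => (r : ℤ) - j.val) θ
  rw [← h7]
  congr 1
  unfold dz
  refine Finset.sum_congr rfl fun i _ => ?_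
  simp [dif]

theorem main (hC : CUF r) (hD : RDD (DA r) ∧ ∀ l : Fin r → ℤ,
    (DA r).dim l * ∏ p ∈ prs r, ((p.2.val : ℤ) - p.1.val) = ∏ p ∈ prs r, (cum l p.1 - cum l p.2))
    (hV : VAF r) (hR : RA1 r) : RTD (DA r) (PA r) (BA r) r where
  card := hR.card
  refl := hR.refl
  pos := hR.pos
  np1 := hR.np1
  np2 := hR.np2
  rho2 := hR.rho2
  dimP := by
    intro l
    rw [PA_eq, Finset.prod_image (fr_inj hR), Finset.prod_image (fr_inj hR)]
    have h1 : ∀ m : Fin r → ℤ, ∀ p ∈ prs r, (fr p).2 ⬝ᵥ m = cum m p.1 - cum m p.2 := by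
      intro m p hp
      exact (hC.dot m p.1 p.2 (Finset.mem_filter.1 hp).2).symm
    rw [Finset.prod_congr rfl (h1 l), ← hD.2 l]
    congr 1
    refine Finset.prod_congr rfl fun p hp => ?_
    rw [h1 1 p hp, hC.one, hC.one]
    ring
  den := by
    intro θ
    rw [hV.AT, PA_eq, Finset.prod_image (fr_inj hR), ← firsts hV θ, ← Finset.prod_mul_distrib]
    refine Finset.prod_congr rfl fun p hp => ?_
    exact (factor hV θ p.1 p.2 (Finset.mem_filter.1 hp).2).symm
  bas := hR.bas
  gen := hR.gen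
  bmem := hR.bmem
  wl := hR.wl
  far := hR.far

end RTA2

theorem t_RTA2 : M_RTA2 := fun h1 h2 h3 h4 r => RTA2.main (h1 r) (h2 r) (h3 r) (h4 r)

end

end STZ
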