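import Pool.Agent.STZ.StmtsV

/-!
# Module RTEA: more properties of the positive roots of `SU(r + 1)`
-/

set_option autoImplicit false

namespace STZ

open Matrix

noncomputable section

namespace RTEA

variable {r : ℕ}

/-- the root of a pair, with the coroot -/
def fr (r : ℕ) (p : Fin (r + 1) × Fin (r + 1)) : (Fin r → ℤ) × (Fin r → ℤ) :=
  (dif (ind {p.1} - ind {p.2}),
    fun i : Fin r => if p.1.val ≤ i.val ∧ i.val < p.2.val then (1 : ℤ) else 0)

theorem mem_prs {a b : Fin (r + 1)} : (a, b) ∈ prs r ↔ a < b := by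
  simp [prs]

theorem fr_mem {p : Fin (r + 1) × Fin (r + 1)} (h : p ∈ prs r) : fr r p ∈ PA r :=
  Finset.mem_image_of_mem _ h

theorem ex_of_mem {q : (Fin r → ℤ) × (Fin r → ℤ)} (h : q ∈ PA r) :
    ∃ p ∈ prs r, fr r p = q := by
  obtain ⟨p, hp, e⟩ := Finset.mem_image.1 h
  exact ⟨p, hp, e⟩

theorem dif_neg' (m : Fin (r + 1) → ℤ) : dif (-m) = -dif m := by
  funext i
  simp only [dif, Pi.neg_apply]
  ring

theorem fr_swap (a b : Fin (r + 1)) : (fr r (b, a)).1 = -(fr r (a, b)).1 := by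
  simp only [fr]
  rw [← dif_neg', neg_sub]

theorem W_dif (hc : CUF r) (σ : Equiv.Perm (Fin (r + 1))) (m : Fin (r + 1) → ℤ) :
    wA σ *ᵥ dif m = dif (m ∘ σ) := by
  rw [hc.wl]
  funext i
  simp only [dif, Function.comp_apply, hc.dc]
  ring

theorem ind_comp (σ : Equiv.Perm (Fin (r + 1))) (a : Fin (r + 1)) :
    (ind {a} : Fin (r + 1) → ℤ) ∘ σ = ind {σ.symm a} := by
  funext j
  simp only [ind, Function.comp_apply, Finset.mem_singleton]
  congr 1
  rw [eq_iff_iff]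
  constructor
  · intro h
    rw [← h, Equiv.symm_apply_apply]
  · intro h
    rw [h, Equiv.apply_symm_apply]

theorem W_fr (hc : CUF r) (σ : Equiv.Perm (Fin (r + 1))) (a b : Fin (r + 1)) :
    wA σ *ᵥ (fr r (a, b)).1 = (fr r (σ.symm a, σ.symm b)).1 := by
  simp only [fr]
  rw [W_dif hc, ← ind_comp, ← ind_comp]
  rfl

theorem W_mem {w : Matrix (Fin r) (Fin r) ℤ} (h : w ∈ (DA r).W) :
    ∃ σ : Equiv.Perm (Fin (r + 1)), wA σ = w := by
  obtain ⟨σ, _, e⟩ := Finset.mem_image.1 h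
  exact ⟨σ, e⟩

theorem perm (hc : CUF r) : ∀ w ∈ (DA r).W, ∀ p ∈ PA r, ∃ q ∈ PA r,
    w *ᵥ p.1 = q.1 ∨ w *ᵥ p.1 = -q.1 := by
  intro w hw p hp
  obtain ⟨σ, rfl⟩ := W_mem hw
  obtain ⟨⟨a, b⟩, hab, rfl⟩ := ex_of_mem hp
  rw [mem_prs] at hab
  rw [W_fr hc]
  rcases lt_trichotomy (σ.symm a) (σ.symm b) with h | h | h
  · exact ⟨_, fr_mem (mem_prs.2 h), Or.inl rfl⟩
  · exact absurd (σ.symm.injective h) hab.ne
  · exact ⟨_, fr_mem (mem_prs.2 h), Or.inr (fr_swap _ _)⟩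

theorem cperm (hc : CUF r) : ∀ w ∈ (DA r).W, ∀ p ∈ PA r, ∃ q ∈ PA r,
    (∀ l, p.2 ⬝ᵥ (w *ᵥ l) = q.2 ⬝ᵥ l) ∨ (∀ l, p.2 ⬝ᵥ (w *ᵥ l) = -(q.2 ⬝ᵥ l)) := by
  intro w hw p hp
  obtain ⟨σ, rfl⟩ := W_mem hw
  obtain ⟨⟨a, b⟩, hab, rfl⟩ := ex_of_mem hp
  rw [mem_prs] at hab
  have h1 : ∀ l, (fr r (a, b)).2 ⬝ᵥ (wA σ *ᵥ l) = cum l (σ a) - cum l (σ b) := by
    intro l
    have h2 := hc.dot (wA σ *ᵥ l) a b hab
    rw [hc.wc, hc.wc] at h2
    simp only [fr]
    rw [← h2]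
    ring
  rcases lt_trichotomy (σ a) (σ b) with h | h | h
  · refine ⟨_, fr_mem (mem_prs.2 h), Or.inl fun l => ?_⟩
    rw [h1, hc.dot l _ _ h]
    rfl
  · exact absurd (σ.injective h) hab.ne
  · refine ⟨_, fr_mem (mem_prs.2 h), Or.inr fun l => ?_⟩
    have h3 := hc.dot l _ _ h
    rw [h1]
    simp only [fr]
    rw [← h3]
    ring

theorem sim (i : Fin r) : ∃ p ∈ PA r, p.2 = Pi.single i 1 := by
  refine ⟨_, fr_mem (mem_prs.2 (Fin.castSucc_lt_succ (i := i))), ?_⟩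
  funext k
  simp only [fr, Fin.val_castSucc, Fin.val_succ]
  by_cases h : k = i
  · subst h
    simp
  · rw [Pi.single_eq_of_ne h, if_neg]
    intro h2
    exact h (Fin.ext (by omega))

/-! ### the average -/

/-- the positive root of an unordered pair -/
def rt (a b : Fin (r + 1)) (h : a ≠ b) : {p // p ∈ PA r} :=
  if h1 : a < b then ⟨fr r (a, b), fr_mem (mem_prs.2 h1)⟩
  else ⟨fr r (b, a), fr_mem (mem_prs.2 (lt_of_le_of_ne (not_lt.1 h1) h.symm))⟩

theorem rt_lt {a b : Fin (r + 1)} (h : a < b) (h' : a ≠ b) :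
    rt a b h' = ⟨fr r (a, b), fr_mem (mem_prs.2 h)⟩ := by
  rw [rt, dif_pos h]

theorem rt_gt {a b : Fin (r + 1)} (h : b < a) (h' : a ≠ b) :
    rt a b h' = ⟨fr r (b, a), fr_mem (mem_prs.2 h)⟩ := by
  rw [rt, dif_neg (not_lt.2 h.le)]

/-- the function of pairs -/
def YY (y : {p // p ∈ PA r} → ℕ) (a b : Fin (r + 1)) : ℕ :=
  if h : a ≠ b then y (rt a b h) else 0

theorem YY_symm (y : {p // p ∈ PA r} → ℕ) (a b : Fin (r + 1)) : YY y a b = YY y b a := by
  rcases lt_trichotomy a b with h | h | h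
  · rw [YY, YY, dif_pos h.ne, dif_pos h.ne', rt_lt h, rt_gt h]
  · subst h
    rfl
  · rw [YY, YY, dif_pos h.ne', dif_pos h.ne, rt_gt h, rt_lt h]

theorem YY_self (y : {p // p ∈ PA r} → ℕ) (a : Fin (r + 1)) : YY y a a = 0 := by
  rw [YY, dif_neg (not_not.2 rfl)]

theorem sum_prs (hR : RA1 r) (y : {p // p ∈ PA r} → ℕ) :
    ∑ q ∈ prs r, YY y q.1 q.2 = ∑ p, y p := by
  refine Finset.sum_bij (fun q hq => ⟨fr r q, fr_mem hq⟩) ?_ ?_ ?_ ?_
  · intro q hq
    exact Finset.mem_univ _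
  · intro q hq q' hq' e
    have e1 := congrArg (fun x : {p // p ∈ PA r} => x.1.1) e
    exact hR.inj q hq q' hq' e1
  · intro p _
    obtain ⟨q, hq, e⟩ := ex_of_mem p.2
    exact ⟨q, hq, Subtype.ext e⟩
  · intro q hq
    obtain ⟨a, b⟩ := q
    have h := mem_prs.1 hq
    simp only [YY]
    rw [dif_pos h.ne, rt_lt h]

theorem sum_all (hR : RA1 r) (y : {p // p ∈ PA r} → ℕ) :
    ∑ a, ∑ b, YY y a b = 2 * ∑ p, y p := by
  rw [← sum_prs hR]
  have h1 : ∀ a b : Fin (r + 1), YY y a b =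
      (if a < b then YY y a b else 0) + (if b < a then YY y b a else 0) := by
    intro a b
    rcases lt_trichotomy a b with h | h | h
    · rw [if_pos h, if_neg (not_lt.2 h.le), add_zero]
    · subst h
      rw [YY_self]
      simp
    · rw [if_neg (not_lt.2 h.le), if_pos h, zero_add, YY_symm]
  have h2 : ∑ q ∈ prs r, YY y q.1 q.2 = ∑ a, ∑ b, if a < b then YY y a b else 0 := by
    rw [prs, Finset.sum_filter, Fintype.sum_prod_type]
  rw [h2, two_mul]
  conv_lhs => enter [2, a, 2, b]; rw [h1 a b]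
  simp only [Finset.sum_add_distrib]
  congr 1
  rw [Finset.sum_comm]

/-- the sum over the permutations -/
def SS (y : {p // p ∈ PA r} → ℕ) (u v : Fin (r + 1)) : ℕ :=
  ∑ σ : Equiv.Perm (Fin (r + 1)), YY y (σ u) (σ v)

theorem two_trans {u v u' v' : Fin (r + 1)} (h : u ≠ v) (h' : u' ≠ v') :
    ∃ τ : Equiv.Perm (Fin (r + 1)), τ u = u' ∧ τ v = v' := by
  refine ⟨Equiv.swap (Equiv.swap u u' v) v' * Equiv.swap u u', ?_, ?_⟩
  · rw [Equiv.Perm.mul_apply, Equiv.swap_apply_left]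
    refine Equiv.swap_apply_of_ne_of_ne ?_ h'
    intro e
    have h2 : Equiv.swap u u' u = Equiv.swap u u' v := by
      rw [Equiv.swap_apply_left]
      exact e
    exact h ((Equiv.swap u u').injective h2)
  · rw [Equiv.Perm.mul_apply, Equiv.swap_apply_left]

theorem SS_eq (y : {p // p ∈ PA r} → ℕ) {u v u' v' : Fin (r + 1)} (h : u ≠ v) (h' : u' ≠ v') :
    SS y u v = SS y u' v' := by
  obtain ⟨τ, h1, h2⟩ := two_trans h h'
  unfold SS
  rw [← Equiv.sum_comp (Equiv.mulRight τ)]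
  refine Finset.sum_congr rfl fun σ _ => ?_
  rw [Equiv.coe_mulRight, Equiv.Perm.mul_apply, Equiv.Perm.mul_apply]
  rw [h1, h2]

theorem SS_sum (y : {p // p ∈ PA r} → ℕ) :
    ∑ u, ∑ v, SS y u v = Fintype.card (Equiv.Perm (Fin (r + 1))) * ∑ a, ∑ b, YY y a b := by
  unfold SS
  have h1 : ∀ σ : Equiv.Perm (Fin (r + 1)), ∑ u, ∑ v, YY y (σ u) (σ v) = ∑ a, ∑ b, YY y a b := by
    intro σ
    rw [Equiv.sum_comp σ (fun a => ∑ v, YY y a (σ v))]
    refine Finset.sum_congr rfl fun a _ => ?_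
    exact Equiv.sum_comp σ (fun b => YY y a b)
  have h2 : ∑ u, ∑ v, ∑ σ : Equiv.Perm (Fin (r + 1)), YY y (σ u) (σ v) =
      ∑ σ : Equiv.Perm (Fin (r + 1)), ∑ u, ∑ v, YY y (σ u) (σ v) := by
    rw [Finset.sum_comm]
    conv_lhs => enter [2, a]; rw [Finset.sum_comm]
    rw [Finset.sum_comm]
    refine Finset.sum_congr rfl fun σ _ => ?_
    rw [Finset.sum_comm]
  rw [h2, Finset.sum_congr rfl fun σ _ => h1 σ, Finset.sum_const, Finset.card_univ, smul_eq_mul]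

theorem SS_mul (y : {p // p ∈ PA r} → ℕ) {u v : Fin (r + 1)} (h : u ≠ v) :
    (r + 1) * r * SS y u v = Fintype.card (Equiv.Perm (Fin (r + 1))) * ∑ a, ∑ b, YY y a b := by
  rw [← SS_sum]
  have h1 : ∀ a : Fin (r + 1), ∑ b, SS y a b = r * SS y u v := by
    intro a
    rw [← Finset.add_sum_erase _ _ (Finset.mem_univ a)]
    have h2 : SS y a a = 0 := by
      unfold SS
      exact Finset.sum_eq_zero fun σ _ => YY_self y _
    rw [h2, zero_add, Finset.sum_congr rfl fun b hb =>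
      SS_eq y (Finset.ne_of_mem_erase hb).symm h, Finset.sum_const,
      Finset.card_erase_of_mem (Finset.mem_univ a), Finset.card_univ, Fintype.card_fin,
      Nat.add_sub_cancel, smul_eq_mul]
  rw [Finset.sum_congr rfl fun a _ => h1 a, Finset.sum_const, Finset.card_univ, Fintype.card_fin,
    smul_eq_mul, mul_assoc]

theorem total (hR : RA1 r) (y : {p // p ∈ PA r} → ℕ) :
    (PA r).card * ∑ σ : Equiv.Perm (Fin (r + 1)), ∑ i : Fin r, YY y (σ i.castSucc) (σ i.succ) =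
      Fintype.card (Equiv.Perm (Fin (r + 1))) * (r * ∑ p, y p) := by
  have h1 : ∑ σ : Equiv.Perm (Fin (r + 1)), ∑ i : Fin r, YY y (σ i.castSucc) (σ i.succ) =
      ∑ i : Fin r, SS y i.castSucc i.succ := by
    unfold SS
    rw [Finset.sum_comm]
  have h2 : (r + 1) * r * ∑ i : Fin r, SS y i.castSucc i.succ =
      r * (Fintype.card (Equiv.Perm (Fin (r + 1))) * ∑ a, ∑ b, YY y a b) := by
    rw [Finset.mul_sum, Finset.sum_congr rfl fun i _ =>
      SS_mul y (Fin.castSucc_lt_succ (i := i)).ne, Finset.sum_const, Finset.card_univ,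
      Fintype.card_fin, smul_eq_mul]
  have h3 : r * (r + 1) = 2 * (PA r).card := hR.card
  rw [sum_all hR] at h2
  rw [h1]
  have h4 : 2 * ((PA r).card * ∑ i : Fin r, SS y i.castSucc i.succ) =
      2 * (Fintype.card (Equiv.Perm (Fin (r + 1))) * (r * ∑ p, y p)) := by
    calc 2 * ((PA r).card * ∑ i : Fin r, SS y i.castSucc i.succ) =
        (2 * (PA r).card) * ∑ i : Fin r, SS y i.castSucc i.succ := by ring
      _ = (r + 1) * r * ∑ i : Fin r, SS y i.castSucc i.succ := by rw [← h3]; ring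
      _ = r * (Fintype.card (Equiv.Perm (Fin (r + 1))) * (2 * ∑ p, y p)) := h2
      _ = _ := by ring
  exact Nat.eq_of_mul_eq_mul_left (by norm_num) h4

theorem row (hc : CUF r) (σ : Equiv.Perm (Fin (r + 1))) (i : Fin r)
    (h : σ i.castSucc ≠ σ i.succ) :
    ∃ e : ℤ, (e = 1 ∨ e = -1) ∧
      (rt (σ i.castSucc) (σ i.succ) h).1.1 = e • (wA σ⁻¹ *ᵥ BA r i) := by
  have h1 : wA σ⁻¹ *ᵥ BA r i = (fr r (σ i.castSucc, σ i.succ)).1 := by
    have h2 : BA r i = (fr r (i.castSucc, i.succ)).1 := rfl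
    rw [h2, W_fr hc]
    rfl
  rcases lt_or_gt_of_ne h with h3 | h3
  · refine ⟨1, Or.inl rfl, ?_⟩
    rw [rt_lt h3, h1, one_smul]
  · refine ⟨-1, Or.inr rfl, ?_⟩
    rw [rt_gt h3, h1, fr_swap, neg_smul, one_smul]

theorem det_ne (hc : CUF r) (hR : RA1 r) (σ : Equiv.Perm (Fin (r + 1)))
    (h : ∀ i : Fin r, σ i.castSucc ≠ σ i.succ) :
    (Matrix.of fun i => (rt (σ i.castSucc) (σ i.succ) (h i)).1.1).det ≠ 0 := by
  choose e he1 he2 using fun i => row hc σ i (h i)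
  have h1 : (Matrix.of fun i => (rt (σ i.castSucc) (σ i.succ) (h i)).1.1) =
      Matrix.diagonal e * (BA r * (wA σ⁻¹)ᵀ) := by
    ext i j
    rw [Matrix.diagonal_mul, Matrix.of_apply, he2 i, Pi.smul_apply, smul_eq_mul, Matrix.mulVec,
      Matrix.mul_apply]
    congr 1
    simp only [dotProduct, Matrix.transpose_apply]
    exact Finset.sum_congr rfl fun k _ => mul_comm _ _
  rw [h1, Matrix.det_mul, Matrix.det_mul, Matrix.det_transpose, Matrix.det_diagonal, hc.wdet]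
  refine mul_ne_zero ?_ (mul_ne_zero hR.bas ?_)
  · refine Finset.prod_ne_zero_iff.2 fun i _ => ?_
    rcases he1 i with h2 | h2 <;> rw [h2] <;> norm_num
  · exact Units.ne_zero _

theorem avg (hc : CUF r) (hR : RA1 r) (y : {p // p ∈ PA r} → ℕ) :
    ∃ b : Fin r → {p // p ∈ PA r},
      (Matrix.of fun i => (b i).1.1).det ≠ 0 ∧
      (PA r).card * ∑ i, y (b i) ≤ r * ∑ p, y p := by
  have h1 : ∑ σ : Equiv.Perm (Fin (r + 1)),
      ((PA r).card * ∑ i : Fin r, YY y (σ i.castSucc) (σ i.succ)) ≤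
      ∑ σ : Equiv.Perm (Fin (r + 1)), (r * ∑ p, y p) := by
    rw [← Finset.mul_sum, total hR y, Finset.sum_const, Finset.card_univ, smul_eq_mul]
  obtain ⟨σ, _, h2⟩ := Finset.exists_le_of_sum_le Finset.univ_nonempty h1
  have hne : ∀ i : Fin r, σ i.castSucc ≠ σ i.succ := fun i e =>
    (Fin.castSucc_lt_succ (i := i)).ne (σ.injective e)
  refine ⟨fun i => rt (σ i.castSucc) (σ i.succ) (hne i), det_ne hc hR σ hne, ?_⟩
  refine le_trans (le_of_eq ?_) h2
  congr 1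
  refine Finset.sum_congr rfl fun i _ => ?_
  rw [YY, dif_pos (hne i)]

end RTEA

theorem t_RTEA : M_RTEA := by
  intro hC hR r
  exact
    { perm := RTEA.perm (hC r)
      cperm := RTEA.cperm (hC r)
      sim := RTEA.sim
      avg := RTEA.avg (hC r) (hR r) }

end

end STZ
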