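import Pool.Agent.STZ.StmtsY

/-!
# Module SINR: the Dirichlet kernel at a point
-/

namespace STZ

namespace SINR

open Complex Finset

open scoped Real

/-- `eu` of a natural multiple depends on the fractional part only -/
theorem eu_shift (j : ℕ) (y : ℝ) : eu (-(j * y)) = eu (-(j * (y - round y))) := by
  unfold eu
  have h : (2 * π * ((-(j * y) : ℝ) : ℂ) * I : ℂ) =
      2 * π * ((-(j * (y - round y)) : ℝ) : ℂ) * I + ((-(j * round y) : ℤ) : ℂ) * (2 * π * I) := by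
    push_cast
    ring
  rw [h, Complex.exp_add, Complex.exp_int_mul_two_pi_mul_I, mul_one]

/-- `eu` has modulus one -/
theorem norm_eu (x : ℝ) : ‖eu x‖ = 1 := by
  unfold eu
  have h : (2 * π * (x : ℂ) * I : ℂ) = ((2 * π * x : ℝ) : ℂ) * I := by push_cast; ring
  rw [h, Complex.norm_exp_ofReal_mul_I]

/-- powers -/
theorem eu_pow (δ : ℝ) (j : ℕ) : eu (-(j * δ)) = eu (-δ) ^ j := by
  unfold eu
  rw [← Complex.exp_nat_mul]
  congr 1
  push_cast
  ring

/-- the lower bound for the denominator -/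
theorem le_norm (δ : ℝ) (hδ : |δ| ≤ 1 / 2) : 4 * |δ| ≤ ‖eu (-δ) - 1‖ := by
  unfold eu
  have h : (2 * π * ((-δ : ℝ) : ℂ) * I : ℂ) = I * ((-(2 * π * δ) : ℝ) : ℂ) := by push_cast; ring
  rw [h, Complex.norm_exp_I_mul_ofReal_sub_one]
  have h1 : (-(2 * π * δ)) / 2 = -(π * δ) := by ring
  rw [h1, Real.sin_neg, Real.norm_eq_abs, abs_mul, abs_neg, abs_two]
  have hpi := Real.pi_pos
  have h2 : |π * δ| ≤ π / 2 := by
    rw [abs_mul, abs_of_pos hpi]
    nlinarith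
  have h3 := Real.mul_abs_le_abs_sin h2
  rw [abs_mul, abs_of_pos hpi] at h3
  have h4 : 2 / π * (π * |δ|) = 2 * |δ| := by field_simp
  rw [h4] at h3
  linarith

theorem sum_id (M : ℕ) : ∑ j ∈ range M, (j : ℝ) = M * (M - 1) / 2 := by
  induction M with
  | zero => simp
  | succ n ih => rw [sum_range_succ, ih]; push_cast; ring

theorem sum_sq (M : ℕ) : ∑ j ∈ range M, (j : ℝ) ^ 2 = (M - 1) * M * (2 * M - 1) / 6 := by
  induction M with
  | zero => simp
  | succ n ih => rw [sum_range_succ, ih]; push_cast; ring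

theorem sum_diff (M : ℕ) : ∑ j ∈ range M, ∑ k ∈ range M, ((j : ℝ) - k) ^ 2 =
    (M : ℝ) ^ 2 * ((M : ℝ) ^ 2 - 1) / 6 := by
  have h : ∀ j ∈ range M, ∑ k ∈ range M, ((j : ℝ) - k) ^ 2 =
      M * (j : ℝ) ^ 2 - 2 * (M * (M - 1) / 2) * j + (M - 1) * M * (2 * M - 1) / 6 := by
    intro j _
    rw [← sum_id M, ← sum_sq M]
    have h1 : ∀ k ∈ range M, ((j : ℝ) - k) ^ 2 = (j : ℝ) ^ 2 - 2 * j * k + (k : ℝ) ^ 2 := by
      intro k _
      ring
    rw [sum_congr rfl h1, sum_add_distrib, sum_sub_distrib, ← mul_sum]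
    simp only [sum_const, card_range, nsmul_eq_mul]
    ring
  rw [sum_congr rfl h, sum_add_distrib, sum_sub_distrib, ← mul_sum, ← mul_sum, sum_id, sum_sq]
  simp only [sum_const, card_range, nsmul_eq_mul]
  ring

/-- the square of the sum -/
theorem sq_norm (M : ℕ) (δ : ℝ) : ‖∑ j ∈ range M, eu (-(j * δ))‖ ^ 2 =
    ∑ j ∈ range M, ∑ k ∈ range M, Real.cos (2 * π * δ * ((j : ℝ) - k)) := by
  have hre : (∑ j ∈ range M, eu (-(j * δ))).re = ∑ j ∈ range M, Real.cos (2 * π * δ * j) := by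
    rw [Complex.re_sum]
    refine sum_congr rfl fun j _ => ?_
    unfold eu
    have h : (2 * π * ((-(j * δ) : ℝ) : ℂ) * I : ℂ) = ((-(2 * π * δ * j) : ℝ) : ℂ) * I := by
      push_cast; ring
    rw [h, Complex.exp_ofReal_mul_I_re, Real.cos_neg]
  have him : (∑ j ∈ range M, eu (-(j * δ))).im = -∑ j ∈ range M, Real.sin (2 * π * δ * j) := by
    rw [Complex.im_sum, ← sum_neg_distrib]
    refine sum_congr rfl fun j _ => ?_
    unfold eu
    have h : (2 * π * ((-(j * δ) : ℝ) : ℂ) * I : ℂ) = ((-(2 * π * δ * j) : ℝ) : ℂ) * I := by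
      push_cast; ring
    rw [h, Complex.exp_ofReal_mul_I_im, Real.sin_neg]
  rw [← Complex.normSq_eq_norm_sq, Complex.normSq_apply, hre, him, neg_mul_neg, sum_mul_sum,
    sum_mul_sum, ← sum_add_distrib]
  refine sum_congr rfl fun j _ => ?_
  rw [← sum_add_distrib]
  refine sum_congr rfl fun k _ => ?_
  rw [mul_sub, Real.cos_sub]

end SINR

open SINR in
theorem t_SINR : S_SINR := by
  intro M y hM
  set δ : ℝ := y - round y with hδ
  have hnd : nd y = |δ| := rfl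
  have hle : |δ| ≤ 1 / 2 := abs_sub_round y
  have hsum : ∑ j ∈ Finset.range M, eu (-(j * y)) = ∑ j ∈ Finset.range M, eu (-(j * δ)) :=
    Finset.sum_congr rfl fun j _ => eu_shift j y
  rw [hsum, hnd]
  refine ⟨?_, ?_, ?_⟩
  · refine (norm_sum_le _ _).trans ?_
    simp [norm_eu]
  · have h1 : (∑ j ∈ Finset.range M, eu (-(j * δ))) * (eu (-δ) - 1) = eu (-(M * δ)) - 1 := by
      have h : ∑ j ∈ Finset.range M, eu (-(j * δ)) = ∑ j ∈ Finset.range M, eu (-δ) ^ j :=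
        Finset.sum_congr rfl fun j _ => eu_pow δ j
      rw [h, geom_sum_mul, eu_pow]
    have h2 : ‖∑ j ∈ Finset.range M, eu (-(j * δ))‖ * ‖eu (-δ) - 1‖ ≤ 2 := by
      rw [← norm_mul, h1]
      refine (norm_sub_le _ _).trans ?_
      rw [norm_eu, norm_one]
      norm_num
    have h3 := le_norm δ hle
    have h4 : 0 ≤ ‖∑ j ∈ Finset.range M, eu (-(j * δ))‖ := norm_nonneg _
    nlinarith
  · rw [sq_norm]
    have h1 : ∑ j ∈ Finset.range M, ∑ k ∈ Finset.range M,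
        (1 - (2 * Real.pi * δ) ^ 2 / 2 * ((j : ℝ) - k) ^ 2) ≤
        ∑ j ∈ Finset.range M, ∑ k ∈ Finset.range M, Real.cos (2 * Real.pi * δ * ((j : ℝ) - k)) := by
      refine Finset.sum_le_sum fun j _ => Finset.sum_le_sum fun k _ => ?_
      have := Real.one_sub_sq_div_two_le_cos (x := 2 * Real.pi * δ * ((j : ℝ) - k))
      refine le_trans (le_of_eq ?_) this
      ring
    refine le_trans ?_ h1
    have h2 : ∑ j ∈ Finset.range M, ∑ k ∈ Finset.range M,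
        (1 - (2 * Real.pi * δ) ^ 2 / 2 * ((j : ℝ) - k) ^ 2) =
        (M : ℝ) ^ 2 - (2 * Real.pi * δ) ^ 2 / 2 * ((M : ℝ) ^ 2 * ((M : ℝ) ^ 2 - 1) / 6) := by
      rw [← sum_diff]
      simp only [Finset.sum_sub_distrib, ← Finset.mul_sum, Finset.sum_const, Finset.card_range,
        nsmul_eq_mul, mul_one]
      ring
    rw [h2]
    have h3 : |δ| ^ 2 = δ ^ 2 := sq_abs δ
    have h4 : Real.pi ^ 2 ≤ 10 := by
      have := Real.pi_lt_d2
      have h0 := Real.pi_pos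
      nlinarith
    have h5 : (1 : ℝ) ≤ (M : ℝ) ^ 2 := by
      have : (1 : ℝ) ≤ M := by exact_mod_cast hM
      nlinarith
    have h6 : (M : ℝ) ^ 2 * (1 - 4 * ((M : ℝ) * |δ|) ^ 2) =
        (M : ℝ) ^ 2 - 4 * δ ^ 2 * ((M : ℝ) ^ 2 * (M : ℝ) ^ 2) := by
      rw [mul_pow, h3]
      ring
    rw [h6]
    have h7 : (2 * Real.pi * δ) ^ 2 / 2 * ((M : ℝ) ^ 2 * ((M : ℝ) ^ 2 - 1) / 6) =
        Real.pi ^ 2 * (δ ^ 2 * ((M : ℝ) ^ 2 * ((M : ℝ) ^ 2 - 1))) / 3 := by ring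
    rw [h7]
    have h8 : 0 ≤ δ ^ 2 * ((M : ℝ) ^ 2 * ((M : ℝ) ^ 2 - 1)) := by
      have : 0 ≤ (M : ℝ) ^ 2 - 1 := by linarith
      positivity
    have h9 : 0 ≤ δ ^ 2 * (M : ℝ) ^ 2 := by positivity
    nlinarith [mul_le_mul_of_nonneg_right h4 h8]

end STZ
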