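import Pool.Agent.STZ.StmtsY

/-!
# Module SMB: size of the cutoff functions
-/

namespace STZ

open MeasureTheory Matrix

open scoped ComplexConjugate Matrix Real

noncomputable section

namespace SMB

theorem one_sub_prod_le {ι : Type} (s : Finset ι) (x : ι → ℝ) (h0 : ∀ i ∈ s, 0 ≤ x i)
    (h1 : ∀ i ∈ s, x i ≤ 1) : 1 - ∏ i ∈ s, x i ≤ ∑ i ∈ s, (1 - x i) := by
  classical
  induction s using Finset.induction_on with
  | empty => simp
  | insert a s ha ih =>
    rw [Finset.prod_insert ha, Finset.sum_insert ha]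
    have g0 : ∀ i ∈ s, 0 ≤ x i := fun i hi => h0 i (Finset.mem_insert_of_mem hi)
    have g1 : ∀ i ∈ s, x i ≤ 1 := fun i hi => h1 i (Finset.mem_insert_of_mem hi)
    have h2 := ih g0 g1
    have h4 : ∏ i ∈ s, x i ≤ 1 := Finset.prod_le_one g0 g1
    have h6 := h1 a (Finset.mem_insert_self a s)
    nlinarith [mul_nonneg (sub_nonneg.2 h6) (sub_nonneg.2 h4)]

theorem bern {x : ℝ} (h0 : 0 ≤ x) (m : ℕ) : 1 - x ^ m ≤ m * (1 - x) := by
  have h := one_add_mul_le_pow (a := x - 1) (by linarith) m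
  have h2 : 1 + (x - 1) = x := by ring
  rw [h2] at h
  linarith

theorem nd_nonneg (θ : ℝ) : 0 ≤ nd θ := abs_nonneg _

theorem nz_nonneg {r : ℕ} (P : RT r) (θ : Fin r → ℝ) : 0 ≤ nz P θ :=
  Finset.sum_nonneg fun _ _ => nd_nonneg _

theorem norm_eu (x : ℝ) : ‖eu x‖ = 1 := by
  have h : (2 * π * x * Complex.I : ℂ) = ((2 * π * x : ℝ) : ℂ) * Complex.I := by push_cast; ring
  rw [eu, h, Complex.norm_exp_ofReal_mul_I]

/-- the normalised factors -/
def q (M : ℕ) (y : ℝ) : ℝ := ‖∑ j ∈ Finset.range M, eu (-(j * y))‖ / M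

theorem q_nonneg (M : ℕ) (y : ℝ) : 0 ≤ q M y := by unfold q; positivity

theorem q_le_one (h : S_SINR) {M : ℕ} (hM : 1 ≤ M) (y : ℝ) : q M y ≤ 1 := by
  have hM' : (0 : ℝ) < M := by exact_mod_cast hM
  unfold q
  rw [div_le_one hM']
  exact (h M y hM).1

theorem q_mul (h : S_SINR) {M : ℕ} (hM : 1 ≤ M) (y : ℝ) : q M y * (M * (2 * nd y)) ≤ 1 := by
  have hM' : (0 : ℝ) < M := by exact_mod_cast hM
  have h1 : q M y * (M * (2 * nd y)) = ‖∑ j ∈ Finset.range M, eu (-(j * y))‖ * (2 * nd y) := by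
    unfold q
    rw [div_mul_eq_mul_div, div_eq_iff hM'.ne']
    ring
  rw [h1]
  exact (h M y hM).2.1

theorem q_sq (h : S_SINR) {M : ℕ} (hM : 1 ≤ M) (y : ℝ) : 1 - q M y ^ 2 ≤ 4 * (M * nd y) ^ 2 := by
  have hM' : (0 : ℝ) < (M : ℝ) ^ 2 := by positivity
  have h1 : 1 - 4 * ((M : ℝ) * nd y) ^ 2 ≤ q M y ^ 2 := by
    unfold q
    rw [div_pow, le_div_iff₀ hM', mul_comm]
    exact (h M y hM).2.2
  linarith

/-- the product of the factors -/
def pq {r : ℕ} (P : RT r) (M : ℕ) (θ : Fin r → ℝ) : ℝ := ∏ p ∈ P, q M (dz p.1 θ)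

theorem FM_eq {r : ℕ} {D : RD r} {P : RT r} {M : ℕ} {θ : Fin r → ℝ}
    (h1 : D.ψ (XT D θ) (fun _ => (M : ℤ)) =
      eu (((M : ℝ) - 1) * ∑ i, θ i) * ∏ p ∈ P, ∑ j ∈ Finset.range M, eu (-(j * dz p.1 θ)))
    (h2 : (D.ψ (XT D θ) (fun _ => (M : ℤ))).im = 0) :
    FM D P M (XT D θ) =
      ((1 - (1 - pq P M θ ^ (2 * (2 * r + P.card))) ^ P.card : ℝ) : ℂ) := by
  set a := D.ψ (XT D θ) (fun _ => (M : ℤ)) with ha
  have h3 : a = (a.re : ℂ) := by
    apply Complex.ext
    · simp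
    · simpa using h2
  have h4 : |a.re / (M : ℝ) ^ P.card| = pq P M θ := by
    have h5 : |a.re| = ‖a‖ := by
      rw [h3, Complex.norm_real, Real.norm_eq_abs, Complex.ofReal_re]
    rw [abs_div, h5, h1, norm_mul, norm_eu, one_mul, norm_prod, abs_of_nonneg (by positivity)]
    unfold pq q
    rw [Finset.prod_div_distrib, Finset.prod_const]
  have h5 : pq P M θ ^ (2 * (2 * r + P.card)) =
      (a.re / (M : ℝ) ^ P.card) ^ (2 * (2 * r + P.card)) := by
    rw [← h4]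
    exact (even_two_mul _).pow_abs _
  rw [h5]
  unfold FM
  rw [← ha]
  push_cast
  rw [← h3]

end SMB

theorem t_SMB : M_SMB := by
  intro hS hK r D P B h hD hP
  have hne : P.Nonempty := by
    obtain ⟨p, hp, -⟩ := hP.bmem ⟨0, by have := hD.w.r2; omega⟩
    exact ⟨p, hp⟩
  set n := P.card with hn
  have hn1 : 1 ≤ n := Finset.card_pos.2 hne
  set m := 2 * r + n with hm
  refine ⟨max (max 1 ((4 * (m : ℝ)) ^ n)) (n * (1 + (n : ℝ) / 2) ^ (2 * m)), by positivity, ?_⟩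
  intro M θ hM
  obtain ⟨h1, h2⟩ := hK r D P B h hD hP M θ hM
  rw [SMB.FM_eq h1 h2, ← hn, ← hm]
  set z := SMB.pq P M θ ^ (2 * m) with hz
  have hM0 : (0 : ℝ) < M := by exact_mod_cast hM
  have hnz := SMB.nz_nonneg P θ
  have hMn : 0 ≤ (M : ℝ) * nz P θ := by positivity
  have hp0 : 0 ≤ SMB.pq P M θ := Finset.prod_nonneg fun p _ => SMB.q_nonneg _ _
  have hp1 : SMB.pq P M θ ≤ 1 :=
    Finset.prod_le_one (fun p _ => SMB.q_nonneg _ _) fun p _ => SMB.q_le_one hS hM _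
  have hz0 : 0 ≤ z := pow_nonneg hp0 _
  have hz1 : z ≤ 1 := pow_le_one₀ hp0 hp1
  constructor
  · have h3 : (1 : ℂ) - ((1 - (1 - z) ^ n : ℝ) : ℂ) = (((1 - z) ^ n : ℝ) : ℂ) := by
      push_cast
      ring
    rw [h3, Complex.norm_real, Real.norm_eq_abs, abs_of_nonneg (pow_nonneg (by linarith) _)]
    have h4 : 1 - z ≤ 4 * (m : ℝ) * (M * nz P θ) ^ 2 := by
      have h5 : z = ∏ p ∈ P, (SMB.q M (dz p.1 θ) ^ 2) ^ m := by
        rw [hz, SMB.pq, ← Finset.prod_pow]
        exact Finset.prod_congr rfl fun p _ => by rw [pow_mul]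
      rw [h5]
      refine (SMB.one_sub_prod_le P _ (fun p _ => pow_nonneg (pow_nonneg (SMB.q_nonneg _ _) _) _)
        (fun p _ => pow_le_one₀ (pow_nonneg (SMB.q_nonneg _ _) _)
          (pow_le_one₀ (SMB.q_nonneg _ _) (SMB.q_le_one hS hM _)))).trans ?_
      calc ∑ p ∈ P, (1 - (SMB.q M (dz p.1 θ) ^ 2) ^ m)
          ≤ ∑ p ∈ P, (m : ℝ) * (4 * (M * nd (dz p.1 θ)) ^ 2) := by
            refine Finset.sum_le_sum fun p _ => ?_
            refine (SMB.bern (pow_nonneg (SMB.q_nonneg _ _) _) m).trans ?_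
            exact mul_le_mul_of_nonneg_left (SMB.q_sq hS hM _) (by positivity)
        _ = 4 * (m : ℝ) * (M ^ 2 * ∑ p ∈ P, nd (dz p.1 θ) ^ 2) := by
            rw [Finset.mul_sum, Finset.mul_sum]
            refine Finset.sum_congr rfl fun p _ => ?_
            ring
        _ ≤ 4 * (m : ℝ) * (M * nz P θ) ^ 2 := by
            rw [mul_pow]
            refine mul_le_mul_of_nonneg_left (mul_le_mul_of_nonneg_left ?_ (by positivity)) (by positivity)
            rw [sq (nz P θ)]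
            conv_rhs => rw [nz]
            rw [Finset.sum_mul]
            refine Finset.sum_le_sum fun p hp => ?_
            rw [sq]
            exact mul_le_mul_of_nonneg_left (Finset.single_le_sum
              (f := fun p : (Fin r → ℤ) × (Fin r → ℤ) => nd (dz p.1 θ)) (fun _ _ => SMB.nd_nonneg _) hp)
              (SMB.nd_nonneg _)
    have h6 : (1 - z) ^ n ≤ 1 := pow_le_one₀ (by linarith) (by linarith)
    have h7 : (1 - z) ^ n ≤ (4 * (m : ℝ)) ^ n * (M * nz P θ) ^ (2 * n) := by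
      refine (pow_le_pow_left₀ (by linarith) h4 n).trans (le_of_eq ?_)
      rw [mul_pow, ← pow_mul]
    have hC1 : 1 ≤ max (max 1 ((4 * (m : ℝ)) ^ n)) (n * (1 + (n : ℝ) / 2) ^ (2 * m)) :=
      (le_max_left _ _).trans (le_max_left _ _)
    have hC2 : (4 * (m : ℝ)) ^ n ≤ max (max 1 ((4 * (m : ℝ)) ^ n)) (n * (1 + (n : ℝ) / 2) ^ (2 * m)) :=
      (le_max_right _ _).trans (le_max_left _ _)
    rcases le_total 1 (((M : ℝ) * nz P θ) ^ (2 * n)) with hc | hc
    · rw [min_eq_left hc, mul_one]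
      exact h6.trans hC1
    · rw [min_eq_right hc]
      exact h7.trans (mul_le_mul_of_nonneg_right hC2 (by positivity))
  · have h3 : 0 ≤ 1 - (1 - z) ^ n := by
      have := pow_le_one₀ (n := n) (by linarith : 0 ≤ 1 - z) (by linarith)
      linarith
    rw [Complex.norm_real, Real.norm_eq_abs, abs_of_nonneg h3]
    have h4 : 1 - (1 - z) ^ n ≤ n * z := by
      have := SMB.bern (x := 1 - z) (by linarith) n
      have h5 : 1 - (1 - z) = z := by ring
      rwa [h5] at this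
    have h5 : 0 < (1 + (M : ℝ) * nz P θ) ^ (2 * m) := by positivity
    obtain ⟨p, hp, hmax⟩ := Finset.exists_max_image P (fun p => nd (dz p.1 θ)) hne
    have h6 : nz P θ ≤ n * nd (dz p.1 θ) := by
      rw [nz, hn, ← nsmul_eq_mul]
      exact Finset.sum_le_card_nsmul _ _ _ hmax
    have h7 : SMB.pq P M θ ≤ SMB.q M (dz p.1 θ) := by
      classical
      rw [SMB.pq, ← Finset.mul_prod_erase P _ hp]
      refine mul_le_of_le_one_right (SMB.q_nonneg _ _) ?_
      exact Finset.prod_le_one (fun p _ => SMB.q_nonneg _ _) fun p _ => SMB.q_le_one hS hM _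
    have h8 : SMB.pq P M θ * (1 + M * nz P θ) ≤ 1 + (n : ℝ) / 2 := by
      have h9 := SMB.q_mul hS hM (dz p.1 θ)
      have h10 := SMB.q_le_one hS hM (dz p.1 θ)
      have h11 : M * nz P θ ≤ n / 2 * (M * (2 * nd (dz p.1 θ))) := by
        have := mul_le_mul_of_nonneg_left h6 hM0.le
        linarith
      calc SMB.pq P M θ * (1 + M * nz P θ) ≤ SMB.q M (dz p.1 θ) * (1 + M * nz P θ) :=
            mul_le_mul_of_nonneg_right h7 (by linarith)
        _ ≤ SMB.q M (dz p.1 θ) * (1 + n / 2 * (M * (2 * nd (dz p.1 θ)))) :=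
            mul_le_mul_of_nonneg_left (by linarith) (SMB.q_nonneg _ _)
        _ = SMB.q M (dz p.1 θ) + n / 2 * (SMB.q M (dz p.1 θ) * (M * (2 * nd (dz p.1 θ)))) := by ring
        _ ≤ 1 + n / 2 * 1 := add_le_add h10 (mul_le_mul_of_nonneg_left h9 (by positivity))
        _ = 1 + (n : ℝ) / 2 := by ring
    have h9 : z * (1 + M * nz P θ) ^ (2 * m) ≤ (1 + (n : ℝ) / 2) ^ (2 * m) := by
      rw [hz, ← mul_pow]
      exact pow_le_pow_left₀ (mul_nonneg hp0 (by linarith)) h8 _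
    refine h4.trans ?_
    rw [le_div_iff₀ h5, mul_assoc]
    exact (mul_le_mul_of_nonneg_left h9 (by positivity)).trans (le_max_right _ _)

end

end STZ
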