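import Pool.Agent.STZ.StmtsY

/-!
# Module SMF
-/

namespace STZ

open MeasureTheory Matrix

open scoped ComplexConjugate Matrix Real

noncomputable section

namespace SMF

theorem eu_add (a b : ℝ) : eu (a + b) = eu a * eu b := by
  unfold eu
  rw [← Complex.exp_add]
  congr 1
  push_cast
  ring

theorem eu_zero : eu 0 = 1 := by
  unfold eu
  simp

theorem eu_sum {ι : Type*} (s : Finset ι) (f : ι → ℝ) :
    eu (∑ i ∈ s, f i) = ∏ i ∈ s, eu (f i) := by
  classical
  induction s using Finset.induction_on with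
  | empty => simp [eu_zero]
  | insert a s ha ih => rw [Finset.sum_insert ha, Finset.prod_insert ha, eu_add, ih]

theorem eu_cont : Continuous eu := by
  unfold eu
  fun_prop

/-- the integral in one variable -/
theorem int_one (n : ℤ) : ∫ x in Set.Icc (0 : ℝ) 1, eu (n * x) = if n = 0 then 1 else 0 := by
  split_ifs with h
  · subst h
    simp [eu_zero]
  · rw [integral_Icc_eq_integral_Ioc, ← intervalIntegral.integral_of_le zero_le_one]
    have h1 : ∀ x : ℝ, eu (n * x) = Complex.exp ((2 * π * n * Complex.I) * x) := by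
      intro x
      unfold eu
      congr 1
      push_cast
      ring
    simp_rw [h1]
    have h2 : (2 * π * n * Complex.I : ℂ) ≠ 0 := by
      have hn : (n : ℂ) ≠ 0 := by exact_mod_cast h
      have hp : (π : ℂ) ≠ 0 := by exact_mod_cast Real.pi_ne_zero
      simp [hn, hp, Complex.I_ne_zero]
    rw [integral_exp_mul_complex h2]
    have h3 : Complex.exp (2 * π * n * Complex.I * ((1 : ℝ) : ℂ)) = 1 := by
      rw [Complex.exp_eq_one_iff]
      refine ⟨n, ?_⟩
      push_cast
      ring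
    rw [h3]
    simp

/-- the integral over the torus -/
theorem int_r {r : ℕ} (κ : Fin r → ℤ) :
    ∫ θ in Set.Icc (0 : Fin r → ℝ) 1, eu (dz κ θ) = if κ = 0 then 1 else 0 := by
  have h1 : (volume : Measure (Fin r → ℝ)).restrict (Set.Icc (0 : Fin r → ℝ) 1) =
      Measure.pi fun _ => (volume : Measure ℝ).restrict (Set.Icc (0 : ℝ) 1) := by
    have h0 : Set.Icc (0 : Fin r → ℝ) 1 = Set.pi Set.univ fun _ => Set.Icc (0 : ℝ) 1 := by
      rw [Set.pi_univ_Icc]
      rfl
    rw [h0, volume_pi, Measure.restrict_pi_pi]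
  rw [h1]
  have h2 : ∀ θ : Fin r → ℝ, eu (dz κ θ) = ∏ i, eu (κ i * θ i) := by
    intro θ
    unfold dz
    exact eu_sum _ _
  simp_rw [h2]
  rw [integral_fintype_prod_eq_prod (fun (i : Fin r) (x : ℝ) => eu (κ i * x))]
  simp_rw [int_one]
  split_ifs with h
  · subst h
    simp
  · obtain ⟨i, hi⟩ : ∃ i, κ i ≠ 0 := by
      by_contra hc
      push Not at hc
      exact h (funext hc)
    exact Finset.prod_eq_zero (Finset.mem_univ i) (by simp [hi])

theorem dz_add {r : ℕ} (κ κ' : Fin r → ℤ) (θ : Fin r → ℝ) : dz (κ + κ') θ = dz κ θ + dz κ' θ := by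
  unfold dz
  rw [← Finset.sum_add_distrib]
  refine Finset.sum_congr rfl fun i _ => ?_
  push_cast [Pi.add_apply]
  ring

theorem dz_neg {r : ℕ} (κ : Fin r → ℤ) (θ : Fin r → ℝ) : dz (-κ) θ = -dz κ θ := by
  unfold dz
  rw [← Finset.sum_neg_distrib]
  refine Finset.sum_congr rfl fun i _ => ?_
  push_cast [Pi.neg_apply]
  ring

theorem dz_mul {r : ℕ} (w : Matrix (Fin r) (Fin r) ℤ) (κ : Fin r → ℤ) (θ : Fin r → ℝ) :
    dz κ (fun j => ∑ i, (w i j : ℝ) * θ i) = dz (w *ᵥ κ) θ := by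
  unfold dz
  simp_rw [Finset.mul_sum]
  rw [Finset.sum_comm]
  refine Finset.sum_congr rfl fun i _ => ?_
  rw [mulVec, dotProduct]
  push_cast
  rw [Finset.sum_mul]
  refine Finset.sum_congr rfl fun j _ => ?_
  ring

theorem dz_cont {r : ℕ} (κ : Fin r → ℤ) : Continuous (dz κ) := by
  unfold dz
  fun_prop

/-- the norm of a frequency -/
def n1 {r : ℕ} (κ : Fin r → ℤ) : ℝ := ∑ i, |(κ i : ℝ)|

theorem n1_add {r : ℕ} (κ κ' : Fin r → ℤ) : n1 (κ + κ') ≤ n1 κ + n1 κ' := by
  unfold n1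
  rw [← Finset.sum_add_distrib]
  refine Finset.sum_le_sum fun i _ => ?_
  push_cast [Pi.add_apply]
  exact abs_add_le _ _

theorem n1_nonneg {r : ℕ} (κ : Fin r → ℤ) : 0 ≤ n1 κ :=
  Finset.sum_nonneg fun _ _ => abs_nonneg _

/-- trigonometric polynomials with frequencies at most `b` -/
def TP {r : ℕ} (b : ℝ) (f : (Fin r → ℝ) → ℂ) : Prop :=
  ∃ (ι : Type) (_ : Fintype ι) (κ : ι → Fin r → ℤ) (s : ι → ℂ), (∀ i, n1 (κ i) ≤ b) ∧
    ∀ θ, f θ = ∑ i, s i * eu (dz (κ i) θ)

theorem TP.mono {r : ℕ} {b b' : ℝ} {f : (Fin r → ℝ) → ℂ} (h : TP b f) (hb : b ≤ b') : TP b' f := by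
  obtain ⟨ι, _, κ, s, h1, h2⟩ := h
  exact ⟨ι, _, κ, s, fun i => (h1 i).trans hb, h2⟩

theorem TP.const {r : ℕ} {b : ℝ} (hb : 0 ≤ b) (c : ℂ) : TP (r := r) b fun _ => c := by
  refine ⟨Unit, inferInstance, fun _ => 0, fun _ => c, ?_, ?_⟩
  · intro _
    simpa [n1] using hb
  · intro θ
    simp [dz, eu_zero]

theorem TP.eu {r : ℕ} {b : ℝ} (κ : Fin r → ℤ) (hb : n1 κ ≤ b) :
    TP (r := r) b fun θ => eu (dz κ θ) := by
  refine ⟨Unit, inferInstance, fun _ => κ, fun _ => 1, fun _ => hb, ?_⟩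
  intro θ
  simp

theorem TP.add {r : ℕ} {b : ℝ} {f g : (Fin r → ℝ) → ℂ} (hf : TP b f) (hg : TP b g) :
    TP b fun θ => f θ + g θ := by
  obtain ⟨ι, _, κ, s, h1, h2⟩ := hf
  obtain ⟨ι', _, κ', s', h1', h2'⟩ := hg
  refine ⟨ι ⊕ ι', inferInstance, Sum.elim κ κ', Sum.elim s s', ?_, ?_⟩
  · rintro (i | i)
    · exact h1 i
    · exact h1' i
  · intro θ
    simp only
    rw [Fintype.sum_sum_type, h2, h2']
    rfl

theorem TP.mul {r : ℕ} {b b' : ℝ} {f g : (Fin r → ℝ) → ℂ} (hf : TP b f) (hg : TP b' g) :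
    TP (b + b') fun θ => f θ * g θ := by
  obtain ⟨ι, _, κ, s, h1, h2⟩ := hf
  obtain ⟨ι', _, κ', s', h1', h2'⟩ := hg
  refine ⟨ι × ι', inferInstance, fun p => κ p.1 + κ' p.2, fun p => s p.1 * s' p.2, ?_, ?_⟩
  · intro p
    exact (n1_add _ _).trans (add_le_add (h1 _) (h1' _))
  · intro θ
    simp only
    rw [Fintype.sum_prod_type, h2, h2', Finset.sum_mul_sum]
    refine Finset.sum_congr rfl fun i _ => Finset.sum_congr rfl fun j _ => ?_
    rw [dz_add, eu_add]
    ring

theorem TP.neg {r : ℕ} {b : ℝ} {f : (Fin r → ℝ) → ℂ} (hf : TP b f) : TP b fun θ => -f θ := by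
  obtain ⟨ι, hι, κ, s, h1, h2⟩ := hf
  refine ⟨ι, hι, κ, fun i => -s i, h1, ?_⟩
  intro θ
  simp only
  rw [h2, ← Finset.sum_neg_distrib]
  refine Finset.sum_congr rfl fun i _ => ?_
  ring

theorem TP.sub {r : ℕ} {b : ℝ} {f g : (Fin r → ℝ) → ℂ} (hf : TP b f) (hg : TP b g) :
    TP b fun θ => f θ - g θ := by
  have h := hf.add hg.neg
  simpa [sub_eq_add_neg] using h

theorem TP.pow {r : ℕ} {b : ℝ} {f : (Fin r → ℝ) → ℂ} (hf : TP b f) (n : ℕ) :
    TP (n * b) fun θ => f θ ^ n := by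
  induction n with
  | zero => simpa using TP.const (r := r) le_rfl (1 : ℂ)
  | succ n ih =>
    have h := ih.mul hf
    have e : ((n + 1 : ℕ) : ℝ) * b = n * b + b := by
      push_cast
      ring
    rw [e]
    simpa [pow_succ] using h

theorem TP.sum {r : ℕ} {b : ℝ} (hb : 0 ≤ b) {α : Type*} (s : Finset α)
    (f : α → (Fin r → ℝ) → ℂ) (hf : ∀ a ∈ s, TP b (f a)) : TP b fun θ => ∑ a ∈ s, f a θ := by
  classical
  induction s using Finset.induction_on with
  | empty => simpa using TP.const (r := r) hb (0 : ℂ)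
  | insert a s ha ih =>
    simp_rw [Finset.sum_insert ha]
    exact (hf a (Finset.mem_insert_self a s)).add (ih fun c hc => hf c (Finset.mem_insert_of_mem hc))

theorem TP.prod {r : ℕ} {α : Type*} (s : Finset α) (b : α → ℝ)
    (f : α → (Fin r → ℝ) → ℂ) (hf : ∀ a ∈ s, TP (b a) (f a)) :
    TP (∑ a ∈ s, b a) fun θ => ∏ a ∈ s, f a θ := by
  classical
  induction s using Finset.induction_on with
  | empty => simpa using TP.const (r := r) le_rfl (1 : ℂ)
  | insert a s ha ih =>
    simp_rw [Finset.prod_insert ha, Finset.sum_insert ha]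
    exact (hf a (Finset.mem_insert_self a s)).mul (ih fun c hc => hf c (Finset.mem_insert_of_mem hc))

/-- the Fourier coefficients of a trigonometric polynomial -/
theorem coeff {r : ℕ} {ι : Type} [Fintype ι] (κ : ι → Fin r → ℤ) (s : ι → ℂ) (μ : Fin r → ℤ) :
    ∫ θ in Set.Icc (0 : Fin r → ℝ) 1, (∑ i, s i * eu (dz (κ i) θ)) * eu (-(dz μ θ)) =
      ∑ i, if κ i = μ then s i else 0 := by
  have h1 : ∀ θ : Fin r → ℝ, (∑ i, s i * eu (dz (κ i) θ)) * eu (-(dz μ θ)) =
      ∑ i, s i * eu (dz (κ i - μ) θ) := by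
    intro θ
    rw [Finset.sum_mul]
    refine Finset.sum_congr rfl fun i _ => ?_
    rw [mul_assoc, ← eu_add, sub_eq_add_neg, dz_add, dz_neg]
  simp_rw [h1]
  rw [integral_finsetSum]
  · refine Finset.sum_congr rfl fun i _ => ?_
    rw [integral_const_mul, int_r]
    by_cases h : κ i = μ
    · simp [h]
    · simp [h, sub_eq_zero]
  · intro i _
    apply Continuous.integrableOn_Icc
    exact continuous_const.mul (eu_cont.comp (dz_cont _))

end SMF

open SMF in
theorem t_SMF : M_SMF := by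
  intro hDENS hATF hWCF hDKER r D P B h hD hR
  obtain ⟨-, hdens⟩ := hDENS r D P B h hR
  have hA := hATF r D P B h hD hR
  obtain ⟨hcont, hwcf⟩ := hWCF r D P B h hD hR
  have hker := hDKER r D P B h hD hR
  set C₀ : ℝ := r + ∑ p ∈ P, n1 p.1 with hC₀
  have hC₀0 : 0 ≤ C₀ := by
    have := Finset.sum_nonneg fun (p : (Fin r → ℤ) × (Fin r → ℤ)) (_ : p ∈ P) => n1_nonneg p.1
    positivity
  set C₁ : ℝ := P.card * ((2 * (2 * r + P.card) : ℕ) * C₀) with hC₁
  have hC₁0 : 0 ≤ C₁ := by positivity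
  refine ⟨1 + C₁, by linarith, ?_⟩
  intro M hM
  have hM1 : (1 : ℝ) ≤ M := by exact_mod_cast hM
  have hM0 : (0 : ℝ) ≤ M := by linarith
  -- the trigonometric polynomial
  have hψ : TP (C₀ * M) fun θ => D.ψ (XT D θ) (fun _ => (M : ℤ)) := by
    have h1 : (fun θ => D.ψ (XT D θ) (fun _ => (M : ℤ))) = fun θ =>
        eu (dz (fun _ : Fin r => (M : ℤ) - 1) θ) *
          ∏ p ∈ P, ∑ j ∈ Finset.range M, eu (dz (-((j : ℤ) • p.1)) θ) := by
      funext θ
      rw [(hker M θ hM).1]
      congr 1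
      · congr 1
        unfold dz
        push_cast
        rw [Finset.mul_sum]
      · refine Finset.prod_congr rfl fun p _ => Finset.sum_congr rfl fun j _ => ?_
        congr 1
        rw [dz_neg]
        congr 1
        unfold dz
        rw [Finset.mul_sum]
        refine Finset.sum_congr rfl fun i _ => ?_
        simp only [Pi.smul_apply, smul_eq_mul]
        push_cast
        ring
    rw [h1]
    have h2 := (TP.eu (r := r) (b := r * M) (fun _ : Fin r => (M : ℤ) - 1) (by
      unfold n1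
      push_cast
      rw [Finset.sum_const, Finset.card_univ, Fintype.card_fin, nsmul_eq_mul]
      refine mul_le_mul_of_nonneg_left ?_ (Nat.cast_nonneg r)
      rw [abs_of_nonneg (by linarith)]
      linarith)).mul (TP.prod P (fun p => n1 p.1 * M)
        (fun p θ => ∑ j ∈ Finset.range M, eu (dz (-((j : ℤ) • p.1)) θ)) (by
      intro p _
      refine TP.sum (mul_nonneg (n1_nonneg _) hM0) _ _ ?_
      intro j hj
      refine TP.eu _ ?_
      unfold n1
      rw [Finset.sum_mul]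
      refine Finset.sum_le_sum fun i _ => ?_
      have hj' : (j : ℝ) ≤ M := by exact_mod_cast (Finset.mem_range.1 hj).le
      simp only [Pi.neg_apply, Pi.smul_apply, smul_eq_mul]
      push_cast
      rw [abs_neg, abs_mul, Nat.abs_cast, mul_comm]
      exact mul_le_mul_of_nonneg_left hj' (abs_nonneg _)))
    refine h2.mono ?_
    rw [hC₀, add_mul, Finset.sum_mul]
  have hF : TP (C₁ * M) fun θ => FM D P M (XT D θ) := by
    have h1 := (((hψ.mul (TP.const (r := r) le_rfl (((M : ℂ) ^ P.card)⁻¹))).pow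
      (2 * (2 * r + P.card))))
    have h2 : (0 : ℝ) ≤ ((2 * (2 * r + P.card) : ℕ) : ℝ) * (C₀ * M + 0) := by positivity
    have h3 := ((TP.const (r := r) h2 (1 : ℂ)).sub h1).pow P.card
    have h4 : (0 : ℝ) ≤ (P.card : ℝ) * (((2 * (2 * r + P.card) : ℕ) : ℝ) * (C₀ * M + 0)) := by
      positivity
    have h5 := (TP.const (r := r) h4 (1 : ℂ)).sub h3
    have e : (P.card : ℝ) * (((2 * (2 * r + P.card) : ℕ) : ℝ) * (C₀ * M + 0)) = C₁ * M := by
      rw [hC₁]
      ring
    rw [e] at h5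
    have e2 : (fun θ => FM D P M (XT D θ)) = fun θ : Fin r → ℝ =>
        1 - (1 - (D.ψ (XT D θ) (fun _ => (M : ℤ)) * ((M : ℂ) ^ P.card)⁻¹) ^
          (2 * (2 * r + P.card))) ^ P.card := by
      funext θ
      rw [FM, div_eq_mul_inv]
    rw [e2]
    exact h5
  obtain ⟨ι, hι, κ, s, hκ, hs0⟩ := hF
  have hs : ∀ θ : Fin r → ℝ, FM D P M (XT D θ) = ∑ i, s i * eu (dz (κ i) θ) := hs0
  have hsh : ∀ μ, sh D P M μ = ∑ i, if κ i = μ then s i else 0 := by
    intro μ
    unfold sh
    simp_rw [hs]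
    exact coeff κ s μ
  -- the invariance
  have hinv : ∀ w ∈ D.W, ∀ θ : Fin r → ℝ, FM D P M (XT D θ) = ∑ i, s i * eu (dz (w *ᵥ κ i) θ) := by
    intro w hw θ
    have h1 := hs (fun j => ∑ i, (w i j : ℝ) * θ i)
    rw [hA.Xinv w hw θ] at h1
    rw [h1]
    refine Finset.sum_congr rfl fun i _ => ?_
    rw [dz_mul]
  have hinj : ∀ w ∈ D.W, Function.Injective fun l : Fin r → ℤ => w *ᵥ l := by
    intro w hw a b hab
    obtain ⟨w', -, hw'⟩ := hD.w.W_inv w hw
    have h1 := congrArg (fun l => w' *ᵥ l) hab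
    simpa [mulVec_mulVec, hw'] using h1
  refine ⟨?_, ?_, ?_⟩
  · intro μ hμ
    rw [hsh]
    refine Finset.sum_eq_zero fun i _ => ?_
    rw [if_neg]
    rintro rfl
    have h1 := hκ i
    unfold n1 at h1
    unfold sz at hμ
    nlinarith
  · intro w hw μ
    have h1 : sh D P M (w *ᵥ μ) = ∑ i, if w *ᵥ κ i = w *ᵥ μ then s i else 0 := by
      unfold sh
      simp_rw [hinv w hw]
      exact coeff (fun i => w *ᵥ κ i) s (w *ᵥ μ)
    rw [h1, hsh]
    refine Finset.sum_congr rfl fun i _ => ?_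
    congr 1
    exact propext ⟨fun h => hinj w hw h, fun h => by rw [h]⟩
  · intro T hT l
    -- the sum over `T`
    have hre : ∀ G : (Fin r → ℤ) → ℂ, ∑ i, s i * G (κ i) = ∑ μ ∈ T, sh D P M μ * G μ := by
      intro G
      classical
      have h1 : ∑ μ ∈ T, sh D P M μ * G μ = ∑ μ ∈ T ∪ Finset.univ.image κ, sh D P M μ * G μ := by
        refine Finset.sum_subset Finset.subset_union_left ?_
        intro μ _ hμ
        rw [hT μ hμ, zero_mul]
      rw [h1]
      simp_rw [hsh, Finset.sum_mul]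
      rw [Finset.sum_comm]
      refine Finset.sum_congr rfl fun i _ => ?_
      rw [Finset.sum_eq_single (κ i)]
      · simp
      · intro μ _ hμ
        rw [if_neg (Ne.symm hμ), zero_mul]
      · intro hμ
        exact absurd (Finset.mem_union_right _ (Finset.mem_image_of_mem κ (Finset.mem_univ i))) hμ
    have hmain : ∀ θ, FM D P M (XT D θ) * AT D l θ = ∑ μ ∈ T, sh D P M μ * AT D (l + μ) θ := by
      intro θ
      rw [← hre fun μ => AT D (l + μ) θ]
      unfold AT
      rw [Finset.mul_sum]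
      simp_rw [Finset.mul_sum]
      rw [Finset.sum_comm]
      refine Finset.sum_congr rfl fun w hw => ?_
      rw [hinv w hw θ, Finset.sum_mul]
      refine Finset.sum_congr rfl fun i _ => ?_
      rw [mulVec_add, dz_add, eu_add]
      ring
    have hzero := hdens (fun θ => FM D P M (XT D θ) * D.ψ (XT D θ) l -
      ∑ μ ∈ T, sh D P M μ * D.ψ (XT D θ) (l + μ)) (by
        have hFc : Continuous fun θ => FM D P M (XT D θ) := by
          unfold FM
          exact continuous_const.sub ((continuous_const.sub (((hcont _).div_const _).pow _)).pow _)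
        refine (hFc.mul (hcont l)).sub ?_
        exact continuous_finsetSum _ fun μ _ => continuous_const.mul (hcont _)) (by
        intro θ hθ
        have hne := (hA.ne θ).2 hθ
        refine mul_right_cancel₀ hne ?_
        rw [zero_mul, sub_mul, mul_assoc, hwcf, hmain, Finset.sum_mul, sub_eq_zero]
        refine Finset.sum_congr rfl fun μ _ => ?_
        rw [mul_assoc, hwcf])
    intro θ
    exact sub_eq_zero.1 (hzero θ)

end

end STZ
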