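import Pool.Agent.STZ.StmtsZ

/-!
# STZ, module TOPN: transport between `SU(n)` and its subgroup `⊤`
-/

namespace STZ

open MeasureTheory Matrix Filter

open scoped ComplexConjugate Matrix Real Topology

noncomputable section

namespace TOPN

/-- the trace of a product of two elements of `su n` is real -/
theorem tr_real {n : ℕ} {X Y : Matrix (Fin n) (Fin n) ℂ} (hX : X ∈ su n) (hY : Y ∈ su n) :
    conj (X * Y).trace = (X * Y).trace := by
  have h1 : Xᴴ = -X := hX.1
  have h2 : Yᴴ = -Y := hY.1
  have h3 : conj (X * Y).trace = ((X * Y)ᴴ).trace := by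
    rw [Matrix.trace_conjTranspose]
    rfl
  rw [h3, Matrix.conjTranspose_mul, h1, h2, neg_mul_neg, Matrix.trace_mul_comm]

/-- a frame of `su n` spans -/
theorem span (hCAS : S_CAS) {n : ℕ} (hn : 1 ≤ n) {X : Fin (n ^ 2 - 1) → Matrix (Fin n) (Fin n) ℂ}
    (hX : Frame X) {Y : Matrix (Fin n) (Fin n) ℂ} (hY : Y ∈ su n) :
    ∃ y : Fin (n ^ 2 - 1) → ℝ, Y = ∑ a, (y a : ℂ) • X a := by
  have hc := hCAS n hn X hX
  have hn0 : (n : ℂ) ≠ 0 := by
    have : n ≠ 0 := by omega
    exact_mod_cast this
  refine ⟨fun a => (-(2 * (n : ℂ)) * (X a * Y).trace).re, ?_⟩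
  have hre : ∀ a, (((-(2 * (n : ℂ)) * (X a * Y).trace).re : ℝ) : ℂ) =
      -(2 * (n : ℂ)) * (X a * Y).trace := by
    intro a
    apply Complex.conj_eq_iff_re.1
    have h6 : conj (-(2 * (n : ℂ))) = -(2 * (n : ℂ)) := by
      have h7 : conj (2 : ℂ) = 2 := Complex.conj_ofNat 2
      rw [map_neg, map_mul, h7, Complex.conj_natCast]
    rw [map_mul, tr_real (hX.mem a) hY, h6]
  have hgoal : Y = ∑ a, (-(2 * (n : ℂ)) * (X a * Y).trace) • X a := by
    ext i j
    rw [Matrix.sum_apply]
    have e1 : ∀ a, ((-(2 * (n : ℂ)) * (X a * Y).trace) • X a) i j =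
        ∑ k, ∑ l, (-(2 * (n : ℂ))) * (X a i j * X a k l) * Y l k := by
      intro a
      rw [Matrix.smul_apply, Matrix.trace, smul_eq_mul]
      simp only [Matrix.diag_apply, Matrix.mul_apply, Finset.mul_sum, Finset.sum_mul]
      refine Finset.sum_congr rfl fun k _ => Finset.sum_congr rfl fun l _ => ?_
      ring
    rw [Finset.sum_congr rfl fun a _ => e1 a, Finset.sum_comm]
    have e2 : ∀ k, ∑ a, ∑ l, (-(2 * (n : ℂ))) * (X a i j * X a k l) * Y l k =
        ∑ l, ((if i = l ∧ j = k then Y l k else 0) -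
          (if i = j ∧ k = l then (1 / (n : ℂ)) * Y l k else 0)) := by
      intro k
      rw [Finset.sum_comm]
      refine Finset.sum_congr rfl fun l _ => ?_
      rw [← Finset.sum_mul, ← Finset.mul_sum, hc i j k l]
      split_ifs <;> field_simp
      all_goals ring
    rw [Finset.sum_congr rfl fun k _ => e2 k]
    have hY0 : ∑ k, Y k k = 0 := by
      have := hY.2
      rw [Matrix.trace] at this
      exact this
    simp only [Finset.sum_sub_distrib]
    have e3 : ∑ k, ∑ l, (if i = l ∧ j = k then Y l k else 0) = Y i j := by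
      rw [Finset.sum_eq_single j, Finset.sum_eq_single i]
      · simp
      · intro l _ hl
        rw [if_neg]
        exact fun h => hl h.1.symm
      · simp
      · intro k _ hk
        apply Finset.sum_eq_zero
        intro l _
        rw [if_neg]
        exact fun h => hk h.2.symm
      · simp
    have e4 : ∑ k, ∑ l, (if i = j ∧ k = l then (1 / (n : ℂ)) * Y l k else 0) = 0 := by
      by_cases hij : i = j
      · have e5 : ∀ k, ∑ l, (if i = j ∧ k = l then (1 / (n : ℂ)) * Y l k else 0) =
            (1 / (n : ℂ)) * Y k k := by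
          intro k
          rw [Finset.sum_eq_single k]
          · simp [hij]
          · intro l _ hl
            rw [if_neg]
            exact fun h => hl h.2.symm
          · simp
        rw [Finset.sum_congr rfl fun k _ => e5 k, ← Finset.mul_sum, hY0, mul_zero]
      · apply Finset.sum_eq_zero
        intro k _
        apply Finset.sum_eq_zero
        intro l _
        rw [if_neg]
        exact fun h => hij h.1
    rw [e3, e4, sub_zero]
  rw [hgoal]
  refine Finset.sum_congr rfl fun a _ => ?_
  rw [← hgoal, ← hre a]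

/-- the inclusion of `SU n` in `⊤` -/
def up {n : ℕ} (g : SU n) : (⊤ : Subgroup (SU n)) := ⟨g, Subgroup.mem_top g⟩

theorem up_cont {n : ℕ} : Continuous (up : SU n → (⊤ : Subgroup (SU n))) :=
  Continuous.subtype_mk continuous_id _

/-- the isomorphism of measurable spaces -/
def me (n : ℕ) : SU n ≃ᵐ (⊤ : Subgroup (SU n)) where
  toFun := up
  invFun := Subtype.val
  left_inv := fun _ => rfl
  right_inv := fun _ => rfl
  measurable_toFun := up_cont.measurable
  measurable_invFun := measurable_subtype_coe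

theorem ex_eq {n : ℕ} (X : Matrix (Fin n) (Fin n) ℂ) (t : ℝ) :
    exH (⊤ : Subgroup (SU n)) X t = up (ex X t) := by
  rw [exH, dif_pos (Subgroup.mem_top _)]
  rfl

theorem d_eq {n : ℕ} (X : Matrix (Fin n) (Fin n) ℂ) (f : SU n → ℂ) :
    dH X (fun g : (⊤ : Subgroup (SU n)) => f g.1) = fun g => dX X f g.1 := by
  funext g
  rw [dH, dX]
  congr 1
  funext t
  rw [ex_eq]
  rfl

theorem c1 {n : ℕ} {f : SU n → ℂ} (hf : C1 f) :
    C1H (fun g : (⊤ : Subgroup (SU n)) => f g.1) where
  cont := hf.cont.comp continuous_subtype_val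
  diff := by
    intro X hX g
    have h := hf.diff X hX.1 g.1
    have e : (fun t : ℝ => (fun g : (⊤ : Subgroup (SU n)) => f g.1) (g * exH ⊤ X t)) =
        fun t : ℝ => f (g.1 * ex X t) := by
      funext t
      rw [ex_eq]
      rfl
    rw [e]
    exact h
  dcont := by
    intro X hX
    rw [d_eq]
    exact (hf.dcont X hX.1).comp continuous_subtype_val

theorem c2 {n : ℕ} {f : SU n → ℂ} (hf : C2 f) :
    C2H (fun g : (⊤ : Subgroup (SU n)) => f g.1) := by
  refine ⟨c1 hf.1, fun X hX => ?_⟩
  rw [d_eq]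
  exact c1 (hf.2 X hX.1)

theorem eig {n : ℕ} {X : Fin (n ^ 2 - 1) → Matrix (Fin n) (Fin n) ℂ} {κ : ℝ} {f : SU n → ℂ}
    (hf : Eig X κ f) : EigH X κ (fun g : (⊤ : Subgroup (SU n)) => f g.1) := by
  refine ⟨c2 hf.1, fun g => ?_⟩
  have h := hf.2 g.1
  rw [← h, lapH, lap]
  refine Finset.sum_congr rfl fun a _ => ?_
  rw [d_eq, d_eq]

theorem frame (hCAS : S_CAS) {n : ℕ} (hn : 1 ≤ n)
    {X : Fin (n ^ 2 - 1) → Matrix (Fin n) (Fin n) ℂ} (hX : Frame X) :
    FrameH (⊤ : Subgroup (SU n)) (2 * (n : ℝ)) X where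
  mem := fun a => ⟨hX.mem a, fun t => Subgroup.mem_top _⟩
  orth := by
    intro a b
    have h := hX.orth a b
    have e : (((2 * (n : ℝ) : ℝ)) : ℂ) = 2 * (n : ℂ) := by
      push_cast
      ring
    rw [e]
    exact h
  span := fun Y hY => span hCAS hn hX hY.1

end TOPN

open TOPN in
theorem t_TOPN : M_TOPN := by
  intro _ hCAS n p hn hp hS μ hμ hinv a b hab
  have hprob : IsProbabilityMeasure (μ.map (me n)) :=
    Measure.isProbabilityMeasure_map (me n).measurable.aemeasurable
  have hleft : (μ.map (me n)).IsMulLeftInvariant := by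
    constructor
    intro g
    rw [Measure.map_map (measurable_const_mul g) (me n).measurable]
    have e : ((fun x : (⊤ : Subgroup (SU n)) => g * x) ∘ (me n)) =
        (me n) ∘ (fun x : SU n => g.1 * x) := by
      funext x
      rfl
    rw [e, ← Measure.map_map (me n).measurable (measurable_const_mul g.1),
      map_mul_left_eq_self μ g.1]
  obtain ⟨C, hC⟩ := hS (μ.map (me n)) hprob hleft a b hab
  refine ⟨C, ?_⟩
  intro X hX κ f hκ hf hsum u hu hlim
  have hd : (((n ^ 2 - 1 : ℕ)) : ℝ) = dm n := by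
    rw [Nat.cast_sub (Nat.one_le_pow _ _ hn), dm]
    push_cast
    ring
  have hint : ∀ k, ∫ g, ‖f k (g : (⊤ : Subgroup (SU n))).1‖ ^ 2 ∂(μ.map (me n)) =
      ∫ g, ‖f k g‖ ^ 2 ∂μ := by
    intro k
    rw [(me n).measurableEmbedding.integral_map]
    rfl
  have h := hC X (frame hCAS hn hX) κ (fun k g => f k g.1) hκ (fun k => eig (hf k))
    (by
      simp only [hd, hint]
      exact hsum)
    (fun t g => u t g.1)
    (by
      intro t
      rw [(me n).measurableEmbedding.aestronglyMeasurable_map_iff]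
      exact hu t)
    (by
      intro t
      have h1 := hlim t
      refine h1.congr fun N => ?_
      rw [(me n).measurableEmbedding.eLpNorm_map_measure]
      rfl)
  simp only [hd, hint] at h
  refine le_trans (le_of_eq ?_) h
  refine lintegral_congr fun t => ?_
  rw [(me n).measurableEmbedding.lintegral_map]
  rfl

end

end STZ
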