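import Pool.Agent.STZ.StmtsP

/-!
# Module TORN: every element of `SU(r + 1)` is conjugate to a point of the torus (for the class functions)
-/

namespace STZ

open Matrix

/-- TORN -/
theorem t_TORN : M_TORN := by
  intro hE hG hV r g
  obtain ⟨v, hv1, hv2, hv3, _⟩ := hE (r + 1) g.1
  obtain ⟨θ, hθ⟩ := (hV r).exi v hv1 hv2
  refine ⟨θ, fun i => ?_⟩
  have h1 : xS r i g = esk v (i.val + 1) := (hG (r + 1)).eig g.1.1 v hv3 (i.val + 1)
  have h2 : XT (DA r) θ i = esA (vA θ) i := congrFun ((hV r).XT θ) i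
  rw [h1, h2, hθ]
  rfl

end STZ
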