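import Pool.Agent.STZ.StmtsP
import Pool.Agent.STZ.EIGV

/-!
# STZ, TRCA: the traces of the powers of the companion matrix
-/

namespace STZ

open MeasureTheory Matrix

open scoped ComplexConjugate Matrix Real

noncomputable section

namespace TRCA

open Polynomial

variable {r : ℕ}

/-- the elementary symmetric functions, all degrees -/
theorem ee_esA (v : Fin (r + 1) → ℂ) (hv : ∏ k, v k = 1) (a : ℕ) (ha : a ≤ r + 1) :
    ee (esA v) a = esk v a := by
  rcases a with _ | k
  · simp [ee, esk]
  · by_cases h : k < r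
    · simp only [ee, dif_pos h]
      rfl
    · have hk : k = r := by omega
      subst hk
      simp only [ee, dif_neg h, if_true]
      unfold esk
      have h1 : (Finset.univ : Finset (Fin (k + 1))).powersetCard (k + 1) = {Finset.univ} := by
        have h2 := Finset.powersetCard_self (Finset.univ : Finset (Fin (k + 1)))
        have h3 : (Finset.univ : Finset (Fin (k + 1))).card = k + 1 := by simp
        rw [h3] at h2
        exact h2
      rw [h1, Finset.sum_singleton, hv]

/-- the polynomial with the roots `v k` -/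
def PP (v : Fin (r + 1) → ℂ) : ℂ[X] := (Multiset.map (fun t => X - C t)
  (Multiset.map v (Finset.univ : Finset (Fin (r + 1))).val)).prod

theorem card_v (v : Fin (r + 1) → ℂ) :
    Multiset.card (Multiset.map v (Finset.univ : Finset (Fin (r + 1))).val) = r + 1 := by
  simp

theorem coeff_PP (v : Fin (r + 1) → ℂ) (k : ℕ) (hk : k ≤ r + 1) :
    (PP v).coeff k = (-1) ^ (r + 1 - k) * esk v (r + 1 - k) := by
  unfold PP
  rw [Multiset.prod_X_sub_C_coeff _ (by rw [card_v]; exact hk), card_v, Finset.esymm_map_val]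
  rfl

theorem monic_PP (v : Fin (r + 1) → ℂ) : (PP v).Monic := by
  unfold PP
  exact monic_multiset_prod_of_monic _ _ fun t _ => monic_X_sub_C t

theorem natDegree_PP (v : Fin (r + 1) → ℂ) : (PP v).natDegree = r + 1 := by
  unfold PP
  rw [natDegree_multiset_prod_X_sub_C_eq_card, card_v]

/-- the action on the basis vectors -/
theorem CA_mul (x : Fin r → ℂ) (j : ℕ) (hj : j < r) :
    CA x *ᵥ Pi.single (⟨j, by omega⟩ : Fin (r + 1)) 1 =
      Pi.single (⟨j + 1, by omega⟩ : Fin (r + 1)) 1 := by
  ext i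
  rw [Matrix.mulVec_single_one]
  simp only [Matrix.col_apply, CA, Matrix.of_apply, hj, if_true, Pi.single_apply, Fin.ext_iff]

theorem CA_last (x : Fin r → ℂ) :
    CA x *ᵥ Pi.single (Fin.last r) 1 = fun i => (-1) ^ (r - i.val) * ee x (r + 1 - i.val) := by
  ext i
  rw [Matrix.mulVec_single_one]
  simp [Matrix.col_apply, CA]

theorem CA_pow (x : Fin r → ℂ) (j : ℕ) (hj : j < r + 1) :
    (CA x ^ j) *ᵥ Pi.single (0 : Fin (r + 1)) 1 = Pi.single (⟨j, hj⟩ : Fin (r + 1)) 1 := by
  induction j with
  | zero =>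
    rw [pow_zero, Matrix.one_mulVec]
    rfl
  | succ j ih =>
    rw [pow_succ', ← Matrix.mulVec_mulVec, ih (by omega), CA_mul x j (by omega)]

/-- a polynomial of degree at most `r` in the matrix, applied to the first vector -/
theorem aeval_low (x : Fin r → ℂ) (p : ℂ[X]) (hp : p.natDegree < r + 1) (i : Fin (r + 1)) :
    (aeval (CA x) p *ᵥ Pi.single (0 : Fin (r + 1)) 1) i = p.coeff i := by
  rw [aeval_eq_sum_range' hp, Matrix.sum_mulVec, Finset.sum_apply]
  have h1 : ∀ j ∈ Finset.range (r + 1),
      ((p.coeff j • CA x ^ j) *ᵥ Pi.single (0 : Fin (r + 1)) 1) i =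
        if j = i.val then p.coeff j else 0 := by
    intro j hj
    rw [Finset.mem_range] at hj
    rw [Matrix.smul_mulVec, CA_pow x j hj]
    simp only [Pi.smul_apply, Pi.single_apply, Fin.ext_iff, smul_eq_mul, mul_ite, mul_one,
      mul_zero]
    by_cases h : i.val = j
    · rw [if_pos h, if_pos h.symm]
    · rw [if_neg h, if_neg (fun h' => h h'.symm)]
  rw [Finset.sum_congr rfl h1, Finset.sum_ite_eq', if_pos (Finset.mem_range.2 i.isLt)]

theorem aeval_PP (v : Fin (r + 1) → ℂ) (hv : ∏ k, v k = 1) :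
    aeval (CA (esA v)) (PP v) *ᵥ Pi.single (0 : Fin (r + 1)) 1 = 0 := by
  have h0 : PP v = X ^ (r + 1) + (PP v - X ^ (r + 1)) := by ring
  have hdeg : (PP v - X ^ (r + 1)).natDegree < r + 1 := by
    have h1 : (PP v - X ^ (r + 1)).degree < (PP v).degree := by
      refine degree_sub_lt_left ?_ (monic_PP v).ne_zero ?_
      · rw [degree_eq_natDegree (monic_PP v).ne_zero, natDegree_PP, degree_X_pow]
      · rw [(monic_PP v).leadingCoeff, (monic_X_pow _).leadingCoeff]
    rw [degree_eq_natDegree (monic_PP v).ne_zero, natDegree_PP] at h1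
    by_cases h2 : PP v - X ^ (r + 1) = 0
    · rw [h2]
      simp
    · exact (natDegree_lt_iff_degree_lt h2).2 h1
  ext i
  conv_lhs => rw [h0, map_add, Matrix.add_mulVec]
  rw [Pi.add_apply, aeval_low _ _ hdeg, map_pow, aeval_X, pow_succ', ← Matrix.mulVec_mulVec,
    CA_pow _ r (by omega)]
  have h3 : (⟨r, by omega⟩ : Fin (r + 1)) = Fin.last r := rfl
  rw [h3, CA_last, coeff_sub, coeff_X_pow, if_neg (by omega), sub_zero,
    coeff_PP v i.val (by omega)]
  show (-1) ^ (r - i.val) * ee (esA v) (r + 1 - i.val) +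
    (-1) ^ (r + 1 - i.val) * esk v (r + 1 - i.val) = 0
  rw [ee_esA v hv _ (by omega)]
  have h4 : r + 1 - i.val = (r - i.val) + 1 := by omega
  rw [h4, pow_succ]
  ring

theorem charpoly_CA (v : Fin (r + 1) → ℂ) (hv : ∏ k, v k = 1) :
    (CA (esA v)).charpoly = PP v := by
  have hd : ((CA (esA v)).charpoly - PP v).natDegree < r + 1 := by
    have hm := (CA (esA v)).charpoly_monic
    have hn : (CA (esA v)).charpoly.natDegree = r + 1 := by
      rw [Matrix.charpoly_natDegree_eq_dim, Fintype.card_fin]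
    have h1 : ((CA (esA v)).charpoly - PP v).degree < (CA (esA v)).charpoly.degree := by
      refine degree_sub_lt_left ?_ hm.ne_zero ?_
      · rw [degree_eq_natDegree hm.ne_zero, degree_eq_natDegree (monic_PP v).ne_zero,
          natDegree_PP, hn]
      · rw [hm.leadingCoeff, (monic_PP v).leadingCoeff]
    rw [degree_eq_natDegree hm.ne_zero, hn] at h1
    by_cases h2 : (CA (esA v)).charpoly - PP v = 0
    · rw [h2]
      simp
    · exact (natDegree_lt_iff_degree_lt h2).2 h1
  have h0 : aeval (CA (esA v)) ((CA (esA v)).charpoly - PP v) *ᵥ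
      Pi.single (0 : Fin (r + 1)) 1 = 0 := by
    rw [map_sub, Matrix.sub_mulVec, aeval_PP v hv, Matrix.aeval_self_charpoly,
      Matrix.zero_mulVec, sub_zero]
  refine sub_eq_zero.1 ?_
  ext k
  rw [coeff_zero]
  by_cases hk : k < r + 1
  · have := congrFun h0 ⟨k, hk⟩
    rw [aeval_low _ _ hd] at this
    exact this
  · exact coeff_eq_zero_of_natDegree_lt (by omega)

end TRCA

/-- the traces of the powers of the companion matrix -/
theorem t_TRCA : S_TRCA := by
  intro r v hv m
  rw [EIGV.trace_pow, TRCA.charpoly_CA v hv, TRCA.PP, Polynomial.roots_multiset_prod_X_sub_C,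
    Multiset.map_map]
  rfl

end

end STZ
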