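import Pool.Agent.STZ.StmtsP

/-!
# Module VAFA: facts about the eigenvalues of the points of the torus of `SU(r + 1)`
-/

namespace STZ

open MeasureTheory Matrix

open scoped ComplexConjugate Matrix Real

noncomputable section

namespace VAFA

/-- the first part of the exponent of `vA` -/
def up {r : ℕ} (θ : Fin r → ℝ) (j : Fin (r + 1)) : ℝ := if h : j.val < r then θ ⟨j.val, h⟩ else 0

/-- the second part of the exponent of `vA` -/
def dn {r : ℕ} (θ : Fin r → ℝ) (j : Fin (r + 1)) : ℝ :=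
  if h : 0 < j.val then θ ⟨j.val - 1, by omega⟩ else 0

lemma vA_eq {r : ℕ} (θ : Fin r → ℝ) (j : Fin (r + 1)) : vA θ j = eu (up θ j - dn θ j) := rfl

lemma up_castSucc {r : ℕ} (θ : Fin r → ℝ) (i : Fin r) : up θ i.castSucc = θ i := by
  unfold up
  rw [dif_pos (by simp)]
  rfl

lemma up_last {r : ℕ} (θ : Fin r → ℝ) : up θ (Fin.last r) = 0 := by
  unfold up
  rw [dif_neg (by simp)]

lemma dn_zero {r : ℕ} (θ : Fin r → ℝ) : dn θ 0 = 0 := by
  unfold dn
  rw [dif_neg (by simp)]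

lemma dn_succ {r : ℕ} (θ : Fin r → ℝ) (i : Fin r) : dn θ i.succ = θ i := by
  unfold dn
  rw [dif_pos (by simp)]
  congr 1

lemma eu_zero : eu 0 = 1 := by simp [eu]

lemma eu_ne (x : ℝ) : eu x ≠ 0 := Complex.exp_ne_zero _

lemma eu_zpow (x : ℝ) (m : ℤ) : eu ((m : ℝ) * x) = eu x ^ m := by
  unfold eu
  rw [← Complex.exp_int_mul]
  congr 1
  push_cast
  ring

lemma eu_sum {ι : Type*} (s : Finset ι) (f : ι → ℝ) : eu (∑ i ∈ s, f i) = ∏ i ∈ s, eu (f i) := by
  unfold eu
  rw [← Complex.exp_sum]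
  congr 1
  push_cast
  rw [Finset.mul_sum, Finset.sum_mul]

lemma sum_m {r : ℕ} (m : Fin (r + 1) → ℤ) (θ : Fin r → ℝ) :
    dz (dif m) θ = ∑ j, (m j : ℝ) * (up θ j - dn θ j) := by
  have h1 : ∑ j, (m j : ℝ) * (up θ j - dn θ j) =
      ∑ j, (m j : ℝ) * up θ j - ∑ j, (m j : ℝ) * dn θ j := by
    rw [← Finset.sum_sub_distrib]
    exact Finset.sum_congr rfl fun j _ => by ring
  rw [h1, Fin.sum_univ_castSucc, Fin.sum_univ_succ (f := fun j => (m j : ℝ) * dn θ j), up_last, dn_zero]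
  simp only [up_castSucc, dn_succ, mul_zero, add_zero, zero_add]
  rw [← Finset.sum_sub_distrib]
  unfold dz dif
  exact Finset.sum_congr rfl fun j _ => by push_cast; ring

lemma dz_prod {r : ℕ} (m : Fin (r + 1) → ℤ) (θ : Fin r → ℝ) :
    eu (dz (dif m) θ) = ∏ j, vA θ j ^ m j := by
  rw [sum_m, eu_sum]
  exact Finset.prod_congr rfl fun j _ => by rw [eu_zpow, vA_eq]

lemma prod_one {r : ℕ} (θ : Fin r → ℝ) : ∏ j, vA θ j = 1 := by
  have h := dz_prod (fun _ => (1 : ℤ)) θ
  have h0 : dz (dif (fun _ : Fin (r + 1) => (1 : ℤ))) θ = 0 := by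
    unfold dz dif
    simp
  rw [h0, eu_zero] at h
  simp only [zpow_one] at h
  exact h.symm

lemma exists_phi (z : ℂ) (h : z * conj z = 1) : ∃ x : ℝ, eu x = z := by
  refine ⟨Complex.arg z / (2 * π), ?_⟩
  have hn : ‖z‖ = 1 := by
    have h1 : (Complex.normSq z : ℂ) = 1 := by rw [← Complex.mul_conj, h]
    have h2 : Complex.normSq z = 1 := by exact_mod_cast h1
    rw [Complex.normSq_eq_norm_sq] at h2
    nlinarith [norm_nonneg z]
  have hz := Complex.norm_mul_exp_arg_mul_I z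
  rw [hn] at hz
  unfold eu
  have hp : (π : ℂ) ≠ 0 := by exact_mod_cast Real.pi_ne_zero
  rw [show (2 * (π : ℂ) * ((Complex.arg z / (2 * π) : ℝ) : ℂ) * Complex.I) = Complex.arg z * Complex.I by
    push_cast
    field_simp]
  simpa using hz

lemma exists_theta {r : ℕ} (v : Fin (r + 1) → ℂ) (h1 : ∀ j, v j * conj (v j) = 1)
    (h2 : ∏ j, v j = 1) : ∃ θ : Fin r → ℝ, vA θ = v := by
  choose φ hφ using fun j => exists_phi (v j) (h1 j)
  let f : ℕ → ℝ := fun k => if h : k < r + 1 then φ ⟨k, h⟩ else 0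
  let θ : Fin r → ℝ := fun i => ∑ k ∈ Finset.range (i.val + 1), f k
  refine ⟨θ, ?_⟩
  have hc : ∀ i : Fin r, vA θ i.castSucc = v i.castSucc := by
    intro i
    rw [vA_eq, up_castSucc]
    have hd : dn θ i.castSucc = ∑ k ∈ Finset.range i.val, f k := by
      unfold dn
      split_ifs with h
      · have h' : 0 < i.val := by simpa using h
        show ∑ k ∈ Finset.range (i.castSucc.val - 1 + 1), f k = _
        congr 2
        simp only [Fin.val_castSucc]
        omega
      · have h' : i.val = 0 := by simpa using h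
        rw [h']
        simp
    rw [hd]
    show eu (∑ k ∈ Finset.range (i.val + 1), f k - ∑ k ∈ Finset.range i.val, f k) = _
    rw [Finset.sum_range_succ, add_sub_cancel_left]
    have hf : f i.val = φ i.castSucc := by
      show (if h : i.val < r + 1 then φ ⟨i.val, h⟩ else 0) = _
      rw [dif_pos (by omega)]
      rfl
    rw [hf, hφ]
  funext j
  refine Fin.lastCases ?_ (fun i => hc i) j
  have hp := prod_one θ
  rw [Fin.prod_univ_castSucc] at hp h2
  simp only [hc] at hp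
  have hne : ∏ i : Fin r, v i.castSucc ≠ 0 := by
    intro h0
    rw [h0, zero_mul] at h2
    exact zero_ne_one h2
  exact mul_left_cancel₀ hne (hp.trans h2.symm)

lemma prod_ind {r : ℕ} (v : Fin (r + 1) → ℂ) (I : Finset (Fin (r + 1))) :
    ∏ j, v j ^ ind I j = ∏ j ∈ I, v j := by
  have h : ∀ j, v j ^ ind I j = if j ∈ I then v j else 1 := by
    intro j
    unfold ind
    split_ifs <;> simp
  simp only [h]
  rw [Finset.prod_ite_mem, Finset.univ_inter]

lemma XT_eq {r : ℕ} (hC : CUF r) (θ : Fin r → ℝ) : XT (DA r) θ = esA (vA θ) := by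
  funext i
  show ∑ κ ∈ (Finset.univ.powersetCard (i.val + 1)).image
    (fun I : Finset (Fin (r + 1)) => dif (ind I)), (((1 : ℤ) : ℂ)) * eu (dz κ θ) =
    ∑ I ∈ Finset.univ.powersetCard (i.val + 1), ∏ j ∈ I, vA θ j
  rw [Finset.sum_image]
  · refine Finset.sum_congr rfl fun I _ => ?_
    rw [dz_prod, prod_ind]
    simp
  · intro I hI J hJ hIJ
    refine hC.dinj I J ?_ hIJ
    rw [(Finset.mem_powersetCard.mp (Finset.mem_coe.mp hI)).2,
      (Finset.mem_powersetCard.mp (Finset.mem_coe.mp hJ)).2]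

lemma prod_prs {r : ℕ} (g : Fin (r + 1) → Fin (r + 1) → ℂ) :
    ∏ p ∈ prs r, g p.1 p.2 = ∏ a, ∏ b, if a < b then g a b else 1 := by
  unfold prs
  rw [Finset.prod_filter, Fintype.prod_prod_type]

lemma det_vdm {r : ℕ} (v : Fin (r + 1) → ℂ) :
    (Matrix.of fun i j : Fin (r + 1) => v j ^ ((r : ℤ) - (i.val : ℤ))).det =
      ∏ p ∈ prs r, (v p.1 - v p.2) := by
  have h1 : (Matrix.of fun i j : Fin (r + 1) => v j ^ ((r : ℤ) - (i.val : ℤ))).submatrix
      Fin.revPerm Fin.revPerm = (Matrix.vandermonde (v ∘ Fin.rev))ᵀ := by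
    ext i j
    simp only [Matrix.submatrix_apply, Matrix.of_apply, Matrix.transpose_apply,
      Matrix.vandermonde_apply, Fin.revPerm_apply, Function.comp_apply]
    rw [← zpow_natCast]
    congr 1
    rw [Fin.val_rev]
    have := i.isLt
    omega
  rw [← Matrix.det_submatrix_equiv_self Fin.revPerm, h1, Matrix.det_transpose,
    Matrix.det_vandermonde]
  rw [prod_prs (fun a b => v a - v b)]
  have h2 : ∀ i : Fin (r + 1), ∏ j ∈ Finset.Ioi i, ((v ∘ Fin.rev) j - (v ∘ Fin.rev) i) =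
      ∏ j, if i < j then v j.rev - v i.rev else 1 := by
    intro i
    rw [← Finset.prod_filter]
    refine Finset.prod_congr ?_ fun j _ => rfl
    ext j
    simp
  simp only [h2]
  rw [Finset.prod_comm]
  rw [← Equiv.prod_comp (Fin.revPerm : Equiv.Perm (Fin (r + 1)))]
  refine Finset.prod_congr rfl fun a _ => ?_
  rw [← Equiv.prod_comp (Fin.revPerm : Equiv.Perm (Fin (r + 1)))]
  refine Finset.prod_congr rfl fun b _ => ?_
  simp only [Fin.revPerm_apply, Fin.rev_rev, Fin.rev_lt_rev]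

lemma AT_eq {r : ℕ} (hC : CUF r) (θ : Fin r → ℝ) :
    AT (DA r) 1 θ = ∏ p ∈ prs r, (vA θ p.1 - vA θ p.2) := by
  rw [← det_vdm, Matrix.det_apply']
  show ∑ w ∈ Finset.univ.image (wA : Equiv.Perm (Fin (r + 1)) → Matrix (Fin r) (Fin r) ℤ),
    (w.det : ℂ) * eu (dz (w *ᵥ 1) θ) = _
  rw [Finset.sum_image fun σ _ τ _ h => hC.winj h]
  refine Finset.sum_congr rfl fun σ _ => ?_
  rw [hC.wdet, hC.wl, dz_prod]
  congr 1
  refine Finset.prod_congr rfl fun j _ => ?_
  rw [Matrix.of_apply, Function.comp_apply, hC.one]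

end VAFA

theorem t_VAFA : M_VAFA := by
  intro hC r
  exact ⟨VAFA.prod_one, VAFA.exists_theta, VAFA.dz_prod, VAFA.XT_eq (hC r), VAFA.AT_eq (hC r)⟩

end

end STZ
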