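import Pool.Agent.STZ.StmtsP

/-!
# Module WAA1: the group part of the data of `SU(r + 1)`
-/

namespace STZ

open MeasureTheory Matrix

open scoped ComplexConjugate Matrix Real

noncomputable section

namespace WAA1

lemma mem (r : ℕ) (σ : Equiv.Perm (Fin (r + 1))) : wA σ ∈ (DA r).W := by
  simp only [DA]
  exact Finset.mem_image_of_mem _ (Finset.mem_univ _)

lemma exi (r : ℕ) {w : Matrix (Fin r) (Fin r) ℤ} (h : w ∈ (DA r).W) : ∃ σ, wA σ = w := by
  simp only [DA, Finset.mem_image, Finset.mem_univ, true_and] at h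
  exact h

lemma diff {r : ℕ} (h : CUF r) (l : Fin r → ℤ) (i : Fin r) :
    cum l i.castSucc - cum l i.succ = l i := congrFun (h.cd l) i

lemma anti {r : ℕ} (h : CUF r) {l : Fin r → ℤ} (hl : Reg l) : StrictAnti (cum l) := by
  rw [Fin.strictAnti_iff_succ_lt]
  intro i
  have h1 := diff h l i
  have h2 := hl i
  omega

end WAA1

open WAA1 in
theorem t_WAA1 : M_WAA1 := by
  intro hC r
  have h := hC r
  refine ⟨?_, ?_, ?_, ?_, ?_, ?_, ?_, ?_, ?_⟩
  · rw [← h.wone]; exact mem r 1
  · intro w hw w' hw'
    obtain ⟨σ, rfl⟩ := exi r hw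
    obtain ⟨τ, rfl⟩ := exi r hw'
    rw [h.wmul]; exact mem r _
  · intro w hw
    obtain ⟨σ, rfl⟩ := exi r hw
    refine ⟨wA σ⁻¹, mem r _, ?_⟩
    rw [h.wmul, mul_inv_cancel, h.wone]
  · intro w hw
    obtain ⟨σ, rfl⟩ := exi r hw
    rw [h.wdet]
    rcases Int.units_eq_one_or (Equiv.Perm.sign σ) with h1 | h1 <;> simp [h1]
  · exact ⟨wA Fin.revPerm, mem r _, fun κ => h.wrev κ⟩
  · intro i
    refine ⟨wA (Equiv.swap i.castSucc i.succ), mem r _, ?_, ?_⟩
    · rw [h.wdet, Equiv.Perm.sign_swap (Fin.castSucc_lt_succ (i := i)).ne]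
      simp
    · intro l hl
      rw [h.wl]
      have h1 : cum l ∘ Equiv.swap i.castSucc i.succ = cum l := by
        have h2 : cum l i.castSucc = cum l i.succ := by
          have := diff h l i
          rw [hl] at this
          linarith
        funext j
        simp only [Function.comp_apply]
        rcases eq_or_ne j i.castSucc with h3 | h3
        · rw [h3, Equiv.swap_apply_left, h2]
        · rcases eq_or_ne j i.succ with h4 | h4
          · rw [h4, Equiv.swap_apply_right, h2]
          · rw [Equiv.swap_apply_of_ne_of_ne h3 h4]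
      rw [h1, h.cd]
  · intro l
    refine ⟨wA (Tuple.sort fun j => - cum l j), mem r _, ?_⟩
    intro i
    rw [h.wl]
    have h1 := Tuple.monotone_sort (fun j => - cum l j) (Fin.castSucc_lt_succ (i := i)).le
    simp only [Function.comp_apply] at h1
    simp only [dif, Function.comp_apply]
    linarith
  · intro l hl w hw hwl
    obtain ⟨σ, rfl⟩ := exi r hw
    have h1 := anti h hl
    have h2 := anti h hwl
    have h3 : StrictMono σ := by
      intro a b hab
      have h4 := h2 hab
      rw [h.wc, h.wc] at h4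
      have h5 : cum l (σ b) < cum l (σ a) := by linarith
      exact h1.lt_iff_gt.1 h5
    have h4 : σ = 1 := by
      ext j
      have h5 : (σ : Fin (r + 1) → Fin (r + 1)) = id := le_antisymm h3.le_id h3.id_le
      rw [h5]; rfl
    rw [h4, h.wone]
  · intro i
    simp [DA]

end

end STZ
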