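import Pool.Agent.STZ.StmtsP

/-!
# Module WAA3
-/

namespace STZ

namespace WAA3

open Matrix

/-- the square form -/
def GF {r : ℕ} (x : Fin (r + 1) → ℤ) : ℤ := ∑ p ∈ prs r, (x p.1 - x p.2) ^ 2

lemma GF_eq {r : ℕ} (H : CUF r) (x : Fin (r + 1) → ℤ) :
    GF x = (r + 1) * ∑ j, x j * x j - (∑ j, x j) * ∑ j, x j := by
  have h := H.psum x x
  have h2 : ∑ p ∈ prs r, 2 * (x p.1 - x p.2) * (x p.1 - x p.2) = 2 * GF x := by
    unfold GF
    rw [Finset.mul_sum]
    refine Finset.sum_congr rfl fun p _ => ?_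
    ring
  rw [h2] at h
  exact mul_left_cancel₀ (by norm_num) h

lemma Q_eq {r : ℕ} (l : Fin r → ℤ) : (DA r).Q l = GF (cum l) := rfl

lemma GF_shift {r : ℕ} (x y : Fin (r + 1) → ℤ) (c : ℤ) (h : ∀ j, x j = y j - c) :
    GF x = GF y := by
  unfold GF
  refine Finset.sum_congr rfl fun p _ => ?_
  rw [h, h]
  ring

lemma mem_W {r : ℕ} {w : Matrix (Fin r) (Fin r) ℤ} (h : w ∈ (DA r).W) :
    ∃ σ : Equiv.Perm (Fin (r + 1)), wA σ = w := by
  have h2 : w ∈ Finset.univ.image (wA : Equiv.Perm (Fin (r + 1)) → Matrix (Fin r) (Fin r) ℤ) := h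
  rw [Finset.mem_image] at h2
  obtain ⟨σ, _, hs⟩ := h2
  exact ⟨σ, hs⟩

lemma mem_S {r : ℕ} (i : Fin r) (κ : Fin r → ℤ) :
    κ ∈ (DA r).S i ↔ ∃ I : Finset (Fin (r + 1)), I.card = i.val + 1 ∧ dif (ind I) = κ := by
  have h : κ ∈ (DA r).S i ↔ κ ∈ (Finset.univ.powersetCard (i.val + 1)).image
    fun I : Finset (Fin (r + 1)) => dif (ind I) := Iff.rfl
  rw [h, Finset.mem_image]
  constructor
  · rintro ⟨I, hI, hk⟩
    rw [Finset.mem_powersetCard] at hI
    exact ⟨I, hI.2, hk⟩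
  · rintro ⟨I, hI, hk⟩
    exact ⟨I, Finset.mem_powersetCard.2 ⟨Finset.subset_univ I, hI⟩, hk⟩

lemma cardT {r : ℕ} (i : Fin r) : (Finset.Iic i.castSucc).card = i.val + 1 := by
  rw [Fin.card_Iic]
  rfl

lemma ind_compl {r : ℕ} (I : Finset (Fin (r + 1))) (j : Fin (r + 1)) :
    ind Iᶜ j = 1 - ind I j := by
  unfold ind
  by_cases h : j ∈ I
  · simp [h]
  · simp [h]

lemma dif_compl {r : ℕ} (I : Finset (Fin (r + 1))) : dif (ind Iᶜ) = -dif (ind I) := by
  funext i
  show ind Iᶜ i.castSucc - ind Iᶜ i.succ = -(ind I i.castSucc - ind I i.succ)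
  rw [ind_compl, ind_compl]
  ring

lemma SW {r : ℕ} (H : CUF r) (i : Fin r) (w : Matrix (Fin r) (Fin r) ℤ) (hw : w ∈ (DA r).W)
    (κ : Fin r → ℤ) (hk : κ ∈ (DA r).S i) : w *ᵥ κ ∈ (DA r).S i := by
  obtain ⟨σ, rfl⟩ := mem_W hw
  rw [mem_S] at hk
  obtain ⟨I, hI, rfl⟩ := hk
  rw [mem_S]
  refine ⟨I.map σ.symm.toEmbedding, ?_, ?_⟩
  · rw [Finset.card_map, hI]
  · rw [H.dw]

lemma Sst1 {r : ℕ} (i : Fin r) (κ : Fin r → ℤ) (h : κ ∈ (DA r).S (Fin.rev i)) :
    -κ ∈ (DA r).S i := by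
  rw [mem_S] at h ⊢
  obtain ⟨I, hI, rfl⟩ := h
  refine ⟨Iᶜ, ?_, dif_compl I⟩
  rw [Finset.card_compl, Fintype.card_fin, hI, Fin.val_rev]
  have := i.isLt
  omega

lemma Sst {r : ℕ} (i : Fin r) (κ : Fin r → ℤ) :
    κ ∈ (DA r).S ((DA r).st i) ↔ -κ ∈ (DA r).S i := by
  have hs : (DA r).st i = Fin.rev i := rfl
  rw [hs]
  constructor
  · exact Sst1 i κ
  · intro h
    have h2 : -κ ∈ (DA r).S (Fin.rev (Fin.rev i)) := by rw [Fin.rev_rev]; exact h
    have h3 := Sst1 (Fin.rev i) (-κ) h2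
    rw [neg_neg] at h3
    exact h3

lemma top {r : ℕ} (H : CUF r) (i : Fin r) : Pi.single i 1 ∈ (DA r).S i := by
  rw [mem_S]
  exact ⟨Finset.Iic i.castSucc, cardT i, H.single i⟩

lemma cum_anti {r : ℕ} (H : CUF r) (l : Fin r → ℤ) (hl : Reg l) (a b : Fin (r + 1))
    (h : a < b) : cum l b + 1 ≤ cum l a := by
  have h1 := H.dot l a b h
  have ha : a.val < r := by
    have h3 : a.val < b.val := h
    have := b.isLt
    omega
  have h2 : (1 : ℤ) ≤ (fun i : Fin r => if a.val ≤ i.val ∧ i.val < b.val then (1 : ℤ) else 0) ⬝ᵥ l := by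
    unfold dotProduct
    have h3 : (1 : ℤ) ≤ (if a.val ≤ (⟨a.val, ha⟩ : Fin r).val ∧ (⟨a.val, ha⟩ : Fin r).val < b.val then (1 : ℤ) else 0) *
        l ⟨a.val, ha⟩ := by
      rw [if_pos ⟨le_refl _, h⟩, one_mul]
      exact hl _
    refine h3.trans ?_
    refine Finset.single_le_sum (f := fun i : Fin r => (if a.val ≤ i.val ∧ i.val < b.val then (1 : ℤ) else 0) * l i)
      (fun i _ => ?_) (Finset.mem_univ (⟨a.val, ha⟩ : Fin r))
    have := hl i
    refine mul_nonneg ?_ (by omega)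
    split_ifs <;> norm_num
  linarith

lemma sum_lt {r : ℕ} (m : Fin (r + 1) → ℤ) (hm : ∀ a b, a < b → m b + 1 ≤ m a)
    (t : Fin (r + 1)) (I : Finset (Fin (r + 1))) (hc : I.card = (Finset.Iic t).card)
    (hne : I ≠ Finset.Iic t) : ∑ j ∈ I, m j < ∑ j ∈ Finset.Iic t, m j := by
  set T := Finset.Iic t with hT
  have e1 : ∑ j ∈ I, m j = ∑ j ∈ I ∩ T, m j + ∑ j ∈ I \ T, m j := by
    rw [← Finset.sum_union]
    · congr 1
      ext x
      simp only [Finset.mem_union, Finset.mem_inter, Finset.mem_sdiff]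
      tauto
    · rw [Finset.disjoint_left]
      intro x hx hx2
      rw [Finset.mem_inter] at hx
      rw [Finset.mem_sdiff] at hx2
      exact hx2.2 hx.2
  have e2 : ∑ j ∈ T, m j = ∑ j ∈ I ∩ T, m j + ∑ j ∈ T \ I, m j := by
    rw [← Finset.sum_union]
    · congr 1
      ext x
      simp only [Finset.mem_union, Finset.mem_inter, Finset.mem_sdiff]
      tauto
    · rw [Finset.disjoint_left]
      intro x hx hx2
      rw [Finset.mem_inter] at hx
      rw [Finset.mem_sdiff] at hx2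
      exact hx2.2 hx.1
  have hcc : (I \ T).card = (T \ I).card := by
    have h1 := Finset.card_sdiff_add_card_inter I T
    have h2 := Finset.card_sdiff_add_card_inter T I
    rw [Finset.inter_comm] at h2
    omega
  have hpos : 0 < (I \ T).card := by
    rw [Finset.card_pos]
    by_contra hno
    rw [Finset.not_nonempty_iff_eq_empty, Finset.sdiff_eq_empty_iff_subset] at hno
    exact hne (Finset.eq_of_subset_of_card_le hno (le_of_eq hc.symm))
  have h1 : ∑ j ∈ I \ T, m j ≤ (I \ T).card • (m t - 1) := by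
    refine Finset.sum_le_card_nsmul _ _ _ fun j hj => ?_
    rw [Finset.mem_sdiff, hT, Finset.mem_Iic, not_le] at hj
    have := hm t j hj.2
    linarith
  have h2 : (T \ I).card • (m t) ≤ ∑ j ∈ T \ I, m j := by
    refine Finset.card_nsmul_le_sum _ _ _ fun j hj => ?_
    rw [Finset.mem_sdiff, hT, Finset.mem_Iic] at hj
    rcases eq_or_lt_of_le hj.1 with h | h
    · rw [h]
    · have := hm j t h
      linarith
  rw [e1, e2]
  rw [nsmul_eq_mul] at h1 h2
  rw [hcc] at h1 hpos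
  have h3 : (0 : ℤ) < ((T \ I).card : ℤ) := by exact_mod_cast hpos
  nlinarith

lemma GF_add {r : ℕ} (H : CUF r) (m : Fin (r + 1) → ℤ) (I : Finset (Fin (r + 1))) :
    GF (fun j => m j + ind I j) = (r + 1) * (∑ j, m j * m j + 2 * ∑ j ∈ I, m j + I.card) -
      (∑ j, m j + I.card) * (∑ j, m j + I.card) := by
  rw [GF_eq H]
  have e1 : ∑ j, ind I j = (I.card : ℤ) := by
    unfold ind
    rw [Finset.sum_ite_mem, Finset.univ_inter, Finset.sum_const, nsmul_eq_mul, mul_one]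
  have e2 : ∑ j, ind I j * m j = ∑ j ∈ I, m j := by
    unfold ind
    simp only [ite_mul, one_mul, zero_mul]
    rw [Finset.sum_ite_mem, Finset.univ_inter]
  have e3 : ∑ j, (m j + ind I j) * (m j + ind I j) =
      ∑ j, m j * m j + 2 * ∑ j, ind I j * m j + ∑ j, ind I j := by
    rw [Finset.mul_sum, ← Finset.sum_add_distrib, ← Finset.sum_add_distrib]
    refine Finset.sum_congr rfl fun j _ => ?_
    have : ind I j * ind I j = ind I j := by
      unfold ind
      split_ifs <;> norm_num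
    linear_combination this
  have e4 : ∑ j, (m j + ind I j) = ∑ j, m j + ∑ j, ind I j := Finset.sum_add_distrib
  rw [e3, e4, e1, e2]

lemma Q_add {r : ℕ} (H : CUF r) (l : Fin r → ℤ) (I : Finset (Fin (r + 1))) :
    (DA r).Q (l + dif (ind I)) = GF (fun j => cum l j + ind I j) := by
  rw [Q_eq]
  refine GF_shift _ _ (ind I (Fin.last r)) fun j => ?_
  rw [H.cadd, H.dc]
  ring

lemma lt {r : ℕ} (H : CUF r) (i : Fin r) (l : Fin r → ℤ) (hl : Reg l) (κ : Fin r → ℤ)
    (hk : κ ∈ (DA r).S i) (hne : κ ≠ Pi.single i 1) :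
    (DA r).Q (l + κ) < (DA r).Q (l + Pi.single i 1) := by
  rw [mem_S] at hk
  obtain ⟨I, hI, rfl⟩ := hk
  have hne2 : I ≠ Finset.Iic i.castSucc := by
    intro h
    rw [h] at hne
    exact hne (H.single i)
  have hc : I.card = (Finset.Iic i.castSucc).card := by rw [hI, cardT]
  have h := sum_lt (cum l) (cum_anti H l hl) i.castSucc I hc hne2
  rw [← H.single i, Q_add H, Q_add H, GF_add H, GF_add H, hc]
  have hr : (0 : ℤ) < (r : ℤ) + 1 := by positivity
  have h5 := mul_lt_mul_of_pos_left h hr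
  linarith

lemma lower {r : ℕ} (I : Finset (Fin (r + 1)))
    (h : ∀ a : Fin r, a.succ ∈ I → a.castSucc ∈ I) :
    ∀ n (hn : n < r + 1), (⟨n, hn⟩ : Fin (r + 1)) ∈ I → ∀ k (hk : k ≤ n),
      (⟨k, lt_of_le_of_lt hk hn⟩ : Fin (r + 1)) ∈ I := by
  intro n
  induction n with
  | zero =>
    intro hn hm k hk
    have : k = 0 := by omega
    subst this
    exact hm
  | succ n ih =>
    intro hn hm k hk
    rcases Nat.lt_or_ge k (n + 1) with h1 | h1
    · have h2 : (⟨n, by omega⟩ : Fin r).succ ∈ I := by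
        have : (⟨n, by omega⟩ : Fin r).succ = (⟨n + 1, hn⟩ : Fin (r + 1)) := rfl
        rw [this]
        exact hm
      have h3 := h _ h2
      exact ih (by omega) h3 k (by omega)
    · have : k = n + 1 := by omega
      subst this
      exact hm

lemma exists_step {r : ℕ} (i : Fin r) (I : Finset (Fin (r + 1)))
    (hc : I.card = (Finset.Iic i.castSucc).card) (hne : I ≠ Finset.Iic i.castSucc) :
    ∃ a : Fin r, a.castSucc ∉ I ∧ a.succ ∈ I := by
  by_contra hno
  have hlow := lower I (fun a ha => by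
    by_contra h
    exact hno ⟨a, h, ha⟩)
  have hns : ¬ I ⊆ Finset.Iic i.castSucc := fun h =>
    hne (Finset.eq_of_subset_of_card_le h (le_of_eq hc.symm))
  rw [Finset.not_subset] at hns
  obtain ⟨j, hj, hj2⟩ := hns
  rw [Finset.mem_Iic, not_le] at hj2
  have hsub : Finset.Iic j ⊆ I := by
    intro k hk
    rw [Finset.mem_Iic] at hk
    exact hlow j.val j.isLt hj k.val hk
  have h1 := Finset.card_le_card hsub
  rw [hc, Fin.card_Iic, Fin.card_Iic] at h1
  have h2 : (i.castSucc).val < j.val := hj2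
  omega

lemma base {r : ℕ} (H : CUF r) (H1 : WA1 r) (φ : (Fin r → ℤ) → ℂ)
    (hφ : ∀ w ∈ (DA r).W, ∀ l, φ (w *ᵥ l) = (w.det : ℂ) * φ l) (i : Fin r) :
    ∑ κ ∈ (DA r).S i, (((DA r).Q (1 + κ) : ℂ) - (DA r).Q (1 + Pi.single i 1)) * φ (1 + κ) = 0 := by
  refine Finset.sum_eq_zero fun κ hk => ?_
  rw [mem_S] at hk
  obtain ⟨I, hI, rfl⟩ := hk
  by_cases hT : I = Finset.Iic i.castSucc
  · rw [hT, H.single i, sub_self, zero_mul]
  · have hc : I.card = (Finset.Iic i.castSucc).card := by rw [hI, cardT]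
    obtain ⟨a, ha, ha2⟩ := exists_step i I hc hT
    obtain ⟨w, hw, hd, hf⟩ := H1.refl a
    have h0 : ((1 : Fin r → ℤ) + dif (ind I)) a = 0 := by
      show (1 : ℤ) + (ind I a.castSucc - ind I a.succ) = 0
      unfold ind
      rw [if_neg ha, if_pos ha2]
      norm_num
    have h1 := hφ w hw (1 + dif (ind I))
    rw [hf _ h0, hd] at h1
    have h2 : φ (1 + dif (ind I)) = 0 := by
      push_cast at h1
      have h3 : φ (1 + dif (ind I)) + φ (1 + dif (ind I)) = 0 := by linear_combination h1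
      exact add_self_eq_zero.1 h3
    rw [h2, mul_zero]

end WAA3

theorem t_WAA3 : M_WAA3 := by
  intro hC h1 _ r
  have H := hC r
  exact
    { S_W := fun i w hw κ hk => WAA3.SW H i w hw κ hk
      S_st := fun i κ => WAA3.Sst i κ
      top := fun i => WAA3.top H i
      lt := fun i l hl κ hk hne => WAA3.lt H i l hl κ hk hne
      base := fun φ hφ i => WAA3.base H (h1 r) φ hφ i }

end STZ
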