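import Pool.Agent.STZ.StmtsV
import Pool.Agent.STZ.UPPER
import Pool.Agent.STZ.CALH
import Pool.Agent.STZ.GRH
import Pool.Agent.STZ.SWH
import Pool.Agent.STZ.TENH
import Pool.Agent.STZ.VRING
import Pool.Agent.STZ.EIGV
import Pool.Agent.STZ.INTX
import Pool.Agent.STZ.ORTX
import Pool.Agent.STZ.IRRX
import Pool.Agent.STZ.CPLX
import Pool.Agent.STZ.EIGX
import Pool.Agent.STZ.LAPN
import Pool.Agent.STZ.CUMA
import Pool.Agent.STZ.WAA1
import Pool.Agent.STZ.WAA2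
import Pool.Agent.STZ.WAA3
import Pool.Agent.STZ.PSAA
import Pool.Agent.STZ.EXTA
import Pool.Agent.STZ.RDPA
import Pool.Agent.STZ.DIMA
import Pool.Agent.STZ.RDDA
import Pool.Agent.STZ.TRCA
import Pool.Agent.STZ.MSYM
import Pool.Agent.STZ.RDGA
import Pool.Agent.STZ.VAFA
import Pool.Agent.STZ.RTA1
import Pool.Agent.STZ.RTA2
import Pool.Agent.STZ.EGFA
import Pool.Agent.STZ.EXPW
import Pool.Agent.STZ.GFEN
import Pool.Agent.STZ.DERA
import Pool.Agent.STZ.LAPE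
import Pool.Agent.STZ.GFLN
import Pool.Agent.STZ.FRAN
import Pool.Agent.STZ.TORN
import Pool.Agent.STZ.TOPN

/-!
# The group `SU(r + 1)` with its combinatorial data
-/

namespace STZ

open MeasureTheory Matrix

namespace SUNA

theorem calh : S_CALH := t_CALH t_EXP

theorem grh : S_GRH := t_GRH t_HAAR calh

theorem tenh : S_TENH := t_TENH t_TENS

theorem ortx : S_ORTX := t_ORTX calh grh t_INTX

theorem irrx : S_IRRX := t_IRRX (t_VIRT (t_CHAR t_SCHUR) t_DECO) t_VRING t_INTX ortx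

theorem cplx : S_CPLX :=
  t_CPLX t_HAAR t_KB keri (t_ALLI t_KB (t_CHAR t_SCHUR) t_DECO keri) tenh t_SWH t_INTX irrx

theorem eigx : S_EIGX := t_EIGX t_KB keri calh grh irrx cplx

theorem lapn : S_LAPN := t_LAPN calh t_INTX

theorem waa1 : S_WAA1 := t_WAA1 t_CUMA

theorem waa2 : S_WAA2 := t_WAA2 t_CUMA

theorem waa3 : S_WAA3 := t_WAA3 t_CUMA waa1 waa2

theorem rdwA (r : ℕ) (hr : 2 ≤ r) : RDW (DA r) where
  r2 := hr
  W_one := (waa1 r).W_one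
  W_mul := (waa1 r).W_mul
  W_inv := (waa1 r).W_inv
  W_det := (waa1 r).W_det
  Q_W := (waa2 r).Q_W
  S_W := (waa3 r).S_W
  P_W := fun _ _ _ _ => rfl
  S_st := (waa3 r).S_st
  P_st := fun _ _ => rfl
  st2 := (waa1 r).st2
  w0 := (waa1 r).w0
  refl := (waa1 r).refl
  str := (waa1 r).str
  free := (waa1 r).free
  top := fun i => ⟨(waa3 r).top i, rfl⟩
  lt := (waa3 r).lt
  chm := (waa2 r).chm
  qf := (waa2 r).qf
  pd := (waa2 r).pd
  rho := (waa2 r).rho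
  base := by
    intro φ hφ i
    have h := (waa3 r).base φ hφ i
    have h1 : ∀ κ, ((DA r).P i κ : ℂ) = 1 := fun κ => by
      show (((1 : ℤ)) : ℂ) = 1
      norm_num
    simpa only [h1, one_mul] using h

theorem psaa : S_PSAA := t_PSAA t_CUMA

theorem rdpa : S_RDPA := t_RDPA t_CUMA psaa t_EXTA

theorem rdda : S_RDDA := t_RDDA t_CUMA psaa (t_DIMA t_CUMA psaa)

theorem rdxA (r : ℕ) (hr : 2 ≤ r) : RDX (DA r) := ⟨rdwA r hr, rdpa r, (rdda r).1⟩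

theorem rdga : S_RDGA := t_RDGA t_CUMA psaa t_EXTA (t_MSYM t_TRCA)

theorem egfa : S_EGFA := t_EGFA t_EIGV

theorem vafa : S_VAFA := t_VAFA t_CUMA

theorem rta1 : S_RTA1 := t_RTA1 t_CUMA

theorem rta2 : S_RTA2 := t_RTA2 t_CUMA rdda vafa rta1

theorem gfe (r : ℕ) : GFE (⊤ : Subgroup (SU (r + 1))) (DA r) (xS r) :=
  t_GFEN egfa (t_EXPW t_VRING) r

theorem gfl (r : ℕ) (hr : 1 ≤ r) : GFL (⊤ : Subgroup (SU (r + 1))) (2 * ((r + 1 : ℕ) : ℝ))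
    ((r + 1) ^ 2 - 1) (DA r) (MA r) (xS r) (1 / (2 * ((r + 1 : ℕ) : ℝ) ^ 2)) :=
  t_GFLN t_EIGV t_CAS t_CUMA t_TRCA egfa (t_DERA calh egfa) (t_LAPE calh t_CAS) r hr

theorem gfA (r : ℕ) (hr : 2 ≤ r) : GF (⊤ : Subgroup (SU (r + 1))) (2 * ((r + 1 : ℕ) : ℝ))
    ((r + 1) ^ 2 - 1) (DA r) (xS r) (1 / (2 * ((r + 1 : ℕ) : ℝ) ^ 2)) where
  closed := (gfe r).closed
  kpos := by positivity
  dimd := by
    show (r + 1) ^ 2 - 1 = r * (r + 1) + r
    have : (r + 1) ^ 2 = r * (r + 1) + r + 1 := by ring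
    omega
  frame := t_FRAN t_EXP t_CAS (r + 1) (by omega)
  cj := (gfe r).cj
  cls := (gfe r).cls
  xone := (gfe r).xone
  cont := (gfe r).cont
  virt := (gfe r).virt
  tr := (gfe r).tr
  lap := lapn (r + 1) _ _ _ r (DA r) (MA r) (xS r) _ (rdxA r hr).o (rdwA r hr) (rdga r)
    (gfl r (by omega))

theorem gdA (r : ℕ) (hr : 2 ≤ r) : GD (⊤ : Subgroup (SU (r + 1))) (2 * ((r + 1 : ℕ) : ℝ))
    ((r + 1) ^ 2 - 1) (DA r) (PA r) (BA r) r (xS r) (1 / (2 * ((r + 1 : ℕ) : ℝ) ^ 2)) where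
  rdx := rdxA r hr
  gf := gfA r hr
  rtd := rta2 r
  tor := t_TORN t_EIGV egfa vafa r

theorem topn : S_TOPN := t_TOPN t_EXP t_CAS

end SUNA

end STZ
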