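import Pool.Agent.STZ.StmtsK

/-!
# UNQ: uniqueness of antisymmetric solutions of the recursion
-/

set_option autoImplicit false

namespace STZ

open MeasureTheory Matrix

open scoped ComplexConjugate Matrix Real

noncomputable section

namespace UNQ

variable {r : ℕ} {D : RD r}

theorem inv_zero (h : RDW D) {v : Fin r → ℤ} (hv : ∀ w ∈ D.W, w *ᵥ v = v) : v = 0 := by
  obtain ⟨w, hw, h1⟩ := h.str v
  obtain ⟨w', hw', h2⟩ := h.str (-v)
  funext i
  have h3 := h1 i
  have h4 := h2 i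
  rw [hv w hw] at h3
  rw [Matrix.mulVec_neg, hv w' hw', Pi.neg_apply] at h4
  rw [Pi.zero_apply]
  omega

theorem sum_mul (h : RDW D) {w : Matrix (Fin r) (Fin r) ℤ} (hw : w ∈ D.W) {M : Type}
    [AddCommMonoid M] (g : Matrix (Fin r) (Fin r) ℤ → M) :
    ∑ u ∈ D.W, g (w * u) = ∑ u ∈ D.W, g u := by
  classical
  obtain ⟨w', _, hw'⟩ := h.W_inv w hw
  have hinj : Function.Injective fun u : Matrix (Fin r) (Fin r) ℤ => w * u := by
    intro a b hab
    have h1 : w' * (w * a) = w' * (w * b) := congrArg (fun z => w' * z) hab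
    rw [← mul_assoc, ← mul_assoc, hw', one_mul, one_mul] at h1
    exact h1
  have himg : D.W.image (fun u => w * u) = D.W := by
    apply Finset.eq_of_subset_of_card_le
    · intro u hu
      obtain ⟨a, ha, rfl⟩ := Finset.mem_image.1 hu
      exact h.W_mul w hw a ha
    · rw [Finset.card_image_of_injective _ hinj]
  conv_rhs => rw [← himg]
  rw [Finset.sum_image fun a _ b _ hab => hinj hab]

theorem sum_orbit (h : RDW D) (κ : Fin r → ℤ) : ∑ w ∈ D.W, w *ᵥ κ = 0 := by
  apply inv_zero h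
  intro w hw
  rw [Matrix.mulVec_sum]
  simp only [Matrix.mulVec_mulVec]
  exact sum_mul h hw fun u => u *ᵥ κ

theorem B_nonneg (h : RDW D) (i : Fin r) {l : Fin r → ℤ} (hl : Reg l) :
    0 ≤ l ⬝ᵥ (D.A *ᵥ Pi.single i 1) := by
  have h1 : ∀ w ∈ D.W, l ⬝ᵥ (D.A *ᵥ (w *ᵥ Pi.single i 1)) ≤ l ⬝ᵥ (D.A *ᵥ Pi.single i 1) := by
    intro w hw
    by_cases he : w *ᵥ (Pi.single i 1 : Fin r → ℤ) = Pi.single i 1
    · rw [he]
    · have h2 := h.lt i l hl _ (h.S_W i w hw _ (h.top i).1) he
      rw [h.qf.polar, h.qf.polar, h.Q_W w hw] at h2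
      omega
  have h2 : ∑ w ∈ D.W, l ⬝ᵥ (D.A *ᵥ (w *ᵥ Pi.single i 1)) = 0 := by
    rw [← dotProduct_sum, ← Matrix.mulVec_sum, sum_orbit h, Matrix.mulVec_zero,
      dotProduct_zero]
  have h3 := Finset.sum_le_sum h1
  rw [h2, Finset.sum_const, nsmul_eq_mul] at h3
  by_contra h4
  have h5 : 0 < (D.W.card : ℤ) := by
    have := Finset.card_pos.2 ⟨1, h.W_one⟩
    exact_mod_cast this
  have h6 := mul_neg_of_pos_of_neg h5 (not_le.1 h4)
  omega

theorem Q_nonneg (h : RDW D) (l : Fin r → ℤ) : 0 ≤ D.Q l := by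
  obtain ⟨c, hc, h1⟩ := h.pd
  have h2 := (h1 l).1
  have h3 : (0 : ℝ) ≤ D.Q l := le_trans (mul_nonneg hc.le (sq_nonneg _)) h2
  exact_mod_cast h3

theorem Q_single (h : RDW D) (i : Fin r) : 0 < D.Q (Pi.single i 1) := by
  obtain ⟨c, hc, h1⟩ := h.pd
  have h2 := (h1 (Pi.single i 1)).1
  have h3 : sz (Pi.single i 1 : Fin r → ℤ) - 1 = 1 := by
    unfold sz
    rw [add_sub_cancel_left, Finset.sum_eq_single i]
    · simp
    · intro j _ hj
      rw [Pi.single_eq_of_ne hj]
      simp
    · intro hi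
      exact absurd (Finset.mem_univ i) hi
  rw [h3] at h2
  have h4 : (0 : ℝ) < D.Q (Pi.single i 1) := by nlinarith
  exact_mod_cast h4

theorem Q_step (h : RDW D) (i : Fin r) {l : Fin r → ℤ} (hl : Reg l) :
    D.Q l < D.Q (l + Pi.single i 1) := by
  rw [h.qf.polar]
  have h1 := B_nonneg h i hl
  have h2 := Q_single h i
  omega

/-- induction along `Q` -/
theorem ind (h : RDW D) {P : (Fin r → ℤ) → Prop} (hw : ∀ w ∈ D.W, ∀ l, P (w *ᵥ l) → P l)
    (h0 : ∀ l i, l i = 0 → P l) (h1 : P 1)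
    (hs : ∀ i l, Reg l → P l → (∀ κ ∈ D.S i, κ ≠ Pi.single i 1 → P (l + κ)) →
      P (l + Pi.single i 1)) : ∀ l, P l := by
  have key : ∀ (n : ℕ) (l : Fin r → ℤ), (D.Q l).toNat = n → P l := by
    intro n
    induction n using Nat.strong_induction_on with
    | _ n ih =>
      intro l hn
      obtain ⟨w, hwW, hpos⟩ := h.str l
      apply hw w hwW
      by_cases hz : ∃ i, (w *ᵥ l) i = 0
      · obtain ⟨i, hi⟩ := hz
        exact h0 _ i hi
      have hreg : Reg (w *ᵥ l) := by
        intro i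
        have h2 := hpos i
        have h3 : (w *ᵥ l) i ≠ 0 := fun h3 => hz ⟨i, h3⟩
        omega
      have hQ : D.Q (w *ᵥ l) = D.Q l := h.Q_W w hwW l
      generalize hm : w *ᵥ l = m at hreg hQ
      by_cases hm1 : m = 1
      · rw [hm1]
        exact h1
      obtain ⟨i, hi⟩ : ∃ i, 2 ≤ m i := by
        by_contra hno
        apply hm1
        funext i
        have h2 := hreg i
        have h3 : ¬ 2 ≤ m i := fun h3 => hno ⟨i, h3⟩
        rw [Pi.one_apply]
        omega
      set l' : Fin r → ℤ := m - Pi.single i 1 with hl'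
      have hml : m = l' + Pi.single i 1 := by rw [hl', sub_add_cancel]
      have hreg' : Reg l' := by
        intro j
        rw [hl', Pi.sub_apply]
        by_cases hj : j = i
        · subst hj
          rw [Pi.single_eq_same]
          omega
        · rw [Pi.single_eq_of_ne hj]
          have := hreg j
          omega
      have hQm : D.Q (l' + Pi.single i 1) = D.Q l := by rw [← hml, hQ]
      have hlt : ∀ l'', D.Q l'' < D.Q (l' + Pi.single i 1) → P l'' := by
        intro l'' h2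
        refine ih (D.Q l'').toNat ?_ l'' rfl
        have h3 := Q_nonneg h l''
        rw [hQm] at h2
        omega
      rw [hml]
      exact hs i l' hreg' (hlt l' (Q_step h i hreg'))
        fun κ hκ hne => hlt _ (h.lt i l' hreg' κ hκ hne)
  intro l
  exact key _ l rfl

/-- the rule, solved for the top term -/
theorem rule' (h : RDW D) (i : Fin r) (x : Fin r → ℂ) (φ : (Fin r → ℤ) → ℂ)
    (hr : ∀ i l, x i * φ l = ∑ κ ∈ D.S i, (D.P i κ : ℂ) * φ (l + κ)) (l : Fin r → ℤ) :
    φ (l + Pi.single i 1) = x i * φ l -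
      ∑ κ ∈ (D.S i).erase (Pi.single i 1), (D.P i κ : ℂ) * φ (l + κ) := by
  rw [hr i l, ← Finset.add_sum_erase _ _ (h.top i).1, (h.top i).2]
  push_cast
  ring

/-- antisymmetric functions vanish on the walls -/
theorem wall (h : RDW D) (φ : (Fin r → ℤ) → ℂ)
    (ha : ∀ w ∈ D.W, ∀ l, φ (w *ᵥ l) = (w.det : ℂ) * φ l) (l : Fin r → ℤ) (i : Fin r)
    (hi : l i = 0) : φ l = 0 := by
  obtain ⟨w, hw, hd, hf⟩ := h.refl i
  have h1 := ha w hw l
  rw [hf l hi, hd] at h1
  push_cast at h1
  have h2 : φ l + φ l = 0 := by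
    nth_rewrite 1 [h1]
    ring
  have h3 : (2 : ℂ) * φ l = 0 := by
    rw [two_mul]
    exact h2
  rcases mul_eq_zero.1 h3 with h4 | h4
  · norm_num at h4
  · exact h4

end UNQ

open UNQ in
theorem t_UNQ : S_UNQ := by
  intro r D h x φ φ' ha ha' h1 hr hr'
  have key : ∀ l, φ l = φ' l := by
    refine ind h ?_ ?_ h1 ?_
    · intro w hw l hl
      rw [ha w hw, ha' w hw] at hl
      have hd : (w.det : ℂ) ≠ 0 := by
        rcases h.W_det w hw with h2 | h2
        · rw [h2]
          norm_num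
        · rw [h2]
          norm_num
      exact mul_left_cancel₀ hd hl
    · intro l i hi
      rw [wall h φ ha l i hi, wall h φ' ha' l i hi]
    · intro i l _ hl hκ
      rw [rule' h i x φ hr, rule' h i x φ' hr', hl]
      refine congrArg (fun z => x i * φ' l - z) (Finset.sum_congr rfl fun κ hm => ?_)
      rw [hκ κ (Finset.mem_of_mem_erase hm) (Finset.ne_of_mem_erase hm)]
  funext l
  exact key l

end

end STZ
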