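import Pool.Agent.STZ.StmtsY

/-!
# The Weyl character formula
-/

namespace STZ

open MeasureTheory Matrix

open scoped ComplexConjugate Matrix Real

noncomputable section

namespace WCF

theorem cont_dz {r : ℕ} (κ : Fin r → ℤ) : Continuous fun θ : Fin r → ℝ => dz κ θ := by
  unfold dz
  fun_prop

theorem cont_eu : Continuous eu := by
  unfold eu
  fun_prop

theorem cont_XT {r : ℕ} (D : RD r) : Continuous fun θ : Fin r → ℝ => XT D θ := by
  refine continuous_pi fun i => ?_
  unfold XT
  refine continuous_finsetSum _ fun κ _ => ?_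
  exact continuous_const.mul (cont_eu.comp (cont_dz κ))

theorem cont_aeval {r : ℕ} (F : MvPolynomial (Fin r) ℤ) :
    Continuous fun x : Fin r → ℂ => MvPolynomial.aeval x F := by
  have h : (fun x : Fin r → ℂ => MvPolynomial.aeval x F) =
      fun x => MvPolynomial.eval x (MvPolynomial.map (algebraMap ℤ ℂ) F) := by
    funext x
    rw [MvPolynomial.eval_map, MvPolynomial.aeval_def]
  rw [h]
  exact MvPolynomial.continuous_eval _

end WCF

open WCF in
theorem t_WCF : M_WCF := by
  intro hU hI hD hA r D P B h hX hR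
  have hA1 := hA r D P B h hX hR
  have hc : ∀ l, Continuous fun θ => D.ψ (XT D θ) l := by
    intro l
    obtain ⟨F, hF⟩ := (hI r D hX.o).1 l
    have e : (fun θ => D.ψ (XT D θ) l) = fun θ => MvPolynomial.aeval (XT D θ) F := by
      funext θ
      exact hF _
    rw [e]
    exact (cont_aeval F).comp (cont_XT D)
  refine ⟨hc, fun l θ => ?_⟩
  have key := (hD r D P B h hR).2
    (fun θ => D.ψ (XT D θ) l * AT D 1 θ - AT D l θ)
    (((hc l).mul (hA1.cont 1)).sub (hA1.cont l)) ?_ θ
  · exact sub_eq_zero.1 key
  · intro θ hθ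
    have hne : AT D 1 θ ≠ 0 := (hA1.ne θ).2 hθ
    have hu := hU r D hX.w (XT D θ) (D.ψ (XT D θ)) (fun l => AT D l θ / AT D 1 θ)
      (fun w hw l => hX.p.anti w hw _ l)
      (fun w hw l => by
        rw [hA1.anti w hw l θ, mul_div_assoc])
      (by rw [hX.p.one, div_self hne])
      (fun i l => hX.p.rule i _ l)
      (fun i l => by
        rw [← mul_div_assoc, hA1.rule i l θ, Finset.sum_div]
        exact Finset.sum_congr rfl fun κ _ => mul_div_assoc _ _ _)
    have hl := congrFun hu l
    rw [hl, div_mul_cancel₀ _ hne, sub_self]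

end

end STZ
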