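import Pool.Agent.STZ.SUNA
import Pool.Agent.STZ.WWF
import Pool.Agent.STZ.SHFT
import Pool.Agent.STZ.ANIW
import Pool.Agent.STZ.WEYX
import Pool.Agent.STZ.WEYY
import Pool.Agent.STZ.ABEY
import Pool.Agent.STZ.WCLF
import Pool.Agent.STZ.WCLY
import Pool.Agent.STZ.PSIM
import Pool.Agent.STZ.FEJA
import Pool.Agent.STZ.FEJB
import Pool.Agent.STZ.CAUC
import Pool.Agent.STZ.FRCN
import Pool.Agent.STZ.LOCI
import Pool.Agent.STZ.INTJ
import Pool.Agent.STZ.GSUY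
import Pool.Agent.STZ.TTY
import Pool.Agent.STZ.ETAF
import Pool.Agent.STZ.NSUM
import Pool.Agent.STZ.NBDY
import Pool.Agent.STZ.THBY
import Pool.Agent.STZ.HPRY
import Pool.Agent.STZ.HBDY
import Pool.Agent.STZ.SCHW
import Pool.Agent.STZ.DENS
import Pool.Agent.STZ.GDVA
import Pool.Agent.STZ.FANT
import Pool.Agent.STZ.UNQ
import Pool.Agent.STZ.ATF
import Pool.Agent.STZ.WCF
import Pool.Agent.STZ.SUPY
import Pool.Agent.STZ.KOP
import Pool.Agent.STZ.KYFG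
import Pool.Agent.STZ.LEV
import Pool.Agent.STZ.LOCY
import Pool.Agent.STZ.ALLX
import Pool.Agent.STZ.STRY
import Pool.Agent.STZ.RTEA

/-!
# The upper bound for `SU(n)`, `n ≥ 4`
-/

namespace STZ

open MeasureTheory Matrix

namespace SUNB

theorem wint : S_WINT := t_WINT t_WPT

theorem loci : S_LOCI := t_LOCI t_WPT t_WWF t_FRCN

theorem intj : S_INTJ := t_INTJ t_WPT wint t_WWF loci

theorem gsuy : S_GSUY := t_GSUY t_WWF intj

theorem tty : S_TTY := t_TTY t_KB t_YOUNG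

theorem aniw : S_ANIW := t_ANIW t_WWF t_SHFT

theorem weyy : S_WEYY := t_WEYY t_GEO aniw

theorem weyx : S_WEYX := t_WEYX t_GEO

theorem etaf : S_ETAF := t_ETAF t_PSIM

theorem nsum : S_NSUM := t_NSUM t_FEJA etaf

theorem nbdy : S_NBDY := t_NBDY t_WWF weyy t_ABEY t_WCLY t_PSIM t_FEJA

theorem thby : S_THBY := t_THBY t_WWF weyx t_ABEY t_WCLF t_WCLY t_PSIM

theorem hpry : S_HPRY := t_HPRY t_FEJA etaf

theorem fejb : S_FEJB := t_FEJB t_FEJA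

theorem hbdy : S_HBDY := t_HBDY t_CAUC thby hpry fejb

theorem gdva : S_GDVA := t_GDVA t_DENS t_SCHW

theorem wcf : S_WCF := t_WCF t_UNQ t_INTX t_DENS t_ATF

theorem supy : S_SUPY := t_SUPY t_DENS t_ATF wcf nsum hbdy gdva t_FANT

theorem kyfg : S_KYFG :=
  t_KYFG t_WWF keri t_INTX SUNA.irrx etaf nsum nbdy supy (t_KOP t_KB)

theorem locy : S_LOCY :=
  t_LOCY t_KB (t_BERN t_KB) keri t_WWF SUNA.irrx kyfg gsuy tty t_LEV

theorem allx : S_ALLX := t_ALLX t_NQ t_SCH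

theorem stry : S_STRY := t_STRY t_NQ t_KB t_HAAR keri SUNA.irrx SUNA.eigx allx locy

theorem rtea : S_RTEA := t_RTEA t_CUMA SUNA.rta1

/-- the estimate on `SU(n)` for `n ≥ 4` and `p > 2 + 8/(n² - 1)`, `p > 8/(n - 1)` -/
theorem main (n : ℕ) (hn : 4 ≤ n) (p : ℝ) (hp1 : 2 + 8 / ((n : ℝ) ^ 2 - 1) < p)
    (hp2 : 8 / ((n : ℝ) - 1) < p) : StrG (⊤ : Subgroup (SU n)) (2 * (n : ℝ)) (n ^ 2 - 1) p := by
  obtain ⟨r, rfl⟩ : ∃ r, n = r + 1 := ⟨n - 1, by omega⟩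
  have hr : 3 ≤ r := by omega
  have e1 : (((r + 1) ^ 2 - 1 : ℕ) : ℝ) = (((r + 1 : ℕ) : ℝ)) ^ 2 - 1 := by
    rw [Nat.cast_sub (by nlinarith), Nat.cast_pow, Nat.cast_one]
  have e2 : (((r + 1 : ℕ) : ℝ)) - 1 = (r : ℝ) := by
    push_cast
    ring
  refine stry (r + 1) ⊤ _ _ r (DA r) (PA r) (BA r) r (xS r) _ hr (SUNA.gdA r (by omega)) (rtea r) p ?_ ?_
  · rw [e1]
    exact hp1
  · rw [← e2]
    exact hp2

/-- the upper bound for `SU(n)`, `n ≥ 4`, for all data -/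
theorem upper (n : ℕ) (hn : 4 ≤ n) (p : ℝ) (hp1 : 2 + 8 / ((n : ℝ) ^ 2 - 1) < p)
    (hp2 : 8 / ((n : ℝ) - 1) < p) (μ : Measure (SU n)) (h1 : IsProbabilityMeasure μ)
    (h2 : μ.IsMulLeftInvariant) (a b : ℝ) (hab : a ≤ b) : ∃ C : ℝ, StrIneqH n μ p a b C := by
  have hn4 : (4 : ℝ) ≤ n := by exact_mod_cast hn
  have hp : 0 < p := by
    have : 0 < 8 / ((n : ℝ) - 1) := div_pos (by norm_num) (by linarith)
    linarith
  exact SUNA.topn n p (by omega) hp (main n hn p hp1 hp2) μ h1 h2 a b hab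

end SUNB

end STZ
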