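import Pool.Agent.STZ.StmtsY

/-!
# SUPC: the support of the coefficients `csh`
-/

namespace STZ

open MeasureTheory Matrix

open scoped ComplexConjugate Matrix Real

noncomputable section

namespace SUPC

lemma sz_sub_comm {r : ℕ} (a b : Fin r → ℤ) : sz (a - b) = sz (b - a) := by
  unfold sz
  congr 1
  refine Finset.sum_congr rfl (fun i _ => ?_)
  simp only [Pi.sub_apply, Int.cast_sub]
  exact abs_sub_comm _ _

lemma one_le_sz {r : ℕ} (a : Fin r → ℤ) : 1 ≤ sz a := by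
  unfold sz
  have : 0 ≤ ∑ i, |(a i : ℝ)| := Finset.sum_nonneg (fun i _ => abs_nonneg _)
  linarith

lemma coord_le {r : ℕ} (a : Fin r → ℤ) (i : Fin r) : |(a i : ℝ)| ≤ sz a - 1 := by
  unfold sz
  have h : |(a i : ℝ)| ≤ ∑ j, |(a j : ℝ)| :=
    Finset.single_le_sum (f := fun j => |(a j : ℝ)|) (fun j _ => abs_nonneg _) (Finset.mem_univ i)
  linarith

end SUPC

theorem t_SUPC : M_SUPC := by
  intro hSMF r D P B h hX hT
  obtain ⟨C0, hC0, hS⟩ := hSMF r D P B h hX hT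
  obtain ⟨c, hc, hpd⟩ := hX.w.pd
  refine ⟨⌈C0 / c⌉₊, ?_⟩
  intro M l ν hM hl hν hne i
  -- some term is not zero
  have hex : ∃ w ∈ D.W, sh D P M (w *ᵥ ν - l) ≠ 0 := by
    by_contra hcon
    push Not at hcon
    apply hne
    unfold csh
    refine Finset.sum_eq_zero (fun w hw => ?_)
    rw [hcon w hw, mul_zero]
  obtain ⟨w, hw, hwne⟩ := hex
  have h1 : sz (w *ᵥ ν - l) ≤ C0 * M := by
    by_contra hcon
    push Not at hcon
    exact hwne ((hS M hM).1 _ hcon)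
  have hchm : D.Q (l - ν) ≤ D.Q (l - w *ᵥ ν) :=
    hX.w.chm l ν (fun j => by have := hl j; omega) (fun j => by have := hν j; omega) w hw
  have h2 := (hpd (l - ν)).1
  have h3 := (hpd (l - w *ᵥ ν)).2
  rw [SUPC.sz_sub_comm l (w *ᵥ ν)] at h3
  have h4 : (D.Q (l - ν) : ℝ) ≤ D.Q (l - w *ᵥ ν) := by exact_mod_cast hchm
  have hs1 := SUPC.one_le_sz (w *ᵥ ν - l)
  have hs2 := SUPC.one_le_sz (l - ν)
  have h5 : (sz (w *ᵥ ν - l) - 1) ^ 2 ≤ (C0 * M) ^ 2 := by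
    apply pow_le_pow_left₀ (by linarith)
    linarith
  have h6 : (c * (sz (l - ν) - 1)) ^ 2 ≤ (C0 * M) ^ 2 := by
    calc (c * (sz (l - ν) - 1)) ^ 2 = c * (c * (sz (l - ν) - 1) ^ 2) := by ring
      _ ≤ c * D.Q (l - ν) := mul_le_mul_of_nonneg_left h2 hc.le
      _ ≤ c * D.Q (l - w *ᵥ ν) := mul_le_mul_of_nonneg_left h4 hc.le
      _ ≤ (sz (w *ᵥ ν - l) - 1) ^ 2 := h3
      _ ≤ (C0 * M) ^ 2 := h5
  have hM0 : (0 : ℝ) ≤ M := Nat.cast_nonneg M
  have h7 : c * (sz (l - ν) - 1) ≤ C0 * M :=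
    (pow_le_pow_iff_left₀ (mul_nonneg hc.le (by linarith)) (mul_nonneg hC0 hM0) two_ne_zero).1 h6
  have h8 : sz (l - ν) - 1 ≤ C0 / c * M := by
    rw [div_mul_eq_mul_div, le_div_iff₀ hc]
    linarith
  have h9 := SUPC.coord_le (l - ν) i
  have h10 : C0 / c * M ≤ (⌈C0 / c⌉₊ : ℝ) * M :=
    mul_le_mul_of_nonneg_right (Nat.le_ceil _) hM0
  have h11 : |((l i : ℝ) - ν i)| ≤ (⌈C0 / c⌉₊ : ℝ) * M := by
    have h12 : (((l - ν) i : ℤ) : ℝ) = (l i : ℝ) - ν i := by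
      simp
    rw [← h12]
    linarith
  exact_mod_cast h11

end

end STZ
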