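import Pool.Agent.STZ.StmtsT

/-!
# Statements of the modules, block A: reproducing kernels

`M` is a compact metrizable space (compact, Hausdorff, second countable) with its Borel `σ`-algebra and a
probability measure `μ`. All functions are continuous, so they are bounded and all integrals exist; the product
measures are no problem (`Continuous.integrable_of_hasCompactSupport`, `integral_integral_swap`,
`continuous_parametric_integral_of_continuous`). Module `X` proves `theorem t_X : M_X` (or `t_X : S_X` if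
there is no `M_X`) in the file `Pool/Agent/STZ/X.lean`, namespace `STZ`.
-/

namespace STZ

open MeasureTheory Matrix

open scoped ComplexConjugate Matrix Real

noncomputable section

/-- a family of reproducing kernels of orthogonal spaces `V a` of functions on `M` -/
structure Ker {M : Type} [TopologicalSpace M] [MeasurableSpace M] (μ : Measure M) {ι : Type}
    (K : ι → M → M → ℂ) : Prop where
  cont : ∀ a, Continuous fun z : M × M => K a z.1 z.2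
  herm : ∀ a x y, K a x y = conj (K a y x)
  rep : ∀ a x z, ∫ y, K a x y * K a y z ∂μ = K a x z
  orth : ∀ a b x z, a ≠ b → ∫ y, K a x y * K b y z ∂μ = 0

/-- `u ∈ V a`, where `k = K a` -/
def Mem {M : Type} [TopologicalSpace M] [MeasurableSpace M] (μ : Measure M) (k : M → M → ℂ)
    (u : M → ℂ) : Prop :=
  Continuous u ∧ ∀ x, ∫ y, k x y * u y ∂μ = u x

/-- the projection of `u` on the sum of the `V a`, `a ∈ S` -/
def Pr {M : Type} [MeasurableSpace M] (μ : Measure M) {ι : Type} (K : ι → M → M → ℂ)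
    (S : Finset ι) (u : M → ℂ) (x : M) : ℂ := ∑ a ∈ S, ∫ y, K a x y * u y ∂μ

/-- the square of the norm in `L²` -/
def nsq {M : Type} [MeasurableSpace M] (μ : Measure M) (u : M → ℂ) : ℝ := ∫ x, ‖u x‖ ^ 2 ∂μ

/-- elementary facts -/
structure KBF {M : Type} [TopologicalSpace M] [MeasurableSpace M] (μ : Measure M) {ι : Type}
    (K : ι → M → M → ℂ) : Prop where
  cont : ∀ (S : Finset ι) (u : M → ℂ), Continuous u → Continuous (Pr μ K S u)
  mem : ∀ (a : ι) (u : M → ℂ), Continuous u → Mem μ (K a) (Pr μ K {a} u)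
  adj : ∀ (S : Finset ι) (u v : M → ℂ), Continuous u → Continuous v →
    ∫ x, conj (Pr μ K S v x) * u x ∂μ = ∫ x, conj (v x) * Pr μ K S u x ∂μ
  idem : ∀ (S : Finset ι) (u : M → ℂ), Continuous u → Pr μ K S (Pr μ K S u) = Pr μ K S u
  piece : ∀ (S : Finset ι) (a : ι) (u : M → ℂ), a ∈ S → Continuous u →
    Pr μ K {a} (Pr μ K S u) = Pr μ K {a} u
  piece0 : ∀ (S : Finset ι) (a : ι) (u : M → ℂ), a ∉ S → Continuous u →
    Pr μ K {a} (Pr μ K S u) = 0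
  pyth : ∀ (S : Finset ι) (u : M → ℂ), Continuous u →
    nsq μ (Pr μ K S u) = ∑ a ∈ S, nsq μ (Pr μ K {a} u)
  inn : ∀ (S : Finset ι) (u : M → ℂ), Continuous u →
    ∫ x, conj (u x) * Pr μ K S u x ∂μ = (nsq μ (Pr μ K S u) : ℂ)
  bess : ∀ (S : Finset ι) (u : M → ℂ), Continuous u → nsq μ (Pr μ K S u) ≤ nsq μ u
  fix : ∀ (S : Finset ι) (a : ι) (u : M → ℂ), a ∈ S → Mem μ (K a) u → Pr μ K S u = u
  kill : ∀ (S : Finset ι) (a : ι) (u : M → ℂ), a ∉ S → Mem μ (K a) u → Pr μ K S u = 0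
  orth : ∀ (S : Finset ι) (u : ι → M → ℂ), (∀ a ∈ S, Mem μ (K a) (u a)) →
    nsq μ (fun x => ∑ a ∈ S, u a x) = ∑ a ∈ S, nsq μ (u a)

/-- KB. Linear algebra and Fubini. `∫ z, K a x z * (∫ y, K b z y * u y)` is `∫ y, K a x y * u y` if `a = b` and `0`
otherwise (Fubini and `rep`, `orth`); `adj` is Fubini and `herm`; the rest follows (`inn`: `Pr S u = Pr S (Pr S u)` and
`adj`; `bess`: `0 ≤ nsq (u - Pr S u) = nsq u - nsq (Pr S u)`). -/
def S_KB : Prop := ∀ (M : Type) [TopologicalSpace M] [CompactSpace M] [T2Space M]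
  [SecondCountableTopology M] [MeasurableSpace M] [BorelSpace M] (μ : Measure M)
  [IsProbabilityMeasure μ] (ι : Type) (K : ι → M → M → ℂ), Ker μ K → KBF μ K

/-- STAR. The key inequality. Let `W(y, z) = ∫ x, conj (w x) K a x y K b x z`. As `u x = ∫ K a x y u y`, `v x = ∫ K b x z v z`,
Fubini gives `∫ conj w u v = ∬ W(y,z) u y v z`, so by Cauchy-Schwarz on `M × M`:
`|∫ conj w u v|² ≤ (∬ |W|²) (nsq u) (nsq v)`. And `∬ W conj W = ∬ conj (w x) w(x') [∫ K a x y K a y x' dy] [∫ K b x z K b z x' dz]`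
`= ∬ conj (w x) w(x') K a x x' K b x x' = ∑ c, β c ∫ conj (w x) (Pr {c} w) x = ∑ c, β c nsq (Pr {c} w)` (`herm`, `rep`, the
hypothesis, `KBF.inn`). -/
def S_STAR : Prop := ∀ (M : Type) [TopologicalSpace M] [CompactSpace M] [T2Space M]
  [SecondCountableTopology M] [MeasurableSpace M] [BorelSpace M] (μ : Measure M)
  [IsProbabilityMeasure μ] (ι : Type) (K : ι → M → M → ℂ), Ker μ K →
  ∀ (a b : ι) (T : Finset ι) (β : ι → ℂ), (∀ x y, K a x y * K b x y = ∑ c ∈ T, β c * K c x y) →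
  ∀ u v w : M → ℂ, Mem μ (K a) u → Mem μ (K b) v → Continuous w →
    ‖∫ x, conj (w x) * (u x * v x) ∂μ‖ ^ 2 ≤
      (∑ c ∈ T, ‖β c‖ * nsq μ (Pr μ K {c} w)) * (nsq μ u * nsq μ v)

def M_STAR : Prop := S_KB → S_STAR

/-- PRD. Products. First claim: STAR for `w = Pr S (u v)`: `nsq w = ∫ conj w (u v)` (`KBF.inn`), and
`Pr {c} w` is `0` for `c ∉ S`, so `(nsq w)² ≤ B (nsq w) (nsq u) (nsq v)`. Second claim: STAR for `w = u v - Pr T (u v)`: `Pr {c} w = 0`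
for `c ∈ T`, so `∫ conj w u v = 0`, and `∫ conj w Pr T (u v) = ∫ conj (Pr T w) (u v) = 0`, so `nsq w = 0`, and `w = 0` as `w` is
continuous and `μ` is positive on nonempty open sets. -/
def S_PRD : Prop := ∀ (M : Type) [TopologicalSpace M] [CompactSpace M] [T2Space M]
  [SecondCountableTopology M] [MeasurableSpace M] [BorelSpace M] (μ : Measure M)
  [IsProbabilityMeasure μ] [μ.IsOpenPosMeasure] (ι : Type) (K : ι → M → M → ℂ), Ker μ K →
  ∀ (a b : ι) (T : Finset ι) (β : ι → ℂ), (∀ x y, K a x y * K b x y = ∑ c ∈ T, β c * K c x y) →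
  ∀ u v : M → ℂ, Mem μ (K a) u → Mem μ (K b) v →
    (∀ (S : Finset ι) (B : ℝ), 0 ≤ B → (∀ c ∈ S, c ∈ T → ‖β c‖ ≤ B) →
      nsq μ (Pr μ K S fun x => u x * v x) ≤ B * (nsq μ u * nsq μ v)) ∧
    Pr μ K T (fun x => u x * v x) = fun x => u x * v x

def M_PRD : Prop := S_KB → S_STAR → S_PRD

/-- BERN. Let `v = Pr S u`. `v x = ∫ k x y v y`, `k = ∑ c ∈ S, K c`; Cauchy-Schwarz, and `∫ |k x y|² dy = ∫ k x y k y x dy = k x x`. -/
def S_BERN : Prop := ∀ (M : Type) [TopologicalSpace M] [CompactSpace M] [T2Space M]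
  [SecondCountableTopology M] [MeasurableSpace M] [BorelSpace M] (μ : Measure M)
  [IsProbabilityMeasure μ] (ι : Type) (K : ι → M → M → ℂ), Ker μ K →
  ∀ (S : Finset ι) (u : M → ℂ) (x : M), Continuous u →
    ‖Pr μ K S u x‖ ^ 2 ≤ (∑ c ∈ S, ‖K c x x‖) * nsq μ (Pr μ K S u)

def M_BERN : Prop := S_KB → S_BERN

/-- `F` is continuous on `ℝ × M` -/
def JC {M : Type} [TopologicalSpace M] (F : ℝ → M → ℂ) : Prop :=
  Continuous fun z : ℝ × M => F z.1 z.2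

/-- the norm in `L^q([0, 1] × M)` -/
def nq {M : Type} [MeasurableSpace M] (μ : Measure M) (q : ℝ) (F : ℝ → M → ℂ) : ℝ :=
  (∫ t in (0 : ℝ)..1, ∫ x, ‖F t x‖ ^ q ∂μ) ^ (1 / q)

/-- facts about `nq`, for jointly continuous functions -/
structure NQF {M : Type} [TopologicalSpace M] [MeasurableSpace M] (μ : Measure M) : Prop where
  cont : ∀ (q : ℝ) (F : ℝ → M → ℂ), 0 < q → JC F → Continuous fun t => ∫ x, ‖F t x‖ ^ q ∂μ
  tri : ∀ (q : ℝ) (ι : Type) (s : Finset ι) (F : ι → ℝ → M → ℂ), 1 ≤ q → (∀ i ∈ s, JC (F i)) →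
    nq μ q (fun t x => ∑ i ∈ s, F i t x) ≤ ∑ i ∈ s, nq μ q (F i)
  hol : ∀ (q a b : ℝ) (F G : ℝ → M → ℂ), 1 ≤ q → 0 < a → 0 < b → 1 / q = 1 / a + 1 / b → JC F → JC G →
    nq μ q (fun t x => F t x * G t x) ≤ nq μ a F * nq μ b G
  sq : ∀ (q : ℝ) (F : ℝ → M → ℂ), 0 < q → nq μ (2 * q) F ^ 2 = nq μ q (fun t x => F t x ^ 2)

/-- NQ. `nq μ q F` is `eLpNorm` of the function `F` on `ℝ × M` for the measure `(volume restricted to (0, 1]) × μ`:
`eLpNorm_add_le` or `eLpNorm_sum_le`, and Hölder's inequality (`eLpNorm_smul_le_mul_eLpNorm` or the like), or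
directly from `Real.Lp_add_le`-type inequalities for integrals. -/
def S_NQ : Prop := ∀ (M : Type) [TopologicalSpace M] [CompactSpace M] [T2Space M]
  [SecondCountableTopology M] [MeasurableSpace M] [BorelSpace M] (μ : Measure M)
  [IsProbabilityMeasure μ], NQF μ

/-- the size of a weight -/
def sz {r : ℕ} (x : Fin r → ℤ) : ℝ := 1 + ∑ i, |(x i : ℝ)|

/-- the data of a group: `w a` is the highest weight of `a`, `K a x x` (the square of the dimension) is at most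
`C sz ^ e`, and the products `K a * K b` are combinations of the `K c` with bounds for the coefficients; `τ` is the
duality of weights -/
structure SData {M : Type} [TopologicalSpace M] [MeasurableSpace M] (μ : Measure M) {ι : Type}
    (K : ι → M → M → ℂ) (r : ℕ) (e : ℝ) (w : ι → Fin r → ℤ) (τ : Equiv.Perm (Fin r)) (C : ℝ) :
    Prop where
  ker : Ker μ K
  inj : Function.Injective w
  one : 1 ≤ C
  enn : 0 ≤ e
  diag : ∀ a x, ‖K a x x‖ ≤ C * sz (w a) ^ e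
  prod : ∀ a b, ∃ (T : Finset ι) (β : ι → ℂ),
    (∀ x y, K a x y * K b x y = ∑ c ∈ T, β c * K c x y) ∧
    ∀ c ∈ T, ‖β c‖ ≤ C * max (sz (w a)) (sz (w b)) ^ e / sz (w c) ^ r ∧
      (∀ i, |((w a i - w b (τ i) : ℤ) : ℝ)| ≤ C * sz (w c)) ∧
      sz (w c) ≤ C * max (sz (w a)) (sz (w b))

/-- the part of the data `F` with weights in the box `bx z R`, at the time `t` -/
def ub {M : Type} {ι : Type} {r : ℕ} (w : ι → Fin r → ℤ) (Q : (Fin r → ℤ) → ℤ) (F : Finset ι)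
    (u : ι → M → ℂ) (z : Fin r → ℤ) (R : ℕ) (t : ℝ) (x : M) : ℂ :=
  ∑ a ∈ F.filter (fun a => w a ∈ bx z R), eu (t * Q (w a)) * u a x

/-- the whole of the data `F` at the time `t` -/
def uw {M : Type} {ι : Type} {r : ℕ} (w : ι → Fin r → ℤ) (Q : (Fin r → ℤ) → ℤ) (F : Finset ι)
    (u : ι → M → ℂ) (t : ℝ) (x : M) : ℂ :=
  ∑ a ∈ F, eu (t * Q (w a)) * u a x

/-- the squared norm of the part of the data with weights in the box -/
def nb {M : Type} [MeasurableSpace M] (μ : Measure M) {ι : Type} {r : ℕ} (w : ι → Fin r → ℤ)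
    (F : Finset ι) (u : ι → M → ℂ) (z : Fin r → ℤ) (R : ℕ) : ℝ :=
  ∑ a ∈ F.filter (fun a => w a ∈ bx z R), nsq μ (u a)

/-- PIECE. Interaction of two boxes of side `R` with output frequencies about `R`. Let `H = L²(M, μ)`, `G x y` the class of
`Pr S (u a * u b)` if `x = w a`, `y = w b` (and `0` if there are no such `a`, `b ∈ F`): by PRD `‖G x y‖² ≤ C N^e R^(-r) nsq (u a) nsq (u b)`.
For fixed `t` let `g = Pr S (ub z * ub z')`; as functions `g = ∑ e(t(Q x + Q y)) G x y`. By BERN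
`|g|² ≤ (∑ c ∈ S, C (2R)^e) ‖g‖₂² ≤ C R^(r+e) ‖g‖₂²` (`w` is injective, `S` has at most `(4R+1)^r` elements), so
`∫ |g|^q ≤ (sup |g|)^(q-2) ‖g‖₂² ≤ (C R^(r+e))^((q-2)/2) ‖g‖₂^q`. Integrate over `t` with TIME:
`≤ (C R^(r+e))^((q-2)/2) C R^(rq-2) (C N^e R^(-r))^(q/2) (nb z * nb z')^(q/2)`. Take the `q`-th root. -/
def S_PIECE : Prop := ∀ (M : Type) [TopologicalSpace M] [CompactSpace M] [T2Space M]
  [SecondCountableTopology M] [MeasurableSpace M] [BorelSpace M] (μ : Measure M)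
  [IsProbabilityMeasure μ] [μ.IsOpenPosMeasure] (ι : Type) (K : ι → M → M → ℂ) (r : ℕ) (e : ℝ)
  (w : ι → Fin r → ℤ) (τ : Equiv.Perm (Fin r)) (C : ℝ), SData μ K r e w τ C →
  ∀ (Q : (Fin r → ℤ) → ℤ) (A : Matrix (Fin r) (Fin r) ℤ), QF Q A → 2 ≤ r → ∀ q : ℝ, 2 < q →
  ∃ D : ℝ, 0 ≤ D ∧ ∀ (F : Finset ι) (u : ι → M → ℂ), (∀ a ∈ F, Mem μ (K a) (u a)) →
    ∀ N : ℝ, (∀ a ∈ F, sz (w a) ≤ N) → ∀ (R : ℕ) (S : Finset ι), 1 ≤ R →
      (∀ c ∈ S, R ≤ sz (w c) ∧ sz (w c) ≤ 2 * R) → ∀ z z' : Fin r → ℤ,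
      nq μ q (fun t => Pr μ K S fun x => ub w Q F u z R t x * ub w Q F u z' R t x) ≤
        D * N ^ (e / 2) * (R : ℝ) ^ ((2 * r + e) / 2 - (r + e + 2) / q) *
          √(nb μ w F u z R) * √(nb μ w F u z' R)

def M_PIECE : Prop := S_KB → S_PRD → S_BERN → S_TIME → S_PIECE

/-- LOC1. Output frequencies about `R`. Every point of `ℤ^r` is in exactly one box `bx (R m) R`, `m ∈ ℤ^r` (`m i = x i / R`). So
`uw = ∑ m ub (R m)`, `uw² = ∑ m m' ub (R m) ub (R m')`. If `w a` is in the box of `m`, `w b` in the box of `m'` and `Pr S (u a * u b) ≠ 0` then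
by PRD (with `B = 0`) there is a `c ∈ S ∩ T`, so `|w a i - w b (τ i)| ≤ 2 C R`, and `|m i - m' (τ i)| ≤ 2 C + 2`. For every `m`
there are at most `L = (4 C + 6)^r` such `m'`, and vice versa. The triangle inequality for `nq`, PIECE and `2 √x √y ≤ x + y` give
the bound `D N^(e/2) R^(...) L ∑ m, nb (R m)`. -/
def S_LOC1 : Prop := ∀ (M : Type) [TopologicalSpace M] [CompactSpace M] [T2Space M]
  [SecondCountableTopology M] [MeasurableSpace M] [BorelSpace M] (μ : Measure M)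
  [IsProbabilityMeasure μ] [μ.IsOpenPosMeasure] (ι : Type) (K : ι → M → M → ℂ) (r : ℕ) (e : ℝ)
  (w : ι → Fin r → ℤ) (τ : Equiv.Perm (Fin r)) (C : ℝ), SData μ K r e w τ C →
  ∀ (Q : (Fin r → ℤ) → ℤ) (A : Matrix (Fin r) (Fin r) ℤ), QF Q A → 2 ≤ r → ∀ q : ℝ, 2 < q →
  ∃ D : ℝ, 0 ≤ D ∧ ∀ (F : Finset ι) (u : ι → M → ℂ), (∀ a ∈ F, Mem μ (K a) (u a)) →
    ∀ N : ℝ, (∀ a ∈ F, sz (w a) ≤ N) → ∀ (R : ℕ) (S : Finset ι), 1 ≤ R →
      (∀ c ∈ S, R ≤ sz (w c) ∧ sz (w c) ≤ 2 * R) →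
      nq μ q (fun t => Pr μ K S fun x => uw w Q F u t x ^ 2) ≤
        D * N ^ (e / 2) * (R : ℝ) ^ ((2 * r + e) / 2 - (r + e + 2) / q) * ∑ a ∈ F, nsq μ (u a)

def M_LOC1 : Prop := S_KB → S_PRD → S_NQ → S_PIECE → S_LOC1

/-- LOC2. Frequencies at most `N`. Let `q = p / 2`; `(nq p uw)² = nq q (uw²)`. Let `T` be the union of the sets `T` of `SData.prod` for all
`a, b ∈ F`; by PRD `uw² = Pr T (uw²)`, and this is the sum over `j` of `Pr (S j) (uw²)`,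
`S j = {c ∈ T : 2^j ≤ sz (w c) < 2^(j+1)}`; only `j` with `2^j ≤ C N` occur. LOC1 with `R = 2^j` and the geometric sum
`∑_(2^j ≤ C N) 2^(j θ) ≤ C' N^θ`, `θ = (2r+e)/2 - (r+e+2)/q > 0` (as `q > 2`, `r ≥ 2`). The total exponent of `N` is
`e/2 + θ = (r+e) - (r+e+2)/q`, and its half is `(r+e)/2 - (r+e+2)/p`. (If `F` is empty all is `0`; otherwise `N ≥ 1`.) -/
def S_LOC2 : Prop := ∀ (M : Type) [TopologicalSpace M] [CompactSpace M] [T2Space M]
  [SecondCountableTopology M] [MeasurableSpace M] [BorelSpace M] (μ : Measure M)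
  [IsProbabilityMeasure μ] [μ.IsOpenPosMeasure] (ι : Type) (K : ι → M → M → ℂ) (r : ℕ) (e : ℝ)
  (w : ι → Fin r → ℤ) (τ : Equiv.Perm (Fin r)) (C : ℝ), SData μ K r e w τ C →
  ∀ (Q : (Fin r → ℤ) → ℤ) (A : Matrix (Fin r) (Fin r) ℤ), QF Q A → 2 ≤ r → ∀ p : ℝ, 4 < p →
  ∃ D : ℝ, 0 ≤ D ∧ ∀ (F : Finset ι) (u : ι → M → ℂ), (∀ a ∈ F, Mem μ (K a) (u a)) →
    ∀ N : ℝ, (∀ a ∈ F, sz (w a) ≤ N) →
      nq μ p (uw w Q F u) ≤
        D * N ^ ((r + e) / 2 - (r + e + 2) / p) * √(∑ a ∈ F, nsq μ (u a))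

def M_LOC2 : Prop := S_KB → S_PRD → S_NQ → S_LOC1 → S_LOC2

/-- SCH. Schur test: `2 x y ≤ x² + y²` and geometric series. -/
def S_SCH : Prop := ∀ δ : ℝ, 0 < δ → ∃ C : ℝ, 0 ≤ C ∧ ∀ (s : Finset ℕ) (a : ℕ → ℝ),
  ∑ j ∈ s, ∑ k ∈ s, |a j * a k| * (2 : ℝ) ^ (-δ * |(j : ℝ) - k|) ≤ C * ∑ j ∈ s, a j ^ 2

/-- ALL. All frequencies. `F j = {a ∈ F : 2^j ≤ sz (w a) < 2^(j+1)}`, `v j = uw (F j)`, `A j = √(∑ a ∈ F j, nsq (u a))`, `s(p) = (r+e)/2 - (r+e+2)/p`.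
`(nq p uw)² = nq (p/2) (uw²) ≤ ∑ j k, nq (p/2) (v j * v k)`. Fix `ε > 0` with `ε < 1/p` and `1/p + ε < 1/4`, and let
`1/p₁ = 1/p + ε`, `1/p₂ = 1/p - ε`, so `p₁, p₂ > 4`. For `j ≥ k`, by Hölder and LOC2 (with `N = 2^(j+1)`):
`nq (p/2) (v j * v k) ≤ nq p₁ (v j) nq p₂ (v k) ≤ C 2^(j s(p₁)) A j 2^(k s(p₂)) A k = C 2^(j s) A j 2^(k s) A k 2^(-(j-k)(r+e+2)ε)`. SCH. -/
def S_ALL : Prop := ∀ (M : Type) [TopologicalSpace M] [CompactSpace M] [T2Space M]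
  [SecondCountableTopology M] [MeasurableSpace M] [BorelSpace M] (μ : Measure M)
  [IsProbabilityMeasure μ] [μ.IsOpenPosMeasure] (ι : Type) (K : ι → M → M → ℂ) (r : ℕ) (e : ℝ)
  (w : ι → Fin r → ℤ) (τ : Equiv.Perm (Fin r)) (C : ℝ), SData μ K r e w τ C →
  ∀ (Q : (Fin r → ℤ) → ℤ) (A : Matrix (Fin r) (Fin r) ℤ), QF Q A → 2 ≤ r → ∀ p : ℝ, 4 < p →
  ∃ D : ℝ, 0 ≤ D ∧ ∀ (F : Finset ι) (u : ι → M → ℂ), (∀ a ∈ F, Mem μ (K a) (u a)) →
    nq μ p (uw w Q F u) ≤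
      D * √(∑ a ∈ F, sz (w a) ^ ((r + e) - 2 * (r + e + 2) / p) * nsq μ (u a))

def M_ALL : Prop := S_NQ → S_SCH → S_LOC2 → S_ALL

end

end STZ
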