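import Pool.Agent.STZ.StmtsR
import Pool.Agent.STZ.Base

/-!
# Statements of the modules, block G: calculus on `SU(n)`

`Base.lean` has the instances (topological group, compact, second countable) and the continuity of entries.
Module `X` proves `theorem t_X : M_X` (or `t_X : S_X` if there is no `M_X`) in the file
`Pool/Agent/STZ/X.lean`, namespace `STZ`.
-/

namespace STZ

open MeasureTheory Matrix

open scoped ComplexConjugate Matrix Real

noncomputable section

/-- facts about the one-parameter groups -/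
structure EXF {n : ℕ} (X : Matrix (Fin n) (Fin n) ℂ) : Prop where
  coe : ∀ t : ℝ, (ex X t).1 = NormedSpace.exp ((t : ℂ) • X)
  add : ∀ s t : ℝ, ex X (s + t) = ex X s * ex X t
  zero : ex X 0 = 1
  cont : Continuous (ex X)
  der : ∀ i j, HasDerivAt (fun t : ℝ => (ex X t).1 i j) (X i j) 0

/-- EXP. `exp (t X)` is in `SU(n)`: unitary, as `(exp A)ᴴ = exp Aᴴ = exp (-A) = (exp A)⁻¹` for `A = t X`. Determinant: `I X` is Hermitian, so
`X = U D U⁻¹` with `D` diagonal (`Matrix.IsHermitian.spectral_theorem`), `exp (t X) = U (exp (t D)) U⁻¹` (`Matrix.exp_conj`, `Matrix.exp_diagonal`),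
`det = exp (t tr D) = exp (t tr X) = 1`. (Or: `t ↦ det (exp (t X))` is a differentiable homomorphism with derivative `tr X` at `0`.)
The rest: `NormedSpace.exp_add_of_commute`, and the derivative of `t ↦ exp (t X)` (`hasDerivAt_exp_smul_const`; choose a norm with
`open scoped Matrix.Norms.Operator` or `attribute [local instance] Matrix.linftyOpNormedRing` etc.; the topology does not change). -/
def S_EXP : Prop := ∀ (n : ℕ) (X : Matrix (Fin n) (Fin n) ℂ), X ∈ su n → EXF X

/-- closure properties of `C1` and `C2`, and rules for the derivatives -/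
structure CALF (n : ℕ) : Prop where
  const : ∀ c : ℂ, C2 (fun _ : SU n => c)
  add : ∀ f h : SU n → ℂ, C2 f → C2 h → C2 (fun g => f g + h g)
  mul : ∀ f h : SU n → ℂ, C2 f → C2 h → C2 (fun g => f g * h g)
  cj : ∀ f : SU n → ℂ, C2 f → C2 (fun g => conj (f g))
  entry : ∀ i j, C2 (fun g : SU n => g.1 i j)
  left : ∀ (h : SU n) (f : SU n → ℂ), C2 f → C2 (fun g => f (h * g))
  add1 : ∀ f h : SU n → ℂ, C1 f → C1 h → C1 (fun g => f g + h g)
  mul1 : ∀ f h : SU n → ℂ, C1 f → C1 h → C1 (fun g => f g * h g)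
  dconst : ∀ (X : Matrix (Fin n) (Fin n) ℂ) (c : ℂ) (g : SU n), dX X (fun _ => c) g = 0
  dadd : ∀ X ∈ su n, ∀ f h : SU n → ℂ, C1 f → C1 h → ∀ g,
    dX X (fun g => f g + h g) g = dX X f g + dX X h g
  dmul : ∀ X ∈ su n, ∀ f h : SU n → ℂ, C1 f → C1 h → ∀ g,
    dX X (fun g => f g * h g) g = dX X f g * h g + f g * dX X h g
  dconj : ∀ X ∈ su n, ∀ f : SU n → ℂ, C1 f → ∀ g,
    dX X (fun g => conj (f g)) g = conj (dX X f g)
  dentry : ∀ X ∈ su n, ∀ (i j : Fin n) (g : SU n), dX X (fun g => g.1 i j) g = (g.1 * X) i j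
  dleft : ∀ X ∈ su n, ∀ (h : SU n) (f : SU n → ℂ), C1 f → ∀ g,
    dX X (fun g => f (h * g)) g = dX X f (h * g)

/-- CALC. By EXP and the rules for derivatives at `t = 0` (`ex X 0 = 1`). For the entries: `(g * ex X t) i j = ∑ k, g i k (ex X t) k j`. -/
def S_CALC : Prop := ∀ n : ℕ, CALF n

def M_CALC : Prop := S_EXP → S_CALC

/-- GREEN. First claim: `t ↦ f (g ex X t)` has the derivative `dX X f (g ex X t)` at every `t` (`EXF.add`), which is continuous, so
`f (g ex X 1) - f g = ∫ t in 0..1, dX X f (g ex X t)`; integrate over `g` and use the right invariance of `μ` (HAAR) and Fubini. Second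
claim: `dX (dX f * h) = (dX (dX f)) h + dX f dX h` and symmetrically, sum over the frame. -/
def S_GREEN : Prop := ∀ (n : ℕ) (μ : Measure (SU n)) [IsProbabilityMeasure μ] [μ.IsMulLeftInvariant],
  (∀ X ∈ su n, ∀ f : SU n → ℂ, C1 f → ∫ g, dX X f g ∂μ = 0) ∧
  ∀ X : Fin (n ^ 2 - 1) → Matrix (Fin n) (Fin n) ℂ, Frame X → ∀ f h : SU n → ℂ, C2 f → C2 h →
    ∫ g, lap X f g * h g ∂μ = ∫ g, f g * lap X h g ∂μ

def M_GREEN : Prop := S_HAAR → S_EXP → S_CALC → S_GREEN

/-- CAS. The matrices `X a` and `1` are `n²` linearly independent matrices (by `Frame.orth`; `tr (X a) = 0`), so a basis. Hence for every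
matrix `Y`: `Y = (tr Y / n) 1 - 2 n ∑ a, tr (X a Y) X a`. Take for `Y` the matrix with the entry `1` at `(l, k)` and `0` elsewhere, then
`tr (X a Y) = X a k l`. -/
def S_CAS : Prop := ∀ (n : ℕ), 1 ≤ n → ∀ X : Fin (n ^ 2 - 1) → Matrix (Fin n) (Fin n) ℂ, Frame X →
  ∀ i j k l : Fin n, ∑ a, X a i j * X a k l =
    -(1 / (2 * (n : ℂ))) * ((if i = l ∧ j = k then 1 else 0) - (if i = j ∧ k = l then 1 / (n : ℂ) else 0))

/-- SW. Stone-Weierstrass (`ContinuousMap.starSubalgebra_topologicalClosure_eq_top_of_separatesPoints`): the star subalgebra generated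
by the entries separates the points of the compact space `SU n`; it is the span of the monomials. By density `∫ f conj f = 0`. -/
def S_SW : Prop := ∀ (n : ℕ) (μ : Measure (SU n)) [IsProbabilityMeasure μ] (f : SU n → ℂ),
  Continuous f → (∀ (i j : ℕ) (p q : Fin i → Fin n) (p' q' : Fin j → Fin n),
    ∫ g, f g * ((∏ s, g.1 (p s) (q s)) * ∏ s, conj (g.1 (p' s) (q' s))) ∂μ = 0) →
  nsq μ f = 0

/-- TENS. Tensor powers of the standard representation and its dual. -/
def S_TENS : Prop := ∀ (n i j : ℕ), ∃ R : Rep (SU n) ((Fin i → Fin n) × (Fin j → Fin n)),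
  (∀ g p q, R.ρ g p q = (∏ s, g.1 (p.1 s) (q.1 s)) * ∏ s, conj (g.1 (p.2 s) (q.2 s))) ∧
  ∀ g, R.ch g = g.1.trace ^ i * conj g.1.trace ^ j

end

end STZ
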