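import Pool.Agent.STZ.StmtsG

/-!
# Statements of the modules, block S: the group `SU(3)`

All formulas were checked by a computer (polynomial identities for small parameters). Module `X` proves
`theorem t_X : M_X` (or `t_X : S_X` if there is no `M_X`) in the file `Pool/Agent/STZ/X.lean`, namespace `STZ`.
-/

namespace STZ

open MeasureTheory Matrix

open scoped ComplexConjugate Matrix Real

noncomputable section

/-- `(H(k-2), H(k-1), H(k))` for `k ≥ 0` -/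
def hp (x y : ℂ) : ℕ → ℂ × ℂ × ℂ
  | 0 => (0, 0, 1)
  | k + 1 => ((hp x y k).2.1, (hp x y k).2.2,
      x * (hp x y k).2.2 - y * (hp x y k).2.1 + (hp x y k).1)

/-- `(H(k-2), H(k-1), H(k))` for `k = -m ≤ 0` -/
def hn (x y : ℂ) : ℕ → ℂ × ℂ × ℂ
  | 0 => (0, 0, 1)
  | m + 1 => ((hn x y m).2.2 - x * (hn x y m).2.1 + y * (hn x y m).1, (hn x y m).1,
      (hn x y m).2.1)

/-- the linear recurrent sequence `H(k+3) = x H(k+2) - y H(k+1) + H(k)`, `H(-2) = H(-1) = 0`, `H(0) = 1`: the complete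
symmetric functions of the eigenvalues of a matrix in `SU(3)` with trace `x`, `y = conj x` -/
def HH (x y : ℂ) : ℤ → ℂ
  | Int.ofNat k => (hp x y k).2.2
  | Int.negSucc m => (hn x y (m + 1)).2.2

/-- the determinant with the rows `(H(l i - 2), H(l i - 1), H(l i))` -/
def XX (x y : ℂ) (l : Fin 3 → ℤ) : ℂ :=
  Matrix.det (Matrix.of fun i j : Fin 3 => HH x y (l i - 2 + (j : ℕ)))

/-- `ps x y (a + 1) (b + 1)` is the value of the character of the irreducible representation with the highest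
weight `(a, b)` -/
def ps (x y : ℂ) (p q : ℤ) : ℂ := XX x y ![p + q, q, 0]

/-- properties of `HH`, `XX` and `ps` -/
structure ALTF : Prop where
  rc : ∀ (x y : ℂ) (k : ℤ), HH x y (k + 3) = x * HH x y (k + 2) - y * HH x y (k + 1) + HH x y k
  h0 : ∀ x y : ℂ, HH x y 0 = 1
  h1 : ∀ x y : ℂ, HH x y (-1) = 0
  h2 : ∀ x y : ℂ, HH x y (-2) = 0
  perm : ∀ (x y : ℂ) (σ : Equiv.Perm (Fin 3)) (l : Fin 3 → ℤ),
    XX x y (l ∘ σ) = (Equiv.Perm.sign σ : ℤ) * XX x y l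
  same : ∀ (x y : ℂ) (l : Fin 3 → ℤ) (i j : Fin 3), i ≠ j → l i = l j → XX x y l = 0
  shift : ∀ (x y : ℂ) (l : Fin 3 → ℤ) (c : ℤ), XX x y (fun i => l i + c) = XX x y l
  xm : ∀ (x y : ℂ) (l : Fin 3 → ℤ), x * XX x y l = ∑ i, XX x y (l + Pi.single i 1)
  ym : ∀ (x y : ℂ) (l : Fin 3 → ℤ), y * XX x y l = ∑ i, XX x y (l - Pi.single i 1)
  xp : ∀ (x y : ℂ) (p q : ℤ), x * ps x y p q = ps x y (p + 1) q + ps x y (p - 1) (q + 1) + ps x y p (q - 1)
  yp : ∀ (x y : ℂ) (p q : ℤ), y * ps x y p q = ps x y p (q + 1) + ps x y (p + 1) (q - 1) + ps x y (p - 1) q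
  one : ∀ x y : ℂ, ps x y 1 1 = 1
  p0 : ∀ (x y : ℂ) (q : ℤ), ps x y 0 q = 0
  q0 : ∀ (x y : ℂ) (p : ℤ), ps x y p 0 = 0
  anti : ∀ (x y : ℂ) (p q : ℤ), ps x y (-p) (p + q) = - ps x y p q
  dual : ∀ (x y : ℂ) (p q : ℕ), ps y x p q = ps x y q p
  cj : ∀ (x y : ℂ) (p q : ℤ), conj (ps x y p q) = ps (conj x) (conj y) p q
  dim : ∀ p q : ℕ, ps 3 3 p q = p * q * (p + q) / 2

/-- ALT. `rc` is by definition. Let `B` be the companion matrix with `B (H(k-2), H(k-1), H(k)) = (H(k-1), H(k), H(k+1))`; it has determinant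
`1`, trace `x`, and its inverse has trace `y`. `shift` (first for `c = 1`): `det (B u, B v, B w) = det (u, v, w)`. `xm`, `ym`:
`tr A det (u, v, w) = det (A u, v, w) + det (u, A v, w) + det (u, v, A w)` for `A = B`, `B⁻¹`. (All of this is a polynomial identity in the nine
numbers `H(l i - 2), H(l i - 1), H(l i)`: `Matrix.det_fin_three`, `ring`.) `perm`: exchange of rows. `xp`, `yp`, `p0`, `q0`, `anti`: from
`xm`, `ym`, `shift`, `same`, `perm`. `dual`: strong induction on `p + q` with `xp` and `yp` (both sides satisfy the same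
recursion). `dim`: the same, or `HH 3 3 k = (k + 1) (k + 2) / 2`. -/
def S_ALT : Prop := ALTF

/-- `tr g`, `g ∈ SU(3)` -/
def tg (g : SU 3) : ℂ := g.1.trace

/-- the function `g ↦ ps (tr g) (conj (tr g)) p q` -/
def px (p q : ℤ) (g : SU 3) : ℂ := ps (tg g) (conj (tg g)) p q

/-- the irreducible characters of `SU(3)` (index set `ℕ × ℕ`) -/
def c3 (a : ℕ × ℕ) (g : SU 3) : ℂ := px (a.1 + 1) (a.2 + 1) g

/-- LAPX. Let `x = tr g`, `y = conj x`, `Γ(f, h) = ∑ a, dX (X a) f * dX (X a) h`. From `CALF.dentry` and CAS: `dX X x = tr (g X)`,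
`dX X y = conj (tr (g X)) = - tr (gᴴ X)`, `Δ x = -(4/9) x`, `Δ y = -(4/9) y`, `Γ(x,x) = -x²/9 + y/3`, `Γ(x,y) = 1/2 - x y/18`, `Γ(y,y) = -y²/9 + x/3`
(`tr (g²) = x² - 2 y` for `g ∈ SU(3)`, by Cayley-Hamilton or directly: the second elementary symmetric function of `g` is
`tr (adjugate g) = tr g⁻¹ = y`). By induction on `p + q` (natural `p, q ≥ 0`), with `xp` if `p ≥ 2` or `yp` if `q ≥ 2`, simultaneously:
`Δ px = -(p² + p q + q² - 3)/9 px`,
`Γ(x, px p q) = -(1/18) [(2p+q-3) px (p+1) q + (q-p-3) px (p-1) (q+1) - (p+2q+3) px p (q-1)]`,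
`Γ(y, px p q) = -(1/18) [(2q+p-3) px p (q+1) + (p-q-3) px (p+1) (q-1) - (q+2p+3) px (p-1) q]`
(on the walls `p = 0` or `q = 0` all three hold by `p0`, `q0`, `anti`). Step: `px (p+1) q = x px p q - px (p-1) (q+1) - px p (q-1)`,
`Δ(x f) = x Δ f + f Δ x + 2 Γ(x, f)`, `Γ(x, x f) = x Γ(x, f) + f Γ(x, x)`, and expand the products with `xp`, `yp`. -/
def S_LAPX : Prop := ∀ X : Fin (3 ^ 2 - 1) → Matrix (Fin 3) (Fin 3) ℂ, Frame X → ∀ p q : ℕ,
  C2 (px p q) ∧ ∀ g, lap X (px p q) g = -((((p : ℂ) ^ 2 + p * q + q ^ 2 - 3) / 9)) * px p q g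

def M_LAPX : Prop := S_CALC → S_CAS → S_ALT → S_LAPX

/-- FRX. There is a frame of `su(3)` (the normalised Gell-Mann matrices times `i`, or Gram-Schmidt, or an explicit
orthonormal basis: `i(E_11 - E_22)/√12`, `i(E_11 + E_22 - 2E_33)/6`, `(E_jk - E_kj)/√12`, `i(E_jk + E_kj)/√12`). -/
def S_FRX : Prop := ∃ X : Fin (3 ^ 2 - 1) → Matrix (Fin 3) (Fin 3) ℂ, Frame X

/-- ORT3. Orthonormality of the characters. First `∫ px p q = 0` for `(p, q) ≠ (1, 1)`, `p, q ≥ 1`: GREEN with `h = 1` and LAPX (with the frame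
of FRX), `p² + p q + q² > 3`. Then `∫ px p q conj (px p' q')`, `p, q, p', q' ≥ 0` not both zero: it is `1` if `(p,q) = (p',q')`, `p, q ≥ 1`, otherwise
`0`, by strong induction on `p + q`, for all `p', q'`: `px 1 1 = 1`; if `p ≥ 2`: `px p q = x px (p-1) q - px (p-2) (q+1) - px (p-1) (q-1)` and
`∫ x px (p-1) q conj (px p' q') = ∫ px (p-1) q conj (y px p' q')`, expand by `yp`; if `q ≥ 2` the same with `y` and `x` exchanged. -/
def S_ORT3 : Prop := ∀ (μ : Measure (SU 3)) [IsProbabilityMeasure μ] [μ.IsMulLeftInvariant]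
  (a b : ℕ × ℕ), ∫ g, c3 a g * conj (c3 b g) ∂μ = if a = b then 1 else 0

def M_ORT3 : Prop := S_CALC → S_GREEN → S_FRX → S_ALT → S_LAPX → S_ORT3

/-- INTG. Integer coefficients, both ways: induction with `xp`, `yp`. -/
def S_INTG : Prop :=
  (∀ a b : ℕ, ∃ (s : Finset (ℕ × ℕ)) (n : ℕ × ℕ → ℤ), ∀ x y : ℂ,
    ps x y (a + 1) (b + 1) = ∑ k ∈ s, (n k : ℂ) * (x ^ k.1 * y ^ k.2)) ∧
  ∀ i j : ℕ, ∃ (s : Finset (ℕ × ℕ)) (n : ℕ × ℕ → ℤ), ∀ x y : ℂ,
    x ^ i * y ^ j = ∑ k ∈ s, (n k : ℂ) * ps x y (k.1 + 1) (k.2 + 1)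

def M_INTG : Prop := S_ALT → S_INTG

/-- IRR3. The functions `c3 a` are irreducible characters (VIRT: an integer combination of the characters
`x^i y^j` of TENS (reindex to `Fin N`), with norm `1` by ORT3, and positive at `1` by `ALTF.dim`), pairwise different by ORT3. -/
def S_IRR3 : Prop := ∀ (μ : Measure (SU 3)) [IsProbabilityMeasure μ] [μ.IsMulLeftInvariant], IrrFam c3

def M_IRR3 : Prop := S_VIRT → S_TENS → S_ALT → S_ORT3 → S_INTG → S_IRR3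

/-- CPL3. Completeness. For every monomial `m` in the entries and their conjugates there is a finite `S` with
`Pr S m = m` (ALLI for TENS and the second part of INTG). If `Pr {a} f = 0` for all `a`, then `∫ conj f m = ∫ conj f Pr S m = ∫ conj (Pr S f) m = 0`,
so `nsq f = 0` by SW (conjugate), and `f = 0` as `f` is continuous and `μ` is positive on nonempty open sets (HAAR). -/
def S_CPL3 : Prop := ∀ (μ : Measure (SU 3)) [IsProbabilityMeasure μ] [μ.IsMulLeftInvariant]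
  (f : SU 3 → ℂ), Continuous f → (∀ a, Pr μ (KK c3) {a} f = 0) → f = 0

def M_CPL3 : Prop := S_HAAR → S_KB → S_KERI → S_ALLI → S_TENS → S_SW → S_INTG → S_IRR3 → S_CPL3

/-- the multiplicity of the weight `κ` in the representation `(a, b)` (weights in `ℤ³` modulo `(1,1,1)`,
normalised by `∑ κ = a - b`) -/
def mlt (a b : ℕ) (κ : Fin 3 → ℤ) : ℤ :=
  if ∑ i, κ i = (a : ℤ) - b then max 0 ((a : ℤ) + 1 - ∑ i, max (κ i) 0) else 0

/-- MULT. Strong induction on `a + b`. `(0, 0)`: `mlt 0 0 κ = 1` for `κ = 0`, otherwise `0`. Step for `(a + 1, b)`: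
`ps (a+2) (b+1) = x ps (a+1) (b+1) - ps a (b+2) - ps (a+1) b`, `xm`, and for `∑ κ = a + 1 - b`, `a, b ≥ 0`:
`mlt (a+1) b κ = ∑ i, mlt a b (κ - e i) - mlt (a-1) (b+1) (κ - (1,1,1)) - mlt a (b-1) κ`, where `mlt` is replaced by `0` if one of its first two
arguments is `-1` (consistent with the formula for `mlt`; both sides are functions of `a`, `n = ∑ i, max (κ i) 0` and the number of positive
`κ i`; use `shift`). Step for `(0, b + 1)`: in the same way with `ym`, or by duality (`dual`; `mlt a b κ = mlt b a (-κ)` and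
`XX y x (-l) = ± XX x y l`). -/
def S_MULT : Prop := ∀ (a b N : ℕ), a + b ≤ N → ∀ (x y : ℂ) (l : Fin 3 → ℤ),
  ps x y (a + 1) (b + 1) * XX x y l =
    ∑ κ ∈ Fintype.piFinset (fun _ : Fin 3 => Finset.Icc (-(N : ℤ)) N), (mlt a b κ : ℂ) * XX x y (l + κ)

def M_MULT : Prop := S_ALT → S_MULT

/-- STR. Straightening. If two entries of `l` are equal it is `0` (`same`); otherwise sort `l`: `l = l' ∘ σ`, `l' 0 > l' 1 > l' 2`, and
`XX l' = ps (l' 0 - l' 1) (l' 1 - l' 2)` by `shift`. -/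
def S_STR : Prop := ∀ l : Fin 3 → ℤ, (∀ x y : ℂ, XX x y l = 0) ∨
  ∃ (a : ℕ × ℕ) (σ : Equiv.Perm (Fin 3)) (c : ℤ),
    (∀ i, l i = ![(a.1 : ℤ) + a.2 + 2, a.2 + 1, 0] (σ i) + c) ∧
    ∀ x y : ℂ, XX x y l = (Equiv.Perm.sign σ : ℤ) * ps x y (a.1 + 1) (a.2 + 1)

def M_STR : Prop := S_ALT → S_STR

/-- CG. Product of two characters. MULT with `l = (c + d + 2, d + 1, 0)`, and straighten every term by STR: a given `ν` is reached only
from `l + κ = (ν.1 + ν.2 + 2, ν.2 + 1, 0) ∘ σ + k`, `6` possibilities for `σ`, and `κ` is determined by `σ` (the sum of `κ` is fixed); every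
coefficient is at most `mlt a b κ ≤ min a b + 1` (if `∑ κ = a - b` then `a - ∑ max (κ i) 0 = b - ∑ max (-κ i) 0`). The entries of `κ` are at most `a + b`
in absolute value, sorting does not increase the distance from the sorted sequence `l` in the maximum norm, and `k` cancels in
the differences of the entries. -/
def S_CG : Prop := ∀ a b c d : ℕ, ∃ (T : Finset (ℕ × ℕ)) (n : ℕ × ℕ → ℤ),
  (∀ x y : ℂ, ps x y (a + 1) (b + 1) * ps x y (c + 1) (d + 1) =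
    ∑ ν ∈ T, (n ν : ℂ) * ps x y (ν.1 + 1) (ν.2 + 1)) ∧
  ∀ ν ∈ T, |n ν| ≤ 6 * (min a b + 1) ∧ |(ν.1 : ℤ) - c| ≤ 2 * (a + b) ∧ |(ν.2 : ℤ) - d| ≤ 2 * (a + b)

def M_CG : Prop := S_MULT → S_STR → S_CG

/-- highest weights, shifted by `(1, 1)` -/
def w3 (a : ℕ × ℕ) : Fin 2 → ℤ := ![a.1 + 1, a.2 + 1]

/-- SD3. Let `n` be the coefficients of `c3 (a,b) c3 (c,d)` in CG, `T` the set of the `ν` with `n ν ≠ 0`. By ORT3
`n ν = ∫ c3 (a,b) c3 (c,d) conj (c3 ν)`. As `conj (c3 (a,b)) = c3 (b,a)` this is also `∫ c3 ν* c3 (c,d) conj (c3 (b,a))`, `ν* = (ν.2, ν.1)`: the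
coefficient of `(b,a)` in the product of `ν*` and `(c,d)`. So by CG for `ν*` and `(c,d)`: `|n ν| ≤ 6 (min ν + 1)`, `|b - c| ≤ 2 (ν.1 + ν.2)`,
`|a - d| ≤ 2 (ν.1 + ν.2)`; and by CG for `(a,b)`, `(c,d)`: `|ν.1 - c|, |ν.2 - d| ≤ 2 (a + b)`. `K a x x = d²`, `d = c3 a 1 = p q (p+q)/2 ≤ sz³` (`p = a.1 + 1`,
`q = a.2 + 1`, `sz = 1 + p + q`). `K_λ K_μ (x,y) = d_λ d_μ ∑ n ν χ_ν (x y⁻¹) = ∑ (d_λ d_μ n ν / d_ν) K_ν (x,y)`, and
`6 min(p,q) / (p q (p+q)/2) ≤ 24/(p+q)² ≤ 54/sz²`. -/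
def S_SD3 : Prop := ∀ (μ : Measure (SU 3)) [IsProbabilityMeasure μ] [μ.IsMulLeftInvariant],
  ∃ C : ℝ, SData μ (KK c3) 2 6 w3 (Equiv.swap 0 1) C

def M_SD3 : Prop := S_KERI → S_ALT → S_ORT3 → S_IRR3 → S_CG → S_SD3

/-- EIG3. Let `κ a = ((p² + p q + q²) - 3)/9`, `p = a.1 + 1`, `q = a.2 + 1`. `KK c3 a x y = c3 a 1 * conj (c3 a (x⁻¹ y))` is `C2` in `y` with Laplacian
`-κ a KK c3 a x y` (LAPX, `CALF.left`, `CALF.cj`), so by GREEN `-κ a Pr {a} f = ∫ lap (KK c3 a x) f = ∫ KK c3 a x lap f = -κ Pr {a} f`: `Pr {a} f = 0` if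
`κ a ≠ κ`. Let `S` be the finite set of the `a` with `κ a = κ`; CPL3 for `f - Pr S f`. -/
def S_EIG3 : Prop := ∀ (μ : Measure (SU 3)) [IsProbabilityMeasure μ] [μ.IsMulLeftInvariant]
  (X : Fin (3 ^ 2 - 1) → Matrix (Fin 3) (Fin 3) ℂ), Frame X → ∀ (κ : ℝ) (f : SU 3 → ℂ), Eig X κ f →
  ∃ S : Finset (ℕ × ℕ),
    (∀ a ∈ S, κ = (((a.1 : ℝ) + 1) ^ 2 + (a.1 + 1) * (a.2 + 1) + (a.2 + 1) ^ 2 - 3) / 9) ∧
    Pr μ (KK c3) S f = f

def M_EIG3 : Prop := S_KB → S_KERI → S_CALC → S_GREEN → S_ALT → S_LAPX → S_IRR3 → S_CPL3 → S_EIG3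

end

end STZ
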