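import Pool.Agent.STZ.StmtsM
import Pool.Agent.STZ.StmtsS
import Pool.Agent.STZ.DefsK

/-!
# Statements of the modules, block K: the groups of rank two

All formulas were checked by a computer (exact arithmetic, random or small parameters). Module `X` proves
`theorem t_X : M_X` (or `t_X : S_X` if there is no `M_X`) in the file
`Pool/Agent/STZ/X.lean`, namespace `STZ`. `l = (p, q)` are coordinates with respect to the fundamental weights.
The structures `RD`, `RDF`, `GF`, `CALFH`, `VC` are in StmtsM.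
-/

namespace STZ

open MeasureTheory Matrix

open scoped ComplexConjugate Matrix Real

noncomputable section

/-- properties of the combinatorial data which do not involve `ψ` and `dim` -/
structure RDW {r : ℕ} (D : RD r) : Prop where
  r2 : 2 ≤ r
  W_one : 1 ∈ D.W
  W_mul : ∀ w ∈ D.W, ∀ w' ∈ D.W, w * w' ∈ D.W
  W_inv : ∀ w ∈ D.W, ∃ w' ∈ D.W, w' * w = 1
  W_det : ∀ w ∈ D.W, w.det = 1 ∨ w.det = -1
  Q_W : ∀ w ∈ D.W, ∀ l, D.Q (w *ᵥ l) = D.Q l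
  S_W : ∀ i, ∀ w ∈ D.W, ∀ κ ∈ D.S i, w *ᵥ κ ∈ D.S i
  P_W : ∀ i, ∀ w ∈ D.W, ∀ κ, D.P i (w *ᵥ κ) = D.P i κ
  S_st : ∀ i κ, κ ∈ D.S (D.st i) ↔ -κ ∈ D.S i
  P_st : ∀ i κ, D.P (D.st i) κ = D.P i (-κ)
  st2 : ∀ i, D.st (D.st i) = i
  w0 : ∃ w ∈ D.W, ∀ κ, w *ᵥ κ = -(κ ∘ D.st)
  refl : ∀ i, ∃ w ∈ D.W, w.det = -1 ∧ ∀ l : Fin r → ℤ, l i = 0 → w *ᵥ l = l
  str : ∀ l, ∃ w ∈ D.W, ∀ i, 0 ≤ (w *ᵥ l) i
  free : ∀ l, Reg l → ∀ w ∈ D.W, Reg (w *ᵥ l) → w = 1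
  top : ∀ i, Pi.single i 1 ∈ D.S i ∧ D.P i (Pi.single i 1) = 1
  lt : ∀ i l, Reg l → ∀ κ ∈ D.S i, κ ≠ Pi.single i 1 → D.Q (l + κ) < D.Q (l + Pi.single i 1)
  chm : ∀ a b, (∀ i, 0 ≤ a i) → (∀ i, 0 ≤ b i) → ∀ w ∈ D.W, D.Q (a - b) ≤ D.Q (a - w *ᵥ b)
  qf : QF D.Q D.A
  pd : ∃ c : ℝ, 0 < c ∧ ∀ l, c * (sz l - 1) ^ 2 ≤ D.Q l ∧ c * D.Q l ≤ (sz l - 1) ^ 2
  rho : ∀ l, Reg l → l ≠ 1 → D.Q 1 < D.Q l
  base : ∀ φ : (Fin r → ℤ) → ℂ, (∀ w ∈ D.W, ∀ l, φ (w *ᵥ l) = (w.det : ℂ) * φ l) → ∀ i,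
    ∑ κ ∈ D.S i, (D.P i κ : ℂ) * ((D.Q (1 + κ) : ℂ) - D.Q (1 + Pi.single i 1)) * φ (1 + κ) = 0

/-- properties of `ψ` -/
structure RDP {r : ℕ} (D : RD r) : Prop where
  anti : ∀ w ∈ D.W, ∀ x l, D.ψ x (w *ᵥ l) = (w.det : ℂ) * D.ψ x l
  one : ∀ x, D.ψ x 1 = 1
  rule : ∀ i x l, x i * D.ψ x l = ∑ κ ∈ D.S i, (D.P i κ : ℂ) * D.ψ x (l + κ)

/-- properties of the dimensions -/
structure RDD {r : ℕ} (D : RD r) : Prop where
  dim_eq : ∀ l, D.ψ D.ξ l = D.dim l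
  dim_pos : ∀ l, Reg l → 0 < D.dim l
  dim_le : ∃ C : ℝ, ∀ l, Reg l → (D.dim l : ℝ) ≤ C * sz l ^ ((D.e : ℝ) / 2)

/-- the bound for the multiplicities of the weights -/
def RDM {r : ℕ} (D : RD r) : Prop :=
  ∃ C : ℝ, ∀ a, Reg a → ∃ (T : Finset (Fin r → ℤ)) (m : (Fin r → ℤ) → ℤ),
    (∀ x l, D.ψ x a * D.ψ x l = ∑ κ ∈ T, (m κ : ℂ) * D.ψ x (l + κ)) ∧
    ∀ κ ∈ T, |(m κ : ℝ)| * sz a ^ r ≤ C * D.dim a ∧ sz κ ≤ C * sz a

/-- the polynomials `M i j` with `M i j ψ l = ∑ κ κ', P κ P κ' (κ A κ') ψ (l + κ + κ')`, `κ ∈ S i`, `κ' ∈ S j` -/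
def RDG {r : ℕ} (D : RD r) (M : Fin r → Fin r → (Fin r → ℂ) → ℂ) : Prop :=
  ∀ i j x l, M i j x * D.ψ x l = ∑ κ ∈ D.S i, ∑ κ' ∈ D.S j,
    ((D.P i κ * D.P j κ' * (κ ⬝ᵥ (D.A *ᵥ κ')) : ℤ) : ℂ) * D.ψ x (l + κ + κ')

/-- UNQ. `φ - φ'` vanishes on the walls (`refl`, `anti`); strong induction on `Q l` (`pd`) for all `l`: by `str` and `anti` we may assume `Reg l`, `l = 1` or
`l = l' + e i` with `Reg l'`, and `φ l = x i φ l' - ∑ κ ≠ e i, P i κ φ (l' + κ)` by `rule` and `top`, with `Q (l' + κ) < Q l` (`lt`) and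
`Q l' < Q l` (if `l'` is not in the sum, compare: `l' = l - e i`, `Q l' < Q l` because of `pd`, or use `lt` and the polar form; or do the induction on
`Q l` and then on the sum of the coordinates: `ψ l'` occurs only multiplied by `x i`; e.g. show that `Q l' < Q l` from `Q (l + e i) - Q (l - e i) > 0` etc.; see
INTGG.lean, where this induction is done). -/
def S_UNQ : Prop := ∀ (r : ℕ) (D : RD r), RDW D → ∀ (x : Fin r → ℂ) (φ φ' : (Fin r → ℤ) → ℂ),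
  (∀ w ∈ D.W, ∀ l, φ (w *ᵥ l) = (w.det : ℂ) * φ l) →
  (∀ w ∈ D.W, ∀ l, φ' (w *ᵥ l) = (w.det : ℂ) * φ' l) → φ 1 = φ' 1 →
  (∀ i l, x i * φ l = ∑ κ ∈ D.S i, (D.P i κ : ℂ) * φ (l + κ)) →
  (∀ i l, x i * φ' l = ∑ κ ∈ D.S i, (D.P i κ : ℂ) * φ' (l + κ)) → φ = φ'

/-- EXT. `x` arbitrary: `u + v = x 0`, `u v = x 1` for the roots `u`, `v` of `T² - x 0 T + x 1`. If `u = v`: the points `![u + v + ε, (u + ε) v]`,
`ε → 0`. -/
def S_EXT : Prop := ∀ F : (Fin 2 → ℂ) → ℂ, Continuous F →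
  (∀ u v : ℂ, u ≠ v → F ![u + v, u * v] = 0) → ∀ x, F x = 0

/-! ### the root system `A₂` -/

/-- the Weyl group of `A₂` -/
def W1 : Finset (Matrix (Fin 2) (Fin 2) ℤ) :=
  {!![1, 0; 0, 1], !![-1, 0; 1, 1], !![1, 1; 0, -1], !![0, 1; -1, -1], !![-1, -1; 1, 0],
    !![0, -1; -1, 0]}

/-- the combinatorial data of `SU(3)` -/
def D1 : RD 2 where
  W := W1
  Q := fun l => l 0 ^ 2 + l 0 * l 1 + l 1 ^ 2
  A := !![2, 1; 1, 2]
  S := ![{![1, 0], ![-1, 1], ![0, -1]}, {![-1, 0], ![1, -1], ![0, 1]}]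
  P := fun _ _ => 1
  st := Equiv.swap 0 1
  ψ := fun x l => ps (x 0) (x 1) (l 0) (l 1)
  ξ := ![3, 3]
  dim := fun l => l 0 * l 1 * (l 0 + l 1) / 2
  e := 6

/-- the polynomials of `RDG` for `SU(3)` -/
def M1 (i j : Fin 2) (x : Fin 2 → ℂ) : ℂ :=
  !![2 * x 0 ^ 2 - 6 * x 1, x 0 * x 1 - 9; x 0 * x 1 - 9, 2 * x 1 ^ 2 - 6 * x 0] i j

/-- WKA. Finite checks (`decide`), and `ring`, `nlinarith`, `omega` for each of the elements of `W`. `chm`: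
`Q (a - w b) - Q (a - b) = a A (b - w b)`, and `A (b - w b)` has coordinates `≥ 0`... (`b - w b` is a nonnegative combination of the simple
roots, the columns of `A` up to scale, so `a A (b - w b)` is a sum of products of nonnegative numbers). `lt`: the same. `base`: use the hypothesis to
rewrite `φ (1 + κ)` as `± φ` of a dominant weight, and `φ = 0` on the walls. -/
def S_WKA : Prop := RDW D1

/-- PKA. From `ALTF` (`anti`: generated by `p0`, `q0`, `anti`, `perm`, `shift`). -/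
def S_PKA : Prop := RDP D1

def M_PKA : Prop := S_ALT → S_PKA

/-- DKA. `dim_eq`: UNQ for `x = ξ`, `φ = ψ ξ`, `φ' l = p q (p + q) / 2` (in `ℂ`); `p q (p + q)` is even. -/
def S_DKA : Prop := RDD D1

def M_DKA : Prop := S_UNQ → S_WKA → S_PKA → S_DKA

/-- MKA. S_MULT with `N = a + b`, `l = (p + q, q, 0)`: `κ : Fin 3 → ℤ` (with fixed sum) becomes `(κ 0 - κ 1, κ 1 - κ 2)`. `mlt a b κ ≤ min a b + 1`. -/
def S_MKA : Prop := RDM D1

def M_MKA : Prop := S_ALT → S_MULT → S_MKA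

/-- GKA. Expand `x i x j ψ l` by `rule` twice; both sides are combinations of `ψ x (l + μ)` with the same integer coefficients (finite sums, `simp`). -/
def S_GKA : Prop := RDG D1 M1

def M_GKA : Prop := S_PKA → S_GKA

/-! ### the root system `C₂` -/

/-- the Weyl group of `C₂` -/
def W2 : Finset (Matrix (Fin 2) (Fin 2) ℤ) :=
  {!![1, 0; 0, 1], !![-1, 0; 1, 1], !![1, 2; 0, -1], !![1, 2; -1, -1], !![-1, -2; 1, 1],
    !![-1, -2; 0, 1], !![1, 0; -1, -1], !![-1, 0; 0, -1]}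

/-- the matrix with trace `x 0` and determinant `x 1 - 1` -/
def cm (x : Fin 2 → ℂ) : Matrix (Fin 2) (Fin 2) ℂ := !![0, 1 - x 1; 1, x 0]

/-- the first column of the Chebyshev polynomial `S (n - 1)` at the matrix `cm x`; `vC x 0 = 0`, `vC x 1 = (1, 0)`,
`vC x (n + 1) = cm x * vC x n - vC x (n - 1)`, `vC x (-n) = - vC x n` -/
def vC (x : Fin 2 → ℂ) (n : ℤ) : Fin 2 → ℂ := fun i =>
  (Polynomial.aeval (cm x) (Polynomial.Chebyshev.S ℤ (n - 1))) i 0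

/-- the characters of `Sp(2)`: `det (vC q, vC (p + q))` -/
def psC (x : Fin 2 → ℂ) (l : Fin 2 → ℤ) : ℂ :=
  vC x (l 1) 0 * vC x (l 0 + l 1) 1 - vC x (l 1) 1 * vC x (l 0 + l 1) 0

/-- the combinatorial data of `Sp(2)`: `x 0`, `x 1` are the characters of dimension `4` and `5` -/
def D2 : RD 2 where
  W := W2
  Q := fun l => l 0 ^ 2 + 2 * l 0 * l 1 + 2 * l 1 ^ 2
  A := !![2, 2; 2, 4]
  S := ![{![1, 0], ![-1, 1], ![-1, 0], ![1, -1]},
    {![0, 1], ![2, -1], ![0, -1], ![-2, 1], ![0, 0]}]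
  P := fun _ _ => 1
  st := Equiv.refl _
  ψ := psC
  ξ := ![4, 5]
  dim := fun l => l 0 * l 1 * (l 0 + l 1) * (l 0 + 2 * l 1) / 6
  e := 8

/-- the polynomials of `RDG` for `Sp(2)` -/
def M2 (i j : Fin 2) (x : Fin 2 → ℂ) : ℂ :=
  !![2 * x 0 ^ 2 - 4 * x 1 - 12, 2 * x 0 * x 1 - 10 * x 0;
    2 * x 0 * x 1 - 10 * x 0, 4 * x 1 ^ 2 - 8 * x 0 ^ 2 + 8 * x 1 - 12] i j

/-- WKC. As WKA. -/
def S_WKC : Prop := RDW D2

/-- PKC. In the coordinates `(p + q, q)` the group `W` acts by signed permutations. Let `B = cm x`. `rule 0`: `tr B det (u, v) = det (B u, v) + det (u, B v)`,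
`B vC n = vC (n + 1) + vC (n - 1)`. `rule 1`: `(x 1 - 1) det (u, v) = det (B u, B v)`. -/
def S_PKC : Prop := RDP D2

/-- CHC. The formula for the characters. `S (n - 1) (B) = a + b B` with `(a, b) = vC n` (Cayley-Hamilton, `B e 0 = e 1`), hence `S (n - 1) (t) = a + b t` for the
two eigenvalues `t = t₁, t₂` of `B`. -/
def S_CHC : Prop := ∀ (s t : ℂ) (l : Fin 2 → ℤ), (s - t) * psC ![s + t, s * t + 1] l =
  (Polynomial.Chebyshev.S ℂ (l 0 + l 1 - 1)).eval s * (Polynomial.Chebyshev.S ℂ (l 1 - 1)).eval t -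
  (Polynomial.Chebyshev.S ℂ (l 1 - 1)).eval s * (Polynomial.Chebyshev.S ℂ (l 0 + l 1 - 1)).eval t

/-- DKC. As DKA. `p q (p + q) (p + 2 q)` is divisible by `6`. -/
def S_DKC : Prop := RDD D2

def M_DKC : Prop := S_UNQ → S_WKC → S_PKC → S_DKC

/-- MKC. Write `s n t` for `S (n - 1)` at `t`. `s k t * s n t = ∑ i < k, s (n + k - 1 - 2 i) t` for natural `k`. Formula:
`psC ![s + t, s t + 1] ![p, q] = ∑ i < p, ∑ j < q, s (p - i + j) s * s (1 + i + j) t` (multiply by `s - t`; sum over `i`: telescoping, and then over `j`). Hence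
`(s - t) psC (p, q) psC l` is the sum over `i < p`, `j < q`, `i' < k`, `j' < k'`, `k = p - i + j`, `k' = 1 + i + j`, of
`s (l 0 + l 1 + μ) s * s (l 1 + ν) t - s (l 1 + μ) s * s (l 0 + l 1 + ν) t`, `μ = k - 1 - 2 i'`, `ν = k' - 1 - 2 j'`; the substitution `i ↦ p - 1 - i` exchanges
`k` and `k'`, so in the second term `μ` and `ν` may be exchanged, and the sum is `(s - t) ∑ psC (l + κ)`, `κ = (μ - ν, ν)`. Let `m κ` be the number of
quadruples `(i, j, i', j')` with this `κ`: at most `p q`, since `i, j, κ` determine `i', j'`. The identity for `s ≠ t` extends to all `x` by EXT (`psC x l` is a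
polynomial in `x`, so continuous). `p q (1 + p + q)² ≤ C p q (p + q) (p + 2 q) / 6`. -/
def S_MKC : Prop := RDM D2

def M_MKC : Prop := S_EXT → S_CHC → S_MKC

/-- GKC. As GKA. -/
def S_GKC : Prop := RDG D2 M2

def M_GKC : Prop := S_PKC → S_GKC

/-! ### the root system `G₂` -/

/-- the Weyl group of `G₂` -/
def W3 : Finset (Matrix (Fin 2) (Fin 2) ℤ) :=
  {!![1, 0; 0, 1], !![-1, 0; 1, 1], !![1, 3; 0, -1], !![2, 3; -1, -1], !![-1, -3; 1, 2],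
    !![-2, -3; 1, 2], !![2, 3; -1, -2], !![1, 3; -1, -2], !![-2, -3; 1, 1], !![-1, -3; 0, 1],
    !![1, 0; -1, -1], !![-1, 0; 0, -1]}

/-- the combinatorial data of `G₂`: `x 0`, `x 1` are the characters of dimension `7` and `14`. `ψ` is given by `PGF`. -/
def D3 (ψ : (Fin 2 → ℂ) → (Fin 2 → ℤ) → ℂ) : RD 2 where
  W := W3
  Q := fun l => l 0 ^ 2 + 3 * l 0 * l 1 + 3 * l 1 ^ 2
  A := !![2, 3; 3, 6]
  S := ![{![1, 0], ![2, -1], ![-1, 1], ![-1, 0], ![-2, 1], ![1, -1], ![0, 0]},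
    {![1, 0], ![2, -1], ![-1, 1], ![-1, 0], ![-2, 1], ![1, -1], ![0, 0], ![-3, 2], ![3, -1], ![0, 1],
      ![3, -2], ![-3, 1], ![0, -1]}]
  P := fun i κ => if i = 1 ∧ κ = 0 then 2 else 1
  st := Equiv.refl _
  ψ := ψ
  ξ := ![7, 14]
  dim := fun l => l 0 * l 1 * (l 0 + l 1) * (l 0 + 2 * l 1) * (l 0 + 3 * l 1) * (2 * l 0 + 3 * l 1) / 120
  e := 12

/-- the polynomials of `RDG` for `G₂` -/
def M3 (i j : Fin 2) (x : Fin 2 → ℂ) : ℂ :=
  !![2 * x 0 ^ 2 - 2 * x 1 - 8 * x 0 - 14, 3 * x 0 * x 1 - 7 * x 0 ^ 2 + 7 * x 1 - 8 * x 0 + 7;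
    3 * x 0 * x 1 - 7 * x 0 ^ 2 + 7 * x 1 - 8 * x 0 + 7,
    6 * x 1 ^ 2 - 6 * x 0 ^ 3 + 12 * x 0 * x 1 - 10 * x 0 ^ 2 + 4 * x 1 + 22 * x 0 - 14] i j

/-- the characters of `G₂` in terms of the characters of `SU(3)` -/
structure PGF (ψ : (Fin 2 → ℂ) → (Fin 2 → ℤ) → ℂ) : Prop where
  poly : ∀ l, ∃ F : MvPolynomial (Fin 2) ℤ, ∀ x, ψ x l = MvPolynomial.aeval x F
  eq : ∀ (u v : ℂ) (l : Fin 2 → ℤ), ψ ![1 + u + v, u * v + u + v - 1] l * (u - v) =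
    ps u v (l 0 + l 1) (l 1) - ps u v (l 1) (l 0 + l 1)

/-- PGX. `ps u v a b` is an integer polynomial in `u`, `v` (INTG; for arbitrary integers `a`, `b` by straightening, or directly from the definition) and
`ps v u b a = ps u v a b` (`dual`; for all integers by straightening). For every `F ∈ ℤ[X, Y]` there is `G ∈ ℤ[X, Y]` with `F(u, v) - F(v, u) = (u - v) G(u + v, u v)`: by
linearity for monomials, `uᵃ vᵇ - uᵇ vᵃ = (u v)ᵇ (u^(a-b) - v^(a-b))` for `a ≥ b`, and `(u^n - v^n) / (u - v) = h n` with `h (n + 2) = (u + v) h (n + 1) - u v h n`.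
Finally `u + v = x 0 - 1`, `u v = x 1 - x 0 + 2` for `x = ![1 + u + v, u v + u + v - 1]`. -/
def S_PGX : Prop := ∃ ψ, PGF ψ

def M_PGX : Prop := S_ALT → S_INTG → S_PGX

/-- WKG. As WKA. -/
def S_WKG : Prop := ∀ ψ, RDW (D3 ψ)

/-- PKG. For `x = ![1 + u + v, u v + u + v - 1]`, `u ≠ v`, all three from `PGF.eq` and ALT: in the coordinates `(p + q, q)` the weights `S 0` are those of
`1 + u + v` and the weights `S 1` those of `(u v - 1) + u + v` (`xp`, `yp`); `W` is generated by the Weyl group of `SU(3)` and the exchange of the two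
coordinates. Then for all `x` by EXT (`x 0 = 1 + (u + v)`, `x 1 = u v + (u + v) - 1`). -/
def S_PKG : Prop := ∀ ψ, PGF ψ → RDP (D3 ψ)

def M_PKG : Prop := S_ALT → S_EXT → S_PKG

/-- DKG. As DKA: UNQ. The product is divisible by `120` (check modulo `8`, `3`, `5`, or: `ψ ξ l` is an integer by `poly`). -/
def S_DKG : Prop := ∀ ψ, PGF ψ → RDD (D3 ψ)

def M_DKG : Prop := S_UNQ → S_WKG → S_PKG → S_DKG

/-- BRG. The restriction to `SU(3)`. Let `Σ` be the right hand side. It is enough to show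
`(u - v) Σ = ps u v (P + Q) Q - ps u v Q (P + Q)`, `P = p + 1`, `Q = q + 1` (this gives the claim for `u ≠ v` by `PGF.eq`, and by continuity in `(u, v)` for
all). By `xp` and `yp` the left side is
`∑ κ, c κ ps u v (Q + κ 0) (Q + κ 1)` with `c κ = ∑ α, (mlt p q (κ - α) - mlt p q (κ + α))`, `α = e0 - e2, e1 - e0, e2 - e1`, and by the explicit formula for `mlt`
(piecewise linear, `omega`; this is Weyl's character formula, as `∑ α (e^α - e^(-α))` is the Weyl denominator) `c κ` is zero except at the six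
permutations of
`(p + 1, 0, -(q + 1))`, where it is the sign of the permutation; four of these terms are zero (`p0`, `q0`), and two remain: `κ = (p + 1, 0, -(q+1))`, which gives
`ps (P + Q) Q`, and `κ = (0, p + 1, -(q + 1))`, which gives `- ps Q (P + Q)`. -/
def S_BRG : Prop := ∀ ψ, PGF ψ → ∀ (p q : ℕ) (u v : ℂ),
  ψ ![1 + u + v, u * v + u + v - 1] ![(p : ℤ) + 1, (q : ℤ) + 1] =
    ∑ κ ∈ Fintype.piFinset (fun _ : Fin 3 => Finset.Icc (-((p + q : ℕ) : ℤ)) (p + q : ℕ)),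
      (mlt p q κ : ℂ) * ps u v (q + 1 + κ 0) (q + 1 + κ 1)

def M_BRG : Prop := S_ALT → S_BRG

/-- MKG. Let `a = (p + 1, q + 1)`. For `u ≠ v`: `(u - v) ψ a ψ l = ψ a (ps (l 0 + l 1) (l 1) - ps (l 1) (l 0 + l 1))`. In BRG `mlt p q κ ≠ 0` implies `κ i ≥ -q` and
`κ i ≤ p`, so `ps (q + 1 + κ 0) (q + 1 + κ 1)` is an irreducible character with natural `P = q + κ 0`, `Q = q + κ 1` and S_MULT applies with it: the
coefficient of `ps (L + μ)` is `n μ = ∑ κ, mlt p q κ * mlt (q + κ 0) (q + κ 1) μ'`, where `μ' : Fin 3 → ℤ` has the differences `μ' 0 - μ' 1 = μ 0`,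
`μ' 1 - μ' 2 = μ 1` (if there is such a `μ'` with the right sum). `n (μ 1, μ 0) = n μ` (exchange `κ 0` and `κ 1`, and `mlt P Q μ' = mlt Q P (-μ')`); so
`ψ a ψ l = ∑ κ, m κ ψ (l + κ)`, `m κ = n (κ 0 + κ 1, κ 1)` for `x = ![1 + u + v, u v + u + v - 1]`, `u ≠ v`, and for all `x` by EXT. Bounds:
`mlt p q κ ≤ min p q + 1`, the number of `κ` is at most `(2 (p + q) + 1)²` (two coordinates determine the third), `mlt (q + κ 0) (q + κ 1) μ' ≤ p + q + 1`; so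
`m κ ≤ (min p q + 1) (2 (p + q) + 1)² (p + q + 1)`, and `dim a / sz² ≥ c (p + 1) (q + 1) (p + q + 2)²`,
`(min p q + 1) (p + q + 2) ≤ 2 (p + 1) (q + 1)`. -/
def S_MKG : Prop := ∀ ψ, PGF ψ → RDM (D3 ψ)

def M_MKG : Prop := S_ALT → S_MULT → S_EXT → S_BRG → S_MKG

/-- GKG. As GKA. -/
def S_GKG : Prop := ∀ ψ, PGF ψ → RDG (D3 ψ) M3

def M_GKG : Prop := S_PKG → S_GKG

end

end STZ
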