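import Pool.Agent.STZ.StmtsG

/-!
# Statements of the modules, block L: the lower bound on `SU(n)`

The functions `f m = ∏ j < n, (j-th leading principal minor) ^ m` are eigenfunctions with `∫ |f m|^(2s)` known. Module
`X` proves `theorem t_X : M_X` (or `t_X : S_X` if there is no `M_X`) in the file `Pool/Agent/STZ/X.lean`, namespace
`STZ`. Entries are numbered from `0`.
-/

namespace STZ

open MeasureTheory Matrix

open scoped ComplexConjugate Matrix Real ENNReal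

noncomputable section

/-- polynomials in the entries of a matrix -/
abbrev MP (n : ℕ) : Type := MvPolynomial (Fin n × Fin n) ℂ

/-- the value of a polynomial -/
def ev {n : ℕ} (A : Matrix (Fin n) (Fin n) ℂ) (F : MP n) : ℂ := MvPolynomial.eval (fun k => A k.1 k.2) F

/-- the derivation with `D Z (x i j) = (x Z) i j`: the derivative in the direction `Z` -/
def D {n : ℕ} (Z : Matrix (Fin n) (Fin n) ℂ) : Derivation ℂ (MP n) (MP n) :=
  MvPolynomial.mkDerivation ℂ fun k => ∑ l, MvPolynomial.C (Z l k.2) * MvPolynomial.X (k.1, l)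

/-- the leading principal minor of size `j` of the generic matrix -/
def mnP (n j : ℕ) : MP n :=
  Matrix.det (Matrix.of fun a b : {i : Fin n // (i : ℕ) < j} => (MvPolynomial.X (a.1, b.1) : MP n))

/-- the leading principal minor of size `j` of `A` -/
def mnr {n : ℕ} (j : ℕ) (A : Matrix (Fin n) (Fin n) ℂ) : ℂ :=
  Matrix.det (Matrix.of fun a b : {i : Fin n // (i : ℕ) < j} => A a.1 b.1)

/-- the polynomial of `f m` -/
def fmP (n m : ℕ) : MP n := ∏ j ∈ Finset.range n, mnP n j ^ m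

/-- POLY. Induction on `F`, with `CALF`. -/
def S_POLY : Prop := ∀ (n : ℕ) (F : MP n), C2 (fun g : SU n => ev g.1 F) ∧
  ∀ X ∈ su n, ∀ g : SU n, dX X (fun g => ev g.1 F) g = ev g.1 (D X F)

def M_POLY : Prop := S_CALC → S_POLY

/-- DALG. `D` is linear in `Z`, and `[D Z, D W] = D [Z, W]` (check both on the variables; a difference of two
derivations that vanishes on the variables is zero: `MvPolynomial.derivation_ext`; the commutator of derivations is a
derivation, `Derivation.commutator`). -/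
def S_DALG : Prop := ∀ (n : ℕ) (F : MP n),
  (∀ Z W : Matrix (Fin n) (Fin n) ℂ, D (Z + W) F = D Z F + D W F) ∧
  (∀ (c : ℂ) (Z : Matrix (Fin n) (Fin n) ℂ), D (c • Z) F = c • D Z F) ∧
  ∀ Z W : Matrix (Fin n) (Fin n) ℂ, D Z (D W F) - D W (D Z F) = D (Z * W - W * Z) F

/-- MINR. `D (E k l)` (`E k l = Matrix.single k l 1`) maps `x i j` to `x i k` if `j = l` and to `0` otherwise: so
`D (E k l) (mnP n j)` is `0` if `l ≥ j`, and otherwise the determinant where column `l` is replaced by column `k` (a derivation of a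
determinant is the sum over the columns). If `k ≤ l < j` this is `0` if `k < l` (two equal columns), and `mnP n j` if
`k = l`. The claims for `fmP` follow by the Leibniz rule; the number of `j < n` with `k < j` is `n - 1 - k`. -/
def S_MINR : Prop := ∀ (n m : ℕ), (∀ A : Matrix (Fin n) (Fin n) ℂ, ∀ j, ev A (mnP n j) = mnr j A) ∧
  (∀ k l : Fin n, k < l → D (Matrix.single k l (1 : ℂ)) (fmP n m) = 0) ∧
  ∀ k : Fin n, D (Matrix.single k k (1 : ℂ)) (fmP n m) = ((m : ℂ) * (n - 1 - (k : ℕ))) • fmP n m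

/-- CASM. `X a = ∑ k l, X a k l • E k l`, so `∑ a, D (X a) (D (X a) F) = ∑ (∑ a, X a k l * X a p q) D (E k l) (D (E p q) F)`; use CAS. -/
def S_CASM : Prop := ∀ (n : ℕ), 1 ≤ n → ∀ X : Fin (n ^ 2 - 1) → Matrix (Fin n) (Fin n) ℂ, Frame X →
  ∀ F : MP n, ∑ a, D (X a) (D (X a) F) = (-(1 / (2 * (n : ℂ)))) •
    ((∑ k, ∑ l, D (Matrix.single k l (1 : ℂ)) (D (Matrix.single l k (1 : ℂ)) F)) -
      (1 / (n : ℂ)) • ∑ k, ∑ l, D (Matrix.single k k (1 : ℂ)) (D (Matrix.single l l (1 : ℂ)) F))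

def M_CASM : Prop := S_CAS → S_DALG → S_CASM

/-- EIGM. Let `F = fmP n m`. For `k > l`: `D (E k l) (D (E l k) F) = 0` (MINR). For `k < l`: by DALG it is
`D (E k k - E l l) F + D (E l k) (D (E k l) F) = m (l - k) F`. For `k = l`: `m² (n-1-k)² F`. The sum over `k, l` is
`(m² n(n-1)(2n-1)/6 + m (n-1)n(n+1)/6) F`, the second sum of CASM is `m² (n(n-1)/2)² F`. The result is
`-(m² + 2m)(n² - 1)/24 F`. -/
def S_EIGM : Prop := ∀ (n : ℕ), 1 ≤ n → ∀ X : Fin (n ^ 2 - 1) → Matrix (Fin n) (Fin n) ℂ, Frame X →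
  ∀ m : ℕ, Eig X (((m : ℝ) ^ 2 + 2 * m) * ((n : ℝ) ^ 2 - 1) / 24) (fun g => ∏ j ∈ Finset.range n, mnr j g.1 ^ m)

def M_EIGM : Prop := S_POLY → S_DALG → S_MINR → S_CASM → S_EIGM

/-- `T j z = ∑ k ≥ j, |z k|²` -/
def T {N : ℕ} (j : ℕ) (z : Fin N → ℂ) : ℝ := ∑ k ∈ Finset.univ.filter (fun k : Fin N => j ≤ k), ‖z k‖ ^ 2

/-- CHAIN. Induction on `n`. `∫ φ(|z|²) dz = π ∫_(0,∞) φ(w) dw` on `ℂ` (polar coordinates). `n = 0`: that. Step: split off `z 0`
(`MeasurableEquiv.piFinSuccAbove`, `volume_preserving_piFinSuccAbove`): `T 0 z = |z 0|² + T 1 z`, and the `T j z`, `j ≥ 1`, are the sums for the tail.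
For fixed `z 0` use the induction hypothesis with `Ψ'(t) = t^s Ψ(|z 0|² + t)`:
`∫_w ∫_t t^((n-1)(s+1)) t^s Ψ(w + t) dt dw = ∫_u Ψ(u) (∫_(0,u) t^(n(s+1)-1) dt) du = ∫_u Ψ(u) u^(n(s+1)) / (n (s+1)) du`. -/
def S_CHAIN : Prop := ∀ (n : ℕ) (s : ℝ) (Ψ : ℝ → ℝ≥0∞), 0 ≤ s → Measurable Ψ →
  ∫⁻ z : Fin (n + 1) → ℂ, (∏ j ∈ Finset.Icc 1 n, ENNReal.ofReal (T j z ^ s)) * Ψ (T 0 z) =
    ENNReal.ofReal (π ^ (n + 1) / (n.factorial * (1 + s) ^ n)) *
      ∫⁻ t in Set.Ioi (0 : ℝ), ENNReal.ofReal (t ^ (n * (s + 1))) * Ψ t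

/-- UINV. Lebesgue measure on `ℂ^N` is invariant under unitary matrices. For the real linear map `z ↦ g z` the measure
`volume.map` is a constant multiple of `volume` (`MeasureTheory.Measure.map_linearMap_addHaar_eq_smul_addHaar`), and it preserves the
ball `∑ |z k|² ≤ 1`, of positive finite volume; so the constant is `1`. -/
def S_UINV : Prop := ∀ (N : ℕ) (g : SU N) (H : (Fin N → ℂ) → ℝ≥0∞), Measurable H →
  ∫⁻ z, H (g.1 *ᵥ z) = ∫⁻ z, H z

/-- TRAN. Let `x` be a unit vector with `x n ≠ 0`. For `j < n` let `c j = α j e j + β j (0, …, 0, x (j+1), …, x n)` with `α j > 0`,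
`α j² = T (j+1) x / T j x`, `β j = - conj (x j) α j / T (j+1) x`: a unit vector orthogonal to `x` and to the other `c i`. The matrix with
the columns `c 0, …, c (n-1), x` is unitary; multiply `c 0` by a number of absolute value `1` to get determinant `1`
(`n ≥ 1`). -/
def S_TRAN : Prop := ∀ (n : ℕ), 1 ≤ n → ∀ x : Fin (n + 1) → ℂ, T 0 x = 1 → x (Fin.last n) ≠ 0 →
  ∃ g : SU (n + 1), (∀ i, g.1 i (Fin.last n) = x i) ∧
    (∀ i j : Fin (n + 1), i < j → j ≠ Fin.last n → g.1 i j = 0) ∧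
    ∀ j : Fin (n + 1), j ≠ Fin.last n → ‖g.1 j j‖ ^ 2 = T (j + 1) x / T j x

/-- the matrix `h ⊕ 1` -/
def embM {n : ℕ} (h : Matrix (Fin n) (Fin n) ℂ) : Matrix (Fin (n + 1)) (Fin (n + 1)) ℂ :=
  Matrix.of fun i j => if hi : (i : ℕ) < n then if hj : (j : ℕ) < n then h ⟨i, hi⟩ ⟨j, hj⟩ else 0
    else if (j : ℕ) < n then 0 else 1

open Classical in
/-- the embedding of `SU(n)` in `SU(n + 1)` as the stabiliser of the last basis vector -/
def emb {n : ℕ} (h : SU n) : SU (n + 1) :=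
  if H : embM h.1 ∈ Matrix.specialUnitaryGroup (Fin (n + 1)) ℂ then ⟨_, H⟩ else 1

/-- the last column -/
def col {n : ℕ} (g : SU (n + 1)) (i : Fin (n + 1)) : ℂ := g.1 i (Fin.last n)

/-- facts about the embedding -/
structure EMBF (n : ℕ) : Prop where
  coe : ∀ h : SU n, (emb h).1 = embM h.1
  cont : Continuous (emb : SU n → SU (n + 1))
  mul : ∀ h k : SU n, emb (h * k) = emb h * emb k
  one : emb (1 : SU n) = 1
  col : ∀ (g : SU (n + 1)) (h : SU n), col (g * emb h) = col g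
  stab : ∀ g g' : SU (n + 1), STZ.col g = STZ.col g' → ∃ k : SU n, g' = g * emb k
  minor : ∀ (g : SU (n + 1)) (h : SU n),
    (∀ i j : Fin (n + 1), i < j → j ≠ Fin.last n → g.1 i j = 0) → ∀ j ≤ n,
    mnr j (g * emb h).1 =
      (∏ i ∈ Finset.univ.filter (fun i : Fin (n + 1) => (i : ℕ) < j), g.1 i i) * mnr j h.1
  full : ∀ h : SU n, mnr n h.1 = 1
  zero : ∀ h : SU n, mnr 0 h.1 = 1
  last : ∀ g : SU (n + 1), mnr n g.1 = conj (g.1 (Fin.last n) (Fin.last n))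

/-- EMB. `embM` is multiplicative and compatible with the adjoint and the determinant (reindex as `Matrix.fromBlocks h 0 0 1`). `stab`:
`g⁻¹ g'` fixes the last basis vector, it is unitary, so the last row is also that of the identity. `minor`: the rows and columns `< j` of
`g embM h`: as `g i k = 0` for `i < k < n` and `embM h` has the entry `0` at `(n, l)`, `l < n`, the block is the product of the
lower triangular block of `g` and the block of `h`. `last`: `g⁻¹ = gᴴ` is the adjugate of `g` (`det g = 1`), and the entry `(n, n)` of the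
adjugate is the minor `mnr n g` (`Matrix.adjugate_fin_succ_eq_det_submatrix`). -/
def S_EMB : Prop := ∀ n : ℕ, EMBF n

/-- FIB. Let `x = col g`. If `x n = 0` both sides are `0` (`EMBF.last`: the last entry of the product `g emb h` is that of `g`, `s > 0`;
`T n x = 0`). Otherwise let `g'` be the matrix of TRAN for `x`; `g = g' emb k` (`stab`), so by left invariance of `μ` we may take `g'` for
`g`. By `minor` `|mnr j (g' emb h)|² = (∏ i < j, T (i+1) x / T i x) |mnr j h|² = T j x |mnr j h|²` for `j ≤ n` (`T 0 x = 1`), and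
`mnr n h = 1`. -/
def S_FIB : Prop := ∀ (n : ℕ), 1 ≤ n → ∀ (s : ℝ), 0 < s → ∀ (μ : Measure (SU n)) [IsProbabilityMeasure μ]
  [μ.IsMulLeftInvariant] (g : SU (n + 1)),
  ∫ h, ∏ j ∈ Finset.range (n + 1), ‖mnr j (g * emb h).1‖ ^ (2 * s) ∂μ =
    (∏ j ∈ Finset.Icc 1 n, T j (col g) ^ s) * ∫ h, ∏ j ∈ Finset.range n, ‖mnr j h.1‖ ^ (2 * s) ∂μ

def M_FIB : Prop := S_TRAN → S_EMB → S_FIB

/-- SPH. By UINV and Tonelli `∫ Φ(z) exp(-|z|²) dz = ∫_z exp(-|z|²) ∫_g Φ(g z)`. For almost all `z` (`z n ≠ 0`): `z = |z| x`, `x = col k` by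
TRAN, so `Φ(g z) = Φ(g x) = Φ(col (g k))`, and `μ` is right invariant (HAAR). -/
def S_SPH : Prop := ∀ (n : ℕ), 1 ≤ n → ∀ (μ : Measure (SU (n + 1))) [IsProbabilityMeasure μ]
  [μ.IsMulLeftInvariant] (Φ : (Fin (n + 1) → ℂ) → ℝ≥0∞), Measurable Φ →
  (∀ (c : ℝ) (z : Fin (n + 1) → ℂ), 0 < c → Φ ((c : ℂ) • z) = Φ z) →
  (∫⁻ g, Φ (col g) ∂μ) * ∫⁻ z : Fin (n + 1) → ℂ, ENNReal.ofReal (Real.exp (-T 0 z)) =
    ∫⁻ z : Fin (n + 1) → ℂ, Φ z * ENNReal.ofReal (Real.exp (-T 0 z))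

def M_SPH : Prop := S_HAAR → S_UINV → S_TRAN → S_SPH

/-- MOM. SPH for `Φ(z) = ∏ j, (T j z / T 0 z)^s` (`T 0 (col g) = 1`), and CHAIN with `Ψ(t) = t^(-ns) exp(-t)`, and with `s = 0`,
`Ψ(t) = exp(-t)`; `∫_(0,∞) t^n exp(-t) dt = n!`. -/
def S_MOM : Prop := ∀ (n : ℕ), 1 ≤ n → ∀ (s : ℝ), 0 ≤ s → ∀ (μ : Measure (SU (n + 1)))
  [IsProbabilityMeasure μ] [μ.IsMulLeftInvariant],
  ∫ g, ∏ j ∈ Finset.Icc 1 n, T j (col g) ^ s ∂μ = ((1 + s) ^ n)⁻¹

def M_MOM : Prop := S_CHAIN → S_SPH → S_MOM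

/-- INTM. Induction on `n`. `n = 1`: `mnr 0 = 1`. Step: there is an invariant probability measure `ν` on `SU n` (`haarMeasure ⊤`);
by the right invariance of `μ` (HAAR) and Fubini `∫ F(g) dμ = ∫_g ∫_h F(g emb h) dν dμ`; FIB and MOM. -/
def S_INTM : Prop := ∀ (n : ℕ), 1 ≤ n → ∀ (s : ℝ), 0 < s → ∀ (μ : Measure (SU n)) [IsProbabilityMeasure μ]
  [μ.IsMulLeftInvariant],
  ∫ g, ∏ j ∈ Finset.range n, ‖mnr j g.1‖ ^ (2 * s) ∂μ = ((1 + s) ^ (n * (n - 1) / 2))⁻¹

def M_INTM : Prop := S_HAAR → S_EMB → S_FIB → S_MOM → S_INTM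

/-- FRN. There is a frame of `su(n)`: the form `-2 n tr(X Y)` is a positive definite inner product on the real vector space
`su(n)`, of dimension `n² - 1`. -/
def S_FRN : Prop := ∀ n : ℕ, 1 ≤ n → ∃ X : Fin (n ^ 2 - 1) → Matrix (Fin n) (Fin n) ℂ, Frame X

/-- LOW. Suppose `StrIneq n μ p a b C`; take a frame (FRN) and the single eigenfunction `f m` of EIGM with `κ = (m² + 2m)(n² - 1)/24`. By INTM with `s = p m/2`, `m`:
`(b - a) (1 + p m/2)^(-N) ≤ C ((1 + κ)^s (1 + m)^(-N))^(p/2)`, `N = n(n-1)/2`, `s = d/2 - (d+2)/p`, `d = n² - 1`. As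
`c m² ≤ 1 + κ ≤ C' m²` for `m ≥ 1` the right side is at most `C'' m^(s p - N p/2)`, and `s p - N p/2 = (d - N) p/2 - (d + 2) < -N` since
`p < 2 + 4/(d - N)`, `d - N = (n - 1)(n + 2)/2`. Contradiction for large `m`. -/
def M_LOW : Prop := S_FRN → S_EIGM → S_INTM → MainLower

end

end STZ
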