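import Pool.Agent.STZ.StmtsG
import Pool.Agent.STZ.DefsG

/-!
# Statements of the modules, block M: closed subgroups `H` of `SU(N)` with combinatorial data of rank `r`

Module `X` proves `theorem t_X : M_X` (or `t_X : S_X` if there is no `M_X`) in the file
`Pool/Agent/STZ/X.lean`, namespace `STZ`. The modules CALH, GRH, SWH, TENH are the versions for `H` of the modules
CALC, GREEN, SW, TENS (files in this folder, look there for the proofs); ORTG, INTGG, IRRG, CPLG, CGG, SDG, EIGG are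
general versions of ORT3, INTG, IRR3, CPL3, CG, SD3, EIG3. The topological facts: `↥H` is a topological group,
second countable, Hausdorff, a Borel space (instances); compact if `H` is closed
(`isCompact_iff_compactSpace`).
-/

namespace STZ

open MeasureTheory Matrix

open scoped ComplexConjugate Matrix Real

noncomputable section

/-- closure properties of `C1H` and `C2H`, and rules for the derivatives -/
structure CALFH {N : ℕ} (H : Subgroup (SU N)) : Prop where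
  const : ∀ c : ℂ, C2H (fun _ : H => c)
  add : ∀ f h : H → ℂ, C2H f → C2H h → C2H (fun g => f g + h g)
  mul : ∀ f h : H → ℂ, C2H f → C2H h → C2H (fun g => f g * h g)
  cj : ∀ f : H → ℂ, C2H f → C2H (fun g => conj (f g))
  entry : ∀ i j, C2H (fun g : H => g.1.1 i j)
  left : ∀ (h : H) (f : H → ℂ), C2H f → C2H (fun g => f (h * g))
  add1 : ∀ f h : H → ℂ, C1H f → C1H h → C1H (fun g => f g + h g)
  mul1 : ∀ f h : H → ℂ, C1H f → C1H h → C1H (fun g => f g * h g)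
  left1 : ∀ (h : H) (f : H → ℂ), C1H f → C1H (fun g => f (h * g))
  dconst : ∀ (X : Matrix (Fin N) (Fin N) ℂ) (c : ℂ) (g : H), dH X (fun _ => c) g = 0
  dadd : ∀ X ∈ lie H, ∀ f h : H → ℂ, C1H f → C1H h → ∀ g,
    dH X (fun g => f g + h g) g = dH X f g + dH X h g
  dmul : ∀ X ∈ lie H, ∀ f h : H → ℂ, C1H f → C1H h → ∀ g,
    dH X (fun g => f g * h g) g = dH X f g * h g + f g * dH X h g
  dconj : ∀ X ∈ lie H, ∀ f : H → ℂ, C1H f → ∀ g,
    dH X (fun g => conj (f g)) g = conj (dH X f g)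
  dentry : ∀ X ∈ lie H, ∀ (i j : Fin N) (g : H), dH X (fun g => g.1.1 i j) g = (g.1.1 * X) i j
  dleft : ∀ X ∈ lie H, ∀ (h : H) (f : H → ℂ), C1H f → ∀ g,
    dH X (fun g => f (h * g)) g = dH X f (h * g)
  exadd : ∀ X ∈ lie H, ∀ s t : ℝ, exH H X (s + t) = exH H X s * exH H X t
  exzero : ∀ X ∈ lie H, exH H X 0 = 1
  excont : ∀ X ∈ lie H, Continuous (exH H X)

/-- CALH. As CALC. -/
def S_CALH : Prop := ∀ (N : ℕ) (H : Subgroup (SU N)), CALFH H

def M_CALH : Prop := S_EXP → S_CALH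

/-- GRH. As GREEN. -/
def S_GRH : Prop := ∀ (N : ℕ) (H : Subgroup (SU N)), IsClosed (H : Set (SU N)) →
  ∀ (μ : Measure H) [IsProbabilityMeasure μ] [μ.IsMulLeftInvariant],
  (∀ X ∈ lie H, ∀ f : H → ℂ, C1H f → ∫ g, dH X f g ∂μ = 0) ∧
  ∀ (c : ℝ) (d : ℕ) (X : Fin d → Matrix (Fin N) (Fin N) ℂ), FrameH H c X → ∀ f h : H → ℂ, C2H f →
    C2H h → ∫ g, lapH X f g * h g ∂μ = ∫ g, f g * lapH X h g ∂μ

def M_GRH : Prop := S_HAAR → S_CALH → S_GRH

/-- SWH. As SW. -/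
def S_SWH : Prop := ∀ (N : ℕ) (H : Subgroup (SU N)), IsClosed (H : Set (SU N)) →
  ∀ (μ : Measure H) [IsProbabilityMeasure μ] (f : H → ℂ),
  Continuous f → (∀ (i j : ℕ) (p q : Fin i → Fin N) (p' q' : Fin j → Fin N),
    ∫ g, f g * ((∏ s, g.1.1 (p s) (q s)) * ∏ s, conj (g.1.1 (p' s) (q' s))) ∂μ = 0) →
  nsq μ f = 0

/-- TENH. Restrict the representations of TENS to `H`. -/
def S_TENH : Prop := ∀ (N : ℕ) (H : Subgroup (SU N)) (i j : ℕ),
  ∃ R : Rep H ((Fin i → Fin N) × (Fin j → Fin N)),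
  (∀ g p q, R.ρ g p q = (∏ s, g.1.1 (p.1 s) (q.1 s)) * ∏ s, conj (g.1.1 (p.2 s) (q.2 s))) ∧
  ∀ g, R.ch g = g.1.1.trace ^ i * conj g.1.1.trace ^ j

def M_TENH : Prop := S_TENS → S_TENH

/-- virtual characters: integer combinations of characters -/
def VC {G : Type} [Group G] [TopologicalSpace G] (f : G → ℂ) : Prop :=
  ∃ (m : ℕ) (M : Fin m → ℕ) (R : ∀ j, Rep G (Fin (M j))) (n : Fin m → ℤ),
    ∀ g, f g = ∑ j, (n j : ℂ) * (R j).ch g

/-- VRING. The virtual characters form a ring. Constants: the trivial representation. Products: the tensor product (Kronecker product,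
`finProdFinEquiv`) of two representations. The last claim: a representation on any finite index type is equivalent to one on `Fin n`. -/
def S_VRING : Prop := ∀ (G : Type) [Group G] [TopologicalSpace G],
  (∀ n : ℤ, VC (fun _ : G => (n : ℂ))) ∧
  (∀ f h : G → ℂ, VC f → VC h → VC (fun g => f g + h g)) ∧
  (∀ f h : G → ℂ, VC f → VC h → VC (fun g => f g * h g)) ∧
  (∀ f : G → ℂ, VC f → VC (fun g => conj (f g))) ∧
  ∀ (ι : Type) [Fintype ι] [DecidableEq ι] (R : Rep G ι), VC R.ch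

/-- EXSQ. The exterior square and the symmetric square: `(tr² ± tr(g²)) / 2` are characters of representations of any closed
matrix group: here the difference, the exterior square, as a representation on the pairs `i < j`, or on all pairs after projecting, or
as a virtual character. (The matrix of the exterior square in the orthonormal basis `e i ∧ e j`, `i < j`, has the entries
`g i k g j l - g i l g j k`; it is unitary.) -/
def S_EXSQ : Prop := ∀ (N : ℕ) (H : Subgroup (SU N)),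
  VC (fun g : H => (g.1.1.trace ^ 2 - (g.1.1 * g.1.1).trace) / 2)

def M_EXSQ : Prop := S_VRING → S_EXSQ

/-- regular dominant weights, in the coordinates of the fundamental weights -/
def Reg {r : ℕ} (l : Fin r → ℤ) : Prop := ∀ i, 1 ≤ l i

/-- combinatorial data of rank `r`, in the coordinates of the fundamental weights: the Weyl group `W` as a set of integer
matrices (the sign is the determinant), the quadratic form `Q` with polar form `A`, the weights `S i` with multiplicities `P i`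
of the functions `x i`, the duality `st`, the polynomials `ψ x l` in `x` (for regular dominant `l` the characters, `l` is the highest
weight plus `(1, …, 1)`), the values `ξ` of `x` at the identity, the dimensions, and the number `e` of the roots -/
structure RD (r : ℕ) where
  W : Finset (Matrix (Fin r) (Fin r) ℤ)
  Q : (Fin r → ℤ) → ℤ
  A : Matrix (Fin r) (Fin r) ℤ
  S : Fin r → Finset (Fin r → ℤ)
  P : Fin r → (Fin r → ℤ) → ℤ
  st : Equiv.Perm (Fin r)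
  ψ : (Fin r → ℂ) → (Fin r → ℤ) → ℂ
  ξ : Fin r → ℂ
  dim : (Fin r → ℤ) → ℤ
  e : ℕ

/-- the properties of the combinatorial data -/
structure RDF {r : ℕ} (D : RD r) : Prop where
  r2 : 2 ≤ r
  W_one : 1 ∈ D.W
  W_mul : ∀ w ∈ D.W, ∀ w' ∈ D.W, w * w' ∈ D.W
  W_inv : ∀ w ∈ D.W, ∃ w' ∈ D.W, w' * w = 1
  Q_W : ∀ w ∈ D.W, ∀ l, D.Q (w *ᵥ l) = D.Q l
  S_W : ∀ i, ∀ w ∈ D.W, ∀ κ ∈ D.S i, w *ᵥ κ ∈ D.S i
  P_W : ∀ i, ∀ w ∈ D.W, ∀ κ, D.P i (w *ᵥ κ) = D.P i κ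
  S_st : ∀ i κ, κ ∈ D.S (D.st i) ↔ -κ ∈ D.S i
  P_st : ∀ i κ, D.P (D.st i) κ = D.P i (-κ)
  st2 : ∀ i, D.st (D.st i) = i
  w0 : ∃ w ∈ D.W, ∀ κ, w *ᵥ κ = -(κ ∘ D.st)
  anti : ∀ w ∈ D.W, ∀ x l, D.ψ x (w *ᵥ l) = (w.det : ℂ) * D.ψ x l
  wall : ∀ x l i, l i = 0 → D.ψ x l = 0
  one : ∀ x, D.ψ x 1 = 1
  rule : ∀ i x l, x i * D.ψ x l = ∑ κ ∈ D.S i, (D.P i κ : ℂ) * D.ψ x (l + κ)
  str : ∀ l, ∃ w ∈ D.W, ∀ i, 0 ≤ (w *ᵥ l) i
  free : ∀ l, Reg l → ∀ w ∈ D.W, Reg (w *ᵥ l) → w = 1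
  top : ∀ i, Pi.single i 1 ∈ D.S i ∧ D.P i (Pi.single i 1) = 1
  lt : ∀ i l, Reg l → ∀ κ ∈ D.S i, κ ≠ Pi.single i 1 → D.Q (l + κ) < D.Q (l + Pi.single i 1)
  chm : ∀ a b, (∀ i, 0 ≤ a i) → (∀ i, 0 ≤ b i) → ∀ w ∈ D.W, D.Q (a - b) ≤ D.Q (a - w *ᵥ b)
  qf : QF D.Q D.A
  pd : ∃ c : ℝ, 0 < c ∧ ∀ l, c * (sz l - 1) ^ 2 ≤ D.Q l ∧ c * D.Q l ≤ (sz l - 1) ^ 2
  rho : ∀ l, Reg l → l ≠ 1 → D.Q 1 < D.Q l
  dim_eq : ∀ l, D.ψ D.ξ l = D.dim l
  dim_pos : ∀ l, Reg l → 0 < D.dim l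
  dim_le : ∃ C : ℝ, ∀ l, Reg l → (D.dim l : ℝ) ≤ C * sz l ^ ((D.e : ℝ) / 2)
  mult : ∃ C : ℝ, ∀ a, Reg a → ∃ (T : Finset (Fin r → ℤ)) (m : (Fin r → ℤ) → ℤ),
    (∀ x l, D.ψ x a * D.ψ x l = ∑ κ ∈ T, (m κ : ℂ) * D.ψ x (l + κ)) ∧
    ∀ κ ∈ T, |(m κ : ℝ)| * sz a ^ r ≤ C * D.dim a ∧ sz κ ≤ C * sz a

/-- group data: class functions `x i` on `H` with the Laplace operator of the metric `-c tr(X Y)` -/
structure GF {N : ℕ} (H : Subgroup (SU N)) (c : ℝ) (d : ℕ) {r : ℕ} (D : RD r) (x : Fin r → H → ℂ)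
    (k : ℝ) : Prop where
  closed : IsClosed (H : Set (SU N))
  kpos : 0 < k
  dimd : d = D.e + r
  frame : ∃ X : Fin d → Matrix (Fin N) (Fin N) ℂ, FrameH H c X
  cj : ∀ i g, conj (x i g) = x (D.st i) g
  cls : ∀ i g h, x i (g * h) = x i (h * g)
  xone : ∀ i, x i 1 = D.ξ i
  cont : ∀ i, Continuous (x i)
  virt : ∀ i, VC (x i)
  tr : ∃ F : MvPolynomial (Fin r) ℤ, ∀ g : H, g.1.1.trace = MvPolynomial.aeval (fun i => x i g) F
  lap : ∀ X : Fin d → Matrix (Fin N) (Fin N) ℂ, FrameH H c X → ∀ l, Reg l →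
    C2H (fun g : H => D.ψ (fun i => x i g) l) ∧
    ∀ g, lapH X (fun g : H => D.ψ (fun i => x i g) l) g =
      -((k : ℂ) * ((D.Q l : ℂ) - D.Q 1)) * D.ψ (fun i => x i g) l

/-- INTGG. (1) Strong induction on `Q l` (a natural number by `pd`) for all `l`: by `str`, `anti`, `wall` we may assume `Reg l`; `l = 1` is `one`;
otherwise `l i ≥ 2` for some `i`, `l = l' + e i`, `Reg l'`, and `ψ l = x i ψ l' - ∑ κ ≠ e i, P i κ ψ (l' + κ)` by `rule` and `top`, with `Q (l' + κ) < Q l`. (2) Induction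
on `F`, with `rule`, and `str`, `anti`, `wall` for the products. (3) By (1) with real (integer) coefficients. (4) `φ l = ψ (x ∘ st) (l ∘ st)`
satisfies the same recursion as `ψ x` (`P (st i) (κ ∘ st) = P i κ` by `w0`, `P_st`, `P_W`, and similarly for `S`), so by the induction of (1) they are
equal. -/
def S_INTGG : Prop := ∀ (r : ℕ) (D : RD r), RDF D →
  (∀ l, ∃ F : MvPolynomial (Fin r) ℤ, ∀ x, D.ψ x l = MvPolynomial.aeval x F) ∧
  (∀ F : MvPolynomial (Fin r) ℤ, ∃ (T : Finset (Fin r → ℤ)) (n : (Fin r → ℤ) → ℤ), (∀ l ∈ T, Reg l) ∧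
    ∀ x : Fin r → ℂ, MvPolynomial.aeval x F = ∑ l ∈ T, (n l : ℂ) * D.ψ x l) ∧
  (∀ x l, conj (D.ψ x l) = D.ψ (fun i => conj (x i)) l) ∧
  ∀ x l, D.ψ (x ∘ D.st) l = D.ψ x (l ∘ D.st)

/-- ORTG. Let `B l l' = ∫ ψ l conj (ψ l')` for all `l, l'`, and `E l l' = ∑ w ∈ W, det w [w l = l']`. `B = E` for `l'` arbitrary and
`l` with all coordinates `≥ 0` or arbitrary, by strong induction on `Q l`: both change by `det w` under `W` in each variable, and vanish if a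
coordinate is `0`, so let `Reg l`. `l = 1`: reduce to `Reg l'` too; `∫ conj (ψ l') = 0` if `l' ≠ 1` by GREEN (GRH with `h = 1`), `GF.lap` and `rho`. Otherwise
`l = l₀ + e i`, `ψ l = x i ψ l₀ - ∑ κ ≠ e i …`; `∫ x i ψ l₀ conj (ψ l') = ∫ ψ l₀ conj (x (st i) ψ l')`, expand by `rule`, and
`∑ κ, P (st i) κ E l₀ (l' + κ) = ∑ κ, P i κ E (l₀ + κ) l'` by `P_st`, `P_W`. For `Reg l`, `Reg l'`: `E l l' = [l = l']` by `free`. -/
def S_ORTG : Prop := ∀ (N : ℕ) (H : Subgroup (SU N)) (c : ℝ) (d r : ℕ) (D : RD r) (x : Fin r → H → ℂ)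
  (k : ℝ), RDF D → GF H c d D x k →
  ∀ (μ : Measure H) [IsProbabilityMeasure μ] [μ.IsMulLeftInvariant] (l l' : Fin r → ℤ), Reg l → Reg l' →
    ∫ g, D.ψ (fun i => x i g) l * conj (D.ψ (fun i => x i g) l') ∂μ = if l = l' then 1 else 0

def M_ORTG : Prop := S_CALH → S_GRH → S_INTGG → S_ORTG

/-- the shifted highest weight of `a ∈ ℕ^r` -/
def wG {r : ℕ} (a : Fin r → ℕ) : Fin r → ℤ := fun i => (a i : ℤ) + 1

/-- the characters -/
def cG {N : ℕ} {H : Subgroup (SU N)} {r : ℕ} (D : RD r) (x : Fin r → H → ℂ) (a : Fin r → ℕ) (g : H) : ℂ :=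
  D.ψ (fun i => x i g) (wG a)

/-- IRRG. As IRR3: by INTGG and VRING the functions `cG a` are virtual characters, VIRT, ORTG. -/
def S_IRRG : Prop := ∀ (N : ℕ) (H : Subgroup (SU N)) (c : ℝ) (d r : ℕ) (D : RD r) (x : Fin r → H → ℂ)
  (k : ℝ), RDF D → GF H c d D x k →
  ∀ (μ : Measure H) [IsProbabilityMeasure μ] [μ.IsMulLeftInvariant], IrrFam (cG D x)

def M_IRRG : Prop := S_VIRT → S_VRING → S_INTGG → S_ORTG → S_IRRG

/-- CPLG. As CPL3. The character of the representation of TENH is a polynomial in `x` (`GF.tr`, `GF.cj`), so a combination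
of the `cG a` by INTGG. -/
def S_CPLG : Prop := ∀ (N : ℕ) (H : Subgroup (SU N)) (c : ℝ) (d r : ℕ) (D : RD r) (x : Fin r → H → ℂ)
  (k : ℝ), RDF D → GF H c d D x k →
  ∀ (μ : Measure H) [IsProbabilityMeasure μ] [μ.IsMulLeftInvariant] (f : H → ℂ), Continuous f →
    (∀ a, Pr μ (KK (cG D x)) {a} f = 0) → f = 0

def M_CPLG : Prop := S_HAAR → S_KB → S_KERI → S_ALLI → S_TENH → S_SWH → S_INTGG → S_IRRG → S_CPLG

/-- CGG. Products, for all `x`: `RDF.mult` with `l = b`; every `ψ x (b + κ)` is `0` or `± ψ x ν` with `ν = w (b + κ)`, `Reg ν` (`str`, `wall`, `anti`); a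
given `ν` is reached from at most `|W|` different `κ = w⁻¹ ν - b`. `Q (ν - b) ≤ Q (κ)` by `chm` for `a = b`, `b = ν` and `w⁻¹`: `Q (b - ν) ≤ Q (b - w⁻¹ ν)`;
`pd` compares `Q` and `sz`. -/
def S_CGG : Prop := ∀ (r : ℕ) (D : RD r), RDF D → ∃ C : ℝ, ∀ a b, Reg a → Reg b →
  ∃ (T : Finset (Fin r → ℤ)) (n : (Fin r → ℤ) → ℤ),
    (∀ x, D.ψ x a * D.ψ x b = ∑ ν ∈ T, (n ν : ℂ) * D.ψ x ν) ∧
    ∀ ν ∈ T, Reg ν ∧ |(n ν : ℝ)| * sz a ^ r ≤ C * D.dim a ∧ sz (ν - b) ≤ C * sz a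

/-- SDG. As SD3. By ORTG the coefficient `n ν` of `ψ ν` in `ψ a ψ b` is `∫ ψ a ψ b conj (ψ ν)`, also the coefficient of `ψ (a ∘ st)` in
`ψ (ν ∘ st) ψ b` (INTGG (3), (4), `GF.cj`). `sz` and `dim` are invariant under `st` (`ξ ∘ st = ξ` by `GF.xone`, `GF.cj` and `ξ` real). -/
def S_SDG : Prop := ∀ (N : ℕ) (H : Subgroup (SU N)) (c : ℝ) (d r : ℕ) (D : RD r) (x : Fin r → H → ℂ)
  (k : ℝ), RDF D → GF H c d D x k →
  ∀ (μ : Measure H) [IsProbabilityMeasure μ] [μ.IsMulLeftInvariant],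
    ∃ C : ℝ, SData μ (KK (cG D x)) r (D.e : ℝ) wG D.st C

def M_SDG : Prop := S_KERI → S_INTGG → S_ORTG → S_IRRG → S_CGG → S_SDG

/-- EIGG. As EIG3. -/
def S_EIGG : Prop := ∀ (N : ℕ) (H : Subgroup (SU N)) (c : ℝ) (d r : ℕ) (D : RD r) (x : Fin r → H → ℂ)
  (k : ℝ), RDF D → GF H c d D x k →
  ∀ (μ : Measure H) [IsProbabilityMeasure μ] [μ.IsMulLeftInvariant]
  (X : Fin d → Matrix (Fin N) (Fin N) ℂ), FrameH H c X → ∀ (κ : ℝ) (f : H → ℂ), EigH X κ f →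
  ∃ S : Finset (Fin r → ℕ), (∀ a ∈ S, κ = k * ((D.Q (wG a) : ℝ) - D.Q 1)) ∧ Pr μ (KK (cG D x)) S f = f

def M_EIGG : Prop := S_KB → S_KERI → S_CALH → S_GRH → S_IRRG → S_CPLG → S_EIGG

end

end STZ
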