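import Pool.Agent.STZ.StmtsZ

/-!
# Statements of the modules, block P: the root system `A_r` and the group `SU(r + 1)`

The paper proof is in `SUN_PAPER.md` (Section 10). All formulas were checked by a computer for `n = 3, 4`. Module `X` proves `theorem t_X : M_X` (or `t_X : S_X` if there is no
`M_X`) in the file `Pool/Agent/STZ/X.lean`, namespace `STZ`. `n = r + 1`. Weights `l : Fin r → ℤ` (fundamental weight coordinates) correspond to sequences `m : Fin (r + 1) → ℤ` modulo constants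
(partition coordinates): `m = cum l`, `l = dif m`.
-/

namespace STZ

open MeasureTheory Matrix

open scoped ComplexConjugate Matrix Real

noncomputable section

/-- the partition coordinates of a weight; the last one is `0` -/
def cum {r : ℕ} (l : Fin r → ℤ) (j : Fin (r + 1)) : ℤ := ∑ i : Fin r, if j.val ≤ i.val then l i else 0

/-- the weight with given partition coordinates -/
def dif {r : ℕ} (m : Fin (r + 1) → ℤ) (i : Fin r) : ℤ := m i.castSucc - m i.succ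

/-- the action of a permutation of the partition coordinates on the weights -/
def wA {r : ℕ} (σ : Equiv.Perm (Fin (r + 1))) : Matrix (Fin r) (Fin r) ℤ :=
  Matrix.of fun i k => (if (σ i.castSucc).val ≤ k.val then 1 else 0) -
    (if (σ i.succ).val ≤ k.val then 1 else 0)

/-- the pairs `a < b` -/
def prs (r : ℕ) : Finset (Fin (r + 1) × Fin (r + 1)) := Finset.univ.filter fun p => p.1 < p.2

/-- the elementary symmetric functions of degree `k` -/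
def esk {n : ℕ} (v : Fin n → ℂ) (k : ℕ) : ℂ := ∑ I ∈ Finset.univ.powersetCard k, ∏ j ∈ I, v j

/-- the elementary symmetric functions of degree `1, …, r` -/
def esA {r : ℕ} (v : Fin (r + 1) → ℂ) (i : Fin r) : ℂ := esk v (i.val + 1)

/-- `1, x 0, …, x (r - 1), 1` -/
def ee {r : ℕ} (x : Fin r → ℂ) : ℕ → ℂ
  | 0 => 1
  | k + 1 => if h : k < r then x ⟨k, h⟩ else if k = r then 1 else 0

/-- the companion matrix of the polynomial `X^(r+1) - x 0 X^r + x 1 X^(r-1) - … ± 1` -/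
def CA {r : ℕ} (x : Fin r → ℂ) : Matrix (Fin (r + 1)) (Fin (r + 1)) ℂ :=
  Matrix.of fun i j => if j.val < r then (if i.val = j.val + 1 then 1 else 0) else
    (-1) ^ (r - i.val) * ee x (r + 1 - i.val)

/-- the characters: the determinant of the vectors `C^(m j) e 0`, `m = cum l` (in the order `j = r, …, 0`) -/
def psA {r : ℕ} (x : Fin r → ℂ) (l : Fin r → ℤ) : ℂ :=
  Matrix.det (Matrix.of fun i j : Fin (r + 1) => (CA x ^ cum l j.rev) i 0)

/-- the combinatorial data of `SU(r + 1)` -/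
def DA (r : ℕ) : RD r where
  W := Finset.univ.image wA
  Q := fun l => ∑ p ∈ prs r, (cum l p.1 - cum l p.2) ^ 2
  A := Matrix.of fun i k => ∑ p ∈ prs r, 2 * (cum (Pi.single i 1 : Fin r → ℤ) p.1 -
    cum (Pi.single i 1 : Fin r → ℤ) p.2) * (cum (Pi.single k 1 : Fin r → ℤ) p.1 -
    cum (Pi.single k 1 : Fin r → ℤ) p.2)
  S := fun i => (Finset.univ.powersetCard (i.val + 1)).image fun I : Finset (Fin (r + 1)) => dif (ind I)
  P := fun _ _ => 1
  st := Fin.revPerm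
  ψ := psA
  ξ := fun i => ((r + 1).choose (i.val + 1) : ℂ)
  dim := fun l => (∏ p ∈ prs r, (cum l p.1 - cum l p.2)) / ∏ p ∈ prs r, ((p.2.val : ℤ) - p.1.val)
  e := r * (r + 1)

/-- `∑ s < a, (-1)^s e (a - 1 - s) g^(s+1)` -/
def GG {r : ℕ} (x : Fin r → ℂ) (a : ℕ) (g : Matrix (Fin (r + 1)) (Fin (r + 1)) ℂ) :
    Matrix (Fin (r + 1)) (Fin (r + 1)) ℂ :=
  ∑ s ∈ Finset.range a, ((-1) ^ s * ee x (a - 1 - s)) • g ^ (s + 1)

/-- the polynomials of `RDG` for `SU(r + 1)` -/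
def MA (r : ℕ) (i j : Fin r) (x : Fin r → ℂ) : ℂ :=
  2 * (((r : ℂ) + 1) * (GG x (i.val + 1) (CA x) * GG x (j.val + 1) (CA x)).trace -
    ((i.val : ℂ) + 1) * ((j.val : ℂ) + 1) * x i * x j)

/-! ### combinatorics -/

/-- basic rules -/
structure CUF (r : ℕ) : Prop where
  cd : ∀ l : Fin r → ℤ, dif (cum l) = l
  dc : ∀ (m : Fin (r + 1) → ℤ) j, cum (dif m) j = m j - m (Fin.last r)
  last : ∀ l : Fin r → ℤ, cum l (Fin.last r) = 0
  cadd : ∀ (l l' : Fin r → ℤ) j, cum (l + l') j = cum l j + cum l' j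
  one : ∀ j : Fin (r + 1), cum (1 : Fin r → ℤ) j = r - j.val
  dot : ∀ (l : Fin r → ℤ) (a b : Fin (r + 1)), a < b →
    cum l a - cum l b = (fun i : Fin r => if a.val ≤ i.val ∧ i.val < b.val then (1 : ℤ) else 0) ⬝ᵥ l
  wl : ∀ (σ : Equiv.Perm (Fin (r + 1))) (l : Fin r → ℤ), wA σ *ᵥ l = dif (cum l ∘ σ)
  wc : ∀ (σ : Equiv.Perm (Fin (r + 1))) (l : Fin r → ℤ) j,
    cum (wA σ *ᵥ l) j = cum l (σ j) - cum l (σ (Fin.last r))
  wone : wA (1 : Equiv.Perm (Fin (r + 1))) = 1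
  wmul : ∀ σ τ : Equiv.Perm (Fin (r + 1)), wA σ * wA τ = wA (τ * σ)
  wdet : ∀ σ : Equiv.Perm (Fin (r + 1)), (wA σ).det = (Equiv.Perm.sign σ : ℤ)
  winj : Function.Injective (wA : Equiv.Perm (Fin (r + 1)) → Matrix (Fin r) (Fin r) ℤ)
  wrev : ∀ l : Fin r → ℤ, wA (Fin.revPerm : Equiv.Perm (Fin (r + 1))) *ᵥ l = -(l ∘ Fin.revPerm)
  dinj : ∀ I J : Finset (Fin (r + 1)), I.card = J.card → dif (ind I) = dif (ind J) → I = J
  dw : ∀ (σ : Equiv.Perm (Fin (r + 1))) (I : Finset (Fin (r + 1))),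
    wA σ *ᵥ dif (ind I) = dif (ind (I.map σ.symm.toEmbedding))
  single : ∀ i : Fin r, dif (ind (Finset.Iic i.castSucc)) = Pi.single i 1
  pol : ∀ x y : Fin r → ℤ, x ⬝ᵥ ((DA r).A *ᵥ y) =
    ∑ p ∈ prs r, 2 * (cum x p.1 - cum x p.2) * (cum y p.1 - cum y p.2)
  psum : ∀ x y : Fin (r + 1) → ℤ, ∑ p ∈ prs r, 2 * (x p.1 - x p.2) * (y p.1 - y p.2) =
    2 * ((r + 1) * ∑ j, x j * y j - (∑ j, x j) * ∑ j, y j)

/-- CUMA. `wl`: `cum l j = ∑ k, [j ≤ k] l k`. `dc`: telescoping. `wmul`: apply both sides to `l`; `cum (dif m) = m - const`. `wdet`: `wmul`, `wone`, and `Equiv.Perm.swap_induction_on`; for the transposition of `a < b` the matrix is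
`1 - α c`, `α = dif (e a - e b)`, `c` the row of `dot`, so the determinant is `1 - c·α = 1 - 2` (`Matrix.det_one_add_replicateCol_mul_replicateRow` or the like). `winj`: apply to `l = 1`, `cum 1 j = r - j`:
`σ j - σ (last) = τ j - τ (last)` for all `j`. `pol`: `cum` is linear. `psum`: the double sum over all pairs. -/
def S_CUMA : Prop := ∀ r : ℕ, CUF r

/-- the part of `RDW` about the group -/
structure WA1 (r : ℕ) : Prop where
  W_one : 1 ∈ (DA r).W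
  W_mul : ∀ w ∈ (DA r).W, ∀ w' ∈ (DA r).W, w * w' ∈ (DA r).W
  W_inv : ∀ w ∈ (DA r).W, ∃ w' ∈ (DA r).W, w' * w = 1
  W_det : ∀ w ∈ (DA r).W, w.det = 1 ∨ w.det = -1
  w0 : ∃ w ∈ (DA r).W, ∀ κ : Fin r → ℤ, w *ᵥ κ = -(κ ∘ (DA r).st)
  refl : ∀ i, ∃ w ∈ (DA r).W, w.det = -1 ∧ ∀ l : Fin r → ℤ, l i = 0 → w *ᵥ l = l
  str : ∀ l : Fin r → ℤ, ∃ w ∈ (DA r).W, ∀ i, 0 ≤ (w *ᵥ l) i
  free : ∀ l : Fin r → ℤ, Reg l → ∀ w ∈ (DA r).W, Reg (w *ᵥ l) → w = 1
  st2 : ∀ i, (DA r).st ((DA r).st i) = i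

/-- WAA1. `refl`: the transposition of `i.castSucc` and `i.succ`. `str`: `Tuple.sort` (of `-cum l`). `free`: `cum l` and `cum l ∘ σ` are strictly decreasing, so `σ = 1`. -/
def S_WAA1 : Prop := ∀ r : ℕ, WA1 r

def M_WAA1 : Prop := S_CUMA → S_WAA1

/-- the part of `RDW` about the quadratic form -/
structure WA2 (r : ℕ) : Prop where
  Q_W : ∀ w ∈ (DA r).W, ∀ l, (DA r).Q (w *ᵥ l) = (DA r).Q l
  chm : ∀ a b : Fin r → ℤ, (∀ i, 0 ≤ a i) → (∀ i, 0 ≤ b i) → ∀ w ∈ (DA r).W,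
    (DA r).Q (a - b) ≤ (DA r).Q (a - w *ᵥ b)
  qf : QF (DA r).Q (DA r).A
  pd : ∃ c : ℝ, 0 < c ∧ ∀ l, c * (sz l - 1) ^ 2 ≤ (DA r).Q l ∧ c * (DA r).Q l ≤ (sz l - 1) ^ 2
  rho : ∀ l, Reg l → l ≠ 1 → (DA r).Q 1 < (DA r).Q l

/-- WAA2. By `psum`: `Q l = ∑ p, (m p.1 - m p.2)²` with `m = cum l`, and `2 Q l = ∑ a b, (m a - m b)²` is invariant under permutations and constants. `chm`: by the polar form it is
`∑ j, m j m' (σ j) ≤ ∑ j, m j m' j` for decreasing `m`, `m'` (`Monovary.sum_mul_comp_perm_le_sum_mul`). `qf`: `det A ≠ 0`: if `A l = 0` then `0 = l·Al = 2 Q l`, `l = 0` (`Matrix.exists_mulVec_eq_zero_iff`). `pd`: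
`∑ i, (l i)² ≤ Q l ≤ (r+1)² (∑ |l i|)²` and `(∑ |l i|)² ≤ r ∑ (l i)²` (`r = 0`: all is `0`). `rho`: `m a - m b ≥ b - a`, with a strict inequality for some `a`, `b = a + 1`. -/
def S_WAA2 : Prop := ∀ r : ℕ, WA2 r

def M_WAA2 : Prop := S_CUMA → S_WAA2

/-- the part of `RDW` about the weights `S` -/
structure WA3 (r : ℕ) : Prop where
  S_W : ∀ i, ∀ w ∈ (DA r).W, ∀ κ ∈ (DA r).S i, w *ᵥ κ ∈ (DA r).S i
  S_st : ∀ i κ, κ ∈ (DA r).S ((DA r).st i) ↔ -κ ∈ (DA r).S i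
  top : ∀ i, Pi.single i 1 ∈ (DA r).S i
  lt : ∀ i l, Reg l → ∀ κ ∈ (DA r).S i, κ ≠ Pi.single i 1 →
    (DA r).Q (l + κ) < (DA r).Q (l + Pi.single i 1)
  base : ∀ φ : (Fin r → ℤ) → ℂ, (∀ w ∈ (DA r).W, ∀ l, φ (w *ᵥ l) = (w.det : ℂ) * φ l) → ∀ i,
    ∑ κ ∈ (DA r).S i, (((DA r).Q (1 + κ) : ℂ) - (DA r).Q (1 + Pi.single i 1)) * φ (1 + κ) = 0

/-- WAA3. `S_W`: `dw`. `S_st`: the complement, `dif (ind Iᶜ) = - dif (ind I)`. `lt`: `Q (l + κ) - Q l = Q κ + polar`, `Q (dif (ind I)) = |I| (n - |I|)` and the polar form `2 (n ∑ j ∈ I, m j - |I| ∑ j, m j)` (`psum`), so it is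
`∑ j ∈ I, m j < ∑ j ∈ T, m j` for `T = Iic i.castSucc`, `|I| = |T|`, `I ≠ T`, `m = cum l` strictly decreasing: compare `I \ T` and `T \ I` (same number of elements) with `m i.castSucc`. `base`: let `κ = dif (ind I)`.
If `I ≠ T` there is `a` with `a.castSucc ∉ I`, `a.succ ∈ I`, so `(1 + κ) a = 0`, and `φ (1 + κ) = 0` (`WA1.refl`). -/
def S_WAA3 : Prop := ∀ r : ℕ, WA3 r

def M_WAA3 : Prop := S_CUMA → S_WAA1 → S_WAA2 → S_WAA3

/-! ### the characters -/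

/-- the alternants -/
def al {r : ℕ} (v : Fin (r + 1) → ℂ) (l : Fin r → ℤ) : ℂ :=
  Matrix.det (Matrix.of fun k j : Fin (r + 1) => v k ^ cum l j.rev)

/-- facts about `psA` -/
structure PSF (r : ℕ) : Prop where
  det : ∀ x : Fin r → ℂ, (CA x).det = 1
  cont : ∀ l : Fin r → ℤ, Continuous fun x : Fin r → ℂ => psA x l
  one : ∀ x : Fin r → ℂ, psA x 1 = 1
  int : ∀ (x : Fin r → ℤ) (l : Fin r → ℤ), ∃ z : ℤ, psA (fun i => (x i : ℂ)) l = z
  alt : ∀ (v : Fin (r + 1) → ℂ), ∏ k, v k = 1 → ∀ l : Fin r → ℤ,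
    (Matrix.vandermonde v).det * psA (esA v) l = al v l

/-- PSAA. `det`: the companion matrix is a cyclic permutation matrix times a triangular matrix, or expand (`Matrix.det_succ_row_zero`): the first row is `(0, …, 0, (-1)^r)` and the minor is the identity. `cont`, `int`: `C⁻¹ = adjugate C`, so
the entries of `C^m`, `m ∈ ℤ`, are integer polynomials in `x`. `one`: `cum 1 j.rev = j`, `C^j e 0 = e j` for `j ≤ r`. `alt`: the row `u k = (1, v k, …, (v k)^r)` is a left eigenvector: `u k C = v k u k` because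
`(v k)^(r+1) = ∑ i, (-1)^(r-i) e (r+1-i) (v k)^i` (`∏ j, (v k - v j) = 0`, Vieta: `Multiset.prod_X_sub_C_eq_sum_esymm` or the like; `esk v (r+1) = 1`). So
`vandermonde v * (C^(m j) e 0)_j = ((v k)^(m j))_(k j)` (also for negative `m j`, `v k ≠ 0`). -/
def S_PSAA : Prop := ∀ r : ℕ, PSF r

def M_PSAA : Prop := S_CUMA → S_PSAA

/-- EXTA. First claim: the polynomial `X^(r+1) - x 0 X^r + …` has roots (`ℂ` is algebraically closed), Vieta. Second: let `x = esA v`, `∏ v = 1`, all `v k ≠ 0`. Let `v ε k = v k exp(ε s k)` with different `s k` of sum `0`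
(`s k = 2k - r`): injective for small `ε > 0` (`v k ≠ v l`: continuity; `v k = v l`: the `s k` are different), `∏ = 1`; `ε → 0`. -/
def S_EXTA : Prop := ∀ r : ℕ, (∀ x : Fin r → ℂ, ∃ v : Fin (r + 1) → ℂ, ∏ k, v k = 1 ∧ esA v = x) ∧
  ∀ F : (Fin r → ℂ) → ℂ, Continuous F →
    (∀ v : Fin (r + 1) → ℂ, Function.Injective v → ∏ k, v k = 1 → F (esA v) = 0) → ∀ x, F x = 0

/-- RDPA. `anti`, `rule`: by EXTA and `PSF.cont` for `x = esA v`, `v` injective; multiply by `(vandermonde v).det ≠ 0` and use `PSF.alt`. `al v (wA σ *ᵥ l) = sign σ al v l`: `cum (wA σ *ᵥ l) j = cum l (σ j) - c`, the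
factor `∏ k, (v k)^(-c) = 1`, and a permutation of the columns (`rev σ rev` has the same sign). `rule`: `al v l = ∑ π, sign π ∏ j, (v (π j))^(cum l j.rev)`; `cum (l + dif (ind I)) = cum l + ind I - c`; for every
`π` the sum over `I` is `∑ I, ∏ j ∈ I', v j = esk v (i+1)`, `I'` the image of `I` under `j ↦ π j.rev` (`S i` is the image of the sets `I`, injective by `dinj`). -/
def S_RDPA : Prop := ∀ r : ℕ, RDP (DA r)

def M_RDPA : Prop := S_CUMA → S_PSAA → S_EXTA → S_RDPA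

/-- DIMA. Let `m j = cum l j.rev`. For real `s > 1` let `v k = s^(2k-r)` (`∏ = 1`, injective). By `PSF.alt` `psA (esA v) l ∏_(i<j) (s^(2j-r) - s^(2i-r)) = det ((s^(2 m j))^k s^(-r m j)) = ∏ j, s^(-r m j) ∏_(i<j) (s^(2 m j) - s^(2 m i))`
(Vandermonde). Divide by `(s - 1)^(r(r+1)/2)` and let `s → 1`: `(s^a - s^b)/(s - 1) → a - b`, `esA v → ξ`. -/
def S_DIMA : Prop := ∀ (r : ℕ) (l : Fin r → ℤ),
  psA (DA r).ξ l * ∏ p ∈ prs r, (((p.2.val : ℤ) - p.1.val : ℤ) : ℂ) =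
    ∏ p ∈ prs r, ((cum l p.1 - cum l p.2 : ℤ) : ℂ)

def M_DIMA : Prop := S_CUMA → S_PSAA → S_DIMA

/-- RDDA. By DIMA and `PSF.int` the division in `dim` is exact: second claim. `RDD`: `dim_pos`: all factors are positive. `dim_le`: the number of the factors is `r (r + 1)/2`, each at most `sz l`. -/
def S_RDDA : Prop := ∀ r : ℕ, RDD (DA r) ∧ ∀ l : Fin r → ℤ,
  (DA r).dim l * ∏ p ∈ prs r, ((p.2.val : ℤ) - p.1.val) = ∏ p ∈ prs r, (cum l p.1 - cum l p.2)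

def M_RDDA : Prop := S_CUMA → S_PSAA → S_DIMA → S_RDDA

/-- TRCA. For injective `v`: `vandermonde v * C = diagonal v * vandermonde v` (see PSAA), so `C^m` is similar to `diagonal (v^m)`. In general by continuity (approximate `v` by
injective `v ε` with `∏ = 1` as in EXTA), or use `charpoly C = ∏ (X - v k)` and a statement about the traces of powers such as `Pool/Agent/Stark/TRD.lean`, see EIGV.lean. -/
def S_TRCA : Prop := ∀ (r : ℕ) (v : Fin (r + 1) → ℂ), ∏ k, v k = 1 → ∀ m : ℕ,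
  (CA (esA v) ^ m).trace = ∑ k, v k ^ m

/-- MSYM. `ee (esA v) a = esk v a` for `a ≤ r + 1`. By TRCA the trace is `∑ k, E (i+1) k * E (j+1) k` with `E a k = ∑ s < a, (-1)^s e (a-1-s) (v k)^(s+1)`, and `E a k = ∑ (I ∋ k, |I| = a), ∏ j ∈ I, v j` by induction on `a`
(`E (a+1) k = v k (e a - E a k)`). `∑ k, E a k E b k = ∑ I J, |I ∩ J| …`. -/
def S_MSYM : Prop := ∀ (r : ℕ) (v : Fin (r + 1) → ℂ), ∏ k, v k = 1 → ∀ i j : Fin r,
  MA r i j (esA v) = ∑ I ∈ Finset.univ.powersetCard (i.val + 1), ∑ J ∈ Finset.univ.powersetCard (j.val + 1),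
    2 * (((r : ℂ) + 1) * (I ∩ J).card - (I.card : ℂ) * J.card) * ((∏ k ∈ I, v k) * ∏ k ∈ J, v k)

def M_MSYM : Prop := S_TRCA → S_MSYM

/-- RDGA. As RDPA, with MSYM: `dif (ind I)·A (dif (ind J)) = 2 (n |I ∩ J| - |I| |J|)` (`pol`, `psum`), which is invariant under permutations. `MA` is continuous in `x`. -/
def S_RDGA : Prop := ∀ r : ℕ, RDG (DA r) (MA r)

def M_RDGA : Prop := S_CUMA → S_PSAA → S_EXTA → S_MSYM → S_RDGA

/-! ### roots and the torus -/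

/-- the positive roots, with the coroots -/
def PA (r : ℕ) : RT r := (prs r).image fun p => (dif (ind {p.1} - ind {p.2}),
  fun i : Fin r => if p.1.val ≤ i.val ∧ i.val < p.2.val then (1 : ℤ) else 0)

/-- the simple roots -/
def BA (r : ℕ) : Matrix (Fin r) (Fin r) ℤ :=
  Matrix.of fun i => dif (ind {i.castSucc} - ind {i.succ})

/-- the eigenvalues of a point of the torus -/
def vA {r : ℕ} (θ : Fin r → ℝ) (j : Fin (r + 1)) : ℂ :=
  eu ((if h : j.val < r then θ ⟨j.val, h⟩ else 0) -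
    (if h : 0 < j.val then θ ⟨j.val - 1, by omega⟩ else 0))

/-- facts about the eigenvalues -/
structure VAF (r : ℕ) : Prop where
  prod : ∀ θ : Fin r → ℝ, ∏ j, vA θ j = 1
  exi : ∀ v : Fin (r + 1) → ℂ, (∀ j, v j * conj (v j) = 1) → ∏ j, v j = 1 → ∃ θ : Fin r → ℝ, vA θ = v
  dz : ∀ (m : Fin (r + 1) → ℤ) (θ : Fin r → ℝ), eu (dz (dif m) θ) = ∏ j, vA θ j ^ m j
  XT : ∀ θ : Fin r → ℝ, XT (DA r) θ = esA (vA θ)
  AT : ∀ θ : Fin r → ℝ, AT (DA r) 1 θ = ∏ p ∈ prs r, (vA θ p.1 - vA θ p.2)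

/-- VAFA. `exi`: `v j = e(φ j)`, `θ i = ∑ j ≤ i, φ j`. `dz`: `∑ i, (m i - m (i+1)) θ i = ∑ j, m j (θ j - θ (j-1))`. `XT`: `dinj`. `AT`: `winj`, `wdet`, `cum 1 j = r - j`, Vandermonde (`Matrix.det_vandermonde` for `v ∘ rev` or with a sign). -/
def S_VAFA : Prop := ∀ r : ℕ, VAF r

def M_VAFA : Prop := S_CUMA → S_VAFA

/-- the part of `RTD` without `dimP` and `den` -/
structure RA1 (r : ℕ) : Prop where
  inj : ∀ p ∈ prs r, ∀ q ∈ prs r, dif (ind {p.1} - ind {p.2}) = dif (ind {q.1} - ind {q.2}) → p = q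
  card : (DA r).e = 2 * (PA r).card
  refl : ∀ p ∈ PA r, ∃ w ∈ (DA r).W, w.det = -1 ∧ ∀ l, w *ᵥ l = l - (p.2 ⬝ᵥ l) • p.1
  pos : ∀ p ∈ PA r, (∀ i, 0 ≤ p.2 i) ∧ p.2 ≠ 0
  np1 : ∀ p ∈ PA r, ∀ q ∈ PA r, p ≠ q → ∀ a b : ℤ, a • p.1 = b • q.1 → a = 0 ∧ b = 0
  np2 : ∀ p ∈ PA r, ∀ q ∈ PA r, p ≠ q → ∀ a b : ℤ, a • p.2 = b • q.2 → a = 0 ∧ b = 0
  rho2 : ∑ p ∈ PA r, p.1 = fun _ => 2
  bas : (BA r).det ≠ 0
  gen : ∀ p ∈ PA r, ∃ n : Fin r → ℤ, p.1 = ∑ i, n i • BA r i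
  bmem : ∀ i, ∃ p ∈ PA r, p.1 = BA r i
  wl : ∀ w ∈ (DA r).W, ∀ l, ∃ n : Fin r → ℤ, w *ᵥ l = l + ∑ i, n i • BA r i
  far : ∀ θ : Fin r → ℝ, ∀ q ∈ PA r, r ≤ ((PA r).filter fun p => nd (dz q.1 θ) ≤ 2 * nd (dz p.1 θ)).card

/-- RTA1. `dif m = dif m'` iff `m - m'` is constant; `m = e a - e b` has sum `0`, so equality there, also for multiples. `rho2`: `∑_(a<b) (e a - e b) = (r - 2j)_j`. `bas`: if `∑ i, c i (e i - e (i+1))` is constant it is `0` (sum `0`), so `c = 0`. `gen`, `wl`: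
a sequence with sum `0` is an integer combination of the `e i - e (i+1)` (sums of initial segments). `far`: `q = (a, b)`: `q` itself, and for each `c ≠ a, b` (`r - 1` of them) one of the pairs `{a, c}`, `{c, b}`: `dz q.1 θ = ± dz .. ± dz ..`, `nd` is even and
subadditive. The chosen pairs are different for different `c`. -/
def S_RTA1 : Prop := ∀ r : ℕ, RA1 r

def M_RTA1 : Prop := S_CUMA → S_RTA1

/-- RTA2. `dimP`: RDDA, `CUF.dot`. `den`: `VAF.AT`, `VAF.dz`: `vA p.1 - vA p.2 = vA p.1 (1 - e(-dz α θ))`, and `∏ p, vA p.1 = ∏ j, (vA j)^(r - j) = e(∑ θ)` (`dz` for `m j = r - j`, `dif m = 1`). The rest from RTA1. -/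
def S_RTA2 : Prop := ∀ r : ℕ, RTD (DA r) (PA r) (BA r) r

def M_RTA2 : Prop := S_CUMA → S_RDDA → S_VAFA → S_RTA1 → S_RTA2

/-! ### the group -/

/-- the elementary symmetric functions of the eigenvalues: the sums of the principal minors -/
def eg {n : ℕ} (k : ℕ) (g : Matrix (Fin n) (Fin n) ℂ) : ℂ :=
  ∑ s ∈ Finset.univ.powersetCard k, (g.submatrix (Subtype.val : s → Fin n) (Subtype.val : s → Fin n)).det

/-- the generators -/
def xS (r : ℕ) (i : Fin r) (g : (⊤ : Subgroup (SU (r + 1)))) : ℂ := eg (i.val + 1) g.1.1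

/-- `∑ s < a, (-1)^s e (a - 1 - s) g^(s+1)` -/
def GM {n : ℕ} (a : ℕ) (g : Matrix (Fin n) (Fin n) ℂ) : Matrix (Fin n) (Fin n) ℂ :=
  ∑ s ∈ Finset.range a, ((-1) ^ s * eg (a - 1 - s) g) • g ^ (s + 1)

/-- facts about `eg` -/
structure EGF (n : ℕ) : Prop where
  zero : ∀ g : Matrix (Fin n) (Fin n) ℂ, eg 0 g = 1
  tr : ∀ g : Matrix (Fin n) (Fin n) ℂ, eg 1 g = g.trace
  top : ∀ g : Matrix (Fin n) (Fin n) ℂ, eg n g = g.det
  gen : ∀ (g : Matrix (Fin n) (Fin n) ℂ) (z : ℂ), (1 + z • g).det = ∑ k ∈ Finset.range (n + 1), eg k g * z ^ k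
  eig : ∀ (g : Matrix (Fin n) (Fin n) ℂ) (v : Fin n → ℂ),
    g.charpoly = ∏ i, (Polynomial.X - Polynomial.C (v i)) → ∀ k, eg k g = esk v k
  comm : ∀ (g h : Matrix (Fin n) (Fin n) ℂ) (k : ℕ), eg k (g * h) = eg k (h * g)
  one : ∀ k, eg k (1 : Matrix (Fin n) (Fin n) ℂ) = (n.choose k : ℂ)
  cjg : ∀ g : SU n, ∀ k ≤ n, conj (eg k g.1) = eg (n - k) g.1

/-- EGFA. Mathlib: `Matrix.charpoly_coeff_eq_sum_minors`, `Matrix.coeff_det_one_add_X_smul_eq_sum_minors` (LinearAlgebra/Matrix/Charpoly/Coeff). `comm`: `Matrix.charpoly_mul_comm`. `eig`: Vieta. `cjg`: the eigenvalues (EIGV) have absolute value `1` and product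
`1`, so `conj (∏ j ∈ I, v j) = ∏ j ∈ I, (v j)⁻¹ = ∏ j ∉ I, v j`. -/
def S_EGFA : Prop := ∀ n : ℕ, EGF n

def M_EGFA : Prop := S_EIGV → S_EGFA

/-- EXPW. The exterior powers of the standard representation, restricted to `H`. The matrix of the exterior power in the basis `e I`, `|I| = k`, has the minors `det (g (I, J))` as entries: `exteriorPower.map`, `exteriorPower.map_comp`, the basis
`Module.Basis.exteriorPower` and `exteriorPower.basis_repr_apply` (Mathlib LinearAlgebra/ExteriorPower); multiplicative, continuous, `ρ (g⁻¹) = ρ (gᴴ) = (ρ g)ᴴ`. The trace is `eg k g`. VRING for the last step (`VC R.ch`). -/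
def S_EXPW : Prop := ∀ (n : ℕ) (H : Subgroup (SU n)) (k : ℕ), VC (fun g : H => eg k g.1.1)

def M_EXPW : Prop := S_VRING → S_EXPW

/-- GFEN. `cj`: `EGF.cjg`, `r + 1 - (i + 1) = (rev i) + 1`. `tr`: `eg 1`, so `F = X 0` (`r ≥ 1`; `r = 0`: the trace is `1`). -/
def S_GFEN : Prop := ∀ r : ℕ, GFE (⊤ : Subgroup (SU (r + 1))) (DA r) (xS r)

def M_GFEN : Prop := S_EGFA → S_EXPW → S_GFEN

/-- DERA. (1) `eg k` is a polynomial in the entries. (2) For a matrix of `C1H` functions `N`: `dH X (det N) = ∑ i j, adjugate N j i * dH X (N i j)` (Leibniz rule for the products in `det N = ∑ π, …`, then `Matrix.cramer`, `det (N.updateCol j b) = ∑ i, adjugate N j i * b i`).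
For `N = 1 + z g`, `z ∈ ℂ`: `dH X = z tr (adjugate (1 + z g) g X)`. Here `adjugate (1 + z g) = ∑ k < n, z^k ∑ s ≤ k, (-1)^s eg (k - s) g g^s`: multiply by `1 + z g` (for small `z` it is invertible; Cayley-Hamilton
`∑ s ≤ n, (-1)^s eg (n - s) g g^s = 0`). Compare the coefficients of `z^a` (`EGF.gen`). (Another way: `eg (a+1) ` by the recursion `GM (a+1) g = eg a g • g - g * GM a g`.) -/
def S_DERA : Prop := ∀ (n : ℕ) (H : Subgroup (SU n)) (a : ℕ), a ≤ n →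
  C2H (fun g : H => eg a g.1.1) ∧
  ∀ X ∈ lie H, ∀ g : H, dH X (fun g : H => eg a g.1.1) g = (GM a g.1.1 * X).trace

def M_DERA : Prop := S_CALH → S_EGFA → S_DERA

/-- LAPE. A frame for `FrameH ⊤ (2 n)` is a frame in the sense of `Frame`, so CAS holds. For a finite product `F = ∏ j ∈ J, g (f j) (h j)` of entries: `∑ b, dH (X b) (dH (X b) F) = ∑ j, (∑ b, g X b X b) (f j) (h j) ∏_(k ≠ j) … + ∑_(j ≠ k), ∑ b, (g X b) (f j) (h j) (g X b) (f k) (h k) …`,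
and by CAS `∑ b, X b X b = -((n²-1)/(2n²)) 1`, `∑ b, (g X b) p j (g X b) q k = -(1/(2n)) (g p k g q j - (1/n) g p j g q k)`: so it is `-(|J| (n²-1)/(2n²)) F - (1/(2n)) ∑_(j ≠ k) (F with h j and h k exchanged - (1/n) F)`. In
`eg a = ∑ s, ∑ π, sign π ∏ j ∈ s, g (π j) j` the exchange of two columns changes the sign, so the sum is `(-a (n²-1) + a (a-1) (n+1)) / (2n²) * eg a`. -/
def S_LAPE : Prop := ∀ (n : ℕ), 1 ≤ n → ∀ X : Fin (n ^ 2 - 1) → Matrix (Fin n) (Fin n) ℂ,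
  FrameH (⊤ : Subgroup (SU n)) (2 * (n : ℝ)) X → ∀ a ≤ n, ∀ g : (⊤ : Subgroup (SU n)),
    lapH X (fun g : (⊤ : Subgroup (SU n)) => eg a g.1.1) g =
      -(((a : ℂ) * (n + 1) * (n - a)) / (2 * (n : ℂ) ^ 2)) * eg a g.1.1

def M_LAPE : Prop := S_CALH → S_CAS → S_LAPE

/-- GFLN. `lapx`: LAPE, and `Q (1 + e i) - Q 1 = a (n - a) (n + 1)`, `a = i + 1`, `n = r + 1` (`CUF.psum`, `pol`, `single`, `one`). `gam`: by DERA and CAS `∑ b, tr (G X b) tr (G' X b) = -(1/(2n)) (tr (G G') - tr G tr G' / n)`, `G = GM (i+1) g`, `G' = GM (j+1) g`.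
`tr (GM a g) = a eg a g` (Newton's identities for the eigenvalues `v` of EIGV, `EGF.eig`; Mathlib RingTheory/MvPolynomial/Symmetric/NewtonIdentities; or by the formula of MSYM for `E a k`, see there). `xS g = esA v`, `eg a g = ee (xS g) a` for `a ≤ r + 1`, and
`tr (g^m) = ∑ v^m = tr (C^m)` by EIGV and TRCA, so `tr (G G') = tr (GG (i+1) C * GG (j+1) C)`. -/
def S_GFLN : Prop := ∀ r : ℕ, 1 ≤ r →
  GFL (⊤ : Subgroup (SU (r + 1))) (2 * ((r + 1 : ℕ) : ℝ)) ((r + 1) ^ 2 - 1) (DA r) (MA r) (xS r)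
    (1 / (2 * ((r + 1 : ℕ) : ℝ) ^ 2))

def M_GFLN : Prop := S_EIGV → S_CAS → S_CUMA → S_TRCA → S_EGFA → S_DERA → S_LAPE → S_GFLN

/-- FRAN. `su n` is a real vector space of dimension `n² - 1` with the inner product `-2 n tr (X Y)` (real and positive definite): take an orthonormal basis (Gram-Schmidt, `stdOrthonormalBasis`), or explicit: `(E j k - E k j)/(2 √n)`,
`i (E j k + E k j)/(2 √n)`, `i (∑_(l<m) E l l - m E m m)/√(2 n m (m+1))`, reindexed. It spans (by CAS, see FRA.lean, or because it is a basis). -/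
def S_FRAN : Prop := ∀ n : ℕ, 1 ≤ n → ∃ X : Fin (n ^ 2 - 1) → Matrix (Fin n) (Fin n) ℂ,
  FrameH (⊤ : Subgroup (SU n)) (2 * (n : ℝ)) X

def M_FRAN : Prop := S_EXP → S_CAS → S_FRAN

/-- TORN. EIGV, `EGF.eig`, `VAF.exi`, `VAF.XT`. -/
def S_TORN : Prop := ∀ r : ℕ, Tor (DA r) (xS r)

def M_TORN : Prop := S_EIGV → S_EGFA → S_VAFA → S_TORN

end

end STZ
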