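import Pool.Agent.STZ.StmtsA

/-!
# Statements of the modules, block R: unitary representations of compact groups in matrix form

`G` is a compact metrizable group with a left invariant probability measure `μ`. Module `X` proves
`theorem t_X : M_X` (or `t_X : S_X` if there is no `M_X`) in the file `Pool/Agent/STZ/X.lean`, namespace `STZ`.
-/

namespace STZ

open MeasureTheory Matrix

open scoped ComplexConjugate Matrix Real

noncomputable section

/-- a continuous unitary representation by matrices -/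
structure Rep (G : Type) [Group G] [TopologicalSpace G] (ι : Type) [Fintype ι] [DecidableEq ι] where
  ρ : G →* Matrix ι ι ℂ
  cont : Continuous ρ
  unit : ∀ g, ρ g⁻¹ = (ρ g)ᴴ

/-- the character -/
def Rep.ch {G : Type} [Group G] [TopologicalSpace G] {ι : Type} [Fintype ι] [DecidableEq ι]
    (R : Rep G ι) (g : G) : ℂ := (R.ρ g).trace

/-- irreducible: only the scalar matrices commute with the representation -/
def Rep.Irr {G : Type} [Group G] [TopologicalSpace G] {ι : Type} [Fintype ι] [DecidableEq ι]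
    (R : Rep G ι) : Prop :=
  Nonempty ι ∧ ∀ X : Matrix ι ι ℂ, (∀ g, X * R.ρ g = R.ρ g * X) → ∃ c : ℂ, X = c • 1

/-- HAAR. (First: `μ` is a regular measure.) `μ(U) > 0` for open `U ≠ ∅`: finitely many translates cover `G`. Right invariance, via
functions: for continuous `f`, `∬ f(x y) dμ(x) dμ(y)` is `∫ f` (integrate first over `y`, left invariance); so with
`F(y) = ∫ f(x y) dμ(x)`: compare `∬∬`; or: the measure `μ.map (· * g)` is a left invariant probability measure, and these are unique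
(`MeasureTheory.Measure.isMulInvariant_eq_smul_of_compactSpace` or similar in `Mathlib.MeasureTheory.Measure.Haar.Unique`); the same
for `μ.map Inv.inv`, which is left invariant since `μ` is right invariant. -/
def S_HAAR : Prop := ∀ (G : Type) [Group G] [TopologicalSpace G] [IsTopologicalGroup G]
  [CompactSpace G] [T2Space G] [SecondCountableTopology G] [MeasurableSpace G] [BorelSpace G]
  (μ : Measure G) [IsProbabilityMeasure μ] [μ.IsMulLeftInvariant],
  μ.IsMulRightInvariant ∧ μ.IsInvInvariant ∧ μ.IsOpenPosMeasure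

/-- SCHUR. Schur orthogonality. For a matrix `Y` the matrix `X = ∫ ρ(g) Y ρ'(g)ᴴ` satisfies `ρ(h) X = X ρ'(h)` (left invariance). For
`ρ' = ρ` irreducible it is scalar, with trace `tr Y`; take `Y` with one nonzero entry. For two irreps: if some such `X` is not
`0`, then `X Xᴴ` commutes with `ρ`, `Xᴴ X` with `ρ'`, so `X Xᴴ = c`, `Xᴴ X = c'`, `c X = X Xᴴ X = c' X`, `c = c' ≠ 0`, and
`tr ρ(h) = tr (X Xᴴ ρ(h)) / c = tr (Xᴴ ρ(h) X) / c = tr (Xᴴ X ρ'(h)) / c = tr ρ'(h)`. -/
def S_SCHUR : Prop := ∀ (G : Type) [Group G] [TopologicalSpace G] [IsTopologicalGroup G]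
  [CompactSpace G] [T2Space G] [SecondCountableTopology G] [MeasurableSpace G] [BorelSpace G]
  (μ : Measure G) [IsProbabilityMeasure μ] [μ.IsMulLeftInvariant]
  (ι : Type) [Fintype ι] [DecidableEq ι] (R : Rep G ι), R.Irr →
  (∀ i j k l, ∫ g, R.ρ g i j * conj (R.ρ g k l) ∂μ =
    if i = k ∧ j = l then 1 / (Fintype.card ι : ℂ) else 0) ∧
  ∀ (κ : Type) [Fintype κ] [DecidableEq κ] (R' : Rep G κ), R'.Irr →
    (∀ g, R.ch g = R'.ch g) ∨ ∀ i j k l, ∫ g, R.ρ g i j * conj (R'.ρ g k l) ∂μ = 0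

/-- CHAR. Orthogonality of characters: `ch` is the sum of the diagonal entries. -/
def S_CHAR : Prop := ∀ (G : Type) [Group G] [TopologicalSpace G] [IsTopologicalGroup G]
  [CompactSpace G] [T2Space G] [SecondCountableTopology G] [MeasurableSpace G] [BorelSpace G]
  (μ : Measure G) [IsProbabilityMeasure μ] [μ.IsMulLeftInvariant]
  (ι : Type) [Fintype ι] [DecidableEq ι] (R : Rep G ι), R.Irr →
  ∫ g, R.ch g * conj (R.ch g) ∂μ = 1 ∧
  ∀ (κ : Type) [Fintype κ] [DecidableEq κ] (R' : Rep G κ), R'.Irr →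
    (∀ g, R.ch g = R'.ch g) ∨ ∫ g, R.ch g * conj (R'.ch g) ∂μ = 0

def M_CHAR : Prop := S_SCHUR → S_CHAR

/-- DECO. Decomposition into irreps. Strong induction on the size of `ι`. If `ι` is empty: `m = 0`. If only scalars commute with `R`:
`m = 1` (reindex by `Fin (card ι)`). Otherwise some nonscalar `X` commutes with `R`, hence also a nonscalar Hermitian one (`X + Xᴴ` or
`i (X - Xᴴ)`; `Xᴴ` commutes because `ρ(g)ᴴ = ρ(g⁻¹)`). Diagonalise it by a unitary `U` (`Matrix.IsHermitian.spectral_theorem`): the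
representation `Uᴴ ρ U` commutes with `diagonal λ`, so its `(i, j)` entry is `0` if `λ i ≠ λ j`; it splits into the blocks with index
sets `{i | λ i = λ₀}` and `{i | λ i ≠ λ₀}`, both not empty. -/
def S_DECO : Prop := ∀ (G : Type) [Group G] [TopologicalSpace G]
  (ι : Type) [Fintype ι] [DecidableEq ι] (R : Rep G ι),
  ∃ (m : ℕ) (N : Fin m → ℕ) (σ : ∀ k, Rep G (Fin (N k))), (∀ k, (σ k).Irr) ∧
    (∀ g, R.ch g = ∑ k, (σ k).ch g) ∧
    ∀ i j, ∃ c : ∀ k, Matrix (Fin (N k)) (Fin (N k)) ℂ,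
      ∀ g, R.ρ g i j = ∑ k, ∑ p, ∑ q, c k p q * (σ k).ρ g p q

/-- VIRT. A virtual character of norm `1`. By DECO the function `∑ n k ch (R k)` is `∑ j, n' j ψ j` with integers `n' j` and pairwise
different irreducible characters `ψ j`, which are orthonormal by CHAR; so `∑ (n' j)² = 1`, and exactly one `n' j` is not
zero, it is `± 1`; the sign is `+` because `ψ j 1 > 0` is the dimension. -/
def S_VIRT : Prop := ∀ (G : Type) [Group G] [TopologicalSpace G] [IsTopologicalGroup G]
  [CompactSpace G] [T2Space G] [SecondCountableTopology G] [MeasurableSpace G] [BorelSpace G]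
  (μ : Measure G) [IsProbabilityMeasure μ] [μ.IsMulLeftInvariant]
  (m : ℕ) (N : Fin m → ℕ) (R : ∀ k, Rep G (Fin (N k))) (n : Fin m → ℤ),
  ∫ g, ‖∑ k, (n k : ℂ) * (R k).ch g‖ ^ 2 ∂μ = 1 → 0 < (∑ k, (n k : ℂ) * (R k).ch 1).re →
  ∃ (d : ℕ) (σ : Rep G (Fin d)), σ.Irr ∧ ∀ g, σ.ch g = ∑ k, (n k : ℂ) * (R k).ch g

def M_VIRT : Prop := S_CHAR → S_DECO → S_VIRT

/-- the family of functions `χ` consists of irreducible characters, different for different indices -/
structure IrrFam {G : Type} [Group G] [TopologicalSpace G] {ι : Type} (χ : ι → G → ℂ) : Prop where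
  irr : ∀ a, ∃ (d : ℕ) (σ : Rep G (Fin d)), σ.Irr ∧ ∀ g, σ.ch g = χ a g
  ne : ∀ a b, a ≠ b → ∃ g, χ a g ≠ χ b g

/-- the kernels `χ(1) χ(x y⁻¹)` -/
def KK {G : Type} [Group G] {ι : Type} (χ : ι → G → ℂ) (a : ι) (x y : G) : ℂ :=
  χ a 1 * χ a (x * y⁻¹)

/-- KERI. `χ 1 = d`, `χ(x y⁻¹) = tr (σ(x) σ(y)ᴴ) = ∑ σ(x) i j conj (σ(y) i j)`; SCHUR. -/
def S_KERI : Prop := ∀ (G : Type) [Group G] [TopologicalSpace G] [IsTopologicalGroup G]
  [CompactSpace G] [T2Space G] [SecondCountableTopology G] [MeasurableSpace G] [BorelSpace G]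
  (μ : Measure G) [IsProbabilityMeasure μ] [μ.IsMulLeftInvariant]
  (ι : Type) (χ : ι → G → ℂ), IrrFam χ → Ker μ (KK χ) ∧
    ∀ (a : ι) (d : ℕ) (σ : Rep G (Fin d)), σ.Irr → (∀ g, σ.ch g = χ a g) →
      χ a 1 = d ∧ ∀ i j, Mem μ (KK χ a) (fun g => σ.ρ g i j)

def M_KERI : Prop := S_SCHUR → S_KERI

/-- ALLI. Decompose `R` by DECO. The character of each `σ k` is one of the `χ a`, `a ∈ S`: otherwise it is orthogonal to all of them
(CHAR), hence to `ch R = ∑ n a χ a`; but `∫ ch R conj (ch (σ k)) = ∑ l, ∫ ch (σ l) conj (ch (σ k)) ≥ 1`. So all entries of `σ k` are in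
the range (`Mem`) for some `a ∈ S` by KERI, and `Pr S` fixes them (`KBF.fix`) and their linear combinations. -/
def S_ALLI : Prop := ∀ (G : Type) [Group G] [TopologicalSpace G] [IsTopologicalGroup G]
  [CompactSpace G] [T2Space G] [SecondCountableTopology G] [MeasurableSpace G] [BorelSpace G]
  (μ : Measure G) [IsProbabilityMeasure μ] [μ.IsMulLeftInvariant]
  (ι : Type) (χ : ι → G → ℂ), IrrFam χ →
  ∀ (κ : Type) [Fintype κ] [DecidableEq κ] (R : Rep G κ) (S : Finset ι) (n : ι → ℂ),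
    (∀ g, R.ch g = ∑ a ∈ S, n a * χ a g) →
    ∀ i j, Pr μ (KK χ) S (fun g => R.ρ g i j) = fun g => R.ρ g i j

def M_ALLI : Prop := S_KB → S_CHAR → S_DECO → S_KERI → S_ALLI

end

end STZ
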