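import Pool.Agent.STZ.Defs

/-!
# Statements of the modules, block T: exponential sums in time

Module `X` proves `theorem t_X : M_X` (or `t_X : S_X` if there is no `M_X`) in the file
`Pool/Agent/STZ/X.lean`, namespace `STZ`.
-/

namespace STZ

open MeasureTheory Matrix

open scoped ComplexConjugate Matrix Real

noncomputable section

/-- `e(θ) = exp(2 π i θ)` -/
def eu (θ : ℝ) : ℂ := Complex.exp (2 * π * θ * Complex.I)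

/-- the distance to the nearest integer -/
def nd (θ : ℝ) : ℝ := |θ - round θ|

/-- `min R (1 / (2 nd θ))` -/
def mn (R : ℕ) (θ : ℝ) : ℝ := R / max 1 (2 * R * nd θ)

/-- the majorant of the exponential sums -/
def WW (R c : ℕ) (t : ℝ) : ℝ := ∑ x ∈ Finset.Icc (-((c * R : ℕ) : ℤ)) ((c * R : ℕ) : ℤ), mn R (t * x)

/-- boxes of side `R` in `ℤ^r` -/
def bx {r : ℕ} (z : Fin r → ℤ) (R : ℕ) : Finset (Fin r → ℤ) :=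
  Fintype.piFinset fun i => Finset.Ico (z i) (z i + R)

/-- GEO. Geometric sums: `|1 - e(θ)| = 2 |sin (π θ)| ≥ 4 nd θ`, the sum of `e(kθ)` over an interval is a geometric
sum, at most `2 / |1 - e(θ)| ≤ 1 / (2 nd θ)`. -/
def S_GEO : Prop := ∀ (R : ℕ) (a b : ℤ) (θ : ℝ), b ≤ a + R →
  ‖∑ k ∈ Finset.Ico a b, eu (k * θ)‖ ≤ mn R θ

/-- WPT. Pointwise bound for `WW` near the rational `ρ = a/q`, `β = t - ρ`, `|β| ≤ 1 / (2 c R q)`. The term `x = 0` is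
`R`. If `q ∤ x` then `nd (t x) ≥ nd (a x / q) - |β x| ≥ nd (a x / q) / 2`, as `|β x| ≤ 1 / (2 q)` and
`nd (a x / q) ≥ 1 / q`; so `mn R (t x) ≤ 1 / nd (a x / q)`, and the sum over `x` in the at most `2 (c R / q + 1)` blocks of
length `q` is at most `2 (c R / q + 1) 2 q (1 + log q)` (`x ↦ a x` is a bijection mod `q`,
`∑ k ≤ q/2, q / k`), which is `O(R (1 + log R))`. If `x = q j`, `1 ≤ |j| ≤ J = c R / q`, then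
`nd (t x) = q |β| |j|`, and `mn R (t x) = R / max 1 (2 R q |β| |j|) ≤ R min 1 ((2 R q |β| |j|) ^ (-3/4))`; the sum is
at most `2 R min (J, 4 J ^ (1/4) (2 R q |β|) ^ (-3/4)) ≤ C (R² / q) min 1 ((R² |β|) ^ (-3/4))`. -/
def S_WPT : Prop := ∀ c : ℕ, 1 ≤ c → ∃ C : ℝ, 0 ≤ C ∧ ∀ (R : ℕ) (t : ℝ) (ρ : ℚ), 1 ≤ R →
  ρ.den ≤ 2 * c * R → |t - ρ| ≤ 1 / (ρ.den * (2 * c * R)) →
  WW R c t ≤ C * (R * (1 + Real.log R) +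
    (R : ℝ) ^ 2 / ρ.den * (1 + (R : ℝ) ^ 2 * |t - ρ|) ^ (-(3 / 4) : ℝ))

/-- WINT. Integral of powers of `WW`. By Dirichlet (`Real.exists_rat_abs_sub_le_and_den_le` with `n = 2 c R`) every
`t ∈ [0, 1]` is as in S_WPT for some `ρ = a/q`, `q ≤ 2 c R`, `-1 ≤ a ≤ q + 1`. So `WW ^ σ` is at most
`C (R (1 + log R)) ^ σ + C ∑_(q, a) (R² / q) ^ σ (1 + R² |t - a/q|) ^ (-3σ/4)`. The integral over `t ∈ ℝ` of the last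
factor is at most `C R⁻²` as `3σ/4 > 3/2`, `∑ q (q + 3) q ^ (-σ) < ∞` as `σ > 2`, and
`(R (1 + log R)) ^ σ ≤ C R ^ (2σ - 2)`. -/
def S_WINT : Prop := ∀ (c : ℕ) (σ : ℝ), 1 ≤ c → 2 < σ → ∃ C : ℝ, 0 ≤ C ∧ ∀ R : ℕ, 1 ≤ R →
  ∫ t in (0 : ℝ)..1, WW R c t ^ σ ≤ C * (R : ℝ) ^ (2 * σ - 2)

def M_WINT : Prop := S_WPT → S_WINT

/-- YOUNG. Young's inequality on the circle. With `a = q / 2`, `b = q / (q - 1)`, `1/a + 2/b = 2`: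
`k(s-t) f(s) f(t) = (f(s)^b f(t)^b)^(1-1/a) (f(s)^b k^a)^(1-1/b) (f(t)^b k^a)^(1-1/b)` and the exponents `1 - 1/a`,
`1 - 1/b`, `1 - 1/b` have sum `1`: generalised Hölder inequality for three functions on the square
(`ENNReal.lintegral_prod_norm_pow_le` or twice the usual one), and the periodicity of `k`. If `q = 2`:
`a = 1`, `b = 2`. -/
def S_YOUNG : Prop := ∀ (q : ℝ) (f k : ℝ → ℝ), 2 ≤ q → Continuous f → Continuous k →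
  (∀ x, 0 ≤ f x) → (∀ x, 0 ≤ k x) → (∀ x, k (x + 1) = k x) → (∀ x, k (-x) = k x) →
  ∫ s in (0 : ℝ)..1, ∫ t in (0 : ℝ)..1, k (s - t) * f s * f t ≤
    (∫ t in (0 : ℝ)..1, k t ^ (q / 2)) ^ (2 / q) *
      (∫ t in (0 : ℝ)..1, f t ^ (q / (q - 1))) ^ (2 * (q - 1) / q)

/-- TT. The `T T*` argument. `Φ(t) = ∑ e(t φ i) G i`, `F(t) = ‖Φ(t)‖ ^ (q-2) Φ(t)` (`0` if `Φ(t) = 0`; continuous),
`‖F‖ = ‖Φ‖ ^ (q-1)`. `∫ ‖Φ‖ ^ q = ∫ ⟪F, Φ⟫ = ∑ ⟪∫ e(-t φ i) F(t), G i⟫ ≤ (∑ ‖G i‖²) ^ (1/2) (∑ ‖∫ e(-t φ i) F(t)‖²) ^ (1/2)`, and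
`∑ ‖∫ e(-t φ i) F(t)‖² = ∬ κ(t-s)... ⟪F(s), F(t)⟫ ≤ ∬ |κ(s-t)| ‖F(s)‖ ‖F(t)‖`, `κ(t) = ∑ e(t φ i)`; use YOUNG
with `f = ‖F‖`, `f ^ (q/(q-1)) = ‖Φ‖ ^ q`. (All integrals are over `[0, 1]`.) -/
def S_TT : Prop := ∀ (H : Type) [NormedAddCommGroup H] [InnerProductSpace ℂ H] (ι : Type)
  (F : Finset ι) (φ : ι → ℤ) (G : ι → H) (q : ℝ), 2 ≤ q →
  ∫ t in (0 : ℝ)..1, ‖∑ i ∈ F, eu (t * φ i) • G i‖ ^ q ≤
    (∫ t in (0 : ℝ)..1, ‖∑ i ∈ F, eu (t * φ i)‖ ^ (q / 2)) * (∑ i ∈ F, ‖G i‖ ^ 2) ^ (q / 2)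

def M_TT : Prop := S_YOUNG → S_TT

/-- `Q` is an integer valued quadratic polynomial on `ℤ^r` with the nondegenerate polar form `A` -/
structure QF {r : ℕ} (Q : (Fin r → ℤ) → ℤ) (A : Matrix (Fin r) (Fin r) ℤ) : Prop where
  polar : ∀ x y, Q (x + y) = Q x + Q y + x ⬝ᵥ (A *ᵥ y)
  det : A.det ≠ 0

/-- WEYL. Weyl differencing. `|∑_(x ∈ box) e(t Q x)|² = ∑_h e(t Q h) ∑_(y, y + h ∈ box) e(t y·Ah)`, `h ∈ (-R, R)^r`; the inner sum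
is over a box with sides at most `R`, so by GEO it is at most `∏ i, mn R (t (Ah) i)` in absolute value. `h ↦ A h` is
injective, with values in `[-cR, cR]^r`, `c ≥ ∑ j |A i j|`: the sum over `h` is at most
`∑_(x ∈ [-cR, cR]^r) ∏ i, mn R (t x i) = WW R c t ^ r` (`Finset.prod_univ_sum`). -/
def S_WEYL : Prop := ∀ (r : ℕ) (Q : (Fin r → ℤ) → ℤ) (A : Matrix (Fin r) (Fin r) ℤ), QF Q A →
  ∃ c : ℕ, 1 ≤ c ∧ ∀ (R : ℕ) (z : Fin r → ℤ) (t : ℝ), 1 ≤ R →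
    ‖∑ x ∈ bx z R, eu (t * Q x)‖ ^ 2 ≤ WW R c t ^ r

def M_WEYL : Prop := S_GEO → S_WEYL

/-- TIME. S_TT for the index set `bx z R ×ˢ bx z' R`; the kernel is the product of two sums as in WEYL, so
`|κ| ≤ WW ^ r`, `|κ| ^ (q/2) ≤ WW ^ (r q / 2)`, and S_WINT with `σ = r q / 2 > 2`. -/
def S_TIME : Prop := ∀ (r : ℕ) (Q : (Fin r → ℤ) → ℤ) (A : Matrix (Fin r) (Fin r) ℤ) (q : ℝ), QF Q A →
  2 ≤ r → 2 < q → ∃ C : ℝ, 0 ≤ C ∧ ∀ (R : ℕ) (z z' : Fin r → ℤ) (H : Type)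
    [NormedAddCommGroup H] [InnerProductSpace ℂ H] (G : (Fin r → ℤ) → (Fin r → ℤ) → H), 1 ≤ R →
    ∫ t in (0 : ℝ)..1, ‖∑ x ∈ bx z R, ∑ y ∈ bx z' R, eu (t * (Q x + Q y : ℤ)) • G x y‖ ^ q ≤
      C * (R : ℝ) ^ (r * q - 2) * (∑ x ∈ bx z R, ∑ y ∈ bx z' R, ‖G x y‖ ^ 2) ^ (q / 2)

def M_TIME : Prop := S_WINT → S_TT → S_WEYL → S_TIME

end

end STZ
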