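import Pool.Agent.STZ.StmtsX

/-!
# Statements of the modules, block U: exponential sums and weights on boxes with different sides, cutoffs

The paper proof is in `SUN2_PAPER.md`. Module `X` proves `theorem t_X : M_X` (or `t_X : S_X` if there is no `M_X`) in the file
`Pool/Agent/STZ/X.lean`, namespace `STZ`.
-/

namespace STZ

open MeasureTheory Matrix

open scoped ComplexConjugate Matrix Real

noncomputable section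

/-! ### exponential sums -/

/-- SHFT. (1.1) of `SUN2_PAPER.md`. Choose `x₀ ∈ s` with minimal `nd (β + t x₀)`. For `x ∈ s`: `nd (t (x - x₀)) ≤ nd (β + t x) + nd (β + t x₀) ≤ 2 nd (β + t x)`, so `mn R (β + t x) ≤ 2 mn R (t (x - x₀))`. -/
def S_SHFT : Prop := ∀ (R K : ℕ) (β t : ℝ) (s : Finset ℤ), (∀ x ∈ s, ∀ y ∈ s, |x - y| ≤ K) →
  ∑ x ∈ s, mn R (β + t * x) ≤ 2 * ∑ y ∈ Finset.Icc (-(K : ℤ)) K, mn R (t * y)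

/-- positive definite symmetric integer matrices -/
def PD {r : ℕ} (G : Matrix (Fin r) (Fin r) ℤ) : Prop :=
  Gᵀ = G ∧ ∀ x : Fin r → ℤ, x ≠ 0 → 0 < x ⬝ᵥ (G *ᵥ x)

/-- ANIW. (1.2) of `SUN2_PAPER.md`. Induction on `r`. Let `R k` be the largest of the `R i` (exchange the coordinates `0` and `k`: the statement is invariant under permutations of the coordinates). `y = (G h) 0` satisfies `|y| ≤ C R 0`, `C = ∑ j, |G 0 j|`. Fix `y` and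
the residues `b i` of the `h i`, `i ≠ 0`, modulo `g = G 0 0 > 0`: `h i = g x i + b i`, `|x i| ≤ R i`, `g h 0 = y - ∑ (i ≠ 0), G 0 i h i` and `(G h) i = const + (G' x) i` with the integer matrix
`G' i j = g G i j - G i 0 G 0 j` (`(G h) i = G i 0 h 0 + ∑ (j ≠ 0), G i j (g x j + b j)`, and `G i 0 h 0 = (G i 0 / g) (y - ∑ G 0 j (g x j + b j))`; the constants are real numbers). `G'` is positive definite: for `x ≠ 0` the vector `h` with `h 0 = -∑ G 0 j x j`,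
`h j = g x j` gives `0 < h·Gh = g (x·G'x)`. By induction the sum over `x` of the product over `i ≠ 0` is at most `c ∏ (i ≠ 0), WW (R i)`. The sum over `y` of `mn (R 0) (γ 0 + t y)`: SHFT. (`WW` is increasing in `c`.) -/
def S_ANIW : Prop := ∀ (r : ℕ) (G : Matrix (Fin r) (Fin r) ℤ), PD G → ∃ c : ℕ, 1 ≤ c ∧
  ∀ (R : Fin r → ℕ) (t : ℝ) (γ : Fin r → ℝ), (∀ i, 1 ≤ R i) →
    ∑ h ∈ Fintype.piFinset (fun i => Finset.Icc (-(R i : ℤ)) (R i)),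
      ∏ i, mn (R i) (γ i + t * (((G *ᵥ h) i : ℤ) : ℝ)) ≤ c * ∏ i, WW (R i) c t

def M_ANIW : Prop := S_WWF → S_SHFT → S_ANIW

/-- WEYY. As WEYX (WEYX.lean), with ANIW instead of the injectivity of `h ↦ A h`. -/
def S_WEYY : Prop := ∀ (r : ℕ) (G : Matrix (Fin r) (Fin r) ℤ), PD G → ∃ c : ℕ, 1 ≤ c ∧
  ∀ (R : Fin r → ℕ) (z : Fin r → ℤ) (n : Fin r → ℕ) (t : ℝ) (φ ψ : (Fin r → ℤ) → ℝ), (∀ i, 1 ≤ R i) →
    (∀ i, n i ≤ R i) → (∀ x h, φ (x + h) = φ x + ψ h + t * ((x ⬝ᵥ (G *ᵥ h) : ℤ) : ℝ)) →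
    ‖∑ x ∈ bxn z n, eu (φ x)‖ ^ 2 ≤ c * ∏ i, WW (R i) c t

def M_WEYY : Prop := S_GEO → S_ANIW → S_WEYY

/-! ### weights -/

/-- `g` has size `L` and varies on the scale `R i` in the direction `i` in the box -/
def WClY {r : ℕ} (z : Fin r → ℤ) (n : Fin r → ℕ) (R : Fin r → ℝ) (L : ℝ) (g : (Fin r → ℤ) → ℂ) : Prop :=
  ∀ (S : Finset (Fin r)) (x : Fin r → ℤ), x ∈ bxn z n → x + ind S ∈ bxn z n →
    ‖DS S g x‖ ≤ L / ∏ i ∈ S, R i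

/-- ABEY. As ABEL (ABEL.lean). -/
def S_ABEY : Prop := ∀ (r : ℕ) (z : Fin r → ℤ) (n : Fin r → ℕ) (R : Fin r → ℝ) (L B : ℝ)
  (f g : (Fin r → ℤ) → ℂ), (∀ i, 0 < R i) → 0 ≤ L → 0 ≤ B →
  (∀ m : Fin r → ℕ, (∀ i, m i ≤ n i) → ‖∑ x ∈ bxn z m, f x‖ ≤ B) →
  WClY z n R L g → ‖∑ x ∈ bxn z n, f x * g x‖ ≤ B * L * ∏ i, (1 + n i / R i)

/-- the difference of a function on `ℤ` -/
def DD (f : ℤ → ℂ) (y : ℤ) : ℂ := f (y + 1) - f y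

/-- rules for weights -/
structure WCY : Prop where
  mul : ∀ (r : ℕ) (z : Fin r → ℤ) (n : Fin r → ℕ) (R : Fin r → ℝ) (L L' : ℝ) (g h : (Fin r → ℤ) → ℂ),
    (∀ i, 0 < R i) → 0 ≤ L → 0 ≤ L' → WClY z n R L g → WClY z n R L' h →
    WClY z n R (2 ^ r * (L * L')) (fun x => g x * h x)
  const : ∀ (r : ℕ) (z : Fin r → ℤ) (n : Fin r → ℕ) (R : Fin r → ℝ) (c : ℂ), (∀ i, 0 < R i) →
    WClY z n R ‖c‖ (fun _ => c)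
  iso : ∀ (r : ℕ) (z : Fin r → ℤ) (n : Fin r → ℕ) (R L : ℝ) (g : (Fin r → ℤ) → ℂ),
    WCl z n R L g → WClY z n (fun _ => R) L g
  coord : ∀ (r : ℕ) (z : Fin r → ℤ) (n : Fin r → ℕ) (R a : Fin r → ℝ) (f : Fin r → ℤ → ℂ),
    (∀ i, 0 < R i) → (∀ i, 0 ≤ a i) → (∀ i y, ‖f i y‖ ≤ a i) → (∀ i y, ‖f i (y + 1) - f i y‖ ≤ a i / R i) →
    WClY z n R (∏ i, a i) (fun x => ∏ i, f i (x i))
  lin : ∀ (r c : ℕ) (z : Fin r → ℤ) (n : Fin r → ℕ) (R : Fin r → ℝ) (R₀ L : ℝ) (f : ℤ → ℂ) (a : Fin r → ℤ)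
    (b : ℤ), (∀ i, 0 < R i) → (∀ i, R i ≤ R₀) → 0 ≤ L → (∀ i, |a i| ≤ c) →
    (∀ j ≤ r, ∀ y, ‖(DD^[j] f) y‖ ≤ L / R₀ ^ j) →
    WClY z n R ((1 + (c : ℝ)) ^ r * L) (fun x => f (b + ∑ i, a i * x i))

/-- WCLY. `mul`, `const`: as in WCLF (WCLF.lean). `coord`: `DS S` of a product of functions of the coordinates is the product of the differences (up to the sign). `lin`: `f (y + a) - f y` is a sum of at most `|a| ≤ c` values `± DD f`, so by induction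
`DS S` is a sum of at most `c ^ |S|` values of `± DD^[|S|] f`; `c ^ |S| L / R₀ ^ |S| ≤ (1 + c) ^ r L / ∏ i ∈ S, R i`. -/
def S_WCLY : Prop := WCY

/-! ### cutoffs -/

/-- smooth cutoff functions -/
def psm (X : ℕ) : ℕ → ℤ → ℝ
  | 0, x => if |x| ≤ X then 1 else 0
  | m + 1, x => (∑ y ∈ Finset.Icc (-(X : ℤ)) X, psm X m (x - y)) / X

/-- PSIM. Induction on `m`. `DD (psm (m + 1)) x = (psm m (x + 1 + X) - psm m (x - X)) / X`, `(2 X + 1) / X ≤ 3`, so `|DD^[j] psm m| ≤ 2^j 3^(m-j) / X^j`. Lower bound: for `|x| ≤ X` at least `X` of the `y` have `|x - y| ≤ X`. -/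
def S_PSIM : Prop := ∀ m : ℕ, ∃ C : ℝ, 0 ≤ C ∧ ∀ X : ℕ, 1 ≤ X →
  (∀ x, 0 ≤ psm X m x) ∧ (∀ x, psm X m (-x) = psm X m x) ∧ (∀ x : ℤ, |x| ≤ X → 1 ≤ psm X m x) ∧
  (∀ x : ℤ, ((m : ℤ) + 1) * X < |x| → psm X m x = 0) ∧
  ∀ j ≤ m, ∀ x, ‖(DD^[j] fun y => (psm X m y : ℂ)) x‖ ≤ C / (X : ℝ) ^ j

/-- the Fourier coefficients of Fejér's kernel, normalised to have the value `1` at `0` -/
def fj (M : ℕ) (k : ℤ) : ℝ := max 0 ((M : ℝ) - |(k : ℝ)|) / (M : ℝ) ^ 2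

/-- the coefficients of the dyadic pieces -/
def pj (J x : ℕ) (k : ℤ) : ℝ := if x < J then fj (2 ^ x) k - fj (2 ^ (x + 1)) k else fj (2 ^ x) k

/-- the dyadic pieces -/
def PJ (J x : ℕ) (z : ℂ) : ℂ := ∑ k ∈ Finset.Icc (-(2 ^ (x + 1) : ℤ)) (2 ^ (x + 1)),
  (pj J x k : ℂ) * Complex.exp (2 * π * Complex.I * (k * z))

/-- FEJA. Simple. The sum telescopes to `fj 1 k`. `∑ k, fj M k = 1`. -/
def S_FEJA : Prop := (∀ (J : ℕ) (k : ℤ), ∑ x ∈ Finset.range (J + 1), pj J x k = if k = 0 then 1 else 0) ∧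
  ∀ J x : ℕ, (∀ k, |pj J x k| ≤ 1 / 2 ^ x) ∧ (∀ k, |pj J x (k + 1) - pj J x k| ≤ 2 / (2 ^ x) ^ 2) ∧
    (∀ k : ℤ, 2 ^ (x + 1) ≤ |k| → pj J x k = 0) ∧
    ∀ K : ℕ, ∑ k ∈ Finset.Icc (-(K : ℤ)) K, |pj J x k| ≤ 2

/-- FEJB. `|e(kz)| ≤ exp (2π |k| |Im z|)`, and the sum of the `|pj J x k|` is at most `2` (FEJA). Second claim: `∑ k, pj J x k = 0` for `x < J`, and `PJ` is `1`-periodic, so with `z' = z - round (Re z)`: `|PJ z| ≤ ∑ k, |pj J x k| |e(k z') - 1|`,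
`|e(w) - 1| ≤ 2π |w| exp (2π |Im w|)`, `|z'| ≤ nd (Re z) + |Im z|`, `|k| ≤ 2^(x+1)`. -/
def S_FEJB : Prop := ∀ κ : ℝ, 0 ≤ κ → ∃ C : ℝ, 0 ≤ C ∧ ∀ (J x : ℕ) (z : ℂ), |z.im| ≤ κ / 2 ^ x →
  ‖PJ J x z‖ ≤ C ∧ (x < J → ‖PJ J x z‖ ≤ C * (2 ^ x * (nd z.re + |z.im|)))

def M_FEJB : Prop := S_FEJA → S_FEJB

/-- exponential sums with complex arguments -/
def ES {r : ℕ} (T : Finset (Fin r → ℤ)) (b : (Fin r → ℤ) → ℂ) (ζ : Fin r → ℂ) : ℂ :=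
  ∑ ν ∈ T, b ν * Complex.exp (2 * π * Complex.I * ∑ i, (ν i : ℂ) * ζ i)

/-- CAUC. Induction over the finite set `P`, with the claim for all radii: `∏ p ∈ insert q P, (p.2·ν) b ν` has the exponential sum `(2πi)⁻¹ d/dz F (ζ₀ + z q.2)` at `z = 0`, `F` the sum for `P`; by Cauchy's estimate
(`Complex.norm_deriv_le_of_forall_mem_sphere_norm_le`) with the radius `δ / (1 + max |q.2 i|)` it is at most `(C/δ) sup |F|` over the points with `‖ζ i - ζ₀ i‖ ≤ δ`; `δ = ρ / |P|` in every step (or `ρ/2`, as the constant may depend on `P`). -/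
def S_CAUC : Prop := ∀ (r : ℕ) (P : Finset ((Fin r → ℤ) × (Fin r → ℤ))), ∃ C : ℝ, 0 ≤ C ∧
  ∀ (T : Finset (Fin r → ℤ)) (b : (Fin r → ℤ) → ℂ) (ζ₀ : Fin r → ℂ) (ρ B : ℝ), 0 < ρ → 0 ≤ B →
    (∀ ζ : Fin r → ℂ, (∀ i, ‖ζ i - ζ₀ i‖ ≤ ρ) → ‖ES T b ζ‖ ≤ B) →
    ‖ES T (fun ν => (∏ p ∈ P, ((p.2 ⬝ᵥ ν : ℤ) : ℂ)) * b ν) ζ₀‖ ≤ (C / ρ) ^ P.card * B

/-! ### the integral and the sum over the tuples -/

/-- INTJ. (5.1) of `SUN2_PAPER.md`. As INTI (INTI.lean), from LOCI. Divided by `N^(2a-2) M^(2b)` the three terms are (`L` a power of `1 + log N`) `M^(-b) N^(2-a) L`, `N^(2-a) M^(-min 2 b) L`, `(N/M)^(2-3a/2)`;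
`N^(2-a) M^(-min 2 b) = (N/M)^(2-a) M^(2-a-min 2 b)`, `2 - a - min 2 b < 0`, and `L ≤ C (N/M)^ε M^(min 2 b + a - 2)`. -/
def S_INTJ : Prop := ∀ (c : ℕ) (a b ε : ℝ), 1 ≤ c → 0 < a → a < 1 → 3 / 2 ≤ b → 2 < a + b → 0 < ε →
  ∃ C : ℝ, 0 ≤ C ∧ ∀ N M : ℕ, 1 ≤ M → M ≤ N →
    ∫ t in (0 : ℝ)..1, WW N c t ^ a * WW M c t ^ b ≤
      C * ((N : ℝ) ^ (2 * a - 2) * (M : ℝ) ^ (2 * b) * ((N : ℝ) / M) ^ (2 - a + ε))

def M_INTJ : Prop := S_WPT → S_WINT → S_WWF → S_LOCI → S_INTJ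

/-- GSUY. Section 6 of `SUN2_PAPER.md`. `q = |ι|`, `N = 2^J`, `κ = p/2 - 1`, `a = κ r/2`, `M i = 2^(x (b x i))`, `y = J - x`. The integrand is `C^(κ+1) N^(qκ) (∏ 2^(x j))^κ (∏ i, M i)⁻¹ ∏ i, (WW N ^ a * WW (M i) ^ (r/2)) ^ (1/r)`. Hölder's inequality
(`ENNReal.lintegral_prod_norm_pow_le` or a version for `r` functions) and INTJ with `b = r/2`: the integral is at most `C N^(2qκ) 2^(-κ ∑ y j) N^(2a-2) 2^((γ/r) ∑ i, y (b x i))`, `γ = 2 - a + ε`, at most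
`C N^((2q+r)κ-2) 2^(-δ ∑ y j)`, `δ = κ - γ/q > 0` for small `ε` as `κ (2q + r)/2 > 2`. The sum over all `x` of the powers `2/p` is `∏` of geometric sums. (`p > 8/r` means `a + r/2 > 2`.) -/
def S_GSUY : Prop := ∀ (ι : Type) [Fintype ι] [DecidableEq ι] (r c : ℕ) (p C : ℝ), 3 ≤ r → 1 ≤ c → 0 ≤ C →
  1 ≤ Fintype.card ι → 2 + 8 / (2 * (Fintype.card ι : ℝ) + r) < p → 8 / (r : ℝ) < p → p < 2 + 4 / r →
  ∃ C' : ℝ, 0 ≤ C' ∧ ∀ (J : ℕ) (b : (ι → Fin (J + 1)) → Fin r → ι),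
    (∀ x : ι → Fin (J + 1), Fintype.card ι * ∑ i, (J - (x (b x i)).val) ≤ r * ∑ j, (J - (x j).val)) →
    ∃ Γ : (ι → Fin (J + 1)) → ℝ,
      (∀ x : ι → Fin (J + 1), ∫ t in (0 : ℝ)..1, (C * (((2 ^ J : ℕ) : ℝ) ^ Fintype.card ι * WW (2 ^ J) c t ^ ((r : ℝ) / 2) *
          ∏ j, (2 : ℝ) ^ (x j).val)) ^ (p / 2 - 1) *
        (C * ∏ i, (WW (2 ^ (x (b x i)).val) c t ^ ((1 : ℝ) / 2) / 2 ^ (x (b x i)).val)) ≤ Γ x) ∧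
      (∀ x, 0 ≤ Γ x) ∧
      ∑ x, Γ x ^ (2 / p) ≤
        C' * ((2 ^ J : ℕ) : ℝ) ^ (((2 * (Fintype.card ι : ℝ) + r) * (p / 2 - 1) - 2) * (2 / p))

def M_GSUY : Prop := S_WWF → S_INTJ → S_GSUY

/-- TTY. As TTX (TTX.lean). Now `‖∫∫ conj G U‖² ≤ (∑ a ∈ F, nsq (u a)) (∑ a ∈ F, nsq (Pr {a} (v a)))`, and the last sum is at most `∑ a ∈ T, η a * nsq (Pr {a} (v a))`. -/
def S_TTY : Prop := ∀ (M : Type) [TopologicalSpace M] [CompactSpace M] [T2Space M]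
  [SecondCountableTopology M] [MeasurableSpace M] [BorelSpace M] (μ : Measure M)
  [IsProbabilityMeasure μ] (ι : Type) (K : ι → M → M → ℂ), Ker μ K →
  ∀ (φ : ι → ℤ) (p : ℝ), 2 < p → ∀ (F T : Finset ι) (η : ι → ℝ) (κ : Type) [Fintype κ]
    (k : κ → ℝ → M → M → ℂ) (A E : κ → ℝ → ℝ) (Γ : κ → ℝ),
    F ⊆ T → (∀ a ∈ T, 0 ≤ η a) → (∀ a ∈ F, 1 ≤ η a) →
    (∀ t x y, ∑ a ∈ T, (η a : ℂ) * (eu (t * φ a) * K a x y) = ∑ j, k j t x y) →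
    (∀ j, Continuous fun z : ℝ × M × M => k j z.1 z.2.1 z.2.2) →
    (∀ j, Nice (A j)) → (∀ j, Nice (E j)) → (∀ j t x y, ‖k j t x y‖ ≤ A j t) →
    (∀ j t (u v : M → ℂ), Continuous u → Continuous v →
      ‖∫ x, conj (v x) * ∫ y, k j t x y * u y ∂μ ∂μ‖ ≤ E j t * (√(nsq μ u) * √(nsq μ v))) →
    (∀ j, ∫ t in (0 : ℝ)..1, A j t ^ (p / 2 - 1) * E j t ≤ Γ j) →
    ∀ (u : ι → M → ℂ), (∀ a ∈ F, Mem μ (K a) (u a)) → ∀ G : ℝ → M → ℂ, JC G →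
      (∀ t x, ‖G t x‖ ≤ 1) →
      ‖∫ t in (0 : ℝ)..1, ∫ x, conj (G t x) * ∑ a ∈ F, eu (t * φ a) * u a x ∂μ‖ ^ 2 ≤
        (∑ j, Γ j ^ (2 / p)) * (∑ a ∈ F, nsq μ (u a)) *
          (∫ t in (0 : ℝ)..1, ∫ x, ‖G t x‖ ∂μ) ^ (2 - 2 / p)

def M_TTY : Prop := S_KB → S_YOUNG → S_TTY

end

end STZ
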