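import Pool.Agent.STZ.StmtsU
import Pool.Agent.STZ.StmtsP

/-!
# Statements of the modules, block V: the decomposition with all roots at separate scales

The paper proof is in `SUN2_PAPER.md`. Module `X` proves `theorem t_X : M_X` (or `t_X : S_X` if there is no `M_X`) in the file
`Pool/Agent/STZ/X.lean`, namespace `STZ`. `N = 2 ^ J`.
-/

namespace STZ

open MeasureTheory Matrix

open scoped ComplexConjugate Matrix Real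

noncomputable section

/-- more properties of the positive roots -/
structure RTE {r : ℕ} (D : RD r) (P : RT r) : Prop where
  perm : ∀ w ∈ D.W, ∀ p ∈ P, ∃ q ∈ P, w *ᵥ p.1 = q.1 ∨ w *ᵥ p.1 = -q.1
  cperm : ∀ w ∈ D.W, ∀ p ∈ P, ∃ q ∈ P, (∀ l, p.2 ⬝ᵥ (w *ᵥ l) = q.2 ⬝ᵥ l) ∨
    (∀ l, p.2 ⬝ᵥ (w *ᵥ l) = -(q.2 ⬝ᵥ l))
  sim : ∀ i, ∃ p ∈ P, p.2 = Pi.single i 1
  avg : ∀ y : {p // p ∈ P} → ℕ, ∃ b : Fin r → {p // p ∈ P},
    (Matrix.of fun i => (b i).1.1).det ≠ 0 ∧ P.card * ∑ i, y (b i) ≤ r * ∑ p, y p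

/-- the cutoff function for the frequencies -/
def et {r : ℕ} (P : RT r) (X : ℕ) (l : Fin r → ℤ) : ℝ := ∏ p ∈ P, psm X r (p.2 ⬝ᵥ l)

/-- facts about `et` -/
structure ETF {r : ℕ} (D : RD r) (P : RT r) (X : ℕ) : Prop where
  inv : ∀ w ∈ D.W, ∀ l, et P X (w *ᵥ l) = et P X l
  nn : ∀ l, 0 ≤ et P X l
  ge : ∀ l, (∀ p ∈ P, |p.2 ⬝ᵥ l| ≤ X) → 1 ≤ et P X l
  supp : ∀ l i, ((r : ℤ) + 1) * X < |l i| → et P X l = 0

/-- ETAF. `inv`: by `cperm` the factor of `p` at `w l` is the factor of `q` at `l` (`psm` is even); `p ↦ q` is injective (`np2`, `w` is invertible), so a bijection of `P`. `supp`: `sim`. -/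
def S_ETAF : Prop := ∀ (r : ℕ) (D : RD r) (P : RT r) (B : Matrix (Fin r) (Fin r) ℤ) (h : ℕ), RDX D →
  RTD D P B h → RTE D P → ∀ X : ℕ, 1 ≤ X → ETF D P X

def M_ETAF : Prop := S_PSIM → S_ETAF

/-- the box `[-K, K]^r` -/
def cb (r K : ℕ) : Finset (Fin r → ℤ) := Fintype.piFinset fun _ => Finset.Icc (-(K : ℤ)) K

/-- the indices `k` of the Fourier series of the cutoff functions -/
def kb {r : ℕ} (P : RT r) (J : ℕ) : Finset ({p // p ∈ P} → ℤ) :=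
  Fintype.piFinset fun _ => Finset.Icc (-(2 ^ (J + 1) : ℤ)) (2 ^ (J + 1))

/-- `∑ k p • p.1` -/
def rs {r : ℕ} (P : RT r) (k : {p // p ∈ P} → ℤ) : Fin r → ℤ := ∑ p, k p • p.1.1

/-- the coefficients of the theta function times the cutoff function `x` -/
def nk {r : ℕ} (D : RD r) (P : RT r) (J : ℕ) (x : {p // p ∈ P} → Fin (J + 1)) (t : ℝ) (ν : Fin r → ℤ) : ℂ :=
  ∑ k ∈ kb P J, (∏ p, (pj J (x p).val (k p) : ℂ)) * (et P (2 ^ J) (ν - rs P k) : ℂ) *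
    eu (t * D.Q (ν - rs P k))

/-- the symmetrised coefficients, the multipliers -/
def nm {r : ℕ} (D : RD r) (P : RT r) (J : ℕ) (x : {p // p ∈ P} → Fin (J + 1)) (t : ℝ) (ν : Fin r → ℤ) : ℂ :=
  (1 / (D.W.card : ℂ)) * ∑ w ∈ D.W, nk D P J x t (w *ᵥ ν)

/-- facts about the multipliers -/
structure NKF {r : ℕ} (D : RD r) (P : RT r) : Prop where
  sum : ∀ (J : ℕ) (t : ℝ) (ν : Fin r → ℤ), ∑ x, nm D P J x t ν = (et P (2 ^ J) ν : ℂ) * eu (t * D.Q ν)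
  inv : ∀ w ∈ D.W, ∀ J x t ν, nm D P J x t (w *ᵥ ν) = nm D P J x t ν
  supp : ∃ C : ℕ, ∀ J x t ν i, (C : ℤ) * 2 ^ J < |ν i| → nk D P J x t ν = 0 ∧ nm D P J x t ν = 0

/-- NSUM. `sum`: exchange the sums, `∑ x, ∏ p, pj J (x p) (k p) = ∏ p, ∑ x ≤ J, pj J x (k p) = [k = 0]` (FEJA, `Finset.prod_univ_sum` or the like), so `∑ x, nk x = et ν e(t Q ν)`, which is invariant (`ETF.inv`, `Q_W`). `inv`: `W` is a group
(`w' ↦ w' w` is a bijection of `W`). `supp`: `ETF.supp`; `w` is invertible over the integers. -/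
def S_NSUM : Prop := ∀ (r : ℕ) (D : RD r) (P : RT r) (B : Matrix (Fin r) (Fin r) ℤ) (h : ℕ), RDX D →
  RTD D P B h → RTE D P → NKF D P

def M_NSUM : Prop := S_FEJA → S_ETAF → S_NSUM

/-- NBDY. (3.1) of `SUN2_PAPER.md`, for `nk` at any `ν`, hence for `nm`. Let `b i` be the roots (different, as the determinant is not zero). Fix the `k p` for `p` not among the `b i`: the sum of the absolute values of their factors is at most `2^|P|` (FEJA). The sum over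
`y i = k (b i)`, in a box with the sides `2^(x (b i) + 2)` (outside of it `pj = 0`): phase `t Q (ν' - ∑ y i • (b i).1)`, `G = B A Bᵀ` for the matrix `B` of the roots (`qf`; `PD` by `pd`: `x·Ax = 2 Q x`), WEYY with `R i = 4 · 2^(x (b i))` and `WWF.scale`. Weight
`∏ pj (y i) * et (ν' - ∑ y i • (b i).1)`, `et` a product of functions `psm (linear form)` (`WCY.coord`, `WCY.lin` with `R₀ = 2^J`, `WCY.mul`; PSIM), of size `C ∏ 2^(-x (b i))`, scale `R i = 2^(x (b i)) ≤ 2^J`. ABEY. There are finitely many `b`, take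
the maximum of the constants. -/
def S_NBDY : Prop := ∀ (r : ℕ) (D : RD r) (P : RT r) (B : Matrix (Fin r) (Fin r) ℤ) (h : ℕ), RDX D →
  RTD D P B h → RTE D P → ∃ (C : ℝ) (c : ℕ), 0 ≤ C ∧ 1 ≤ c ∧ ∀ (J : ℕ) (x : {p // p ∈ P} → Fin (J + 1))
    (t : ℝ) (ν : Fin r → ℤ) (b : Fin r → {p // p ∈ P}), (Matrix.of fun i => (b i).1.1).det ≠ 0 →
    ‖nm D P J x t ν‖ ≤ C * ∏ i, (WW (2 ^ (x (b i)).val) c t ^ ((1 : ℝ) / 2) / 2 ^ (x (b i)).val)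

def M_NBDY : Prop := S_WWF → S_WEYY → S_ABEY → S_WCLY → S_PSIM → S_FEJA → S_NBDY

/-- the coefficients of the theta function -/
def tk {r : ℕ} (D : RD r) (P : RT r) (J : ℕ) (t : ℝ) (l : Fin r → ℤ) : ℂ :=
  (et P (2 ^ J) l : ℂ) * eu (t * D.Q l)

/-- THBY. The sum over the box of `e(t Q l + l·Re ζ)` times the weight `et l * exp(-2π l·Im ζ)`: `WCY.lin`, `WCY.mul` for `et` (PSIM), `WCLF.exp` and `WCY.iso` for the exponential (times the constant `exp(-2π z·Im ζ)`, `z` the corner of the box, which is bounded),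
size `C`, scale `2^J`; WEYX, `WWF.scale`, ABEY. -/
def S_THBY : Prop := ∀ (r : ℕ) (D : RD r) (P : RT r) (B : Matrix (Fin r) (Fin r) ℤ) (h : ℕ), RDX D →
  RTD D P B h → ∀ κ : ℝ, 0 ≤ κ → ∃ (C : ℝ) (c : ℕ), 0 ≤ C ∧ 1 ≤ c ∧ ∀ (J : ℕ) (t : ℝ) (ζ : Fin r → ℂ),
    (∀ i, |(ζ i).im| ≤ κ / 2 ^ J) →
    ‖ES (cb r ((r + 1) * 2 ^ J)) (tk D P J t) ζ‖ ≤ C * WW (2 ^ J) c t ^ ((r : ℝ) / 2)

def M_THBY : Prop := S_WWF → S_WEYX → S_ABEY → S_WCLF → S_WCLY → S_PSIM → S_THBY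

/-- HPRY. Expand the product; `ν = l + rs P k`, `et l = 0` outside of `cb r ((r + 1) 2^J)`. -/
def S_HPRY : Prop := ∀ (r : ℕ) (D : RD r) (P : RT r) (B : Matrix (Fin r) (Fin r) ℤ) (h : ℕ), RDX D →
  RTD D P B h → RTE D P → ∃ C : ℕ, ∀ (J K : ℕ) (x : {p // p ∈ P} → Fin (J + 1)) (t : ℝ) (ζ : Fin r → ℂ),
    C * 2 ^ J ≤ K →
    ES (cb r K) (nk D P J x t) ζ =
      ES (cb r ((r + 1) * 2 ^ J)) (tk D P J t) ζ * ∏ p, PJ J (x p).val (∑ i, (p.1.1 i : ℂ) * ζ i)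

def M_HPRY : Prop := S_FEJA → S_ETAF → S_HPRY

/-- the size of the cutoff at a distance `y` from the wall -/
def mx (J x : ℕ) (y : ℝ) : ℝ := min 1 (2 ^ x * (y + 1 / 2 ^ J))

/-- HBDY. CAUC with `ρ = 1 / 2^J`, HPRY, THBY with `κ + 1`, and FEJB for the factors: `|Im (p·ζ)| ≤ C/2^J ≤ C/2^x`, and `nd (Re (p·ζ)) + |Im (p·ζ)| ≤ nd (dz p θ) + C/2^J`, so the factor is at most `C min 1 (2^x (nd (dz p θ) + 1/2^J))` for `x < J`; for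
`x = J` this minimum is `1`. -/
def S_HBDY : Prop := ∀ (r : ℕ) (D : RD r) (P : RT r) (B : Matrix (Fin r) (Fin r) ℤ) (h : ℕ), RDX D →
  RTD D P B h → RTE D P → ∀ κ : ℝ, 0 ≤ κ → ∃ (C : ℝ) (c K₀ : ℕ), 0 ≤ C ∧ 1 ≤ c ∧
    ∀ (J K : ℕ) (x : {p // p ∈ P} → Fin (J + 1)) (t : ℝ) (θ : Fin r → ℝ) (ζ : Fin r → ℂ), K₀ * 2 ^ J ≤ K →
    (∀ i, ‖ζ i - θ i‖ ≤ κ / 2 ^ J) →
    ‖ES (cb r K) (fun ν => (∏ p ∈ P, ((p.2 ⬝ᵥ ν : ℤ) : ℂ)) * nk D P J x t ν) ζ‖ ≤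
      C * (((2 : ℝ) ^ J) ^ P.card * WW (2 ^ J) c t ^ ((r : ℝ) / 2) *
        ∏ p, mx J (x p).val (nd (dz p.1.1 θ)))

def M_HBDY : Prop := S_CAUC → S_THBY → S_HPRY → S_FEJB → S_HBDY

/-- GDVA. The proof of KSUP (KSUP.lean) for general `F = ES T b`. `u` from DENS, `c₀ = min |dz p.1 u|`; the points `θ + z u`, `|z| ≤ R = ε/N`, are in the ball. For the `p` with `nd (dz p.1 θ) ≤ c₀ R / 2` the function `z ↦ F (θ + z u)` vanishes at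
`z p = -(dz p.1 θ - round (dz p.1 θ)) / dz p.1 u`, `|z p| ≤ R/2`. If the `z p` are different: SCHW gives `|F θ| ≤ B ∏ (C N nd (dz p.1 θ))`, and for the other `p` `N nd ≥ c`. In general: apply this to points `θ'` near `θ` (with `2N` instead of `N`: the ball of radius
`1/(2N)` around `θ'` is in the ball of radius `1/N` around `θ`) for which the `z p` are different (`np1`), and `θ' → θ`. -/
def S_GDVA : Prop := ∀ (r : ℕ) (D : RD r) (P : RT r) (B : Matrix (Fin r) (Fin r) ℤ) (h : ℕ), RDX D →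
  RTD D P B h → ∃ C : ℝ, 0 ≤ C ∧ ∀ (T : Finset (Fin r → ℤ)) (b : (Fin r → ℤ) → ℂ) (N : ℝ) (θ : Fin r → ℝ)
    (E : ℝ), 1 ≤ N → 0 ≤ E →
    (∀ (θ' : Fin r → ℝ) (k : ℤ), ∀ p ∈ P, dz p.1 θ' = k → ES T b (fun i => θ' i) = 0) →
    (∀ ζ : Fin r → ℂ, (∀ i, ‖ζ i - θ i‖ ≤ 1 / N) → ‖ES T b ζ‖ ≤ E) →
    ‖ES T b (fun i => θ i)‖ ≤ C * (E * ∏ p ∈ P, min 1 (N * nd (dz p.1 θ)))

def M_GDVA : Prop := S_DENS → S_SCHW → S_GDVA

/-- FANT. Antisymmetric coefficients. If `ν` is not regular up to `W` (`str`), `b ν = 0` (`refl`). Every other `ν` with `b ν ≠ 0` is `w ν'` with unique `w ∈ W` and regular `ν'` (`str`, `free`), and `b ν' ≠ 0`, so `ν' ∈ bx 1 K`. -/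
def S_FANT : Prop := ∀ (r : ℕ) (D : RD r), RDW D → ∀ (K : ℕ) (b : (Fin r → ℤ) → ℂ),
  (∀ w ∈ D.W, ∀ ν, b (w *ᵥ ν) = (w.det : ℂ) * b ν) → (∀ ν i, (K : ℤ) < |ν i| → b ν = 0) →
  ∀ θ : Fin r → ℝ, ES (cb r K) b (fun i => θ i) = ∑ ν ∈ bx (1 : Fin r → ℤ) K, b ν * AT D ν θ

/-- SUPY. (3.2) of `SUN2_PAPER.md`. Let `b ν = dim ν * nm ν`, antisymmetric (`dim (w ν) = det w dim ν` by `dim_eq` and `anti`; `NKF.inv`), and `F = ES (cb r K) b`, so `F θ = ∑ (ν ∈ bx 1 K), b ν AT ν θ` (FANT) `= (the sum in the claim) * AT 1 θ` (WCF); it vanishes where `dz p.1 θ ∈ ℤ`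
(`ATF.van`). Also `F ζ = (1/|W|) ∑ w, ∑ ν, dim ν nk (w ν) e(ν·ζ)`; substitute `ν' = w ν` in a larger box: it is `± (∏ p, p.2·1)⁻¹ ∑ ν', (∏ p, p.2·ν') nk ν' e(ν'·ζ')` (`dimP`), `ζ' j = ∑ i, w' i j ζ i`, `w' = w⁻¹ ∈ W`, `p.1·ζ' = (w' p.1)·ζ = ± q.1·ζ` (`perm`; `p ↦ q` is a
bijection of `P` by `np1`); but the factor of `p` has the index `x p`, and not `x q`. So by HBDY (`κ` such that `ζ'` is in the ball around `θ'`) `|F ζ| ≤ C N^|P| WW^(r/2) (1/|W|) ∑ w, ∏ p, mx J (x p) (nd (dz (w p.1) θ))` for `‖ζ i - θ i‖ ≤ 1/2^J`.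
GDVA with `N = 2^J`, and `∏ p ∈ P, min 1 (N nd (dz p.1 θ)) = ∏ p ∈ P, min 1 (N nd (dz (w p.1) θ))`. `|AT 1 θ| ≥ ∏ 4 nd (dz p.1 θ)` (`den`), if it is not zero; each factor `mx J x y * min 1 (N y) / y ≤ 2 * 2^x`. The set of `θ` where the claim holds is closed and contains all `θ`
with `AT 1 θ ≠ 0` (use DENS for the continuous function `max 0 (‖ ‖ - bound)`). -/
def S_SUPY : Prop := ∀ (r : ℕ) (D : RD r) (P : RT r) (B : Matrix (Fin r) (Fin r) ℤ) (h : ℕ), RDX D →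
  RTD D P B h → RTE D P → ∃ (C : ℝ) (c K₀ : ℕ), 0 ≤ C ∧ 1 ≤ c ∧
    ∀ (J K : ℕ) (x : {p // p ∈ P} → Fin (J + 1)) (t : ℝ) (θ : Fin r → ℝ), K₀ * 2 ^ J ≤ K →
    ‖∑ ν ∈ bx (1 : Fin r → ℤ) K, (D.dim ν : ℂ) * nm D P J x t ν * D.ψ (XT D θ) ν‖ ≤
      C * (((2 : ℝ) ^ J) ^ P.card * WW (2 ^ J) c t ^ ((r : ℝ) / 2) * ∏ p, (2 : ℝ) ^ (x p).val)

def M_SUPY : Prop := S_DENS → S_ATF → S_WCF → S_NSUM → S_HBDY → S_GDVA → S_FANT → S_SUPY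

/-- the pieces of the kernel (for `-Q`: the time is `-t`) -/
def ky {N : ℕ} {H : Subgroup (SU N)} {r : ℕ} (D : RD r) (P : RT r) (x : Fin r → H → ℂ) (J K : ℕ)
    (y : {p // p ∈ P} → Fin (J + 1)) (t : ℝ) (g g' : H) : ℂ :=
  ∑ a ∈ ib r K, nm D P J y (-t) (wG a) * KK (cG D x) a g g'

/-- facts about the pieces, for `K = K₀ 2^J` -/
structure KYF {N : ℕ} {H : Subgroup (SU N)} {r : ℕ} (D : RD r) (P : RT r) (x : Fin r → H → ℂ)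
    (μ : Measure H) (C : ℝ) (c K₀ J : ℕ) : Prop where
  cont : ∀ y, Continuous fun z : ℝ × H × H => ky D P x J (K₀ * 2 ^ J) y z.1 z.2.1 z.2.2
  sum : ∀ t g g', ∑ a ∈ ib r (K₀ * 2 ^ J), ((et P (2 ^ J) (wG a) : ℝ) : ℂ) *
    (eu (t * ((-D.Q (wG a) : ℤ) : ℝ)) * KK (cG D x) a g g') = ∑ y, ky D P x J (K₀ * 2 ^ J) y t g g'
  nn : ∀ a : Fin r → ℕ, 0 ≤ et P (2 ^ J) (wG a)
  ge : ∀ a : Fin r → ℕ, (∀ i, K₀ * (a i + 1) ≤ 2 ^ J) →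
    a ∈ ib r (K₀ * 2 ^ J) ∧ 1 ≤ et P (2 ^ J) (wG a)
  sup : ∀ y t g g', ‖ky D P x J (K₀ * 2 ^ J) y t g g'‖ ≤
    C * (((2 ^ J : ℕ) : ℝ) ^ P.card * WW (2 ^ J) c t ^ ((r : ℝ) / 2) * ∏ p, (2 : ℝ) ^ (y p).val)
  opb : ∀ y t (b : Fin r → {p // p ∈ P}), (Matrix.of fun i => (b i).1.1).det ≠ 0 →
    ∀ u v : H → ℂ, Continuous u → Continuous v →
    ‖∫ g, conj (v g) * ∫ g', ky D P x J (K₀ * 2 ^ J) y t g g' * u g' ∂μ ∂μ‖ ≤
      (C * ∏ i, (WW (2 ^ (y (b i)).val) c t ^ ((1 : ℝ) / 2) / 2 ^ (y (b i)).val)) *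
        (√(nsq μ u) * √(nsq μ v))

/-- KYFG. `cont`: polynomials in `x` (INTX), `eu`. `sum`: `NKF.sum` at `-t`. `ge`: `K₀ ≥ ∑ i, p.2 i` for all `p`. `sup`: the point `θ` of `Tor` for `g * g'⁻¹` (`KK (cG D x) a g g' = dim (wG a) ψ (XT θ) (wG a)`, `dim_eq`, `xone`), SUPY, `WWF.even`; `wG` maps `ib r K` to `bx 1 K`. `opb`: the
kernels are reproducing (IRRX, KERI), KOP, NBDY. (Take the maxima of the constants; `WWF.mono`.) -/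
def S_KYFG : Prop := ∀ (N : ℕ) (H : Subgroup (SU N)) (c : ℝ) (d r : ℕ) (D : RD r) (P : RT r)
  (B : Matrix (Fin r) (Fin r) ℤ) (h : ℕ) (x : Fin r → H → ℂ) (k : ℝ), GD H c d D P B h x k → RTE D P →
  ∀ (μ : Measure H) [IsProbabilityMeasure μ] [μ.IsMulLeftInvariant],
  ∃ (C : ℝ) (c K₀ : ℕ), 0 ≤ C ∧ 1 ≤ c ∧ ∀ J : ℕ, KYF D P x μ C c K₀ J

def M_KYFG : Prop := S_WWF → S_KERI → S_INTX → S_IRRX → S_ETAF → S_NSUM → S_NBDY → S_SUPY → S_KOP → S_KYFG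

/-- LOCY. As LOCX (LOCX.lean). `p₀ = max (2 + 8/(e+r)) (8/r)`, `e = 2|P|`. Let `p' > p₀` be the exponent, choose `p` with `p₀ < p < min p' (2 + 4/r)` (`p₀ < 2 + 4/r`, since `|P| ≥ r` by `sim`, `r ≥ 3`). `J` with `K₀ N ≤ 2^J ≤ 2 K₀ N` (`F` not empty). TTY with `κ = ({p // p ∈ P} → Fin (J + 1))`,
`T = ib r (K₀ 2^J)`, `η a = et (wG a)`, `k = ky`, the bounds of `KYF.sup` and `KYF.opb` with the `b y` of `RTE.avg` for `J - y`; GSUY with `ι = {p // p ∈ P}`. LEV as in LOCX. -/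
def S_LOCY : Prop := ∀ (N : ℕ) (H : Subgroup (SU N)) (c : ℝ) (d r : ℕ) (D : RD r) (P : RT r)
  (B : Matrix (Fin r) (Fin r) ℤ) (h : ℕ) (x : Fin r → H → ℂ) (k : ℝ), 3 ≤ r → GD H c d D P B h x k → RTE D P →
  ∀ (μ : Measure H) [IsProbabilityMeasure μ] [μ.IsMulLeftInvariant],
    LOCH μ (KK (cG D x)) (D.e : ℝ) wG (fun l => -D.Q l) (max (2 + 8 / ((D.e : ℝ) + r)) (8 / (r : ℝ)))

def M_LOCY : Prop := S_KB → S_BERN → S_KERI → S_WWF → S_IRRX → S_KYFG → S_GSUY → S_TTY → S_LEV → S_LOCY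

/-- STRY. As STRX (STRX.lean), with LOCY. -/
def S_STRY : Prop := ∀ (N : ℕ) (H : Subgroup (SU N)) (c : ℝ) (d r : ℕ) (D : RD r) (P : RT r)
  (B : Matrix (Fin r) (Fin r) ℤ) (h : ℕ) (x : Fin r → H → ℂ) (k : ℝ), 3 ≤ r → GD H c d D P B h x k → RTE D P →
  ∀ p : ℝ, 2 + 8 / (d : ℝ) < p → 8 / (r : ℝ) < p → StrG H c d p

def M_STRY : Prop := S_NQ → S_KB → S_HAAR → S_KERI → S_IRRX → S_EIGX → S_ALLX → S_LOCY → S_STRY

/-- RTEA. `perm`, `cperm`: `wA σ *ᵥ dif m = dif (m ∘ σ)`, and `p.2 ⬝ᵥ l = cum l a - cum l b` for the pair `(a, b)` (`CUF.dot`, `CUF.wc`). `sim`: the pair `(i.castSucc, i.succ)`. `avg`: for `σ ∈ Perm (Fin (r + 1))` let `b i` be the root of the pair `{σ i.castSucc, σ i.succ}`; the rows are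
`±` the rows of `BA r` transformed by `wA σ⁻¹`, so the determinant is not zero (`RA1.bas`). `∑ σ, ∑ i, y (b i) = r · 2 (r - 1)! ∑ p, y p` (every ordered pair `(a, b)`, `a ≠ b`, is `(σ i.castSucc, σ i.succ)` for `(r - 1)!` of the `σ`), there are `(r + 1)!` of them and `|P| = r (r + 1)/2`; so some
`σ` has at most the average. -/
def S_RTEA : Prop := ∀ r : ℕ, RTE (DA r) (PA r)

def M_RTEA : Prop := S_CUMA → S_RTA1 → S_RTEA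

end

end STZ
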