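import Pool.Agent.STZ.StmtsA

/-!
# Statements of the modules, block X: exponential sums, `T T*`

The paper proof is in `SUN_PAPER.md`. Module `X` proves `theorem t_X : M_X` (or `t_X : S_X` if there is no `M_X`) in the file
`Pool/Agent/STZ/X.lean`, namespace `STZ`.
-/

namespace STZ

open MeasureTheory Matrix

open scoped ComplexConjugate Matrix Real

noncomputable section

/-- the box with the corner `z` and the sides `n i` -/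
def bxn {r : ℕ} (z : Fin r → ℤ) (n : Fin r → ℕ) : Finset (Fin r → ℤ) :=
  Fintype.piFinset fun i => Finset.Ico (z i) (z i + n i)

/-- WEYX. As WEYL (WEYL.lean): `|∑_x e(φ x)|² = ∑_h ∑_(x, x + h ∈ box) e(φ (x + h) - φ x)`, and `φ (x + h) - φ x = ψ h + t x·Ah`, so for fixed `h` the inner sum is in absolute
value a product of sums over intervals with at most `R` elements, at most `∏ i, mn R (t (Ah) i)` by GEO; `h ↦ A h` is injective on `(-R, R)^r` with values in `[-cR, cR]^r`. -/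
def S_WEYX : Prop := ∀ (r : ℕ) (A : Matrix (Fin r) (Fin r) ℤ), A.det ≠ 0 →
  ∃ c : ℕ, 1 ≤ c ∧ ∀ (R : ℕ) (z : Fin r → ℤ) (n : Fin r → ℕ) (t : ℝ) (φ ψ : (Fin r → ℤ) → ℝ), 1 ≤ R →
    (∀ i, n i ≤ R) → (∀ x h, φ (x + h) = φ x + ψ h + t * ((x ⬝ᵥ (A *ᵥ h) : ℤ) : ℝ)) →
    ‖∑ x ∈ bxn z n, eu (φ x)‖ ^ 2 ≤ WW R c t ^ r

def M_WEYX : Prop := S_GEO → S_WEYX

/-- facts about `WW` -/
structure WWF : Prop where
  cont : ∀ R c : ℕ, Continuous (WW R c)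
  per : ∀ (R c : ℕ) (t : ℝ), WW R c (t + 1) = WW R c t
  even : ∀ (R c : ℕ) (t : ℝ), WW R c (-t) = WW R c t
  ge : ∀ (R c : ℕ) (t : ℝ), (R : ℝ) ≤ WW R c t
  mono : ∀ (R R' c c' : ℕ) (t : ℝ), R ≤ R' → c ≤ c' → WW R c t ≤ WW R' c' t
  scale : ∀ (k R c : ℕ) (t : ℝ), 1 ≤ k → WW (k * R) c t ≤ k * WW R (k * c) t
  int1 : ∀ c : ℕ, ∃ C : ℝ, ∀ R : ℕ, 1 ≤ R → ∫ t in (0 : ℝ)..1, WW R c t ≤ C * (R * (1 + Real.log R))

/-- WWF. `nd` is continuous (`nd θ = min` of the distances, or `|θ - round θ|` is `1`-Lipschitz), even, `1`-periodic. `ge`: the term `x = 0`. `mono`: `R / max 1 (2 R δ) = min R (1/(2 δ))` is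
increasing in `R`, all terms are nonnegative. `int1`: for an integer `x ≠ 0` we have `∫ mn R (t x) dt = ∫ mn R θ dθ` over `[0, 1]` and this is at most `C (1 + log R)`; there are `2cR` such `x`, and the term
`x = 0` is `R`. -/
def S_WWF : Prop := WWF

/-- FRCN. The number of rationals with denominators in `[Q, 2Q)` in an interval: two different ones have a distance at least `1 / (4 Q²)`. -/
def S_FRCN : Prop := ∀ (Q : ℕ) (x δ : ℝ), 1 ≤ Q → 0 ≤ δ → ∀ s : Finset ℚ,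
  (∀ ρ ∈ s, Q ≤ ρ.den ∧ ρ.den < 2 * Q ∧ |(ρ : ℝ) - x| ≤ δ) → (s.card : ℝ) ≤ 1 + 8 * (Q : ℝ) ^ 2 * δ

/-- LOCI. The integral near one rational. (All functions are continuous.) For every `t` in the interval let `ρ` be a Dirichlet approximation: `q = ρ.den ≤ 2 c N`, `|t - ρ| ≤ 1 / (2 c N q)`
(`Real.exists_rat_abs_sub_le_and_den_le`, `n = 2 c N`); by S_WPT `WW N c t ^ a ≤ C (N (1 + log N))^a + C (N²/q)^a (1 + N²|t - ρ|)^(-3a/4)`. So with the finite set of all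
the possible `ρ` (bound a maximum by the sum): the integral is at most the sum of the three parts:
(i) `(N (1 + log N))^a ∫ (1 + M²|x|)^(-3b/4) dx ≤ C (N (1 + log N))^a M⁻²` as `3b/4 > 1`.
(ii) `ρ = ρ'`: `(N²/q')^a ∫_ℝ (1+N²|x|)^(-3a/4) (1+M²|x|)^(-3b/4) dx ≤ C q'^(-a) N^(2a) N^(-3a/2) M^(3a/2-2)` (use `(1+N²|x|)^(-3a/4) ≤ (N²|x|)^(-3a/4)`, `3a/4 < 1`, substitute `x = y/M²`).
(iii) `ρ ≠ ρ'`: `1/(q q') ≤ |ρ - ρ'| ≤ 1/(2cNq) + 1/(2cMq')`, multiply by `q q'`: `1 ≤ q'/(2cN) + q/(2cM) ≤ M/N + q/(2cM)`, so `q ≥ cM` as `M/N ≤ 1/2`. Cut `|t - ρ'|` into `≤ M⁻²` and the shells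
`(2^(k-1) M⁻², 2^k M⁻²]`, `k ≥ 1`: the weight is at most `2^(-3b(k-1)/4)`. By FRCN the number of the `ρ` with `q ∈ [Q, 2Q)` (`Q ≥ cM/2`, dyadic, `Q ≤ 2cN`) which have points of the shell
within `1/(2cNQ)` is at most `1 + 8 Q² (2^k M⁻² + 1/(2cNQ)) ≤ C Q² 2^k M⁻²`, and `∫_(|x| ≤ 1/(2cNq)) (N²/q)^a (1+N²|x|)^(-3a/4) dx ≤ C N^(2a) q^(-a) N⁻² (N/q)^(1-3a/4) ≤ C N^(5a/4-1) Q^(-1-a/4)`; the sum over the
dyadic `Q` is at most `C 2^k M⁻² N^a`, and the sum over `k` with the weights is at most `C M⁻² N^a`. -/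
def S_LOCI : Prop := ∀ (c : ℕ) (a b : ℝ), 1 ≤ c → 0 < a → a < 1 → 3 / 2 ≤ b → ∃ C : ℝ, 0 ≤ C ∧
  ∀ (N M : ℕ) (ρ : ℚ), 1 ≤ M → 2 * M ≤ N → ρ.den ≤ 2 * c * M →
    ∫ t in ((ρ : ℝ) - 1 / (ρ.den * (2 * c * M)))..((ρ : ℝ) + 1 / (ρ.den * (2 * c * M))),
      WW N c t ^ a * (1 + (M : ℝ) ^ 2 * |t - ρ|) ^ (-(3 * b / 4)) ≤
    C * ((N * (1 + Real.log N)) ^ a * (M : ℝ) ^ (-2 : ℝ) +
      (ρ.den : ℝ) ^ (-a) * (N : ℝ) ^ (2 * a - 2) * ((N : ℝ) / M) ^ (2 - 3 * a / 2))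

def M_LOCI : Prop := S_WPT → S_WWF → S_FRCN → S_LOCI

/-- INTI. If `2 M > N`: `WW M ≤ WW N` and WINT with `σ = a + b > 2`. Otherwise by S_WPT for `WW M` (every `t ∈ [0, 1]` is near some `ρ'`, `q' ≤ 2 c M`, `-1 ≤ numerator ≤ q' + 1`) the integral is at most
`C (M (1 + log M))^b ∫ WW N ^ a + C ∑_(ρ') (M²/q')^b J(ρ')` with the integrals `J` of LOCI. `∫ WW N ^ a ≤ (∫ WW N)^a ≤ C (N (1 + log N))^a` (concavity, `WWF.int1`).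
`∑_(q' ≤ 2cM) (q' + 3) q'^(-b) ≤ C M^(max 0 (2-b)) (1 + log M)`, `∑ (q' + 3) q'^(-a-b) ≤ C`. So the total is at most
`C (1 + log N)^C N^a M^(max b (2b-2)) + C N^(2a-2) M^(2b) (N/M)^(2-3a/2)`. Both are at most the right side: `2 - 3a/2 ≤ 1 + a/2` as `a ≥ 1/2`; and
`(1 + log N)^C N^(2-a) ≤ C' M^(min b 2) (N/M)^(1+a/2)`, because `min b 2 ≥ 3/2 > 1 + a/2` (so the right side is at least `N^(1+a/2)`) and `2 - a < 1 + a/2`. -/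
def S_INTI : Prop := ∀ (c : ℕ) (a b : ℝ), 1 ≤ c → 2 / 3 < a → a < 1 → 3 / 2 ≤ b → ∃ C : ℝ, 0 ≤ C ∧
  ∀ N M : ℕ, 1 ≤ M → M ≤ N →
    ∫ t in (0 : ℝ)..1, WW N c t ^ a * WW M c t ^ b ≤
      C * ((N : ℝ) ^ (2 * a - 2) * (M : ℝ) ^ (2 * b) * ((N : ℝ) / M) ^ (1 + a / 2))

def M_INTI : Prop := S_WPT → S_WINT → S_WWF → S_LOCI → S_INTI

/-! ### discrete weights -/

/-- the indicator of `S` as an integer vector -/
def ind {r : ℕ} (S : Finset (Fin r)) : Fin r → ℤ := fun i => if i ∈ S then 1 else 0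

/-- the mixed difference in the directions of `S` (up to the sign) -/
def DS {r : ℕ} (S : Finset (Fin r)) (g : (Fin r → ℤ) → ℂ) (x : Fin r → ℤ) : ℂ :=
  ∑ T ∈ S.powerset, (-1 : ℂ) ^ T.card * g (x + ind T)

/-- `g` has size `L` and varies on the scale `R` in the box -/
def WCl {r : ℕ} (z : Fin r → ℤ) (n : Fin r → ℕ) (R L : ℝ) (g : (Fin r → ℤ) → ℂ) : Prop :=
  ∀ (S : Finset (Fin r)) (x : Fin r → ℤ), x ∈ bxn z n → x + ind S ∈ bxn z n →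
    ‖DS S g x‖ ≤ L / R ^ S.card

/-- ABEL. Abel summation in several variables. `r = 1`: `∑_(j < n) f (z + j) g (z + j) = F n g (z + n - 1) - ∑_(1 ≤ j < n) F j (g (z + j) - g (z + j - 1))`, `F j` the sum of the first `j` values of `f`. In
general induction on the number of variables, or: apply it in each variable, the sum is a sum over `S` of terms `± F(..) DS S g (..)` where the coordinates in `S` run over all values and the others are at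
the upper end; there are at most `∏ i ∈ S, n i` terms for `S`, each at most `B L / R ^ |S|`. -/
def S_ABEL : Prop := ∀ (r : ℕ) (z : Fin r → ℤ) (n : Fin r → ℕ) (R L B : ℝ) (f g : (Fin r → ℤ) → ℂ),
  0 < R → 0 ≤ L → 0 ≤ B → (∀ m : Fin r → ℕ, (∀ i, m i ≤ n i) → ‖∑ x ∈ bxn z m, f x‖ ≤ B) →
  WCl z n R L g → ‖∑ x ∈ bxn z n, f x * g x‖ ≤ B * L * ∏ i, (1 + n i / R)

/-- rules for weights -/
structure WCLF : Prop where
  mul : ∀ (r : ℕ) (z : Fin r → ℤ) (n : Fin r → ℕ) (R L L' : ℝ) (g h : (Fin r → ℤ) → ℂ), 0 < R → 0 ≤ L →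
    0 ≤ L' → WCl z n R L g → WCl z n R L' h → WCl z n R (2 ^ r * (L * L')) (fun x => g x * h x)
  const : ∀ (r : ℕ) (z : Fin r → ℤ) (n : Fin r → ℕ) (R : ℝ) (c : ℂ), 0 < R → WCl z n R ‖c‖ (fun _ => c)
  lin : ∀ (r : ℕ) (z : Fin r → ℤ) (n : Fin r → ℕ) (R L : ℝ) (a : Fin r → ℂ) (b : ℂ), 0 < R → 0 ≤ L →
    (∀ i, ‖a i‖ ≤ L / R) → (∀ x ∈ bxn z n, ‖b + ∑ i, a i * x i‖ ≤ L) →
    WCl z n R L (fun x => b + ∑ i, a i * x i)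
  exp : ∀ (r : ℕ) (κ κ' : ℝ), 0 ≤ κ → 0 ≤ κ' → ∃ C : ℝ, 0 ≤ C ∧ ∀ (z : Fin r → ℤ) (n : Fin r → ℕ) (R : ℝ)
    (ζ : Fin r → ℂ), 1 ≤ R → (∀ i, ‖ζ i‖ ≤ κ / R) → (∀ i, (n i : ℝ) ≤ κ' * R) →
    WCl z n R C (fun x => Complex.exp (∑ i, ζ i * (x i - z i)))

/-- WCLF. `mul`: Leibniz, `DS S (g h) x = ∑ T ⊆ S, DS T g x * DS (S \ T) h (x + ind T)` (both sides are products over the variables of `1 - shift`; induction on `S`, or rearrangement of the sum), and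
`2 ^ |S| ≤ 2 ^ r`. `lin`: `DS {i} g = - a i`, and `DS S g = 0` if `|S| ≥ 2`. `exp`: `DS S g x = g x ∏ i ∈ S, (1 - exp (ζ i))`. -/
def S_WCLF : Prop := WCLF

/-- SCHW. Schwarz lemma. Induction on `m`: `dslope h z₁` is entire (`Complex.differentiableOn_dslope` or the like), `h z = (z - z₁) dslope h z₁ z`, it vanishes at the other `z i`, and on
`‖z‖ = R` it is at most `B / (R - R/2)`, hence on the disc (maximum modulus, `Complex.norm_le_of_forall_mem_frontier_norm_le`). -/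
def S_SCHW : Prop := ∀ (m : ℕ) (z : Fin m → ℂ) (h : ℂ → ℂ) (R B : ℝ), 0 < R → Differentiable ℂ h →
  Function.Injective z → (∀ i, ‖z i‖ ≤ R / 2) → (∀ i, h (z i) = 0) → (∀ w, ‖w‖ ≤ R → ‖h w‖ ≤ B) →
  ‖h 0‖ ≤ B * ∏ i, (2 * ‖z i‖ / R)

/-! ### `T T*` -/

/-- KOP. Combinations of reproducing kernels. The inner integral is `∑ b, m b Pr {b} u`; `∫ conj v Pr {b} u = ∫ conj (Pr {b} v) Pr {b} u` (`KBF.adj`, `KBF.idem`), Cauchy-Schwarz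
in `L²(M)` and then for sums, `∑_(b ∈ T) nsq (Pr {b} u) = nsq (Pr T u) ≤ nsq u` (`pyth`, `bess`). -/
def S_KOP : Prop := ∀ (M : Type) [TopologicalSpace M] [CompactSpace M] [T2Space M]
  [SecondCountableTopology M] [MeasurableSpace M] [BorelSpace M] (μ : Measure M)
  [IsProbabilityMeasure μ] (ι : Type) (K : ι → M → M → ℂ), Ker μ K →
  ∀ (T : Finset ι) (m : ι → ℂ) (E : ℝ), 0 ≤ E → (∀ b ∈ T, ‖m b‖ ≤ E) → ∀ u v : M → ℂ, Continuous u →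
    Continuous v →
    ‖∫ x, conj (v x) * ∫ y, (∑ b ∈ T, m b * K b x y) * u y ∂μ ∂μ‖ ≤ E * (√(nsq μ u) * √(nsq μ v))

def M_KOP : Prop := S_KB → S_KOP

/-- bounds which are good for YOUNG -/
structure Nice (A : ℝ → ℝ) : Prop where
  cont : Continuous A
  nn : ∀ t, 0 ≤ A t
  per : ∀ t, A (t + 1) = A t
  even : ∀ t, A (-t) = A t

/-- TTX. Let `v a x = ∫ t, e(-t φ a) G t x`, continuous. The integral on the left is `∑ a, ∫ x, conj (v a x) * u a x`, and `∫ conj (v a) (u a) = ∫ conj (Pr {a} (v a)) (u a)` (`KBF.adj`, `KBF.fix`), so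
by Cauchy-Schwarz its square is at most `(∑ nsq (u a)) (∑ nsq (Pr {a} (v a)))`. The last sum is `∑ a, ∫ conj (v a) Pr {a} (v a)` (`KBF.inn`)
`= ∑ a, ∫ x, ∫ y, ∫ t, ∫ s, conj (G t x) e((t-s) φ a) K a x y G s y = ∫ t, ∫ s, ∑ j, ∫ x, conj (G t x) ∫ y, k j (t-s) x y G s y`. For every `j`, `t`, `s` the inner integral is at most
`A j (t-s) e t e s` and at most `E j (t-s) √(e t) √(e s)`, `e t = ∫ x, ‖G t x‖` (`‖G‖² ≤ ‖G‖`), so at most `(A^(1-2/p) E^(2/p))(t-s) (e t e s)^(1-1/p)` (`min X Y ≤ X^(1-2/p) Y^(2/p)`). YOUNG with `q = p`,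
`f t = (e t)^(1-1/p)`, `k = A^(1-2/p) E^(2/p)`: `k^(p/2) = A^(p/2-1) E`, `f^(p/(p-1)) = e`, `2(p-1)/p = 2 - 2/p`. (YOUNG has `k (s - t)`; `k` is even.) -/
def S_TTX : Prop := ∀ (M : Type) [TopologicalSpace M] [CompactSpace M] [T2Space M]
  [SecondCountableTopology M] [MeasurableSpace M] [BorelSpace M] (μ : Measure M)
  [IsProbabilityMeasure μ] (ι : Type) (K : ι → M → M → ℂ), Ker μ K →
  ∀ (φ : ι → ℤ) (p : ℝ), 2 < p → ∀ (F : Finset ι) (J : ℕ) (k : Fin J → ℝ → M → M → ℂ)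
    (A E : Fin J → ℝ → ℝ) (Γ : Fin J → ℝ),
    (∀ t x y, ∑ a ∈ F, eu (t * φ a) * K a x y = ∑ j, k j t x y) →
    (∀ j, Continuous fun z : ℝ × M × M => k j z.1 z.2.1 z.2.2) →
    (∀ j, Nice (A j)) → (∀ j, Nice (E j)) → (∀ j t x y, ‖k j t x y‖ ≤ A j t) →
    (∀ j t (u v : M → ℂ), Continuous u → Continuous v →
      ‖∫ x, conj (v x) * ∫ y, k j t x y * u y ∂μ ∂μ‖ ≤ E j t * (√(nsq μ u) * √(nsq μ v))) →
    (∀ j, ∫ t in (0 : ℝ)..1, A j t ^ (p / 2 - 1) * E j t ≤ Γ j) →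
    ∀ (u : ι → M → ℂ), (∀ a ∈ F, Mem μ (K a) (u a)) → ∀ G : ℝ → M → ℂ, JC G →
      (∀ t x, ‖G t x‖ ≤ 1) →
      ‖∫ t in (0 : ℝ)..1, ∫ x, conj (G t x) * ∑ a ∈ F, eu (t * φ a) * u a x ∂μ‖ ^ 2 ≤
        (∑ j, Γ j ^ (2 / p)) * (∑ a ∈ F, nsq μ (u a)) *
          (∫ t in (0 : ℝ)..1, ∫ x, ‖G t x‖ ∂μ) ^ (2 - 2 / p)

def M_TTX : Prop := S_KB → S_YOUNG → S_TTX

/-- LEV. From restricted weak type to strong type. For `λ > 0` let `G = φ(‖U‖/λ) U/‖U‖`, `φ` continuous, `0` on `[0, 1]`, `1` on `[2, ∞)`, between `0` and `1` (`G = 0` where `U = 0`; it is continuous). `m = ∫∫ ‖G‖`;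
`conj G U = φ ‖U‖ ≥ λ ‖G‖`, so `λ m ≤ Γ^(1/2) m^(1-1/p)`, `m ≤ Γ^(p/2) λ^(-p)`. `∫∫ ‖U‖^p' ≤ ∑_(k ∈ ℤ) ∫∫_(2^(k+1) ≤ ‖U‖ < 2^(k+2)) ≤ ∑_(k : 2^k ≤ Λ) (2^(k+2))^p' m(2^k) ≤ C Γ^(p/2) ∑_(2^k ≤ Λ) 2^(k(p'-p)) ≤ C Γ^(p/2) Λ^(p'-p)`
(or with an integral over `λ` instead of the sum). -/
def S_LEV : Prop := ∀ (M : Type) [TopologicalSpace M] [CompactSpace M] [T2Space M]
  [SecondCountableTopology M] [MeasurableSpace M] [BorelSpace M] (μ : Measure M)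
  [IsProbabilityMeasure μ] (p p' : ℝ), 2 < p → p < p' → ∃ C : ℝ, 0 ≤ C ∧
  ∀ (U : ℝ → M → ℂ) (Γ Λ : ℝ), JC U → 0 ≤ Γ → 0 ≤ Λ → (∀ t x, ‖U t x‖ ≤ Λ) →
    (∀ G : ℝ → M → ℂ, JC G → (∀ t x, ‖G t x‖ ≤ 1) →
      ‖∫ t in (0 : ℝ)..1, ∫ x, conj (G t x) * U t x ∂μ‖ ^ 2 ≤
        Γ * (∫ t in (0 : ℝ)..1, ∫ x, ‖G t x‖ ∂μ) ^ (2 - 2 / p)) →
    ∫ t in (0 : ℝ)..1, ∫ x, ‖U t x‖ ^ p' ∂μ ≤ C * (Λ ^ (p' - p) * Γ ^ (p / 2))

/-- the estimate for frequencies at most `N`, for all exponents `p > p₀` -/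
def LOCH {M : Type} [TopologicalSpace M] [MeasurableSpace M] (μ : Measure M) {ι : Type} (K : ι → M → M → ℂ)
    {r : ℕ} (e : ℝ) (w : ι → Fin r → ℤ) (Q : (Fin r → ℤ) → ℤ) (p₀ : ℝ) : Prop :=
  ∀ p : ℝ, p₀ < p → ∃ D : ℝ, 0 ≤ D ∧ ∀ (F : Finset ι) (u : ι → M → ℂ), (∀ a ∈ F, Mem μ (K a) (u a)) →
    ∀ N : ℝ, (∀ a ∈ F, sz (w a) ≤ N) →
      nq μ p (uw w Q F u) ≤ D * N ^ ((r + e) / 2 - (r + e + 2) / p) * √(∑ a ∈ F, nsq μ (u a))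

/-- ALLX. As ALL (ALL.lean): `F j = {a ∈ F : 2^j ≤ sz (w a) < 2^(j+1)}`, `v j = uw (F j)`, `A j = √(∑ a ∈ F j, nsq (u a))`, `s(p) = (r+e)/2 - (r+e+2)/p`.
`(nq p uw)² = nq (p/2) (uw²) ≤ ∑ j k, nq (p/2) (v j * v k)`. Fix a small `ε > 0` (`1/p + ε < 1/p₀`, `ε < 1/p`) and let
`1/p₁ = 1/p + ε`, `1/p₂ = 1/p - ε`, so `p₁, p₂ > p₀`. For `j ≥ k`, by Hölder and LOCH (with `N = 2^(j+1)`):
`nq (p/2) (v j * v k) ≤ nq p₁ (v j) nq p₂ (v k) ≤ C 2^(j s(p₁)) A j 2^(k s(p₂)) A k = C 2^(j s) A j 2^(k s) A k 2^(-(j-k)(r+e+2)ε)`. SCH. -/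
def S_ALLX : Prop := ∀ (M : Type) [TopologicalSpace M] [CompactSpace M] [T2Space M]
  [SecondCountableTopology M] [MeasurableSpace M] [BorelSpace M] (μ : Measure M)
  [IsProbabilityMeasure μ] (ι : Type) (K : ι → M → M → ℂ) (r : ℕ) (e : ℝ)
  (w : ι → Fin r → ℤ) (Q : (Fin r → ℤ) → ℤ) (p₀ : ℝ), 0 ≤ e → 2 ≤ p₀ → LOCH μ K e w Q p₀ →
  ∀ p : ℝ, p₀ < p →
  ∃ D : ℝ, 0 ≤ D ∧ ∀ (F : Finset ι) (u : ι → M → ℂ), (∀ a ∈ F, Mem μ (K a) (u a)) →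
    nq μ p (uw w Q F u) ≤
      D * √(∑ a ∈ F, sz (w a) ^ ((r + e) - 2 * (r + e + 2) / p) * nsq μ (u a))

def M_ALLX : Prop := S_NQ → S_SCH → S_ALLX

end

end STZ
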