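import Pool.Agent.STZ.StmtsX
import Pool.Agent.STZ.StmtsN

/-!
# Statements of the modules, block Y: the torus

The paper proof is in `SUN_PAPER.md`. Module `X` proves `theorem t_X : M_X` (or `t_X : S_X` if there is no `M_X`) in the file
`Pool/Agent/STZ/X.lean`, namespace `STZ`. The structures `RD`, `RDF`, `GF` are in StmtsM, `RDW`, `RDP`, `RDD` in StmtsK.
-/

namespace STZ

open MeasureTheory Matrix

open scoped ComplexConjugate Matrix Real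

noncomputable section

/-- the properties of the combinatorial data (those of `RDF` without `mult`) -/
structure RDO {r : ℕ} (D : RD r) : Prop where
  r2 : 2 ≤ r
  W_one : 1 ∈ D.W
  W_mul : ∀ w ∈ D.W, ∀ w' ∈ D.W, w * w' ∈ D.W
  W_inv : ∀ w ∈ D.W, ∃ w' ∈ D.W, w' * w = 1
  Q_W : ∀ w ∈ D.W, ∀ l, D.Q (w *ᵥ l) = D.Q l
  S_W : ∀ i, ∀ w ∈ D.W, ∀ κ ∈ D.S i, w *ᵥ κ ∈ D.S i
  P_W : ∀ i, ∀ w ∈ D.W, ∀ κ, D.P i (w *ᵥ κ) = D.P i κ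
  S_st : ∀ i κ, κ ∈ D.S (D.st i) ↔ -κ ∈ D.S i
  P_st : ∀ i κ, D.P (D.st i) κ = D.P i (-κ)
  st2 : ∀ i, D.st (D.st i) = i
  w0 : ∃ w ∈ D.W, ∀ κ, w *ᵥ κ = -(κ ∘ D.st)
  anti : ∀ w ∈ D.W, ∀ x l, D.ψ x (w *ᵥ l) = (w.det : ℂ) * D.ψ x l
  wall : ∀ x l i, l i = 0 → D.ψ x l = 0
  one : ∀ x, D.ψ x 1 = 1
  rule : ∀ i x l, x i * D.ψ x l = ∑ κ ∈ D.S i, (D.P i κ : ℂ) * D.ψ x (l + κ)
  str : ∀ l, ∃ w ∈ D.W, ∀ i, 0 ≤ (w *ᵥ l) i
  free : ∀ l, Reg l → ∀ w ∈ D.W, Reg (w *ᵥ l) → w = 1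
  top : ∀ i, Pi.single i 1 ∈ D.S i ∧ D.P i (Pi.single i 1) = 1
  lt : ∀ i l, Reg l → ∀ κ ∈ D.S i, κ ≠ Pi.single i 1 → D.Q (l + κ) < D.Q (l + Pi.single i 1)
  chm : ∀ a b, (∀ i, 0 ≤ a i) → (∀ i, 0 ≤ b i) → ∀ w ∈ D.W, D.Q (a - b) ≤ D.Q (a - w *ᵥ b)
  qf : QF D.Q D.A
  pd : ∃ c : ℝ, 0 < c ∧ ∀ l, c * (sz l - 1) ^ 2 ≤ D.Q l ∧ c * D.Q l ≤ (sz l - 1) ^ 2
  rho : ∀ l, Reg l → l ≠ 1 → D.Q 1 < D.Q l
  dim_eq : ∀ l, D.ψ D.ξ l = D.dim l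
  dim_pos : ∀ l, Reg l → 0 < D.dim l
  dim_le : ∃ C : ℝ, ∀ l, Reg l → (D.dim l : ℝ) ≤ C * sz l ^ ((D.e : ℝ) / 2)

/-- all the properties of the combinatorial data except the bound for the multiplicities -/
structure RDX {r : ℕ} (D : RD r) : Prop where
  w : RDW D
  p : RDP D
  d : RDD D

/-- `RDX` implies `RDO` -/
theorem RDX.o {r : ℕ} {D : RD r} (h : RDX D) : RDO D where
  r2 := h.w.r2
  W_one := h.w.W_one
  W_mul := h.w.W_mul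
  W_inv := h.w.W_inv
  Q_W := h.w.Q_W
  S_W := h.w.S_W
  P_W := h.w.P_W
  S_st := h.w.S_st
  P_st := h.w.P_st
  st2 := h.w.st2
  w0 := h.w.w0
  anti := h.p.anti
  wall := by
    intro x l i hi
    obtain ⟨w, hw, hdet, hfix⟩ := h.w.refl i
    have h1 := h.p.anti w hw x l
    rw [hfix l hi, hdet] at h1
    push_cast at h1
    have h2 : (2 : ℂ) * D.ψ x l = 0 := by linear_combination h1
    simpa using h2
  one := h.p.one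
  rule := h.p.rule
  str := h.w.str
  free := h.w.free
  top := h.w.top
  lt := h.w.lt
  chm := h.w.chm
  qf := h.w.qf
  pd := h.w.pd
  rho := h.w.rho
  dim_eq := h.d.dim_eq
  dim_pos := h.d.dim_pos
  dim_le := h.d.dim_le

/-! ### versions of the modules INTGG, ORTG, IRRG, CPLG, EIGG, LAPM with `RDO` instead of `RDF`

The proofs do not use `RDF.mult`: copy the files, replace `RDF` by `RDO` and rename. -/

/-- INTX. As INTGG. -/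
def S_INTX : Prop := ∀ (r : ℕ) (D : RD r), RDO D →
  (∀ l, ∃ F : MvPolynomial (Fin r) ℤ, ∀ x, D.ψ x l = MvPolynomial.aeval x F) ∧
  (∀ F : MvPolynomial (Fin r) ℤ, ∃ (T : Finset (Fin r → ℤ)) (n : (Fin r → ℤ) → ℤ), (∀ l ∈ T, Reg l) ∧
    ∀ x : Fin r → ℂ, MvPolynomial.aeval x F = ∑ l ∈ T, (n l : ℂ) * D.ψ x l) ∧
  (∀ x l, conj (D.ψ x l) = D.ψ (fun i => conj (x i)) l) ∧
  ∀ x l, D.ψ (x ∘ D.st) l = D.ψ x (l ∘ D.st)

/-- ORTX. As ORTG. -/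
def S_ORTX : Prop := ∀ (N : ℕ) (H : Subgroup (SU N)) (c : ℝ) (d r : ℕ) (D : RD r) (x : Fin r → H → ℂ)
  (k : ℝ), RDO D → GF H c d D x k →
  ∀ (μ : Measure H) [IsProbabilityMeasure μ] [μ.IsMulLeftInvariant] (l l' : Fin r → ℤ), Reg l → Reg l' →
    ∫ g, D.ψ (fun i => x i g) l * conj (D.ψ (fun i => x i g) l') ∂μ = if l = l' then 1 else 0

def M_ORTX : Prop := S_CALH → S_GRH → S_INTX → S_ORTX

/-- IRRX. As IRRG. -/
def S_IRRX : Prop := ∀ (N : ℕ) (H : Subgroup (SU N)) (c : ℝ) (d r : ℕ) (D : RD r) (x : Fin r → H → ℂ)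
  (k : ℝ), RDO D → GF H c d D x k →
  ∀ (μ : Measure H) [IsProbabilityMeasure μ] [μ.IsMulLeftInvariant], IrrFam (cG D x)

def M_IRRX : Prop := S_VIRT → S_VRING → S_INTX → S_ORTX → S_IRRX

/-- CPLX. As CPLG. -/
def S_CPLX : Prop := ∀ (N : ℕ) (H : Subgroup (SU N)) (c : ℝ) (d r : ℕ) (D : RD r) (x : Fin r → H → ℂ)
  (k : ℝ), RDO D → GF H c d D x k →
  ∀ (μ : Measure H) [IsProbabilityMeasure μ] [μ.IsMulLeftInvariant] (f : H → ℂ), Continuous f →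
    (∀ a, Pr μ (KK (cG D x)) {a} f = 0) → f = 0

def M_CPLX : Prop := S_HAAR → S_KB → S_KERI → S_ALLI → S_TENH → S_SWH → S_INTX → S_IRRX → S_CPLX

/-- EIGX. As EIGG. -/
def S_EIGX : Prop := ∀ (N : ℕ) (H : Subgroup (SU N)) (c : ℝ) (d r : ℕ) (D : RD r) (x : Fin r → H → ℂ)
  (k : ℝ), RDO D → GF H c d D x k →
  ∀ (μ : Measure H) [IsProbabilityMeasure μ] [μ.IsMulLeftInvariant]
  (X : Fin d → Matrix (Fin N) (Fin N) ℂ), FrameH H c X → ∀ (κ : ℝ) (f : H → ℂ), EigH X κ f →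
  ∃ S : Finset (Fin r → ℕ), (∀ a ∈ S, κ = k * ((D.Q (wG a) : ℝ) - D.Q 1)) ∧ Pr μ (KK (cG D x)) S f = f

def M_EIGX : Prop := S_KB → S_KERI → S_CALH → S_GRH → S_IRRX → S_CPLX → S_EIGX

/-- LAPN. As LAPM. -/
def S_LAPN : Prop := ∀ (N : ℕ) (H : Subgroup (SU N)) (c : ℝ) (d r : ℕ) (D : RD r)
  (M : Fin r → Fin r → (Fin r → ℂ) → ℂ) (x : Fin r → H → ℂ) (k : ℝ), RDO D → RDW D → RDG D M →
  GFL H c d D M x k → ∀ X : Fin d → Matrix (Fin N) (Fin N) ℂ, FrameH H c X → ∀ l, Reg l →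
    C2H (fun g : H => D.ψ (fun i => x i g) l) ∧
    ∀ g, lapH X (fun g : H => D.ψ (fun i => x i g) l) g =
      -((k : ℂ) * ((D.Q l : ℂ) - D.Q 1)) * D.ψ (fun i => x i g) l

def M_LAPN : Prop := S_CALH → S_INTX → S_LAPN

/-! ### the torus -/

/-- the pairing of weights and points of the torus -/
def dz {r : ℕ} (κ : Fin r → ℤ) (θ : Fin r → ℝ) : ℝ := ∑ i, (κ i : ℝ) * θ i

/-- the alternating sum -/
def AT {r : ℕ} (D : RD r) (l : Fin r → ℤ) (θ : Fin r → ℝ) : ℂ :=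
  ∑ w ∈ D.W, (w.det : ℂ) * eu (dz (w *ᵥ l) θ)

/-- the alternating sum for complex arguments -/
def ATC {r : ℕ} (D : RD r) (ν ζ : Fin r → ℂ) : ℂ :=
  ∑ w ∈ D.W, (w.det : ℂ) * Complex.exp (2 * π * Complex.I * ∑ i, (∑ j, (w i j : ℂ) * ν j) * ζ i)

/-- the values of the functions `x i` on the torus -/
def XT {r : ℕ} (D : RD r) (θ : Fin r → ℝ) (i : Fin r) : ℂ :=
  ∑ κ ∈ D.S i, (D.P i κ : ℂ) * eu (dz κ θ)

/-- positive roots `(α, a)`: the root `α` as a weight, and the coroot `a`, a linear form on weights -/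
abbrev RT (r : ℕ) : Type := Finset ((Fin r → ℤ) × (Fin r → ℤ))

/-- the distance from the centre -/
def nz {r : ℕ} (P : RT r) (θ : Fin r → ℝ) : ℝ := ∑ p ∈ P, nd (dz p.1 θ)

/-- the properties of the positive roots `P`; the rows of `B` are the simple roots, `h` is a lower bound for the number of the roots
which are far from zero at a point -/
structure RTD {r : ℕ} (D : RD r) (P : RT r) (B : Matrix (Fin r) (Fin r) ℤ) (h : ℕ) : Prop where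
  card : D.e = 2 * P.card
  refl : ∀ p ∈ P, ∃ w ∈ D.W, w.det = -1 ∧ ∀ l, w *ᵥ l = l - (p.2 ⬝ᵥ l) • p.1
  pos : ∀ p ∈ P, (∀ i, 0 ≤ p.2 i) ∧ p.2 ≠ 0
  np1 : ∀ p ∈ P, ∀ q ∈ P, p ≠ q → ∀ a b : ℤ, a • p.1 = b • q.1 → a = 0 ∧ b = 0
  np2 : ∀ p ∈ P, ∀ q ∈ P, p ≠ q → ∀ a b : ℤ, a • p.2 = b • q.2 → a = 0 ∧ b = 0
  rho2 : ∑ p ∈ P, p.1 = fun _ => 2
  dimP : ∀ l, D.dim l * ∏ p ∈ P, (p.2 ⬝ᵥ (1 : Fin r → ℤ)) = ∏ p ∈ P, (p.2 ⬝ᵥ l)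
  den : ∀ θ, AT D 1 θ = eu (∑ i, θ i) * ∏ p ∈ P, (1 - eu (-(dz p.1 θ)))
  bas : B.det ≠ 0
  gen : ∀ p ∈ P, ∃ n : Fin r → ℤ, p.1 = ∑ i, n i • B i
  bmem : ∀ i, ∃ p ∈ P, p.1 = B i
  wl : ∀ w ∈ D.W, ∀ l, ∃ n : Fin r → ℤ, w *ᵥ l = l + ∑ i, n i • B i
  far : ∀ θ : Fin r → ℝ, ∀ q ∈ P, h ≤ (P.filter fun p => nd (dz q.1 θ) ≤ 2 * nd (dz p.1 θ)).card

/-- DENS. `p.1 ≠ 0` (otherwise the `w` of `refl` is the identity, with determinant `1`). First claim: `u = (1, T, T², …)` with a large `T`, or: a real vector space is not a finite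
union of proper subspaces. Second claim: for such `u` the numbers `s` with `dz p.1 (θ + s u) ∈ ℤ` for some `p` are a countable closed set, so there are `s → 0` outside of it. -/
def S_DENS : Prop := ∀ (r : ℕ) (D : RD r) (P : RT r) (B : Matrix (Fin r) (Fin r) ℤ) (h : ℕ),
  RTD D P B h →
  (∃ u : Fin r → ℝ, ∀ p ∈ P, dz p.1 u ≠ 0) ∧
  ∀ F : (Fin r → ℝ) → ℂ, Continuous F → (∀ θ, (∀ p ∈ P, nd (dz p.1 θ) ≠ 0) → F θ = 0) → ∀ θ, F θ = 0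

/-- facts about the alternating sums -/
structure ATF {r : ℕ} (D : RD r) (P : RT r) (B : Matrix (Fin r) (Fin r) ℤ) : Prop where
  real : ∀ (l : Fin r → ℤ) (θ : Fin r → ℝ), ATC D (fun j => l j) (fun i => θ i) = AT D l θ
  cont : ∀ l, Continuous (AT D l)
  anti : ∀ w ∈ D.W, ∀ l θ, AT D (w *ᵥ l) θ = (w.det : ℂ) * AT D l θ
  rule : ∀ i l θ, XT D θ i * AT D l θ = ∑ κ ∈ D.S i, (D.P i κ : ℂ) * AT D (l + κ) θ
  van : ∀ p ∈ P, ∀ l θ, ∀ k : ℤ, dz p.1 θ = k → AT D l θ = 0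
  vanC : ∀ p ∈ P, ∀ ν ζ : Fin r → ℂ, ∑ j, (p.2 j : ℂ) * ν j = 0 → ATC D ν ζ = 0
  cen : ∀ z : Fin r → ℝ, (∀ i, ∃ k : ℤ, dz (B i) z = k) → ∀ l θ,
    AT D l (θ + z) = eu (dz l z) * AT D l θ
  Xinv : ∀ w ∈ D.W, ∀ θ, XT D (fun j => ∑ i, (w i j : ℝ) * θ i) = XT D θ
  ne : ∀ θ, AT D 1 θ ≠ 0 ↔ ∀ p ∈ P, nd (dz p.1 θ) ≠ 0

/-- ATF. `anti`: substitute in the sum over the group `W` (`det w = ± 1`). `rule`: `dz (w l) θ + dz κ θ = dz (w (l + w⁻¹ κ)) θ`, `S_W`, `P_W`. `van`: let `s` be the reflection of `p`,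
`(sᵀ θ) j = θ j - k (p.2 j)` (`dz (s l) θ = dz l θ - (p.2·l) k`), so `AT l (sᵀ θ) = AT l θ` as all `w l` are integral, and `AT l (sᵀ θ) = ∑ w, det w e(dz (s w l) θ) = - AT l θ`. `vanC`: `s ν = ν`, substitute
`w ↦ w s`. `cen`: `w l - l` is a combination of the rows of `B` (`wl`), so `dz (w l) z - dz l z ∈ ℤ`. `Xinv`: `dz κ (wᵀ θ) = dz (w κ) θ`. `ne`: `den`. -/
def S_ATF : Prop := ∀ (r : ℕ) (D : RD r) (P : RT r) (B : Matrix (Fin r) (Fin r) ℤ) (h : ℕ), RDX D →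
  RTD D P B h → ATF D P B

/-- WCF. Weyl's character formula. If `AT D 1 θ ≠ 0`: UNQ for `x = XT D θ`, `φ = ψ x`, `φ' l = AT l θ / AT 1 θ`. In general by continuity in `θ` (DENS, `ATF.ne`; `ψ (XT D θ) l` is a polynomial in `XT D θ` by
INTX). -/
def S_WCF : Prop := ∀ (r : ℕ) (D : RD r) (P : RT r) (B : Matrix (Fin r) (Fin r) ℤ) (h : ℕ), RDX D →
  RTD D P B h → (∀ l, Continuous fun θ => D.ψ (XT D θ) l) ∧
  ∀ l θ, D.ψ (XT D θ) l * AT D 1 θ = AT D l θ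

def M_WCF : Prop := S_UNQ → S_INTX → S_DENS → S_ATF → S_WCF

/-- the kernel on the torus -/
def KT {r : ℕ} (D : RD r) (N : ℕ) (t : ℝ) (θ : Fin r → ℝ) : ℂ :=
  ∑ l ∈ bx (1 : Fin r → ℤ) N, (D.dim l : ℂ) * eu (t * D.Q l) * D.ψ (XT D θ) l

/-- FSUM. Let `ζ = θ + i η`. `exp(2πi l·ζ) = e(l·θ) exp(-2π η·(l - 1)) exp(-2π ∑ η i)`. By WEYX (`A = D.A`, `φ l = t Q l + θ·l`, `ψ h = t Q h + θ·h`) the sums of `e(t Q l + l·θ)` over the subboxes of `bx 1 N` are at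
most `WW N c t ^ (r/2)`; the weight `dim l exp(-2π η·(l-1))` has size `C N^|P|` on the scale `N`: `dim l = ∏ p (p.2·l) / ∏ p (p.2·1)` by `dimP`, WCLF. ABEL. -/
def S_FSUM : Prop := ∀ (r : ℕ) (D : RD r) (P : RT r) (B : Matrix (Fin r) (Fin r) ℤ) (h : ℕ), RDX D →
  RTD D P B h → ∃ (C : ℝ) (c : ℕ), 0 ≤ C ∧ 1 ≤ c ∧ ∀ (N : ℕ) (t : ℝ) (ζ : Fin r → ℂ), 1 ≤ N →
    (∀ i, |(ζ i).im| ≤ 1 / N) →
    ‖∑ l ∈ bx (1 : Fin r → ℤ) N, (D.dim l : ℂ) * eu (t * D.Q l) *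
      Complex.exp (2 * π * Complex.I * ∑ i, (l i : ℂ) * ζ i)‖ ≤
      C * ((N : ℝ) ^ P.card * WW N c t ^ ((r : ℝ) / 2))

def M_FSUM : Prop := S_WEYX → S_WWF → S_ABEL → S_WCLF → S_FSUM

/-- KSUP. (3.1) of `SUN_PAPER.md`. Let `F θ = ∑ l, dim l e(tQ l) AT l θ = KT θ * AT 1 θ` (WCF). `F` is the restriction of the entire function `F ζ = ∑ l, dim l e(tQ l) ATC l ζ = ∑ w, det w f(wᵀ ζ)`, `f` the sum of FSUM, so
`|F ζ| ≤ C N^|P| WW^(r/2)` if `|Im ζ i| ≤ ε / N` with `ε` small (depending on `W`). Take `u` from DENS, `c₀ = min |dz p.1 u|`, and `R = ε'/N` such that all `θ + z u`, `|z| ≤ R`, satisfy this. Let `S` be the set of the `p` with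
`nd (dz p.1 θ) ≤ c₀ R / 2`. For `p ∈ S` the function `z ↦ F(θ + z u)` vanishes at the real number `z p = -(dz p.1 θ - round (dz p.1 θ)) / dz p.1 u`, `|z p| ≤ R/2`. For `θ` outside countably many hyperplanes
(`np1`: the forms `p.1 / dz p.1 u` are different) the `z p` are different, and SCHW gives `|F θ| ≤ C N^|P| WW^(r/2) ∏_(p ∈ S) (C N nd (dz p.1 θ))`. `|AT 1 θ| = ∏ |1 - e(-dz p.1 θ)| ≥ ∏ 4 nd (dz p.1 θ)`; for `p ∉ S`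
`nd ≥ c/N`, so `1/nd ≤ C N / max 1 (N nd)`. The claim follows for these `θ` (with `nd ≠ 0`), and for all `θ` by continuity (they are dense). -/
def S_KSUP : Prop := ∀ (r : ℕ) (D : RD r) (P : RT r) (B : Matrix (Fin r) (Fin r) ℤ) (h : ℕ), RDX D →
  RTD D P B h → ∃ (C : ℝ) (c : ℕ), 0 ≤ C ∧ 1 ≤ c ∧ ∀ (N : ℕ) (t : ℝ) (θ : Fin r → ℝ), 1 ≤ N →
    ‖KT D N t θ‖ ≤ C * ((N : ℝ) ^ P.card * WW N c t ^ ((r : ℝ) / 2)) *
      ∏ p ∈ P, ((N : ℝ) / max 1 (N * nd (dz p.1 θ)))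

def M_KSUP : Prop := S_DENS → S_ATF → S_WCF → S_FSUM → S_SCHW → S_KSUP

/-- ANU. (3.2) of `SUN_PAPER.md`. Let `T = nz P θ`. If `T = 0` then `AT ν θ = 0` (`ATF.van`; `P` is not empty) and the right side is `0`. Let `z` be the real solution of `dz (B i) z = round (dz (B i) θ)` for all `i`
(`bas`), `θ' = θ - z`: `|θ' i| ≤ C max_i nd (dz (B i) θ) ≤ C T` (`bmem`), `|AT ν θ| = |AT ν θ'|` (`cen`). `G ν = ATC ν θ'` is entire in `ν`; on the line `ν + z 1`, `|z| ≤ R = 1/T`, `ν` real, it is at most `|W| exp(C R T) ≤ C`. For the `p`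
with `p.2·ν ≤ (R/2)(p.2·1)` it vanishes at `z p = -(p.2·ν)/(p.2·1)` (`vanC`; `p.2·1 ≥ 1` by `pos`). SCHW if the `z p` are different, in general for a perturbed real `ν` (`np2`) and by continuity in
`ν` (keep the set of the `p` with `p.2·ν < (R/2)(p.2·1)`, or replace `R/2` by `R/4`). So `|AT ν θ| ≤ C ∏ (C (p.2·ν) T)` over these `p`; for the others `(p.2·ν) T ≥ c`. -/
def S_ANU : Prop := ∀ (r : ℕ) (D : RD r) (P : RT r) (B : Matrix (Fin r) (Fin r) ℤ) (h : ℕ), RDX D →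
  RTD D P B h → ∃ C : ℝ, 0 ≤ C ∧ ∀ (ν : Fin r → ℤ) (θ : Fin r → ℝ), Reg ν →
    ‖AT D ν θ‖ ≤ C * ∏ p ∈ P, min 1 (((p.2 ⬝ᵥ ν : ℤ) : ℝ) * nz P θ)

def M_ANU : Prop := S_ATF → S_SCHW → S_ANU

/-- the cutoff functions -/
def FM {r : ℕ} (D : RD r) (P : RT r) (M : ℕ) (x : Fin r → ℂ) : ℂ :=
  1 - (1 - (D.ψ x (fun _ => (M : ℤ)) / (M : ℂ) ^ P.card) ^ (2 * (2 * r + P.card))) ^ P.card

/-- SINR. `q = |sin (π M y) / (M sin (π y))|`. We may assume `y = nd y ∈ [0, 1/2]`. `q ≤ 1`: triangle inequality. `sin (π y) ≥ 2 y`. `sin x ≥ x - x³/6`, `sin (π y) ≤ π y`: `q ≥ 1 - (π M y)²/6`, so `q² ≥ 1 - (π M y)²/3`. -/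
def S_SINR : Prop := ∀ (M : ℕ) (y : ℝ), 1 ≤ M →
  ‖∑ j ∈ Finset.range M, eu (-(j * y))‖ ≤ M ∧ ‖∑ j ∈ Finset.range M, eu (-(j * y))‖ * (2 * nd y) ≤ 1 ∧
  (M : ℝ) ^ 2 * (1 - 4 * ((M : ℝ) * nd y) ^ 2) ≤ ‖∑ j ∈ Finset.range M, eu (-(j * y))‖ ^ 2

/-- DKER. `AT (M, …, M) θ = AT 1 (M θ)`, so by `den` and WCF, if `AT 1 θ ≠ 0`: `ψ (M, …, M) = e((M-1) ∑ θ) ∏ p, (1 - e(-M y)) / (1 - e(-y))`, `y = dz p.1 θ`. In general by continuity (DENS). It is real: `2 ∑ θ = ∑ p, dz p.1 θ` by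
`rho2`, and `e((M-1)y/2) ∑ j < M, e(-j y)` is real (`j ↦ M - 1 - j`). -/
def S_DKER : Prop := ∀ (r : ℕ) (D : RD r) (P : RT r) (B : Matrix (Fin r) (Fin r) ℤ) (h : ℕ), RDX D →
  RTD D P B h → ∀ (M : ℕ) (θ : Fin r → ℝ), 1 ≤ M →
    D.ψ (XT D θ) (fun _ => (M : ℤ)) =
      eu (((M : ℝ) - 1) * ∑ i, θ i) * ∏ p ∈ P, ∑ j ∈ Finset.range M, eu (-(j * dz p.1 θ)) ∧
    (D.ψ (XT D θ) (fun _ => (M : ℤ))).im = 0

def M_DKER : Prop := S_DENS → S_ATF → S_WCF → S_DKER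

/-- SMB. Let `R = ψ (M, …, M) / M^|P|`, real, `m = 2r + |P|`: `R² = ∏ q p²`, `q p = ‖∑ j < M, e(-j dz p.1 θ)‖ / M ≤ 1`, `q p ≤ 1/(2 M nd)`, `1 - q p² ≤ 4 (M nd)²` by SINR. So `0 ≤ R^(2m) ≤ 1`,
`1 - R^(2m) ≤ m ∑ p, (1 - q p²) ≤ C (M nz)²`, and `R^(2m) ≤ C (1 + M nz)^(-2m)` (take the `p` with the largest `nd`, `nz ≤ |P| nd`). `1 - FM = (1 - R^(2m))^|P|`, `|FM| ≤ |P| R^(2m)`. `P` is not empty. -/
def S_SMB : Prop := ∀ (r : ℕ) (D : RD r) (P : RT r) (B : Matrix (Fin r) (Fin r) ℤ) (h : ℕ), RDX D →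
  RTD D P B h → ∃ C : ℝ, 0 ≤ C ∧ ∀ (M : ℕ) (θ : Fin r → ℝ), 1 ≤ M →
    ‖1 - FM D P M (XT D θ)‖ ≤ C * min 1 ((M * nz P θ) ^ (2 * P.card)) ∧
    ‖FM D P M (XT D θ)‖ ≤ C / (1 + M * nz P θ) ^ (2 * (2 * r + P.card))

def M_SMB : Prop := S_SINR → S_DKER → S_SMB

/-- the Fourier coefficients of the cutoff functions -/
def sh {r : ℕ} (D : RD r) (P : RT r) (M : ℕ) (κ : Fin r → ℤ) : ℂ :=
  ∫ θ in Set.Icc (0 : Fin r → ℝ) 1, FM D P M (XT D θ) * eu (-(dz κ θ))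

/-- SMF. By DKER `FM (XT θ)` is a trigonometric polynomial `∑ s κ e(dz κ θ)` with frequencies `|κ| ≤ C M` (powers of a product of such polynomials), and `sh κ = s κ` (orthogonality on `[0, 1]^r`). It is invariant under
`θ ↦ wᵀ θ` (`ATF.Xinv`), so `s (w κ) = s κ` by uniqueness. Product: `∑ κ, s κ e(dz κ θ) AT l θ = ∑ κ, s κ AT (l + κ) θ` by the invariance, as in `ATF.rule`; divide by `AT 1 θ` (WCF), in general by continuity (DENS). -/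
def S_SMF : Prop := ∀ (r : ℕ) (D : RD r) (P : RT r) (B : Matrix (Fin r) (Fin r) ℤ) (h : ℕ), RDX D →
  RTD D P B h → ∃ C : ℝ, 0 ≤ C ∧ ∀ M : ℕ, 1 ≤ M →
    (∀ κ, C * M < sz κ → sh D P M κ = 0) ∧ (∀ w ∈ D.W, ∀ κ, sh D P M (w *ᵥ κ) = sh D P M κ) ∧
    ∀ T : Finset (Fin r → ℤ), (∀ κ, κ ∉ T → sh D P M κ = 0) → ∀ l θ,
      FM D P M (XT D θ) * D.ψ (XT D θ) l = ∑ κ ∈ T, sh D P M κ * D.ψ (XT D θ) (l + κ)

def M_SMF : Prop := S_DENS → S_ATF → S_WCF → S_DKER → S_SMF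

/-- the coefficient of `ψ ν` in the product of `ψ l` and the cutoff function -/
def csh {r : ℕ} (D : RD r) (P : RT r) (M : ℕ) (l ν : Fin r → ℤ) : ℂ :=
  ∑ w ∈ D.W, (w.det : ℂ) * sh D P M (w *ᵥ ν - l)

/-- SUPC. `csh M l ν ≠ 0`: for some `w ∈ W` `sh (w ν - l) ≠ 0`, so `sz (w ν - l) ≤ C M` (SMF), `Q (l - w ν) ≤ C M²` (`pd`), `Q (l - ν) ≤ Q (l - w ν)` (`chm`), and `pd`. -/
def S_SUPC : Prop := ∀ (r : ℕ) (D : RD r) (P : RT r) (B : Matrix (Fin r) (Fin r) ℤ) (h : ℕ), RDX D →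
  RTD D P B h → ∃ C : ℕ, ∀ (M : ℕ) (l ν : Fin r → ℤ), 1 ≤ M → Reg l → Reg ν → csh D P M l ν ≠ 0 →
    ∀ i, |l i - ν i| ≤ C * M

def M_SUPC : Prop := S_SMF → S_SUPC

/-- TORB. A nonsingular integer matrix preserves the integral of continuous periodic functions over the torus. It is enough to show it for complex continuous periodic functions; both sides are continuous in `g` for the sup norm, so by density of the
trigonometric polynomials (`UnitAddTorus`, `UnitAddTorus.mFourierSubalgebra_closure_eq_top`, or Stone-Weierstrass) for `g θ = e(n·θ)`: the right side is `1` if `n = 0` and `0` otherwise, the left side is the integral of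
`e((Bᵀ n)·θ)`, and `Bᵀ n = 0` only for `n = 0`. (Or: `B` is a product of elementary and diagonal matrices (Smith normal form).) -/
def S_TORB : Prop := ∀ (r : ℕ) (B : Matrix (Fin r) (Fin r) ℤ), B.det ≠ 0 →
  ∀ g : (Fin r → ℝ) → ℝ, Continuous g → (∀ θ (n : Fin r → ℤ), g (fun i => θ i + n i) = g θ) →
    ∫ θ in Set.Icc (0 : Fin r → ℝ) 1, g (fun i => dz (B i) θ) = ∫ θ in Set.Icc (0 : Fin r → ℝ) 1, g θ

/-- INTN. Let `y i = dz (B i) θ`, `s = ∑ i, nd (y i)`. `s ≤ r nz` (`bmem`) and `nz ≤ C s` (`gen`: `nd` is subadditive and `nd (-x) = nd x`). The integrand is at most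
`M^(-k) (M nz)^k / (1 + M nz)^(4r+2|P|) ≤ M^(-k) (1 + M nz)^(-2r) ≤ C M^(-k) ∏ i, (1 + M nd (y i))^(-2)` (`4r + 2|P| - k ≥ 2r`). TORB and Fubini: `(∫ (1 + M nd y)^(-2) dy)^r ≤ (C/M)^r`. -/
def S_INTN : Prop := ∀ (r : ℕ) (D : RD r) (P : RT r) (B : Matrix (Fin r) (Fin r) ℤ) (h : ℕ), RDX D →
  RTD D P B h → ∃ C : ℝ, 0 ≤ C ∧ ∀ M k : ℕ, 1 ≤ M → k ≤ r + P.card →
    ∫ θ in Set.Icc (0 : Fin r → ℝ) 1, nz P θ ^ k / (1 + M * nz P θ) ^ (2 * (2 * r + P.card)) ≤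
      C / (M : ℝ) ^ (r + k)

def M_INTN : Prop := S_TORB → S_INTN

/-- CDIF. `|1 - e(|det B| θ i)| ≤ 2π nd (|det B| θ i) ≤ C nz` (`adj(B) B = det B`: `det B θ i` is an integral combination of the `dz (B j) θ`). Let `P₀` be the set of the `p` with `p.2·ν ≤ M`. By ANU (`min 1 x ≤ 1` for `p ∉ P₀`,
`≤ x` for `p ∈ P₀`) and SMB the integrand is at most `C nz^(|S|+|P₀|) (1 + M nz)^(-(4r+2|P|)) ∏_(p ∈ P₀) (p.2·ν)`; INTN with `k = |S| + |P₀|`; `∏_(P₀) (p.2·ν) / M^|P₀| = ∏_P min 1 ((p.2·ν)/M)`. -/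
def S_CDIF : Prop := ∀ (r : ℕ) (D : RD r) (P : RT r) (B : Matrix (Fin r) (Fin r) ℤ) (h : ℕ), RDX D →
  RTD D P B h → ∃ C : ℝ, 0 ≤ C ∧ ∀ (M : ℕ) (ν l : Fin r → ℤ) (S : Finset (Fin r)), 1 ≤ M → Reg ν →
    ‖∫ θ in Set.Icc (0 : Fin r → ℝ) 1, FM D P M (XT D θ) * conj (AT D ν θ) * eu (dz l θ) *
      ∏ i ∈ S, (1 - eu ((B.det.natAbs : ℝ) * θ i))‖ ≤
      C / (M : ℝ) ^ (r + S.card) * ∏ p ∈ P, min 1 (((p.2 ⬝ᵥ ν : ℤ) : ℝ) / M)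

def M_CDIF : Prop := S_ANU → S_SMB → S_INTN → S_CDIF

/-- OPB. (6.1) of `SUN_PAPER.md`. By SUPC only the `l` with `|l i - ν i| ≤ C M` contribute; together with `l ∈ bx 1 N` this is a box. Let `q = |det B| ≥ 1` and split `l = q x + b`, `b ∈ [0, q)^r`; for every `b` the `x` form a box
`bxn z n` with sides at most `C M`. `csh M (q x + b) ν = ∫ FM conj (AT ν) e(dz (q x + b) θ)` by the definition of `sh`, so `DS S` of this function of `x` is the integral of CDIF: it is a weight of size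
`C M^(-r) ∏ min 1 ((p.2·ν)/M)` on the scale `M`. `dim (q x + b)` is (`dimP`) a product of linear forms, of size `C max M (p.2·ν)` on the scale `M` (on the box `p.2·l ≤ p.2·ν + C M`): WCLF. The product of all is a weight of size
`C M^(-r) ∏ (p.2·ν) ≤ C M^(-r) dim ν`. The sums of `e(t Q (q x + b))` over subboxes: WEYX for the matrix `q² A`, `φ x = t Q (q x + b)` (`qf`). ABEL. `WWF.scale`. -/
def S_OPB : Prop := ∀ (r : ℕ) (D : RD r) (P : RT r) (B : Matrix (Fin r) (Fin r) ℤ) (h : ℕ), RDX D →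
  RTD D P B h → ∃ (C : ℝ) (c : ℕ), 0 ≤ C ∧ 1 ≤ c ∧ ∀ (N M : ℕ) (t : ℝ) (ν : Fin r → ℤ), 1 ≤ N → 1 ≤ M →
    Reg ν →
    ‖∑ l ∈ bx (1 : Fin r → ℤ) N, (D.dim l : ℂ) * eu (t * D.Q l) * csh D P M l ν‖ ≤
      C * D.dim ν * (WW M c t ^ ((r : ℝ) / 2) / (M : ℝ) ^ r)

def M_OPB : Prop := S_WEYX → S_WWF → S_ABEL → S_WCLF → S_SUPC → S_CDIF → S_OPB

/-- KSH. Let `T = nz P θ`, `q` the root with the largest `nd (dz q.1 θ) ≥ T / |P|`; by `far` at least `h` roots have `nd ≥ T / (2|P|)`, so by KSUP `|KT| ≤ C N^(2|P|) WW^(r/2) (1 + N T)^(-h)`. By SMB the difference of the cutoffs is at most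
`C min 1 ((M T)^(2|P|))`; `h ≤ |P|`, so `(1 + N T)^(-h) min 1 ((M T)^(2|P|)) ≤ (M/N)^h`. -/
def S_KSH : Prop := ∀ (r : ℕ) (D : RD r) (P : RT r) (B : Matrix (Fin r) (Fin r) ℤ) (h : ℕ), RDX D →
  RTD D P B h → ∃ (C : ℝ) (c : ℕ), 0 ≤ C ∧ 1 ≤ c ∧ ∀ (N : ℕ) (t : ℝ) (θ : Fin r → ℝ), 1 ≤ N →
    ‖KT D N t θ * FM D P N (XT D θ)‖ ≤ C * ((N : ℝ) ^ (2 * P.card) * WW N c t ^ ((r : ℝ) / 2)) ∧
    ∀ M : ℕ, 1 ≤ M → M ≤ N →
      ‖KT D N t θ * (FM D P M (XT D θ) - FM D P (2 * M) (XT D θ))‖ ≤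
        C * ((N : ℝ) ^ (2 * P.card) * WW N c t ^ ((r : ℝ) / 2) * ((M : ℝ) / N) ^ h)

def M_KSH : Prop := S_KSUP → S_SMB → S_KSH

/-- KDT. By SMF `FM ψ l = ∑ κ, sh κ ψ (l + κ)` for every `l`. Every `l + κ` is on a wall (`ψ = 0`) or `= w ν`, `w ∈ W`, `Reg ν`, with unique `w`, `ν` (`str`, `RDO.wall`, `free`), and `ψ (w ν) = det w ψ ν`, `κ = w ν - l`. All the `ν` which
occur are in `bx 1 (C (N + M))`, and for all `ν` in this box the sum over `w` is `csh M l ν`. -/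
def S_KDT : Prop := ∀ (r : ℕ) (D : RD r) (P : RT r) (B : Matrix (Fin r) (Fin r) ℤ) (h : ℕ), RDX D →
  RTD D P B h → ∃ C : ℕ, ∀ (N M : ℕ) (t : ℝ) (θ : Fin r → ℝ), 1 ≤ N → 1 ≤ M →
    KT D N t θ * FM D P M (XT D θ) =
      ∑ ν ∈ bx (1 : Fin r → ℤ) (C * (N + M)),
        (∑ l ∈ bx (1 : Fin r → ℤ) N, (D.dim l : ℂ) * eu (t * D.Q l) * csh D P M l ν) * D.ψ (XT D θ) ν

def M_KDT : Prop := S_SMF → S_KDT

end

end STZ
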