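import Pool.Agent.STZ.StmtsY

/-!
# TORB: nonsingular integer matrices preserve the integral over the torus
-/

namespace STZ

open MeasureTheory Matrix Set

noncomputable section

namespace TORB

local instance instMS : MeasureSpace UnitAddCircle := ⟨AddCircle.haarAddCircle⟩

local instance instHaar : Measure.IsAddHaarMeasure (volume : Measure UnitAddCircle) :=
  inferInstanceAs (Measure.IsAddHaarMeasure AddCircle.haarAddCircle)

local instance instProb : IsProbabilityMeasure (volume : Measure UnitAddCircle) :=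
  inferInstanceAs (IsProbabilityMeasure AddCircle.haarAddCircle)

variable {r : ℕ}

/-- the endomorphism of the torus given by an integer matrix -/
def hom (B : Matrix (Fin r) (Fin r) ℤ) : UnitAddTorus (Fin r) →+ UnitAddTorus (Fin r) where
  toFun x := fun i => ∑ j, B i j • x j
  map_zero' := by
    funext i
    simp
  map_add' x y := by
    funext i
    simp [Finset.sum_add_distrib]

lemma hom_apply (B : Matrix (Fin r) (Fin r) ℤ) (x : UnitAddTorus (Fin r)) (i : Fin r) :
    hom B x i = ∑ j, B i j • x j := rfl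

lemma hom_coe (B : Matrix (Fin r) (Fin r) ℤ) (θ : Fin r → ℝ) (i : Fin r) :
    hom B (fun j => (θ j : UnitAddCircle)) i = ((dz (B i) θ : ℝ) : UnitAddCircle) := by
  rw [hom_apply]
  unfold dz
  have h : ∀ s : Finset (Fin r), ∑ j ∈ s, B i j • ((θ j : ℝ) : UnitAddCircle) =
      ((∑ j ∈ s, (B i j : ℝ) * θ j : ℝ) : UnitAddCircle) := by
    intro s
    induction s using Finset.induction_on with
    | empty => simp
    | insert a s ha ih =>
      rw [Finset.sum_insert ha, Finset.sum_insert ha, ih, AddCircle.coe_add]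
      congr 1
      rw [← AddCircle.coe_zsmul, zsmul_eq_mul]
  exact h _

lemma hom_cont (B : Matrix (Fin r) (Fin r) ℤ) : Continuous (hom B) := by
  apply continuous_pi
  intro i
  simp only [hom_apply]
  fun_prop

lemma hom_surj (B : Matrix (Fin r) (Fin r) ℤ) (hB : B.det ≠ 0) :
    Function.Surjective (hom B) := by
  intro y
  have hy : ∀ i, ∃ t : ℝ, (t : UnitAddCircle) = y i := fun i => QuotientAddGroup.mk_surjective (y i)
  choose t ht using hy
  set M : Matrix (Fin r) (Fin r) ℝ := B.map (fun n : ℤ => (n : ℝ)) with hM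
  have hdet : M.det = (B.det : ℝ) := by
    have := RingHom.map_det (Int.castRingHom ℝ) B
    rw [RingHom.mapMatrix_apply] at this
    rw [hM]
    exact this.symm
  have hu : IsUnit M.det := by
    rw [hdet]
    exact isUnit_iff_ne_zero.2 (by exact_mod_cast hB)
  refine ⟨fun j => ((M⁻¹ *ᵥ t) j : UnitAddCircle), ?_⟩
  funext i
  rw [hom_coe, ← ht i]
  congr 1
  have h1 : M *ᵥ (M⁻¹ *ᵥ t) = t := by
    rw [Matrix.mulVec_mulVec, Matrix.mul_nonsing_inv _ hu, Matrix.one_mulVec]
  have h2 := congrFun h1 i
  rw [← h2]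
  rfl

/-- the integral over the closed cube is the integral over the torus -/
lemma cube (G : UnitAddTorus (Fin r) → ℝ) :
    ∫ θ in Set.Icc (0 : Fin r → ℝ) 1, G (fun i => (θ i : UnitAddCircle)) =
      ∫ x : UnitAddTorus (Fin r), G x := by
  have h := UnitAddTorus.integral_preimage G (0 : Fin r → ℝ)
  refine Eq.trans ?_ h.symm
  have hs : {x : Fin r → ℝ | ∀ i, x i ∈ Ioc ((0 : Fin r → ℝ) i) ((0 : Fin r → ℝ) i + 1)} =
      Set.univ.pi (fun _ : Fin r => Ioc (0 : ℝ) 1) := by
    ext x
    simp [Set.mem_pi]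
  rw [hs]
  apply setIntegral_congr_set
  exact (Measure.univ_pi_Ioc_ae_eq_Icc (μ := fun _ : Fin r => (volume : Measure ℝ))
    (f := fun _ => 0) (g := fun _ => 1)).symm

lemma main (B : Matrix (Fin r) (Fin r) ℤ) (hB : B.det ≠ 0) (g : (Fin r → ℝ) → ℝ)
    (hg : Continuous g) (hp : ∀ θ (n : Fin r → ℤ), g (fun i => θ i + n i) = g θ) :
    ∫ θ in Set.Icc (0 : Fin r → ℝ) 1, g (fun i => dz (B i) θ) =
      ∫ θ in Set.Icc (0 : Fin r → ℝ) 1, g θ := by
  -- the function on the torus
  set G : UnitAddTorus (Fin r) → ℝ := fun x =>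
    g (fun i => ((AddCircle.measurableEquivIoc 1 0 (x i) : Ioc (0 : ℝ) (0 + 1)) : ℝ)) with hG
  have hGm : Measurable G := by
    apply hg.measurable.comp
    apply measurable_pi_lambda
    intro i
    exact measurable_subtype_coe.comp
      ((AddCircle.measurableEquivIoc 1 0).measurable.comp (measurable_pi_apply i))
  have hGc : ∀ θ : Fin r → ℝ, G (fun i => (θ i : UnitAddCircle)) = g θ := by
    intro θ
    have hn : ∀ i, ∃ n : ℤ,
        ((AddCircle.measurableEquivIoc 1 0 (θ i : UnitAddCircle) : Ioc (0 : ℝ) (0 + 1)) : ℝ) =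
          θ i + n := by
      intro i
      have h1 : ((((AddCircle.measurableEquivIoc 1 0 (θ i : UnitAddCircle) :
          Ioc (0 : ℝ) (0 + 1)) : ℝ)) : UnitAddCircle) = (θ i : UnitAddCircle) :=
        (AddCircle.measurableEquivIoc 1 0).symm_apply_apply (θ i : UnitAddCircle)
      have h2 := (QuotientAddGroup.eq_iff_sub_mem).1 h1
      obtain ⟨n, hn⟩ := AddSubgroup.mem_zmultiples_iff.1 h2
      refine ⟨n, ?_⟩
      rw [zsmul_eq_mul, mul_one] at hn
      rw [hn]
      ring
    choose n hn using hn
    rw [hG]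
    simp only [hn]
    exact hp θ n
  have e1 : ∫ θ in Set.Icc (0 : Fin r → ℝ) 1, g (fun i => dz (B i) θ) =
      ∫ x : UnitAddTorus (Fin r), G (hom B x) := by
    rw [← cube (fun x => G (hom B x))]
    congr 1
    funext θ
    rw [← hGc]
    congr 1
    funext i
    exact (hom_coe B θ i).symm
  have e2 : ∫ θ in Set.Icc (0 : Fin r → ℝ) 1, g θ = ∫ x : UnitAddTorus (Fin r), G x := by
    rw [← cube G]
    congr 1
    funext θ
    exact (hGc θ).symm
  rw [e1, e2]
  have mp : MeasurePreserving (hom B) (volume : Measure (UnitAddTorus (Fin r))) volume :=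
    AddMonoidHom.measurePreserving (hom_cont B) (hom_surj B hB) rfl
  have h3 := integral_map (μ := (volume : Measure (UnitAddTorus (Fin r)))) (φ := hom B) (f := G)
    mp.measurable.aemeasurable hGm.aestronglyMeasurable
  rw [mp.map_eq] at h3
  exact h3.symm

end TORB

theorem t_TORB : S_TORB := by
  intro r B hB g hg hp
  exact TORB.main B hB g hg hp

end

end STZ
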