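import Pool.Agent.STZ.UPPER
import Pool.Agent.STZ.INF

/-!
# The upper bound on `SU(3)` for all data
-/

namespace STZ

open MeasureTheory

theorem kappa_nonneg (μ : Measure (SU 3)) (h1 : IsProbabilityMeasure μ) (h2 : μ.IsMulLeftInvariant)
    (X : Fin (3 ^ 2 - 1) → Matrix (Fin 3) (Fin 3) ℂ) (hX : Frame X) (κ : ℝ) (f : SU 3 → ℂ)
    (hf : Eig X κ f) : 0 ≤ κ ∨ f = 0 := by
  obtain ⟨S, hS, hP⟩ := eig3 μ X hX κ f hf
  by_cases h : S.Nonempty
  · left
    obtain ⟨a, ha⟩ := h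
    rw [hS a ha]
    have h1 : (0 : ℝ) ≤ a.1 := by positivity
    have h2 : (0 : ℝ) ≤ a.2 := by positivity
    have h3 := mul_nonneg h1 h2
    nlinarith
  · right
    rw [Finset.not_nonempty_iff_eq_empty] at h
    rw [← hP, h]
    funext x
    simp [Pr]

theorem main_upperH : MainUpperH :=
  t_INF (fun μ h1 h2 X hX κ f hf => kappa_nonneg μ h1 h2 X hX κ f hf) main_upper

end STZ
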