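import Pool.Agent.STZ.StmtsP

/-!
# Module WAA2
-/

namespace STZ

namespace WAA2

open Matrix

/-- the sum of the differences over all pairs -/
def FF {r : ℕ} (x y : Fin (r + 1) → ℤ) : ℤ := ∑ p ∈ prs r, 2 * (x p.1 - x p.2) * (y p.1 - y p.2)

/-- the square form -/
def GF {r : ℕ} (x : Fin (r + 1) → ℤ) : ℤ := ∑ p ∈ prs r, (x p.1 - x p.2) ^ 2

lemma GF_eq {r : ℕ} (H : CUF r) (x : Fin (r + 1) → ℤ) :
    GF x = (r + 1) * ∑ j, x j * x j - (∑ j, x j) * ∑ j, x j := by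
  have h := H.psum x x
  have h2 : ∑ p ∈ prs r, 2 * (x p.1 - x p.2) * (x p.1 - x p.2) = 2 * GF x := by
    unfold GF
    rw [Finset.mul_sum]
    refine Finset.sum_congr rfl fun p _ => ?_
    ring
  rw [h2] at h
  exact mul_left_cancel₀ (by norm_num) h

lemma Q_eq {r : ℕ} (l : Fin r → ℤ) : (DA r).Q l = GF (cum l) := rfl

lemma GF_shift {r : ℕ} (x y : Fin (r + 1) → ℤ) (c : ℤ) (h : ∀ j, x j = y j - c) :
    GF x = GF y := by
  unfold GF
  refine Finset.sum_congr rfl fun p _ => ?_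
  rw [h, h]
  ring

lemma GF_comp {r : ℕ} (H : CUF r) (x : Fin (r + 1) → ℤ) (σ : Equiv.Perm (Fin (r + 1))) :
    GF (fun j => x (σ j)) = GF x := by
  rw [GF_eq H, GF_eq H]
  rw [Equiv.sum_comp σ (fun j => x j * x j), Equiv.sum_comp σ (fun j => x j)]

lemma cum_sub {r : ℕ} (H : CUF r) (a b : Fin r → ℤ) (j : Fin (r + 1)) :
    cum (a - b) j = cum a j - cum b j := by
  have h := H.cadd (a - b) b j
  rw [sub_add_cancel] at h
  linarith

lemma mem_W {r : ℕ} {w : Matrix (Fin r) (Fin r) ℤ} (h : w ∈ (DA r).W) :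
    ∃ σ : Equiv.Perm (Fin (r + 1)), wA σ = w := by
  have h2 : w ∈ Finset.univ.image (wA : Equiv.Perm (Fin (r + 1)) → Matrix (Fin r) (Fin r) ℤ) := h
  rw [Finset.mem_image] at h2
  obtain ⟨σ, _, hs⟩ := h2
  exact ⟨σ, hs⟩

lemma QW {r : ℕ} (H : CUF r) (σ : Equiv.Perm (Fin (r + 1))) (l : Fin r → ℤ) :
    GF (cum (wA σ *ᵥ l)) = GF (cum l) := by
  rw [GF_shift (cum (wA σ *ᵥ l)) (fun j => cum l (σ j)) (cum l (σ (Fin.last r)))
    (fun j => H.wc σ l j)]
  exact GF_comp H (cum l) σ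

lemma cum_mono {r : ℕ} (H : CUF r) (l : Fin r → ℤ) (hl : ∀ i, 0 ≤ l i) (a b : Fin (r + 1))
    (hab : a ≤ b) : cum l b ≤ cum l a := by
  rcases eq_or_lt_of_le hab with h | h
  · rw [h]
  · have h1 := H.dot l a b h
    have h2 : 0 ≤ (fun i : Fin r => if a.val ≤ i.val ∧ i.val < b.val then (1 : ℤ) else 0) ⬝ᵥ l := by
      refine Finset.sum_nonneg fun i _ => ?_
      refine mul_nonneg ?_ (hl i)
      beta_reduce
      split_ifs <;> norm_num
    linarith

lemma rearr {r : ℕ} (H : CUF r) (a b : Fin r → ℤ) (ha : ∀ i, 0 ≤ a i) (hb : ∀ i, 0 ≤ b i)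
    (σ : Equiv.Perm (Fin (r + 1))) :
    ∑ j, cum a j * cum b (σ j) ≤ ∑ j, cum a j * cum b j := by
  have hm : Monovary (cum a) (cum b) := by
    intro i j hij
    rcases le_or_gt i j with h | h
    · have := cum_mono H b hb i j h
      omega
    · exact cum_mono H a ha j i h.le
  exact hm.sum_mul_comp_perm_le_sum_mul

lemma chm {r : ℕ} (H : CUF r) (a b : Fin r → ℤ) (ha : ∀ i, 0 ≤ a i) (hb : ∀ i, 0 ≤ b i)
    (σ : Equiv.Perm (Fin (r + 1))) : GF (cum (a - b)) ≤ GF (cum (a - wA σ *ᵥ b)) := by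
  have h1 : GF (cum (a - b)) = GF (fun j => cum a j - cum b j) :=
    GF_shift _ _ 0 (fun j => by rw [cum_sub H]; ring)
  have h2 : GF (cum (a - wA σ *ᵥ b)) = GF (fun j => cum a j - cum b (σ j)) :=
    GF_shift _ _ (-(cum b (σ (Fin.last r)))) (fun j => by rw [cum_sub H, H.wc]; ring)
  rw [h1, h2, GF_eq H, GF_eq H]
  have e1 : ∑ j, (cum a j - cum b j) = ∑ j, cum a j - ∑ j, cum b j := by
    rw [Finset.sum_sub_distrib]
  have e2 : ∑ j, (cum a j - cum b (σ j)) = ∑ j, cum a j - ∑ j, cum b j := by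
    rw [Finset.sum_sub_distrib, Equiv.sum_comp σ (fun j => cum b j)]
  have e3 : ∑ j, (cum a j - cum b j) * (cum a j - cum b j) =
      ∑ j, cum a j * cum a j - 2 * ∑ j, cum a j * cum b j + ∑ j, cum b j * cum b j := by
    rw [Finset.mul_sum, ← Finset.sum_sub_distrib, ← Finset.sum_add_distrib]
    refine Finset.sum_congr rfl fun j _ => ?_
    ring
  have e4 : ∑ j, (cum a j - cum b (σ j)) * (cum a j - cum b (σ j)) =
      ∑ j, cum a j * cum a j - 2 * ∑ j, cum a j * cum b (σ j) + ∑ j, cum b j * cum b j := by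
    rw [← Equiv.sum_comp σ (fun j => cum b j * cum b j), Finset.mul_sum,
      ← Finset.sum_sub_distrib, ← Finset.sum_add_distrib]
    refine Finset.sum_congr rfl fun j _ => ?_
    ring
  rw [e1, e2, e3, e4]
  have h3 := rearr H a b ha hb σ
  have h4 : (0 : ℤ) ≤ (r : ℤ) + 1 := by positivity
  have h5 := mul_le_mul_of_nonneg_left h3 h4
  linarith

lemma polar {r : ℕ} (H : CUF r) (x y : Fin r → ℤ) :
    GF (cum (x + y)) = GF (cum x) + GF (cum y) + x ⬝ᵥ ((DA r).A *ᵥ y) := by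
  rw [H.pol x y]
  unfold GF
  rw [← Finset.sum_add_distrib, ← Finset.sum_add_distrib]
  refine Finset.sum_congr rfl fun p _ => ?_
  rw [H.cadd, H.cadd]
  ring

lemma mem_prs {r : ℕ} (i : Fin r) : (i.castSucc, i.succ) ∈ prs r := by
  unfold prs
  rw [Finset.mem_filter]
  exact ⟨Finset.mem_univ _, Fin.castSucc_lt_succ⟩

lemma dif_cum {r : ℕ} (H : CUF r) (l : Fin r → ℤ) (i : Fin r) :
    cum l i.castSucc - cum l i.succ = l i := by
  have h := congrFun (H.cd l) i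
  exact h

lemma sum_le {r : ℕ} (H : CUF r) (l : Fin r → ℤ) : ∑ i, (l i) ^ 2 ≤ GF (cum l) := by
  have h1 : ∑ i, (l i) ^ 2 = ∑ p ∈ Finset.univ.image (fun i : Fin r => (i.castSucc, i.succ)),
      (cum l p.1 - cum l p.2) ^ 2 := by
    rw [Finset.sum_image]
    · refine Finset.sum_congr rfl fun i _ => ?_
      rw [dif_cum H]
    · intro i _ j _ hij
      have := congrArg Prod.fst hij
      exact Fin.castSucc_injective r this
  rw [h1]
  unfold GF
  refine Finset.sum_le_sum_of_subset_of_nonneg ?_ (fun p _ _ => sq_nonneg _)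
  intro p hp
  rw [Finset.mem_image] at hp
  obtain ⟨i, _, hi⟩ := hp
  rw [← hi]
  exact mem_prs i

lemma det_ne {r : ℕ} (H : CUF r) : (DA r).A.det ≠ 0 := by
  intro h0
  rw [← Matrix.exists_mulVec_eq_zero_iff] at h0
  obtain ⟨v, hv, hA⟩ := h0
  apply hv
  have h1 := H.pol v v
  rw [hA, dotProduct_zero] at h1
  have h2 : ∑ p ∈ prs r, 2 * (cum v p.1 - cum v p.2) * (cum v p.1 - cum v p.2) =
      2 * GF (cum v) := by
    unfold GF
    rw [Finset.mul_sum]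
    refine Finset.sum_congr rfl fun p _ => ?_
    ring
  rw [h2] at h1
  have h3 := sum_le H v
  have h4 : ∑ i, (v i) ^ 2 ≤ 0 := by linarith
  funext i
  have h5 : (v i) ^ 2 ≤ ∑ i, (v i) ^ 2 :=
    Finset.single_le_sum (f := fun i => (v i) ^ 2) (fun j _ => sq_nonneg _) (Finset.mem_univ i)
  have h6 : (v i) ^ 2 = 0 := le_antisymm (by linarith) (sq_nonneg _)
  simpa using h6

lemma dif_le {r : ℕ} (H : CUF r) (l : Fin r → ℤ) (a b : Fin (r + 1)) (h : a < b) :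
    |cum l a - cum l b| ≤ ∑ i, |l i| := by
  rw [H.dot l a b h]
  unfold dotProduct
  refine (Finset.abs_sum_le_sum_abs _ _).trans (Finset.sum_le_sum fun i _ => ?_)
  rw [abs_mul]
  beta_reduce
  split_ifs
  · simp
  · simp

lemma GF_le {r : ℕ} (H : CUF r) (l : Fin r → ℤ) :
    GF (cum l) ≤ ((r : ℤ) + 1) ^ 2 * (∑ i, |l i|) ^ 2 := by
  have h1 : GF (cum l) ≤ ∑ p ∈ prs r, (∑ i, |l i|) ^ 2 := by
    unfold GF
    refine Finset.sum_le_sum fun p hp => ?_
    unfold prs at hp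
    rw [Finset.mem_filter] at hp
    rw [sq_le_sq]
    rw [abs_of_nonneg (Finset.sum_nonneg fun i _ => abs_nonneg (l i) : (0 : ℤ) ≤ ∑ i, |l i|)]
    exact dif_le H l p.1 p.2 hp.2
  refine h1.trans ?_
  rw [Finset.sum_const, nsmul_eq_mul]
  refine mul_le_mul_of_nonneg_right ?_ (sq_nonneg _)
  have h2 : (prs r).card ≤ (r + 1) ^ 2 := by
    unfold prs
    refine (Finset.card_filter_le _ _).trans ?_
    simp [sq]
  exact_mod_cast h2

lemma pd {r : ℕ} (H : CUF r) (l : Fin r → ℤ) :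
    (1 / ((r : ℝ) + 1) ^ 2) * (sz l - 1) ^ 2 ≤ ((GF (cum l) : ℤ) : ℝ) ∧
      (1 / ((r : ℝ) + 1) ^ 2) * ((GF (cum l) : ℤ) : ℝ) ≤ (sz l - 1) ^ 2 := by
  have hs : sz l - 1 = ((∑ i, |l i| : ℤ) : ℝ) := by
    unfold sz
    push_cast
    ring
  rw [hs]
  have hr : (0 : ℝ) < ((r : ℝ) + 1) ^ 2 := by positivity
  constructor
  · rw [one_div, inv_mul_le_iff₀ hr]
    have h1 : (∑ i, |l i|) ^ 2 ≤ (r : ℤ) * ∑ i, (l i) ^ 2 := by
      have h := sq_sum_le_card_mul_sum_sq (s := (Finset.univ : Finset (Fin r)))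
        (f := fun i => |l i|)
      simp only [sq_abs, Finset.card_univ, Fintype.card_fin] at h
      exact h
    have h2 := sum_le H l
    have h0 : 0 ≤ ∑ i, (l i) ^ 2 := Finset.sum_nonneg fun i _ => sq_nonneg _
    have h3 : (∑ i, |l i|) ^ 2 ≤ ((r : ℤ) + 1) ^ 2 * GF (cum l) := by
      have hr0 : (0 : ℤ) ≤ (r : ℤ) := by positivity
      calc (∑ i, |l i|) ^ 2 ≤ (r : ℤ) * ∑ i, (l i) ^ 2 := h1
        _ ≤ (r : ℤ) * GF (cum l) := mul_le_mul_of_nonneg_left h2 hr0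
        _ ≤ ((r : ℤ) + 1) ^ 2 * GF (cum l) := by
          refine mul_le_mul_of_nonneg_right ?_ (h0.trans h2)
          nlinarith
    exact_mod_cast h3
  · rw [one_div, inv_mul_le_iff₀ hr]
    have h := GF_le H l
    exact_mod_cast h

lemma rho {r : ℕ} (H : CUF r) (l : Fin r → ℤ) (hl : Reg l) (h1 : l ≠ 1) :
    GF (cum (1 : Fin r → ℤ)) < GF (cum l) := by
  have key : ∀ p ∈ prs r, 0 ≤ cum (1 : Fin r → ℤ) p.1 - cum (1 : Fin r → ℤ) p.2 ∧
      cum (1 : Fin r → ℤ) p.1 - cum (1 : Fin r → ℤ) p.2 ≤ cum l p.1 - cum l p.2 := by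
    intro p hp
    unfold prs at hp
    rw [Finset.mem_filter] at hp
    rw [H.dot 1 p.1 p.2 hp.2, H.dot l p.1 p.2 hp.2]
    constructor
    · refine Finset.sum_nonneg fun i _ => ?_
      refine mul_nonneg ?_ (by simp)
      beta_reduce
      split_ifs <;> norm_num
    · refine Finset.sum_le_sum fun i _ => ?_
      refine mul_le_mul_of_nonneg_left (hl i) ?_
      beta_reduce
      split_ifs <;> norm_num
  have h2 : ∃ i, 1 < l i := by
    by_contra hc
    push Not at hc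
    apply h1
    funext i
    exact le_antisymm (hc i) (hl i)
  obtain ⟨i, hi⟩ := h2
  unfold GF
  refine Finset.sum_lt_sum ?_ ⟨(i.castSucc, i.succ), mem_prs i, ?_⟩
  · intro p hp
    obtain ⟨ha, hb⟩ := key p hp
    exact pow_le_pow_left₀ ha hb 2
  · rw [dif_cum H, dif_cum H]
    have : (1 : Fin r → ℤ) i = 1 := rfl
    rw [this]
    nlinarith

end WAA2

theorem t_WAA2 : M_WAA2 := by
  intro hC r
  have H := hC r
  refine ⟨?_, ?_, ⟨?_, WAA2.det_ne H⟩, ?_, ?_⟩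
  · intro w hw l
    obtain ⟨σ, hs⟩ := WAA2.mem_W hw
    rw [← hs, WAA2.Q_eq, WAA2.Q_eq]
    exact WAA2.QW H σ l
  · intro a b ha hb w hw
    obtain ⟨σ, hs⟩ := WAA2.mem_W hw
    rw [← hs, WAA2.Q_eq, WAA2.Q_eq]
    exact WAA2.chm H a b ha hb σ
  · intro x y
    rw [WAA2.Q_eq, WAA2.Q_eq, WAA2.Q_eq]
    exact WAA2.polar H x y
  · refine ⟨1 / ((r : ℝ) + 1) ^ 2, by positivity, fun l => ?_⟩
    rw [WAA2.Q_eq]
    exact WAA2.pd H l
  · intro l hl h1
    rw [WAA2.Q_eq, WAA2.Q_eq]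
    exact WAA2.rho H l hl h1

end STZ
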